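import Pool.Agent.Lib.MP_85e637_an.Abs

/-!
# A01 basics on local unstable sets, unstable sets and chains
-/

open Filter Topology Set Metric

namespace Pool.MP85

section Basics
variable {Z : Type} [MetricSpace Z] {F : Z ≃ₜ Z} {x y z : Z} {ε ε' : ℝ}

theorem wul_symm (h : y ∈ WUl F ε x) : x ∈ WUl F ε y := fun n => by
  rw [dist_comm]; exact h n

theorem wul_trans (h : y ∈ WUl F ε x) (h' : z ∈ WUl F ε' y) : z ∈ WUl F (ε + ε') x := fun n =>
  (dist_triangle _ (bk F n y) _).trans (add_le_add (h n) (h' n))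

theorem wul_mono (hε : ε ≤ ε') : WUl F ε x ⊆ WUl F ε' x := fun _ h n => (h n).trans hε

theorem wul_self (hε : 0 ≤ ε) : x ∈ WUl F ε x := fun n => by
  rw [dist_self]; exact hε

theorem wul_dist (h : y ∈ WUl F ε x) : dist x y ≤ ε := h 0

theorem fw_add (n k : ℕ) : fw F (n + k) x = fw F n (fw F k x) := by
  simp only [fw, Function.iterate_add_apply]

theorem bk_add (n k : ℕ) : bk F (n + k) x = bk F n (bk F k x) := by
  simp only [bk, Function.iterate_add_apply]

theorem continuous_fw (n : ℕ) : Continuous (fw F n) := F.continuous.iterate n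

theorem continuous_bk (n : ℕ) : Continuous (bk F n) := F.symm.continuous.iterate n

theorem fw_bk (n : ℕ) : fw F n (bk F n x) = x := by
  induction n with
  | zero => rfl
  | succ n ih => rw [fw_succ, bk_succ', Homeomorph.apply_symm_apply, ih]

theorem bk_fw (n : ℕ) : bk F n (fw F n x) = x := by
  induction n with
  | zero => rfl
  | succ n ih => rw [bk_succ, fw_succ', Homeomorph.symm_apply_apply, ih]

theorem wul_bk (n : ℕ) (h : y ∈ WUl F ε x) : bk F n y ∈ WUl F ε (bk F n x) := fun k => by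
  rw [← bk_add, ← bk_add]; exact h (k + n)

theorem isClosed_wul : IsClosed {q : Z × Z | q.2 ∈ WUl F ε q.1} := by
  have h : {q : Z × Z | q.2 ∈ WUl F ε q.1} =
      ⋂ n, {q : Z × Z | dist (bk F n q.1) (bk F n q.2) ≤ ε} := by
    ext q
    simp only [mem_iInter, Set.mem_ofPred_eq]
    exact Iff.rfl
  rw [h]
  refine isClosed_iInter fun n => isClosed_le ?_ continuous_const
  exact ((continuous_bk n).comp continuous_fst).dist ((continuous_bk n).comp continuous_snd)

theorem isClosed_wul' : IsClosed (WUl F ε x) := by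
  have h : WUl F ε x = (fun y : Z => (x, y)) ⁻¹' {q : Z × Z | q.2 ∈ WUl F ε q.1} := rfl
  rw [h]
  exact isClosed_wul.preimage (by fun_prop)

theorem wu_self : x ∈ WU F x := by
  show Tendsto (fun n => dist (bk F n x) (bk F n x)) atTop (𝓝 0)
  simp only [dist_self]
  exact tendsto_const_nhds

theorem wu_symm (h : y ∈ WU F x) : x ∈ WU F y := by
  have h1 : Tendsto (fun n => dist (bk F n x) (bk F n y)) atTop (𝓝 0) := h
  show Tendsto (fun n => dist (bk F n y) (bk F n x)) atTop (𝓝 0)
  simpa only [dist_comm] using h1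

theorem wu_trans (h : y ∈ WU F x) (h' : z ∈ WU F y) : z ∈ WU F x := by
  have h1 : Tendsto (fun n => dist (bk F n x) (bk F n y)) atTop (𝓝 0) := h
  have h2 : Tendsto (fun n => dist (bk F n y) (bk F n z)) atTop (𝓝 0) := h'
  show Tendsto (fun n => dist (bk F n x) (bk F n z)) atTop (𝓝 0)
  exact squeeze_zero (fun n => dist_nonneg) (fun n => dist_triangle _ (bk F n y) _)
    (by simpa using h1.add h2)

theorem wu_bk (n : ℕ) : bk F n y ∈ WU F (bk F n x) ↔ y ∈ WU F x := by
  show Tendsto (fun k => dist (bk F k (bk F n x)) (bk F k (bk F n y))) atTop (𝓝 0) ↔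
    Tendsto (fun k => dist (bk F k x) (bk F k y)) atTop (𝓝 0)
  simp only [← bk_add]
  exact tendsto_add_atTop_iff_nat (f := fun k => dist (bk F k x) (bk F k y)) n

theorem wu_fw (n : ℕ) : fw F n y ∈ WU F (fw F n x) ↔ y ∈ WU F x := by
  rw [← wu_bk (F := F) n, bk_fw, bk_fw]

theorem wu_apply : F y ∈ WU F (F x) ↔ y ∈ WU F x := wu_fw (F := F) 1

theorem mem_wu_iff_eventually :
    y ∈ WU F x ↔ ∀ ε > 0, ∃ n, bk F n y ∈ WUl F ε (bk F n x) := by
  constructor
  · intro h ε hε
    have h1 : Tendsto (fun n => dist (bk F n x) (bk F n y)) atTop (𝓝 0) := h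
    obtain ⟨n, hn⟩ := (h1.eventually (ge_mem_nhds hε)).exists_forall_of_atTop
    refine ⟨n, fun k => ?_⟩
    rw [← bk_add, ← bk_add]
    exact hn (k + n) (Nat.le_add_left n k)
  · intro h
    show Tendsto (fun n => dist (bk F n x) (bk F n y)) atTop (𝓝 0)
    rw [Metric.tendsto_atTop]
    intro ε hε
    obtain ⟨n, hn⟩ := h (ε / 2) (half_pos hε)
    refine ⟨n, fun k hk => ?_⟩
    have h1 := hn (k - n)
    rw [← bk_add, ← bk_add, Nat.sub_add_cancel hk] at h1
    rw [Real.dist_0_eq_abs, abs_of_nonneg dist_nonneg]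
    linarith

theorem ch_mono (hε : ε ≤ ε') {k : ℕ} (h : Ch F ε k x y) : Ch F ε' k x y := by
  induction k generalizing x with
  | zero => exact h
  | succ k ih =>
    obtain ⟨z, hz, h1⟩ := h
    exact ⟨z, wul_mono hε hz, ih h1⟩

theorem ch_trans {k l : ℕ} (h : Ch F ε k x y) (h' : Ch F ε l y z) : Ch F ε (k + l) x z := by
  induction k generalizing x with
  | zero =>
    have h1 : y = x := h
    rw [Nat.zero_add, ← h1]
    exact h'
  | succ k ih =>
    obtain ⟨w, hw, h1⟩ := h
    rw [Nat.add_right_comm]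
    exact ⟨w, hw, ih h1⟩

theorem ch_symm {k : ℕ} (h : Ch F ε k x y) : Ch F ε k y x := by
  induction k generalizing x with
  | zero =>
    have h1 : y = x := h
    exact h1.symm
  | succ k ih =>
    obtain ⟨w, hw, h1⟩ := h
    exact ch_trans (ih h1) ⟨x, wul_symm hw, rfl⟩

end Basics

end Pool.MP85
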