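import Pool.Agent.Lib.MP_85e637_an.Abs
import Pool.Agent.Lib.MP_85e637_an.A01

/-!
# Row A02: first consequences of the axioms
-/

open Filter Topology Set Metric

namespace Pool.MP85

namespace AF
variable {m : ℕ} {X M : Type} [MetricSpace X] [MetricSpace M] (A : AF m X M)

theorem A02_phi_cont (x : X) : Continuous fun t : ℝ => A.φ t x :=
  A.φ_cont.comp (Continuous.prodMk continuous_id continuous_const)

theorem A02_symm_mem {x : X} : A.F.symm x ∈ A.Λ ↔ x ∈ A.Λ := by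
  rw [← A.FΛ, Homeomorph.apply_symm_apply]

theorem A02_symm_σ (x : X) : A.F.symm (A.σ x) = A.σ (A.F.symm x) := by
  apply A.F.injective
  rw [Homeomorph.apply_symm_apply, A.σF, Homeomorph.apply_symm_apply]

theorem isClosed_LT (x : X) : IsClosed (A.LT x) :=
  A.Λ_cpt.isClosed.preimage (A.A02_phi_cont x)

theorem bk_mem {x : X} (n : ℕ) : bk A.F n x ∈ A.Λ ↔ x ∈ A.Λ := by
  induction n with
  | zero => rw [bk_zero]
  | succ n ih => rw [bk_succ', A.A02_symm_mem, ih]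

theorem fw_mem {x : X} (n : ℕ) : fw A.F n x ∈ A.Λ ↔ x ∈ A.Λ := by
  induction n with
  | zero => rw [fw_zero]
  | succ n ih => rw [fw_succ', A.FΛ, ih]

theorem bk_σ (n : ℕ) (x : X) : bk A.F n (A.σ x) = A.σ (bk A.F n x) := by
  induction n with
  | zero => rw [bk_zero, bk_zero]
  | succ n ih => rw [bk_succ', bk_succ', ih, A.A02_symm_σ]

theorem fw_σ (n : ℕ) (x : X) : fw A.F n (A.σ x) = A.σ (fw A.F n x) := by
  induction n with
  | zero => rw [fw_zero, fw_zero]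
  | succ n ih => rw [fw_succ', fw_succ', ih, A.σF]

theorem wul_σ {x y : X} {ε : ℝ} : A.σ y ∈ WUl A.F ε (A.σ x) ↔ y ∈ WUl A.F ε x := by
  have h : ∀ n, dist (bk A.F n (A.σ x)) (bk A.F n (A.σ y)) = dist (bk A.F n x) (bk A.F n y) := by
    intro n; rw [A.bk_σ, A.bk_σ, A.σ_isom]
  constructor
  · intro hh n; rw [← h]; exact hh n
  · intro hh n; rw [h]; exact hh n

theorem wu_σ {x y : X} : A.σ y ∈ WU A.F (A.σ x) ↔ y ∈ WU A.F x := by
  have h : (fun n => dist (bk A.F n (A.σ x)) (bk A.F n (A.σ y))) =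
      fun n => dist (bk A.F n x) (bk A.F n y) := by
    funext n; rw [A.bk_σ, A.bk_σ, A.σ_isom]
  show Tendsto _ _ _ ↔ Tendsto _ _ _
  rw [h]

/-- the inverse time change of one backward step -/
theorem A02_symm_time (x : X) : ∃ h : ℝ → ℝ, Continuous h ∧ StrictMono h ∧
    Function.Surjective h ∧ h 0 = 0 ∧ ∀ u, A.F.symm (A.φ u x) = A.φ (h u) (A.F.symm x) := by
  let e : ℝ ≃o ℝ := StrictMono.orderIsoOfSurjective (A.τ (A.F.symm x)) (A.τ_mono _) (A.τ_surj _)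
  have he : ∀ t, e t = A.τ (A.F.symm x) t := fun t => rfl
  refine ⟨e.symm, e.symm.continuous, e.symm.strictMono, e.symm.surjective, ?_, ?_⟩
  · rw [OrderIso.symm_apply_eq, he, A.τ_zero]
  · intro u
    apply A.F.injective
    rw [Homeomorph.apply_symm_apply, A.Fφ, Homeomorph.apply_symm_apply, ← he,
      OrderIso.apply_symm_apply]

/-- time change of the backward iterates -/
theorem bk_time (n : ℕ) (x : X) : ∃ h : ℝ → ℝ, Continuous h ∧ StrictMono h ∧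
    Function.Surjective h ∧ h 0 = 0 ∧ ∀ u, bk A.F n (A.φ u x) = A.φ (h u) (bk A.F n x) := by
  induction n with
  | zero => exact ⟨id, continuous_id, strictMono_id, Function.surjective_id, rfl, fun u => rfl⟩
  | succ n ih =>
    obtain ⟨h, h1, h2, h3, h4, h5⟩ := ih
    obtain ⟨g, g1, g2, g3, g4, g5⟩ := A.A02_symm_time (bk A.F n x)
    refine ⟨g ∘ h, g1.comp h1, g2.comp h2, g3.comp h3, ?_, ?_⟩
    · rw [Function.comp_apply, h4, g4]
    · intro u
      rw [bk_succ', h5, g5, bk_succ', Function.comp_apply]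

theorem fw_time (n : ℕ) (x : X) : ∃ h : ℝ → ℝ, Continuous h ∧ StrictMono h ∧
    Function.Surjective h ∧ h 0 = 0 ∧ ∀ u, fw A.F n (A.φ u x) = A.φ (h u) (fw A.F n x) := by
  induction n with
  | zero => exact ⟨id, continuous_id, strictMono_id, Function.surjective_id, rfl, fun u => rfl⟩
  | succ n ih =>
    obtain ⟨h, h1, h2, h3, h4, h5⟩ := ih
    have hc : Continuous (A.τ (fw A.F n x)) :=
      A.τ_cont.comp (Continuous.prodMk continuous_const continuous_id)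
    refine ⟨A.τ (fw A.F n x) ∘ h, hc.comp h1, (A.τ_mono _).comp h2, (A.τ_surj _).comp h3, ?_, ?_⟩
    · rw [Function.comp_apply, h4, A.τ_zero]
    · intro u
      rw [fw_succ', h5, A.Fφ, fw_succ', Function.comp_apply]

theorem wul_pi {x y : X} (hx : x ∈ A.Λ) (hy : y ∈ WUl A.F A.ε0 x) (n : ℕ) :
    dist (A.π (bk A.F n x)) (A.π (bk A.F n y)) ≤ dist (A.π x) (A.π y) / 2 ^ n := by
  induction n with
  | zero => simp [bk_zero]
  | succ n ih =>
    rw [bk_succ', bk_succ', pow_succ, ← div_div]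
    refine (A.U2 _ ((A.bk_mem n).2 hx) _ (wul_bk n hy)).trans ?_
    exact div_le_div_of_nonneg_right ih (by norm_num)

/-- uniform contraction of plaques in the past -/
theorem wul_unif (ε : ℝ) (hε : 0 < ε) : ∃ n0, ∀ n ≥ n0, ∀ x ∈ A.Λ, ∀ y ∈ WUl A.F A.ε0 x,
    bk A.F n y ∈ WUl A.F ε (bk A.F n x) := by
  obtain ⟨r, hr, hU⟩ := A.U3 ε hε
  obtain ⟨n0, hn0⟩ : ∃ n0 : ℕ, A.ε0 / r < 2 ^ n0 := by
    obtain ⟨n0, hn0⟩ := pow_unbounded_of_one_lt (A.ε0 / r) (one_lt_two : (1 : ℝ) < 2)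
    exact ⟨n0, hn0⟩
  refine ⟨n0, fun n hn x hx y hy => ?_⟩
  refine hU _ ((A.bk_mem n).2 hx) _ (wul_bk n hy) ?_
  have h1 : dist (A.π x) (A.π y) ≤ A.ε0 := (A.π_lip x y).trans (wul_dist hy)
  have h2 : (2 : ℝ) ^ n0 ≤ 2 ^ n := pow_le_pow_right₀ (by norm_num) hn
  calc dist (A.π (bk A.F n x)) (A.π (bk A.F n y)) ≤ dist (A.π x) (A.π y) / 2 ^ n := A.wul_pi hx hy n
    _ ≤ A.ε0 / 2 ^ n := div_le_div_of_nonneg_right h1 (by positivity)
    _ < r := by
        rw [div_lt_iff₀ (by positivity), mul_comm, ← div_lt_iff₀ hr]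
        exact hn0.trans_le h2

theorem wul_wu {x : X} (hx : x ∈ A.Λ) : WUl A.F A.ε0 x ⊆ WU A.F x := by
  intro y hy
  rw [mem_wu_iff_eventually]
  intro ε hε
  obtain ⟨n0, h⟩ := A.wul_unif ε hε
  exact ⟨n0, h n0 le_rfl x hx y hy⟩

theorem wu_Λ {x : X} (hx : x ∈ A.Λ) : WU A.F x ⊆ A.Λ := by
  intro y hy
  obtain ⟨n, hn⟩ := mem_wu_iff_eventually.1 hy A.ε0 A.ε0_pos
  exact (A.bk_mem n).1 (A.U1 _ ((A.bk_mem n).2 hx) hn)

theorem ch_mem (k : ℕ) {x y : X} (hx : x ∈ A.Λ) (h : Ch A.F A.ε0 k x y) :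
    y ∈ A.Λ ∧ y ∈ WU A.F x := by
  induction k generalizing x with
  | zero =>
    have : y = x := h
    rw [this]
    exact ⟨hx, wu_self⟩
  | succ k ih =>
    obtain ⟨z, hz, hzy⟩ := h
    have hzΛ := A.U1 x hx hz
    obtain ⟨h1, h2⟩ := ih hzΛ hzy
    exact ⟨h1, wu_trans (A.wul_wu hx hz) h2⟩

theorem ch_pi (k : ℕ) {x y : X} (hx : x ∈ A.Λ) (h : Ch A.F A.ε0 k x y) (n : ℕ) :
    dist (A.π (bk A.F n x)) (A.π (bk A.F n y)) ≤ k * A.ε0 / 2 ^ n := by
  induction k generalizing x with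
  | zero =>
    have : y = x := h
    rw [this]; simp
  | succ k ih =>
    obtain ⟨z, hz, hzy⟩ := h
    have hzΛ := A.U1 x hx hz
    have h1 : dist (A.π x) (A.π z) ≤ A.ε0 := (A.π_lip x z).trans (wul_dist hz)
    calc dist (A.π (bk A.F n x)) (A.π (bk A.F n y))
        ≤ dist (A.π (bk A.F n x)) (A.π (bk A.F n z)) + dist (A.π (bk A.F n z)) (A.π (bk A.F n y)) :=
          dist_triangle _ _ _
      _ ≤ A.ε0 / 2 ^ n + k * A.ε0 / 2 ^ n := by
          refine add_le_add ((A.wul_pi hx hz n).trans ?_) (ih hzΛ hzy)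
          exact div_le_div_of_nonneg_right h1 (by positivity)
      _ = ((k + 1 : ℕ) : ℝ) * A.ε0 / 2 ^ n := by push_cast; ring

theorem ch_unif (k : ℕ) (ε : ℝ) (hε : 0 < ε) : ∃ n0, ∀ n ≥ n0, ∀ x ∈ A.Λ, ∀ y,
    Ch A.F A.ε0 k x y → bk A.F n y ∈ WUl A.F ε (bk A.F n x) := by
  induction k generalizing ε with
  | zero =>
    refine ⟨0, fun n _ x _ y hy => ?_⟩
    have : y = x := hy
    rw [this]; exact wul_self hε.le
  | succ k ih =>
    obtain ⟨n1, h1⟩ := A.wul_unif (ε / 2) (by positivity)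
    obtain ⟨n2, h2⟩ := ih (ε / 2) (by positivity)
    refine ⟨max n1 n2, fun n hn x hx y hy => ?_⟩
    obtain ⟨z, hz, hzy⟩ := hy
    have hzΛ := A.U1 x hx hz
    have h3 := h1 n ((le_max_left _ _).trans hn) x hx z hz
    have h4 := h2 n ((le_max_right _ _).trans hn) z hzΛ y hzy
    have := wul_trans h3 h4
    rwa [add_halves] at this

theorem σ_not_wu {x : X} (hx : x ∈ A.Λ) : A.σ x ∉ WU A.F x := by
  intro h
  have h1 : Tendsto (fun n => dist (bk A.F n x) (bk A.F n (A.σ x))) atTop (𝓝 0) := h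
  have h2 := (h1.eventually (gt_mem_nhds A.c0_pos)).exists
  obtain ⟨n, hn⟩ := h2
  rw [A.bk_σ] at hn
  exact absurd (A.σ_sep _) (not_le.2 hn)

theorem σ_not_wul {x y : X} (hy : y ∈ WUl A.F A.ε0 x) : A.σ y ∉ WUl A.F A.ε0 x := by
  intro h
  have h1 := wul_dist hy
  have h2 := wul_dist h
  have h3 := A.σ_sep y
  have h4 := dist_triangle y x (A.σ y)
  have h5 := A.ε0_lt
  have h6 := A.ε0_pos
  rw [dist_comm y x] at h4
  linarith

theorem uniq {b y : X} (hb : b ∈ A.Λ) {s t : ℝ} (hst : |s - t| ≤ A.δ0)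
    (hs : A.φ s y ∈ WUl A.F A.ε0 b) (ht : A.φ t y ∈ WUl A.F A.ε0 b) : s = t := by
  have h := A.CS1 b hb (A.φ t y) (s - t) hst ht (by rw [← A.φ_add, sub_add_cancel]; exact hs)
  linarith

/-- every stable leaf meets `Λ` -/
theorem exists_LT (x : X) : ∃ t : ℝ, A.φ t x ∈ A.Λ := by
  obtain ⟨r, hr, hC⟩ := A.CS2 A.ε0 A.ε0_pos
  obtain ⟨n, hn⟩ := ((A.attr x).eventually (gt_mem_nhds hr)).exists
  obtain ⟨b, hb, hbd⟩ := (infDist_lt_iff A.Λ_ne).1 hn
  obtain ⟨t, _, ht⟩ := hC b hb (fw A.F n x) (by rw [dist_comm]; exact hbd)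
  obtain ⟨h, _, _, hsurj, _, h5⟩ := A.fw_time n x
  obtain ⟨u, rfl⟩ := hsurj t
  refine ⟨u, (A.fw_mem n).1 ?_⟩
  rw [h5]
  exact A.U1 b hb ht

/-- plaques are compact in the leaf topology -/
theorem compact_plaque {x x' : X} (hx : x ∈ A.Λ) (hx' : x' ∈ A.Λ) :
    IsCompact {y : ULeaf A.F x | y.val ∈ WUl A.F (A.ε0 / 2) x'} := by
  have hε2 : A.ε0 / 2 ≤ A.ε0 := by linarith [A.ε0_pos]
  refine IsSeqCompact.isCompact ?_
  intro y hy
  have hyΛ : ∀ n, (y n).val ∈ A.Λ := fun n => A.U1 x' hx' (wul_mono hε2 (hy n))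
  obtain ⟨z, hz, ψ, hψ, hlim⟩ := A.Λ_cpt.isSeqCompact hyΛ
  have hzW : z ∈ WUl A.F (A.ε0 / 2) x' :=
    isClosed_wul'.mem_of_tendsto hlim (Eventually.of_forall fun n => hy (ψ n))
  have hyz : ∀ n, (y n).val ∈ WUl A.F A.ε0 z := by
    intro n
    have := wul_trans (wul_symm hzW) (hy n)
    rwa [add_halves] at this
  have hzx : z ∈ WU A.F x := wu_trans (y 0).prop (wu_symm (A.wul_wu hz (hyz 0)))
  refine ⟨⟨z, hzx⟩, hzW, ψ, hψ, ?_⟩
  rw [Metric.tendsto_atTop]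
  intro ε hε
  obtain ⟨r, hr, hU⟩ := A.U3 (ε / 2) (by positivity)
  obtain ⟨N, hN⟩ := (Metric.tendsto_atTop.1 hlim) r hr
  refine ⟨N, fun n hn => ?_⟩
  have h1 : dist (A.π z) (A.π (y (ψ n)).val) < r := by
    refine (A.π_lip _ _).trans_lt ?_
    rw [dist_comm]; exact hN n hn
  have h2 := hU z hz _ (hyz (ψ n)) h1
  have h3 : dist (⟨z, hzx⟩ : ULeaf A.F x) (y (ψ n)) ≤ ε / 2 := by
    rw [ULeaf.dist_le_iff]; exact h2
  rw [dist_comm]
  show dist (⟨z, hzx⟩ : ULeaf A.F x) (y (ψ n)) < ε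
  linarith

/-- in a leaf of `Λ` the leaf topology is locally the topology of `X` restricted to plaques -/
theorem leaf_nhds {x : X} (hx : x ∈ A.Λ) (y : ULeaf A.F x) (ε : ℝ) (hε : 0 < ε) :
    ∃ r > 0, ∀ y' : ULeaf A.F x, y'.val ∈ WUl A.F A.ε0 y.val → dist y.val y'.val < r →
      dist y y' < ε := by
  obtain ⟨r, hr, hU⟩ := A.U3 (ε / 2) (by positivity)
  refine ⟨r, hr, fun y' hy' hd => ?_⟩
  have h2 := hU y.val (A.wu_Λ hx y.prop) _ hy' ((A.π_lip _ _).trans_lt hd)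
  have h3 : dist y y' ≤ ε / 2 := by
    rw [ULeaf.dist_le_iff]; exact h2
  linarith

end AF

end Pool.MP85
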