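import Pool.Agent.Lib.MP_85e637_an.Abs
import Pool.Agent.Lib.MP_85e637_an.A01
import Pool.Agent.Lib.MP_85e637_an.A02

open Filter Topology Set Metric

namespace Pool.MP85

/-- a bounded function whose graph is contained in a closed set that determines it is continuous -/
theorem A03_cont {g : ℝ → ℝ} {a b : ℝ} (hg : ∀ s, g s ∈ Icc a b) (C : Set (ℝ × ℝ))
    (hC : IsClosed C) (h1 : ∀ s, (s, g s) ∈ C)
    (h2 : ∀ s v, v ∈ Icc a b → (s, v) ∈ C → v = g s) : Continuous g := by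
  refine continuous_iff_continuousAt.2 fun s => ?_
  refine isCompact_Icc.tendsto_nhds_of_unique_mapClusterPt (Eventually.of_forall hg)
    fun v hv hv' => h2 s v hv ?_
  obtain ⟨U, hU, hU'⟩ := mapClusterPt_iff_ultrafilter.1 hv'
  have hU0 : Tendsto (fun u : ℝ => u) (U : Filter ℝ) (𝓝 s) := hU
  exact hC.mem_of_tendsto (b := (U : Filter ℝ)) (f := fun u => (u, g u))
    (hU0.prodMk_nhds hU') (Eventually.of_forall h1)

namespace AF
variable {m : ℕ} {X M : Type} [MetricSpace X] [MetricSpace M] (A : AF m X M)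

/-- uniform continuity of the flow at `[-T, T] × Λ` -/
theorem A03_unif (T r : ℝ) (hr : 0 < r) : ∃ ρ > 0, ∀ x ∈ A.Λ, ∀ y, dist x y < ρ →
    ∀ t : ℝ, |t| ≤ T → dist (A.φ t x) (A.φ t y) < r := by
  have hK : IsCompact ((Icc (-T) T) ×ˢ A.Λ) := isCompact_Icc.prod A.Λ_cpt
  have h := hK.uniformContinuousAt_of_continuousAt (fun q : ℝ × X => A.φ q.1 q.2)
    (fun a _ => A.φ_cont.continuousAt) (r := {p : X × X | dist p.1 p.2 < r})
    (Metric.dist_mem_uniformity hr)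
  obtain ⟨ρ, hρ, h'⟩ := Metric.mem_uniformity_dist.1 h
  refine ⟨ρ, hρ, fun x hx y hxy t ht => ?_⟩
  have h1 : dist ((t, x) : ℝ × X) (t, y) < ρ := by
    rw [Prod.dist_eq]; simp [hxy]
  exact h' h1 ⟨⟨by linarith [(abs_le.1 ht).1], by linarith [(abs_le.1 ht).2]⟩, hx⟩

/-- the slid time: near `t`, and the point of `y` at this time is in the plaque of `φ_t x` -/
def A03_P (δ : ℝ) (x y : X) (t s : ℝ) : Prop := |s - t| ≤ δ ∧ A.φ s y ∈ WUl A.F δ (A.φ t x)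

theorem A03_uniq {δ : ℝ} (h1 : δ ≤ A.ε0) (h2 : 2 * δ ≤ A.δ0) {x y : X} {t s s' : ℝ}
    (ht : t ∈ A.LT x) (hs : A.A03_P δ x y t s) (hs' : A.A03_P δ x y t s') : s = s' := by
  refine A.uniq (b := A.φ t x) (y := y) ht ?_ (wul_mono h1 hs.2) (wul_mono h1 hs'.2)
  have a1 := abs_le.1 hs.1
  have a2 := abs_le.1 hs'.1
  exact abs_le.2 ⟨by linarith, by linarith⟩

theorem A03_exists (T δ : ℝ) (hδ : 0 < δ) : ∃ ρ > 0, ∀ x ∈ A.Λ, ∀ y, dist x y < ρ →
    ∀ t ∈ A.LT x, |t| ≤ T → ∃ s, A.A03_P δ x y t s := by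
  obtain ⟨r, hr, hr'⟩ := A.CS2 δ hδ
  obtain ⟨ρ, hρ, hρ'⟩ := A.A03_unif T r hr
  refine ⟨ρ, hρ, fun x hx y hxy t ht htT => ?_⟩
  obtain ⟨s, hs, hs'⟩ := hr' (A.φ t x) ht (A.φ t y) (hρ' x hx y hxy t htT)
  exact ⟨s + t, by simpa using hs, by rw [A.φ_add]; exact hs'⟩

/-- monotonicity of sliding along a path -/
theorem A03_mono {δ : ℝ} (hδ : 0 < δ) (h1 : 2 * δ ≤ A.ε0) (h2 : 2 * δ ≤ A.δ0) {x y : X}
    {c : ℝ → X} (hc : Continuous c) (hc0 : c 0 = x) (hc1 : c 1 = y) {t t' : ℝ}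
    (ht : t ∈ A.LT x) (ht' : t' ∈ A.LT x) (htt : t < t')
    (e : ∀ u, ∃ s, A.A03_P δ x (c u) t s) (e' : ∀ u, ∃ s, A.A03_P δ x (c u) t' s)
    {s s' : ℝ} (hs : A.A03_P δ x y t s) (hs' : A.A03_P δ x y t' s') : s < s' := by
  have hδ1 : δ ≤ A.ε0 := by linarith
  by_cases hcase : t' - t ≤ 2 * δ
  swap
  · have a1 := abs_le.1 hs.1
    have a2 := abs_le.1 hs'.1
    linarith
  choose g hg using e
  choose g' hg' using e'
  have key : ∀ (t : ℝ), t ∈ A.LT x → ∀ g : ℝ → ℝ, (∀ u, A.A03_P δ x (c u) t (g u)) →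
      Continuous g := by
    intro t ht g hg
    refine A03_cont (a := t - δ) (b := t + δ) (fun s => ?_)
      {p | A.φ p.2 (c p.1) ∈ WUl A.F δ (A.φ t x)} ?_ (fun s => (hg s).2) ?_
    · have a1 := abs_le.1 (hg s).1
      exact ⟨by linarith, by linarith⟩
    · refine isClosed_wul'.preimage (f := fun p : ℝ × ℝ => A.φ p.2 (c p.1)) ?_
      exact A.φ_cont.comp (continuous_snd.prodMk (hc.comp continuous_fst))
    · intro s v hv hv'
      refine A.A03_uniq hδ1 h2 ht (s := v) (s' := g s) ⟨?_, hv'⟩ (hg s)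
      exact abs_le.2 ⟨by linarith [hv.1], by linarith [hv.2]⟩
  have k1 := key t ht g hg
  have k2 := key t' ht' g' hg'
  have hne : ∀ u, g u ≠ g' u := by
    intro u hu
    have b1 := (hg u).2
    have b2 := (hg' u).2
    rw [← hu] at b2
    have b3 : A.φ t' x ∈ WUl A.F (δ + δ) (A.φ t x) := wul_trans b1 (wul_symm b2)
    have b4 := A.CS1 (A.φ t x) ht (A.φ t x) (t' - t) (by rw [abs_of_pos (by linarith)]; linarith)
      (wul_self A.ε0_pos.le) (by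
        rw [← A.φ_add, sub_add_cancel]
        exact wul_mono (by linarith) b3)
    linarith
  have hx0 : ∀ t, A.A03_P δ x x t t := fun t => ⟨by simpa using hδ.le, wul_self hδ.le⟩
  have z1 : g 0 = t := A.A03_uniq hδ1 h2 ht (by simpa [hc0] using hg 0) (hx0 t)
  have z2 : g' 0 = t' := A.A03_uniq hδ1 h2 ht' (by simpa [hc0] using hg' 0) (hx0 t')
  have w1 : g 1 = s := A.A03_uniq hδ1 h2 ht (by simpa [hc1] using hg 1) hs
  have w2 : g' 1 = s' := A.A03_uniq hδ1 h2 ht' (by simpa [hc1] using hg' 1) hs'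
  by_contra hcon
  have hle : g' 1 - g 1 ≤ 0 := by rw [w1, w2]; linarith
  have h0 : 0 ≤ g' 0 - g 0 := by rw [z1, z2]; linarith
  have := intermediate_value_Icc' (zero_le_one : (0:ℝ) ≤ 1) (f := fun u => g' u - g u)
    (k2.sub k1).continuousOn
  obtain ⟨u, -, hu⟩ := this ⟨hle, h0⟩
  exact hne u (by simp only at hu; linarith)

theorem sld (T ε : ℝ) (hε : 0 < ε) : ∃ ε' > 0, ∀ x ∈ A.Λ, ∀ y ∈ WUl A.F ε' x, ∃ h : ℝ → ℝ,
    h 0 = 0 ∧
    (∀ t ∈ A.LT x, |t| ≤ T → |h t - t| ≤ ε ∧ A.φ (h t) y ∈ WUl A.F ε (A.φ t x)) ∧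
    (∀ t ∈ A.LT x, ∀ t' ∈ A.LT x, |t| ≤ T → |t'| ≤ T → t < t' → h t < h t') ∧
    (∀ t' ∈ A.LT y, |t'| ≤ T - ε → ∃ t ∈ A.LT x, |t| ≤ T ∧ h t = t') := by
  obtain ⟨δ, hδ, d1, d2, d3⟩ : ∃ δ > 0, δ ≤ ε ∧ 2 * δ ≤ A.ε0 ∧ 2 * δ ≤ A.δ0 := by
    refine ⟨min ε (min (A.ε0 / 4) (A.δ0 / 8)), ?_, min_le_left _ _, ?_, ?_⟩
    · have := A.ε0_pos; have := A.δ0_pos
      exact lt_min hε (lt_min (by linarith) (by linarith))
    · have h1 := (min_le_right ε (min (A.ε0 / 4) (A.δ0 / 8))).trans (min_le_left _ _)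
      have := A.ε0_pos; linarith
    · have h1 := (min_le_right ε (min (A.ε0 / 4) (A.δ0 / 8))).trans (min_le_right _ _)
      have := A.δ0_pos; linarith
  have d4 : δ ≤ A.ε0 := by linarith
  obtain ⟨ρ, hρ, ex⟩ := A.A03_exists T δ hδ
  obtain ⟨ε'', hε'', e1, e2, e3⟩ : ∃ ε'' > 0, ε'' < ρ ∧ ε'' ≤ δ ∧ ε'' ≤ A.ε0 := by
    refine ⟨min (ρ / 2) δ, lt_min (by linarith) hδ, (min_le_left _ _).trans_lt (by linarith),
      min_le_right _ _, (min_le_right _ _).trans d4⟩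
  obtain ⟨ε1, hε1, lc⟩ := A.LC ε'' hε''
  refine ⟨min ε1 ε'', lt_min hε1 hε'', fun x hx y hy => ?_⟩
  have hy1 : y ∈ WUl A.F ε1 x := wul_mono (min_le_left _ _) hy
  have hy2 : y ∈ WUl A.F ε'' x := wul_mono (min_le_right _ _) hy
  have hyΛ : y ∈ A.Λ := A.U1 x hx (wul_mono e3 hy2)
  have hxy : dist x y < ρ := (wul_dist hy2).trans_lt e1
  have hex := ex x hx y hxy
  classical
  let h : ℝ → ℝ := fun t => if ht : t ∈ A.LT x ∧ |t| ≤ T then (hex t ht.1 ht.2).choose else 0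
  have hh : ∀ t ∈ A.LT x, |t| ≤ T → A.A03_P δ x y t (h t) := by
    intro t ht htT
    simp only [h, dif_pos (And.intro ht htT)]
    exact (hex t ht htT).choose_spec
  refine ⟨h, ?_, ?_, ?_, ?_⟩
  · by_cases h0 : (0:ℝ) ∈ A.LT x ∧ |(0:ℝ)| ≤ T
    · refine A.A03_uniq d4 d3 h0.1 (hh 0 h0.1 h0.2) ⟨by simpa using hδ.le, ?_⟩
      rw [A.φ_zero, A.φ_zero]
      exact wul_mono e2 hy2
    · simp only [h, dif_neg h0]
  · intro t ht htT
    exact ⟨(hh t ht htT).1.trans d1, wul_mono d1 (hh t ht htT).2⟩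
  · intro t ht t' ht' htT htT' htt
    obtain ⟨c, hc, hc0, hc1, hcW⟩ := lc x hx y hy1
    have hproj : ∀ u : ℝ, max 0 (min u 1) ∈ Icc (0:ℝ) 1 := fun u =>
      ⟨le_max_left _ _, max_le zero_le_one (min_le_right _ _)⟩
    refine A.A03_mono hδ d2 d3 (c := fun u => c (max 0 (min u 1))) ?_ ?_ ?_ ht ht' htt ?_ ?_
      (hh t ht htT) (hh t' ht' htT')
    · exact hc.comp_continuous (by fun_prop) hproj
    · simp [hc0]
    · simp [hc1]
    · intro u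
      exact ex x hx _ ((wul_dist (hcW _ (hproj u))).trans_lt e1) t ht htT
    · intro u
      exact ex x hx _ ((wul_dist (hcW _ (hproj u))).trans_lt e1) t' ht' htT'
  · intro t' ht' htT'
    have htT2 : |t'| ≤ T := by linarith
    obtain ⟨t, ht1, ht2⟩ := ex y hyΛ x (by rwa [dist_comm]) t' ht' htT2
    have htx : t ∈ A.LT x := A.U1 _ ht' (wul_mono d4 ht2)
    have htT : |t| ≤ T := by
      have a1 := abs_le.1 ht1
      have a2 := abs_le.1 htT'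
      exact abs_le.2 ⟨by linarith, by linarith⟩
    refine ⟨t, htx, htT, A.A03_uniq d4 d3 htx (hh t htx htT) ⟨?_, wul_symm ht2⟩⟩
    rwa [abs_sub_comm]

end AF
end Pool.MP85
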