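import Pool.Agent.Lib.MP_85e637_an.Abs

/-!
# B01: topology of leaves
-/

open Filter Topology Set Metric

namespace Pool.MP85

section LeafTop
variable {Z : Type} [MetricSpace Z] {F : Z ≃ₜ Z} {x : Z} {m : ℕ}

/-- two points of the leaf lie in one cell -/
theorem B01_pair {ψ : ℕ → EuclideanSpace ℝ (Fin m) → ULeaf F x}
    (h2 : ∀ n, range (ψ n) ⊆ range (ψ (n + 1))) (h3 : (⋃ n, range (ψ n)) = univ)
    (y z : ULeaf F x) : ∃ n, y ∈ range (ψ n) ∧ z ∈ range (ψ n) := by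
  have hmono : Monotone fun n => range (ψ n) := monotone_nat_of_le_succ h2
  have hy : y ∈ ⋃ n, range (ψ n) := h3 ▸ mem_univ y
  have hz : z ∈ ⋃ n, range (ψ n) := h3 ▸ mem_univ z
  obtain ⟨a, ha⟩ := mem_iUnion.1 hy
  obtain ⟨b, hb⟩ := mem_iUnion.1 hz
  exact ⟨max a b, hmono (le_max_left a b) ha, hmono (le_max_right a b) hb⟩

theorem leaf_preconnected (h : Exh m F x) : IsPreconnected (univ : Set (ULeaf F x)) := by
  obtain ⟨ψ, h1, h2, h3⟩ := h
  refine isPreconnected_of_forall_pair fun y _ z _ => ?_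
  obtain ⟨n, hy, hz⟩ := B01_pair h2 h3 y z
  exact ⟨range (ψ n), subset_univ _, hy, hz, isPreconnected_range (h1 n).continuous⟩

/-- from `Set.Countable.isPathConnected_compl_of_one_lt_rank` in each cell -/
theorem leaf_compl_countable (hm : 2 ≤ m) (h : Exh m F x) {C : Set (ULeaf F x)}
    (hC : C.Countable) : IsPreconnected Cᶜ := by
  obtain ⟨ψ, h1, h2, h3⟩ := h
  refine isPreconnected_of_forall_pair fun y hy' z hz' => ?_
  obtain ⟨n, hy, hz⟩ := B01_pair h2 h3 y z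
  have hrank : 1 < Module.rank ℝ (EuclideanSpace ℝ (Fin m)) := by
    rw [← Module.finrank_eq_rank, finrank_euclideanSpace_fin]
    exact_mod_cast hm
  have hc : ((ψ n) ⁻¹' C).Countable := hC.preimage (h1 n).injective
  have hp : IsPreconnected (((ψ n) ⁻¹' C)ᶜ) :=
    (hc.isPathConnected_compl_of_one_lt_rank hrank).isConnected.isPreconnected
  refine ⟨ψ n '' (((ψ n) ⁻¹' C)ᶜ), ?_, ?_, ?_, hp.image _ (h1 n).continuous.continuousOn⟩
  · rintro _ ⟨w, hw, rfl⟩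
    exact hw
  · obtain ⟨w, rfl⟩ := hy
    exact ⟨w, hy', rfl⟩
  · obtain ⟨w, rfl⟩ := hz
    exact ⟨w, hz', rfl⟩

theorem B01_ch_snoc {ε : ℝ} : ∀ (k : ℕ) {x y z : Z}, Ch F ε k x y → z ∈ WUl F ε y →
    Ch F ε (k + 1) x z
  | 0, x, y, z, h, hz => by
    have h' : y = x := h
    subst h'
    exact ⟨z, hz, rfl⟩
  | k + 1, x, y, z, h, hz => by
    obtain ⟨w, hw, hc⟩ := h
    exact ⟨w, hw, B01_ch_snoc k hc hz⟩

theorem B01_wu_self : x ∈ WU F x := by
  simp [WU]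

/-- chains along the leaf (the leaf is connected) -/
theorem wu_ch (h : Exh m F x) {y : Z} (hy : y ∈ WU F x) {ε : ℝ} (hε : 0 < ε) :
    ∃ k, Ch F ε k x y := by
  set S : Set (ULeaf F x) := {y | ∃ k, Ch F ε k x y.val} with hS
  have hstep : ∀ y ∈ S, ∀ y' : ULeaf F x, dist y y' < ε → y' ∈ S := by
    rintro y ⟨k, hk⟩ y' hd
    exact ⟨k + 1, B01_ch_snoc k hk ((ULeaf.dist_le_iff y y' ε).1 hd.le)⟩
  have hopen : IsOpen S := by
    rw [Metric.isOpen_iff]
    intro y hy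
    refine ⟨ε, hε, fun y' hy' => hstep y hy y' ?_⟩
    rw [dist_comm]; exact hy'
  have hclosed : IsClosed S := by
    rw [← isOpen_compl_iff, Metric.isOpen_iff]
    intro y hy
    refine ⟨ε, hε, fun y' hy' hy'' => hy (hstep y' hy'' y hy')⟩
  have hne : (univ ∩ S).Nonempty := ⟨⟨x, B01_wu_self⟩, mem_univ _, 0, rfl⟩
  have hsub := (leaf_preconnected h).subset_isClopen ⟨hclosed, hopen⟩ hne
  exact hsub (mem_univ (⟨y, hy⟩ : ULeaf F x))
end LeafTop

end Pool.MP85
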