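import Pool.Agent.Lib.MP_85e637_an.Abs
import Pool.Agent.Lib.MP_85e637_an.A01
import Pool.Agent.Lib.MP_85e637_an.A02
import Pool.Agent.Lib.MP_85e637_an.A03
import Pool.Agent.Lib.MP_85e637_an.B01

/-!
# A04: transport between short arcs
-/

open Filter Topology Set Metric

namespace Pool.MP85

section
variable {Z : Type} [MetricSpace Z] {F : Z ≃ₜ Z}

theorem A04_ch_pad {ε : ℝ} (hε : 0 ≤ ε) {k : ℕ} (l : ℕ) {x y : Z} (h : Ch F ε k x y) :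
    Ch F ε (k + l) x y := by
  induction l with
  | zero => exact h
  | succ l ih => exact ⟨x, wul_self hε, ih⟩

theorem A04_ch_one {ε : ℝ} {x y : Z} (h : y ∈ WUl F ε x) : Ch F ε 1 x y := ⟨y, h, rfl⟩

end

namespace AF
variable {m : ℕ} {X M : Type} [MetricSpace X] [MetricSpace M] (A : AF m X M)

/-- One slide, with control at time `0`. -/
theorem A04_slide1 : ∃ ε' > 0, ε' ≤ A.ε0 ∧ ∀ x ∈ A.Λ, ∀ y ∈ WUl A.F ε' x, ∀ η > 0,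
    ∃ ρ > 0, ∃ h : ℝ → ℝ, InjOn h {t | t ∈ A.LT x ∧ |t| < ρ} ∧
      ∀ t ∈ A.LT x, |t| < ρ → |h t| < η ∧ A.φ (h t) y ∈ WUl A.F A.ε0 (A.φ t x) := by
  have he : 0 < min A.ε0 A.δ0 := lt_min A.ε0_pos A.δ0_pos
  obtain ⟨ε₁, hε₁, hs⟩ := A.sld 1 (min A.ε0 A.δ0) he
  refine ⟨min ε₁ A.ε0, lt_min hε₁ A.ε0_pos, min_le_right _ _, ?_⟩
  intro x hx y hy η hη
  have hy1 : y ∈ WUl A.F ε₁ x := wul_mono (min_le_left _ _) hy
  have hy0 : y ∈ WUl A.F A.ε0 x := wul_mono (min_le_right _ _) hy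
  obtain ⟨h, h0, h1, h2, h3⟩ := hs x hx y hy1
  set e := min A.ε0 A.δ0 with he'
  -- compact set of bad pairs
  let K : Set (ℝ × ℝ) := {q | |q.1| ≤ 1 ∧ |q.2 - q.1| ≤ e ∧ η ≤ |q.2| ∧
    A.φ q.2 y ∈ WUl A.F e (A.φ q.1 x)}
  have hKcl : IsClosed K := by
    have k1 : IsClosed {q : ℝ × ℝ | |q.1| ≤ 1} :=
      isClosed_le (continuous_abs.comp continuous_fst) continuous_const
    have k2 : IsClosed {q : ℝ × ℝ | |q.2 - q.1| ≤ e} :=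
      isClosed_le (continuous_abs.comp (continuous_snd.sub continuous_fst)) continuous_const
    have k3 : IsClosed {q : ℝ × ℝ | η ≤ |q.2|} :=
      isClosed_le continuous_const (continuous_abs.comp continuous_snd)
    have hc : Continuous fun q : ℝ × ℝ => (A.φ q.1 x, A.φ q.2 y) :=
      (A.φ_cont.comp (continuous_fst.prodMk continuous_const)).prodMk
        (A.φ_cont.comp (continuous_snd.prodMk continuous_const))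
    have k4 : IsClosed {q : ℝ × ℝ | A.φ q.2 y ∈ WUl A.F e (A.φ q.1 x)} :=
      (isClosed_wul (F := A.F) (ε := e)).preimage hc
    exact k1.inter (k2.inter (k3.inter k4))
  have hKc : IsCompact K := by
    refine (isCompact_Icc (a := ((-1 : ℝ), -(1 + e))) (b := ((1 : ℝ), 1 + e))).of_isClosed_subset
      hKcl ?_
    rintro ⟨a, b⟩ ⟨ha, hb, -, -⟩
    simp only at ha hb
    have ha' := abs_le.1 ha
    have hb' := abs_le.1 hb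
    exact ⟨⟨ha'.1, by simp only; linarith⟩, ⟨ha'.2, by simp only; linarith⟩⟩
  have hnot : (0 : ℝ) ∉ Prod.fst '' K := by
    rintro ⟨⟨a, b⟩, ⟨ha, hb, hc, hd⟩, hq⟩
    simp only at hq ha hb hc hd
    subst hq
    rw [A.φ_zero] at hd
    have hd' : A.φ b y ∈ WUl A.F A.ε0 x := wul_mono (min_le_left _ _) hd
    have hb' : |b - 0| ≤ A.δ0 := hb.trans (min_le_right _ _)
    have := A.uniq hx hb' hd' (by rw [A.φ_zero]; exact hy0)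
    rw [this, abs_zero] at hc
    linarith
  have hopen : (Prod.fst '' K)ᶜ ∈ 𝓝 (0 : ℝ) :=
    ((hKc.image continuous_fst).isClosed.isOpen_compl).mem_nhds hnot
  obtain ⟨ρ, hρ, hball⟩ := Metric.mem_nhds_iff.1 hopen
  refine ⟨min ρ 1, lt_min hρ one_pos, h, ?_, ?_⟩
  · rintro t ⟨ht, ht'⟩ t' ⟨hu, hu'⟩ htt
    have a1 : |t| ≤ 1 := ht'.le.trans (min_le_right _ _)
    have a2 : |t'| ≤ 1 := hu'.le.trans (min_le_right _ _)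
    rcases lt_trichotomy t t' with hlt | heq | hgt
    · exact absurd htt (h2 t ht t' hu a1 a2 hlt).ne
    · exact heq
    · exact absurd htt (h2 t' hu t ht a2 a1 hgt).ne'
  · intro t ht ht'
    have a1 : |t| ≤ 1 := ht'.le.trans (min_le_right _ _)
    obtain ⟨b1, b2⟩ := h1 t ht a1
    refine ⟨?_, wul_mono (min_le_left _ _) b2⟩
    by_contra hcon
    push Not at hcon
    have hmem : t ∈ Metric.ball (0 : ℝ) ρ := by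
      rw [mem_ball, Real.dist_eq, sub_zero]
      exact lt_of_lt_of_le ht' (min_le_left _ _)
    exact hball hmem ⟨(t, h t), ⟨a1, b1, hcon, b2⟩, rfl⟩

/-- Slide along a fixed chain. -/
theorem A04_chain : ∃ ε' > 0, ∀ (k : ℕ), ∀ x ∈ A.Λ, ∀ y, Ch A.F ε' k x y → ∀ η > 0,
    ∃ ρ > 0, ∃ h : ℝ → ℝ, InjOn h {t | t ∈ A.LT x ∧ |t| < ρ} ∧
      ∀ t ∈ A.LT x, |t| < ρ → |h t| < η ∧ Ch A.F A.ε0 k (A.φ t x) (A.φ (h t) y) := by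
  obtain ⟨ε', hε', hε'0, hs⟩ := A.A04_slide1
  refine ⟨ε', hε', ?_⟩
  intro k
  induction k with
  | zero =>
    intro x hx y hy η hη
    have hyx : y = x := hy
    subst hyx
    exact ⟨η, hη, id, fun _ _ _ _ h => h, fun t _ ht' => ⟨ht', rfl⟩⟩
  | succ k ih =>
    intro x hx y hy η hη
    obtain ⟨z, hz, hzy⟩ := hy
    have hzΛ : z ∈ A.Λ := A.U1 x hx (wul_mono hε'0 hz)
    obtain ⟨ρ₁, hρ₁, h₁, hinj₁, hh₁⟩ := ih z hzΛ y hzy η hη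
    obtain ⟨ρ, hρ, h, hinj, hh⟩ := hs x hx z hz ρ₁ hρ₁
    have hmap : ∀ t ∈ A.LT x, |t| < ρ → h t ∈ A.LT z ∧ |h t| < ρ₁ := by
      intro t ht ht'
      obtain ⟨a1, a2⟩ := hh t ht ht'
      exact ⟨A.U1 _ ht a2, a1⟩
    refine ⟨ρ, hρ, h₁ ∘ h, ?_, ?_⟩
    · rintro t ⟨ht, ht'⟩ t' ⟨hu, hu'⟩ htt
      exact hinj ⟨ht, ht'⟩ ⟨hu, hu'⟩ (hinj₁ (hmap t ht ht') (hmap t' hu hu') htt)
    · intro t ht ht'
      obtain ⟨a1, a2⟩ := hmap t ht ht'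
      obtain ⟨b1, b2⟩ := hh₁ (h t) a1 a2
      exact ⟨b1, A.φ (h t) z, (hh t ht ht').2, b2⟩

/-- Slide between nearby points. -/
theorem A04_near (T η : ℝ) (hη : 0 < η) : ∃ r > 0, ∀ x ∈ A.Λ, ∀ y, dist x y < r →
    ∃ h : ℝ → ℝ, InjOn h {t | t ∈ A.LT x ∧ |t| ≤ T} ∧
      ∀ t ∈ A.LT x, |t| ≤ T → |h t - t| ≤ η ∧ A.φ (h t) y ∈ WUl A.F A.ε0 (A.φ t x) := by
  have he : 0 < min (η / 2) A.ε0 := lt_min (by positivity) A.ε0_pos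
  obtain ⟨ε₁, hε₁, hs⟩ := A.sld T (min (η / 2) A.ε0) he
  obtain ⟨r, hr, hcs⟩ := A.CS2 (min (η / 2) ε₁) (lt_min (by positivity) hε₁)
  refine ⟨r, hr, ?_⟩
  intro x hx y hxy
  obtain ⟨u, hu, huw⟩ := hcs x hx y hxy
  obtain ⟨h, h0, h1, h2, h3⟩ := hs x hx (A.φ u y) (wul_mono (min_le_right _ _) huw)
  refine ⟨fun t => h t + u, ?_, ?_⟩
  · rintro t ⟨ht, ht'⟩ t' ⟨hu, hu'⟩ htt
    have htt' : h t = h t' := by simpa using htt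
    rcases lt_trichotomy t t' with hlt | heq | hgt
    · exact absurd htt' (h2 t ht t' hu ht' hu' hlt).ne
    · exact heq
    · exact absurd htt' (h2 t' hu t ht hu' ht' hgt).ne'
  · intro t ht ht'
    obtain ⟨a1, a2⟩ := h1 t ht ht'
    constructor
    · have b1 : |h t - t| ≤ η / 2 := a1.trans (min_le_left _ _)
      have b2 : |u| ≤ η / 2 := hu.trans (min_le_left _ _)
      calc |h t + u - t| = |(h t - t) + u| := by ring_nf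
        _ ≤ |h t - t| + |u| := abs_add_le _ _
        _ ≤ η / 2 + η / 2 := add_le_add b1 b2
        _ = η := by ring
    · show A.φ (h t + u) y ∈ _
      rw [A.φ_add]
      exact wul_mono (min_le_right _ _) a2

/-- `y` (or `σ y`) is reached from `x` by a chain of `k` plaques -/
def ChS (sg : Bool) (k : ℕ) (x y : X) : Prop := Ch A.F A.ε0 k x (if sg then A.σ y else y)

/-- the local statement, oriented version -/
def A04P (δ εs : ℝ) (k : ℕ) (b c : X) : Prop :=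
  ∃ j : ℝ → ℝ, InjOn j {t | t ∈ A.LT c ∧ |t| < εs} ∧
      ∀ t ∈ A.LT c, |t| < εs → |j t| < δ ∧ Ch A.F A.ε0 k (A.φ t c) (A.φ (j t) b)

theorem A04P_mono {δ εs εs' : ℝ} {k : ℕ} {b c : X} (hε : εs' ≤ εs) (l : ℕ)
    (h : A.A04P δ εs k b c) : A.A04P δ εs' (k + l) b c := by
  obtain ⟨j, h1, h2⟩ := h
  refine ⟨j, fun t ht t' hu htt => h1 ⟨ht.1, lt_of_lt_of_le ht.2 hε⟩
    ⟨hu.1, lt_of_lt_of_le hu.2 hε⟩ htt, fun t ht ht' => ?_⟩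
  obtain ⟨a1, a2⟩ := h2 t ht (lt_of_lt_of_le ht' hε)
  exact ⟨a1, A04_ch_pad A.ε0_pos.le l a2⟩

theorem A04_local (δ : ℝ) (hδ : 0 < δ) {b₀ c₀ : X} (hb₀ : b₀ ∈ A.Λ) (hc₀ : c₀ ∈ A.Λ)
    {t₀ : ℝ} (ht₀ : |t₀| ≤ δ / 4) (hw : A.φ t₀ b₀ ∈ WU A.F c₀) :
    ∃ r > 0, ∃ εs > 0, ∃ k, ∀ b ∈ A.Λ, ∀ c ∈ A.Λ, dist b₀ b < r → dist c c₀ < r →
      A.A04P δ εs k b c := by
  obtain ⟨ε', hε', hchain⟩ := A.A04_chain
  obtain ⟨k, hk⟩ := wu_ch (A.exh c₀ hc₀) hw hε'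
  obtain ⟨ρ, hρ, H, hHinj, hH⟩ := hchain k c₀ hc₀ _ hk (δ / 4) (by positivity)
  obtain ⟨r₁, hr₁, hn₁⟩ := A.A04_near 1 (ρ / 3) (by positivity)
  obtain ⟨r₂, hr₂, hn₂⟩ := A.A04_near δ (δ / 4) (by positivity)
  refine ⟨min r₁ r₂, lt_min hr₁ hr₂, min 1 (ρ / 3), lt_min one_pos (by positivity), 1 + (k + 1), ?_⟩
  intro b hb c hc hbb hcc
  obtain ⟨hc', hcinj, hcs⟩ := hn₁ c hc c₀ (lt_of_lt_of_le hcc (min_le_left _ _))
  obtain ⟨hb', hbinj, hbs⟩ := hn₂ b₀ hb₀ b (lt_of_lt_of_le hbb (min_le_right _ _))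
  have st1 : ∀ t ∈ A.LT c, |t| < min 1 (ρ / 3) → hc' t ∈ A.LT c₀ ∧ |hc' t| < ρ ∧
      A.φ (hc' t) c₀ ∈ WUl A.F A.ε0 (A.φ t c) := by
    intro t ht ht'
    obtain ⟨a1, a2⟩ := hcs t ht (ht'.le.trans (min_le_left _ _))
    refine ⟨A.U1 _ ht a2, ?_, a2⟩
    have b1 : |t| < ρ / 3 := lt_of_lt_of_le ht' (min_le_right _ _)
    calc |hc' t| = |(hc' t - t) + t| := by ring_nf
      _ ≤ |hc' t - t| + |t| := abs_add_le _ _
      _ < ρ := by linarith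
  have st2 : ∀ s ∈ A.LT c₀, |s| < ρ → H s + t₀ ∈ A.LT b₀ ∧ |H s + t₀| ≤ δ / 2 ∧
      Ch A.F A.ε0 k (A.φ s c₀) (A.φ (H s + t₀) b₀) := by
    intro s hs hs'
    obtain ⟨a1, a2⟩ := hH s hs hs'
    rw [← A.φ_add] at a2
    refine ⟨(A.ch_mem k hs a2).1, ?_, a2⟩
    calc |H s + t₀| ≤ |H s| + |t₀| := abs_add_le _ _
      _ ≤ δ / 2 := by linarith
  have st3 : ∀ s ∈ A.LT b₀, |s| ≤ δ / 2 → |hb' s| < δ ∧
      A.φ (hb' s) b ∈ WUl A.F A.ε0 (A.φ s b₀) := by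
    intro s hs hs'
    obtain ⟨a1, a2⟩ := hbs s hs (by linarith)
    refine ⟨?_, a2⟩
    calc |hb' s| = |(hb' s - s) + s| := by ring_nf
      _ ≤ |hb' s - s| + |s| := abs_add_le _ _
      _ < δ := by linarith
  refine ⟨fun t => hb' (H (hc' t) + t₀), ?_, ?_⟩
  · rintro t ⟨ht, ht'⟩ t' ⟨hu, hu'⟩ htt
    have e1 := st1 t ht ht'
    have e1' := st1 t' hu hu'
    have e2 := st2 _ e1.1 e1.2.1
    have e2' := st2 _ e1'.1 e1'.2.1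
    have q1 : H (hc' t) + t₀ = H (hc' t') + t₀ :=
      hbinj ⟨e2.1, by linarith [e2.2.1]⟩ ⟨e2'.1, by linarith [e2'.2.1]⟩ htt
    have q2 : hc' t = hc' t' := hHinj ⟨e1.1, e1.2.1⟩ ⟨e1'.1, e1'.2.1⟩ (by linarith)
    exact hcinj ⟨ht, ht'.le.trans (min_le_left _ _)⟩ ⟨hu, hu'.le.trans (min_le_left _ _)⟩ q2
  · intro t ht ht'
    have e1 := st1 t ht ht'
    have e2 := st2 _ e1.1 e1.2.1
    have e3 := st3 _ e2.1 e2.2.1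
    exact ⟨e3.1, ch_trans (A04_ch_one e1.2.2) (ch_trans e2.2.2 (A04_ch_one e3.2))⟩

theorem A04_pair (δ : ℝ) (hδ : 0 < δ) {b₀ c₀ : X} (hb₀ : b₀ ∈ A.Λ) (hc₀ : c₀ ∈ A.Λ) :
    ∃ r > 0, ∃ εs > 0, ∃ k, ∃ sg : Bool, ∀ b ∈ A.Λ, ∀ c ∈ A.Λ, dist b₀ b < r → dist c c₀ < r →
      ∃ (j : ℝ → ℝ), InjOn j {t | t ∈ A.LT c ∧ |t| < εs} ∧
      ∀ t ∈ A.LT c, |t| < εs → |j t| < δ ∧ A.ChS sg k (A.φ t c) (A.φ (j t) b) := by
  obtain ⟨r, hr, hcs⟩ := A.CS2 (min (δ / 4) A.ε0) (lt_min (by positivity) A.ε0_pos)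
  obtain ⟨y, hy, hyb⟩ := A.dens c₀ hc₀ b₀ hb₀ r hr
  have hyΛ : y ∈ A.Λ := A.wu_Λ hc₀ hy
  rcases hyb with h | h
  · obtain ⟨t₀, ht₀, hw⟩ := hcs y hyΛ b₀ h
    have hw' : A.φ t₀ b₀ ∈ WU A.F c₀ :=
      wu_trans hy (A.wul_wu hyΛ (wul_mono (min_le_right _ _) hw))
    obtain ⟨r', hr', εs, hεs, k, hk⟩ := A.A04_local δ hδ hb₀ hc₀ (ht₀.trans (min_le_left _ _)) hw'
    refine ⟨r', hr', εs, hεs, k, false, fun b hb c hc hbb hcc => ?_⟩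
    obtain ⟨j, h1, h2⟩ := hk b hb c hc hbb hcc
    exact ⟨j, h1, fun t ht ht' => ⟨(h2 t ht ht').1, by simpa [ChS] using (h2 t ht ht').2⟩⟩
  · obtain ⟨t₀, ht₀, hw⟩ := hcs y hyΛ (A.σ b₀) h
    have hw' : A.φ t₀ (A.σ b₀) ∈ WU A.F c₀ :=
      wu_trans hy (A.wul_wu hyΛ (wul_mono (min_le_right _ _) hw))
    obtain ⟨r', hr', εs, hεs, k, hk⟩ := A.A04_local δ hδ ((A.σΛ b₀).2 hb₀) hc₀
      (ht₀.trans (min_le_left _ _)) hw'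
    refine ⟨r', hr', εs, hεs, k, true, fun b hb c hc hbb hcc => ?_⟩
    obtain ⟨j, h1, h2⟩ := hk (A.σ b) ((A.σΛ b).2 hb) c hc (by rwa [A.σ_isom]) hcc
    refine ⟨fun t => - j t, ?_, fun t ht ht' => ⟨?_, ?_⟩⟩
    · intro t ht t' ht' htt
      exact h1 ht ht' (neg_injective htt)
    · rw [abs_neg]; exact (h2 t ht ht').1
    · have h3 := (h2 t ht ht').2
      have h4 : A.σ (A.φ (-j t) b) = A.φ (j t) (A.σ b) := by rw [A.σφ, neg_neg]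
      simp only [ChS, if_true]
      rw [h4]
      exact h3

theorem tr (δ : ℝ) (hδ : 0 < δ) : ∃ εs > 0, ∃ k : ℕ, ∀ b ∈ A.Λ, ∀ c ∈ A.Λ,
    ∃ (sg : Bool) (j : ℝ → ℝ), InjOn j {t | t ∈ A.LT c ∧ |t| < εs} ∧
      ∀ t ∈ A.LT c, |t| < εs → |j t| < δ ∧ A.ChS sg k (A.φ t c) (A.φ (j t) b) := by
  have hpad : ∀ (sg : Bool) (k l : ℕ) (x y : X), A.ChS sg k x y → A.ChS sg (k + l) x y :=
    fun sg k l x y h => A04_ch_pad A.ε0_pos.le l h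
  have key : ∃ εs > 0, ∃ k : ℕ, ∀ q ∈ A.Λ ×ˢ A.Λ,
    ∃ (sg : Bool) (j : ℝ → ℝ), InjOn j {t | t ∈ A.LT q.2 ∧ |t| < εs} ∧
      ∀ t ∈ A.LT q.2, |t| < εs → |j t| < δ ∧ A.ChS sg k (A.φ t q.2) (A.φ (j t) q.1) := by
    have hc : IsCompact (A.Λ ×ˢ A.Λ) := A.Λ_cpt.prod A.Λ_cpt
    have hgen : ∃ εs > 0, ∃ k : ℕ, ∀ q ∈ A.Λ ×ˢ A.Λ, q ∈ A.Λ ×ˢ A.Λ →
      ∃ (sg : Bool) (j : ℝ → ℝ), InjOn j {t | t ∈ A.LT q.2 ∧ |t| < εs} ∧
      ∀ t ∈ A.LT q.2, |t| < εs → |j t| < δ ∧ A.ChS sg k (A.φ t q.2) (A.φ (j t) q.1) := by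
      refine hc.induction_on (p := fun S => ∃ εs > 0, ∃ k : ℕ, ∀ q ∈ S, q ∈ A.Λ ×ˢ A.Λ →
        ∃ (sg : Bool) (j : ℝ → ℝ), InjOn j {t | t ∈ A.LT q.2 ∧ |t| < εs} ∧
        ∀ t ∈ A.LT q.2, |t| < εs → |j t| < δ ∧ A.ChS sg k (A.φ t q.2) (A.φ (j t) q.1))
        ?_ ?_ ?_ ?_
      · exact ⟨1, one_pos, 0, fun q hq => absurd hq (notMem_empty q)⟩
      · rintro S S' hSS ⟨εs, hεs, k, h⟩
        exact ⟨εs, hεs, k, fun q hq => h q (hSS hq)⟩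
      · rintro S S' ⟨εs, hεs, k, h⟩ ⟨εs', hεs', k', h'⟩
        refine ⟨min εs εs', lt_min hεs hεs', k + k', ?_⟩
        rintro q (hq | hq) hqΛ
        · obtain ⟨sg, j, h1, h2⟩ := h q hq hqΛ
          refine ⟨sg, j, fun t ht t' hu htt => h1 ⟨ht.1, lt_of_lt_of_le ht.2 (min_le_left _ _)⟩
            ⟨hu.1, lt_of_lt_of_le hu.2 (min_le_left _ _)⟩ htt, fun t ht ht' => ?_⟩
          obtain ⟨a1, a2⟩ := h2 t ht (lt_of_lt_of_le ht' (min_le_left _ _))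
          exact ⟨a1, hpad _ _ _ _ _ a2⟩
        · obtain ⟨sg, j, h1, h2⟩ := h' q hq hqΛ
          refine ⟨sg, j, fun t ht t' hu htt => h1 ⟨ht.1, lt_of_lt_of_le ht.2 (min_le_right _ _)⟩
            ⟨hu.1, lt_of_lt_of_le hu.2 (min_le_right _ _)⟩ htt, fun t ht ht' => ?_⟩
          obtain ⟨a1, a2⟩ := h2 t ht (lt_of_lt_of_le ht' (min_le_right _ _))
          exact ⟨a1, by rw [add_comm]; exact hpad _ _ _ _ _ a2⟩
      · rintro ⟨b₀, c₀⟩ ⟨hb₀, hc₀⟩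
        obtain ⟨r, hr, εs, hεs, k, sg, h⟩ := A.A04_pair δ hδ hb₀ hc₀
        refine ⟨ball (b₀, c₀) r, mem_nhdsWithin_of_mem_nhds (ball_mem_nhds _ hr), εs, hεs, k, ?_⟩
        rintro ⟨b, c⟩ hq ⟨hb, hc'⟩
        rw [mem_ball, Prod.dist_eq, max_lt_iff] at hq
        obtain ⟨j, h1, h2⟩ := h b hb c hc' (by rw [dist_comm]; exact hq.1) hq.2
        exact ⟨sg, j, h1, h2⟩
    obtain ⟨εs, hεs, k, h⟩ := hgen
    exact ⟨εs, hεs, k, fun q hq => h q hq hq⟩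
  obtain ⟨εs, hεs, k, h⟩ := key
  exact ⟨εs, hεs, k, fun b hb c hc => h (b, c) ⟨hb, hc⟩⟩

end AF

end Pool.MP85
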