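import Pool.Agent.Lib.MP_85e637_an.Abs
import Pool.Agent.Lib.MP_85e637_an.A01
import Pool.Agent.Lib.MP_85e637_an.A02

/-!
# A05: counting the crossings of a short arc with the iterates of a small disc
-/

open Filter Topology Set Metric

namespace Pool.MP85

/-- a bounded separated set of reals is finite -/
theorem A05_finite_sep {S : Set ℝ} {a b δ : ℝ} (hδ : 0 < δ) (hS : ∀ u ∈ S, a ≤ u ∧ u < b)
    (hsep : ∀ u ∈ S, ∀ v ∈ S, |u - v| ≤ δ → u = v) : S.Finite := by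
  have h1 : (Set.image (fun u => ⌊(u - a) / δ⌋) S).Finite := by
    refine (Set.finite_Icc (0 : ℤ) ⌈(b - a) / δ⌉).subset ?_
    rintro _ ⟨u, hu, rfl⟩
    obtain ⟨h1, h2⟩ := hS u hu
    constructor
    · exact Int.floor_nonneg.2 (div_nonneg (by linarith) hδ.le)
    · have h3 : (u - a) / δ ≤ (b - a) / δ := div_le_div_of_nonneg_right (by linarith) hδ.le
      exact (Int.floor_le_ceil _).trans (Int.ceil_mono h3)
  refine Set.Finite.of_finite_image h1 ?_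
  intro u hu v hv huv
  apply hsep u hu v hv
  have h2 := Int.abs_sub_lt_one_of_floor_eq_floor huv
  have h3 : (u - a) / δ - (v - a) / δ = (u - v) / δ := by ring
  rw [h3, abs_div, abs_of_pos hδ, div_lt_one hδ] at h2
  exact h2.le

namespace AF
variable {m : ℕ} {X M : Type} [MetricSpace X] [MetricSpace M] (A : AF m X M)

/-- small disc in the plaque of `x1` -/
def Sr (x1 : X) (r : ℝ) : Set X := {y | y ∈ WUl A.F A.ε0 x1 ∧ dist (A.π x1) (A.π y) < r}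
/-- both lifts of the disc -/
def Sh (x1 : X) (r : ℝ) : Set X := {y | y ∈ A.Sr x1 r ∨ A.σ y ∈ A.Sr x1 r}
/-- times in `[s,t)` at which the arc from `x` meets `Fⁿ(disc)` -/
def hits (x1 : X) (n : ℕ) (r : ℝ) (x : X) (s t : ℝ) : Set ℝ :=
  {u | s ≤ u ∧ u < t ∧ bk A.F n (A.φ u x) ∈ A.Sh x1 r}

theorem hits_LT {x1 : X} (hx1 : x1 ∈ A.Λ) {n : ℕ} {r : ℝ} {x : X} {s t u : ℝ}
    (hu : u ∈ A.hits x1 n r x s t) : u ∈ A.LT x := by
  obtain ⟨_, _, h | h⟩ := hu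
  · have h1 : bk A.F n (A.φ u x) ∈ A.Λ := A.U1 x1 hx1 h.1
    exact (A.bk_mem n).1 h1
  · have h1 : A.σ (bk A.F n (A.φ u x)) ∈ A.Λ := A.U1 x1 hx1 h.1
    exact (A.bk_mem n).1 ((A.σΛ _).1 h1)

theorem hits_finite {x1 : X} (hx1 : x1 ∈ A.Λ) (n : ℕ) (r : ℝ) (x : X) (s t : ℝ) :
    (A.hits x1 n r x s t).Finite := by
  obtain ⟨h, -, hm, -, -, hh⟩ := A.bk_time n x
  set y := bk A.F n x with hy
  let V1 : Set ℝ := {v | h s ≤ v ∧ v < h t ∧ A.φ v y ∈ WUl A.F A.ε0 x1}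
  let V2 : Set ℝ := {v | h s ≤ v ∧ v < h t ∧ A.σ (A.φ v y) ∈ WUl A.F A.ε0 x1}
  have f1 : V1.Finite := by
    refine A05_finite_sep A.δ0_pos (a := h s) (b := h t) (fun u hu => ⟨hu.1, hu.2.1⟩) ?_
    intro u hu v hv huv
    exact A.uniq hx1 huv hu.2.2 hv.2.2
  have f2 : V2.Finite := by
    refine A05_finite_sep A.δ0_pos (a := h s) (b := h t) (fun u hu => ⟨hu.1, hu.2.1⟩) ?_
    intro u hu v hv huv
    have e1 := hu.2.2
    have e2 := hv.2.2
    rw [A.σφ] at e1 e2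
    have h3 : -u = -v := by
      refine A.uniq hx1 ?_ e1 e2
      have : -u - -v = -(u - v) := by ring
      rw [this, abs_neg]; exact huv
    linarith
  have f3 : (h ⁻¹' (V1 ∪ V2)).Finite :=
    (f1.union f2).preimage hm.injective.injOn
  refine f3.subset ?_
  rintro u ⟨h1, h2, h3 | h3⟩
  · left
    refine ⟨hm.monotone h1, hm h2, ?_⟩
    rw [← hh]; exact h3.1
  · right
    refine ⟨hm.monotone h1, hm h2, ?_⟩
    rw [← hh]; exact h3.1

/-- greedy cover of the `Λ`-times of a bounded arc -/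
theorem A05_cover (N : ℕ) (x : X) (s t : ℝ) (hst : t - s ≤ N * A.δ0) :
    ∃ T : Finset ℝ, T.card ≤ N ∧ (∀ u ∈ T, u ∈ A.LT x) ∧
      ∀ u ∈ A.LT x, s ≤ u → u < t → ∃ v ∈ T, v ≤ u ∧ u < v + A.δ0 := by
  induction N generalizing s with
  | zero =>
    refine ⟨∅, by simp, by simp, ?_⟩
    intro u _ h1 h2
    exfalso
    simp at hst
    linarith
  | succ N ih =>
    by_cases hne : (A.LT x ∩ Icc s t).Nonempty
    · have hcl : IsClosed (A.LT x ∩ Icc s t) := (A.isClosed_LT x).inter isClosed_Icc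
      have hbd : BddBelow (A.LT x ∩ Icc s t) := ⟨s, fun u hu => hu.2.1⟩
      have hmem := hcl.csInf_mem hne hbd
      set t0 := sInf (A.LT x ∩ Icc s t) with ht0
      obtain ⟨T, hT1, hT2, hT3⟩ := ih (t0 + A.δ0) (by
        have := hmem.2.1
        push_cast at hst
        linarith)
      refine ⟨insert t0 T, (Finset.card_insert_le _ _).trans (by omega), ?_, ?_⟩
      · intro u hu
        rcases Finset.mem_insert.1 hu with rfl | hu
        · exact hmem.1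
        · exact hT2 u hu
      · intro u hu h1 h2
        have h3 : t0 ≤ u := csInf_le hbd ⟨hu, h1, h2.le⟩
        by_cases h4 : u < t0 + A.δ0
        · exact ⟨t0, Finset.mem_insert_self _ _, h3, h4⟩
        · obtain ⟨v, hv, h5⟩ := hT3 u hu (not_lt.1 h4) h2
          exact ⟨v, Finset.mem_insert_of_mem hv, h5⟩
    · refine ⟨∅, by simp, by simp, ?_⟩
      intro u hu h1 h2
      exact (hne ⟨u, hu, h1, h2.le⟩).elim

/-- short arcs of `Λ` are stretched by a bounded amount under `F⁻¹` -/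
theorem A05_C1 : ∃ C : ℝ, ∀ z ∈ A.Λ, ∀ s, A.τ z s ≤ A.δ0 → s ≤ C := by
  refine A.Λ_cpt.induction_on (p := fun S => ∃ C : ℝ, ∀ z ∈ S, ∀ s, A.τ z s ≤ A.δ0 → s ≤ C)
    ⟨0, by simp⟩ ?_ ?_ ?_
  · rintro S T hST ⟨C, hC⟩
    exact ⟨C, fun z hz => hC z (hST hz)⟩
  · rintro S T ⟨C, hC⟩ ⟨C', hC'⟩
    refine ⟨max C C', ?_⟩
    rintro z (hz | hz) s hs
    · exact (hC z hz s hs).trans (le_max_left _ _)
    · exact (hC' z hz s hs).trans (le_max_right _ _)
  · intro z _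
    obtain ⟨s0, hs0⟩ := A.τ_surj z (A.δ0 + 1)
    have hc : Continuous fun w => A.τ w s0 :=
      A.τ_cont.comp (continuous_id.prodMk continuous_const)
    have ho : {w | A.δ0 < A.τ w s0} ∈ 𝓝 z :=
      (isOpen_lt continuous_const hc).mem_nhds (by
        show A.δ0 < A.τ z s0
        rw [hs0]; linarith)
    refine ⟨_, mem_nhdsWithin_of_mem_nhds ho, s0, ?_⟩
    intro w hw s hs
    by_contra hlt
    have := A.τ_mono w (not_le.1 hlt)
    have hw' : A.δ0 < A.τ w s0 := hw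
    linarith

/-- one cover step: the hits of a bounded arc are counted by the hits of short arcs -/
theorem A05_sum {x1 : X} (hx1 : x1 ∈ A.Λ) (n : ℕ) (r : ℝ) (N : ℕ) (K : ℝ)
    (hK : ∀ y ∈ A.Λ, ((A.hits x1 n r y 0 A.δ0).ncard : ℝ) ≤ K)
    (x : X) (s t : ℝ) (hst : t - s ≤ N * A.δ0) :
    ((A.hits x1 n r x s t).ncard : ℝ) ≤ N * K := by
  by_cases hex : ∃ y, y ∈ A.Λ
  swap
  · exact (hex ⟨x1, hx1⟩).elim
  have hK0 : 0 ≤ K := by
    obtain ⟨y, hy⟩ := hex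
    exact (Nat.cast_nonneg _).trans (hK y hy)
  obtain ⟨T, hT1, hT2, hT3⟩ := A.A05_cover N x s t hst
  have hsub : A.hits x1 n r x s t ⊆
      ⋃ v ∈ T, (fun u => v + u) '' (A.hits x1 n r (A.φ v x) 0 A.δ0) := by
    intro u hu
    obtain ⟨v, hv, h1, h2⟩ := hT3 u (A.hits_LT hx1 hu) hu.1 hu.2.1
    simp only [mem_iUnion]
    refine ⟨v, hv, u - v, ⟨by linarith, by linarith, ?_⟩, by ring⟩
    rw [← A.φ_add]
    have : u - v + v = u := by ring
    rw [this]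
    exact hu.2.2
  have hfin : ∀ v ∈ T, ((fun u => v + u) '' (A.hits x1 n r (A.φ v x) 0 A.δ0)).Finite :=
    fun v _ => (A.hits_finite hx1 n r _ _ _).image _
  have h1 : (A.hits x1 n r x s t).ncard ≤
      (⋃ v ∈ T, (fun u => v + u) '' (A.hits x1 n r (A.φ v x) 0 A.δ0)).ncard :=
    Set.ncard_le_ncard hsub (T.finite_toSet.biUnion hfin)
  have h2 : (⋃ v ∈ T, (fun u => v + u) '' (A.hits x1 n r (A.φ v x) 0 A.δ0)).ncard ≤
      ∑ v ∈ T, ((fun u => v + u) '' (A.hits x1 n r (A.φ v x) 0 A.δ0)).ncard :=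
    Finset.set_ncard_biUnion_le _ _
  have h3 : ((∑ v ∈ T, ((fun u => v + u) '' (A.hits x1 n r (A.φ v x) 0 A.δ0)).ncard : ℕ) : ℝ)
      ≤ ∑ v ∈ T, K := by
    push_cast
    refine Finset.sum_le_sum fun v hv => ?_
    refine le_trans ?_ (hK (A.φ v x) (hT2 v hv))
    exact_mod_cast Set.ncard_image_le (A.hits_finite hx1 n r _ _ _)
  calc ((A.hits x1 n r x s t).ncard : ℝ)
      ≤ ((∑ v ∈ T, ((fun u => v + u) '' (A.hits x1 n r (A.φ v x) 0 A.δ0)).ncard : ℕ) : ℝ) := by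
        exact_mod_cast h1.trans h2
    _ ≤ ∑ v ∈ T, K := h3
    _ = T.card * K := by simp
    _ ≤ N * K := by
        apply mul_le_mul_of_nonneg_right _ hK0
        exact_mod_cast hT1

theorem A05_short {x1 : X} (hx1 : x1 ∈ A.Λ) : ∃ K : ℝ, 1 ≤ K ∧ ∀ (n : ℕ) (r : ℝ),
    ∀ y ∈ A.Λ, ((A.hits x1 n r y 0 A.δ0).ncard : ℝ) ≤ 2 * K ^ n := by
  obtain ⟨C, hC⟩ := A.A05_C1
  obtain ⟨N, hN⟩ := exists_nat_ge ((|C| + 1) / A.δ0)
  have hN' : (|C| + 1) - 0 ≤ N * A.δ0 := by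
    rw [div_le_iff₀ A.δ0_pos] at hN
    linarith
  have hN1 : (1 : ℝ) ≤ N := by
    have h1 : (0 : ℝ) < N := by
      refine lt_of_lt_of_le ?_ hN
      have := A.δ0_pos
      positivity
    have h2 : 0 < N := by exact_mod_cast h1
    exact_mod_cast h2
  refine ⟨N, hN1, ?_⟩
  intro n r
  induction n with
  | zero =>
    intro y hy
    have hsub : A.hits x1 0 r y 0 A.δ0 ⊆
        {u | 0 ≤ u ∧ u < A.δ0 ∧ A.φ u y ∈ WUl A.F A.ε0 x1} ∪
        {u | 0 ≤ u ∧ u < A.δ0 ∧ A.φ (-u) (A.σ y) ∈ WUl A.F A.ε0 x1} := by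
      rintro u ⟨h1, h2, h3 | h3⟩
      · left; exact ⟨h1, h2, h3.1⟩
      · right
        refine ⟨h1, h2, ?_⟩
        rw [← A.σφ]; exact h3.1
    have e1 : {u | 0 ≤ u ∧ u < A.δ0 ∧ A.φ u y ∈ WUl A.F A.ε0 x1}.Subsingleton := by
      intro u hu v hv
      refine A.uniq hx1 ?_ hu.2.2 hv.2.2
      rw [abs_le]; constructor <;> linarith [hu.1, hu.2.1, hv.1, hv.2.1]
    have e2 : {u | 0 ≤ u ∧ u < A.δ0 ∧ A.φ (-u) (A.σ y) ∈ WUl A.F A.ε0 x1}.Subsingleton := by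
      intro u hu v hv
      have : -u = -v := by
        refine A.uniq hx1 ?_ hu.2.2 hv.2.2
        rw [abs_le]; constructor <;> linarith [hu.1, hu.2.1, hv.1, hv.2.1]
      linarith
    have h1 := Set.ncard_le_ncard hsub (e1.finite.union e2.finite)
    have h2 := Set.ncard_union_le {u | 0 ≤ u ∧ u < A.δ0 ∧ A.φ u y ∈ WUl A.F A.ε0 x1}
      {u | 0 ≤ u ∧ u < A.δ0 ∧ A.φ (-u) (A.σ y) ∈ WUl A.F A.ε0 x1}
    have h3 := (Set.ncard_le_one e1.finite).2 fun a ha b hb => e1 ha hb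
    have h4 := (Set.ncard_le_one e2.finite).2 fun a ha b hb => e2 ha hb
    have h5 : (A.hits x1 0 r y 0 A.δ0).ncard ≤ 2 := by omega
    simpa using (by exact_mod_cast h5 : ((A.hits x1 0 r y 0 A.δ0).ncard : ℝ) ≤ 2)
  | succ n ih =>
    intro y hy
    set y' := A.F.symm y with hy'
    have hFy : A.F y' = y := A.F.apply_symm_apply y
    have hy'Λ : y' ∈ A.Λ := by
      rw [← A.FΛ, hFy]; exact hy
    have hsub : A.hits x1 (n + 1) r y 0 A.δ0 ⊆
        A.τ y' '' (A.hits x1 n r y' 0 (|C| + 1)) := by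
      intro u hu
      obtain ⟨s, hs⟩ := A.τ_surj y' u
      have e1 : A.F.symm (A.φ u y) = A.φ s y' := by
        rw [A.F.symm_apply_eq, A.Fφ, hs, hFy]
      refine ⟨s, ⟨?_, ?_, ?_⟩, hs⟩
      · by_contra hlt
        have := A.τ_mono y' (not_le.1 hlt)
        rw [A.τ_zero, hs] at this
        exact absurd hu.1 (not_le.2 this)
      · have := hC y' hy'Λ s (by rw [hs]; exact hu.2.1.le)
        linarith [le_abs_self C]
      · have := hu.2.2
        rw [bk_succ, e1] at this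
        exact this
    have hfin := A.hits_finite hx1 n r y' 0 (|C| + 1)
    have h1 : (A.hits x1 (n + 1) r y 0 A.δ0).ncard ≤ (A.hits x1 n r y' 0 (|C| + 1)).ncard :=
      (Set.ncard_le_ncard hsub (hfin.image _)).trans (Set.ncard_image_le hfin)
    have h2 := A.A05_sum hx1 n r N (2 * (N : ℝ) ^ n) ih y' 0 (|C| + 1) hN'
    calc ((A.hits x1 (n + 1) r y 0 A.δ0).ncard : ℝ)
        ≤ ((A.hits x1 n r y' 0 (|C| + 1)).ncard : ℝ) := by exact_mod_cast h1
      _ ≤ N * (2 * (N : ℝ) ^ n) := h2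
      _ = 2 * (N : ℝ) ^ (n + 1) := by ring

theorem hits_upper {x1 : X} (hx1 : x1 ∈ A.Λ) (b : X) (hb : b ∈ A.Λ) : ∃ C : ℝ, 1 < C ∧
    ∀ (n : ℕ) (r : ℝ), ((A.hits x1 n r b (-1) 1).ncard : ℝ) ≤ C ^ (n + 1) := by
  obtain ⟨K, hK1, hK⟩ := A.A05_short hx1
  obtain ⟨N, hN⟩ := exists_nat_ge (2 / A.δ0)
  have hN' : (1 : ℝ) - (-1) ≤ N * A.δ0 := by
    rw [div_le_iff₀ A.δ0_pos] at hN
    linarith
  refine ⟨2 * N + K + 1, ?_, ?_⟩
  · have : (0 : ℝ) ≤ N := Nat.cast_nonneg _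
    linarith
  · intro n r
    have h0 : (0 : ℝ) ≤ N := Nat.cast_nonneg _
    have h1 := A.A05_sum hx1 n r N (2 * K ^ n) (hK n r) b (-1) 1 hN'
    have h2 : K ^ n ≤ (2 * N + K + 1 : ℝ) ^ n :=
      pow_le_pow_left₀ (by linarith) (by linarith) n
    have h3 : (0 : ℝ) ≤ K ^ n := pow_nonneg (by linarith) n
    calc ((A.hits x1 n r b (-1) 1).ncard : ℝ) ≤ N * (2 * K ^ n) := h1
      _ = K ^ n * (2 * N) := by ring
      _ ≤ (2 * N + K + 1 : ℝ) ^ n * (2 * N + K + 1) := by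
          apply mul_le_mul h2 (by linarith) (by linarith) (pow_nonneg (by linarith) n)
      _ = (2 * N + K + 1 : ℝ) ^ (n + 1) := by ring

end AF
end Pool.MP85
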