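import Pool.Agent.Lib.MP_85e637_an.Abs
import Pool.Agent.Lib.MP_85e637_an.A01
import Pool.Agent.Lib.MP_85e637_an.A02
import Pool.Agent.Lib.MP_85e637_an.A04
import Pool.Agent.Lib.MP_85e637_an.A05

/-!
# A06: covers by short arcs, lower bound and comparison of the counts
-/

open Filter Topology Set Metric

namespace Pool.MP85

namespace AF
variable {m : ℕ} {X M : Type} [MetricSpace X] [MetricSpace M] (A : AF m X M)

theorem A06_zero_LT {x : X} (hx : x ∈ A.Λ) : (0 : ℝ) ∈ A.LT x := by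
  show A.φ 0 x ∈ A.Λ
  rw [A.φ_zero]; exact hx

/-- A06: cover of the `Λ`-times of a bounded arc by boundedly many short arcs -/
theorem cover (εs T : ℝ) (hεs : 0 < εs) : ∃ K : ℕ, ∀ x ∈ A.Λ, ∃ c : Fin K → ℝ,
    (∀ i, c i ∈ A.LT x) ∧ ∀ t ∈ A.LT x, |t| ≤ T → ∃ i, |t - c i| < εs := by
  classical
  refine ⟨⌊2 * T / εs⌋₊ + 1, fun x hx => ?_⟩
  let P : ℕ → ℝ → Prop := fun i t => t ∈ A.LT x ∧ |t| ≤ T ∧ ⌊(t + T) / εs⌋₊ = i
  refine ⟨fun i => if h : ∃ t, P i t then h.choose else 0, fun i => ?_, fun t ht htT => ?_⟩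
  · by_cases h : ∃ t, P i t
    · simp only [h, dif_pos]
      exact h.choose_spec.1
    · simp only [h, dif_neg, not_false_eq_true]
      exact A.A06_zero_LT hx
  · have ht1 : 0 ≤ t + T := by have := (abs_le.1 htT).1; linarith
    have ht2 : t + T ≤ 2 * T := by have := (abs_le.1 htT).2; linarith
    have hlt : ⌊(t + T) / εs⌋₊ < ⌊2 * T / εs⌋₊ + 1 := by
      apply Nat.lt_succ_of_le
      exact Nat.floor_le_floor (div_le_div_of_nonneg_right ht2 hεs.le)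
    refine ⟨⟨⌊(t + T) / εs⌋₊, hlt⟩, ?_⟩
    have h : ∃ t', P ⌊(t + T) / εs⌋₊ t' := ⟨t, ht, htT, rfl⟩
    simp only [h, dif_pos]
    obtain ⟨_, h2, h3⟩ := h.choose_spec
    set t' := h.choose
    have ht1' : 0 ≤ t' + T := by have := (abs_le.1 h2).1; linarith
    have e1 := Nat.floor_le (div_nonneg ht1 hεs.le)
    have e2 := Nat.lt_floor_add_one ((t + T) / εs)
    have e3 := Nat.floor_le (div_nonneg ht1' hεs.le)
    have e4 := Nat.lt_floor_add_one ((t' + T) / εs)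
    rw [h3] at e3 e4
    have e5 : |(t + T) / εs - (t' + T) / εs| < 1 := by
      rw [abs_lt]; constructor <;> linarith
    rw [← sub_div, abs_div, abs_of_pos hεs, div_lt_one hεs] at e5
    rwa [show t - t' = t + T - (t' + T) by ring]

/-- A06: for large `n` the arc around `b` meets `Fⁿ(disc)` -/
theorem hits_lower {x1 : X} (hx1 : x1 ∈ A.Λ) {b : X} (hb : b ∈ A.Λ) (r : ℝ) (hr : 0 < r) :
    ∃ n0, ∀ n ≥ n0, 1 ≤ (A.hits x1 n r b (-1) 1).ncard := by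
  obtain ⟨εs, hεs, k, htr⟩ := A.tr 1 one_pos
  obtain ⟨n1, hn1⟩ := A.ch_unif k A.ε0 A.ε0_pos
  obtain ⟨n2, hn2⟩ : ∃ n2 : ℕ, ∀ n ≥ n2, (k : ℝ) * A.ε0 / 2 ^ n < r := by
    have h1 : Tendsto (fun n : ℕ => (k : ℝ) * A.ε0 / 2 ^ n) atTop (𝓝 0) := by
      have h2 := (tendsto_pow_atTop_nhds_zero_of_lt_one (r := (1 / 2 : ℝ)) (by norm_num)
        (by norm_num)).const_mul ((k : ℝ) * A.ε0)
      rw [mul_zero] at h2
      refine h2.congr fun n => ?_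
      rw [one_div, inv_pow, div_eq_mul_inv]
    exact eventually_atTop.1 (h1.eventually_lt_const hr)
  refine ⟨max n1 n2, fun n hn => ?_⟩
  have hn1' : n ≥ n1 := (le_max_left _ _).trans hn
  have hn2' : n ≥ n2 := (le_max_right _ _).trans hn
  have hc : fw A.F n x1 ∈ A.Λ := (A.fw_mem n).2 hx1
  obtain ⟨sg, j, _, hj⟩ := htr b hb (fw A.F n x1) hc
  obtain ⟨hj1, hj2⟩ := hj 0 (A.A06_zero_LT hc) (by rw [abs_zero]; exact hεs)
  rw [A.φ_zero] at hj2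
  rw [Nat.succ_le_iff, Set.ncard_pos (A.hits_finite hx1 n r b (-1) 1)]
  refine ⟨j 0, (abs_lt.1 hj1).1.le, (abs_lt.1 hj1).2, ?_⟩
  have h1 := hn1 n hn1' _ hc _ hj2
  have h2 := A.ch_pi k hc hj2 n
  rw [bk_fw] at h1 h2
  have h3 : bk A.F n (if sg then A.σ (A.φ (j 0) b) else A.φ (j 0) b) ∈ A.Sr x1 r :=
    ⟨h1, h2.trans_lt (hn2 n hn2')⟩
  cases sg with
  | false => exact Or.inl h3
  | true =>
    refine Or.inr ?_
    simp only [if_true] at h3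
    rwa [A.bk_σ] at h3

/-- A06: comparison of a short arc around any `c ∈ Λ` with the `δ`-arc around any `b ∈ Λ`,
also for shells (`r1 < r2`) -/
theorem hits_cmp (δ : ℝ) (hδ : 0 < δ) : ∃ εs > 0, ∃ k : ℕ, ∃ n1 : ℕ, ∀ x1 ∈ A.Λ, ∀ rm : ℝ,
    (∀ y ∈ A.Sr x1 rm, y ∈ WUl A.F (A.ε0 / 4) x1) →
    ∀ n ≥ n1, ∀ b ∈ A.Λ, ∀ c ∈ A.Λ, ∀ r1 r2 : ℝ, r2 ≤ rm →
      (A.hits x1 n r2 c (-εs) εs \ A.hits x1 n r1 c (-εs) εs).ncard ≤
        (A.hits x1 n (r2 + k / 2 ^ n) b (-δ) δ \ A.hits x1 n (r1 - k / 2 ^ n) b (-δ) δ).ncard := by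
  obtain ⟨εs, hεs, k, htr⟩ := A.tr δ hδ
  have hε4 : 0 < A.ε0 / 4 := by have := A.ε0_pos; positivity
  obtain ⟨n1, hn1⟩ := A.ch_unif k (A.ε0 / 4) hε4
  refine ⟨εs / 2, half_pos hεs, ⌈(k : ℝ) * A.ε0⌉₊, n1, ?_⟩
  intro x1 hx1 rm hrm n hn b hb c hc r1 r2 hr2
  obtain ⟨sg, j, hinj, hj⟩ := htr b hb c hc
  set κ : ℝ := (⌈(k : ℝ) * A.ε0⌉₊ : ℝ) / 2 ^ n with hκ
  have hκ1 : (k : ℝ) * A.ε0 / 2 ^ n ≤ κ :=
    div_le_div_of_nonneg_right (Nat.le_ceil _) (by positivity)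
  have hlt : ∀ t, -(εs / 2) ≤ t → t < εs / 2 → |t| < εs := by
    intro t h1 h2
    rw [abs_lt]; constructor <;> linarith
  -- the points in the plaque of `x1`
  have key : ∀ t, t ∈ A.hits x1 n r2 c (-(εs / 2)) (εs / 2) → |j t| < δ ∧ ∃ p q : X,
      (p = bk A.F n (A.φ t c) ∨ p = A.σ (bk A.F n (A.φ t c))) ∧
      (q = bk A.F n (A.φ (j t) b) ∨ q = A.σ (bk A.F n (A.φ (j t) b))) ∧
      p ∈ WUl A.F A.ε0 x1 ∧ q ∈ WUl A.F A.ε0 x1 ∧ dist (A.π x1) (A.π p) < r2 ∧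
      dist (A.π p) (A.π q) ≤ κ := by
    intro t ht
    have htL : t ∈ A.LT c := A.hits_LT hx1 ht
    obtain ⟨ht1, ht2, ht3⟩ := ht
    obtain ⟨h1, h2⟩ := hj t htL (hlt t ht1 ht2)
    refine ⟨h1, ?_⟩
    have hy : A.φ t c ∈ A.Λ := htL
    have h3 := hn1 n hn _ hy _ h2
    have h4 := (A.ch_pi k hy h2 n).trans hκ1
    -- the end of the chain
    have hz : bk A.F n (if sg then A.σ (A.φ (j t) b) else A.φ (j t) b) =
        bk A.F n (A.φ (j t) b) ∨ bk A.F n (if sg then A.σ (A.φ (j t) b) else A.φ (j t) b) =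
        A.σ (bk A.F n (A.φ (j t) b)) := by
      cases sg with
      | false => exact Or.inl rfl
      | true => exact Or.inr (A.bk_σ n _)
    set q0 := bk A.F n (if sg then A.σ (A.φ (j t) b) else A.φ (j t) b) with hq0
    set p0 := bk A.F n (A.φ t c) with hp0
    have hSr : ∀ p ∈ A.Sr x1 r2, p ∈ WUl A.F (A.ε0 / 4) x1 := fun p hp =>
      hrm p ⟨hp.1, hp.2.trans_le hr2⟩
    have hbig : ∀ p q : X, p ∈ A.Sr x1 r2 → q ∈ WUl A.F (A.ε0 / 4) p → q ∈ WUl A.F A.ε0 x1 := by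
      intro p q hp hq
      refine wul_mono ?_ (wul_trans (hSr p hp) hq)
      have := A.ε0_pos
      linarith
    rcases ht3 with ht3 | ht3
    · exact ⟨p0, q0, Or.inl rfl, hz, ht3.1, hbig p0 q0 ht3 h3, ht3.2, h4⟩
    · refine ⟨A.σ p0, A.σ q0, Or.inr rfl, ?_, ht3.1, hbig _ _ ht3 (A.wul_σ.2 h3), ht3.2, ?_⟩
      · rcases hz with hz | hz
        · exact Or.inr (by rw [hz])
        · exact Or.inl (by rw [hz, A.σσ])
      · rw [A.πσ, A.πσ]; exact h4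
  refine Set.ncard_le_ncard_of_injOn j ?_ ?_ ((A.hits_finite hx1 n _ b (-δ) δ).subset
    Set.sdiff_subset)
  · rintro t ⟨ht, htn⟩
    obtain ⟨h1, p, q, hp, hq, hp1, hq1, hp2, hpq⟩ := key t ht
    have h2 : -δ ≤ j t := (abs_lt.1 h1).1.le
    have h3 : j t < δ := (abs_lt.1 h1).2
    refine ⟨⟨h2, h3, ?_⟩, ?_⟩
    · have hq2 : q ∈ A.Sr x1 (r2 + κ) :=
        ⟨hq1, (dist_triangle _ _ _).trans_lt (add_lt_add_of_lt_of_le hp2 hpq)⟩
      rcases hq with rfl | rfl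
      · exact Or.inl hq2
      · exact Or.inr hq2
    · rintro ⟨_, _, h4⟩
      apply htn
      refine ⟨ht.1, ht.2.1, ?_⟩
      -- `q` itself is in the small disc
      have hq3 : q ∈ A.Sr x1 (r1 - κ) := by
        rcases hq with rfl | rfl
        · rcases h4 with h4 | h4
          · exact h4
          · exact absurd h4.1 (A.σ_not_wul hq1)
        · rcases h4 with h4 | h4
          · exact absurd hq1 (A.σ_not_wul h4.1)
          · exact h4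
      have hp3 : p ∈ A.Sr x1 r1 := by
        refine ⟨hp1, ?_⟩
        have h5 : dist (A.π x1) (A.π p) ≤ dist (A.π x1) (A.π q) + dist (A.π q) (A.π p) :=
          dist_triangle _ _ _
        have h6 : dist (A.π q) (A.π p) ≤ κ := by rw [dist_comm]; exact hpq
        have h7 := hq3.2
        linarith
      rcases hp with rfl | rfl
      · exact Or.inl hp3
      · exact Or.inr hp3
  · intro t ht t' ht' htt
    have e : ∀ t, t ∈ A.hits x1 n r2 c (-(εs / 2)) (εs / 2) → t ∈ {t | t ∈ A.LT c ∧ |t| < εs} :=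
      fun t ht => ⟨A.hits_LT hx1 ht, hlt t ht.1 ht.2.1⟩
    exact hinj (e t ht.1) (e t' ht'.1) htt

end AF

end Pool.MP85
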