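import Pool.Agent.Lib.MP_85e637_an.Abs
import Pool.Agent.Lib.MP_85e637_an.A05
import Pool.Agent.Lib.MP_85e637_an.A06

/-!
# A07 good radii: the counts of crossings grow slowly at suitable radii
-/

open Filter Topology Set Metric

namespace Pool.MP85

/-- pigeonhole for monotone counting functions bounded by `C ^ (n + 1)` -/
theorem A07_pigeon (C : ℝ) (_hC : 1 < C) (rm : ℝ) (hrm : 0 < rm) : ∃ n0 : ℕ, 1 ≤ n0 ∧
    ∀ n ≥ n0, ∀ N : ℝ → ℕ, Monotone N → 1 ≤ N (rm / 4) → (∀ ρ, (N ρ : ℝ) ≤ C ^ (n + 1)) →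
      ∃ ρ, rm / 4 + 2 * n / 2 ^ n ≤ ρ ∧ ρ + 2 * n / 2 ^ n ≤ rm / 2 ∧
        (N (ρ + 2 * n / 2 ^ n) : ℝ) ≤ (1 + 1 / n) * N (ρ - 2 * n / 2 ^ n) := by
  obtain ⟨p, hp⟩ : ∃ p : ℕ, C ≤ 2 ^ p := by
    obtain ⟨p, hp⟩ := pow_unbounded_of_one_lt C (one_lt_two)
    exact ⟨p, hp.le⟩
  have hlim : Tendsto (fun n : ℕ => (n : ℝ) ^ 3 / 2 ^ n) atTop (𝓝 0) :=
    tendsto_pow_const_div_const_pow_of_one_lt 3 one_lt_two
  have hlim2 : Tendsto (fun n : ℕ => (4 * (2 * p + 1) : ℝ) * ((n : ℝ) ^ 3 / 2 ^ n)) atTop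
      (𝓝 0) := by simpa using hlim.const_mul (4 * (2 * p + 1) : ℝ)
  obtain ⟨n1, hn1⟩ := eventually_atTop.1
    (hlim2.eventually (gt_mem_nhds (show (0:ℝ) < rm / 4 by positivity)))
  refine ⟨max n1 1, le_max_right _ _, fun n hn N hN h1 hb => ?_⟩
  have hnn1 : n1 ≤ n := (le_max_left _ _).trans hn
  have hn1' : 1 ≤ n := (le_max_right _ _).trans hn
  have hnpos : (0:ℝ) < n := by exact_mod_cast hn1'
  have hn1r : (1:ℝ) ≤ n := by exact_mod_cast hn1'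
  set κ : ℝ := 2 * n / 2 ^ n with hκ
  have hκ0 : 0 ≤ κ := by positivity
  set L : ℕ := p * (n + 1) + 1 with hL
  have hJ : 2 * ((n * L : ℕ) : ℝ) * κ ≤ rm / 4 := by
    have h2 := (hn1 n hnn1).le
    refine le_trans ?_ h2
    have hpL : (L : ℝ) ≤ (2 * p + 1) * n := by
      rw [hL]; push_cast
      have : (0:ℝ) ≤ p := Nat.cast_nonneg p
      nlinarith
    have e1 : 2 * ((n * L : ℕ) : ℝ) * κ = 4 * n ^ 2 * L / 2 ^ n := by
      rw [hκ]; push_cast; ring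
    have e2 : (4 * (2 * p + 1) : ℝ) * ((n : ℝ) ^ 3 / 2 ^ n) =
        4 * n ^ 2 * ((2 * p + 1) * n) / 2 ^ n := by ring
    rw [e1, e2]
    gcongr
  by_contra hcon
  push Not at hcon
  have hind : ∀ i : ℕ, i ≤ n * L → (1 + 1 / (n:ℝ)) ^ i ≤ N (rm / 4 + 2 * i * κ) := by
    intro i
    induction i with
    | zero => intro _; simpa using (by exact_mod_cast h1 : (1:ℝ) ≤ N (rm / 4))
    | succ i ih =>
      intro hi
      have hi' : i ≤ n * L := (Nat.le_succ i).trans hi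
      have hiL : (2 * ((i + 1 : ℕ) : ℝ)) * κ ≤ rm / 4 := by
        refine le_trans ?_ hJ
        gcongr
      have h3 := hcon (rm / 4 + (2 * i + 1) * κ) (by
        have : (0:ℝ) ≤ 2 * i * κ := by positivity
        nlinarith) (by
        push_cast at hiL
        nlinarith)
      have e1 : rm / 4 + (2 * (i:ℝ) + 1) * κ + κ = rm / 4 + 2 * ((i + 1 : ℕ) : ℝ) * κ := by
        push_cast; ring
      have e2 : rm / 4 + (2 * (i:ℝ) + 1) * κ - κ = rm / 4 + 2 * (i : ℝ) * κ := by ring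
      rw [e1, e2] at h3
      refine le_trans ?_ h3.le
      rw [pow_succ, mul_comm]
      exact mul_le_mul_of_nonneg_left (ih hi') (by positivity)
  have h4 := hind (n * L) le_rfl
  have h5 : (2:ℝ) ^ L ≤ (1 + 1 / (n:ℝ)) ^ (n * L) := by
    rw [pow_mul]
    refine pow_le_pow_left₀ (by norm_num) ?_ L
    have h6 := one_add_mul_le_pow (a := 1 / (n:ℝ)) (by
      have : (0:ℝ) ≤ 1 / n := by positivity
      linarith) n
    have h7 : (n:ℝ) * (1 / n) = 1 := by field_simp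
    rw [h7] at h6
    linarith
  have h8 : C ^ (n + 1) < 2 ^ L := by
    calc C ^ (n + 1) ≤ (2 ^ p) ^ (n + 1) := pow_le_pow_left₀ (by linarith) hp _
      _ = 2 ^ (p * (n + 1)) := by rw [pow_mul]
      _ < 2 ^ L := pow_lt_pow_right₀ one_lt_two (by omega)
  linarith [hb (rm / 4 + 2 * ((n * L : ℕ) : ℝ) * κ)]

namespace AF
variable {m : ℕ} {X M : Type} [MetricSpace X] [MetricSpace M] (A : AF m X M)

theorem A07_Sr_mono {x1 : X} {r r' : ℝ} (h : r ≤ r') : A.Sr x1 r ⊆ A.Sr x1 r' :=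
  fun _ hy => ⟨hy.1, hy.2.trans_le h⟩

theorem A07_Sh_mono {x1 : X} {r r' : ℝ} (h : r ≤ r') : A.Sh x1 r ⊆ A.Sh x1 r' :=
  fun _ hy => hy.imp (fun h1 => A.A07_Sr_mono h h1) (fun h1 => A.A07_Sr_mono h h1)

theorem A07_hits_mono {x1 : X} {n : ℕ} {r r' : ℝ} (h : r ≤ r') (x : X) (s t : ℝ) :
    A.hits x1 n r x s t ⊆ A.hits x1 n r' x s t :=
  fun _ hu => ⟨hu.1, hu.2.1, A.A07_Sh_mono h hu.2.2⟩

theorem A07_hits_empty {x1 : X} {n : ℕ} {r : ℝ} (h : r ≤ 0) (x : X) (s t : ℝ) :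
    A.hits x1 n r x s t = ∅ := by
  ext u
  simp only [mem_empty_iff_false, iff_false]
  rintro ⟨_, _, h1 | h1⟩
  · exact absurd (h1.2.trans_le h) (not_lt.2 dist_nonneg)
  · exact absurd (h1.2.trans_le h) (not_lt.2 dist_nonneg)

/-- counting by covering with short arcs -/
theorem A07_count {x1 : X} (hx1 : x1 ∈ A.Λ) {b : X} (hb : b ∈ A.Λ) (T : ℝ) :
    ∃ K k n1 : ℕ, ∀ rm : ℝ, (∀ y ∈ A.Sr x1 rm, y ∈ WUl A.F (A.ε0 / 4) x1) →
      ∀ n ≥ n1, ∀ x ∈ A.Λ, ∀ r1 r2 : ℝ, r2 ≤ rm →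
        (A.hits x1 n r2 x (-T) T \ A.hits x1 n r1 x (-T) T).ncard ≤
          K * (A.hits x1 n (r2 + k / 2 ^ n) b (-1) 1 \
            A.hits x1 n (r1 - k / 2 ^ n) b (-1) 1).ncard := by
  obtain ⟨εs, hεs, k, n1, hcmp⟩ := A.hits_cmp 1 one_pos
  obtain ⟨K, hK⟩ := A.cover εs T hεs
  refine ⟨K, k, n1, fun rm hrm n hn x hx r1 r2 hr2 => ?_⟩
  obtain ⟨c, hc, hcov⟩ := hK x hx
  set B := (A.hits x1 n (r2 + k / 2 ^ n) b (-1) 1 \
            A.hits x1 n (r1 - k / 2 ^ n) b (-1) 1).ncard with hB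
  set Si : Fin K → Set ℝ := fun i => (fun v => v + c i) ''
    (A.hits x1 n r2 (A.φ (c i) x) (-εs) εs \ A.hits x1 n r1 (A.φ (c i) x) (-εs) εs) with hSi
  have hSfin : ∀ i, (A.hits x1 n r2 (A.φ (c i) x) (-εs) εs \
      A.hits x1 n r1 (A.φ (c i) x) (-εs) εs).Finite := fun i =>
    (A.hits_finite hx1 n r2 _ _ _).subset sdiff_subset
  have hsub : (A.hits x1 n r2 x (-T) T \ A.hits x1 n r1 x (-T) T) ⊆ ⋃ i, Si i := by
    rintro u ⟨hu, hu'⟩
    have huLT := A.hits_LT hx1 hu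
    obtain ⟨i, hi⟩ := hcov u huLT (abs_le.2 ⟨hu.1, hu.2.1.le⟩)
    rw [mem_iUnion]
    refine ⟨i, u - c i, ⟨?_, ?_⟩, by simp⟩
    · have h1 := abs_lt.1 hi
      refine ⟨h1.1.le, h1.2, ?_⟩
      rw [← A.φ_add, sub_add_cancel]
      exact hu.2.2
    · rintro ⟨_, _, h3⟩
      rw [← A.φ_add, sub_add_cancel] at h3
      exact hu' ⟨hu.1, hu.2.1, h3⟩
  have hfinU : (⋃ i, Si i).Finite := finite_iUnion fun i => (hSfin i).image _
  calc (A.hits x1 n r2 x (-T) T \ A.hits x1 n r1 x (-T) T).ncard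
      ≤ (⋃ i, Si i).ncard := ncard_le_ncard hsub hfinU
    _ ≤ ∑ i, (Si i).ncard := ncard_iUnion_le_of_fintype Si
    _ ≤ ∑ _i : Fin K, B := Finset.sum_le_sum fun i _ =>
        (ncard_image_le (hSfin i)).trans (hcmp x1 hx1 rm hrm n hn b hb _ (hc i) r1 r2 hr2)
    _ = K * B := by simp

/-- A07: good radii (pigeonhole: `[rm/4, rm/2]` contains about `2^n / n` disjoint intervals of
length `8 n / 2^n`, while the count grows at most exponentially), and the resulting uniform bounds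
for arcs of length `T`. -/
theorem key {x1 : X} (hx1 : x1 ∈ A.Λ) {b : X} (hb : b ∈ A.Λ) :
    ∃ (rm : ℝ) (r : ℕ → ℝ), 0 < rm ∧ (∀ y ∈ A.Sr x1 rm, y ∈ WUl A.F (A.ε0 / 4) x1) ∧
      (∀ n, 0 < r n ∧ r n ≤ rm / 2) ∧
      (∃ n0, ∀ n ≥ n0, 1 ≤ (A.hits x1 n (r n) b (-1) 1).ncard) ∧
      ∀ T : ℝ, ∃ (K : ℝ) (n0 : ℕ), ∀ n ≥ n0, ∀ x ∈ A.Λ,
        ((A.hits x1 n (r n) x (-T) T).ncard : ℝ) ≤ K * (A.hits x1 n (r n) b (-1) 1).ncard ∧
        ((A.hits x1 n (r n + n / 2 ^ n) x (-T) T \ A.hits x1 n (r n - n / 2 ^ n) x (-T) T).ncard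
          : ℝ) ≤ K / n * (A.hits x1 n (r n) b (-1) 1).ncard := by
  obtain ⟨rm, hrm, hU3⟩ := A.U3 (A.ε0 / 4) (by linarith [A.ε0_pos])
  have hSr : ∀ y ∈ A.Sr x1 rm, y ∈ WUl A.F (A.ε0 / 4) x1 := fun y hy => hU3 x1 hx1 y hy.1 hy.2
  obtain ⟨C, hC, hup⟩ := A.hits_upper hx1 b hb
  obtain ⟨n0, hn0, hpig⟩ := A07_pigeon C hC rm hrm
  obtain ⟨n2, hlow⟩ := A.hits_lower hx1 hb (rm / 4) (by positivity)
  -- the counting function
  set N : ℕ → ℝ → ℕ := fun n ρ => (A.hits x1 n ρ b (-1) 1).ncard with hN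
  have hfin : ∀ n ρ, (A.hits x1 n ρ b (-1) 1).Finite := fun n ρ => A.hits_finite hx1 n ρ b _ _
  have hmono : ∀ n, Monotone (N n) := fun n ρ ρ' h =>
    ncard_le_ncard (A.A07_hits_mono h b _ _) (hfin n ρ')
  have hex : ∀ n, ∃ ρ : ℝ, (0 < ρ ∧ ρ ≤ rm / 2) ∧ (max n0 n2 ≤ n →
      rm / 4 + 2 * n / 2 ^ n ≤ ρ ∧ ρ + 2 * n / 2 ^ n ≤ rm / 2 ∧
        (N n (ρ + 2 * n / 2 ^ n) : ℝ) ≤ (1 + 1 / n) * N n (ρ - 2 * n / 2 ^ n)) := by
    intro n
    by_cases h : max n0 n2 ≤ n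
    · obtain ⟨ρ, h1, h2, h3⟩ := hpig n ((le_max_left _ _).trans h) (N n) (hmono n)
        (hlow n ((le_max_right _ _).trans h)) (fun ρ => hup n ρ)
      have h4 : (0:ℝ) ≤ 2 * n / 2 ^ n := by positivity
      exact ⟨ρ, ⟨by linarith, by linarith⟩, fun _ => ⟨h1, h2, h3⟩⟩
    · exact ⟨rm / 2, ⟨by positivity, le_rfl⟩, fun h' => absurd h' h⟩
  choose r hr using hex
  refine ⟨rm, r, hrm, hSr, fun n => (hr n).1, ⟨max n0 n2, fun n hn => ?_⟩, fun T => ?_⟩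
  · obtain ⟨h1, _, _⟩ := (hr n).2 hn
    have h4 : (0:ℝ) ≤ 2 * n / 2 ^ n := by positivity
    exact (hlow n ((le_max_right _ _).trans hn)).trans
      (hmono n (by linarith : rm / 4 ≤ r n))
  obtain ⟨K, k, n1, hcnt⟩ := A.A07_count hx1 hb T
  refine ⟨2 * K, max (max n0 n2) (max n1 k), fun n hn x hx => ?_⟩
  have hn02 : max n0 n2 ≤ n := (le_max_left _ _).trans hn
  have hn1 : n1 ≤ n := (le_max_left _ _).trans ((le_max_right _ _).trans hn)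
  have hnk : k ≤ n := (le_max_right _ _).trans ((le_max_right _ _).trans hn)
  have hn_one : 1 ≤ n := hn0.trans ((le_max_left _ _).trans hn02)
  have hnr : (1:ℝ) ≤ n := by exact_mod_cast hn_one
  have hnpos : (0:ℝ) < n := by linarith
  obtain ⟨h1, h2, h3⟩ := (hr n).2 hn02
  have hkr : (k:ℝ) ≤ n := by exact_mod_cast hnk
  have hk2 : (k:ℝ) / 2 ^ n ≤ n / 2 ^ n := by gcongr
  have h0n : (0:ℝ) ≤ n / 2 ^ n := by positivity
  have h0k : (0:ℝ) ≤ (k:ℝ) / 2 ^ n := by positivity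
  have e2n : 2 * (n:ℝ) / 2 ^ n = n / 2 ^ n + n / 2 ^ n := by ring
  rw [e2n] at h1 h2 h3
  have hNle : (N n (r n - (n / 2 ^ n + n / 2 ^ n)) : ℝ) ≤ N n (r n) := by
    exact Nat.cast_le.2 (hmono n (by linarith))
  have hinv : (1:ℝ) / n ≤ 1 := by rw [div_le_one hnpos]; exact hnr
  have hK0 : (0:ℝ) ≤ K := Nat.cast_nonneg K
  constructor
  · have h5 := hcnt rm hSr n hn1 x hx 0 (r n) (by linarith [(hr n).1.2])
    rw [A.A07_hits_empty le_rfl, sdiff_empty] at h5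
    have h6 : (A.hits x1 n (r n + k / 2 ^ n) b (-1) 1 \
        A.hits x1 n (0 - k / 2 ^ n) b (-1) 1).ncard ≤
        N n (r n + (n / 2 ^ n + n / 2 ^ n)) :=
      (ncard_le_ncard sdiff_subset (hfin _ _)).trans (hmono n (by linarith))
    have h7 : ((A.hits x1 n (r n) x (-T) T).ncard : ℝ) ≤
        K * N n (r n + (n / 2 ^ n + n / 2 ^ n)) := by
      exact_mod_cast h5.trans (Nat.mul_le_mul_left K h6)
    have h8 : (N n (r n + (n / 2 ^ n + n / 2 ^ n)) : ℝ) ≤ 2 * N n (r n) := by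
      refine h3.trans ?_
      have : (0:ℝ) ≤ N n (r n - (n / 2 ^ n + n / 2 ^ n)) := Nat.cast_nonneg _
      nlinarith
    calc ((A.hits x1 n (r n) x (-T) T).ncard : ℝ) ≤ K * (2 * N n (r n)) :=
          h7.trans (mul_le_mul_of_nonneg_left h8 hK0)
      _ = 2 * K * (A.hits x1 n (r n) b (-1) 1).ncard := by rw [hN]; ring
  · have h5 := hcnt rm hSr n hn1 x hx (r n - n / 2 ^ n) (r n + n / 2 ^ n)
      (by linarith [(hr n).1.2])
    have h6 : (A.hits x1 n (r n + n / 2 ^ n + k / 2 ^ n) b (-1) 1 \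
        A.hits x1 n (r n - n / 2 ^ n - k / 2 ^ n) b (-1) 1) ⊆
        (A.hits x1 n (r n + (n / 2 ^ n + n / 2 ^ n)) b (-1) 1 \
          A.hits x1 n (r n - (n / 2 ^ n + n / 2 ^ n)) b (-1) 1) :=
      sdiff_subset_sdiff (A.A07_hits_mono (by linarith) _ _ _)
        (A.A07_hits_mono (by linarith) _ _ _)
    have h7 := ncard_le_ncard h6 ((hfin _ _).subset sdiff_subset)
    have h8 : ((A.hits x1 n (r n + (n / 2 ^ n + n / 2 ^ n)) b (-1) 1 \
          A.hits x1 n (r n - (n / 2 ^ n + n / 2 ^ n)) b (-1) 1).ncard : ℝ) =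
        N n (r n + (n / 2 ^ n + n / 2 ^ n)) - N n (r n - (n / 2 ^ n + n / 2 ^ n)) := by
      have h9 := ncard_sdiff_add_ncard_of_subset
        (A.A07_hits_mono (x1 := x1) (n := n)
          (show r n - (n / 2 ^ n + n / 2 ^ n) ≤ r n + ((n:ℝ) / 2 ^ n + n / 2 ^ n) by linarith)
          b (-1) 1) (hfin _ _)
      have h10 : (((A.hits x1 n (r n + (n / 2 ^ n + n / 2 ^ n)) b (-1) 1 \
          A.hits x1 n (r n - (n / 2 ^ n + n / 2 ^ n)) b (-1) 1).ncard : ℕ) : ℝ) +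
          N n (r n - (n / 2 ^ n + n / 2 ^ n)) = N n (r n + (n / 2 ^ n + n / 2 ^ n)) := by
        rw [← Nat.cast_add]
        exact congrArg Nat.cast h9
      linarith
    have h11 : ((A.hits x1 n (r n + n / 2 ^ n) x (-T) T \
        A.hits x1 n (r n - n / 2 ^ n) x (-T) T).ncard : ℝ) ≤
        K * ((A.hits x1 n (r n + (n / 2 ^ n + n / 2 ^ n)) b (-1) 1 \
          A.hits x1 n (r n - (n / 2 ^ n + n / 2 ^ n)) b (-1) 1).ncard : ℝ) := by
      exact_mod_cast h5.trans (Nat.mul_le_mul_left K h7)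
    rw [h8] at h11
    have h12 : (N n (r n + (n / 2 ^ n + n / 2 ^ n)) : ℝ) -
        N n (r n - (n / 2 ^ n + n / 2 ^ n)) ≤ 1 / n * N n (r n) := by
      have h13 : (1:ℝ) / n * N n (r n - (n / 2 ^ n + n / 2 ^ n)) ≤ 1 / n * N n (r n) :=
        mul_le_mul_of_nonneg_left hNle (by positivity)
      linarith
    have h14 : (0:ℝ) ≤ 1 / n * N n (r n) := by positivity
    calc ((A.hits x1 n (r n + n / 2 ^ n) x (-T) T \
        A.hits x1 n (r n - n / 2 ^ n) x (-T) T).ncard : ℝ)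
        ≤ K * (1 / n * N n (r n)) := h11.trans (mul_le_mul_of_nonneg_left h12 hK0)
      _ ≤ 2 * (K * (1 / n * N n (r n))) := by
          have := mul_nonneg hK0 h14
          linarith
      _ = 2 * K / n * (A.hits x1 n (r n) b (-1) 1).ncard := by rw [hN]; ring

end AF

end Pool.MP85
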