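import Pool.Agent.Lib.MP_85e637_an.Abs
import Pool.Agent.Lib.MP_85e637_an.A01
import Pool.Agent.Lib.MP_85e637_an.A02
import Pool.Agent.Lib.MP_85e637_an.A03
import Pool.Agent.Lib.MP_85e637_an.A05
import Pool.Agent.Lib.MP_85e637_an.A06
import Pool.Agent.Lib.MP_85e637_an.A07

/-!
# A08: the premeasure (ultrafilter limit of normalised crossing counts)
-/

open Filter Topology Set Metric

namespace Pool.MP85

namespace AF
variable {m : ℕ} {X M : Type} [MetricSpace X] [MetricSpace M] (A : AF m X M)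

/-- normalised crossing count -/
noncomputable def A08_q (b : X) (r : ℕ → ℝ) (x : X) (s t : ℝ) (n : ℕ) : ℝ :=
  ((A.hits b n (r n) x s t).ncard : ℝ) / ((A.hits b n (r n) b (-1) 1).ncard : ℝ)

/-- ultrafilter limit of the normalised crossing counts -/
noncomputable def A08_μ (b : X) (r : ℕ → ℝ) (x : X) (s t : ℝ) : ℝ :=
  limUnder (hyperfilter ℕ : Filter ℕ) (A.A08_q b r x s t)

lemma A08_q_nonneg (b : X) (r : ℕ → ℝ) (x : X) (s t : ℝ) (n : ℕ) : 0 ≤ A.A08_q b r x s t n := by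
  unfold A08_q; positivity

lemma A08_ev {p : ℕ → Prop} {n0 : ℕ} (h : ∀ n ≥ n0, p n) :
    ∀ᶠ n in (hyperfilter ℕ : Filter ℕ), p n := by
  have h1 : ∀ᶠ n in (atTop : Filter ℕ), p n := eventually_atTop.2 ⟨n0, h⟩
  exact h1.filter_mono Nat.hyperfilter_le_atTop

lemma A08_tendsto {b : X} {r : ℕ → ℝ} {x : X} {s t : ℝ} {B : ℝ} {n0 : ℕ}
    (hB : ∀ n ≥ n0, A.A08_q b r x s t n ≤ B) :
    Tendsto (A.A08_q b r x s t) (hyperfilter ℕ : Filter ℕ) (𝓝 (A.A08_μ b r x s t)) := by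
  refine tendsto_nhds_limUnder ?_
  have hmem : Icc (0:ℝ) B ∈ (hyperfilter ℕ).map (A.A08_q b r x s t) := by
    rw [Ultrafilter.mem_map]
    exact A08_ev (n0 := n0) fun n hn => ⟨A.A08_q_nonneg b r x s t n, hB n hn⟩
  obtain ⟨y, -, hy⟩ := isCompact_Icc.ultrafilter_le_nhds' _ hmem
  exact ⟨y, hy⟩

lemma A08_hits_mono {b : X} {n : ℕ} {r r' : ℝ} {x : X} {s t s' t' : ℝ} (hr : r ≤ r')
    (hs : s' ≤ s) (ht : t ≤ t') : A.hits b n r x s t ⊆ A.hits b n r' x s' t' := by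
  rintro u ⟨h1, h2, h3⟩
  refine ⟨hs.trans h1, h2.trans_le ht, ?_⟩
  rcases h3 with h3 | h3
  · exact Or.inl ⟨h3.1, h3.2.trans_le hr⟩
  · exact Or.inr ⟨h3.1, h3.2.trans_le hr⟩

lemma A08_Sr_empty {b : X} {r : ℝ} (hr : r ≤ 0) : A.Sr b r = ∅ := by
  ext y
  simp only [Sr, mem_ofPred_eq, mem_empty_iff_false, iff_false, not_and, not_lt]
  intro _
  exact hr.trans dist_nonneg

lemma A08_hits_empty {b : X} {n : ℕ} {r : ℝ} (hr : r ≤ 0) {x : X} {s t : ℝ} :
    A.hits b n r x s t = ∅ := by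
  ext u
  simp [hits, Sh, A.A08_Sr_empty hr]

lemma A08_shell {b : X} {n : ℕ} {r κ κ' : ℝ} {x : X} {s t T : ℝ} (hκ : κ' ≤ κ)
    (hκ0 : 0 ≤ κ) (hs : -T ≤ s) (ht : t ≤ T) :
    A.hits b n (r + κ') x s t ⊆ A.hits b n r x s t ∪
      (A.hits b n (r + κ) x (-T) T \ A.hits b n (r - κ) x (-T) T) := by
  intro u hu
  by_cases h : u ∈ A.hits b n r x s t
  · exact Or.inl h
  · refine Or.inr ⟨A.A08_hits_mono (by linarith) hs ht hu, fun h' => h ?_⟩
    have h2 := A.A08_hits_mono (r' := r) (s' := -T) (t' := T) (by linarith) le_rfl le_rfl h'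
    exact ⟨hu.1, hu.2.1, h2.2.2⟩

lemma A08_shift (b : X) (n : ℕ) (r : ℝ) (x : X) (u s t : ℝ) :
    (A.hits b n r (A.φ u x) s t).ncard = (A.hits b n r x (s + u) (t + u)).ncard := by
  have : A.hits b n r x (s + u) (t + u) = (fun v => v + u) '' A.hits b n r (A.φ u x) s t := by
    ext w
    simp only [hits, mem_ofPred_eq, mem_image]
    constructor
    · rintro ⟨h1, h2, h3⟩
      refine ⟨w - u, ⟨by linarith, by linarith, ?_⟩, by ring⟩
      rw [← A.φ_add]
      simpa using h3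
    · rintro ⟨v, ⟨h1, h2, h3⟩, rfl⟩
      refine ⟨by linarith, by linarith, ?_⟩
      rwa [A.φ_add]
  rw [this, ncard_image_of_injective _ (add_left_injective u)]

lemma A08_Sh_σ {b y : X} {r : ℝ} (h : A.σ y ∈ A.Sh b r) : y ∈ A.Sh b r := by
  rcases h with h | h
  · exact Or.inr h
  · rw [A.σσ] at h; exact Or.inl h

lemma A08_refl {b : X} (hb : b ∈ A.Λ) (n : ℕ) (r : ℝ) (x : X) (s t ε : ℝ) (hε : 0 < ε) :
    (A.hits b n r (A.σ x) (-t) (-s)).ncard ≤ (A.hits b n r x s (t + ε)).ncard := by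
  have hfin := A.hits_finite hb n r x s (t + ε)
  have hsub : A.hits b n r (A.σ x) (-t) (-s) ⊆ (fun v => -v) '' A.hits b n r x s (t + ε) := by
    rintro w ⟨h1, h2, h3⟩
    refine ⟨-w, ⟨by linarith, by linarith, ?_⟩, by simp⟩
    apply A.A08_Sh_σ
    rw [← A.bk_σ, A.σφ, neg_neg]
    exact h3
  calc _ ≤ ((fun v => -v) '' A.hits b n r x s (t + ε)).ncard :=
        ncard_le_ncard hsub (hfin.image _)
    _ = _ := ncard_image_of_injective _ neg_injective

/-- limits of inequalities -/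
lemma A08_le_of {f g : ℕ → ℝ} {a c K : ℝ} {n0 : ℕ}
    (hf : Tendsto f (hyperfilter ℕ : Filter ℕ) (𝓝 a))
    (hg : Tendsto g (hyperfilter ℕ : Filter ℕ) (𝓝 c))
    (h : ∀ n ≥ n0, f n ≤ g n + K / n) : a ≤ c := by
  have hK : Tendsto (fun n : ℕ => K / (n : ℝ)) (hyperfilter ℕ : Filter ℕ) (𝓝 0) :=
    (tendsto_const_div_atTop_nhds_zero_nat K).mono_left Nat.hyperfilter_le_atTop
  have h2 := hg.add hK
  rw [add_zero] at h2
  exact le_of_tendsto_of_tendsto hf h2 (A08_ev h)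

/-- the counting part of the invariance: the slid times inject -/
lemma A08_inj {b : X} (hb : b ∈ A.Λ) {rm : ℝ}
    (hrm : ∀ y ∈ A.Sr b rm, y ∈ WUl A.F (A.ε0 / 4) b) (T : ℝ) : ∃ ε' > 0, ∃ n0 : ℕ, ∀ x ∈ A.Λ,
    ∀ y ∈ WUl A.F ε' x, ∀ s ∈ A.LT x, ∀ t ∈ A.LT x,
      |s| ≤ T → |t| ≤ T → ∀ s' t' : ℝ, |s' - s| ≤ ε' → |t' - t| ≤ ε' →
        A.φ s' y ∈ WUl A.F ε' (A.φ s x) → A.φ t' y ∈ WUl A.F ε' (A.φ t x) →
          |s'| ≤ T + 1 ∧ |t'| ≤ T + 1 ∧ ∀ n ≥ n0, ∀ r ≤ rm, (A.hits b n r x s t).ncard ≤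
            (A.hits b n (r + n / 2 ^ n) y s' t').ncard := by
  have hε0 := A.ε0_pos
  have hδ0 := A.δ0_pos
  set ε : ℝ := min (A.ε0 / 4) (A.δ0 / 2) with hε
  have hεpos : 0 < ε := by positivity
  have hε1 : ε ≤ A.ε0 / 4 := min_le_left _ _
  have hε2 : ε ≤ A.δ0 / 2 := min_le_right _ _
  obtain ⟨ε1, hε1pos, hsld⟩ := A.sld T ε hεpos
  obtain ⟨n1, hn1⟩ := A.wul_unif (A.ε0 / 4) (by positivity)
  obtain ⟨n2, hn2⟩ := exists_nat_ge A.ε0
  refine ⟨min (min ε1 1) (min (A.ε0 / 4) (A.δ0 / 2)), by positivity, max n1 n2, ?_⟩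
  set ε' : ℝ := min (min ε1 1) (min (A.ε0 / 4) (A.δ0 / 2)) with hε'
  have h1 : ε' ≤ ε1 := (min_le_left _ _).trans (min_le_left _ _)
  have h2 : ε' ≤ 1 := (min_le_left _ _).trans (min_le_right _ _)
  have h3 : ε' ≤ A.ε0 / 4 := (min_le_right _ _).trans (min_le_left _ _)
  have h4 : ε' ≤ A.δ0 / 2 := (min_le_right _ _).trans (min_le_right _ _)
  intro x hx y hy s hs t ht hsT htT s' t' hs' ht' hys hyt
  obtain ⟨h, -, hclose, hmono, -⟩ := hsld x hx y (wul_mono h1 hy)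
  have huniq : ∀ w ∈ A.LT x, |w| ≤ T → ∀ w' : ℝ, |w' - w| ≤ ε' →
      A.φ w' y ∈ WUl A.F ε' (A.φ w x) → h w = w' := by
    intro w hw hwT w' hw' hyw
    obtain ⟨hc1, hc2⟩ := hclose w hw hwT
    refine A.uniq (b := A.φ w x) (y := y) hw ?_ (wul_mono (by linarith) hc2)
      (wul_mono (by linarith) hyw)
    rw [abs_le] at *
    constructor <;> linarith [hc1.1, hc1.2, hw'.1, hw'.2]
  have hhs : h s = s' := huniq s hs hsT s' hs' hys
  have hht : h t = t' := huniq t ht htT t' ht' hyt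
  refine ⟨?_, ?_, ?_⟩
  · rw [abs_le] at *
    constructor <;> linarith [hs'.1, hs'.2, hsT.1, hsT.2]
  · rw [abs_le] at *
    constructor <;> linarith [ht'.1, ht'.2, htT.1, htT.2]
  intro n hn r hr
  have hyΛ : y ∈ A.Λ := A.U1 x hx (wul_mono (by linarith) hy)
  have hfin := A.hits_finite hb n (r + n / 2 ^ n) y s' t'
  refine ncard_le_ncard_of_injOn h ?_ ?_ hfin
  · -- maps to
    intro u hu
    have huL : u ∈ A.LT x := A.hits_LT hb hu
    obtain ⟨hu1, hu2, hu3⟩ := hu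
    have huT : |u| ≤ T := by
      rw [abs_le] at *
      constructor <;> linarith [hsT.1, htT.2]
    obtain ⟨hc1, hc2⟩ := hclose u huL huT
    refine ⟨?_, ?_, ?_⟩
    · rw [← hhs]
      rcases hu1.eq_or_lt with h0 | h0
      · rw [h0]
      · exact (hmono s hs u huL hsT huT h0).le
    · rw [← hht]
      exact hmono u huL t ht huT htT hu2
    · -- the point
      have hΛu : A.φ u x ∈ A.Λ := huL
      have hc3 : A.φ (h u) y ∈ WUl A.F A.ε0 (A.φ u x) := wul_mono (by linarith) hc2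
      have hb1 : bk A.F n (A.φ (h u) y) ∈ WUl A.F (A.ε0 / 4) (bk A.F n (A.φ u x)) :=
        hn1 n ((le_max_left _ _).trans hn) _ hΛu _ hc3
      have hb2 : dist (A.π (bk A.F n (A.φ u x))) (A.π (bk A.F n (A.φ (h u) y))) ≤ n / 2 ^ n := by
        refine (A.wul_pi hΛu hc3 n).trans ?_
        have h5 : dist (A.π (A.φ u x)) (A.π (A.φ (h u) y)) ≤ A.ε0 :=
          (A.π_lip _ _).trans (wul_dist hc3)
        have h6 : A.ε0 ≤ n := hn2.trans (by exact_mod_cast (le_max_right _ _).trans hn)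
        have h7 : (0:ℝ) < 2 ^ n := by positivity
        exact (div_le_div_iff_of_pos_right h7).2 (h5.trans h6)
      -- generic step
      have hstep : ∀ z z' : X, z ∈ A.Sr b r → z' ∈ WUl A.F (A.ε0 / 4) z →
          dist (A.π z) (A.π z') ≤ n / 2 ^ n → z' ∈ A.Sr b (r + n / 2 ^ n) := by
        intro z z' hz hz' hd
        have hz1 : z ∈ WUl A.F (A.ε0 / 4) b := hrm z ⟨hz.1, hz.2.trans_le hr⟩
        refine ⟨wul_mono (by linarith) (wul_trans hz1 hz'), ?_⟩
        calc dist (A.π b) (A.π z') ≤ dist (A.π b) (A.π z) + dist (A.π z) (A.π z') :=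
              dist_triangle _ _ _
          _ < r + n / 2 ^ n := add_lt_add_of_lt_of_le hz.2 hd
      rcases hu3 with hu3 | hu3
      · exact Or.inl (hstep _ _ hu3 hb1 hb2)
      · refine Or.inr (hstep _ _ hu3 ?_ ?_)
        · exact A.wul_σ.2 hb1
        · rw [A.πσ, A.πσ]; exact hb2
  · -- injective
    intro u hu v hv huv
    have huL : u ∈ A.LT x := A.hits_LT hb hu
    have hvL : v ∈ A.LT x := A.hits_LT hb hv
    have huT : |u| ≤ T := by
      have := hu.1; have := hu.2.1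
      rw [abs_le] at *
      constructor <;> linarith [hsT.1, htT.2]
    have hvT : |v| ≤ T := by
      have := hv.1; have := hv.2.1
      rw [abs_le] at *
      constructor <;> linarith [hsT.1, htT.2]
    rcases lt_trichotomy u v with h0 | h0 | h0
    · exact absurd huv (hmono u huL v hvL huT hvT h0).ne
    · exact h0
    · exact absurd huv (hmono v hvL u huL hvT huT h0).ne'

theorem exists_premeas (b : X) (hb : b ∈ A.Λ) : ∃ μ : X → ℝ → ℝ → ℝ,
    (∀ x ∈ A.Λ, ∀ s t, s ≤ t → 0 ≤ μ x s t) ∧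
    (∀ x ∈ A.Λ, ∀ s t u, s ≤ t → t ≤ u → μ x s u = μ x s t + μ x t u) ∧
    (∀ x ∈ A.Λ, ∀ s t, s ≤ t → (∀ u ∈ Ico s t, u ∉ A.LT x) → μ x s t = 0) ∧
    (∀ x ∈ A.Λ, ∀ u ∈ A.LT x, ∀ s t, s ≤ t → μ (A.φ u x) s t = μ x (s + u) (t + u)) ∧
    (∀ x ∈ A.Λ, ∀ s t ε, s ≤ t → 0 < ε → μ (A.σ x) (-t) (-s) ≤ μ x s (t + ε)) ∧
    (∀ T : ℝ, ∃ ε' > 0, ∀ x ∈ A.Λ, ∀ y ∈ WUl A.F ε' x, ∀ s ∈ A.LT x, ∀ t ∈ A.LT x,
      |s| ≤ T → |t| ≤ T → s ≤ t → ∀ s' t' : ℝ, |s' - s| ≤ ε' → |t' - t| ≤ ε' →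
        A.φ s' y ∈ WUl A.F ε' (A.φ s x) → A.φ t' y ∈ WUl A.F ε' (A.φ t x) →
          μ x s t = μ y s' t') ∧
    μ b (-1) 1 = 1 ∧
    /- comparison: short arcs are uniformly dominated by any `δ`-arc -/
    (∀ δ > 0, ∃ εs > 0, ∀ b' ∈ A.Λ, ∀ c ∈ A.Λ, μ c (-εs) εs ≤ μ b' (-δ) δ) := by
  obtain ⟨rm, r, hrm0, hrm, hr, ⟨N0, hN0⟩, hkey⟩ := A.key hb hb
  have hbd : ∀ x ∈ A.Λ, ∀ s t : ℝ, ∃ (B : ℝ) (n0 : ℕ), ∀ n ≥ n0, A.A08_q b r x s t n ≤ B := by
    intro x hx s t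
    obtain ⟨K, n0, hK⟩ := hkey (max |s| |t|)
    refine ⟨K, max n0 N0, fun n hn => ?_⟩
    have h1 := (hK n ((le_max_left _ _).trans hn) x hx).1
    have h2 := hN0 n ((le_max_right _ _).trans hn)
    have h3 : (0:ℝ) < ((A.hits b n (r n) b (-1) 1).ncard : ℝ) := by
      exact_mod_cast h2
    unfold A08_q
    rw [div_le_iff₀ h3]
    refine le_trans ?_ h1
    have hsub : A.hits b n (r n) x s t ⊆
        A.hits b n (r n) x (-(max |s| |t|)) (max |s| |t|) := by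
      refine A.A08_hits_mono le_rfl ?_ ((le_abs_self t).trans (le_max_right _ _))
      have := neg_abs_le s
      have := le_max_left |s| |t|
      linarith
    exact_mod_cast ncard_le_ncard hsub (A.hits_finite hb _ _ _ _ _)
  have htd : ∀ x ∈ A.Λ, ∀ s t : ℝ,
      Tendsto (A.A08_q b r x s t) (hyperfilter ℕ : Filter ℕ) (𝓝 (A.A08_μ b r x s t)) := by
    intro x hx s t
    obtain ⟨B, n0, hB⟩ := hbd x hx s t
    exact A.A08_tendsto hB
  -- one-sided invariance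
  have hinv : ∀ T : ℝ, ∃ ε' > 0, ∀ x ∈ A.Λ, ∀ y ∈ WUl A.F ε' x, ∀ s ∈ A.LT x, ∀ t ∈ A.LT x,
      |s| ≤ T → |t| ≤ T → ∀ s' t' : ℝ, |s' - s| ≤ ε' → |t' - t| ≤ ε' →
        A.φ s' y ∈ WUl A.F ε' (A.φ s x) → A.φ t' y ∈ WUl A.F ε' (A.φ t x) →
          A.A08_μ b r x s t ≤ A.A08_μ b r y s' t' := by
    intro T
    obtain ⟨ε1, hε1, n1, hn1⟩ := A.A08_inj hb hrm T
    obtain ⟨K, n2, hK⟩ := hkey (T + 1)
    have hε0 := A.ε0_pos
    refine ⟨min ε1 A.ε0, by positivity, ?_⟩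
    intro x hx y hy s hs t ht hsT htT s' t' hs' ht' hys hyt
    have hyΛ : y ∈ A.Λ := A.U1 x hx (wul_mono (min_le_right _ _) hy)
    obtain ⟨hs'T, ht'T, hcount⟩ := hn1 x hx y (wul_mono (min_le_left _ _) hy) s hs t ht hsT htT
      s' t' (hs'.trans (min_le_left _ _)) (ht'.trans (min_le_left _ _))
      (wul_mono (min_le_left _ _) hys) (wul_mono (min_le_left _ _) hyt)
    refine A08_le_of (n0 := max (max n1 n2) N0) (K := K) (htd x hx s t) (htd y hyΛ s' t') ?_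
    intro n hn
    have h1 : n1 ≤ n := ((le_max_left _ _).trans (le_max_left _ _)).trans hn
    have h2 : n2 ≤ n := ((le_max_right _ _).trans (le_max_left _ _)).trans hn
    have h3 : N0 ≤ n := (le_max_right _ _).trans hn
    have hN : (0:ℝ) < ((A.hits b n (r n) b (-1) 1).ncard : ℝ) := by exact_mod_cast hN0 n h3
    have hc := hcount n h1 (r n) (by linarith [(hr n).2])
    have hsh := (hK n h2 y hyΛ).2
    have hκ : (0:ℝ) ≤ n / 2 ^ n := by positivity
    have hsub := A.A08_shell (b := b) (n := n) (r := r n) (κ := n / 2 ^ n) (κ' := n / 2 ^ n)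
      (x := y) (s := s') (t := t') (T := T + 1) le_rfl hκ (by linarith [(abs_le.1 hs'T).1])
      (abs_le.1 ht'T).2
    have hfin1 := A.hits_finite hb n (r n) y s' t'
    have hfin2 := (A.hits_finite hb n (r n + n / 2 ^ n) y (-(T + 1)) (T + 1)).subset
      (sdiff_subset (t := A.hits b n (r n - n / 2 ^ n) y (-(T + 1)) (T + 1)))
    have hc2 : (A.hits b n (r n) x s t).ncard ≤ (A.hits b n (r n) y s' t').ncard +
        (A.hits b n (r n + n / 2 ^ n) y (-(T + 1)) (T + 1) \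
          A.hits b n (r n - n / 2 ^ n) y (-(T + 1)) (T + 1)).ncard :=
      hc.trans ((ncard_le_ncard hsub (hfin1.union hfin2)).trans (ncard_union_le _ _))
    have hc3 : ((A.hits b n (r n) x s t).ncard : ℝ) ≤ (A.hits b n (r n) y s' t').ncard +
        K / n * (A.hits b n (r n) b (-1) 1).ncard := by
      have : ((A.hits b n (r n) x s t).ncard : ℝ) ≤ (A.hits b n (r n) y s' t').ncard +
        ((A.hits b n (r n + n / 2 ^ n) y (-(T + 1)) (T + 1) \
          A.hits b n (r n - n / 2 ^ n) y (-(T + 1)) (T + 1)).ncard : ℝ) := by exact_mod_cast hc2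
      linarith
    unfold A08_q
    rw [div_le_iff₀ hN, add_mul, div_mul_cancel₀ _ hN.ne']
    exact hc3
  refine ⟨A.A08_μ b r, ?_, ?_, ?_, ?_, ?_, ?_, ?_, ?_⟩
  · intro x hx s t _
    exact ge_of_tendsto (htd x hx s t) (Eventually.of_forall fun n => A.A08_q_nonneg b r x s t n)
  · intro x hx s t u hst htu
    refine tendsto_nhds_unique (htd x hx s u) ?_
    have h1 := (htd x hx s t).add (htd x hx t u)
    refine h1.congr fun n => ?_
    unfold A08_q
    rw [← add_div]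
    congr 1
    have hU : A.hits b n (r n) x s u = A.hits b n (r n) x s t ∪ A.hits b n (r n) x t u := by
      ext w
      simp only [hits, mem_ofPred_eq, mem_union]
      constructor
      · rintro ⟨h1, h2, h3⟩
        rcases lt_or_ge w t with h | h
        · exact Or.inl ⟨h1, h, h3⟩
        · exact Or.inr ⟨h, h2, h3⟩
      · rintro (⟨h1, h2, h3⟩ | ⟨h1, h2, h3⟩)
        · exact ⟨h1, h2.trans_le htu, h3⟩
        · exact ⟨hst.trans h1, h2, h3⟩
    rw [hU, ncard_union_eq ?_ (A.hits_finite hb _ _ _ _ _) (A.hits_finite hb _ _ _ _ _)]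
    · push_cast; ring
    · rw [Set.disjoint_left]
      rintro w ⟨_, h2, _⟩ ⟨h1, _, _⟩
      exact absurd h2 (not_lt.2 h1)
  · intro x hx s t hst hno
    refine tendsto_nhds_unique (htd x hx s t) ?_
    refine tendsto_const_nhds.congr fun n => ?_
    have : A.hits b n (r n) x s t = ∅ := by
      ext u
      simp only [mem_empty_iff_false, iff_false]
      intro hu
      exact hno u ⟨hu.1, hu.2.1⟩ (A.hits_LT hb hu)
    unfold A08_q
    rw [this]; simp
  · intro x hx u hu s t _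
    unfold A08_μ
    congr 1
    ext n
    unfold A08_q
    rw [A.A08_shift]
  · intro x hx s t ε hst hε
    have hσ : A.σ x ∈ A.Λ := (A.σΛ x).2 hx
    refine le_of_tendsto_of_tendsto (htd _ hσ (-t) (-s)) (htd x hx s (t + ε))
      (Eventually.of_forall fun n => ?_)
    unfold A08_q
    have := A.A08_refl hb n (r n) x s t ε hε
    gcongr
  · intro T
    obtain ⟨ε1, hε1, h1⟩ := hinv T
    obtain ⟨ε2, hε2, h2⟩ := hinv (T + 1)
    have hε0 := A.ε0_pos
    refine ⟨min (min ε1 ε2) (min A.ε0 1), by positivity, ?_⟩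
    set ε' := min (min ε1 ε2) (min A.ε0 1) with hε'
    have e1 : ε' ≤ ε1 := (min_le_left _ _).trans (min_le_left _ _)
    have e2 : ε' ≤ ε2 := (min_le_left _ _).trans (min_le_right _ _)
    have e3 : ε' ≤ A.ε0 := (min_le_right _ _).trans (min_le_left _ _)
    have e4 : ε' ≤ 1 := (min_le_right _ _).trans (min_le_right _ _)
    intro x hx y hy s hs t ht hsT htT _ s' t' hs' ht' hys hyt
    have hyΛ : y ∈ A.Λ := A.U1 x hx (wul_mono e3 hy)
    have hs'L : s' ∈ A.LT y := A.U1 _ hs (wul_mono e3 hys)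
    have ht'L : t' ∈ A.LT y := A.U1 _ ht (wul_mono e3 hyt)
    refine le_antisymm ?_ ?_
    · exact h1 x hx y (wul_mono e1 hy) s hs t ht hsT htT s' t' (hs'.trans e1) (ht'.trans e1)
        (wul_mono e1 hys) (wul_mono e1 hyt)
    · refine h2 y hyΛ x (wul_symm (wul_mono e2 hy)) s' hs'L t' ht'L ?_ ?_ s t ?_ ?_
        (wul_symm (wul_mono e2 hys)) (wul_symm (wul_mono e2 hyt))
      · rw [abs_le] at *
        constructor <;> linarith [hs'.1, hs'.2, hsT.1, hsT.2]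
      · rw [abs_le] at *
        constructor <;> linarith [ht'.1, ht'.2, htT.1, htT.2]
      · rw [abs_sub_comm]; exact hs'.trans e2
      · rw [abs_sub_comm]; exact ht'.trans e2
  · refine tendsto_nhds_unique (htd b hb (-1) 1) ?_
    refine tendsto_const_nhds.congr' ?_
    refine A08_ev (n0 := N0) fun n hn => ?_
    have hN : (0:ℝ) < ((A.hits b n (r n) b (-1) 1).ncard : ℝ) := by exact_mod_cast hN0 n hn
    unfold A08_q
    rw [div_self hN.ne']
  · intro δ hδ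
    obtain ⟨εs, hεs, k, n1, hcmp⟩ := A.hits_cmp δ hδ
    obtain ⟨K, n2, hK⟩ := hkey δ
    refine ⟨εs, hεs, fun b' hb' c hc => ?_⟩
    refine A08_le_of (n0 := max (max n1 n2) (max N0 k)) (K := K) (htd c hc _ _) (htd b' hb' _ _) ?_
    intro n hn
    have h1 : n1 ≤ n := ((le_max_left _ _).trans (le_max_left _ _)).trans hn
    have h2 : n2 ≤ n := ((le_max_right _ _).trans (le_max_left _ _)).trans hn
    have h3 : N0 ≤ n := ((le_max_left _ _).trans (le_max_right _ _)).trans hn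
    have h4 : k ≤ n := ((le_max_right _ _).trans (le_max_right _ _)).trans hn
    have hN : (0:ℝ) < ((A.hits b n (r n) b (-1) 1).ncard : ℝ) := by exact_mod_cast hN0 n h3
    have hc := hcmp b hb rm hrm n h1 b' hb' c hc 0 (r n) (by linarith [(hr n).2])
    have hk0 : (0:ℝ) ≤ k / 2 ^ n := by positivity
    rw [A.A08_hits_empty (r := 0) le_rfl, A.A08_hits_empty (r := 0 - k / 2 ^ n) (by linarith),
      sdiff_empty, sdiff_empty] at hc
    have hsh := (hK n h2 b' hb').2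
    have hκ : (0:ℝ) ≤ n / 2 ^ n := by positivity
    have hκk : (k:ℝ) / 2 ^ n ≤ n / 2 ^ n := by
      have : (k:ℝ) ≤ n := by exact_mod_cast h4
      gcongr
    have hsub := A.A08_shell (b := b) (n := n) (r := r n) (κ := n / 2 ^ n) (κ' := k / 2 ^ n)
      (x := b') (s := -δ) (t := δ) (T := δ) hκk hκ le_rfl le_rfl
    have hfin1 := A.hits_finite hb n (r n) b' (-δ) δ
    have hfin2 := (A.hits_finite hb n (r n + n / 2 ^ n) b' (-δ) δ).subset
      (sdiff_subset (t := A.hits b n (r n - n / 2 ^ n) b' (-δ) δ))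
    have hc2 : (A.hits b n (r n) c (-εs) εs).ncard ≤ (A.hits b n (r n) b' (-δ) δ).ncard +
        (A.hits b n (r n + n / 2 ^ n) b' (-δ) δ \
          A.hits b n (r n - n / 2 ^ n) b' (-δ) δ).ncard :=
      hc.trans ((ncard_le_ncard hsub (hfin1.union hfin2)).trans (ncard_union_le _ _))
    have hc3 : ((A.hits b n (r n) c (-εs) εs).ncard : ℝ) ≤ (A.hits b n (r n) b' (-δ) δ).ncard +
        K / n * (A.hits b n (r n) b (-1) 1).ncard := by
      have : ((A.hits b n (r n) c (-εs) εs).ncard : ℝ) ≤ (A.hits b n (r n) b' (-δ) δ).ncard +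
        ((A.hits b n (r n + n / 2 ^ n) b' (-δ) δ \
          A.hits b n (r n - n / 2 ^ n) b' (-δ) δ).ncard : ℝ) := by exact_mod_cast hc2
      linarith
    unfold A08_q
    rw [div_le_iff₀ hN, add_mul, div_mul_cancel₀ _ hN.ne']
    exact hc3

end AF

end Pool.MP85
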