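import Pool.Agent.Lib.MP_85e637_an.Abs

/-!
# Holonomy invariant (finitely additive) measures on the stable arcs
-/

open Filter Topology Set Metric

namespace Pool.MP85
namespace AF
variable {m : ℕ} {X M : Type} [MetricSpace X] [MetricSpace M]

/-- `μ x s t` is the mass of the arc `φ_[s,t) x`, `x ∈ Λ`. Only finitely additive. -/
structure Meas (A : AF m X M) where
  μ : X → ℝ → ℝ → ℝ
  nonneg : ∀ x ∈ A.Λ, ∀ s t, s ≤ t → 0 ≤ μ x s t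
  add : ∀ x ∈ A.Λ, ∀ s t u, s ≤ t → t ≤ u → μ x s u = μ x s t + μ x t u
  null : ∀ x ∈ A.Λ, ∀ s t, s ≤ t → (∀ u ∈ Ico s t, u ∉ A.LT x) → μ x s t = 0
  shift : ∀ x ∈ A.Λ, ∀ u ∈ A.LT x, ∀ s t, s ≤ t → μ (A.φ u x) s t = μ x (s + u) (t + u)
  refl : ∀ x ∈ A.Λ, ∀ s t, s ≤ t → μ (A.σ x) (-t) (-s) = μ x s t
  /-- invariance under sliding along plaques -/
  inv : ∀ T : ℝ, ∃ ε' > 0, ∀ x ∈ A.Λ, ∀ y ∈ WUl A.F ε' x, ∀ s ∈ A.LT x, ∀ t ∈ A.LT x,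
    |s| ≤ T → |t| ≤ T → s ≤ t → ∀ s' t' : ℝ, |s' - s| ≤ ε' → |t' - t| ≤ ε' →
      A.φ s' y ∈ WUl A.F ε' (A.φ s x) → A.φ t' y ∈ WUl A.F ε' (A.φ t x) →
        μ x s t = μ y s' t'
  pos : ∀ x ∈ A.Λ, ∀ s u t, s < u → u < t → u ∈ A.LT x → 0 < μ x s t
  small : ∀ x ∈ A.Λ, ∀ η > 0, ∃ ε > 0, μ x (-ε) ε ≤ η
  low : ∀ δ > 0, ∃ η > 0, ∀ x ∈ A.Λ, η ≤ μ x (-δ) δ

end AF
end Pool.MP85
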