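import Pool.Agent.Lib.MP_85e637_an.A02
import Pool.Agent.Lib.MP_85e637_an.A08
import Pool.Agent.Lib.MP_85e637_an.DefsA

/-!
# A09: from the premeasure to the holonomy invariant measure
-/

open Filter Topology Set Metric

namespace Pool.MP85

theorem A09_mono {f : ℝ → ℝ → ℝ} (h0 : ∀ s t, s ≤ t → 0 ≤ f s t)
    (ha : ∀ s t u, s ≤ t → t ≤ u → f s u = f s t + f t u) {s s' t t' : ℝ} (h1 : s' ≤ s)
    (h2 : s ≤ t) (h3 : t ≤ t') : f s t ≤ f s' t' := by
  have := ha s' s t' h1 (h2.trans h3)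
  have := ha s t t' h2 h3
  have := h0 s' s h1
  have := h0 t t' h3
  linarith

theorem A09_part {f : ℝ → ℝ → ℝ} (ha : ∀ s t u, s ≤ t → t ≤ u → f s u = f s t + f t u)
    {B h s : ℝ} (hh : 0 < h) (hB : ∀ t, f t (t + h) ≤ B) (n : ℕ) :
    f s (s + n * h) ≤ n * B := by
  induction n with
  | zero =>
    have := ha s s s le_rfl le_rfl
    simp
    linarith
  | succ n ih =>
    have h1 := ha s (s + n * h) (s + n * h + h) (by
      have : (0 : ℝ) ≤ n * h := by positivity
      linarith) (by linarith)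
    have h2 := hB (s + n * h)
    have h3 : s + ((n + 1 : ℕ) : ℝ) * h = s + n * h + h := by push_cast; ring
    rw [h3, h1]
    push_cast
    linarith

theorem A09_sum {f : ℝ → ℝ → ℝ} (h0 : ∀ s t, s ≤ t → 0 ≤ f s t)
    (ha : ∀ s t u, s ≤ t → t ≤ u → f s u = f s t + f t u) {L : Set ℝ} {η : ℝ}
    (hη : ∀ u ∈ L, ∀ δ > 0, η ≤ f (u - δ) (u + δ)) (s : ℝ) (S : Finset ℝ) :
    (∀ u ∈ S, u ∈ L ∧ s < u) → ∀ t, s ≤ t → (∀ u ∈ S, u < t) → S.card * η ≤ f s t := by
  induction S using Finset.induction_on_max with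
  | empty =>
    intro _ t hst _
    simpa using h0 s t hst
  | insert a S hmax ih =>
    intro hS t hst ht
    have haL := hS a (Finset.mem_insert_self a S)
    have hat := ht a (Finset.mem_insert_self a S)
    -- a point between
    obtain ⟨w, hsw, hSw, hwa⟩ : ∃ w, s ≤ w ∧ (∀ u ∈ S, u < w) ∧ w < a := by
      set M := (insert s S).max' (Finset.insert_nonempty s S) with hM
      have hMa : M < a := by
        rw [hM, Finset.max'_lt_iff]
        intro y hy
        rcases Finset.mem_insert.1 hy with rfl | hy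
        · exact haL.2
        · exact hmax y hy
      have hsM : s ≤ M := Finset.le_max' _ _ (Finset.mem_insert_self _ _)
      refine ⟨(M + a) / 2, by linarith, fun u hu => ?_, by linarith⟩
      have : u ≤ M := Finset.le_max' _ _ (Finset.mem_insert_of_mem hu)
      linarith
    have h1 := ih (fun u hu => hS u (Finset.mem_insert_of_mem hu)) w hsw hSw
    have h2 := ha s w t hsw (hwa.le.trans hat.le)
    have hδ : 0 < min (a - w) (t - a) := lt_min (by linarith) (by linarith)
    have h3 := hη a haL.1 _ hδ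
    have h4 : f (a - min (a - w) (t - a)) (a + min (a - w) (t - a)) ≤ f w t := by
      apply A09_mono h0 ha
      · have := min_le_left (a - w) (t - a)
        linarith
      · linarith
      · have := min_le_right (a - w) (t - a)
        linarith
    have hnot : a ∉ S := fun h => lt_irrefl _ (hmax a h)
    rw [Finset.card_insert_of_notMem hnot, h2]
    push_cast
    linarith

namespace AF
variable {m : ℕ} {X M : Type} [MetricSpace X] [MetricSpace M] (A : AF m X M)

/-- A09 -/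
theorem exists_meas {x : X} (hx : x ∈ A.Λ) (hinf : (A.LT x ∩ Icc (-1) 1).Infinite) :
    Nonempty (Meas A) := by
  obtain ⟨μ, hnn, hadd, hnull, hshift, hrefl, hinv, hnorm, hcmp⟩ := A.exists_premeas x hx
  have hmono : ∀ y ∈ A.Λ, ∀ s s' t t' : ℝ, s' ≤ s → s ≤ t → t ≤ t' → μ y s t ≤ μ y s' t' :=
    fun y hy s s' t t' h1 h2 h3 => A09_mono (hnn y hy) (hadd y hy) h1 h2 h3
  have hsh : ∀ y ∈ A.Λ, ∀ u ∈ A.LT y, ∀ δ > 0, μ (A.φ u y) (-δ) δ = μ y (u - δ) (u + δ) := by
    intro y hy u hu δ hδ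
    rw [hshift y hy u hu (-δ) δ (by linarith)]
    congr 1 <;> ring
  -- low
  have hlow : ∀ δ > 0, ∃ η > 0, ∀ y ∈ A.Λ, η ≤ μ y (-δ) δ := by
    intro δ hδ
    obtain ⟨εs, hεs, hc⟩ := hcmp δ hδ
    set N := ⌈2 / εs⌉₊ with hN
    have hN1 : 2 / εs ≤ N := Nat.le_ceil _
    have hN0 : (0 : ℝ) < N := lt_of_lt_of_le (by positivity) hN1
    have hN2 : 2 ≤ N * εs := by
      rwa [div_le_iff₀ hεs] at hN1
    refine ⟨1 / N, by positivity, fun y hy => ?_⟩
    have hB : ∀ t, μ x t (t + εs) ≤ μ y (-δ) δ := by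
      intro t
      by_cases hex : ∃ u ∈ Ico t (t + εs), u ∈ A.LT x
      · obtain ⟨u, hu, huL⟩ := hex
        calc μ x t (t + εs) ≤ μ x (u - εs) (u + εs) :=
              hmono x hx _ _ _ _ (by linarith [hu.2]) (by linarith) (by linarith [hu.1])
          _ = μ (A.φ u x) (-εs) εs := (hsh x hx u huL εs hεs).symm
          _ ≤ _ := hc y hy _ huL
      · push Not at hex
        rw [hnull x hx t (t + εs) (by linarith) hex]
        exact hnn y hy _ _ (by linarith)
    have h1 := A09_part (hadd x hx) (s := -1) hεs hB N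
    have h2 : μ x (-1) 1 ≤ μ x (-1) (-1 + N * εs) :=
      hmono x hx _ _ _ _ le_rfl (by norm_num) (by linarith)
    rw [hnorm] at h2
    rw [div_le_iff₀ hN0]
    linarith
  have hpos : ∀ y ∈ A.Λ, ∀ s u t, s < u → u < t → u ∈ A.LT y → 0 < μ y s t := by
    intro y hy s u t hsu hut hu
    have hδ : 0 < min (u - s) (t - u) := lt_min (by linarith) (by linarith)
    obtain ⟨η, hη, hl⟩ := hlow _ hδ
    have h1 := hl _ hu
    rw [hsh y hy u hu _ hδ] at h1
    have h2 := min_le_left (u - s) (t - u)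
    have h3 := min_le_right (u - s) (t - u)
    have h4 := hmono y hy (u - min (u - s) (t - u)) s (u + min (u - s) (t - u)) t
      (by linarith) (by linarith) (by linarith)
    linarith
  -- no atoms
  have hsmall : ∀ y ∈ A.Λ, ∀ η > 0, ∃ ε > 0, μ y (-ε) ε ≤ η := by
    intro y hy η hη
    by_contra hcon
    push Not at hcon
    have hall : ∀ u ∈ A.LT x, ∀ δ > 0, η ≤ μ x (u - δ) (u + δ) := by
      intro u hu δ hδ
      obtain ⟨εs, hεs, hc⟩ := hcmp δ hδ
      rw [← hsh x hx u hu δ hδ]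
      exact (hcon εs hεs).le.trans (hc _ hu y hy)
    have hinf' : ((A.LT x ∩ Icc (-1) 1) \ ({-1, 1} : Finset ℝ)).Infinite :=
      hinf.sdiff (Finset.finite_toSet _)
    obtain ⟨n, hn⟩ := exists_nat_gt (1 / η)
    obtain ⟨S, hS, hcard⟩ := hinf'.exists_subset_card_eq n
    have hS' : ∀ u ∈ S, u ∈ A.LT x ∧ -1 < u ∧ u < 1 := by
      intro u hu
      have h1 := hS hu
      obtain ⟨⟨h2, h3⟩, h4⟩ := h1
      simp only [Finset.coe_insert, Finset.coe_singleton, mem_insert_iff, mem_singleton_iff,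
        not_or] at h4
      exact ⟨h2, lt_of_le_of_ne h3.1 (Ne.symm h4.1), lt_of_le_of_ne h3.2 h4.2⟩
    have h5 := A09_sum (hnn x hx) (hadd x hx) hall (-1) S (fun u hu => ⟨(hS' u hu).1, (hS' u hu).2.1⟩)
      1 (by norm_num) (fun u hu => (hS' u hu).2.2)
    rw [hnorm, hcard] at h5
    rw [div_lt_iff₀ hη] at hn
    linarith
  -- right continuity at every time
  have hright : ∀ y ∈ A.Λ, ∀ t : ℝ, ∀ η > 0, ∃ ε > 0, μ y t (t + ε) ≤ η := by
    intro y hy t η hη
    by_cases ht : t ∈ A.LT y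
    · obtain ⟨ε, hε, h1⟩ := hsmall _ ht η hη
      refine ⟨ε, hε, ?_⟩
      rw [hsh y hy t ht ε hε] at h1
      exact (hmono y hy _ _ _ _ (by linarith) (by linarith) le_rfl).trans h1
    · have hcl := (A.isClosed_LT y).isOpen_compl.mem_nhds ht
      obtain ⟨ε, hε, h1⟩ := Metric.mem_nhds_iff.1 hcl
      refine ⟨ε, hε, ?_⟩
      rw [hnull y hy t (t + ε) (by linarith)]
      · exact hη.le
      · intro u hu
        apply h1
        rw [Metric.mem_ball, Real.dist_eq, abs_of_nonneg (by linarith [hu.1])]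
        linarith [hu.2]
  have hrefl1 : ∀ y ∈ A.Λ, ∀ s t, s ≤ t → μ (A.σ y) (-t) (-s) ≤ μ y s t := by
    intro y hy s t hst
    refine le_of_forall_pos_le_add fun η hη => ?_
    obtain ⟨ε, hε, h1⟩ := hright y hy t η hη
    have h2 := hrefl y hy s t ε hst hε
    rw [hadd y hy s t (t + ε) hst (by linarith)] at h2
    linarith
  refine ⟨⟨μ, hnn, hadd, hnull, hshift, fun y hy s t hst => ?_, hinv, hpos, hsmall, hlow⟩⟩
  apply le_antisymm (hrefl1 y hy s t hst)
  have h1 := hrefl1 (A.σ y) ((A.σΛ y).2 hy) (-t) (-s) (by linarith)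
  rwa [A.σσ, neg_neg, neg_neg] at h1

end AF

end Pool.MP85
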