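import Pool.Agent.Lib.MP_85e637_an.Abs
import Pool.Agent.Lib.MP_85e637_an.A01
import Pool.Agent.Lib.MP_85e637_an.B01
import Pool.Agent.Lib.MP_85e637_an.A02
import Pool.Agent.Lib.MP_85e637_an.A03

/-!
# A10: gaps I
-/

open Filter Topology Set Metric

namespace Pool.MP85

namespace AF
variable {m : ℕ} {X M : Type} [MetricSpace X] [MetricSpace M] (A : AF m X M)

/-- starts of gaps of length at least `ε` -/
def Zs (ε : ℝ) : Set X := {z | z ∈ A.Λ ∧ ∀ s ∈ Ioo (0:ℝ) ε, A.φ s z ∉ A.Λ}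

theorem isClosed_Zs (ε : ℝ) : IsClosed (A.Zs ε) := by
  rw [← isSeqClosed_iff_isClosed]
  intro u z hu hz
  have hzΛ : z ∈ A.Λ := A.Λ_cpt.isClosed.isSeqClosed (fun n => (hu n).1) hz
  refine ⟨hzΛ, fun s hs hsΛ => ?_⟩
  set η := min A.ε0 (min (s / 2) ((ε - s) / 2)) with hη
  have hη0 : 0 < η := by
    have := hs.1; have := hs.2
    exact lt_min A.ε0_pos (lt_min (by linarith) (by linarith))
  have h1 : η ≤ A.ε0 := min_le_left _ _
  have h2 : η ≤ s / 2 := (min_le_right _ _).trans (min_le_left _ _)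
  have h3 : η ≤ (ε - s) / 2 := (min_le_right _ _).trans (min_le_right _ _)
  obtain ⟨r, hr, hcs⟩ := A.CS2 η hη0
  have hcont : Tendsto (fun n => A.φ s (u n)) atTop (𝓝 (A.φ s z)) := by
    have hc : Continuous fun x => A.φ s x := A.φ_cont.comp (Continuous.prodMk continuous_const continuous_id)
    exact (hc.tendsto z).comp hz
  obtain ⟨n, hn⟩ := ((Metric.tendsto_nhds.1 hcont) r hr).exists
  obtain ⟨t, ht, htm⟩ := hcs (A.φ s z) hsΛ (A.φ s (u n)) (by rw [dist_comm]; exact hn)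
  have hΛ : A.φ (t + s) (u n) ∈ A.Λ := by
    rw [A.φ_add]
    exact A.U1 _ hsΛ (wul_mono h1 htm)
  obtain ⟨ht1, ht2⟩ := abs_le.1 ht
  have := hs.1; have := hs.2
  exact (hu n).2 (t + s) ⟨by linarith, by linarith⟩ hΛ

/-- points of `Zs ε` near `z ∈ Zs ε` lie in the plaque of `z` -/
theorem A10_near (ε δ : ℝ) (hε : 0 < ε) (hδ : 0 < δ) : ∃ r > 0, ∀ z ∈ A.Zs ε, ∀ y ∈ A.Zs ε,
    dist z y < r → y ∈ WUl A.F δ z := by
  obtain ⟨ε', hε', hsld⟩ := A.sld 1 (min (ε / 4) A.ε0) (lt_min (by linarith) A.ε0_pos)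
  set η := min (min A.ε0 1) (min ε' (min (ε / 4) δ)) with hη
  have hη0 : 0 < η := lt_min (lt_min A.ε0_pos one_pos) (lt_min hε' (lt_min (by linarith) hδ))
  have h1 : η ≤ A.ε0 := (min_le_left _ _).trans (min_le_left _ _)
  have h1' : η ≤ 1 := (min_le_left _ _).trans (min_le_right _ _)
  have h2 : η ≤ ε' := (min_le_right _ _).trans (min_le_left _ _)
  have h3 : η ≤ ε / 4 := (min_le_right _ _).trans ((min_le_right _ _).trans (min_le_left _ _))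
  have h4 : η ≤ δ := (min_le_right _ _).trans ((min_le_right _ _).trans (min_le_right _ _))
  obtain ⟨r, hr, hcs⟩ := A.CS2 η hη0
  refine ⟨r, hr, fun z hz y hy hd => ?_⟩
  obtain ⟨t, ht, htm⟩ := hcs z hz.1 y hd
  obtain ⟨ht1, ht2⟩ := abs_le.1 ht
  have hbΛ : A.φ t y ∈ A.Λ := A.U1 _ hz.1 (wul_mono h1 htm)
  rcases lt_trichotomy t 0 with h0 | h0 | h0
  · exfalso
    -- b = φ_t y has the Λ-time -t
    obtain ⟨h, hh0, hhs, hhm, -⟩ := hsld (A.φ t y) hbΛ z (wul_mono h2 (wul_symm htm))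
    have hl0 : (0 : ℝ) ∈ A.LT (A.φ t y) := by
      simpa [LT, A.φ_zero] using hbΛ
    have hlt : -t ∈ A.LT (A.φ t y) := by
      have : A.φ (-t) (A.φ t y) = y := by rw [← A.φ_add]; simp [A.φ_zero]
      simpa [LT, this] using hy.1
    have habs : |-t| ≤ 1 := by rw [abs_neg]; exact ht.trans h1'
    have hm := hhm 0 hl0 (-t) hlt (by simp) habs (by linarith)
    obtain ⟨ha, hb⟩ := hhs (-t) hlt habs
    have hz2 : A.φ (h (-t)) z ∈ A.Λ := A.U1 _ hlt (wul_mono (min_le_right _ _) hb)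
    have h5 := (abs_le.1 (ha.trans (min_le_left _ _))).2
    rw [hh0] at hm
    exact hz.2 (h (-t)) ⟨hm, by linarith⟩ hz2
  · subst h0
    rw [A.φ_zero] at htm
    exact wul_mono h4 htm
  · exact absurd hbΛ (hy.2 t ⟨h0, by linarith⟩)

theorem finite_Zs (ε δ : ℝ) (hε : 0 < ε) (hδ : 0 < δ) : ∃ S : Set X, S.Finite ∧ S ⊆ A.Zs ε ∧
    ∀ z ∈ A.Zs ε, ∃ z' ∈ S, z ∈ WUl A.F δ z' := by
  obtain ⟨r, hr, hnear⟩ := A.A10_near ε δ hε hδ
  have hcomp : IsCompact (A.Zs ε) := A.Λ_cpt.of_isClosed_subset (A.isClosed_Zs ε) (fun z hz => hz.1)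
  obtain ⟨S, hS1, hS2, hS3⟩ := hcomp.finite_cover_balls hr
  refine ⟨S, hS2, hS1, fun z hz => ?_⟩
  obtain ⟨z', hz', hd⟩ := Set.mem_iUnion₂.1 (hS3 hz)
  exact ⟨z', hz', hnear z' (hS1 hz') z hz (by rw [dist_comm]; exact hd)⟩

/-- gaps slide along small plaques -/
theorem A10_step : ∃ ε' > 0, ∀ z, A.Gap z → ∀ y ∈ WUl A.F ε' z, A.Gap y := by
  obtain ⟨ε', hε', hsld⟩ := A.sld 1 (1 / 4) (by norm_num)
  refine ⟨min ε' A.ε0, lt_min hε' A.ε0_pos, fun z hz y hy => ?_⟩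
  obtain ⟨hzΛ, ε, hε, hgap⟩ := hz
  have hyΛ : y ∈ A.Λ := A.U1 _ hzΛ (wul_mono (min_le_right _ _) hy)
  obtain ⟨h, hh0, -, hhm, hhs⟩ := hsld z hzΛ y (wul_mono (min_le_left _ _) hy)
  have hl0 : (0 : ℝ) ∈ A.LT z := by simpa [LT, A.φ_zero] using hzΛ
  refine ⟨hyΛ, ?_⟩
  -- the first Λ-time of z after 0
  set K := A.LT z ∩ Icc (min ε 1) 1 with hK
  have key : ∀ s ∈ Ioo (0 : ℝ) (1 / 2), A.φ s y ∈ A.Λ → ∃ t ∈ K, h t = s := by
    intro s hs hsΛ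
    obtain ⟨t, ht, ht1, hts⟩ := hhs s hsΛ (by rw [abs_of_pos hs.1]; have := hs.2; linarith)
    have ht0 : 0 < t := by
      by_contra hcon
      rcases eq_or_lt_of_le (not_lt.1 hcon) with h0 | h0
      · rw [h0, hh0] at hts; have := hs.1; linarith
      · have := hhm t ht 0 hl0 ht1 (by simp) h0
        rw [hts, hh0] at this; have := hs.1; linarith
    refine ⟨t, ⟨ht, ?_, (abs_le.1 ht1).2⟩, hts⟩
    by_contra hcon
    exact hgap t ⟨ht0, (not_le.1 hcon).trans_le (min_le_left _ _)⟩ ht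
  rcases K.eq_empty_or_nonempty with hKe | hKne
  · refine ⟨1 / 2, by norm_num, fun s hs hsΛ => ?_⟩
    obtain ⟨t, ht, -⟩ := key s hs hsΛ
    rw [hKe] at ht; exact ht
  · have hKc : IsCompact K := isCompact_Icc.inter_left (A.isClosed_LT z)
    obtain ⟨t0, ht0, hmin⟩ := hKc.exists_isLeast hKne
    have ht0p : 0 < t0 := (lt_min hε one_pos).trans_le ht0.2.1
    have habs : |t0| ≤ 1 := by rw [abs_of_pos ht0p]; exact ht0.2.2
    have hh : 0 < h t0 := by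
      have := hhm 0 hl0 t0 ht0.1 (by simp) habs ht0p
      rwa [hh0] at this
    refine ⟨min (1 / 2) (h t0), lt_min (by norm_num) hh, fun s hs hsΛ => ?_⟩
    obtain ⟨t, ht, hts⟩ := key s ⟨hs.1, hs.2.trans_le (min_le_left _ _)⟩ hsΛ
    have hs2 : s < h t0 := hs.2.trans_le (min_le_right _ _)
    rcases eq_or_lt_of_le (hmin ht) with h0 | h0
    · rw [h0, hts] at hs2; exact lt_irrefl _ hs2
    · have htp : 0 < t := ht0p.trans h0
      have := hhm t0 ht0.1 t ht.1 habs (by rw [abs_of_pos htp]; exact ht.2.2) h0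
      linarith

theorem A10_chain {ε' : ℝ} (hstep : ∀ z, A.Gap z → ∀ y ∈ WUl A.F ε' z, A.Gap y) (k : ℕ) :
    ∀ z y : X, A.Gap z → Ch A.F ε' k z y → A.Gap y := by
  induction k with
  | zero => intro z y hz h; rw [show y = z from h]; exact hz
  | succ k ih =>
    intro z y hz h
    obtain ⟨w, hw, hc⟩ := h
    exact ih w y (hstep z hz w hw) hc

theorem gap_leaf {z y : X} (hz : A.Gap z) (hy : y ∈ WU A.F z) : A.Gap y := by
  obtain ⟨ε', hε', hstep⟩ := A.A10_step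
  obtain ⟨k, hk⟩ := wu_ch (A.exh z hz.1) hy hε'
  exact A.A10_chain hstep k z y hz hk

theorem gap_fw {z : X} (n : ℕ) : A.Gap (fw A.F n z) ↔ A.Gap z := by
  obtain ⟨h, -, hm, hs, h0, heq⟩ := A.fw_time n z
  have key : ∀ u, A.φ (h u) (fw A.F n z) ∈ A.Λ ↔ A.φ u z ∈ A.Λ := fun u => by
    rw [← heq u, A.fw_mem]
  constructor
  · rintro ⟨hz, ε, hε, hgap⟩
    obtain ⟨e, rfl⟩ := hs ε
    have he : 0 < e := by
      rw [← hm.lt_iff_lt, h0]; exact hε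
    refine ⟨(A.fw_mem n).1 hz, e, he, fun s hs' hsΛ => ?_⟩
    refine hgap (h s) ⟨?_, hm hs'.2⟩ ((key s).2 hsΛ)
    rw [← h0]; exact hm hs'.1
  · rintro ⟨hz, ε, hε, hgap⟩
    refine ⟨(A.fw_mem n).2 hz, h ε, ?_, fun s hs' hsΛ => ?_⟩
    · rw [← h0]; exact hm hε
    · obtain ⟨u, rfl⟩ := hs s
      refine hgap u ⟨?_, hm.lt_iff_lt.1 hs'.2⟩ ((key u).1 hsΛ)
      rw [← hm.lt_iff_lt, h0]; exact hs'.1

theorem inf_fw {z : X} (n : ℕ) : A.Inf (fw A.F n z) ↔ A.Inf z := by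
  obtain ⟨h, -, hm, hs, h0, heq⟩ := A.fw_time n z
  have key : ∀ u, A.φ (h u) (fw A.F n z) ∈ A.Λ ↔ A.φ u z ∈ A.Λ := fun u => by
    rw [← heq u, A.fw_mem]
  constructor
  · rintro ⟨hz, hgap⟩
    refine ⟨(A.fw_mem n).1 hz, fun s hs' hsΛ => ?_⟩
    refine hgap (h s) ?_ ((key s).2 hsΛ)
    have := hm hs'
    rwa [h0] at this
  · rintro ⟨hz, hgap⟩
    refine ⟨(A.fw_mem n).2 hz, fun s hs' hsΛ => ?_⟩
    obtain ⟨u, rfl⟩ := hs s
    refine hgap u ?_ ((key u).1 hsΛ)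
    have h1 : h 0 < h u := by rw [h0]; exact hs'
    exact hm.lt_iff_lt.1 h1

/-- short positive arcs starting in `Λ` are contracted by forward iterates -/
theorem A10_contr (n : ℕ) : ∀ (x : X) (_ : x ∈ A.Λ) (t : ℝ), 0 < t → t ≤ A.δ0 →
    ∃ t' : ℝ, 0 < t' ∧ t' ≤ t / 2 ^ n ∧ fw A.F n (A.φ t x) = A.φ t' (fw A.F n x) := by
  induction n with
  | zero => intro x _ t ht0 ht1; exact ⟨t, ht0, by simp, rfl⟩
  | succ n ih =>
    intro x hx t ht0 ht1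
    have h1 : 0 < A.τ x t := by
      have := A.τ_mono x ht0
      rwa [A.τ_zero] at this
    have h2 : A.τ x t ≤ t / 2 := by
      have := A.contr0 x hx t (by rwa [abs_of_pos ht0])
      rwa [abs_of_pos ht0, abs_of_pos h1] at this
    obtain ⟨t', ht', ht'2, heq⟩ := ih (A.F x) ((A.FΛ x).2 hx) (A.τ x t) h1 (by linarith)
    refine ⟨t', ht', ht'2.trans ?_, ?_⟩
    · rw [pow_succ', ← div_div]
      gcongr
    · rw [fw_succ, A.Fφ, heq, ← fw_succ]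

theorem gap_bk {z : X} (hz : A.Gap z) : ∃ n0, ∀ n ≥ n0, bk A.F n z ∈ A.Zs A.δ0 := by
  obtain ⟨hzΛ, ε, hε, hgap⟩ := hz
  obtain ⟨n0, hn0⟩ := exists_pow_lt_of_lt_one (div_pos hε A.δ0_pos) (by norm_num : (1 / 2 : ℝ) < 1)
  refine ⟨n0, fun n hn => ⟨(A.bk_mem n).2 hzΛ, fun s hs hsΛ => ?_⟩⟩
  obtain ⟨t', ht', ht'2, heq⟩ := A.A10_contr n (bk A.F n z) ((A.bk_mem n).2 hzΛ) s hs.1 hs.2.le
  rw [fw_bk] at heq
  have hmem : A.φ t' z ∈ A.Λ := by rw [← heq]; exact (A.fw_mem n).2 hsΛ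
  refine hgap t' ⟨ht', ht'2.trans_lt ?_⟩ hmem
  have h1 : (1 / 2 : ℝ) ^ n ≤ (1 / 2) ^ n0 := pow_le_pow_of_le_one (by norm_num) (by norm_num) hn
  have h2 : (1 / 2 : ℝ) ^ n < ε / A.δ0 := h1.trans_lt hn0
  have h3 : s / 2 ^ n ≤ A.δ0 * (1 / 2) ^ n := by
    rw [one_div, inv_pow, ← div_eq_mul_inv]
    have := hs.2.le
    gcongr
  refine h3.trans_lt ?_
  calc A.δ0 * (1 / 2) ^ n < A.δ0 * (ε / A.δ0) := by
        exact mul_lt_mul_of_pos_left h2 A.δ0_pos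
    _ = ε := by field_simp [A.δ0_pos.ne']

end AF

end Pool.MP85
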