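import Pool.Agent.Lib.MP_85e637_an.Abs
import Pool.Agent.Lib.MP_85e637_an.A01
import Pool.Agent.Lib.MP_85e637_an.A02
import Pool.Agent.Lib.MP_85e637_an.A10

/-!
# A11: gaps II (periodic points, separatrices)
-/

open Filter Topology Set Metric

namespace Pool.MP85

namespace AF
variable {m : ℕ} {X M : Type} [MetricSpace X] [MetricSpace M] (A : AF m X M)

theorem A11_inf_gap {z : X} (h : A.Inf z) : A.Gap z :=
  ⟨h.1, 1, one_pos, fun s hs => h.2 s hs.1⟩

/-- iterates of a fixed point -/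
theorem A11_fw_mul {p : X} {k : ℕ} (hp : fw A.F k p = p) (j : ℕ) : fw A.F (k * j) p = p := by
  induction j with
  | zero => rw [Nat.mul_zero]; rfl
  | succ j ih => rw [Nat.mul_succ, fw_add, hp, ih]

theorem A11_bk_mul {p : X} {k : ℕ} (hp : fw A.F k p = p) (j : ℕ) : bk A.F (k * j) p = p := by
  conv_lhs => rw [← A11_fw_mul A hp j]
  exact bk_fw _

theorem exists_periodic {z : X} (hz : A.Gap z) :
    ∃ p ∈ WU A.F z, ∃ k > 0, fw A.F k p = p := by
  have hε : 0 < A.ε0 := A.ε0_pos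
  obtain ⟨n0, hn0⟩ := A.gap_bk hz
  obtain ⟨S, hSfin, hSZ, hS⟩ := A.finite_Zs A.δ0 (A.ε0 / 2) A.δ0_pos (by linarith)
  obtain ⟨n1, hn1⟩ := A.wul_unif (A.ε0 / 4) (by linarith)
  -- a plaque which contains infinitely many backward iterates
  have hch : ∀ n, ∃ s ∈ S, bk A.F (n0 + n) z ∈ WUl A.F (A.ε0 / 2) s := fun n =>
    hS _ (hn0 (n0 + n) (Nat.le_add_right _ _))
  choose s hsS hs using hch
  have hinf : ∃ s0 ∈ S, {n | s n = s0}.Infinite := by
    by_contra hcon
    push Not at hcon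
    have hfin : (⋃ s0 ∈ S, {n : ℕ | s n = s0}).Finite :=
      hSfin.biUnion fun s0 hs0 => hcon s0 hs0
    exact Set.infinite_univ (hfin.subset fun n _ =>
      Set.mem_biUnion (hsS n) (show s n = s n from rfl))
  obtain ⟨s0, hs0S, hs0⟩ := hinf
  obtain ⟨a, ha⟩ := hs0.nonempty
  obtain ⟨b, hb, hab⟩ := hs0.exists_gt (a + n1)
  have ha' : s a = s0 := ha
  have hb' : s b = s0 := hb
  set n' : ℕ := n0 + b with hn'
  set k : ℕ := b - a with hk
  have hk0 : 0 < k := by omega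
  have hkn : n1 ≤ k := by omega
  obtain ⟨x, hx⟩ : ∃ x, x = bk A.F n' z := ⟨_, rfl⟩
  have hxΛ : x ∈ A.Λ := by
    rw [hx]
    exact (A.bk_mem n').2 hz.1
  have hfx : fw A.F k x = bk A.F (n0 + a) z := by
    have e : n' = k + (n0 + a) := by omega
    rw [hx, e, bk_add, fw_bk]
  have hfxΛ : fw A.F k x ∈ A.Λ := (A.fw_mem k).2 hxΛ
  have h1 : x ∈ WUl A.F (A.ε0 / 2) s0 := by
    have := hs b
    rwa [hb', ← hn', ← hx] at this
  have h2 : fw A.F k x ∈ WUl A.F (A.ε0 / 2) s0 := by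
    have := hs a
    rw [ha', ← hfx] at this
    exact this
  have h3 : x ∈ WUl A.F A.ε0 (fw A.F k x) := by
    have := wul_trans (wul_symm h2) h1
    rwa [add_halves] at this
  have h4 : bk A.F k x ∈ WUl A.F (A.ε0 / 4) x := by
    have := hn1 k hkn _ hfxΛ _ h3
    rwa [bk_fw] at this
  -- all iterates stay in a compact plaque
  have h5 : ∀ i, bk A.F (k * i) x ∈ WUl A.F (A.ε0 / 2) x := by
    intro i
    induction i with
    | zero =>
      rw [Nat.mul_zero]
      exact wul_self (by linarith)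
    | succ i ih =>
      have e : bk A.F (k * (i + 1)) x = bk A.F k (bk A.F (k * i) x) := by
        rw [← bk_add]
        congr 1
        ring
      rw [e]
      have h6 : bk A.F k (bk A.F (k * i) x) ∈ WUl A.F (A.ε0 / 4) (bk A.F k x) :=
        hn1 k hkn _ hxΛ _ (wul_mono (by linarith) ih)
      have := wul_trans h4 h6
      exact wul_mono (by linarith) this
  have h6 : ∀ i, bk A.F (k * i) x ∈ WU A.F x := fun i =>
    A.wul_wu hxΛ (wul_mono (by linarith) (h5 i))
  set y : ℕ → ULeaf A.F x := fun i => ⟨bk A.F (k * i) x, h6 i⟩ with hy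
  have hyK : ∀ i, y i ∈ {y : ULeaf A.F x | y.val ∈ WUl A.F (A.ε0 / 2) x} := fun i => h5 i
  have hcau : CauchySeq y := by
    rw [Metric.cauchySeq_iff']
    intro ε he
    obtain ⟨N, hN⟩ := A.wul_unif (ε / 2) (by linarith)
    refine ⟨N, fun n hn => ?_⟩
    have h7 : dist (y N) (y n) ≤ ε / 2 := by
      rw [ULeaf.dist_le_iff]
      show bk A.F (k * n) x ∈ WUl A.F (ε / 2) (bk A.F (k * N) x)
      have e : bk A.F (k * n) x = bk A.F (k * N) (bk A.F (k * (n - N)) x) := by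
        rw [← bk_add, ← Nat.mul_add]
        congr 2
        omega
      rw [e]
      exact hN (k * N) (Nat.le_mul_of_pos_left N hk0) _ hxΛ _ (wul_mono (by linarith) (h5 (n - N)))
    rw [dist_comm]
    linarith
  obtain ⟨q, -, hq⟩ := cauchySeq_tendsto_of_isComplete (A.compact_plaque hxΛ hxΛ).isComplete
    hyK hcau
  have hqv : Tendsto (fun i => (y i).val) atTop (𝓝 q.val) :=
    (ULeaf.continuous_val.tendsto q).comp hq
  have hfix : bk A.F k q.val = q.val := by
    have h8 : Tendsto (fun i => bk A.F k (y i).val) atTop (𝓝 (bk A.F k q.val)) :=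
      ((continuous_bk k).tendsto q.val).comp hqv
    have h9 : (fun i => bk A.F k (y i).val) = fun i => (y (i + 1)).val := by
      funext i
      show bk A.F k (bk A.F (k * i) x) = bk A.F (k * (i + 1)) x
      rw [← bk_add]
      congr 1
      ring
    rw [h9] at h8
    exact tendsto_nhds_unique h8 (hqv.comp (tendsto_add_atTop_nat 1))
  have hfix' : fw A.F k q.val = q.val := by
    conv_lhs => rw [← hfix]
    exact fw_bk k
  refine ⟨fw A.F n' q.val, ?_, k, hk0, ?_⟩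
  · have h10 : fw A.F n' x = z := by rw [hx, fw_bk]
    have h11 := (wu_fw (F := A.F) n').2 q.prop
    rwa [h10] at h11
  · rw [← fw_add, Nat.add_comm, fw_add, hfix']

theorem inf_of_periodic {p : X} {k : ℕ} (hk : 0 < k) (hp : fw A.F k p = p) (hg : A.Gap p) :
    A.Inf p := by
  refine ⟨hg.1, ?_⟩
  by_contra hcon
  push Not at hcon
  obtain ⟨s, hs0, hs⟩ := hcon
  obtain ⟨ε, hε, hgap⟩ := hg.2
  set P : Set ℝ := A.LT p ∩ Ici ε with hP
  have hPcl : IsClosed P := (A.isClosed_LT p).inter isClosed_Ici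
  have hsP : s ∈ P := by
    refine ⟨hs, ?_⟩
    by_contra hlt
    rw [mem_Ici, not_le] at hlt
    exact hgap s ⟨hs0, hlt⟩ hs
  have hPbdd : BddBelow P := ⟨ε, fun t ht => ht.2⟩
  set G : ℝ := sInf P with hG
  have hGP : G ∈ P := hPcl.csInf_mem ⟨s, hsP⟩ hPbdd
  have hG0 : 0 < G := hε.trans_le hGP.2
  have hmin : ∀ t, 0 < t → t ∈ A.LT p → G ≤ t := by
    intro t ht htL
    refine csInf_le hPbdd ⟨htL, ?_⟩
    by_contra hlt
    rw [mem_Ici, not_le] at hlt
    exact hgap t ⟨ht, hlt⟩ htL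
  obtain ⟨h, hcont, hmono, hsurj, h0, hh⟩ := A.fw_time k p
  have hLT : ∀ t, t ∈ A.LT p ↔ h t ∈ A.LT p := by
    intro t
    show A.φ t p ∈ A.Λ ↔ A.φ (h t) p ∈ A.Λ
    have := hh t
    rw [hp] at this
    rw [← this, A.fw_mem]
  have hhG : h G = G := by
    have h1 : 0 < h G := by
      rw [← h0]
      exact hmono hG0
    have h2 : G ≤ h G := hmin _ h1 ((hLT G).1 hGP.1)
    obtain ⟨t, ht⟩ := hsurj G
    have h3 : 0 < t := by
      by_contra hcon
      have := hmono.monotone (not_lt.1 hcon)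
      rw [h0, ht] at this
      linarith
    have h4 : G ≤ t := hmin t h3 ((hLT t).2 (ht ▸ hGP.1))
    have h5 := hmono.monotone h4
    rw [ht] at h5
    exact le_antisymm h5 h2
  have hq : fw A.F k (A.φ G p) = A.φ G p := by
    rw [hh G, hp, hhG]
  obtain ⟨tn, htn, htn0⟩ := A.contr1 p G
  have h6 : ∀ j, tn (k * j) = G := by
    intro j
    have h7 := htn (k * j)
    rw [A11_fw_mul A hq, A11_fw_mul A hp] at h7
    have h8 : A.φ (G - tn (k * j)) (A.φ (tn (k * j)) p) = A.φ (tn (k * j)) p := by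
      rw [← A.φ_add, sub_add_cancel]
      exact h7
    have h9 := A.free _ _ (congrArg A.π h8)
    linarith
  have h7 : Tendsto (fun j => tn (k * j)) atTop (𝓝 0) :=
    htn0.comp (tendsto_id.const_mul_atTop' hk)
  have h8 : (fun j => tn (k * j)) = fun _ => G := funext h6
  rw [h8] at h7
  have := tendsto_nhds_unique h7 tendsto_const_nhds
  linarith

/-- a leaf with a periodic point contains no other separatrix start -/
theorem A11_aux {p z : X} {k : ℕ} (hk : 0 < k) (hp : fw A.F k p = p) (hpΛ : p ∈ A.Λ)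
    (hz : A.Inf z) (h : z ∈ WU A.F p) : z = p := by
  have hε : 0 < A.ε0 := A.ε0_pos
  obtain ⟨S, hSfin, hSZ, hS⟩ := A.finite_Zs A.δ0 (A.ε0 / 2) A.δ0_pos (by linarith)
  have hInf : ∀ n, A.Inf (fw A.F (k * n) z) := fun n => (A.inf_fw (k * n)).2 hz
  have hmem : ∀ n, fw A.F (k * n) z ∈ WU A.F p := by
    intro n
    have := (wu_fw (F := A.F) (k * n)).2 h
    rwa [A11_fw_mul A hp] at this
  set y : ℕ → ULeaf A.F p := fun n => ⟨fw A.F (k * n) z, hmem n⟩ with hy
  set C : Set (ULeaf A.F p) := ⋃ s ∈ S, {y : ULeaf A.F p | y.val ∈ WUl A.F (A.ε0 / 2) s} with hC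
  have hCcpt : IsCompact C :=
    hSfin.isCompact_biUnion fun s hs => A.compact_plaque hpΛ (hSZ hs).1
  have hyC : ∀ n, y n ∈ C := by
    intro n
    obtain ⟨s, hsS, hs⟩ := hS (fw A.F (k * n) z) ⟨(hInf n).1, fun t ht => (hInf n).2 t ht.1⟩
    exact Set.mem_biUnion hsS hs
  obtain ⟨c, -, θ, hθ, hlim⟩ := hCcpt.tendsto_subseq hyC
  have hc : Tendsto (fun n => dist (bk A.F n p) (bk A.F n c.val)) atTop (𝓝 0) := c.prop
  have h1 : Tendsto (fun n => dist (bk A.F (k * θ n) p) (bk A.F (k * θ n) c.val)) atTop (𝓝 0) :=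
    hc.comp ((tendsto_id.const_mul_atTop' hk).comp hθ.tendsto_atTop)
  have h2 : Tendsto (fun n => dist (y (θ n)) c) atTop (𝓝 0) :=
    tendsto_iff_dist_tendsto_zero.1 hlim
  have h3 : ∀ n, dist z p ≤ dist (y (θ n)) c
      + dist (bk A.F (k * θ n) p) (bk A.F (k * θ n) c.val) := by
    intro n
    have e1 : bk A.F (k * θ n) (y (θ n)).val = z := bk_fw _
    have e2 : bk A.F (k * θ n) p = p := A11_bk_mul A hp _
    have h4 : dist (bk A.F (k * θ n) (y (θ n)).val) (bk A.F (k * θ n) c.val) ≤ dist (y (θ n)) c :=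
      le_ciSup (ULeaf.bdd (y (θ n)) c) (k * θ n)
    rw [e1] at h4
    calc dist z p ≤ dist z (bk A.F (k * θ n) c.val) + dist (bk A.F (k * θ n) c.val) p :=
          dist_triangle _ _ _
      _ ≤ dist (y (θ n)) c + dist (bk A.F (k * θ n) p) (bk A.F (k * θ n) c.val) := by
          rw [e2, dist_comm (bk A.F (k * θ n) c.val) p]
          exact add_le_add h4 le_rfl
  have h4 : dist z p ≤ 0 := by
    have := h2.add h1
    rw [add_zero] at this
    exact ge_of_tendsto' this h3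
  exact dist_le_zero.1 h4

theorem inf_unique {p z : X} (hz : A.Inf z) (hp : A.Inf p) (h : z ∈ WU A.F p) : z = p := by
  obtain ⟨p0, hp0, k, hk, hfix⟩ := exists_periodic A (A11_inf_gap A hp)
  have hp0Λ : p0 ∈ A.Λ := A.wu_Λ hp.1 hp0
  have h1 : z = p0 := A11_aux A hk hfix hp0Λ hz (wu_trans (wu_symm hp0) h)
  have h2 : p = p0 := A11_aux A hk hfix hp0Λ hp (wu_symm hp0)
  rw [h1, h2]

theorem inf_periodic {p : X} (hp : A.Inf p) : ∃ k > 0, fw A.F k p = p := by
  obtain ⟨p0, hp0, k, hk, hfix⟩ := exists_periodic A (A11_inf_gap A hp)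
  have hp0Λ : p0 ∈ A.Λ := A.wu_Λ hp.1 hp0
  have h2 : p = p0 := A11_aux A hk hfix hp0Λ hp (wu_symm hp0)
  exact ⟨k, hk, by rw [h2]; exact hfix⟩

theorem finite_inf : {p | A.Inf p}.Finite := by
  have hε : 0 < A.ε0 := A.ε0_pos
  obtain ⟨S, hSfin, hSZ, hS⟩ := A.finite_Zs A.δ0 (A.ε0 / 2) A.δ0_pos (by linarith)
  have hch : ∀ p : {p | A.Inf p}, ∃ s ∈ S, p.1 ∈ WUl A.F (A.ε0 / 2) s := fun p =>
    hS p.1 ⟨p.2.1, fun t ht => p.2.2 t ht.1⟩
  choose s hsS hs using hch
  have hinj : Function.Injective s := by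
    intro p p' hpp
    have h1 := hs p
    have h2 := hs p'
    rw [← hpp] at h2
    have h3 : p.1 ∈ WUl A.F A.ε0 p'.1 := by
      have := wul_trans (wul_symm h2) h1
      rwa [add_halves] at this
    exact Subtype.ext (inf_unique A p.2 p'.2 (A.wul_wu p'.2.1 h3))
  have : Finite {p | A.Inf p} := by
    have : Finite S := hSfin
    exact Finite.of_injective (fun p => (⟨s p, hsS p⟩ : S)) fun p p' hpp =>
      hinj (congrArg Subtype.val hpp)
  exact Set.toFinite _

/-- the orbit of a point meets a leaf in countably many times -/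
theorem A11_count {x : X} (hx : x ∈ A.Λ) (q : X) : {t : ℝ | A.φ t q ∈ WU A.F x}.Countable := by
  have hsub : {t : ℝ | A.φ t q ∈ WU A.F x} ⊆
      ⋃ n : ℕ, {t : ℝ | bk A.F n (A.φ t q) ∈ WUl A.F A.ε0 (bk A.F n x)} := by
    intro t ht
    obtain ⟨n, hn⟩ := mem_wu_iff_eventually.1 ht A.ε0 A.ε0_pos
    exact Set.mem_iUnion.2 ⟨n, hn⟩
  refine (Set.countable_iUnion fun n => ?_).mono hsub
  obtain ⟨h, -, hmono, -, -, hh⟩ := A.bk_time n q
  have hxn : bk A.F n x ∈ A.Λ := (A.bk_mem n).2 hx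
  have hinj : Set.InjOn (fun t => ⌊h t / A.δ0⌋)
      {t : ℝ | bk A.F n (A.φ t q) ∈ WUl A.F A.ε0 (bk A.F n x)} := by
    intro t ht t' ht' hfl
    have ht1 : A.φ (h t) (bk A.F n q) ∈ WUl A.F A.ε0 (bk A.F n x) := by
      rw [← hh t]; exact ht
    have ht2 : A.φ (h t') (bk A.F n q) ∈ WUl A.F A.ε0 (bk A.F n x) := by
      rw [← hh t']; exact ht'
    have hd : |h t - h t'| ≤ A.δ0 := by
      have h1 := Int.abs_sub_lt_one_of_floor_eq_floor hfl
      rw [← sub_div, abs_div, abs_of_pos A.δ0_pos, div_lt_one A.δ0_pos] at h1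
      exact h1.le
    exact hmono.injective (A.uniq hxn hd ht1 ht2)
  exact Set.countable_of_injective_of_countable_image hinj (Set.to_countable _)

theorem exc_countable {x : X} (hx : x ∈ A.Λ) :
    {y : ULeaf A.F x | ∃ t : ℝ, 0 ≤ t ∧ A.Inf (A.φ t y.val)}.Countable := by
  have hsub : ULeaf.val '' {y : ULeaf A.F x | ∃ t : ℝ, 0 ≤ t ∧ A.Inf (A.φ t y.val)} ⊆
      ⋃ q ∈ {p | A.Inf p}, (fun t => A.φ t q) '' {t : ℝ | A.φ t q ∈ WU A.F x} := by
    rintro _ ⟨y, ⟨t, -, ht⟩, rfl⟩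
    refine Set.mem_biUnion (show A.φ t y.val ∈ {p | A.Inf p} from ht) ⟨-t, ?_, ?_⟩
    · show A.φ (-t) (A.φ t y.val) ∈ WU A.F x
      rw [← A.φ_add, neg_add_cancel, A.φ_zero]
      exact y.prop
    · show A.φ (-t) (A.φ t y.val) = y.val
      rw [← A.φ_add, neg_add_cancel, A.φ_zero]
  have hcount : (ULeaf.val '' {y : ULeaf A.F x | ∃ t : ℝ, 0 ≤ t ∧ A.Inf (A.φ t y.val)}).Countable :=
    ((finite_inf A).countable.biUnion fun q _ => (A11_count A hx q).image _).mono hsub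
  exact Set.countable_of_injective_of_countable_image (ULeaf.val_injective.injOn) hcount

end AF

end Pool.MP85
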