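import Pool.Agent.Lib.MP_85e637_an.Abs
import Pool.Agent.Lib.MP_85e637_an.A01
import Pool.Agent.Lib.MP_85e637_an.A02
import Pool.Agent.Lib.MP_85e637_an.A03
import Pool.Agent.Lib.MP_85e637_an.A10
import Pool.Agent.Lib.MP_85e637_an.A11

open Filter Topology Set Metric

namespace Pool.MP85

namespace AF
variable {m : ℕ} {X M : Type} [MetricSpace X] [MetricSpace M] (A : AF m X M)

/-! ## A12 gaps III: the gap length on the leaf of `p` -/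

theorem A12_G_le {z : X} {s : ℝ} (hs : 0 < s) (h : A.φ s z ∈ A.Λ) : A.G z ≤ s :=
  csInf_le ⟨0, fun _ hx => hx.1.le⟩ ⟨hs, h⟩

theorem A12_gap_of_inf {p : X} (hp : A.Inf p) : A.Gap p :=
  ⟨hp.1, 1, one_pos, fun s hs => hp.2 s hs.1⟩

theorem G_spec {z : X} (hz : A.Gap z) (hi : ¬ A.Inf z) : 0 < A.G z ∧ A.φ (A.G z) z ∈ A.Λ ∧
    ∀ s ∈ Ioo 0 (A.G z), A.φ s z ∉ A.Λ := by
  obtain ⟨hzΛ, ε, hε, hgap⟩ := hz
  have hne : {s | 0 < s ∧ A.φ s z ∈ A.Λ}.Nonempty := by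
    by_contra hemp
    apply hi
    refine ⟨hzΛ, fun s hs h => hemp ⟨s, hs, h⟩⟩
  have hSeq : {s | 0 < s ∧ A.φ s z ∈ A.Λ} = A.LT z ∩ Ici ε := by
    ext s
    constructor
    · rintro ⟨h1, h2⟩
      refine ⟨h2, ?_⟩
      by_contra h3
      exact hgap s ⟨h1, not_le.1 h3⟩ h2
    · rintro ⟨h1, h2⟩
      exact ⟨lt_of_lt_of_le hε h2, h1⟩
  have hcl : IsClosed {s | 0 < s ∧ A.φ s z ∈ A.Λ} := by
    rw [hSeq]
    exact (A.isClosed_LT z).inter isClosed_Ici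
  have hmem : A.G z ∈ {s | 0 < s ∧ A.φ s z ∈ A.Λ} :=
    hcl.csInf_mem hne ⟨0, fun _ hx => hx.1.le⟩
  refine ⟨hmem.1, hmem.2, ?_⟩
  intro s hs h
  exact absurd (A.A12_G_le hs.1 h) (not_le.2 hs.2)

theorem A12_σφ (s t : ℝ) (z : X) : A.φ s (A.σ (A.φ t z)) = A.σ (A.φ (t - s) z) := by
  rw [sub_eq_neg_add, A.φ_add, A.σφ (-s), neg_neg]

theorem G_σ {z : X} (hz : A.Gap z) (hi : ¬ A.Inf z) :
    A.Gap (A.σ (A.φ (A.G z) z)) ∧ ¬ A.Inf (A.σ (A.φ (A.G z) z)) ∧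
      A.G (A.σ (A.φ (A.G z) z)) = A.G z := by
  obtain ⟨h1, h2, h3⟩ := A.G_spec hz hi
  have h4 : A.φ (A.G z) (A.σ (A.φ (A.G z) z)) ∈ A.Λ := by
    rw [A.A12_σφ, sub_self, A.φ_zero, A.σΛ]
    exact hz.1
  have h5 : ∀ s ∈ Ioo 0 (A.G z), A.φ s (A.σ (A.φ (A.G z) z)) ∉ A.Λ := by
    intro s hs
    rw [A.A12_σφ, A.σΛ]
    exact h3 _ ⟨by linarith [hs.2], by linarith [hs.1]⟩
  have hG : A.Gap (A.σ (A.φ (A.G z) z)) := ⟨(A.σΛ _).2 h2, A.G z, h1, h5⟩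
  have hI : ¬ A.Inf (A.σ (A.φ (A.G z) z)) := fun h => h.2 _ h1 h4
  refine ⟨hG, hI, ?_⟩
  obtain ⟨h6, h7, h8⟩ := A.G_spec hG hI
  apply le_antisymm (A.A12_G_le h1 h4)
  by_contra h9
  exact h5 _ ⟨h6, not_le.1 h9⟩ h7

/-- near `z` the gap end slides along the plaque of the gap end -/
theorem G_slide {z : X} (hz : A.Gap z) (hi : ¬ A.Inf z) (ε : ℝ) (hε : 0 < ε) : ∃ ε' > 0,
    ∀ y ∈ WUl A.F ε' z, ¬ A.Inf y ∧ |A.G y - A.G z| ≤ ε ∧
      A.φ (A.G y) y ∈ WUl A.F ε (A.φ (A.G z) z) := by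
  obtain ⟨h1, h2, h3⟩ := A.G_spec hz hi
  set ε₁ := min ε (min 1 A.ε0) with hε₁
  have hε₁0 : 0 < ε₁ := lt_min hε (lt_min one_pos A.ε0_pos)
  have hε₁1 : ε₁ ≤ 1 := (min_le_right _ _).trans (min_le_left _ _)
  have hε₁2 : ε₁ ≤ A.ε0 := (min_le_right _ _).trans (min_le_right _ _)
  have hε₁3 : ε₁ ≤ ε := min_le_left _ _
  obtain ⟨ε', hε', hsld⟩ := A.sld (A.G z + 2) ε₁ hε₁0
  refine ⟨min ε' A.ε0, lt_min hε' A.ε0_pos, ?_⟩
  intro y hy
  have hy1 : y ∈ WUl A.F ε' z := wul_mono (min_le_left _ _) hy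
  have hy2 : y ∈ WUl A.F A.ε0 z := wul_mono (min_le_right _ _) hy
  have hgy : A.Gap y := A.gap_leaf hz (A.wul_wu hz.1 hy2)
  obtain ⟨h, hh0, hh1, hh2, hh3⟩ := hsld z hz.1 y hy1
  have h0LT : (0 : ℝ) ∈ A.LT z := by
    show A.φ 0 z ∈ A.Λ
    rw [A.φ_zero]; exact hz.1
  have hGLT : A.G z ∈ A.LT z := h2
  have hT0 : |(0 : ℝ)| ≤ A.G z + 2 := by rw [abs_zero]; linarith
  have hTG : |A.G z| ≤ A.G z + 2 := by rw [abs_of_pos h1]; linarith
  have hpos : 0 < h (A.G z) := by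
    have := hh2 0 h0LT (A.G z) hGLT hT0 hTG h1
    rwa [hh0] at this
  obtain ⟨ha, hb⟩ := hh1 (A.G z) hGLT hTG
  have hmem : A.φ (h (A.G z)) y ∈ A.Λ := A.U1 _ h2 (wul_mono hε₁2 hb)
  have hiy : ¬ A.Inf y := fun hI => hI.2 _ hpos hmem
  have hle : A.G y ≤ h (A.G z) := A.A12_G_le hpos hmem
  obtain ⟨g1, g2, g3⟩ := A.G_spec hgy hiy
  rw [abs_le] at ha
  have heq : A.G y = h (A.G z) := by
    rcases hle.lt_or_eq with hlt | heq
    · exfalso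
      obtain ⟨t, ht1, ht2, ht3⟩ := hh3 (A.G y) g2 (by
        rw [abs_of_pos g1]; linarith [ha.2])
      have ht0 : 0 < t := by
        by_contra hneg
        rcases (not_lt.1 hneg).lt_or_eq with h4 | h4
        · have := hh2 t ht1 0 h0LT ht2 hT0 h4
          rw [hh0, ht3] at this
          linarith
        · rw [h4, hh0] at ht3
          linarith
      have htG : t < A.G z := by
        by_contra hneg
        rcases (not_lt.1 hneg).lt_or_eq with h4 | h4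
        · have := hh2 _ hGLT t ht1 hTG ht2 h4
          rw [ht3] at this
          linarith
        · rw [← h4] at ht3
          linarith
      exact h3 t ⟨ht0, htG⟩ ht1
    · exact heq
  refine ⟨hiy, ?_, ?_⟩
  · rw [heq, abs_le]
    constructor <;> linarith [ha.1, ha.2]
  · rw [heq]
    exact wul_mono hε₁3 hb

/-- gaps near an infinite gap are long -/
theorem G_large {p : X} (hp : A.Inf p) (K : ℝ) : ∃ ε' > 0, ∀ y ∈ WUl A.F ε' p, y ≠ p →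
    K < A.G y := by
  obtain ⟨ε', hε', hsld⟩ := A.sld (|K| + 2) 1 one_pos
  refine ⟨min ε' A.ε0, lt_min hε' A.ε0_pos, ?_⟩
  intro y hy hne
  have hy1 : y ∈ WUl A.F ε' p := wul_mono (min_le_left _ _) hy
  have hy2 : y ∈ WUl A.F A.ε0 p := wul_mono (min_le_right _ _) hy
  have hwu := A.wul_wu hp.1 hy2
  have hgy : A.Gap y := A.gap_leaf (A.A12_gap_of_inf hp) hwu
  have hiy : ¬ A.Inf y := fun hI => hne (A.inf_unique hI hp hwu)
  obtain ⟨g1, g2, g3⟩ := A.G_spec hgy hiy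
  obtain ⟨h, hh0, hh1, hh2, hh3⟩ := hsld p hp.1 y hy1
  by_contra hK
  rw [not_lt] at hK
  have h0LT : (0 : ℝ) ∈ A.LT p := by
    show A.φ 0 p ∈ A.Λ
    rw [A.φ_zero]; exact hp.1
  obtain ⟨t, ht1, ht2, ht3⟩ := hh3 (A.G y) g2 (by
    rw [abs_of_pos g1]; linarith [le_abs_self K])
  have ht0 : 0 < t := by
    by_contra hneg
    rcases (not_lt.1 hneg).lt_or_eq with h4 | h4
    · have := hh2 t ht1 0 h0LT ht2 (by rw [abs_zero]; positivity) h4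
      rw [hh0, ht3] at this
      linarith
    · rw [h4, hh0] at ht3
      linarith
  exact hp.2 t ht0 ht1

/-- gaps far away in the leaf are short -/
theorem G_small {p : X} (hp : A.Inf p) (ε : ℝ) (hε : 0 < ε) : ∃ K : Set (ULeaf A.F p),
    IsCompact K ∧ ∀ z ∉ K, z.val ≠ p ∧ A.G z.val < ε := by
  obtain ⟨S, hS, hSZ, hcov⟩ := A.finite_Zs ε (A.ε0 / 2) hε (half_pos A.ε0_pos)
  refine ⟨{⟨p, wu_self⟩} ∪ ⋃ z' ∈ S, {y : ULeaf A.F p | y.val ∈ WUl A.F (A.ε0 / 2) z'}, ?_, ?_⟩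
  · refine isCompact_singleton.union (hS.isCompact_biUnion fun z' hz' => ?_)
    exact A.compact_plaque hp.1 (hSZ hz').1
  · intro z hz
    rw [mem_union, not_or] at hz
    constructor
    · intro h
      apply hz.1
      rw [mem_singleton_iff]
      exact ULeaf.val_injective h
    · have hzΛ : z.val ∈ A.Λ := A.wu_Λ hp.1 z.prop
      have hnot : z.val ∉ A.Zs ε := by
        intro h
        obtain ⟨z', hz', h1⟩ := hcov _ h
        exact hz.2 (mem_iUnion₂.2 ⟨z', hz', h1⟩)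
      have h1 : ∃ s ∈ Ioo (0 : ℝ) ε, A.φ s z.val ∈ A.Λ := by
        by_contra h2
        apply hnot
        refine ⟨hzΛ, fun s hs h3 => h2 ⟨s, hs, h3⟩⟩
      obtain ⟨s, hs, h2⟩ := h1
      exact lt_of_le_of_lt (A.A12_G_le hs.1 h2) hs.2

end AF

end Pool.MP85
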