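import Pool.Agent.Lib.MP_85e637_an.Abs
import Pool.Agent.Lib.MP_85e637_an.A01
import Pool.Agent.Lib.MP_85e637_an.A02

open Filter Topology Set Metric

namespace Pool.MP85

namespace AF
variable {m : ℕ} {X M : Type} [MetricSpace X] [MetricSpace M] (A : AF m X M)

theorem inf_arc {x : X} (hx : x ∈ A.Λ) {T : ℝ} (hT : T ≠ 0) (hT' : A.φ T x ∈ A.Λ) :
    ∃ x' ∈ A.Λ, (A.LT x' ∩ Icc (-1) 1).Infinite := by
  obtain ⟨tn, htn, hlim⟩ := A.contr1 x T
  have hxn : ∀ n, fw A.F n x ∈ A.Λ := fun n => (A.fw_mem n).2 hx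
  have hyn : ∀ n, A.φ (tn n) (fw A.F n x) ∈ A.Λ := fun n => by
    rw [← htn n]; exact (A.fw_mem n).2 hT'
  have hne : ∀ n, tn n ≠ 0 := by
    intro n h0
    have h1 : fw A.F n (A.φ T x) = fw A.F n x := by rw [htn n, h0, A.φ_zero]
    have h2 : A.φ T x = x := by
      have := congrArg (bk A.F n) h1
      rwa [bk_fw, bk_fw] at this
    exact hT (A.free T x (by rw [h2]))
  obtain ⟨x', hx', ψ, hψ, hψl⟩ := A.Λ_cpt.tendsto_subseq hxn
  refine ⟨x', hx', fun hfin => ?_⟩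
  -- for every small `ε` there is a nonzero `Λ`-time of size at most `ε`
  have key : ∀ ε > 0, ∃ t : ℝ, t ≠ 0 ∧ |t| ≤ ε ∧ t ∈ A.LT x' := by
    intro ε hε
    set e : ℝ := min ε (A.ε0 / 2) with he
    have hepos : 0 < e := lt_min hε (half_pos A.ε0_pos)
    have he1 : e ≤ ε := min_le_left _ _
    have he2 : e ≤ A.ε0 / 2 := min_le_right _ _
    have he3 : e ≤ A.ε0 := he2.trans (by linarith [A.ε0_pos])
    obtain ⟨r, hr, hcs⟩ := A.CS2 e hepos
    have hlim' : Tendsto (fun k => tn (ψ k)) atTop (𝓝 0) := hlim.comp hψ.tendsto_atTop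
    have hyl : Tendsto (fun k => A.φ (tn (ψ k)) (fw A.F (ψ k) x)) atTop (𝓝 x') := by
      have h1 : Tendsto (fun k => (tn (ψ k), fw A.F (ψ k) x)) atTop (𝓝 ((0 : ℝ), x')) :=
        hlim'.prodMk_nhds hψl
      have h2 := (A.φ_cont.tendsto (0, x')).comp h1
      simpa [A.φ_zero, Function.comp_def] using h2
    have e1 : ∀ᶠ k in atTop, dist (fw A.F (ψ k) x) x' < r :=
      (Metric.tendsto_nhds.1 hψl) r hr
    have e2 : ∀ᶠ k in atTop, dist (A.φ (tn (ψ k)) (fw A.F (ψ k) x)) x' < r :=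
      (Metric.tendsto_nhds.1 hyl) r hr
    have e3 : ∀ᶠ k in atTop, dist (tn (ψ k)) 0 < A.δ0 :=
      (Metric.tendsto_nhds.1 hlim') A.δ0 A.δ0_pos
    obtain ⟨k, h1, h2, h3⟩ := (e1.and (e2.and e3)).exists
    set n := ψ k
    obtain ⟨t, ht, ht'⟩ := hcs _ (hxn n) x' h1
    obtain ⟨s, hs, hs'⟩ := hcs _ (hyn n) x' h2
    have htL : t ∈ A.LT x' := A.U1 _ (hxn n) (wul_mono he3 ht')
    have hsL : s ∈ A.LT x' := A.U1 _ (hyn n) (wul_mono he3 hs')
    have hts : t ≠ s := by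
      intro hts
      subst hts
      have h4 : A.φ (tn n) (fw A.F n x) ∈ WUl A.F (e + e) (fw A.F n x) :=
        wul_trans ht' (wul_symm hs')
      have h5 : A.φ (tn n) (fw A.F n x) ∈ WUl A.F A.ε0 (fw A.F n x) :=
        wul_mono (by linarith) h4
      have h6 : |tn n| ≤ A.δ0 := by
        rw [Real.dist_eq, sub_zero] at h3
        exact h3.le
      exact hne n (A.CS1 _ (hxn n) _ _ h6 (wul_self A.ε0_pos.le) h5)
    by_cases ht0 : t = 0
    · exact ⟨s, fun h => hts (ht0.trans h.symm), hs.trans he1, hsL⟩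
    · exact ⟨t, ht0, ht.trans he1, htL⟩
  have hfin' : ((A.LT x' ∩ Icc (-1) 1) \ {0}).Finite := hfin.subset sdiff_subset
  have hopen := hfin'.isClosed.isOpen_compl
  have h0 : (0 : ℝ) ∈ ((A.LT x' ∩ Icc (-1) 1) \ {0})ᶜ := by
    intro h; exact h.2 rfl
  obtain ⟨δ, hδ, hball⟩ := Metric.isOpen_iff.1 hopen 0 h0
  obtain ⟨t, ht0, htδ, htL⟩ := key (min (δ / 2) 1) (lt_min (half_pos hδ) one_pos)
  have h1 : |t| ≤ 1 := htδ.trans (min_le_right _ _)
  have h2 : |t| < δ := lt_of_le_of_lt (htδ.trans (min_le_left _ _)) (half_lt_self hδ)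
  have h3 : t ∈ ball (0 : ℝ) δ := by
    rw [mem_ball, Real.dist_eq, sub_zero]; exact h2
  exact hball h3 ⟨⟨htL, abs_le.1 h1⟩, ht0⟩

end AF

end Pool.MP85
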