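import Pool.Agent.Lib.MP_85e637_an.Abs
import Pool.Agent.Lib.MP_85e637_an.A01
import Pool.Agent.Lib.MP_85e637_an.A02
import Pool.Agent.Lib.MP_85e637_an.A03
import Pool.Agent.Lib.MP_85e637_an.A09

set_option autoImplicit false

open Filter Topology Set Metric

namespace Pool.MP85

namespace AF
variable {m : ℕ} {X M : Type} [MetricSpace X] [MetricSpace M] (A : AF m X M)

/-- not exceptional: the positive ray does not end in a separatrix -/
def NE (x : X) : Prop := x ∈ A.Λ ∧ ∀ t : ℝ, 0 ≤ t → ¬ A.Inf (A.φ t x)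

variable {A}

/-- first time at which the mass of the arc from `x` reaches `a` -/
noncomputable def Meas.U (μ : Meas A) (x : X) (a : ℝ) : ℝ := sInf {t | 0 ≤ t ∧ a ≤ μ.μ x 0 t}

theorem A14_mono (μ : Meas A) {x : X} (hx : x ∈ A.Λ) {s t : ℝ} (hs : 0 ≤ s) (hst : s ≤ t) :
    μ.μ x 0 s ≤ μ.μ x 0 t := by
  have h1 := μ.add x hx 0 s t hs hst
  have h2 := μ.nonneg x hx s t hst
  linarith

theorem A14_zero (μ : Meas A) {x : X} (hx : x ∈ A.Λ) (s : ℝ) : μ.μ x s s = 0 := by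
  have h1 := μ.add x hx s s s le_rfl le_rfl
  linarith

theorem A14_sub (μ : Meas A) {x : X} (hx : x ∈ A.Λ) {s s' t' t : ℝ} (h1 : s ≤ s') (h2 : s' ≤ t')
    (h3 : t' ≤ t) : μ.μ x s' t' ≤ μ.μ x s t := by
  have e1 := μ.add x hx s s' t h1 (h2.trans h3)
  have e2 := μ.add x hx s' t' t h2 h3
  have e3 := μ.nonneg x hx s s' h1
  have e4 := μ.nonneg x hx t' t h3
  linarith

theorem A14_small (μ : Meas A) {x : X} (hx : x ∈ A.Λ) (u : ℝ) {η : ℝ} (hη : 0 < η) :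
    ∃ ε > 0, μ.μ x (u - ε) (u + ε) ≤ η := by
  by_cases hu : u ∈ A.LT x
  · obtain ⟨ε, hε, h1⟩ := μ.small (A.φ u x) hu η hη
    refine ⟨ε, hε, ?_⟩
    rw [μ.shift x hx u hu (-ε) ε (by linarith)] at h1
    have e1 : -ε + u = u - ε := by ring
    have e2 : ε + u = u + ε := by ring
    rwa [e1, e2] at h1
  · have hcl := A.isClosed_LT x
    have hopen : (A.LT x)ᶜ ∈ 𝓝 u := hcl.isOpen_compl.mem_nhds hu
    obtain ⟨ε, hε, h1⟩ := Metric.mem_nhds_iff.1 hopen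
    rw [Real.ball_eq_Ioo] at h1
    refine ⟨ε / 2, by positivity, ?_⟩
    rw [μ.null x hx (u - ε / 2) (u + ε / 2) (by linarith) fun v hv =>
      h1 ⟨by linarith [hv.1], by linarith [hv.2]⟩]
    exact hη.le

theorem A14_unbdd {x : X} (hx : A.NE x) (T : ℝ) : ∃ u ∈ A.LT x, T ≤ u := by
  by_contra hcon
  push Not at hcon
  have h0 : (0 : ℝ) ∈ A.LT x := by
    show A.φ 0 x ∈ A.Λ
    rw [A.φ_zero]
    exact hx.1
  have hbdd : BddAbove (A.LT x) := ⟨T, fun u hu => (hcon u hu).le⟩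
  have hmem : sSup (A.LT x) ∈ A.LT x := (A.isClosed_LT x).csSup_mem ⟨0, h0⟩ hbdd
  have hnn : 0 ≤ sSup (A.LT x) := le_csSup hbdd h0
  refine hx.2 _ hnn ⟨hmem, fun s hs hmem2 => ?_⟩
  rw [← A.φ_add] at hmem2
  have : s + sSup (A.LT x) ≤ sSup (A.LT x) := le_csSup hbdd hmem2
  linarith

theorem Meas.mass_inf (μ : Meas A) {x : X} (hx : A.NE x) (K : ℝ) :
    ∃ t > 0, K ≤ μ.μ x 0 t := by
  obtain ⟨η, hη, hlow⟩ := μ.low 1 one_pos
  have key : ∀ n : ℕ, ∃ t : ℝ, 0 < t ∧ n * η ≤ μ.μ x 0 t := by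
    intro n
    induction n with
    | zero =>
      refine ⟨1, one_pos, ?_⟩
      simpa using μ.nonneg x hx.1 0 1 zero_le_one
    | succ n ih =>
      obtain ⟨t, ht, h1⟩ := ih
      obtain ⟨u, hu, hu2⟩ := A14_unbdd hx (t + 1)
      refine ⟨u + 1, by linarith, ?_⟩
      have h2 := hlow (A.φ u x) hu
      rw [μ.shift x hx.1 u hu (-1) 1 (by norm_num)] at h2
      have e1 : (-1 : ℝ) + u = u - 1 := by ring
      have e2 : (1 : ℝ) + u = u + 1 := by ring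
      rw [e1, e2] at h2
      have h3 := μ.add x hx.1 0 (u - 1) (u + 1) (by linarith) (by linarith)
      have h4 := A14_mono μ hx.1 ht.le (by linarith : t ≤ u - 1)
      push_cast
      linarith
  obtain ⟨n, hn⟩ := exists_nat_ge (K / η)
  obtain ⟨t, ht, h1⟩ := key n
  refine ⟨t, ht, le_trans ?_ h1⟩
  rwa [div_le_iff₀ hη] at hn

theorem Meas.U_spec (μ : Meas A) {x : X} (hx : A.NE x) {a : ℝ} (ha : 0 < a) :
    0 < μ.U x a ∧ A.φ (μ.U x a) x ∈ A.Λ ∧ μ.μ x 0 (μ.U x a) = a ∧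
      ∀ t, 0 ≤ t → t < μ.U x a → μ.μ x 0 t < a := by
  obtain ⟨S, hS⟩ : ∃ S : Set ℝ, S = {t | 0 ≤ t ∧ a ≤ μ.μ x 0 t} := ⟨_, rfl⟩
  have hU : μ.U x a = sInf S := by rw [hS]; rfl
  have hbdd : BddBelow S := ⟨0, fun t ht => by rw [hS] at ht; exact ht.1⟩
  have hne : S.Nonempty := by
    obtain ⟨t, ht, h1⟩ := Meas.mass_inf μ hx a
    exact ⟨t, by rw [hS]; exact ⟨ht.le, h1⟩⟩
  have hnn : 0 ≤ μ.U x a := by
    rw [hU]
    exact le_csInf hne fun t ht => by rw [hS] at ht; exact ht.1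
  have hlt : ∀ t, 0 ≤ t → t < μ.U x a → μ.μ x 0 t < a := by
    intro t ht h1
    by_contra h2
    rw [not_lt] at h2
    have h3 : t ∈ S := by rw [hS]; exact ⟨ht, h2⟩
    have h4 := csInf_le hbdd h3
    rw [← hU] at h4
    linarith
  have hge : a ≤ μ.μ x 0 (μ.U x a) := by
    refine le_of_forall_pos_le_add fun η hη => ?_
    obtain ⟨ε, hε, h1⟩ := A14_small μ hx.1 (μ.U x a) hη
    have h2 : sInf S < μ.U x a + ε := by rw [← hU]; linarith
    obtain ⟨t, ht, h3⟩ := exists_lt_of_csInf_lt hne h2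
    have h4 : μ.U x a ≤ t := by rw [hU]; exact csInf_le hbdd ht
    rw [hS] at ht
    have h5 := μ.add x hx.1 0 (μ.U x a) t hnn h4
    have h6 := A14_sub μ hx.1 (s := μ.U x a - ε) (s' := μ.U x a) (t' := t)
      (t := μ.U x a + ε) (by linarith) h4 h3.le
    linarith [ht.2]
  have hpos : 0 < μ.U x a := by
    rcases hnn.lt_or_eq with h1 | h1
    · exact h1
    · rw [← h1, A14_zero μ hx.1] at hge
      linarith
  have hle : μ.μ x 0 (μ.U x a) ≤ a := by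
    refine le_of_forall_pos_le_add fun η hη => ?_
    obtain ⟨ε, hε, h1⟩ := A14_small μ hx.1 (μ.U x a) hη
    have h2 : 0 < min ε (μ.U x a) := lt_min hε hpos
    have h3 := min_le_left ε (μ.U x a)
    have h4 := min_le_right ε (μ.U x a)
    have h5 := hlt (μ.U x a - min ε (μ.U x a)) (by linarith) (by linarith)
    have h6 := μ.add x hx.1 0 (μ.U x a - min ε (μ.U x a)) (μ.U x a) (by linarith) (by linarith)
    have h7 := A14_sub μ hx.1 (s := μ.U x a - ε) (s' := μ.U x a - min ε (μ.U x a))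
      (t' := μ.U x a) (t := μ.U x a + ε) (by linarith) (by linarith) (by linarith)
    linarith
  refine ⟨hpos, ?_, le_antisymm hle hge, hlt⟩
  by_contra hnot
  have hnot' : μ.U x a ∉ A.LT x := hnot
  have hopen : (A.LT x)ᶜ ∈ 𝓝 (μ.U x a) := (A.isClosed_LT x).isOpen_compl.mem_nhds hnot'
  obtain ⟨ε, hε, h1⟩ := Metric.mem_nhds_iff.1 hopen
  rw [Real.ball_eq_Ioo] at h1
  have h2 : 0 < min ε (μ.U x a) := lt_min hε hpos
  have h3 := min_le_left ε (μ.U x a)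
  have h4 := min_le_right ε (μ.U x a)
  have h5 := hlt (μ.U x a - min ε (μ.U x a) / 2) (by linarith) (by linarith)
  have h6 := μ.add x hx.1 0 (μ.U x a - min ε (μ.U x a) / 2) (μ.U x a) (by linarith)
    (by linarith)
  have h7 := μ.null x hx.1 (μ.U x a - min ε (μ.U x a) / 2) (μ.U x a) (by linarith)
    fun v hv => h1 ⟨by linarith [hv.1], by linarith [hv.2]⟩
  linarith

theorem Meas.U_loc (μ : Meas A) {x : X} (hx : A.NE x) {a : ℝ} (ha : 0 < a) : ∃ ε' > 0,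
    ∀ y ∈ WUl A.F ε' x, A.NE y → A.φ (μ.U y a) y ∈ WU A.F (A.φ (μ.U x a) x) := by
  obtain ⟨hUpos, hUΛ, hUa, hUlt⟩ := Meas.U_spec μ hx ha
  obtain ⟨U, hU⟩ : ∃ U, U = μ.U x a := ⟨_, rfl⟩
  rw [← hU] at hUpos hUΛ hUa hUlt ⊢
  obtain ⟨ε₁, hε₁, hinv⟩ := μ.inv (U + 2)
  have hε₂ : 0 < min (min ε₁ (1 / 2)) A.ε0 :=
    lt_min (lt_min hε₁ (by norm_num)) A.ε0_pos
  obtain ⟨ε₂, hε₂'⟩ : ∃ ε₂, ε₂ = min (min ε₁ (1 / 2)) A.ε0 := ⟨_, rfl⟩
  rw [← hε₂'] at hε₂
  have hle1 : ε₂ ≤ ε₁ := by rw [hε₂']; exact (min_le_left _ _).trans (min_le_left _ _)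
  have hle2 : ε₂ ≤ 1 / 2 := by rw [hε₂']; exact (min_le_left _ _).trans (min_le_right _ _)
  have hle3 : ε₂ ≤ A.ε0 := by rw [hε₂']; exact min_le_right _ _
  obtain ⟨ε₃, hε₃, hsld⟩ := A.sld (U + 2) ε₂ hε₂
  refine ⟨min ε₃ ε₁, lt_min hε₃ hε₁, fun y hy hNE => ?_⟩
  obtain ⟨h, h0, hA, hB, hC⟩ := hsld x hx.1 y (wul_mono (min_le_left _ _) hy)
  have hy1 : y ∈ WUl A.F ε₁ x := wul_mono (min_le_right _ _) hy
  have h0x : (0 : ℝ) ∈ A.LT x := by
    show A.φ 0 x ∈ A.Λ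
    rw [A.φ_zero]
    exact hx.1
  have hUx : U ∈ A.LT x := hUΛ
  have habs0 : |(0 : ℝ)| ≤ U + 2 := by rw [abs_zero]; linarith
  -- mass comparison
  have hmass : ∀ t ∈ A.LT x, 0 ≤ t → t ≤ U + 2 → μ.μ x 0 t = μ.μ y 0 (h t) := by
    intro t ht ht0 htT
    have habs : |t| ≤ U + 2 := by rw [abs_of_nonneg ht0]; exact htT
    obtain ⟨h1, h2⟩ := hA t ht habs
    exact hinv x hx.1 y hy1 0 h0x t ht habs0 habs ht0 0 (h t) (by simp [hε₁.le])
      (h1.trans hle1) (by rw [A.φ_zero, A.φ_zero]; exact hy1) (wul_mono hle1 h2)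
  have hUabs : |U| ≤ U + 2 := by rw [abs_of_pos hUpos]; linarith
  obtain ⟨hU1, hU2⟩ := hA U hUx hUabs
  have hV := hmass U hUx hUpos.le (by linarith)
  rw [hUa] at hV
  have hVpos : 0 < h U := by
    have := hB 0 h0x U hUx habs0 hUabs hUpos
    rwa [h0] at this
  obtain ⟨hWpos, hWΛ, hWa, hWlt⟩ := Meas.U_spec μ hNE ha
  have hWV : μ.U y a ≤ h U := by
    by_contra hcon
    rw [not_le] at hcon
    have := hWlt (h U) hVpos.le hcon
    linarith
  have hWT : |μ.U y a| ≤ U + 2 - ε₂ := by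
    rw [abs_of_pos hWpos]
    have := (abs_le.1 hU1).2
    linarith
  obtain ⟨t, ht, htT, hht⟩ := hC (μ.U y a) hWΛ hWT
  have htpos : 0 < t := by
    by_contra hcon
    rw [not_lt] at hcon
    rcases hcon.lt_or_eq with h1 | h1
    · have := hB t ht 0 h0x htT habs0 h1
      rw [h0, hht] at this
      linarith
    · rw [h1, h0] at hht
      linarith
  have hta := hmass t ht htpos.le ((le_abs_self t).trans htT)
  rw [hht, hWa] at hta
  have hUt : U ≤ t := by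
    by_contra hcon
    rw [not_le] at hcon
    have := hUlt t htpos.le hcon
    linarith
  have hteq : t = U := by
    rcases hUt.lt_or_eq with h1 | h1
    · have := hB U hUx t ht hUabs htT h1
      rw [hht] at this
      linarith
    · exact h1.symm
  rw [hteq] at hht
  rw [← hht]
  exact A.wul_wu hUΛ (wul_mono hle3 hU2)

end AF

end Pool.MP85
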