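import Pool.Agent.Lib.MP_85e637_an.Abs
import Pool.Agent.Lib.MP_85e637_an.A01
import Pool.Agent.Lib.MP_85e637_an.B01
import Pool.Agent.Lib.MP_85e637_an.A02
import Pool.Agent.Lib.MP_85e637_an.A03
import Pool.Agent.Lib.MP_85e637_an.A09
import Pool.Agent.Lib.MP_85e637_an.A11
import Pool.Agent.Lib.MP_85e637_an.A13
import Pool.Agent.Lib.MP_85e637_an.A14

/-!
# A15: existence of a 1-bunch
-/

open Filter Topology Set Metric

namespace Pool.MP85

/-- complements of countable sets are dense in a leaf -/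
theorem A15_dense_compl {Z : Type} [MetricSpace Z] {F : Z ≃ₜ Z} {x : Z} {m : ℕ} (hm : 1 ≤ m)
    (h : Exh m F x) {C : Set (ULeaf F x)} (hC : C.Countable) (a : ULeaf F x) {ε : ℝ}
    (hε : 0 < ε) : ∃ y : ULeaf F x, dist a y ≤ ε ∧ y ∉ C := by
  obtain ⟨ψ, hψ, -, hU⟩ := h
  have ha : a ∈ ⋃ n, range (ψ n) := by rw [hU]; trivial
  obtain ⟨n, u, hu⟩ := mem_iUnion.1 ha
  have : Nonempty (Fin m) := ⟨⟨0, hm⟩⟩
  have hd : Dense ((ψ n) ⁻¹' C)ᶜ :=
    Set.Countable.dense_compl ℝ (hC.preimage (hψ n).injective)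
  have ho : IsOpen ((ψ n) ⁻¹' ball a ε) := isOpen_ball.preimage (hψ n).continuous
  obtain ⟨v, hv1, hv2⟩ := hd.inter_open_nonempty _ ho ⟨u, by
    simp only [mem_preimage, hu]; exact mem_ball_self hε⟩
  refine ⟨ψ n v, ?_, hv2⟩
  have : dist (ψ n v) a < ε := hv1
  rw [dist_comm]; exact this.le

namespace AF
variable {m : ℕ} {X M : Type} [MetricSpace X] [MetricSpace M] (A : AF m X M)

/-- points of the leaf are non exceptional iff not in the countable set -/
theorem A15_NE {x : X} (hx : x ∈ A.Λ) (y : ULeaf A.F x)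
    (hy : y ∉ {y : ULeaf A.F x | ∃ t : ℝ, 0 ≤ t ∧ A.Inf (A.φ t y.val)}) : A.NE y.val := by
  refine ⟨A.wu_Λ hx y.prop, fun t ht hi => hy ⟨t, ht, hi⟩⟩

/-- final part: both ends are not exceptional -/
theorem A15_aux (hm : 2 ≤ m) (μ : Meas A) {x : X} {T : ℝ} (hT : 0 < T) (hNx : A.NE x)
    (hNy : A.NE (A.σ (A.φ T x))) (h : A.σ (A.φ T x) ∈ WU A.F x) :
    ∃ z ∈ A.Λ, ∃ g > 0, (∀ s ∈ Ioo (0:ℝ) g, A.φ s z ∉ A.Λ) ∧ A.σ (A.φ g z) ∈ WU A.F z := by
  have hx : x ∈ A.Λ := hNx.1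
  have hTx : A.φ T x ∈ A.Λ := (A.σΛ _).1 hNy.1
  set y : X := A.σ (A.φ T x) with hy
  have h0 : μ.μ x 0 0 = 0 := by
    have := μ.add x hx 0 0 0 le_rfl le_rfl
    linarith
  -- reflection formula
  have hrefl : ∀ s, 0 ≤ s → s ≤ T → μ.μ y 0 s = μ.μ x 0 T - μ.μ x 0 (T - s) := by
    intro s hs0 hsT
    have e1 := μ.refl (A.φ T x) hTx (-s) 0 (by linarith)
    have e2 := μ.shift x hx T hTx (-s) 0 (by linarith)
    have e3 := μ.add x hx 0 (T - s) T (by linarith) (by linarith)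
    have e4 : -s + T = T - s := by ring
    rw [neg_zero, neg_neg] at e1
    rw [e4, zero_add] at e2
    rw [hy, e1, e2]
    linarith
  rcases (μ.nonneg x hx 0 T hT.le).eq_or_lt with hm0 | hm0
  · -- zero mass: the whole arc is a gap
    refine ⟨x, hx, T, hT, ?_, h⟩
    intro s hs hsΛ
    have := μ.pos x hx 0 s T hs.1 hs.2 hsΛ
    linarith
  · set a : ℝ := μ.μ x 0 T / 2 with ha
    have ha0 : 0 < a := by positivity
    have hma : μ.μ x 0 T = 2 * a := by rw [ha]; ring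
    obtain ⟨hU0, hUΛ, hUa, hUlt⟩ := μ.U_spec hNx ha0
    obtain ⟨hV0, hVΛ, hVa, hVlt⟩ := μ.U_spec hNy ha0
    set U : ℝ := μ.U x a with hU
    set V : ℝ := μ.U y a with hV
    have hUT : U < T := by
      by_contra hc
      push Not at hc
      rcases hc.eq_or_lt with hc | hc
      · rw [← hc] at hUa; linarith
      · have := hUlt T hT.le hc; linarith
    have hyT : μ.μ y 0 T = 2 * a := by
      rw [hrefl T hT.le le_rfl, sub_self, h0, hma]; ring
    have hVT : V < T := by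
      by_contra hc
      push Not at hc
      rcases hc.eq_or_lt with hc | hc
      · rw [← hc] at hVa; linarith
      · have := hVlt T hT.le hc; linarith
    set b : ℝ := T - V with hb
    have hb0 : 0 < b := by rw [hb]; linarith
    have hxb : μ.μ x 0 b = a := by
      have := hrefl V hV0.le hVT.le
      rw [hVa, hma] at this
      linarith
    have hbU : U ≤ b := by
      by_contra hc
      push Not at hc
      have := hUlt b hb0.le hc
      linarith
    -- `σ (φ_b x)` is in the leaf of `φ_U x`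
    have hφV : A.φ V y = A.σ (A.φ b x) := by
      have e1 : A.σ (A.φ (-V) (A.φ T x)) = A.φ (- -V) (A.σ (A.φ T x)) := A.σφ _ _
      rw [neg_neg] at e1
      rw [hy, ← e1, ← A.φ_add, hb]
      congr 2; ring
    have hconn : A.φ V y ∈ WU A.F (A.φ U x) := by
      set S : Set (ULeaf A.F x) := {y : ULeaf A.F x | ∃ t : ℝ, 0 ≤ t ∧ A.Inf (A.φ t y.val)}ᶜ
        with hS
      have hSc : IsPreconnected S := leaf_compl_countable hm (A.exh x hx) (A.exc_countable hx)
      have key := hSc.induction₂' (fun p q : ULeaf A.F x =>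
        A.φ (μ.U q.val a) q.val ∈ WU A.F (A.φ (μ.U p.val a) p.val)) ?_ ?_
        (x := (⟨x, wu_self⟩ : ULeaf A.F x)) (y := (⟨y, h⟩ : ULeaf A.F x)) ?_ ?_
      · exact key
      · intro p hp
        have hNp : A.NE p.val := A.A15_NE hx p hp
        obtain ⟨ε', hε', hloc⟩ := μ.U_loc hNp ha0
        have hev : ∀ᶠ q in 𝓝[S] p, q ∈ S ∧ dist q p < ε' := by
          refine (eventually_mem_nhdsWithin).and ?_
          exact (Metric.ball_mem_nhds p hε' : _) |> fun hh => mem_nhdsWithin_of_mem_nhds hh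
        filter_upwards [hev] with q hq
        have hNq : A.NE q.val := A.A15_NE hx q hq.1
        have hqp : q.val ∈ WUl A.F ε' p.val := by
          rw [← ULeaf.dist_le_iff, dist_comm]; exact hq.2.le
        have := hloc q.val hqp hNq
        exact ⟨this, wu_symm this⟩
      · intro p q r _ _ _ h1 h2
        exact wu_trans h1 h2
      · rw [hS]
        intro ⟨t, ht, hi⟩
        exact hNx.2 t ht hi
      · rw [hS]
        intro ⟨t, ht, hi⟩
        exact hNy.2 t ht hi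
    have hbU' : U < b := by
      rcases hbU.eq_or_lt with hc | hc
      · exfalso
        rw [hφV, ← hc] at hconn
        exact A.σ_not_wu hUΛ hconn
      · exact hc
    refine ⟨A.φ U x, hUΛ, b - U, by linarith, ?_, ?_⟩
    · intro s hs hsΛ
      rw [← A.φ_add] at hsΛ
      have hpos := μ.pos x hx U (s + U) b (by linarith [hs.1]) (by linarith [hs.2]) hsΛ
      have hadd := μ.add x hx 0 U b hU0.le hbU
      linarith
    · rw [← A.φ_add, sub_add_cancel, ← hφV]
      exact hconn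

/-- the case `T > 0` -/
theorem A15_pos (hm : 2 ≤ m) {x : X} (hx : x ∈ A.Λ) {T : ℝ} (hT : 0 < T)
    (h : A.σ (A.φ T x) ∈ WU A.F x) :
    ∃ z ∈ A.Λ, ∃ g > 0, (∀ s ∈ Ioo (0:ℝ) g, A.φ s z ∉ A.Λ) ∧ A.σ (A.φ g z) ∈ WU A.F z := by
  have hTx : A.φ T x ∈ A.Λ := (A.σΛ _).1 (A.wu_Λ hx h)
  obtain ⟨x', hx', hinf⟩ := A.inf_arc hx hT.ne' hTx
  obtain ⟨μ⟩ := A.exists_meas hx' hinf
  -- sliding
  set ε : ℝ := min A.ε0 (min (A.δ0 / 2) (T / 2)) with hε
  have hε0 : 0 < ε := by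
    have := A.ε0_pos
    have := A.δ0_pos
    positivity
  have hεa : ε ≤ A.ε0 := min_le_left _ _
  have hεb : ε ≤ A.δ0 / 2 := (min_le_right _ _).trans (min_le_left _ _)
  have hεc : ε ≤ T / 2 := (min_le_right _ _).trans (min_le_right _ _)
  obtain ⟨ε', hε', hsld⟩ := A.sld T ε hε0
  set ε'' : ℝ := min ε' A.ε0 with hε''
  have hε''0 : 0 < ε'' := by
    have := A.ε0_pos
    positivity
  have hs : ∀ y : X, ∃ T' : ℝ, y ∈ WUl A.F ε'' x →
      |T' - T| ≤ ε ∧ A.φ T' y ∈ WUl A.F ε (A.φ T x) := by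
    intro y
    by_cases hy : y ∈ WUl A.F ε'' x
    · obtain ⟨h', -, h1, -, -⟩ := hsld x hx y (wul_mono (min_le_left _ _) hy)
      exact ⟨h' T, fun _ => h1 T hTx (abs_of_pos hT).le⟩
    · exact ⟨0, fun hh => absurd hh hy⟩
  choose τ hτ using hs
  -- the end point is in the leaf
  have hend : ∀ y ∈ WUl A.F ε'' x, A.σ (A.φ (τ y) y) ∈ WU A.F x := by
    intro y hy
    have h1 : A.φ (τ y) y ∈ WU A.F (A.φ T x) := A.wul_wu hTx (wul_mono hεa (hτ y hy).2)
    have h2 : A.σ (A.φ (τ y) y) ∈ WU A.F (A.σ (A.φ T x)) := A.wu_σ.2 h1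
    exact wu_trans h h2
  set E : Set (ULeaf A.F x) := {y : ULeaf A.F x | ∃ t : ℝ, 0 ≤ t ∧ A.Inf (A.φ t y.val)} with hE
  have hEc : E.Countable := A.exc_countable hx
  set D : Set (ULeaf A.F x) := {y : ULeaf A.F x | y.val ∈ WUl A.F ε'' x ∧
    A.σ (A.φ (τ y.val) y.val) ∈ ULeaf.val '' E} with hD
  have hDc : D.Countable := by
    refine Set.countable_of_injective_of_countable_image
      (f := fun y : ULeaf A.F x => A.σ (A.φ (τ y.val) y.val)) ?_ ?_
    · intro y hy z hz hyz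
      have h1 : A.φ (τ y.val) y.val = A.φ (τ z.val) z.val := A.σ.injective hyz
      have h2 : A.φ (τ y.val - τ z.val) y.val = z.val := by
        have e : A.φ (-τ z.val) (A.φ (τ y.val) y.val) = A.φ (-τ z.val) (A.φ (τ z.val) z.val) := by
          rw [h1]
        rw [← A.φ_add, ← A.φ_add, neg_add_cancel, A.φ_zero] at e
        rwa [neg_add_eq_sub] at e
      have h3 : |τ y.val - τ z.val| ≤ A.δ0 := by
        have a1 := (hτ y.val hy.1).1
        have a2 := (hτ z.val hz.1).1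
        rw [abs_le] at a1 a2 ⊢
        constructor <;> linarith
      have h4 : τ y.val - τ z.val = 0 := by
        refine A.CS1 x hx y.val _ h3 (wul_mono (min_le_right _ _) hy.1) ?_
        rw [h2]; exact wul_mono (min_le_right _ _) hz.1
      rw [h4, A.φ_zero] at h2
      exact ULeaf.val_injective h2
    · refine (hEc.image ULeaf.val).mono ?_
      rintro _ ⟨y, hy, rfl⟩
      exact hy.2
  obtain ⟨y, hy1, hy2⟩ := A15_dense_compl (by omega) (A.exh x hx) (hEc.union hDc)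
    (⟨x, wu_self⟩ : ULeaf A.F x) hε''0
  have hyW : y.val ∈ WUl A.F ε'' x := (ULeaf.dist_le_iff _ _ _).1 hy1
  have hyE : y ∉ E := fun hh => hy2 (Or.inl hh)
  have hyD : y ∉ D := fun hh => hy2 (Or.inr hh)
  have hNy : A.NE y.val := A.A15_NE hx y hyE
  have hT' : 0 < τ y.val := by
    have := (hτ y.val hyW).1
    rw [abs_le] at this
    linarith [this.1]
  have hNz : A.NE (A.σ (A.φ (τ y.val) y.val)) := by
    refine A.A15_NE hx ⟨A.σ (A.φ (τ y.val) y.val), hend _ hyW⟩ ?_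
    intro hh
    exact hyD ⟨hyW, ⟨_, hh, rfl⟩⟩
  exact A.A15_aux hm μ hT' hNy hNz (wu_trans (wu_symm y.prop) (hend _ hyW))

theorem bunch1 (hm : 2 ≤ m) {x : X} (hx : x ∈ A.Λ) {T : ℝ} (h : A.σ (A.φ T x) ∈ WU A.F x) :
    ∃ z ∈ A.Λ, ∃ g > 0, (∀ s ∈ Ioo (0:ℝ) g, A.φ s z ∉ A.Λ) ∧ A.σ (A.φ g z) ∈ WU A.F z := by
  rcases lt_trichotomy T 0 with hT | hT | hT
  · have h1 : A.σ (A.φ (-T) (A.σ x)) ∈ WU A.F (A.σ x) := by
      rw [← A.σφ]
      exact A.wu_σ.2 h
    exact A.A15_pos hm ((A.σΛ x).2 hx) (by linarith) h1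
  · exfalso
    rw [hT, A.φ_zero] at h
    exact A.σ_not_wu hx h
  · exact A.A15_pos hm hx hT h

end AF

end Pool.MP85
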