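import Pool.Agent.Lib.MP_85e637_an.A02

/-!
# A16: either there is a reversing pair or the double cover is trivial over the attractor
-/

open Filter Topology Set Metric

namespace Pool.MP85

/-- A16: either there is a reversing pair or the double cover is trivial over the attractor -/
theorem AF.section_or_rev {m : ℕ} {X M : Type} [MetricSpace X] [MetricSpace M] (A : AF m X M) :
    (∃ x ∈ A.Λ, ∃ T : ℝ, A.σ (A.φ T x) ∈ WU A.F x) ∨
    ∃ s : M → X, ContinuousOn s (A.π '' A.Λ) ∧ ∀ y ∈ A.π '' A.Λ, A.π (s y) = y := by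
  classical
  obtain ⟨x0, hx0⟩ := A.Λ_ne
  set Y : Set X := closure (WU A.F x0) with hY
  have hYΛ : Y ⊆ A.Λ := closure_minimal (A.wu_Λ hx0) A.Λ_cpt.isClosed
  have hYc : IsCompact Y := A.Λ_cpt.of_isClosed_subset isClosed_closure hYΛ
  have hdens : ∀ b ∈ A.Λ, b ∈ Y ∨ A.σ b ∈ Y := by
    intro b hb
    by_contra hcon
    push Not at hcon
    obtain ⟨h1, h2⟩ := hcon
    rw [hY, Metric.mem_closure_iff] at h1 h2
    push Not at h1 h2
    obtain ⟨e1, he1, h1⟩ := h1
    obtain ⟨e2, he2, h2⟩ := h2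
    obtain ⟨y, hy, h3⟩ := A.dens x0 hx0 b hb (min e1 e2) (lt_min he1 he2)
    rcases h3 with h3 | h3
    · have h4 := h1 y hy
      rw [dist_comm] at h4
      exact absurd (h3.trans_le (min_le_left _ _)) (not_lt.2 h4)
    · have h4 := h2 y hy
      rw [dist_comm] at h4
      exact absurd (h3.trans_le (min_le_right _ _)) (not_lt.2 h4)
  by_cases hcase : ∃ c ∈ Y, A.σ c ∈ Y
  · left
    obtain ⟨c, hc, hσc⟩ := hcase
    obtain ⟨r, hr, hCS⟩ := A.CS2 A.ε0 A.ε0_pos
    obtain ⟨a, ha, hac⟩ := Metric.mem_closure_iff.1 hc (r / 2) (by positivity)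
    obtain ⟨a', ha', hac'⟩ := Metric.mem_closure_iff.1 hσc (r / 2) (by positivity)
    have haΛ : a ∈ A.Λ := A.wu_Λ hx0 ha
    have h1 : dist a (A.σ a') < r := by
      have h2 : dist c (A.σ a') = dist (A.σ c) a' := by
        rw [← A.σ_isom, A.σσ]
      calc dist a (A.σ a') ≤ dist a c + dist c (A.σ a') := dist_triangle _ _ _
        _ < r / 2 + r / 2 := by rw [h2, dist_comm a c]; exact add_lt_add hac hac'
        _ = r := by ring
    obtain ⟨t, -, ht⟩ := hCS a haΛ _ h1
    have hxa : A.φ t (A.σ a') ∈ WU A.F a := A.wul_wu haΛ ht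
    have hx0a : A.φ t (A.σ a') ∈ WU A.F x0 := wu_trans ha hxa
    refine ⟨A.φ t (A.σ a'), A.wu_Λ hx0 hx0a, -t, ?_⟩
    rw [← A.φ_add, neg_add_cancel, A.φ_zero, A.σσ]
    exact wu_trans (wu_symm hx0a) ha'
  · right
    push Not at hcase
    have hπc : Continuous A.π := by
      refine LipschitzWith.continuous (K := 1) (LipschitzWith.of_dist_le_mul fun y y' => ?_)
      simpa using A.π_lip y y'
    have hinj : ∀ y ∈ Y, ∀ y' ∈ Y, A.π y = A.π y' → y' = y := by
      intro y hy y' hy' h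
      rcases A.fib y y' h with h1 | h1
      · exact h1
      · exact absurd (h1 ▸ hy') (hcase y hy)
    have hex : ∀ z ∈ A.π '' A.Λ, ∃ y ∈ Y, A.π y = z := by
      rintro z ⟨b, hb, rfl⟩
      rcases hdens b hb with h1 | h1
      · exact ⟨b, h1, rfl⟩
      · exact ⟨A.σ b, h1, A.πσ b⟩
    let s : M → X := fun z => if h : ∃ y ∈ Y, A.π y = z then h.choose else x0
    have hs : ∀ z ∈ A.π '' A.Λ, s z ∈ Y ∧ A.π (s z) = z := by
      intro z hz
      have h := hex z hz
      have hsz : s z = h.choose := dif_pos h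
      rw [hsz]
      exact h.choose_spec
    refine ⟨s, ?_, fun z hz => (hs z hz).2⟩
    rw [continuousOn_iff_isClosed]
    intro C hC
    refine ⟨A.π '' (Y ∩ C), ((hYc.inter_right hC).image hπc).isClosed, ?_⟩
    ext z
    constructor
    · rintro ⟨h1, h2⟩
      exact ⟨⟨s z, ⟨(hs z h2).1, h1⟩, (hs z h2).2⟩, h2⟩
    · rintro ⟨⟨y, ⟨hy, hyC⟩, hyz⟩, h2⟩
      refine ⟨?_, h2⟩
      have h3 := hs z h2
      have h4 : s z = y := hinj y hy (s z) h3.1 (by rw [hyz, h3.2])
      change s z ∈ C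
      rw [h4]
      exact hyC

end Pool.MP85
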