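import Mathlib

/-!
# Abstract layer: unstable sets of a homeomorphism, unstable leaves with their intrinsic metric,
and the structure `AF` (attractor flow).
-/

open Filter Topology Set Metric

namespace Pool.MP85

section Unstable
variable {Z : Type} [MetricSpace Z]

/-- forward iterate -/
def fw (F : Z ≃ₜ Z) (n : ℕ) (x : Z) : Z := (F : Z → Z)^[n] x
/-- backward iterate -/
def bk (F : Z ≃ₜ Z) (n : ℕ) (x : Z) : Z := (F.symm : Z → Z)^[n] x

/-- local unstable set of size `ε` (closed) -/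
def WUl (F : Z ≃ₜ Z) (ε : ℝ) (x : Z) : Set Z := {y | ∀ n, dist (bk F n x) (bk F n y) ≤ ε}
/-- local stable set of size `ε` (closed) -/
def WSl (F : Z ≃ₜ Z) (ε : ℝ) (x : Z) : Set Z := {y | ∀ n, dist (fw F n x) (fw F n y) ≤ ε}
/-- unstable set -/
def WU (F : Z ≃ₜ Z) (x : Z) : Set Z :=
  {y | Tendsto (fun n => dist (bk F n x) (bk F n y)) atTop (𝓝 0)}
/-- stable set -/
def WS (F : Z ≃ₜ Z) (x : Z) : Set Z :=
  {y | Tendsto (fun n => dist (fw F n x) (fw F n y)) atTop (𝓝 0)}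

lemma fw_zero (F : Z ≃ₜ Z) (x : Z) : fw F 0 x = x := rfl
lemma bk_zero (F : Z ≃ₜ Z) (x : Z) : bk F 0 x = x := rfl
lemma fw_succ (F : Z ≃ₜ Z) (n : ℕ) (x : Z) : fw F (n + 1) x = fw F n (F x) := rfl
lemma bk_succ (F : Z ≃ₜ Z) (n : ℕ) (x : Z) : bk F (n + 1) x = bk F n (F.symm x) := rfl
lemma fw_succ' (F : Z ≃ₜ Z) (n : ℕ) (x : Z) : fw F (n + 1) x = F (fw F n x) := by
  simp [fw, Function.iterate_succ_apply']
lemma bk_succ' (F : Z ≃ₜ Z) (n : ℕ) (x : Z) : bk F (n + 1) x = F.symm (bk F n x) := by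
  simp [bk, Function.iterate_succ_apply']

/-- The unstable leaf of `x` as a type; its metric is `D(y,y') = sup_n dist (F⁻ⁿ y) (F⁻ⁿ y')`. -/
structure ULeaf (F : Z ≃ₜ Z) (x : Z) where
  val : Z
  prop : val ∈ WU F x

namespace ULeaf
variable {F : Z ≃ₜ Z} {x : Z}

lemma tendsto (y y' : ULeaf F x) :
    Tendsto (fun n => dist (bk F n y.val) (bk F n y'.val)) atTop (𝓝 0) := by
  have h1 : Tendsto (fun n => dist (bk F n x) (bk F n y.val)) atTop (𝓝 0) := y.prop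
  have h2 : Tendsto (fun n => dist (bk F n x) (bk F n y'.val)) atTop (𝓝 0) := y'.prop
  refine squeeze_zero (fun n => dist_nonneg) (fun n => ?_) (by simpa using h1.add h2)
  calc dist (bk F n y.val) (bk F n y'.val)
      ≤ dist (bk F n y.val) (bk F n x) + dist (bk F n x) (bk F n y'.val) := dist_triangle _ _ _
    _ = _ := by rw [dist_comm (bk F n y.val)]

lemma bdd (y y' : ULeaf F x) :
    BddAbove (range fun n => dist (bk F n y.val) (bk F n y'.val)) :=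
  (tendsto y y').bddAbove_range

noncomputable instance : MetricSpace (ULeaf F x) where
  dist y y' := ⨆ n, dist (bk F n y.val) (bk F n y'.val)
  dist_self y := by simp
  dist_comm y y' := by simp [dist_comm]
  dist_triangle y y' y'' := by
    refine ciSup_le fun n => ?_
    exact (dist_triangle _ _ _).trans (add_le_add (le_ciSup (bdd y y') n) (le_ciSup (bdd y' y'') n))
  eq_of_dist_eq_zero := by
    intro y y' h
    have h0 : dist (bk F 0 y.val) (bk F 0 y'.val) ≤ 0 := h ▸ le_ciSup (bdd y y') 0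
    have : y.val = y'.val := dist_le_zero.1 (by simpa [bk_zero] using h0)
    cases y; cases y'; simp_all

lemma dist_def (y y' : ULeaf F x) : dist y y' = ⨆ n, dist (bk F n y.val) (bk F n y'.val) := rfl

lemma dist_le_iff (y y' : ULeaf F x) (ε : ℝ) :
    dist y y' ≤ ε ↔ y'.val ∈ WUl F ε y.val := by
  constructor
  · intro h n
    exact (le_ciSup (bdd y y') n).trans h
  · intro h
    exact ciSup_le h

lemma dist_val_le (y y' : ULeaf F x) : dist y.val y'.val ≤ dist y y' := by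
  rw [dist_def]
  have := le_ciSup (bdd y y') 0
  simpa only [bk_zero] using this

lemma continuous_val : Continuous (ULeaf.val : ULeaf F x → Z) := by
  refine LipschitzWith.continuous (K := 1) (LipschitzWith.of_dist_le_mul fun y y' => ?_)
  simpa using dist_val_le y y'

lemma val_injective : Function.Injective (ULeaf.val : ULeaf F x → Z) := by
  intro y y' h; cases y; cases y'; simp_all

end ULeaf

/-- The leaf is an increasing union of open cells (intrinsic topology). -/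
def Exh (m : ℕ) (F : Z ≃ₜ Z) (x : Z) : Prop :=
  ∃ ψ : ℕ → EuclideanSpace ℝ (Fin m) → ULeaf F x,
    (∀ n, IsOpenEmbedding (ψ n)) ∧ (∀ n, range (ψ n) ⊆ range (ψ (n + 1))) ∧
      (⋃ n, range (ψ n)) = univ

/-- chains of `k` steps in plaques of size `ε` -/
def Ch (F : Z ≃ₜ Z) (ε : ℝ) : ℕ → Z → Z → Prop
  | 0, x, y => y = x
  | k + 1, x, y => ∃ z, z ∈ WUl F ε x ∧ Ch F ε k z y

end Unstable

/-- Attractor flow: `X` is the orientation double cover of the basin, `F` the lifted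
diffeomorphism, `σ` the deck involution, `φ` the flow along the (oriented) stable leaves,
`Λ` the lifted attractor, `π : X → M` the projection. `m = d - 1`. -/
structure AF (m : ℕ) (X M : Type) [MetricSpace X] [MetricSpace M] where
  F : X ≃ₜ X
  σ : X ≃ₜ X
  φ : ℝ → X → X
  τ : X → ℝ → ℝ
  π : X → M
  Λ : Set X
  ε0 : ℝ
  δ0 : ℝ
  c0 : ℝ
  ε0_pos : 0 < ε0
  δ0_pos : 0 < δ0
  c0_pos : 0 < c0
  ε0_lt : 4 * ε0 < c0
  φ_cont : Continuous fun q : ℝ × X => φ q.1 q.2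
  φ_zero : ∀ x, φ 0 x = x
  φ_add : ∀ s t x, φ (s + t) x = φ s (φ t x)
  σσ : ∀ x, σ (σ x) = x
  σ_isom : ∀ x y, dist (σ x) (σ y) = dist x y
  σφ : ∀ t x, σ (φ t x) = φ (-t) (σ x)
  σF : ∀ x, F (σ x) = σ (F x)
  πσ : ∀ x, π (σ x) = π x
  π_lip : ∀ x y, dist (π x) (π y) ≤ dist x y
  fib : ∀ x y, π x = π y → y = x ∨ y = σ x
  /-- stable leaves are injectively immersed lines -/
  free : ∀ t x, π (φ t x) = π x → t = 0
  σ_sep : ∀ x, c0 ≤ dist x (σ x)
  Fφ : ∀ t x, F (φ t x) = φ (τ x t) (F x)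
  τ_cont : Continuous fun q : X × ℝ => τ q.1 q.2
  τ_zero : ∀ x, τ x 0 = 0
  τ_mono : ∀ x, StrictMono (τ x)
  τ_surj : ∀ x, Function.Surjective (τ x)
  Λ_cpt : IsCompact Λ
  Λ_ne : Λ.Nonempty
  FΛ : ∀ x, F x ∈ Λ ↔ x ∈ Λ
  σΛ : ∀ x, σ x ∈ Λ ↔ x ∈ Λ
  /-- `X` is the basin of `Λ` -/
  attr : ∀ x, Tendsto (fun n => infDist (fw F n x) Λ) atTop (𝓝 0)
  contr0 : ∀ x ∈ Λ, ∀ t, |t| ≤ δ0 → |τ x t| ≤ |t| / 2
  /-- forward iterates contract every arc of a stable leaf -/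
  contr1 : ∀ x, ∀ t : ℝ, ∃ tn : ℕ → ℝ, (∀ n, fw F n (φ t x) = φ (tn n) (fw F n x)) ∧
    Tendsto tn atTop (𝓝 0)
  /-- plaques -/
  U1 : ∀ x ∈ Λ, WUl F ε0 x ⊆ Λ
  U2 : ∀ x ∈ Λ, ∀ y ∈ WUl F ε0 x, dist (π (F.symm x)) (π (F.symm y)) ≤ dist (π x) (π y) / 2
  U3 : ∀ ε > 0, ∃ r > 0, ∀ x ∈ Λ, ∀ y ∈ WUl F ε0 x, dist (π x) (π y) < r → y ∈ WUl F ε x
  /-- a short arc meets a plaque at most once -/
  CS1 : ∀ b ∈ Λ, ∀ y, ∀ t : ℝ, |t| ≤ δ0 → y ∈ WUl F ε0 b → φ t y ∈ WUl F ε0 b → t = 0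
  /-- plaques are local cross sections -/
  CS2 : ∀ ε > 0, ∃ r > 0, ∀ b ∈ Λ, ∀ y, dist b y < r → ∃ t : ℝ, |t| ≤ ε ∧ φ t y ∈ WUl F ε b
  /-- plaques are uniformly locally path connected -/
  LC : ∀ ε > 0, ∃ ε' > 0, ∀ x ∈ Λ, ∀ y ∈ WUl F ε' x, ∃ c : ℝ → X,
    ContinuousOn c (Icc 0 1) ∧ c 0 = x ∧ c 1 = y ∧ ∀ s ∈ Icc (0:ℝ) 1, c s ∈ WUl F ε x
  /-- leaves are increasing unions of open `m`-cells -/
  exh : ∀ x ∈ Λ, Exh m F x
  /-- every leaf is dense (modulo `σ`) -/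
  dens : ∀ x ∈ Λ, ∀ b ∈ Λ, ∀ ε > 0, ∃ y ∈ WU F x, dist y b < ε ∨ dist y (σ b) < ε

namespace AF
variable {m : ℕ} {X M : Type} [MetricSpace X] [MetricSpace M] (A : AF m X M)

/-- the times at which the stable leaf through `x` is in `Λ` -/
def LT (x : X) : Set ℝ := {t | A.φ t x ∈ A.Λ}
/-- `z` is the start of a gap in positive direction -/
def Gap (z : X) : Prop := z ∈ A.Λ ∧ ∃ ε > 0, ∀ s ∈ Ioo (0:ℝ) ε, A.φ s z ∉ A.Λ
/-- `z` is the start of an infinite gap (separatrix) -/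
def Inf (z : X) : Prop := z ∈ A.Λ ∧ ∀ s > 0, A.φ s z ∉ A.Λ
/-- length of the gap (junk if infinite or not a gap) -/
noncomputable def G (z : X) : ℝ := sInf {s | 0 < s ∧ A.φ s z ∈ A.Λ}

end AF

end Pool.MP85
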