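import Pool.Agent.Lib.MP_85e637_an.Abs

/-!
# Abstract layer B: the structure `SD` (attractor flow inside the compact manifold)
-/

open Filter Topology Set Metric

namespace Pool.MP85

/-- All topological data used in the second half of the proof. `M` is the manifold,
`g` (a power of) the diffeomorphism, `range π` the basin of the attractor `L = π '' Λ`.
`Src = {s = 0}` (sources), `S1 = {s = 1}`, `H = {s = 1, u = m}` (a compact hyperbolic set),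
`Om` = nonwandering set. Here `s x = dim T_x W^s(x)`, `u x = dim T_x W^u(x)`, `m + 1 = dim M`. -/
structure SD (m : ℕ) (X M : Type) [MetricSpace X] [MetricSpace M] [CompactSpace M]
    extends AF m X M where
  g : M ≃ₜ M
  πF : ∀ x, π (F x) = g (π x)
  isOpen_B : IsOpen (range π)
  /-- local lifting through the double cover -/
  lift : ∀ x, ∀ ε > 0, ∃ δ > 0, ∀ y ∈ range π, dist (π x) y < δ → ∃ x', π x' = y ∧ dist x x' < ε
  πproper : ∀ K ⊆ range π, IsCompact K → IsCompact (π ⁻¹' K)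
  /-- the range of `π` is the basin of `π '' Λ` -/
  mem_B : ∀ x, x ∈ range π ↔ Tendsto (fun n => infDist (fw g n x) (π '' Λ)) atTop (𝓝 0)
  attrK : ∀ K ⊆ range π, IsCompact K → ∀ ε > 0, ∃ n0, ∀ n ≥ n0, ∀ x ∈ K,
    infDist (fw g n x) (π '' Λ) < ε
  /-- `π '' Λ` is an attractor -/
  repL : ∀ x, Tendsto (fun n => infDist (bk g n x) (π '' Λ)) atTop (𝓝 0) → x ∈ π '' Λ
  Src : Set M
  S1 : Set M
  H : Set M
  Om : Set M
  Src_fin : Src.Finite
  Src_inv : ∀ x, g x ∈ Src ↔ x ∈ Src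
  S1_inv : ∀ x, g x ∈ S1 ↔ x ∈ S1
  H_inv : ∀ x, g x ∈ H ↔ x ∈ H
  r0 : ℝ
  r0_pos : 0 < r0
  Src_rep : ∀ α ∈ Src, ∀ x, dist α x ≤ r0 → dist (g.symm α) (g.symm x) ≤ dist α x / 2
  Src_open : ∀ α ∈ Src, IsOpen (WU g α)
  Src_sc : ∀ α ∈ Src, SimplyConnectedSpace ↥(WU g α \ {α})
  Src_lpc : ∀ α ∈ Src, LocallyPathConnectedSpace ↥(WU g α \ {α})
  disj : Disjoint Src S1
  /-- `{s ≤ 1}` is closed -/
  closed_S : IsClosed (Src ∪ S1)
  closed_H : IsClosed H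
  B_S1 : range π ⊆ S1
  H_S1 : H ⊆ S1
  L_H : π '' Λ ⊆ H
  S1_cases : ∀ x ∈ S1, x ∈ H ∨ ∃ α ∈ Src, x ∈ WU g α
  H_notWU : ∀ α ∈ Src, ∀ x ∈ H, x ∉ WU g α
  S1_WS : ∀ x ∈ H, x ∉ range π → (∃ k > 0, fw g k x = x) → WU g x \ {x} ⊆ range π →
    ∀ y ∈ WS g x, y ∈ S1
  H_WU : ∀ x ∈ H, ∀ y ∈ WU g x, y ∈ S1 → y ∈ H
  Om_closed : IsClosed Om
  Om_fw : ∀ x y, MapClusterPt y atTop (fun n : ℕ => fw g n x) → y ∈ Om
  Om_bk : ∀ x y, MapClusterPt y atTop (fun n : ℕ => bk g n x) → y ∈ Om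
  Om_S1 : Om ∩ S1 ⊆ H
  Om_loc : ∀ y ∈ Om ∩ S1, ∀ᶠ q in 𝓝 y, q ∈ Om → q ∈ S1
  Om_per : ∀ y ∈ Om, ∀ ε > 0, ∃ q, dist y q < ε ∧ ∃ k > 0, fw g k q = q
  /- hyperbolicity of `H` -/
  εH : ℝ
  εH_pos : 0 < εH
  H_exp : ∀ x ∈ H, ∀ y, y ∈ WSl g εH x → y ∈ WUl g εH x → y = x
  H_u : ∀ x ∈ H, ∀ y ∈ WUl g εH x, dist (g.symm x) (g.symm y) ≤ dist x y / 2
  H_s : ∀ x ∈ H, ∀ y ∈ WSl g εH x, dist (g x) (g y) ≤ dist x y / 2
  H_lps : ∀ ε > 0, ∃ δ > 0, ∀ x ∈ H, ∀ y ∈ H, dist x y < δ → ∃ z, z ∈ WSl g ε x ∧ z ∈ WUl g ε y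
  H_exh : ∀ x ∈ H, Exh m g x
  /-- unstable plaques of `H` inside the basin are local cross sections of the stable flow -/
  CSH1 : ∀ K ⊆ H ∩ range π, IsCompact K → ∃ δ > 0, ∀ b ∈ K, ∀ y : X, ∀ t : ℝ, |t| ≤ δ →
    π y ∈ WUl g εH b → π (φ t y) ∈ WUl g εH b → t = 0
  CSH2 : ∀ K ⊆ H ∩ range π, IsCompact K → ∀ ε > 0, ∃ r > 0, ∀ b ∈ K, ∀ y : X,
    dist b (π y) < r → ∃ t : ℝ, |t| ≤ ε ∧ π (φ t y) ∈ WUl g ε b
  /-- the orientation double cover is trivial over simply connected spaces mapping to `S1` -/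
  ylift : ∀ (A : Type) [TopologicalSpace A] [SimplyConnectedSpace A]
    [LocallyPathConnectedSpace A] (c : C(A, M)), (∀ a, c a ∈ S1) →
      ∃ o : {a // c a ∈ range π} → X, Continuous o ∧ ∀ a, π (o a) = c a.1

namespace AF
variable {m : ℕ} {X M : Type} [MetricSpace X] [MetricSpace M] (A : AF m X M)

/-- the punctured leaf of `p` -/
abbrev Pt (p : X) : Type := {z : ULeaf A.F p // z.val ≠ p}
/-- the other end of the gap, with reversed orientation -/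
noncomputable def io (z : X) : X := A.σ (A.φ (A.G z) z)
end AF

namespace SD
variable {m : ℕ} {X M : Type} [MetricSpace X] [MetricSpace M] [CompactSpace M] (S : SD m X M)

/-- the attractor in `M` -/
def L : Set M := S.π '' S.Λ
/-- the basin -/
def B : Set M := range S.π

/-- A section over the punctured leaf of the separatrix point `p` of the gap arcs, with values in
the unstable leaf of `q`. -/
structure Sec (p : X) (q : M) where
  s : S.Pt p → ℝ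
  y : S.Pt p → ULeaf S.g q
  cs : Continuous s
  cy : Continuous y
  pos : ∀ z, 0 < s z
  lt : ∀ z, s z < S.G z.1.val
  eq : ∀ z, (y z).val = S.π (S.φ (s z) z.1.val)

/-- periodic points of index 1 above `Λ` whose punctured unstable manifold is in the basin -/
def Q : Set M := {q | q ∈ S.H ∧ q ∉ S.B ∧ (∃ k > 0, fw S.g k q = q) ∧ WU S.g q \ {q} ⊆ S.B}
/-- basin plus stable manifolds of `Q` -/
def Bp : Set M := S.B ∪ {x | ∃ q ∈ S.Q, x ∈ WS S.g q}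

end SD

end Pool.MP85
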