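import Pool.Agent.Lib.MP_85e637_an.AbsB

/-!
# Layer C, definitions: cocycles, embedded C¹ systems, good systems
-/

open Filter Topology Set Metric Module

namespace Pool.MP85

/-- ambient Euclidean space -/
abbrev EE (N : ℕ) : Type := EuclideanSpace ℝ (Fin N)

/-- Linear cocycle over a homeomorphism with values in a continuous field of subspaces
`T x = range (P x)` of a Euclidean space (`P x` orthogonal projection, `A x : T x → T (f x)`
invertible with inverse `A' x`; all maps are extended by `0` on `(T x)ᗮ`). -/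
structure Coc (N : ℕ) (K : Type) [MetricSpace K] where
  f : K ≃ₜ K
  P : K → EE N →L[ℝ] EE N
  A : K → EE N →L[ℝ] EE N
  A' : K → EE N →L[ℝ] EE N
  contP : Continuous P
  contA : Continuous A
  contA' : Continuous A'
  PP : ∀ x, P x ∘L P x = P x
  Psa : ∀ x v w, inner ℝ (P x v) w = inner ℝ v (P x w)
  AP : ∀ x, A x ∘L P x = A x
  PA : ∀ x, P (f x) ∘L A x = A x
  A'P : ∀ x, A' x ∘L P (f x) = A' x
  PA' : ∀ x, P x ∘L A' x = A' x
  A'A : ∀ x, A' x ∘L A x = P x
  AA' : ∀ x, A x ∘L A' x = P (f x)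

namespace Coc
variable {N : ℕ} {K : Type} [MetricSpace K] (C : Coc N K)

/-- the fibre -/
noncomputable def T (x : K) : Submodule ℝ (EE N) := LinearMap.range (C.P x : EE N →ₗ[ℝ] EE N)

/-- iterates of the cocycle: `An n x : T x → T (fⁿ x)` -/
noncomputable def An : ℕ → K → EE N →L[ℝ] EE N
  | 0, x => C.P x
  | n + 1, x => An n (C.f x) ∘L C.A x

/-- the inverse cocycle -/
def symm : Coc N K where
  f := C.f.symm
  P := C.P
  A := fun x => C.A' (C.f.symm x)
  A' := fun x => C.A (C.f.symm x)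
  contP := C.contP
  contA := C.contA'.comp C.f.symm.continuous
  contA' := C.contA.comp C.f.symm.continuous
  PP := C.PP
  Psa := C.Psa
  AP := fun x => by have := C.A'P (C.f.symm x); simpa using this
  PA := fun x => by have := C.PA' (C.f.symm x); simpa using this
  A'P := fun x => by have := C.AP (C.f.symm x); simpa using this
  PA' := fun x => by have := C.PA (C.f.symm x); simpa using this
  A'A := fun x => by have := C.AA' (C.f.symm x); simpa using this
  AA' := fun x => by have := C.A'A (C.f.symm x); simpa using this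

/-- vectors contracted to zero in the future: for a diffeomorphism, `Es x = T_x W^s(x)` -/
noncomputable def Es (x : K) : Submodule ℝ (EE N) where
  carrier := {v | C.P x v = v ∧ Tendsto (fun n => ‖C.An n x v‖) atTop (𝓝 0)}
  add_mem' := by
    rintro v w ⟨h1, h2⟩ ⟨h3, h4⟩
    refine ⟨by rw [map_add, h1, h3], squeeze_zero (fun n => norm_nonneg _) (fun n => ?_)
      (by simpa using h2.add h4)⟩
    rw [map_add]; exact norm_add_le _ _
  zero_mem' := by simp
  smul_mem' := by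
    rintro c v ⟨h1, h2⟩
    refine ⟨by rw [map_smul, h1], ?_⟩
    have : (fun n => ‖C.An n x (c • v)‖) = fun n => ‖c‖ * ‖C.An n x v‖ := by
      funext n; rw [map_smul, norm_smul]
    rw [this]; simpa using h2.const_mul ‖c‖

/-- vectors contracted to zero in the past -/
noncomputable def Eu (x : K) : Submodule ℝ (EE N) := C.symm.Es x

/-- vectors with bounded forward orbit -/
noncomputable def Fb (x : K) : Submodule ℝ (EE N) where
  carrier := {v | C.P x v = v ∧ ∃ c, ∀ n, ‖C.An n x v‖ ≤ c}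
  add_mem' := by
    rintro v w ⟨h1, c, h2⟩ ⟨h3, c', h4⟩
    refine ⟨by rw [map_add, h1, h3], c + c', fun n => ?_⟩
    rw [map_add]; exact (norm_add_le _ _).trans (add_le_add (h2 n) (h4 n))
  zero_mem' := ⟨by simp, 0, by simp⟩
  smul_mem' := by
    rintro c v ⟨h1, b, h2⟩
    refine ⟨by rw [map_smul, h1], ‖c‖ * b, fun n => ?_⟩
    rw [map_smul, norm_smul]; exact mul_le_mul_of_nonneg_left (h2 n) (norm_nonneg _)

lemma adjP (x : K) : ContinuousLinearMap.adjoint (C.P x) = C.P x := by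
  refine ContinuousLinearMap.ext fun v => ?_
  refine ext_inner_right ℝ fun w => ?_
  rw [ContinuousLinearMap.adjoint_inner_left, C.Psa]

/-- the dual cocycle `ξ ↦ (A⁻¹)ᵀ ξ` -/
noncomputable def dual : Coc N K where
  f := C.f
  P := C.P
  A := fun x => ContinuousLinearMap.adjoint (C.A' x)
  A' := fun x => ContinuousLinearMap.adjoint (C.A x)
  contP := C.contP
  contA := (ContinuousLinearMap.adjoint (𝕜 := ℝ) (E := EE N) (F := EE N)).continuous.comp C.contA'
  contA' := (ContinuousLinearMap.adjoint (𝕜 := ℝ) (E := EE N) (F := EE N)).continuous.comp C.contA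
  PP := C.PP
  Psa := C.Psa
  AP := fun x => by
    conv_lhs => rw [← C.adjP x, ← ContinuousLinearMap.adjoint_comp, C.PA']
  PA := fun x => by
    conv_lhs => rw [← C.adjP (C.f x), ← ContinuousLinearMap.adjoint_comp, C.A'P]
  A'P := fun x => by
    conv_lhs => rw [← C.adjP (C.f x), ← ContinuousLinearMap.adjoint_comp, C.PA]
  PA' := fun x => by
    conv_lhs => rw [← C.adjP x, ← ContinuousLinearMap.adjoint_comp, C.AP]
  A'A := fun x => by rw [← ContinuousLinearMap.adjoint_comp, C.A'A, C.adjP]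
  AA' := fun x => by rw [← ContinuousLinearMap.adjoint_comp, C.AA', C.adjP]

/-- powers of the cocycle over a homeomorphism, as functions -/
noncomputable def spec (x : K) : ℕ := finrank ℝ (C.Es x)

end Coc

/-- A compact system of class `C¹` embedded in a Euclidean space, together with its derivative
cocycle. `d` is the dimension. The three conditions say: `K` is uniformly close to its tangent
spaces (`flat`), is a manifold without boundary (`surj`), and `f` is uniformly strictly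
differentiable with derivative `A` (`diff`). -/
structure ESys (d N : ℕ) (K : Type) [MetricSpace K] [CompactSpace K] extends Coc N K where
  e : K → EE N
  e_isom : ∀ x y, ‖e x - e y‖ = dist x y
  rankP : ∀ x, finrank ℝ (toCoc.T x) = d
  flat : ∀ η > 0, ∃ ρ > 0, ∀ x y y', dist x y < ρ → dist x y' < ρ →
    ‖(e y - e y') - P x (e y - e y')‖ ≤ η * dist y y'
  surj : ∃ ρ > 0, ∀ x v, P x v = v → ‖v‖ ≤ ρ → ∃ y, P x (e y - e x) = v ∧ dist x y ≤ 2 * ‖v‖
  diff : ∀ η > 0, ∃ ρ > 0, ∀ x y y', dist x y < ρ → dist x y' < ρ →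
    ‖(e (f y) - e (f y')) - A x (e y - e y')‖ ≤ η * dist y y'

/-- Axiom A in the embedded setting (`Om` = nonwandering set). -/
structure BSys (d N : ℕ) (K : Type) [MetricSpace K] [CompactSpace K] extends ESys d N K where
  Om : Set K
  Om_closed : IsClosed Om
  Om_inv : ∀ x, f x ∈ Om ↔ x ∈ Om
  Om_fw : ∀ x y, MapClusterPt y atTop (fun n : ℕ => fw f n x) → y ∈ Om
  Om_bk : ∀ x y, MapClusterPt y atTop (fun n : ℕ => bk f n x) → y ∈ Om
  Om_per : ∀ y ∈ Om, ∀ ε > 0, ∃ q, dist y q < ε ∧ ∃ k > 0, fw f k q = q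
  /-- uniform hyperbolicity on `Om` -/
  hyp : ∃ (c lam : ℝ), 0 < lam ∧ lam < 1 ∧ ∀ x ∈ Om,
    (∀ v ∈ toCoc.Es x, ∀ n, ‖toCoc.An n x v‖ ≤ c * lam ^ n * ‖v‖) ∧
    (∀ v ∈ toCoc.Eu x, ∀ n, ‖toCoc.symm.An n x v‖ ≤ c * lam ^ n * ‖v‖)
  split : ∀ x ∈ Om, toCoc.Es x ⊔ toCoc.Eu x = toCoc.T x ∧ Disjoint (toCoc.Es x) (toCoc.Eu x)
  /-- points outside `Om` are wandering -/
  wand : ∀ x, x ∉ Om → ∃ ε > 0, ∀ n > 0, ∀ y, dist x y < ε → ε ≤ dist x (fw f n y)

/-- A good system: the linear theory has been done and `f` has been replaced by a power.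
`R` is the compact invariant set on which strong transversality is known. -/
structure GSys (d N : ℕ) (K : Type) [MetricSpace K] [CompactSpace K] extends ESys d N K where
  R : Set K
  R_closed : IsClosed R
  R_inv : ∀ x, f x ∈ R ↔ x ∈ R
  Om : Set K
  Om_R : Om ⊆ R
  Om_closed : IsClosed Om
  Om_inv : ∀ x, f x ∈ Om ↔ x ∈ Om
  Om_fw : ∀ x y, MapClusterPt y atTop (fun n : ℕ => fw f n x) → y ∈ Om
  Om_bk : ∀ x y, MapClusterPt y atTop (fun n : ℕ => bk f n x) → y ∈ Om
  Om_per : ∀ y ∈ Om, ∀ ε > 0, ∃ q, dist y q < ε ∧ ∃ k > 0, fw f k q = q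
  Om_dim : ∀ x ∈ Om, finrank ℝ (toCoc.Es x) + finrank ℝ (toCoc.Eu x) = d
  trans : ∀ x ∈ R, toCoc.T x ≤ toCoc.Es x ⊔ toCoc.Eu x
  /-- indices are constant along asymptotic behaviour -/
  dim_fw : ∀ x y, MapClusterPt y atTop (fun n : ℕ => fw f n x) →
    finrank ℝ (toCoc.Es x) = finrank ℝ (toCoc.Es y)
  dim_bk : ∀ x y, MapClusterPt y atTop (fun n : ℕ => bk f n x) →
    finrank ℝ (toCoc.Eu x) = finrank ℝ (toCoc.Eu y)
  /-- the annihilators of the stable spaces form a closed set over `R` -/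
  closed_s : IsClosed {q : K × EE N | q.1 ∈ R ∧ q.2 ∈ toCoc.T q.1 ∧
    ∀ v ∈ toCoc.Es q.1, inner ℝ q.2 v = 0}
  closed_u : IsClosed {q : K × EE N | q.1 ∈ R ∧ q.2 ∈ toCoc.T q.1 ∧
    ∀ v ∈ toCoc.Eu q.1, inner ℝ q.2 v = 0}
  /-- expansion of `T / Es` under `f`, and of `T / Eu` under `f⁻¹`, over `R` -/
  exp_s : ∀ x ∈ R, ∀ v ∈ toCoc.T x,
    16 * infDist v (toCoc.Es x) ≤ infDist (A x v) (toCoc.Es (f x))
  exp_u : ∀ x ∈ R, ∀ v ∈ toCoc.T x,
    16 * infDist v (toCoc.Eu x) ≤ infDist (A' (f.symm x) v) (toCoc.Eu (f.symm x))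
  /-- contraction of `Es` and `Eu` at the points of `R` with complementary dimensions `1, d - 1` -/
  con_s : ∀ x ∈ R, finrank ℝ (toCoc.Es x) = 1 → finrank ℝ (toCoc.Eu x) + 1 = d →
    ∀ v ∈ toCoc.Es x, 16 * ‖A x v‖ ≤ ‖v‖
  con_u : ∀ x ∈ R, finrank ℝ (toCoc.Es x) = 1 → finrank ℝ (toCoc.Eu x) + 1 = d →
    ∀ v ∈ toCoc.Eu x, 16 * ‖A' (f.symm x) v‖ ≤ ‖v‖

namespace GSys
variable {d N : ℕ} {K : Type} [MetricSpace K] [CompactSpace K] (S : GSys d N K)

/-- sources -/
def Src : Set K := {x | x ∈ S.R ∧ finrank ℝ (S.Es x) = 0}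
/-- points of `R` with one-dimensional stable manifold -/
def S1 : Set K := {x | x ∈ S.R ∧ finrank ℝ (S.Es x) = 1}
/-- the hyperbolic set of points of `R` of type `(1, d-1)` -/
def H : Set K := {x | x ∈ S.R ∧ finrank ℝ (S.Es x) = 1 ∧ finrank ℝ (S.Eu x) + 1 = d}

end GSys

/-- A good system with a good attractor `L` (all unstable leaves dense). -/
structure GAtt (d N : ℕ) (K : Type) [MetricSpace K] [CompactSpace K] extends GSys d N K where
  L : Set K
  L_cpt : IsCompact L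
  L_ne : L.Nonempty
  L_inv : ∀ x, f x ∈ L ↔ x ∈ L
  L_H : L ⊆ toGSys.H
  L_dense : ∀ x ∈ L, L ⊆ closure (WU f x)
  B_open : IsOpen {x | Tendsto (fun n => infDist (fw f n x) L) atTop (𝓝 0)}
  /-- strong transversality is known on the closure of the basin -/
  B_R : {x | Tendsto (fun n => infDist (fw f n x) L) atTop (𝓝 0)} ⊆ R
  attrK : ∀ C ⊆ {x | Tendsto (fun n => infDist (fw f n x) L) atTop (𝓝 0)}, IsCompact C →
    ∀ ε > 0, ∃ n0, ∀ n ≥ n0, ∀ x ∈ C, infDist (fw f n x) L < ε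
  repL : ∀ x, Tendsto (fun n => infDist (bk f n x) L) atTop (𝓝 0) → x ∈ L
  /-- trapping neighbourhoods -/
  trap : ∀ ε > 0, ∃ U : Set K, IsOpen U ∧ L ⊆ U ∧ (∀ x ∈ U, infDist x L < ε) ∧
    (∀ x ∈ closure U, f x ∈ U)

namespace GAtt
variable {d N : ℕ} {K : Type} [MetricSpace K] [CompactSpace K] (S : GAtt d N K)

/-- the basin -/
def B : Set K := {x | Tendsto (fun n => infDist (fw S.f n x) S.L) atTop (𝓝 0)}

/-- orientation double cover of the basin: a point and a unit vector of its stable line -/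
def X : Type := {q : K × EE N // q.1 ∈ S.B ∧ q.2 ∈ S.Es q.1 ∧ ‖q.2‖ = 1}
noncomputable instance : MetricSpace S.X :=
  inferInstanceAs (MetricSpace {q : K × EE N // q.1 ∈ S.B ∧ q.2 ∈ S.Es q.1 ∧ ‖q.2‖ = 1})

/-- base point -/
def pt (x : S.X) : K := x.1.1
/-- direction -/
def dir (x : S.X) : EE N := x.1.2

/-- The speed of the flow: Lipschitz, positive exactly on the basin, `1` near `L`. -/
structure Speed where
  ρ : K → ℝ
  lip : ∃ c, ∀ x y, |ρ x - ρ y| ≤ c * dist x y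
  nonneg : ∀ x, 0 ≤ ρ x
  le_one : ∀ x, ρ x ≤ 1
  pos_iff : ∀ x, 0 < ρ x ↔ x ∈ S.B
  U : Set K
  U_open : IsOpen U
  L_U : S.L ⊆ U
  U_trap : ∀ x ∈ closure U, S.f x ∈ U
  one : ∀ x ∈ U, ρ x = 1
  /-- `Es` is contracted by `1/8` on `closure U` -/
  con : ∀ x ∈ closure U, ∀ v ∈ S.Es x, 8 * ‖S.A x v‖ ≤ ‖v‖
  U_B : closure U ⊆ S.B

/-- `γ` solves the stable flow equation on the open set of times `I` -/
def IsSol (R : S.Speed) (γ : ℝ → S.X) (I : Set ℝ) : Prop :=
  ContinuousOn γ I ∧ ∀ t ∈ I, HasDerivAt (fun s => S.e (S.pt (γ s))) (R.ρ (S.pt (γ t)) • S.dir (γ t)) t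

end GAtt

/-- A bundle `V` over the forward invariant compact set `R`, contracted by `f`, with `T / V`
expanded. -/
structure CB {d N : ℕ} {K : Type} [MetricSpace K] [CompactSpace K] (S : ESys d N K)
    (R : Set K) (V : K → Submodule ℝ (EE N)) (k : ℕ) : Prop where
  cpt : IsCompact R
  inv : ∀ x ∈ R, S.f x ∈ R
  le : ∀ x ∈ R, V x ≤ S.T x
  rank : ∀ x ∈ R, finrank ℝ (V x) = k
  /-- closed graph -/
  closed : ∀ (x : ℕ → K) (v : ℕ → EE N) (x0 : K) (v0 : EE N), (∀ n, x n ∈ R) →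
    (∀ n, v n ∈ V (x n)) → Tendsto x atTop (𝓝 x0) → Tendsto v atTop (𝓝 v0) → v0 ∈ V x0
  map : ∀ x ∈ R, ∀ v ∈ V x, S.A x v ∈ V (S.f x)
  con : ∀ x ∈ R, ∀ v ∈ V x, 8 * ‖S.A x v‖ ≤ ‖v‖
  exp : ∀ x ∈ R, ∀ v ∈ S.T x, 8 * infDist v (V x) ≤ infDist (S.A x v) (V (S.f x))

end Pool.MP85
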