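import Pool.Agent.Lib.MP_85e637_an.AbsC

/-!
# Layer C, part 2, definitions: lifted maps and the stable flow
-/

open Filter Topology Set Metric Module

namespace Pool.MP85
namespace GAtt
variable {d N : ℕ} {K : Type} [MetricSpace K] [CompactSpace K] (S : GAtt d N K)

/-- lift of `f` and deck involution on the orientation double cover -/
structure XData where
  F : S.X ≃ₜ S.X
  σ : S.X ≃ₜ S.X
  pt_F : ∀ x, S.pt (F x) = S.f (S.pt x)
  dir_F : ∀ x, ‖S.A (S.pt x) (S.dir x)‖ • S.dir (F x) = S.A (S.pt x) (S.dir x)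
  pt_σ : ∀ x, S.pt (σ x) = S.pt x
  dir_σ : ∀ x, S.dir (σ x) = - S.dir x

/-- the stable flow -/
structure Flow (R : S.Speed) where
  φ : ℝ → S.X → S.X
  cont : Continuous fun q : ℝ × S.X => φ q.1 q.2
  zero : ∀ x, φ 0 x = x
  add : ∀ s t x, φ (s + t) x = φ s (φ t x)
  sol : ∀ x, S.IsSol R (fun t => φ t x) univ
  uniq : ∀ (γ : ℝ → S.X) (a b : ℝ), a < 0 → 0 < b → S.IsSol R γ (Ioo a b) →
    ∀ t ∈ Ioo a b, γ t = φ t (γ 0)

/-- the lifted attractor -/
def LX : Set S.X := {x | S.pt x ∈ S.L}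

end GAtt
end Pool.MP85
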