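import Mathlib

/-!
# B02a: simple connectivity of unions, of `ℝ^m` minus a point
-/

open Filter Topology Set Metric

namespace Pool.MP85

section B02a

/-- two paths inside a simply connected subset are homotopic -/
theorem B02a_hom {Y : Type} [TopologicalSpace Y] {U : Set Y} (hU : SimplyConnectedSpace U)
    {x y : Y} (p q : Path x y) (hp : ∀ t, p t ∈ U) (hq : ∀ t, q t ∈ U) : p.Homotopic q := by
  have hx : x ∈ U := by simpa using hp 0
  have hy : y ∈ U := by simpa using hp 1
  let p' : Path (⟨x, hx⟩ : U) ⟨y, hy⟩ :=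
    { toFun := fun t => ⟨p t, hp t⟩
      continuous_toFun := by fun_prop
      source' := by simp
      target' := by simp }
  let q' : Path (⟨x, hx⟩ : U) ⟨y, hy⟩ :=
    { toFun := fun t => ⟨q t, hq t⟩
      continuous_toFun := by fun_prop
      source' := by simp
      target' := by simp }
  have h := (SimplyConnectedSpace.paths_homotopic p' q').map ⟨Subtype.val, continuous_subtype_val⟩
  exact h

/-- If there is a system of paths `ν z` from `x₀` such that `ν z · δ` is homotopic to `ν z'` for all
paths `δ` from `z` to `z'` inside `U` or inside `V`, `U`, `V` open, covering the space, then the same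
holds for all paths. -/
theorem B02a_key {Y : Type} [TopologicalSpace Y] {U V : Set Y} (hU : IsOpen U) (hV : IsOpen V)
    (hUV : U ∪ V = univ) {x₀ : Y} (ν : ∀ z, Path x₀ z)
    (h : ∀ (z z' : Y) (δ : Path z z'), ((∀ t, δ t ∈ U) ∨ (∀ t, δ t ∈ V)) →
      ((ν z).trans δ).Homotopic (ν z')) {z z' : Y} (γ : Path z z') :
    ((ν z).trans γ).Homotopic (ν z') := by
  obtain ⟨t, ht0, hmono, ⟨N, hN⟩, ht⟩ := exists_monotone_Icc_subset_open_cover_unitInterval
    (c := fun b : Bool => γ ⁻¹' (if b then U else V))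
    (fun b => by cases b <;> simp [hU.preimage γ.continuous, hV.preimage γ.continuous])
    (by
      intro s _
      have : γ s ∈ U ∪ V := by rw [hUV]; exact mem_univ _
      rcases this with h1 | h1
      · exact mem_iUnion.2 ⟨true, by simpa using h1⟩
      · exact mem_iUnion.2 ⟨false, by simpa using h1⟩)
  have key : ∀ n, ((ν (γ 0)).trans (γ.subpath 0 (t n))).Homotopic (ν (γ (t n))) := by
    intro n
    induction n with
    | zero =>
      rw [ht0, Path.subpath_self]
      exact ⟨Path.Homotopy.transRefl _⟩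
    | succ n ih =>
      have h1 : ((ν (γ (t n))).trans (γ.subpath (t n) (t (n + 1)))).Homotopic
          (ν (γ (t (n + 1)))) := by
        apply h
        obtain ⟨b, hb⟩ := ht n
        have h2 : ∀ s, (γ.subpath (t n) (t (n + 1))) s ∈ (if b then U else V) := by
          intro s
          have h3 : (γ.subpath (t n) (t (n + 1))) s ∈ range (γ.subpath (t n) (t (n + 1))) :=
            mem_range_self s
          rw [Path.range_subpath_of_le _ _ _ (hmono (Nat.le_succ n))] at h3
          obtain ⟨u, hu, hus⟩ := h3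
          rw [← hus]
          exact hb hu
        cases b
        · exact Or.inr (by simpa using h2)
        · exact Or.inl (by simpa using h2)
      have h4 : (γ.subpath 0 (t (n + 1))).Homotopic
          ((γ.subpath 0 (t n)).trans (γ.subpath (t n) (t (n + 1)))) :=
        ⟨(Path.Homotopy.subpathTransSubpath γ 0 (t n) (t (n + 1))).symm⟩
      have h5 : ((ν (γ 0)).trans (γ.subpath 0 (t (n + 1)))).Homotopic
          ((ν (γ 0)).trans ((γ.subpath 0 (t n)).trans (γ.subpath (t n) (t (n + 1))))) :=
        (Path.Homotopic.refl _).hcomp h4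
      have h6 : ((ν (γ 0)).trans ((γ.subpath 0 (t n)).trans
          (γ.subpath (t n) (t (n + 1))))).Homotopic
          (((ν (γ 0)).trans (γ.subpath 0 (t n))).trans (γ.subpath (t n) (t (n + 1)))) :=
        ⟨(Path.Homotopy.transAssoc _ _ _).symm⟩
      exact h5.trans (h6.trans ((ih.hcomp (Path.Homotopic.refl _)).trans h1))
  have h1 := key N
  rw [hN N le_rfl] at h1
  have h2 : ∀ (a b : Y) (ha : a = γ 0) (hb : b = γ 1),
      ((ν a).trans ((γ.subpath 0 1).cast ha hb)).Homotopic (ν b) := by
    intro a b ha hb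
    subst ha hb
    exact h1
  have h3 := h2 z z' γ.source.symm γ.target.symm
  have h4 : (γ.subpath 0 1).cast γ.source.symm γ.target.symm = γ := by
    rw [Path.subpath_zero_one]
    ext s
    rfl
  rw [h4] at h3
  exact h3

/-- two open simply connected subsets with path connected intersection -/
theorem B02a_union {Y : Type} [TopologicalSpace Y] {U V : Set Y} (hU : IsOpen U) (hV : IsOpen V)
    (hUV : U ∪ V = univ) (sU : SimplyConnectedSpace U) (sV : SimplyConnectedSpace V)
    (hI : IsPathConnected (U ∩ V)) : SimplyConnectedSpace Y := by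
  obtain ⟨x₀, hx₀, hx₀'⟩ := hI
  have pU : IsPathConnected U := IsSimplyConnected.isPathConnected sU
  have pV : IsPathConnected V := IsSimplyConnected.isPathConnected sV
  have hν : ∀ z : Y, ∃ p : Path x₀ z, (z ∈ U → ∀ t, p t ∈ U) ∧ (z ∈ V → ∀ t, p t ∈ V) := by
    intro z
    by_cases h1 : z ∈ U
    · by_cases h2 : z ∈ V
      · obtain ⟨p, hp⟩ := hx₀' ⟨h1, h2⟩
        exact ⟨p, fun _ t => (hp t).1, fun _ t => (hp t).2⟩
      · obtain ⟨p, hp⟩ := pU.joinedIn x₀ hx₀.1 z h1
        exact ⟨p, fun _ t => hp t, fun h => absurd h h2⟩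
    · have h2 : z ∈ V := by
        have : z ∈ U ∪ V := by rw [hUV]; exact mem_univ _
        exact this.resolve_left h1
      obtain ⟨p, hp⟩ := pV.joinedIn x₀ hx₀.2 z h2
      exact ⟨p, fun h => absurd h h1, fun _ t => hp t⟩
  choose ν hν1 hν2 using hν
  have h : ∀ (z z' : Y) (δ : Path z z'), ((∀ t, δ t ∈ U) ∨ (∀ t, δ t ∈ V)) →
      ((ν z).trans δ).Homotopic (ν z') := by
    intro z z' δ hδ
    rcases hδ with hδ | hδ
    · have hz : z ∈ U := by simpa using hδ 0
      have hz' : z' ∈ U := by simpa using hδ 1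
      refine B02a_hom sU _ _ ?_ (hν1 z' hz')
      intro t
      rw [Path.trans_apply]
      split_ifs
      · exact hν1 z hz _
      · exact hδ _
    · have hz : z ∈ V := by simpa using hδ 0
      have hz' : z' ∈ V := by simpa using hδ 1
      refine B02a_hom sV _ _ ?_ (hν2 z' hz')
      intro t
      rw [Path.trans_apply]
      split_ifs
      · exact hν2 z hz _
      · exact hδ _
  have key := fun (z z' : Y) (γ : Path z z') => B02a_key hU hV hUV ν h γ
  rw [simply_connected_iff_paths_homotopic']
  refine ⟨⟨⟨x₀⟩, fun z z' => ⟨(ν z).symm.trans (ν z')⟩⟩, ?_⟩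
  intro z z' p₁ p₂
  have hc : ∀ p : Path z z', p.Homotopic ((ν z).symm.trans (ν z')) := by
    intro p
    have h1 : p.Homotopic ((Path.refl z).trans p) := ⟨(Path.Homotopy.reflTrans p).symm⟩
    have h2 : (Path.refl z).Homotopic ((ν z).symm.trans (ν z)) :=
      ⟨Path.Homotopy.reflSymmTrans (ν z)⟩
    have h3 : (((ν z).symm.trans (ν z)).trans p).Homotopic
        ((ν z).symm.trans ((ν z).trans p)) := ⟨Path.Homotopy.transAssoc _ _ _⟩
    exact h1.trans ((h2.hcomp (Path.Homotopic.refl p)).trans
      (h3.trans ((Path.Homotopic.refl _).hcomp (key z z' p))))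
  exact (hc p₁).trans (hc p₂).symm

/-- `ℝ^m` minus a point is simply connected for `m ≥ 3` -/
theorem punctured_sc (m : ℕ) (hm : 3 ≤ m) :
    SimplyConnectedSpace {v : EuclideanSpace ℝ (Fin m) // v ≠ 0} := by
  let i0 : Fin m := ⟨0, by omega⟩
  let e : EuclideanSpace ℝ (Fin m) := EuclideanSpace.single i0 1
  have he : ‖e‖ = 1 := by simp [e]
  have he0 : e ≠ 0 := by
    intro h
    rw [h, norm_zero] at he
    exact zero_ne_one he
  -- the complement of the ray in direction `-c e`
  have hstar : ∀ c : ℝ, |c| = 1 → StarConvex ℝ (c • e)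
      {v : EuclideanSpace ℝ (Fin m) | v ≠ -((‖v‖ * c) • e)} := by
    intro c hc v hv a b ha hb hab hcon
    have hcc : c * c = 1 := by
      have := abs_mul_abs_self c
      rw [hc] at this
      linarith
    obtain ⟨w, hw⟩ : ∃ w, w = a • c • e + b • v := ⟨_, rfl⟩
    rw [← hw] at hcon
    -- b v = -(‖w‖ c + a c) e
    have h1 : b • v = -(((‖w‖ + a) * c) • e) := by
      have h0 : b • v = w - a • c • e := by rw [hw]; abel
      obtain ⟨N, hN⟩ : ∃ N, N = ‖w‖ := ⟨_, rfl⟩
      rw [← hN] at hcon ⊢
      rw [h0, hcon, smul_smul]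
      rw [← neg_smul, ← neg_smul, ← sub_smul]
      congr 1
      ring
    rcases hb.eq_or_lt with hb0 | hb0
    · rw [← hb0, zero_smul] at h1
      have h2 : (‖w‖ + a) * c = 0 := by
        have h3 : ((‖w‖ + a) * c) • e = 0 := by
          rw [← neg_eq_zero]; exact h1.symm
        exact (smul_eq_zero.1 h3).resolve_right he0
      have h4 : ‖w‖ + a = 0 := by
        have hc0 : c ≠ 0 := by rintro rfl; norm_num at hcc
        exact (mul_eq_zero.1 h2).resolve_right hc0
      have := norm_nonneg w
      linarith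
    · apply hv
      have h5 : v = -((((‖w‖ + a) / b) * c) • e) := by
        have h6 : v = b⁻¹ • (b • v) := by rw [smul_smul, inv_mul_cancel₀ hb0.ne', one_smul]
        rw [h6, h1, smul_neg, smul_smul]
        congr 2
        field_simp
      have h7 : 0 ≤ (‖w‖ + a) / b := by positivity
      have h8 : ‖v‖ = (‖w‖ + a) / b := by
        rw [h5, norm_neg, norm_smul, he, mul_one, norm_mul, Real.norm_eq_abs, Real.norm_eq_abs,
          hc, mul_one, abs_of_nonneg h7]
      rw [h8]
      exact h5
  have hmem : ∀ c : ℝ, |c| = 1 → c • e ∈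
      {v : EuclideanSpace ℝ (Fin m) | v ≠ -((‖v‖ * c) • e)} := by
    intro c hc hcon
    rw [norm_smul, he, mul_one, Real.norm_eq_abs, hc, one_mul] at hcon
    have h1 : (c + c) • e = 0 := by
      rw [add_smul]
      nth_rw 1 [hcon]
      exact neg_add_cancel _
    have h2 := (smul_eq_zero.1 h1).resolve_right he0
    have h3 : c = 0 := by linarith
    rw [h3, abs_zero] at hc
    exact zero_ne_one hc
  have hsc : ∀ c : ℝ, |c| = 1 → IsSimplyConnected
      {v : EuclideanSpace ℝ (Fin m) | v ≠ -((‖v‖ * c) • e)} := by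
    intro c hc
    have := (hstar c hc).contractibleSpace ⟨_, hmem c hc⟩
    exact SimplyConnectedSpace.ofContractible _
  have hopen : ∀ c : ℝ, IsOpen {v : EuclideanSpace ℝ (Fin m) | v ≠ -((‖v‖ * c) • e)} := by
    intro c
    exact isOpen_ne_fun (by fun_prop) (by fun_prop)
  have hne : ∀ c : ℝ, {v : EuclideanSpace ℝ (Fin m) | v ≠ -((‖v‖ * c) • e)} ⊆ {v | v ≠ 0} := by
    intro c v hv hv0
    apply hv
    rw [hv0]
    simp
  let Y := {v : EuclideanSpace ℝ (Fin m) // v ≠ 0}
  have himg : ∀ A : Set (EuclideanSpace ℝ (Fin m)), A ⊆ {v | v ≠ 0} →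
      (Subtype.val : Y → _) '' ((Subtype.val : Y → _) ⁻¹' A) = A := by
    intro A hA
    ext v
    constructor
    · rintro ⟨w, hw, rfl⟩
      exact hw
    · intro hv
      exact ⟨⟨v, hA hv⟩, hv, rfl⟩
  refine B02a_union (U := (Subtype.val : Y → _) ⁻¹' {v | v ≠ -((‖v‖ * 1) • e)})
    (V := (Subtype.val : Y → _) ⁻¹' {v | v ≠ -((‖v‖ * (-1)) • e)})
    ((hopen 1).preimage continuous_subtype_val) ((hopen (-1)).preimage continuous_subtype_val)
    ?_ ?_ ?_ ?_
  · rw [eq_univ_iff_forall]
    intro v
    by_contra hcon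
    rw [mem_union, not_or] at hcon
    obtain ⟨h1, h2⟩ := hcon
    rw [mem_preimage, mem_ofPred_eq, not_not] at h1 h2
    apply v.2
    have h3 : (2 : ℝ) • (v : EuclideanSpace ℝ (Fin m)) = 0 := by
      rw [two_smul]
      nth_rw 1 [h1]
      nth_rw 2 [h2]
      rw [← neg_smul, ← neg_smul, ← add_smul]
      have : -(‖v.1‖ * 1) + -(‖v.1‖ * -1) = 0 := by ring
      rw [this, zero_smul]
    exact (smul_eq_zero.1 h3).resolve_left two_ne_zero
  · have h1 := hsc 1 (by simp)
    rw [← himg _ (hne 1)] at h1
    exact (Topology.IsEmbedding.subtypeVal.isSimplyConnected_image).1 h1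
  · have h1 := hsc (-1) (by simp)
    rw [← himg _ (hne (-1))] at h1
    exact (Topology.IsEmbedding.subtypeVal.isSimplyConnected_image).1 h1
  · rw [← preimage_inter]
    have himg' := himg _ (inter_subset_left.trans (hne 1) :
      {v : EuclideanSpace ℝ (Fin m) | v ≠ -((‖v‖ * 1) • e)} ∩
        {v | v ≠ -((‖v‖ * (-1)) • e)} ⊆ {v | v ≠ 0})
    suffices hpc : IsPathConnected ({v : EuclideanSpace ℝ (Fin m) | v ≠ -((‖v‖ * 1) • e)} ∩
        {v | v ≠ -((‖v‖ * (-1)) • e)}) by
      rw [← himg'] at hpc
      exact (Topology.IsInducing.subtypeVal.isPathConnected_iff).2 hpc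
    have hspan : {v : EuclideanSpace ℝ (Fin m) | v ≠ -((‖v‖ * 1) • e)} ∩
        {v | v ≠ -((‖v‖ * (-1)) • e)} =
        ((Submodule.span ℝ {e} : Submodule ℝ (EuclideanSpace ℝ (Fin m))) : Set _)ᶜ := by
      ext v
      simp only [mem_inter_iff, mem_ofPred_eq, mem_compl_iff, SetLike.mem_coe,
        Submodule.mem_span_singleton]
      constructor
      · rintro ⟨h1, h2⟩ ⟨c, hc⟩
        have h3 : ‖v‖ = |c| := by rw [← hc, norm_smul, he, mul_one, Real.norm_eq_abs]
        rcases le_total 0 c with h4 | h4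
        · apply h2
          rw [h3, abs_of_nonneg h4, ← hc, ← neg_smul]
          congr 1; ring
        · apply h1
          rw [h3, abs_of_nonpos h4, ← hc, ← neg_smul]
          congr 1; ring
      · intro h
        constructor
        · intro h1
          exact h ⟨-(‖v‖ * 1), by rw [neg_smul]; exact h1.symm⟩
        · intro h1
          exact h ⟨-(‖v‖ * (-1)), by rw [neg_smul]; exact h1.symm⟩
    rw [hspan]
    apply isPathConnected_compl_of_one_lt_codim
    have h1 : Module.finrank ℝ (EuclideanSpace ℝ (Fin m) ⧸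
        (Submodule.span ℝ {e} : Submodule ℝ (EuclideanSpace ℝ (Fin m)))) + 1 = m := by
      have h2 := Submodule.finrank_quotient_add_finrank
        (Submodule.span ℝ {e} : Submodule ℝ (EuclideanSpace ℝ (Fin m)))
      rw [finrank_span_singleton he0, finrank_euclideanSpace_fin] at h2
      exact h2
    rw [← Module.finrank_eq_rank]
    have : 1 < Module.finrank ℝ (EuclideanSpace ℝ (Fin m) ⧸
        (Submodule.span ℝ {e} : Submodule ℝ (EuclideanSpace ℝ (Fin m)))) := by omega
    exact_mod_cast this

/-- an increasing union of open simply connected pieces is simply connected -/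
theorem union_sc {Y : Type} [TopologicalSpace Y] [Nonempty Y] (V : ℕ → Set Y)
    (hV : ∀ n, IsOpen (V n)) (hmono : Monotone V) (hun : (⋃ n, V n) = univ)
    (hsc : ∀ n, (V n).Nonempty → SimplyConnectedSpace (V n)) : SimplyConnectedSpace Y := by
  have hmem : ∀ x : Y, ∃ n, x ∈ V n := by
    intro x
    have : x ∈ ⋃ n, V n := by rw [hun]; exact mem_univ _
    exact mem_iUnion.1 this
  have hpath : ∀ {x y : Y} (p : Path x y), ∃ n, ∀ t, p t ∈ V n := by
    intro x y p
    obtain ⟨n, hn⟩ := isCompact_univ.elim_directed_cover (fun n => p ⁻¹' (V n))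
      (fun n => (hV n).preimage p.continuous)
      (by
        intro t _
        obtain ⟨n, hn⟩ := hmem (p t)
        exact mem_iUnion.2 ⟨n, hn⟩)
      (directed_of_isDirected_le fun i j hij => preimage_mono (hmono hij))
    exact ⟨n, fun t => hn (mem_univ t)⟩
  rw [simply_connected_iff_paths_homotopic']
  refine ⟨⟨inferInstance, ?_⟩, ?_⟩
  · intro x y
    obtain ⟨n, hn⟩ := hmem x
    obtain ⟨k, hk⟩ := hmem y
    have h1 : x ∈ V (max n k) := hmono (le_max_left _ _) hn
    have h2 : y ∈ V (max n k) := hmono (le_max_right _ _) hk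
    have h3 : IsPathConnected (V (max n k)) :=
      IsSimplyConnected.isPathConnected (hsc _ ⟨x, h1⟩)
    exact (h3.joinedIn x h1 y h2).joined
  · intro x y p₁ p₂
    obtain ⟨n, hn⟩ := hpath p₁
    obtain ⟨k, hk⟩ := hpath p₂
    exact B02a_hom (hsc (max n k) ⟨_, hmono (le_max_left _ _) (hn 0)⟩) p₁ p₂
      (fun t => hmono (le_max_left _ _) (hn t)) (fun t => hmono (le_max_right _ _) (hk t))

end B02a

end Pool.MP85
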