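import Pool.Agent.Lib.MP_85e637_an.Abs
import Pool.Agent.Lib.MP_85e637_an.B02a

/-!
# B02b: punctured leaves, one-endedness, noncompactness, perfectness
-/

open Filter Topology Set Metric

namespace Pool.MP85

section B02bGeneral
variable {Z : Type} [MetricSpace Z] {F : Z ≃ₜ Z} {x : Z} {m : ℕ}

/-- the cell `ψ n` punctured at `p`, as an open embedding into the punctured leaf -/
def B02b_f (ψ : EuclideanSpace ℝ (Fin m) → ULeaf F x) (p : Z) :
    {e : EuclideanSpace ℝ (Fin m) // (ψ e).val ≠ p} → {y : ULeaf F x // y.val ≠ p} :=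
  fun e => ⟨ψ e.1, e.2⟩

theorem B02b_f_emb {ψ : EuclideanSpace ℝ (Fin m) → ULeaf F x} (hψ : IsOpenEmbedding ψ) (p : Z) :
    IsOpenEmbedding (B02b_f ψ p) := by
  have hopen : IsOpen {y : ULeaf F x | y.val ≠ p} :=
    isOpen_ne_fun ULeaf.continuous_val continuous_const
  have h1 : IsOpenEmbedding
      (fun e : {e : EuclideanSpace ℝ (Fin m) // (ψ e).val ≠ p} => ψ e.1) :=
    hψ.comp (hopen.preimage hψ.continuous).isOpenEmbedding_subtypeVal
  refine IsOpenEmbedding.of_comp _ hopen.isOpenEmbedding_subtypeVal ?_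
  exact h1

/-- the domain of the punctured cell is either everything or the complement of a point -/
theorem B02b_dom_sc (hsc : SimplyConnectedSpace {v : EuclideanSpace ℝ (Fin m) // v ≠ 0})
    {ψ : EuclideanSpace ℝ (Fin m) → ULeaf F x} (hψ : IsOpenEmbedding ψ) (p : Z) :
    SimplyConnectedSpace {e : EuclideanSpace ℝ (Fin m) // (ψ e).val ≠ p} := by
  by_cases hp : ∃ e0, (ψ e0).val = p
  · obtain ⟨e0, he0⟩ := hp
    have hiff : ∀ e, (ψ e).val ≠ p ↔ e - e0 ≠ 0 := by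
      intro e
      rw [sub_ne_zero, not_iff_not, ← he0]
      constructor
      · intro h
        exact hψ.injective (ULeaf.val_injective h)
      · rintro rfl; rfl
    let eq : {e : EuclideanSpace ℝ (Fin m) // (ψ e).val ≠ p} ≃ₜ
        {v : EuclideanSpace ℝ (Fin m) // v ≠ 0} :=
      { toFun := fun e => ⟨e.1 - e0, (hiff e.1).1 e.2⟩
        invFun := fun v => ⟨v.1 + e0, (hiff _).2 (by simpa using v.2)⟩
        left_inv := fun e => by simp
        right_inv := fun v => by simp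
        continuous_toFun := by fun_prop
        continuous_invFun := by fun_prop }
    exact eq.toHomotopyEquiv.simplyConnectedSpace
  · push Not at hp
    let eq : {e : EuclideanSpace ℝ (Fin m) // (ψ e).val ≠ p} ≃ₜ
        EuclideanSpace ℝ (Fin m) :=
      { toFun := fun e => e.1
        invFun := fun v => ⟨v, hp v⟩
        left_inv := fun e => by simp
        right_inv := fun v => by simp
        continuous_toFun := by fun_prop
        continuous_invFun := by fun_prop }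
    exact eq.toHomotopyEquiv.simplyConnectedSpace

theorem B02b_cell {ψ : ℕ → EuclideanSpace ℝ (Fin m) → ULeaf F x}
    (h3 : (⋃ n, range (ψ n)) = univ) (y : ULeaf F x) : ∃ n e, ψ n e = y := by
  have hy : y ∈ ⋃ n, range (ψ n) := h3 ▸ mem_univ y
  obtain ⟨a, e, ha⟩ := mem_iUnion.1 hy
  exact ⟨a, e, ha⟩

theorem B02b_compact_cell {ψ : ℕ → EuclideanSpace ℝ (Fin m) → ULeaf F x}
    (h1 : ∀ n, IsOpenEmbedding (ψ n)) (h2 : ∀ n, range (ψ n) ⊆ range (ψ (n + 1)))
    (h3 : (⋃ n, range (ψ n)) = univ) {K : Set (ULeaf F x)} (hK : IsCompact K) :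
    ∃ n, K ⊆ range (ψ n) ∧ IsCompact (ψ n ⁻¹' K) := by
  have hmono : Monotone fun n => range (ψ n) := monotone_nat_of_le_succ h2
  obtain ⟨n, hn⟩ := hK.elim_directed_cover (fun n => range (ψ n))
    (fun n => (h1 n).isOpen_range) (by rw [h3]; exact subset_univ _) hmono.directed_le
  exact ⟨n, hn, ((h1 n).isInducing.isCompact_preimage_iff hn).2 hK⟩

theorem leaf_punct (hm : 3 ≤ m) (h : Exh m F x) (p : Z) :
    SimplyConnectedSpace {y : ULeaf F x // y.val ≠ p} := by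
  obtain ⟨ψ, h1, h2, h3⟩ := h
  have hsc := punctured_sc m hm
  have hmono : Monotone fun n => range (ψ n) := monotone_nat_of_le_succ h2
  have hV : ∀ n, ({y : {y : ULeaf F x // y.val ≠ p} | y.1 ∈ range (ψ n)}) =
      range (B02b_f (ψ n) p) := by
    intro n
    ext ⟨y, hy⟩
    constructor
    · rintro ⟨e, he⟩
      have he' : ψ n e = y := he
      exact ⟨⟨e, by rw [he']; exact hy⟩, Subtype.ext he'⟩
    · rintro ⟨e, he⟩
      exact ⟨e.1, congrArg Subtype.val he⟩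
  have : Nonempty {y : ULeaf F x // y.val ≠ p} := by
    have := B02b_dom_sc hsc (h1 0) p
    have : Nonempty {e : EuclideanSpace ℝ (Fin m) // (ψ 0 e).val ≠ p} :=
      PathConnectedSpace.nonempty
    obtain ⟨e⟩ := this
    exact ⟨B02b_f (ψ 0) p e⟩
  refine union_sc (fun n => {y : {y : ULeaf F x // y.val ≠ p} | y.1 ∈ range (ψ n)}) ?_ ?_ ?_ ?_
  · intro n
    rw [hV]
    exact (B02b_f_emb (h1 n) p).isOpen_range
  · intro a b hab y hy
    exact hmono hab hy
  · ext ⟨y, hy⟩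
    simp only [mem_iUnion, mem_ofPred_eq, mem_univ, iff_true]
    obtain ⟨n, e, he⟩ := B02b_cell h3 y
    exact ⟨n, e, he⟩
  · intro n _
    have := B02b_dom_sc hsc (h1 n) p
    rw [hV]
    exact (B02b_f_emb (h1 n) p).toIsEmbedding.toHomeomorph.symm.toHomotopyEquiv.simplyConnectedSpace

theorem leaf_punct_lpc (h : Exh m F x) (p : Z) :
    LocallyPathConnectedSpace {y : ULeaf F x // y.val ≠ p} := by
  obtain ⟨ψ, h1, h2, h3⟩ := h
  constructor
  rintro ⟨y, hy⟩
  obtain ⟨n, e, he⟩ := B02b_cell h3 y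
  have hy' : (ψ n e).val ≠ p := by rw [he]; exact hy
  have hf := B02b_f_emb (h1 n) p
  have hopen : IsOpen {e : EuclideanSpace ℝ (Fin m) | (ψ n e).val ≠ p} :=
    isOpen_ne_fun (ULeaf.continuous_val.comp (h1 n).continuous) continuous_const
  have : LocallyPathConnectedSpace {e : EuclideanSpace ℝ (Fin m) // (ψ n e).val ≠ p} :=
    hopen.locallyPathConnectedSpace
  have hfe : B02b_f (ψ n) p ⟨e, hy'⟩ = ⟨y, hy⟩ := Subtype.ext he
  rw [← hfe]
  rw [hasBasis_self]
  intro t ht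
  have ht' : B02b_f (ψ n) p ⁻¹' t ∈ 𝓝 (⟨e, hy'⟩ :
      {e : EuclideanSpace ℝ (Fin m) // (ψ n e).val ≠ p}) := hf.continuous.continuousAt ht
  obtain ⟨s, ⟨hs1, hs2⟩, hs3⟩ := (path_connected_basis _).mem_iff.1 ht'
  refine ⟨B02b_f (ψ n) p '' s, hf.isOpenMap.image_mem_nhds hs1, hs2.image hf.continuous, ?_⟩
  exact image_subset_iff.2 hs3

theorem B02b_rank (hm : 2 ≤ m) : 1 < Module.rank ℝ (EuclideanSpace ℝ (Fin m)) := by
  rw [← Module.finrank_eq_rank, finrank_euclideanSpace_fin]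
  exact_mod_cast hm

theorem B02b_compl_ball (hm : 2 ≤ m) (R : ℝ) (hR : 0 ≤ R) :
    IsConnected ((closedBall (0 : EuclideanSpace ℝ (Fin m)) R)ᶜ) := by
  have hs : IsConnected (sphere (0 : EuclideanSpace ℝ (Fin m)) 1) :=
    isConnected_sphere (B02b_rank hm) 0 zero_le_one
  have himg : (closedBall (0 : EuclideanSpace ℝ (Fin m)) R)ᶜ =
      (fun q : EuclideanSpace ℝ (Fin m) × ℝ => q.2 • q.1) ''
        (sphere (0 : EuclideanSpace ℝ (Fin m)) 1 ×ˢ Ioi R) := by
    ext v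
    constructor
    · intro hv
      have hv' : R < ‖v‖ := by simpa using hv
      have hv0 : ‖v‖ ≠ 0 := (lt_of_le_of_lt hR hv').ne'
      refine ⟨(‖v‖⁻¹ • v, ‖v‖), ⟨?_, hv'⟩, ?_⟩
      · simp [norm_smul, hv0]
      · show ‖v‖ • (‖v‖⁻¹ • v) = v
        rw [smul_smul, mul_inv_cancel₀ hv0, one_smul]
    · rintro ⟨⟨u, t⟩, ⟨hu, ht⟩, rfl⟩
      have hu' : ‖u‖ = 1 := by simpa using hu
      have ht' : R < t := ht
      have : 0 ≤ t := hR.trans ht'.le
      simp [norm_smul, hu', abs_of_nonneg this, ht']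
  rw [himg]
  exact (hs.prod isConnected_Ioi).image _ (by fun_prop)

theorem leaf_oneended (hm : 2 ≤ m) (h : Exh m F x) {K : Set (ULeaf F x)} (hK : IsCompact K) :
    ∃ K', IsCompact K' ∧ K ⊆ K' ∧ IsConnected K'ᶜ := by
  obtain ⟨ψ, h1, h2, h3⟩ := h
  have hmono : Monotone fun n => range (ψ n) := monotone_nat_of_le_succ h2
  obtain ⟨n, hn, hc⟩ := B02b_compact_cell h1 h2 h3 hK
  obtain ⟨R0, hR0⟩ := hc.isBounded.subset_closedBall (0 : EuclideanSpace ℝ (Fin m))
  set R := max R0 0 with hRdef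
  have hR : 0 ≤ R := le_max_right _ _
  have hKR : ψ n ⁻¹' K ⊆ closedBall 0 R :=
    hR0.trans (closedBall_subset_closedBall (le_max_left _ _))
  set K' := ψ n '' closedBall 0 R with hK'
  have hK'c : IsCompact K' := (isCompact_closedBall _ _).image (h1 n).continuous
  have hA := B02b_compl_ball (m := m) hm R hR
  set A := ψ n '' (closedBall (0 : EuclideanSpace ℝ (Fin m)) R)ᶜ with hAdef
  have hAc : IsConnected A := hA.image _ (h1 n).continuous.continuousOn
  have hAK : A ⊆ K'ᶜ := by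
    rintro _ ⟨e, he, rfl⟩ ⟨e', he', h⟩
    exact he ((h1 n).injective h ▸ he')
  have hcell : range (ψ n) \ K' ⊆ A := by
    rintro _ ⟨⟨e, rfl⟩, he⟩
    exact ⟨e, fun h => he ⟨e, h, rfl⟩, rfl⟩
  refine ⟨K', hK'c, ?_, ?_⟩
  · intro y hy
    obtain ⟨e, rfl⟩ := hn hy
    exact ⟨e, hKR hy, rfl⟩
  obtain ⟨a0, ha0⟩ := hAc.nonempty
  refine ⟨⟨a0, hAK ha0⟩, ?_⟩
  refine isPreconnected_of_forall a0 ?_
  intro y hy
  -- a cell containing `y` and the cell `n`
  obtain ⟨k, e, he⟩ := B02b_cell h3 y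
  set N := max k n with hN
  obtain ⟨T, hT⟩ : y ∈ range (ψ N) := hmono (le_max_left k n) ⟨e, he⟩
  have hnN : range (ψ n) ⊆ range (ψ N) := hmono (le_max_right k n)
  obtain ⟨k0, hk0⟩ : ψ n 0 ∈ range (ψ N) := hnN ⟨0, rfl⟩
  have hk0K : ψ N k0 ∈ K' := by
    rw [hk0]; exact ⟨0, by simpa using hR, rfl⟩
  let γ : ℝ → EuclideanSpace ℝ (Fin m) := fun t => T + t • (k0 - T)
  have hγ : Continuous γ := by fun_prop
  let S : Set ℝ := Icc 0 1 ∩ (fun t => ψ N (γ t)) ⁻¹' K'
  have hScl : IsClosed S :=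
    isClosed_Icc.inter (hK'c.isClosed.preimage ((h1 N).continuous.comp hγ))
  have hSne : S.Nonempty := ⟨1, ⟨by simp, by simpa [γ] using hk0K⟩⟩
  have hSbd : BddBelow S := ⟨0, fun t ht => ht.1.1⟩
  have hts := hScl.csInf_mem hSne hSbd
  set ts := sInf S with htsdef
  have hts0 : 0 < ts := by
    rcases hts.1.1.lt_or_eq with h | h
    · exact h
    · exfalso
      have := hts.2
      rw [← h] at this
      have h5 : ψ N (γ 0) ∈ K' := this
      rw [show γ 0 = T by simp [γ], hT] at h5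
      exact hy h5
  have hUopen : IsOpen ((fun t => ψ N (γ t)) ⁻¹' range (ψ n)) :=
    (h1 n).isOpen_range.preimage ((h1 N).continuous.comp hγ)
  have htsU : ts ∈ (fun t => ψ N (γ t)) ⁻¹' range (ψ n) := by
    obtain ⟨e', _, he'⟩ := hts.2
    exact ⟨e', he'⟩
  obtain ⟨δ, hδ, hball⟩ := Metric.isOpen_iff.1 hUopen ts htsU
  obtain ⟨t1, ht1a, ht1b⟩ : ∃ t1, max 0 (ts - δ) < t1 ∧ t1 < ts :=
    exists_between (max_lt hts0 (by linarith))
  have ht10 : 0 < t1 := lt_of_le_of_lt (le_max_left _ _) ht1a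
  have ht1d : ts - δ < t1 := lt_of_le_of_lt (le_max_right _ _) ht1a
  have hlow : ∀ t, 0 ≤ t → t < ts → ψ N (γ t) ∉ K' := by
    intro t h0 h1' hmem
    have h2' : t ∈ S := ⟨⟨h0, h1'.le.trans hts.1.2⟩, hmem⟩
    exact absurd (csInf_le hSbd h2') (not_le.2 h1')
  have ht1A : ψ N (γ t1) ∈ A := by
    apply hcell
    refine ⟨?_, hlow t1 ht10.le ht1b⟩
    apply hball
    rw [mem_ball, Real.dist_eq, abs_lt]
    constructor <;> linarith
  have hseg : IsPreconnected ((fun t => ψ N (γ t)) '' Icc 0 t1) :=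
    isPreconnected_Icc.image _ ((h1 N).continuous.comp hγ).continuousOn
  refine ⟨A ∪ (fun t => ψ N (γ t)) '' Icc 0 t1, ?_, Or.inl ha0, ?_, ?_⟩
  · apply union_subset hAK
    rintro _ ⟨t, ht, rfl⟩
    exact hlow t ht.1 (lt_of_le_of_lt ht.2 ht1b)
  · right
    exact ⟨0, ⟨le_rfl, ht10.le⟩, by simp [γ, hT]⟩
  · exact IsPreconnected.union _ ht1A ⟨t1, ⟨ht10.le, le_rfl⟩, rfl⟩ hAc.isPreconnected hseg

theorem leaf_noncompact (hm : 1 ≤ m) (h : Exh m F x) {K : Set (ULeaf F x)}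
    (hK : IsCompact K) : K ≠ univ := by
  obtain ⟨ψ, h1, h2, h3⟩ := h
  rintro rfl
  obtain ⟨n, hn, hc⟩ := B02b_compact_cell h1 h2 h3 hK
  rw [preimage_univ] at hc
  have : Nontrivial (EuclideanSpace ℝ (Fin m)) := by
    have : 0 < Module.finrank ℝ (EuclideanSpace ℝ (Fin m)) := by
      rw [finrank_euclideanSpace_fin]; omega
    exact Module.nontrivial_of_finrank_pos this
  have : NoncompactSpace (EuclideanSpace ℝ (Fin m)) := NormedSpace.noncompactSpace ℝ _
  exact noncompact_univ _ hc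

theorem leaf_perfect (hm : 1 ≤ m) (h : Exh m F x) (y : ULeaf F x) {ε : ℝ} (hε : 0 < ε) :
    ∃ y' ≠ y, dist y y' < ε := by
  obtain ⟨ψ, h1, h2, h3⟩ := h
  obtain ⟨n, e, rfl⟩ := B02b_cell h3 y
  have : Nontrivial (EuclideanSpace ℝ (Fin m)) := by
    have : 0 < Module.finrank ℝ (EuclideanSpace ℝ (Fin m)) := by
      rw [finrank_euclideanSpace_fin]; omega
    exact Module.nontrivial_of_finrank_pos this
  have : (𝓝[≠] e).NeBot := Module.punctured_nhds_neBot ℝ _ e
  have hU : ψ n ⁻¹' ball (ψ n e) ε ∈ 𝓝 e :=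
    (h1 n).continuous.continuousAt (ball_mem_nhds _ hε)
  have hU' : ∀ᶠ e' in 𝓝[≠] e, e' ∈ ψ n ⁻¹' ball (ψ n e) ε ∧ e' ≠ e :=
    (Filter.Eventually.filter_mono nhdsWithin_le_nhds hU).and self_mem_nhdsWithin
  obtain ⟨e', he1, he2⟩ := hU'.exists
  refine ⟨ψ n e', fun h => he2 ((h1 n).injective h), ?_⟩
  rw [dist_comm]; exact he1

end B02bGeneral

end Pool.MP85
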