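import Pool.Agent.Lib.MP_85e637_an.AbsB
import Pool.Agent.Lib.MP_85e637_an.A01

set_option autoImplicit false

open Filter Topology Set Metric

namespace Pool.MP85

namespace SD
variable {m : ℕ} {X M : Type} [MetricSpace X] [MetricSpace M] [CompactSpace M] (S : SD m X M)

theorem B_g {x : M} : S.g x ∈ S.B ↔ x ∈ S.B := by
  constructor
  · rintro ⟨y, hy⟩
    refine ⟨S.F.symm y, S.g.injective ?_⟩
    rw [← S.πF, S.F.apply_symm_apply, hy]
  · rintro ⟨y, hy⟩
    exact ⟨S.F y, by rw [S.πF, hy]⟩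

theorem B_fw {x : M} (n : ℕ) : fw S.g n x ∈ S.B ↔ x ∈ S.B := by
  induction n with
  | zero => rw [fw_zero]
  | succ n ih => rw [fw_succ', S.B_g, ih]

theorem B_bk {x : M} (n : ℕ) : bk S.g n x ∈ S.B ↔ x ∈ S.B := by
  rw [← S.B_fw n, fw_bk]

theorem B03_cont : Continuous S.π := by
  refine LipschitzWith.continuous (K := 1) (LipschitzWith.of_dist_le_mul fun x y => ?_)
  simpa using S.π_lip x y

theorem L_compact : IsCompact S.L := S.Λ_cpt.image S.B03_cont

theorem L_B : S.L ⊆ S.B := image_subset_range _ _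

theorem mem_L {x : X} : S.π x ∈ S.L ↔ x ∈ S.Λ := by
  constructor
  · rintro ⟨y, hy, hyx⟩
    rcases S.fib y x hyx with h | h
    · rw [h]; exact hy
    · rw [h, S.σΛ]; exact hy
  · intro h
    exact ⟨x, h, rfl⟩

theorem L_g {x : M} : S.g x ∈ S.L ↔ x ∈ S.L := by
  constructor
  · rintro ⟨y, hy, hyx⟩
    refine ⟨S.F.symm y, ?_, S.g.injective ?_⟩
    · rw [← S.FΛ, S.F.apply_symm_apply]; exact hy
    · rw [← S.πF, S.F.apply_symm_apply, hyx]
  · rintro ⟨y, hy, hyx⟩
    exact ⟨S.F y, (S.FΛ y).2 hy, by rw [S.πF, hyx]⟩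

theorem B03_L_bk {x : M} (n : ℕ) : bk S.g n x ∈ S.L ↔ x ∈ S.L := by
  induction n with
  | zero => rw [bk_zero]
  | succ n ih => rw [bk_succ', ← S.L_g, S.g.apply_symm_apply, ih]

theorem wu_L {x y : M} (hx : x ∈ S.L) (hy : y ∈ WU S.g x) : y ∈ S.L := by
  apply S.repL
  have hy' : Tendsto (fun n => dist (bk S.g n x) (bk S.g n y)) atTop (𝓝 0) := hy
  refine squeeze_zero (fun n => infDist_nonneg) (fun n => ?_) hy'
  rw [dist_comm]
  exact infDist_le_dist_of_mem ((S.B03_L_bk n).2 hx)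

theorem not_L {q y : M} (hq : q ∉ S.B) (hy : y ∈ WU S.g q) : y ∉ S.L := fun h =>
  hq (S.L_B (S.wu_L h (wu_symm hy)))

theorem B03_ws_B {x y : M} (hy : y ∈ WS S.g x) (hx : x ∈ S.B) : y ∈ S.B := by
  have hx' := (S.mem_B x).1 hx
  refine (S.mem_B y).2 ?_
  have hy' : Tendsto (fun n => dist (fw S.g n x) (fw S.g n y)) atTop (𝓝 0) := hy
  refine squeeze_zero (fun n => infDist_nonneg) (fun n => ?_) (by simpa using hx'.add hy')
  have := infDist_le_infDist_add_dist (s := S.π '' S.Λ) (x := fw S.g n y) (y := fw S.g n x)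
  rwa [dist_comm] at this

theorem B03_ws_symm {x y : M} (hy : y ∈ WS S.g x) : x ∈ WS S.g y := by
  have hy' : Tendsto (fun n => dist (fw S.g n x) (fw S.g n y)) atTop (𝓝 0) := hy
  show Tendsto (fun n => dist (fw S.g n y) (fw S.g n x)) atTop (𝓝 0)
  simpa [dist_comm] using hy'

theorem ws_B {x y : M} (hy : y ∈ WS S.g x) : y ∈ S.B ↔ x ∈ S.B :=
  ⟨fun h => S.B03_ws_B (S.B03_ws_symm hy) h, fun h => S.B03_ws_B hy h⟩

theorem B03_H_bk {x : M} (n : ℕ) : bk S.g n x ∈ S.H ↔ x ∈ S.H := by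
  induction n with
  | zero => rw [bk_zero]
  | succ n ih => rw [bk_succ', ← S.H_inv, S.g.apply_symm_apply, ih]

theorem B03_H_fw {x : M} (n : ℕ) : fw S.g n x ∈ S.H ↔ x ∈ S.H := by
  induction n with
  | zero => rw [fw_zero]
  | succ n ih => rw [fw_succ', S.H_inv, ih]

theorem wul_bk_dist {x y : M} (hx : x ∈ S.H) (hy : y ∈ WUl S.g S.εH x) (n : ℕ) :
    dist (bk S.g n x) (bk S.g n y) ≤ dist x y / 2 ^ n := by
  induction n with
  | zero => simp [bk_zero]
  | succ n ih =>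
    rw [bk_succ', bk_succ']
    have h1 := S.H_u (bk S.g n x) ((S.B03_H_bk n).2 hx) (bk S.g n y) (wul_bk n hy)
    refine h1.trans ?_
    rw [pow_succ, ← div_div]
    linarith

theorem wsl_fw_dist {x y : M} (hx : x ∈ S.H) (hy : y ∈ WSl S.g S.εH x) (n : ℕ) :
    dist (fw S.g n x) (fw S.g n y) ≤ dist x y / 2 ^ n := by
  induction n with
  | zero => simp [fw_zero]
  | succ n ih =>
    rw [fw_succ', fw_succ']
    have h0 : fw S.g n y ∈ WSl S.g S.εH (fw S.g n x) := by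
      intro k
      rw [← fw_add, ← fw_add]
      exact hy (k + n)
    have h1 := S.H_s (fw S.g n x) ((S.B03_H_fw n).2 hx) (fw S.g n y) h0
    refine h1.trans ?_
    rw [pow_succ, ← div_div]
    linarith

theorem B03_tend (a : ℝ) : Tendsto (fun n : ℕ => a / 2 ^ n) atTop (𝓝 0) :=
  tendsto_const_nhds.div_atTop (tendsto_pow_atTop_atTop_of_one_lt (by norm_num))

theorem wul_wu_H {x : M} (hx : x ∈ S.H) : WUl S.g S.εH x ⊆ WU S.g x := fun _ hy =>
  squeeze_zero (fun _ => dist_nonneg) (fun n => S.wul_bk_dist hx hy n) (B03_tend _)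

theorem wsl_ws_H {x : M} (hx : x ∈ S.H) : WSl S.g S.εH x ⊆ WS S.g x := fun _ hy =>
  squeeze_zero (fun _ => dist_nonneg) (fun n => S.wsl_fw_dist hx hy n) (B03_tend _)

theorem compact_plaque_H {x x' : M} (hx' : x' ∈ S.H) (n : ℕ) :
    IsCompact {y : ULeaf S.g x | bk S.g n y.val ∈ WUl S.g (S.εH / 2) (bk S.g n x')} := by
  apply IsSeqCompact.isCompact
  intro y hy
  have hεH := S.εH_pos
  have hb' : bk S.g n x' ∈ S.H := (S.B03_H_bk n).2 hx'
  obtain ⟨a, -, φ, hφ, hlim⟩ := (isCompact_univ (X := M)).isSeqCompact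
    (fun j => mem_univ (y j).val)
  -- the limit
  have hcl : bk S.g n a ∈ WUl S.g (S.εH / 2) (bk S.g n x') := by
    have h1 : Tendsto (fun j => bk S.g n ((y (φ j)).val)) atTop (𝓝 (bk S.g n a)) :=
      ((continuous_bk n).tendsto a).comp hlim
    exact isClosed_wul'.mem_of_tendsto h1 (Eventually.of_forall fun j => hy (φ j))
  have hsub : WUl S.g (S.εH / 2) (bk S.g n x') ⊆ WU S.g (bk S.g n x') := fun z hz =>
    S.wul_wu_H hb' (wul_mono (by linarith) hz)
  have haWU : a ∈ WU S.g x := by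
    have h1 : bk S.g n (y 0).val ∈ WU S.g (bk S.g n x') := hsub (hy 0)
    have h2 : bk S.g n (y 0).val ∈ WU S.g (bk S.g n x) := (wu_bk n).2 (y 0).prop
    have h3 : bk S.g n a ∈ WU S.g (bk S.g n x) :=
      wu_trans (wu_trans h2 (wu_symm h1)) (hsub hcl)
    exact (wu_bk n).1 h3
  refine ⟨⟨a, haWU⟩, hcl, φ, hφ, ?_⟩
  rw [Metric.tendsto_atTop]
  intro ε hε
  obtain ⟨N, hN⟩ := ((B03_tend S.εH).eventually (gt_mem_nhds (half_pos hε))).exists
  have hfin : ∀ᶠ j in atTop, ∀ k ∈ Finset.range (n + N),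
      dist (bk S.g k (y (φ j)).val) (bk S.g k a) < ε / 2 := by
    rw [Filter.eventually_all_finset]
    intro k _
    have h1 : Tendsto (fun j => bk S.g k ((y (φ j)).val)) atTop (𝓝 (bk S.g k a)) :=
      ((continuous_bk k).tendsto a).comp hlim
    exact (Metric.tendsto_nhds.1 h1) (ε / 2) (half_pos hε)
  obtain ⟨j0, hj0⟩ := eventually_atTop.1 hfin
  refine ⟨j0, fun j hj => ?_⟩
  have hle : dist (y (φ j)) (⟨a, haWU⟩ : ULeaf S.g x) ≤ ε / 2 := by
    rw [ULeaf.dist_le_iff]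
    intro k
    by_cases hk : k < n + N
    · exact (hj0 j hj k (Finset.mem_range.2 hk)).le
    · rw [not_lt] at hk
      obtain ⟨l, rfl⟩ : ∃ l, k = l + n := ⟨k - n, by omega⟩
      rw [bk_add, bk_add]
      have e1 := S.wul_bk_dist hb' (wul_mono (by linarith) (hy (φ j))) l
      have e2 := S.wul_bk_dist hb' (wul_mono (by linarith) hcl) l
      have e3 : dist (bk S.g n x') (bk S.g n (y (φ j)).val) ≤ S.εH / 2 := wul_dist (hy (φ j))
      have e4 : dist (bk S.g n x') (bk S.g n a) ≤ S.εH / 2 := wul_dist hcl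
      have e5 : (2 : ℝ) ^ N ≤ 2 ^ l := pow_le_pow_right₀ (by norm_num) (by omega)
      have e6 := dist_triangle_left (bk S.g l (bk S.g n (y (φ j)).val)) (bk S.g l (bk S.g n a))
        (bk S.g l (bk S.g n x'))
      have e7 : dist (bk S.g n x') (bk S.g n (y (φ j)).val) / 2 ^ l ≤ S.εH / 2 / 2 ^ l := by
        gcongr
      have e8 : dist (bk S.g n x') (bk S.g n a) / 2 ^ l ≤ S.εH / 2 / 2 ^ l := by gcongr
      have e9 : S.εH / 2 ^ l ≤ S.εH / 2 ^ N := by gcongr
      have e10 : S.εH / 2 / 2 ^ l + S.εH / 2 / 2 ^ l = S.εH / 2 ^ l := by ring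
      linarith
  exact lt_of_le_of_lt hle (half_lt_self hε)

theorem compact_sub {x : M} (hx : x ∈ S.H) {K : Set (ULeaf S.g x)} (hK : IsCompact K) (ε : ℝ)
    (hε : 0 < ε) : ∃ n0, ∀ n ≥ n0, ∀ y ∈ K, bk S.g n y.val ∈ WUl S.g ε (bk S.g n x) := by
  have _ := hx
  have hpt : ∀ y : ULeaf S.g x, ∃ N, ∀ k ≥ N, dist (bk S.g k x) (bk S.g k y.val) ≤ ε / 2 := by
    intro y
    have h1 : Tendsto (fun n => dist (bk S.g n x) (bk S.g n y.val)) atTop (𝓝 0) := y.prop
    obtain ⟨N, hN⟩ := eventually_atTop.1 (h1.eventually (gt_mem_nhds (half_pos hε)))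
    exact ⟨N, fun k hk => (hN k hk).le⟩
  choose N hN using hpt
  obtain ⟨t, -, ht⟩ := hK.elim_nhds_subcover (fun y => ball y (ε / 2))
    (fun y _ => ball_mem_nhds y (half_pos hε))
  refine ⟨t.sup N, fun n hn y hy => ?_⟩
  intro k
  obtain ⟨z, hz, hyz⟩ := mem_iUnion₂.1 (ht hy)
  rw [← bk_add, ← bk_add]
  have e1 : N z ≤ k + n := (Finset.le_sup hz).trans (hn.trans (Nat.le_add_left _ _))
  have e2 := hN z (k + n) e1
  have e3 : dist z y ≤ ε / 2 := by
    rw [dist_comm]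
    exact (mem_ball.1 hyz).le
  have e4 := (ULeaf.dist_le_iff z y (ε / 2)).1 e3 (k + n)
  have e5 := dist_triangle (bk S.g (k + n) x) (bk S.g (k + n) z.val) (bk S.g (k + n) y.val)
  linarith

theorem B03_per {q : M} {k : ℕ} (hqk : fw S.g k q = q) (n : ℕ) : fw S.g (k * n) q = q := by
  induction n with
  | zero => rw [mul_zero, fw_zero]
  | succ n ih => rw [mul_add, mul_one, fw_add, hqk, ih]

theorem B03_per_bk {q : M} {k : ℕ} (hqk : fw S.g k q = q) (n : ℕ) : bk S.g (k * n) q = q := by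
  conv_lhs => rw [← S.B03_per hqk n]
  rw [bk_fw]

theorem leave {q : M} (hq : q ∈ S.H) {k : ℕ} (hk : 0 < k) (hqk : fw S.g k q = q)
    {K : Set (ULeaf S.g q)} (hK : IsCompact K) {w : M} (hw : w ∈ WU S.g q) (hwq : w ≠ q) :
    ∃ n, ∀ y ∈ K, y.val ≠ fw S.g (k * n) w := by
  have _ := hw
  by_contra hcon
  push Not at hcon
  have hd : 0 < dist q w := dist_pos.2 hwq.symm
  obtain ⟨n0, hn0⟩ := S.compact_sub hq hK (dist q w / 2) (half_pos hd)
  obtain ⟨y, hy, hyw⟩ := hcon n0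
  have h1 := hn0 (k * n0) (Nat.le_mul_of_pos_left n0 hk) y hy
  rw [hyw, bk_fw, S.B03_per_bk hqk] at h1
  have h2 := wul_dist h1
  linarith

theorem periodic_wu {q q' : M} (hq : ∃ k > 0, fw S.g k q = q) (hq' : ∃ k > 0, fw S.g k q' = q')
    (h : q' ∈ WU S.g q) : q' = q := by
  obtain ⟨k, hk, hqk⟩ := hq
  obtain ⟨k', hk', hqk'⟩ := hq'
  have h' : Tendsto (fun n => dist (bk S.g n q) (bk S.g n q')) atTop (𝓝 0) := h
  have hsub : Tendsto (fun n : ℕ => k * k' * n) atTop atTop :=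
    tendsto_atTop_mono (fun n => Nat.le_mul_of_pos_left n (Nat.mul_pos hk hk')) tendsto_id
  have h1 := h'.comp hsub
  have h2 : (fun n => dist (bk S.g n q) (bk S.g n q')) ∘ (fun n : ℕ => k * k' * n) =
      fun _ => dist q q' := by
    funext n
    simp only [Function.comp_apply]
    have e1 : bk S.g (k * k' * n) q = q := by
      rw [mul_assoc]
      exact S.B03_per_bk hqk _
    have e2 : bk S.g (k * k' * n) q' = q' := by
      rw [mul_comm k k', mul_assoc]
      exact S.B03_per_bk hqk' _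
    rw [e1, e2]
  rw [h2] at h1
  have h3 : dist q q' = 0 := tendsto_nhds_unique tendsto_const_nhds h1
  exact (dist_eq_zero.1 h3).symm

theorem periodic_ws {q q' : M} (hq : ∃ k > 0, fw S.g k q = q) (hq' : ∃ k > 0, fw S.g k q' = q')
    (h : q' ∈ WS S.g q) : q' = q := by
  obtain ⟨k, hk, hqk⟩ := hq
  obtain ⟨k', hk', hqk'⟩ := hq'
  have h' : Tendsto (fun n => dist (fw S.g n q) (fw S.g n q')) atTop (𝓝 0) := h
  have hsub : Tendsto (fun n : ℕ => k * k' * n) atTop atTop :=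
    tendsto_atTop_mono (fun n => Nat.le_mul_of_pos_left n (Nat.mul_pos hk hk')) tendsto_id
  have h1 := h'.comp hsub
  have h2 : (fun n => dist (fw S.g n q) (fw S.g n q')) ∘ (fun n : ℕ => k * k' * n) =
      fun _ => dist q q' := by
    funext n
    simp only [Function.comp_apply]
    have e1 : fw S.g (k * k' * n) q = q := by
      rw [mul_assoc]
      exact S.B03_per hqk _
    have e2 : fw S.g (k * k' * n) q' = q' := by
      rw [mul_comm k k', mul_assoc]
      exact S.B03_per hqk' _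
    rw [e1, e2]
  rw [h2] at h1
  have h3 : dist q q' = 0 := tendsto_nhds_unique tendsto_const_nhds h1
  exact (dist_eq_zero.1 h3).symm

end SD

end Pool.MP85
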