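import Pool.Agent.Lib.MP_85e637_an.AbsB
import Pool.Agent.Lib.MP_85e637_an.A01
import Pool.Agent.Lib.MP_85e637_an.B01
import Pool.Agent.Lib.MP_85e637_an.A02
import Pool.Agent.Lib.MP_85e637_an.A10
import Pool.Agent.Lib.MP_85e637_an.A11
import Pool.Agent.Lib.MP_85e637_an.A12
import Pool.Agent.Lib.MP_85e637_an.A15

/-!
# B04: the leaf of a separatrix point; 1-bunches
-/

open Filter Topology Set Metric

namespace Pool.MP85

namespace SD
variable {m : ℕ} {X M : Type} [MetricSpace X] [MetricSpace M] [CompactSpace M] (S : SD m X M)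

theorem P_gap {p : X} (hp : S.Inf p) (z : S.Pt p) : S.Gap z.1.val ∧ ¬ S.Inf z.1.val := by
  have hg : S.Gap p := ⟨hp.1, 1, one_pos, fun s hs => hp.2 s hs.1⟩
  refine ⟨S.gap_leaf hg z.1.prop, fun hi => z.2 ?_⟩
  exact S.inf_unique hi hp z.1.prop

theorem P_pos {p : X} (hp : S.Inf p) (z : S.Pt p) : 0 < S.G z.1.val :=
  (S.G_spec (S.P_gap hp z).1 (S.P_gap hp z).2).1

theorem G_cont {p : X} (hp : S.Inf p) : Continuous fun z : S.Pt p => S.G z.1.val := by
  rw [Metric.continuous_iff]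
  intro z ε hε
  obtain ⟨ε', hε', h⟩ := S.G_slide (S.P_gap hp z).1 (S.P_gap hp z).2 (ε / 2) (half_pos hε)
  refine ⟨ε', hε', fun y hy => ?_⟩
  have h1 : y.1.val ∈ WUl S.F ε' z.1.val := by
    rw [← ULeaf.dist_le_iff, dist_comm]
    exact le_of_lt hy
  have h2 := (h _ h1).2.1
  rw [Real.dist_eq]
  linarith

/-- the gap arcs start at well defined points -/
theorem arc_inj {p : X} (hp : S.Inf p) {z z' : S.Pt p} {s s' : ℝ} (hs : 0 < s)
    (hs' : 0 < s') (h : s < S.G z.1.val) (h' : s' < S.G z'.1.val)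
    (he : S.φ s z.1.val = S.φ s' z'.1.val) : z = z' ∧ s = s' := by
  have key : ∀ {w w' : S.Pt p} {t t' : ℝ}, 0 < t' → t < S.G w.1.val →
      S.φ t w.1.val = S.φ t' w'.1.val → t ≤ t' := by
    intro w w' t t' ht' hlt hee
    by_contra hcon
    push Not at hcon
    have e1 : w'.1.val = S.φ (t - t') w.1.val := by
      have e2 := congrArg (S.φ (-t')) hee
      rw [← S.φ_add, ← S.φ_add, neg_add_cancel, S.φ_zero] at e2
      rw [← e2]
      ring_nf
    have e3 := (S.G_spec (S.P_gap hp w).1 (S.P_gap hp w).2).2.2 (t - t')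
      ⟨by linarith, by linarith⟩
    exact e3 (e1 ▸ (S.P_gap hp w').1.1)
  have hss : s = s' := le_antisymm (key hs' h he) (key hs h' he.symm)
  subst hss
  refine ⟨?_, rfl⟩
  have e2 := congrArg (S.φ (-s)) he
  rw [← S.φ_add, ← S.φ_add, neg_add_cancel, S.φ_zero, S.φ_zero] at e2
  exact Subtype.ext (ULeaf.val_injective e2)

/-- arcs from `i z` are the reversed arcs from `z` -/
theorem io_arc {p : X} (hp : S.Inf p) (z : S.Pt p) (s : ℝ) :
    S.φ s (S.io z.1.val) = S.σ (S.φ (S.G z.1.val - s) z.1.val) := by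
  have e1 : S.G z.1.val - s = -s + S.G z.1.val := by ring
  rw [e1, S.φ_add, S.σφ, neg_neg]
  rfl

/-- if one gap of the leaf returns to the leaf, all do -/
theorem io_leaf (hm : 3 ≤ m) {p : X} (hp : S.Inf p) {z0 : S.Pt p}
    (h0 : S.io z0.1.val ∈ WU S.F p) : ∃ i : S.Pt p → S.Pt p, Continuous i ∧
      (∀ z, (i z).1.val = S.io z.1.val) ∧ (∀ z, i (i z) = z) ∧
      (∀ z, S.G (i z).1.val = S.G z.1.val) := by
  -- sliding of `io`
  have hslide : ∀ z : S.Pt p, ∀ ε > 0, ∃ ε' > 0, ∀ y : S.Pt p, dist y z < ε' →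
      S.io y.1.val ∈ WUl S.F ε (S.io z.1.val) := by
    intro z ε hε
    obtain ⟨ε', hε', h⟩ := S.G_slide (S.P_gap hp z).1 (S.P_gap hp z).2 ε hε
    refine ⟨ε', hε', fun y hy => ?_⟩
    have h1 : y.1.val ∈ WUl S.F ε' z.1.val := by
      rw [← ULeaf.dist_le_iff, dist_comm]
      exact le_of_lt hy
    exact S.wul_σ.2 (h _ h1).2.2
  have hmem : ∀ z : S.Pt p, S.io z.1.val ∈ S.Λ := by
    intro z
    exact (S.σΛ _).2 (S.G_spec (S.P_gap hp z).1 (S.P_gap hp z).2).2.1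
  have hloc : ∀ z : S.Pt p, ∃ ε' > 0, ∀ y : S.Pt p, dist y z < ε' →
      (S.io y.1.val ∈ WU S.F p ↔ S.io z.1.val ∈ WU S.F p) := by
    intro z
    obtain ⟨ε', hε', h⟩ := hslide z S.ε0 S.ε0_pos
    refine ⟨ε', hε', fun y hy => ?_⟩
    have h1 : S.io y.1.val ∈ WU S.F (S.io z.1.val) := S.wul_wu (hmem z) (h y hy)
    exact ⟨fun h2 => wu_trans h2 (wu_symm h1), fun h2 => wu_trans h2 h1⟩
  have hpre : PreconnectedSpace (S.Pt p) := by
    have hc : IsPreconnected ({z : ULeaf S.F p | z.val = p}ᶜ : Set (ULeaf S.F p)) := by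
      refine leaf_compl_countable (by omega) (S.exh p hp.1) ?_
      refine Set.Subsingleton.countable ?_
      intro a ha b hb
      exact ULeaf.val_injective ((show a.val = p from ha).trans (show b.val = p from hb).symm)
    exact Subtype.preconnectedSpace hc
  have hclopen : IsClopen {z : S.Pt p | S.io z.1.val ∈ WU S.F p} := by
    constructor
    · rw [← isOpen_compl_iff, Metric.isOpen_iff]
      intro z hz
      obtain ⟨ε', hε', h⟩ := hloc z
      exact ⟨ε', hε', fun y hy hy' => hz ((h y hy).1 hy')⟩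
    · rw [Metric.isOpen_iff]
      intro z hz
      obtain ⟨ε', hε', h⟩ := hloc z
      exact ⟨ε', hε', fun y hy => (h y hy).2 hz⟩
  have hall : ∀ z : S.Pt p, S.io z.1.val ∈ WU S.F p := by
    have := hclopen.eq_univ ⟨z0, h0⟩
    intro z
    have hz : z ∈ (univ : Set (S.Pt p)) := mem_univ z
    rw [← this] at hz
    exact hz
  have hne : ∀ z : S.Pt p, S.io z.1.val ≠ p := by
    intro z hz
    have h1 := (S.G_σ (S.P_gap hp z).1 (S.P_gap hp z).2).2.1
    have h2 : S.σ (S.φ (S.G z.1.val) z.1.val) = p := hz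
    rw [h2] at h1
    exact h1 hp
  refine ⟨fun z => ⟨⟨S.io z.1.val, hall z⟩, hne z⟩, ?_, fun z => rfl, ?_, ?_⟩
  · rw [Metric.continuous_iff]
    intro z ε hε
    obtain ⟨ε', hε', h⟩ := hslide z (ε / 2) (half_pos hε)
    refine ⟨ε', hε', fun y hy => ?_⟩
    have h1 := h y hy
    have h2 : dist (⟨S.io z.1.val, hall z⟩ : ULeaf S.F p) ⟨S.io y.1.val, hall y⟩ ≤ ε / 2 := by
      rw [ULeaf.dist_le_iff]
      exact h1
    rw [dist_comm]
    exact lt_of_le_of_lt h2 (half_lt_self hε)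
  · intro z
    refine Subtype.ext (ULeaf.val_injective ?_)
    change S.σ (S.φ (S.G (S.io z.1.val)) (S.io z.1.val)) = z.1.val
    have h1 : S.G (S.io z.1.val) = S.G z.1.val :=
      (S.G_σ (S.P_gap hp z).1 (S.P_gap hp z).2).2.2
    rw [h1, S.io_arc hp z, sub_self, S.φ_zero, S.σσ]
  · intro z
    exact (S.G_σ (S.P_gap hp z).1 (S.P_gap hp z).2).2.2

/-- layer A in the form needed here -/
theorem exists_1bunch (hm : 2 ≤ m) {x : X} (hx : x ∈ S.Λ) {T : ℝ}
    (h : S.σ (S.φ T x) ∈ WU S.F x) :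
    ∃ p, S.Inf p ∧ ∃ z0 : S.Pt p, S.io z0.1.val ∈ WU S.F p := by
  obtain ⟨z, hz, g, hg, hgap, hret⟩ := S.bunch1 hm hx h
  have hG : S.Gap z := ⟨hz, g, hg, hgap⟩
  obtain ⟨p, hpz, k, hk, hpk⟩ := S.exists_periodic hG
  have hpI : S.Inf p := S.inf_of_periodic hk hpk (S.gap_leaf hG hpz)
  have hgΛ : S.φ g z ∈ S.Λ := (S.σΛ _).1 (S.wu_Λ hz hret)
  have hzI : ¬ S.Inf z := fun hi => hi.2 g hg hgΛ
  have hzp : z ≠ p := fun he => hzI (he ▸ hpI)
  have hspec := S.G_spec hG hzI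
  have hGg : S.G z = g := by
    rcases lt_trichotomy (S.G z) g with hlt | heq | hgt
    · exact absurd hspec.2.1 (hgap _ ⟨hspec.1, hlt⟩)
    · exact heq
    · exact absurd hgΛ (hspec.2.2 g ⟨hg, hgt⟩)
  refine ⟨p, hpI, ⟨⟨z, wu_symm hpz⟩, hzp⟩, ?_⟩
  change S.σ (S.φ (S.G z) z) ∈ WU S.F p
  rw [hGg]
  exact wu_trans (wu_symm hpz) hret

end SD

end Pool.MP85
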