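import Pool.Agent.Lib.MP_85e637_an.AbsB
import Pool.Agent.Lib.MP_85e637_an.A01
import Pool.Agent.Lib.MP_85e637_an.A02
import Pool.Agent.Lib.MP_85e637_an.B01

/-!
# Layer B, row B05a: sections agree if they agree at one point; sections are open maps
-/

open Filter Topology Set Metric

namespace Pool.MP85

namespace SD
variable {m : ℕ} {X M : Type} [MetricSpace X] [MetricSpace M] [CompactSpace M] (S : SD m X M)

theorem B05a_mem {q : M} (hq : q ∈ S.H) {y : M} (hy : y ∈ WU S.g q) (hB : y ∈ range S.π) :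
    y ∈ S.H ∩ range S.π := ⟨S.H_WU q hq y hy (S.B_S1 hB), hB⟩

theorem B05a_preconn (hm : 2 ≤ m) {p : X} (hp : S.Inf p) : PreconnectedSpace (S.Pt p) := by
  have hC : ({z : ULeaf S.F p | z.val = p} : Set (ULeaf S.F p)).Countable := by
    apply Set.Subsingleton.countable
    intro y hy y' hy'
    exact ULeaf.val_injective ((hy : y.val = p).trans (hy' : y'.val = p).symm)
  have h1 := leaf_compl_countable hm (S.exh p hp.1) hC
  exact Subtype.preconnectedSpace h1

/-- two sections over the same leaf which agree at one point agree -/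
theorem Sec.ext' (hm : 3 ≤ m) {p : X} (hp : S.Inf p) {q : M} (hq : q ∈ S.H) (hqB : q ∉ S.B)
    (a b : S.Sec p q) {z : S.Pt p} (h : a.s z = b.s z) : a.s = b.s := by
  have hpre := S.B05a_preconn (by omega) hp
  have hclosed : IsClosed {z | a.s z = b.s z} := isClosed_eq a.cs b.cs
  have hopen : IsOpen {z | a.s z = b.s z} := by
    rw [isOpen_iff_mem_nhds]
    intro z hz
    have hz : a.s z = b.s z := hz
    have hval : (a.y z).val = (b.y z).val := by rw [a.eq, b.eq, hz]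
    have hb : (a.y z).val ∈ S.H ∩ range S.π :=
      S.B05a_mem hq (a.y z).prop ⟨_, (a.eq z).symm⟩
    obtain ⟨δ, hδ, hcs⟩ := S.CSH1 {(a.y z).val} (by rintro _ rfl; exact hb) isCompact_singleton
    have e1 : ∀ᶠ z' in 𝓝 z, dist (a.y z) (a.y z') < S.εH := by
      have := (a.cy.tendsto z)
      have h2 := this.eventually (Metric.ball_mem_nhds (a.y z) S.εH_pos)
      filter_upwards [h2] with z' hz'
      rw [dist_comm]; exact hz'
    have e2 : ∀ᶠ z' in 𝓝 z, dist (b.y z) (b.y z') < S.εH := by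
      have := (b.cy.tendsto z)
      have h2 := this.eventually (Metric.ball_mem_nhds (b.y z) S.εH_pos)
      filter_upwards [h2] with z' hz'
      rw [dist_comm]; exact hz'
    have e3 : ∀ᶠ z' in 𝓝 z, |b.s z' - a.s z'| < δ := by
      have h3 : Tendsto (fun z' => |b.s z' - a.s z'|) (𝓝 z) (𝓝 |b.s z - a.s z|) :=
        ((b.cs.sub a.cs).abs).tendsto z
      rw [hz, sub_self, abs_zero] at h3
      exact h3.eventually (gt_mem_nhds hδ)
    filter_upwards [e1, e2, e3] with z' h1 h2 h3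
    have h4 : (a.y z').val ∈ WUl S.g S.εH (a.y z).val := (ULeaf.dist_le_iff _ _ _).1 h1.le
    have h5 : (b.y z').val ∈ WUl S.g S.εH (a.y z).val := by
      rw [hval]; exact (ULeaf.dist_le_iff _ _ _).1 h2.le
    rw [a.eq z'] at h4
    rw [b.eq z'] at h5
    have h6 : S.φ (b.s z') z'.1.val = S.φ (b.s z' - a.s z') (S.φ (a.s z') z'.1.val) := by
      rw [← S.φ_add, sub_add_cancel]
    rw [h6] at h5
    have h7 := hcs _ rfl _ _ h3.le h4 h5
    show a.s z' = b.s z'
    linarith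
  have huniv : {z | a.s z = b.s z} = univ := IsClopen.eq_univ ⟨hclosed, hopen⟩ ⟨z, h⟩
  funext z'
  have : z' ∈ {z | a.s z = b.s z} := huniv ▸ mem_univ z'
  exact this

theorem Sec.isOpenMap {p : X} (hp : S.Inf p) {q : M} (hq : q ∈ S.H) (hqB : q ∉ S.B)
    (a : S.Sec p q) : IsOpenMap a.y := by
  rw [isOpenMap_iff_nhds_le]
  intro z U hU
  rw [mem_map] at hU
  -- `hU : a.y ⁻¹' U ∈ 𝓝 z`
  have hzΛ : z.1.val ∈ S.Λ := S.wu_Λ hp.1 z.1.prop
  set s0 : ℝ := a.s z with hs0
  set x1 : X := S.φ s0 z.1.val with hx1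
  have hyz : (a.y z).val = S.π x1 := a.eq z
  have hb : (a.y z).val ∈ S.H ∩ range S.π :=
    S.B05a_mem hq (a.y z).prop ⟨_, (a.eq z).symm⟩
  obtain ⟨δ, hδ, hcs⟩ := S.CSH1 {(a.y z).val} (by rintro _ rfl; exact hb) isCompact_singleton
  -- everything needed near `z`
  have e1 : ∀ᶠ z' in 𝓝 z, dist (a.y z) (a.y z') < S.εH := by
    have h2 := (a.cy.tendsto z).eventually (Metric.ball_mem_nhds (a.y z) S.εH_pos)
    filter_upwards [h2] with z' hz'
    rw [dist_comm]; exact hz'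
  have e3 : ∀ᶠ z' in 𝓝 z, |a.s z' - s0| < δ / 2 := by
    have h3 : Tendsto (fun z' => |a.s z' - s0|) (𝓝 z) (𝓝 |a.s z - s0|) :=
      ((a.cs.sub continuous_const).abs).tendsto z
    rw [hs0, sub_self, abs_zero] at h3
    exact h3.eventually (gt_mem_nhds (by linarith))
  have e4 : ∀ᶠ z' in 𝓝 z, z' ∈ a.y ⁻¹' U := hU
  obtain ⟨ε, hε, hball⟩ := Metric.eventually_nhds_iff.1 (e1.and (e3.and e4))
  -- constants
  have hpz : 0 < dist z.1.val p := dist_pos.2 z.2
  set ε2 : ℝ := min (min (ε / 2) (δ / 2)) (min S.ε0 (dist z.1.val p / 2)) with hε2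
  have hε2pos : 0 < ε2 := by
    have := S.ε0_pos
    rw [hε2]
    simp only [lt_min_iff]
    exact ⟨⟨by linarith, by linarith⟩, by linarith, by linarith⟩
  have l1 : ε2 ≤ ε / 2 := (min_le_left _ _).trans (min_le_left _ _)
  have l2 : ε2 ≤ δ / 2 := (min_le_left _ _).trans (min_le_right _ _)
  have l3 : ε2 ≤ S.ε0 := (min_le_right _ _).trans (min_le_left _ _)
  have l4 : ε2 ≤ dist z.1.val p / 2 := (min_le_right _ _).trans (min_le_right _ _)
  obtain ⟨r, hr, hcs2⟩ := S.CS2 ε2 hε2pos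
  -- continuity of the flow at `(-s0, x1)`
  have hflow : Continuous fun x : X => S.φ (-s0) x :=
    S.φ_cont.comp (continuous_const.prodMk continuous_id)
  have hback : S.φ (-s0) x1 = z.1.val := by
    rw [hx1, ← S.φ_add, neg_add_cancel, S.φ_zero]
  obtain ⟨r1, hr1, hfl⟩ := Metric.continuousAt_iff.1 (hflow.continuousAt (x := x1)) r hr
  obtain ⟨r2, hr2, hlift⟩ := S.lift x1 r1 hr1
  obtain ⟨r3, hr3, hB⟩ := Metric.isOpen_iff.1 S.isOpen_B (S.π x1) ⟨x1, rfl⟩
  rw [Metric.mem_nhds_iff]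
  refine ⟨min (min r2 r3) S.εH, ?_, ?_⟩
  · have := S.εH_pos
    simp only [gt_iff_lt, lt_min_iff]
    exact ⟨⟨hr2, hr3⟩, this⟩
  intro w hw
  rw [Metric.mem_ball, dist_comm] at hw
  simp only [lt_min_iff] at hw
  have hwd : dist (S.π x1) w.val < min r2 r3 := by
    have h1 := ULeaf.dist_val_le (a.y z) w
    rw [hyz] at h1
    exact lt_of_le_of_lt h1 (lt_min hw.1.1 hw.1.2)
  have hwB : w.val ∈ range S.π := hB (by
    rw [Metric.mem_ball, dist_comm]
    exact lt_of_lt_of_le hwd (min_le_right _ _))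
  obtain ⟨x', hx', hdx⟩ := hlift w.val hwB (lt_of_lt_of_le hwd (min_le_left _ _))
  have hd1 : dist z.1.val (S.φ (-s0) x') < r := by
    have := hfl (x := x') (by rw [dist_comm]; exact hdx)
    rw [hback, dist_comm] at this
    exact this
  obtain ⟨t, ht, hz'⟩ := hcs2 z.1.val hzΛ _ hd1
  obtain ⟨v, hv⟩ : ∃ v : X, v = S.φ t (S.φ (-s0) x') := ⟨_, rfl⟩
  rw [← hv] at hz'
  have hvε0 : v ∈ WUl S.F S.ε0 z.1.val := wul_mono l3 hz'
  have hvWU : v ∈ WU S.F p := wu_trans z.1.prop (S.wul_wu hzΛ hvε0)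
  have hvp : v ≠ p := by
    intro h0
    have h1 := wul_dist hz'
    rw [h0] at h1
    linarith
  let zl : ULeaf S.F p := ⟨v, hvWU⟩
  let z' : S.Pt p := ⟨zl, hvp⟩
  have hdz : dist z' z < ε := by
    have h1 : dist z.1 zl ≤ ε2 := (ULeaf.dist_le_iff _ _ _).2 hz'
    have h2 : dist z' z = dist z.1 zl := by
      rw [dist_comm]; rfl
    rw [h2]
    linarith
  obtain ⟨g1, g2, g3⟩ := hball hdz
  have hvx : S.φ (s0 - t) v = x' := by
    rw [hv, ← S.φ_add, ← S.φ_add]
    have : s0 - t + t + -s0 = 0 := by ring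
    rw [this, S.φ_zero]
  -- `w` is the value at `z'`
  have h4 : S.π (S.φ (s0 - t) v) ∈ WUl S.g S.εH (a.y z).val := by
    rw [hvx, hx']
    exact (ULeaf.dist_le_iff _ _ _).1 hw.2.le
  have h5 : S.π (S.φ (a.s z') v) ∈ WUl S.g S.εH (a.y z).val := by
    have := (ULeaf.dist_le_iff _ _ _).1 g1.le
    rw [a.eq z'] at this
    exact this
  have h6 : S.φ (a.s z') v = S.φ (a.s z' - (s0 - t)) (S.φ (s0 - t) v) := by
    rw [← S.φ_add, sub_add_cancel]
  rw [h6] at h5
  have h7 := hcs _ rfl _ _ (by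
    have : a.s z' - (s0 - t) = (a.s z' - s0) + t := by ring
    rw [this]
    exact (abs_add_le _ _).trans (by linarith)) h4 h5
  have h8 : a.y z' = w := by
    apply ULeaf.val_injective
    rw [a.eq z', ← hx', ← hvx]
    show S.π (S.φ (a.s z') v) = _
    have : a.s z' = s0 - t := by linarith
    rw [this]
  rw [← h8]
  exact g3

end SD

end Pool.MP85
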