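import Pool.Agent.Lib.MP_85e637_an.AbsB
import Pool.Agent.Lib.MP_85e637_an.A01
import Pool.Agent.Lib.MP_85e637_an.A02
import Pool.Agent.Lib.MP_85e637_an.A12
import Pool.Agent.Lib.MP_85e637_an.B02b
import Pool.Agent.Lib.MP_85e637_an.B03
import Pool.Agent.Lib.MP_85e637_an.B04

/-! # B05b: sections through every point (covering argument) -/

open Filter Topology Set Metric

namespace Pool.MP85
namespace SD
variable {m : ℕ} {X M : Type} [MetricSpace X] [MetricSpace M] [CompactSpace M] (S : SD m X M)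

/-- points of the gap arcs which project to the leaf of `q` -/
abbrev B05bE (p : X) (q : M) : Type :=
  {e : (S.Pt p × ℝ) × ULeaf S.g q //
    0 < e.1.2 ∧ e.1.2 < S.G e.1.1.1.val ∧ e.2.val = S.π (S.φ e.1.2 e.1.1.1.val)}

variable {S}

theorem B05b_wul_symm {Z : Type} [MetricSpace Z] {F : Z ≃ₜ Z} {x y : Z} {ε : ℝ}
    (h : y ∈ WUl F ε x) : x ∈ WUl F ε y := fun n => by rw [dist_comm]; exact h n

theorem B05b_wul_trans {Z : Type} [MetricSpace Z] {F : Z ≃ₜ Z} {x y z : Z} {ε ε' ε'' : ℝ}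
    (h : y ∈ WUl F ε x) (h' : z ∈ WUl F ε' y) (hε : ε + ε' ≤ ε'') : z ∈ WUl F ε'' x :=
  fun n => ((dist_triangle _ _ _).trans (add_le_add (h n) (h' n))).trans hε

theorem B05b_wul_mono {Z : Type} [MetricSpace Z] {F : Z ≃ₜ Z} {x y : Z} {ε ε' : ℝ}
    (h : y ∈ WUl F ε x) (hε : ε ≤ ε') : y ∈ WUl F ε' x := fun n => (h n).trans hε

theorem B05b_memH {q : M} (hq : q ∈ S.H) {w : M} (hw : w ∈ WU S.g q) (x : X)
    (h : w = S.π x) : w ∈ S.H := S.H_WU q hq w hw (S.B_S1 ⟨x, h.symm⟩)

/-- local slides over a small neighbourhood -/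
theorem B05b_local {p : X} (hp : S.Inf p) {q : M} (hq : q ∈ S.H) (hlc : LocallyConnectedSpace (S.Pt p))
    (z1 : S.Pt p) :
    ∃ (V : Set (S.Pt p)) (ε δ : ℝ), IsOpen V ∧ z1 ∈ V ∧ IsPreconnected V ∧ 0 < ε ∧ 3 * ε ≤ δ ∧
      2 * ε ≤ S.εH ∧
      (∀ e : S.B05bE p q, e.1.1.1 ∈ V → ∀ z ∈ V, ∃ t : ℝ, |t - e.1.1.2| ≤ ε ∧
        S.π (S.φ t z.1.val) ∈ WUl S.g ε e.1.2.val) ∧
      (∀ e : S.B05bE p q, e.1.1.1 ∈ V → ∀ (z : S.Pt p) (t t' : ℝ), |t - t'| ≤ δ →
        S.π (S.φ t z.1.val) ∈ WUl S.g S.εH e.1.2.val →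
        S.π (S.φ t' z.1.val) ∈ WUl S.g S.εH e.1.2.val → t = t') := by
  set R : ℝ := S.G z1.1.val + 2 with hR
  have hG1 := S.P_pos hp z1
  have hπ : Continuous S.π := by
    refine LipschitzWith.continuous (K := 1) (LipschitzWith.of_dist_le_mul fun y y' => ?_)
    simpa using S.π_lip y y'
  set K : Set M := S.H ∩ S.π '' ((fun q : ℝ × X => S.φ q.1 q.2) '' (Icc (-R) R ×ˢ S.Λ)) with hK
  have hKc : IsCompact K :=
    (((isCompact_Icc.prod S.Λ_cpt).image S.φ_cont).image hπ).inter_left S.closed_H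
  have hKs : K ⊆ S.H ∩ range S.π := by
    rintro x ⟨h1, y, -, rfl⟩
    exact ⟨h1, y, rfl⟩
  obtain ⟨δ, hδ, h1⟩ := S.CSH1 K hKs hKc
  set ε : ℝ := min (δ / 3) (S.εH / 2) with hε
  have hε0 : 0 < ε := lt_min (by positivity) (by have := S.εH_pos; positivity)
  have hεδ : 3 * ε ≤ δ := by have := min_le_left (δ / 3) (S.εH / 2); linarith
  have hεH : 2 * ε ≤ S.εH := by have := min_le_right (δ / 3) (S.εH / 2); linarith
  obtain ⟨r, hr, h2⟩ := S.CSH2 K hKs hKc ε hε0
  -- the neighbourhood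
  have hN1 : ∀ᶠ z in 𝓝 z1, ∀ s ∈ Icc (-R) R, dist (S.φ s z.1.val) (S.φ s z1.1.val) < r / 2 := by
    refine isCompact_Icc.eventually_forall_of_forall_eventually fun s _ => ?_
    have hc : Continuous fun w : S.Pt p × ℝ =>
        dist (S.φ w.2 w.1.1.val) (S.φ w.2 z1.1.val) := by
      have hv : Continuous fun w : S.Pt p × ℝ => w.1.1.val :=
        ULeaf.continuous_val.comp (continuous_subtype_val.comp continuous_fst)
      exact (S.φ_cont.comp (continuous_snd.prodMk hv)).dist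
        (S.φ_cont.comp (continuous_snd.prodMk continuous_const))
    have := hc.continuousAt (x := (z1, s))
    have h3 : ∀ᶠ w in 𝓝 (z1, s), dist (S.φ w.2 w.1.1.val) (S.φ w.2 z1.1.val) < r / 2 :=
      this.eventually_lt continuousAt_const (by simp; linarith)
    exact h3
  have hN2 : ∀ᶠ z in 𝓝 z1, S.G z.1.val < S.G z1.1.val + 1 :=
    (S.G_cont hp).continuousAt.eventually_lt continuousAt_const (by linarith)
  obtain ⟨V, hVs, hVo, hz1, hVc⟩ :=
    locallyConnectedSpace_iff_subsets_isOpen_isConnected.1 hlc z1 _ (hN1.and hN2)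
  have hmemK : ∀ e : S.B05bE p q, e.1.1.1 ∈ V → e.1.2.val ∈ K := by
    intro e he
    refine ⟨B05b_memH hq e.1.2.prop _ e.2.2.2, ?_⟩
    refine ⟨S.φ e.1.1.2 e.1.1.1.1.val, ⟨(e.1.1.2, e.1.1.1.1.val), ⟨⟨?_, ?_⟩, ?_⟩, rfl⟩, e.2.2.2.symm⟩
    · have := e.2.1
      simp only
      linarith
    · have h3 := e.2.2.1
      have h4 : S.G e.1.1.1.1.val < S.G z1.1.val + 1 := (hVs he).2
      simp only
      linarith
    · exact S.wu_Λ hp.1 e.1.1.1.1.prop
  refine ⟨V, ε, δ, hVo, hz1, hVc.isPreconnected, hε0, hεδ, hεH, ?_, ?_⟩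
  · intro e he z hz
    have hd : dist e.1.2.val (S.π (S.φ e.1.1.2 z.1.val)) < r := by
      have hs : e.1.1.2 ∈ Icc (-R) R := by
        have h3 := e.2.2.1
        have h4 : S.G e.1.1.1.1.val < S.G z1.1.val + 1 := (hVs he).2
        have := e.2.1
        constructor <;> linarith
      have h5 := (hVs he).1 _ hs
      have h6 := (hVs hz).1 _ hs
      rw [e.2.2.2]
      refine (S.π_lip _ _).trans_lt ?_
      have := dist_triangle (S.φ e.1.1.2 e.1.1.1.1.val) (S.φ e.1.1.2 z1.1.val)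
        (S.φ e.1.1.2 z.1.val)
      rw [dist_comm (S.φ e.1.1.2 z1.1.val)] at this
      linarith
    obtain ⟨t, ht, ht2⟩ := h2 _ (hmemK e he) _ hd
    refine ⟨t + e.1.1.2, by simpa using ht, ?_⟩
    rwa [S.φ_add]
  · intro e he z t t' htt h3 h4
    have h5 := h1 _ (hmemK e he) (S.φ t' z.1.val) (t - t') htt h4
      (by rw [← S.φ_add]; simpa using h3)
    linarith

/-- the local covering structure -/
theorem B05b_cover {p : X} (hp : S.Inf p) {q : M} (hq : q ∈ S.H) (hqB : q ∉ S.B)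
    (hlc : LocallyConnectedSpace (S.Pt p)) :
    IsCoveringMap (fun e : S.B05bE p q => e.1.1.1) := by
  intro z1
  obtain ⟨V, ε, δ, hVo, hz1, hVc, hε0, hεδ, hεH, hex, hun⟩ := B05b_local hp hq hlc z1
  have hεH' : ε ≤ S.εH := by linarith
  have hex' : ∀ (e : S.B05bE p q) (z : S.Pt p), ∃ t : ℝ, e.1.1.1 ∈ V → z ∈ V →
      |t - e.1.1.2| ≤ ε ∧ S.π (S.φ t z.1.val) ∈ WUl S.g ε e.1.2.val := by
    intro e z
    by_cases h : e.1.1.1 ∈ V ∧ z ∈ V
    · obtain ⟨t, ht⟩ := hex e h.1 z h.2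
      exact ⟨t, fun _ _ => ht⟩
    · exact ⟨0, fun h1 h2 => absurd ⟨h1, h2⟩ h⟩
  choose T hT using hex'
  have hWU : ∀ (e : S.B05bE p q) (z : S.Pt p), e.1.1.1 ∈ V → z ∈ V →
      S.π (S.φ (T e z) z.1.val) ∈ WU S.g q := by
    intro e z he hz
    have h1 := (hT e z he hz).2
    have h2 : e.1.2.val ∈ S.H := B05b_memH hq e.1.2.prop _ e.2.2.2
    exact wu_trans e.1.2.prop (S.wul_wu_H h2 (B05b_wul_mono h1 hεH'))
  have hTe : ∀ e : S.B05bE p q, e.1.1.1 ∈ V → T e e.1.1.1 = e.1.1.2 := by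
    intro e he
    have h1 := hT e _ he he
    refine hun e he e.1.1.1 _ _ (h1.1.trans (by linarith)) (B05b_wul_mono h1.2 hεH') ?_
    rw [← e.2.2.2]
    exact wul_self S.εH_pos.le
  have hcont : ∀ e : S.B05bE p q, e.1.1.1 ∈ V → ∀ z ∈ V, ∀ η > 0, ∀ᶠ z' in 𝓝 z, z' ∈ V →
      |T e z' - T e z| ≤ η ∧
        S.π (S.φ (T e z') z'.1.val) ∈ WUl S.g η (S.π (S.φ (T e z) z.1.val)) := by
    intro e he z hz η hη
    set η' : ℝ := min η ε with hη'
    have hη'0 : 0 < η' := lt_min hη hε0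
    have hη'ε : η' ≤ ε := min_le_right _ _
    have hη'η : η' ≤ η := min_le_left _ _
    set w' : M := S.π (S.φ (T e z) z.1.val) with hw'
    have hwH : w' ∈ S.H := B05b_memH hq (hWU e z he hz) _ rfl
    obtain ⟨r, hr, h2⟩ := S.CSH2 {w'} (by rintro x rfl; exact ⟨hwH, _, rfl⟩) isCompact_singleton η' hη'0
    have hc : Continuous fun z' : S.Pt p => dist (S.φ (T e z) z.1.val) (S.φ (T e z) z'.1.val) := by
      have hv : Continuous fun z' : S.Pt p => z'.1.val :=
        ULeaf.continuous_val.comp continuous_subtype_val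
      exact continuous_const.dist (S.φ_cont.comp (continuous_const.prodMk hv))
    have h3 : ∀ᶠ z' in 𝓝 z, dist (S.φ (T e z) z.1.val) (S.φ (T e z) z'.1.val) < r :=
      hc.continuousAt.eventually_lt continuousAt_const (by simpa using hr)
    filter_upwards [h3] with z' h4 hz'
    obtain ⟨t, ht, ht2⟩ := h2 w' rfl (S.φ (T e z) z'.1.val) ((S.π_lip _ _).trans_lt h4)
    rw [← S.φ_add] at ht2
    have h5 := hT e z he hz
    have h6 := hT e z' he hz'
    have h7 : T e z' = t + T e z := by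
      refine hun e he z' _ _ ?_ (B05b_wul_mono h6.2 hεH') (B05b_wul_trans h5.2 ht2 (by linarith))
      have : T e z' - (t + T e z) = (T e z' - e.1.1.2) - (T e z - e.1.1.2) - t := by ring
      rw [this]
      refine (abs_sub _ _).trans ?_
      have := abs_sub (T e z' - e.1.1.2) (T e z - e.1.1.2)
      linarith [h5.1, h6.1]
    refine ⟨?_, ?_⟩
    · rw [h7]; simpa using ht.trans hη'η
    · rw [h7]; exact B05b_wul_mono ht2 hη'η
  have hTc : ∀ e : S.B05bE p q, e.1.1.1 ∈ V → ContinuousOn (T e) V := by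
    intro e he z hz
    rw [ContinuousWithinAt, Metric.tendsto_nhds]
    intro η hη
    have := hcont e he z hz (η / 2) (by positivity)
    filter_upwards [self_mem_nhdsWithin, nhdsWithin_le_nhds this] with z' hz' h
    rw [Real.dist_eq]
    exact (h hz').1.trans_lt (by linarith)
  have hpos : ∀ e : S.B05bE p q, e.1.1.1 ∈ V → ∀ z ∈ V, 0 < T e z ∧ T e z < S.G z.1.val := by
    intro e he z hz
    constructor
    · by_contra hneg
      push Not at hneg
      have h1 := hVc.intermediate_value hz he (hTc e he)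
      obtain ⟨z', hz', h0⟩ := h1 (a := 0) ⟨hneg, by rw [hTe e he]; exact e.2.1.le⟩
      have h2 := S.not_L hqB (hWU e z' he hz')
      rw [h0, S.φ_zero] at h2
      exact h2 (S.mem_L.2 (S.wu_Λ hp.1 z'.1.prop))
    · by_contra hneg
      push Not at hneg
      have hGc : ContinuousOn (fun z : S.Pt p => S.G z.1.val - T e z) V :=
        (S.G_cont hp).continuousOn.sub (hTc e he)
      have h1 := hVc.intermediate_value hz he hGc
      obtain ⟨z', hz', h0⟩ := h1 (a := 0) ⟨by linarith, by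
        rw [hTe e he]; have := e.2.2.1; linarith⟩
      have h0' : T e z' = S.G z'.1.val := by
        have h00 : S.G z'.1.val - T e z' = 0 := h0
        linarith
      have h2 := S.not_L hqB (hWU e z' he hz')
      rw [h0'] at h2
      obtain ⟨hg, hi⟩ := S.P_gap hp z'
      exact h2 (S.mem_L.2 (S.G_spec hg hi).2.1)
  -- the section through `e`
  let sec : ∀ (e : S.B05bE p q) (z : S.Pt p), e.1.1.1 ∈ V → z ∈ V → S.B05bE p q :=
    fun e z he hz => ⟨((z, T e z), ⟨S.π (S.φ (T e z) z.1.val), hWU e z he hz⟩),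
      (hpos e he z hz).1, (hpos e he z hz).2, rfl⟩
  have hback : ∀ (e : S.B05bE p q) (z : S.Pt p) (he : e.1.1.1 ∈ V) (hz : z ∈ V),
      sec (sec e z he hz) e.1.1.1 hz he = e := by
    intro e z he hz
    have h1 := hT e z he hz
    have h2 := hT (sec e z he hz) e.1.1.1 hz he
    have h3 : T (sec e z he hz) e.1.1.1 = e.1.1.2 := by
      refine hun (sec e z he hz) hz e.1.1.1 _ _ ?_ (B05b_wul_mono h2.2 hεH') ?_
      · have h4 : |T (sec e z he hz) e.1.1.1 - T e z| ≤ ε := h2.1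
        have : T (sec e z he hz) e.1.1.1 - e.1.1.2
          = (T (sec e z he hz) e.1.1.1 - T e z) + (T e z - e.1.1.2) := by ring
        rw [this]
        refine (abs_add_le _ _).trans ?_
        linarith [h1.1]
      · have h4 : e.1.2.val ∈ WUl S.g ε (S.π (S.φ (T e z) z.1.val)) := B05b_wul_symm h1.2
        rw [← e.2.2.2]
        exact B05b_wul_mono h4 hεH'
    have h5 : (sec (sec e z he hz) e.1.1.1 hz he).1.2.val = e.1.2.val := by
      change S.π (S.φ (T (sec e z he hz) e.1.1.1) e.1.1.1.1.val) = _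
      rw [h3]; exact e.2.2.2.symm
    apply Subtype.ext
    refine Prod.ext (Prod.ext rfl h3) (ULeaf.val_injective h5)
  have hseccont : ∀ (e : S.B05bE p q) (he : e.1.1.1 ∈ V),
      Continuous fun z : V => sec e z.1 he z.2 := by
    intro e he
    rw [continuous_iff_continuousAt]
    rintro ⟨z, hz⟩
    refine (Topology.IsInducing.subtypeVal).continuousAt_iff.2 ?_
    refine ContinuousAt.prodMk (ContinuousAt.prodMk continuousAt_subtype_val ?_) ?_
    · exact ((hTc e he).domRestrict.continuousAt (x := ⟨z, hz⟩))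
    · rw [ContinuousAt, Metric.tendsto_nhds]
      intro η hη
      have := hcont e he z hz (η / 2) (by positivity)
      have h2 : ∀ᶠ z' : V in 𝓝 (⟨z, hz⟩ : V), z'.1 ∈ V → |T e z'.1 - T e z| ≤ η / 2 ∧
        S.π (S.φ (T e z'.1) z'.1.1.val) ∈ WUl S.g (η / 2) (S.π (S.φ (T e z) z.1.val)) :=
        (continuous_subtype_val.tendsto (⟨z, hz⟩ : V)).eventually this
      filter_upwards [h2] with z' h
      rw [dist_comm]
      refine lt_of_le_of_lt ((ULeaf.dist_le_iff _ _ (η / 2)).2 (h z'.2).2) (by linarith)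
  have hdisc : DiscreteTopology ((fun e : S.B05bE p q => e.1.1.1) ⁻¹' {z1}) := by
    have hr : 0 < min δ S.εH := lt_min (by linarith) S.εH_pos
    refine DiscreteTopology.of_forall_le_dist hr ?_
    rintro ⟨e, he⟩ ⟨e', he'⟩ hne
    simp only [mem_preimage, mem_singleton_iff] at he he'
    by_contra hlt
    push Not at hlt
    apply hne
    have hd : dist e.1 e'.1 < min δ S.εH := hlt
    have hd1 : |e.1.1.2 - e'.1.1.2| ≤ δ := by
      have h1 : dist e.1.1.2 e'.1.1.2 ≤ dist e.1 e'.1 :=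
        (le_max_right _ _).trans (le_max_left _ _)
      rw [Real.dist_eq] at h1
      exact h1.trans (hd.le.trans (min_le_left _ _))
    have hd2 : dist e.1.2 e'.1.2 ≤ S.εH := by
      have h1 : dist e.1.2 e'.1.2 ≤ dist e.1 e'.1 := le_max_right _ _
      exact h1.trans (hd.le.trans (min_le_right _ _))
    have hd3 := (ULeaf.dist_le_iff _ _ _).1 hd2
    have hzz : e'.1.1.1 = e.1.1.1 := he'.trans he.symm
    have h3 : e.1.1.2 = e'.1.1.2 := by
      refine hun e (by rw [he]; exact hz1) e.1.1.1 _ _ hd1 ?_ ?_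
      · rw [← e.2.2.2]; exact wul_self S.εH_pos.le
      · rw [← hzz, ← e'.2.2.2]; exact hd3
    apply Subtype.ext
    apply Subtype.ext
    refine Prod.ext (Prod.ext hzz.symm h3) (ULeaf.val_injective ?_)
    rw [e.2.2.2, e'.2.2.2, hzz, h3]
  refine ⟨hdisc, V, hz1, hVo, hVo.preimage (by fun_prop), ?_⟩
  refine ⟨{ toFun := fun e => (⟨e.1.1.1.1, e.2⟩, ⟨sec e.1 z1 e.2 hz1, rfl⟩)
            invFun := fun c => ⟨sec c.2.1 c.1.1 (by
              have := c.2.2
              simp only [mem_preimage, mem_singleton_iff] at this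
              rw [this]; exact hz1) c.1.2, c.1.2⟩
            left_inv := ?_
            right_inv := ?_
            continuous_toFun := ?_
            continuous_invFun := ?_ }, fun e => rfl⟩
  · rintro ⟨e, he⟩
    exact Subtype.ext (hback e z1 he hz1)
  · rintro ⟨⟨z, hz⟩, ⟨e, he⟩⟩
    simp only [mem_preimage, mem_singleton_iff] at he
    have h1 := hback e z (by rw [he]; exact hz1) hz
    refine Prod.ext rfl (Subtype.ext ?_)
    simp only
    subst he
    exact h1
  · refine Continuous.prodMk (by fun_prop) ?_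
    refine Continuous.subtype_mk ?_ _
    refine IsLocallyConstant.continuous ?_
    rw [IsLocallyConstant.iff_eventually_eq]
    rintro ⟨e, he⟩
    have hN : ∀ᶠ e' in 𝓝 (⟨e, he⟩ : ((fun e : S.B05bE p q => e.1.1.1) ⁻¹' V)),
        dist e'.1.1 e.1 < ε := by
      have hc : Continuous fun e' : ((fun e : S.B05bE p q => e.1.1.1) ⁻¹' V) =>
        dist e'.1.1 e.1 := by fun_prop
      exact hc.continuousAt.eventually_lt continuousAt_const (by simpa using hε0)
    filter_upwards [hN] with e' hd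
    have hd1 : |e'.1.1.1.2 - e.1.1.2| ≤ ε := by
      have h1 : dist e'.1.1.1.2 e.1.1.2 ≤ dist e'.1.1 e.1 :=
        (le_max_right _ _).trans (le_max_left _ _)
      rw [Real.dist_eq] at h1
      exact h1.trans hd.le
    have hd2 : dist e.1.2 e'.1.1.2 ≤ ε := by
      rw [dist_comm]
      have h1 : dist e'.1.1.2 e.1.2 ≤ dist e'.1.1 e.1 := le_max_right _ _
      exact h1.trans hd.le
    have hd3 := (ULeaf.dist_le_iff _ _ _).1 hd2
    have h1 := hT e z1 he hz1
    have h2 := hT e'.1 z1 e'.2 hz1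
    have h3 : T e'.1 z1 = T e z1 := by
      refine hun e he z1 _ _ ?_ (B05b_wul_trans hd3 h2.2 (by linarith)) (B05b_wul_mono h1.2 hεH')
      have : T e'.1 z1 - T e z1 = (T e'.1 z1 - e'.1.1.1.2) + (e'.1.1.1.2 - e.1.1.2)
        - (T e z1 - e.1.1.2) := by ring
      rw [this]
      refine (abs_sub _ _).trans ?_
      have := abs_add_le (T e'.1 z1 - e'.1.1.1.2) (e'.1.1.1.2 - e.1.1.2)
      linarith [h1.1, h2.1]
    apply Subtype.ext
    refine Prod.ext (Prod.ext rfl h3) (ULeaf.val_injective ?_)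
    change S.π (S.φ (T e'.1 z1) z1.1.val) = S.π (S.φ (T e z1) z1.1.val)
    rw [h3]
  · refine Continuous.subtype_mk ?_ _
    rw [continuous_prod_of_discrete_right]
    rintro ⟨e, he⟩
    have he' : e.1.1.1 = z1 := he
    exact hseccont e (by rw [he']; exact hz1)

variable (S) in
/-- `E = {(z,y) | y ∈ leaf of q on the open gap arc of z} → Pt p` is a covering; `Pt p` is simply
connected, so sections exist through every point. -/
theorem exists_sec (hm : 3 ≤ m) {p : X} (hp : S.Inf p) {q : M} (hq : q ∈ S.H) (hqB : q ∉ S.B)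
    (z0 : S.Pt p) (s0 : ℝ) (h0 : 0 < s0) (h1 : s0 < S.G z0.1.val)
    (h2 : S.π (S.φ s0 z0.1.val) ∈ WU S.g q) : ∃ a : S.Sec p q, a.s z0 = s0 := by
  have hexh := S.exh p hp.1
  have : SimplyConnectedSpace (S.Pt p) := leaf_punct hm hexh p
  have : LocallyPathConnectedSpace (S.Pt p) := leaf_punct_lpc hexh p
  have hcov := B05b_cover hp hq hqB (inferInstance : LocallyConnectedSpace (S.Pt p))
  obtain ⟨F, ⟨hF0, hF1⟩, -⟩ := hcov.existsUnique_continuousMap_lifts
    (ContinuousMap.id (S.Pt p)) z0 ⟨((z0, s0), ⟨_, h2⟩), h0, h1, rfl⟩ rfl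
  have hz : ∀ z, (F z).1.1.1 = z := fun z => congrFun hF1 z
  refine ⟨{ s := fun z => (F z).1.1.2
            y := fun z => (F z).1.2
            cs := by fun_prop
            cy := by fun_prop
            pos := fun z => (F z).2.1
            lt := fun z => by
              have := (F z).2.2.1
              rwa [hz z] at this
            eq := fun z => by
              have := (F z).2.2.2
              rwa [hz z] at this }, ?_⟩
  simp only
  rw [hF0]

end SD
end Pool.MP85
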