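import Pool.Agent.Lib.MP_85e637_an.AbsB
import Pool.Agent.Lib.MP_85e637_an.A01
import Pool.Agent.Lib.MP_85e637_an.A02
import Pool.Agent.Lib.MP_85e637_an.A12
import Pool.Agent.Lib.MP_85e637_an.B02b
import Pool.Agent.Lib.MP_85e637_an.B03
import Pool.Agent.Lib.MP_85e637_an.B05a

/-!
# B06: a section over the punctured leaf of a separatrix point contains a neighbourhood of infinity
-/

open Filter Topology Set Metric

namespace Pool.MP85

namespace SD
variable {m : ℕ} {X M : Type} [MetricSpace X] [MetricSpace M] [CompactSpace M] (S : SD m X M)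

theorem B06_unif {d : ℝ} (hd : 0 < d) : ∃ ε1 > 0, ∀ x ∈ S.Λ, ∀ t : ℝ, |t| < ε1 →
    dist (S.φ t x) x < d := by
  have h1 : ∀ᶠ t in 𝓝 (0 : ℝ), ∀ x ∈ S.Λ, dist (S.φ t x) x < d := by
    apply S.Λ_cpt.eventually_forall_of_forall_eventually
    intro x _
    have hc : Continuous fun q : ℝ × X => dist (S.φ q.1 q.2) q.2 := S.φ_cont.dist continuous_snd
    have h2 : Tendsto (fun q : ℝ × X => dist (S.φ q.1 q.2) q.2) (𝓝 (0, x)) (𝓝 0) := by
      have := hc.tendsto (0, x)
      simpa [S.φ_zero] using this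
    exact h2.eventually (gt_mem_nhds hd)
  obtain ⟨ε1, hε1, h2⟩ := Metric.eventually_nhds_iff.1 h1
  refine ⟨ε1, hε1, fun x hx t ht => h2 ?_ x hx⟩
  simpa [Real.dist_eq] using ht

/-- near each point of the leaf of `q` only a compact part of the section is seen -/
theorem B06_loc {p : X} (hp : S.Inf p) {q : M} (hqB : q ∉ S.B) (a : S.Sec p q)
    (w : ULeaf S.g q) : ∃ N ∈ 𝓝 w, ∃ K : Set (ULeaf S.F p), IsCompact K ∧
      ∀ z : S.Pt p, a.y z ∈ N → z.1 ∈ K := by
  have hw : w.val ∉ S.L := S.not_L hqB w.prop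
  have hLc : IsClosed S.L := S.L_compact.isClosed
  obtain ⟨d, hd, hball⟩ := Metric.mem_nhds_iff.1 (hLc.isOpen_compl.mem_nhds hw)
  obtain ⟨ε1, hε1, hu⟩ := S.B06_unif (half_pos hd)
  obtain ⟨K, hK, hG⟩ := S.toAF.G_small hp ε1 hε1
  refine ⟨ball w (d / 2), ball_mem_nhds _ (half_pos hd), K, hK, fun z hz => ?_⟩
  by_contra hzK
  have hG1 := (hG z.1 hzK).2
  have hzΛ : z.1.val ∈ S.Λ := S.toAF.wu_Λ hp.1 z.1.prop
  have h1 : dist (S.φ (a.s z) z.1.val) z.1.val < d / 2 := by
    apply hu _ hzΛ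
    rw [abs_of_pos (a.pos z)]
    exact (a.lt z).trans hG1
  have h2 : dist (S.π (S.φ (a.s z) z.1.val)) (S.π z.1.val) < d / 2 := (S.π_lip _ _).trans_lt h1
  rw [← a.eq z] at h2
  have h3 : dist (a.y z).val w.val < d / 2 := (ULeaf.dist_val_le _ _).trans_lt hz
  have h4 : dist (S.π z.1.val) w.val < d := by
    calc dist (S.π z.1.val) w.val ≤ dist (S.π z.1.val) (a.y z).val + dist (a.y z).val w.val :=
          dist_triangle _ _ _
      _ < d / 2 + d / 2 := by
          rw [dist_comm (S.π z.1.val)]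
          exact add_lt_add h2 h3
      _ = d := by ring
  exact hball h4 ⟨z.1.val, hzΛ, rfl⟩

theorem Sec.infinity (hm : 3 ≤ m) {p : X} (hp : S.Inf p) {q : M} (hq : q ∈ S.H) (hqB : q ∉ S.B)
    (a : S.Sec p q) : ∃ K : Set (ULeaf S.g q), IsCompact K ∧ ∀ w ∉ K, w ∈ range a.y := by
  set ph : ULeaf S.F p := ⟨p, wu_self⟩ with hph
  set ε := S.ε0 / 2 with hε
  have hε0 : 0 < ε := half_pos S.ε0_pos
  have hRc : IsCompact {z : ULeaf S.F p | dist ph z ≤ ε} := by
    have h1 := S.toAF.compact_plaque hp.1 hp.1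
    have h2 : {z : ULeaf S.F p | dist ph z ≤ ε} =
        {y : ULeaf S.F p | y.val ∈ WUl S.F (S.ε0 / 2) p} := by
      ext z
      exact ULeaf.dist_le_iff ph z ε
    rw [h2]
    exact h1
  -- the three parts of the punctured leaf
  set P1 : Set (S.Pt p) := {z | ε ≤ dist ph z.1} with hP1
  set P2 : Set (S.Pt p) := {z | ε < dist ph z.1} with hP2
  set P3 : Set (S.Pt p) := {z | dist ph z.1 = ε} with hP3
  set E : Set (ULeaf S.g q) := a.y '' P1 with hE
  have hcd : Continuous fun z : ULeaf S.F p => dist ph z := continuous_const.dist continuous_id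
  have hne : ∀ z : ULeaf S.F p, ε ≤ dist ph z → z.val ≠ p := by
    intro z hz hzp
    have : z = ph := ULeaf.val_injective hzp
    rw [this, dist_self] at hz
    linarith
  -- compactness of pieces
  have hcomp : ∀ K : Set (ULeaf S.F p), IsCompact K →
      IsCompact {z : S.Pt p | z.1 ∈ K ∧ ε ≤ dist ph z.1} := by
    intro K hK
    have h1 : IsCompact (K ∩ {z | ε ≤ dist ph z}) := hK.inter_right (isClosed_le continuous_const hcd)
    have h2 : {z : S.Pt p | z.1 ∈ K ∧ ε ≤ dist ph z.1} =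
        Subtype.val ⁻¹' (K ∩ {z | ε ≤ dist ph z}) := rfl
    rw [h2]
    refine (Topology.IsInducing.subtypeVal.isCompact_preimage_iff ?_).2 h1
    rintro z ⟨_, hz⟩
    exact ⟨⟨z, hne z hz⟩, rfl⟩
  have hP3c : IsCompact (a.y '' P3) := by
    have h1 : IsCompact P3 := by
      have h2 := hcomp _ hRc
      refine h2.of_isClosed_subset ?_ ?_
      · exact isClosed_eq (hcd.comp continuous_subtype_val) continuous_const
      · intro z hz
        exact ⟨le_of_eq hz, ge_of_eq hz⟩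
    exact h1.image a.cy
  have hEcl : IsClosed E := by
    rw [← closure_subset_iff_isClosed]
    intro w hw
    obtain ⟨N, hN, K, hK, hz⟩ := S.B06_loc hp hqB a w
    have h1 : w ∈ closure (N ∩ E) := by
      rw [mem_closure_iff_nhds] at hw ⊢
      intro t ht
      obtain ⟨w', hw', hw'E⟩ := hw (t ∩ N) (inter_mem ht hN)
      exact ⟨w', hw'.1, hw'.2, hw'E⟩
    have h2 : IsCompact (a.y '' {z : S.Pt p | z.1 ∈ K ∧ ε ≤ dist ph z.1}) :=
      (hcomp K hK).image a.cy
    have h3 : N ∩ E ⊆ a.y '' {z : S.Pt p | z.1 ∈ K ∧ ε ≤ dist ph z.1} := by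
      rintro w' ⟨hw'N, z, hzP, rfl⟩
      exact ⟨z, ⟨hz z hw'N, hzP⟩, rfl⟩
    have h4 := closure_minimal h3 h2.isClosed h1
    obtain ⟨z, hz', rfl⟩ := h4
    exact ⟨z, hz'.2, rfl⟩
  have hUo : IsOpen (a.y '' P2) := by
    apply Sec.isOpenMap S hp hq hqB a
    exact isOpen_lt continuous_const (hcd.comp continuous_subtype_val)
  obtain ⟨K', hK', hsub, hconn⟩ := leaf_oneended (by omega) (S.H_exh q hq) hP3c
  refine ⟨K', hK', ?_⟩
  have hcov : K'ᶜ ⊆ a.y '' P2 ∪ Eᶜ := by
    intro w hw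
    by_cases hwE : w ∈ E
    · left
      obtain ⟨z, hz, rfl⟩ := hwE
      have hz1 : ε ≤ dist ph z.1 := hz
      have hz2 : ε < dist ph z.1 := by
        refine lt_of_le_of_ne hz1 ?_
        intro h
        exact hw (hsub ⟨z, h.symm, rfl⟩)
      exact ⟨z, hz2, rfl⟩
    · exact Or.inr hwE
  have hdisj : Disjoint (a.y '' P2) Eᶜ := by
    rw [disjoint_compl_right_iff_subset]
    refine image_mono ?_
    intro z hz
    have hz2 : ε < dist ph z.1 := hz
    exact hz2.le
  have hmeet : (K'ᶜ ∩ a.y '' P2).Nonempty := by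
    by_contra hcon
    rw [not_nonempty_iff_eq_empty] at hcon
    have hEK : E ⊆ K' := by
      intro w hwE
      by_contra hw
      rcases hcov hw with h | h
      · have : w ∈ K'ᶜ ∩ a.y '' P2 := ⟨hw, h⟩
        rw [hcon] at this
        exact this
      · exact h hwE
    -- then the leaf of `p` is compact
    choose N hN K hK hz using fun w : ULeaf S.g q => S.B06_loc hp hqB a w
    obtain ⟨t, -, ht⟩ := hK'.elim_nhds_subcover N (fun w _ => hN w)
    have hbig : IsCompact ({z : ULeaf S.F p | dist ph z ≤ ε} ∪ ⋃ w ∈ t, K w) :=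
      hRc.union (t.finite_toSet.isCompact_biUnion fun w _ => hK w)
    refine leaf_noncompact (by omega) (S.exh p hp.1) hbig ?_
    rw [eq_univ_iff_forall]
    intro z
    by_cases hzε : dist ph z ≤ ε
    · exact Or.inl hzε
    · push Not at hzε
      right
      have h1 : a.y ⟨z, hne z hzε.le⟩ ∈ K' := hEK ⟨⟨z, hne z hzε.le⟩, hzε.le, rfl⟩
      obtain ⟨w, hw, hwN⟩ := mem_iUnion₂.1 (ht h1)
      exact mem_iUnion₂.2 ⟨w, hw, hz w _ hwN⟩
  have hfin := hconn.isPreconnected.subset_left_of_subset_union hUo hEcl.isOpen_compl hdisj hcov hmeet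
  intro w hw
  obtain ⟨z, _, rfl⟩ := hfin hw
  exact ⟨z, rfl⟩

end SD

end Pool.MP85
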