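import Pool.Agent.Lib.MP_85e637_an.Abs
import Pool.Agent.Lib.MP_85e637_an.AbsB
import Pool.Agent.Lib.MP_85e637_an.A01
import Pool.Agent.Lib.MP_85e637_an.A02
import Pool.Agent.Lib.MP_85e637_an.A10
import Pool.Agent.Lib.MP_85e637_an.A11
import Pool.Agent.Lib.MP_85e637_an.A12
import Pool.Agent.Lib.MP_85e637_an.B02b
import Pool.Agent.Lib.MP_85e637_an.B03
import Pool.Agent.Lib.MP_85e637_an.B05b
import Pool.Agent.Lib.MP_85e637_an.B06

/-!
# B07: unstable manifolds entering the basin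
-/

open Filter Topology Set Metric

namespace Pool.MP85

namespace AF
variable {m : ℕ} {X M : Type} [MetricSpace X] [MetricSpace M] (A : AF m X M)

/-- for a point outside `Λ` some `σ`-translate starts after a gap start -/
theorem B07_gap (x : X) (hx : x ∉ A.Λ) : ∃ x', A.π x' = A.π x ∧ ∃ a > 0, ∃ p,
    A.Gap p ∧ A.φ a p = x' ∧ ∀ s ∈ Ioc 0 a, A.φ s p ∉ A.Λ := by
  -- first the case of a negative `Λ`-time
  have key : ∀ x : X, x ∉ A.Λ → (∃ t ∈ A.LT x, t ≤ 0) → ∃ a > 0, ∃ p,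
      A.Gap p ∧ A.φ a p = x ∧ ∀ s ∈ Ioc 0 a, A.φ s p ∉ A.Λ := by
    intro x hx ⟨t, ht, ht0⟩
    have hcl : IsClosed (A.LT x ∩ Iic 0) := (A.isClosed_LT x).inter isClosed_Iic
    have hne : (A.LT x ∩ Iic 0).Nonempty := ⟨t, ht, ht0⟩
    have hbd : BddAbove (A.LT x ∩ Iic 0) := ⟨0, fun s hs => hs.2⟩
    have hmem := hcl.csSup_mem hne hbd
    set b := sSup (A.LT x ∩ Iic 0) with hb
    have hb0 : b ≠ 0 := by
      intro h0
      apply hx
      have h1 : A.φ b x ∈ A.Λ := hmem.1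
      rwa [h0, A.φ_zero] at h1
    have hblt : b < 0 := lt_of_le_of_ne hmem.2 hb0
    have hno : ∀ s ∈ Ioc 0 (-b), A.φ s (A.φ b x) ∉ A.Λ := by
      intro s hs hmem'
      rw [← A.φ_add] at hmem'
      have h2 : s + b ∈ A.LT x ∩ Iic 0 := ⟨hmem', by
        have := hs.2
        show s + b ≤ 0
        linarith⟩
      have h3 := le_csSup hbd h2
      have h4 := hs.1
      rw [← hb] at h3
      linarith
    refine ⟨-b, by linarith, A.φ b x, ⟨hmem.1, -b, by linarith, fun s hs => hno s ⟨hs.1, hs.2.le⟩⟩,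
      ?_, hno⟩
    rw [← A.φ_add, neg_add_cancel, A.φ_zero]
  obtain ⟨t, ht⟩ := A.exists_LT x
  rcases le_total t 0 with h | h
  · obtain ⟨a, ha, p, hp⟩ := key x hx ⟨t, ht, h⟩
    exact ⟨x, rfl, a, ha, p, hp⟩
  · have hσx : A.σ x ∉ A.Λ := fun h => hx ((A.σΛ x).1 h)
    have h1 : -t ∈ A.LT (A.σ x) := by
      show A.φ (-t) (A.σ x) ∈ A.Λ
      rw [← A.σφ]
      exact (A.σΛ _).2 ht
    obtain ⟨a, ha, p, hp⟩ := key (A.σ x) hσx ⟨-t, h1, by linarith⟩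
    exact ⟨A.σ x, A.πσ x, a, ha, p, hp⟩

/-- `π` is continuous -/
theorem B07_pi_cont : Continuous A.π := by
  refine LipschitzWith.continuous (K := 1) (LipschitzWith.of_dist_le_mul fun y y' => ?_)
  simpa using A.π_lip y y'

theorem B07_fw_per {Z : Type} [MetricSpace Z] {F : Z ≃ₜ Z} {q : Z} {k : ℕ} (h : fw F k q = q)
    (n : ℕ) : fw F (k * n) q = q := by
  induction n with
  | zero => rfl
  | succ n ih =>
    rw [Nat.mul_succ, fw_add, h, ih]

end AF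

namespace SD
variable {m : ℕ} {X M : Type} [MetricSpace X] [MetricSpace M] [CompactSpace M] (S : SD m X M)

/-- the case of a finite gap -/
theorem B07_case1 {q : M} {p0 : X} {a : ℝ} (ha : 0 < a) (hgap : S.Gap p0) (hni : ¬ S.Inf p0)
    (hno : ∀ s ∈ Ioc 0 a, S.φ s p0 ∉ S.Λ) (hy : S.π (S.φ a p0) ∈ WU S.g q) :
    ∃ p, S.Inf p ∧ ∃ (z0 : S.Pt p) (s0 : ℝ), 0 < s0 ∧ s0 < S.G z0.1.val ∧
      S.π (S.φ s0 z0.1.val) ∈ WU S.g q := by
  obtain ⟨p, hp, k, hk, hpk⟩ := S.exists_periodic hgap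
  have hgp : S.Gap p := S.gap_leaf hgap hp
  have hip : S.Inf p := S.inf_of_periodic hk hpk hgp
  obtain ⟨hG0, hGΛ, -⟩ := S.G_spec hgap hni
  have hlt : a < S.G p0 := by
    by_contra h
    push Not at h
    exact hno _ ⟨hG0, h⟩ hGΛ
  have hne : p0 ≠ p := fun h => hni (h ▸ hip)
  exact ⟨p, hip, ⟨⟨p0, wu_symm hp⟩, hne⟩, a, ha, hlt, hy⟩

/-- the case of an infinite gap -/
theorem B07_case2 (hm : 1 ≤ m) {q : M} (hq : q ∈ S.H) {p : X} {a : ℝ} (ha : 0 < a)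
    (hip : S.Inf p) (hy : S.π (S.φ a p) ∈ WU S.g q) :
    ∃ (z0 : S.Pt p) (s0 : ℝ), 0 < s0 ∧ s0 < S.G z0.1.val ∧
      S.π (S.φ s0 z0.1.val) ∈ WU S.g q := by
  set x : X := S.φ a p with hx
  set y : M := S.π x with hydef
  have hyB : y ∈ range S.π := ⟨x, rfl⟩
  have hyS1 : y ∈ S.S1 := S.B_S1 hyB
  have hyH : y ∈ S.H := S.H_WU q hq y hy hyS1
  have hpΛ : p ∈ S.Λ := hip.1
  obtain ⟨δ, hδ, hCS⟩ := S.CSH1 {y} (by
    intro z hz
    rw [mem_singleton_iff] at hz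
    rw [hz]
    exact ⟨hyH, hyB⟩) isCompact_singleton
  obtain ⟨ε1, hε1, hlarge⟩ := S.G_large hip (a + 1)
  -- size of the plaque
  obtain ⟨ε, hε, hεa, hε1', hεδ, hεε1, hεε0⟩ : ∃ ε > 0, ε < a ∧ ε ≤ 1 ∧ ε ≤ δ ∧ ε ≤ ε1 ∧
      ε ≤ S.ε0 := by
    refine ⟨min (a / 2) (min 1 (min δ (min ε1 S.ε0))), ?_, ?_, ?_, ?_, ?_, ?_⟩
    · have := S.ε0_pos
      positivity
    · exact (min_le_left _ _).trans_lt (by linarith)
    · exact (min_le_right _ _).trans (min_le_left _ _)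
    · exact ((min_le_right _ _).trans (min_le_right _ _)).trans (min_le_left _ _)
    · exact (((min_le_right _ _).trans (min_le_right _ _)).trans (min_le_right _ _)).trans
        (min_le_left _ _)
    · exact (((min_le_right _ _).trans (min_le_right _ _)).trans (min_le_right _ _)).trans
        (min_le_right _ _)
  obtain ⟨r, hr, hCS2⟩ := S.CS2 ε hε
  -- continuity of `φ (-a)` at `x`
  have hcont : Continuous (S.φ (-a)) := S.φ_cont.comp (Continuous.prodMk_right (-a))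
  have hback : S.φ (-a) x = p := by
    rw [hx, ← S.φ_add, neg_add_cancel, S.φ_zero]
  obtain ⟨η, hη, hφ⟩ := Metric.continuousAt_iff.1 (hcont.continuousAt (x := x)) r hr
  obtain ⟨ρ, hρ, hlift⟩ := S.lift x η hη
  obtain ⟨ρ', hρ', hball⟩ := Metric.isOpen_iff.1 S.isOpen_B y hyB
  obtain ⟨y', hy'ne, hy'd⟩ := leaf_perfect hm (S.H_exh q hq) (⟨y, hy⟩ : ULeaf S.g q)
    (ε := min S.εH (min ρ ρ')) (by have := S.εH_pos; positivity)
  have hd : dist y y'.val ≤ dist (⟨y, hy⟩ : ULeaf S.g q) y' :=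
    ULeaf.dist_val_le (⟨y, hy⟩ : ULeaf S.g q) y'
  have hdρ : dist y y'.val < ρ :=
    (hd.trans_lt hy'd).trans_le ((min_le_right _ _).trans (min_le_left _ _))
  have hdρ' : dist y y'.val < ρ' :=
    (hd.trans_lt hy'd).trans_le ((min_le_right _ _).trans (min_le_right _ _))
  have hwul : y'.val ∈ WUl S.g S.εH y :=
    (ULeaf.dist_le_iff (⟨y, hy⟩ : ULeaf S.g q) y' S.εH).1 (hy'd.le.trans (min_le_left _ _))
  have hy'B : y'.val ∈ range S.π := hball (by rw [mem_ball, dist_comm]; exact hdρ')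
  obtain ⟨x', hx'π, hx'd⟩ := hlift y'.val hy'B hdρ
  have h1 : dist p (S.φ (-a) x') < r := by
    have := hφ (by rw [dist_comm]; exact hx'd : dist x' x < η)
    rw [hback, dist_comm] at this
    exact this
  obtain ⟨t, htε, htmem⟩ := hCS2 p hpΛ (S.φ (-a) x') h1
  set z' : X := S.φ t (S.φ (-a) x') with hz'
  have hx'z : S.φ (a - t) z' = x' := by
    rw [hz', ← S.φ_add, ← S.φ_add]
    rw [show a - t + t + -a = 0 by ring, S.φ_zero]
  have habs := abs_le.1 htε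
  have hne : z' ≠ p := by
    intro h
    have h2 : x' = S.φ (-t) x := by
      rw [← hx'z, h, hx, ← S.φ_add]
      congr 1
      ring
    have h3 : -t = 0 := by
      refine hCS y rfl x (-t) ?_ ?_ ?_
      · rw [abs_neg]
        exact htε.trans hεδ
      · exact wul_self S.εH_pos.le
      · rw [← h2, hx'π]
        exact hwul
    have h4 : x' = x := by rw [h2, h3, S.φ_zero]
    apply hy'ne
    apply ULeaf.val_injective
    show y'.val = y
    rw [← hx'π, h4]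
  have hz'wu : z' ∈ WU S.F p := S.wul_wu hpΛ (wul_mono hεε0 htmem)
  have hG : a + 1 < S.G z' := hlarge z' (wul_mono hεε1 htmem) hne
  refine ⟨⟨⟨z', hz'wu⟩, hne⟩, a - t, ?_, ?_, ?_⟩
  · linarith
  · show a - t < S.G z'
    linarith
  · show S.π (S.φ (a - t) z') ∈ WU S.g q
    rw [hx'z, hx'π]
    exact y'.prop

theorem enter (hm : 3 ≤ m) {q : M} (hq : q ∈ S.H) (hqB : q ∉ S.B)
    (h : (WU S.g q ∩ S.B).Nonempty) :
    ∃ p, S.Inf p ∧ ∃ (z0 : S.Pt p) (s0 : ℝ), 0 < s0 ∧ s0 < S.G z0.1.val ∧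
      S.π (S.φ s0 z0.1.val) ∈ WU S.g q := by
  obtain ⟨y, hy, x0, rfl⟩ := h
  have hyL : S.π x0 ∉ S.L := S.not_L hqB hy
  have hx0 : x0 ∉ S.Λ := fun h => hyL (S.mem_L.2 h)
  obtain ⟨x, hxπ, a, ha, p, hgap, hpx, hno⟩ := S.B07_gap x0 hx0
  have hy' : S.π (S.φ a p) ∈ WU S.g q := by
    rw [hpx, hxπ]
    exact hy
  by_cases hi : S.Inf p
  · exact ⟨p, hi, S.B07_case2 (by omega) hq ha hi hy'⟩
  · exact S.B07_case1 ha hgap hi hno hy'

theorem punctured_B (hm : 3 ≤ m) {q : M} (hq : q ∈ S.H) (hqB : q ∉ S.B)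
    (hper : ∃ k > 0, fw S.g k q = q) (h : (WU S.g q ∩ S.B).Nonempty) :
    WU S.g q \ {q} ⊆ S.B := by
  obtain ⟨p, hip, z0, s0, hs0, hs1, hs2⟩ := S.enter hm hq hqB h
  obtain ⟨a, -⟩ := S.exists_sec hm hip hq hqB z0 s0 hs0 hs1 hs2
  obtain ⟨K, hK, hKc⟩ := Sec.infinity S hm hip hq hqB a
  obtain ⟨k, hk, hqk⟩ := hper
  intro w hw
  obtain ⟨n, hn⟩ := S.leave hq hk hqk hK hw.1 hw.2
  have hper' : fw S.g (k * n) q = q := AF.B07_fw_per hqk n
  have hmem : fw S.g (k * n) w ∈ WU S.g q := by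
    have h1 : fw S.g (k * n) w ∈ WU S.g (fw S.g (k * n) q) := (wu_fw (k * n)).2 hw.1
    rwa [hper'] at h1
  obtain ⟨z, hz⟩ := hKc ⟨fw S.g (k * n) w, hmem⟩ (fun hin => hn _ hin rfl)
  have h2 : fw S.g (k * n) w ∈ S.B := by
    have h3 := a.eq z
    rw [hz] at h3
    rw [show fw S.g (k * n) w = _ from h3]
    exact ⟨_, rfl⟩
  exact (S.B_fw (k * n)).1 h2

end SD

end Pool.MP85
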