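import Pool.Agent.Lib.MP_85e637_an.B03

/-!
# B08: the set `Q` and the open set `Bp`
-/

open Filter Topology Set Metric

namespace Pool.MP85

section Gen
variable {Z : Type} [MetricSpace Z] {F : Z ≃ₜ Z} {x y z : Z}

theorem B08_bk_fw_sub {n T : ℕ} (h : n ≤ T) : bk F n (fw F T x) = fw F (T - n) x := by
  conv_lhs => rw [show T = n + (T - n) by omega, fw_add, bk_fw]

theorem B08_ws_fw (n : ℕ) : fw F n y ∈ WS F (fw F n x) ↔ y ∈ WS F x := by
  show Tendsto (fun k => dist (fw F k (fw F n x)) (fw F k (fw F n y))) atTop (𝓝 0) ↔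
    Tendsto (fun k => dist (fw F k x) (fw F k y)) atTop (𝓝 0)
  simp only [← fw_add]
  exact tendsto_add_atTop_iff_nat (f := fun k => dist (fw F k x) (fw F k y)) n

theorem B08_ws_symm (h : y ∈ WS F x) : x ∈ WS F y := by
  have h1 : Tendsto (fun n => dist (fw F n x) (fw F n y)) atTop (𝓝 0) := h
  show Tendsto (fun n => dist (fw F n y) (fw F n x)) atTop (𝓝 0)
  simpa only [dist_comm] using h1

theorem B08_ws_trans (h : y ∈ WS F x) (h' : z ∈ WS F y) : z ∈ WS F x := by
  have h1 : Tendsto (fun n => dist (fw F n x) (fw F n y)) atTop (𝓝 0) := h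
  have h2 : Tendsto (fun n => dist (fw F n y) (fw F n z)) atTop (𝓝 0) := h'
  show Tendsto (fun n => dist (fw F n x) (fw F n z)) atTop (𝓝 0)
  exact squeeze_zero (fun n => dist_nonneg) (fun n => dist_triangle _ (fw F n y) _)
    (by simpa using h1.add h2)

/-- multiples of a period are periods -/
theorem B08_per_mul {q : Z} {k : ℕ} (h : fw F k q = q) (n : ℕ) : fw F (k * n) q = q := by
  induction n with
  | zero => rfl
  | succ n ih => rw [Nat.mul_succ, fw_add, h, ih]

theorem B08_per_mod {q : Z} {k : ℕ} (h : fw F k q = q) (n : ℕ) : fw F n q = fw F (n % k) q := by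
  conv_lhs => rw [← Nat.mod_add_div n k, fw_add, B08_per_mul h]

theorem B08_per_bk {q : Z} {k : ℕ} (h : fw F k q = q) (n : ℕ) : bk F (k * n) q = q := by
  conv_lhs => rw [← B08_per_mul h n, bk_fw]

end Gen

namespace SD
variable {m : ℕ} {X M : Type} [MetricSpace X] [MetricSpace M] [CompactSpace M] (S : SD m X M)

theorem B08_H_fw {x : M} (n : ℕ) : fw S.g n x ∈ S.H ↔ x ∈ S.H := by
  induction n with
  | zero => exact Iff.rfl
  | succ n ih => rw [fw_succ', S.H_inv, ih]

theorem B08_H_bk {x : M} (n : ℕ) : bk S.g n x ∈ S.H ↔ x ∈ S.H := by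
  rw [← S.B08_H_fw n, fw_bk]

theorem Q_g {q : M} : S.g q ∈ S.Q ↔ q ∈ S.Q := by
  have hper : (∃ k > 0, fw S.g k (S.g q) = S.g q) ↔ ∃ k > 0, fw S.g k q = q := by
    constructor
    · rintro ⟨k, hk, h⟩
      refine ⟨k, hk, ?_⟩
      rw [← fw_succ, fw_succ'] at h
      exact S.g.injective h
    · rintro ⟨k, hk, h⟩
      refine ⟨k, hk, ?_⟩
      rw [← fw_succ, fw_succ', h]
  have hwu : WU S.g (S.g q) \ {S.g q} ⊆ S.B ↔ WU S.g q \ {q} ⊆ S.B := by
    constructor
    · rintro h y ⟨hy, hyq⟩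
      have : S.g y ∈ S.B := h ⟨wu_apply.2 hy, fun h' => hyq (S.g.injective h')⟩
      exact S.B_g.1 this
    · rintro h y ⟨hy, hyq⟩
      have h1 : S.g.symm y ∈ WU S.g q := by
        rw [← wu_apply (F := S.g), Homeomorph.apply_symm_apply]; exact hy
      have h2 : S.g.symm y ≠ q := by
        rintro rfl
        apply hyq
        simp
      have := S.B_g.2 (h ⟨h1, h2⟩)
      rwa [Homeomorph.apply_symm_apply] at this
  constructor
  · rintro ⟨h1, h2, h3, h4⟩
    exact ⟨(S.H_inv q).1 h1, fun h => h2 (S.B_g.2 h), hper.1 h3, hwu.1 h4⟩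
  · rintro ⟨h1, h2, h3, h4⟩
    exact ⟨(S.H_inv q).2 h1, fun h => h2 (S.B_g.1 h), hper.2 h3, hwu.2 h4⟩

theorem B08_Q_fw {q : M} (n : ℕ) : fw S.g n q ∈ S.Q ↔ q ∈ S.Q := by
  induction n with
  | zero => exact Iff.rfl
  | succ n ih => rw [fw_succ', S.Q_g, ih]

theorem Q_fin : S.Q.Finite := by
  by_contra hinf
  have hinf : S.Q.Infinite := hinf
  obtain ⟨δ, hδ, hlps⟩ := S.H_lps S.εH S.εH_pos
  -- two different points of `Q` at distance `< δ`
  obtain ⟨q, hq, q', hq', hne, hd⟩ : ∃ q ∈ S.Q, ∃ q' ∈ S.Q, q' ≠ q ∧ dist q q' < δ := by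
    obtain ⟨x, -, hx⟩ := hinf.exists_accPt_of_subset_isCompact isCompact_univ (subset_univ _)
    have h1 : ∃ᶠ y in 𝓝[≠] x, y ∈ S.Q := accPt_iff_frequently_nhdsNE.1 hx
    have h2 : ∀ᶠ y in 𝓝[≠] x, y ∈ ball x (δ / 2) :=
      nhdsWithin_le_nhds (ball_mem_nhds x (by positivity))
    obtain ⟨q, hq, hqx⟩ := (h1.and_eventually h2).exists
    have hqne : ∃ q ∈ S.Q, q ≠ x ∧ dist q x < δ / 2 := by
      have h3 : ∀ᶠ y in 𝓝[≠] x, y ∈ ({x} : Set M)ᶜ := self_mem_nhdsWithin
      obtain ⟨q, hq, hqx, hqx'⟩ := (h1.and_eventually (h2.and h3)).exists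
      exact ⟨q, hq, hqx', hqx⟩
    obtain ⟨q, hq, hqx, hqd⟩ := hqne
    have h4 : ∀ᶠ y in 𝓝[≠] x, y ∈ ({q} : Set M)ᶜ := by
      refine nhdsWithin_le_nhds ?_
      exact isOpen_compl_singleton.mem_nhds (fun h => hqx h.symm)
    obtain ⟨q', hq', hq'd, hq'q⟩ := (h1.and_eventually (h2.and h4)).exists
    refine ⟨q, hq, q', hq', hq'q, ?_⟩
    calc dist q q' ≤ dist q x + dist q' x := dist_triangle_right _ _ _
      _ < δ / 2 + δ / 2 := add_lt_add hqd hq'd
      _ = δ := by ring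
  obtain ⟨z, hz1, hz2⟩ := hlps q hq.1 q' hq'.1 hd
  have hzne : z ≠ q' := by
    rintro rfl
    exact hne (S.periodic_ws hq.2.2.1 hq'.2.2.1 (S.wsl_ws_H hq.1 hz1))
  have hzB : z ∈ S.B := hq'.2.2.2 ⟨S.wul_wu_H hq'.1 hz2, hzne⟩
  exact hq.2.1 ((S.ws_B (S.wsl_ws_H hq.1 hz1)).1 hzB)

theorem Bp_g {x : M} : S.g x ∈ S.Bp ↔ x ∈ S.Bp := by
  constructor
  · rintro (h | ⟨q, hq, h⟩)
    · exact Or.inl (S.B_g.1 h)
    · right
      refine ⟨S.g.symm q, ?_, ?_⟩
      · rw [← S.Q_g, Homeomorph.apply_symm_apply]; exact hq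
      · rw [← B08_ws_fw 1]
        show S.g x ∈ WS S.g (S.g (S.g.symm q))
        rw [Homeomorph.apply_symm_apply]; exact h
  · rintro (h | ⟨q, hq, h⟩)
    · exact Or.inl (S.B_g.2 h)
    · right
      exact ⟨S.g q, S.Q_g.2 hq, (B08_ws_fw 1).2 h⟩

theorem Bp_S1 : S.Bp ⊆ S.S1 := by
  rintro x (h | ⟨q, hq, h⟩)
  · exact S.B_S1 h
  · exact S.S1_WS q hq.1 hq.2.1 hq.2.2.1 hq.2.2.2 x h

/-- The escape argument. -/
theorem B08_escape {q x : M} (hq : q ∈ S.Q) (hx : x ∈ WS S.g q) {ε : ℝ} (hε : 0 < ε)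
    (hε' : ε ≤ S.εH) (y : ℕ → M) (hy : Tendsto y atTop (𝓝 x))
    (hT : ∀ j, ∃ T, ε < dist (fw S.g T x) (fw S.g T (y j))) : ∃ j, y j ∈ S.B := by
  classical
  let T : ℕ → ℕ := fun j => Nat.find (hT j)
  have hT1 : ∀ j, ε < dist (fw S.g (T j) x) (fw S.g (T j) (y j)) := fun j => Nat.find_spec (hT j)
  have hT2 : ∀ j, ∀ n < T j, dist (fw S.g n x) (fw S.g n (y j)) ≤ ε := fun j n hn =>
    not_lt.1 (Nat.find_min (hT j) hn)
  have hTtop : Tendsto T atTop atTop := by
    refine tendsto_atTop.2 fun N => ?_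
    have h1 : ∀ n ∈ Finset.range N, ∀ᶠ j in atTop, dist (fw S.g n x) (fw S.g n (y j)) < ε := by
      intro n _
      have h2 : Tendsto (fun j => dist (fw S.g n x) (fw S.g n (y j))) atTop
          (𝓝 (dist (fw S.g n x) (fw S.g n x))) :=
        tendsto_const_nhds.dist (((continuous_fw n).tendsto x).comp hy)
      rw [dist_self] at h2
      exact h2.eventually_lt_const hε
    have h3 := (Filter.eventually_all_finset (Finset.range N)).2 h1
    filter_upwards [h3] with j hj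
    by_contra hlt
    exact absurd (hT1 j) (not_lt.2 (hj (T j) (Finset.mem_range.2 (not_le.1 hlt))).le)
  -- subsequence
  obtain ⟨⟨e, q'⟩, -, φ, hφ, hlim⟩ := (isCompact_univ (X := M × M)).tendsto_subseq
    (x := fun j => (fw S.g (T j) (y j), fw S.g (T j) q)) (fun _ => mem_univ _)
  have he : Tendsto (fun j => fw S.g (T (φ j)) (y (φ j))) atTop (𝓝 e) :=
    (continuous_fst.tendsto _).comp hlim
  have hq' : Tendsto (fun j => fw S.g (T (φ j)) q) atTop (𝓝 q') :=
    (continuous_snd.tendsto _).comp hlim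
  have hTφ : Tendsto (fun j => T (φ j)) atTop atTop := hTtop.comp hφ.tendsto_atTop
  -- `q'` is in `Q`
  obtain ⟨k, hk, hqk⟩ := hq.2.2.1
  have hq'Q : q' ∈ S.Q := by
    have hfin : ((fun i => fw S.g i q) '' (Set.Iio k)).Finite := (Set.finite_Iio k).image _
    have hmem : q' ∈ (fun i => fw S.g i q) '' (Set.Iio k) := by
      refine hfin.isClosed.mem_of_tendsto hq' (Eventually.of_forall fun j => ?_)
      exact ⟨T (φ j) % k, Nat.mod_lt _ hk, (B08_per_mod hqk _).symm⟩
    obtain ⟨i, -, rfl⟩ := hmem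
    exact (S.B08_Q_fw i).2 hq
  have hx0 : Tendsto (fun n => dist (fw S.g n q) (fw S.g n x)) atTop (𝓝 0) := hx
  have hx1 : Tendsto (fun j => dist (fw S.g (T (φ j)) q) (fw S.g (T (φ j)) x)) atTop (𝓝 0) :=
    hx0.comp hTφ
  -- `e ≠ q'`
  have hde : ε ≤ dist q' e := by
    have h1 : Tendsto (fun j => dist (fw S.g (T (φ j)) q) (fw S.g (T (φ j)) x) +
        dist (fw S.g (T (φ j)) q) (fw S.g (T (φ j)) (y (φ j)))) atTop (𝓝 (0 + dist q' e)) :=
      hx1.add (hq'.dist he)
    rw [zero_add] at h1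
    refine ge_of_tendsto h1 (Eventually.of_forall fun j => ?_)
    refine (hT1 (φ j)).le.trans ?_
    exact dist_triangle_left _ _ _
  have hne : e ≠ q' := by
    rintro rfl
    rw [dist_self] at hde
    exact absurd hde (not_le.2 hε)
  -- `bk 1 e` is in the plaque of `bk 1 q'`
  have hwul : bk S.g 1 e ∈ WUl S.g ε (bk S.g 1 q') := by
    intro n
    rw [← bk_add, ← bk_add]
    have h1 : Tendsto (fun j => dist (bk S.g (n + 1) (fw S.g (T (φ j)) q))
        (bk S.g (n + 1) (fw S.g (T (φ j)) (y (φ j))))) atTop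
        (𝓝 (dist (bk S.g (n + 1) q') (bk S.g (n + 1) e))) :=
      (((continuous_bk (n + 1)).tendsto _).comp hq').dist
        (((continuous_bk (n + 1)).tendsto _).comp he)
    have h2 : Tendsto (fun j => dist (fw S.g (T (φ j) - (n + 1)) q)
        (fw S.g (T (φ j) - (n + 1)) x) + ε) atTop (𝓝 (0 + ε)) := by
      refine Tendsto.add (hx0.comp ?_) tendsto_const_nhds
      exact (tendsto_sub_atTop_nat (n + 1)).comp hTφ
    rw [zero_add] at h2
    refine le_of_tendsto_of_tendsto h1 h2 ?_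
    filter_upwards [hTφ.eventually_ge_atTop (n + 1)] with j hj
    rw [B08_bk_fw_sub hj, B08_bk_fw_sub hj]
    refine (dist_triangle _ (fw S.g (T (φ j) - (n + 1)) x) _).trans ?_
    gcongr
    exact hT2 (φ j) _ (by omega)
  have hq'H : bk S.g 1 q' ∈ S.H := (S.B08_H_bk 1).2 hq'Q.1
  have hwu : e ∈ WU S.g q' := by
    rw [← wu_bk 1]
    exact S.wul_wu_H hq'H (wul_mono hε' hwul)
  have heB : e ∈ S.B := hq'Q.2.2.2 ⟨hwu, hne⟩
  obtain ⟨j, hj⟩ := (he.eventually (S.isOpen_B.mem_nhds heB)).exists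
  exact ⟨φ j, (S.B_fw _).1 hj⟩

theorem isOpen_Bp : IsOpen S.Bp := by
  rw [isOpen_iff_mem_nhds]
  rintro x (hx | ⟨q, hq, hx⟩)
  · exact Filter.mem_of_superset (S.isOpen_B.mem_nhds hx) subset_union_left
  · by_contra hnot
    have h1 : ∃ᶠ y in 𝓝 x, y ∉ S.Bp := by
      intro h
      apply hnot
      filter_upwards [h] with y hy
      exact not_not.1 hy
    have h2 : x ∈ closure {y | y ∉ S.Bp} := mem_closure_iff_frequently.2 h1
    obtain ⟨y, hyB, hy⟩ := mem_closure_iff_seq_limit.1 h2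
    obtain ⟨j, hj⟩ := S.B08_escape hq hx (ε := S.εH / 2) (by have := S.εH_pos; positivity)
      (by have := S.εH_pos; linarith) y hy (by
        intro j
        by_contra hno
        push Not at hno
        -- then `y j` is in the stable set of `q`
        apply hyB j
        right
        refine ⟨q, hq, ?_⟩
        have hx0 : Tendsto (fun n => dist (fw S.g n q) (fw S.g n x)) atTop (𝓝 0) := hx
        obtain ⟨N, hN⟩ := eventually_atTop.1
          (hx0.eventually_le_const (show (0:ℝ) < S.εH / 2 by have := S.εH_pos; positivity))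
        have hH : fw S.g N q ∈ S.H := (S.B08_H_fw N).2 hq.1
        rw [← B08_ws_fw N]
        apply S.wsl_ws_H hH
        intro n
        rw [← fw_add, ← fw_add]
        calc dist (fw S.g (n + N) q) (fw S.g (n + N) (y j))
            ≤ dist (fw S.g (n + N) q) (fw S.g (n + N) x)
              + dist (fw S.g (n + N) x) (fw S.g (n + N) (y j)) := dist_triangle _ _ _
          _ ≤ S.εH / 2 + S.εH / 2 := add_le_add (hN _ (by omega)) (hno _)
          _ = S.εH := by ring)
    exact hyB j (Or.inl hj)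

theorem near_Q {q v : M} (hq : q ∈ S.Q) (hv : v ∈ S.H) (hvq : v ∈ WS S.g q) : ∃ ε > 0,
    ∀ y ∈ WUl S.g ε v, y ≠ v → y ∈ S.B := by
  by_contra hno
  push Not at hno
  have hε0 := S.εH_pos
  have h1 : ∀ j : ℕ, ∃ y ∈ WUl S.g (S.εH / ((j : ℝ) + 1)) v, y ≠ v ∧ y ∉ S.B := fun j =>
    hno (S.εH / ((j : ℝ) + 1)) (by positivity)
  choose y hy1 hy2 hy3 using h1
  have hy : Tendsto y atTop (𝓝 v) := by
    rw [tendsto_iff_dist_tendsto_zero]
    have h2 : Tendsto (fun j : ℕ => S.εH / ((j : ℝ) + 1)) atTop (𝓝 0) := by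
      have := (tendsto_one_div_add_atTop_nhds_zero_nat (𝕜 := ℝ)).const_mul S.εH
      simpa only [mul_one_div, mul_zero] using this
    refine squeeze_zero (fun _ => dist_nonneg) (fun j => ?_) h2
    rw [dist_comm]
    exact wul_dist (hy1 j)
  obtain ⟨j, hj⟩ := S.B08_escape hq hvq (ε := S.εH) hε0 le_rfl y hy (by
    intro j
    by_contra hno'
    push Not at hno'
    apply hy2 j
    refine S.H_exp v hv (y j) (fun n => hno' n) (wul_mono ?_ (hy1 j))
    exact div_le_self hε0.le (by linarith [(Nat.cast_nonneg j : (0:ℝ) ≤ (j:ℝ))]))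
  exact hy3 j hj

theorem Q_closure {q : M} (hq : q ∈ S.Q) : closure (WU S.g q) ⊆ WU S.g q ∪ S.L := by
  classical
  intro y hy
  obtain ⟨u, hu, huy⟩ := mem_closure_iff_seq_limit.1 hy
  obtain ⟨k, hk, hqk⟩ := hq.2.2.1
  have hε0 := S.εH_pos
  have hbkq : ∀ n, bk S.g (k * n) q = q := B08_per_bk hqk
  -- the entrance times
  have hex : ∀ j, ∃ n, bk S.g (k * n) (u j) ∈ WUl S.g S.εH q := by
    intro j
    obtain ⟨n, hn⟩ := mem_wu_iff_eventually.1 (hu j) S.εH hε0
    refine ⟨n, ?_⟩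
    have h1 : bk S.g ((k - 1) * n) (bk S.g n (u j)) ∈
        WUl S.g S.εH (bk S.g ((k - 1) * n) (bk S.g n q)) := wul_bk _ hn
    have h2 : (k - 1) * n + n = k * n := by
      obtain ⟨k', rfl⟩ : ∃ k', k = k' + 1 := ⟨k - 1, by omega⟩
      simp; ring
    rw [← bk_add, ← bk_add, h2, hbkq] at h1
    exact h1
  let N : ℕ → ℕ := fun j => Nat.find (hex j)
  have hN1 : ∀ j, bk S.g (k * N j) (u j) ∈ WUl S.g S.εH q := fun j => Nat.find_spec (hex j)
  have hN2 : ∀ j, ∀ n < N j, bk S.g (k * n) (u j) ∉ WUl S.g S.εH q := fun j n hn =>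
    Nat.find_min (hex j) hn
  by_cases hNt : ∃ n, ∃ᶠ j in atTop, N j = n
  · -- bounded entrance times
    left
    obtain ⟨n, hn⟩ := hNt
    obtain ⟨φ, hφ, hφn⟩ := extraction_of_frequently_atTop hn
    have h1 : Tendsto (fun j => bk S.g (k * n) (u (φ j))) atTop (𝓝 (bk S.g (k * n) y)) :=
      ((continuous_bk _).tendsto _).comp (huy.comp hφ.tendsto_atTop)
    have h2 : bk S.g (k * n) y ∈ WUl S.g S.εH q := by
      refine isClosed_wul'.mem_of_tendsto h1 (Eventually.of_forall fun j => ?_)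
      have := hN1 (φ j)
      rwa [hφn j] at this
    have h3 : bk S.g (k * n) y ∈ WU S.g (bk S.g (k * n) q) := by
      rw [hbkq]; exact S.wul_wu_H hq.1 h2
    exact (wu_bk _).1 h3
  · -- entrance times tend to infinity
    right
    push Not at hNt
    have hNtop : Tendsto N atTop atTop := by
      refine tendsto_atTop.2 fun a => ?_
      have h1 : ∀ n ∈ Finset.range a, ∀ᶠ j in atTop, N j ≠ n := fun n _ => by
        simpa using hNt n
      filter_upwards [(Filter.eventually_all_finset (Finset.range a)).2 h1] with j hj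
      by_contra hlt
      exact hj (N j) (Finset.mem_range.2 (not_le.1 hlt)) rfl
    obtain ⟨e, -, φ, hφ, he⟩ := (isCompact_univ (X := M)).tendsto_subseq
      (x := fun j => bk S.g (k * N j) (u j)) (fun _ => mem_univ _)
    have he : Tendsto (fun j => bk S.g (k * N (φ j)) (u (φ j))) atTop (𝓝 e) := he
    have heW : e ∈ WUl S.g S.εH q :=
      isClosed_wul'.mem_of_tendsto he (Eventually.of_forall fun j => hN1 (φ j))
    have hNφ : Tendsto (fun j => N (φ j)) atTop atTop := hNtop.comp hφ.tendsto_atTop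
    have hne : e ≠ q := by
      rintro rfl
      -- then the `k`-th forward iterate is still in the plaque
      have h1 : ∀ n ∈ Finset.range k, ∀ᶠ j in atTop,
          dist (bk S.g n e) (bk S.g n (fw S.g k (bk S.g (k * N (φ j)) (u (φ j))))) < S.εH := by
        intro n _
        have h2 : Tendsto (fun j => dist (bk S.g n e)
            (bk S.g n (fw S.g k (bk S.g (k * N (φ j)) (u (φ j)))))) atTop
            (𝓝 (dist (bk S.g n e) (bk S.g n (fw S.g k e)))) :=
          tendsto_const_nhds.dist (((continuous_bk n).tendsto _).comp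
            (((continuous_fw k).tendsto _).comp he))
        rw [hqk, dist_self] at h2
        exact h2.eventually_lt_const hε0
      have h3 := (Filter.eventually_all_finset (Finset.range k)).2 h1
      obtain ⟨j, hj, hj1⟩ := (h3.and (hNφ.eventually_ge_atTop 1)).exists
      apply hN2 (φ j) (N (φ j) - 1) (by omega)
      have h4 : bk S.g (k * (N (φ j) - 1)) (u (φ j)) =
          fw S.g k (bk S.g (k * N (φ j)) (u (φ j))) := by
        have h5 : k * N (φ j) = k + k * (N (φ j) - 1) := by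
          obtain ⟨a, ha⟩ : ∃ a, N (φ j) = a + 1 := ⟨N (φ j) - 1, by omega⟩
          rw [ha]; simp; ring
        rw [h5, bk_add, fw_bk]
      rw [h4]
      intro n
      rcases lt_or_ge n k with hnk | hnk
      · exact (hj n (Finset.mem_range.2 hnk)).le
      · obtain ⟨a, rfl⟩ : ∃ a, n = a + k := ⟨n - k, by omega⟩
        have h6 : bk S.g k e = e := by simpa using hbkq 1
        rw [bk_add (x := e) a k, h6, bk_add a k, bk_fw]
        exact hN1 (φ j) a
    have heB : e ∈ S.B := hq.2.2.2 ⟨S.wul_wu_H hq.1 heW, hne⟩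
    -- a compact neighbourhood of `e` inside `B`
    obtain ⟨K, hKn, hKB, hK⟩ := local_compact_nhds (S.isOpen_B.mem_nhds heB)
    have hLcl : IsClosed (S.π '' S.Λ) := S.L_compact.isClosed
    have hLne : (S.π '' S.Λ).Nonempty := S.Λ_ne.image _
    refine (hLcl.mem_iff_infDist_zero hLne).2 ?_
    refine le_antisymm (le_of_forall_pos_le_add fun η hη => ?_) infDist_nonneg
    rw [zero_add]
    obtain ⟨n0, hn0⟩ := S.attrK K hKB hK η hη
    have h7 : Tendsto (fun j => infDist (u (φ j)) (S.π '' S.Λ)) atTop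
        (𝓝 (infDist y (S.π '' S.Λ))) :=
      ((continuous_infDist_pt _).tendsto _).comp (huy.comp hφ.tendsto_atTop)
    refine le_of_tendsto h7 ?_
    filter_upwards [he.eventually hKn, hNφ.eventually_ge_atTop n0] with j hj hjn
    have h8 := hn0 (k * N (φ j)) (hjn.trans (Nat.le_mul_of_pos_left _ hk)) _ hj
    rw [fw_bk] at h8
    exact h8.le

theorem Om_Bp : S.Om ∩ S.Bp ⊆ S.L ∪ S.Q := by
  rintro y ⟨hyOm, hyB⟩
  have hcl : IsClosed (S.L ∪ S.Q) := S.L_compact.isClosed.union S.Q_fin.isClosed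
  rw [← hcl.closure_eq]
  obtain ⟨ε, hε, hball⟩ := Metric.isOpen_iff.1 S.isOpen_Bp y hyB
  rw [Metric.mem_closure_iff]
  intro η hη
  obtain ⟨q, hq, hqper⟩ := S.Om_per y hyOm (min ε η) (lt_min hε hη)
  refine ⟨q, ?_, hq.trans_le (min_le_right _ _)⟩
  have hqB : q ∈ S.Bp := hball (by
    rw [mem_ball, dist_comm]; exact hq.trans_le (min_le_left _ _))
  obtain ⟨k, hk, hqk⟩ := hqper
  rcases hqB with h | ⟨q', hq', h⟩
  · left
    have h1 := (S.mem_B q).1 h
    have hLcl : IsClosed (S.π '' S.Λ) := S.L_compact.isClosed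
    have hLne : (S.π '' S.Λ).Nonempty := S.Λ_ne.image _
    have h2 : Tendsto (fun n : ℕ => infDist (fw S.g (k * n) q) (S.π '' S.Λ)) atTop (𝓝 0) :=
      h1.comp (tendsto_id.const_mul_atTop' hk)
    simp only [B08_per_mul hqk] at h2
    have h3 : infDist q (S.π '' S.Λ) = 0 := tendsto_nhds_unique tendsto_const_nhds h2
    exact (hLcl.mem_iff_infDist_zero hLne).2 h3
  · right
    rw [S.periodic_ws hq'.2.2.1 ⟨k, hk, hqk⟩ h]
    exact hq'

end SD

end Pool.MP85
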