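import Pool.Agent.Lib.MP_85e637_an.B08a

/-!
# B08b: `isOpen_Bp`, `near_Q` are proved in the file `B08a`
-/
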