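import Pool.Agent.Lib.MP_85e637_an.AbsB
import Pool.Agent.Lib.MP_85e637_an.A01
import Pool.Agent.Lib.MP_85e637_an.B03
import Pool.Agent.Lib.MP_85e637_an.B08a
import Pool.Agent.Lib.MP_85e637_an.B08b

/-!
# Row B09a: backward orbits in the closure of `Bp` (used in B09 and B10)
-/

open Filter Topology Set Metric

namespace Pool.MP85

section General
variable {Z : Type} [TopologicalSpace Z]

theorem B09_eventually [CompactSpace Z] {z : ℕ → Z} {W : Set Z} (hW : IsOpen W)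
    (h : ∀ y, MapClusterPt y atTop z → y ∈ W) : ∀ᶠ n in atTop, z n ∈ W := by
  by_contra hcon
  rw [Filter.not_eventually] at hcon
  obtain ⟨y, hy, hc⟩ := hW.isClosed_compl.isCompact.exists_mapClusterPt_of_frequently hcon
  exact hy (h y hc)

theorem B09_dichotomy [T2Space Z] [CompactSpace Z] {h : Z → Z} (hh : Continuous h) {A B : Set Z}
    (hA : IsCompact A) (hB : IsCompact B) (hAB : Disjoint A B) (hA' : ∀ x ∈ A, h x ∈ A)
    (hB' : ∀ x ∈ B, h x ∈ B) {z : ℕ → Z} (hz : ∀ n, z (n + 1) = h (z n))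
    (hc : ∀ y, MapClusterPt y atTop z → y ∈ A ∨ y ∈ B) :
    (∀ y, MapClusterPt y atTop z → y ∈ A) ∨ (∀ y, MapClusterPt y atTop z → y ∈ B) := by
  obtain ⟨U, V, hU, hV, hAU, hBV, hUV⟩ := SeparatedNhds.of_isCompact_isCompact hA hB hAB
  have hU' : IsOpen (U ∩ h ⁻¹' U) := hU.inter (hU.preimage hh)
  have hV' : IsOpen (V ∩ h ⁻¹' V) := hV.inter (hV.preimage hh)
  have hAU' : A ⊆ U ∩ h ⁻¹' U := fun x hx => ⟨hAU hx, hAU (hA' x hx)⟩
  have hBV' : B ⊆ V ∩ h ⁻¹' V := fun x hx => ⟨hBV hx, hBV (hB' x hx)⟩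
  have hev : ∀ᶠ n in atTop, z n ∈ (U ∩ h ⁻¹' U) ∪ (V ∩ h ⁻¹' V) := by
    refine B09_eventually (hU'.union hV') fun y hy => ?_
    rcases hc y hy with h1 | h1
    · exact Or.inl (hAU' h1)
    · exact Or.inr (hBV' h1)
  obtain ⟨N, hN⟩ := eventually_atTop.1 hev
  have hdis : ∀ w, w ∈ U → w ∈ V → False := fun w h1 h2 => Set.disjoint_left.1 hUV h1 h2
  rcases hN N le_rfl with h1 | h1
  · left
    have h2 : ∀ k, z (N + k) ∈ U ∩ h ⁻¹' U := by
      intro k
      induction k with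
      | zero => exact h1
      | succ k ih =>
        rcases hN (N + (k + 1)) (by omega) with h3 | h3
        · exact h3
        · exfalso
          refine hdis _ ?_ h3.1
          rw [← add_assoc, hz]
          exact ih.2
    intro y hy
    rcases hc y hy with h3 | h3
    · exact h3
    · exfalso
      have h4 := (mapClusterPt_iff_frequently.1 hy) _ (hV'.mem_nhds (hBV' h3))
      obtain ⟨n, hn, hn2⟩ := (frequently_atTop.1 h4) N
      obtain ⟨k, rfl⟩ := Nat.exists_eq_add_of_le hn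
      exact hdis _ (h2 k).1 hn2.1
  · right
    have h2 : ∀ k, z (N + k) ∈ V ∩ h ⁻¹' V := by
      intro k
      induction k with
      | zero => exact h1
      | succ k ih =>
        rcases hN (N + (k + 1)) (by omega) with h3 | h3
        · exfalso
          refine hdis _ h3.1 ?_
          rw [← add_assoc, hz]
          exact ih.2
        · exact h3
    intro y hy
    rcases hc y hy with h3 | h3
    · exfalso
      have h4 := (mapClusterPt_iff_frequently.1 hy) _ (hU'.mem_nhds (hAU' h3))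
      obtain ⟨n, hn, hn2⟩ := (frequently_atTop.1 h4) N
      obtain ⟨k, rfl⟩ := Nat.exists_eq_add_of_le hn
      exact hdis _ hn2.1 (h2 k).1
    · exact h3

end General

namespace SD
variable {m : ℕ} {X M : Type} [MetricSpace X] [MetricSpace M] [CompactSpace M] (S : SD m X M)

/-! ### sources -/

theorem B09_src_symm {x : M} : S.g.symm x ∈ S.Src ↔ x ∈ S.Src := by
  rw [← S.Src_inv, Homeomorph.apply_symm_apply]

theorem B09_src_bk {α x : M} (hα : α ∈ S.Src) (hx : dist α x ≤ S.r0) (n : ℕ) :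
    bk S.g n α ∈ S.Src ∧ dist (bk S.g n α) (bk S.g n x) ≤ dist α x / 2 ^ n := by
  induction n with
  | zero => exact ⟨hα, by simp [bk_zero]⟩
  | succ n ih =>
    obtain ⟨h1, h2⟩ := ih
    rw [bk_succ', bk_succ']
    refine ⟨S.B09_src_symm.2 h1, ?_⟩
    have h3 : dist α x / 2 ^ n ≤ dist α x :=
      div_le_self dist_nonneg (one_le_pow₀ (by norm_num))
    refine (S.Src_rep _ h1 _ (h2.trans (h3.trans hx))).trans ?_
    rw [pow_succ, ← div_div]
    exact div_le_div_of_nonneg_right h2 (by norm_num)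

theorem B09_fw_src {α : M} (hα : α ∈ S.Src) (n : ℕ) : fw S.g n α ∈ S.Src := by
  induction n with
  | zero => exact hα
  | succ n ih => rw [fw_succ', S.Src_inv]; exact ih

theorem B09_tendsto_div (c : ℝ) : Tendsto (fun n : ℕ => c / 2 ^ n) atTop (𝓝 0) := by
  have h := (tendsto_pow_atTop_nhds_zero_of_lt_one (r := (1 / 2 : ℝ)) (by norm_num)
    (by norm_num)).const_mul c
  rw [mul_zero] at h
  refine h.congr fun n => ?_
  rw [one_div, inv_pow, div_eq_mul_inv]

theorem B09_src_wu {α x : M} (hα : α ∈ S.Src) (hx : dist α x ≤ S.r0) : x ∈ WU S.g α :=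
  squeeze_zero (fun n => dist_nonneg) (fun n => (S.B09_src_bk hα hx n).2)
    (B09_tendsto_div _)

theorem B09_src_bkwu {α x : M} {n : ℕ} (hα : α ∈ S.Src) (hx : dist α (bk S.g n x) ≤ S.r0) :
    fw S.g n α ∈ S.Src ∧ x ∈ WU S.g (fw S.g n α) := by
  refine ⟨S.B09_fw_src hα n, ?_⟩
  have h := (wu_fw (F := S.g) n).2 (S.B09_src_wu hα hx)
  rwa [fw_bk] at h

theorem B09_src_closed : IsClosed S.Src := S.Src_fin.isClosed

/-- forward orbits of points outside `Src` do not accumulate at `Src` -/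
theorem B09_fw_cluster {x y : M} (hx : x ∉ S.Src)
    (hy : MapClusterPt y atTop (fun n : ℕ => fw S.g n x)) : y ∉ S.Src := by
  intro hyS
  apply hx
  rw [← S.B09_src_closed.closure_eq, Metric.mem_closure_iff]
  intro ε hε
  have h1 := (mapClusterPt_iff_frequently.1 hy) _ (Metric.ball_mem_nhds y
    (lt_min hε S.r0_pos))
  obtain ⟨n, hn⟩ := h1.exists
  rw [Metric.mem_ball, dist_comm] at hn
  obtain ⟨h2, h3⟩ := S.B09_src_bk hyS (hn.le.trans (min_le_right _ _)) n
  refine ⟨_, h2, ?_⟩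
  rw [bk_fw] at h3
  rw [dist_comm]
  calc dist (bk S.g n y) x ≤ dist y (fw S.g n x) / 2 ^ n := h3
    _ ≤ dist y (fw S.g n x) := div_le_self dist_nonneg (one_le_pow₀ (by norm_num))
    _ < ε := hn.trans_le (min_le_left _ _)

/-! ### the nonwandering set -/

theorem B09_fw_mul {q : M} {k : ℕ} (hq : fw S.g k q = q) (j : ℕ) : fw S.g (k * j) q = q := by
  induction j with
  | zero => rfl
  | succ j ih => rw [Nat.mul_succ, fw_add, hq, ih]

theorem B09_per_Om {q : M} (hq : ∃ k > 0, fw S.g k q = q) : q ∈ S.Om := by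
  obtain ⟨k, hk, hkq⟩ := hq
  refine S.Om_fw q q ?_
  rw [mapClusterPt_iff_frequently]
  intro s hs
  rw [frequently_atTop]
  intro n
  refine ⟨k * n, Nat.le_mul_of_pos_left n hk, ?_⟩
  show fw S.g (k * n) q ∈ s
  rw [S.B09_fw_mul hkq]
  exact mem_of_mem_nhds hs

theorem B09_fw_symm (n : ℕ) (x : M) : fw S.g n (S.g.symm x) = S.g.symm (fw S.g n x) := by
  induction n generalizing x with
  | zero => rfl
  | succ n ih =>
    rw [fw_succ', ih, Homeomorph.apply_symm_apply, fw_succ', Homeomorph.symm_apply_apply]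

theorem B09_Om_maps {h : M → M} (hh : Continuous h)
    (hper : ∀ q, (∃ k > 0, fw S.g k q = q) → ∃ k > 0, fw S.g k (h q) = h q) {x : M}
    (hx : x ∈ S.Om) : h x ∈ S.Om := by
  rw [← S.Om_closed.closure_eq, Metric.mem_closure_iff]
  intro ε hε
  obtain ⟨δ, hδ, hd⟩ := Metric.continuous_iff.1 hh x ε hε
  obtain ⟨q, hq, hk⟩ := S.Om_per x hx δ hδ
  refine ⟨h q, S.B09_per_Om (hper q hk), ?_⟩
  rw [dist_comm]
  exact hd q (by rw [dist_comm]; exact hq)

theorem B09_Om_g' {x : M} (hx : x ∈ S.Om) : S.g x ∈ S.Om := by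
  refine S.B09_Om_maps S.g.continuous ?_ hx
  rintro q ⟨k, hk, hq⟩
  refine ⟨k, hk, ?_⟩
  rw [← fw_succ, fw_succ', hq]

theorem B09_Om_symm {x : M} (hx : x ∈ S.Om) : S.g.symm x ∈ S.Om := by
  refine S.B09_Om_maps S.g.symm.continuous ?_ hx
  rintro q ⟨k, hk, hq⟩
  refine ⟨k, hk, ?_⟩
  rw [S.B09_fw_symm, hq]

theorem B09_Om_g {x : M} : S.g x ∈ S.Om ↔ x ∈ S.Om := by
  refine ⟨fun h => ?_, S.B09_Om_g'⟩
  have := S.B09_Om_symm h
  rwa [Homeomorph.symm_apply_apply] at this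

/-! ### the closure of `Bp` -/

theorem B09_cl_g {x : M} : S.g x ∈ closure S.Bp ↔ x ∈ closure S.Bp := by
  have h : S.g ⁻¹' S.Bp = S.Bp := by
    ext y; exact S.Bp_g
  have h2 := S.g.preimage_closure S.Bp
  rw [h] at h2
  show x ∈ S.g ⁻¹' closure S.Bp ↔ _
  rw [h2]

theorem B09_cl_bk {x : M} (n : ℕ) : bk S.g n x ∈ closure S.Bp ↔ x ∈ closure S.Bp := by
  induction n with
  | zero => rfl
  | succ n ih => rw [bk_succ', ← S.B09_cl_g, Homeomorph.apply_symm_apply, ih]

theorem B09_cl_fw {x : M} (n : ℕ) : fw S.g n x ∈ closure S.Bp ↔ x ∈ closure S.Bp := by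
  induction n with
  | zero => rfl
  | succ n ih => rw [fw_succ', S.B09_cl_g, ih]

theorem B09_Bp_bk {x : M} (n : ℕ) : bk S.g n x ∈ S.Bp ↔ x ∈ S.Bp := by
  induction n with
  | zero => rfl
  | succ n ih => rw [bk_succ', ← S.Bp_g, Homeomorph.apply_symm_apply, ih]

theorem B09_Bp_fw {x : M} (n : ℕ) : fw S.g n x ∈ S.Bp ↔ x ∈ S.Bp := by
  induction n with
  | zero => rfl
  | succ n ih => rw [fw_succ', S.Bp_g, ih]

theorem B09_H_bk {x : M} (n : ℕ) : bk S.g n x ∈ S.H ↔ x ∈ S.H := by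
  induction n with
  | zero => rfl
  | succ n ih => rw [bk_succ', ← S.H_inv, Homeomorph.apply_symm_apply, ih]

theorem B09_cl_sub : closure S.Bp ⊆ S.Src ∪ S.S1 :=
  closure_minimal (fun _ hx => Or.inr (S.Bp_S1 hx)) S.closed_S

/-- the nonwandering part of the boundary of `Bp` outside `Src` -/
def B09O : Set M := S.Om ∩ (closure S.Bp \ S.Bp) ∩ S.S1

/-- backward limits of points of `H` in the closure of `Bp` -/
theorem B09_cluster_bk {x : M} (hx : x ∈ S.H) (hxc : x ∈ closure S.Bp) {y : M}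
    (hy : MapClusterPt y atTop (fun n : ℕ => bk S.g n x)) : (y ∈ S.L ∨ y ∈ S.Q) ∨ y ∈ S.B09O := by
  have hyc : y ∈ closure S.Bp := by
    have h := isClosed_closure.mem_of_mapClusterPt hy
      (Eventually.of_forall fun n => (S.B09_cl_bk n).2 hxc)
    exact h
  have hyO : y ∈ S.Om := S.Om_bk x y hy
  have hyS : y ∉ S.Src := by
    intro hyS
    have h1 := (mapClusterPt_iff_frequently.1 hy) _ (Metric.ball_mem_nhds y S.r0_pos)
    obtain ⟨n, hn⟩ := h1.exists
    rw [Metric.mem_ball, dist_comm] at hn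
    obtain ⟨h2, h3⟩ := S.B09_src_bkwu hyS hn.le
    exact S.H_notWU _ h2 x hx h3
  have hy1 : y ∈ S.S1 := (S.B09_cl_sub hyc).resolve_left hyS
  by_cases hyB : y ∈ S.Bp
  · exact Or.inl (S.Om_Bp ⟨hyO, hyB⟩)
  · exact Or.inr ⟨⟨hyO, hyc, hyB⟩, hy1⟩

theorem B09_L_ne : S.L.Nonempty := S.Λ_ne.image _

theorem B09_L_case {x : M} (h : ∀ y, MapClusterPt y atTop (fun n : ℕ => bk S.g n x) → y ∈ S.L) :
    x ∈ S.L := by
  refine S.repL x ?_
  rw [Metric.tendsto_atTop]
  intro ε hε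
  have h1 : ∀ᶠ n in atTop, bk S.g n x ∈ thickening ε S.L :=
    B09_eventually isOpen_thickening fun y hy => self_subset_thickening hε _ (h y hy)
  obtain ⟨N, hN⟩ := eventually_atTop.1 h1
  refine ⟨N, fun n hn => ?_⟩
  have h2 := hN n hn
  rw [mem_thickening_iff_infDist_lt S.B09_L_ne] at h2
  rw [Real.dist_eq, sub_zero, abs_of_nonneg infDist_nonneg]
  exact h2

theorem B09_Q_symm {q : M} (hq : q ∈ S.Q) : S.g.symm q ∈ S.Q := by
  rw [← S.Q_g, Homeomorph.apply_symm_apply]; exact hq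

theorem B09_Q_fw {q : M} (hq : q ∈ S.Q) (n : ℕ) : fw S.g n q ∈ S.Q := by
  induction n with
  | zero => exact hq
  | succ n ih => rw [fw_succ', S.Q_g]; exact ih

theorem B09_Q_bk {q : M} (hq : q ∈ S.Q) (n : ℕ) : bk S.g n q ∈ S.Q := by
  induction n with
  | zero => exact hq
  | succ n ih => rw [bk_succ']; exact S.B09_Q_symm ih

omit [CompactSpace M] in
/-- points of a finite set are separated -/
theorem B09_sep {Q : Set M} (hQ : Q.Finite) : ∃ η > 0, ∀ q ∈ Q, ∀ q' ∈ Q, dist q q' < η →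
    q = q' := by
  obtain ⟨C, hC, h⟩ := hQ.relatively_discrete
  by_cases hCt : C = ⊤
  · refine ⟨1, one_pos, fun q hq q' hq' _ => ?_⟩
    by_contra hne
    have h1 := h q hq q' hq' hne
    rw [hCt, top_le_iff] at h1
    exact edist_ne_top q q' h1
  · refine ⟨C.toReal, ENNReal.toReal_pos hC.ne' hCt, fun q hq q' hq' hd => ?_⟩
    by_contra hne
    have h1 := h q hq q' hq' hne
    have h2 : C.toReal ≤ dist q q' := by
      rw [dist_edist]
      exact ENNReal.toReal_mono (edist_ne_top q q') h1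
    linarith

theorem B09_Q_case {x : M} (h : ∀ y, MapClusterPt y atTop (fun n : ℕ => bk S.g n x) → y ∈ S.Q) :
    ∃ q ∈ S.Q, x ∈ WU S.g q := by
  obtain ⟨η, hη, hsep⟩ := B09_sep S.Q_fin
  have huc := CompactSpace.uniformContinuous_of_continuous S.g.symm.continuous
  obtain ⟨δ0, hδ0, hδ⟩ := Metric.uniformContinuous_iff.1 huc (η / 2) (by positivity)
  set δ : ℝ := min (min δ0 (η / 2)) S.εH with hδdef
  have hδpos : 0 < δ := lt_min (lt_min hδ0 (by positivity)) S.εH_pos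
  have h1 : ∀ᶠ n in atTop, bk S.g n x ∈ thickening δ S.Q :=
    B09_eventually isOpen_thickening fun y hy => self_subset_thickening hδpos _ (h y hy)
  obtain ⟨N, hN⟩ := eventually_atTop.1 h1
  have h2 : ∀ n ≥ N, ∃ q ∈ S.Q, dist (bk S.g n x) q < δ := fun n hn =>
    mem_thickening_iff.1 (hN n hn)
  obtain ⟨q, hq, hqd⟩ := h2 N le_rfl
  have h3 : ∀ k, dist (bk S.g (N + k) x) (bk S.g k q) < δ := by
    intro k
    induction k with
    | zero => exact hqd
    | succ k ih =>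
      obtain ⟨q', hq', hqd'⟩ := h2 (N + (k + 1)) (by omega)
      have h4 : dist (bk S.g (N + (k + 1)) x) (bk S.g (k + 1) q) < η / 2 := by
        rw [← add_assoc, bk_succ', bk_succ']
        exact hδ (ih.trans_le ((min_le_left _ _).trans (min_le_left _ _)))
      have h5 : dist (bk S.g (k + 1) q) q' < η := by
        have h6 : dist (bk S.g (N + (k + 1)) x) q' < η / 2 :=
          hqd'.trans_le ((min_le_left _ _).trans (min_le_right _ _))
        calc dist (bk S.g (k + 1) q) q' ≤ dist (bk S.g (k + 1) q) (bk S.g (N + (k + 1)) x) +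
              dist (bk S.g (N + (k + 1)) x) q' := dist_triangle _ _ _
          _ < η / 2 + η / 2 := add_lt_add (by rw [dist_comm]; exact h4) h6
          _ = η := add_halves η
      rw [hsep _ (S.B09_Q_bk hq _) _ hq' h5]
      exact hqd'
  have h4 : bk S.g N x ∈ WUl S.g S.εH q := by
    intro k
    have h5 := h3 k
    rw [add_comm, bk_add] at h5
    rw [dist_comm]
    exact h5.le.trans (min_le_right _ _)
  have h5 : bk S.g N x ∈ WU S.g q := S.wul_wu_H hq.1 h4
  refine ⟨fw S.g N q, S.B09_Q_fw hq N, ?_⟩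
  have h6 := (wu_fw (F := S.g) N).2 h5
  rwa [fw_bk] at h6

/-! ### compactness and invariance of `B09O`, `L`, `Q` -/

theorem B09_bdry_closed : IsClosed (closure S.Bp \ S.Bp) :=
  isClosed_closure.sdiff S.isOpen_Bp

theorem B09O_eq : S.B09O = S.Om ∩ (closure S.Bp \ S.Bp) ∩ S.H := by
  ext y
  constructor
  · rintro ⟨⟨h1, h2⟩, h3⟩
    exact ⟨⟨h1, h2⟩, S.Om_S1 ⟨h1, h3⟩⟩
  · rintro ⟨h1, h3⟩
    exact ⟨h1, S.H_S1 h3⟩

theorem B09O_compact : IsCompact S.B09O := by
  rw [S.B09O_eq]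
  exact ((S.Om_closed.inter S.B09_bdry_closed).inter S.closed_H).isCompact

theorem B09O_g {x : M} : S.g x ∈ S.B09O ↔ x ∈ S.B09O := by
  unfold B09O
  simp only [Set.mem_inter_iff, Set.mem_sdiff, S.B09_Om_g, S.B09_cl_g, S.Bp_g, S.S1_inv]

theorem B09O_symm {x : M} (hx : x ∈ S.B09O) : S.g.symm x ∈ S.B09O := by
  rw [← S.B09O_g, Homeomorph.apply_symm_apply]; exact hx

theorem B09_L_symm {x : M} (hx : x ∈ S.L) : S.g.symm x ∈ S.L := by
  rw [← S.L_g, Homeomorph.apply_symm_apply]; exact hx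

theorem B09_B_Bp : S.B ⊆ S.Bp := fun _ hx => Or.inl hx

theorem B09_Q_Bp {q : M} (hq : q ∈ S.Q) : q ∈ S.Bp := by
  refine Or.inr ⟨q, hq, ?_⟩
  show Tendsto _ _ _
  simp

theorem B09_LQ_disj : Disjoint S.L S.Q :=
  Set.disjoint_left.2 fun _ hx hq => hq.2.1 (S.L_B hx)

/-- trichotomy for backward orbits in `H ∩ closure Bp` -/
theorem B09_trich {x : M} (hx : x ∈ S.H) (hxc : x ∈ closure S.Bp) :
    x ∈ S.L ∨ (∃ q ∈ S.Q, x ∈ WU S.g q) ∨
      ∀ y, MapClusterPt y atTop (fun n : ℕ => bk S.g n x) → y ∈ S.B09O := by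
  have hLQ : IsCompact (S.L ∪ S.Q) := S.L_compact.union S.Q_fin.isCompact
  have hd : Disjoint (S.L ∪ S.Q) S.B09O := by
    rw [Set.disjoint_left]
    rintro y (hy | hy) hyO
    · exact hyO.1.2.2 (S.B09_B_Bp (S.L_B hy))
    · exact hyO.1.2.2 (S.B09_Q_Bp hy)
  rcases B09_dichotomy (h := S.g.symm) S.g.symm.continuous hLQ S.B09O_compact hd
    (fun y hy => hy.elim (fun h => Or.inl (S.B09_L_symm h)) (fun h => Or.inr (S.B09_Q_symm h)))
    (fun y hy => S.B09O_symm hy) (z := fun n : ℕ => bk S.g n x) (fun n => bk_succ' _ _ _)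
    (fun y hy => S.B09_cluster_bk hx hxc hy) with h1 | h1
  · rcases B09_dichotomy (h := S.g.symm) S.g.symm.continuous S.L_compact S.Q_fin.isCompact
      S.B09_LQ_disj (fun y hy => S.B09_L_symm hy) (fun y hy => S.B09_Q_symm hy)
      (z := fun n : ℕ => bk S.g n x) (fun n => bk_succ' _ _ _) h1 with h2 | h2
    · exact Or.inl (S.B09_L_case h2)
    · exact Or.inr (Or.inl (S.B09_Q_case h2))
  · exact Or.inr (Or.inr h1)

end SD

end Pool.MP85
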