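import Pool.Agent.Lib.MP_85e637_an.AbsB
import Pool.Agent.Lib.MP_85e637_an.A01
import Pool.Agent.Lib.MP_85e637_an.B02b
import Pool.Agent.Lib.MP_85e637_an.B03
import Pool.Agent.Lib.MP_85e637_an.B07
import Pool.Agent.Lib.MP_85e637_an.B08a
import Pool.Agent.Lib.MP_85e637_an.B08b
import Pool.Agent.Lib.MP_85e637_an.B09a

/-!
# Row B09: the boundary of `Bp` consists of sources
-/

open Filter Topology Set Metric

namespace Pool.MP85

namespace SD
variable {m : ℕ} {X M : Type} [MetricSpace X] [MetricSpace M] [CompactSpace M] (S : SD m X M)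

theorem B09_exists_cluster (z : ℕ → M) : ∃ y, MapClusterPt y atTop z := by
  obtain ⟨y, _, hy⟩ := isCompact_univ.exists_mapClusterPt_of_frequently (l := atTop) (f := z)
    (Frequently.of_forall fun _ => mem_univ _)
  exact ⟨y, hy⟩

/-- the closed set from which the nonwandering part of the boundary keeps away -/
def B09C : Set M := S.L ∪ S.Src ∪ ⋃ q ∈ S.Q, closure (WU S.g q)

theorem B09C_closed : IsClosed S.B09C :=
  (S.L_compact.isClosed.union S.B09_src_closed).union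
    (S.Q_fin.isClosed_biUnion fun _ _ => isClosed_closure)

theorem B09_WU_C {q y : M} (hq : q ∈ S.Q) (hy : y ∈ WU S.g q) : y ∈ S.B09C :=
  Or.inr (Set.mem_biUnion hq (subset_closure hy))

theorem B09_Q_C {q : M} (hq : q ∈ S.Q) : q ∈ S.B09C := S.B09_WU_C hq wu_self

theorem B09_disj : Disjoint S.B09O S.B09C := by
  rw [Set.disjoint_left]
  intro y hy hyC
  rcases hyC with (h | h) | h
  · exact hy.1.2.2 (S.B09_B_Bp (S.L_B h))
  · exact Set.disjoint_left.1 S.disj h hy.2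
  · obtain ⟨q, hq, hyq⟩ := Set.mem_iUnion₂.1 h
    rcases S.Q_closure hq hyq with h1 | h1
    · by_cases hne : y = q
      · rw [hne] at hy
        exact hy.1.2.2 (S.B09_Q_Bp hq)
      · exact hy.1.2.2 (S.B09_B_Bp (hq.2.2.2 ⟨h1, hne⟩))
    · exact hy.1.2.2 (S.B09_B_Bp (S.L_B h1))

/-- points of `Bp` leave a small neighbourhood of `B09O` -/
theorem B09_leave {δ : ℝ} (hδ : 0 < δ)
    (hd : Disjoint (cthickening δ S.B09O) (cthickening δ S.B09C)) {z : M} (hz : z ∈ S.Bp) :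
    ∃ t : ℕ, ∀ k ≥ t, fw S.g k z ∉ cthickening δ S.B09O := by
  have key : ∀ w, w ∈ thickening δ S.B09C → w ∉ cthickening δ S.B09O := fun w hw hw' =>
    Set.disjoint_left.1 hd hw' (thickening_subset_cthickening _ _ hw)
  rcases hz with hz | ⟨q, hq, hzq⟩
  · have h1 := (S.mem_B z).1 hz
    obtain ⟨t, ht⟩ := eventually_atTop.1 (h1.eventually (gt_mem_nhds hδ))
    refine ⟨t, fun k hk => key _ ?_⟩
    have h2 : fw S.g k z ∈ thickening δ S.L := by
      rw [mem_thickening_iff_infDist_lt S.B09_L_ne]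
      exact ht k hk
    exact thickening_subset_of_subset δ (fun y hy => Or.inl (Or.inl hy)) h2
  · have h1 : Tendsto (fun n => dist (fw S.g n q) (fw S.g n z)) atTop (𝓝 0) := hzq
    obtain ⟨t, ht⟩ := eventually_atTop.1 (h1.eventually (gt_mem_nhds hδ))
    refine ⟨t, fun k hk => key _ ?_⟩
    rw [mem_thickening_iff]
    refine ⟨fw S.g k q, S.B09_Q_C (S.B09_Q_fw hq k), ?_⟩
    rw [dist_comm]
    exact ht k hk

/-- steps (2)-(4): an exit point `e` -/
theorem B09_exit {δ : ℝ} (hδ : 0 < δ)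
    (hd : Disjoint (cthickening δ S.B09O) (cthickening δ S.B09C)) {y0 : M} (hy0 : y0 ∈ S.B09O) :
    ∃ e, e ∈ S.H ∧ e ∈ S.Bp ∧ S.g.symm e ∈ cthickening δ S.B09O := by
  classical
  set N : Set M := cthickening δ S.B09O with hN
  have hOint : S.B09O ⊆ interior N := (self_subset_thickening hδ _).trans
    (interior_maximal (thickening_subset_cthickening _ _) isOpen_thickening)
  have hNclosed : IsClosed N := isClosed_cthickening
  have hNC : ∀ w, w ∈ N → w ∉ S.B09C := fun w h1 h2 =>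
    Set.disjoint_left.1 hd h1 (self_subset_cthickening _ h2)
  obtain ⟨b, hb, hbl⟩ := mem_closure_iff_seq_limit.1 hy0.1.2.1
  have hleave : ∀ n, ∃ t : ℕ, ∀ k ≥ t, fw S.g k (b n) ∉ N := fun n => S.B09_leave hδ hd (hb n)
  set t : ℕ → ℕ := fun n => Nat.find (hleave n) with ht
  have ht1 : ∀ n, ∀ k ≥ t n, fw S.g k (b n) ∉ N := fun n => Nat.find_spec (hleave n)
  have ht2 : ∀ n, 0 < t n → fw S.g (t n - 1) (b n) ∈ N := by
    intro n hn
    have h1 := Nat.find_min (hleave n) (m := t n - 1) (by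
      show t n - 1 < t n
      omega)
    push Not at h1
    obtain ⟨k, hk, hkN⟩ := h1
    have h2 : ¬ t n ≤ k := fun h => ht1 n k h hkN
    have h3 : k = t n - 1 := by omega
    rwa [h3] at hkN
  have hOfw : ∀ k : ℕ, ∀ y ∈ S.B09O, fw S.g k y ∈ S.B09O := by
    intro k
    induction k with
    | zero => exact fun y hy => hy
    | succ k ih =>
      intro y hy
      rw [fw_succ', S.B09O_g]
      exact ih y hy
  have ht3 : ∀ k0 : ℕ, ∀ᶠ n in atTop, k0 < t n := by
    intro k0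
    have h1 : Tendsto (fun n => fw S.g k0 (b n)) atTop (𝓝 (fw S.g k0 y0)) :=
      ((continuous_fw k0).tendsto y0).comp hbl
    have h2 := h1.eventually (isOpen_interior.mem_nhds (hOint (hOfw k0 y0 hy0)))
    filter_upwards [h2] with n hn
    by_contra hcon
    exact ht1 n k0 (not_lt.1 hcon) (interior_subset hn)
  obtain ⟨e, _, ψ, hψ, he⟩ := isCompact_univ.tendsto_subseq
    (x := fun n => fw S.g (t n) (b n)) (fun _ => mem_univ _)
  have he' : Tendsto (fun n => fw S.g (t (ψ n)) (b (ψ n))) atTop (𝓝 e) := he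
  have htψ : ∀ k0 : ℕ, ∀ᶠ n in atTop, k0 < t (ψ n) := fun k0 =>
    hψ.tendsto_atTop.eventually (ht3 k0)
  have hecl : e ∈ closure S.Bp :=
    isClosed_closure.mem_of_tendsto he' (Eventually.of_forall fun n =>
      subset_closure ((S.B09_Bp_fw _).2 (hb _)))
  have heN : S.g.symm e ∈ N := by
    have h1 : Tendsto (fun n => S.g.symm (fw S.g (t (ψ n)) (b (ψ n)))) atTop (𝓝 (S.g.symm e)) :=
      (S.g.symm.continuous.tendsto e).comp he'
    refine hNclosed.mem_of_tendsto h1 ?_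
    filter_upwards [htψ 0] with n hn
    have h2 : fw S.g (t (ψ n)) (b (ψ n)) = S.g (fw S.g (t (ψ n) - 1) (b (ψ n))) := by
      rw [← fw_succ']
      congr 1
      omega
    rw [h2, Homeomorph.symm_apply_apply]
    exact ht2 _ hn
  have heout : ∀ k : ℕ, fw S.g k e ∉ interior N := by
    intro k hk
    have h1 : Tendsto (fun n => fw S.g k (fw S.g (t (ψ n)) (b (ψ n)))) atTop
        (𝓝 (fw S.g k e)) := ((continuous_fw k).tendsto e).comp he'
    obtain ⟨n, hn⟩ := (h1.eventually (isOpen_interior.mem_nhds hk)).exists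
    rw [← fw_add] at hn
    exact ht1 _ _ (Nat.le_add_left _ _) (interior_subset hn)
  have heSrc : e ∉ S.Src := fun h =>
    hNC _ heN (Or.inl (Or.inr (S.B09_src_symm.2 h)))
  have heBp : e ∈ S.Bp := by
    by_contra hcon
    obtain ⟨y, hy⟩ := B09_exists_cluster (fun n : ℕ => fw S.g n e)
    have hyK : y ∈ closure S.Bp \ S.Bp := S.B09_bdry_closed.mem_of_mapClusterPt hy
      (Eventually.of_forall fun n => ⟨(S.B09_cl_fw n).2 hecl, fun h => hcon ((S.B09_Bp_fw n).1 h)⟩)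
    have hyO : y ∈ S.B09O := ⟨⟨S.Om_fw e y hy, hyK⟩,
      (S.B09_cl_sub hyK.1).resolve_left (S.B09_fw_cluster heSrc hy)⟩
    have h1 := (mapClusterPt_iff_frequently.1 hy) _ (isOpen_interior.mem_nhds (hOint hyO))
    obtain ⟨k, hk⟩ := h1.exists
    exact heout k hk
  have heS1 : e ∈ S.S1 := (S.B09_cl_sub hecl).resolve_left heSrc
  refine ⟨e, ?_, heBp, heN⟩
  rcases S.S1_cases e heS1 with h | ⟨α, hα, heα⟩
  · exact h
  exfalso
  have hy0S : y0 ∉ S.Src := fun h => Set.disjoint_left.1 S.disj h hy0.2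
  obtain ⟨ρ, hρ, hρS⟩ := Metric.isOpen_iff.1 S.B09_src_closed.isOpen_compl y0 hy0S
  set r : ℝ := min (ρ / 2) S.r0 with hr
  have hrpos : 0 < r := lt_min (by positivity) S.r0_pos
  have h1 : Tendsto (fun n => dist (bk S.g n α) (bk S.g n e)) atTop (𝓝 0) := heα
  obtain ⟨k, hk⟩ := (h1.eventually (gt_mem_nhds hrpos)).exists
  have hαk : bk S.g k α ∈ S.Src := (S.B09_src_bk hα (by rw [dist_self]; exact S.r0_pos.le) k).1
  have h2 : Tendsto (fun n => dist (bk S.g k α) (bk S.g k (fw S.g (t (ψ n)) (b (ψ n))))) atTop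
      (𝓝 (dist (bk S.g k α) (bk S.g k e))) :=
    tendsto_const_nhds.dist (((continuous_bk k).tendsto e).comp he')
  have h3 : ∀ᶠ n in atTop, b (ψ n) ∈ ⋃ α ∈ S.Src, closedBall α r := by
    filter_upwards [h2.eventually (gt_mem_nhds hk), htψ k] with n hn hkn
    obtain ⟨h4, h5⟩ := S.B09_src_bk hαk (hn.le.trans (min_le_right _ _)) (t (ψ n) - k)
    rw [← bk_add, ← bk_add, Nat.sub_add_cancel hkn.le, bk_fw] at h5
    rw [← bk_add, Nat.sub_add_cancel hkn.le] at h4
    refine Set.mem_biUnion h4 ?_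
    rw [Metric.mem_closedBall, dist_comm]
    exact (h5.trans (div_le_self dist_nonneg (one_le_pow₀ (by norm_num)))).trans hn.le
  have h4 : y0 ∈ ⋃ α ∈ S.Src, closedBall α r :=
    (S.Src_fin.isClosed_biUnion fun _ _ => isClosed_closedBall).mem_of_tendsto
      (hbl.comp hψ.tendsto_atTop) h3
  obtain ⟨β, hβ, hβy⟩ := Set.mem_iUnion₂.1 h4
  rw [Metric.mem_closedBall] at hβy
  refine hρS ?_ hβ
  rw [Metric.mem_ball, dist_comm]
  have : r ≤ ρ / 2 := min_le_left _ _
  linarith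

theorem closure_Bp (hm : 3 ≤ m) : closure S.Bp \ S.Bp ⊆ S.Src := by
  intro x hx
  by_contra hxS
  -- the nonwandering part is nonempty
  obtain ⟨y0, hy0⟩ : S.B09O.Nonempty := by
    obtain ⟨y, hy⟩ := B09_exists_cluster (fun n : ℕ => fw S.g n x)
    have hyK : y ∈ closure S.Bp \ S.Bp := S.B09_bdry_closed.mem_of_mapClusterPt hy
      (Eventually.of_forall fun n =>
        ⟨(S.B09_cl_fw n).2 hx.1, fun h => hx.2 ((S.B09_Bp_fw n).1 h)⟩)
    exact ⟨y, ⟨S.Om_fw x y hy, hyK⟩,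
      (S.B09_cl_sub hyK.1).resolve_left (S.B09_fw_cluster hxS hy)⟩
  obtain ⟨δ, hδ, hd⟩ := S.B09_disj.exists_cthickenings S.B09O_compact S.B09C_closed
  have hNC : ∀ w, w ∈ cthickening δ S.B09O → w ∉ S.B09C := fun w h1 h2 =>
    Set.disjoint_left.1 hd h1 (self_subset_cthickening _ h2)
  obtain ⟨e, heH, heBp, heN⟩ := S.B09_exit hδ hd hy0
  rcases S.B09_trich heH (subset_closure heBp) with h | ⟨q, hq, heq⟩ | h
  · exact hNC _ heN (Or.inl (Or.inl (S.B09_L_symm h)))
  · refine hNC _ heN (S.B09_WU_C (S.B09_Q_symm hq) ?_)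
    rw [← wu_apply, Homeomorph.apply_symm_apply, Homeomorph.apply_symm_apply]
    exact heq
  · obtain ⟨y, hy⟩ := B09_exists_cluster (fun n : ℕ => bk S.g n e)
    have hyO := h y hy
    obtain ⟨δ1, hδ1, hlps⟩ := S.H_lps S.εH S.εH_pos
    obtain ⟨ρ1, hρ1, hloc⟩ := Metric.eventually_nhds_iff.1 (S.Om_loc y ⟨hyO.1.1, hyO.2⟩)
    obtain ⟨q', hq'd, hq'per⟩ := S.Om_per y hyO.1.1 (min (min (δ1 / 2) δ) ρ1)
      (lt_min (lt_min (by positivity) hδ) hρ1)
    have hd1 : dist y q' < δ1 / 2 := hq'd.trans_le ((min_le_left _ _).trans (min_le_left _ _))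
    have hd2 : dist y q' < δ := hq'd.trans_le ((min_le_left _ _).trans (min_le_right _ _))
    have hd3 : dist q' y < ρ1 := by rw [dist_comm]; exact hq'd.trans_le (min_le_right _ _)
    have hq'Om : q' ∈ S.Om := S.B09_per_Om hq'per
    have hq'S1 : q' ∈ S.S1 := hloc hd3 hq'Om
    have hq'H : q' ∈ S.H := S.Om_S1 ⟨hq'Om, hq'S1⟩
    have hq'N : q' ∈ cthickening δ S.B09O := by
      refine thickening_subset_cthickening _ _ (mem_thickening_iff.2 ⟨y, hyO, ?_⟩)
      rw [dist_comm]; exact hd2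
    have hq'B : q' ∉ S.B := by
      intro hB
      rcases S.Om_Bp ⟨hq'Om, S.B09_B_Bp hB⟩ with h1 | h1
      · exact hNC _ hq'N (Or.inl (Or.inl h1))
      · exact h1.2.1 hB
    obtain ⟨ρ2, hρ2, hball⟩ := Metric.isOpen_iff.1 S.isOpen_Bp e heBp
    obtain ⟨k, hk1, hk2⟩ : ∃ k : ℕ, dist (bk S.g k e) y < δ1 / 2 ∧ S.εH / 2 ^ k < ρ2 := by
      have h1 := (mapClusterPt_iff_frequently.1 hy) _ (Metric.ball_mem_nhds y
        (show 0 < δ1 / 2 by positivity))
      have h2 := (B09_tendsto_div S.εH).eventually (gt_mem_nhds hρ2)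
      obtain ⟨k, hk1, hk2⟩ := (h1.and_eventually h2).exists
      exact ⟨k, Metric.mem_ball.1 hk1, hk2⟩
    have hkH : bk S.g k e ∈ S.H := (S.B09_H_bk k).2 heH
    obtain ⟨v, hvs, hvu⟩ := hlps (bk S.g k e) hkH q' hq'H (by
      calc dist (bk S.g k e) q' ≤ dist (bk S.g k e) y + dist y q' := dist_triangle _ _ _
        _ < δ1 / 2 + δ1 / 2 := add_lt_add hk1 hd1
        _ = δ1 := add_halves δ1)
    have hvBp : v ∈ S.Bp := by
      rw [← S.B09_Bp_fw k]
      apply hball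
      have h1 := S.wsl_fw_dist hkH hvs k
      rw [fw_bk] at h1
      rw [Metric.mem_ball, dist_comm]
      have h2 : dist (bk S.g k e) v ≤ S.εH := by
        have := hvs 0
        simpa only [fw_zero] using this
      exact (h1.trans (div_le_div_of_nonneg_right h2 (by positivity))).trans_lt hk2
    have hvWU : v ∈ WU S.g q' := S.wul_wu_H hq'H hvu
    have hne : (WU S.g q' ∩ S.B).Nonempty := by
      rcases hvBp with h1 | ⟨q, hq, hvq⟩
      · exact ⟨v, hvWU, h1⟩
      · have hvS1 : v ∈ S.S1 := S.Bp_S1 (Or.inr ⟨q, hq, hvq⟩)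
        have hvH : v ∈ S.H := S.H_WU q' hq'H v hvWU hvS1
        obtain ⟨ε, hε, hnear⟩ := S.near_Q hq hvH hvq
        obtain ⟨y', hy', hyd⟩ := leaf_perfect (by omega) (S.H_exh v hvH)
          (⟨v, wu_self⟩ : ULeaf S.g v) hε
        have h2 : y'.val ∈ WUl S.g ε v :=
          (ULeaf.dist_le_iff (⟨v, wu_self⟩ : ULeaf S.g v) y' ε).1 hyd.le
        have h3 : y'.val ≠ v := fun h4 => hy' (ULeaf.val_injective h4)
        exact ⟨y'.val, wu_trans hvWU y'.prop, hnear _ h2 h3⟩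
    have hq'Q : q' ∈ S.Q := ⟨hq'H, hq'B, hq'per, S.punctured_B hm hq'H hq'B hq'per hne⟩
    exact hNC _ hq'N (S.B09_Q_C hq'Q)

end SD

end Pool.MP85
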