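import Pool.Agent.Lib.MP_85e637_an.AbsB
import Pool.Agent.Lib.MP_85e637_an.A01
import Pool.Agent.Lib.MP_85e637_an.B03
import Pool.Agent.Lib.MP_85e637_an.B08a
import Pool.Agent.Lib.MP_85e637_an.B08b
import Pool.Agent.Lib.MP_85e637_an.B09

open Filter Topology Set Metric

namespace Pool.MP85

section B10top

/-- an orbit whose cluster points lie in the union of two disjoint closed sets, the first one
invariant, tends to one of them -/
theorem B10_dich {M : Type} [MetricSpace M] [CompactSpace M] (f : ℕ → M) (g' : M → M)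
    (hg : Continuous g') (hf : ∀ n, f (n + 1) = g' (f n)) {C D : Set M} (hC : IsClosed C)
    (hD : IsClosed D) (hCD : Disjoint C D) (hinv : ∀ y ∈ C, g' y ∈ C)
    (hcl : ∀ y, MapClusterPt y atTop f → y ∈ C ∪ D) :
    (∀ U, IsOpen U → C ⊆ U → ∀ᶠ n in atTop, f n ∈ U) ∨
      (∀ U, IsOpen U → D ⊆ U → ∀ᶠ n in atTop, f n ∈ U) := by
  have hev : ∀ U, IsOpen U → C ∪ D ⊆ U → ∀ᶠ n in atTop, f n ∈ U := by
    intro U hU hsub
    by_contra hcon
    rw [not_eventually] at hcon
    obtain ⟨y, hy, hy'⟩ := (hU.isClosed_compl.isCompact).exists_mapClusterPt_of_frequently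
      (f := f) (l := atTop) hcon
    exact hy (hsub (hcl y hy'))
  obtain ⟨V0, W0, hV0, hW0, hCV, hDW, hdis⟩ := SeparatedNhds.of_isCompact_isCompact hC.isCompact
    hD.isCompact hCD
  let V := V0 ∩ g' ⁻¹' V0
  have hV : IsOpen V := hV0.inter (hV0.preimage hg)
  have hCV' : C ⊆ V := fun y hy => ⟨hCV hy, hCV (hinv y hy)⟩
  obtain ⟨n0, hn0⟩ := eventually_atTop.1
    (hev (V ∪ W0) (hV.union hW0) (union_subset_union hCV' hDW))
  have hstep : ∀ n ≥ n0, f n ∈ V → f (n + 1) ∈ V := by
    intro n hn h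
    rcases hn0 (n + 1) (by omega) with h1 | h1
    · exact h1
    · exfalso
      rw [hf n] at h1
      exact Set.disjoint_left.1 hdis h.2 h1
  by_cases hex : ∃ n ≥ n0, f n ∈ V
  · left
    obtain ⟨n1, hn1, hv⟩ := hex
    have hall : ∀ n ≥ n1, f n ∈ V := by
      intro n hn
      induction n, hn using Nat.le_induction with
      | base => exact hv
      | succ n hn ih => exact hstep n (by omega) ih
    intro U hU hCU
    filter_upwards [hev (U ∪ W0) (hU.union hW0) (union_subset_union hCU hDW),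
      eventually_ge_atTop n1] with n h1 h2
    rcases h1 with h1 | h1
    · exact h1
    · exact absurd h1 (Set.disjoint_left.1 hdis (hall n h2).1)
  · right
    push Not at hex
    intro U hU hDU
    filter_upwards [hev (V ∪ U) (hV.union hU) (union_subset_union hCV' hDU),
      eventually_ge_atTop n0] with n h1 h2
    rcases h1 with h1 | h1
    · exact absurd h1 (hex n h2)
    · exact h1

/-- an orbit which tends to a finite invariant set is asymptotic to an orbit of it -/
theorem B10_shadow {M : Type} [MetricSpace M] [CompactSpace M] (g : M ≃ₜ M) {Q : Set M}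
    (hQ : Q.Finite) (hinv : ∀ q ∈ Q, g.symm q ∈ Q) (hinv' : ∀ q ∈ Q, g q ∈ Q) (x : M)
    (h : ∀ U, IsOpen U → Q ⊆ U → ∀ᶠ n in atTop, bk g n x ∈ U) : ∃ q ∈ Q, x ∈ WU g q := by
  -- separation
  obtain ⟨δ₀, hδ₀, hsep⟩ : ∃ δ > 0, ∀ q ∈ Q, ∀ q' ∈ Q, dist q q' < 2 * δ → q = q' := by
    have h1 := hQ.isClosed
    have h2 : ∃ ε > 0, ∀ q ∈ Q, ∀ q' ∈ Q, dist q q' < ε → q = q' := by
      have hfin : (Q ×ˢ Q ∩ {p : M × M | p.1 ≠ p.2}).Finite := (hQ.prod hQ).inter_of_left _
      rcases (Q ×ˢ Q ∩ {p : M × M | p.1 ≠ p.2}).eq_empty_or_nonempty with he | hne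
      · refine ⟨1, one_pos, fun q hq q' hq' _ => ?_⟩
        by_contra hcon
        have : (q, q') ∈ (Q ×ˢ Q ∩ {p : M × M | p.1 ≠ p.2}) := ⟨⟨hq, hq'⟩, hcon⟩
        rw [he] at this
        exact this
      · obtain ⟨p, hp, hmin⟩ := hfin.exists_minimalFor (fun p : M × M => dist p.1 p.2) _ hne
        refine ⟨dist p.1 p.2, dist_pos.2 hp.2, fun q hq q' hq' hlt => ?_⟩
        by_contra hcon
        have h3 := hmin (j := (q, q')) ⟨⟨hq, hq'⟩, hcon⟩ hlt.le
        exact absurd hlt (not_lt.2 h3)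
    obtain ⟨ε, hε, h3⟩ := h2
    exact ⟨ε / 2, half_pos hε, fun q hq q' hq' hlt => h3 q hq q' hq' (by linarith)⟩
  -- uniform continuity
  have huc : UniformContinuous (g.symm : M → M) :=
    CompactSpace.uniformContinuous_of_continuous g.symm.continuous
  obtain ⟨δ₁, hδ₁, huc'⟩ := Metric.uniformContinuous_iff.1 huc δ₀ hδ₀
  have hnear : ∀ ε > 0, ∀ᶠ n in atTop, ∃ q ∈ Q, dist (bk g n x) q < ε := by
    intro ε hε
    filter_upwards [h (⋃ q ∈ Q, ball q ε) (isOpen_biUnion fun q _ => isOpen_ball)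
      (fun q hq => mem_biUnion hq (mem_ball_self hε))] with n hn
    obtain ⟨q, hq, hq'⟩ := mem_iUnion₂.1 hn
    exact ⟨q, hq, hq'⟩
  obtain ⟨n1, hn1⟩ := eventually_atTop.1 (hnear (min δ₀ δ₁) (lt_min hδ₀ hδ₁))
  obtain ⟨q1, hq1, hd1⟩ := hn1 n1 le_rfl
  have hbkQ : ∀ j, bk g j q1 ∈ Q := by
    intro j
    induction j with
    | zero => exact hq1
    | succ j ih => rw [bk_succ']; exact hinv _ ih
  have hclose : ∀ j, dist (bk g (j + n1) x) (bk g j q1) < min δ₀ δ₁ := by
    intro j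
    induction j with
    | zero => rw [zero_add]; exact hd1
    | succ j ih =>
      obtain ⟨q', hq', hd'⟩ := hn1 (j + 1 + n1) (by omega)
      have h2 : dist (bk g (j + 1 + n1) x) (bk g (j + 1) q1) < δ₀ := by
        rw [show j + 1 + n1 = (j + n1) + 1 by omega, bk_succ', bk_succ']
        exact huc' (lt_of_lt_of_le ih (min_le_right _ _))
      have h3 : q' = bk g (j + 1) q1 := by
        apply hsep q' hq' _ (hbkQ _)
        calc dist q' (bk g (j + 1) q1)
            ≤ dist q' (bk g (j + 1 + n1) x) + dist (bk g (j + 1 + n1) x) (bk g (j + 1) q1) :=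
              dist_triangle _ _ _
          _ < δ₀ + δ₀ := add_lt_add (by rw [dist_comm]; exact lt_of_lt_of_le hd' (min_le_left _ _)) h2
          _ = 2 * δ₀ := by ring
      rw [← h3]; exact hd'
  have hlim : Tendsto (fun j => dist (bk g j q1) (bk g (j + n1) x)) atTop (𝓝 0) := by
    rw [Metric.tendsto_atTop]
    intro ε hε
    obtain ⟨n2, hn2⟩ := eventually_atTop.1 (hnear (min ε δ₀) (lt_min hε hδ₀))
    refine ⟨n2, fun j hj => ?_⟩
    obtain ⟨q', hq', hd'⟩ := hn2 (j + n1) (by omega)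
    have h3 : q' = bk g j q1 := by
      apply hsep q' hq' _ (hbkQ _)
      calc dist q' (bk g j q1)
          ≤ dist q' (bk g (j + n1) x) + dist (bk g (j + n1) x) (bk g j q1) :=
            dist_triangle _ _ _
        _ < δ₀ + δ₀ := add_lt_add (by rw [dist_comm]; exact lt_of_lt_of_le hd' (min_le_right _ _))
            (lt_of_lt_of_le (hclose j) (min_le_left _ _))
        _ = 2 * δ₀ := by ring
    rw [dist_zero_right, Real.norm_of_nonneg dist_nonneg, dist_comm, ← h3]
    exact lt_of_lt_of_le hd' (min_le_left _ _)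
  have h5 : bk g n1 x ∈ WU g q1 := by
    show Tendsto (fun n => dist (bk g n q1) (bk g n (bk g n1 x))) atTop (𝓝 0)
    refine hlim.congr fun j => ?_
    rw [bk_add]
  refine ⟨fw g n1 q1, ?_, ?_⟩
  · have : ∀ n, ∀ q ∈ Q, fw g n q ∈ Q := by
      intro n
      induction n with
      | zero => intro q hq; exact hq
      | succ n ih => intro q hq; rw [fw_succ']; exact hinv' _ (ih q hq)
    exact this n1 q1 hq1
  · have h6 := (wu_fw (F := g) n1).2 h5
    rwa [fw_bk] at h6

/-- two points of a finite invariant set on one unstable leaf coincide -/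
theorem B10_fin_wu {M : Type} [MetricSpace M] (g : M ≃ₜ M) {Q : Set M}
    (hQ : Q.Finite) (hinv : ∀ q ∈ Q, g.symm q ∈ Q) {p q : M} (hp : p ∈ Q) (hq : q ∈ Q)
    (h : q ∈ WU g p) : q = p := by
  by_contra hne
  have hbk : ∀ n, ∀ q ∈ Q, bk g n q ∈ Q := by
    intro n
    induction n with
    | zero => intro q hq; exact hq
    | succ n ih => intro q hq; rw [bk_succ']; exact hinv _ (ih q hq)
  have hfin : (Q ×ˢ Q ∩ {p : M × M | p.1 ≠ p.2}).Finite := (hQ.prod hQ).inter_of_left _
  have hne' : (Q ×ˢ Q ∩ {p : M × M | p.1 ≠ p.2}).Nonempty := ⟨(q, p), ⟨hq, hp⟩, hne⟩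
  obtain ⟨r, hr, hmin⟩ := hfin.exists_minimalFor (fun p : M × M => dist p.1 p.2) _ hne'
  have hr0 : 0 < dist r.1 r.2 := dist_pos.2 hr.2
  have h1 : Tendsto (fun n => dist (bk g n p) (bk g n q)) atTop (𝓝 0) := h
  obtain ⟨n, hn⟩ := (h1.eventually (gt_mem_nhds hr0)).exists
  have hinj : bk g n p ≠ bk g n q := by
    intro he
    apply hne
    have := congrArg (fw g n) he
    rw [fw_bk, fw_bk] at this
    exact this.symm
  have h3 := hmin (j := (bk g n p, bk g n q)) ⟨⟨hbk n p hp, hbk n q hq⟩, hinj⟩ hn.le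
  exact absurd hn (not_lt.2 h3)

end B10top

namespace SD
variable {m : ℕ} {X M : Type} [MetricSpace X] [MetricSpace M] [CompactSpace M] (S : SD m X M)

theorem H_B (hm : 3 ≤ m) {x : M} (hx : x ∈ S.H) (hxB : x ∈ S.B) (hxL : x ∉ S.L) :
    ∃ q ∈ S.Q, x ∈ WU S.g q := by
  have hHbk : ∀ n, bk S.g n x ∈ S.H := by
    intro n
    induction n with
    | zero => exact hx
    | succ n ih =>
      rw [bk_succ']
      rw [← S.H_inv, Homeomorph.apply_symm_apply]
      exact ih
  have hcl : ∀ y, MapClusterPt y atTop (fun n : ℕ => bk S.g n x) → y ∈ S.L ∪ S.Q := by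
    intro y hy
    have h1 : y ∈ S.Om := S.Om_bk x y hy
    have h2 : y ∈ S.H :=
      S.closed_H.mem_of_mapClusterPt hy (Eventually.of_forall hHbk)
    have h3 : y ∈ closure S.Bp :=
      isClosed_closure.mem_of_mapClusterPt hy (Eventually.of_forall fun n =>
        subset_closure (Or.inl ((S.B_bk n).2 hxB)))
    have h4 : y ∈ S.Bp := by
      by_contra h5
      exact Set.disjoint_left.1 S.disj (S.closure_Bp hm ⟨h3, h5⟩) (S.H_S1 h2)
    exact S.Om_Bp ⟨h1, h4⟩
  have hLcl : IsClosed S.L := S.L_compact.isClosed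
  have hLQ : Disjoint S.L S.Q := by
    rw [Set.disjoint_left]
    intro y hy hy'
    exact hy'.2.1 (S.L_B hy)
  have hLinv : ∀ y ∈ S.L, S.g.symm y ∈ S.L := by
    intro y hy
    rw [← S.L_g, Homeomorph.apply_symm_apply]
    exact hy
  have hQinv : ∀ y ∈ S.Q, S.g.symm y ∈ S.Q := by
    intro y hy
    rw [← S.Q_g, Homeomorph.apply_symm_apply]
    exact hy
  rcases B10_dich (fun n => bk S.g n x) S.g.symm S.g.symm.continuous
    (fun n => bk_succ' S.g n x) hLcl S.Q_fin.isClosed hLQ hLinv hcl with h | h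
  · exfalso
    apply hxL
    apply S.repL
    have hLne : S.L.Nonempty := S.Λ_ne.image _
    rw [Metric.tendsto_atTop]
    intro ε hε
    obtain ⟨n0, hn0⟩ := eventually_atTop.1 (h (thickening ε S.L) isOpen_thickening
      (self_subset_thickening hε S.L))
    refine ⟨n0, fun n hn => ?_⟩
    rw [dist_zero_right, Real.norm_of_nonneg infDist_nonneg]
    obtain ⟨z, hz, hz'⟩ := mem_thickening_iff.1 (hn0 n hn)
    exact lt_of_le_of_lt (infDist_le_dist_of_mem hz) hz'
  · exact B10_shadow S.g S.Q_fin hQinv (fun q hq => S.Q_g.2 hq) x h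

theorem source_Bp (hm : 3 ≤ m) {α : M} (hα : α ∈ S.Src)
    (h : ((WU S.g α \ {α}) ∩ S.Bp).Nonempty) : WU S.g α \ {α} ⊆ S.Bp := by
  have := S.Src_sc α hα
  have hpre : IsPreconnected (WU S.g α \ {α}) :=
    isPreconnected_iff_preconnectedSpace.2 inferInstance
  refine IsPreconnected.subset_left_of_subset_union S.isOpen_Bp
    (isClosed_closure (s := S.Bp)).isOpen_compl ?_ ?_ h hpre
  · rw [Set.disjoint_left]
    intro y hy hy'
    exact hy' (subset_closure hy)
  · intro v hv
    by_cases h1 : v ∈ S.Bp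
    · exact Or.inl h1
    · refine Or.inr fun h2 => ?_
      have h3 : v ∈ S.Src := S.closure_Bp hm ⟨h2, h1⟩
      refine hv.2 (B10_fin_wu S.g S.Src_fin ?_ hα h3 hv.1)
      intro q hq
      rw [← S.Src_inv, Homeomorph.apply_symm_apply]
      exact hq

end SD

end Pool.MP85
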