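import Pool.Agent.Lib.MP_85e637_an.AbsB
import Pool.Agent.Lib.MP_85e637_an.B02b
import Pool.Agent.Lib.MP_85e637_an.B04
import Pool.Agent.Lib.MP_85e637_an.B05a
import Pool.Agent.Lib.MP_85e637_an.B06

/-!
# B11a: reversal of sections, at most two sections over a point of `Q`
-/

open Filter Topology Set Metric

namespace Pool.MP85

namespace SD
variable {m : ℕ} {X M : Type} [MetricSpace X] [MetricSpace M] [CompactSpace M] (S : SD m X M)

/-- the reversed arc, seen from the other end -/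
theorem B11a_arc {p : X} (hp : S.Inf p) {i : S.Pt p → S.Pt p}
    (hi1 : ∀ z, (i z).1.val = S.io z.1.val) {q : M} (a : S.Sec p q) (z : S.Pt p) :
    S.φ (S.G z.1.val - a.s (i z)) z.1.val = S.σ (S.φ (a.s (i z)) (i z).1.val) := by
  rw [hi1 z, S.io_arc hp z, S.σσ]

theorem B11a_rev {p : X} (hp : S.Inf p) {i : S.Pt p → S.Pt p} (hi : Continuous i)
    (hi1 : ∀ z, (i z).1.val = S.io z.1.val)
    (hi3 : ∀ z, S.G (i z).1.val = S.G z.1.val) {q : M} (a : S.Sec p q) :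
    ∃ b : S.Sec p q, (∀ z, b.s z = S.G z.1.val - a.s (i z)) ∧ ∀ z, b.y z = a.y (i z) := by
  refine ⟨⟨fun z => S.G z.1.val - a.s (i z), fun z => a.y (i z), ?_, ?_, ?_, ?_, ?_⟩,
    fun z => rfl, fun z => rfl⟩
  · exact (S.G_cont hp).sub (a.cs.comp hi)
  · exact a.cy.comp hi
  · intro z
    have := a.lt (i z)
    rw [hi3 z] at this
    show 0 < S.G z.1.val - a.s (i z)
    linarith
  · intro z
    have := a.pos (i z)
    show S.G z.1.val - a.s (i z) < S.G z.1.val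
    linarith
  · intro z
    show (a.y (i z)).val = S.π (S.φ (S.G z.1.val - a.s (i z)) z.1.val)
    rw [S.B11a_arc hp hi1 a z, S.πσ]
    exact a.eq (i z)

theorem Sec.rev {p : X} (hp : S.Inf p) {i : S.Pt p → S.Pt p} (hi : Continuous i)
    (hi1 : ∀ z, (i z).1.val = S.io z.1.val) (hi2 : ∀ z, i (i z) = z)
    (hi3 : ∀ z, S.G (i z).1.val = S.G z.1.val) {q : M} (a : S.Sec p q) :
    ∃ b : S.Sec p q, ∀ z, b.s z = S.G z.1.val - a.s (i z) := by
  obtain ⟨b, hb, -⟩ := S.B11a_rev hp hi hi1 hi3 a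
  exact ⟨b, hb⟩

theorem B11a_σ_ne (x : X) : S.σ x ≠ x := by
  intro h
  have h1 := S.σ_sep x
  rw [h, dist_self] at h1
  exact absurd S.c0_pos (not_lt.2 h1)

/-- continuous lift of the punctured leaf of `q ∈ Q` -/
theorem B11a_lift (hm : 3 ≤ m) {q : M} (hq : q ∈ S.Q) :
    ∃ o : {w : ULeaf S.g q // w.val ≠ q} → X, Continuous o ∧ ∀ w, S.π (o w) = w.1.val := by
  have : SimplyConnectedSpace {w : ULeaf S.g q // w.val ≠ q} := leaf_punct hm (S.H_exh q hq.1) q
  have : LocallyPathConnectedSpace {w : ULeaf S.g q // w.val ≠ q} := leaf_punct_lpc (S.H_exh q hq.1) q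
  let c : C({w : ULeaf S.g q // w.val ≠ q}, M) :=
    ⟨fun w => w.1.val, ULeaf.continuous_val.comp continuous_subtype_val⟩
  have hcB : ∀ w, c w ∈ range S.π := fun w => hq.2.2.2 ⟨w.1.prop, w.2⟩
  obtain ⟨o, ho, hoe⟩ := S.ylift {w : ULeaf S.g q // w.val ≠ q} c (fun w => S.B_S1 (hcB w))
  exact ⟨fun w => o ⟨w, hcB w⟩, ho.comp (Continuous.subtype_mk continuous_id _),
    fun w => hoe ⟨w, hcB w⟩⟩

theorem B11a_ne {p : X} {q : M} (hqB : q ∉ S.B) (a : S.Sec p q) (z : S.Pt p) :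
    (a.y z).val ≠ q := by
  intro h
  apply hqB
  rw [← h, a.eq z]
  exact mem_range_self _

/-- the sign of a section is constant -/
theorem B11a_sign (hm : 3 ≤ m) {p : X} (hp : S.Inf p) {q : M} (hq : q ∈ S.Q)
    {o : {w : ULeaf S.g q // w.val ≠ q} → X} (ho : Continuous o) (hoe : ∀ w, S.π (o w) = w.1.val)
    (a : S.Sec p q) :
    (∀ z, S.φ (a.s z) z.1.val = o ⟨a.y z, S.B11a_ne hq.2.1 a z⟩) ∨
    (∀ z, S.φ (a.s z) z.1.val = S.σ (o ⟨a.y z, S.B11a_ne hq.2.1 a z⟩)) := by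
  have : SimplyConnectedSpace (S.Pt p) := leaf_punct hm (S.exh p hp.1) p
  have hc1 : Continuous fun z : S.Pt p => S.φ (a.s z) z.1.val :=
    S.φ_cont.comp (a.cs.prodMk (ULeaf.continuous_val.comp continuous_subtype_val))
  have hc2 : Continuous fun z : S.Pt p => o ⟨a.y z, S.B11a_ne hq.2.1 a z⟩ :=
    ho.comp (Continuous.subtype_mk a.cy _)
  have hc3 : Continuous fun z : S.Pt p => S.σ (o ⟨a.y z, S.B11a_ne hq.2.1 a z⟩) :=
    S.σ.continuous.comp hc2
  set U : Set (S.Pt p) := {z | S.φ (a.s z) z.1.val = o ⟨a.y z, S.B11a_ne hq.2.1 a z⟩} with hU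
  set V : Set (S.Pt p) := {z | S.φ (a.s z) z.1.val = S.σ (o ⟨a.y z, S.B11a_ne hq.2.1 a z⟩)} with hV
  have hUc : IsClosed U := isClosed_eq hc1 hc2
  have hVc : IsClosed V := isClosed_eq hc1 hc3
  have hUV : U ∪ V = univ := by
    ext z
    simp only [mem_union, mem_univ, iff_true]
    exact S.fib (o ⟨a.y z, S.B11a_ne hq.2.1 a z⟩) (S.φ (a.s z) z.1.val) (by rw [hoe]; exact a.eq z)
  have hd : U ∩ V = ∅ := by
    ext z
    simp only [mem_inter_iff, mem_empty_iff_false, iff_false]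
    rintro ⟨h1, h2⟩
    exact S.B11a_σ_ne _ (Eq.trans (Eq.symm h2) h1)
  have hUo : U = Vᶜ := by
    ext z
    constructor
    · intro h1 h2
      have : z ∈ U ∩ V := ⟨h1, h2⟩
      rw [hd] at this; exact this
    · intro h
      have : z ∈ U ∪ V := by rw [hUV]; trivial
      exact this.resolve_right h
  have hclopen : IsClopen U := ⟨hUc, by rw [hUo]; exact hVc.isOpen_compl⟩
  rcases isClopen_iff.1 hclopen with h | h
  · right
    intro z
    have : z ∈ U ∪ V := by rw [hUV]; trivial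
    rcases this with h1 | h1
    · rw [h] at h1; exact h1.elim
    · exact h1
  · left
    intro z
    have : z ∈ U := by rw [h]; trivial
    exact this

/-- two sections with a common value (same lift) have the same times -/
theorem B11a_same (hm : 3 ≤ m) {p : X} (hp : S.Inf p) {q : M} (hq : q ∈ S.Q)
    (a b : S.Sec p q) (h : ∀ z z', a.y z = b.y z' → S.φ (a.s z) z.1.val = S.φ (b.s z') z'.1.val) :
    a.s = b.s := by
  obtain ⟨K, hK, hKa⟩ := Sec.infinity S hm hp hq.1 hq.2.1 a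
  obtain ⟨K', hK', hKb⟩ := Sec.infinity S hm hp hq.1 hq.2.1 b
  have hne : K ∪ K' ≠ univ := leaf_noncompact (by omega) (S.H_exh q hq.1) (hK.union hK')
  obtain ⟨w, hw⟩ : ∃ w, w ∉ K ∪ K' := by
    by_contra hcon
    push Not at hcon
    exact hne (eq_univ_of_forall hcon)
  rw [mem_union, not_or] at hw
  obtain ⟨z, hz⟩ := hKa w hw.1
  obtain ⟨z', hz'⟩ := hKb w hw.2
  have heq := h z z' (hz.trans hz'.symm)
  obtain ⟨h1, h2⟩ := S.arc_inj hp (a.pos z) (b.pos z') (a.lt z) (b.lt z') heq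
  subst h1
  exact Sec.ext' S hm hp hq.1 hq.2.1 a b h2

theorem Sec.sheets (hm : 3 ≤ m) {p : X} (hp : S.Inf p) {q : M} (hq : q ∈ S.Q) :
    {s : S.Pt p → ℝ | ∃ a : S.Sec p q, a.s = s}.Finite ∧
    ∀ (i : S.Pt p → S.Pt p), Continuous i → (∀ z, (i z).1.val = S.io z.1.val) →
      (∀ z, i (i z) = z) → (∀ z, S.G (i z).1.val = S.G z.1.val) →
      ∀ a : S.Sec p q, ∀ z, a.s z ≠ S.G z.1.val - a.s (i z) := by
  obtain ⟨o, ho, hoe⟩ := S.B11a_lift hm hq
  have hcong : ∀ (w w' : {w : ULeaf S.g q // w.val ≠ q}), w.1 = w'.1 → o w = o w' := by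
    intro w w' h; rw [Subtype.ext h]
  constructor
  · have hsub : {s : S.Pt p → ℝ | ∃ a : S.Sec p q, a.s = s} ⊆
        {s | ∃ a : S.Sec p q, a.s = s ∧
          ∀ z, S.φ (a.s z) z.1.val = o ⟨a.y z, S.B11a_ne hq.2.1 a z⟩} ∪
        {s | ∃ a : S.Sec p q, a.s = s ∧
          ∀ z, S.φ (a.s z) z.1.val = S.σ (o ⟨a.y z, S.B11a_ne hq.2.1 a z⟩)} := by
      rintro s ⟨a, rfl⟩
      rcases S.B11a_sign hm hp hq ho hoe a with h | h
      · exact Or.inl ⟨a, rfl, h⟩
      · exact Or.inr ⟨a, rfl, h⟩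
    refine Set.Finite.subset (Set.Finite.union (Set.Subsingleton.finite ?_)
      (Set.Subsingleton.finite ?_)) hsub
    · rintro s ⟨a, rfl, ha⟩ s' ⟨b, rfl, hb⟩
      refine S.B11a_same hm hp hq a b fun z z' h => ?_
      rw [ha, hb]
      exact hcong _ _ h
    · rintro s ⟨a, rfl, ha⟩ s' ⟨b, rfl, hb⟩
      refine S.B11a_same hm hp hq a b fun z z' h => ?_
      rw [ha, hb]
      exact congrArg S.σ (hcong _ _ h)
  · intro i hi hi1 hi2 hi3 a z hz
    have harc := S.B11a_arc hp hi1 a z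
    rw [← hz] at harc
    -- `a.y z = a.y (i z)`
    have hy : a.y z = a.y (i z) := by
      apply ULeaf.val_injective
      rw [a.eq z, harc, S.πσ]
      exact (a.eq (i z)).symm
    have ho' : o ⟨a.y z, S.B11a_ne hq.2.1 a z⟩ = o ⟨a.y (i z), S.B11a_ne hq.2.1 a (i z)⟩ :=
      hcong _ _ hy
    rcases S.B11a_sign hm hp hq ho hoe a with h | h
    · rw [h z, h (i z), ho'] at harc
      exact S.B11a_σ_ne _ harc.symm
    · rw [h z, h (i z), ho', S.σσ] at harc
      exact S.B11a_σ_ne _ harc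

end SD

end Pool.MP85
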