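import Pool.Agent.Lib.MP_85e637_an.AbsB
import Pool.Agent.Lib.MP_85e637_an.A01
import Pool.Agent.Lib.MP_85e637_an.A12
import Pool.Agent.Lib.MP_85e637_an.B02b
import Pool.Agent.Lib.MP_85e637_an.B03
import Pool.Agent.Lib.MP_85e637_an.B04
import Pool.Agent.Lib.MP_85e637_an.B05a
import Pool.Agent.Lib.MP_85e637_an.B05b
import Pool.Agent.Lib.MP_85e637_an.B08a
import Pool.Agent.Lib.MP_85e637_an.B10
import Pool.Agent.Lib.MP_85e637_an.B11a

/-!
# B11b: the symmetric middle section, and the contradiction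
-/

open Filter Topology Set Metric

namespace Pool.MP85

namespace SD
variable {m : ℕ} {X M : Type} [MetricSpace X] [MetricSpace M] [CompactSpace M] (S : SD m X M)

/-- the set of all sections over elements of `Q` -/
def B11b_Sg (p : X) : Set (S.Pt p → ℝ) := {s | ∃ q ∈ S.Q, ∃ a : S.Sec p q, a.s = s}

theorem B11b_fin (hm : 3 ≤ m) {p : X} (hp : S.Inf p) : (S.B11b_Sg p).Finite := by
  have h : S.B11b_Sg p = ⋃ q ∈ S.Q, {s : S.Pt p → ℝ | ∃ a : S.Sec p q, a.s = s} := by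
    ext s
    simp only [B11b_Sg, mem_ofPred_eq, mem_iUnion, exists_prop]
  rw [h]
  exact S.Q_fin.biUnion fun q hq => (Sec.sheets S hm hp hq).1

theorem B11b_per {q : M} (hq : q ∈ S.Q) : ∃ k > 0, fw S.g k q = q := hq.2.2.1

/-- two elements of `B11b_Sg` which meet are equal -/
theorem B11b_eq (hm : 3 ≤ m) {p : X} (hp : S.Inf p) {s s' : S.Pt p → ℝ} (hs : s ∈ S.B11b_Sg p)
    (hs' : s' ∈ S.B11b_Sg p) {z : S.Pt p} (h : s z = s' z) : s = s' := by
  obtain ⟨q, hq, a, rfl⟩ := hs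
  obtain ⟨q', hq', b, rfl⟩ := hs'
  have h1 : (a.y z).val = (b.y z).val := by rw [a.eq, b.eq, h]
  have h2 : q' ∈ WU S.g q := by
    have h3 : (b.y z).val ∈ WU S.g q := h1 ▸ (a.y z).prop
    exact wu_trans h3 (wu_symm (b.y z).prop)
  have h4 : q' = q := S.periodic_wu (S.B11b_per hq) (S.B11b_per hq') h2
  subst h4
  exact Sec.ext' S hm hp hq.1 hq.2.1 a b h

/-- two elements are ordered -/
theorem B11b_lt (hm : 3 ≤ m) {p : X} (hp : S.Inf p) {s s' : S.Pt p → ℝ} (hs : s ∈ S.B11b_Sg p)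
    (hs' : s' ∈ S.B11b_Sg p) {z : S.Pt p} (h : s z < s' z) (w : S.Pt p) : s w < s' w := by
  have : SimplyConnectedSpace (S.Pt p) := leaf_punct hm (S.exh p hp.1) p
  have hne : ∀ w, s w ≠ s' w := by
    intro w hw
    rw [S.B11b_eq hm hp hs hs' hw] at h
    exact lt_irrefl _ h
  have hc : Continuous s := by obtain ⟨q, _, a, rfl⟩ := hs; exact a.cs
  have hc' : Continuous s' := by obtain ⟨q, _, a, rfl⟩ := hs'; exact a.cs
  by_contra hw
  have hw' : s' w ≤ s w := not_lt.1 hw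
  obtain ⟨v, hv⟩ := mem_range_of_exists_le_of_exists_ge (hc'.sub hc) ⟨w, sub_nonpos.2 hw'⟩
    ⟨z, sub_nonneg.2 h.le⟩
  exact hne v (sub_eq_zero.1 hv).symm

theorem middle (hm : 3 ≤ m) {p : X} (hp : S.Inf p) {i : S.Pt p → S.Pt p} (hi : Continuous i)
    (hi1 : ∀ z, (i z).1.val = S.io z.1.val) (hi2 : ∀ z, i (i z) = z)
    (hi3 : ∀ z, S.G (i z).1.val = S.G z.1.val) :
    ∃ r : S.Pt p → ℝ, Continuous r ∧ (∀ z, 0 < r z ∧ r z < S.G z.1.val) ∧
      (∀ z, r (i z) = S.G z.1.val - r z) ∧ ∀ z, S.π (S.φ (r z) z.1.val) ∉ S.H := by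
  have : SimplyConnectedSpace (S.Pt p) := leaf_punct hm (S.exh p hp.1) p
  obtain ⟨z0⟩ : Nonempty (S.Pt p) := inferInstance
  have hG := S.G_cont hp
  -- a point of `H` on an open gap arc lies on a section
  have hsec : ∀ (z : S.Pt p) (t : ℝ), 0 < t → t < S.G z.1.val → S.π (S.φ t z.1.val) ∈ S.H →
      ∃ s ∈ S.B11b_Sg p, s z = t := by
    intro z t h0 h1 hH
    have hgap := S.P_gap hp z
    have hΛ : S.φ t z.1.val ∉ S.Λ := (S.G_spec hgap.1 hgap.2).2.2 t ⟨h0, h1⟩
    have hL : S.π (S.φ t z.1.val) ∉ S.L := fun h => hΛ (S.mem_L.1 h)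
    obtain ⟨q, hq, hqw⟩ := S.H_B hm hH (mem_range_self _) hL
    obtain ⟨a, ha⟩ := S.exists_sec hm hp hq.1 hq.2.1 z t h0 h1 hqw
    exact ⟨a.s, ⟨q, hq, a, rfl⟩, ha⟩
  have hpos : ∀ s ∈ S.B11b_Sg p, ∀ z, 0 < s z ∧ s z < S.G z.1.val := by
    rintro s ⟨q, _, a, rfl⟩ z
    exact ⟨a.pos z, a.lt z⟩
  have hcont : ∀ s ∈ S.B11b_Sg p, Continuous s := by
    rintro s ⟨q, _, a, rfl⟩
    exact a.cs
  -- the reversal
  let st : (S.Pt p → ℝ) → (S.Pt p → ℝ) := fun s z => S.G z.1.val - s (i z)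
  have hst : ∀ s ∈ S.B11b_Sg p, st s ∈ S.B11b_Sg p := by
    rintro s ⟨q, hq, a, rfl⟩
    obtain ⟨b, hb⟩ := Sec.rev S hp hi hi1 hi2 hi3 a
    exact ⟨q, hq, b, funext hb⟩
  have hstst : ∀ s, st (st s) = s := by
    intro s
    funext z
    change S.G z.1.val - (S.G (i z).1.val - s (i (i z))) = s z
    rw [hi3, hi2]
    ring
  have hstne : ∀ s ∈ S.B11b_Sg p, ∀ z, s z ≠ st s z := by
    rintro s ⟨q, hq, a, rfl⟩ z
    exact (Sec.sheets S hm hp hq).2 i hi hi1 hi2 hi3 a z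
  have hstlt : ∀ s s' : S.Pt p → ℝ, (∀ z, s z < s' z) → ∀ z, st s' z < st s z := by
    intro s s' h z
    change S.G z.1.val - s' (i z) < S.G z.1.val - s (i z)
    linarith [h (i z)]
  by_cases hE : (S.B11b_Sg p).Nonempty
  · -- the section below its reversal, maximal with this property
    set T : Set (S.Pt p → ℝ) := {s | s ∈ S.B11b_Sg p ∧ s z0 < st s z0} with hT
    have hTfin : T.Finite := (S.B11b_fin hm hp).subset fun s hs => hs.1
    have hTne : T.Nonempty := by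
      obtain ⟨s, hs⟩ := hE
      rcases lt_or_gt_of_ne (hstne s hs z0) with h | h
      · exact ⟨s, hs, h⟩
      · exact ⟨st s, hst s hs, by rw [hstst]; exact h⟩
    obtain ⟨s, ⟨hs, hslt⟩, hmax⟩ := Set.exists_max_image T (fun s => s z0) hTfin hTne
    have hslt' : ∀ z, s z < st s z := S.B11b_lt hm hp hs (hst s hs) hslt
    refine ⟨fun z => (s z + st s z) / 2, ?_, ?_, ?_, ?_⟩
    · exact ((hcont s hs).add (hcont _ (hst s hs))).div_const 2
    · intro z
      have h1 := hpos s hs z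
      have h2 := hpos _ (hst s hs) z
      constructor
      · linarith [h1.1, h2.1]
      · linarith [h1.2, h2.2]
    · intro z
      change (s (i z) + (S.G (i z).1.val - s (i (i z)))) / 2
        = S.G z.1.val - (s z + (S.G z.1.val - s (i z))) / 2
      rw [hi3, hi2]
      ring
    · intro z hz
      have h1 := hpos s hs z
      have h2 := hpos _ (hst s hs) z
      obtain ⟨s', hs', hs'z⟩ := hsec z ((s z + st s z) / 2) (by linarith [h1.1, h2.1])
        (by linarith [h1.2, h2.2]) hz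
      have h3 : s z < s' z := by rw [hs'z]; linarith [hslt' z]
      have h4 : s' z < st s z := by rw [hs'z]; linarith [hslt' z]
      have h5 : ∀ w, s w < s' w := S.B11b_lt hm hp hs hs' h3
      have h6 : ∀ w, s' w < st s w := S.B11b_lt hm hp hs' (hst s hs) h4
      rcases lt_or_gt_of_ne (hstne s' hs' z0) with h | h
      · exact absurd (hmax s' ⟨hs', h⟩) (not_le.2 (h5 z0))
      · have h7 : st s' ∈ T := ⟨hst s' hs', by rw [hstst]; exact h⟩
        have h8 := hstlt s' (st s) h6 z0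
        rw [hstst] at h8
        exact absurd (hmax _ h7) (not_le.2 h8)
  · refine ⟨fun z => S.G z.1.val / 2, hG.div_const 2, ?_, ?_, ?_⟩
    · intro z
      have := S.P_pos hp z
      constructor <;> linarith
    · intro z
      change S.G (i z).1.val / 2 = S.G z.1.val - S.G z.1.val / 2
      rw [hi3]
      ring
    · intro z hz
      have := S.P_pos hp z
      obtain ⟨s, hs, _⟩ := hsec z _ (by linarith) (by linarith) hz
      exact hE ⟨s, hs⟩

theorem B11b_src_fw {α : M} (hα : α ∈ S.Src) (n : ℕ) : fw S.g n α ∈ S.Src := by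
  induction n with
  | zero => exact hα
  | succ n ih => rw [fw_succ', S.Src_inv]; exact ih

theorem B11b_src_per {α : M} (hα : α ∈ S.Src) : ∃ k > 0, fw S.g k α = α := by
  have h : ∃ a b : ℕ, a < b ∧ fw S.g a α = fw S.g b α := by
    by_contra hcon
    push Not at hcon
    have hinj : Function.Injective (fun n : ℕ => fw S.g n α) := by
      intro a b hab
      rcases lt_trichotomy a b with h | h | h
      · exact absurd hab (hcon a b h)
      · exact h
      · exact absurd hab.symm (hcon b a h)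
    exact Set.infinite_range_of_injective hinj (S.Src_fin.subset (by
      rintro _ ⟨n, rfl⟩
      exact S.B11b_src_fw hα n))
  obtain ⟨a, b, hab, h⟩ := h
  refine ⟨b - a, by omega, ?_⟩
  have h1 : fw S.g b α = fw S.g a (fw S.g (b - a) α) := by
    rw [← fw_add]
    congr 1
    omega
  rw [h1] at h
  have h2 := congrArg (bk S.g a) h
  rw [bk_fw, bk_fw] at h2
  exact h2.symm

theorem no_1bunch (hm : 3 ≤ m) {p : X} (hp : S.Inf p) {z0 : S.Pt p}
    (h0 : S.io z0.1.val ∈ WU S.F p) : False := by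
  have : SimplyConnectedSpace (S.Pt p) := leaf_punct hm (S.exh p hp.1) p
  obtain ⟨i, hi, hi1, hi2, hi3⟩ := S.io_leaf hm hp h0
  obtain ⟨r, hr, hr1, hr2, hr3⟩ := S.middle hm hp hi hi1 hi2 hi3
  -- the middle curve
  obtain ⟨Γ, hΓ⟩ : ∃ Γ : S.Pt p → X, Γ = fun z => S.φ (r z) z.1.val := ⟨_, rfl⟩
  have hπc : Continuous S.π := by
    refine LipschitzWith.continuous (K := 1) (LipschitzWith.of_dist_le_mul fun x y => ?_)
    simpa using S.π_lip x y
  have hΓc : Continuous Γ := by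
    rw [hΓ]
    exact S.φ_cont.comp (hr.prodMk (ULeaf.continuous_val.comp continuous_subtype_val))
  have hΓi : ∀ z, Γ (i z) = S.σ (Γ z) := by
    intro z
    rw [hΓ]
    change S.φ (r (i z)) (i z).1.val = S.σ (S.φ (r z) z.1.val)
    rw [hi1, S.io_arc hp z, hr2]
    congr 2
    ring
  have hne : ∀ x, S.σ x ≠ x := by
    intro x h
    have := S.σ_sep x
    rw [h, dist_self] at this
    linarith [S.c0_pos]
  have hB : ∀ z, S.π (Γ z) ∈ S.B := fun z => mem_range_self _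
  have hS1 : ∀ z, S.π (Γ z) ∈ S.S1 := fun z => S.B_S1 (hB z)
  have hcase : ∀ z, ∃ α ∈ S.Src, S.π (Γ z) ∈ WU S.g α := by
    intro z
    rcases S.S1_cases _ (hS1 z) with h | h
    · rw [hΓ] at h
      exact absurd h (hr3 z)
    · exact h
  obtain ⟨α, hα, hz0⟩ := hcase z0
  -- `α` is constant
  have hall : ∀ z, S.π (Γ z) ∈ WU S.g α := by
    have hopen : ∀ β ∈ S.Src, IsOpen {z : S.Pt p | S.π (Γ z) ∈ WU S.g β} := fun β hβ =>
      (S.Src_open β hβ).preimage (hπc.comp hΓc)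
    have hcl : IsClosed {z : S.Pt p | S.π (Γ z) ∈ WU S.g α} := by
      rw [← isOpen_compl_iff]
      have : {z : S.Pt p | S.π (Γ z) ∈ WU S.g α}ᶜ =
          ⋃ β ∈ S.Src \ {α}, {z : S.Pt p | S.π (Γ z) ∈ WU S.g β} := by
        ext z
        simp only [mem_compl_iff, mem_ofPred_eq, mem_iUnion, exists_prop, Set.mem_sdiff,
          mem_singleton_iff]
        constructor
        · intro h
          obtain ⟨β, hβ, hz⟩ := hcase z
          exact ⟨β, ⟨hβ, fun hβα => h (hβα ▸ hz)⟩, hz⟩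
        · rintro ⟨β, ⟨hβ, hβα⟩, hz⟩ h
          exact hβα (S.periodic_wu (S.B11b_src_per hα) (S.B11b_src_per hβ)
            (wu_trans h (wu_symm hz)))
      rw [this]
      exact isOpen_biUnion fun β hβ => hopen β hβ.1
    have huniv := IsClopen.eq_univ ⟨hcl, hopen α hα⟩ ⟨z0, hz0⟩
    intro z
    have : z ∈ {z : S.Pt p | S.π (Γ z) ∈ WU S.g α} := huniv ▸ mem_univ z
    exact this
  have hneα : ∀ z, S.π (Γ z) ≠ α := fun z h =>
    disjoint_left.1 S.disj hα (h ▸ hS1 z)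
  have hV : ∀ z, S.π (Γ z) ∈ WU S.g α \ {α} := fun z => ⟨hall z, hneα z⟩
  have hVB : WU S.g α \ {α} ⊆ S.Bp :=
    S.source_Bp hm hα ⟨S.π (Γ z0), hV z0, Or.inl (hB z0)⟩
  have := S.Src_sc α hα
  have := S.Src_lpc α hα
  obtain ⟨o, ho, ho1⟩ := S.ylift ↥(WU S.g α \ {α}) ⟨Subtype.val, continuous_subtype_val⟩
    (fun a => S.Bp_S1 (hVB a.2))
  obtain ⟨e, he⟩ : ∃ e : S.Pt p → {a : ↥(WU S.g α \ {α}) //
      (⟨Subtype.val, continuous_subtype_val⟩ : C(↥(WU S.g α \ {α}), M)) a ∈ range S.π},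
      e = fun z => ⟨⟨S.π (Γ z), hV z⟩, mem_range_self _⟩ := ⟨_, rfl⟩
  have hec : Continuous e := by
    rw [he]
    exact Continuous.subtype_mk (Continuous.subtype_mk (hπc.comp hΓc) _) _
  have hei : ∀ z, e (i z) = e z := by
    intro z
    rw [he]
    refine Subtype.ext (Subtype.ext ?_)
    change S.π (Γ (i z)) = S.π (Γ z)
    rw [hΓi, S.πσ]
  have hoe : Continuous fun z => o (e z) := ho.comp hec
  have hdich : ∀ z, Γ z = o (e z) ∨ Γ z = S.σ (o (e z)) := by
    intro z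
    have h1 : S.π (o (e z)) = S.π (Γ z) := by
      rw [ho1, he]
      rfl
    exact S.fib _ _ h1
  -- the sign is constant
  have hcl1 : IsClosed {z : S.Pt p | Γ z = o (e z)} := isClosed_eq hΓc hoe
  have hcl2 : IsClosed {z : S.Pt p | Γ z = S.σ (o (e z))} :=
    isClosed_eq hΓc (S.σ.continuous.comp hoe)
  have hcompl : {z : S.Pt p | Γ z = o (e z)}ᶜ = {z : S.Pt p | Γ z = S.σ (o (e z))} := by
    ext z
    constructor
    · intro h
      exact (hdich z).resolve_left h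
    · intro h h'
      have h1 : Γ z = S.σ (o (e z)) := h
      have h2 : Γ z = o (e z) := h'
      exact hne (o (e z)) (h1.symm.trans h2)
  have hop1 : IsOpen {z : S.Pt p | Γ z = o (e z)} := by
    rw [← isClosed_compl_iff, hcompl]
    exact hcl2
  rcases hdich z0 with h | h
  · have huniv := IsClopen.eq_univ ⟨hcl1, hop1⟩ ⟨z0, h⟩
    have h1 : i z0 ∈ {z : S.Pt p | Γ z = o (e z)} := huniv ▸ mem_univ _
    have h2 : Γ (i z0) = o (e (i z0)) := h1
    rw [hei, ← h, hΓi] at h2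
    exact hne _ h2
  · have hop2 : IsOpen {z : S.Pt p | Γ z = S.σ (o (e z))} := by
      rw [← hcompl]
      exact hcl1.isOpen_compl
    have huniv := IsClopen.eq_univ ⟨hcl2, hop2⟩ ⟨z0, h⟩
    have h1 : i z0 ∈ {z : S.Pt p | Γ z = S.σ (o (e z))} := huniv ▸ mem_univ _
    have h2 : Γ (i z0) = S.σ (o (e (i z0))) := h1
    rw [hei, ← h, hΓi] at h2
    exact hne _ h2

end SD

end Pool.MP85
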