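import Pool.Agent.Lib.MP_85e637_an.B04
import Pool.Agent.Lib.MP_85e637_an.B11b

/-!
# Main theorem of layers A and B
-/

open Filter Topology Set Metric

namespace Pool.MP85
namespace SD
variable {m : ℕ} {X M : Type} [MetricSpace X] [MetricSpace M] [CompactSpace M] (S : SD m X M)

/-- main theorem of layers A and B: there is no reversing pair -/
theorem main (hm : 3 ≤ m) {x : X} (hx : x ∈ S.Λ) {T : ℝ} (h : S.σ (S.φ T x) ∈ WU S.F x) :
    False := by
  obtain ⟨p, hp, z0, h0⟩ := S.exists_1bunch (by omega) hx h
  exact S.no_1bunch hm hp h0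

end SD
end Pool.MP85
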