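import Pool.Agent.Lib.MP_85e637_an.AbsC
import Pool.Agent.Lib.MP_85e637_an.A01

/-!
# C01: algebra of cocycles
-/

open Filter Topology Set Metric Module

namespace Pool.MP85

namespace Coc
variable {N : ℕ} {K : Type} [MetricSpace K] (C : Coc N K)

theorem mem_T {x : K} {v : EE N} : v ∈ C.T x ↔ C.P x v = v := by
  constructor
  · rintro ⟨u, rfl⟩
    have := DFunLike.congr_fun (C.PP x) u
    simpa using this
  · intro h
    exact ⟨v, h⟩

theorem A_mem (x : K) (v : EE N) : C.A x v ∈ C.T (C.f x) := by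
  rw [mem_T]
  have := DFunLike.congr_fun (C.PA x) v
  simpa using this

theorem A'_mem (x : K) (v : EE N) : C.A' x v ∈ C.T x := by
  rw [mem_T]
  have := DFunLike.congr_fun (C.PA' x) v
  simpa using this

theorem P_mem (x : K) (v : EE N) : C.P x v ∈ C.T x := ⟨v, rfl⟩

theorem A'_A {x : K} {v : EE N} (hv : v ∈ C.T x) : C.A' x (C.A x v) = v := by
  have := DFunLike.congr_fun (C.A'A x) v
  rw [ContinuousLinearMap.comp_apply] at this
  rw [this, C.mem_T.1 hv]

theorem A_A' {x : K} {v : EE N} (hv : v ∈ C.T (C.f x)) : C.A x (C.A' x v) = v := by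
  have := DFunLike.congr_fun (C.AA' x) v
  rw [ContinuousLinearMap.comp_apply] at this
  rw [this, C.mem_T.1 hv]

theorem An_zero (x : K) : C.An 0 x = C.P x := rfl

theorem An_succ (n : ℕ) (x : K) : C.An (n + 1) x = C.An n (C.f x) ∘L C.A x := rfl

theorem An_mem (n : ℕ) (x : K) (v : EE N) : C.An n x v ∈ C.T (fw C.f n x) := by
  induction n generalizing x v with
  | zero => exact ⟨v, rfl⟩
  | succ n ih =>
    rw [An_succ, ContinuousLinearMap.comp_apply, fw_succ]
    exact ih (C.f x) (C.A x v)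

theorem An_P (n : ℕ) (x : K) : C.An n x ∘L C.P x = C.An n x := by
  cases n with
  | zero => exact C.PP x
  | succ n => rw [An_succ, ContinuousLinearMap.comp_assoc, C.AP]

theorem An_add (n k : ℕ) (x : K) : C.An (n + k) x = C.An n (fw C.f k x) ∘L C.An k x := by
  induction k generalizing x with
  | zero => exact (C.An_P n x).symm
  | succ k ih =>
    rw [← add_assoc, An_succ, ih, An_succ, fw_succ, ContinuousLinearMap.comp_assoc]

theorem An_one (x : K) : C.An 1 x = C.A x := by
  rw [An_succ, An_zero, C.PA]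

theorem An_succ' (n : ℕ) (x : K) : C.An (n + 1) x = C.A (fw C.f n x) ∘L C.An n x := by
  rw [add_comm, An_add, An_one]

theorem continuous_An (n : ℕ) : Continuous (C.An n) := by
  induction n with
  | zero => exact C.contP
  | succ n ih =>
    have h1 : Continuous fun x => C.An n (C.f x) := ih.comp C.f.continuous
    exact h1.clm_comp C.contA

theorem symm_An_An (n : ℕ) {x : K} {v : EE N} (hv : v ∈ C.T x) :
    C.symm.An n (fw C.f n x) (C.An n x v) = v := by
  induction n with
  | zero =>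
    change C.P x (C.P x v) = v
    rw [C.mem_T.1 hv, C.mem_T.1 hv]
  | succ n ih =>
    rw [C.An_succ' n x, C.symm.An_succ n, fw_succ']
    rw [ContinuousLinearMap.comp_apply, ContinuousLinearMap.comp_apply]
    have h1 : C.symm.f (C.f (fw C.f n x)) = fw C.f n x := C.f.symm_apply_apply _
    have h2 : C.symm.A (C.f (fw C.f n x)) = C.A' (fw C.f n x) := by
      change C.A' (C.f.symm (C.f (fw C.f n x))) = _
      rw [C.f.symm_apply_apply]
    rw [h1, h2, C.A'_A (C.An_mem n x v)]
    exact ih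

theorem symm_symm : C.symm.symm = C := by
  cases C with
  | mk f P A A' h1 h2 h3 h4 h5 h6 h7 h8 h9 h10 h11 =>
    unfold symm
    congr 1
    · funext x
      exact congrArg A (f.symm_apply_apply x)
    · funext x
      exact congrArg A' (f.symm_apply_apply x)

theorem fw_symm (n : ℕ) (x : K) : fw C.symm.f n x = bk C.f n x := rfl

theorem bk_symm (n : ℕ) (x : K) : bk C.symm.f n x = fw C.f n x := rfl

theorem An_symm_An (n : ℕ) {x : K} {v : EE N} (hv : v ∈ C.T x) :
    C.An n (bk C.f n x) (C.symm.An n x v) = v := by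
  have h := C.symm.symm_An_An n (x := x) (v := v) hv
  rw [symm_symm] at h
  exact h

theorem norm_P_le (x : K) (v : EE N) : ‖C.P x v‖ ≤ ‖v‖ := by
  have h1 : inner ℝ (C.P x v) (C.P x v) = inner ℝ v (C.P x v) := by
    rw [C.Psa]
    have := DFunLike.congr_fun (C.PP x) v
    rw [ContinuousLinearMap.comp_apply] at this
    rw [this]
  have h2 : inner ℝ v (C.P x v) ≤ ‖v‖ * ‖C.P x v‖ := real_inner_le_norm _ _
  rw [← h1, real_inner_self_eq_norm_mul_norm] at h2
  by_contra hc
  push Not at hc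
  have h3 : 0 < ‖C.P x v‖ := lt_of_le_of_lt (norm_nonneg _) hc
  nlinarith [mul_lt_mul_of_pos_right hc h3]

theorem An_bound [CompactSpace K] : ∃ c, 1 ≤ c ∧ ∀ n x, ‖C.An n x‖ ≤ c ^ n := by
  obtain ⟨c0, hc0⟩ := isCompact_univ.exists_bound_of_continuousOn
    (C.contA.continuousOn (s := (univ : Set K)))
  refine ⟨max 1 c0, le_max_left _ _, fun n => ?_⟩
  induction n with
  | zero =>
    intro x
    rw [pow_zero]
    refine ContinuousLinearMap.opNorm_le_bound _ zero_le_one fun v => ?_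
    rw [one_mul]
    exact C.norm_P_le x v
  | succ n ih =>
    intro x
    rw [An_succ, pow_succ]
    refine (ContinuousLinearMap.opNorm_comp_le _ _).trans ?_
    refine mul_le_mul (ih _) ((hc0 x (mem_univ _)).trans (le_max_right _ _)) (norm_nonneg _) ?_
    positivity

theorem pairing (n : ℕ) {x : K} {v ξ : EE N} (hv : v ∈ C.T x) (hξ : ξ ∈ C.T x) :
    inner ℝ (C.dual.An n x ξ) (C.An n x v) = inner ℝ ξ v := by
  induction n generalizing x v ξ with
  | zero =>
    change inner ℝ (C.P x ξ) (C.P x v) = inner ℝ ξ v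
    rw [C.mem_T.1 hv, C.mem_T.1 hξ]
  | succ n ih =>
    rw [An_succ, An_succ, ContinuousLinearMap.comp_apply, ContinuousLinearMap.comp_apply]
    have h1 : C.dual.A x ξ ∈ C.T (C.f x) := C.dual.A_mem x ξ
    have h2 := ih (x := C.f x) (v := C.A x v) (ξ := C.dual.A x ξ) (C.A_mem x v) h1
    change inner ℝ (C.dual.An n (C.f x) (C.dual.A x ξ)) (C.An n (C.f x) (C.A x v)) = _
    rw [h2]
    change inner ℝ (ContinuousLinearMap.adjoint (C.A' x) ξ) (C.A x v) = _
    rw [ContinuousLinearMap.adjoint_inner_left, C.A'_A hv]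

theorem dual_symm : C.dual.symm = C.symm.dual := rfl

theorem dual_symm_An (n : ℕ) (x : K) : C.dual.symm.An n x = C.symm.dual.An n x := rfl

theorem pairing_symm (n : ℕ) {x : K} {v ξ : EE N} (hv : v ∈ C.T x) (hξ : ξ ∈ C.T x) :
    inner ℝ (C.dual.symm.An n x ξ) (C.symm.An n x v) = inner ℝ ξ v := by
  rw [dual_symm_An]
  exact C.symm.pairing n hv hξ

theorem Es_le (x : K) : C.Es x ≤ C.T x := fun _ hv => C.mem_T.2 hv.1

theorem Eu_le (x : K) : C.Eu x ≤ C.T x := fun _ hv => C.mem_T.2 hv.1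

theorem Es_map {x : K} {v : EE N} (hv : v ∈ C.T x) :
    C.A x v ∈ C.Es (C.f x) ↔ v ∈ C.Es x := by
  have h1 : (fun n => ‖C.An n (C.f x) (C.A x v)‖) = fun n => ‖C.An (n + 1) x v‖ := by
    funext n
    rw [An_succ, ContinuousLinearMap.comp_apply]
  constructor
  · rintro ⟨-, h⟩
    refine ⟨C.mem_T.1 hv, ?_⟩
    rw [h1] at h
    exact (tendsto_add_atTop_iff_nat 1).1 h
  · rintro ⟨-, h⟩
    refine ⟨C.mem_T.1 (C.A_mem x v), ?_⟩
    rw [h1]
    exact (tendsto_add_atTop_iff_nat 1).2 h

theorem Eu_map' {x : K} {v : EE N} (hv : v ∈ C.T x) :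
    C.A x v ∈ C.Eu (C.f x) ↔ v ∈ C.Eu x := by
  have h0 : C.symm.A (C.f x) (C.A x v) = v := by
    change C.A' (C.f.symm (C.f x)) (C.A x v) = v
    rw [C.f.symm_apply_apply, C.A'_A hv]
  have h := C.symm.Es_map (x := C.f x) (v := C.A x v) (C.A_mem x v)
  rw [h0] at h
  have h2 : C.symm.f (C.f x) = x := C.f.symm_apply_apply x
  rw [h2] at h
  exact h.symm

theorem Eu_map [CompactSpace K] {x : K} {v : EE N} (hv : v ∈ C.T x) :
    C.A x v ∈ C.Eu (C.f x) ↔ v ∈ C.Eu x := C.Eu_map' hv

/-- `A x` restricts to an isomorphism between corresponding subspaces -/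
theorem finrank_map {x : K} {V W : Submodule ℝ (EE N)} (hV : V ≤ C.T x) (hW : W ≤ C.T (C.f x))
    (h : ∀ v ∈ C.T x, C.A x v ∈ W ↔ v ∈ V) : finrank ℝ W = finrank ℝ V := by
  refine LinearEquiv.finrank_eq (R := ℝ) (M := W) (N := V) ?_
  exact
    { toFun := fun w => ⟨C.A' x w.1, (h _ (C.A'_mem x w.1)).1 (by
        rw [C.A_A' (hW w.2)]; exact w.2)⟩
      map_add' := fun w w' => by
        ext1
        simp
      map_smul' := fun c w => by
        ext1
        simp
      invFun := fun v => ⟨C.A x v.1, (h _ (hV v.2)).2 v.2⟩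
      left_inv := fun w => by
        ext1
        exact C.A_A' (hW w.2)
      right_inv := fun v => by
        ext1
        exact C.A'_A (hV v.2) }

theorem finrank_Es_f (x : K) : finrank ℝ (C.Es (C.f x)) = finrank ℝ (C.Es x) :=
  C.finrank_map (C.Es_le x) (C.Es_le _) fun _ hv => C.Es_map hv

theorem finrank_Eu_f' (x : K) : finrank ℝ (C.Eu (C.f x)) = finrank ℝ (C.Eu x) :=
  C.finrank_map (C.Eu_le x) (C.Eu_le _) fun _ hv => C.Eu_map' hv

theorem finrank_Eu_f [CompactSpace K] (x : K) :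
    finrank ℝ (C.Eu (C.f x)) = finrank ℝ (C.Eu x) := C.finrank_Eu_f' x

theorem finrank_T_f (x : K) : finrank ℝ (C.T (C.f x)) = finrank ℝ (C.T x) :=
  C.finrank_map le_rfl le_rfl fun v hv => ⟨fun _ => hv, fun _ => C.A_mem x v⟩

end Coc

end Pool.MP85
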