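import Pool.Agent.Lib.MP_85e637_an.AbsC
import Pool.Agent.Lib.MP_85e637_an.A01
import Pool.Agent.Lib.MP_85e637_an.C01

/-!
# C02 cocycles without bounded orbits (Mañé, Sacker–Sell)
-/

open Filter Topology Set Metric Module

namespace Pool.MP85

namespace Coc
variable {N : ℕ} {K : Type} [MetricSpace K] (C : Coc N K)

/-- no nonzero vector has a bounded two-sided orbit -/
def NoBdd : Prop := ∀ x, ∀ v ∈ C.T x, (∃ c, ∀ n, ‖C.An n x v‖ ≤ c) →
  (∃ c, ∀ n, ‖C.symm.An n x v‖ ≤ c) → v = 0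

theorem NoBdd.symm (h : C.NoBdd) : C.symm.NoBdd := by
  intro x v hv h1 h2
  rw [symm_symm] at h2
  exact h x v hv h2 h1

/-- strong transversality implies that the dual cocycle has no bounded orbit -/
theorem noBdd_dual (h : ∀ x, C.T x ≤ C.Es x ⊔ C.Eu x) : C.dual.NoBdd := by
  intro x ξ hξ h1 h2
  have hξ' : ξ ∈ C.T x := hξ
  obtain ⟨c1, h1⟩ := h1
  obtain ⟨c2, h2⟩ := h2
  have hs : ∀ v ∈ C.Es x, inner ℝ ξ v = 0 := by
    intro v hv
    have hvT : v ∈ C.T x := C.Es_le x hv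
    have hlim : Tendsto (fun n => inner ℝ (C.dual.An n x ξ) (C.An n x v)) atTop (𝓝 (0:ℝ)) := by
      refine squeeze_zero_norm (a := fun n => c1 * ‖C.An n x v‖) (fun n => ?_) ?_
      · refine (norm_inner_le_norm _ _).trans ?_
        exact mul_le_mul_of_nonneg_right (h1 n) (norm_nonneg _)
      · simpa using hv.2.const_mul c1
    have hconst : (fun n => inner ℝ (C.dual.An n x ξ) (C.An n x v)) = fun _ => inner ℝ ξ v := by
      funext n
      exact C.pairing n hvT hξ'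
    rw [hconst] at hlim
    exact tendsto_nhds_unique tendsto_const_nhds hlim
  have hu : ∀ v ∈ C.Eu x, inner ℝ ξ v = 0 := by
    intro v hv
    have hvT : v ∈ C.T x := C.Eu_le x hv
    have hlim : Tendsto (fun n => inner ℝ (C.dual.symm.An n x ξ) (C.symm.An n x v)) atTop
        (𝓝 (0:ℝ)) := by
      refine squeeze_zero_norm (a := fun n => c2 * ‖C.symm.An n x v‖) (fun n => ?_) ?_
      · refine (norm_inner_le_norm _ _).trans ?_
        exact mul_le_mul_of_nonneg_right (h2 n) (norm_nonneg _)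
      · simpa using hv.2.const_mul c2
    have hconst : (fun n => inner ℝ (C.dual.symm.An n x ξ) (C.symm.An n x v)) =
        fun _ => inner ℝ ξ v := by
      funext n
      exact C.pairing_symm n hvT hξ'
    rw [hconst] at hlim
    exact tendsto_nhds_unique tendsto_const_nhds hlim
  obtain ⟨v, hv, w, hw, hvw⟩ := Submodule.mem_sup.1 (h x hξ')
  have h3 : inner ℝ ξ (v + w) = (0:ℝ) := by
    rw [inner_add_right, hs v hv, hu w hw, add_zero]
  rw [hvw] at h3
  exact inner_self_eq_zero.1 h3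

theorem C02_An_add_apply (n k : ℕ) (x : K) (v : EE N) :
    C.An (n + k) x v = C.An n (fw C.f k x) (C.An k x v) := by
  rw [An_add]; rfl

theorem C02_back {k m : ℕ} (hkm : k ≤ m) {x : K} {v : EE N} :
    C.symm.An k (fw C.f m x) (C.An m x v) = C.An (m - k) x v := by
  have h1 : fw C.f m x = fw C.f k (fw C.f (m - k) x) := by
    rw [← fw_add]
    congr 1
    omega
  have h2 : C.An m x v = C.An k (fw C.f (m - k) x) (C.An (m - k) x v) := by
    rw [← C02_An_add_apply]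
    congr 2
    omega
  rw [h1, h2]
  exact C.symm_An_An k (C.An_mem _ _ _)

theorem C02_An_zero {x : K} {v : EE N} (hv : v ∈ C.T x) : C.An 0 x v = v :=
  C.mem_T.1 hv

theorem C02_Fb_T {x : K} {v : EE N} (hv : v ∈ C.Fb x) : v ∈ C.T x := C.mem_T.2 hv.1

theorem C02_Fb_An {x : K} {v : EE N} (hv : v ∈ C.Fb x) (k : ℕ) :
    C.An k x v ∈ C.Fb (fw C.f k x) := by
  refine ⟨C.mem_T.1 (C.An_mem _ _ _), ?_⟩
  obtain ⟨c, hc⟩ := hv.2
  refine ⟨c, fun n => ?_⟩
  rw [← C02_An_add_apply]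
  exact hc _

theorem C02_cont (n : ℕ) : Continuous fun q : K × EE N => C.An n q.1 q.2 :=
  ((C.continuous_An n).comp continuous_fst).clm_apply continuous_snd

variable {C}

/-- uniform version of `NoBdd` -/
theorem NoBdd.C02_unif [CompactSpace K] (h : C.NoBdd) (b : ℝ) : ∃ n : ℕ, ∀ x, ∀ v ∈ C.T x,
    (∀ k ≤ n, ‖C.An k x v‖ ≤ b * ‖v‖ ∧ ‖C.symm.An k x v‖ ≤ b * ‖v‖) → v = 0 := by
  by_contra hcon
  push Not at hcon
  let F : ℕ → Set (K × EE N) := fun n => {q | C.P q.1 q.2 = q.2 ∧ ‖q.2‖ = 1 ∧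
    ∀ k ≤ n, ‖C.An k q.1 q.2‖ ≤ b ∧ ‖C.symm.An k q.1 q.2‖ ≤ b}
  have hne : ∀ n, (F n).Nonempty := by
    intro n
    obtain ⟨x, v, hv, h1, h2⟩ := hcon n
    have hpos : 0 < ‖v‖ := norm_pos_iff.2 h2
    refine ⟨(x, ‖v‖⁻¹ • v), ?_, ?_, ?_⟩
    · change C.P x (‖v‖⁻¹ • v) = ‖v‖⁻¹ • v
      rw [map_smul, C.mem_T.1 hv]
    · change ‖‖v‖⁻¹ • v‖ = 1
      rw [norm_smul, norm_inv, norm_norm, inv_mul_cancel₀ hpos.ne']
    · intro k hk
      obtain ⟨a1, a2⟩ := h1 k hk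
      change ‖C.An k x (‖v‖⁻¹ • v)‖ ≤ b ∧ ‖C.symm.An k x (‖v‖⁻¹ • v)‖ ≤ b
      rw [map_smul, map_smul, norm_smul, norm_smul, norm_inv, norm_norm,
        inv_mul_le_iff₀ hpos, inv_mul_le_iff₀ hpos, mul_comm ‖v‖ b]
      exact ⟨a1, a2⟩
  have hclosed : ∀ n, IsClosed (F n) := by
    intro n
    have c1 : IsClosed {q : K × EE N | C.P q.1 q.2 = q.2} :=
      isClosed_eq ((C.contP.comp continuous_fst).clm_apply continuous_snd) continuous_snd
    have c2 : IsClosed {q : K × EE N | ‖q.2‖ = 1} :=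
      isClosed_eq continuous_snd.norm continuous_const
    have c3 : IsClosed {q : K × EE N | ∀ k ≤ n, ‖C.An k q.1 q.2‖ ≤ b ∧
        ‖C.symm.An k q.1 q.2‖ ≤ b} := by
      have : {q : K × EE N | ∀ k ≤ n, ‖C.An k q.1 q.2‖ ≤ b ∧ ‖C.symm.An k q.1 q.2‖ ≤ b} =
          ⋂ k, ⋂ (_ : k ≤ n), ({q : K × EE N | ‖C.An k q.1 q.2‖ ≤ b} ∩
            {q : K × EE N | ‖C.symm.An k q.1 q.2‖ ≤ b}) := by
        ext q
        simp
      rw [this]
      refine isClosed_iInter fun k => isClosed_iInter fun _ => ?_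
      exact (isClosed_le (C.C02_cont k).norm continuous_const).inter
        (isClosed_le (C.symm.C02_cont k).norm continuous_const)
    exact c1.inter (c2.inter c3)
  have hcpt : IsCompact (F 0) := by
    refine IsCompact.of_isClosed_subset
      (isCompact_univ.prod (isCompact_closedBall (0 : EE N) 1)) (hclosed 0) ?_
    intro q hq
    refine ⟨mem_univ _, ?_⟩
    rw [mem_closedBall_zero_iff]
    exact hq.2.1.le
  have hanti : ∀ n, F (n + 1) ⊆ F n := by
    intro n q hq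
    exact ⟨hq.1, hq.2.1, fun k hk => hq.2.2 k (hk.trans (Nat.le_succ n))⟩
  obtain ⟨q, hq⟩ := IsCompact.nonempty_iInter_of_sequence_nonempty_isCompact_isClosed F hanti
    hne hcpt hclosed
  rw [mem_iInter] at hq
  have h0 := h q.1 q.2 (C.mem_T.2 (hq 0).1) ⟨b, fun n => ((hq n).2.2 n le_rfl).1⟩
    ⟨b, fun n => ((hq n).2.2 n le_rfl).2⟩
  have h1 := (hq 0).2.1
  rw [h0, norm_zero] at h1
  exact zero_ne_one h1

theorem NoBdd.C02_kappa [CompactSpace K] (h : C.NoBdd) : ∃ κ : ℝ, 1 ≤ κ ∧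
    ∀ x, ∀ v ∈ C.Fb x, ∀ n, ‖C.An n x v‖ ≤ κ * ‖v‖ := by
  obtain ⟨n, hn⟩ := h.C02_unif 2
  obtain ⟨c, hc1, hc⟩ := C.An_bound
  refine ⟨2 * c ^ n, ?_, ?_⟩
  · have : (1:ℝ) ≤ c ^ n := one_le_pow₀ hc1
    linarith
  · intro x v hv j
    have hvT := C.C02_Fb_T hv
    obtain ⟨b, hb⟩ := hv.2
    have hbdd : BddAbove (range fun i => ‖C.An i x v‖) := ⟨b, by rintro _ ⟨i, rfl⟩; exact hb i⟩
    set s : ℝ := ⨆ i, ‖C.An i x v‖ with hs
    have hle : ∀ i, ‖C.An i x v‖ ≤ s := fun i => le_ciSup hbdd i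
    have hs0 : 0 ≤ s := (norm_nonneg _).trans (hle 0)
    rcases hs0.eq_or_lt with hs0 | hs0
    · refine (hle j).trans ?_
      rw [← hs0]
      positivity
    obtain ⟨m, hm⟩ := exists_lt_of_lt_ciSup (show s / 2 < ⨆ i, ‖C.An i x v‖ by rw [← hs]; linarith)
    have hwT := C.An_mem m x v
    have hmn : m < n := by
      by_contra hcon
      push Not at hcon
      have hw0 : C.An m x v = 0 := by
        refine hn (fw C.f m x) _ hwT fun k hk => ⟨?_, ?_⟩
        · rw [← C02_An_add_apply]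
          have := hle (k + m)
          linarith
        · rw [C.C02_back (hk.trans hcon)]
          have := hle (m - k)
          linarith
      rw [hw0, norm_zero] at hm
      linarith
    have h1 : ‖C.An m x v‖ ≤ c ^ m * ‖v‖ :=
      (ContinuousLinearMap.le_opNorm _ _).trans
        (mul_le_mul_of_nonneg_right (hc m x) (norm_nonneg _))
    have h2 : c ^ m ≤ c ^ n := pow_le_pow_right₀ hc1 hmn.le
    have h3 : c ^ m * ‖v‖ ≤ c ^ n * ‖v‖ := mul_le_mul_of_nonneg_right h2 (norm_nonneg _)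
    have h4 := hle j
    linarith

theorem NoBdd.C02_half [CompactSpace K] (h : C.NoBdd) : ∃ m : ℕ, 0 < m ∧
    ∀ x, ∀ v ∈ C.Fb x, ‖C.An m x v‖ ≤ 1 / 2 * ‖v‖ := by
  obtain ⟨κ, hκ, hb⟩ := h.C02_kappa
  obtain ⟨n, hn⟩ := h.C02_unif (2 * κ ^ 2)
  refine ⟨(n + 1) + (n + 1), by omega, ?_⟩
  intro x v hv
  have hvT := C.C02_Fb_T hv
  by_contra hcon
  push Not at hcon
  have hwT := C.An_mem (n + 1) x v
  have hwF := C.C02_Fb_An hv (n + 1)
  have hlast : ‖C.An ((n + 1) + (n + 1)) x v‖ ≤ κ * ‖C.An (n + 1) x v‖ := by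
    rw [C02_An_add_apply]
    exact hb _ _ hwF _
  have hw0 : C.An (n + 1) x v = 0 := by
    refine hn _ _ hwT fun k hk => ⟨?_, ?_⟩
    · refine (hb _ _ hwF k).trans ?_
      refine mul_le_mul_of_nonneg_right ?_ (norm_nonneg _)
      nlinarith
    · rw [C.C02_back (hk.trans (Nat.le_succ n))]
      have h1 := hb x v hv (n + 1 - k)
      have h2 : ‖v‖ ≤ 2 * (κ * ‖C.An (n + 1) x v‖) := by linarith
      have h3 : κ * ‖v‖ ≤ κ * (2 * (κ * ‖C.An (n + 1) x v‖)) :=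
        mul_le_mul_of_nonneg_left h2 (by linarith)
      nlinarith
  rw [hw0, norm_zero, mul_zero] at hlast
  have := norm_nonneg v
  linarith

variable (C)

theorem NoBdd.decay [CompactSpace K] (h : C.NoBdd) : ∃ c lam : ℝ, 0 < lam ∧ lam < 1 ∧
    ∀ x, ∀ v ∈ C.Fb x, ∀ n, ‖C.An n x v‖ ≤ c * lam ^ n * ‖v‖ := by
  obtain ⟨κ, hκ, hb⟩ := h.C02_kappa
  obtain ⟨m, hm, hh⟩ := h.C02_half
  have hm' : (1:ℝ) ≤ m := by exact_mod_cast hm
  have hlam0 : (1:ℝ) / (2 * m) ≤ 1 / 2 := by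
    rw [div_le_div_iff₀ (by positivity) (by norm_num)]
    linarith
  have hlam1 : (0:ℝ) < 1 / (2 * m) := by positivity
  set lam : ℝ := 1 - 1 / (2 * m) with hlam
  have hl0 : 0 < lam := by linarith
  have hl1 : lam < 1 := by linarith
  have hpow : 1 / 2 ≤ lam ^ m := by
    have h1 := one_add_mul_le_pow (a := -(1 / (2 * (m:ℝ)))) (by linarith) m
    have h2 : (1:ℝ) + m * -(1 / (2 * m)) = 1 / 2 := by
      field_simp
      ring
    rw [h2] at h1
    rw [hlam, sub_eq_add_neg]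
    exact h1
  refine ⟨2 * κ, lam, hl0, hl1, ?_⟩
  have hq : ∀ q : ℕ, ∀ x, ∀ v ∈ C.Fb x, ‖C.An (q * m) x v‖ ≤ (1 / 2) ^ q * ‖v‖ := by
    intro q
    induction q with
    | zero =>
      intro x v hv
      rw [Nat.zero_mul, C.C02_An_zero (C.C02_Fb_T hv)]
      simp
    | succ q ih =>
      intro x v hv
      rw [Nat.succ_mul, C02_An_add_apply]
      refine (ih _ _ (C.C02_Fb_An hv m)).trans ?_
      rw [pow_succ, mul_assoc]
      exact mul_le_mul_of_nonneg_left (hh x v hv) (by positivity)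
  intro x v hv n
  have hn : n = n % m + n / m * m := by
    rw [mul_comm]
    exact (Nat.mod_add_div n m).symm
  have h1 : ‖C.An n x v‖ ≤ κ * ((1 / 2) ^ (n / m) * ‖v‖) := by
    conv_lhs => rw [hn]
    rw [C02_An_add_apply]
    exact (hb _ _ (C.C02_Fb_An hv _) _).trans
      (mul_le_mul_of_nonneg_left (hq _ x v hv) (by linarith))
  have h2 : (1 / 2 : ℝ) ^ (n / m) ≤ (lam ^ m) ^ (n / m) :=
    pow_le_pow_left₀ (by norm_num) hpow _
  have h3 : 1 / 2 ≤ lam ^ (n % m) :=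
    hpow.trans (pow_le_pow_of_le_one hl0.le hl1.le (Nat.mod_lt n hm).le)
  have h4 : lam ^ n = lam ^ (n % m) * (lam ^ m) ^ (n / m) := by
    rw [← pow_mul, ← pow_add]
    congr 1
    rw [mul_comm m]
    exact hn
  have h5 : (1 / 2 : ℝ) ^ (n / m) ≤ 2 * lam ^ n := by
    rw [h4]
    have : 0 ≤ (lam ^ m) ^ (n / m) := by positivity
    nlinarith
  calc ‖C.An n x v‖ ≤ κ * ((1 / 2) ^ (n / m) * ‖v‖) := h1
    _ ≤ κ * ((2 * lam ^ n) * ‖v‖) := by
        refine mul_le_mul_of_nonneg_left ?_ (by linarith)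
        exact mul_le_mul_of_nonneg_right h5 (norm_nonneg _)
    _ = 2 * κ * lam ^ n * ‖v‖ := by ring

theorem NoBdd.closed [CompactSpace K] (h : C.NoBdd) :
    IsClosed {q : K × EE N | q.2 ∈ C.Fb q.1} := by
  obtain ⟨κ, hκ, hb⟩ := h.C02_kappa
  have : {q : K × EE N | q.2 ∈ C.Fb q.1} = {q : K × EE N | C.P q.1 q.2 = q.2} ∩
      ⋂ n, {q : K × EE N | ‖C.An n q.1 q.2‖ ≤ κ * ‖q.2‖} := by
    ext q
    simp only [mem_ofPred_eq, mem_inter_iff, mem_iInter]
    constructor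
    · intro hq
      exact ⟨hq.1, hb _ _ hq⟩
    · rintro ⟨h1, h2⟩
      exact ⟨h1, _, h2⟩
  rw [this]
  refine IsClosed.inter ?_ (isClosed_iInter fun n => ?_)
  · exact isClosed_eq ((C.contP.comp continuous_fst).clm_apply continuous_snd) continuous_snd
  · exact isClosed_le (C.C02_cont n).norm (continuous_const.mul continuous_snd.norm)

end Coc
end Pool.MP85
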