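import Pool.Agent.Lib.MP_85e637_an.AbsC

/-!
# C03: closed families of subspaces
-/

open Filter Topology Set Metric Module

namespace Pool.MP85

section Sub
variable {N : ℕ} {K : Type} [MetricSpace K]

/-- orthonormal families in a subspace of large dimension -/
theorem C03_frame (V : Submodule ℝ (EE N)) {k : ℕ} (hk : k ≤ finrank ℝ V) :
    ∃ b : Fin k → EE N, Orthonormal ℝ b ∧ ∀ i, b i ∈ V := by
  let B := stdOrthonormalBasis ℝ V
  refine ⟨fun i => (B (Fin.castLE hk i) : EE N), ?_, fun i => (B (Fin.castLE hk i)).2⟩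
  have h1 : Orthonormal ℝ (fun i => (B i : EE N)) :=
    B.orthonormal.comp_linearIsometry V.subtypeₗᵢ
  exact h1.comp _ (Fin.castLE_injective hk)

/-- compactness of orthonormal frames -/
theorem C03_limit {k : ℕ} (b : ℕ → Fin k → EE N) (hb : ∀ n, Orthonormal ℝ (b n)) :
    ∃ φ : ℕ → ℕ, StrictMono φ ∧ ∃ b0 : Fin k → EE N, Tendsto (fun n => b (φ n)) atTop (𝓝 b0) ∧
      Orthonormal ℝ b0 := by
  have hc : IsCompact (closedBall (0 : Fin k → EE N) 1) := isCompact_closedBall _ _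
  have hm : ∀ n, b n ∈ closedBall (0 : Fin k → EE N) 1 := by
    intro n
    rw [mem_closedBall_zero_iff]
    refine (pi_norm_le_iff_of_nonneg zero_le_one).2 fun i => ?_
    exact ((hb n).1 i).le
  obtain ⟨b0, -, φ, hφ, hlim⟩ := hc.tendsto_subseq hm
  refine ⟨φ, hφ, b0, hlim, ?_⟩
  rw [orthonormal_iff_ite]
  intro i j
  have h1 : Tendsto (fun n => inner ℝ (b (φ n) i) (b (φ n) j)) atTop (𝓝 (inner ℝ (b0 i) (b0 j))) :=
    ((tendsto_pi_nhds.1 hlim) i).inner ((tendsto_pi_nhds.1 hlim) j)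
  have h2 : (fun n => inner ℝ (b (φ n) i) (b (φ n) j)) = fun _ => if i = j then (1 : ℝ) else 0 := by
    funext n
    exact (orthonormal_iff_ite.1 (hb (φ n))) i j
  rw [h2] at h1
  exact tendsto_nhds_unique h1 tendsto_const_nhds

theorem C03_le {k : ℕ} {V : Submodule ℝ (EE N)} {b : Fin k → EE N} (hb : Orthonormal ℝ b)
    (hm : ∀ i, b i ∈ V) : k ≤ finrank ℝ V := by
  have h1 : LinearIndependent ℝ (fun i => (⟨b i, hm i⟩ : V)) := by
    apply LinearIndependent.of_comp V.subtype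
    exact hb.linearIndependent
  simpa using h1.fintype_card_le_finrank

theorem C03_span {k : ℕ} {V : Submodule ℝ (EE N)} {b : Fin k → EE N} (hb : Orthonormal ℝ b)
    (hm : ∀ i, b i ∈ V) (hk : finrank ℝ V = k) {v : EE N} (hv : v ∈ V) :
    ∃ c : Fin k → ℝ, v = ∑ i, c i • b i := by
  have h1 : LinearIndependent ℝ (fun i => (⟨b i, hm i⟩ : V)) := by
    apply LinearIndependent.of_comp V.subtype
    exact hb.linearIndependent
  have h2 : Submodule.span ℝ (Set.range fun i => (⟨b i, hm i⟩ : V)) = ⊤ := by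
    apply h1.span_eq_top_of_card_eq_finrank'
    simp [hk]
  have h3 : (⟨v, hv⟩ : V) ∈ Submodule.span ℝ (Set.range fun i => (⟨b i, hm i⟩ : V)) := by
    rw [h2]; trivial
  rw [Submodule.mem_span_range_iff_exists_fun] at h3
  obtain ⟨c, hc⟩ := h3
  refine ⟨c, ?_⟩
  have := congrArg (fun x : V => (x : EE N)) hc
  simpa using this.symm

theorem sub_semicont {V : K → Submodule ℝ (EE N)} (hV : IsClosed {q : K × EE N | q.2 ∈ V q.1})
    (k : ℕ) : IsClosed {x | k ≤ finrank ℝ (V x)} := by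
  apply IsSeqClosed.isClosed
  intro x x0 hx hlim
  have h1 : ∀ n, ∃ b : Fin k → EE N, Orthonormal ℝ b ∧ ∀ i, b i ∈ V (x n) :=
    fun n => C03_frame _ (hx n)
  choose b hb hbm using h1
  obtain ⟨φ, hφ, b0, hb0, hb0o⟩ := C03_limit b hb
  refine C03_le hb0o fun i => ?_
  have h2 : Tendsto (fun n => ((x (φ n), b (φ n) i) : K × EE N)) atTop (𝓝 (x0, b0 i)) :=
    (hlim.comp hφ.tendsto_atTop).prodMk_nhds ((tendsto_pi_nhds.1 hb0) i)
  exact hV.mem_of_tendsto h2 (Eventually.of_forall fun n => hbm (φ n) i)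

/-- constant rank and closed graph along a sequence: every vector of the limit is a limit -/
theorem sub_lower {V : K → Submodule ℝ (EE N)} {x : ℕ → K} {x0 : K} {k : ℕ}
    (hr : ∀ n, finrank ℝ (V (x n)) = k) (hr0 : finrank ℝ (V x0) = k)
    (hc : ∀ (φ : ℕ → ℕ) (v : ℕ → EE N) (v0 : EE N), StrictMono φ → (∀ n, v n ∈ V (x (φ n))) →
      Tendsto v atTop (𝓝 v0) → v0 ∈ V x0) {v0 : EE N} (hv0 : v0 ∈ V x0) :
    ∃ v : ℕ → EE N, (∀ n, v n ∈ V (x n)) ∧ Tendsto v atTop (𝓝 v0) := by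
  refine ⟨fun n => (V (x n)).starProjection v0, fun n => ?_, ?_⟩
  · exact Submodule.starProjection_apply_mem _ _
  apply tendsto_of_subseq_tendsto
  intro ns hns
  obtain ⟨ψ, hψ, hmono⟩ := strictMono_subseq_of_tendsto_atTop hns
  have h1 : ∀ n, ∃ b : Fin k → EE N, Orthonormal ℝ b ∧ ∀ i, b i ∈ V (x (ns (ψ n))) :=
    fun n => C03_frame _ (hr _).ge
  choose b hb hbm using h1
  obtain ⟨φ, hφ, b0, hb0, hb0o⟩ := C03_limit b hb
  have hb0m : ∀ i, b0 i ∈ V x0 := by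
    intro i
    refine hc (fun n => ns (ψ (φ n))) (fun n => b (φ n) i) (b0 i) (hmono.comp hφ)
      (fun n => hbm (φ n) i) ((tendsto_pi_nhds.1 hb0) i)
  obtain ⟨c, hc0⟩ := C03_span hb0o hb0m hr0 hv0
  refine ⟨fun n => ψ (φ n), ?_⟩
  have h2 : Tendsto (fun n => ∑ i, c i • b (φ n) i) atTop (𝓝 v0) := by
    rw [hc0]
    exact tendsto_finsetSum _ fun i _ => ((tendsto_pi_nhds.1 hb0) i).const_smul (c i)
  have h3 : Tendsto (fun n => ‖v0 - ∑ i, c i • b (φ n) i‖) atTop (𝓝 0) := by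
    have := (tendsto_const_nhds (x := v0)).sub h2
    simpa using this.norm
  rw [tendsto_iff_norm_sub_tendsto_zero]
  refine squeeze_zero (fun n => norm_nonneg _) (fun n => ?_) h3
  have hmem : (∑ i, c i • b (φ n) i) ∈ V (x (ns (ψ (φ n)))) :=
    Submodule.sum_mem _ fun i _ => Submodule.smul_mem _ _ (hbm (φ n) i)
  rw [norm_sub_rev]
  have h4 : ‖v0 - (V (x (ns (ψ (φ n))))).starProjection v0‖ =
      ⨅ w : V (x (ns (ψ (φ n)))), ‖v0 - w‖ := Submodule.starProjection_minimal v0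
  refine h4.le.trans ?_
  exact ciInf_le ⟨0, by rintro _ ⟨y, rfl⟩; exact norm_nonneg _⟩
    (⟨_, hmem⟩ : V (x (ns (ψ (φ n)))))

theorem C03_rank {T V : Submodule ℝ (EE N)} (h : V ≤ T) :
    finrank ℝ V + finrank ℝ (Vᗮ ⊓ T : Submodule ℝ (EE N)) = finrank ℝ T :=
  Submodule.finrank_add_inf_finrank_orthogonal h

/-- annihilators: if the relative annihilators `W x` of `V x` in `T x` form a closed set then on
sequences of constant rank the graph of `V` is closed -/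
theorem sub_annih {T V : K → Submodule ℝ (EE N)} (hVT : ∀ x, V x ≤ T x)
    (hT : IsClosed {q : K × EE N | q.2 ∈ T q.1})
    (hW : IsClosed {q : K × EE N | q.2 ∈ T q.1 ∧ ∀ v ∈ V q.1, inner ℝ q.2 v = 0})
    {d k : ℕ} (hd : ∀ x, finrank ℝ (T x) = d) {x : ℕ → K} {x0 : K}
    (hx : Tendsto x atTop (𝓝 x0)) (hk : ∀ n, finrank ℝ (V (x n)) = k)
    (hk0 : finrank ℝ (V x0) = k) {v : ℕ → EE N} {v0 : EE N} (hv : ∀ n, v n ∈ V (x n))
    (hv0 : Tendsto v atTop (𝓝 v0)) : v0 ∈ V x0 := by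
  have hmem : ∀ (y : K) (w : EE N), w ∈ ((V y)ᗮ ⊓ T y : Submodule ℝ (EE N)) ↔
      w ∈ T y ∧ ∀ v ∈ V y, inner ℝ w v = 0 := by
    intro y w
    rw [Submodule.mem_inf, Submodule.mem_orthogonal']
    exact and_comm
  have hrk : ∀ y, finrank ℝ (V y) = k →
      finrank ℝ ((V y)ᗮ ⊓ T y : Submodule ℝ (EE N)) = d - k := by
    intro y hy
    have := C03_rank (hVT y)
    rw [hd y, hy] at this
    omega
  have hv0T : v0 ∈ T x0 := by
    have h2 : Tendsto (fun n => ((x n, v n) : K × EE N)) atTop (𝓝 (x0, v0)) :=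
      hx.prodMk_nhds hv0
    exact hT.mem_of_tendsto h2 (Eventually.of_forall fun n => hVT _ (hv n))
  have key : ∀ w : EE N, w ∈ ((V x0)ᗮ ⊓ T x0 : Submodule ℝ (EE N)) → inner ℝ w v0 = 0 := by
    intro w hw
    obtain ⟨u, hu, hulim⟩ := sub_lower (V := fun y => ((V y)ᗮ ⊓ T y : Submodule ℝ (EE N)))
      (x := x) (x0 := x0) (k := d - k) (fun n => hrk _ (hk n)) (hrk _ hk0) (by
        intro φ u u0 hφ hu hulim
        have h2 : Tendsto (fun n => ((x (φ n), u n) : K × EE N)) atTop (𝓝 (x0, u0)) :=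
          (hx.comp hφ.tendsto_atTop).prodMk_nhds hulim
        have h3 := hW.mem_of_tendsto h2 (Eventually.of_forall fun n => (hmem _ _).1 (hu n))
        exact (hmem _ _).2 h3) hw
    have h4 : Tendsto (fun n => inner ℝ (u n) (v n)) atTop (𝓝 (inner ℝ w v0)) :=
      hulim.inner hv0
    have h5 : (fun n => inner ℝ (u n) (v n)) = fun _ => (0 : ℝ) := by
      funext n
      exact ((hmem _ _).1 (hu n)).2 _ (hv n)
    rw [h5] at h4
    exact tendsto_nhds_unique h4 tendsto_const_nhds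
  set p : EE N := (V x0).starProjection v0 with hp
  have hpm : p ∈ V x0 := Submodule.starProjection_apply_mem _ _
  have h6 : v0 - p ∈ (V x0)ᗮ := Submodule.sub_starProjection_mem_orthogonal v0
  have h7 : v0 - p ∈ T x0 := Submodule.sub_mem _ hv0T (hVT _ hpm)
  have h8 : inner ℝ (v0 - p) v0 = 0 := key _ (Submodule.mem_inf.2 ⟨h6, h7⟩)
  have h9 : inner ℝ (v0 - p) p = 0 := (Submodule.mem_orthogonal' _ _).1 h6 p hpm
  have h10 : inner ℝ (v0 - p) (v0 - p) = 0 := by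
    rw [inner_sub_right, h8, h9, sub_zero]
  have h11 : v0 - p = 0 := inner_self_eq_zero.1 h10
  rw [sub_eq_zero] at h11
  rw [h11]
  exact hpm

/-- dimension is upper semicontinuous through annihilators: `{finrank V ≤ k}` is closed -/
theorem sub_annih_semicont {T V : K → Submodule ℝ (EE N)} (hVT : ∀ x, V x ≤ T x)
    (hW : IsClosed {q : K × EE N | q.2 ∈ T q.1 ∧ ∀ v ∈ V q.1, inner ℝ q.2 v = 0})
    {d : ℕ} (hd : ∀ x, finrank ℝ (T x) = d) (k : ℕ) :
    IsClosed {x | finrank ℝ (V x) ≤ k} := by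
  have hmem : ∀ (y : K) (w : EE N), w ∈ ((V y)ᗮ ⊓ T y : Submodule ℝ (EE N)) ↔
      w ∈ T y ∧ ∀ v ∈ V y, inner ℝ w v = 0 := by
    intro y w
    rw [Submodule.mem_inf, Submodule.mem_orthogonal']
    exact and_comm
  have h1 : IsClosed {q : K × EE N | q.2 ∈ ((V q.1)ᗮ ⊓ T q.1 : Submodule ℝ (EE N))} := by
    have : {q : K × EE N | q.2 ∈ ((V q.1)ᗮ ⊓ T q.1 : Submodule ℝ (EE N))} =
        {q : K × EE N | q.2 ∈ T q.1 ∧ ∀ v ∈ V q.1, inner ℝ q.2 v = 0} := by
      ext q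
      exact hmem q.1 q.2
    rw [this]
    exact hW
  have h2 := sub_semicont (V := fun y => ((V y)ᗮ ⊓ T y : Submodule ℝ (EE N))) h1 (d - k)
  have h3 : {x | finrank ℝ (V x) ≤ k} =
      {x | d - k ≤ finrank ℝ ((V x)ᗮ ⊓ T x : Submodule ℝ (EE N))} := by
    ext x
    have := C03_rank (hVT x)
    rw [hd x] at this
    change finrank ℝ (V x) ≤ k ↔ d - k ≤ finrank ℝ ((V x)ᗮ ⊓ T x : Submodule ℝ (EE N))
    omega
  rw [h3]
  exact h2

end Sub

end Pool.MP85
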