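import Mathlib

/-!
# C04: abstract Hadamard-Perron existence theorem
-/

open Filter Topology Set Metric Module

namespace Pool.MP85

/-- one step of the iteration -/
def C04_step {E : Type} (a : E) (Fs : ℕ → E → E → E) (Gu : ℕ → E → E → E → E)
    (x : (ℕ → E) × (ℕ → E)) : (ℕ → E) × (ℕ → E) :=
  (fun n => match n with
    | 0 => a
    | m + 1 => Fs m (x.1 m) (x.2 m), fun n => Gu n (x.1 n) (x.2 n) (x.2 (n + 1)))

/-- the iteration -/
def C04_it {E : Type} [Zero E] (a : E) (Fs : ℕ → E → E → E) (Gu : ℕ → E → E → E → E) :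
    ℕ → (ℕ → E) × (ℕ → E)
  | 0 => (fun _ => 0, fun _ => 0)
  | k + 1 => C04_step a Fs Gu (C04_it a Fs Gu k)

/-- Solve `s 0 = a`, `s (n+1) = Fs n (s n) (u n)`, `u n = Gu n (s n) (u n) (u (n+1))`. Banach fixed
point theorem in the space of pairs of sequences with weighted norm
`sup_n 2^n max (‖s n‖, κ ‖u n‖)`, `κ = 8 (c + 1)`. -/
theorem hp {E : Type} [NormedAddCommGroup E] [NormedSpace ℝ E] [CompleteSpace E]
    (V W : ℕ → Submodule ℝ E) (hV : ∀ n, IsClosed (V n : Set E)) (hW : ∀ n, IsClosed (W n : Set E))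
    (c ρ η : ℝ) (hc : 0 ≤ c) (hρ : 0 < ρ) (hη : 0 ≤ η) (hcη : η * (c + 1) ≤ 1 / 1000)
    (Fs : ℕ → E → E → E) (Gu : ℕ → E → E → E → E)
    (hFs : ∀ n, ∀ s ∈ V n, ∀ u ∈ W n, ‖s‖ ≤ ρ → ‖u‖ ≤ ρ → Fs n s u ∈ V (n + 1))
    (hFs0 : ∀ n, Fs n 0 0 = 0)
    (hFsL : ∀ n, ∀ s ∈ V n, ∀ u ∈ W n, ∀ s' ∈ V n, ∀ u' ∈ W n, ‖s‖ ≤ ρ → ‖u‖ ≤ ρ → ‖s'‖ ≤ ρ →
      ‖u'‖ ≤ ρ → ‖Fs n s u - Fs n s' u'‖ ≤ 1 / 6 * ‖s - s'‖ + c * ‖u - u'‖)
    (hGu : ∀ n, ∀ s ∈ V n, ∀ u ∈ W n, ∀ w ∈ W (n + 1), ‖s‖ ≤ ρ → ‖u‖ ≤ ρ → ‖w‖ ≤ ρ →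
      Gu n s u w ∈ W n)
    (hGu0 : ∀ n, Gu n 0 0 0 = 0)
    (hGuL : ∀ n, ∀ s ∈ V n, ∀ u ∈ W n, ∀ w ∈ W (n + 1), ∀ s' ∈ V n, ∀ u' ∈ W n, ∀ w' ∈ W (n + 1),
      ‖s‖ ≤ ρ → ‖u‖ ≤ ρ → ‖w‖ ≤ ρ → ‖s'‖ ≤ ρ → ‖u'‖ ≤ ρ → ‖w'‖ ≤ ρ →
      ‖Gu n s u w - Gu n s' u' w'‖ ≤ 1 / 6 * ‖w - w'‖ + η * (‖s - s'‖ + ‖u - u'‖))
    (a : E) (ha : a ∈ V 0) (haρ : 4 * ‖a‖ ≤ ρ) :
    ∃ s u : ℕ → E, s 0 = a ∧ (∀ n, s n ∈ V n) ∧ (∀ n, u n ∈ W n) ∧
      (∀ n, ‖s n‖ ≤ 4 * ‖a‖ / 2 ^ n) ∧ (∀ n, ‖u n‖ ≤ 4 * ‖a‖ / 2 ^ n) ∧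
      (∀ n, s (n + 1) = Fs n (s n) (u n)) ∧ (∀ n, u n = Gu n (s n) (u n) (u (n + 1))) := by
  have hκ : 0 < 8 * (c + 1) := by positivity
  have hκ1 : 1 ≤ 8 * (c + 1) := by linarith
  have ha0 : 0 ≤ ‖a‖ := norm_nonneg a
  -- admissible pairs of sequences
  let P : (ℕ → E) × (ℕ → E) → Prop := fun x => ∀ n, x.1 n ∈ V n ∧ x.2 n ∈ W n ∧
    ‖x.1 n‖ ≤ 4 * ‖a‖ / 2 ^ n ∧ 8 * (c + 1) * ‖x.2 n‖ ≤ 4 * ‖a‖ / 2 ^ n
  have hdiv : ∀ n : ℕ, 4 * ‖a‖ / 2 ^ n ≤ ρ := by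
    intro n
    refine le_trans ?_ haρ
    apply div_le_self (by positivity)
    exact one_le_pow₀ (by norm_num)
  have hP1 : ∀ x, P x → ∀ n, ‖x.1 n‖ ≤ ρ := fun x hx n => (hx n).2.2.1.trans (hdiv n)
  have hPu : ∀ x, P x → ∀ n, ‖x.2 n‖ ≤ 4 * ‖a‖ / 2 ^ n := by
    intro x hx n
    refine le_trans ?_ (hx n).2.2.2
    exact le_mul_of_one_le_left (norm_nonneg _) hκ1
  have hP2 : ∀ x, P x → ∀ n, ‖x.2 n‖ ≤ ρ := fun x hx n => (hPu x hx n).trans (hdiv n)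
  have hP0 : P (fun _ => 0, fun _ => 0) := by
    intro n
    refine ⟨(V n).zero_mem, (W n).zero_mem, ?_, ?_⟩
    · simp only [norm_zero]; positivity
    · simp only [norm_zero, mul_zero]; positivity
  -- contraction
  have contr : ∀ x y, P x → P y → ∀ M, 0 ≤ M →
      (∀ n, ‖x.1 n - y.1 n‖ ≤ M / 2 ^ n) → (∀ n, 8 * (c + 1) * ‖x.2 n - y.2 n‖ ≤ M / 2 ^ n) →
      (∀ n, ‖(C04_step a Fs Gu x).1 n - (C04_step a Fs Gu y).1 n‖ ≤ 7 / 12 * M / 2 ^ n) ∧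
      (∀ n, 8 * (c + 1) * ‖(C04_step a Fs Gu x).2 n - (C04_step a Fs Gu y).2 n‖ ≤
        7 / 12 * M / 2 ^ n) := by
    intro x y hx hy M hM h1 h2
    constructor
    · intro n
      cases n with
      | zero =>
        simp only [C04_step, sub_self, norm_zero]
        positivity
      | succ m =>
        simp only [C04_step]
        refine (hFsL m _ (hx m).1 _ (hx m).2.1 _ (hy m).1 _ (hy m).2.1 (hP1 x hx m) (hP2 x hx m)
          (hP1 y hy m) (hP2 y hy m)).trans ?_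
        have h3 := h1 m
        have h4 := h2 m
        have h5 : c * ‖x.2 m - y.2 m‖ ≤ 1 / 8 * (M / 2 ^ m) := by
          have h6 : c * ‖x.2 m - y.2 m‖ ≤ (c + 1) * ‖x.2 m - y.2 m‖ :=
            mul_le_mul_of_nonneg_right (by linarith) (norm_nonneg _)
          linarith
        have h7 : 7 / 12 * M / 2 ^ (m + 1) = 7 / 24 * (M / 2 ^ m) := by
          rw [pow_succ]; field_simp; ring
        rw [h7]
        linarith
    · intro n
      simp only [C04_step]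
      have h0 := hGuL n _ (hx n).1 _ (hx n).2.1 _ (hx (n + 1)).2.1 _ (hy n).1 _ (hy n).2.1 _
        (hy (n + 1)).2.1 (hP1 x hx n) (hP2 x hx n) (hP2 x hx (n + 1))
        (hP1 y hy n) (hP2 y hy n) (hP2 y hy (n + 1))
      have h3 := h1 n
      have h4 := h2 n
      have h5 := h2 (n + 1)
      have h6 : M / 2 ^ (n + 1) = 1 / 2 * (M / 2 ^ n) := by
        rw [pow_succ]; field_simp
      rw [h6] at h5
      set T := M / 2 ^ n with hT
      have hT0 : 0 ≤ T := by positivity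
      have h7 : 7 / 12 * M / 2 ^ n = 7 / 12 * T := by rw [hT]; ring
      rw [h7]
      have h8 : ‖x.2 n - y.2 n‖ ≤ T := by
        refine le_trans ?_ h4
        exact le_mul_of_one_le_left (norm_nonneg _) hκ1
      have h9 : 8 * (c + 1) * (η * (‖x.1 n - y.1 n‖ + ‖x.2 n - y.2 n‖)) ≤ 16 / 1000 * T := by
        have h10 : 8 * (c + 1) * (η * (‖x.1 n - y.1 n‖ + ‖x.2 n - y.2 n‖)) =
            8 * (η * (c + 1)) * (‖x.1 n - y.1 n‖ + ‖x.2 n - y.2 n‖) := by ring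
        rw [h10]
        have h11 : 0 ≤ ‖x.1 n - y.1 n‖ + ‖x.2 n - y.2 n‖ := by positivity
        calc 8 * (η * (c + 1)) * (‖x.1 n - y.1 n‖ + ‖x.2 n - y.2 n‖)
            ≤ 8 * (1 / 1000) * (‖x.1 n - y.1 n‖ + ‖x.2 n - y.2 n‖) :=
              mul_le_mul_of_nonneg_right (by linarith) h11
          _ ≤ 8 * (1 / 1000) * (T + T) := mul_le_mul_of_nonneg_left (by linarith) (by norm_num)
          _ = 16 / 1000 * T := by ring
      calc 8 * (c + 1) * ‖Gu n (x.1 n) (x.2 n) (x.2 (n + 1)) - Gu n (y.1 n) (y.2 n) (y.2 (n + 1))‖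
          ≤ 8 * (c + 1) * (1 / 6 * ‖x.2 (n + 1) - y.2 (n + 1)‖ +
            η * (‖x.1 n - y.1 n‖ + ‖x.2 n - y.2 n‖)) := mul_le_mul_of_nonneg_left h0 hκ.le
        _ = 1 / 6 * (8 * (c + 1) * ‖x.2 (n + 1) - y.2 (n + 1)‖) +
            8 * (c + 1) * (η * (‖x.1 n - y.1 n‖ + ‖x.2 n - y.2 n‖)) := by ring
        _ ≤ 1 / 6 * (1 / 2 * T) + 16 / 1000 * T :=
            add_le_add (mul_le_mul_of_nonneg_left h5 (by norm_num)) h9
        _ ≤ 7 / 12 * T := by linarith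
  -- the image of `0`
  have hstep0 : (C04_step a Fs Gu (fun _ => 0, fun _ => 0)).1 0 = a ∧
      (∀ n, (C04_step a Fs Gu (fun _ => 0, fun _ => 0)).1 (n + 1) = 0) ∧
      (∀ n, (C04_step a Fs Gu (fun _ => 0, fun _ => 0)).2 n = 0) :=
    ⟨rfl, fun n => hFs0 n, fun n => hGu0 n⟩
  -- invariance
  have hPstep : ∀ x, P x → P (C04_step a Fs Gu x) := by
    intro x hx n
    obtain ⟨c1, c2⟩ := contr x (fun _ => 0, fun _ => 0) hx hP0 (4 * ‖a‖) (by positivity)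
      (fun n => by simpa using (hx n).2.2.1) (fun n => by simpa using (hx n).2.2.2)
    refine ⟨?_, ?_, ?_, ?_⟩
    · cases n with
      | zero => exact ha
      | succ m => exact hFs m _ (hx m).1 _ (hx m).2.1 (hP1 x hx m) (hP2 x hx m)
    · exact hGu n _ (hx n).1 _ (hx n).2.1 _ (hx (n + 1)).2.1 (hP1 x hx n) (hP2 x hx n)
        (hP2 x hx (n + 1))
    · cases n with
      | zero =>
        simp only [C04_step, pow_zero, div_one]
        linarith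
      | succ m =>
        have h1 := c1 (m + 1)
        rw [hstep0.2.1 m, sub_zero] at h1
        refine h1.trans ?_
        apply div_le_div_of_nonneg_right _ (by positivity)
        linarith
    · have h1 := c2 n
      rw [hstep0.2.2 n, sub_zero] at h1
      refine h1.trans ?_
      apply div_le_div_of_nonneg_right _ (by positivity)
      linarith
  have hPit : ∀ k, P (C04_it a Fs Gu k) := by
    intro k
    induction k with
    | zero => exact hP0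
    | succ k ih => exact hPstep _ ih
  -- geometric differences
  have hD : ∀ k, (∀ n, ‖(C04_it a Fs Gu (k + 1)).1 n - (C04_it a Fs Gu k).1 n‖ ≤
      (7 / 12) ^ k * ‖a‖ / 2 ^ n) ∧
      (∀ n, 8 * (c + 1) * ‖(C04_it a Fs Gu (k + 1)).2 n - (C04_it a Fs Gu k).2 n‖ ≤
      (7 / 12) ^ k * ‖a‖ / 2 ^ n) := by
    intro k
    induction k with
    | zero =>
      constructor
      · intro n
        cases n with
        | zero => simp [C04_it, C04_step]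
        | succ m =>
          simp only [C04_it, C04_step, hFs0, sub_self, norm_zero]
          positivity
      · intro n
        simp only [C04_it, C04_step, hGu0, sub_self, norm_zero, mul_zero]
        positivity
    | succ k ih =>
      have h := contr _ _ (hPit (k + 1)) (hPit k) ((7 / 12) ^ k * ‖a‖) (by positivity) ih.1 ih.2
      have e : ∀ n : ℕ, 7 / 12 * ((7 / 12 : ℝ) ^ k * ‖a‖) / 2 ^ n =
          (7 / 12) ^ (k + 1) * ‖a‖ / 2 ^ n := by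
        intro n; rw [pow_succ]; ring
      exact ⟨fun n => (h.1 n).trans_eq (e n), fun n => (h.2 n).trans_eq (e n)⟩
  -- limits
  have hlim1 : ∀ n, ∃ l, Tendsto (fun k => (C04_it a Fs Gu k).1 n) atTop (𝓝 l) := by
    intro n
    refine cauchySeq_tendsto_of_complete (cauchySeq_of_le_geometric (7 / 12) (‖a‖) (by norm_num)
      fun k => ?_)
    rw [dist_comm, dist_eq_norm]
    refine ((hD k).1 n).trans ?_
    have h1 : (7 / 12 : ℝ) ^ k * ‖a‖ / 2 ^ n ≤ (7 / 12) ^ k * ‖a‖ :=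
      div_le_self (by positivity) (one_le_pow₀ (by norm_num))
    linarith [mul_comm ((7 / 12 : ℝ) ^ k) ‖a‖]
  have hlim2 : ∀ n, ∃ l, Tendsto (fun k => (C04_it a Fs Gu k).2 n) atTop (𝓝 l) := by
    intro n
    refine cauchySeq_tendsto_of_complete (cauchySeq_of_le_geometric (7 / 12) (‖a‖) (by norm_num)
      fun k => ?_)
    rw [dist_comm, dist_eq_norm]
    have h0 : ‖(C04_it a Fs Gu (k + 1)).2 n - (C04_it a Fs Gu k).2 n‖ ≤
        8 * (c + 1) * ‖(C04_it a Fs Gu (k + 1)).2 n - (C04_it a Fs Gu k).2 n‖ :=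
      le_mul_of_one_le_left (norm_nonneg _) hκ1
    refine (h0.trans ((hD k).2 n)).trans ?_
    have h1 : (7 / 12 : ℝ) ^ k * ‖a‖ / 2 ^ n ≤ (7 / 12) ^ k * ‖a‖ :=
      div_le_self (by positivity) (one_le_pow₀ (by norm_num))
    linarith [mul_comm ((7 / 12 : ℝ) ^ k) ‖a‖]
  choose s hs using hlim1
  choose u hu using hlim2
  have hPsu : P (s, u) := by
    intro n
    refine ⟨?_, ?_, ?_, ?_⟩
    · exact (hV n).mem_of_tendsto (hs n) (Eventually.of_forall fun k => (hPit k n).1)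
    · exact (hW n).mem_of_tendsto (hu n) (Eventually.of_forall fun k => (hPit k n).2.1)
    · exact le_of_tendsto (hs n).norm (Eventually.of_forall fun k => (hPit k n).2.2.1)
    · exact le_of_tendsto ((hu n).norm.const_mul _) (Eventually.of_forall fun k => (hPit k n).2.2.2)
  refine ⟨s, u, ?_, fun n => (hPsu n).1, fun n => (hPsu n).2.1, fun n => (hPsu n).2.2.1,
    hPu _ hPsu, ?_, ?_⟩
  · have h1 : Tendsto (fun k => (C04_it a Fs Gu (k + 1)).1 0) atTop (𝓝 (s 0)) :=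
      (hs 0).comp (tendsto_add_atTop_nat 1)
    exact tendsto_nhds_unique h1 tendsto_const_nhds
  · intro n
    have h1 : Tendsto (fun k => (C04_it a Fs Gu (k + 1)).1 (n + 1)) atTop (𝓝 (s (n + 1))) :=
      (hs (n + 1)).comp (tendsto_add_atTop_nat 1)
    have h2 : Tendsto (fun k => Fs n ((C04_it a Fs Gu k).1 n) ((C04_it a Fs Gu k).2 n)) atTop
        (𝓝 (Fs n (s n) (u n))) := by
      rw [tendsto_iff_norm_sub_tendsto_zero]
      have h3 : Tendsto (fun k => 1 / 6 * ‖(C04_it a Fs Gu k).1 n - s n‖ +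
          c * ‖(C04_it a Fs Gu k).2 n - u n‖) atTop (𝓝 (1 / 6 * 0 + c * 0)) :=
        ((tendsto_iff_norm_sub_tendsto_zero.1 (hs n)).const_mul _).add
          ((tendsto_iff_norm_sub_tendsto_zero.1 (hu n)).const_mul _)
      rw [mul_zero, mul_zero, add_zero] at h3
      refine squeeze_zero (fun k => norm_nonneg _) (fun k => ?_) h3
      exact hFsL n _ (hPit k n).1 _ (hPit k n).2.1 _ (hPsu n).1 _ (hPsu n).2.1
        (hP1 _ (hPit k) n) (hP2 _ (hPit k) n) (hP1 _ hPsu n) (hP2 _ hPsu n)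
    exact tendsto_nhds_unique h1 h2
  · intro n
    have h1 : Tendsto (fun k => (C04_it a Fs Gu (k + 1)).2 n) atTop (𝓝 (u n)) :=
      (hu n).comp (tendsto_add_atTop_nat 1)
    have h2 : Tendsto (fun k => Gu n ((C04_it a Fs Gu k).1 n) ((C04_it a Fs Gu k).2 n)
        ((C04_it a Fs Gu k).2 (n + 1))) atTop (𝓝 (Gu n (s n) (u n) (u (n + 1)))) := by
      rw [tendsto_iff_norm_sub_tendsto_zero]
      have h3 : Tendsto (fun k => 1 / 6 * ‖(C04_it a Fs Gu k).2 (n + 1) - u (n + 1)‖ +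
          η * (‖(C04_it a Fs Gu k).1 n - s n‖ + ‖(C04_it a Fs Gu k).2 n - u n‖)) atTop
          (𝓝 (1 / 6 * 0 + η * (0 + 0))) :=
        ((tendsto_iff_norm_sub_tendsto_zero.1 (hu (n + 1))).const_mul _).add
          (((tendsto_iff_norm_sub_tendsto_zero.1 (hs n)).add
            (tendsto_iff_norm_sub_tendsto_zero.1 (hu n))).const_mul _)
      rw [mul_zero, add_zero, mul_zero, add_zero] at h3
      refine squeeze_zero (fun k => norm_nonneg _) (fun k => ?_) h3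
      exact hGuL n _ (hPit k n).1 _ (hPit k n).2.1 _ (hPit k (n + 1)).2.1 _ (hPsu n).1 _
        (hPsu n).2.1 _ (hPsu (n + 1)).2.1 (hP1 _ (hPit k) n) (hP2 _ (hPit k) n)
        (hP2 _ (hPit k) (n + 1)) (hP1 _ hPsu n) (hP2 _ hPsu n) (hP2 _ hPsu (n + 1))
    exact tendsto_nhds_unique h1 h2

end Pool.MP85
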