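import Pool.Agent.Lib.MP_85e637_an.AbsC
import Pool.Agent.Lib.MP_85e637_an.A01
import Pool.Agent.Lib.MP_85e637_an.C01

/-!
# C05: hyperbolic splittings are continuous; the dual cocycle is hyperbolic
-/

open Filter Topology Set Metric Module

namespace Pool.MP85

namespace Coc

section NoCompact
variable {N : ℕ} {K : Type} [MetricSpace K] {C : Coc N K}

theorem C05_P_norm (x : K) (v : EE N) : ‖C.P x v‖ ≤ ‖v‖ := by
  have h1 : C.P x (C.P x v) = C.P x v := by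
    have := congrArg (fun L : EE N →L[ℝ] EE N => L v) (C.PP x)
    simpa using this
  have h2 : ‖C.P x v‖ * ‖C.P x v‖ ≤ ‖C.P x v‖ * ‖v‖ := by
    rw [← real_inner_self_eq_norm_mul_norm, C.Psa, h1, real_inner_comm]
    exact real_inner_le_norm _ _
  rcases (norm_nonneg (C.P x v)).eq_or_lt with h | h
  · rw [← h]; exact norm_nonneg _
  · exact le_of_mul_le_mul_left h2 h

theorem C05_mem_Es {x : K} {v : EE N} :
    v ∈ C.Es x ↔ C.P x v = v ∧ Tendsto (fun n => ‖C.An n x v‖) atTop (𝓝 0) := Iff.rfl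

theorem C05_mem_Es' {x : K} {v : EE N} :
    v ∈ C.Es x ↔ v ∈ C.T x ∧ Tendsto (fun n => ‖C.An n x v‖) atTop (𝓝 0) := by
  rw [C05_mem_Es, C.mem_T]

/-- the stable spaces are invariant under the iterates -/
theorem C05_Es_An (n : ℕ) {x : K} {v : EE N} (hv : v ∈ C.T x) :
    C.An n x v ∈ C.Es (fw C.f n x) ↔ v ∈ C.Es x := by
  rw [C05_mem_Es', C05_mem_Es']
  have h1 : ∀ k, C.An k (fw C.f n x) (C.An n x v) = C.An (k + n) x v := by
    intro k; rw [C.An_add k n x]; rfl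
  simp only [h1, C.An_mem n x v, hv, true_and]
  exact tendsto_add_atTop_iff_nat (f := fun k => ‖C.An k x v‖) n

theorem C05_fw_mem {Om : Set K} (inv : ∀ x, C.f x ∈ Om ↔ x ∈ Om) (n : ℕ) (x : K) :
    fw C.f n x ∈ Om ↔ x ∈ Om := by
  induction n generalizing x with
  | zero => rfl
  | succ n ih => rw [fw_succ, ih, inv]

theorem C05_dual_Eu (x : K) : C.dual.Eu x = C.symm.dual.Es x := by
  ext ξ
  change ξ ∈ C.dual.symm.Es x ↔ ξ ∈ C.symm.dual.Es x
  rw [C05_mem_Es, C05_mem_Es]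
  simp only [C.dual_symm_An]
  exact Iff.rfl

/-- the easy half of `dual_Es`; it does not need hyperbolicity -/
theorem C05_dual_Es_perp {x : K} {ξ v : EE N} (hξ : ξ ∈ C.dual.Es x) (hv : v ∈ C.Es x) :
    inner ℝ ξ v = 0 := by
  have hξ' : ξ ∈ C.T x := C.dual.Es_le x hξ
  have hv' : v ∈ C.T x := C.Es_le x hv
  have h1 : Tendsto (fun n => ‖C.dual.An n x ξ‖ * ‖C.An n x v‖) atTop (𝓝 (0 * 0)) :=
    hξ.2.mul hv.2
  rw [mul_zero] at h1
  have h2 : ∀ n, |inner ℝ ξ v| ≤ ‖C.dual.An n x ξ‖ * ‖C.An n x v‖ := by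
    intro n
    rw [← C.pairing n hv' hξ']
    exact abs_real_inner_le_norm _ _
  have h3 : |inner ℝ ξ v| ≤ 0 := ge_of_tendsto' h1 h2
  exact abs_eq_zero.mp (le_antisymm h3 (abs_nonneg _))

end NoCompact

variable {N : ℕ} {K : Type} [MetricSpace K] [CompactSpace K] (C : Coc N K)

/-- uniform hyperbolicity on an invariant closed set -/
structure HypOn (Om : Set K) : Prop where
  closed : IsClosed Om
  inv : ∀ x, C.f x ∈ Om ↔ x ∈ Om
  hyp : ∃ (c lam : ℝ), 0 < lam ∧ lam < 1 ∧ ∀ x ∈ Om,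
    (∀ v ∈ C.Es x, ∀ n, ‖C.An n x v‖ ≤ c * lam ^ n * ‖v‖) ∧
    (∀ v ∈ C.Eu x, ∀ n, ‖C.symm.An n x v‖ ≤ c * lam ^ n * ‖v‖)
  split : ∀ x ∈ Om, C.Es x ⊔ C.Eu x = C.T x ∧ Disjoint (C.Es x) (C.Eu x)

variable {C}

theorem HypOn.symm {Om : Set K} (h : C.HypOn Om) : C.symm.HypOn Om := by
  have hss : C.symm.symm = C := C.symm_symm
  refine ⟨h.closed, fun x => ?_, ?_, fun x hx => ?_⟩
  · have := h.inv (C.f.symm x)
    rw [Homeomorph.apply_symm_apply] at this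
    exact this.symm
  · obtain ⟨c, lam, h0, h1, h2⟩ := h.hyp
    refine ⟨c, lam, h0, h1, fun x hx => ⟨(h2 x hx).2, ?_⟩⟩
    change ∀ v ∈ C.symm.symm.Es x, ∀ n, ‖C.symm.symm.An n x v‖ ≤ c * lam ^ n * ‖v‖
    rw [hss]
    exact (h2 x hx).1
  · have h2 : C.symm.Eu x = C.Es x := by
      change C.symm.symm.Es x = C.Es x
      rw [hss]
    rw [h2]
    refine ⟨?_, (h.split x hx).2.symm⟩
    rw [sup_comm]
    exact (h.split x hx).1

theorem HypOn.closed_Es {Om : Set K} (h : C.HypOn Om) :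
    IsClosed {q : K × EE N | q.1 ∈ Om ∧ q.2 ∈ C.Es q.1} := by
  obtain ⟨c, lam, h0, h1, h2⟩ := h.hyp
  have hS : {q : K × EE N | q.1 ∈ Om ∧ q.2 ∈ C.Es q.1} =
      {q : K × EE N | q.1 ∈ Om} ∩ ({q : K × EE N | C.P q.1 q.2 = q.2} ∩
        ⋂ n : ℕ, {q : K × EE N | ‖C.An n q.1 q.2‖ ≤ c * lam ^ n * ‖q.2‖}) := by
    ext ⟨x, v⟩
    simp only [mem_inter_iff, mem_iInter]
    constructor
    · rintro ⟨hx, hv⟩
      exact ⟨hx, hv.1, (h2 x hx).1 v hv⟩
    · rintro ⟨hx, hP, hv⟩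
      refine ⟨hx, hP, squeeze_zero (fun n => norm_nonneg _) hv ?_⟩
      have := (tendsto_pow_atTop_nhds_zero_of_lt_one h0.le h1).const_mul c
      simpa using this.mul_const ‖v‖
  rw [hS]
  refine (h.closed.preimage continuous_fst).inter (IsClosed.inter ?_ (isClosed_iInter fun n => ?_))
  · exact isClosed_eq ((C.contP.comp continuous_fst).clm_apply continuous_snd) continuous_snd
  · exact isClosed_le (((C.continuous_An n).comp continuous_fst).clm_apply continuous_snd).norm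
      (continuous_const.mul continuous_snd.norm)

theorem HypOn.closed_Eu {Om : Set K} (h : C.HypOn Om) :
    IsClosed {q : K × EE N | q.1 ∈ Om ∧ q.2 ∈ C.Eu q.1} :=
  h.symm.closed_Es

/-- uniform angle between the stable and the unstable spaces over a hyperbolic set -/
theorem HypOn.C05_angle {Om : Set K} (h : C.HypOn Om) : ∃ κ : ℝ, 0 < κ ∧ ∀ x ∈ Om,
    ∀ v ∈ C.Es x, ∀ w ∈ C.Eu x, ‖v‖ ≤ κ * ‖v + w‖ ∧ ‖w‖ ≤ κ * ‖v + w‖ := by
  have hEs := h.closed_Es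
  have hEu := h.closed_Eu
  -- the compact set of pairs
  set Sg : Set (K × EE N × EE N) :=
    {q | (q.1 ∈ Om ∧ q.2.1 ∈ C.Es q.1) ∧ (q.1 ∈ Om ∧ q.2.2 ∈ C.Eu q.1) ∧ ‖q.2.1‖ = 1 ∧ ‖q.2.2‖ ≤ 2}
    with hSg
  have hcl : IsClosed Sg := by
    have e1 : IsClosed {q : K × EE N × EE N | q.1 ∈ Om ∧ q.2.1 ∈ C.Es q.1} :=
      hEs.preimage (f := fun q : K × EE N × EE N => (q.1, q.2.1)) (by fun_prop)
    have e2 : IsClosed {q : K × EE N × EE N | q.1 ∈ Om ∧ q.2.2 ∈ C.Eu q.1} :=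
      hEu.preimage (f := fun q : K × EE N × EE N => (q.1, q.2.2)) (by fun_prop)
    have e3 : IsClosed {q : K × EE N × EE N | ‖q.2.1‖ = 1} :=
      isClosed_eq (by fun_prop) continuous_const
    have e4 : IsClosed {q : K × EE N × EE N | ‖q.2.2‖ ≤ 2} :=
      isClosed_le (by fun_prop) continuous_const
    exact e1.inter (e2.inter (e3.inter e4))
  have hcpt : IsCompact Sg := by
    refine IsCompact.of_isClosed_subset
      (isCompact_univ.prod ((isCompact_closedBall (0 : EE N) 1).prod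
        (isCompact_closedBall (0 : EE N) 2))) hcl ?_
    rintro ⟨x, v, w⟩ ⟨_, _, h3, h4⟩
    refine ⟨mem_univ _, ?_, ?_⟩
    · simpa using (le_of_eq h3 : ‖v‖ ≤ 1)
    · simpa using h4
  obtain ⟨m, hm0, hm⟩ : ∃ m : ℝ, 0 < m ∧ ∀ q ∈ Sg, m ≤ ‖q.2.1 + q.2.2‖ := by
    rcases Sg.eq_empty_or_nonempty with he | hne
    · exact ⟨1, one_pos, fun q hq => by rw [he] at hq; exact hq.elim⟩
    · obtain ⟨q0, hq0, hmin⟩ := hcpt.exists_isMinOn hne
        (f := fun q : K × EE N × EE N => ‖q.2.1 + q.2.2‖) (by fun_prop)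
      refine ⟨‖q0.2.1 + q0.2.2‖, ?_, fun q hq => hmin hq⟩
      rw [norm_pos_iff]
      intro h0
      obtain ⟨⟨hx, hv⟩, ⟨_, hw⟩, h1, _⟩ := hq0
      have h2 : q0.2.1 = -q0.2.2 := eq_neg_of_add_eq_zero_left h0
      have h3 : q0.2.1 ∈ C.Eu q0.1 := by rw [h2]; exact (C.Eu q0.1).neg_mem hw
      have h4 : q0.2.1 = 0 := (Submodule.disjoint_def.mp (h.split q0.1 hx).2) _ hv h3
      rw [h4, norm_zero] at h1
      exact zero_ne_one h1
  set m' := min m 1 with hm'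
  have hm'0 : 0 < m' := lt_min hm0 one_pos
  have key : ∀ x ∈ Om, ∀ v ∈ C.Es x, ∀ w ∈ C.Eu x, ‖v‖ = 1 → m' ≤ ‖v + w‖ := by
    intro x hx v hv w hw h1
    rcases le_or_gt ‖w‖ 2 with h2 | h2
    · exact (min_le_left _ _).trans (hm (x, v, w) ⟨⟨hx, hv⟩, ⟨hx, hw⟩, h1, h2⟩)
    · have h3 : ‖w‖ ≤ ‖v + w‖ + ‖v‖ := by
        have := norm_sub_le (v + w) v
        simpa using this
      exact (min_le_right _ _).trans (by linarith)
  have key2 : ∀ x ∈ Om, ∀ v ∈ C.Es x, ∀ w ∈ C.Eu x, ‖v‖ ≤ m'⁻¹ * ‖v + w‖ := by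
    intro x hx v hv w hw
    rcases (norm_nonneg v).eq_or_lt with h1 | h1
    · rw [← h1]; positivity
    · have h2 := key x hx (‖v‖⁻¹ • v) ((C.Es x).smul_mem _ hv) (‖v‖⁻¹ • w) ((C.Eu x).smul_mem _ hw)
        (by rw [norm_smul, norm_inv, norm_norm, inv_mul_cancel₀ h1.ne'])
      rw [← smul_add, norm_smul, norm_inv, norm_norm, inv_mul_eq_div, le_div_iff₀ h1] at h2
      rw [inv_mul_eq_div, le_div_iff₀ hm'0]
      linarith
  refine ⟨1 + m'⁻¹, by positivity, fun x hx v hv w hw => ?_⟩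
  have h1 := key2 x hx v hv w hw
  have h2 : ‖w‖ ≤ ‖v + w‖ + ‖v‖ := by
    have := norm_sub_le (v + w) v
    simpa using this
  have h3 := norm_nonneg (v + w)
  constructor <;> nlinarith

/-- the annihilators of the stable spaces are contracted by the dual cocycle -/
theorem HypOn.C05_decay {Om : Set K} (h : C.HypOn Om) {c lam κ : ℝ} (h0 : 0 < lam)
    (hc : ∀ x ∈ Om, ∀ v ∈ C.Eu x, ∀ n, ‖C.symm.An n x v‖ ≤ c * lam ^ n * ‖v‖)
    (hκ : ∀ x ∈ Om, ∀ v ∈ C.Es x, ∀ w ∈ C.Eu x, ‖w‖ ≤ κ * ‖v + w‖)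
    {x : K} (hx : x ∈ Om) {ξ : EE N} (hξ : ξ ∈ C.T x) (hp : ∀ v ∈ C.Es x, inner ℝ ξ v = 0)
    (n : ℕ) : ‖C.dual.An n x ξ‖ ≤ |c| * |κ| * lam ^ n * ‖ξ‖ := by
  set y := fw C.f n x with hy
  have hyO : y ∈ Om := (C05_fw_mem h.inv n x).2 hx
  have hby : bk C.f n y = x := by
    have hh : ∀ (m : ℕ) (z : K), bk C.f m (fw C.f m z) = z := by
      intro m z
      exact bk_fw m
    exact hh n x
  set u := C.dual.An n x ξ with hu
  have huT : u ∈ C.T y := C.dual.An_mem n x ξ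
  obtain ⟨s, hs, w, hw, hsw⟩ := Submodule.mem_sup.mp
    (show u ∈ C.Es y ⊔ C.Eu y by rw [(h.split y hyO).1]; exact huT)
  have hsT : s ∈ C.T y := C.Es_le y hs
  have hwT : w ∈ C.T y := C.Eu_le y hw
  -- pull back
  have pull : ∀ z ∈ C.T y, inner ℝ u z = inner ℝ ξ (C.symm.An n y z) ∧
      C.symm.An n y z ∈ C.T x ∧ C.An n x (C.symm.An n y z) = z := by
    intro z hz
    have h1 : C.symm.An n y z ∈ C.T x := by
      have := C.symm.An_mem n y z
      change C.symm.An n y z ∈ C.T (bk C.f n y) at this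
      rwa [hby] at this
    have h2 : C.An n x (C.symm.An n y z) = z := by
      have := C.An_symm_An n hz
      rwa [hby] at this
    refine ⟨?_, h1, h2⟩
    rw [← C.pairing n h1 hξ, h2]
  have hs0 : inner ℝ u s = 0 := by
    obtain ⟨p1, p2, p3⟩ := pull s hsT
    rw [p1]
    apply hp
    rw [← C05_Es_An n p2, p3]
    exact hs
  have h3 : ‖u‖ * ‖u‖ ≤ ‖ξ‖ * (|c| * lam ^ n * (|κ| * ‖u‖)) := by
    rw [← real_inner_self_eq_norm_mul_norm]
    conv_lhs => rw [← hsw]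
    rw [hsw]
    have e1 : inner ℝ u u = inner ℝ u w := by
      have : inner ℝ u u = inner ℝ u (s + w) := by rw [hsw]
      rw [this, inner_add_right, hs0, zero_add]
    rw [e1, (pull w hwT).1]
    refine (real_inner_le_norm _ _).trans (mul_le_mul_of_nonneg_left ?_ (norm_nonneg _))
    refine (hc y hyO w hw n).trans ?_
    have e2 : ‖w‖ ≤ |κ| * ‖u‖ := by
      have := hκ y hyO s hs w hw
      rw [hsw] at this
      exact this.trans (mul_le_mul_of_nonneg_right (le_abs_self κ) (norm_nonneg _))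
    have e3 : 0 < lam ^ n := pow_pos h0 n
    calc c * lam ^ n * ‖w‖ ≤ |c| * lam ^ n * ‖w‖ := by
          gcongr
          exact le_abs_self c
      _ ≤ |c| * lam ^ n * (|κ| * ‖u‖) := by gcongr
  rcases (norm_nonneg u).eq_or_lt with h4 | h4
  · rw [← h4]; positivity
  · have h5 : ‖u‖ * ‖u‖ ≤ (|c| * |κ| * lam ^ n * ‖ξ‖) * ‖u‖ := by linarith
    exact le_of_mul_le_mul_right h5 h4

theorem HypOn.C05_dual_decay {Om : Set K} (h : C.HypOn Om) : ∃ (c lam : ℝ), 0 < lam ∧ lam < 1 ∧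
    ∀ x ∈ Om, ∀ ξ ∈ C.T x, (∀ v ∈ C.Es x, inner ℝ ξ v = 0) →
      ∀ n, ‖C.dual.An n x ξ‖ ≤ c * lam ^ n * ‖ξ‖ := by
  obtain ⟨c, lam, h0, h1, h2⟩ := h.hyp
  obtain ⟨κ, hκ0, hκ⟩ := h.C05_angle
  exact ⟨|c| * |κ|, lam, h0, h1, fun x hx ξ hξ hp n =>
    h.C05_decay h0 (fun x hx => (h2 x hx).2) (fun x hx v hv w hw => (hκ x hx v hv w hw).2)
      hx hξ hp n⟩

theorem HypOn.dual_Es {Om : Set K} (h : C.HypOn Om) {x : K} (hx : x ∈ Om) {ξ : EE N} :
    ξ ∈ C.dual.Es x ↔ ξ ∈ C.T x ∧ ∀ v ∈ C.Es x, inner ℝ ξ v = 0 := by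
  constructor
  · intro hξ
    exact ⟨C.dual.Es_le x hξ, fun v hv => C05_dual_Es_perp hξ hv⟩
  · rintro ⟨hξ, hp⟩
    obtain ⟨c, lam, h0, h1, h2⟩ := h.C05_dual_decay
    refine C05_mem_Es'.2 ⟨hξ, squeeze_zero (fun n => norm_nonneg _) (h2 x hx ξ hξ hp) ?_⟩
    have := (tendsto_pow_atTop_nhds_zero_of_lt_one h0.le h1).const_mul c
    simpa using this.mul_const ‖ξ‖

theorem HypOn.C05_dual_Eu_iff {Om : Set K} (h : C.HypOn Om) {x : K} (hx : x ∈ Om) {ξ : EE N} :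
    ξ ∈ C.dual.Eu x ↔ ξ ∈ C.T x ∧ ∀ v ∈ C.Eu x, inner ℝ ξ v = 0 := by
  rw [C05_dual_Eu]
  exact h.symm.dual_Es hx

theorem HypOn.dual {Om : Set K} (h : C.HypOn Om) : C.dual.HypOn Om := by
  refine ⟨h.closed, h.inv, ?_, fun x hx => ?_⟩
  · obtain ⟨c, lam, h0, h1, h2⟩ := h.C05_dual_decay
    obtain ⟨c', lam', h0', h1', h2'⟩ := h.symm.C05_dual_decay
    refine ⟨max |c| |c'|, max lam lam', lt_max_of_lt_left h0, max_lt h1 h1', fun x hx => ⟨?_, ?_⟩⟩
    · intro ξ hξ n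
      have hξ' := (h.dual_Es hx).1 hξ
      refine (h2 x hx ξ hξ'.1 hξ'.2 n).trans ?_
      gcongr
      · exact (le_abs_self c).trans (le_max_left _ _)
      · exact le_max_left _ _
    · intro ξ hξ n
      have hξ' := (h.C05_dual_Eu_iff hx).1 hξ
      rw [C.dual_symm_An]
      refine (h2' x hx ξ hξ'.1 hξ'.2 n).trans ?_
      gcongr
      · exact (le_abs_self c').trans (le_max_right _ _)
      · exact le_max_right _ _
  · have hTd : C.dual.T x = C.T x := rfl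
    have e1 : C.dual.Es x = (C.Es x)ᗮ ⊓ C.T x := by
      ext ξ
      rw [h.dual_Es hx, Submodule.mem_inf, Submodule.mem_orthogonal', and_comm]
    have e2 : C.dual.Eu x = (C.Eu x)ᗮ ⊓ C.T x := by
      ext ξ
      rw [h.C05_dual_Eu_iff hx, Submodule.mem_inf, Submodule.mem_orthogonal', and_comm]
    have hdis : Disjoint (C.dual.Es x) (C.dual.Eu x) := by
      rw [Submodule.disjoint_def]
      intro ξ h1 h2
      rw [h.dual_Es hx] at h1
      rw [h.C05_dual_Eu_iff hx] at h2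
      obtain ⟨s, hs, w, hw, hsw⟩ := Submodule.mem_sup.mp
        (show ξ ∈ C.Es x ⊔ C.Eu x by rw [(h.split x hx).1]; exact h1.1)
      have h3 : inner ℝ ξ ξ = (0 : ℝ) := by
        have : inner ℝ ξ ξ = inner ℝ ξ (s + w) := by rw [hsw]
        rw [this, inner_add_right, h1.2 s hs, h2.2 w hw, add_zero]
      exact inner_self_eq_zero.mp h3
    refine ⟨?_, hdis⟩
    rw [hTd]
    have f1 : finrank ℝ (C.Es x) + finrank ℝ ((C.Es x)ᗮ ⊓ C.T x : Submodule ℝ (EE N)) =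
      finrank ℝ (C.T x) := Submodule.finrank_add_inf_finrank_orthogonal (C.Es_le x)
    have f2 : finrank ℝ (C.Eu x) + finrank ℝ ((C.Eu x)ᗮ ⊓ C.T x : Submodule ℝ (EE N)) =
      finrank ℝ (C.T x) := Submodule.finrank_add_inf_finrank_orthogonal (C.Eu_le x)
    have f3 := Submodule.finrank_sup_add_finrank_inf_eq (C.Es x) (C.Eu x)
    rw [(h.split x hx).2.eq_bot, finrank_bot, (h.split x hx).1] at f3
    have f4 := Submodule.finrank_sup_add_finrank_inf_eq (C.dual.Es x) (C.dual.Eu x)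
    rw [hdis.eq_bot, finrank_bot] at f4
    rw [← e1] at f1
    rw [← e2] at f2
    refine Submodule.eq_of_le_of_finrank_eq (sup_le (C.dual.Es_le x) (C.dual.Eu_le x)) ?_
    omega

end Coc

end Pool.MP85
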