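import Pool.Agent.Lib.MP_85e637_an.AbsC
import Pool.Agent.Lib.MP_85e637_an.C01
import Pool.Agent.Lib.MP_85e637_an.C05

/-!
# C06: lower bound for the number of contracted vectors along an orbit asymptotic to a hyperbolic set
-/

open Filter Topology Set Metric Module

set_option linter.unusedSectionVars false
set_option linter.unusedVariables false

namespace Pool.MP85
namespace Coc
variable {N : ℕ} {K : Type} [MetricSpace K] [CompactSpace K] {C : Coc N K}

/-- uniform angle between the stable and unstable spaces -/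
theorem C06_angle {Om : Set K} (h : C.HypOn Om) : ∃ c₁ : ℝ, 1 ≤ c₁ ∧
    ∀ y ∈ Om, ∀ s ∈ C.Es y, ∀ u ∈ C.Eu y, ‖s‖ + ‖u‖ ≤ c₁ * ‖s + u‖ := by
  classical
  set X : Set (K × EE N × EE N) := {q | (q.1 ∈ Om ∧ q.2.1 ∈ C.Es q.1) ∧
    ((q.1 ∈ Om ∧ q.2.2 ∈ C.Eu q.1) ∧ ‖q.2.1‖ + ‖q.2.2‖ = 1)} with hX
  have hcl : IsClosed X := by
    have h1 : IsClosed {q : K × EE N × EE N | q.1 ∈ Om ∧ q.2.1 ∈ C.Es q.1} :=
      h.closed_Es.preimage (f := fun q : K × EE N × EE N => (q.1, q.2.1)) (by fun_prop)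
    have h2 : IsClosed {q : K × EE N × EE N | q.1 ∈ Om ∧ q.2.2 ∈ C.Eu q.1} :=
      h.closed_Eu.preimage (f := fun q : K × EE N × EE N => (q.1, q.2.2)) (by fun_prop)
    have h3 : IsClosed {q : K × EE N × EE N | ‖q.2.1‖ + ‖q.2.2‖ = 1} :=
      isClosed_eq (by fun_prop) continuous_const
    exact h1.inter (h2.inter h3)
  have hcpt : IsCompact X := by
    refine IsCompact.of_isClosed_subset (isCompact_univ.prod
      ((isCompact_closedBall (0 : EE N) 1).prod (isCompact_closedBall (0 : EE N) 1))) hcl ?_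
    rintro ⟨y, s, u⟩ ⟨_, _, h3⟩
    simp only at h3
    refine ⟨mem_univ _, ?_, ?_⟩
    · simp only [mem_closedBall, dist_zero_right]
      linarith [norm_nonneg u]
    · simp only [mem_closedBall, dist_zero_right]
      linarith [norm_nonneg s]
  have hm : ∃ m > 0, ∀ q ∈ X, m ≤ ‖q.2.1 + q.2.2‖ := by
    rcases X.eq_empty_or_nonempty with he | hne
    · exact ⟨1, one_pos, fun q hq => absurd hq (by simp [he])⟩
    · obtain ⟨q, hq, hmin⟩ := hcpt.exists_isMinOn hne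
        (f := fun q : K × EE N × EE N => ‖q.2.1 + q.2.2‖) (by fun_prop)
      refine ⟨‖q.2.1 + q.2.2‖, ?_, fun q' hq' => hmin hq'⟩
      obtain ⟨⟨hO, hs⟩, ⟨_, hu⟩, h1⟩ := hq
      rw [gt_iff_lt, norm_pos_iff]
      intro h0
      have hsu : q.2.1 = - q.2.2 := eq_neg_of_add_eq_zero_left h0
      have hs' : q.2.1 ∈ C.Eu q.1 := by rw [hsu]; exact (C.Eu q.1).neg_mem hu
      have := Submodule.disjoint_def.1 (h.split q.1 hO).2 _ hs hs'
      rw [this] at hsu h1
      have hu0 : q.2.2 = 0 := by simpa using hsu.symm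
      rw [hu0] at h1
      simp at h1
  obtain ⟨m, hm0, hm⟩ := hm
  refine ⟨max 1 (1 / m), le_max_left _ _, fun y hy s hs u hu => ?_⟩
  rcases eq_or_lt_of_le (add_nonneg (norm_nonneg s) (norm_nonneg u)) with h0 | h0
  · rw [← h0]; positivity
  · set t := ‖s‖ + ‖u‖ with ht
    have hmem : ((y, t⁻¹ • s, t⁻¹ • u) : K × EE N × EE N) ∈ X := by
      refine ⟨⟨hy, (C.Es y).smul_mem _ hs⟩, ⟨hy, (C.Eu y).smul_mem _ hu⟩, ?_⟩
      simp only [norm_smul, norm_inv, Real.norm_eq_abs, abs_of_pos h0]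
      rw [← mul_add, ← ht, inv_mul_cancel₀ h0.ne']
    have h2 := hm _ hmem
    simp only [← smul_add, norm_smul, norm_inv, Real.norm_eq_abs, abs_of_pos h0] at h2
    have h3 : m * t ≤ ‖s + u‖ := by
      rw [inv_mul_eq_div, le_div_iff₀ h0] at h2
      exact h2
    calc t = (1 / m) * (m * t) := by field_simp
      _ ≤ (1 / m) * ‖s + u‖ := by gcongr
      _ ≤ max 1 (1 / m) * ‖s + u‖ := by gcongr; exact le_max_right _ _

/-- the stable cone -/
def C06_cone (C : Coc N K) (Om : Set K) (α δ : ℝ) (x : K) (v : EE N) : Prop :=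
  ∃ y ∈ Om, dist y x < δ ∧ infDist v (C.Es y) ≤ α * ‖v‖

theorem C06_infDist_smul (V : Submodule ℝ (EE N)) (t : ℝ) (v : EE N) :
    infDist (t • v) (V : Set (EE N)) ≤ |t| * infDist v (V : Set (EE N)) := by
  obtain ⟨s, hs, hs'⟩ := (V.closed_of_finiteDimensional).exists_infDist_eq_dist ⟨0, V.zero_mem⟩ v
  rw [hs']
  refine (infDist_le_dist_of_mem (V.smul_mem t hs)).trans ?_
  rw [dist_eq_norm, dist_eq_norm, ← smul_sub, norm_smul, Real.norm_eq_abs]

theorem C06_cone_smul {Om : Set K} {α δ : ℝ} {x : K} {v : EE N} (t : ℝ)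
    (hc : C06_cone C Om α δ x v) : C06_cone C Om α δ x (t • v) := by
  obtain ⟨y, hy, hd, hv⟩ := hc
  refine ⟨y, hy, hd, (C06_infDist_smul _ _ _).trans ?_⟩
  rw [norm_smul, Real.norm_eq_abs]
  calc |t| * infDist v (C.Es y : Set (EE N)) ≤ |t| * (α * ‖v‖) := by gcongr
    _ = _ := by ring

theorem C06_fw_mem {Om : Set K} (h : C.HypOn Om) {x : K} (hx : x ∈ Om) (n : ℕ) :
    fw C.f n x ∈ Om := by
  induction n with
  | zero => exact hx
  | succ n ih => rw [fw_succ']; exact (h.inv _).2 ih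

theorem C06_Es_An {x : K} {v : EE N} (hv : v ∈ C.Es x) (n : ℕ) :
    C.An n x v ∈ C.Es (fw C.f n x) := by
  induction n with
  | zero =>
    have : C.P x v = v := C.mem_T.1 (C.Es_le x hv)
    show C.P x v ∈ C.Es x
    rwa [this]
  | succ n ih =>
    rw [An_succ', fw_succ']
    exact (C.Es_map (C.Es_le _ ih)).2 ih

theorem C06_Eu_An {x : K} {v : EE N} (hv : v ∈ C.Eu x) (n : ℕ) :
    C.An n x v ∈ C.Eu (fw C.f n x) := by
  induction n with
  | zero =>
    have : C.P x v = v := C.mem_T.1 (C.Eu_le x hv)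
    show C.P x v ∈ C.Eu x
    rwa [this]
  | succ n ih =>
    rw [An_succ', fw_succ']
    exact (C.Eu_map (C.Eu_le _ ih)).2 ih

/-- estimates at points of `Om` -/
theorem C06_est {Om : Set K} (h : C.HypOn Om) {c lam c₁ α : ℝ}
    (hyp : ∀ x ∈ Om, (∀ v ∈ C.Es x, ∀ n, ‖C.An n x v‖ ≤ c * lam ^ n * ‖v‖) ∧
      (∀ v ∈ C.Eu x, ∀ n, ‖C.symm.An n x v‖ ≤ c * lam ^ n * ‖v‖))
    (hc₁ : 1 ≤ c₁) (hang : ∀ y ∈ Om, ∀ s ∈ C.Es y, ∀ u ∈ C.Eu y, ‖s‖ + ‖u‖ ≤ c₁ * ‖s + u‖)
    (hα : α = 1 / (4 * c₁)) {M : ℕ} (hM : c * lam ^ M ≤ 1 / 8) (hM' : c * lam ^ M ≤ α)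
    (hM0 : 0 ≤ c * lam ^ M)
    {x : K} (hx : x ∈ Om) {v s u s' : EE N} (hs : s ∈ C.Es x) (hu : u ∈ C.Eu x)
    (hv : s + u = v) (hv1 : ‖v‖ = 1) (hs' : s' ∈ C.Es (fw C.f M x))
    (hd : ‖C.An M x v - s'‖ ≤ α * ‖C.An M x v‖) :
    2 * ‖C.An M x v‖ < 1 ∧ ‖v - s‖ < α := by
  have hxM := C06_fw_mem h hx M
  set a := C.An M x s with ha
  set b := C.An M x u with hb
  have hab : C.An M x v = a + b := by rw [← hv, map_add]
  have ha' : a ∈ C.Es (fw C.f M x) := C06_Es_An hs M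
  have hb' : b ∈ C.Eu (fw C.f M x) := C06_Eu_An hu M
  rw [hab] at hd ⊢
  have h1 := hang _ hxM (a - s') ((C.Es _).sub_mem ha' hs') b hb'
  have h2 : a - s' + b = a + b - s' := by abel
  rw [h2] at h1
  have hα0 : 0 < α := by rw [hα]; positivity
  have h3 : ‖b‖ ≤ ‖a + b‖ / 4 := by
    have : c₁ * ‖a + b - s'‖ ≤ c₁ * (α * ‖a + b‖) := by gcongr
    have h4 : c₁ * (α * ‖a + b‖) = ‖a + b‖ / 4 := by rw [hα]; field_simp
    linarith [norm_nonneg (a - s')]
  have h4 : ‖a + b‖ ≤ ‖a‖ + ‖b‖ := norm_add_le _ _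
  have h5 : ‖a‖ ≤ c * lam ^ M * ‖s‖ := (hyp x hx).1 s hs M
  have h6 : ‖u‖ ≤ c * lam ^ M * ‖b‖ := by
    have := (hyp _ hxM).2 b hb' M
    rwa [hb, C.symm_An_An M (C.Eu_le x hu)] at this
  have h7 : ‖s‖ ≤ ‖v‖ + ‖u‖ := by
    have : s = v - u := by rw [← hv]; abel
    rw [this]; exact norm_sub_le _ _
  have h8 : v - s = u := by rw [← hv]; abel
  rw [h8]
  set θ := c * lam ^ M with hθ
  have h9 : θ * ‖s‖ ≤ 1 / 8 * ‖s‖ := by gcongr
  have h10 : θ * ‖b‖ ≤ α * ‖b‖ := by gcongr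
  have h11 : θ * ‖b‖ ≤ 1 / 8 * ‖b‖ := by gcongr
  have h12 : ‖b‖ < 1 := by
    linarith [norm_nonneg a, norm_nonneg b, norm_nonneg u, norm_nonneg s]
  refine ⟨by linarith [norm_nonneg a, norm_nonneg b, norm_nonneg u, norm_nonneg s], ?_⟩
  calc ‖u‖ ≤ α * ‖b‖ := h6.trans h10
    _ < α * 1 := by gcongr
    _ = α := mul_one α


theorem C06_contAn (C : Coc N K) (n : ℕ) : Continuous fun q : K × EE N => C.An n q.1 q.2 :=
  ((C.continuous_An n).comp continuous_fst).clm_apply continuous_snd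

theorem C06_contP (C : Coc N K) : Continuous fun q : K × EE N => C.P q.1 q.2 :=
  (C.contP.comp continuous_fst).clm_apply continuous_snd

theorem C06_contfw (C : Coc N K) (n : ℕ) : Continuous fun x : K => fw C.f n x :=
  C.f.continuous.iterate n

theorem C06_P_le (C : Coc N K) (x : K) (v : EE N) : ‖C.P x v‖ ≤ ‖v‖ := by
  obtain ⟨c, _, hc⟩ := C.An_bound
  have h1 := (C.An 0 x).le_opNorm v
  have h2 := hc 0 x
  rw [pow_zero] at h2
  calc ‖C.P x v‖ = ‖C.An 0 x v‖ := rfl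
    _ ≤ ‖C.An 0 x‖ * ‖v‖ := h1
    _ ≤ 1 * ‖v‖ := by gcongr
    _ = ‖v‖ := one_mul _

theorem C06_coneStep {Om : Set K} (h : C.HypOn Om) (hne : Om.Nonempty) {c lam c₁ α : ℝ}
    (hyp : ∀ x ∈ Om, (∀ v ∈ C.Es x, ∀ n, ‖C.An n x v‖ ≤ c * lam ^ n * ‖v‖) ∧
      (∀ v ∈ C.Eu x, ∀ n, ‖C.symm.An n x v‖ ≤ c * lam ^ n * ‖v‖))
    (hc₁ : 1 ≤ c₁) (hang : ∀ y ∈ Om, ∀ s ∈ C.Es y, ∀ u ∈ C.Eu y, ‖s‖ + ‖u‖ ≤ c₁ * ‖s + u‖)
    (hα : α = 1 / (4 * c₁)) {M : ℕ} (hM : c * lam ^ M ≤ 1 / 8) (hM' : c * lam ^ M ≤ α)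
    (hM0 : 0 ≤ c * lam ^ M) :
    ∃ δ > 0, ∀ x, infDist x Om < δ → ∀ v ∈ C.T x,
      C06_cone C Om α δ (fw C.f M x) (C.An M x v) →
      C06_cone C Om α δ x v ∧ 2 * ‖C.An M x v‖ ≤ ‖v‖ := by
  classical
  have hα0 : 0 < α := by rw [hα]; positivity
  by_contra hcon
  push Not at hcon
  obtain ⟨cb, hcb1, hcb⟩ := C.An_bound
  have hAn : ∀ n x v, ‖C.An n x v‖ ≤ cb ^ n * ‖v‖ := fun n x v =>
    ((C.An n x).le_opNorm v).trans (by gcongr; exact hcb n x)
  set R : ℝ := max (max 1 ((1 + α) * cb ^ M)) c₁ with hR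
  have key : ∀ n : ℕ, ∃ (x y' y : K) (v s' s u : EE N), y' ∈ Om ∧
      dist y' (fw C.f M x) < 1 / ((n : ℝ) + 1) ∧ y ∈ Om ∧ dist y x < 1 / ((n : ℝ) + 1) ∧
      v ∈ C.T x ∧ ‖v‖ = 1 ∧ s' ∈ C.Es y' ∧ ‖C.An M x v - s'‖ ≤ α * ‖C.An M x v‖ ∧
      s ∈ C.Es y ∧ u ∈ C.Eu y ∧ s + u = C.P y v ∧
      ¬ (2 * ‖C.An M x v‖ < 1 ∧ ‖v - s‖ < α) := by
    intro n
    obtain ⟨x, hx, v, hv, hc, hf⟩ := hcon (1 / ((n : ℝ) + 1)) (by positivity)
    obtain ⟨y, hy, hyx⟩ := (infDist_lt_iff hne).1 hx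
    rw [dist_comm] at hyx
    have hv0 : v ≠ 0 := by
      rintro rfl
      have : C06_cone C Om α (1 / ((n : ℝ) + 1)) x 0 :=
        ⟨y, hy, hyx, by rw [infDist_zero_of_mem (C.Es y).zero_mem]; simp⟩
      have := hf this
      simp at this
    have hvn : 0 < ‖v‖ := norm_pos_iff.2 hv0
    set w := ‖v‖⁻¹ • v with hw
    have hw1 : ‖w‖ = 1 := by
      rw [hw, norm_smul, norm_inv, norm_norm, inv_mul_cancel₀ hvn.ne']
    have hwT : w ∈ C.T x := (C.T x).smul_mem _ hv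
    have hAw : C.An M x w = ‖v‖⁻¹ • C.An M x v := by rw [hw, map_smul]
    obtain ⟨y', hy', hd', hi'⟩ : C06_cone C Om α (1 / ((n : ℝ) + 1)) (fw C.f M x) (C.An M x w) := by
      rw [hAw]; exact C06_cone_smul _ hc
    obtain ⟨s', hs', hs'd⟩ := ((C.Es y').closed_of_finiteDimensional).exists_infDist_eq_dist
      ⟨0, (C.Es y').zero_mem⟩ (C.An M x w)
    have hPT : C.P y w ∈ C.Es y ⊔ C.Eu y := by
      rw [(h.split y hy).1]; exact ⟨w, rfl⟩
    obtain ⟨s, hs, u, hu, hsu⟩ := Submodule.mem_sup.1 hPT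
    refine ⟨x, y', y, w, s', s, u, hy', hd', hy, hyx, hwT, hw1, hs', ?_, hs, hu, hsu, ?_⟩
    · rw [← dist_eq_norm, ← hs'd]; exact hi'
    · rintro ⟨h1, h2⟩
      have hcx : C06_cone C Om α (1 / ((n : ℝ) + 1)) x w := by
        refine ⟨y, hy, hyx, (infDist_le_dist_of_mem hs).trans ?_⟩
        rw [hw1, mul_one, dist_eq_norm]; exact h2.le
      have hcx' : C06_cone C Om α (1 / ((n : ℝ) + 1)) x v := by
        have := C06_cone_smul ‖v‖ hcx
        rwa [hw, smul_smul, mul_inv_cancel₀ hvn.ne', one_smul] at this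
      have h3 := hf hcx'
      rw [hAw, norm_smul, norm_inv, norm_norm] at h1
      have h4 : 2 * ‖C.An M x v‖ < ‖v‖ := by
        have : 2 * (‖v‖⁻¹ * ‖C.An M x v‖) = (2 * ‖C.An M x v‖) / ‖v‖ := by
          rw [div_eq_mul_inv]; ring
        rw [this, div_lt_one hvn] at h1
        exact h1
      linarith
  choose x y' y v s' s u hy' hd' hy hd hvT hv1 hs' hi' hs hu hsu hbad using key
  have hvb : ∀ n, v n ∈ closedBall (0 : EE N) R := fun n => by
    rw [mem_closedBall, dist_zero_right, hv1]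
    exact (le_max_left _ _).trans (le_max_left _ _)
  have hs'b : ∀ n, s' n ∈ closedBall (0 : EE N) R := fun n => by
    rw [mem_closedBall, dist_zero_right]
    have h1 : ‖C.An M (x n) (v n)‖ ≤ cb ^ M := by
      have := hAn M (x n) (v n); rwa [hv1, mul_one] at this
    have h2 : ‖s' n‖ ≤ ‖C.An M (x n) (v n)‖ + ‖C.An M (x n) (v n) - s' n‖ := by
      have : s' n = C.An M (x n) (v n) - (C.An M (x n) (v n) - s' n) := by abel
      calc ‖s' n‖ = ‖C.An M (x n) (v n) - (C.An M (x n) (v n) - s' n)‖ := by rw [← this]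
        _ ≤ _ := norm_sub_le _ _
    calc ‖s' n‖ ≤ (1 + α) * ‖C.An M (x n) (v n)‖ := by linarith [hi' n]
      _ ≤ (1 + α) * cb ^ M := by gcongr
      _ ≤ R := (le_max_right _ _).trans (le_max_left _ _)
  have hsub : ∀ n, ‖s n‖ + ‖u n‖ ≤ c₁ := fun n => by
    have h1 := hang (y n) (hy n) (s n) (hs n) (u n) (hu n)
    rw [hsu] at h1
    have h2 := C06_P_le C (y n) (v n)
    rw [hv1] at h2
    calc _ ≤ _ := h1
      _ ≤ c₁ * 1 := by gcongr
      _ = c₁ := mul_one _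
  have hsb : ∀ n, s n ∈ closedBall (0 : EE N) R := fun n => by
    rw [mem_closedBall, dist_zero_right]
    exact (by linarith [hsub n, norm_nonneg (u n)] : ‖s n‖ ≤ c₁).trans (le_max_right _ _)
  have hub : ∀ n, u n ∈ closedBall (0 : EE N) R := fun n => by
    rw [mem_closedBall, dist_zero_right]
    exact (by linarith [hsub n, norm_nonneg (s n)] : ‖u n‖ ≤ c₁).trans (le_max_right _ _)
  have hB := isCompact_closedBall (0 : EE N) R
  obtain ⟨⟨x0, v0, s'0, s0, u0⟩, -, φ, hφ, hlim⟩ :=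
    (isCompact_univ (X := K)).prod (hB.prod (hB.prod (hB.prod hB))) |>.tendsto_subseq
      (x := fun n => (x n, v n, s' n, s n, u n))
      (fun n => ⟨mem_univ _, hvb n, hs'b n, hsb n, hub n⟩)
  have lx : Tendsto (fun n => x (φ n)) atTop (𝓝 x0) :=
    (continuous_fst.tendsto _).comp hlim
  have lv : Tendsto (fun n => v (φ n)) atTop (𝓝 v0) :=
    ((continuous_fst.comp continuous_snd).tendsto _).comp hlim
  have ls' : Tendsto (fun n => s' (φ n)) atTop (𝓝 s'0) :=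
    ((continuous_fst.comp (continuous_snd.comp continuous_snd)).tendsto _).comp hlim
  have ls : Tendsto (fun n => s (φ n)) atTop (𝓝 s0) :=
    ((continuous_fst.comp (continuous_snd.comp (continuous_snd.comp continuous_snd))).tendsto
      _).comp hlim
  have lu : Tendsto (fun n => u (φ n)) atTop (𝓝 u0) :=
    ((continuous_snd.comp (continuous_snd.comp (continuous_snd.comp continuous_snd))).tendsto
      _).comp hlim
  have h0 : Tendsto (fun n : ℕ => 1 / (((φ n : ℕ) : ℝ) + 1)) atTop (𝓝 0) :=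
    tendsto_one_div_add_atTop_nhds_zero_nat.comp hφ.tendsto_atTop
  have ly : Tendsto (fun n => y (φ n)) atTop (𝓝 x0) := by
    refine (tendsto_iff_of_dist (squeeze_zero (fun n => dist_nonneg)
      (fun n => (hd (φ n)).le) h0)).2 lx
  have lf : Tendsto (fun n => fw C.f M (x (φ n))) atTop (𝓝 (fw C.f M x0)) :=
    ((C06_contfw C M).tendsto _).comp lx
  have ly' : Tendsto (fun n => y' (φ n)) atTop (𝓝 (fw C.f M x0)) := by
    refine (tendsto_iff_of_dist (squeeze_zero (fun n => dist_nonneg)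
      (fun n => (hd' (φ n)).le) h0)).2 lf
  have hx0 : x0 ∈ Om := h.closed.mem_of_tendsto ly (Eventually.of_forall fun n => hy _)
  have hs0 : s0 ∈ C.Es x0 := (h.closed_Es.mem_of_tendsto (ly.prodMk_nhds ls)
    (Eventually.of_forall fun n => ⟨hy _, hs _⟩)).2
  have hu0 : u0 ∈ C.Eu x0 := (h.closed_Eu.mem_of_tendsto (ly.prodMk_nhds lu)
    (Eventually.of_forall fun n => ⟨hy _, hu _⟩)).2
  have hs'0 : s'0 ∈ C.Es (fw C.f M x0) := (h.closed_Es.mem_of_tendsto (ly'.prodMk_nhds ls')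
    (Eventually.of_forall fun n => ⟨hy' _, hs' _⟩)).2
  have lA : Tendsto (fun n => C.An M (x (φ n)) (v (φ n))) atTop (𝓝 (C.An M x0 v0)) :=
    ((C06_contAn C M).tendsto (x0, v0)).comp (lx.prodMk_nhds lv)
  have hv01 : ‖v0‖ = 1 :=
    tendsto_nhds_unique lv.norm (by simp only [hv1]; exact tendsto_const_nhds)
  have hPv : C.P x0 v0 = v0 := by
    have h1 : Tendsto (fun n => C.P (x (φ n)) (v (φ n))) atTop (𝓝 (C.P x0 v0)) :=
      ((C06_contP C).tendsto (x0, v0)).comp (lx.prodMk_nhds lv)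
    refine tendsto_nhds_unique h1 ?_
    have : (fun n => C.P (x (φ n)) (v (φ n))) = fun n => v (φ n) := by
      funext n; exact C.mem_T.1 (hvT _)
    rw [this]; exact lv
  have hsu0 : s0 + u0 = v0 := by
    have h1 : Tendsto (fun n => C.P (y (φ n)) (v (φ n))) atTop (𝓝 (C.P x0 v0)) :=
      ((C06_contP C).tendsto (x0, v0)).comp (ly.prodMk_nhds lv)
    rw [hPv] at h1
    refine tendsto_nhds_unique (ls.add lu) ?_
    simp only [hsu]; exact h1
  have hi0 : ‖C.An M x0 v0 - s'0‖ ≤ α * ‖C.An M x0 v0‖ :=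
    le_of_tendsto_of_tendsto (lA.sub ls').norm (lA.norm.const_mul α)
      (Eventually.of_forall fun n => hi' _)
  obtain ⟨e1, e2⟩ := C06_est h hyp hc₁ hang hα hM hM' hM0 hx0 hs0 hu0 hsu0 hv01 hs'0 hi0
  have E1 : ∀ᶠ n in atTop, 2 * ‖C.An M (x (φ n)) (v (φ n))‖ < 1 :=
    (lA.norm.const_mul 2).eventually (gt_mem_nhds e1)
  have E2 : ∀ᶠ n in atTop, ‖v (φ n) - s (φ n)‖ < α :=
    (lv.sub ls).norm.eventually (gt_mem_nhds e2)
  obtain ⟨n, hn1, hn2⟩ := (E1.and E2).exists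
  exact hbad _ ⟨hn1, hn2⟩

/-- elementary estimate for real sequences -/
theorem C06_seq {g : ℕ → ℝ} (hg : ∀ n, 0 ≤ g n) {b : ℝ} (hb : 1 ≤ b)
    (h1 : ∀ n t, g (n + t) ≤ b ^ t * g n) {M : ℕ} (hM : 0 < M) {m : ℕ}
    (h2 : ∀ n i, n + M * (i + 1) = m → 2 * g (n + M) ≤ g n) :
    ∀ n ≤ m, g n ≤ 2 * b ^ (2 * M) * (1 / 2) ^ (n / M) * g 0 := by
  intro n hn
  set r := m % M with hr
  have hrM : r < M := Nat.mod_lt _ hM
  have hm : r + M * (m / M) = m := Nat.mod_add_div m M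
  have key : ∀ i, i ≤ m / M → g (r + M * i) ≤ (1 / 2) ^ i * g r := by
    intro i
    induction i with
    | zero => intro _; simp
    | succ i ih =>
      intro hi
      have h3 := ih (by omega)
      have h4 : 2 * g (r + M * i + M) ≤ g (r + M * i) := by
        refine h2 _ (m / M - (i + 1)) ?_
        have h5 : m / M - (i + 1) + 1 = m / M - i := by omega
        rw [h5, add_assoc, ← Nat.mul_add, Nat.add_sub_cancel' (by omega), hm]
      have h6 : r + M * (i + 1) = r + M * i + M := by ring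
      rw [h6, pow_succ]
      linarith
  have hb0 : 0 ≤ b := by linarith
  rcases lt_or_ge n r with hlt | hge
  · have h3 := h1 0 n
    rw [zero_add] at h3
    have h4 : n / M = 0 := Nat.div_eq_of_lt (by omega)
    rw [h4, pow_zero, mul_one]
    have h7 : b ^ n ≤ b ^ (2 * M) := pow_le_pow_right₀ hb (by omega)
    calc g n ≤ b ^ n * g 0 := h3
      _ ≤ b ^ (2 * M) * g 0 := mul_le_mul_of_nonneg_right h7 (hg 0)
      _ ≤ 2 * b ^ (2 * M) * g 0 := by
        have := mul_nonneg (pow_nonneg hb0 (2 * M)) (hg 0)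
        linarith
  · set i := (n - r) / M with hi
    set t := (n - r) % M with ht
    have htM : t < M := Nat.mod_lt _ hM
    have hnr : n = r + M * i + t := by
      have := Nat.mod_add_div (n - r) M
      rw [← ht, ← hi] at this
      omega
    have hi2 : i ≤ m / M := by
      refine Nat.div_le_div_right ?_
      omega
    have h3 := h1 (r + M * i) t
    rw [← hnr] at h3
    have h4 := key i hi2
    have h5 := h1 0 r
    rw [zero_add] at h5
    have h6 : n / M ≤ i + 1 := by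
      rw [← Nat.lt_succ_iff, Nat.div_lt_iff_lt_mul hM, hnr]
      nlinarith
    have h7 : (1 / 2 : ℝ) ^ (i + 1) ≤ (1 / 2) ^ (n / M) :=
      pow_le_pow_of_le_one (by norm_num) (by norm_num) h6
    have hbt : b ^ t ≤ b ^ M := pow_le_pow_right₀ hb htM.le
    have hbr : b ^ r ≤ b ^ M := pow_le_pow_right₀ hb hrM.le
    have hp : (1 / 2 : ℝ) ^ i ≤ 2 * (1 / 2) ^ (n / M) := by
      rw [pow_succ] at h7; linarith
    calc g n ≤ b ^ t * g (r + M * i) := h3
      _ ≤ b ^ t * ((1 / 2) ^ i * g r) := by gcongr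
      _ ≤ b ^ t * ((1 / 2) ^ i * (b ^ r * g 0)) := by gcongr
      _ ≤ b ^ M * ((2 * (1 / 2) ^ (n / M)) * (b ^ M * g 0)) := by
        have := hg 0
        gcongr
      _ = 2 * b ^ (2 * M) * (1 / 2) ^ (n / M) * g 0 := by ring

theorem C06_finrank (x : K) (n : ℕ) : finrank ℝ (C.Es (fw C.f n x)) = finrank ℝ (C.Es x) := by
  induction n with
  | zero => rfl
  | succ n ih => rw [fw_succ', finrank_Es_f, ih]

theorem C06_bk_fw (x : K) (n : ℕ) : bk C.f n (fw C.f n x) = x := by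
  have : Function.LeftInverse (C.f.symm : K → K) C.f := C.f.symm_apply_apply
  exact (this.iterate n) x

theorem C06_fw_add (x : K) (n m : ℕ) : fw C.f (n + m) x = fw C.f n (fw C.f m x) :=
  Function.iterate_add_apply _ _ _ _

theorem HypOn.lower {Om : Set K} (h : C.HypOn Om) {x y : K} (hyO : y ∈ Om)
    (hx : Tendsto (fun n => infDist (fw C.f n x) Om) atTop (𝓝 0))
    (hy : MapClusterPt y atTop (fun n : ℕ => fw C.f n x)) :
    finrank ℝ (C.Es y) ≤ finrank ℝ (C.Es x) := by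
  classical
  have hne : Om.Nonempty := ⟨y, hyO⟩
  obtain ⟨c', lam, hl0, hl1, hyp'⟩ := h.hyp
  obtain ⟨c₁, hc₁, hang⟩ := C06_angle h
  set c := max c' 1 with hc
  have hc0 : 0 < c := lt_of_lt_of_le one_pos (le_max_right _ _)
  have hyp : ∀ x ∈ Om, (∀ v ∈ C.Es x, ∀ n, ‖C.An n x v‖ ≤ c * lam ^ n * ‖v‖) ∧
      (∀ v ∈ C.Eu x, ∀ n, ‖C.symm.An n x v‖ ≤ c * lam ^ n * ‖v‖) := by
    intro x hx
    refine ⟨fun v hv n => ((hyp' x hx).1 v hv n).trans ?_,
      fun v hv n => ((hyp' x hx).2 v hv n).trans ?_⟩ <;>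
    · gcongr; exact le_max_left _ _
  set α : ℝ := 1 / (4 * c₁) with hα
  have hα0 : 0 < α := by rw [hα]; positivity
  have hlt : Tendsto (fun n : ℕ => c * lam ^ n) atTop (𝓝 0) := by
    simpa using (tendsto_pow_atTop_nhds_zero_of_lt_one hl0.le hl1).const_mul c
  obtain ⟨M, hM1, hM, hM'⟩ : ∃ M : ℕ, 0 < M ∧ c * lam ^ M ≤ 1 / 8 ∧ c * lam ^ M ≤ α := by
    have h1 := hlt.eventually (gt_mem_nhds (show (0 : ℝ) < 1 / 8 by norm_num))
    have h2 := hlt.eventually (gt_mem_nhds hα0)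
    obtain ⟨M, ⟨h3, h4⟩, h5⟩ := ((h1.and h2).and (eventually_gt_atTop 0)).exists
    exact ⟨M, h5, h3.le, h4.le⟩
  have hM0 : 0 ≤ c * lam ^ M := by positivity
  obtain ⟨δ, hδ, hstep⟩ := C06_coneStep h hne hyp hc₁ hang hα hM hM' hM0
  obtain ⟨cb, hcb1, hcb⟩ := C.An_bound
  have hAn : ∀ n x v, ‖C.An n x v‖ ≤ cb ^ n * ‖v‖ := fun n x v =>
    ((C.An n x).le_opNorm v).trans (by gcongr; exact hcb n x)
  obtain ⟨n0, hn0⟩ := eventually_atTop.1 (hx.eventually (gt_mem_nhds hδ))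
  set z := fw C.f n0 x with hz
  have hzO : ∀ n, infDist (fw C.f n z) Om < δ := fun n => by
    rw [hz, ← C06_fw_add]; exact hn0 _ (by omega)
  rw [← C06_finrank x n0, ← hz]
  by_contra hlt'
  push Not at hlt'
  -- closeness of the projections
  obtain ⟨ε, hε0, hε⟩ : ∃ ε > 0, ∀ x', dist x' y < ε → ‖C.P x' - C.P y‖ < α / 2 := by
    obtain ⟨ε, hε0, hε⟩ := Metric.continuousAt_iff.1 C.contP.continuousAt (α / 2) (by positivity)
    exact ⟨ε, hε0, fun x' hx' => by rw [← dist_eq_norm]; exact hε hx'⟩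
  set B : ℝ := 2 * cb ^ (2 * M) with hB
  have key : ∀ i : ℕ, ∃ v : EE N, v ∈ C.T z ∧ ‖v‖ = 1 ∧ (∀ w ∈ C.Es z, inner ℝ w v = 0) ∧
      ∀ n ≤ i, ‖C.An n z v‖ ≤ B * (1 / 2) ^ (n / M) := by
    intro i
    obtain ⟨m, hmi, hm⟩ : ∃ m ≥ i, dist (fw C.f m z) y < min ε δ := by
      have h1 : ∃ᶠ n in atTop, fw C.f n x ∈ ball y (min ε δ) :=
        hy.frequently (ball_mem_nhds y (lt_min hε0 hδ))
      obtain ⟨n, hn, hn'⟩ := frequently_atTop.1 h1 (n0 + i)
      refine ⟨n - n0, by omega, ?_⟩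
      rw [hz, ← C06_fw_add, Nat.sub_add_cancel (by omega)]
      exact hn'
    have hmε := hε _ (hm.trans_le (min_le_left _ _))
    have hmδ := hm.trans_le (min_le_right _ _)
    set p := fw C.f m z with hp
    -- the linear map
    let L : C.Es y →ₗ[ℝ] C.Es z := ((C.Es z).orthogonalProjectionOnto ∘L
      (C.symm.An m p ∘L (C.P p ∘L (C.Es y).subtypeL))).toLinearMap
    obtain ⟨s, hsL, hs0⟩ := Submodule.exists_mem_ne_zero_of_ne_bot
      (LinearMap.ker_ne_bot_of_finrank_lt (f := L) hlt')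
    have hs0' : (s : EE N) ≠ 0 := fun h0 => hs0 (Subtype.ext h0)
    set w := C.P p (s : EE N) with hw
    set v := C.symm.An m p w with hv
    have hvperp : v ∈ (C.Es z)ᗮ := by
      have : L s = 0 := hsL
      exact Submodule.orthogonalProjectionOnto_eq_zero_iff.1 this
    have hwT : w ∈ C.T p := ⟨_, rfl⟩
    have hbkp : bk C.f m p = z := C06_bk_fw z m
    have hvT : v ∈ C.T z := by
      have h1 : v ∈ C.symm.T (fw C.symm.f m p) := C.symm.An_mem m p w
      have h2 : fw C.symm.f m p = z := hbkp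
      rw [h2] at h1
      exact h1
    have hAv : C.An m z v = w := by
      have h1 := C.An_symm_An m hwT
      rw [hbkp] at h1
      exact h1
    -- `w` is in the cone
    have hPs : C.P y (s : EE N) = s := C.mem_T.1 (C.Es_le y s.2)
    have hws : ‖w - s‖ ≤ α / 2 * ‖(s : EE N)‖ := by
      have h1 : w - s = (C.P p - C.P y) (s : EE N) := by
        show w - s = C.P p (s : EE N) - C.P y (s : EE N)
        rw [hPs]
      rw [h1]
      exact ((C.P p - C.P y).le_opNorm _).trans (by gcongr)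
    have hα2 : α ≤ 1 / 4 := by
      rw [hα, div_le_div_iff₀ (by positivity) (by norm_num)]
      linarith
    have hs1 : ‖(s : EE N)‖ ≤ 2 * ‖w‖ := by
      have h1 : ‖(s : EE N)‖ ≤ ‖w‖ + ‖w - s‖ := by
        have : (s : EE N) = w - (w - s) := by abel
        calc ‖(s : EE N)‖ = ‖w - (w - s)‖ := by rw [← this]
          _ ≤ _ := norm_sub_le _ _
      nlinarith [norm_nonneg (s : EE N)]
    have hw0 : 0 < ‖w‖ := by
      have := norm_pos_iff.2 hs0'
      linarith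
    have hv0 : v ≠ 0 := by
      intro h0
      rw [h0, map_zero] at hAv
      rw [← hAv] at hw0; simp at hw0
    have hvn : 0 < ‖v‖ := norm_pos_iff.2 hv0
    have hcone : C06_cone C Om α δ p w := by
      refine ⟨y, hyO, by rw [dist_comm]; exact hmδ, (infDist_le_dist_of_mem s.2).trans ?_⟩
      rw [dist_eq_norm]
      calc ‖w - s‖ ≤ α / 2 * ‖(s : EE N)‖ := hws
        _ ≤ α / 2 * (2 * ‖w‖) := by gcongr
        _ = α * ‖w‖ := by ring
    have hAdd : ∀ n t, C.An (n + t) z v = C.An n (fw C.f t z) (C.An t z v) := fun n t => by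
      rw [An_add]; rfl
    have hcones : ∀ i n, n + M * i = m → C06_cone C Om α δ (fw C.f n z) (C.An n z v) := by
      intro i
      induction i with
      | zero =>
        intro n hn
        have : n = m := by simpa using hn
        subst this
        rw [hAv]; exact hcone
      | succ i ih =>
        intro n hn
        have h1 := ih (M + n) (by rw [← hn]; ring)
        rw [hAdd, C06_fw_add] at h1
        exact (hstep _ (hzO n) _ (C.An_mem n z v) h1).1
    have hseq := C06_seq (g := fun n => ‖C.An n z v‖) (fun n => norm_nonneg _) hcb1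
      (fun n t => by
        show ‖C.An (n + t) z v‖ ≤ _
        rw [add_comm n t, hAdd]; exact hAn _ _ _) hM1 (m := m) (fun n j hn => by
        have h1 := hcones j (M + n) (by rw [← hn]; ring)
        rw [hAdd, C06_fw_add] at h1
        have h2 := (hstep _ (hzO n) _ (C.An_mem n z v) h1).2
        show 2 * ‖C.An (n + M) z v‖ ≤ ‖C.An n z v‖
        rw [add_comm n M, hAdd]; exact h2)
    refine ⟨‖v‖⁻¹ • v, (C.T z).smul_mem _ hvT, ?_, ?_, ?_⟩
    · rw [norm_smul, norm_inv, norm_norm, inv_mul_cancel₀ hvn.ne']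
    · intro w' hw'
      rw [inner_smul_right, Submodule.inner_right_of_mem_orthogonal hw' hvperp, mul_zero]
    · intro n hn
      have h1 := hseq n (hn.trans hmi)
      have h2 : ‖C.An 0 z v‖ ≤ ‖v‖ := C06_P_le C z v
      rw [map_smul, norm_smul, norm_inv, norm_norm]
      calc ‖v‖⁻¹ * ‖C.An n z v‖ ≤ ‖v‖⁻¹ * (2 * cb ^ (2 * M) * (1 / 2) ^ (n / M) * ‖v‖) := by
            gcongr
            exact h1.trans (by gcongr)
        _ = B * (1 / 2) ^ (n / M) := by
          rw [hB]; field_simp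
  choose v hvT hv1 hvp hvb using key
  obtain ⟨v0, -, φ, hφ, hlim⟩ := (isCompact_closedBall (0 : EE N) 1).tendsto_subseq
    (x := v) (fun n => by rw [mem_closedBall, dist_zero_right, hv1])
  have hv01 : ‖v0‖ = 1 :=
    tendsto_nhds_unique hlim.norm (by simp only [Function.comp, hv1]; exact tendsto_const_nhds)
  have hv0T : v0 ∈ C.T z :=
    ((C.T z).closed_of_finiteDimensional).mem_of_tendsto hlim (Eventually.of_forall fun n => hvT _)
  have hv0p : ∀ w ∈ C.Es z, inner ℝ w v0 = 0 := fun w hw => by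
    refine tendsto_nhds_unique ((tendsto_const_nhds (x := w)).inner hlim) ?_
    simp only [Function.comp, hvp _ w hw]; exact tendsto_const_nhds
  have hv0b : ∀ n, ‖C.An n z v0‖ ≤ B * (1 / 2) ^ (n / M) := fun n => by
    refine le_of_tendsto ((((C.An n z).continuous.tendsto v0).comp hlim).norm) ?_
    filter_upwards [eventually_ge_atTop n] with i hi
    exact hvb _ n (hi.trans (hφ.id_le i))
  have hv0E : v0 ∈ C.Es z := by
    refine ⟨C.mem_T.1 hv0T, squeeze_zero (fun n => norm_nonneg _) hv0b ?_⟩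
    have h1 : Tendsto (fun n : ℕ => n / M) atTop atTop :=
      Nat.tendsto_div_const_atTop hM1.ne'
    simpa using ((tendsto_pow_atTop_nhds_zero_of_lt_one (by norm_num : (0:ℝ) ≤ 1 / 2)
      (by norm_num)).comp h1).const_mul B
  have := hv0p v0 hv0E
  rw [inner_self_eq_zero] at this
  rw [this] at hv01
  simp at hv01

end Coc
end Pool.MP85

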