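import Pool.Agent.Lib.MP_85e637_an.C01
import Pool.Agent.Lib.MP_85e637_an.C05
import Pool.Agent.Lib.MP_85e637_an.C06

/-!
# C07: indices and annihilators along asymptotic orbits
-/

open Filter Topology Set Metric Module

namespace Pool.MP85

namespace Coc
variable {N : ℕ} {K : Type} [MetricSpace K]

/-- a point of a closed set -/
theorem mem_of_cluster {f : K ≃ₜ K} {Om : Set K} (hcl : IsClosed Om) (hOm : Om.Nonempty) {x y : K}
    (hx : Tendsto (fun n => infDist (fw f n x) Om) atTop (𝓝 0))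
    (hy : MapClusterPt y atTop (fun n : ℕ => fw f n x)) : y ∈ Om := by
  rw [hcl.mem_iff_infDist_zero hOm]
  have h0 : Tendsto (fun z => infDist z Om) (𝓝 y) (𝓝 (infDist y Om)) :=
    (continuous_infDist_pt Om).tendsto y
  have h1 : MapClusterPt (infDist y Om) atTop ((fun z => infDist z Om) ∘ fun n : ℕ => fw f n x) :=
    MapClusterPt.tendsto_comp h0 hy
  have h3 : ClusterPt (infDist y Om) (𝓝 (0 : ℝ)) := ClusterPt.mono h1 hx
  haveI : (𝓝 (infDist y Om) ⊓ 𝓝 (0 : ℝ)).NeBot := h3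
  exact eq_of_nhds_neBot this

/-- bounded covectors annihilate contracted vectors -/
theorem dual_Fb_orth (C : Coc N K) {x : K} {ξ v : EE N} (hξ : ξ ∈ C.dual.Fb x) (hv : v ∈ C.Es x) :
    inner ℝ ξ v = 0 := by
  obtain ⟨h1, c, hc⟩ := hξ
  obtain ⟨h2, h3⟩ := hv
  have hξT : ξ ∈ C.T x := C.mem_T.2 h1
  have hvT : v ∈ C.T x := C.mem_T.2 h2
  have h4 : Tendsto (fun n => c * ‖C.An n x v‖) atTop (𝓝 0) := by simpa using h3.const_mul c
  have h5 : ∀ n, |inner ℝ ξ v| ≤ c * ‖C.An n x v‖ := by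
    intro n
    rw [← C.pairing n hvT hξT]
    exact (abs_real_inner_le_norm _ _).trans (mul_le_mul_of_nonneg_right (hc n) (norm_nonneg _))
  have h6 : |inner ℝ ξ v| ≤ 0 := ge_of_tendsto' h4 h5
  exact abs_eq_zero.1 (le_antisymm h6 (abs_nonneg _))

theorem dual_Es_le_Fb [CompactSpace K] (C : Coc N K) (x : K) : C.dual.Es x ≤ C.dual.Fb x := by
  rintro ξ ⟨h1, h2⟩
  refine ⟨h1, ?_⟩
  obtain ⟨c, hc⟩ := h2.bddAbove_range
  exact ⟨c, fun n => hc ⟨n, rfl⟩⟩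

variable [CompactSpace K] {C : Coc N K}

theorem HypOn.dim_eq {Om : Set K} (h : C.HypOn Om) {d : ℕ}
    (hd : ∀ x, finrank ℝ (C.T x) = d)
    {x y : K} (hyO : y ∈ Om) (hx : Tendsto (fun n => infDist (fw C.f n x) Om) atTop (𝓝 0))
    (hy : MapClusterPt y atTop (fun n : ℕ => fw C.f n x)) :
    finrank ℝ (C.Es x) = finrank ℝ (C.Es y) ∧
      ∀ ξ : EE N, ξ ∈ C.dual.Fb x ↔ ξ ∈ C.T x ∧ ∀ v ∈ C.Es x, inner ℝ ξ v = 0 := by
  have h1 : finrank ℝ (C.Es y) ≤ finrank ℝ (C.Es x) := h.lower hyO hx hy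
  have h2 : finrank ℝ (C.dual.Es y) ≤ finrank ℝ (C.dual.Es x) := h.dual.lower hyO hx hy
  have h3 : C.dual.Es y = (C.Es y)ᗮ ⊓ C.T y := by
    ext ξ
    rw [h.dual_Es hyO, Submodule.mem_inf, Submodule.mem_orthogonal, and_comm]
    simp only [real_inner_comm]
  have h4 : finrank ℝ (C.Es y) + finrank ℝ (C.dual.Es y) = d := by
    rw [h3, Submodule.finrank_add_inf_finrank_orthogonal (C.Es_le y), hd]
  have h5 : finrank ℝ (C.Es x) + finrank ℝ ((C.Es x)ᗮ ⊓ C.T x : Submodule ℝ (EE N)) = d := by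
    rw [Submodule.finrank_add_inf_finrank_orthogonal (C.Es_le x), hd]
  have h6 : C.dual.Fb x ≤ (C.Es x)ᗮ ⊓ C.T x := by
    intro ξ hξ
    refine ⟨?_, C.mem_T.2 hξ.1⟩
    change ξ ∈ (C.Es x)ᗮ
    rw [Submodule.mem_orthogonal]
    intro v hv
    rw [real_inner_comm]
    exact C.dual_Fb_orth hξ hv
  have h7 : finrank ℝ (C.dual.Es x) ≤ finrank ℝ (C.dual.Fb x) :=
    Submodule.finrank_mono (C.dual_Es_le_Fb x)
  have h8 : finrank ℝ (C.dual.Fb x) ≤
      finrank ℝ ((C.Es x)ᗮ ⊓ C.T x : Submodule ℝ (EE N)) := Submodule.finrank_mono h6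
  have h9 : finrank ℝ (C.Es x) = finrank ℝ (C.Es y) := by omega
  have h10 : C.dual.Fb x = (C.Es x)ᗮ ⊓ C.T x :=
    Submodule.eq_of_le_of_finrank_eq h6 (by omega)
  refine ⟨h9, fun ξ => ?_⟩
  rw [h10, Submodule.mem_inf, Submodule.mem_orthogonal, and_comm]
  simp only [real_inner_comm]

end Coc

end Pool.MP85
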