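import Pool.Agent.Lib.MP_85e637_an.C08a0

/-!
# C08a: powers of good systems
-/

open Filter Topology Set Metric Module

namespace Pool.MP85


namespace GSys
variable {d N : ℕ} {K : Type} [MetricSpace K] [CompactSpace K] (S : GSys d N K)

theorem fw_mem_Om (n : ℕ) (x : K) : fw S.f n x ∈ S.Om ↔ x ∈ S.Om := by
  induction n generalizing x with
  | zero => rfl
  | succ n ih => rw [fw_succ, ih, S.Om_inv]

theorem fw_mem_R (n : ℕ) (x : K) : fw S.f n x ∈ S.R ↔ x ∈ S.R := by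
  induction n generalizing x with
  | zero => rfl
  | succ n ih => rw [fw_succ, ih, S.R_inv]

theorem symm_mem_R (x : K) : S.f.symm x ∈ S.R ↔ x ∈ S.R := by
  rw [← S.R_inv (S.f.symm x), S.f.apply_symm_apply]

theorem bk_mem_R (n : ℕ) (x : K) : bk S.f n x ∈ S.R ↔ x ∈ S.R := by
  rw [← S.fw_mem_R n (bk S.f n x), fw_bk]

theorem finrank_Es_fw (n : ℕ) (x : K) :
    finrank ℝ (S.Es (fw S.f n x)) = finrank ℝ (S.Es x) := by
  induction n generalizing x with
  | zero => rfl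
  | succ n ih => rw [fw_succ, ih, S.toCoc.finrank_Es_f]

theorem finrank_Eu_fw (n : ℕ) (x : K) :
    finrank ℝ (S.Eu (fw S.f n x)) = finrank ℝ (S.Eu x) := by
  induction n generalizing x with
  | zero => rfl
  | succ n ih => rw [fw_succ, ih, S.toCoc.finrank_Eu_f]

theorem finrank_Es_bk (n : ℕ) (x : K) :
    finrank ℝ (S.Es (bk S.f n x)) = finrank ℝ (S.Es x) := by
  have h := S.finrank_Es_fw n (bk S.f n x)
  rw [fw_bk] at h
  exact h.symm

theorem finrank_Eu_bk (n : ℕ) (x : K) :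
    finrank ℝ (S.Eu (bk S.f n x)) = finrank ℝ (S.Eu x) := by
  have h := S.finrank_Eu_fw n (bk S.f n x)
  rw [fw_bk] at h
  exact h.symm

theorem Es_An (n : ℕ) {x : K} {v : EE N} (hv : v ∈ S.Es x) :
    S.An n x v ∈ S.Es (fw S.f n x) := by
  induction n generalizing x v with
  | zero =>
    change S.P x v ∈ S.Es x
    rw [hv.1]
    exact hv
  | succ n ih =>
    rw [Coc.An_succ, ContinuousLinearMap.comp_apply, fw_succ]
    exact ih ((S.toCoc.Es_map (S.toCoc.Es_le x hv)).2 hv)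

theorem Eu_symm_An (n : ℕ) {x : K} {v : EE N} (hv : v ∈ S.Eu x) :
    S.symm.An n x v ∈ S.Eu (bk S.f n x) := by
  induction n generalizing x v with
  | zero =>
    have h1 : S.P x v = v := hv.1
    change S.P x v ∈ S.Eu x
    rw [h1]
    exact hv
  | succ n ih =>
    rw [Coc.An_succ, ContinuousLinearMap.comp_apply, bk_succ]
    exact ih ((S.toCoc.symm.Es_map (S.toCoc.Eu_le x hv)).2 hv)

theorem exp_s_pow (n : ℕ) (x : K) (hx : x ∈ S.R) (v : EE N) (hv : v ∈ S.T x) :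
    16 ^ n * infDist v (S.Es x) ≤ infDist (S.An n x v) (S.Es (fw S.f n x)) := by
  induction n generalizing x v with
  | zero =>
    rw [pow_zero, one_mul]
    change _ ≤ infDist (S.P x v) (S.Es x)
    rw [S.toCoc.mem_T.1 hv]
  | succ n ih =>
    rw [Coc.An_succ, ContinuousLinearMap.comp_apply, fw_succ]
    refine le_trans ?_ (ih (S.f x) ((S.R_inv x).2 hx) (S.A x v) (S.toCoc.A_mem x v))
    rw [pow_succ, mul_assoc]
    exact mul_le_mul_of_nonneg_left (S.exp_s x hx v hv) (by positivity)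

theorem exp_u_pow (n : ℕ) (x : K) (hx : x ∈ S.R) (v : EE N) (hv : v ∈ S.T x) :
    16 ^ n * infDist v (S.Eu x) ≤ infDist (S.symm.An n x v) (S.Eu (bk S.f n x)) := by
  induction n generalizing x v with
  | zero =>
    rw [pow_zero, one_mul]
    change _ ≤ infDist (S.P x v) (S.Eu x)
    rw [S.toCoc.mem_T.1 hv]
  | succ n ih =>
    rw [Coc.An_succ, ContinuousLinearMap.comp_apply, bk_succ]
    refine le_trans ?_ (ih (S.f.symm x) ((S.symm_mem_R x).2 hx) (S.symm.A x v)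
      (S.toCoc.symm.A_mem x v))
    rw [pow_succ, mul_assoc]
    exact mul_le_mul_of_nonneg_left (S.exp_u x hx v hv) (by positivity)

theorem con_s_pow (n : ℕ) (x : K) (hx : x ∈ S.R) (h1 : finrank ℝ (S.Es x) = 1) (h2 : finrank ℝ (S.Eu x) + 1 = d)
    (v : EE N) (hv : v ∈ S.Es x) : 16 ^ n * ‖S.An n x v‖ ≤ ‖v‖ := by
  induction n generalizing x v with
  | zero =>
    rw [pow_zero, one_mul]
    change ‖S.P x v‖ ≤ ‖v‖
    rw [hv.1]
  | succ n ih =>
    rw [Coc.An_succ, ContinuousLinearMap.comp_apply, pow_succ, mul_comm (16 ^ n) (16 : ℝ),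
      mul_assoc]
    have h3 := ih (S.f x) ((S.R_inv x).2 hx) (by rw [S.toCoc.finrank_Es_f, h1]) (by rw [S.toCoc.finrank_Eu_f, h2])
      (S.A x v) ((S.toCoc.Es_map (S.toCoc.Es_le x hv)).2 hv)
    have h4 := S.con_s x hx h1 h2 v hv
    linarith

theorem con_u_pow (n : ℕ) (x : K) (hx : x ∈ S.R) (h1 : finrank ℝ (S.Es x) = 1) (h2 : finrank ℝ (S.Eu x) + 1 = d)
    (v : EE N) (hv : v ∈ S.Eu x) : 16 ^ n * ‖S.symm.An n x v‖ ≤ ‖v‖ := by
  induction n generalizing x v with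
  | zero =>
    rw [pow_zero, one_mul]
    have h1 : S.P x v = v := hv.1
    change ‖S.P x v‖ ≤ ‖v‖
    rw [h1]
  | succ n ih =>
    rw [Coc.An_succ, ContinuousLinearMap.comp_apply, pow_succ, mul_comm (16 ^ n) (16 : ℝ),
      mul_assoc]
    have h3 := ih (S.f.symm x) ((S.symm_mem_R x).2 hx) ((S.finrank_Es_bk 1 x).trans h1)
      ((congrArg (· + 1) (S.finrank_Eu_bk 1 x)).trans h2)
      (S.symm.A x v) ((S.toCoc.symm.Es_map (S.toCoc.Eu_le x hv)).2 hv)
    have h4 : 16 * ‖S.symm.A x v‖ ≤ ‖v‖ := S.con_u x hx h1 h2 v hv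
    have h5 : 16 ^ n * ‖S.symm.An n (S.symm.f x) (S.symm.A x v)‖ ≤ ‖S.symm.A x v‖ := h3
    linarith

omit [CompactSpace K] in
theorem cluster_fpow {F : K ≃ₜ K} {k : ℕ} (hk : 0 < k) {x y : K}
    (h : MapClusterPt y atTop (fun n : ℕ => fw (Coc.fpow F k) n x)) :
    MapClusterPt y atTop (fun n : ℕ => fw F n x) := by
  have h2 : Tendsto (fun n : ℕ => n * k) atTop atTop := tendsto_id.atTop_mul_const' hk
  refine MapClusterPt.of_comp h2 ?_
  have e : (fun n : ℕ => fw F n x) ∘ (fun n : ℕ => n * k) =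
      fun n : ℕ => fw (Coc.fpow F k) n x := by
    funext n
    exact (Coc.fw_fpow F k n x).symm
  rw [e]
  exact h

omit [CompactSpace K] in
theorem cluster_fpow_bk {F : K ≃ₜ K} {k : ℕ} (hk : 0 < k) {x y : K}
    (h : MapClusterPt y atTop (fun n : ℕ => bk (Coc.fpow F k) n x)) :
    MapClusterPt y atTop (fun n : ℕ => bk F n x) := by
  have h2 : Tendsto (fun n : ℕ => n * k) atTop atTop := tendsto_id.atTop_mul_const' hk
  refine MapClusterPt.of_comp h2 ?_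
  have e : (fun n : ℕ => bk F n x) ∘ (fun n : ℕ => n * k) =
      fun n : ℕ => bk (Coc.fpow F k) n x := by
    funext n
    exact (Coc.bk_fpow F k n x).symm
  rw [e]
  exact h

omit [CompactSpace K] in
theorem fw_mul_eq {F : K ≃ₜ K} {m : ℕ} {q : K} (h : fw F m q = q) (j : ℕ) :
    fw F (j * m) q = q := by
  induction j with
  | zero => rw [zero_mul]; rfl
  | succ j ih => rw [add_mul, one_mul, fw_add, h, ih]

theorem le_pow16 {k : ℕ} (hk : 0 < k) : (16 : ℝ) ≤ 16 ^ k := by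
  calc (16 : ℝ) = 16 ^ 1 := (pow_one _).symm
    _ ≤ 16 ^ k := pow_le_pow_right₀ (by norm_num) hk

/-- the power of a good system -/
noncomputable def gpow (k : ℕ) (hk : 0 < k) : GSys d N K where
  toESys := S.toESys.epow k
  R := S.R
  R_closed := S.R_closed
  R_inv := fun x => S.fw_mem_R k x
  Om := S.Om
  Om_R := S.Om_R
  Om_closed := S.Om_closed
  Om_inv := fun x => S.fw_mem_Om k x
  Om_fw := fun x y h => S.Om_fw x y (cluster_fpow hk h)
  Om_bk := fun x y h => S.Om_bk x y (cluster_fpow_bk hk h)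
  Om_per := fun y hy ε hε => by
    obtain ⟨q, hq, m, hm, hm2⟩ := S.Om_per y hy ε hε
    refine ⟨q, hq, m, hm, ?_⟩
    change fw (Coc.fpow S.f k) m q = q
    rw [Coc.fw_fpow, mul_comm]
    exact fw_mul_eq hm2 k
  Om_dim := fun x hx => by
    change finrank ℝ ((S.toCoc.cpow k).Es x) + finrank ℝ ((S.toCoc.cpow k).Eu x) = d
    rw [Coc.cpow_Es _ hk, Coc.cpow_Eu _ hk]
    exact S.Om_dim x hx
  trans := fun x hx => by
    change S.T x ≤ (S.toCoc.cpow k).Es x ⊔ (S.toCoc.cpow k).Eu x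
    rw [Coc.cpow_Es _ hk, Coc.cpow_Eu _ hk]
    exact S.trans x hx
  dim_fw := fun x y h => by
    change finrank ℝ ((S.toCoc.cpow k).Es x) = finrank ℝ ((S.toCoc.cpow k).Es y)
    rw [Coc.cpow_Es _ hk, Coc.cpow_Es _ hk]
    exact S.dim_fw x y (cluster_fpow hk h)
  dim_bk := fun x y h => by
    change finrank ℝ ((S.toCoc.cpow k).Eu x) = finrank ℝ ((S.toCoc.cpow k).Eu y)
    rw [Coc.cpow_Eu _ hk, Coc.cpow_Eu _ hk]
    exact S.dim_bk x y (cluster_fpow_bk hk h)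
  closed_s := by
    have e : {q : K × EE N | q.1 ∈ S.R ∧ q.2 ∈ (S.toCoc.cpow k).T q.1 ∧
        ∀ v ∈ (S.toCoc.cpow k).Es q.1, inner ℝ q.2 v = 0} =
        {q : K × EE N | q.1 ∈ S.R ∧ q.2 ∈ S.T q.1 ∧ ∀ v ∈ S.Es q.1, inner ℝ q.2 v = 0} := by
      ext q
      rw [mem_ofPred_eq, mem_ofPred_eq, Coc.cpow_Es _ hk]
      rfl
    change IsClosed {q : K × EE N | q.1 ∈ S.R ∧ q.2 ∈ (S.toCoc.cpow k).T q.1 ∧
        ∀ v ∈ (S.toCoc.cpow k).Es q.1, inner ℝ q.2 v = 0}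
    rw [e]
    exact S.closed_s
  closed_u := by
    have e : {q : K × EE N | q.1 ∈ S.R ∧ q.2 ∈ (S.toCoc.cpow k).T q.1 ∧
        ∀ v ∈ (S.toCoc.cpow k).Eu q.1, inner ℝ q.2 v = 0} =
        {q : K × EE N | q.1 ∈ S.R ∧ q.2 ∈ S.T q.1 ∧ ∀ v ∈ S.Eu q.1, inner ℝ q.2 v = 0} := by
      ext q
      rw [mem_ofPred_eq, mem_ofPred_eq, Coc.cpow_Eu _ hk]
      rfl
    change IsClosed {q : K × EE N | q.1 ∈ S.R ∧ q.2 ∈ (S.toCoc.cpow k).T q.1 ∧
        ∀ v ∈ (S.toCoc.cpow k).Eu q.1, inner ℝ q.2 v = 0}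
    rw [e]
    exact S.closed_u
  exp_s := fun x hx v hv => by
    change 16 * infDist v ((S.toCoc.cpow k).Es x) ≤
      infDist (S.An k x v) ((S.toCoc.cpow k).Es (fw S.f k x))
    rw [Coc.cpow_Es _ hk, Coc.cpow_Es _ hk]
    refine le_trans ?_ (S.exp_s_pow k x hx v hv)
    exact mul_le_mul_of_nonneg_right (le_pow16 hk) infDist_nonneg
  exp_u := fun x hx v hv => by
    change 16 * infDist v ((S.toCoc.cpow k).Eu x) ≤
      infDist ((S.toCoc.cpow k).symm.A x v) ((S.toCoc.cpow k).Eu (bk S.f k x))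
    rw [Coc.cpow_Eu _ hk, Coc.cpow_Eu _ hk, Coc.cpow_symm_A]
    refine le_trans ?_ (S.exp_u_pow k x hx v hv)
    exact mul_le_mul_of_nonneg_right (le_pow16 hk) infDist_nonneg
  con_s := fun x hx h1 h2 v hv => by
    change finrank ℝ ((S.toCoc.cpow k).Es x) = 1 at h1
    change finrank ℝ ((S.toCoc.cpow k).Eu x) + 1 = d at h2
    change v ∈ (S.toCoc.cpow k).Es x at hv
    rw [Coc.cpow_Es _ hk] at h1 hv
    rw [Coc.cpow_Eu _ hk] at h2
    change 16 * ‖S.An k x v‖ ≤ ‖v‖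
    refine le_trans ?_ (S.con_s_pow k x hx h1 h2 v hv)
    exact mul_le_mul_of_nonneg_right (le_pow16 hk) (norm_nonneg _)
  con_u := fun x hx h1 h2 v hv => by
    change finrank ℝ ((S.toCoc.cpow k).Es x) = 1 at h1
    change finrank ℝ ((S.toCoc.cpow k).Eu x) + 1 = d at h2
    change v ∈ (S.toCoc.cpow k).Eu x at hv
    rw [Coc.cpow_Es _ hk] at h1
    rw [Coc.cpow_Eu _ hk] at h2 hv
    change 16 * ‖(S.toCoc.cpow k).symm.A x v‖ ≤ ‖v‖
    rw [Coc.cpow_symm_A]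
    refine le_trans ?_ (S.con_u_pow k x hx h1 h2 v hv)
    exact mul_le_mul_of_nonneg_right (le_pow16 hk) (norm_nonneg _)

theorem exists_pow (k : ℕ) (hk : 0 < k) : ∃ S' : GSys d N K, (∀ x, S'.f x = fw S.f k x) ∧
    S'.e = S.e ∧ S'.P = S.P ∧ (∀ x, S'.A x = S.An k x) ∧ (∀ x, S'.Es x = S.Es x) ∧
      (∀ x, S'.Eu x = S.Eu x) ∧ S'.Om = S.Om ∧ S'.R = S.R :=
  ⟨S.gpow k hk, fun _ => rfl, rfl, rfl, fun _ => rfl, fun x => S.toCoc.cpow_Es hk x,
    fun x => S.toCoc.cpow_Eu hk x, rfl, rfl⟩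

end GSys

end Pool.MP85
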