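import Pool.Agent.Lib.MP_85e637_an.C01

/-!
# C08a0: powers of cocycles and of embedded systems (first part of C08a)
-/

open Filter Topology Set Metric Module

namespace Pool.MP85

namespace Coc
variable {N : ℕ} {K : Type} [MetricSpace K] (C : Coc N K)

/-- the power of a homeomorphism -/
def fpow {Z : Type} [MetricSpace Z] (F : Z ≃ₜ Z) (k : ℕ) : Z ≃ₜ Z where
  toFun := fw F k
  invFun := bk F k
  left_inv := fun _ => bk_fw k
  right_inv := fun _ => fw_bk k
  continuous_toFun := continuous_fw k
  continuous_invFun := continuous_bk k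

theorem fpow_apply {Z : Type} [MetricSpace Z] (F : Z ≃ₜ Z) (k : ℕ) (x : Z) :
    fpow F k x = fw F k x := rfl

theorem fpow_symm_apply {Z : Type} [MetricSpace Z] (F : Z ≃ₜ Z) (k : ℕ) (x : Z) :
    (fpow F k).symm x = bk F k x := rfl

theorem fw_fpow {Z : Type} [MetricSpace Z] (F : Z ≃ₜ Z) (k n : ℕ) (x : Z) :
    fw (fpow F k) n x = fw F (n * k) x := by
  induction n generalizing x with
  | zero => simp [fw_zero]
  | succ n ih => rw [fw_succ, ih, fpow_apply, add_mul, one_mul, fw_add]

theorem bk_fpow {Z : Type} [MetricSpace Z] (F : Z ≃ₜ Z) (k n : ℕ) (x : Z) :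
    bk (fpow F k) n x = bk F (n * k) x := by
  induction n generalizing x with
  | zero => simp [bk_zero]
  | succ n ih => rw [bk_succ, ih, fpow_symm_apply, add_mul, one_mul, bk_add]

/-- the power of a cocycle -/
noncomputable def cpow (k : ℕ) : Coc N K where
  f := fpow C.f k
  P := C.P
  A := C.An k
  A' := fun x => C.symm.An k (fw C.f k x)
  contP := C.contP
  contA := C.continuous_An k
  contA' := (C.symm.continuous_An k).comp (continuous_fw k)
  PP := C.PP
  Psa := C.Psa
  AP := fun x => C.An_P k x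
  PA := fun x => by
    refine ContinuousLinearMap.ext fun v => ?_
    rw [ContinuousLinearMap.comp_apply]
    exact C.mem_T.1 (C.An_mem k x v)
  A'P := fun x => C.symm.An_P k (fw C.f k x)
  PA' := fun x => by
    refine ContinuousLinearMap.ext fun v => ?_
    rw [ContinuousLinearMap.comp_apply]
    have h := C.symm.mem_T.1 (C.symm.An_mem k (fw C.f k x) v)
    rw [fw_symm, bk_fw] at h
    exact h
  A'A := fun x => by
    refine ContinuousLinearMap.ext fun v => ?_
    rw [ContinuousLinearMap.comp_apply]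
    have h := C.symm_An_An k (C.P_mem x v)
    have h2 := DFunLike.congr_fun (C.An_P k x) v
    rw [ContinuousLinearMap.comp_apply] at h2
    rw [h2] at h
    exact h
  AA' := fun x => by
    refine ContinuousLinearMap.ext fun v => ?_
    rw [ContinuousLinearMap.comp_apply]
    have h := C.An_symm_An k (C.P_mem (fw C.f k x) v)
    have h2 := DFunLike.congr_fun (C.symm.An_P k (fw C.f k x)) v
    rw [ContinuousLinearMap.comp_apply] at h2
    change (C.symm.An k (fw C.f k x)) (C.P (fw C.f k x) v) = _ at h2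
    rw [h2, bk_fw] at h
    exact h

theorem cpow_An (k n : ℕ) (x : K) : (C.cpow k).An n x = C.An (n * k) x := by
  induction n generalizing x with
  | zero => rw [zero_mul]; rfl
  | succ n ih =>
    rw [An_succ, ih, add_mul, one_mul, C.An_add]
    rfl

theorem cpow_symm_A (k : ℕ) (x : K) : (C.cpow k).symm.A x = C.symm.An k x := by
  change C.symm.An k (fw C.f k (bk C.f k x)) = _
  rw [fw_bk]

theorem cpow_symm_An (k n : ℕ) (x : K) : (C.cpow k).symm.An n x = C.symm.An (n * k) x := by
  induction n generalizing x with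
  | zero => rw [zero_mul]; rfl
  | succ n ih =>
    rw [An_succ, ih, add_mul, one_mul, C.symm.An_add, cpow_symm_A]
    rfl

theorem tendsto_An_pow [CompactSpace K] {k : ℕ} (hk : 0 < k) (x : K) (v : EE N) :
    Tendsto (fun n => ‖C.An (n * k) x v‖) atTop (𝓝 0) ↔
      Tendsto (fun n => ‖C.An n x v‖) atTop (𝓝 0) := by
  constructor
  · intro h
    obtain ⟨c, hc1, hc⟩ := C.An_bound
    have h1 : Tendsto (fun m : ℕ => c ^ k * ‖C.An (m / k * k) x v‖) atTop (𝓝 0) := by
      have h2 : Tendsto (fun m : ℕ => m / k) atTop atTop := Nat.tendsto_div_const_atTop hk.ne'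
      simpa using (h.comp h2).const_mul (c ^ k)
    refine squeeze_zero (fun n => norm_nonneg _) (fun m => ?_) h1
    have h3 : m = m % k + m / k * k := by
      have := Nat.mod_add_div m k
      rw [mul_comm] at this
      exact this.symm
    have h4 : ‖C.An m x v‖ ≤ ‖C.An (m % k) (fw C.f (m / k * k) x)‖ * ‖C.An (m / k * k) x v‖ := by
      conv_lhs => rw [h3, C.An_add, ContinuousLinearMap.comp_apply]
      exact ContinuousLinearMap.le_opNorm _ _
    refine h4.trans (mul_le_mul_of_nonneg_right ?_ (norm_nonneg _))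
    exact (hc _ _).trans (pow_le_pow_right₀ hc1 (Nat.mod_lt m hk).le)
  · intro h
    have h2 : Tendsto (fun n : ℕ => n * k) atTop atTop :=
      tendsto_id.atTop_mul_const' hk
    exact h.comp h2

theorem cpow_Es [CompactSpace K] {k : ℕ} (hk : 0 < k) (x : K) : (C.cpow k).Es x = C.Es x := by
  ext v
  have h : (fun n => ‖(C.cpow k).An n x v‖) = fun n => ‖C.An (n * k) x v‖ := by
    funext n
    rw [cpow_An]
  constructor
  · rintro ⟨h1, h2⟩
    rw [h] at h2
    exact ⟨h1, (C.tendsto_An_pow hk x v).1 h2⟩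
  · rintro ⟨h1, h2⟩
    refine ⟨h1, ?_⟩
    rw [h]
    exact (C.tendsto_An_pow hk x v).2 h2

theorem cpow_Eu [CompactSpace K] {k : ℕ} (hk : 0 < k) (x : K) : (C.cpow k).Eu x = C.Eu x := by
  ext v
  have h : (fun n => ‖(C.cpow k).symm.An n x v‖) = fun n => ‖C.symm.An (n * k) x v‖ := by
    funext n
    rw [cpow_symm_An]
  constructor
  · rintro ⟨h1, h2⟩
    rw [h] at h2
    exact ⟨h1, (C.symm.tendsto_An_pow hk x v).1 h2⟩
  · rintro ⟨h1, h2⟩
    refine ⟨h1, ?_⟩
    rw [h]
    exact (C.symm.tendsto_An_pow hk x v).2 h2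

end Coc

namespace ESys
variable {d N : ℕ} {K : Type} [MetricSpace K] [CompactSpace K] (S : ESys d N K)

/-- differentiability of the iterates -/
theorem diff_pow (k : ℕ) : ∀ η > 0, ∃ ρ > 0, ∀ x y y', dist x y < ρ → dist x y' < ρ →
    ‖(S.e (fw S.f k y) - S.e (fw S.f k y')) - S.An k x (S.e y - S.e y')‖ ≤ η * dist y y' := by
  obtain ⟨c, hc1, hc⟩ := S.toCoc.An_bound
  have hc0 : 0 < c := lt_of_lt_of_le one_pos hc1
  induction k with
  | zero =>
    intro η hη
    exact S.flat η hη
  | succ k ih =>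
    intro η hη
    have hck : 0 < c ^ k := pow_pos hc0 k
    obtain ⟨ρ1, hρ1, h1⟩ := ih (η / (2 * (c + 1))) (by positivity)
    obtain ⟨ρ2, hρ2, h2⟩ := S.diff (min 1 (η / (2 * c ^ k))) (lt_min one_pos (by positivity))
    have huc : UniformContinuous S.f :=
      CompactSpace.uniformContinuous_of_continuous S.f.continuous
    obtain ⟨δ, hδ, h3⟩ := Metric.uniformContinuous_iff.1 huc ρ1 hρ1
    refine ⟨min ρ2 δ, lt_min hρ2 hδ, ?_⟩
    intro x y y' hy hy'
    have h4 := h2 x y y' (hy.trans_le (min_le_left _ _)) (hy'.trans_le (min_le_left _ _))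
    have h5 := h1 (S.f x) (S.f y) (S.f y') (h3 (hy.trans_le (min_le_right _ _)))
      (h3 (hy'.trans_le (min_le_right _ _)))
    have hd : 0 ≤ dist y y' := dist_nonneg
    have h6 : dist (S.f y) (S.f y') ≤ (c + 1) * dist y y' := by
      rw [← S.e_isom]
      have e1 : S.e (S.f y) - S.e (S.f y') = (S.e (S.f y) - S.e (S.f y') -
          S.A x (S.e y - S.e y')) + S.A x (S.e y - S.e y') := by abel
      rw [e1]
      refine (norm_add_le _ _).trans ?_
      have e2 : ‖S.A x (S.e y - S.e y')‖ ≤ c * dist y y' := by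
        refine (ContinuousLinearMap.le_opNorm _ _).trans ?_
        rw [S.e_isom]
        refine mul_le_mul_of_nonneg_right ?_ hd
        have := hc 1 x
        rwa [S.toCoc.An_one, pow_one] at this
      have e3 : min 1 (η / (2 * c ^ k)) * dist y y' ≤ 1 * dist y y' :=
        mul_le_mul_of_nonneg_right (min_le_left _ _) hd
      linarith
    have e1 : (S.e (fw S.f (k + 1) y) - S.e (fw S.f (k + 1) y')) - S.An (k + 1) x (S.e y - S.e y')
        = ((S.e (fw S.f k (S.f y)) - S.e (fw S.f k (S.f y'))) -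
          S.An k (S.f x) (S.e (S.f y) - S.e (S.f y'))) +
          S.An k (S.f x) (S.e (S.f y) - S.e (S.f y') - S.A x (S.e y - S.e y')) := by
      rw [fw_succ, fw_succ, Coc.An_succ, ContinuousLinearMap.comp_apply, map_sub (S.An k (S.f x))
        (S.e (S.f y) - S.e (S.f y'))]
      abel
    rw [e1]
    refine (norm_add_le _ _).trans ?_
    have e2 : ‖S.An k (S.f x) (S.e (S.f y) - S.e (S.f y') - S.A x (S.e y - S.e y'))‖ ≤
        c ^ k * (η / (2 * c ^ k) * dist y y') := by
      refine (ContinuousLinearMap.le_opNorm _ _).trans ?_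
      refine mul_le_mul (hc _ _) (h4.trans ?_) (norm_nonneg _) hck.le
      exact mul_le_mul_of_nonneg_right (min_le_right _ _) hd
    have e3 : c ^ k * (η / (2 * c ^ k) * dist y y') = η / 2 * dist y y' := by
      field_simp
    have e4 : η / (2 * (c + 1)) * dist (S.f y) (S.f y') ≤ η / 2 * dist y y' := by
      refine (mul_le_mul_of_nonneg_left h6 (by positivity)).trans (le_of_eq ?_)
      field_simp
    linarith

/-- the power of an embedded system -/
noncomputable def epow (k : ℕ) : ESys d N K where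
  toCoc := S.toCoc.cpow k
  e := S.e
  e_isom := S.e_isom
  rankP := S.rankP
  flat := S.flat
  surj := S.surj
  diff := S.diff_pow k

theorem exists_pow (k : ℕ) (hk : 0 < k) : ∃ S' : ESys d N K, (∀ x, S'.f x = fw S.f k x) ∧
    S'.e = S.e ∧ S'.P = S.P ∧ (∀ x, S'.A x = S.An k x) ∧ (∀ x, S'.Es x = S.Es x) ∧
      (∀ x, S'.Eu x = S.Eu x) :=
  ⟨S.epow k, fun _ => rfl, rfl, rfl, fun _ => rfl, fun x => S.toCoc.cpow_Es hk x,
    fun x => S.toCoc.cpow_Eu hk x⟩

end ESys

end Pool.MP85
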