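import Pool.Agent.Lib.MP_85e637_an.AbsC
import Pool.Agent.Lib.MP_85e637_an.C01
import Pool.Agent.Lib.MP_85e637_an.C02
import Pool.Agent.Lib.MP_85e637_an.C03
import Pool.Agent.Lib.MP_85e637_an.C05
import Pool.Agent.Lib.MP_85e637_an.C07
import Pool.Agent.Lib.MP_85e637_an.C08a

/-!
# Layer C, C08b: from Axiom A and strong transversality to good systems
-/

open Filter Topology Set Metric Module

namespace Pool.MP85

lemma C08b_infDist {K : Type} [MetricSpace K] [CompactSpace K] {Om : Set K} (u : ℕ → K)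
    (h : ∀ y, MapClusterPt y atTop u → y ∈ Om) :
    Tendsto (fun n => infDist (u n) Om) atTop (𝓝 0) := by
  refine tendsto_order.2 ⟨fun a ha => Eventually.of_forall fun n => ha.trans_le infDist_nonneg,
    fun ε hε => ?_⟩
  by_contra hcon
  have hcl : IsClosed {y : K | ε ≤ infDist y Om} :=
    isClosed_le continuous_const (continuous_infDist_pt Om)
  have hfr : ∃ᶠ n in atTop, u n ∈ {y : K | ε ≤ infDist y Om} := by
    rw [not_eventually] at hcon
    exact hcon.mono fun n hn => not_lt.1 hn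
  obtain ⟨y, hy, hyc⟩ := hcl.isCompact.exists_mapClusterPt_of_frequently hfr
  have h0 : infDist y Om = 0 := infDist_zero_of_mem (h y hyc)
  have : ε ≤ infDist y Om := hy
  linarith

lemma C08b_fw_bk {K : Type} [MetricSpace K] (f : K ≃ₜ K) (n : ℕ) (x : K) :
    fw f n (bk f n x) = x := by
  induction n with
  | zero => rfl
  | succ n ih => rw [fw_succ, bk_succ', f.apply_symm_apply, ih]

lemma C08b_bk_fw {K : Type} [MetricSpace K] (f : K ≃ₜ K) (n : ℕ) (x : K) :
    bk f n (fw f n x) = x := by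
  induction n with
  | zero => rfl
  | succ n ih => rw [bk_succ, fw_succ', f.symm_apply_apply, ih]

namespace Coc
variable {N : ℕ} {K : Type} [MetricSpace K] {C : Coc N K}

lemma C08b_Es_An {x : K} {v : EE N} (hv : v ∈ C.T x) (n : ℕ) :
    C.An n x v ∈ C.Es (fw C.f n x) ↔ v ∈ C.Es x := by
  induction n with
  | zero =>
    have h1 : C.An 0 x v = v := C.mem_T.1 hv
    rw [h1, fw_zero]
  | succ n ih =>
    rw [An_succ', fw_succ', ContinuousLinearMap.comp_apply, C.Es_map (C.An_mem n x v), ih]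

lemma C08b_finrank_Es (n : ℕ) (x : K) : finrank ℝ (C.Es (fw C.f n x)) = finrank ℝ (C.Es x) := by
  induction n with
  | zero => rfl
  | succ n ih => rw [fw_succ', C.finrank_Es_f, ih]

lemma C08b_surj {x : K} {w : EE N} (n : ℕ) (hw : w ∈ C.T (fw C.f n x)) :
    ∃ v ∈ C.T x, C.An n x v = w := by
  have h1 := C.An_symm_An n hw
  have h2 := C.symm.An_mem n (fw C.f n x) w
  have h3 : fw C.symm.f n (fw C.f n x) = x := C08b_bk_fw C.f n x
  rw [h3] at h2
  rw [C08b_bk_fw] at h1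
  exact ⟨_, h2, h1⟩

variable [CompactSpace K]

lemma C08b_finrank_Eu (n : ℕ) (x : K) : finrank ℝ (C.Eu (fw C.f n x)) = finrank ℝ (C.Eu x) := by
  induction n with
  | zero => rfl
  | succ n ih => rw [fw_succ', C.finrank_Eu_f, ih]

/-- the linear theory, symmetric in `C` and `C.symm` -/
structure C08b_Lin (C : Coc N K) (d : ℕ) : Prop where
  rank : ∀ x, finrank ℝ (C.T x) = d
  trans : ∀ x, C.T x ≤ C.Es x ⊔ C.Eu x
  annS : ∀ (x : K) (ξ : EE N),
    ξ ∈ C.dual.Fb x ↔ ξ ∈ C.T x ∧ ∀ v ∈ C.Es x, inner ℝ ξ v = 0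
  annU : ∀ (x : K) (ξ : EE N),
    ξ ∈ C.symm.dual.Fb x ↔ ξ ∈ C.T x ∧ ∀ v ∈ C.Eu x, inner ℝ ξ v = 0

variable {d : ℕ}

omit [CompactSpace K] in
lemma C08b_Eu_symm (x : K) : C.symm.Eu x = C.Es x := by
  unfold Eu
  rw [symm_symm]

omit [CompactSpace K] in
lemma C08b_Lin.symm (h : C08b_Lin C d) : C08b_Lin C.symm d where
  rank := h.rank
  trans x := by
    rw [C08b_Eu_symm, sup_comm]
    exact h.trans x
  annS := h.annU
  annU x ξ := by
    rw [symm_symm, C08b_Eu_symm]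
    exact h.annS x ξ

lemma C08b_Lin.exp (h : C08b_Lin C d) {ε : ℝ} (hε : 0 < ε) : ∃ n0, ∀ n ≥ n0, ∀ x, ∀ v ∈ C.T x,
    infDist v (C.Es x) ≤ ε * infDist (C.An n x v) (C.Es (fw C.f n x)) := by
  obtain ⟨c, lam, h0, h1, hdec⟩ := NoBdd.decay C.dual (noBdd_dual C h.trans)
  have hlim : Tendsto (fun n : ℕ => c * lam ^ n) atTop (𝓝 0) := by
    simpa using (tendsto_pow_atTop_nhds_zero_of_lt_one h0.le h1).const_mul c
  obtain ⟨n0, hn0⟩ := eventually_atTop.1 (hlim.eventually (gt_mem_nhds hε))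
  refine ⟨n0, fun n hn x v hv => ?_⟩
  set p := (C.Es x).starProjection v with hp
  have hpE : p ∈ C.Es x := Submodule.starProjection_apply_mem _ _
  have horth : ∀ w ∈ C.Es x, inner ℝ (v - p) w = 0 := fun w hw =>
    Submodule.starProjection_inner_eq_zero v w hw
  have hξT : v - p ∈ C.T x := Submodule.sub_mem _ hv (C.Es_le x hpE)
  have hξF : v - p ∈ C.dual.Fb x := (h.annS x _).2 ⟨hξT, horth⟩
  have hd : ‖C.dual.An n x (v - p)‖ ≤ ε * ‖v - p‖ :=
    (hdec x _ hξF n).trans (mul_le_mul_of_nonneg_right (hn0 n hn).le (norm_nonneg _))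
  have hle : infDist v (C.Es x) ≤ ‖v - p‖ := by
    rw [← dist_eq_norm]
    exact infDist_le_dist_of_mem hpE
  refine hle.trans ?_
  rw [← div_le_iff₀' hε]
  refine (le_infDist ⟨0, Submodule.zero_mem _⟩).2 fun w hw => ?_
  rw [div_le_iff₀' hε]
  obtain ⟨w', hw'T, hw'⟩ := C08b_surj n (C.Es_le _ hw)
  have hw'E : w' ∈ C.Es x := (C08b_Es_An hw'T n).1 (by rw [hw']; exact hw)
  have e1 : inner ℝ (C.dual.An n x (v - p)) (C.An n x v) = ‖v - p‖ ^ 2 := by
    rw [C.pairing n hv hξT]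
    have : v = (v - p) + p := by abel
    conv_lhs => rw [this]
    rw [inner_add_right, add_sub_cancel_right] 
    rw [horth p hpE, add_zero, real_inner_self_eq_norm_sq]
  have e2 : inner ℝ (C.dual.An n x (v - p)) w = 0 := by
    rw [← hw', C.pairing n hw'T hξT]
    exact horth w' hw'E
  have e3 : ‖v - p‖ ^ 2 ≤ ε * ‖v - p‖ * dist (C.An n x v) w := by
    rw [← e1]
    calc inner ℝ (C.dual.An n x (v - p)) (C.An n x v)
        = inner ℝ (C.dual.An n x (v - p)) (C.An n x v - w) := by rw [inner_sub_right, e2, sub_zero]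
      _ ≤ ‖C.dual.An n x (v - p)‖ * ‖C.An n x v - w‖ := real_inner_le_norm _ _
      _ ≤ ε * ‖v - p‖ * dist (C.An n x v) w := by
          rw [dist_eq_norm]
          exact mul_le_mul_of_nonneg_right hd (norm_nonneg _)
  rcases (norm_nonneg (v - p)).eq_or_lt with h2 | h2
  · rw [← h2]
    exact mul_nonneg hε.le dist_nonneg
  · nlinarith [e3]

lemma C08b_Lin.closed_s (h : C08b_Lin C d) :
    IsClosed {q : K × EE N | q.2 ∈ C.T q.1 ∧ ∀ v ∈ C.Es q.1, inner ℝ q.2 v = 0} := by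
  have h1 := NoBdd.closed C.dual (noBdd_dual C h.trans)
  convert h1 using 1
  ext q
  exact (h.annS q.1 q.2).symm

lemma C08b_Lin.closed_u (h : C08b_Lin C d) :
    IsClosed {q : K × EE N | q.2 ∈ C.T q.1 ∧ ∀ v ∈ C.Eu q.1, inner ℝ q.2 v = 0} :=
  h.symm.closed_s

omit [CompactSpace K] in
lemma C08b_closed_T : IsClosed {q : K × EE N | q.2 ∈ C.T q.1} := by
  have h1 : IsClosed {q : K × EE N | C.P q.1 q.2 = q.2} :=
    isClosed_eq ((C.contP.comp continuous_fst).clm_apply continuous_snd) continuous_snd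
  convert h1 using 1
  ext q
  exact C.mem_T

lemma C08b_Lin.angle (h : C08b_Lin C d) {a b : ℕ} (hab : a + b = d) : ∃ c > 0, ∀ x,
    finrank ℝ (C.Es x) = a → finrank ℝ (C.Eu x) = b → ∀ v ∈ C.Es x,
      c * ‖v‖ ≤ infDist v (C.Eu x) := by
  by_contra hcon
  push Not at hcon
  have key : ∀ n : ℕ, ∃ (x : K) (w u : EE N), finrank ℝ (C.Es x) = a ∧ finrank ℝ (C.Eu x) = b ∧
      w ∈ C.Es x ∧ ‖w‖ = 1 ∧ u ∈ C.Eu x ∧ ‖w - u‖ < 1 / ((n : ℝ) + 1) := by
    intro n
    obtain ⟨x, ha, hb, v, hv, hlt⟩ := hcon (1 / ((n : ℝ) + 1)) (by positivity)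
    have hv0 : 0 < ‖v‖ := by
      rcases (norm_nonneg v).eq_or_lt with h2 | h2
      · rw [← h2, mul_zero] at hlt
        exact absurd hlt (not_lt.2 infDist_nonneg)
      · exact h2
    obtain ⟨u, hu, hdu⟩ := (infDist_lt_iff ⟨0, Submodule.zero_mem (C.Eu x)⟩).1 hlt
    refine ⟨x, ‖v‖⁻¹ • v, ‖v‖⁻¹ • u, ha, hb, Submodule.smul_mem _ _ hv, ?_,
      Submodule.smul_mem _ _ hu, ?_⟩
    · rw [norm_smul, norm_inv, norm_norm, inv_mul_cancel₀ hv0.ne']
    · rw [← smul_sub, norm_smul, norm_inv, norm_norm, ← dist_eq_norm]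
      calc ‖v‖⁻¹ * dist v u < ‖v‖⁻¹ * (1 / ((n : ℝ) + 1) * ‖v‖) :=
            mul_lt_mul_of_pos_left hdu (inv_pos.2 hv0)
        _ = 1 / ((n : ℝ) + 1) := by field_simp
  choose x w u hxa hxb hw hw1 hu hwu using key
  obtain ⟨q, -, φ, hφ, hlim⟩ := ((isCompact_univ (X := K)).prod
    (isCompact_closedBall (0 : EE N) 1)).tendsto_subseq (x := fun n => (x n, w n))
    (fun n => ⟨mem_univ _, by rw [mem_closedBall_zero_iff]; exact (hw1 n).le⟩)
  obtain ⟨x0, w0⟩ := q
  have hx : Tendsto (fun n => x (φ n)) atTop (𝓝 x0) := (continuous_fst.tendsto _).comp hlim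
  have hw' : Tendsto (fun n => w (φ n)) atTop (𝓝 w0) := (continuous_snd.tendsto _).comp hlim
  have h0 : Tendsto (fun n => w (φ n) - u (φ n)) atTop (𝓝 0) := by
    rw [tendsto_zero_iff_norm_tendsto_zero]
    refine squeeze_zero (fun n => norm_nonneg _) (fun n => (hwu (φ n)).le) ?_
    exact (tendsto_one_div_add_atTop_nhds_zero_nat (𝕜 := ℝ)).comp hφ.tendsto_atTop
  have hu' : Tendsto (fun n => u (φ n)) atTop (𝓝 w0) := by
    have := hw'.sub h0
    simpa using this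
  have hsa : finrank ℝ (C.Es x0) ≤ a := by
    have := sub_annih_semicont C.Es_le h.closed_s h.rank a
    exact this.mem_of_tendsto hx (Eventually.of_forall fun n => (hxa (φ n)).le)
  have hsb : finrank ℝ (C.Eu x0) ≤ b := by
    have := sub_annih_semicont C.Eu_le h.closed_u h.rank b
    exact this.mem_of_tendsto hx (Eventually.of_forall fun n => (hxb (φ n)).le)
  have hsum := Submodule.finrank_sup_add_finrank_inf_eq (C.Es x0) (C.Eu x0)
  have hT : d ≤ finrank ℝ ↥(C.Es x0 ⊔ C.Eu x0) := by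
    rw [← h.rank x0]
    exact Submodule.finrank_mono (h.trans x0)
  have ha0 : finrank ℝ (C.Es x0) = a := by omega
  have hb0 : finrank ℝ (C.Eu x0) = b := by omega
  have hinf : finrank ℝ ↥(C.Es x0 ⊓ C.Eu x0) = 0 := by omega
  have m1 : w0 ∈ C.Es x0 := sub_annih C.Es_le C08b_closed_T h.closed_s h.rank hx
    (fun n => hxa (φ n)) ha0 (fun n => hw (φ n)) hw'
  have m2 : w0 ∈ C.Eu x0 := sub_annih C.Eu_le C08b_closed_T h.closed_u h.rank hx
    (fun n => hxb (φ n)) hb0 (fun n => hu (φ n)) hu'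
  have hbot : C.Es x0 ⊓ C.Eu x0 = ⊥ := Submodule.finrank_eq_zero.1 hinf
  have hw0 : w0 = 0 := by
    have : w0 ∈ C.Es x0 ⊓ C.Eu x0 := ⟨m1, m2⟩
    rw [hbot] at this
    exact (Submodule.mem_bot ℝ).1 this
  have hn : Tendsto (fun n => ‖w (φ n)‖) atTop (𝓝 ‖w0‖) := hw'.norm
  simp only [hw1] at hn
  have := tendsto_nhds_unique hn tendsto_const_nhds
  rw [hw0, norm_zero] at this
  norm_num at this

lemma C08b_Lin.con (h : C08b_Lin C d) {a b : ℕ} (hab : a + b = d) {ε : ℝ} (hε : 0 < ε) :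
    ∃ n0, ∀ n ≥ n0, ∀ x, finrank ℝ (C.Es x) = a → finrank ℝ (C.Eu x) = b → ∀ v ∈ C.Es x,
      ‖C.An n x v‖ ≤ ε * ‖v‖ := by
  obtain ⟨c, hc, hang⟩ := h.angle hab
  obtain ⟨n0, hn0⟩ := h.symm.exp (mul_pos hε hc)
  refine ⟨n0, fun n hn x ha hb v hv => ?_⟩
  have hvT : v ∈ C.T x := C.Es_le x hv
  have h1 := hn0 n hn (fw C.f n x) (C.An n x v) (C.An_mem n x v)
  have h2 : fw C.symm.f n (fw C.f n x) = x := C08b_bk_fw C.f n x
  rw [h2, C.symm_An_An n hvT] at h1
  have h3 := hang (fw C.f n x) (by rw [C08b_finrank_Es, ha]) (by rw [C08b_finrank_Eu, hb])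
    (C.An n x v) ((C08b_Es_An hvT n).2 hv)
  have h4 : infDist v (C.Eu x) ≤ ‖v‖ := by
    have := infDist_le_dist_of_mem (x := v) (Submodule.zero_mem (C.Eu x))
    rwa [dist_zero_right] at this
  have h5 : c * ‖C.An n x v‖ ≤ c * (ε * ‖v‖) := by
    calc c * ‖C.An n x v‖ ≤ infDist (C.An n x v) (C.Eu (fw C.f n x)) := h3
      _ ≤ ε * c * infDist v (C.Eu x) := h1
      _ ≤ ε * c * ‖v‖ := mul_le_mul_of_nonneg_left h4 (by positivity)
      _ = c * (ε * ‖v‖) := by ring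
  exact le_of_mul_le_mul_left h5 hc

end Coc

lemma C08b_fw_pow {K : Type} [MetricSpace K] {f f' : K ≃ₜ K} {k : ℕ}
    (hf : ∀ x, f' x = fw f k x) (n : ℕ) (x : K) : fw f' n x = fw f (k * n) x := by
  have h : (f' : K → K) = (f : K → K)^[k] := funext hf
  unfold fw
  rw [h, ← Function.iterate_mul]

lemma C08b_symm_pow {K : Type} [MetricSpace K] {f f' : K ≃ₜ K} {k : ℕ}
    (hf : ∀ x, f' x = fw f k x) (x : K) : f'.symm x = bk f k x := by
  rw [Homeomorph.symm_apply_eq, hf, C08b_fw_bk]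

lemma C08b_bk_pow {K : Type} [MetricSpace K] {f f' : K ≃ₜ K} {k : ℕ}
    (hf : ∀ x, f' x = fw f k x) (n : ℕ) (x : K) : bk f' n x = bk f (k * n) x := by
  have h : (f'.symm : K → K) = (f.symm : K → K)^[k] := funext (C08b_symm_pow hf)
  unfold bk
  rw [h, ← Function.iterate_mul]

lemma C08b_inv_iff {K : Type} [MetricSpace K] {f : K ≃ₜ K} {Om : Set K}
    (h : ∀ x, f x ∈ Om ↔ x ∈ Om) (n : ℕ) (x : K) : fw f n x ∈ Om ↔ x ∈ Om := by
  induction n with
  | zero => rfl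
  | succ n ih => rw [fw_succ', h, ih]

/-! ### Restriction of a cocycle to an invariant set -/

/-- restriction of a homeomorphism to an invariant set -/
def C08b_hom {K : Type} [MetricSpace K] (f : K ≃ₜ K) (R : Set K) (h : ∀ x, f x ∈ R ↔ x ∈ R) :
    ↥R ≃ₜ ↥R where
  toFun x := ⟨f x, (h x).2 x.2⟩
  invFun x := ⟨f.symm x, (h _).1 (by rw [f.apply_symm_apply]; exact x.2)⟩
  left_inv x := Subtype.ext (f.symm_apply_apply _)
  right_inv x := Subtype.ext (f.apply_symm_apply _)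
  continuous_toFun := (f.continuous.comp continuous_subtype_val).subtype_mk _
  continuous_invFun := (f.symm.continuous.comp continuous_subtype_val).subtype_mk _

namespace Coc
variable {N : ℕ} {K : Type} [MetricSpace K] (C : Coc N K) (R : Set K) (h : ∀ x, C.f x ∈ R ↔ x ∈ R)

/-- restriction of a cocycle to an invariant set -/
def restr : Coc N ↥R where
  f := C08b_hom C.f R h
  P := fun x => C.P x
  A := fun x => C.A x
  A' := fun x => C.A' x
  contP := C.contP.comp continuous_subtype_val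
  contA := C.contA.comp continuous_subtype_val
  contA' := C.contA'.comp continuous_subtype_val
  PP := fun x => C.PP x
  Psa := fun x => C.Psa x
  AP := fun x => C.AP x
  PA := fun x => C.PA x
  A'P := fun x => C.A'P x
  PA' := fun x => C.PA' x
  A'A := fun x => C.A'A x
  AA' := fun x => C.AA' x

lemma restr_fw (n : ℕ) (x : ↥R) : ((fw (C.restr R h).f n x : ↥R) : K) = fw C.f n x := by
  induction n with
  | zero => rfl
  | succ n ih =>
    rw [fw_succ', fw_succ', ← ih]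
    rfl

lemma restr_An (n : ℕ) (x : ↥R) : (C.restr R h).An n x = C.An n x := by
  induction n generalizing x with
  | zero => rfl
  | succ n ih => rw [An_succ, An_succ, ih]; rfl

lemma restr_Es (x : ↥R) : (C.restr R h).Es x = C.Es x := by
  ext v
  change (_ ∧ _) ↔ (_ ∧ _)
  simp only [restr_An]
  rfl

lemma restr_Fb (x : ↥R) : (C.restr R h).Fb x = C.Fb x := by
  ext v
  change (_ ∧ _) ↔ (_ ∧ _)
  simp only [restr_An]
  rfl

include h in
lemma restr_symm_inv (x : K) : C.symm.f x ∈ R ↔ x ∈ R := by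
  rw [← h (C.symm.f x)]
  change C.f (C.f.symm x) ∈ R ↔ x ∈ R
  rw [C.f.apply_symm_apply]

lemma restr_symm : (C.restr R h).symm = C.symm.restr R (C.restr_symm_inv R h) := rfl

lemma restr_dual : (C.restr R h).dual = C.dual.restr R h := rfl

lemma restr_Eu (x : ↥R) : (C.restr R h).Eu x = C.Eu x := C.symm.restr_Es R (C.restr_symm_inv R h) x

end Coc

/-- closed sets over a closed subset -/
lemma C08b_closed_restr {N : ℕ} {K : Type} [MetricSpace K] {R : Set K} (hR : IsClosed R)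
    {Q : K → EE N → Prop} (h : IsClosed {q : ↥R × EE N | Q q.1 q.2}) :
    IsClosed {q : K × EE N | q.1 ∈ R ∧ Q q.1 q.2} := by
  have h1 : IsClosedEmbedding (Prod.map (Subtype.val : ↥R → K) (id : EE N → EE N)) :=
    hR.isClosedEmbedding_subtypeVal.prodMap IsClosedEmbedding.id
  have h2 := h1.isClosedMap _ h
  convert h2 using 1
  ext ⟨x, v⟩
  constructor
  · rintro ⟨hx, hq⟩
    exact ⟨(⟨x, hx⟩, v), hq, rfl⟩
  · rintro ⟨⟨y, w⟩, hq, he⟩
    have e1 : (y : K) = x := congrArg Prod.fst he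
    have e2 : w = v := congrArg Prod.snd he
    subst e1
    subst e2
    exact ⟨y.2, hq⟩

theorem BSys.exists_gsys {d N : ℕ} {K : Type} [MetricSpace K] [CompactSpace K] (S : BSys d N K)
    {R : Set K} (hR : IsClosed R) (hRi : ∀ x, S.f x ∈ R ↔ x ∈ R) (hOR : S.Om ⊆ R)
    (htr : ∀ x ∈ R, S.T x ≤ S.Es x ⊔ S.Eu x) : ∃ k > 0, ∃ S' : GSys d N K, (∀ x, S'.f x = fw S.f k x) ∧ S'.e = S.e ∧
      S'.P = S.P ∧ (∀ x, S'.A x = S.An k x) ∧ (∀ x, S'.Es x = S.Es x) ∧
      (∀ x, S'.Eu x = S.Eu x) ∧ S'.Om = S.Om ∧ S'.R = R := by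
  haveI : CompactSpace ↥R := isCompact_iff_compactSpace.1 hR.isCompact
  have hyp : S.HypOn S.Om := ⟨S.Om_closed, S.Om_inv, S.hyp, S.split⟩
  have hfw : ∀ x, Tendsto (fun n => infDist (fw S.f n x) S.Om) atTop (𝓝 0) := fun x =>
    C08b_infDist _ (S.Om_fw x)
  have hbk : ∀ x, Tendsto (fun n => infDist (bk S.f n x) S.Om) atTop (𝓝 0) := fun x =>
    C08b_infDist _ (S.Om_bk x)
  have hexf : ∀ x, ∃ y, MapClusterPt y atTop (fun n : ℕ => fw S.f n x) := fun x => by
    obtain ⟨y, -, hy⟩ := isCompact_univ.exists_mapClusterPt (f := (atTop : Filter ℕ))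
      (u := fun n : ℕ => fw S.f n x) (by simp)
    exact ⟨y, hy⟩
  have hexb : ∀ x, ∃ y, MapClusterPt y atTop (fun n : ℕ => bk S.f n x) := fun x => by
    obtain ⟨y, -, hy⟩ := isCompact_univ.exists_mapClusterPt (f := (atTop : Filter ℕ))
      (u := fun n : ℕ => bk S.f n x) (by simp)
    exact ⟨y, hy⟩
  have hL : Coc.C08b_Lin (S.toCoc.restr R hRi) d := by
    refine ⟨fun x => S.rankP x, fun x => ?_, fun x => ?_, fun x => ?_⟩
    · rw [Coc.restr_Es, Coc.restr_Eu]
      exact htr x x.2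
    · obtain ⟨y, hy⟩ := hexf x
      rw [Coc.restr_dual, Coc.restr_Fb, Coc.restr_Es]
      exact (hyp.dim_eq (hyO := S.Om_fw x y hy) S.rankP (hfw x) hy).2
    · obtain ⟨y, hy⟩ := hexb x
      rw [Coc.restr_symm, Coc.restr_dual, Coc.restr_Fb, Coc.restr_Eu]
      exact (hyp.symm.dim_eq (C := S.symm) (hyO := S.Om_bk x y hy) S.rankP (hbk x) hy).2
  obtain ⟨n1, h1'⟩ := hL.exp (ε := 1 / 16) (by norm_num)
  have h1 : ∀ n ≥ n1, ∀ x ∈ R, ∀ v ∈ S.T x,
      infDist v (S.Es x) ≤ 1 / 16 * infDist (S.An n x v) (S.Es (fw S.f n x)) := by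
    intro n hn x hx v hv
    have := h1' n hn ⟨x, hx⟩ v hv
    rwa [Coc.restr_Es, Coc.restr_Es, Coc.restr_An, Coc.restr_fw] at this
  obtain ⟨n2, h2'⟩ := hL.symm.exp (ε := 1 / 16) (by norm_num)
  have h2 : ∀ n ≥ n2, ∀ x ∈ R, ∀ v ∈ S.T x,
      infDist v (S.symm.Es x) ≤ 1 / 16 * infDist (S.symm.An n x v)
        (S.symm.Es (fw S.symm.f n x)) := by
    intro n hn x hx v hv
    have := h2' n hn ⟨x, hx⟩ v hv
    rwa [Coc.restr_symm, Coc.restr_Es, Coc.restr_Es, Coc.restr_An, Coc.restr_fw] at this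
  have hc1 : ∃ n0, ∀ n ≥ n0, ∀ x ∈ R, finrank ℝ (S.Es x) = 1 → finrank ℝ (S.Eu x) + 1 = d →
      ∀ v ∈ S.Es x, ‖S.An n x v‖ ≤ 1 / 16 * ‖v‖ := by
    rcases Nat.eq_zero_or_pos d with hd | hd
    · exact ⟨0, fun n _ x _ _ h => by omega⟩
    · obtain ⟨n0, hn0⟩ := hL.con (a := 1) (b := d - 1) (by omega) (ε := 1 / 16) (by norm_num)
      refine ⟨n0, fun n hn x hxR hx h v hv => ?_⟩
      have := hn0 n hn ⟨x, hxR⟩ (by rw [Coc.restr_Es]; exact hx)
        (by rw [Coc.restr_Eu]; change finrank ℝ (S.Eu x) = d - 1; omega) v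
        (by rw [Coc.restr_Es]; exact hv)
      rwa [Coc.restr_An] at this
  have hc2 : ∃ n0, ∀ n ≥ n0, ∀ x ∈ R, finrank ℝ (S.Es x) = 1 → finrank ℝ (S.Eu x) + 1 = d →
      ∀ v ∈ S.Eu x, ‖S.symm.An n x v‖ ≤ 1 / 16 * ‖v‖ := by
    rcases Nat.eq_zero_or_pos d with hd | hd
    · exact ⟨0, fun n _ x _ _ h => by omega⟩
    · obtain ⟨n0, hn0⟩ := hL.symm.con (a := d - 1) (b := 1) (by omega) (ε := 1 / 16)
        (by norm_num)
      refine ⟨n0, fun n hn x hxR hx h v hv => ?_⟩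
      have := hn0 n hn ⟨x, hxR⟩
        (by rw [Coc.restr_symm, Coc.restr_Es]; change finrank ℝ (S.Eu x) = d - 1; omega)
        (by rw [Coc.C08b_Eu_symm, Coc.restr_Es]; exact hx) v
        (by rw [Coc.restr_symm, Coc.restr_Es]; exact hv)
      rwa [Coc.restr_symm, Coc.restr_An] at this
  obtain ⟨n3, h3⟩ := hc1
  obtain ⟨n4, h4⟩ := hc2
  obtain ⟨k, hk0, hk1, hk2, hk3, hk4⟩ : ∃ k, 0 < k ∧ n1 ≤ k ∧ n2 ≤ k ∧ n3 ≤ k ∧ n4 ≤ k :=
    ⟨n1 + n2 + n3 + n4 + 1, by omega, by omega, by omega, by omega, by omega⟩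
  obtain ⟨S', hf, he, hP, hA, hEs, hEu⟩ := S.toESys.exists_pow k hk0
  have hT : ∀ x, S'.T x = S.T x := fun x => by
    unfold Coc.T
    rw [hP]
  have hsymm : ∀ x, S'.f.symm x = bk S.f k x := C08b_symm_pow hf
  have hA' : ∀ x, ∀ v ∈ S.T x, S'.A' (S'.f.symm x) v = S.symm.An k x v := by
    intro x v hv
    have e1 : S.An k (bk S.f k x) (S.symm.An k x v) = v := S.An_symm_An k hv
    have e2 : S.symm.An k x v ∈ S.T (bk S.f k x) := S.symm.An_mem k x v
    rw [hsymm]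
    conv_lhs => rw [← e1, ← hA]
    rw [← ContinuousLinearMap.comp_apply, S'.A'A, hP]
    exact S.mem_T.1 e2
  have hcl_fw : ∀ x y, MapClusterPt y atTop (fun n : ℕ => fw S'.f n x) →
      MapClusterPt y atTop (fun n : ℕ => fw S.f n x) := by
    intro x y h
    have h' : MapClusterPt y atTop ((fun n : ℕ => fw S.f n x) ∘ fun n => k * n) := by
      convert h using 1
      funext n
      exact (C08b_fw_pow hf n x).symm
    exact MapClusterPt.of_comp (tendsto_id.const_mul_atTop' hk0) h'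
  have hcl_bk : ∀ x y, MapClusterPt y atTop (fun n : ℕ => bk S'.f n x) →
      MapClusterPt y atTop (fun n : ℕ => bk S.f n x) := by
    intro x y h
    have h' : MapClusterPt y atTop ((fun n : ℕ => bk S.f n x) ∘ fun n => k * n) := by
      convert h using 1
      funext n
      exact (C08b_bk_pow hf n x).symm
    exact MapClusterPt.of_comp (tendsto_id.const_mul_atTop' hk0) h'
  refine ⟨k, hk0,
    { toESys := S'
      R := R
      R_closed := hR
      R_inv := fun x => by rw [hf]; exact C08b_inv_iff hRi k x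
      Om := S.Om
      Om_R := hOR
      Om_closed := S.Om_closed
      Om_inv := fun x => by rw [hf]; exact C08b_inv_iff S.Om_inv k x
      Om_fw := fun x y h => S.Om_fw x y (hcl_fw x y h)
      Om_bk := fun x y h => S.Om_bk x y (hcl_bk x y h)
      Om_per := ?_
      Om_dim := ?_
      trans := fun x hx => by rw [hT, hEs, hEu]; exact htr x hx
      dim_fw := ?_
      dim_bk := ?_
      closed_s := ?_
      closed_u := ?_
      exp_s := ?_
      exp_u := ?_
      con_s := ?_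
      con_u := ?_ }, hf, he, hP, hA, hEs, hEu, rfl, rfl⟩
  · intro y hy ε hε
    obtain ⟨q, hq, j, hj, hfix⟩ := S.Om_per y hy ε hε
    refine ⟨q, hq, j, hj, ?_⟩
    rw [C08b_fw_pow hf]
    have : Function.IsPeriodicPt (S.f : K → K) j q := hfix
    exact this.const_mul k
  · intro x hx
    rw [hEs, hEu]
    obtain ⟨hs, hd⟩ := S.split x hx
    have := Submodule.finrank_sup_add_finrank_inf_eq (S.Es x) (S.Eu x)
    rw [hs, hd.eq_bot, finrank_bot, S.rankP x] at this
    omega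
  · intro x y h
    rw [hEs, hEs]
    exact (hyp.dim_eq (hyO := S.Om_fw x y (hcl_fw x y h)) S.rankP (hfw x) (hcl_fw x y h)).1
  · intro x y h
    rw [hEu, hEu]
    exact (hyp.symm.dim_eq (C := S.symm) (hyO := S.Om_bk x y (hcl_bk x y h)) S.rankP (hbk x)
      (hcl_bk x y h)).1
  · refine C08b_closed_restr (Q := fun x ξ => ξ ∈ S'.T x ∧ ∀ v ∈ S'.Es x, inner ℝ ξ v = 0) hR ?_
    have := hL.closed_s
    convert this using 1
    ext q
    show (_ ∧ _) ↔ (_ ∧ _)
    rw [hT, hEs, Coc.restr_Es]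
    rfl
  · refine C08b_closed_restr (Q := fun x ξ => ξ ∈ S'.T x ∧ ∀ v ∈ S'.Eu x, inner ℝ ξ v = 0) hR ?_
    have := hL.closed_u
    convert this using 1
    ext q
    show (_ ∧ _) ↔ (_ ∧ _)
    rw [hT, hEu, Coc.restr_Eu]
    rfl
  · intro x hxR v hv
    rw [hT] at hv
    have := h1 k hk1 x hxR v hv
    rw [hEs, hEs, hA, hf]
    linarith
  · intro x hxR v hv
    rw [hT] at hv
    have := h2 k hk2 x hxR v hv
    rw [hA' x v hv, hEu, hEu, hsymm]
    have e : infDist (S.symm.An k x v) (S.Eu (bk S.f k x)) =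
      infDist (S.symm.An k x v) (S.symm.Es (fw S.symm.f k x)) := rfl
    have e' : infDist v (S.Eu x) = infDist v (S.symm.Es x) := rfl
    rw [e, e']
    linarith
  · intro x hxR hx hx' v hv
    rw [hEs] at hx hv
    rw [hEu] at hx'
    have := h3 k hk3 x hxR hx hx' v hv
    rw [hA]
    linarith
  · intro x hxR hx hx' v hv
    rw [hEs] at hx
    rw [hEu] at hx' hv
    have := h4 k hk4 x hxR hx hx' v hv
    rw [hA' x v (S.Eu_le x hv)]
    linarith

end Pool.MP85
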