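import Pool.Agent.Lib.MP_85e637_an.AbsC

/-!
# C09: the inverse system
-/

open Filter Topology Set Metric Module

namespace Pool.MP85

theorem ESys.diff_symm {d N : ℕ} {K : Type} [MetricSpace K] [CompactSpace K] (S : ESys d N K) :
    ∀ η > 0, ∃ ρ > 0, ∀ x y y', dist x y < ρ → dist x y' < ρ →
      ‖(S.e (S.f.symm y) - S.e (S.f.symm y')) - S.symm.A x (S.e y - S.e y')‖ ≤ η * dist y y' := by
  intro η hη
  obtain ⟨c, hc1, hc⟩ : ∃ c : ℝ, 1 ≤ c ∧ ∀ x, ‖S.A' x‖ ≤ c := by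
    obtain ⟨c, hc⟩ := (isCompact_range S.contA'.norm).bddAbove
    exact ⟨max c 1, le_max_right _ _, fun x => (hc (mem_range_self x)).trans (le_max_left _ _)⟩
  have hc0 : 0 < c := by linarith
  set η1 : ℝ := min (1 / (2 * (1 + c))) (η / (2 * c * (1 + c))) with hη1
  have hη1pos : 0 < η1 := lt_min (by positivity) (by positivity)
  have h1 : (1 + c) * η1 ≤ 1 / 2 := by
    calc (1 + c) * η1 ≤ (1 + c) * (1 / (2 * (1 + c))) :=
          mul_le_mul_of_nonneg_left (min_le_left _ _) (by positivity)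
      _ = 1 / 2 := by field_simp
  have h2 : (1 + c) * η1 * (2 * c) ≤ η := by
    calc (1 + c) * η1 * (2 * c) ≤ (1 + c) * (η / (2 * c * (1 + c))) * (2 * c) := by
          gcongr
          exact min_le_right _ _
      _ = η := by field_simp
  obtain ⟨ρ1, hρ1, hflat⟩ := S.flat η1 hη1pos
  obtain ⟨ρ2, hρ2, hdiff⟩ := S.diff η1 hη1pos
  have huc : UniformContinuous S.f.symm := CompactSpace.uniformContinuous_of_continuous
    S.f.symm.continuous
  obtain ⟨ρ, hρ, hρ'⟩ := Metric.uniformContinuous_iff.1 huc (min ρ1 ρ2) (lt_min hρ1 hρ2)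
  refine ⟨ρ, hρ, fun x y y' hy hy' => ?_⟩
  have hz := hρ' hy
  have hz' := hρ' hy'
  obtain ⟨x0, hx0⟩ : ∃ x0, x0 = S.f.symm x := ⟨_, rfl⟩
  obtain ⟨z, hzd⟩ : ∃ z, z = S.f.symm y := ⟨_, rfl⟩
  obtain ⟨z', hzd'⟩ : ∃ z', z' = S.f.symm y' := ⟨_, rfl⟩
  rw [← hx0, ← hzd] at hz
  rw [← hx0, ← hzd'] at hz'
  have hfz : S.f z = y := by rw [hzd]; exact S.f.apply_symm_apply y
  have hfz' : S.f z' = y' := by rw [hzd']; exact S.f.apply_symm_apply y'
  have k1 := hflat x0 z z' (hz.trans_le (min_le_left _ _)) (hz'.trans_le (min_le_left _ _))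
  have k2 := hdiff x0 z z' (hz.trans_le (min_le_right _ _)) (hz'.trans_le (min_le_right _ _))
  rw [hfz, hfz'] at k2
  have hsA : S.symm.A x = S.A' x0 := by rw [hx0]; rfl
  rw [hsA, ← hzd, ← hzd']
  obtain ⟨v, hv⟩ : ∃ v, v = S.e z - S.e z' := ⟨_, rfl⟩
  obtain ⟨w, hw⟩ : ∃ w, w = S.e y - S.e y' := ⟨_, rfl⟩
  have hvn : ‖v‖ = dist z z' := by rw [hv, S.e_isom]
  have hwn : ‖w‖ = dist y y' := by rw [hw, S.e_isom]
  rw [← hv] at k1 k2 ⊢
  rw [← hw] at k2 ⊢
  have hAA : S.A' x0 (S.A x0 v) = S.P x0 v := by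
    have := congrArg (fun L : EE N →L[ℝ] EE N => L v) (S.A'A x0)
    exact this
  have k3 : v - S.A' x0 w = (v - S.P x0 v) - S.A' x0 (w - S.A x0 v) := by
    rw [map_sub, hAA]
    abel
  have k4 : ‖S.A' x0 (w - S.A x0 v)‖ ≤ c * (η1 * dist z z') :=
    ((S.A' x0).le_opNorm _).trans (mul_le_mul (hc x0) k2 (norm_nonneg _) hc0.le)
  have k5 : ‖v - S.A' x0 w‖ ≤ (1 + c) * η1 * dist z z' := by
    rw [k3]
    refine (norm_sub_le _ _).trans ?_
    linarith
  have k6 : ‖S.A' x0 w‖ ≤ c * dist y y' := by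
    rw [← hwn]
    exact ((S.A' x0).le_opNorm _).trans (mul_le_mul_of_nonneg_right (hc x0) (norm_nonneg _))
  have k7 : dist z z' ≤ 2 * c * dist y y' := by
    have h3 : ‖v‖ ≤ ‖v - S.A' x0 w‖ + ‖S.A' x0 w‖ := by
      have := norm_add_le (v - S.A' x0 w) (S.A' x0 w)
      rwa [sub_add_cancel] at this
    rw [hvn] at h3
    have h4 : (1 + c) * η1 * dist z z' ≤ 1 / 2 * dist z z' :=
      mul_le_mul_of_nonneg_right h1 dist_nonneg
    linarith
  calc ‖v - S.A' x0 w‖ ≤ (1 + c) * η1 * dist z z' := k5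
    _ ≤ (1 + c) * η1 * (2 * c * dist y y') := mul_le_mul_of_nonneg_left k7 (by positivity)
    _ = (1 + c) * η1 * (2 * c) * dist y y' := by ring
    _ ≤ η * dist y y' := mul_le_mul_of_nonneg_right h2 dist_nonneg

/-- the inverse system -/
noncomputable def ESys.inv {d N : ℕ} {K : Type} [MetricSpace K] [CompactSpace K]
    (S : ESys d N K) : ESys d N K where
  toCoc := S.symm
  e := S.e
  e_isom := S.e_isom
  rankP := S.rankP
  flat := S.flat
  surj := S.surj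
  diff := S.diff_symm

end Pool.MP85
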