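import Pool.Agent.Lib.MP_85e637_an.AbsC

/-!
# C10: charts, contraction and cone condition for contracted bundles
-/

open Filter Topology Set Metric Module

namespace Pool.MP85

variable {d N k : ℕ} {K : Type} [MetricSpace K] [CompactSpace K] {S : ESys d N K} {R : Set K}
  {V : K → Submodule ℝ (EE N)}

/-- the projections have norm at most one -/
theorem Coc.C10_norm_P_le {N : ℕ} {K : Type} [MetricSpace K] (C : Coc N K) (x : K) (w : EE N) :
    ‖C.P x w‖ ≤ ‖w‖ := by
  by_cases h0 : ‖C.P x w‖ = 0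
  · rw [h0]; exact norm_nonneg _
  · have hpos : 0 < ‖C.P x w‖ := lt_of_le_of_ne (norm_nonneg _) (Ne.symm h0)
    have h1 : ‖C.P x w‖ * ‖C.P x w‖ = inner ℝ w (C.P x w) := by
      rw [← real_inner_self_eq_norm_mul_norm, C.Psa x w (C.P x w)]
      have := congrArg (fun L : EE N →L[ℝ] EE N => L w) (C.PP x)
      simp only [ContinuousLinearMap.comp_apply] at this
      rw [this]
    have h2 : inner ℝ w (C.P x w) ≤ ‖w‖ * ‖C.P x w‖ := real_inner_le_norm _ _
    rw [← h1] at h2
    exact le_of_mul_le_mul_right h2 hpos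

/-- C10: a uniform local chart: `y ↦ P x (e y - e x)` is injective near `x`, with image containing
a ball, and all the estimates needed for `hp`. -/
theorem ESys.chart (S : ESys d N K) : ∀ η > 0, η < 1 → ∃ ρ > 0,
    (∀ x y y', dist x y < ρ → dist x y' < ρ →
      (1 - η) * dist y y' ≤ ‖S.P x (S.e y - S.e y')‖ ∧ ‖S.P x (S.e y - S.e y')‖ ≤ dist y y') ∧
    (∀ x, ∀ v ∈ S.T x, ‖v‖ < ρ → ∃ y, S.P x (S.e y - S.e x) = v ∧ dist x y ≤ (1 + η) * ‖v‖ ∧
      ∀ y', dist x y' < ρ → S.P x (S.e y' - S.e x) = v → y' = y) := by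
  intro η hη hη1
  obtain ⟨ρf, hρf, hflat⟩ := S.flat (η / 2) (by positivity)
  obtain ⟨ρs, hρs, hsurj⟩ := S.surj
  have key : ∀ x y y', dist x y < ρf → dist x y' < ρf →
      (1 - η / 2) * dist y y' ≤ ‖S.P x (S.e y - S.e y')‖ := by
    intro x y y' h1 h2
    have h3 := hflat x y y' h1 h2
    have h4 : ‖S.e y - S.e y'‖ ≤ ‖S.P x (S.e y - S.e y')‖ +
        ‖(S.e y - S.e y') - S.P x (S.e y - S.e y')‖ := by
      have := norm_add_le (S.P x (S.e y - S.e y')) ((S.e y - S.e y') - S.P x (S.e y - S.e y'))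
      rwa [add_sub_cancel] at this
    rw [S.e_isom] at h4
    linarith
  refine ⟨min (ρf / 2) ρs, lt_min (by positivity) hρs, ?_, ?_⟩
  · intro x y y' h1 h2
    have h1' : dist x y < ρf := lt_of_lt_of_le h1 ((min_le_left _ _).trans (by linarith))
    have h2' : dist x y' < ρf := lt_of_lt_of_le h2 ((min_le_left _ _).trans (by linarith))
    refine ⟨le_trans ?_ (key x y y' h1' h2'), ?_⟩
    · exact mul_le_mul_of_nonneg_right (by linarith) dist_nonneg
    · rw [← S.e_isom y y']
      exact S.toCoc.C10_norm_P_le x _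
  · intro x v hv hvρ
    obtain ⟨w, hw⟩ := hv
    have hPv : S.P x v = v := by
      rw [← hw]
      exact congrArg (fun L : EE N →L[ℝ] EE N => L w) (S.PP x)
    obtain ⟨y, hy1, hy2⟩ := hsurj x v hPv (hvρ.le.trans (min_le_right _ _))
    have hyρ : dist x y < ρf := by
      have : ‖v‖ < ρf / 2 := lt_of_lt_of_le hvρ (min_le_left _ _)
      linarith
    refine ⟨y, hy1, ?_, ?_⟩
    · have h5 := key x y x hyρ (by rw [dist_self]; exact hρf)
      rw [hy1, dist_comm y x] at h5
      have h6 : dist x y * (1 - η / 2) * (1 + η) ≤ ‖v‖ * (1 + η) :=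
        mul_le_mul_of_nonneg_right (by linarith) (by linarith)
      have h7 : dist x y ≤ dist x y * (1 - η / 2) * (1 + η) := by
        have h8 : 1 ≤ (1 - η / 2) * (1 + η) := by nlinarith
        calc dist x y = dist x y * 1 := (mul_one _).symm
          _ ≤ dist x y * ((1 - η / 2) * (1 + η)) := mul_le_mul_of_nonneg_left h8 dist_nonneg
          _ = _ := by ring
      linarith
    · intro y' hy' hy'v
      have hy'ρ : dist x y' < ρf := lt_of_lt_of_le hy' ((min_le_left _ _).trans (by linarith))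
      have h5 := key x y' y hy'ρ hyρ
      have h6 : S.P x (S.e y' - S.e y) = 0 := by
        have : S.e y' - S.e y = (S.e y' - S.e x) - (S.e y - S.e x) := by abel
        rw [this, map_sub, hy'v, hy1, sub_self]
      rw [h6, norm_zero] at h5
      have h7 : dist y' y ≤ 0 := by
        by_contra hcon
        push Not at hcon
        have : 0 < (1 - η / 2) * dist y' y := mul_pos (by linarith) hcon
        linarith
      exact dist_le_zero.1 h7

/-- one step estimates -/
theorem CB.C10_step (h : CB S R V k) {c : ℝ} (hc1 : 0 ≤ c) (hc : ∀ x, ‖S.A x‖ ≤ c) {θ ρ : ℝ}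
    (hθ : 0 < θ)
    (hflat : ∀ x y y', dist x y < ρ → dist x y' < ρ →
      ‖(S.e y - S.e y') - S.P x (S.e y - S.e y')‖ ≤ θ * dist y y')
    (hdiff : ∀ x y y', dist x y < ρ → dist x y' < ρ →
      ‖(S.e (S.f y) - S.e (S.f y')) - S.A x (S.e y - S.e y')‖ ≤ θ * dist y y')
    {x y y' : K} (hx : x ∈ R) (hy : dist x y < ρ) (hy' : dist x y' < ρ) :
    8 * infDist (S.e y - S.e y') (V x) - 9 * θ * dist y y' ≤
        infDist (S.e (S.f y) - S.e (S.f y')) (V (S.f x)) ∧
      dist (S.f y) (S.f y') ≤ dist y y' / 8 +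
        (c + 1) * (infDist (S.e y - S.e y') (V x) + θ * dist y y') + θ * dist y y' := by
  set Δ := S.e y - S.e y' with hΔ
  set Δ' := S.e (S.f y) - S.e (S.f y') with hΔ'
  have hnΔ : ‖Δ‖ = dist y y' := S.e_isom y y'
  have hnΔ' : ‖Δ'‖ = dist (S.f y) (S.f y') := S.e_isom _ _
  have h1 : ‖Δ - S.P x Δ‖ ≤ θ * dist y y' := hflat x y y' hy hy'
  have h2 : ‖Δ' - S.A x Δ‖ ≤ θ * dist y y' := hdiff x y y' hy hy'
  have hAP : S.A x (S.P x Δ) = S.A x Δ :=
    congrArg (fun L : EE N →L[ℝ] EE N => L Δ) (S.AP x)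
  have hPT : S.P x Δ ∈ S.T x := ⟨Δ, rfl⟩
  have hPle : ‖S.P x Δ‖ ≤ dist y y' := by
    rw [← hnΔ]; exact S.toCoc.C10_norm_P_le x Δ
  have h3 : infDist (S.P x Δ) (V x) ≤ infDist Δ (V x) + θ * dist y y' := by
    have := infDist_le_infDist_add_dist (s := (V x : Set (EE N))) (x := S.P x Δ) (y := Δ)
    rw [dist_comm, dist_eq_norm] at this
    linarith
  have h4 : infDist Δ (V x) ≤ infDist (S.P x Δ) (V x) + θ * dist y y' := by
    have := infDist_le_infDist_add_dist (s := (V x : Set (EE N))) (x := Δ) (y := S.P x Δ)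
    rw [dist_eq_norm] at this
    linarith
  have h5 : infDist (S.A x Δ) (V (S.f x)) ≤ infDist Δ' (V (S.f x)) + θ * dist y y' := by
    have := infDist_le_infDist_add_dist (s := (V (S.f x) : Set (EE N))) (x := S.A x Δ) (y := Δ')
    rw [dist_comm, dist_eq_norm] at this
    linarith
  have h6 := h.exp x hx (S.P x Δ) hPT
  rw [hAP] at h6
  refine ⟨by nlinarith, ?_⟩
  obtain ⟨s, hs, hs'⟩ := (Submodule.closed_of_finiteDimensional (V x)).exists_infDist_eq_dist
    ⟨0, (V x).zero_mem⟩ (S.P x Δ)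
  rw [dist_eq_norm] at hs'
  set t := S.P x Δ - s with ht
  have hsn : ‖s‖ ≤ dist y y' + ‖t‖ := by
    have : ‖S.P x Δ - t‖ ≤ ‖S.P x Δ‖ + ‖t‖ := norm_sub_le _ _
    rw [ht, sub_sub_cancel, ← ht] at this
    linarith
  have hAs := h.con x hx s hs
  have hAt : ‖S.A x t‖ ≤ c * ‖t‖ :=
    ((S.A x).le_opNorm t).trans (mul_le_mul_of_nonneg_right (hc x) (norm_nonneg _))
  have hsum : S.A x Δ = S.A x s + S.A x t := by
    rw [← hAP, ← map_add, ht, add_sub_cancel]
  have h7 : ‖S.A x Δ‖ ≤ dist y y' / 8 + (c + 1) * ‖t‖ := by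
    rw [hsum]
    refine (norm_add_le _ _).trans ?_
    have : 0 ≤ ‖t‖ := norm_nonneg _
    nlinarith
  have h8 : ‖Δ'‖ ≤ ‖S.A x Δ‖ + ‖Δ' - S.A x Δ‖ := by
    have := norm_add_le (S.A x Δ) (Δ' - S.A x Δ)
    rwa [add_sub_cancel] at this
  rw [hnΔ'] at h8
  have h9 : ‖t‖ ≤ infDist Δ (V x) + θ * dist y y' := by rw [← hs']; exact h3
  have h10 : (c + 1) * ‖t‖ ≤ (c + 1) * (infDist Δ (V x) + θ * dist y y') :=
    mul_le_mul_of_nonneg_left h9 (by linarith)
  linarith

theorem CB.C10_key (h : CB S R V k) : ∀ η > 0, ∃ ε > 0, ∀ x ∈ R, ∀ y ∈ WSl S.f ε x,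
    ∀ y' ∈ WSl S.f ε x, infDist (S.e y - S.e y') (V x) ≤ η * dist y y' ∧
      4 * dist (S.f y) (S.f y') ≤ dist y y' := by
  intro η hη
  obtain ⟨c0, hc0⟩ := isCompact_univ.exists_bound_of_continuousOn
    (f := S.A) S.contA.continuousOn
  set c : ℝ := max c0 0 with hcdef
  have hc1 : 0 ≤ c := le_max_right _ _
  have hc : ∀ x, ‖S.A x‖ ≤ c := fun x => (hc0 x (mem_univ x)).trans (le_max_left _ _)
  set η' : ℝ := min η (1 / (32 * (c + 1))) with hη'
  have hη'pos : 0 < η' := lt_min hη (by positivity)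
  have hη'1 : (c + 1) * η' ≤ 1 / 32 := by
    have : η' ≤ 1 / (32 * (c + 1)) := min_le_right _ _
    calc (c + 1) * η' ≤ (c + 1) * (1 / (32 * (c + 1))) :=
          mul_le_mul_of_nonneg_left this (by linarith)
      _ = 1 / 32 := by field_simp
  set θ : ℝ := η' / 9 with hθ
  have hθpos : 0 < θ := by positivity
  have hθη : 9 * θ = η' := by rw [hθ]; ring
  obtain ⟨ρ1, hρ1, hflat⟩ := S.flat θ hθpos
  obtain ⟨ρ2, hρ2, hdiff⟩ := S.diff θ hθpos
  set ρ := min ρ1 ρ2 with hρ
  have hρpos : 0 < ρ := lt_min hρ1 hρ2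
  have hflat' : ∀ x y y', dist x y < ρ → dist x y' < ρ →
      ‖(S.e y - S.e y') - S.P x (S.e y - S.e y')‖ ≤ θ * dist y y' := fun x y y' h1 h2 =>
    hflat x y y' (lt_of_lt_of_le h1 (min_le_left _ _)) (lt_of_lt_of_le h2 (min_le_left _ _))
  have hdiff' : ∀ x y y', dist x y < ρ → dist x y' < ρ →
      ‖(S.e (S.f y) - S.e (S.f y')) - S.A x (S.e y - S.e y')‖ ≤ θ * dist y y' :=
    fun x y y' h1 h2 =>
    hdiff x y y' (lt_of_lt_of_le h1 (min_le_right _ _)) (lt_of_lt_of_le h2 (min_le_right _ _))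
  refine ⟨ρ / 2, by positivity, ?_⟩
  intro x hx y hy y' hy'
  -- the orbit
  have hxR : ∀ n, fw S.f n x ∈ R := by
    intro n
    induction n with
    | zero => exact hx
    | succ n ih => rw [fw_succ']; exact h.inv _ ih
  have hstep : ∀ n,
      8 * infDist (S.e (fw S.f n y) - S.e (fw S.f n y')) (V (fw S.f n x)) -
          9 * θ * dist (fw S.f n y) (fw S.f n y') ≤
        infDist (S.e (fw S.f (n + 1) y) - S.e (fw S.f (n + 1) y')) (V (fw S.f (n + 1) x)) ∧
      dist (fw S.f (n + 1) y) (fw S.f (n + 1) y') ≤ dist (fw S.f n y) (fw S.f n y') / 8 +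
        (c + 1) * (infDist (S.e (fw S.f n y) - S.e (fw S.f n y')) (V (fw S.f n x)) +
          θ * dist (fw S.f n y) (fw S.f n y')) + θ * dist (fw S.f n y) (fw S.f n y') := by
    intro n
    have h1 : dist (fw S.f n x) (fw S.f n y) < ρ := lt_of_le_of_lt (hy n) (by linarith)
    have h2 : dist (fw S.f n x) (fw S.f n y') < ρ := lt_of_le_of_lt (hy' n) (by linarith)
    have := h.C10_step hc1 hc hθpos hflat' hdiff' (hxR n) h1 h2
    rw [fw_succ', fw_succ', fw_succ']
    exact this
  have hcθ : (c + 1) * θ ≤ 1 / 32 := by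
    have : θ ≤ η' := by linarith
    exact (mul_le_mul_of_nonneg_left this (by linarith)).trans hη'1
  have hθ1 : θ ≤ 1 / 32 := by nlinarith
  have hη'32 : η' ≤ 1 / 32 := by nlinarith
  have hu : infDist (S.e y - S.e y') (V x) ≤ η' * dist y y' := by
    by_contra hcon
    push Not at hcon
    have hgrow : ∀ n, η' * dist (fw S.f n y) (fw S.f n y') ≤
        infDist (S.e (fw S.f n y) - S.e (fw S.f n y')) (V (fw S.f n x)) ∧
        7 ^ n * infDist (S.e y - S.e y') (V x) ≤
          infDist (S.e (fw S.f n y) - S.e (fw S.f n y')) (V (fw S.f n x)) := by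
      intro n
      induction n with
      | zero => exact ⟨hcon.le, by simp [fw_zero]⟩
      | succ n ih =>
        obtain ⟨ih1, ih2⟩ := ih
        obtain ⟨s1, s2⟩ := hstep n
        set D := dist (fw S.f n y) (fw S.f n y')
        set D' := dist (fw S.f (n + 1) y) (fw S.f (n + 1) y')
        set u := infDist (S.e (fw S.f n y) - S.e (fw S.f n y')) (V (fw S.f n x))
        set u' := infDist (S.e (fw S.f (n + 1) y) - S.e (fw S.f (n + 1) y'))
          (V (fw S.f (n + 1) x))
        have hD : 0 ≤ D := dist_nonneg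
        have hu0 : 0 ≤ u := infDist_nonneg
        have h7 : 7 * u ≤ u' := by
          rw [hθη] at s1
          linarith
        refine ⟨?_, ?_⟩
        · -- η' D' ≤ 7 u
          have hA : η' * (D / 8) ≤ u / 8 := by linarith
          have hB : η' * ((c + 1) * u) ≤ 1 / 32 * u := by
            have : η' * ((c + 1) * u) = ((c + 1) * η') * u := by ring
            rw [this]
            exact mul_le_mul_of_nonneg_right hη'1 hu0
          have hC : η' * ((c + 1) * (θ * D)) ≤ 1 / 32 * u := by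
            have : η' * ((c + 1) * (θ * D)) = ((c + 1) * θ) * (η' * D) := by ring
            rw [this]
            calc ((c + 1) * θ) * (η' * D) ≤ 1 / 32 * (η' * D) :=
                  mul_le_mul_of_nonneg_right hcθ (by positivity)
              _ ≤ 1 / 32 * u := by linarith
          have hE : η' * (θ * D) ≤ 1 / 32 * u := by
            have : η' * (θ * D) = θ * (η' * D) := by ring
            rw [this]
            calc θ * (η' * D) ≤ 1 / 32 * (η' * D) :=
                  mul_le_mul_of_nonneg_right hθ1 (by positivity)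
              _ ≤ 1 / 32 * u := by linarith
          have hF : η' * D' ≤ η' * (D / 8 + (c + 1) * (u + θ * D) + θ * D) :=
            mul_le_mul_of_nonneg_left s2 hη'pos.le
          have hG : η' * (D / 8 + (c + 1) * (u + θ * D) + θ * D) =
            η' * (D / 8) + η' * ((c + 1) * u) + η' * ((c + 1) * (θ * D)) + η' * (θ * D) := by ring
          rw [hG] at hF
          linarith
        · calc 7 ^ (n + 1) * infDist (S.e y - S.e y') (V x)
              = 7 * (7 ^ n * infDist (S.e y - S.e y') (V x)) := by ring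
            _ ≤ 7 * u := by linarith
            _ ≤ u' := h7
    have hupos : 0 < infDist (S.e y - S.e y') (V x) :=
      lt_of_le_of_lt (by positivity) hcon
    -- boundedness
    have hbd : ∀ n, 7 ^ n * infDist (S.e y - S.e y') (V x) ≤ ρ := by
      intro n
      refine (hgrow n).2.trans ?_
      have h1 : infDist (S.e (fw S.f n y) - S.e (fw S.f n y')) (V (fw S.f n x)) ≤
          dist (S.e (fw S.f n y) - S.e (fw S.f n y')) 0 :=
        infDist_le_dist_of_mem (V (fw S.f n x)).zero_mem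
      rw [dist_zero_right, S.e_isom] at h1
      have h2 : dist (fw S.f n y) (fw S.f n y') ≤
          dist (fw S.f n x) (fw S.f n y) + dist (fw S.f n x) (fw S.f n y') :=
        dist_triangle_left _ _ _
      have h3 := hy n
      have h4 := hy' n
      linarith
    obtain ⟨n, hn⟩ := pow_unbounded_of_one_lt (ρ / infDist (S.e y - S.e y') (V x))
      (by norm_num : (1 : ℝ) < 7)
    rw [div_lt_iff₀ hupos] at hn
    exact absurd (hbd n) (not_le.2 hn)
  refine ⟨hu.trans (mul_le_mul_of_nonneg_right (min_le_left _ _) dist_nonneg), ?_⟩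
  have s2 := (hstep 0).2
  simp only [fw_zero, zero_add] at s2
  have e1 : fw S.f 1 y = S.f y := rfl
  have e2 : fw S.f 1 y' = S.f y' := rfl
  rw [e1, e2] at s2
  set D := dist y y'
  set u := infDist (S.e y - S.e y') (V x)
  have hD : 0 ≤ D := dist_nonneg
  have h1 : (c + 1) * (u + θ * D) ≤ 1 / 32 * D + 1 / 32 * D := by
    have : (c + 1) * (u + θ * D) = (c + 1) * u + ((c + 1) * θ) * D := by ring
    rw [this]
    have hh : (c + 1) * u ≤ 1 / 32 * D := by
      calc (c + 1) * u ≤ (c + 1) * (η' * D) := mul_le_mul_of_nonneg_left hu (by linarith)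
        _ = ((c + 1) * η') * D := by ring
        _ ≤ 1 / 32 * D := mul_le_mul_of_nonneg_right hη'1 hD
    have hh' : ((c + 1) * θ) * D ≤ 1 / 32 * D := mul_le_mul_of_nonneg_right hcθ hD
    linarith
  have h2 : θ * D ≤ 1 / 32 * D := mul_le_mul_of_nonneg_right hθ1 hD
  linarith

/-- C10: contraction along local stable sets -/
theorem CB.contr (h : CB S R V k) : ∃ ε0 > 0, ∀ x ∈ R, ∀ y ∈ WSl S.f ε0 x,
    ∀ y' ∈ WSl S.f ε0 x, 4 * dist (S.f y) (S.f y') ≤ dist y y' := by
  obtain ⟨ε, hε, h'⟩ := h.C10_key 1 one_pos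
  exact ⟨ε, hε, fun x hx y hy y' hy' => (h' x hx y hy y' hy').2⟩

/-- C10: cone condition: differences of points of a small local stable set are almost in `V x` -/
theorem CB.cone (h : CB S R V k) : ∀ η > 0, ∃ ε > 0, ∀ x ∈ R, ∀ y ∈ WSl S.f ε x,
    ∀ y' ∈ WSl S.f ε x, infDist (S.e y - S.e y') (V x) ≤ η * dist y y' := by
  intro η hη
  obtain ⟨ε, hε, h'⟩ := h.C10_key η hη
  exact ⟨ε, hε, fun x hx y hy y' hy' => (h' x hx y hy y' hy').1⟩

end Pool.MP85
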