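import Pool.Agent.Lib.MP_85e637_an.AbsC
import Pool.Agent.Lib.MP_85e637_an.C01
import Pool.Agent.Lib.MP_85e637_an.C04
import Pool.Agent.Lib.MP_85e637_an.C10

/-!
# C11: existence of points in local stable sets over a contracted bundle
-/

open Filter Topology Set Metric Module

namespace Pool.MP85

/-- distance to a subspace = norm of the orthogonal component -/
theorem C11_infDist {N : ℕ} (U : Submodule ℝ (EE N)) (v : EE N) :
    infDist v (U : Set (EE N)) = ‖Uᗮ.starProjection v‖ := by
  have h0 : v = U.starProjection v + Uᗮ.starProjection v :=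
    (U.starProjection_add_starProjection_orthogonal v).symm
  have h1 : v - U.starProjection v = Uᗮ.starProjection v := by
    nth_rewrite 1 [h0]; abel
  apply le_antisymm
  · have := infDist_le_dist_of_mem (x := v) (s := (U : Set (EE N)))
      (U.starProjection_apply_mem v)
    rwa [dist_eq_norm, h1] at this
  · rw [le_infDist ⟨0, U.zero_mem⟩]
    intro w hw
    rw [dist_eq_norm]
    have h2 : Uᗮ.starProjection v = Uᗮ.starProjection (v - w) := by
      rw [map_sub]
      have : Uᗮ.starProjection w = 0 := by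
        rw [Submodule.starProjection_apply_eq_zero_iff]
        exact U.le_orthogonal_orthogonal hw
      rw [this, sub_zero]
    rw [h2]
    exact Submodule.norm_starProjection_apply_le _ _

theorem C11_surj {E : Type} [NormedAddCommGroup E] [NormedSpace ℝ E] [FiniteDimensional ℝ E]
    (W W' : Submodule ℝ E) (L : E →ₗ[ℝ] E) (hL : ∀ w ∈ W, L w ∈ W')
    (hi : ∀ w ∈ W, L w = 0 → w = 0) (hf : finrank ℝ W = finrank ℝ W') :
    ∀ w ∈ W', ∃ u ∈ W, L u = w := by
  intro w hw
  let L' : W →ₗ[ℝ] W' := L.restrict hL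
  have hinj : Function.Injective L' := by
    rw [← LinearMap.ker_eq_bot, LinearMap.ker_eq_bot']
    intro u hu
    have : L u.1 = 0 := congrArg Subtype.val hu
    exact Subtype.ext (hi u.1 u.2 this)
  have hsurj := (LinearMap.injective_iff_surjective_of_finrank_eq_finrank hf).1 hinj
  obtain ⟨u, hu⟩ := hsurj ⟨w, hw⟩
  exact ⟨u.1, u.2, congrArg Subtype.val hu⟩

section CBs
variable {d N k : ℕ} {K : Type} [MetricSpace K] [CompactSpace K] {S : ESys d N K} {R : Set K}
  {V : K → Submodule ℝ (EE N)}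

/-- local structure needed for `hp` -/
theorem CB.C11_Dinv (h : CB S R V k) {x : K} (hx : x ∈ R) : ∃ D : EE N → EE N,
    ∀ w ∈ (V (S.f x))ᗮ ⊓ S.T (S.f x), D w ∈ (V x)ᗮ ⊓ S.T x ∧
      (V (S.f x))ᗮ.starProjection (S.A x (D w)) = w ∧
      ∀ w' ∈ (V (S.f x))ᗮ ⊓ S.T (S.f x), 8 * ‖D w - D w'‖ ≤ ‖w - w'‖ := by
  have hfx := h.inv x hx
  have hbd : ∀ u ∈ (V x)ᗮ ⊓ S.T x, 8 * ‖u‖ ≤ ‖(V (S.f x))ᗮ.starProjection (S.A x u)‖ := by
    intro u hu
    have := h.exp x hx u hu.2
    rw [C11_infDist, C11_infDist] at this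
    rwa [Submodule.starProjection_eq_self_iff.2 hu.1] at this
  have hfin : ∀ y ∈ R, k + finrank ℝ ↥((V y)ᗮ ⊓ S.T y) = d := by
    intro y hy
    have := Submodule.finrank_add_inf_finrank_orthogonal (h.le y hy)
    rw [h.rank y hy, S.rankP y] at this
    exact this
  have hs := C11_surj ((V x)ᗮ ⊓ S.T x) ((V (S.f x))ᗮ ⊓ S.T (S.f x))
    (((V (S.f x))ᗮ.starProjection ∘L S.A x : EE N →L[ℝ] EE N) : EE N →ₗ[ℝ] EE N)
    (by
      intro w hw
      refine ⟨Submodule.starProjection_apply_mem _ _, ?_⟩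
      have h1 : (V (S.f x))ᗮ.starProjection (S.A x w) =
          S.A x w - (V (S.f x)).starProjection (S.A x w) := by
        have := (V (S.f x)).starProjection_add_starProjection_orthogonal (S.A x w)
        rw [← this]
        simp
      show (V (S.f x))ᗮ.starProjection (S.A x w) ∈ S.T (S.f x)
      rw [h1]
      exact Submodule.sub_mem _ (S.A_mem x w)
        (h.le _ hfx (Submodule.starProjection_apply_mem _ _)))
    (by
      intro w hw h0
      have h1 := hbd w hw
      have h2 : (V (S.f x))ᗮ.starProjection (S.A x w) = 0 := h0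
      rw [h2, norm_zero] at h1
      have : ‖w‖ ≤ 0 := by linarith
      exact norm_le_zero_iff.1 this)
    (by have h1 := hfin x hx; have h2 := hfin _ hfx; omega)
  have hs' : ∀ w, ∃ u, w ∈ (V (S.f x))ᗮ ⊓ S.T (S.f x) → (u ∈ (V x)ᗮ ⊓ S.T x ∧
      (V (S.f x))ᗮ.starProjection (S.A x u) = w) := by
    intro w
    by_cases hw : w ∈ (V (S.f x))ᗮ ⊓ S.T (S.f x)
    · obtain ⟨u, hu, hu'⟩ := hs w hw
      exact ⟨u, fun _ => ⟨hu, hu'⟩⟩
    · exact ⟨0, fun h' => absurd h' hw⟩
  choose D hD using hs'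
  refine ⟨D, fun w hw => ⟨(hD w hw).1, (hD w hw).2, fun w' hw' => ?_⟩⟩
  have h1 := hbd (D w - D w') (Submodule.sub_mem _ (hD w hw).1 (hD w' hw').1)
  rwa [map_sub, map_sub, (hD w hw).2, (hD w' hw').2] at h1

/-- C11: existence: the local stable set projects onto a ball of `V x` -/
theorem CB.exists_pt (h : CB S R V k) : ∀ ε > 0, ∃ r > 0, ∀ x ∈ R, ∀ a ∈ V x, ‖a‖ ≤ r →
    ∃ y ∈ WSl S.f ε x, (∀ v ∈ V x, inner ℝ (S.e y - S.e x - a) v = 0) ∧
      dist x y ≤ 2 * ‖a‖ := by
  intro ε hε
  obtain ⟨cA, hcA1, hcA⟩ := S.toCoc.An_bound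
  have hA : ∀ x, ‖S.A x‖ ≤ cA := by
    intro x
    have := hcA 1 x
    rwa [S.toCoc.An_one, pow_one] at this
  obtain ⟨ρ1, hρ1, hch1, hch3⟩ := S.chart (1/2) (by norm_num) (by norm_num)
  have hch3' : ∀ x v, ∃ y, v ∈ S.T x → ‖v‖ < ρ1 → (S.P x (S.e y - S.e x) = v ∧
      dist x y ≤ (1 + 1/2) * ‖v‖ ∧
      ∀ y', dist x y' < ρ1 → S.P x (S.e y' - S.e x) = v → y' = y) := by
    intro x v
    by_cases hv : v ∈ S.T x ∧ ‖v‖ < ρ1
    · obtain ⟨y, hy⟩ := hch3 x v hv.1 hv.2
      exact ⟨y, fun _ _ => hy⟩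
    · exact ⟨x, fun h1 h2 => absurd ⟨h1, h2⟩ hv⟩
  choose c hc using hch3'
  -- constants
  set η : ℝ := 1 / (1000 * (cA + 2)) with hη
  have hcA2 : 0 < cA + 2 := by linarith
  have hηpos : 0 < η := by rw [hη]; positivity
  have hη24 : η ≤ 1 / 24 := by
    rw [hη]
    apply one_div_le_one_div_of_le (by norm_num)
    nlinarith
  obtain ⟨ρ2, hρ2, hdiff⟩ := S.diff (η / 2) (by positivity)
  obtain ⟨ε', hε', hcone⟩ := h.cone (1/2) (by norm_num)
  set ρ : ℝ := min ρ1 ρ2 / 8 with hρ
  have hρpos : 0 < ρ := by rw [hρ]; positivity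
  have hρle1 : 8 * ρ ≤ ρ1 := by
    have := min_le_left ρ1 ρ2; rw [hρ]; linarith
  have hρle2 : 8 * ρ ≤ ρ2 := by
    have := min_le_right ρ1 ρ2; rw [hρ]; linarith
  -- the radius
  refine ⟨min (ρ / 4) (min (ε / 16) (min (ε' / 16) (ρ1 / (32 * (cA + 2))))), by positivity, ?_⟩
  intro x hx a ha har
  have har1 : 4 * ‖a‖ ≤ ρ := by
    have := har.trans (min_le_left _ _); linarith
  have har2 : 16 * ‖a‖ ≤ ε := by
    have := har.trans ((min_le_right _ _).trans (min_le_left _ _)); linarith
  have har3 : 16 * ‖a‖ ≤ ε' := by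
    have := har.trans ((min_le_right _ _).trans ((min_le_right _ _).trans (min_le_left _ _)))
    linarith
  have har4 : ‖a‖ * (32 * (cA + 2)) ≤ ρ1 := by
    have := har.trans ((min_le_right _ _).trans ((min_le_right _ _).trans (min_le_right _ _)))
    rwa [le_div_iff₀ (by positivity)] at this
  have hxn : ∀ n, fw S.f n x ∈ R := by
    intro n
    induction n with
    | zero => exact hx
    | succ n ih => rw [fw_succ']; exact h.inv _ ih
  have hD := fun n => h.C11_Dinv (hxn n)
  choose D hD using hD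
  -- local charts
  let Fn : K → EE N → EE N := fun z v => S.P (S.f z) (S.e (S.f (c z v)) - S.e (S.f z))
  have hFn_mem : ∀ z v, Fn z v ∈ S.T (S.f z) := by
    intro z v
    exact ⟨_, rfl⟩
  have hc0 : ∀ z, c z 0 = z := by
    intro z
    have := (hc z 0 (Submodule.zero_mem _) (by simpa using hρ1)).2.1
    rw [norm_zero, mul_zero] at this
    exact (dist_le_zero.1 this).symm
  have hFn0 : ∀ z, Fn z 0 = 0 := by
    intro z
    show S.P (S.f z) (S.e (S.f (c z 0)) - S.e (S.f z)) = 0
    rw [hc0, sub_self, map_zero]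
  have hFnL : ∀ z, ∀ v ∈ S.T z, ∀ v' ∈ S.T z, ‖v‖ ≤ 2 * ρ → ‖v'‖ ≤ 2 * ρ →
      ‖(Fn z v - Fn z v') - S.A z (v - v')‖ ≤ η * ‖v - v'‖ := by
    intro z v hv v' hv' hn hn'
    have e1 := hc z v hv (by linarith)
    have e1' := hc z v' hv' (by linarith)
    have d1 : dist z (c z v) ≤ 3 * ρ := e1.2.1.trans (by linarith)
    have d1' : dist z (c z v') ≤ 3 * ρ := e1'.2.1.trans (by linarith)
    have e2 := hdiff z (c z v) (c z v') (by linarith) (by linarith)
    have e3 := (hch1 z (c z v) (c z v') (by linarith) (by linarith)).1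
    have e4 : S.P z (S.e (c z v) - S.e (c z v')) = v - v' := by
      have : S.e (c z v) - S.e (c z v') = (S.e (c z v) - S.e z) - (S.e (c z v') - S.e z) := by abel
      rw [this, map_sub, e1.1, e1'.1]
    rw [e4] at e3
    have e5 : S.A z (v - v') = S.P (S.f z) (S.A z (S.e (c z v) - S.e (c z v'))) := by
      have h1 : S.P (S.f z) (S.A z (S.e (c z v) - S.e (c z v'))) =
        S.A z (S.e (c z v) - S.e (c z v')) := by
        have := congrArg (fun L => L (S.e (c z v) - S.e (c z v'))) (S.PA z)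
        exact this
      have h2 : S.A z (S.P z (S.e (c z v) - S.e (c z v'))) =
        S.A z (S.e (c z v) - S.e (c z v')) := by
        have := congrArg (fun L => L (S.e (c z v) - S.e (c z v'))) (S.AP z)
        exact this
      rw [h1, ← h2, e4]
    have e6 : (Fn z v - Fn z v') - S.A z (v - v') = S.P (S.f z)
        ((S.e (S.f (c z v)) - S.e (S.f (c z v'))) - S.A z (S.e (c z v) - S.e (c z v'))) := by
      rw [e5]
      show S.P (S.f z) _ - S.P (S.f z) _ - S.P (S.f z) _ = _
      rw [← map_sub, ← map_sub]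
      congr 1
      abel
    have hP : ∀ w, ‖S.P (S.f z) w‖ ≤ ‖w‖ := by
      intro w
      have h1 : ‖S.P (S.f z) w‖ ^ 2 ≤ ‖S.P (S.f z) w‖ * ‖w‖ := by
        rw [← real_inner_self_eq_norm_sq, S.Psa]
        have h2 : S.P (S.f z) (S.P (S.f z) w) = S.P (S.f z) w :=
          congrArg (fun L => L w) (S.PP (S.f z))
        rw [h2, real_inner_comm]
        exact real_inner_le_norm _ _
      by_contra hcon
      push Not at hcon
      have : 0 < ‖S.P (S.f z) w‖ := lt_of_le_of_lt (norm_nonneg _) hcon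
      nlinarith
    rw [e6]
    refine (hP _).trans (e2.trans ?_)
    have : dist (c z v) (c z v') ≤ 2 * ‖v - v'‖ := by linarith
    nlinarith
  -- the data for `hp`
  have hx0 : fw S.f 0 x = x := rfl
  have hxs : ∀ n, fw S.f (n + 1) x = S.f (fw S.f n x) := fun n => fw_succ' _ _ _
  have hpn : ∀ (U : Submodule ℝ (EE N)) (v : EE N), ‖U.starProjection v‖ ≤ ‖v‖ :=
    fun U v => Submodule.norm_starProjection_apply_le _ _
  let VV : ℕ → Submodule ℝ (EE N) := fun n => V (fw S.f n x)
  let WW : ℕ → Submodule ℝ (EE N) := fun n => (V (fw S.f n x))ᗮ ⊓ S.T (fw S.f n x)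
  let Fs : ℕ → EE N → EE N → EE N := fun n s u =>
    (V (S.f (fw S.f n x))).starProjection (Fn (fw S.f n x) (s + u))
  let Gu : ℕ → EE N → EE N → EE N → EE N := fun n s u w =>
    D n (w - (V (S.f (fw S.f n x)))ᗮ.starProjection
      (Fn (fw S.f n x) (s + u) - S.A (fw S.f n x) (s + u)))
  have hQT : ∀ n, ∀ v ∈ S.T (S.f (fw S.f n x)),
      (V (S.f (fw S.f n x)))ᗮ.starProjection v ∈
        (V (S.f (fw S.f n x)))ᗮ ⊓ S.T (S.f (fw S.f n x)) := by
    intro n v hv
    refine ⟨Submodule.starProjection_apply_mem _ _, ?_⟩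
    have h1 : (V (S.f (fw S.f n x)))ᗮ.starProjection v =
        v - (V (S.f (fw S.f n x))).starProjection v := by
      have := (V (S.f (fw S.f n x))).starProjection_add_starProjection_orthogonal v
      nth_rewrite 2 [← this]
      abel
    rw [h1]
    exact Submodule.sub_mem _ hv (h.le _ (h.inv _ (hxn n)) (Submodule.starProjection_apply_mem _ _))
  have hsuT : ∀ n, ∀ s ∈ VV n, ∀ u ∈ WW n, s + u ∈ S.T (fw S.f n x) := fun n s hs u hu =>
    Submodule.add_mem _ (h.le _ (hxn n) hs) hu.2
  have hGarg : ∀ n, ∀ s ∈ VV n, ∀ u ∈ WW n, ∀ w ∈ WW (n + 1),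
      w - (V (S.f (fw S.f n x)))ᗮ.starProjection
        (Fn (fw S.f n x) (s + u) - S.A (fw S.f n x) (s + u)) ∈
        (V (S.f (fw S.f n x)))ᗮ ⊓ S.T (S.f (fw S.f n x)) := by
    intro n s hs u hu w hw
    have hw' : w ∈ (V (S.f (fw S.f n x)))ᗮ ⊓ S.T (S.f (fw S.f n x)) := by
      have := hw
      simp only [WW, hxs] at this
      exact this
    exact Submodule.sub_mem _ hw' (hQT n _ (Submodule.sub_mem _ (hFn_mem _ _) (S.A_mem _ _)))
  obtain ⟨s, u, hs0, hsV, huW, hsn, hun, hss, huu⟩ := hp VV WW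
    (fun n => Submodule.closed_of_finiteDimensional _)
    (fun n => Submodule.closed_of_finiteDimensional _) (cA + 1) ρ η (by linarith) hρpos hηpos.le
    (by
      rw [hη, div_mul_eq_mul_div, div_le_div_iff₀ (by positivity) (by norm_num)]
      nlinarith)
    Fs Gu
    (by
      intro n s hs u hu h1 h2
      show _ ∈ V (fw S.f (n + 1) x)
      rw [hxs]
      exact Submodule.starProjection_apply_mem _ _)
    (by
      intro n
      show (V (S.f (fw S.f n x))).starProjection (Fn (fw S.f n x) (0 + 0)) = 0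
      rw [add_zero, hFn0, map_zero])
    (by
      intro n s hs u hu s' hs' u' hu' h1 h2 h3 h4
      show ‖(V (S.f (fw S.f n x))).starProjection (Fn (fw S.f n x) (s + u)) -
        (V (S.f (fw S.f n x))).starProjection (Fn (fw S.f n x) (s' + u'))‖ ≤ _
      rw [← map_sub]
      refine (hpn _ _).trans ?_
      have e1 := hFnL (fw S.f n x) (s + u) (hsuT n s hs u hu) (s' + u') (hsuT n s' hs' u' hu')
        ((norm_add_le _ _).trans (by linarith)) ((norm_add_le _ _).trans (by linarith))
      have e2 : s + u - (s' + u') = (s - s') + (u - u') := by abel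
      rw [e2] at e1
      have e3 : ‖(s - s') + (u - u')‖ ≤ ‖s - s'‖ + ‖u - u'‖ := norm_add_le _ _
      have e4 : 8 * ‖S.A (fw S.f n x) (s - s')‖ ≤ ‖s - s'‖ :=
        h.con _ (hxn n) _ (Submodule.sub_mem _ hs hs')
      have e5 : ‖S.A (fw S.f n x) (u - u')‖ ≤ cA * ‖u - u'‖ :=
        (ContinuousLinearMap.le_opNorm _ _).trans
          (mul_le_mul_of_nonneg_right (hA _) (norm_nonneg _))
      have e6 : Fn (fw S.f n x) (s + u) - Fn (fw S.f n x) (s' + u') =
        (Fn (fw S.f n x) (s + u) - Fn (fw S.f n x) (s' + u') -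
          S.A (fw S.f n x) ((s - s') + (u - u'))) +
          (S.A (fw S.f n x) (s - s') + S.A (fw S.f n x) (u - u')) := by
        rw [map_add]; abel
      rw [e6]
      refine (norm_add_le _ _).trans ?_
      have e7 := norm_add_le (S.A (fw S.f n x) (s - s')) (S.A (fw S.f n x) (u - u'))
      have e8 : η * ‖(s - s') + (u - u')‖ ≤ 1 / 24 * (‖s - s'‖ + ‖u - u'‖) :=
        mul_le_mul hη24 e3 (norm_nonneg _) (by norm_num)
      have := norm_nonneg (s - s')
      have := norm_nonneg (u - u')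
      linarith)
    (by
      intro n s hs u hu w hw h1 h2 h3
      exact (hD n _ (hGarg n s hs u hu w hw)).1)
    (by
      intro n
      have h0 := hD n 0 (Submodule.zero_mem _)
      show D n (0 - (V (S.f (fw S.f n x)))ᗮ.starProjection
        (Fn (fw S.f n x) (0 + 0) - S.A (fw S.f n x) (0 + 0))) = 0
      rw [add_zero, hFn0, map_zero, sub_zero, map_zero, sub_zero]
      have hbd := (h.exp _ (hxn n) (D n 0) h0.1.2)
      rw [C11_infDist, C11_infDist, h0.2.1, Submodule.starProjection_eq_self_iff.2 h0.1.1,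
        norm_zero] at hbd
      exact norm_le_zero_iff.1 (by linarith))
    (by
      intro n s hs u hu w hw s' hs' u' hu' w' hw' h1 h2 h3 h4 h5 h6
      have g1 := (hD n _ (hGarg n s hs u hu w hw)).2.2 _ (hGarg n s' hs' u' hu' w' hw')
      have e1 := hFnL (fw S.f n x) (s + u) (hsuT n s hs u hu) (s' + u') (hsuT n s' hs' u' hu')
        ((norm_add_le _ _).trans (by linarith)) ((norm_add_le _ _).trans (by linarith))
      have e2 : s + u - (s' + u') = (s - s') + (u - u') := by abel
      have e3 : ‖(s - s') + (u - u')‖ ≤ ‖s - s'‖ + ‖u - u'‖ := norm_add_le _ _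
      have g2 : ‖(w - (V (S.f (fw S.f n x)))ᗮ.starProjection
          (Fn (fw S.f n x) (s + u) - S.A (fw S.f n x) (s + u))) -
          (w' - (V (S.f (fw S.f n x)))ᗮ.starProjection
          (Fn (fw S.f n x) (s' + u') - S.A (fw S.f n x) (s' + u')))‖ ≤
          ‖w - w'‖ + η * (‖s - s'‖ + ‖u - u'‖) := by
        have g3 : (w - (V (S.f (fw S.f n x)))ᗮ.starProjection
          (Fn (fw S.f n x) (s + u) - S.A (fw S.f n x) (s + u))) -
          (w' - (V (S.f (fw S.f n x)))ᗮ.starProjection
          (Fn (fw S.f n x) (s' + u') - S.A (fw S.f n x) (s' + u'))) =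
          (w - w') - (V (S.f (fw S.f n x)))ᗮ.starProjection
            ((Fn (fw S.f n x) (s + u) - Fn (fw S.f n x) (s' + u')) -
              S.A (fw S.f n x) ((s + u) - (s' + u'))) := by
          rw [map_sub, map_sub, map_sub, map_sub, map_sub, map_sub]
          abel
        rw [g3]
        refine (norm_sub_le _ _).trans (add_le_add le_rfl ((hpn _ _).trans (e1.trans ?_)))
        rw [e2]
        exact mul_le_mul_of_nonneg_left e3 hηpos.le
      have := norm_nonneg (s - s')
      have := norm_nonneg (u - u')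
      have := norm_nonneg (w - w')
      have g4 : 0 ≤ η * (‖s - s'‖ + ‖u - u'‖) := by positivity
      show ‖D n _ - D n _‖ ≤ _
      have g5 := g1.trans g2
      linarith)
    a ha har1
  have hpow : ∀ n : ℕ, 4 * ‖a‖ / 2 ^ n ≤ 4 * ‖a‖ := by
    intro n
    apply div_le_self (by positivity)
    exact one_le_pow₀ (by norm_num)
  have hsρ : ∀ n, ‖s n‖ ≤ 4 * ‖a‖ := fun n => (hsn n).trans (hpow n)
  have huρ : ∀ n, ‖u n‖ ≤ 4 * ‖a‖ := fun n => (hun n).trans (hpow n)
  have hvT : ∀ n, s n + u n ∈ S.T (fw S.f n x) := fun n => hsuT n _ (hsV n) _ (huW n)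
  have hvn : ∀ n, ‖s n + u n‖ ≤ 8 * ‖a‖ := fun n =>
    (norm_add_le _ _).trans (by linarith [hsρ n, huρ n])
  have hrec : ∀ n, s (n + 1) + u (n + 1) = Fn (fw S.f n x) (s n + u n) := by
    intro n
    have hw := hGarg n _ (hsV n) _ (huW n) _ (huW (n + 1))
    have h1 : u n = D n (u (n + 1) - (V (S.f (fw S.f n x)))ᗮ.starProjection
        (Fn (fw S.f n x) (s n + u n) - S.A (fw S.f n x) (s n + u n))) := huu n
    have h2 := (hD n _ hw).2.1
    rw [← h1] at h2
    have h3 : s (n + 1) = (V (S.f (fw S.f n x))).starProjection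
      (Fn (fw S.f n x) (s n + u n)) := hss n
    have h4 : (V (S.f (fw S.f n x)))ᗮ.starProjection (S.A (fw S.f n x) (s n)) = 0 := by
      rw [Submodule.starProjection_apply_eq_zero_iff]
      exact Submodule.le_orthogonal_orthogonal _ (h.map _ (hxn n) _ (hsV n))
    have h5 : u (n + 1) = (V (S.f (fw S.f n x)))ᗮ.starProjection
        (Fn (fw S.f n x) (s n + u n)) := by
      rw [map_sub, map_add, map_add, h4, zero_add] at h2
      have := h2
      rw [eq_sub_iff_add_eq] at this
      rw [← this]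
      abel
    rw [h3, h5]
    exact Submodule.starProjection_add_starProjection_orthogonal _
  -- the orbit
  have hsmall : ∀ n, ‖s n + u n‖ < ρ1 := fun n => lt_of_le_of_lt (hvn n) (by linarith)
  have hcn := fun n => hc (fw S.f n x) (s n + u n) (hvT n) (hsmall n)
  have hyn : ∀ n, fw S.f n (c x (s 0 + u 0)) = c (fw S.f n x) (s n + u n) := by
    intro n
    induction n with
    | zero => rfl
    | succ n ih =>
      rw [fw_succ', ih]
      have hc1 := hcn (n + 1)
      refine hc1.2.2 _ ?_ ?_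
      · rw [hxs]
        have e1 := hdiff (fw S.f n x) (fw S.f n x) (c (fw S.f n x) (s n + u n))
          (by rw [dist_self]; exact hρ2)
          (lt_of_le_of_lt (hcn n).2.1 (by linarith [hvn n]))
        have e2 : dist (S.f (fw S.f n x)) (S.f (c (fw S.f n x) (s n + u n))) ≤
            (cA + 1) * dist (fw S.f n x) (c (fw S.f n x) (s n + u n)) := by
          rw [← S.e_isom]
          have e3 : ‖S.A (fw S.f n x) (S.e (fw S.f n x) - S.e (c (fw S.f n x) (s n + u n)))‖ ≤
              cA * dist (fw S.f n x) (c (fw S.f n x) (s n + u n)) := by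
            rw [← S.e_isom (fw S.f n x)]
            exact (ContinuousLinearMap.le_opNorm _ _).trans
              (mul_le_mul_of_nonneg_right (hA _) (norm_nonneg _))
          have e4 := norm_sub_norm_le (S.e (S.f (fw S.f n x)) -
            S.e (S.f (c (fw S.f n x) (s n + u n))))
            (S.A (fw S.f n x) (S.e (fw S.f n x) - S.e (c (fw S.f n x) (s n + u n))))
          have e5 : η / 2 * dist (fw S.f n x) (c (fw S.f n x) (s n + u n)) ≤
              1 * dist (fw S.f n x) (c (fw S.f n x) (s n + u n)) :=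
            mul_le_mul_of_nonneg_right (by linarith) dist_nonneg
          linarith
        have e6 := (hcn n).2.1
        have e7 := hvn n
        calc dist (S.f (fw S.f n x)) (S.f (c (fw S.f n x) (s n + u n)))
            ≤ (cA + 1) * dist (fw S.f n x) (c (fw S.f n x) (s n + u n)) := e2
          _ ≤ (cA + 1) * (12 * ‖a‖) := by
              apply mul_le_mul_of_nonneg_left _ (by linarith)
              linarith
          _ < ρ1 := by nlinarith [norm_nonneg a]
      · rw [hrec n]
        show _ = S.P (S.f (fw S.f n x)) _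
        rw [hxs]
  have hdn : ∀ n, dist (fw S.f n x) (fw S.f n (c x (s 0 + u 0))) ≤ 16 * ‖a‖ := by
    intro n
    rw [hyn n]
    linarith [(hcn n).2.1, hvn n, norm_nonneg a]
  have hc00 := hcn 0
  rw [hx0] at hc00
  have hproj : ∀ v ∈ V x, inner ℝ (S.e (c x (s 0 + u 0)) - S.e x - a) v = 0 := by
    intro v hv
    have hvT' : S.P x v = v := (S.mem_T).1 (h.le x hx hv)
    have huo : inner ℝ (u 0) v = 0 := by
      have h1 : u 0 ∈ (V x)ᗮ := (huW 0).1
      exact (Submodule.mem_orthogonal' _ _).1 h1 v hv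
    rw [inner_sub_left]
    have e1 : inner ℝ (S.e (c x (s 0 + u 0)) - S.e x) v =
        inner ℝ (S.P x (S.e (c x (s 0 + u 0)) - S.e x)) v := by
      rw [S.Psa, hvT']
    rw [e1, hc00.1, hs0, inner_add_left, huo]
    ring
  refine ⟨c x (s 0 + u 0), fun n => (hdn n).trans har2, hproj, ?_⟩
  have hy' : c x (s 0 + u 0) ∈ WSl S.f ε' x := fun n => (hdn n).trans har3
  have hx' : x ∈ WSl S.f ε' x := fun n => by rw [dist_self]; exact hε'.le
  have hco := hcone x hx _ hy' _ hx'
  rw [C11_infDist] at hco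
  have e1 : (V x).starProjection (S.e (c x (s 0 + u 0)) - S.e x) = a := by
    have e2 : (V x).starProjection (S.e (c x (s 0 + u 0)) - S.e x - a) = 0 := by
      rw [Submodule.starProjection_apply_eq_zero_iff, Submodule.mem_orthogonal']
      exact hproj
    rw [map_sub, Submodule.starProjection_eq_self_iff.2 ha, sub_eq_zero] at e2
    exact e2
  have e3 : dist x (c x (s 0 + u 0)) ≤ ‖a‖ + 1 / 2 * dist x (c x (s 0 + u 0)) := by
    rw [dist_comm (c x (s 0 + u 0)) x] at hco
    calc dist x (c x (s 0 + u 0)) = ‖S.e (c x (s 0 + u 0)) - S.e x‖ := by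
          rw [S.e_isom, dist_comm]
      _ = ‖(V x).starProjection (S.e (c x (s 0 + u 0)) - S.e x) +
          (V x)ᗮ.starProjection (S.e (c x (s 0 + u 0)) - S.e x)‖ := by
          rw [Submodule.starProjection_add_starProjection_orthogonal]
      _ ≤ _ := (norm_add_le _ _).trans (by rw [e1]; linarith)
  linarith

end CBs

end Pool.MP85
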