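import Pool.Agent.Lib.MP_85e637_an.AbsC
import Pool.Agent.Lib.MP_85e637_an.A01
import Pool.Agent.Lib.MP_85e637_an.C03
import Pool.Agent.Lib.MP_85e637_an.C10
import Pool.Agent.Lib.MP_85e637_an.C11

/-!
# C12: parametrisation of the local stable sets
-/

open Filter Topology Set Metric Module

namespace Pool.MP85

/-- orthogonality and distance to a subspace -/
theorem C12_ortho {N : ℕ} (V : Submodule ℝ (EE N)) {w c : EE N} (hc : c ∈ V)
    (h : ∀ v ∈ V, inner ℝ (w - c) v = 0) :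
    ‖w - c‖ ≤ infDist w (V : Set (EE N)) ∧ ‖c‖ ≤ ‖w‖ := by
  have key : ∀ v ∈ V, ‖w - c‖ ^ 2 + ‖c - v‖ ^ 2 = ‖w - v‖ ^ 2 := by
    intro v hv
    have h1 : inner ℝ (w - c) (c - v) = 0 := h _ (V.sub_mem hc hv)
    have h2 : w - v = (w - c) + (c - v) := by abel
    have h3 := norm_add_sq_real (w - c) (c - v)
    rw [h1] at h3
    rw [h2, h3]
    ring
  constructor
  · rw [le_infDist ⟨0, V.zero_mem⟩]
    intro v hv
    rw [dist_eq_norm]
    have h1 := key v hv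
    have h2 : ‖w - c‖ ^ 2 ≤ ‖w - v‖ ^ 2 := by nlinarith [sq_nonneg ‖c - v‖]
    exact le_of_sq_le_sq h2 (norm_nonneg _)
  · have h1 := key 0 V.zero_mem
    rw [sub_zero, sub_zero] at h1
    have h2 : ‖c‖ ^ 2 ≤ ‖w‖ ^ 2 := by nlinarith [sq_nonneg ‖w - c‖]
    exact le_of_sq_le_sq h2 (norm_nonneg _)

section CBs
variable {d N k : ℕ} {K : Type} [MetricSpace K] [CompactSpace K] {S : ESys d N K} {R : Set K}
  {V : K → Submodule ℝ (EE N)}

/-- C12: the resulting parametrisation of the local stable sets by `V x`, jointly continuous -/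
theorem CB.param (h : CB S R V k) : ∃ ε1 > 0, ∀ ε > 0, ε ≤ ε1 → ∃ r > 0, ∃ Ψ : K → EE N → K,
    (∀ x ∈ R, ∀ a ∈ V x, ‖a‖ ≤ r → Ψ x a ∈ WSl S.f ε x ∧
      (∀ v ∈ V x, inner ℝ (S.e (Ψ x a) - S.e x - a) v = 0)) ∧
    (∀ x ∈ R, Ψ x 0 = x) ∧
    (∀ x ∈ R, ∀ a ∈ V x, ‖a‖ ≤ r → ∀ b ∈ V x, ‖b‖ ≤ r →
      dist (Ψ x a) (Ψ x b) ≤ 2 * ‖a - b‖ ∧ ‖a - b‖ ≤ dist (Ψ x a) (Ψ x b)) ∧
    (∀ x ∈ R, ∀ y ∈ WSl S.f ε x, dist x y ≤ r → ∃ a ∈ V x, ‖a‖ ≤ r ∧ y = Ψ x a) ∧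
    (∀ (x : ℕ → K) (a : ℕ → EE N) (x0 : K) (a0 : EE N), (∀ n, x n ∈ R) →
      (∀ n, a n ∈ V (x n)) → (∀ n, ‖a n‖ ≤ r) → Tendsto x atTop (𝓝 x0) →
      Tendsto a atTop (𝓝 a0) → Tendsto (fun n => Ψ (x n) (a n)) atTop (𝓝 (Ψ x0 a0))) := by
  classical
  obtain ⟨ε1, hε1, hcone⟩ := h.cone (1 / 2) (by norm_num)
  refine ⟨ε1, hε1, fun ε hε hεε => ?_⟩
  obtain ⟨r, hr, hex⟩ := h.exists_pt ε hε
  have hmono : ∀ x, WSl S.f ε x ⊆ WSl S.f ε1 x := fun x y hy n => (hy n).trans hεε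
  have hself : ∀ x, x ∈ WSl S.f ε x := fun x n => by rw [dist_self]; exact hε.le
  -- estimates
  have hest : ∀ x ∈ R, ∀ y ∈ WSl S.f ε x, ∀ y' ∈ WSl S.f ε x, ∀ c ∈ V x,
      (∀ v ∈ V x, inner ℝ (S.e y - S.e y' - c) v = 0) →
      dist y y' ≤ 2 * ‖c‖ ∧ ‖c‖ ≤ dist y y' := by
    intro x hx y hy y' hy' c hc hcv
    obtain ⟨h1, h2⟩ := C12_ortho (V x) hc hcv
    have h3 := hcone x hx y (hmono x hy) y' (hmono x hy')
    rw [S.e_isom] at h2
    refine ⟨?_, h2⟩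
    have h4 : dist y y' ≤ ‖S.e y - S.e y' - c‖ + ‖c‖ := by
      rw [← S.e_isom y y']
      have h5 := norm_add_le (S.e y - S.e y' - c) c
      rwa [sub_add_cancel] at h5
    linarith
  have huniq : ∀ x ∈ R, ∀ y ∈ WSl S.f ε x, ∀ y' ∈ WSl S.f ε x, ∀ a,
      (∀ v ∈ V x, inner ℝ (S.e y - S.e x - a) v = 0) →
      (∀ v ∈ V x, inner ℝ (S.e y' - S.e x - a) v = 0) → y = y' := by
    intro x hx y hy y' hy' a h1 h2
    have h3 := (hest x hx y hy y' hy' 0 (V x).zero_mem (fun v hv => by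
      have h4 : S.e y - S.e y' - 0 = (S.e y - S.e x - a) - (S.e y' - S.e x - a) := by abel
      rw [h4, inner_sub_left, h1 v hv, h2 v hv, sub_zero])).1
    rw [norm_zero, mul_zero] at h3
    exact dist_le_zero.1 h3
  -- the parametrisation
  have hex' : ∀ x a, ∃ y, (x ∈ R ∧ a ∈ V x ∧ ‖a‖ ≤ r → y ∈ WSl S.f ε x ∧
      (∀ v ∈ V x, inner ℝ (S.e y - S.e x - a) v = 0)) := by
    intro x a
    by_cases hxa : x ∈ R ∧ a ∈ V x ∧ ‖a‖ ≤ r
    · obtain ⟨y, hy, hy', -⟩ := hex x hxa.1 a hxa.2.1 hxa.2.2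
      exact ⟨y, fun _ => ⟨hy, hy'⟩⟩
    · exact ⟨x, fun hcon => absurd hcon hxa⟩
  choose Ψ hΨ using hex'
  refine ⟨r, hr, Ψ, ?_, ?_, ?_, ?_, ?_⟩
  · intro x hx a ha har
    exact hΨ x a ⟨hx, ha, har⟩
  · intro x hx
    obtain ⟨h1, h2⟩ := hΨ x 0 ⟨hx, (V x).zero_mem, by rw [norm_zero]; exact hr.le⟩
    refine huniq x hx _ h1 _ (hself x) 0 h2 (fun v _ => ?_)
    rw [sub_self, sub_zero, inner_zero_left]
  · intro x hx a ha har b hb hbr
    obtain ⟨h1, h2⟩ := hΨ x a ⟨hx, ha, har⟩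
    obtain ⟨h3, h4⟩ := hΨ x b ⟨hx, hb, hbr⟩
    refine hest x hx _ h1 _ h3 (a - b) ((V x).sub_mem ha hb) (fun v hv => ?_)
    have h5 : S.e (Ψ x a) - S.e (Ψ x b) - (a - b) =
        (S.e (Ψ x a) - S.e x - a) - (S.e (Ψ x b) - S.e x - b) := by abel
    rw [h5, inner_sub_left, h2 v hv, h4 v hv, sub_zero]
  · intro x hx y hy hyr
    have hc := (V x).starProjection_apply_mem (S.e y - S.e x)
    have hcv : ∀ v ∈ V x, inner ℝ (S.e y - S.e x - (V x).starProjection (S.e y - S.e x)) v = 0 :=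
      fun v hv => (V x).starProjection_inner_eq_zero (S.e y - S.e x) v hv
    have h1 := (C12_ortho (V x) hc hcv).2
    rw [S.e_isom, dist_comm] at h1
    have h2 := h1.trans hyr
    obtain ⟨h3, h4⟩ := hΨ x _ ⟨hx, hc, h2⟩
    exact ⟨_, hc, h2, huniq x hx y hy _ h3 _ hcv h4⟩
  · intro x a x0 a0 hx ha har hxl hal
    have hx0 : x0 ∈ R := h.cpt.isClosed.mem_of_tendsto hxl (Eventually.of_forall hx)
    have ha0 : a0 ∈ V x0 := h.closed x a x0 a0 hx ha hxl hal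
    have ha0r : ‖a0‖ ≤ r := le_of_tendsto hal.norm (Eventually.of_forall har)
    obtain ⟨h01, h02⟩ := hΨ x0 a0 ⟨hx0, ha0, ha0r⟩
    have hec : Continuous S.e := by
      have : Isometry S.e := Isometry.of_dist_eq fun y y' => by
        rw [dist_eq_norm, S.e_isom]
      exact this.continuous
    refine tendsto_of_subseq_tendsto fun ns hns => ?_
    obtain ⟨y0, φ, hφ, hy0⟩ := CompactSpace.tendsto_subseq (fun n => Ψ (x (ns n)) (a (ns n)))
    refine ⟨φ, ?_⟩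
    have hnφ : Tendsto (fun n => ns (φ n)) atTop atTop := hns.comp hφ.tendsto_atTop
    have hxl' : Tendsto (fun n => x (ns (φ n))) atTop (𝓝 x0) := hxl.comp hnφ
    have hal' : Tendsto (fun n => a (ns (φ n))) atTop (𝓝 a0) := hal.comp hnφ
    have hyl : Tendsto (fun n => Ψ (x (ns (φ n))) (a (ns (φ n)))) atTop (𝓝 y0) := hy0
    have hP : ∀ n, Ψ (x (ns (φ n))) (a (ns (φ n))) ∈ WSl S.f ε (x (ns (φ n))) ∧
        (∀ v ∈ V (x (ns (φ n))), inner ℝ (S.e (Ψ (x (ns (φ n))) (a (ns (φ n)))) -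
          S.e (x (ns (φ n))) - a (ns (φ n))) v = 0) :=
      fun n => hΨ _ _ ⟨hx _, ha _, har _⟩
    have h1 : y0 ∈ WSl S.f ε x0 := by
      intro m
      have hc1 : Tendsto (fun n => dist (fw S.f m (x (ns (φ n))))
          (fw S.f m (Ψ (x (ns (φ n))) (a (ns (φ n)))))) atTop
          (𝓝 (dist (fw S.f m x0) (fw S.f m y0))) :=
        (((continuous_fw (F := S.f) m).tendsto x0).comp hxl').dist
          (((continuous_fw (F := S.f) m).tendsto y0).comp hyl)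
      exact le_of_tendsto hc1 (Eventually.of_forall fun n => (hP n).1 m)
    have h2 : ∀ v ∈ V x0, inner ℝ (S.e y0 - S.e x0 - a0) v = 0 := by
      intro v hv
      obtain ⟨w, hw, hwl⟩ := sub_lower (V := V) (x := fun n => x (ns (φ n))) (x0 := x0) (k := k)
        (fun n => h.rank _ (hx _)) (h.rank _ hx0)
        (fun ψ w w0 hψ hw hw0 => h.closed (fun n => x (ns (φ (ψ n)))) w x0 w0 (fun n => hx _) hw
          (hxl'.comp hψ.tendsto_atTop) hw0) hv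
      have hc2 : Tendsto (fun n => inner ℝ (S.e (Ψ (x (ns (φ n))) (a (ns (φ n)))) -
          S.e (x (ns (φ n))) - a (ns (φ n))) (w n)) atTop
          (𝓝 (inner ℝ (S.e y0 - S.e x0 - a0) v)) :=
        ((((hec.tendsto y0).comp hyl).sub ((hec.tendsto x0).comp hxl')).sub hal').inner hwl
      have hc3 : (fun n => inner ℝ (S.e (Ψ (x (ns (φ n))) (a (ns (φ n)))) -
          S.e (x (ns (φ n))) - a (ns (φ n))) (w n)) = fun _ => (0 : ℝ) := by
        funext n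
        exact (hP n).2 _ (hw n)
      rw [hc3] at hc2
      exact (tendsto_nhds_unique hc2 tendsto_const_nhds)
    have h3 : y0 = Ψ x0 a0 := huniq x0 hx0 y0 h1 _ h01 a0 h2 h02
    rw [← h3]
    exact hyl
end CBs

end Pool.MP85
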