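import Pool.Agent.Lib.MP_85e637_an.AbsC
import Pool.Agent.Lib.MP_85e637_an.C01
import Pool.Agent.Lib.MP_85e637_an.C03
import Pool.Agent.Lib.MP_85e637_an.C09

set_option autoImplicit false

open Filter Topology Set Metric Module

namespace Pool.MP85

/-- restriction of a closed condition to a closed subset -/
theorem C13_restr {N : ℕ} {K : Type} [MetricSpace K] {R : Set K} {Q : K → EE N → Prop}
    (h : IsClosed {q : K × EE N | q.1 ∈ R ∧ Q q.1 q.2}) :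
    IsClosed {q : ↥R × EE N | Q q.1 q.2} := by
  have h1 : Continuous (Prod.map (Subtype.val : ↥R → K) (id : EE N → EE N)) :=
    continuous_subtype_val.prodMap continuous_id
  have h2 := h.preimage h1
  convert h2 using 1
  ext q
  constructor
  · intro hq
    exact ⟨q.1.2, hq⟩
  · intro hq
    exact hq.2

theorem sub_annih_R {N : ℕ} {K : Type} [MetricSpace K] {R : Set K}
    {T V : K → Submodule ℝ (EE N)} (hVT : ∀ x, V x ≤ T x)
    (hT : IsClosed {q : K × EE N | q.2 ∈ T q.1})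
    (hW : IsClosed {q : K × EE N | q.1 ∈ R ∧ q.2 ∈ T q.1 ∧ ∀ v ∈ V q.1, inner ℝ q.2 v = 0})
    {d k : ℕ} (hd : ∀ x, finrank ℝ (T x) = d) {x : ℕ → K} {x0 : K}
    (hxR : ∀ n, x n ∈ R) (hx0R : x0 ∈ R)
    (hx : Tendsto x atTop (𝓝 x0)) (hk : ∀ n, finrank ℝ (V (x n)) = k)
    (hk0 : finrank ℝ (V x0) = k) {v : ℕ → EE N} {v0 : EE N} (hv : ∀ n, v n ∈ V (x n))
    (hv0 : Tendsto v atTop (𝓝 v0)) : v0 ∈ V x0 := by
  have h1 : IsClosed {q : ↥R × EE N | q.2 ∈ T q.1} :=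
    hT.preimage (continuous_subtype_val.prodMap continuous_id)
  have h2 : IsClosed {q : ↥R × EE N | q.2 ∈ T q.1 ∧ ∀ v ∈ V q.1, inner ℝ q.2 v = 0} :=
    C13_restr (Q := fun x ξ => ξ ∈ T x ∧ ∀ v ∈ V x, inner ℝ ξ v = 0) hW
  have h3 : Tendsto (fun n => (⟨x n, hxR n⟩ : ↥R)) atTop (𝓝 ⟨x0, hx0R⟩) :=
    tendsto_subtype_rng.2 hx
  exact sub_annih (K := ↥R) (T := fun y => T y) (V := fun y => V y) (fun y => hVT y) h1 h2
    (fun y => hd y) h3 hk hk0 hv hv0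

theorem sub_annih_semicont_R {N : ℕ} {K : Type} [MetricSpace K] {R : Set K} (hR : IsClosed R)
    {T V : K → Submodule ℝ (EE N)} (hVT : ∀ x, V x ≤ T x)
    (hW : IsClosed {q : K × EE N | q.1 ∈ R ∧ q.2 ∈ T q.1 ∧ ∀ v ∈ V q.1, inner ℝ q.2 v = 0})
    {d : ℕ} (hd : ∀ x, finrank ℝ (T x) = d) (k : ℕ) :
    IsClosed {x | x ∈ R ∧ finrank ℝ (V x) ≤ k} := by
  have h2 : IsClosed {q : ↥R × EE N | q.2 ∈ T q.1 ∧ ∀ v ∈ V q.1, inner ℝ q.2 v = 0} :=
    C13_restr (Q := fun x ξ => ξ ∈ T x ∧ ∀ v ∈ V x, inner ℝ ξ v = 0) hW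
  have h3 : IsClosed {y : ↥R | finrank ℝ (V y) ≤ k} :=
    sub_annih_semicont (K := ↥R) (T := fun y => T y) (V := fun y => V y) (fun y => hVT y) h2
      (fun y => hd y) k
  have h4 := hR.isClosedEmbedding_subtypeVal.isClosedMap _ h3
  convert h4 using 1
  ext y
  constructor
  · rintro ⟨hy, hk⟩
    exact ⟨⟨y, hy⟩, hk, rfl⟩
  · rintro ⟨z, hz, rfl⟩
    exact ⟨z.2, hz⟩

namespace GSys
variable {d N : ℕ} {K : Type} [MetricSpace K] [CompactSpace K] (S : GSys d N K)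

theorem C13_s_le (k : ℕ) : IsClosed {x | x ∈ S.R ∧ finrank ℝ (S.Es x) ≤ k} :=
  sub_annih_semicont_R S.R_closed (fun x => S.toCoc.Es_le x) S.closed_s S.rankP k

theorem C13_u_le (k : ℕ) : IsClosed {x | x ∈ S.R ∧ finrank ℝ (S.Eu x) ≤ k} :=
  sub_annih_semicont_R S.R_closed (fun x => S.toCoc.Eu_le x) S.closed_u S.rankP k

theorem C13_dim {x : K} (hx : x ∈ S.R) : d ≤ finrank ℝ (S.Es x) + finrank ℝ (S.Eu x) := by
  have h1 := Submodule.finrank_mono (S.trans x hx)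
  rw [S.rankP x] at h1
  exact h1.trans (Submodule.finrank_add_le_finrank_add_finrank _ _)

theorem C13_closed_T : IsClosed {q : K × EE N | q.2 ∈ S.T q.1} := by
  have h1 : {q : K × EE N | q.2 ∈ S.T q.1} = {q : K × EE N | S.P q.1 q.2 = q.2} := by
    ext q
    exact S.toCoc.mem_T
  rw [h1]
  exact isClosed_eq ((S.contP.comp continuous_fst).clm_apply continuous_snd) continuous_snd

theorem closed_le1 : IsClosed (S.Src ∪ S.S1) := by
  have h1 : S.Src ∪ S.S1 = {x | x ∈ S.R ∧ finrank ℝ (S.Es x) ≤ 1} := by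
    ext x
    simp only [Src, S1, mem_union, mem_ofPred_eq]
    rw [← and_or_left]
    refine and_congr_right fun _ => ?_
    omega
  rw [h1]
  exact S.C13_s_le 1

theorem closed_H : IsClosed S.H := by
  rcases Nat.eq_zero_or_pos d with hd | hd
  · have h1 : S.H = ∅ := by
      ext x
      simp only [H, mem_ofPred_eq, mem_empty_iff_false, iff_false]
      omega
    rw [h1]
    exact isClosed_empty
  · have h1 : S.H = {x | x ∈ S.R ∧ finrank ℝ (S.Es x) ≤ 1} ∩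
        {x | x ∈ S.R ∧ finrank ℝ (S.Eu x) ≤ d - 1} := by
      ext x
      simp only [H, mem_ofPred_eq, mem_inter_iff]
      constructor
      · rintro ⟨h1, h2, h3⟩
        exact ⟨⟨h1, by omega⟩, h1, by omega⟩
      · rintro ⟨⟨h1, h2⟩, -, h3⟩
        have := S.C13_dim h1
        exact ⟨h1, by omega, by omega⟩
    rw [h1]
    exact (S.C13_s_le 1).inter (S.C13_u_le (d - 1))

theorem H_inv {x : K} : S.f x ∈ S.H ↔ x ∈ S.H := by
  simp only [H, mem_ofPred_eq]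
  rw [S.toCoc.finrank_Es_f, S.toCoc.finrank_Eu_f, S.R_inv]

theorem S1_inv {x : K} : S.f x ∈ S.S1 ↔ x ∈ S.S1 := by
  simp only [S1, mem_ofPred_eq]
  rw [S.toCoc.finrank_Es_f, S.R_inv]

theorem Src_inv {x : K} : S.f x ∈ S.Src ↔ x ∈ S.Src := by
  simp only [Src, mem_ofPred_eq]
  rw [S.toCoc.finrank_Es_f, S.R_inv]

theorem closed_Es1 {x : ℕ → K} {x0 : K} {v : ℕ → EE N} {v0 : EE N} (hx : ∀ n, x n ∈ S.S1)
    (hx0 : x0 ∈ S.S1) (h : Tendsto x atTop (𝓝 x0)) (hv : ∀ n, v n ∈ S.Es (x n))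
    (h' : Tendsto v atTop (𝓝 v0)) : v0 ∈ S.Es x0 :=
  sub_annih_R (T := S.T) (V := S.Es) (fun x => S.toCoc.Es_le x) S.C13_closed_T S.closed_s S.rankP
    (fun n => (hx n).1) hx0.1 h (fun n => (hx n).2) hx0.2 hv h'

theorem closed_EuH {x : ℕ → K} {x0 : K} {v : ℕ → EE N} {v0 : EE N} (hx : ∀ n, x n ∈ S.H)
    (h : Tendsto x atTop (𝓝 x0)) (hv : ∀ n, v n ∈ S.Eu (x n))
    (h' : Tendsto v atTop (𝓝 v0)) : v0 ∈ S.Eu x0 := by
  have hx0 : x0 ∈ S.H := S.closed_H.mem_of_tendsto h (Eventually.of_forall hx)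
  exact sub_annih_R (T := S.T) (V := S.Eu) (k := d - 1) (fun x => S.toCoc.Eu_le x) S.C13_closed_T
    S.closed_u S.rankP (fun n => (hx n).1) hx0.1 h (fun n => by have := (hx n).2.2; omega)
    (by have := hx0.2.2; omega) hv h'

theorem cb_u : CB S.toESys.inv S.H S.Eu (d - 1) where
  cpt := S.closed_H.isCompact
  inv := fun x hx => by
    have h1 : S.f (S.f.symm x) ∈ S.H := by rwa [S.f.apply_symm_apply]
    exact S.H_inv.1 h1
  le := fun x _ => S.toCoc.Eu_le x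
  rank := fun x hx => by have := hx.2.2; omega
  closed := fun x v x0 v0 hx hv h h' => S.closed_EuH hx h hv h'
  map := fun x _ v hv => (S.toCoc.symm.Es_map (S.toCoc.Eu_le x hv)).2 hv
  con := fun x hx v hv => by
    have h1 := S.con_u x hx.1 hx.2.1 hx.2.2 v hv
    have h2 : 0 ≤ ‖S.A' (S.f.symm x) v‖ := norm_nonneg _
    have h3 : 8 * ‖S.A' (S.f.symm x) v‖ ≤ ‖v‖ := by linarith
    exact h3
  exp := fun x hx v hv => by
    have h1 := S.exp_u x hx.1 v hv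
    have h2 : 0 ≤ infDist v (S.Eu x : Set (EE N)) := infDist_nonneg
    have h3 : 8 * infDist v (S.Eu x) ≤ infDist (S.A' (S.f.symm x) v) (S.Eu (S.f.symm x)) := by
      linarith
    exact h3

theorem cb_s : CB S.toESys S.H S.Es 1 where
  cpt := S.closed_H.isCompact
  inv := fun x hx => S.H_inv.2 hx
  le := fun x _ => S.toCoc.Es_le x
  rank := fun x hx => hx.2.1
  closed := fun x v x0 v0 hx hv h h' =>
    S.closed_Es1 (fun n => ⟨(hx n).1, (hx n).2.1⟩)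
      ⟨(S.closed_H.mem_of_tendsto h (Eventually.of_forall hx)).1,
        (S.closed_H.mem_of_tendsto h (Eventually.of_forall hx)).2.1⟩ h hv h'
  map := fun x _ v hv => (S.toCoc.Es_map (S.toCoc.Es_le x hv)).2 hv
  con := fun x hx v hv => by
    have h1 := S.con_s x hx.1 hx.2.1 hx.2.2 v hv
    have h2 : 0 ≤ ‖S.A x v‖ := norm_nonneg _
    linarith
  exp := fun x hx v hv => by
    have h1 := S.exp_s x hx.1 v hv
    have h2 : 0 ≤ infDist v (S.Es x : Set (EE N)) := infDist_nonneg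
    linarith

theorem C13_disj {x : K} (hx : x ∈ S.H) {v : EE N} (h1 : v ∈ S.Es x) (h2 : v ∈ S.Eu x) :
    v = 0 := by
  have e1 := Submodule.finrank_sup_add_finrank_inf_eq (S.Es x) (S.Eu x)
  have e2 := Submodule.finrank_mono (S.trans x hx.1)
  rw [S.rankP x] at e2
  have e3 := hx.2.1
  have e4 := hx.2.2
  have e5 : finrank ℝ (S.Es x ⊓ S.Eu x : Submodule ℝ (EE N)) = 0 := by
    have e3' : finrank ℝ (S.Es x) = 1 := e3
    have e4' : finrank ℝ (S.Eu x) + 1 = d := e4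
    omega
  have e6 : (S.Es x ⊓ S.Eu x : Submodule ℝ (EE N)) = ⊥ := Submodule.finrank_eq_zero.1 e5
  have e7 : v ∈ (S.Es x ⊓ S.Eu x : Submodule ℝ (EE N)) := ⟨h1, h2⟩
  rw [e6] at e7
  exact e7

theorem angle : ∃ c > 0, ∀ x ∈ S.H, ∀ v ∈ S.Es x, c * ‖v‖ ≤ infDist v (S.Eu x) := by
  by_contra hcon
  push Not at hcon
  have hex : ∀ n : ℕ, ∃ (x : K) (v w : EE N), x ∈ S.H ∧ v ∈ S.Es x ∧ w ∈ S.Eu x ∧ ‖v‖ = 1 ∧
      dist v w < 1 / ((n : ℝ) + 1) := by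
    intro n
    have hn : (0 : ℝ) < 1 / ((n : ℝ) + 1) := by positivity
    obtain ⟨x, hx, v, hv, h1⟩ := hcon _ hn
    have hv0 : 0 < ‖v‖ := by
      rcases (norm_nonneg v).lt_or_eq with h2 | h2
      · exact h2
      · rw [← h2, mul_zero] at h1
        exact absurd h1 (not_lt.2 infDist_nonneg)
    obtain ⟨w, hw, h2⟩ := (infDist_lt_iff (s := (S.Eu x : Set (EE N)))
      ⟨0, (S.Eu x).zero_mem⟩).1 h1
    refine ⟨x, ‖v‖⁻¹ • v, ‖v‖⁻¹ • w, hx, (S.Es x).smul_mem _ hv, (S.Eu x).smul_mem _ hw, ?_, ?_⟩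
    · rw [norm_smul, norm_inv, norm_norm, inv_mul_cancel₀ hv0.ne']
    · rw [dist_smul₀, norm_inv, norm_norm, inv_mul_lt_iff₀ hv0]
      rwa [mul_comm]
  choose x v w hx hv hw hv1 hvw using hex
  -- subsequences
  have hc1 : IsCompact (S.H ×ˢ closedBall (0 : EE N) 1) :=
    S.closed_H.isCompact.prod (isCompact_closedBall _ _)
  obtain ⟨⟨x0, v0⟩, hmem, φ, hφ, hlim⟩ := hc1.tendsto_subseq (x := fun n => (x n, v n))
    (fun n => ⟨hx n, by simp [hv1 n]⟩)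
  have hlx : Tendsto (fun n => x (φ n)) atTop (𝓝 x0) :=
    (continuous_fst.tendsto _).comp hlim
  have hlv : Tendsto (fun n => v (φ n)) atTop (𝓝 v0) :=
    (continuous_snd.tendsto _).comp hlim
  have hlw : Tendsto (fun n => w (φ n)) atTop (𝓝 v0) := by
    have h1 : Tendsto (fun n : ℕ => 1 / ((n : ℝ) + 1)) atTop (𝓝 0) :=
      tendsto_one_div_add_atTop_nhds_zero_nat
    have h2 : Tendsto (fun n => dist (v (φ n)) (w (φ n))) atTop (𝓝 0) :=
      squeeze_zero (fun n => dist_nonneg) (fun n => (hvw (φ n)).le)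
        (h1.comp hφ.tendsto_atTop)
    rw [tendsto_iff_dist_tendsto_zero]
    have h3 : Tendsto (fun n => dist (v (φ n)) v0) atTop (𝓝 0) :=
      tendsto_iff_dist_tendsto_zero.1 hlv
    refine squeeze_zero (fun n => dist_nonneg) (fun n => ?_) (by simpa using h2.add h3)
    exact dist_triangle_left _ _ _
  have hH0 : x0 ∈ S.H := hmem.1
  have h1 : v0 ∈ S.Es x0 := S.closed_Es1 (fun n => ⟨(hx (φ n)).1, (hx (φ n)).2.1⟩)
    ⟨hH0.1, hH0.2.1⟩ hlx (fun n => hv (φ n)) hlv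
  have h2 : v0 ∈ S.Eu x0 := S.closed_EuH (fun n => hx (φ n)) hlx (fun n => hw (φ n)) hlw
  have h3 := S.C13_disj hH0 h1 h2
  have h4 : Tendsto (fun n => ‖v (φ n)‖) atTop (𝓝 ‖v0‖) := hlv.norm
  have h5 : (fun n => ‖v (φ n)‖) = fun _ => (1 : ℝ) := by
    funext n
    exact hv1 (φ n)
  rw [h5, h3, norm_zero] at h4
  exact one_ne_zero (tendsto_nhds_unique tendsto_const_nhds h4)

theorem mem_S1_of_H {x : K} (hx : x ∈ S.H) : x ∈ S.S1 := ⟨hx.1, hx.2.1⟩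

theorem Om_S1 : S.Om ∩ S.S1 ⊆ S.H := by
  rintro x ⟨h1, h2⟩
  have h3 := S.Om_dim x h1
  have h4 : finrank ℝ (S.Es x) = 1 := h2.2
  exact ⟨h2.1, h4, by omega⟩

theorem Om_loc : ∀ y ∈ S.Om ∩ S.S1, ∀ᶠ q in 𝓝 y, q ∈ S.Om → q ∈ S.S1 := by
  rintro y ⟨hy1, hy2⟩
  have hyH := S.Om_S1 ⟨hy1, hy2⟩
  have hs : finrank ℝ (S.Es y) = 1 := hyH.2.1
  have hu : finrank ℝ (S.Eu y) + 1 = d := hyH.2.2
  have e1 : ∀ᶠ q in 𝓝 y, q ∈ S.R → ¬ finrank ℝ (S.Es q) ≤ 0 := by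
    have h1 : ∀ᶠ q in 𝓝 y, q ∈ {x | x ∈ S.R ∧ finrank ℝ (S.Es x) ≤ 0}ᶜ :=
      (S.C13_s_le 0).isOpen_compl.mem_nhds (by
        rintro ⟨-, h⟩
        omega)
    filter_upwards [h1] with q hq hqR h
    exact hq ⟨hqR, h⟩
  have e2 : ∀ᶠ q in 𝓝 y, q ∈ S.R → ¬ finrank ℝ (S.Eu q) + 2 ≤ d := by
    rcases Nat.lt_or_ge d 2 with h | h
    · exact Eventually.of_forall fun q _ => by omega
    · have h1 : ∀ᶠ q in 𝓝 y, q ∈ {x | x ∈ S.R ∧ finrank ℝ (S.Eu x) ≤ d - 2}ᶜ :=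
        (S.C13_u_le (d - 2)).isOpen_compl.mem_nhds (by
          rintro ⟨-, h⟩
          omega)
      filter_upwards [h1] with q hq hqR h2
      exact hq ⟨hqR, by omega⟩
  filter_upwards [e1, e2] with q h1 h2 h3
  have h4 := S.Om_dim q h3
  have h5 := h1 (S.Om_R h3)
  have h6 := h2 (S.Om_R h3)
  exact ⟨S.Om_R h3, by omega⟩

omit [CompactSpace K] in
theorem C13_cluster {u v : ℕ → K} (h : Tendsto (fun n => dist (u n) (v n)) atTop (𝓝 0)) {z : K}
    (hz : MapClusterPt z atTop u) : MapClusterPt z atTop v := by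
  rw [mapClusterPt_iff_frequently] at hz ⊢
  intro s hs
  obtain ⟨ε, hε, hball⟩ := Metric.mem_nhds_iff.1 hs
  have h1 := hz (ball z (ε / 2)) (ball_mem_nhds z (half_pos hε))
  have h2 : ∀ᶠ n in atTop, dist (u n) (v n) < ε / 2 := h.eventually (gt_mem_nhds (half_pos hε))
  refine (h1.and_eventually h2).mono ?_
  rintro n ⟨h3, h4⟩
  apply hball
  rw [mem_ball] at h3 ⊢
  have := dist_triangle_left (v n) z (u n)
  linarith

theorem finrank_WS {x : K} (hx : x ∈ S.H) {y : K} (hy : y ∈ WS S.f x) :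
    finrank ℝ (S.Es y) = 1 := by
  obtain ⟨z, -, hz⟩ := (isCompact_univ (X := K)).exists_mapClusterPt
    (u := fun n => fw S.f n x) (f := atTop) (by simp)
  have h1 := S.dim_fw x z hz
  have h2 := S.dim_fw y z (C13_cluster hy hz)
  rw [h2, ← h1]
  exact hx.2.1

theorem H_WU {x : K} (hx : x ∈ S.H) {y : K} (hy : y ∈ WU S.f x) (hy1 : y ∈ S.S1) :
    y ∈ S.H := by
  obtain ⟨z, -, hz⟩ := (isCompact_univ (X := K)).exists_mapClusterPt
    (u := fun n => bk S.f n x) (f := atTop) (by simp)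
  have h1 := S.dim_bk x z hz
  have h2 := S.dim_bk y z (C13_cluster hy hz)
  refine ⟨hy1.1, hy1.2, ?_⟩
  rw [h2, ← h1]
  exact hx.2.2

end GSys

end Pool.MP85
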