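import Pool.Agent.Lib.MP_85e637_an.AbsC
import Pool.Agent.Lib.MP_85e637_an.A01
import Pool.Agent.Lib.MP_85e637_an.C10
import Pool.Agent.Lib.MP_85e637_an.C12
import Pool.Agent.Lib.MP_85e637_an.C13

/-!
# C14a: expansivity, contraction on local manifolds, signed height over an unstable plaque
-/

open Filter Topology Set Metric Module

namespace Pool.MP85

section Aux
variable {E : Type*} [NormedAddCommGroup E] [InnerProductSpace ℝ E]

theorem C14_proj_le (V : Submodule ℝ E) [V.HasOrthogonalProjection] (x : E) :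
    ‖x - V.starProjection x‖ ≤ infDist x (V : Set E) := by
  rw [Metric.le_infDist ⟨0, V.zero_mem⟩]
  intro v hv
  rw [dist_eq_norm]
  have h1 : inner ℝ (x - V.starProjection x) (V.starProjection x - v) = 0 :=
    V.sub_starProjection_mem_orthogonal x |> fun h => by
      rw [Submodule.mem_orthogonal'] at h
      exact h _ (V.sub_mem (V.starProjection_apply_mem x) hv)
  have h2 : x - v = (x - V.starProjection x) + (V.starProjection x - v) := by abel
  have h3 : ‖x - v‖ * ‖x - v‖ = ‖x - V.starProjection x‖ * ‖x - V.starProjection x‖ +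
      ‖V.starProjection x - v‖ * ‖V.starProjection x - v‖ := by
    rw [h2]
    exact norm_add_sq_eq_norm_sq_add_norm_sq_of_inner_eq_zero _ _ h1
  have h4 : 0 ≤ ‖V.starProjection x - v‖ * ‖V.starProjection x - v‖ := by positivity
  nlinarith [norm_nonneg (x - V.starProjection x), norm_nonneg (x - v)]

theorem C14_inner (V : Submodule ℝ E) [V.HasOrthogonalProjection] (x : E) {v : E} (hv : v ∈ V) :
    inner ℝ (x - V.starProjection x) v = 0 := by
  have h := V.sub_starProjection_mem_orthogonal x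
  rw [Submodule.mem_orthogonal'] at h
  exact h _ hv

theorem C14_uniq (V : Submodule ℝ E) [V.HasOrthogonalProjection] {x v : E} (hv : v ∈ V)
    (h : ∀ u ∈ V, inner ℝ (x - v) u = 0) : V.starProjection x = v :=
  (Submodule.eq_starProjection_of_mem_of_inner_eq_zero hv h)

end Aux

namespace GSys
variable {d N : ℕ} {K : Type} [MetricSpace K] [CompactSpace K] (S : GSys d N K)

theorem H_u : ∃ ε > 0, ∀ x ∈ S.H, ∀ y ∈ WUl S.f ε x, ∀ y' ∈ WUl S.f ε x,
    4 * dist (S.f.symm y) (S.f.symm y') ≤ dist y y' := S.cb_u.contr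

theorem H_s : ∃ ε > 0, ∀ x ∈ S.H, ∀ y ∈ WSl S.f ε x, ∀ y' ∈ WSl S.f ε x,
    4 * dist (S.f y) (S.f y') ≤ dist y y' := S.cb_s.contr

theorem C14_cone_u : ∀ η > 0, ∃ ε > 0, ∀ x ∈ S.H, ∀ y ∈ WUl S.f ε x,
    ∀ y' ∈ WUl S.f ε x, infDist (S.e y - S.e y') (S.Eu x) ≤ η * dist y y' := S.cb_u.cone

theorem C14_cone_s : ∀ η > 0, ∃ ε > 0, ∀ x ∈ S.H, ∀ y ∈ WSl S.f ε x,
    ∀ y' ∈ WSl S.f ε x, infDist (S.e y - S.e y') (S.Es x) ≤ η * dist y y' := S.cb_s.cone

theorem C14_param_u : ∃ ε1 > 0, ∀ ε > 0, ε ≤ ε1 → ∃ r > 0, ∃ Ψ : K → EE N → K,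
    (∀ x ∈ S.H, ∀ a ∈ S.Eu x, ‖a‖ ≤ r → Ψ x a ∈ WUl S.f ε x ∧
      (∀ v ∈ S.Eu x, inner ℝ (S.e (Ψ x a) - S.e x - a) v = 0)) ∧
    (∀ x ∈ S.H, Ψ x 0 = x) ∧
    (∀ x ∈ S.H, ∀ a ∈ S.Eu x, ‖a‖ ≤ r → ∀ b ∈ S.Eu x, ‖b‖ ≤ r →
      dist (Ψ x a) (Ψ x b) ≤ 2 * ‖a - b‖) ∧
    (∀ x ∈ S.H, ∀ y ∈ WUl S.f ε x, dist x y ≤ r → ∃ a ∈ S.Eu x, ‖a‖ ≤ r ∧ y = Ψ x a) := by
  obtain ⟨ε1, hε1, h⟩ := S.cb_u.param
  refine ⟨ε1, hε1, fun ε hε hεε => ?_⟩
  obtain ⟨r, hr, Ψ, h1, h2, h3, h4, -⟩ := h ε hε hεε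
  exact ⟨r, hr, Ψ, h1, h2, fun x hx a ha har b hb hbr => (h3 x hx a ha har b hb hbr).1, h4⟩

theorem wsl_self' {ε : ℝ} (hε : 0 ≤ ε) (x : K) : x ∈ WSl S.f ε x := by
  intro n
  rw [dist_self]
  exact hε

theorem H_exp : ∃ ε > 0, ∀ x ∈ S.H, ∀ y, y ∈ WSl S.f ε x → y ∈ WUl S.f ε x → y = x := by
  obtain ⟨c, hc, hang⟩ := S.angle
  set η := min (1 / 4) (c / 8) with hη
  have hη0 : 0 < η := lt_min (by norm_num) (by positivity)
  have hη1 : η ≤ 1 / 4 := min_le_left _ _
  have hη2 : η ≤ c / 8 := min_le_right _ _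
  obtain ⟨εu, hεu, hu⟩ := S.C14_cone_u η hη0
  obtain ⟨εs, hεs, hs⟩ := S.C14_cone_s η hη0
  refine ⟨min εu εs, lt_min hεu hεs, fun x hx y hys hyu => ?_⟩
  have h1 := hu x hx y (wul_mono (min_le_left _ _) hyu) x (wul_self hεu.le)
  have h2 := hs x hx y (fun n => (hys n).trans (min_le_right _ _)) x (S.wsl_self' hεs.le x)
  set Δ := S.e y - S.e x with hΔ
  have hn : ‖Δ‖ = dist y x := S.e_isom y x
  set v := (S.Es x).starProjection Δ with hv
  have h3 : ‖Δ - v‖ ≤ η * dist y x := (C14_proj_le _ Δ).trans h2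
  have h4 : infDist v (S.Eu x : Set (EE N)) ≤ infDist Δ (S.Eu x : Set (EE N)) + dist v Δ :=
    infDist_le_infDist_add_dist
  rw [dist_eq_norm, norm_sub_rev] at h4
  have h5 : c * ‖v‖ ≤ infDist v (S.Eu x : Set (EE N)) :=
    hang x hx v (Submodule.starProjection_apply_mem _ _)
  have h6 : ‖Δ‖ - ‖Δ - v‖ ≤ ‖v‖ := by
    have := norm_sub_norm_le Δ (Δ - v)
    simpa using this
  by_contra hne
  have hpos : 0 < dist y x := dist_pos.2 hne
  have h7 : c * ((1 - η) * dist y x) ≤ 2 * η * dist y x := by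
    calc c * ((1 - η) * dist y x) ≤ c * ‖v‖ := by
          apply mul_le_mul_of_nonneg_left _ hc.le
          rw [hn] at h6
          linarith
      _ ≤ _ := by linarith
  have h8 : c * (1 - η) ≤ 2 * η := by
    have : (c * (1 - η)) * dist y x ≤ (2 * η) * dist y x := by linarith
    exact le_of_mul_le_mul_right this hpos
  nlinarith

theorem height : ∃ ε1 > 0, ∀ ε > 0, ε ≤ ε1 → ∃ r > 0, ∃ c > 0, ∃ ζ : K → EE N → K → ℝ,
    ∀ b ∈ S.H, ∀ w ∈ S.Es b, ‖w‖ = 1 →
      (∀ y, dist b y ≤ r → (ζ b w y = 0 ↔ y ∈ WUl S.f ε b)) ∧ ζ b w b = 0 ∧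
      (∀ y y', dist b y ≤ r → dist b y' ≤ r → |ζ b w y - ζ b w y'| ≤ c⁻¹ * dist y y') ∧
      (∀ y y' (l : ℝ), dist b y ≤ r → dist b y' ≤ r → 0 ≤ l →
        ‖S.e y' - S.e y - l • w‖ ≤ c * l → c * l ≤ ζ b w y' - ζ b w y) := by
  obtain ⟨c0, hc0, hang⟩ := S.angle
  set η := c0 ^ 2 / 16 with hη
  have hη0 : 0 < η := by positivity
  obtain ⟨εc, hεc, hcone⟩ := S.C14_cone_u η hη0
  obtain ⟨εp, hεp, hparam⟩ := S.C14_param_u
  obtain ⟨ρ, hρ, hflat⟩ := S.flat (1 / 2) (by norm_num)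
  refine ⟨min εc εp, lt_min hεc hεp, fun ε hε hεε => ?_⟩
  obtain ⟨r1, hr1, Ψ, hΨ, hΨ0, hΨL, hΨs⟩ := hparam ε hε (hεε.trans (min_le_right _ _))
  set r := min r1 (ρ / 4) with hr
  have hr0 : 0 < r := lt_min hr1 (by positivity)
  have hrr1 : r ≤ r1 := min_le_left _ _
  have hrρ : r ≤ ρ / 4 := min_le_right _ _
  set c := min (1 / 3) (c0 ^ 2 / 16) with hc
  have hcpos : 0 < c := lt_min (by norm_num) (by positivity)
  have hc1 : c ≤ 1 / 3 := min_le_left _ _
  have hc2 : c ≤ c0 ^ 2 / 16 := min_le_right _ _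
  set a : K → K → EE N := fun b y => (S.Eu b).starProjection (S.e y - S.e b) with ha
  refine ⟨r, hr0, c, hcpos, fun b w y => inner ℝ (S.e y - S.e (Ψ b (a b y))) w, ?_⟩
  intro b hb w hw hw1
  have haE : ∀ y, a b y ∈ S.Eu b := fun y => Submodule.starProjection_apply_mem _ _
  have haN : ∀ y, ‖a b y‖ ≤ dist b y := by
    intro y
    refine ((S.Eu b).norm_starProjection_apply_le _).trans ?_
    rw [S.e_isom, dist_comm]
  have haL : ∀ y y', a b y - a b y' = (S.Eu b).starProjection (S.e y - S.e y') := by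
    intro y y'
    simp only [ha]
    rw [← map_sub]
    congr 1
    abel
  have haLn : ∀ y y', ‖a b y - a b y'‖ ≤ dist y y' := by
    intro y y'
    rw [haL]
    refine ((S.Eu b).norm_starProjection_apply_le _).trans ?_
    rw [S.e_isom]
  have hΨd : ∀ y y', dist b y ≤ r → dist b y' ≤ r →
      dist (Ψ b (a b y)) (Ψ b (a b y')) ≤ 2 * ‖a b y - a b y'‖ := fun y y' hy hy' =>
    hΨL b hb _ (haE y) ((haN y).trans (hy.trans hrr1)) _ (haE y')
      ((haN y').trans (hy'.trans hrr1))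
  have hpb : ∀ y, dist b y ≤ r → (S.Eu b).starProjection (S.e (Ψ b (a b y)) - S.e b) = a b y := by
    intro y hy
    apply C14_uniq _ (haE y)
    exact (hΨ b hb _ (haE y) ((haN y).trans (hy.trans hrr1))).2
  have hw2 : inner ℝ w w = (1 : ℝ) := by
    rw [real_inner_self_eq_norm_sq, hw1]; norm_num
  have hTb : ∀ v ∈ S.T b, ∀ z : EE N, inner ℝ z w = (0 : ℝ) → (∀ u ∈ S.Eu b, inner ℝ z u = (0 : ℝ)) →
      inner ℝ z v = (0 : ℝ) := by
    intro v hv z hz1 hz2
    obtain ⟨v1, hv1, v2, hv2, rfl⟩ := Submodule.mem_sup.1 (S.trans b hb.1 hv)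
    have hfr : finrank ℝ (S.Es b) = 1 := hb.2.1
    obtain ⟨t, ht⟩ : ∃ t : ℝ, t • w = v1 := by
      have hw0 : (⟨w, hw⟩ : S.Es b) ≠ 0 := by
        intro h
        have : w = 0 := congrArg Subtype.val h
        rw [this, norm_zero] at hw1
        norm_num at hw1
      obtain ⟨t, ht⟩ := (finrank_eq_one_iff_of_nonzero' (⟨w, hw⟩ : S.Es b) hw0).1 hfr ⟨v1, hv1⟩
      exact ⟨t, congrArg Subtype.val ht⟩
    rw [inner_add_right, hz2 v2 hv2, ← ht, inner_smul_right, hz1]
    simp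
  refine ⟨fun y hy => ⟨fun h0 => ?_, fun hyu => ?_⟩, ?_, ?_, ?_⟩
  · -- zero implies on the plaque
    have hΨy := hΨ b hb _ (haE y) ((haN y).trans (hy.trans hrr1))
    have hz2 : ∀ u ∈ S.Eu b, inner ℝ (S.e y - S.e (Ψ b (a b y))) u = (0 : ℝ) := by
      intro u hu
      have h1 : inner ℝ (S.e y - S.e b - a b y) u = (0 : ℝ) := C14_inner _ _ hu
      have h2 := hΨy.2 u hu
      have h3 : S.e y - S.e (Ψ b (a b y)) =
          (S.e y - S.e b - a b y) - (S.e (Ψ b (a b y)) - S.e b - a b y) := by abel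
      rw [h3, inner_sub_left, h1, h2, sub_zero]
    have hP : S.P b (S.e y - S.e (Ψ b (a b y))) = 0 := by
      have h1 : inner ℝ (S.P b (S.e y - S.e (Ψ b (a b y)))) (S.P b (S.e y - S.e (Ψ b (a b y)))) =
          (0 : ℝ) := by
        rw [S.Psa]
        have h2 : S.P b (S.P b (S.e y - S.e (Ψ b (a b y)))) ∈ S.T b := ⟨_, rfl⟩
        exact hTb _ h2 _ h0 hz2
      exact inner_self_eq_zero.1 h1
    have hd2 : dist b (Ψ b (a b y)) < ρ := by
      have h1 := hΨL b hb 0 (Submodule.zero_mem _) (by rw [norm_zero]; exact hr1.le) _ (haE y)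
        ((haN y).trans (hy.trans hrr1))
      rw [hΨ0 b hb, zero_sub, norm_neg] at h1
      have h2 := haN y
      linarith
    have hfl := hflat b y (Ψ b (a b y)) (by linarith) hd2
    rw [hP, sub_zero, S.e_isom] at hfl
    have h3 : dist y (Ψ b (a b y)) = 0 := le_antisymm (by linarith [dist_nonneg (x := y) (y := Ψ b (a b y))]) dist_nonneg
    rw [dist_eq_zero.1 h3]
    exact hΨy.1
  · -- on the plaque implies zero
    obtain ⟨a', ha', har', hya'⟩ := hΨs b hb y hyu (hy.trans hrr1)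
    have h1 : a b y = a' := by
      simp only [ha]
      apply C14_uniq _ ha'
      rw [hya']
      exact (hΨ b hb a' ha' har').2
    simp only [h1, ← hya', sub_self, inner_zero_left]
  · have h1 : a b b = 0 := by simp [ha]
    simp only [h1, hΨ0 b hb, sub_self, inner_zero_left]
  · intro y y' hy hy'
    have h1 : inner ℝ (S.e y - S.e (Ψ b (a b y))) w - inner ℝ (S.e y' - S.e (Ψ b (a b y'))) w =
        inner ℝ ((S.e y - S.e y') - (S.e (Ψ b (a b y)) - S.e (Ψ b (a b y')))) w := by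
      rw [← inner_sub_left]
      congr 1
      abel
    rw [h1]
    have h2 : |inner ℝ ((S.e y - S.e y') - (S.e (Ψ b (a b y)) - S.e (Ψ b (a b y')))) w| ≤
        ‖(S.e y - S.e y') - (S.e (Ψ b (a b y)) - S.e (Ψ b (a b y')))‖ * ‖w‖ :=
      abs_real_inner_le_norm _ _
    rw [hw1, mul_one] at h2
    have h3 := norm_sub_le (S.e y - S.e y') (S.e (Ψ b (a b y)) - S.e (Ψ b (a b y')))
    rw [S.e_isom, S.e_isom] at h3
    have h4 := hΨd y y' hy hy'
    have h5 := haLn y y'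
    have h6 : (3 : ℝ) ≤ c⁻¹ := by
      rw [le_inv_comm₀ (by norm_num) hcpos]
      linarith
    have h7 : 3 * dist y y' ≤ c⁻¹ * dist y y' := mul_le_mul_of_nonneg_right h6 dist_nonneg
    linarith
  · intro y y' l hy hy' hl hyl
    set Q := (S.Eu b).starProjection with hQ
    set δ := S.e y' - S.e y - l • w with hδ
    -- the difference of the base points on the plaque
    have hb1 : Ψ b (a b y) ∈ WUl S.f εc b := wul_mono (hεε.trans (min_le_left _ _))
      (hΨ b hb _ (haE y) ((haN y).trans (hy.trans hrr1))).1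
    have hb2 : Ψ b (a b y') ∈ WUl S.f εc b := wul_mono (hεε.trans (min_le_left _ _))
      (hΨ b hb _ (haE y') ((haN y').trans (hy'.trans hrr1))).1
    set E1 := S.e (Ψ b (a b y')) - S.e (Ψ b (a b y)) with hE1
    have hQE : Q E1 = a b y' - a b y := by
      have h1 : E1 = (S.e (Ψ b (a b y')) - S.e b) - (S.e (Ψ b (a b y)) - S.e b) := by
        rw [hE1]; abel
      rw [h1, map_sub, hpb y' hy', hpb y hy]
    have hE1n : ‖E1 - (a b y' - a b y)‖ ≤ η * (2 * ‖a b y' - a b y‖) := by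
      rw [← hQE]
      refine (C14_proj_le _ E1).trans ?_
      refine (hcone b hb _ hb2 _ hb1).trans ?_
      rw [hQE]
      exact mul_le_mul_of_nonneg_left (hΨd y' y hy' hy) hη0.le
    have haa : a b y' - a b y = l • Q w + Q δ := by
      rw [haL, hδ, map_sub (Q) (S.e y' - S.e y) (l • w), map_smul]
      abel
    have hQδ : ‖Q δ‖ ≤ c * l := ((S.Eu b).norm_starProjection_apply_le δ).trans hyl
    have hQw : ‖Q w‖ ≤ 1 := by
      have := (S.Eu b).norm_starProjection_apply_le w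
      rwa [hw1] at this
    have haan : ‖a b y' - a b y‖ ≤ 2 * l := by
      rw [haa]
      refine (norm_add_le _ _).trans ?_
      rw [norm_smul, Real.norm_of_nonneg hl]
      have h1 : l * ‖Q w‖ ≤ l * 1 := mul_le_mul_of_nonneg_left hQw hl
      have h2 : c * l ≤ 1 * l := mul_le_mul_of_nonneg_right (by linarith) hl
      linarith
    -- the value
    have hval : inner ℝ (S.e y' - S.e (Ψ b (a b y'))) w - inner ℝ (S.e y - S.e (Ψ b (a b y))) w =
        l * (1 - inner ℝ (Q w) w) + inner ℝ (δ - Q δ) w - inner ℝ (E1 - (a b y' - a b y)) w := by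
      have h1 : S.e y' - S.e (Ψ b (a b y')) - (S.e y - S.e (Ψ b (a b y))) =
          (l • w - l • Q w) + (δ - Q δ) - (E1 - (a b y' - a b y)) := by
        rw [haa, hE1, hδ]
        abel
      rw [← inner_sub_left, h1, inner_sub_left, inner_add_left, inner_sub_left,
        real_inner_smul_left, real_inner_smul_left, hw2]
      ring
    have hQw2 : 1 - inner ℝ (Q w) w = ‖w - Q w‖ ^ 2 := by
      rw [← real_inner_self_eq_norm_sq]
      have h1 : inner ℝ (w - Q w) (Q w) = (0 : ℝ) :=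
        C14_inner (S.Eu b) w (Submodule.starProjection_apply_mem _ _)
      rw [inner_sub_right, h1, sub_zero, inner_sub_left, hw2]
    have hangw : c0 ≤ ‖w - Q w‖ := by
      have h1 := hang b hb w hw
      rw [hw1, mul_one] at h1
      refine h1.trans ?_
      rw [← dist_eq_norm]
      exact infDist_le_dist_of_mem (Submodule.starProjection_apply_mem _ _)
    have h8 : c0 ^ 2 ≤ 1 - inner ℝ (Q w) w := by
      rw [hQw2]
      exact pow_le_pow_left₀ hc0.le hangw 2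
    have h9 : |inner ℝ (δ - Q δ) w| ≤ c * l := by
      refine (abs_real_inner_le_norm _ _).trans ?_
      rw [hw1, mul_one]
      refine (C14_proj_le _ δ).trans ?_
      refine (infDist_le_dist_of_mem (Submodule.zero_mem _)).trans ?_
      rwa [dist_zero_right]
    have h10 : |inner ℝ (E1 - (a b y' - a b y)) w| ≤ η * (2 * (2 * l)) := by
      refine (abs_real_inner_le_norm _ _).trans ?_
      rw [hw1, mul_one]
      refine hE1n.trans ?_
      exact mul_le_mul_of_nonneg_left (by linarith) hη0.le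
    have h11 := neg_abs_le (inner ℝ (δ - Q δ) w)
    have h12 := le_abs_self (inner ℝ (E1 - (a b y' - a b y)) w)
    have h13 : l * c0 ^ 2 ≤ l * (1 - inner ℝ (Q w) w) := mul_le_mul_of_nonneg_left h8 hl
    have h14 : c * l ≤ c0 ^ 2 / 16 * l := mul_le_mul_of_nonneg_right hc2 hl
    have h15 : 0 ≤ c0 ^ 2 * l := by positivity
    show c * l ≤ inner ℝ (S.e y' - S.e (Ψ b (a b y'))) w - inner ℝ (S.e y - S.e (Ψ b (a b y))) w
    rw [hval]
    rw [hη] at h10
    linarith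

end GSys

end Pool.MP85
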