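import Pool.Agent.Lib.MP_85e637_an.AbsC
import Pool.Agent.Lib.MP_85e637_an.C10
import Pool.Agent.Lib.MP_85e637_an.C12
import Pool.Agent.Lib.MP_85e637_an.C13
import Pool.Agent.Lib.MP_85e637_an.C14a

open Filter Topology Set Metric Module

namespace Pool.MP85

/-- the orthogonal projection realises the distance to a subspace -/
theorem C14b_infDist {N : ℕ} (V : Submodule ℝ (EE N)) (x p : EE N) (hp : p ∈ V)
    (h : ∀ v ∈ V, inner ℝ (x - p) v = 0) : ‖x - p‖ ≤ infDist x (V : Set (EE N)) := by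
  rw [Metric.le_infDist ⟨p, hp⟩]
  intro v hv
  rw [dist_eq_norm]
  have h1 : x - v = (x - p) + (p - v) := by abel
  have h2 : inner ℝ (x - p) (p - v) = 0 := h _ (V.sub_mem hp hv)
  have h3 : ‖x - v‖ * ‖x - v‖ = ‖x - p‖ * ‖x - p‖ + ‖p - v‖ * ‖p - v‖ := by
    rw [h1]
    exact norm_add_sq_eq_norm_sq_add_norm_sq_real h2
  nlinarith [norm_nonneg (x - v), norm_nonneg (x - p), mul_self_nonneg ‖p - v‖]

theorem C14b_unit {N : ℕ} (V : Submodule ℝ (EE N)) (h : finrank ℝ V = 1) :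
    ∃ w ∈ V, ‖w‖ = 1 := by
  obtain ⟨v, hv⟩ := Module.finrank_pos_iff_exists_ne_zero.1 (by rw [h]; exact one_pos :
    0 < finrank ℝ V)
  have hv' : (v : EE N) ≠ 0 := fun h0 => hv (Subtype.ext h0)
  refine ⟨‖(v : EE N)‖⁻¹ • (v : EE N), V.smul_mem _ v.2, ?_⟩
  rw [norm_smul, norm_inv, norm_norm, inv_mul_cancel₀ (norm_ne_zero_iff.2 hv')]

theorem C14b_pm {N : ℕ} (V : Submodule ℝ (EE N)) (h : finrank ℝ V = 1) {w w' : EE N}
    (hw : w ∈ V) (hw' : w' ∈ V) (h1 : ‖w‖ = 1) (h1' : ‖w'‖ = 1) : w' = w ∨ w' = -w := by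
  have hne : (⟨w, hw⟩ : V) ≠ 0 := by
    intro h0
    have : w = 0 := congrArg Subtype.val h0
    rw [this, norm_zero] at h1
    exact zero_ne_one h1
  obtain ⟨c, hc⟩ := (finrank_eq_one_iff_of_nonzero' _ hne).1 h ⟨w', hw'⟩
  have hc' : c • w = w' := congrArg Subtype.val hc
  have h2 : |c| = 1 := by
    have := congrArg norm hc'
    rw [norm_smul, h1, h1', mul_one, Real.norm_eq_abs] at this
    exact this
  rcases (abs_eq one_pos.le).1 h2 with h3 | h3
  · left; rw [← hc', h3, one_smul]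
  · right; rw [← hc', h3, neg_smul, one_smul]

namespace GSys
variable {d N : ℕ} {K : Type} [MetricSpace K] [CompactSpace K] (S : GSys d N K)

/-- the stable directions on `H` are uniformly continuous up to sign -/
theorem C14b_close (c : ℝ) (hc : 0 < c) : ∃ δ > 0, ∀ x ∈ S.H, ∀ y ∈ S.H, dist x y < δ →
    ∀ w ∈ S.Es y, ‖w‖ = 1 → ∃ w' ∈ S.Es x, ‖w'‖ = 1 ∧ ‖w' - w‖ ≤ c := by
  by_contra hcon
  push Not at hcon
  have h1 : ∀ n : ℕ, ∃ x ∈ S.H, ∃ y ∈ S.H, dist x y < 1 / ((n : ℝ) + 1) ∧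
      ∃ w ∈ S.Es y, ‖w‖ = 1 ∧ ∀ w' ∈ S.Es x, ‖w'‖ = 1 → c < ‖w' - w‖ :=
    fun n => hcon _ (by positivity)
  choose x hx y hy hxy w hw hw1 hw2 using h1
  have h2 : ∀ n, ∃ w' ∈ S.Es (x n), ‖w'‖ = 1 := fun n => C14b_unit _ (hx n).2.1
  choose w' hw' hw'1 using h2
  obtain ⟨q, hq, φ, hφ, hlim⟩ := ((isCompact_univ (X := K)).prod
    ((isCompact_closedBall (0 : EE N) 1).prod (isCompact_closedBall (0 : EE N) 1))).tendsto_subseq
    (x := fun n => (y n, (w n, w' n))) (fun n => ⟨mem_univ _, by simp [hw1 n], by simp [hw'1 n]⟩)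
  have hy' : Tendsto (fun n => y (φ n)) atTop (𝓝 q.1) :=
    (continuous_fst.tendsto q).comp hlim
  have hwl : Tendsto (fun n => w (φ n)) atTop (𝓝 q.2.1) :=
    ((continuous_fst.comp continuous_snd).tendsto q).comp hlim
  have hwl' : Tendsto (fun n => w' (φ n)) atTop (𝓝 q.2.2) :=
    ((continuous_snd.comp continuous_snd).tendsto q).comp hlim
  have hx' : Tendsto (fun n => x (φ n)) atTop (𝓝 q.1) := by
    have h3 : Tendsto (fun n => dist (x (φ n)) (y (φ n))) atTop (𝓝 0) := by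
      refine squeeze_zero (fun n => dist_nonneg) (fun n => (hxy (φ n)).le) ?_
      exact tendsto_one_div_add_atTop_nhds_zero_nat.comp hφ.tendsto_atTop
    exact (tendsto_iff_of_dist h3).2 hy'
  have hqH : q.1 ∈ S.H :=
    S.closed_H.mem_of_tendsto hy' (Eventually.of_forall fun n => hy (φ n))
  have hS1 : ∀ {z}, z ∈ S.H → z ∈ S.S1 := fun hz => ⟨hz.1, hz.2.1⟩
  have hwE : q.2.1 ∈ S.Es q.1 :=
    S.closed_Es1 (fun n => hS1 (hy (φ n))) (hS1 hqH) hy' (fun n => hw (φ n)) hwl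
  have hwE' : q.2.2 ∈ S.Es q.1 :=
    S.closed_Es1 (fun n => hS1 (hx (φ n))) (hS1 hqH) hx' (fun n => hw' (φ n)) hwl'
  have hn1 : ‖q.2.1‖ = 1 := by
    refine tendsto_nhds_unique hwl.norm ?_
    simp only [hw1]
    exact tendsto_const_nhds
  have hn2 : ‖q.2.2‖ = 1 := by
    refine tendsto_nhds_unique hwl'.norm ?_
    simp only [hw'1]
    exact tendsto_const_nhds
  rcases C14b_pm _ hqH.2.1 hwE hwE' hn1 hn2 with h4 | h4
  · have h5 : Tendsto (fun n => ‖w' (φ n) - w (φ n)‖) atTop (𝓝 0) := by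
      have := (hwl'.sub hwl).norm
      rwa [h4, sub_self, norm_zero] at this
    obtain ⟨n, hn⟩ := (h5.eventually (gt_mem_nhds hc)).exists
    exact absurd (hw2 (φ n) _ (hw' (φ n)) (hw'1 (φ n))) (not_lt.2 hn.le)
  · have h5 : Tendsto (fun n => ‖-w' (φ n) - w (φ n)‖) atTop (𝓝 0) := by
      have := (hwl'.neg.sub hwl).norm
      rwa [h4, neg_neg, sub_self, norm_zero] at this
    obtain ⟨n, hn⟩ := (h5.eventually (gt_mem_nhds hc)).exists
    exact absurd (hw2 (φ n) _ ((S.Es _).neg_mem (hw' (φ n))) (by rw [norm_neg, hw'1]))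
      (not_lt.2 hn.le)

theorem H_lps : ∀ ε > 0, ∃ δ > 0, ∀ x ∈ S.H, ∀ y ∈ S.H, dist x y < δ →
    ∃ z, z ∈ WSl S.f ε x ∧ z ∈ WUl S.f ε y := by
  intro ε hε
  obtain ⟨ε1, hε1, hheight⟩ := S.height
  obtain ⟨r, hr, c, hc, ζ, hζ⟩ := hheight (min ε ε1) (lt_min hε hε1) (min_le_right _ _)
  obtain ⟨ε3, hε3, hparam⟩ := S.cb_s.param
  obtain ⟨ε4, hε4, hcone⟩ := S.cb_s.cone (c / 4) (by positivity)
  obtain ⟨r', hr', Ψ, hΨ1, hΨ2, hΨ3, -, -⟩ := hparam (min ε (min ε3 ε4))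
    (lt_min hε (lt_min hε3 hε4)) ((min_le_right _ _).trans (min_le_left _ _))
  obtain ⟨δ1, hδ1, hclose⟩ := S.C14b_close (c / 2) (by positivity)
  obtain ⟨s, hs0, hsr', hsr⟩ : ∃ s : ℝ, 0 < s ∧ s ≤ r' ∧ s ≤ r / 4 :=
    ⟨min r' (r / 4), lt_min hr' (by positivity), min_le_left _ _, min_le_right _ _⟩
  refine ⟨min δ1 (min (r / 2) (c ^ 2 * s)), lt_min hδ1 (lt_min (by positivity) (by positivity)),
    ?_⟩
  intro x hx y hy hxy
  have hxy1 : dist x y < δ1 := lt_of_lt_of_le hxy (min_le_left _ _)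
  have hxy2 : dist x y < r / 2 :=
    lt_of_lt_of_le hxy ((min_le_right _ _).trans (min_le_left _ _))
  have hxy3 : dist x y < c ^ 2 * s :=
    lt_of_lt_of_le hxy ((min_le_right _ _).trans (min_le_right _ _))
  obtain ⟨w, hwE, hw1⟩ := C14b_unit _ hy.2.1
  obtain ⟨v, hvE, hv1, hvw⟩ := hclose x hx y hy hxy1 w hwE hw1
  obtain ⟨hz1, hz2, hz3, hz4⟩ := hζ y hy w hwE hw1
  -- the stable arc
  have hmem : ∀ t : ℝ, t • v ∈ S.Es x := fun t => (S.Es x).smul_mem t hvE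
  have hnorm : ∀ t : ℝ, ‖t • v‖ = |t| := fun t => by
    rw [norm_smul, hv1, mul_one, Real.norm_eq_abs]
  have hle : ∀ t ∈ Icc (-s) s, ‖t • v‖ ≤ r' := fun t ht => by
    rw [hnorm]; exact (abs_le.2 ht).trans hsr'
  have hdd : ∀ t ∈ Icc (-s) s, ∀ t' ∈ Icc (-s) s,
      dist (Ψ x (t • v)) (Ψ x (t' • v)) ≤ 2 * |t - t'| := by
    intro t ht t' ht'
    have := (hΨ3 x hx _ (hmem t) (hle t ht) _ (hmem t') (hle t' ht')).1
    rwa [← sub_smul, hnorm] at this
  have h0s : (0 : ℝ) ∈ Icc (-s) s := ⟨by linarith, hs0.le⟩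
  have hΨ0 : Ψ x ((0 : ℝ) • v) = x := by rw [zero_smul]; exact hΨ2 x hx
  have hnear : ∀ t ∈ Icc (-s) s, dist y (Ψ x (t • v)) ≤ r := by
    intro t ht
    have h1 := hdd 0 h0s t ht
    rw [hΨ0, zero_sub, abs_neg] at h1
    have h2 : |t| ≤ s := abs_le.2 ht
    calc dist y (Ψ x (t • v)) ≤ dist y x + dist x (Ψ x (t • v)) := dist_triangle _ _ _
      _ ≤ r / 2 + 2 * |t| := by rw [dist_comm y x]; linarith
      _ ≤ r := by linarith
  -- the height increases along the arc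
  have hinc : ∀ t ∈ Icc (-s) s, ∀ t' ∈ Icc (-s) s, t ≤ t' →
      c * (t' - t) ≤ ζ y w (Ψ x (t' • v)) - ζ y w (Ψ x (t • v)) := by
    intro t ht t' ht' htt'
    apply hz4 _ _ _ (hnear t ht) (hnear t' ht') (by linarith)
    have hA := hΨ1 x hx _ (hmem t) (hle t ht)
    have hB := hΨ1 x hx _ (hmem t') (hle t' ht')
    have hWA : Ψ x (t • v) ∈ WSl S.f ε4 x := fun n =>
      (hA.1 n).trans ((min_le_right _ _).trans (min_le_right _ _))
    have hWB : Ψ x (t' • v) ∈ WSl S.f ε4 x := fun n =>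
      (hB.1 n).trans ((min_le_right _ _).trans (min_le_right _ _))
    have hco := hcone x hx _ hWB _ hWA
    have hproj : ‖(S.e (Ψ x (t' • v)) - S.e (Ψ x (t • v))) - (t' - t) • v‖ ≤
        infDist (S.e (Ψ x (t' • v)) - S.e (Ψ x (t • v))) (S.Es x : Set (EE N)) := by
      apply C14b_infDist _ _ _ (hmem (t' - t))
      intro u hu
      have e1 := hA.2 u hu
      have e2 := hB.2 u hu
      have e3 : (S.e (Ψ x (t' • v)) - S.e (Ψ x (t • v))) - (t' - t) • v =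
          (S.e (Ψ x (t' • v)) - S.e x - t' • v) - (S.e (Ψ x (t • v)) - S.e x - t • v) := by
        rw [sub_smul]; abel
      rw [e3, inner_sub_left, e1, e2, sub_self]
    have hd2 := hdd t' ht' t ht
    rw [abs_of_nonneg (by linarith : 0 ≤ t' - t)] at hd2
    calc ‖S.e (Ψ x (t' • v)) - S.e (Ψ x (t • v)) - (t' - t) • w‖
        = ‖((S.e (Ψ x (t' • v)) - S.e (Ψ x (t • v))) - (t' - t) • v) + (t' - t) • (v - w)‖ := by
          congr 1
          rw [smul_sub]; abel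
      _ ≤ ‖(S.e (Ψ x (t' • v)) - S.e (Ψ x (t • v))) - (t' - t) • v‖ + ‖(t' - t) • (v - w)‖ :=
          norm_add_le _ _
      _ ≤ c / 4 * (2 * (t' - t)) + (t' - t) * (c / 2) := by
          apply add_le_add
          · exact hproj.trans (hco.trans (mul_le_mul_of_nonneg_left hd2 (by positivity)))
          · rw [norm_smul, Real.norm_of_nonneg (by linarith : 0 ≤ t' - t)]
            exact mul_le_mul_of_nonneg_left hvw (by linarith)
      _ = c * (t' - t) := by ring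
  have h0 : |ζ y w x| < c * s := by
    have h1 := hz3 x y (by rw [dist_comm]; linarith) (by rw [dist_self]; exact hr.le)
    rw [hz2, sub_zero] at h1
    refine lt_of_le_of_lt h1 ?_
    rw [inv_mul_lt_iff₀ hc]
    calc dist x y < c ^ 2 * s := hxy3
      _ = c * (c * s) := by ring
  have hcont : ContinuousOn (fun t : ℝ => ζ y w (Ψ x (t • v))) (Icc (-s) s) := by
    have hlip : LipschitzOnWith (Real.toNNReal (c⁻¹ * 2))
        (fun t : ℝ => ζ y w (Ψ x (t • v))) (Icc (-s) s) := by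
      apply LipschitzOnWith.of_dist_le_mul
      intro t ht t' ht'
      rw [Real.coe_toNNReal _ (by positivity), Real.dist_eq, Real.dist_eq]
      refine (hz3 _ _ (hnear t ht) (hnear t' ht')).trans ?_
      rw [mul_assoc]
      exact mul_le_mul_of_nonneg_left (hdd t ht t' ht') (by positivity)
    exact hlip.continuousOn
  have hss : -s ≤ s := by linarith
  have hms : -s ∈ Icc (-s) s := left_mem_Icc.2 hss
  have hps : s ∈ Icc (-s) s := right_mem_Icc.2 hss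
  have hlo : ζ y w (Ψ x ((-s) • v)) ≤ 0 := by
    have h1 := hinc (-s) hms 0 h0s (by linarith)
    rw [hΨ0] at h1
    have h2 := (abs_lt.1 h0).2
    linarith
  have hhi : 0 ≤ ζ y w (Ψ x (s • v)) := by
    have h1 := hinc 0 h0s s hps (by linarith)
    rw [hΨ0] at h1
    have h2 := (abs_lt.1 h0).1
    linarith
  obtain ⟨t, ht, ht0⟩ := intermediate_value_Icc hss hcont (⟨hlo, hhi⟩ : (0 : ℝ) ∈ Icc _ _)
  refine ⟨Ψ x (t • v), ?_, ?_⟩
  · intro n
    exact ((hΨ1 x hx _ (hmem t) (hle t ht)).1 n).trans (min_le_left _ _)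
  · have h1 := (hz1 _ (hnear t ht)).1 ht0
    intro n
    exact (h1 n).trans (min_le_left _ _)

end GSys

end Pool.MP85
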