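import Pool.Agent.Lib.MP_85e637_an.Abs
import Pool.Agent.Lib.MP_85e637_an.AbsC
import Pool.Agent.Lib.MP_85e637_an.A01
import Pool.Agent.Lib.MP_85e637_an.C09
import Pool.Agent.Lib.MP_85e637_an.C12
import Pool.Agent.Lib.MP_85e637_an.C13
import Pool.Agent.Lib.MP_85e637_an.C14a

/-!
# C15: unstable leaves of `H` are increasing unions of cells; local path connectedness
-/

open Filter Topology Set Metric Module

namespace Pool.MP85

section C15Leaf
variable {Z : Type} [MetricSpace Z] {F : Z ≃ₜ Z}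

/-- forward iterate as a map of leaves -/
def C15_fwL (n : ℕ) (x : Z) (y : ULeaf F (bk F n x)) : ULeaf F x :=
  ⟨fw F n y.val, by
    have h : fw F n y.val ∈ WU F (fw F n (bk F n x)) := (wu_fw n).2 y.prop
    rwa [fw_bk] at h⟩

/-- backward iterate as a map of leaves -/
def C15_bkL (n : ℕ) (x : Z) (y : ULeaf F x) : ULeaf F (bk F n x) :=
  ⟨bk F n y.val, (wu_bk n).2 y.prop⟩

theorem C15_fwL_bkL (n : ℕ) (x : Z) (y : ULeaf F x) : C15_fwL n x (C15_bkL n x y) = y :=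
  ULeaf.val_injective (fw_bk n)

theorem C15_bkL_fwL (n : ℕ) (x : Z) (y : ULeaf F (bk F n x)) :
    C15_bkL n x (C15_fwL n x y) = y :=
  ULeaf.val_injective (bk_fw n)

theorem C15_cont_bkL (n : ℕ) (x : Z) : Continuous (C15_bkL (F := F) n x) := by
  refine LipschitzWith.continuous (K := 1) (LipschitzWith.of_dist_le_mul fun y y' => ?_)
  rw [NNReal.coe_one, one_mul]
  exact (ULeaf.dist_le_iff _ _ _).2 (wul_bk n ((ULeaf.dist_le_iff y y' _).1 le_rfl))

theorem C15_dist_fwL (n : ℕ) (x : Z) (y y' : ULeaf F (bk F n x)) :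
    dist (C15_fwL n x y) (C15_fwL n x y') ≤
      (∑ k ∈ Finset.range (n + 1), dist (fw F k y.val) (fw F k y'.val)) + dist y y' := by
  refine (ULeaf.dist_le_iff _ _ _).2 fun j => ?_
  have hnn : ∀ k ∈ Finset.range (n + 1), 0 ≤ dist (fw F k y.val) (fw F k y'.val) :=
    fun _ _ => dist_nonneg
  show dist (bk F j (fw F n y.val)) (bk F j (fw F n y'.val)) ≤ _
  rcases le_total j n with h | h
  · obtain ⟨i, rfl⟩ := Nat.exists_eq_add_of_le h
    rw [fw_add, fw_add, bk_fw, bk_fw]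
    have h1 := Finset.single_le_sum hnn (Finset.mem_range.2 (by omega : i < j + i + 1))
    have h2 : 0 ≤ dist y y' := dist_nonneg
    linarith
  · obtain ⟨i, rfl⟩ := Nat.exists_eq_add_of_le' h
    rw [bk_add, bk_add, bk_fw, bk_fw]
    have h1 : dist (bk F i y.val) (bk F i y'.val) ≤ dist y y' :=
      (ULeaf.dist_le_iff y y' _).1 le_rfl i
    have h2 := Finset.sum_nonneg hnn
    linarith

theorem C15_cont_fwL (n : ℕ) (x : Z) : Continuous (C15_fwL (F := F) n x) := by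
  rw [continuous_iff_continuousAt]
  intro y0
  rw [ContinuousAt, tendsto_iff_dist_tendsto_zero]
  have hc : Continuous fun y : ULeaf F (bk F n x) =>
      (∑ k ∈ Finset.range (n + 1), dist (fw F k y.val) (fw F k y0.val)) + dist y y0 := by
    refine (continuous_finsetSum _ fun k _ => ?_).add (continuous_id.dist continuous_const)
    exact ((continuous_fw k).comp ULeaf.continuous_val).dist continuous_const
  have h0 := hc.tendsto y0
  simp only [dist_self, Finset.sum_const_zero, add_zero] at h0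
  exact squeeze_zero (fun _ => dist_nonneg) (fun y => C15_dist_fwL n x y y0) h0

/-- leaves of iterates are homeomorphic -/
def C15_homeo (n : ℕ) (x : Z) : ULeaf F (bk F n x) ≃ₜ ULeaf F x where
  toFun := C15_fwL n x
  invFun := C15_bkL n x
  left_inv := C15_bkL_fwL n x
  right_inv := C15_fwL_bkL n x
  continuous_toFun := C15_cont_fwL n x
  continuous_invFun := C15_cont_bkL n x

end C15Leaf

namespace GSys
variable {d N : ℕ} {K : Type} [MetricSpace K] [CompactSpace K] (S : GSys d N K)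

theorem C15_bkH {x : K} (hx : x ∈ S.H) (n : ℕ) : bk S.f n x ∈ S.H := by
  induction n with
  | zero => exact hx
  | succ n ih =>
    rw [bk_succ']
    refine S.H_inv.1 ?_
    rw [Homeomorph.apply_symm_apply]
    exact ih

theorem C15_contr {ε : ℝ} (hε : ∀ x ∈ S.H, ∀ y ∈ WUl S.f ε x, ∀ y' ∈ WUl S.f ε x,
    4 * dist (S.f.symm y) (S.f.symm y') ≤ dist y y') {x : K} (hx : x ∈ S.H) {y y' : K}
    (hy : y ∈ WUl S.f ε x) (hy' : y' ∈ WUl S.f ε x) (n : ℕ) :
    4 ^ n * dist (bk S.f n y) (bk S.f n y') ≤ dist y y' := by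
  induction n with
  | zero => simp [bk_zero]
  | succ n ih =>
    have h1 := hε _ (S.C15_bkH hx n) _ (wul_bk n hy) _ (wul_bk n hy')
    rw [bk_succ', bk_succ', pow_succ]
    have h4 : (0:ℝ) < 4 ^ n := by positivity
    calc 4 ^ n * 4 * dist (S.f.symm (bk S.f n y)) (S.f.symm (bk S.f n y'))
        = 4 ^ n * (4 * dist (S.f.symm (bk S.f n y)) (S.f.symm (bk S.f n y'))) := by ring
      _ ≤ 4 ^ n * dist (bk S.f n y) (bk S.f n y') := mul_le_mul_of_nonneg_left h1 h4.le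
      _ ≤ dist y y' := ih

theorem C15_dist_le {ε : ℝ} (hε : ∀ x ∈ S.H, ∀ y ∈ WUl S.f ε x, ∀ y' ∈ WUl S.f ε x,
    4 * dist (S.f.symm y) (S.f.symm y') ≤ dist y y') {x : K} (hx : x ∈ S.H) {y y' : K}
    (hy : y ∈ WUl S.f ε x) (hy' : y' ∈ WUl S.f ε x) : y' ∈ WUl S.f (dist y y') y := by
  intro n
  have h1 := S.C15_contr hε hx hy hy' n
  have h4 : (1:ℝ) ≤ 4 ^ n := one_le_pow₀ (by norm_num)
  have h2 : (0:ℝ) ≤ dist (bk S.f n y) (bk S.f n y') := dist_nonneg
  nlinarith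

theorem C15_wu {ε : ℝ} (hε : ∀ x ∈ S.H, ∀ y ∈ WUl S.f ε x, ∀ y' ∈ WUl S.f ε x,
    4 * dist (S.f.symm y) (S.f.symm y') ≤ dist y y') (hε0 : 0 < ε) {x : K} (hx : x ∈ S.H) {y : K}
    (hy : y ∈ WUl S.f ε x) : y ∈ WU S.f x := by
  have hlim : Tendsto (fun n : ℕ => (1 / 4 : ℝ) ^ n * dist x y) atTop (𝓝 0) := by
    simpa using (tendsto_pow_atTop_nhds_zero_of_lt_one (by norm_num : (0:ℝ) ≤ 1 / 4)
      (by norm_num)).mul_const (dist x y)
  refine squeeze_zero (fun _ => dist_nonneg) (fun n => ?_) hlim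
  have h1 := S.C15_contr hε hx (wul_self hε0.le) hy n
  have h4 : (0:ℝ) < 4 ^ n := by positivity
  rw [one_div, inv_pow, ← div_eq_inv_mul, le_div_iff₀ h4, mul_comm]
  exact h1

/-- small cells in the leaves of `H` -/
theorem C15_cell (hd : 1 ≤ d) : ∃ r > 0,
    (∀ x ∈ S.H, ∀ y ∈ WUl S.f (2 * r) x, ∀ n : ℕ,
      4 ^ n * dist (bk S.f n x) (bk S.f n y) ≤ dist x y) ∧
    ∀ x ∈ S.H, ∃ κ : EuclideanSpace ℝ (Fin (d - 1)) → ULeaf S.f x, IsOpenEmbedding κ ∧
      (∀ v, (κ v).val ∈ WUl S.f (2 * r) x) ∧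
      ∀ y : ULeaf S.f x, y.val ∈ WUl S.f (r / 2) x → y ∈ range κ := by
  obtain ⟨εu, hεu, hu⟩ := S.H_u
  obtain ⟨ε1, hε1, hpar⟩ := S.cb_u.param
  obtain ⟨ρ, hρ, Ψ, hΨ1, hΨ0, hΨ2, hΨ3, -⟩ :=
    hpar (min ε1 εu) (lt_min hε1 hεu) (min_le_left _ _)
  set ε : ℝ := min ε1 εu with hεdef
  have hε : 0 < ε := lt_min hε1 hεu
  have hεεu : ε ≤ εu := min_le_right _ _
  have hu' : ∀ x ∈ S.H, ∀ y ∈ WUl S.f ε x, ∀ y' ∈ WUl S.f ε x,
      4 * dist (S.f.symm y) (S.f.symm y') ≤ dist y y' :=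
    fun x hx y hy y' hy' => hu x hx y (wul_mono hεεu hy) y' (wul_mono hεεu hy')
  -- restate the properties of `Ψ` for `S.f`
  have hA : ∀ x ∈ S.H, ∀ a ∈ S.Eu x, ‖a‖ ≤ ρ → Ψ x a ∈ WUl S.f ε x :=
    fun x hx a ha har => (hΨ1 x hx a ha har).1
  have hB : ∀ x ∈ S.H, ∀ y ∈ WUl S.f ε x, dist x y ≤ ρ →
      ∃ a ∈ S.Eu x, ‖a‖ ≤ ρ ∧ y = Ψ x a := fun x hx y hy hxy => hΨ3 x hx y hy hxy
  obtain ⟨r, hr, hrε, hrρ⟩ : ∃ r > 0, 3 * r ≤ ε ∧ 3 * r ≤ ρ := by
    refine ⟨min ε ρ / 3, by positivity, ?_, ?_⟩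
    · have := min_le_left ε ρ
      linarith
    · have := min_le_right ε ρ
      linarith
  refine ⟨r, hr, ?_, ?_⟩
  · intro x hx y hy n
    exact S.C15_contr hu' hx (wul_self hε.le) (wul_mono (by linarith) hy) n
  intro x hx
  -- coordinates
  have hfin : finrank ℝ (S.Eu x) = d - 1 := by
    have := hx.2
    omega
  let b : OrthonormalBasis (Fin (d - 1)) ℝ (S.Eu x) :=
    (stdOrthonormalBasis ℝ (S.Eu x)).reindex (finCongr hfin)
  let ι : EuclideanSpace ℝ (Fin (d - 1)) ≃ₗᵢ[ℝ] S.Eu x := b.repr.symm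
  let β : OpenPartialHomeomorph (EuclideanSpace ℝ (Fin (d - 1)))
      (EuclideanSpace ℝ (Fin (d - 1))) := OpenPartialHomeomorph.univBall 0 r
  have hβs : β.source = univ := OpenPartialHomeomorph.univBall_source _ _
  have hβt : β.target = ball 0 r := OpenPartialHomeomorph.univBall_target _ hr
  have hβc : Continuous β := OpenPartialHomeomorph.continuous_univBall _ _
  have hβr : ∀ v, ‖β v‖ < r := by
    intro v
    have h1 : β v ∈ β.target := β.map_source (by rw [hβs]; exact mem_univ v)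
    rw [hβt, mem_ball_zero_iff] at h1
    exact h1
  have hβinj : Function.Injective β := by
    intro v w h
    have h1 := β.left_inv (x := v) (by rw [hβs]; exact mem_univ v)
    have h2 := β.left_inv (x := w) (by rw [hβs]; exact mem_univ w)
    rw [← h1, ← h2, h]
  let α : EuclideanSpace ℝ (Fin (d - 1)) → EE N := fun v => (ι (β v) : EE N)
  have hαmem : ∀ v, α v ∈ S.Eu x := fun v => (ι (β v)).2
  have hαr : ∀ v, ‖α v‖ < r := by
    intro v
    show ‖ι (β v)‖ < r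
    rw [LinearIsometryEquiv.norm_map]
    exact hβr v
  have hαd : ∀ v w, ‖α v - α w‖ = ‖β v - β w‖ := by
    intro v w
    show ‖ι (β v) - ι (β w)‖ = _
    rw [← map_sub, LinearIsometryEquiv.norm_map]
  have hαρ : ∀ v, ‖α v‖ ≤ ρ := fun v => by
    have := hαr v
    linarith
  have hmem : ∀ v, Ψ x (α v) ∈ WUl S.f ε x := fun v => hA x hx _ (hαmem v) (hαρ v)
  let κ : EuclideanSpace ℝ (Fin (d - 1)) → ULeaf S.f x := fun v =>
    ⟨Ψ x (α v), S.C15_wu hu' hε hx (hmem v)⟩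
  -- distances in the leaf
  have hdist : ∀ v w, dist (κ v) (κ w) = dist (Ψ x (α v)) (Ψ x (α w)) := by
    intro v w
    apply le_antisymm
    · exact (ULeaf.dist_le_iff _ _ _).2 (S.C15_dist_le hu' hx (hmem v) (hmem w))
    · exact ULeaf.dist_val_le (κ v) (κ w)
  have hup : ∀ v w, dist (κ v) (κ w) ≤ 2 * ‖β v - β w‖ := by
    intro v w
    rw [hdist, ← hαd]
    exact (hΨ2 x hx _ (hαmem v) (hαρ v) _ (hαmem w) (hαρ w)).1
  have hlow : ∀ v w, ‖β v - β w‖ ≤ dist (κ v) (κ w) := by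
    intro v w
    rw [hdist, ← hαd]
    exact (hΨ2 x hx _ (hαmem v) (hαρ v) _ (hαmem w) (hαρ w)).2
  have hzero : (0 : EE N) ∈ S.Eu x := Submodule.zero_mem _
  have hx2r : ∀ v, dist x (Ψ x (α v)) ≤ 2 * r := by
    intro v
    have h1 := (hΨ2 x hx 0 hzero (by rw [norm_zero]; exact hρ.le) _ (hαmem v) (hαρ v)).1
    rw [hΨ0 x hx, zero_sub, norm_neg] at h1
    have h2 := hαr v
    linarith
  have hxw : ∀ v, Ψ x (α v) ∈ WUl S.f (2 * r) x := by
    intro v
    have h1 := S.C15_dist_le hu' hx (wul_self hε.le) (hmem v)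
    exact wul_mono (hx2r v) h1
  -- points of small plaques
  have hpt : ∀ y : ULeaf S.f x, y.val ∈ WUl S.f ε x → dist x y.val ≤ ρ →
      ∀ a ∈ S.Eu x, y.val = Ψ x a → ‖a‖ < r → ∃ w, κ w = y ∧ α w = a := by
    intro y hy hxy a ha hya har
    have h1 : ι.symm ⟨a, ha⟩ ∈ β.target := by
      rw [hβt, mem_ball_zero_iff, LinearIsometryEquiv.norm_map]
      exact har
    have h2 : α (β.symm (ι.symm ⟨a, ha⟩)) = a := by
      show (ι (β (β.symm (ι.symm ⟨a, ha⟩))) : EE N) = a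
      rw [β.right_inv h1, LinearIsometryEquiv.apply_symm_apply]
    refine ⟨β.symm (ι.symm ⟨a, ha⟩), ?_, h2⟩
    apply ULeaf.val_injective
    show Ψ x (α (β.symm (ι.symm ⟨a, ha⟩))) = y.val
    rw [h2, hya]
  have hna : ∀ a ∈ S.Eu x, ‖a‖ ≤ ρ → ‖a‖ ≤ dist x (Ψ x a) := by
    intro a ha har
    have h1 := (hΨ2 x hx 0 hzero (by rw [norm_zero]; exact hρ.le) a ha har).2
    rwa [hΨ0 x hx, zero_sub, norm_neg] at h1
  refine ⟨κ, ?_, hxw, ?_⟩
  · -- open embedding
    refine IsOpenEmbedding.of_continuous_injective_isOpenMap ?_ ?_ ?_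
    · rw [continuous_iff_continuousAt]
      intro v
      rw [ContinuousAt, tendsto_iff_dist_tendsto_zero]
      have hc : Continuous fun w => 2 * ‖β w - β v‖ :=
        continuous_const.mul (hβc.sub continuous_const).norm
      have h0 := hc.tendsto v
      simp only [sub_self, norm_zero, mul_zero] at h0
      exact squeeze_zero (fun _ => dist_nonneg) (fun w => hup w v) h0
    · intro v w h
      have h1 := hlow v w
      rw [h, dist_self] at h1
      exact hβinj (sub_eq_zero.1 (norm_le_zero_iff.1 h1))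
    · rw [isOpenMap_iff_nhds_le]
      intro v
      intro U hU
      rw [mem_map] at hU
      -- a neighbourhood of `β v` in the ball
      have hvsrc : v ∈ β.source := by rw [hβs]; exact mem_univ v
      have hβv : β v ∈ β.target := β.map_source hvsrc
      have hsymm : ContinuousAt β.symm (β v) := β.continuousAt_symm hβv
      have hU' : β.symm ⁻¹' (κ ⁻¹' U) ∈ 𝓝 (β v) := by
        apply hsymm
        rw [β.left_inv hvsrc]
        exact hU
      obtain ⟨δ0, hδ0, hball⟩ := Metric.mem_nhds_iff.1 hU'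
      have hpos : 0 < r - ‖β v‖ := by
        have := hβr v
        linarith
      refine Metric.mem_nhds_iff.2 ⟨min δ0 (r - ‖β v‖), lt_min hδ0 hpos, ?_⟩
      intro y hy
      rw [mem_ball] at hy
      have hyδ : dist y (κ v) < δ0 := hy.trans_le (min_le_left _ _)
      have hyr : dist y (κ v) < r - ‖β v‖ := hy.trans_le (min_le_right _ _)
      have hynn : 0 ≤ ‖β v‖ := norm_nonneg _
      have hyw : y.val ∈ WUl S.f (dist y (κ v)) (κ v).val := by
        apply wul_symm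
        exact (ULeaf.dist_le_iff y (κ v) _).1 le_rfl
      have hyε' : y.val ∈ WUl S.f (2 * r + dist y (κ v)) x := wul_trans (hxw v) hyw
      have hyε : y.val ∈ WUl S.f ε x := wul_mono (by linarith) hyε'
      have hyρ : dist x y.val ≤ ρ := (wul_dist hyε').trans (by linarith)
      obtain ⟨a, ha, haρ, hya⟩ := hB x hx y.val hyε hyρ
      have hdiff : ‖a - α v‖ ≤ dist y (κ v) := by
        have h1 := (hΨ2 x hx a ha haρ _ (hαmem v) (hαρ v)).2
        rw [← hya] at h1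
        exact h1.trans (ULeaf.dist_val_le y (κ v))
      have hαv : ‖α v‖ = ‖β v‖ := by
        show ‖ι (β v)‖ = _
        rw [LinearIsometryEquiv.norm_map]
      have har : ‖a‖ < r := by
        have h1 : ‖a‖ ≤ ‖a - α v‖ + ‖α v‖ := by
          simpa using norm_add_le (a - α v) (α v)
        linarith
      obtain ⟨w, hw, hwa⟩ := hpt y hyε hyρ a ha hya har
      have hβw : β w ∈ ball (β v) δ0 := by
        rw [mem_ball, dist_eq_norm, ← hαd, hwa]
        exact hdiff.trans_lt hyδ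
      have hwU : β.symm (β w) ∈ κ ⁻¹' U := hball hβw
      rw [β.left_inv (by rw [hβs]; exact mem_univ w)] at hwU
      rw [← hw]
      exact hwU
  · intro y hy
    have hyε : y.val ∈ WUl S.f ε x := wul_mono (by linarith) hy
    have hyd : dist x y.val ≤ r / 2 := wul_dist hy
    have hyρ : dist x y.val ≤ ρ := hyd.trans (by linarith)
    obtain ⟨a, ha, haρ, hya⟩ := hB x hx y.val hyε hyρ
    have h1 := hna a ha haρ
    rw [← hya] at h1
    obtain ⟨w, hw, -⟩ := hpt y hyε hyρ a ha hya (by linarith)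
    exact ⟨w, hw⟩

theorem H_exh (hd : 1 ≤ d) {x : K} (hx : x ∈ S.H) : Exh (d - 1) S.f x := by
  obtain ⟨r, hr, hcon, hcell⟩ := S.C15_cell hd
  choose κ hκ1 hκ2 hκ3 using fun n => hcell (bk S.f n x) (S.C15_bkH hx n)
  have hcov : ∀ n (y : ULeaf S.f x), bk S.f n y.val ∈ WUl S.f (r / 2) (bk S.f n x) →
      y ∈ range (C15_homeo n x ∘ κ n) := by
    intro n y hy
    obtain ⟨v, hv⟩ := hκ3 n (C15_bkL n x y) hy
    refine ⟨v, ?_⟩
    show C15_fwL n x (κ n v) = y
    rw [hv, C15_fwL_bkL]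
  refine ⟨fun n => C15_homeo n x ∘ κ n, fun n => ?_, fun n => ?_, ?_⟩
  · exact (C15_homeo n x).isOpenEmbedding.comp (hκ1 n)
  · rintro _ ⟨v, rfl⟩
    apply hcov
    show bk S.f (n + 1) (fw S.f n (κ n v).val) ∈ WUl S.f (r / 2) (bk S.f (n + 1) x)
    rw [bk_succ' S.f n (fw S.f n (κ n v).val), bk_fw, bk_succ' S.f n x]
    intro k
    rw [← bk_succ, ← bk_succ]
    have h1 := hcon _ (S.C15_bkH hx n) _ (hκ2 n v) (k + 1)
    have h2 := wul_dist (hκ2 n v)
    have h4 : (1:ℝ) ≤ 4 ^ k := one_le_pow₀ (by norm_num)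
    have h5 : (0:ℝ) ≤ dist (bk S.f (k + 1) (bk S.f n x)) (bk S.f (k + 1) (κ n v).val) :=
      dist_nonneg
    rw [pow_succ] at h1
    nlinarith
  · rw [eq_univ_iff_forall]
    intro y
    obtain ⟨n, hn⟩ := mem_wu_iff_eventually.1 y.prop (r / 2) (by positivity)
    exact mem_iUnion.2 ⟨n, hcov n y hn⟩

theorem H_lc : ∀ ε > 0, ∃ ε' > 0, ∀ x ∈ S.H, ∀ y ∈ WUl S.f ε' x, ∃ c : ℝ → K,
    ContinuousOn c (Icc 0 1) ∧ c 0 = x ∧ c 1 = y ∧ ∀ s ∈ Icc (0:ℝ) 1, c s ∈ WUl S.f ε x := by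
  intro ε hε
  obtain ⟨ε1, hε1, hpar⟩ := S.cb_u.param
  obtain ⟨ρ, hρ, Ψ, hΨ1, hΨ0, hΨ2, hΨ3, -⟩ :=
    hpar (min ε1 ε) (lt_min hε1 hε) (min_le_left _ _)
  refine ⟨min (min ε1 ε) ρ, lt_min (lt_min hε1 hε) hρ, fun x hx y hy => ?_⟩
  obtain ⟨a, ha, haρ, hya⟩ := hΨ3 x hx y (wul_mono (min_le_left _ _) hy)
    ((wul_dist hy).trans (min_le_right _ _))
  have hmem : ∀ s ∈ Icc (0:ℝ) 1, s • a ∈ S.Eu x ∧ ‖s • a‖ ≤ ρ := by
    intro s hs
    refine ⟨Submodule.smul_mem _ _ ha, ?_⟩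
    rw [norm_smul, Real.norm_of_nonneg hs.1]
    have h1 : 0 ≤ ‖a‖ := norm_nonneg _
    nlinarith [hs.1, hs.2]
  refine ⟨fun s => Ψ x (s • a), ?_, ?_, ?_, ?_⟩
  · intro s hs
    rw [ContinuousWithinAt, tendsto_iff_dist_tendsto_zero]
    have hc : Continuous fun t : ℝ => 2 * ‖t • a - s • a‖ :=
      continuous_const.mul ((continuous_id.smul continuous_const).sub continuous_const).norm
    have h0 := hc.tendsto s
    simp only [sub_self, norm_zero, mul_zero] at h0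
    refine squeeze_zero' (Eventually.of_forall fun _ => dist_nonneg) ?_
      (h0.mono_left nhdsWithin_le_nhds)
    filter_upwards [self_mem_nhdsWithin] with t ht
    exact (hΨ2 x hx _ (hmem t ht).1 (hmem t ht).2 _ (hmem s hs).1 (hmem s hs).2).1
  · show Ψ x ((0:ℝ) • a) = x
    rw [zero_smul]
    exact hΨ0 x hx
  · show Ψ x ((1:ℝ) • a) = y
    rw [one_smul]
    exact hya.symm
  · intro s hs
    have h1 : Ψ x (s • a) ∈ WUl S.f (min ε1 ε) x := (hΨ1 x hx _ (hmem s hs).1 (hmem s hs).2).1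
    exact wul_mono (min_le_right _ _) h1

end GSys

end Pool.MP85
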