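import Pool.Agent.Lib.MP_85e637_an.AbsC
import Pool.Agent.Lib.MP_85e637_an.C01
import Pool.Agent.Lib.MP_85e637_an.C03
import Pool.Agent.Lib.MP_85e637_an.C10
import Pool.Agent.Lib.MP_85e637_an.C13
import Pool.Agent.Lib.MP_85e637_an.B02a

/-!
# C16: sources
-/

open Filter Topology Set Metric Module

namespace Pool.MP85

section C16gen
variable {Z : Type} [MetricSpace Z] {F : Z ≃ₜ Z}

theorem C16_fw_bk (n : ℕ) (x : Z) : fw F n (bk F n x) = x := by
  induction n generalizing x with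
  | zero => rfl
  | succ n ih => rw [bk_succ', fw_succ, F.apply_symm_apply, ih]

theorem C16_bk_fw (n : ℕ) (x : Z) : bk F n (fw F n x) = x := by
  induction n generalizing x with
  | zero => rfl
  | succ n ih => rw [fw_succ', bk_succ, F.symm_apply_apply, ih]

theorem C16_bk_add (n k : ℕ) (x : Z) : bk F (n + k) x = bk F n (bk F k x) := by
  simp [bk, Function.iterate_add_apply]

theorem C16_cont_bk (n : ℕ) : Continuous (bk F n) := F.symm.continuous.iterate n
theorem C16_cont_fw (n : ℕ) : Continuous (fw F n) := F.continuous.iterate n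

theorem C16_emb_fw (n : ℕ) : IsOpenEmbedding (fw F n) := by
  induction n with
  | zero => exact IsOpenEmbedding.id
  | succ n ih => exact ih.comp F.isOpenEmbedding

/-- `z` is in the unstable set of `bk n α` iff `fw n z` is in the one of `α` -/
theorem C16_wu_iff (n : ℕ) (x y : Z) : y ∈ WU F x ↔ bk F n y ∈ WU F (bk F n x) := by
  constructor
  · intro h
    have h1 : Tendsto (fun k => dist (bk F k x) (bk F k y)) atTop (𝓝 0) := h
    have h2 := h1.comp (tendsto_add_atTop_nat n)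
    refine h2.congr fun k => ?_
    simp only [Function.comp]
    rw [C16_bk_add, C16_bk_add]
  · intro h
    have h1 : Tendsto (fun k => dist (bk F k (bk F n x)) (bk F k (bk F n y))) atTop (𝓝 0) := h
    have h2 : Tendsto (fun k => dist (bk F (k + n) x) (bk F (k + n) y)) atTop (𝓝 0) := by
      refine h1.congr fun k => ?_
      rw [C16_bk_add, C16_bk_add]
    exact (tendsto_add_atTop_iff_nat n).1 h2

end C16gen

/-- uniform cells in a manifold system -/
theorem ESys.C16_cell {d N : ℕ} {K : Type} [MetricSpace K] [CompactSpace K] (S : ESys d N K)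
    {ε : ℝ} (hε : 0 < ε) : ∃ R > 0, 2 * R ≤ ε ∧ ∀ x : K,
      ∃ ψ : EuclideanSpace ℝ (Fin d) → K, IsOpenEmbedding ψ ∧ ψ 0 = x ∧ ball x R ⊆ range ψ ∧
        range ψ ⊆ ball x (2 * R) := by
  obtain ⟨ρ, hρ, h1, h2⟩ := S.chart (1 / 4) (by norm_num) (by norm_num)
  refine ⟨min (ρ / 2) (ε / 2), lt_min (by linarith) (by linarith), ?_, ?_⟩
  · have := min_le_right (ρ / 2) (ε / 2)
    linarith
  set R := min (ρ / 2) (ε / 2) with hR
  have hR0 : 0 < R := lt_min (by linarith) (by linarith)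
  have hRρ : 2 * R ≤ ρ := by
    have := min_le_left (ρ / 2) (ε / 2)
    linarith
  intro x
  let b := (stdOrthonormalBasis ℝ (S.T x)).reindex (finCongr (S.rankP x))
  have hTm : ∀ w, S.P x w ∈ S.T x := fun w => LinearMap.mem_range_self _ w
  let Θ : K → EuclideanSpace ℝ (Fin d) := fun y => b.repr ⟨S.P x (S.e y - S.e x), hTm _⟩
  have he : Continuous S.e := by
    refine LipschitzWith.continuous (K := 1) (LipschitzWith.of_dist_le_mul fun y y' => ?_)
    rw [dist_eq_norm, S.e_isom]; simp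
  have hΘc : Continuous Θ := by
    refine b.repr.continuous.comp ?_
    exact Continuous.subtype_mk ((S.P x).continuous.comp (he.sub continuous_const)) _
  have hΘd : ∀ y y', dist x y < ρ → dist x y' < ρ → 3 / 4 * dist y y' ≤ dist (Θ y) (Θ y') := by
    intro y y' hy hy'
    have h3 := (h1 x y y' hy hy').1
    have h4 : dist (Θ y) (Θ y') = ‖S.P x (S.e y - S.e y')‖ := by
      rw [b.repr.dist_map, Subtype.dist_eq, dist_eq_norm]
      simp only [← map_sub]
      congr 2
      abel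
    rw [h4]; linarith
  have hΘn : ∀ y, ‖Θ y‖ = ‖S.P x (S.e y - S.e x)‖ := by
    intro y
    rw [b.repr.norm_map]; rfl
  have hΘx : Θ x = 0 := by
    rw [← norm_eq_zero, hΘn, sub_self, map_zero, norm_zero]
  -- surjectivity
  have hsurj : ∀ w : EuclideanSpace ℝ (Fin d), ∃ y, ‖w‖ < R → Θ y = w ∧ dist x y < ρ := by
    intro w
    by_cases hw : ‖w‖ < R
    · have hv : ‖((b.repr.symm w : S.T x) : EE N)‖ = ‖w‖ := b.repr.symm.norm_map w
      obtain ⟨y, hy1, hy2, -⟩ := h2 x (b.repr.symm w : S.T x) (b.repr.symm w).2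
        (by rw [hv]; linarith)
      refine ⟨y, fun _ => ⟨?_, ?_⟩⟩
      · show b.repr ⟨S.P x (S.e y - S.e x), hTm _⟩ = w
        have : (⟨S.P x (S.e y - S.e x), hTm _⟩ : S.T x) = b.repr.symm w := Subtype.ext hy1
        rw [this]; simp
      · rw [hv] at hy2
        calc dist x y ≤ (1 + 1 / 4) * ‖w‖ := hy2
          _ < ρ := by nlinarith [norm_nonneg w]
    · exact ⟨x, fun h => absurd h hw⟩
  choose g hg using hsurj
  let U := OpenPartialHomeomorph.univBall (0 : EuclideanSpace ℝ (Fin d)) R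
  have hUs : U.source = univ := OpenPartialHomeomorph.univBall_source _ _
  have hUt : U.target = ball 0 R := OpenPartialHomeomorph.univBall_target _ hR0
  have hUe : IsOpenEmbedding U := U.isOpenEmbedding hUs
  have hUn : ∀ u, ‖U u‖ < R := by
    intro u
    have : U u ∈ U.target := U.map_source (by rw [hUs]; exact mem_univ _)
    rw [hUt, mem_ball_zero_iff] at this
    exact this
  have hU0 : U 0 = 0 := OpenPartialHomeomorph.univBall_apply_zero _ _
  have hcont : Continuous fun u => g (U u) := by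
    have h3 : ∀ u u', dist (g (U u)) (g (U u')) ≤ 2 * dist (U u) (U u') := by
      intro u u'
      have h4 := hg _ (hUn u)
      have h5 := hg _ (hUn u')
      have h6 := hΘd _ _ h4.2 h5.2
      rw [h4.1, h5.1] at h6
      linarith [dist_nonneg (x := U u) (y := U u')]
    rw [Metric.continuous_iff]
    intro u ε' hε'
    obtain ⟨δ, hδ, h4⟩ := Metric.continuous_iff.1 hUe.continuous u (ε' / 2) (by linarith)
    refine ⟨δ, hδ, fun u' hu' => ?_⟩
    have := h4 u' hu'
    linarith [h3 u' u]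
  have hinj : Function.Injective fun u => g (U u) := by
    intro u u' h
    have h3 : Θ (g (U u)) = Θ (g (U u')) := congrArg Θ h
    rw [(hg _ (hUn u)).1, (hg _ (hUn u')).1] at h3
    exact hUe.injective h3
  have himg : ∀ O : Set (EuclideanSpace ℝ (Fin d)),
      (fun u => g (U u)) '' O = ball x ρ ∩ Θ ⁻¹' (U '' O) := by
    intro O
    ext y
    constructor
    · rintro ⟨u, hu, rfl⟩
      refine ⟨?_, ⟨u, hu, (hg _ (hUn u)).1.symm⟩⟩
      rw [mem_ball, dist_comm]
      exact (hg _ (hUn u)).2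
    · rintro ⟨hy, u, hu, huy⟩
      refine ⟨u, hu, ?_⟩
      rw [mem_ball, dist_comm] at hy
      have h3 := hΘd _ _ (hg _ (hUn u)).2 hy
      rw [(hg _ (hUn u)).1, huy, dist_self] at h3
      have h4 : dist (g (Θ y)) y ≤ 0 := by
        linarith
      show g (U u) = y
      rw [huy]
      exact dist_le_zero.1 h4
  refine ⟨fun u => g (U u), ?_, ?_, ?_, ?_⟩
  · refine IsOpenEmbedding.of_continuous_injective_isOpenMap hcont hinj ?_
    intro O hO
    rw [himg]
    exact isOpen_ball.inter ((hUe.isOpenMap O hO).preimage hΘc)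
  · have h3 := hg _ (hUn 0)
    have h4 := hΘd _ x h3.2 (by rw [dist_self]; exact hρ)
    rw [h3.1, hU0, hΘx, dist_self] at h4
    have h5 : dist (g (U 0)) x ≤ 0 := by
      rw [hU0]; linarith
    exact dist_le_zero.1 h5
  · rw [← image_univ, himg]
    intro y hy
    rw [mem_ball, dist_comm] at hy
    refine ⟨by rw [mem_ball, dist_comm]; linarith, ?_⟩
    rw [image_univ, mem_preimage, ← image_univ, ← hUs, U.image_source_eq_target, hUt,
      mem_ball_zero_iff, hΘn]
    have h3 := (h1 x y x (by linarith) (by rw [dist_self]; exact hρ)).2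
    rw [dist_comm] at h3
    linarith
  · rw [← image_univ, himg]
    rintro y ⟨hy, hy'⟩
    rw [mem_ball, dist_comm] at hy
    rw [image_univ, mem_preimage, ← image_univ, ← hUs, U.image_source_eq_target, hUt,
      mem_ball_zero_iff, hΘn] at hy'
    have h3 := (h1 x y x hy (by rw [dist_self]; exact hρ)).1
    rw [mem_ball]
    linarith

namespace GSys
variable {d N : ℕ} {K : Type} [MetricSpace K] [CompactSpace K] (S : GSys d N K)

theorem C16_bot {α : K} (hα : α ∈ S.Src) : S.Es α = ⊥ := Submodule.finrank_eq_zero.1 hα.2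

theorem C16_Src_symm {α : K} (hα : α ∈ S.Src) : S.f.symm α ∈ S.Src := by
  rw [← S.Src_inv, S.f.apply_symm_apply]; exact hα

theorem C16_Src_bk {α : K} (hα : α ∈ S.Src) (n : ℕ) : bk S.f n α ∈ S.Src := by
  induction n with
  | zero => exact hα
  | succ n ih => rw [bk_succ']; exact S.C16_Src_symm ih

theorem C16_Src_fw {α : K} (hα : α ∈ S.Src) (n : ℕ) : fw S.f n α ∈ S.Src := by
  induction n with
  | zero => exact hα
  | succ n ih => rw [fw_succ']; exact S.Src_inv.2 ih

theorem C16_S1_bk {x : K} (hx : x ∈ S.S1) (n : ℕ) : bk S.f n x ∈ S.S1 := by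
  induction n with
  | zero => exact hx
  | succ n ih => rw [bk_succ', ← S.S1_inv, S.f.apply_symm_apply]; exact ih

theorem C16_H_bk {x : K} (hx : x ∈ S.H) (n : ℕ) : bk S.f n x ∈ S.H := by
  induction n with
  | zero => exact hx
  | succ n ih => rw [bk_succ', ← S.H_inv, S.f.apply_symm_apply]; exact ih

theorem C16_closed : IsClosed S.Src := by
  have hT : ∀ x, finrank ℝ (S.T x) = d := S.rankP
  have h := sub_annih_semicont_R (T := S.T) (V := S.Es) S.R_closed (fun x => S.toCoc.Es_le x)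
    S.closed_s hT 0
  have : S.Src = {x | x ∈ S.R ∧ finrank ℝ (S.Es x) ≤ 0} := by
    ext x; simp [Src]
  rw [this]; exact h

theorem C16_exp {α : K} (hα : α ∈ S.Src) {v : EE N} (hv : v ∈ S.T α) :
    16 * ‖v‖ ≤ ‖S.A α v‖ := by
  have h := S.exp_s α hα.1 v hv
  rw [S.C16_bot hα, S.C16_bot (S.Src_inv.2 hα)] at h
  simpa using h

/-- local expansion at sources -/
theorem C16_loc : ∃ ρ > 0, ∀ β ∈ S.Src, ∀ y y', dist β y < ρ → dist β y' < ρ →
    4 * dist y y' ≤ dist (S.f y) (S.f y') := by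
  obtain ⟨ρ1, hρ1, h1⟩ := S.flat (1 / 2) (by norm_num)
  obtain ⟨ρ2, hρ2, h2⟩ := S.diff 1 (by norm_num)
  refine ⟨min ρ1 ρ2, lt_min hρ1 hρ2, ?_⟩
  intro β hβ y y' hy hy'
  have h3 := h1 β y y' (hy.trans_le (min_le_left _ _)) (hy'.trans_le (min_le_left _ _))
  have h4 := h2 β y y' (hy.trans_le (min_le_right _ _)) (hy'.trans_le (min_le_right _ _))
  have h5 := S.C16_exp hβ (v := S.P β (S.e y - S.e y')) (LinearMap.mem_range_self _ _)
  have h6 : S.A β (S.P β (S.e y - S.e y')) = S.A β (S.e y - S.e y') := by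
    rw [← ContinuousLinearMap.comp_apply, S.AP]
  rw [h6] at h5
  have h7 : ‖S.e y - S.e y'‖ - ‖S.P β (S.e y - S.e y')‖ ≤
      ‖(S.e y - S.e y') - S.P β (S.e y - S.e y')‖ := norm_sub_norm_le _ _
  have h8 : ‖S.A β (S.e y - S.e y')‖ - ‖S.e (S.f y) - S.e (S.f y')‖ ≤
      ‖(S.e (S.f y) - S.e (S.f y')) - S.A β (S.e y - S.e y')‖ := by
    rw [norm_sub_rev (S.e (S.f y) - S.e (S.f y')) (S.A β (S.e y - S.e y'))]
    exact norm_sub_norm_le (S.A β (S.e y - S.e y')) (S.e (S.f y) - S.e (S.f y'))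
  rw [S.e_isom] at h7 h8
  have h9 := dist_nonneg (x := y) (y := y')
  linarith

theorem Src_rep : ∃ r > 0, ∀ α ∈ S.Src, ∀ x, dist α x ≤ r →
    dist (S.f.symm α) (S.f.symm x) ≤ dist α x / 2 := by
  obtain ⟨ρ, hρ, h1⟩ := S.C16_loc
  have huc : UniformContinuous S.f.symm :=
    CompactSpace.uniformContinuous_of_continuous S.f.symm.continuous
  obtain ⟨r, hr, h2⟩ := Metric.uniformContinuous_iff.1 huc ρ hρ
  refine ⟨r / 2, by linarith, fun α hα x hx => ?_⟩
  have h3 := h2 (show dist α x < r by linarith)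
  have h4 := h1 _ (S.C16_Src_symm hα) (S.f.symm α) (S.f.symm x) (by rw [dist_self]; exact hρ) h3
  rw [S.f.apply_symm_apply, S.f.apply_symm_apply] at h4
  linarith [dist_nonneg (x := S.f.symm α) (y := S.f.symm x)]

/-- iterated contraction in the past -/
theorem C16_bk_dist {r : ℝ} (hr : ∀ α ∈ S.Src, ∀ x, dist α x ≤ r →
    dist (S.f.symm α) (S.f.symm x) ≤ dist α x / 2) {α : K} (hα : α ∈ S.Src) {x : K}
    (hx : dist α x ≤ r) (n : ℕ) : dist (bk S.f n α) (bk S.f n x) ≤ dist α x / 2 ^ n := by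
  induction n with
  | zero => simp [bk_zero]
  | succ n ih =>
    have h1 : dist (bk S.f n α) (bk S.f n x) ≤ r := by
      refine ih.trans (le_trans ?_ hx)
      exact div_le_self dist_nonneg (one_le_pow₀ (by norm_num))
    have h2 := hr _ (S.C16_Src_bk hα n) _ h1
    rw [bk_succ', bk_succ', pow_succ]
    refine h2.trans ?_
    rw [← div_div]
    exact div_le_div_of_nonneg_right ih (by norm_num)

theorem C16_mem_WU {r : ℝ} (hr : ∀ α ∈ S.Src, ∀ x, dist α x ≤ r →
    dist (S.f.symm α) (S.f.symm x) ≤ dist α x / 2) {α : K} (hα : α ∈ S.Src) {x : K}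
    (hx : dist α x ≤ r) : x ∈ WU S.f α := by
  refine squeeze_zero (fun n => dist_nonneg) (S.C16_bk_dist hr hα hx) ?_
  exact tendsto_const_nhds.div_atTop (tendsto_pow_atTop_atTop_of_one_lt (by norm_num))

theorem Src_fin : S.Src.Finite := by
  obtain ⟨r, hr0, hr⟩ := S.Src_rep
  obtain ⟨t, -, htf, ht⟩ := finite_cover_balls_of_compact (S.C16_closed.isCompact) (e := r / 2)
    (by linarith)
  by_contra hinf
  obtain ⟨s, hs, hcard⟩ := Set.Infinite.exists_subset_card_eq hinf (htf.toFinset.card + 1)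
  -- pairs at every time
  have key : ∀ n : ℕ, ∃ q ∈ s.offDiag, dist q.1 q.2 ≤ r / 2 ^ n := by
    intro n
    have h1 : ∀ α : K, ∃ c : K, α ∈ s → c ∈ htf.toFinset ∧ dist (fw S.f n α) c < r / 2 := by
      intro α
      by_cases hα : α ∈ s
      · have h2 : fw S.f n α ∈ S.Src := S.C16_Src_fw (hs hα) n
        obtain ⟨c, hc, hc'⟩ := mem_iUnion₂.1 (ht h2)
        exact ⟨c, fun _ => ⟨htf.mem_toFinset.2 hc, hc'⟩⟩
      · exact ⟨α, fun h => absurd h hα⟩
    choose c hc using h1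
    obtain ⟨α, hα, β, hβ, hne, hcc⟩ := Finset.exists_ne_map_eq_of_card_lt_of_maps_to
      (s := s) (t := htf.toFinset) (by omega) (f := c) (fun α hα => (hc α hα).1)
    refine ⟨(α, β), by simp [Finset.mem_offDiag, hα, hβ, hne], ?_⟩
    have h3 := (hc α hα).2
    have h4 := (hc β hβ).2
    rw [← hcc] at h4
    have h5 : dist (fw S.f n α) (fw S.f n β) ≤ r := by
      have := dist_triangle_right (fw S.f n α) (fw S.f n β) (c α)
      linarith
    have h6 := S.C16_bk_dist hr (S.C16_Src_fw (hs hα) n) h5 n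
    rw [C16_bk_fw, C16_bk_fw] at h6
    exact h6.trans (div_le_div_of_nonneg_right h5 (by positivity))
  have hne : s.offDiag.Nonempty := by
    obtain ⟨q, hq, -⟩ := key 0
    exact ⟨q, hq⟩
  obtain ⟨q0, hq0, hmin⟩ := s.offDiag.exists_min_image (fun q => dist q.1 q.2) hne
  have hpos : 0 < dist q0.1 q0.2 := by
    rw [Finset.mem_offDiag] at hq0
    exact dist_pos.2 hq0.2.2
  have hlim : Tendsto (fun n : ℕ => r / 2 ^ n) atTop (𝓝 0) :=
    tendsto_const_nhds.div_atTop (tendsto_pow_atTop_atTop_of_one_lt (by norm_num))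
  obtain ⟨n, hn⟩ := (hlim.eventually_lt_const hpos).exists
  obtain ⟨q, hq, hq'⟩ := key n
  linarith [hmin q hq]

theorem Src_open {α : K} (hα : α ∈ S.Src) : IsOpen (WU S.f α) := by
  obtain ⟨r, hr0, hr⟩ := S.Src_rep
  have : WU S.f α = ⋃ n, {x | dist (bk S.f n α) (bk S.f n x) < r} := by
    ext x
    rw [mem_iUnion]
    constructor
    · intro h
      have h1 : Tendsto (fun n => dist (bk S.f n α) (bk S.f n x)) atTop (𝓝 0) := h
      exact (h1.eventually_lt_const hr0).exists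
    · rintro ⟨n, hn⟩
      rw [C16_wu_iff n]
      exact S.C16_mem_WU hr (S.C16_Src_bk hα n) (le_of_lt hn)
  rw [this]
  exact isOpen_iUnion fun n => isOpen_lt (continuous_const.dist (C16_cont_bk n)) continuous_const

theorem Src_cell {α : K} (_hα : α ∈ S.Src) : ∀ ε > 0, ∃ ψ : EuclideanSpace ℝ (Fin d) → K,
    IsOpenEmbedding ψ ∧ ψ 0 = α ∧ range ψ ⊆ ball α ε := by
  intro ε hε
  obtain ⟨R, hR, hRε, h⟩ := S.toESys.C16_cell hε
  obtain ⟨ψ, h1, h2, -, h4⟩ := h α
  exact ⟨ψ, h1, h2, h4.trans (ball_subset_ball hRε)⟩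

/-- exhaustion of the basin of a source by cells -/
theorem C16_exh {α : K} (hα : α ∈ S.Src) : ∃ ψ : ℕ → EuclideanSpace ℝ (Fin d) → K,
    (∀ n, IsOpenEmbedding (ψ n)) ∧ (∀ n, ψ n 0 = α) ∧ (∀ n, range (ψ n) ⊆ range (ψ (n + 1))) ∧
      (⋃ n, range (ψ n)) = WU S.f α := by
  obtain ⟨r, hr0, hr⟩ := S.Src_rep
  obtain ⟨R, hR, hRr, h⟩ := S.toESys.C16_cell hr0
  choose c h1 h2 h3 h4 using h
  refine ⟨fun n v => fw S.f n (c (bk S.f n α) v), ?_, ?_, ?_, ?_⟩
  · intro n
    exact (C16_emb_fw n).comp (h1 _)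
  · intro n
    show fw S.f n (c (bk S.f n α) 0) = α
    rw [h2, C16_fw_bk]
  · rintro n _ ⟨v, rfl⟩
    have h5 : c (bk S.f n α) v ∈ ball (bk S.f n α) (2 * R) := h4 _ (mem_range_self v)
    rw [mem_ball, dist_comm] at h5
    have h6 := hr _ (S.C16_Src_bk hα n) _ (h5.le.trans hRr)
    have h7 : S.f.symm (c (bk S.f n α) v) ∈ ball (bk S.f (n + 1) α) R := by
      rw [mem_ball, dist_comm, bk_succ']
      linarith
    obtain ⟨u, hu⟩ := h3 _ h7
    refine ⟨u, ?_⟩
    show fw S.f (n + 1) (c (bk S.f (n + 1) α) u) = fw S.f n (c (bk S.f n α) v)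
    rw [hu, fw_succ, S.f.apply_symm_apply]
  · ext x
    rw [mem_iUnion]
    constructor
    · rintro ⟨n, v, rfl⟩
      rw [C16_wu_iff n]
      show bk S.f n (fw S.f n (c (bk S.f n α) v)) ∈ _
      rw [C16_bk_fw]
      refine S.C16_mem_WU hr (S.C16_Src_bk hα n) ?_
      have h5 : c (bk S.f n α) v ∈ ball (bk S.f n α) (2 * R) := h4 _ (mem_range_self v)
      rw [mem_ball, dist_comm] at h5
      linarith
    · intro hx
      have h5 : Tendsto (fun n => dist (bk S.f n α) (bk S.f n x)) atTop (𝓝 0) := hx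
      obtain ⟨n, hn⟩ := (h5.eventually_lt_const hR).exists
      have h6 : bk S.f n x ∈ ball (bk S.f n α) R := by rw [mem_ball, dist_comm]; exact hn
      obtain ⟨u, hu⟩ := h3 _ h6
      refine ⟨n, u, ?_⟩
      show fw S.f n (c (bk S.f n α) u) = x
      rw [hu, C16_fw_bk]

/-- a punctured cell in the punctured basin -/
theorem C16_pc {α : K} {ψ : EuclideanSpace ℝ (Fin d) → K} (hψ : IsOpenEmbedding ψ)
    (h0 : ψ 0 = α) (hsub : range ψ ⊆ WU S.f α) (hop : IsOpen (WU S.f α)) :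
    ∃ φ : {v : EuclideanSpace ℝ (Fin d) // v ≠ 0} → ↥(WU S.f α \ {α}), IsOpenEmbedding φ ∧
      ∀ v, (φ v).1 = ψ v.1 := by
  have hm : ∀ v : {v : EuclideanSpace ℝ (Fin d) // v ≠ 0}, ψ v.1 ∈ WU S.f α \ {α} := by
    intro v
    refine ⟨hsub (mem_range_self _), ?_⟩
    rw [mem_singleton_iff, ← h0]
    intro h
    exact v.2 (hψ.injective h)
  refine ⟨fun v => ⟨ψ v.1, hm v⟩, ?_, fun v => rfl⟩
  have hop' : IsOpen (WU S.f α \ {α}) := hop.sdiff isClosed_singleton
  have ho : IsOpen {v : EuclideanSpace ℝ (Fin d) | v ≠ 0} := isOpen_ne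
  have h1 : IsOpenEmbedding (fun v : {v : EuclideanSpace ℝ (Fin d) // v ≠ 0} => ψ v.1) :=
    hψ.comp ho.isOpenEmbedding_subtypeVal
  exact IsOpenEmbedding.of_comp _ hop'.isOpenEmbedding_subtypeVal h1

theorem Src_sc (hd : 3 ≤ d) {α : K} (hα : α ∈ S.Src) :
    SimplyConnectedSpace ↥(WU S.f α \ {α}) := by
  obtain ⟨ψ, h1, h2, h3, h4⟩ := S.C16_exh hα
  have hop := S.Src_open hα
  have hsub : ∀ n, range (ψ n) ⊆ WU S.f α := fun n => by
    rw [← h4]; exact subset_iUnion (fun n => range (ψ n)) n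
  choose φ hφ hφ' using fun n => S.C16_pc (h1 n) (h2 n) (hsub n) hop
  have hsc := punctured_sc d hd
  have hmono : Monotone fun n => range (ψ n) := monotone_nat_of_le_succ h3
  have hV : ∀ n, {y : ↥(WU S.f α \ {α}) | y.1 ∈ range (ψ n)} = range (φ n) := by
    intro n
    ext ⟨y, hy⟩
    constructor
    · rintro ⟨v, hv⟩
      have hv' : ψ n v = y := hv
      have hv0 : v ≠ 0 := by
        rintro rfl
        rw [h2] at hv'
        exact hy.2 hv'.symm
      exact ⟨⟨v, hv0⟩, Subtype.ext ((hφ' n _).trans hv')⟩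
    · rintro ⟨v, hv⟩
      exact ⟨v.1, (hφ' n v).symm.trans (congrArg Subtype.val hv)⟩
  have : Nonempty {v : EuclideanSpace ℝ (Fin d) // v ≠ 0} := PathConnectedSpace.nonempty
  have : Nonempty ↥(WU S.f α \ {α}) := this.map (φ 0)
  refine union_sc (fun n => {y : ↥(WU S.f α \ {α}) | y.1 ∈ range (ψ n)}) ?_ ?_ ?_ ?_
  · intro n
    rw [hV]
    exact (hφ n).isOpen_range
  · intro a b hab y hy
    exact hmono hab hy
  · ext ⟨y, hy⟩
    simp only [mem_iUnion, mem_ofPred_eq, mem_univ, iff_true]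
    have h5 : y ∈ ⋃ n, range (ψ n) := by rw [h4]; exact hy.1
    exact mem_iUnion.1 h5
  · intro n _
    rw [hV]
    exact (hφ n).toIsEmbedding.toHomeomorph.symm.toHomotopyEquiv.simplyConnectedSpace

theorem Src_lpc {α : K} (hα : α ∈ S.Src) :
    LocallyPathConnectedSpace ↥(WU S.f α \ {α}) := by
  obtain ⟨ψ, h1, h2, h3, h4⟩ := S.C16_exh hα
  have hop := S.Src_open hα
  have hsub : ∀ n, range (ψ n) ⊆ WU S.f α := fun n => by
    rw [← h4]; exact subset_iUnion (fun n => range (ψ n)) n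
  choose φ hφ hφ' using fun n => S.C16_pc (h1 n) (h2 n) (hsub n) hop
  constructor
  rintro ⟨y, hy⟩
  have h5 : y ∈ ⋃ n, range (ψ n) := by rw [h4]; exact hy.1
  obtain ⟨n, v, hv⟩ := mem_iUnion.1 h5
  have hv0 : v ≠ 0 := by
    rintro rfl
    rw [h2] at hv
    exact hy.2 hv.symm
  have ho : IsOpen {v : EuclideanSpace ℝ (Fin d) | v ≠ 0} := isOpen_ne
  have : LocallyPathConnectedSpace {v : EuclideanSpace ℝ (Fin d) // v ≠ 0} :=
    ho.locallyPathConnectedSpace
  have hfe : φ n ⟨v, hv0⟩ = ⟨y, hy⟩ := Subtype.ext ((hφ' n _).trans hv)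
  rw [← hfe]
  rw [hasBasis_self]
  intro t ht
  have ht' : φ n ⁻¹' t ∈ 𝓝 (⟨v, hv0⟩ : {v : EuclideanSpace ℝ (Fin d) // v ≠ 0}) :=
    (hφ n).continuous.continuousAt ht
  obtain ⟨s, ⟨hs1, hs2⟩, hs3⟩ := (path_connected_basis _).mem_iff.1 ht'
  refine ⟨φ n '' s, (hφ n).isOpenMap.image_mem_nhds hs1, hs2.image (hφ n).continuous, ?_⟩
  exact image_subset_iff.2 hs3

theorem S1_cases {x : K} (hx : x ∈ S.S1) : x ∈ S.H ∨ ∃ α ∈ S.Src, x ∈ WU S.f α := by
  obtain ⟨y, hy⟩ : ∃ y, MapClusterPt y atTop (fun n : ℕ => bk S.f n x) :=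
    exists_clusterPt_of_compactSpace _
  have hyc : y ∈ S.Src ∪ S.S1 := by
    by_contra hcon
    obtain ⟨n, hn⟩ := (hy.frequently (S.closed_le1.isOpen_compl.mem_nhds hcon)).exists
    exact hn (Or.inr (S.C16_S1_bk hx n))
  rcases hyc with hys | hy1
  · right
    obtain ⟨r, hr0, hr⟩ := S.Src_rep
    have h1 : ∃ᶠ n in atTop, bk S.f n x ∈ ball y r := hy.frequently (ball_mem_nhds _ hr0)
    obtain ⟨n, hn⟩ := h1.exists
    rw [mem_ball, dist_comm] at hn
    refine ⟨fw S.f n y, S.C16_Src_fw hys n, ?_⟩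
    rw [C16_wu_iff n, C16_bk_fw]
    exact S.C16_mem_WU hr hys hn.le
  · left
    have h1 := S.dim_bk x y hy
    have h2 := S.Om_dim y (S.Om_bk x y hy)
    have h3 : finrank ℝ (S.Es y) = 1 := hy1.2
    refine ⟨hx.1, hx.2, ?_⟩
    omega

theorem H_notWU {α : K} (hα : α ∈ S.Src) {x : K} (hx : x ∈ S.H) : x ∉ WU S.f α := by
  intro hxα
  obtain ⟨y, hy⟩ : ∃ y, MapClusterPt y atTop (fun n : ℕ => bk S.f n α) :=
    exists_clusterPt_of_compactSpace _
  have hyS : y ∈ S.Src := by
    by_contra hcon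
    obtain ⟨n, hn⟩ := (hy.frequently (S.C16_closed.isOpen_compl.mem_nhds hcon)).exists
    exact hn (S.C16_Src_bk hα n)
  have hyH : y ∈ S.H := by
    by_contra hcon
    obtain ⟨ε, hε, hball⟩ := Metric.isOpen_iff.1 S.closed_H.isOpen_compl y hcon
    have h1 : Tendsto (fun n => dist (bk S.f n α) (bk S.f n x)) atTop (𝓝 0) := hxα
    have h2 := h1.eventually_lt_const (show 0 < ε / 2 by linarith)
    obtain ⟨n, hn1, hn2⟩ := ((hy.frequently (ball_mem_nhds y (show 0 < ε / 2 by linarith))).and_eventually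
      h2).exists
    rw [dist_comm] at hn1
    refine hball ?_ (S.C16_H_bk hx n)
    rw [mem_ball, dist_comm]
    calc dist y (bk S.f n x) ≤ dist y (bk S.f n α) + dist (bk S.f n α) (bk S.f n x) :=
          dist_triangle _ _ _
      _ < ε := by linarith
  have h1 : finrank ℝ (S.Es y) = 0 := hyS.2
  have h2 : finrank ℝ (S.Es y) = 1 := hyH.2.1
  omega

end GSys

end Pool.MP85
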