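import Pool.Agent.Lib.MP_85e637_an.A01
import Pool.Agent.Lib.MP_85e637_an.C14a
import Pool.Agent.Lib.MP_85e637_an.C14b

/-!
# C17: dense leaves
-/

open Filter Topology Set Metric Module

namespace Pool.MP85

section C17
variable {K : Type} [MetricSpace K]

/-- hyperbolic attractor-like sets, abstractly -/
structure C17_Hyp (f : K ≃ₜ K) (Λ : Set K) (ε0 : ℝ) : Prop where
  pos : 0 < ε0
  cpt : IsCompact Λ
  inv : ∀ x, f x ∈ Λ ↔ x ∈ Λ
  cu : ∀ x ∈ Λ, ∀ y ∈ WUl f ε0 x, y ∈ WU f x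
  cs : ∀ x ∈ Λ, ∀ y ∈ WSl f ε0 x, ∀ n, dist (fw f n x) (fw f n y) ≤ ε0 / 2 ^ n
  lps : ∀ ε > 0, ∃ δ > 0, ∀ x ∈ Λ, ∀ y ∈ Λ, dist x y < δ → ∃ z, z ∈ WSl f ε x ∧ z ∈ WUl f ε y
  exp : ∀ x ∈ Λ, ∀ y, y ∈ WSl f ε0 x → y ∈ WUl f ε0 x → y = x
  wu : ∀ x ∈ Λ, WU f x ⊆ Λ
  per : ∀ y ∈ Λ, ∀ ε > 0, ∃ q ∈ Λ, dist y q < ε ∧ ∃ k > 0, fw f k q = q

variable {f : K ≃ₜ K} {Λ : Set K} {ε0 : ℝ}

theorem C17_wsl_mono {x : K} {ε ε' : ℝ} (hε : ε ≤ ε') : WSl f ε x ⊆ WSl f ε' x :=
  fun _ h n => (h n).trans hε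

theorem C17_isClosed_wsl {x : K} {ε : ℝ} : IsClosed (WSl f ε x) := by
  have h : WSl f ε x = ⋂ n, {y : K | dist (fw f n x) (fw f n y) ≤ ε} := by
    ext q
    simp only [mem_iInter, Set.mem_ofPred_eq]
    exact Iff.rfl
  rw [h]
  exact isClosed_iInter fun n =>
    isClosed_le (continuous_const.dist (continuous_fw n)) continuous_const

theorem C17_per_mul {q : K} {k : ℕ} (h : fw f k q = q) (n : ℕ) : fw f (k * n) q = q := by
  induction n with
  | zero => rfl
  | succ n ih => rw [Nat.mul_succ, fw_add, h, ih]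

theorem C17_per_bk {q : K} {k : ℕ} (h : fw f k q = q) (n : ℕ) : bk f (k * n) q = q := by
  conv_lhs => rw [← C17_per_mul h n, bk_fw]

theorem C17_cl_fw {a y : K} (n : ℕ) (h : y ∈ closure (WU f a)) :
    fw f n y ∈ closure (WU f (fw f n a)) :=
  map_mem_closure (continuous_fw n) h fun _ hb => (wu_fw n).2 hb

theorem C17_cl_bk {a y : K} (n : ℕ) (h : y ∈ closure (WU f a)) :
    bk f n y ∈ closure (WU f (bk f n a)) :=
  map_mem_closure (continuous_bk n) h fun _ hb => (wu_bk n).2 hb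

namespace C17_Hyp
variable (h : C17_Hyp f Λ ε0)
include h

theorem bk_mem {x : K} (n : ℕ) : bk f n x ∈ Λ ↔ x ∈ Λ := by
  induction n with
  | zero => exact Iff.rfl
  | succ n ih =>
    rw [← ih, bk_succ', ← h.inv, Homeomorph.apply_symm_apply]

theorem cl_sub {a : K} (ha : a ∈ Λ) : closure (WU f a) ⊆ Λ :=
  h.cpt.isClosed.closure_subset_iff.2 (h.wu a ha)

/-- closures of leaves are saturated -/
theorem sat {a z w : K} (ha : a ∈ Λ) (hz : z ∈ closure (WU f a)) (hw : w ∈ WU f z) :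
    w ∈ closure (WU f a) := by
  have hε0 := h.pos
  have hzΛ : z ∈ Λ := h.cl_sub ha hz
  obtain ⟨δ, hδ, hlps⟩ := h.lps (ε0 / 2) (by positivity)
  obtain ⟨n, hn⟩ := mem_wu_iff_eventually.1 hw (min (ε0 / 2) (δ / 2)) (by positivity)
  obtain ⟨u', hu', hu'z⟩ := mem_closure_iff_seq_limit.1 hz
  have hu'z' : Tendsto (fun j => bk f n (u' j)) atTop (𝓝 (bk f n z)) :=
    ((continuous_bk n).tendsto _).comp hu'z
  obtain ⟨j0, hj0⟩ := eventually_atTop.1
    (hu'z'.eventually (ball_mem_nhds (bk f n z) (show (0:ℝ) < δ / 2 by positivity)))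
  let u : ℕ → K := fun j => u' (j + j0)
  have hu : ∀ j, u j ∈ WU f a := fun j => hu' _
  have huz : Tendsto (fun j => bk f n (u j)) atTop (𝓝 (bk f n z)) :=
    hu'z'.comp (tendsto_add_atTop_nat j0)
  have hud : ∀ j, dist (bk f n (u j)) (bk f n z) < δ / 2 := fun j => hj0 (j + j0) (by omega)
  have hw' : bk f n w ∈ Λ := (h.bk_mem n).2 (h.wu z hzΛ hw)
  have hu' : ∀ j, bk f n (u j) ∈ Λ := fun j => (h.bk_mem n).2 (h.wu a ha (hu j))
  have hex : ∀ j, ∃ v, v ∈ WSl f (ε0 / 2) (bk f n w) ∧ v ∈ WUl f (ε0 / 2) (bk f n (u j)) := by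
    intro j
    refine hlps _ hw' _ (hu' j) ?_
    calc dist (bk f n w) (bk f n (u j)) ≤ dist (bk f n z) (bk f n w) +
          dist (bk f n (u j)) (bk f n z) := by
            rw [dist_comm (bk f n z)]
            exact (dist_triangle _ (bk f n z) _).trans (by rw [dist_comm (bk f n z) (bk f n (u j))])
      _ < δ / 2 + δ / 2 := add_lt_add_of_le_of_lt
          ((wul_dist hn).trans (min_le_right _ _)) (hud j)
      _ = δ := by ring
  choose v hv1 hv2 using hex
  have hvwu : ∀ j, v j ∈ WU f (bk f n (u j)) := fun j =>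
    h.cu _ (hu' j) _ (wul_mono (by linarith) (hv2 j))
  have hvΛ : ∀ j, v j ∈ Λ := fun j => h.wu _ (hu' j) (hvwu j)
  obtain ⟨v0, hv0, φ, hφ, hlim⟩ := h.cpt.tendsto_subseq hvΛ
  have h1 : v0 ∈ WSl f (ε0 / 2) (bk f n w) :=
    C17_isClosed_wsl.mem_of_tendsto hlim (Eventually.of_forall fun j => hv1 _)
  have h2 : v0 ∈ WUl f (ε0 / 2) (bk f n z) := by
    have h3 : Tendsto (fun j => (bk f n (u (φ j)), v (φ j))) atTop (𝓝 (bk f n z, v0)) :=
      (huz.comp hφ.tendsto_atTop).prodMk_nhds hlim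
    exact (isClosed_wul (F := f) (ε := ε0 / 2)).mem_of_tendsto h3
      (Eventually.of_forall fun j => hv2 _)
  have h4 : v0 ∈ WUl f ε0 (bk f n w) := by
    have := wul_trans (wul_symm hn) h2
    exact wul_mono (by have := min_le_left (ε0 / 2) (δ / 2); linarith) this
  have h5 : v0 = bk f n w := h.exp _ hw' _ (C17_wsl_mono (by linarith) h1) h4
  have h6 : Tendsto (fun j => fw f n (v (φ j))) atTop (𝓝 w) := by
    have := ((continuous_fw (F := f) n).tendsto v0).comp hlim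
    rw [h5, fw_bk] at this
    exact this
  refine mem_closure_of_tendsto h6 (Eventually.of_forall fun j => ?_)
  have h7 : fw f n (v (φ j)) ∈ WU f (fw f n (bk f n (u (φ j)))) := (wu_fw n).2 (hvwu _)
  rw [fw_bk] at h7
  exact wu_trans (hu _) h7

theorem cl_cl {a b : K} (ha : a ∈ Λ) (hb : b ∈ closure (WU f a)) :
    closure (WU f b) ⊆ closure (WU f a) :=
  isClosed_closure.closure_subset_iff.2 fun _ hw => h.sat ha hb hw

/-- closures of leaves of periodic points are relatively open -/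
theorem opn : ∃ δ > 0, ∀ p ∈ Λ, ∀ k > 0, fw f k p = p → ∀ z ∈ closure (WU f p), ∀ y ∈ Λ,
    dist y z < δ → y ∈ closure (WU f p) := by
  have hε0 := h.pos
  obtain ⟨δ, hδ, hlps⟩ := h.lps ε0 h.pos
  refine ⟨δ, hδ, fun p hp k hk hkp z hz y hy hyz => ?_⟩
  have hzΛ : z ∈ Λ := h.cl_sub hp hz
  rw [← isClosed_closure.closure_eq, Metric.mem_closure_iff]
  intro η hη
  obtain ⟨q, hq, hyq, l, hl, hlq⟩ := h.per y hy (min η (δ - dist y z)) (by
    have : 0 < δ - dist y z := by linarith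
    positivity)
  refine ⟨q, ?_, hyq.trans_le (min_le_left _ _)⟩
  have hqz : dist q z < δ := by
    have h1 := hyq.trans_le (min_le_right _ _)
    calc dist q z ≤ dist y q + dist y z := dist_triangle_left _ _ _
      _ < (δ - dist y z) + dist y z := by linarith
      _ = δ := by ring
  obtain ⟨v, hv1, hv2⟩ := hlps q hq z hzΛ hqz
  have hvC : v ∈ closure (WU f p) := h.sat hp hz (h.cu z hzΛ v hv2)
  have hT : Tendsto (fun n => fw f (k * (l * n)) v) atTop (𝓝 q) := by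
    rw [tendsto_iff_dist_tendsto_zero]
    have h2 : Tendsto (fun n : ℕ => ε0 / 2 ^ (k * (l * n))) atTop (𝓝 0) := by
      have h3 : Tendsto (fun n : ℕ => ε0 / 2 ^ n) atTop (𝓝 0) := by
        have := (tendsto_pow_atTop_nhds_zero_of_lt_one (r := (1/2 : ℝ)) (by norm_num)
          (by norm_num)).const_mul ε0
        simpa [div_eq_mul_inv] using this
      refine h3.comp (tendsto_atTop_mono (fun n => ?_) tendsto_id)
      calc n ≤ l * n := Nat.le_mul_of_pos_left _ hl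
        _ ≤ k * (l * n) := Nat.le_mul_of_pos_left _ hk
    refine squeeze_zero (fun _ => dist_nonneg) (fun n => ?_) h2
    have h4 := h.cs q hq v hv1 (k * (l * n))
    have h5 : fw f (k * (l * n)) q = q := by
      rw [show k * (l * n) = l * (k * n) by ring]
      exact C17_per_mul hlq _
    rw [h5, dist_comm] at h4
    exact h4
  refine isClosed_closure.mem_of_tendsto hT (Eventually.of_forall fun n => ?_)
  have := C17_cl_fw (k * (l * n)) hvC
  rwa [C17_per_mul hkp] at this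

/-- leaves of periodic points have the same closure -/
theorem eq {p q : K} (hp : p ∈ Λ) (hq : q ∈ closure (WU f p)) {k l : ℕ} (hk : 0 < k)
    (hkp : fw f k p = p) (hl : 0 < l) (hlq : fw f l q = q) :
    closure (WU f q) = closure (WU f p) := by
  have hqΛ : q ∈ Λ := h.cl_sub hp hq
  refine (h.cl_cl hp hq).antisymm (h.cl_cl hqΛ ?_)
  obtain ⟨δ, hδ, hopn⟩ := h.opn
  obtain ⟨w, hw, hwq⟩ := Metric.mem_closure_iff.1 hq δ hδ
  have hwC : w ∈ closure (WU f q) :=
    hopn q hqΛ l hl hlq q (subset_closure wu_self) w (h.wu p hp hw) (by rwa [dist_comm])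
  have hT : Tendsto (fun n => bk f (k * (l * n)) w) atTop (𝓝 p) := by
    rw [tendsto_iff_dist_tendsto_zero]
    have h1 : Tendsto (fun n => dist (bk f n p) (bk f n w)) atTop (𝓝 0) := hw
    have h2 : Tendsto (fun n : ℕ => k * (l * n)) atTop atTop := by
      refine tendsto_atTop_mono (fun n => ?_) tendsto_id
      calc n ≤ l * n := Nat.le_mul_of_pos_left _ hl
        _ ≤ k * (l * n) := Nat.le_mul_of_pos_left _ hk
    have h3 := h1.comp h2
    refine h3.congr fun n => ?_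
    simp only [Function.comp_apply]
    rw [C17_per_bk hkp, dist_comm]
  refine isClosed_closure.mem_of_tendsto hT (Eventually.of_forall fun n => ?_)
  have := C17_cl_bk (k * (l * n)) hwC
  rw [show k * (l * n) = l * (k * n) by ring] at this ⊢
  rwa [C17_per_bk hlq] at this

/-- a finite `δ`-dense set of periodic points, with a common period -/
theorem net (δ : ℝ) (hδ : 0 < δ) : ∃ (Q : Set K) (l : ℕ), Q.Finite ∧ Q ⊆ Λ ∧ 0 < l ∧
    (∀ q ∈ Q, fw f l q = q) ∧ ∀ y ∈ Λ, ∃ q ∈ Q, dist y q < δ := by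
  classical
  have h1 : ∀ y ∈ Λ, ∃ q ∈ Λ, dist y q < δ / 2 ∧ ∃ k > 0, fw f k q = q := fun y hy =>
    h.per y hy (δ / 2) (by positivity)
  choose! Qf hQ1 hQ2 hQ3 using h1
  obtain ⟨t, ht, htfin, hcov⟩ := h.cpt.finite_cover_balls (show (0:ℝ) < δ / 2 by positivity)
  choose! kf hk1 hk2 using hQ3
  refine ⟨Qf '' t, ∏ y ∈ htfin.toFinset, kf y, htfin.image _, ?_, ?_, ?_, ?_⟩
  · rintro _ ⟨y, hy, rfl⟩
    exact hQ1 y (ht hy)
  · exact Finset.prod_pos fun y hy => hk1 y (ht (by simpa using hy))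
  · rintro _ ⟨y, hy, rfl⟩
    obtain ⟨c, hc⟩ := Finset.dvd_prod_of_mem kf (show y ∈ htfin.toFinset by simpa using hy)
    rw [hc]
    exact C17_per_mul (hk2 y (ht hy)) c
  · intro y hy
    have h2 := hcov hy
    simp only [mem_iUnion, mem_ball] at h2
    obtain ⟨x, hx, hyx⟩ := h2
    refine ⟨Qf x, mem_image_of_mem _ hx, ?_⟩
    calc dist y (Qf x) ≤ dist y x + dist x (Qf x) := dist_triangle _ _ _
      _ < δ / 2 + δ / 2 := add_lt_add hyx (hQ2 x (ht hx))
      _ = δ := by ring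

/-- every leaf is dense in its component -/
theorem dense {p y : K} (hp : p ∈ Λ) {k : ℕ} (hk : 0 < k) (hkp : fw f k p = p)
    (hy : y ∈ closure (WU f p)) : closure (WU f p) ⊆ closure (WU f y) := by
  intro z hz
  rw [Metric.mem_closure_iff]
  intro η hη
  have hε0 := h.pos
  obtain ⟨δ1, hδ1, hopn⟩ := h.opn
  obtain ⟨δ2, hδ2, hlps⟩ := h.lps ε0 h.pos
  obtain ⟨Q, l, hQfin, hQΛ, hl, hlQ, hQd⟩ := h.net (min δ1 (δ2 / 2)) (by positivity)
  -- common period
  let T : ℕ → ℕ := fun n => k * (l * n)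
  have hTp : ∀ n, bk f (T n) p = p := fun n => C17_per_bk hkp _
  have hTQ : ∀ n, ∀ q ∈ Q, bk f (T n) q = q := fun n q hq => by
    show bk f (k * (l * n)) q = q
    rw [show k * (l * n) = l * (k * n) by ring]
    exact C17_per_bk (hlQ q hq) _
  have hTtop : Tendsto T atTop atTop := by
    refine tendsto_atTop_mono (fun n => ?_) tendsto_id
    calc n ≤ l * n := Nat.le_mul_of_pos_left _ hl
      _ ≤ k * (l * n) := Nat.le_mul_of_pos_left _ hk
  have hyn : ∀ n, bk f (T n) y ∈ closure (WU f p) := fun n => by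
    have := C17_cl_bk (T n) hy
    rwa [hTp] at this
  have hnear : ∀ n, ∃ q ∈ Q, dist (bk f (T n) y) q < min δ1 (δ2 / 2) := fun n =>
    hQd _ (h.cl_sub hp (hyn n))
  choose qf hqf1 hqf2 using hnear
  -- infinitely many `n` with the same `q`
  obtain ⟨q, hqQ, hqinf⟩ : ∃ q ∈ Q, ∃ᶠ n in atTop, qf n = q := by
    by_contra hno
    push Not at hno
    have h1 : ∀ᶠ n in atTop, ∀ q ∈ Q, qf n ≠ q := by
      rw [Filter.eventually_all_finite hQfin]
      intro q hq
      simpa using hno q hq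
    obtain ⟨n, hn⟩ := h1.exists
    exact hn _ (hqf1 n) rfl
  obtain ⟨n1, hn1⟩ := hqinf.exists
  have hqC : q ∈ closure (WU f p) := by
    refine hopn p hp k hk hkp _ (hyn n1) q (hQΛ hqQ) ?_
    rw [dist_comm, ← hn1]
    exact (hqf2 n1).trans_le (min_le_left _ _)
  have hCq : closure (WU f q) = closure (WU f p) := h.eq hp hqC hk hkp hl (hlQ q hqQ)
  rw [← hCq] at hz
  obtain ⟨w, hw, hwz⟩ := Metric.mem_closure_iff.1 hz (η / 2) (by positivity)
  have hwT : Tendsto (fun n => dist (bk f (T n) q) (bk f (T n) w)) atTop (𝓝 0) := by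
    have h1 : Tendsto (fun n => dist (bk f n q) (bk f n w)) atTop (𝓝 0) := hw
    exact h1.comp hTtop
  have hsm : Tendsto (fun n : ℕ => ε0 / 2 ^ (T n)) atTop (𝓝 0) := by
    have h3 : Tendsto (fun n : ℕ => ε0 / 2 ^ n) atTop (𝓝 0) := by
      have := (tendsto_pow_atTop_nhds_zero_of_lt_one (r := (1/2 : ℝ)) (by norm_num)
        (by norm_num)).const_mul ε0
      simpa [div_eq_mul_inv] using this
    exact h3.comp hTtop
  obtain ⟨n, hnq, hn2, hn3⟩ := (hqinf.and_eventually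
    ((hwT.eventually_lt_const (show (0:ℝ) < δ2 / 2 by positivity)).and
      (hsm.eventually_lt_const (show (0:ℝ) < η / 2 by positivity)))).exists
  have hqΛ := hQΛ hqQ
  have hwΛ : bk f (T n) w ∈ Λ := (h.bk_mem _).2 (h.wu q hqΛ hw)
  have hyΛ : bk f (T n) y ∈ Λ := h.cl_sub hp (hyn n)
  obtain ⟨v, hv1, hv2⟩ := hlps _ hwΛ _ hyΛ (by
    rw [hTQ n q hqQ] at hn2
    have h4 := (hqf2 n).trans_le (min_le_right _ _)
    rw [hnq] at h4
    calc dist (bk f (T n) w) (bk f (T n) y)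
        ≤ dist q (bk f (T n) w) + dist (bk f (T n) y) q := by
          rw [dist_comm (bk f (T n) y) q]; exact dist_triangle_left _ _ _
      _ < δ2 / 2 + δ2 / 2 := add_lt_add hn2 h4
      _ = δ2 := by ring)
  refine ⟨fw f (T n) v, ?_, ?_⟩
  · have h5 : fw f (T n) v ∈ WU f (fw f (T n) (bk f (T n) y)) := (wu_fw _).2 (h.cu _ hyΛ _ hv2)
    rwa [fw_bk] at h5
  · have h6 := h.cs _ hwΛ _ hv1 (T n)
    rw [fw_bk] at h6
    calc dist z (fw f (T n) v) ≤ dist z w + dist w (fw f (T n) v) := dist_triangle _ _ _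
      _ < η / 2 + η / 2 := add_lt_add hwz (h6.trans_lt hn3)
      _ = η := by ring

theorem comp {x : K} (hx : x ∈ Λ) : ∃ (l : ℕ) (L : Set K), 0 < l ∧ L ⊆ Λ ∧ x ∈ L ∧ IsClosed L ∧
      IsClosed (Λ \ L) ∧ (∀ y, fw f l y ∈ L ↔ y ∈ L) ∧
      ∀ y ∈ L, L ⊆ closure (WU f y) := by
  obtain ⟨δ, hδ, hopn⟩ := h.opn
  obtain ⟨p, hp, hxp, k, hk, hkp⟩ := h.per x hx δ hδ
  refine ⟨k, closure (WU f p), hk, h.cl_sub hp, ?_, isClosed_closure, ?_, ?_, ?_⟩
  · exact hopn p hp k hk hkp p (subset_closure wu_self) x hx hxp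
  · rw [← isSeqClosed_iff_isClosed]
    intro u y hu huy
    refine ⟨h.cpt.isClosed.mem_of_tendsto huy (Eventually.of_forall fun j => (hu j).1), ?_⟩
    intro hyC
    obtain ⟨j, hj⟩ := (huy.eventually (ball_mem_nhds y hδ)).exists
    exact (hu j).2 (hopn p hp k hk hkp y hyC (u j) (hu j).1 hj)
  · intro y
    constructor
    · intro hy
      have := C17_cl_bk k hy
      have h1 : bk f k p = p := by simpa using C17_per_bk hkp 1
      rwa [bk_fw, h1] at this
    · intro hy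
      have := C17_cl_fw k hy
      rwa [hkp] at this
  · exact fun y hy => h.dense hp hk hkp hy

end C17_Hyp
end C17

namespace GSys
variable {d N : ℕ} {K : Type} [MetricSpace K] [CompactSpace K] (S : GSys d N K)

theorem exists_comp {Λ : Set K} (hc : IsCompact Λ) (hinv : ∀ x, S.f x ∈ Λ ↔ x ∈ Λ)
    (hH : Λ ⊆ S.H)
    (hrep : ∀ x, Tendsto (fun n => infDist (bk S.f n x) Λ) atTop (𝓝 0) → x ∈ Λ)
    (hper : ∀ y ∈ Λ, ∀ ε > 0, ∃ q ∈ Λ, dist y q < ε ∧ ∃ k > 0, fw S.f k q = q)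
    {x : K} (hx : x ∈ Λ) : ∃ (l : ℕ) (L : Set K), 0 < l ∧ L ⊆ Λ ∧ x ∈ L ∧ IsClosed L ∧
      IsClosed (Λ \ L) ∧ (∀ y, fw S.f l y ∈ L ↔ y ∈ L) ∧
      ∀ y ∈ L, L ⊆ closure (WU S.f y) := by
  obtain ⟨εu, hεu, hu⟩ := S.H_u
  obtain ⟨εs, hεs, hs⟩ := S.H_s
  obtain ⟨εe, hεe, he⟩ := S.H_exp
  have hfwΛ : ∀ n, ∀ x, fw S.f n x ∈ Λ ↔ x ∈ Λ := by
    intro n
    induction n with
    | zero => exact fun x => Iff.rfl
    | succ n ih => intro x; rw [fw_succ', hinv, ih]
  have hbkΛ : ∀ n, ∀ x, bk S.f n x ∈ Λ ↔ x ∈ Λ := by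
    intro n x
    rw [← hfwΛ n, fw_bk]
  set ε0 := min εu (min εs εe) with hε0def
  have hε0 : 0 < ε0 := by positivity
  have hε0u : ε0 ≤ εu := min_le_left _ _
  have hε0s : ε0 ≤ εs := (min_le_right _ _).trans (min_le_left _ _)
  have hε0e : ε0 ≤ εe := (min_le_right _ _).trans (min_le_right _ _)
  -- contraction in the past
  have hcu : ∀ x ∈ Λ, ∀ y ∈ WUl S.f ε0 x, ∀ n, dist (bk S.f n x) (bk S.f n y) ≤ ε0 / 2 ^ n := by
    intro x hx y hy n
    induction n with
    | zero => simpa using hy 0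
    | succ n ih =>
      have h1 : bk S.f n x ∈ S.H := hH ((hbkΛ n x).2 hx)
      have h2 : bk S.f n y ∈ WUl S.f εu (bk S.f n x) := wul_mono hε0u (wul_bk n hy)
      have h3 := hu _ h1 _ (wul_self hεu.le) _ h2
      rw [← bk_succ', ← bk_succ'] at h3
      have h4 : ε0 / 2 ^ (n + 1) = ε0 / 2 ^ n / 2 := by rw [pow_succ]; field_simp
      rw [h4]
      have := dist_nonneg (x := bk S.f (n + 1) x) (y := bk S.f (n + 1) y)
      linarith
  have hcs : ∀ x ∈ Λ, ∀ y ∈ WSl S.f ε0 x, ∀ n, dist (fw S.f n x) (fw S.f n y) ≤ ε0 / 2 ^ n := by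
    intro x hx y hy n
    induction n with
    | zero => simpa using hy 0
    | succ n ih =>
      have h1 : fw S.f n x ∈ S.H := hH ((hfwΛ n x).2 hx)
      have h2 : fw S.f n y ∈ WSl S.f εs (fw S.f n x) := by
        intro k
        rw [← fw_add, ← fw_add]
        exact (hy (k + n)).trans hε0s
      have h2' : fw S.f n x ∈ WSl S.f εs (fw S.f n x) := by
        intro k
        rw [dist_self]; exact hεs.le
      have h3 := hs _ h1 _ h2' _ h2
      rw [← fw_succ', ← fw_succ'] at h3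
      have h4 : ε0 / 2 ^ (n + 1) = ε0 / 2 ^ n / 2 := by rw [pow_succ]; field_simp
      rw [h4]
      have := dist_nonneg (x := fw S.f (n + 1) x) (y := fw S.f (n + 1) y)
      linarith
  have htend : Tendsto (fun n : ℕ => ε0 / 2 ^ n) atTop (𝓝 0) := by
    have := (tendsto_pow_atTop_nhds_zero_of_lt_one (r := (1/2 : ℝ)) (by norm_num)
      (by norm_num)).const_mul ε0
    simpa [div_eq_mul_inv] using this
  have hyp : C17_Hyp S.f Λ ε0 :=
    { pos := hε0
      cpt := hc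
      inv := hinv
      cu := fun x hx y hy => squeeze_zero (fun _ => dist_nonneg) (hcu x hx y hy) htend
      cs := hcs
      lps := fun ε hε => by
        obtain ⟨δ, hδ, h⟩ := S.H_lps ε hε
        exact ⟨δ, hδ, fun x hx y hy => h x (hH hx) y (hH hy)⟩
      exp := fun x hx y hy1 hy2 => he x (hH hx) y (C17_wsl_mono hε0e hy1) (wul_mono hε0e hy2)
      wu := fun x hx y hy => by
        apply hrep
        have h1 : Tendsto (fun n => dist (bk S.f n x) (bk S.f n y)) atTop (𝓝 0) := hy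
        refine squeeze_zero (fun _ => infDist_nonneg) (fun n => ?_) h1
        rw [dist_comm]
        exact infDist_le_dist_of_mem ((hbkΛ n x).2 hx)
      per := hper }
  exact hyp.comp hx

end GSys

end Pool.MP85
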