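import Pool.Agent.Lib.MP_85e637_an.AbsC
import Pool.Agent.Lib.MP_85e637_an.A01
import Pool.Agent.Lib.MP_85e637_an.C08a
import Pool.Agent.Lib.MP_85e637_an.C17

/-!
# C18: good attractor for a power
-/

open Filter Topology Set Metric Module

namespace Pool.MP85

section C18
variable {K : Type} [MetricSpace K] {f g : K ≃ₜ K} {l : ℕ}

theorem C18_fw (hg : ∀ y, g y = fw f l y) (n : ℕ) (y : K) : fw g n y = fw f (l * n) y := by
  induction n generalizing y with
  | zero => simp [fw_zero]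
  | succ n ih => rw [fw_succ, ih, hg, ← fw_add, Nat.mul_succ]

theorem C18_symm (hg : ∀ y, g y = fw f l y) (y : K) : g.symm y = bk f l y := by
  have h : g (bk f l y) = y := by rw [hg, fw_bk]
  rw [Homeomorph.symm_apply_eq, h]

theorem C18_bk (hg : ∀ y, g y = fw f l y) (n : ℕ) (y : K) : bk g n y = bk f (l * n) y := by
  induction n generalizing y with
  | zero => simp [bk_zero]
  | succ n ih => rw [bk_succ, ih, C18_symm hg, ← bk_add, Nat.mul_succ]

/-- forward invariance under iterates -/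
theorem C18_fw_mem {f : K ≃ₜ K} {U : Set K} (h : ∀ x ∈ U, f x ∈ U) (n : ℕ) {x : K} (hx : x ∈ U) :
    fw f n x ∈ U := by
  induction n with
  | zero => simpa [fw_zero] using hx
  | succ n ih => rw [fw_succ']; exact h _ ih

/-- `bk f n x` from a later backward iterate -/
theorem C18_bk_of {f : K ≃ₜ K} {U : Set K} (h : ∀ x ∈ U, f x ∈ U) {n k : ℕ} (hnk : n ≤ k) {x : K}
    (hx : bk f k x ∈ U) : bk f n x ∈ U := by
  have h1 : bk f n x = fw f (k - n) (bk f k x) := by
    have h2 : bk f k x = bk f (k - n) (bk f n x) := by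
      rw [← bk_add, Nat.sub_add_cancel hnk]
    rw [h2, fw_bk]
  rw [h1]
  exact C18_fw_mem h _ hx

variable [CompactSpace K]

/-- a compact forward invariant set shrinks to its set of points with full backward orbit -/
theorem C18_shrink (g : K ≃ₜ K) {C V : Set K} (hC : IsClosed C) (hinv : ∀ x ∈ C, g x ∈ C)
    (hV : IsOpen V) (h : ∀ x, (∀ n, bk g n x ∈ C) → x ∈ V) :
    ∃ n0, ∀ n ≥ n0, ∀ x ∈ C, fw g n x ∈ V := by
  have hcl : ∀ n : ℕ, IsClosed {x | bk g n x ∈ C} := fun n => hC.preimage (continuous_bk n)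
  have hanti : ∀ n k : ℕ, n ≤ k → {x | bk g k x ∈ C} ⊆ {x | bk g n x ∈ C} :=
    fun n k hnk x hx => C18_bk_of hinv hnk hx
  obtain ⟨n0, hn0⟩ := exists_subset_nhds_of_isCompact (V := fun n : ℕ => {x | bk g n x ∈ C})
    (U := V)
    (fun i j => ⟨max i j, hanti _ _ (le_max_left _ _), hanti _ _ (le_max_right _ _)⟩)
    (fun n => (hcl n).isCompact)
    (fun x hx => hV.mem_nhds (h x (fun n => mem_iInter.1 hx n)))
  refine ⟨n0, fun n hn x hx => hn0 ?_⟩
  change bk g n0 (fw g n x) ∈ C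
  have h1 : fw g n x = fw g n0 (fw g (n - n0) x) := by
    rw [← fw_add, Nat.add_sub_cancel' hn]
  rw [h1, bk_fw]
  exact C18_fw_mem hinv _ hx

theorem C18_top (f g : K ≃ₜ K) (l : ℕ) (hl : 0 < l) (hg : ∀ y, g y = fw f l y) {U0 Λ L : Set K}
    (hU0 : IsOpen U0) (htrap : ∀ x ∈ closure U0, f x ∈ U0) (hΛU : Λ = {x | ∀ n, bk f n x ∈ U0})
    (hne : L.Nonempty) (hLΛ : L ⊆ Λ) (hL : IsClosed L) (hL' : IsClosed (Λ \ L))
    (hinv : ∀ y, g y ∈ L ↔ y ∈ L) :
    (∀ ε > 0, ∃ U : Set K, IsOpen U ∧ L ⊆ U ∧ (∀ x ∈ U, infDist x L < ε) ∧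
      (∀ x ∈ closure U, g x ∈ U) ∧ ∀ x, (∀ n, bk g n x ∈ closure U) → x ∈ L) := by
  have htrapU : ∀ x ∈ U0, f x ∈ U0 := fun x hx => htrap x (subset_closure hx)
  have htrapC : ∀ x ∈ closure U0, f x ∈ closure U0 := fun x hx => subset_closure (htrap x hx)
  have hgU : ∀ x ∈ closure U0, g x ∈ U0 := by
    intro x hx
    rw [hg]
    obtain ⟨l', rfl⟩ : ∃ l', l = l' + 1 := ⟨l - 1, by omega⟩
    rw [fw_succ]
    exact C18_fw_mem htrapU _ (htrap x hx)
  have hgC : ∀ x ∈ closure U0, g x ∈ closure U0 := fun x hx => subset_closure (hgU x hx)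
  -- points with full backward orbit in the closure are in `Λ`
  have hfull : ∀ x, (∀ n, bk g n x ∈ closure U0) → x ∈ Λ := by
    intro x hx
    rw [hΛU]
    intro n
    have h1 : bk f (l * (n + 1)) x ∈ closure U0 := by
      rw [← C18_bk hg]
      exact hx (n + 1)
    have h2 : n + 1 ≤ l * (n + 1) := Nat.le_mul_of_pos_left _ hl
    have h3 : bk f (n + 1) x ∈ closure U0 := C18_bk_of htrapC h2 h1
    have h4 : bk f n x = f (bk f (n + 1) x) := by
      rw [bk_succ']
      simp
    rw [h4]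
    exact htrap _ h3
  have hΛf : ∀ y, f y ∈ Λ ↔ y ∈ Λ := by
    intro y
    rw [hΛU]
    constructor
    · intro hy n
      have := hy (n + 1)
      rw [bk_succ] at this
      simpa using this
    · intro hy n
      cases n with
      | zero => exact htrapU _ (hy 0)
      | succ n =>
        rw [bk_succ]
        simpa using hy n
  have hΛfw : ∀ (n : ℕ) y, fw f n y ∈ Λ ↔ y ∈ Λ := by
    intro n
    induction n with
    | zero => intro y; rfl
    | succ n ih =>
      intro y
      rw [fw_succ, ih, hΛf]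
  have hΛg : ∀ y, g y ∈ Λ ↔ y ∈ Λ := fun y => by rw [hg, hΛfw]
  have hΛU0 : Λ ⊆ U0 := by
    intro y hy
    rw [hΛU] at hy
    exact hy 0
  -- separate `L` and `Λ \ L`
  have hd0 : Disjoint L (Λ \ L) := disjoint_sdiff_right
  obtain ⟨δ, hδ, hdisj⟩ := hd0.exists_thickenings hL.isCompact hL'
  have hop : IsOpen (g ⁻¹' thickening δ L) := isOpen_thickening.preimage g.continuous
  have hsub : L ⊆ g ⁻¹' thickening δ L :=
    fun y hy => self_subset_thickening hδ _ ((hinv y).2 hy)
  obtain ⟨δ1, hδ1, hδ1s⟩ := hL.isCompact.exists_thickening_subset_open hop hsub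
  intro ε hε
  set δ' : ℝ := min ε (min δ δ1) with hδ'
  have hδ'0 : 0 < δ' := lt_min hε (lt_min hδ hδ1)
  set V : Set K := thickening δ' L with hV
  set V' : Set K := thickening δ' (Λ \ L) with hV'
  have hVδ : V ⊆ thickening δ L :=
    thickening_mono ((min_le_right _ _).trans (min_le_left _ _)) _
  have hV'δ : V' ⊆ thickening δ (Λ \ L) :=
    thickening_mono ((min_le_right _ _).trans (min_le_left _ _)) _
  have hVδ1 : V ⊆ thickening δ1 L :=
    thickening_mono ((min_le_right _ _).trans (min_le_right _ _)) _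
  have hVV' : Disjoint V V' := hdisj.mono hVδ hV'δ
  have hVo : IsOpen V := isOpen_thickening
  have hV'o : IsOpen V' := isOpen_thickening
  -- large iterates of the closure of `U0`
  obtain ⟨n0, hn0⟩ := C18_shrink g (C := closure U0) (V := V ∪ V') isClosed_closure hgC
    (hVo.union hV'o) (by
      intro x hx
      have hxΛ := hfull x hx
      by_cases hxL : x ∈ L
      · exact Or.inl (self_subset_thickening hδ'0 _ hxL)
      · exact Or.inr (self_subset_thickening hδ'0 _ ⟨hxΛ, hxL⟩))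
  set W : Set K := {x | bk g n0 x ∈ U0} with hW
  have hWo : IsOpen W := hU0.preimage (continuous_bk n0)
  have hclW : closure W ⊆ {x | bk g n0 x ∈ closure U0} :=
    closure_minimal (fun x hx => subset_closure hx)
      (isClosed_closure.preimage (continuous_bk n0))
  have hinV : ∀ x, bk g n0 x ∈ closure U0 → x ∈ V ∪ V' := by
    intro x hx
    have := hn0 n0 le_rfl _ hx
    rwa [fw_bk] at this
  have hclU : ∀ x ∈ closure (W ∩ V), bk g n0 x ∈ closure U0 ∧ x ∈ V := by
    intro x hx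
    have h1 : x ∈ closure W := closure_mono inter_subset_left hx
    have h2 : x ∈ closure V := closure_mono inter_subset_right hx
    have h3 := hclW h1
    refine ⟨h3, ?_⟩
    rcases hinV x h3 with h | h
    · exact h
    · exfalso
      have h4 : Disjoint (closure V) V' := hVV'.closure_left hV'o
      exact disjoint_left.1 h4 h2 h
  refine ⟨W ∩ V, hWo.inter hVo, ?_, ?_, ?_, ?_⟩
  · intro x hx
    refine ⟨?_, self_subset_thickening hδ'0 _ hx⟩
    have h1 : x ∈ Λ := hLΛ hx
    rw [hΛU] at h1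
    change bk g n0 x ∈ U0
    rw [C18_bk hg]
    exact h1 _
  · intro x hx
    have h1 := (mem_thickening_iff_infDist_lt hne).1 hx.2
    exact lt_of_lt_of_le h1 (min_le_left _ _)
  · intro x hx
    obtain ⟨h1, h2⟩ := hclU x hx
    have h3 : bk g n0 (g x) ∈ U0 := by
      have : bk g n0 (g x) = g (bk g n0 x) := by
        have e1 : bk g n0 (g x) = bk g n0 (fw g 1 x) := rfl
        have e2 : g x = g (fw g n0 (bk g n0 x)) := by rw [fw_bk]
        rw [e2, ← fw_succ', fw_succ, bk_fw]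
      rw [this]
      exact hgU _ h1
    refine ⟨h3, ?_⟩
    rcases hinV (g x) (subset_closure h3) with h | h
    · exact h
    · exfalso
      exact disjoint_left.1 hdisj (hδ1s (hVδ1 h2)) (hV'δ h)
  · intro x hx
    have h1 : x ∈ Λ := by
      refine hfull x (fun n => ?_)
      have h2 := (hclU _ (hx n)).1
      rw [← bk_add] at h2
      exact C18_bk_of hgC (by omega) h2
    by_contra hxL
    have h2 : x ∈ V := (hclU _ (hx 0)).2
    exact disjoint_left.1 hVV' h2 (self_subset_thickening hδ'0 _ ⟨h1, hxL⟩)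

/-- the basin of `Λ` for a power of `f` is the basin for `f` -/
theorem C18_basin_pow (f g : K ≃ₜ K) (l : ℕ) (hg : ∀ y, g y = fw f l y) {U0 Λ : Set K}
    (hΛ : Λ.Nonempty) (hU0 : IsOpen U0) (htrap : ∀ x ∈ closure U0, f x ∈ U0)
    (hΛU : Λ = {x | ∀ n, bk f n x ∈ U0}) (hΛcl : IsClosed Λ) {y : K}
    (hy : Tendsto (fun n => infDist (fw g n y) Λ) atTop (𝓝 0)) :
    Tendsto (fun n => infDist (fw f n y) Λ) atTop (𝓝 0) := by
  have htrapC : ∀ x ∈ closure U0, f x ∈ closure U0 := fun x hx => subset_closure (htrap x hx)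
  have hΛU0 : Λ ⊆ U0 := by
    intro y hy
    rw [hΛU] at hy
    exact hy 0
  obtain ⟨δ, hδ, hδs⟩ := hΛcl.isCompact.exists_thickening_subset_open hU0 hΛU0
  obtain ⟨n1, hn1⟩ := (hy.eventually (gt_mem_nhds hδ)).exists
  have e1 : fw f (l * n1) y ∈ U0 := by
    rw [← C18_fw hg]
    exact hδs ((mem_thickening_iff_infDist_lt hΛ).2 hn1)
  rw [Metric.tendsto_atTop]
  intro ε hε
  obtain ⟨n0, hn0⟩ := C18_shrink f (C := closure U0) (V := thickening ε Λ) isClosed_closure
    htrapC isOpen_thickening (fun z hz => self_subset_thickening hε _ (by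
      rw [hΛU]
      intro n
      have h4 : bk f n z = f (bk f (n + 1) z) := by
        rw [bk_succ']
        simp
      rw [h4]
      exact htrap _ (hz (n + 1))))
  refine ⟨n0 + l * n1, fun n hn => ?_⟩
  have e2 : fw f n y = fw f (n - l * n1) (fw f (l * n1) y) := by
    rw [← fw_add, Nat.sub_add_cancel (by omega)]
  rw [e2, Real.dist_eq, sub_zero, abs_of_nonneg infDist_nonneg]
  exact (mem_thickening_iff_infDist_lt hΛ).1 (hn0 _ (by omega) _ (subset_closure e1))

end C18

namespace GSys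
variable {d N : ℕ} {K : Type} [MetricSpace K] [CompactSpace K] (S : GSys d N K)

/-- C18: good attractor for a power. `U0` is the trapping neighbourhood of `Λ`. -/
theorem exists_gatt {Λ U0 : Set K} (hΛ : Λ.Nonempty) (hU0 : IsOpen U0)
    (htrap : ∀ x ∈ closure U0, S.f x ∈ U0) (hΛU : Λ = {x | ∀ n, bk S.f n x ∈ U0})
    (hH : Λ ⊆ S.H) (hOm : Λ ⊆ S.Om)
    (hBR : {x | Tendsto (fun n => infDist (fw S.f n x) Λ) atTop (𝓝 0)} ⊆ S.R)
    {x : K} (hx : x ∈ Λ) :
    ∃ l > 0, ∃ G : GAtt d N K, (∀ y, G.f y = fw S.f l y) ∧ G.e = S.e ∧ G.P = S.P ∧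
      (∀ y, G.A y = S.An l y) ∧ (∀ y, G.Es y = S.Es y) ∧ (∀ y, G.Eu y = S.Eu y) ∧
      G.Om = S.Om ∧ x ∈ G.L ∧ G.L ⊆ Λ ∧ IsClosed (Λ \ G.L) := by
  have htrapU : ∀ x ∈ U0, S.f x ∈ U0 := fun x hx => htrap x (subset_closure hx)
  have htrapC : ∀ x ∈ closure U0, S.f x ∈ closure U0 := fun x hx => subset_closure (htrap x hx)
  have hΛcl : IsClosed Λ := by
    have h1 : Λ = ⋂ n : ℕ, {x | bk S.f n x ∈ closure U0} := by
      rw [hΛU]
      ext y
      simp only [Set.mem_ofPred_eq, mem_iInter]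
      constructor
      · exact fun hy n => subset_closure (hy n)
      · intro hy n
        have h4 : bk S.f n y = S.f (bk S.f (n + 1) y) := by
          rw [bk_succ']
          simp
        rw [h4]
        exact htrap _ (hy (n + 1))
    rw [h1]
    exact isClosed_iInter fun n => isClosed_closure.preimage (continuous_bk n)
  have hΛf : ∀ y, S.f y ∈ Λ ↔ y ∈ Λ := by
    intro y
    rw [hΛU]
    constructor
    · intro hy n
      have := hy (n + 1)
      rw [bk_succ] at this
      simpa using this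
    · intro hy n
      cases n with
      | zero => exact htrapU _ (hy 0)
      | succ n =>
        rw [bk_succ]
        simpa using hy n
  have hΛU0 : Λ ⊆ U0 := by
    intro y hy
    rw [hΛU] at hy
    exact hy 0
  obtain ⟨δ, hδ, hδs⟩ := hΛcl.isCompact.exists_thickening_subset_open hU0 hΛU0
  have hrep : ∀ x, Tendsto (fun n => infDist (bk S.f n x) Λ) atTop (𝓝 0) → x ∈ Λ := by
    intro y hy
    rw [hΛU]
    intro n
    obtain ⟨n1, hn1⟩ := (hy.eventually (gt_mem_nhds hδ)).exists_forall_of_atTop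
    have h1 : bk S.f (max n n1) y ∈ U0 :=
      hδs ((mem_thickening_iff_infDist_lt hΛ).2 (hn1 _ (le_max_right _ _)))
    exact C18_bk_of htrapU (le_max_left _ _) h1
  have hper : ∀ y ∈ Λ, ∀ ε > 0, ∃ q ∈ Λ, dist y q < ε ∧ ∃ k > 0, fw S.f k q = q := by
    intro y hy ε hε
    obtain ⟨q, hq, k, hk, hqk⟩ := S.Om_per y (hOm hy) (min ε δ) (lt_min hε hδ)
    refine ⟨q, ?_, lt_of_lt_of_le hq (min_le_left _ _), k, hk, hqk⟩
    have hqU : q ∈ U0 := by
      refine hδs ?_
      rw [mem_thickening_iff]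
      exact ⟨y, hy, by rw [dist_comm]; exact lt_of_lt_of_le hq (min_le_right _ _)⟩
    rw [hΛU]
    intro n
    have hkn : ∀ j : ℕ, fw S.f (k * j) q = q := by
      intro j
      induction j with
      | zero => simp [fw_zero]
      | succ j ih => rw [Nat.mul_succ, fw_add, hqk, ih]
    have h1 : bk S.f n q = fw S.f (k * n - n) q := by
      have h2 : n ≤ k * n := Nat.le_mul_of_pos_left _ hk
      have h3 : fw S.f n (fw S.f (k * n - n) q) = q := by
        rw [← fw_add, Nat.add_sub_cancel' h2, hkn]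
      conv_lhs => rw [← h3]
      rw [bk_fw]
    rw [h1]
    exact C18_fw_mem htrapU _ hqU
  obtain ⟨l, L, hl, hLΛ, hxL, hLc, hLc', hLinv, hdense⟩ :=
    S.exists_comp hΛcl.isCompact hΛf hH hrep hper hx
  obtain ⟨S', h1, h2, h3, h4, h5, h6, h7, h8R⟩ := GSys.exists_pow S l hl
  have hLg : ∀ y, S'.f y ∈ L ↔ y ∈ L := fun y => by rw [h1, hLinv]
  have hne : L.Nonempty := ⟨x, hxL⟩
  have htop := C18_top S.f S'.f l hl h1 hU0 htrap hΛU hne hLΛ hLc hLc' hLg
  -- basin facts
  have hbasin : ∀ U : Set K, IsOpen U → L ⊆ U → (∀ x ∈ closure U, S'.f x ∈ U) →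
      (∀ x, (∀ n, bk S'.f n x ∈ closure U) → x ∈ L) → ∀ ε > 0, ∃ n0, ∀ n ≥ n0, ∀ x ∈ U,
        infDist (fw S'.f n x) L < ε := by
    intro U hU hLU hUt hUL ε hε
    obtain ⟨n0, hn0⟩ := C18_shrink S'.f (C := closure U) (V := thickening ε L) isClosed_closure
      (fun x hx => subset_closure (hUt x hx)) isOpen_thickening
      (fun x hx => self_subset_thickening hε _ (hUL x hx))
    exact ⟨n0, fun n hn x hx =>
      (mem_thickening_iff_infDist_lt hne).1 (hn0 n hn x (subset_closure hx))⟩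
  obtain ⟨U, hU, hLU, -, hUt, hUL⟩ := htop 1 one_pos
  have hUU : ∀ x ∈ U, S'.f x ∈ U := fun x hx => hUt x (subset_closure hx)
  have hB : {x | Tendsto (fun n => infDist (fw S'.f n x) L) atTop (𝓝 0)} =
      ⋃ n : ℕ, {x | fw S'.f n x ∈ U} := by
    ext y
    simp only [Set.mem_ofPred_eq, mem_iUnion]
    constructor
    · intro hy
      obtain ⟨δ2, hδ2, hδ2s⟩ := hLc.isCompact.exists_thickening_subset_open hU hLU
      obtain ⟨n1, hn1⟩ := (hy.eventually (gt_mem_nhds hδ2)).exists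
      exact ⟨n1, hδ2s ((mem_thickening_iff_infDist_lt hne).2 hn1)⟩
    · rintro ⟨n1, hn1⟩
      rw [Metric.tendsto_atTop]
      intro ε hε
      obtain ⟨n0, hn0⟩ := hbasin U hU hLU hUt hUL ε hε
      refine ⟨n0 + n1, fun n hn => ?_⟩
      have e1 : fw S'.f n y = fw S'.f (n - n1) (fw S'.f n1 y) := by
        rw [← fw_add, Nat.sub_add_cancel (by omega)]
      rw [e1, Real.dist_eq, sub_zero, abs_of_nonneg infDist_nonneg]
      exact hn0 _ (by omega) _ hn1
  have hH' : S'.H = S.H := by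
    ext y
    change (y ∈ S'.R ∧ finrank ℝ (S'.Es y) = 1 ∧ finrank ℝ (S'.Eu y) + 1 = d) ↔
      (y ∈ S.R ∧ finrank ℝ (S.Es y) = 1 ∧ finrank ℝ (S.Eu y) + 1 = d)
    rw [h5 y, h6 y, h8R]
  have gLH : L ⊆ S'.H := by
    rw [hH']
    exact hLΛ.trans hH
  have gdense : ∀ y ∈ L, L ⊆ closure (WU S'.f y) := by
    intro y hy
    refine (hdense y hy).trans (closure_mono ?_)
    intro z hz
    have hz' : Tendsto (fun n => dist (bk S.f n y) (bk S.f n z)) atTop (𝓝 0) := hz
    have hmul : Tendsto (fun n : ℕ => l * n) atTop atTop := by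
      refine tendsto_atTop_mono (fun n => ?_) tendsto_id
      exact Nat.le_mul_of_pos_left _ hl
    have := hz'.comp hmul
    refine this.congr (fun n => ?_)
    simp only [Function.comp]
    rw [C18_bk h1, C18_bk h1]
  have gopen : IsOpen {x | Tendsto (fun n => infDist (fw S'.f n x) L) atTop (𝓝 0)} := by
    rw [hB]
    exact isOpen_iUnion fun n => hU.preimage (continuous_fw n)
  have gattr : ∀ C ⊆ {x | Tendsto (fun n => infDist (fw S'.f n x) L) atTop (𝓝 0)},
      IsCompact C → ∀ ε > 0, ∃ n0, ∀ n ≥ n0, ∀ x ∈ C, infDist (fw S'.f n x) L < ε := by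
    intro C hC hCc ε hε
    rw [hB] at hC
    obtain ⟨t, ht⟩ := hCc.elim_finite_subcover (fun n : ℕ => {x | fw S'.f n x ∈ U})
      (fun n => hU.preimage (continuous_fw n)) hC
    obtain ⟨n0, hn0⟩ := hbasin U hU hLU hUt hUL ε hε
    refine ⟨n0 + t.sup id, fun n hn y hy => ?_⟩
    obtain ⟨n1, hn1t, hn1⟩ := mem_iUnion₂.1 (ht hy)
    have hle : n1 ≤ t.sup id := Finset.le_sup (f := id) hn1t
    have e1 : fw S'.f n y = fw S'.f (n - n1) (fw S'.f n1 y) := by
      rw [← fw_add, Nat.sub_add_cancel (by omega)]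
    rw [e1]
    exact hn0 _ (by omega) _ hn1
  have grep : ∀ x, Tendsto (fun n => infDist (bk S'.f n x) L) atTop (𝓝 0) → x ∈ L := by
    intro y hy
    obtain ⟨δ2, hδ2, hδ2s⟩ := hLc.isCompact.exists_thickening_subset_open hU hLU
    obtain ⟨n1, hn1⟩ := (hy.eventually (gt_mem_nhds hδ2)).exists_forall_of_atTop
    refine hUL y (fun n => subset_closure ?_)
    have h8 : bk S'.f (max n n1) y ∈ U :=
      hδ2s ((mem_thickening_iff_infDist_lt hne).2 (hn1 _ (le_max_right _ _)))
    exact C18_bk_of hUU (le_max_left _ _) h8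
  have gtrap : ∀ ε > 0, ∃ U : Set K, IsOpen U ∧ L ⊆ U ∧ (∀ x ∈ U, infDist x L < ε) ∧
      (∀ x ∈ closure U, S'.f x ∈ U) := by
    intro ε hε
    obtain ⟨U, hU, hLU, hUε, hUt, -⟩ := htop ε hε
    exact ⟨U, hU, hLU, hUε, hUt⟩
  have gBR : {x | Tendsto (fun n => infDist (fw S'.f n x) L) atTop (𝓝 0)} ⊆ S'.R := by
    rw [h8R]
    intro y hy
    apply hBR
    refine C18_basin_pow S.f S'.f l h1 hΛ hU0 htrap hΛU hΛcl ?_
    refine squeeze_zero (fun n => infDist_nonneg) (fun n => ?_) hy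
    exact infDist_le_infDist_of_subset hLΛ hne
  let G : GAtt d N K :=
    { toGSys := S'
      L := L
      L_cpt := hLc.isCompact
      L_ne := hne
      L_inv := hLg
      L_H := gLH
      L_dense := gdense
      B_open := gopen
      attrK := gattr
      B_R := gBR
      repL := grep
      trap := gtrap }
  exact ⟨l, hl, G, h1, h2, h3, h4, h5, h6, h7, hxL, hLΛ, hLc'⟩

end GSys

end Pool.MP85
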