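import Mathlib

/-!
# D01: scalar equations
-/

open Filter Topology Set Metric Module

namespace Pool.MP85

/-- existence for `θ' = k(θ)`, `k` continuous with `0 < k ≤ M` (global version with parameter) -/
theorem D01_global {Z : Type} [TopologicalSpace Z] [FirstCountableTopology Z]
    [LocallyCompactSpace Z] (k : Z → ℝ → ℝ)
    (hk : Continuous fun q : Z × ℝ => k q.1 q.2) (hpos : ∀ y s, 0 < k y s) {M : ℝ} (hM : 0 < M)
    (hkM : ∀ y s, k y s ≤ M) :
    ∃ T g : Z → ℝ → ℝ, (∀ y, T y 0 = 0) ∧ (∀ y s, HasDerivAt (T y) (k y s)⁻¹ s) ∧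
      (∀ y s s', |s - s'| ≤ M * |T y s - T y s'|) ∧
      (∀ y t, T y (g y t) = t) ∧ (∀ y, g y 0 = 0) ∧ (Continuous fun q : Z × ℝ => g q.1 q.2) ∧
      ∀ y t, HasDerivAt (g y) (k y (g y t)) t := by
  have hinv : Continuous fun q : Z × ℝ => (k q.1 q.2)⁻¹ :=
    hk.inv₀ fun q => (hpos _ _).ne'
  have hinvy : ∀ y, Continuous fun s => (k y s)⁻¹ := fun y =>
    hinv.comp (Continuous.prodMk_right y)
  set T : Z → ℝ → ℝ := fun y s => ∫ u in (0 : ℝ)..s, (k y u)⁻¹ with hT
  have hTd : ∀ y s, HasDerivAt (T y) (k y s)⁻¹ s := by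
    intro y s
    exact intervalIntegral.integral_hasDerivAt_right ((hinvy y).intervalIntegrable _ _)
      ((hinvy y).stronglyMeasurableAtFilter _ _) (hinvy y).continuousAt
  have hTc : Continuous fun q : Z × ℝ => T q.1 q.2 := by
    have h1 : Continuous (Function.uncurry fun (q : Z × ℝ) (u : ℝ) => (k q.1 u)⁻¹) := by
      have : (Function.uncurry fun (q : Z × ℝ) (u : ℝ) => (k q.1 u)⁻¹) =
          (fun q : Z × ℝ => (k q.1 q.2)⁻¹) ∘ fun r : (Z × ℝ) × ℝ => (r.1.1, r.2) := rfl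
      rw [this]
      exact hinv.comp (by fun_prop)
    exact intervalIntegral.continuous_parametric_intervalIntegral_of_continuous h1 continuous_snd
  have hlow : ∀ y s s', s ≤ s' → (s' - s) ≤ M * (T y s' - T y s) := by
    intro y s s' hs
    have h1 : T y s' - T y s = ∫ u in s..s', (k y u)⁻¹ := by
      rw [hT]
      exact intervalIntegral.integral_interval_sub_left ((hinvy y).intervalIntegrable _ _)
        ((hinvy y).intervalIntegrable _ _)
    have h2 : ∫ _u in s..s', M⁻¹ ≤ ∫ u in s..s', (k y u)⁻¹ := by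
      apply intervalIntegral.integral_mono_on hs (continuous_const.intervalIntegrable _ _)
        ((hinvy y).intervalIntegrable _ _)
      intro u _
      exact inv_anti₀ (hpos y u) (hkM y u)
    rw [intervalIntegral.integral_const, smul_eq_mul] at h2
    rw [h1]
    calc s' - s = M * ((s' - s) * M⁻¹) := by field_simp
      _ ≤ M * ∫ u in s..s', (k y u)⁻¹ := by gcongr
  have habs : ∀ y s s', |s - s'| ≤ M * |T y s - T y s'| := by
    intro y s s'
    rcases le_total s s' with h | h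
    · have h1 := hlow y s s' h
      rw [abs_sub_comm s s', abs_of_nonneg (by linarith)]
      refine h1.trans ?_
      rw [abs_sub_comm (T y s)]
      exact mul_le_mul_of_nonneg_left (le_abs_self _) hM.le
    · have h1 := hlow y s' s h
      rw [abs_of_nonneg (by linarith)]
      exact h1.trans (mul_le_mul_of_nonneg_left (le_abs_self _) hM.le)
  have hT0 : ∀ y, T y 0 = 0 := fun y => by rw [hT]; simp
  have hsurj : ∀ y, Function.Surjective (T y) := by
    intro y
    have hcont : Continuous (T y) := hTc.comp (Continuous.prodMk_right y)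
    apply hcont.surjective
    · apply tendsto_atTop_mono' _ _ (tendsto_id.const_mul_atTop (inv_pos.2 hM))
      filter_upwards [eventually_ge_atTop (0 : ℝ)] with s hs
      have := hlow y 0 s hs
      rw [hT0, sub_zero, sub_zero] at this
      calc M⁻¹ * id s ≤ M⁻¹ * (M * T y s) := by
            apply mul_le_mul_of_nonneg_left this (inv_nonneg.2 hM.le)
        _ = T y s := by field_simp
    · apply tendsto_atBot_mono' _ _ (tendsto_id.const_mul_atBot (inv_pos.2 hM))
      filter_upwards [eventually_le_atBot (0 : ℝ)] with s hs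
      have := hlow y s 0 hs
      rw [hT0, zero_sub, zero_sub] at this
      calc T y s = - (M⁻¹ * (M * -T y s)) := by field_simp
        _ ≤ -(M⁻¹ * (-s)) := by
            apply neg_le_neg
            exact mul_le_mul_of_nonneg_left this (inv_nonneg.2 hM.le)
        _ = M⁻¹ * id s := by simp
  choose g hg using fun y => (hsurj y).hasRightInverse
  have hg' : ∀ y t, T y (g y t) = t := fun y t => hg y t
  have hgc : Continuous fun q : Z × ℝ => g q.1 q.2 := by
    rw [continuous_iff_continuousAt]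
    rintro ⟨y0, t0⟩
    rw [ContinuousAt, tendsto_iff_dist_tendsto_zero]
    have h1 : Tendsto (fun q : Z × ℝ => M * |q.2 - T q.1 (g y0 t0)|) (𝓝 (y0, t0)) (𝓝 0) := by
      have h2 : Continuous fun q : Z × ℝ => M * |q.2 - T q.1 (g y0 t0)| := by
        have h3 : Continuous fun q : Z × ℝ => T q.1 (g y0 t0) :=
          hTc.comp (continuous_fst.prodMk continuous_const)
        fun_prop
      have h4 := h2.tendsto (y0, t0)
      simpa [hg' y0 t0] using h4
    refine squeeze_zero (fun _ => dist_nonneg) (fun q => ?_) h1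
    rw [Real.dist_eq]
    have := habs q.1 (g q.1 q.2) (g y0 t0)
    rwa [hg'] at this
  refine ⟨T, g, hT0, hTd, habs, hg', ?_, hgc, ?_⟩
  · intro y
    have := habs y (g y 0) 0
    rw [hg', hT0, sub_self, abs_zero, mul_zero, sub_zero] at this
    exact abs_nonpos_iff.1 this
  · intro y t
    have h1 : ContinuousAt (g y) t := (hgc.comp (Continuous.prodMk_right y)).continuousAt
    have h2 := HasDerivAt.of_local_left_inverse h1 (hTd y (g y t))
      (inv_ne_zero (hpos y _).ne') (Eventually.of_forall (hg' y))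
    rwa [inv_inv] at h2

/-- clamping -/
noncomputable def D01_cl (a b s : ℝ) : ℝ := max a (min s b)

theorem D01_cl_mem {a b : ℝ} (h : a ≤ b) (s : ℝ) : D01_cl a b s ∈ Icc a b :=
  ⟨le_max_left _ _, max_le h (min_le_right _ _)⟩

theorem D01_cl_eq {a b s : ℝ} (h : s ∈ Icc a b) : D01_cl a b s = s := by
  unfold D01_cl
  rw [min_eq_left h.2, max_eq_right h.1]

theorem D01_cl_cont (a b : ℝ) : Continuous (D01_cl a b) := by
  unfold D01_cl
  fun_prop

theorem scalar_ode {Y : Type} [MetricSpace Y] {C : Set Y} (hC : IsCompact C) {δ : ℝ}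
    (hδ : 0 < δ) (k : Y → ℝ → ℝ)
    (hk : ContinuousOn (fun q : Y × ℝ => k q.1 q.2) (C ×ˢ Ioo (-δ) δ))
    (hpos : ∀ y ∈ C, ∀ s ∈ Ioo (-δ) δ, 0 < k y s) :
    ∃ δ' > 0, ∃ θ : Y → ℝ → ℝ,
      ContinuousOn (fun q : Y × ℝ => θ q.1 q.2) (C ×ˢ Ioo (-δ') δ') ∧
      ∀ y ∈ C, θ y 0 = 0 ∧ ∀ t ∈ Ioo (-δ') δ', θ y t ∈ Ioo (-δ) δ ∧
        HasDerivAt (θ y) (k y (θ y t)) t := by
  classical
  set a : ℝ := δ / 2 with ha
  have ha0 : 0 < a := by positivity
  have haδ : Icc (-a) a ⊆ Ioo (-δ) δ := fun s hs => ⟨by linarith [hs.1], by linarith [hs.2]⟩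
  have : CompactSpace C := isCompact_iff_compactSpace.1 hC
  set kk : C → ℝ → ℝ := fun y s => k y (D01_cl (-a) a s) with hkk
  have hclm : ∀ s, D01_cl (-a) a s ∈ Icc (-a) a := fun s => D01_cl_mem (by linarith) s
  have hkkc : Continuous fun q : C × ℝ => kk q.1 q.2 := by
    have h1 : ContinuousOn (fun q : Y × ℝ => k q.1 q.2) (C ×ˢ Ioo (-δ) δ) := hk
    have h2 : Continuous fun q : C × ℝ => ((q.1 : Y), D01_cl (-a) a q.2) :=
      (continuous_subtype_val.comp continuous_fst).prodMk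
        ((D01_cl_cont _ _).comp continuous_snd)
    exact h1.comp_continuous h2 fun q => ⟨q.1.2, haδ (hclm _)⟩
  have hkkpos : ∀ y s, 0 < kk y s := fun y s => hpos y y.2 _ (haδ (hclm s))
  obtain ⟨M0, hM0⟩ := (hC.prod (isCompact_Icc (a := -a) (b := a))).exists_bound_of_continuousOn
    (hk.mono (prod_mono_right haδ))
  set M : ℝ := max M0 1 with hM
  have hMpos : 0 < M := lt_of_lt_of_le one_pos (le_max_right _ _)
  have hkkM : ∀ y s, kk y s ≤ M := by
    intro y s
    have h1 := hM0 ((y : Y), D01_cl (-a) a s) ⟨y.2, hclm s⟩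
    exact (le_abs_self _).trans (h1.trans (le_max_left _ _))
  obtain ⟨T, g, hT0, hTd, habs, hTg, hg0, hgc, hgd⟩ := D01_global kk hkkc hkkpos hMpos hkkM
  refine ⟨a / M, by positivity, fun y t => if h : y ∈ C then g ⟨y, h⟩ t else 0, ?_, ?_⟩
  · rw [continuousOn_iff_continuous_domRestrict]
    have h1 : ((C ×ˢ Ioo (-(a / M)) (a / M)).domRestrict fun q : Y × ℝ =>
        (fun y t => if h : y ∈ C then g ⟨y, h⟩ t else 0) q.1 q.2) =
        (fun q : C × ℝ => g q.1 q.2) ∘ fun q : (C ×ˢ Ioo (-(a / M)) (a / M) : Set (Y × ℝ)) =>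
          ((⟨q.1.1, q.2.1⟩ : C), q.1.2) := by
      funext q
      have : q.1.1 ∈ C := q.2.1
      simp only [Set.domRestrict_apply, Function.comp_apply, dif_pos this]
    rw [h1]
    refine hgc.comp (Continuous.prodMk ?_ ?_)
    · exact Continuous.subtype_mk (continuous_fst.comp continuous_subtype_val) _
    · exact continuous_snd.comp continuous_subtype_val
  · intro y hy
    simp only [dif_pos hy]
    refine ⟨hg0 _, fun t ht => ?_⟩
    have h1 : |g ⟨y, hy⟩ t| ≤ M * |t| := by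
      have := habs ⟨y, hy⟩ (g ⟨y, hy⟩ t) 0
      rwa [hTg, hT0, sub_zero, sub_zero] at this
    have h2 : |t| < a / M := abs_lt.2 ht
    have h3 : |g ⟨y, hy⟩ t| < a := by
      refine lt_of_le_of_lt h1 ?_
      calc M * |t| < M * (a / M) := by gcongr
        _ = a := by field_simp
    have h4 : g ⟨y, hy⟩ t ∈ Icc (-a) a := ⟨(abs_lt.1 h3).1.le, (abs_lt.1 h3).2.le⟩
    refine ⟨haδ h4, ?_⟩
    have h5 := hgd ⟨y, hy⟩ t
    have h6 : kk ⟨y, hy⟩ (g ⟨y, hy⟩ t) = k y (g ⟨y, hy⟩ t) := by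
      change k y (D01_cl (-a) a (g ⟨y, hy⟩ t)) = _
      rw [D01_cl_eq h4]
    rwa [h6] at h5

theorem D01_local {k : ℝ → ℝ} {I : Set ℝ} (hI : IsOpen I) (hk : ContinuousOn k I)
    (hpos : ∀ s ∈ I, 0 < k s) {θ θ' : ℝ → ℝ} {a b t1 : ℝ} (ht1 : t1 ∈ Ioo a b)
    (h : ∀ t ∈ Ioo a b, θ t ∈ I ∧ HasDerivAt θ (k (θ t)) t)
    (h' : ∀ t ∈ Ioo a b, θ' t ∈ I ∧ HasDerivAt θ' (k (θ' t)) t) (h0 : θ t1 = θ' t1) :
    ∀ᶠ t in 𝓝 t1, θ t = θ' t := by
  set s1 := θ t1 with hs1
  obtain ⟨r, hr, hrI⟩ := Metric.isOpen_iff.1 hI s1 (h t1 ht1).1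
  set c : ℝ := r / 2 with hc
  have hc0 : 0 < c := by positivity
  have hcI : Icc (s1 - c) (s1 + c) ⊆ I := by
    intro s hs
    apply hrI
    rw [mem_ball, Real.dist_eq, abs_lt]
    constructor <;> linarith [hs.1, hs.2]
  set kk : Unit → ℝ → ℝ := fun _ s => k (D01_cl (s1 - c) (s1 + c) s) with hkk
  have hclm : ∀ s, D01_cl (s1 - c) (s1 + c) s ∈ Icc (s1 - c) (s1 + c) :=
    fun s => D01_cl_mem (by linarith) s
  have hkkc : Continuous fun q : Unit × ℝ => kk q.1 q.2 :=
    hk.comp_continuous ((D01_cl_cont _ _).comp continuous_snd) fun q => hcI (hclm _)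
  have hkkpos : ∀ y s, 0 < kk y s := fun y s => hpos _ (hcI (hclm s))
  obtain ⟨M0, hM0⟩ := (isCompact_Icc (a := s1 - c) (b := s1 + c)).exists_bound_of_continuousOn
    (hk.mono hcI)
  set M : ℝ := max M0 1 with hM
  have hMpos : 0 < M := lt_of_lt_of_le one_pos (le_max_right _ _)
  have hkkM : ∀ y s, kk y s ≤ M := by
    intro y s
    have h1 := hM0 _ (hclm s)
    exact (le_abs_self _).trans (h1.trans (le_max_left _ _))
  obtain ⟨T, g, hT0, hTd, habs, hTg, hg0, hgc, hgd⟩ := D01_global kk hkkc hkkpos hMpos hkkM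
  have hcθ : ContinuousAt θ t1 := (h t1 ht1).2.continuousAt
  have hcθ' : ContinuousAt θ' t1 := (h' t1 ht1).2.continuousAt
  have hnb : Icc (s1 - c) (s1 + c) ∈ 𝓝 s1 := Icc_mem_nhds (by linarith) (by linarith)
  have e1 : ∀ᶠ t in 𝓝 t1, θ t ∈ Icc (s1 - c) (s1 + c) := hcθ.eventually_mem hnb
  have e2 : ∀ᶠ t in 𝓝 t1, θ' t ∈ Icc (s1 - c) (s1 + c) := by
    apply hcθ'.eventually_mem
    rw [← h0]
    exact hnb
  have e3 : ∀ᶠ t in 𝓝 t1, t ∈ Ioo a b := Ioo_mem_nhds ht1.1 ht1.2
  obtain ⟨ρ, hρ, hball⟩ := Metric.eventually_nhds_iff_ball.1 (e1.and (e2.and e3))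
  have hT1 : ∀ t ∈ ball t1 ρ, HasDerivAt (fun t => T () (θ t) - T () (θ' t)) 0 t := by
    intro t ht
    obtain ⟨m1, m2, m3⟩ := hball t ht
    have d1 : HasDerivAt (fun t => T () (θ t)) ((kk () (θ t))⁻¹ * k (θ t)) t :=
      (hTd () (θ t)).comp t (h t m3).2
    have d2 : HasDerivAt (fun t => T () (θ' t)) ((kk () (θ' t))⁻¹ * k (θ' t)) t :=
      (hTd () (θ' t)).comp t (h' t m3).2
    have k1 : kk () (θ t) = k (θ t) := by
      change k (D01_cl _ _ _) = _
      rw [D01_cl_eq m1]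
    have k2 : kk () (θ' t) = k (θ' t) := by
      change k (D01_cl _ _ _) = _
      rw [D01_cl_eq m2]
    rw [k1, inv_mul_cancel₀ (hpos _ (h t m3).1).ne'] at d1
    rw [k2, inv_mul_cancel₀ (hpos _ (h' t m3).1).ne'] at d2
    have := d1.sub d2
    rwa [sub_self] at this
  have hconst : ∀ t ∈ ball t1 ρ, T () (θ t) - T () (θ' t) = T () (θ t1) - T () (θ' t1) := by
    intro t ht
    exact isOpen_ball.is_const_of_deriv_eq_zero (convex_ball _ _).isPreconnected
      (fun s hs => (hT1 s hs).differentiableAt.differentiableWithinAt)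
      (fun s hs => (hT1 s hs).deriv) ht (mem_ball_self hρ)
  filter_upwards [ball_mem_nhds t1 hρ] with t ht
  have h1 := hconst t ht
  rw [← hs1, ← h0, sub_self] at h1
  have h2 := habs () (θ t) (θ' t)
  rw [h1, abs_zero, mul_zero] at h2
  exact sub_eq_zero.1 (abs_nonpos_iff.1 h2)

/-- uniqueness for scalar autonomous equations with positive continuous right hand side -/
theorem scalar_uniq {k : ℝ → ℝ} {I : Set ℝ} (hI : IsOpen I) (hk : ContinuousOn k I)
    (hpos : ∀ s ∈ I, 0 < k s) {θ θ' : ℝ → ℝ} {a b t0 : ℝ} (ht0 : t0 ∈ Ioo a b)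
    (h : ∀ t ∈ Ioo a b, θ t ∈ I ∧ HasDerivAt θ (k (θ t)) t)
    (h' : ∀ t ∈ Ioo a b, θ' t ∈ I ∧ HasDerivAt θ' (k (θ' t)) t) (h0 : θ t0 = θ' t0) :
    EqOn θ θ' (Ioo a b) := by
  have hsub : Ioo a b ⊆ interior {t | θ t = θ' t} := by
    apply isPreconnected_Ioo.subset_of_closure_inter_subset isOpen_interior
    · exact ⟨t0, ht0, mem_interior_iff_mem_nhds.2 (D01_local hI hk hpos ht0 h h' h0)⟩
    · rintro t ⟨ht, htab⟩
      rw [mem_interior_iff_mem_nhds]
      refine D01_local hI hk hpos htab h h' ?_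
      by_contra hne
      have hc1 : ContinuousAt θ t := (h t htab).2.continuousAt
      have hc2 : ContinuousAt θ' t := (h' t htab).2.continuousAt
      have hev : ∀ᶠ s in 𝓝 t, θ s - θ' s ≠ 0 :=
        (hc1.sub hc2).eventually_ne (sub_ne_zero.2 hne)
      obtain ⟨s, hs1, hs2⟩ := ((mem_closure_iff_frequently.1 ht).and_eventually hev).exists
      have hs3 : s ∈ {t | θ t = θ' t} := interior_subset hs1
      exact hs2 (sub_eq_zero.2 hs3)
  intro t ht
  have h3 : t ∈ {t | θ t = θ' t} := interior_subset (hsub ht)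
  exact h3

end Pool.MP85
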