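import Pool.Agent.Lib.MP_85e637_an.AbsC2
import Pool.Agent.Lib.MP_85e637_an.C01
import Pool.Agent.Lib.MP_85e637_an.C13

/-!
# D02a: the orientation double cover of the basin, speed function, lifted maps
-/

set_option autoImplicit false

open Filter Topology Set Metric Module

namespace Pool.MP85

namespace GAtt
variable {d N : ℕ} {K : Type} [MetricSpace K] [CompactSpace K] (S : GAtt d N K)

theorem B_S1 : S.B ⊆ S.S1 := by
  intro x hx
  obtain ⟨y, hy⟩ : ∃ y, MapClusterPt y atTop (fun n : ℕ => fw S.f n x) :=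
    exists_clusterPt_of_compactSpace _
  have hyL : y ∈ S.L := by
    rw [S.L_cpt.isClosed.mem_iff_infDist_zero S.L_ne]
    by_contra hne
    have hpos : 0 < infDist y S.L := lt_of_le_of_ne infDist_nonneg (Ne.symm hne)
    have h2 : Tendsto (fun n : ℕ => infDist (fw S.f n x) S.L) atTop (𝓝 0) := hx
    have h3 : ∀ᶠ n : ℕ in atTop, infDist (fw S.f n x) S.L < infDist y S.L / 2 :=
      h2.eventually_lt_const (half_pos hpos)
    have h4 : {z | infDist y S.L / 2 < infDist z S.L} ∈ 𝓝 y :=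
      (isOpen_lt continuous_const (continuous_infDist_pt S.L)).mem_nhds (half_lt_self hpos)
    obtain ⟨n, hn1, hn2⟩ := ((hy.frequently h4).and_eventually h3).exists
    exact lt_asymm hn1 hn2
  have h1 := S.dim_fw x y hy
  have h2 : finrank ℝ (S.Es y) = 1 := (S.L_H hyL).2.1
  exact ⟨S.B_R hx, h1.trans h2⟩

theorem L_B : S.L ⊆ S.B := by
  intro x hx
  have h : ∀ n, fw S.f n x ∈ S.L := by
    intro n
    induction n with
    | zero => exact hx
    | succ n ih => rw [fw_succ']; exact (S.L_inv _).2 ih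
  have h2 : (fun n => infDist (fw S.f n x) S.L) = fun _ => (0 : ℝ) := by
    funext n; exact infDist_zero_of_mem (h n)
  change Tendsto (fun n => infDist (fw S.f n x) S.L) atTop (𝓝 0)
  rw [h2]; exact tendsto_const_nhds

theorem B_f {x : K} : S.f x ∈ S.B ↔ x ∈ S.B := by
  change Tendsto (fun n => infDist (fw S.f n (S.f x)) S.L) atTop (𝓝 0) ↔
    Tendsto (fun n => infDist (fw S.f n x) S.L) atTop (𝓝 0)
  rw [← tendsto_add_atTop_iff_nat (f := fun n => infDist (fw S.f n x) S.L) 1]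
  rfl

theorem continuous_pt : Continuous S.pt :=
  continuous_fst.comp (continuous_subtype_val (p := fun q : K × EE N =>
    q.1 ∈ S.B ∧ q.2 ∈ S.Es q.1 ∧ ‖q.2‖ = 1))

theorem continuous_dir : Continuous S.dir :=
  continuous_snd.comp (continuous_subtype_val (p := fun q : K × EE N =>
    q.1 ∈ S.B ∧ q.2 ∈ S.Es q.1 ∧ ‖q.2‖ = 1))

theorem range_pt : range S.pt = S.B := by
  ext x
  constructor
  · rintro ⟨y, rfl⟩; exact y.2.1
  · intro hx
    have h1 : finrank ℝ (S.Es x) = 1 := (S.B_S1 hx).2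
    obtain ⟨v, hv0, -⟩ := finrank_eq_one_iff'.1 h1
    have hv : (v : EE N) ≠ 0 := by
      intro h; exact hv0 (Subtype.ext h)
    refine ⟨⟨(x, (‖(v : EE N)‖⁻¹ : ℝ) • (v : EE N)), hx, (S.Es x).smul_mem _ v.2, ?_⟩, rfl⟩
    change ‖(‖(v : EE N)‖⁻¹ : ℝ) • (v : EE N)‖ = 1
    rw [norm_smul, norm_inv, norm_norm, inv_mul_cancel₀ (norm_ne_zero_iff.2 hv)]

private theorem D02a_line {x : K} (hx : finrank ℝ (S.Es x) = 1) {v w : EE N} (hv : v ∈ S.Es x)
    (hw : w ∈ S.Es x) (hv1 : ‖v‖ = 1) (hw1 : ‖w‖ = 1) : w = v ∨ w = -v := by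
  have hv0 : (⟨v, hv⟩ : S.Es x) ≠ 0 := by
    intro h
    have h' : v = 0 := congrArg Subtype.val h
    rw [h', norm_zero] at hv1; exact zero_ne_one hv1
  obtain ⟨c, hc⟩ := (finrank_eq_one_iff_of_nonzero' _ hv0).1 hx ⟨w, hw⟩
  have hc' : c • v = w := congrArg Subtype.val hc
  have h1 : |c| = 1 := by
    rw [← hc', norm_smul, hv1, mul_one] at hw1; exact hw1
  rcases (abs_eq (zero_le_one' ℝ)).1 h1 with h | h
  · left; rw [← hc', h, one_smul]
  · right; rw [← hc', h, neg_smul, one_smul]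

theorem fib (D : S.XData) (x y : S.X) (h : S.pt x = S.pt y) : y = x ∨ y = D.σ x := by
  have hx : finrank ℝ (S.Es (S.pt x)) = 1 := (S.B_S1 x.2.1).2
  have hdx : S.dir x ∈ S.Es (S.pt x) := x.2.2.1
  have hdy : S.dir y ∈ S.Es (S.pt x) := by rw [h]; exact y.2.2.1
  have key : ∀ z : S.X, S.pt z = S.pt y → S.dir z = S.dir y → y = z := by
    intro z h1 h2
    apply Subtype.ext
    exact (Prod.ext h1 h2 : z.1 = y.1).symm
  rcases S.D02a_line hx hdx hdy x.2.2.2 y.2.2.2 with h1 | h1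
  · left; exact key x h h1.symm
  · right
    exact key _ ((D.pt_σ x).trans h) ((D.dir_σ x).trans h1.symm)

/-! ### the lifted maps -/

private theorem D02a_A_ne {x : K} {v : EE N} (hv : v ∈ S.Es x) (hv1 : ‖v‖ = 1) : ‖S.A x v‖ ≠ 0 := by
  intro h
  have h1 : S.A x v = 0 := norm_eq_zero.1 h
  have h2 : S.A' x (S.A x v) = v := by
    have := congrArg (fun L => L v) (S.A'A x)
    simp only [ContinuousLinearMap.comp_apply] at this
    rw [this]; exact hv.1
  rw [h1, map_zero] at h2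
  rw [← h2, norm_zero] at hv1
  exact zero_ne_one hv1

private theorem D02a_A'_ne {x : K} {w : EE N} (hw : w ∈ S.Es (S.f x)) (hw1 : ‖w‖ = 1) :
    ‖S.A' x w‖ ≠ 0 := by
  intro h
  have h1 : S.A' x w = 0 := norm_eq_zero.1 h
  have h2 : S.A x (S.A' x w) = w := by
    have := congrArg (fun L => L w) (S.AA' x)
    simp only [ContinuousLinearMap.comp_apply] at this
    rw [this]; exact hw.1
  rw [h1, map_zero] at h2
  rw [← h2, norm_zero] at hw1
  exact zero_ne_one hw1

private theorem D02a_A_mem {x : K} {v : EE N} (hv : v ∈ S.Es x) : S.A x v ∈ S.Es (S.f x) :=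
  (S.Es_map (S.Es_le x hv)).2 hv

private theorem D02a_A'_mem {x : K} {w : EE N} (hw : w ∈ S.Es (S.f x)) : S.A' x w ∈ S.Es x := by
  have h2 : S.A x (S.A' x w) = w := by
    have := congrArg (fun L => L w) (S.AA' x)
    simp only [ContinuousLinearMap.comp_apply] at this
    rw [this]; exact hw.1
  have hT : S.A' x w ∈ S.T x := by
    rw [Coc.mem_T]
    have := congrArg (fun L => L w) (S.PA' x)
    simpa only [ContinuousLinearMap.comp_apply] using this
  rw [← S.Es_map hT, h2]; exact hw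

private theorem D02a_norm {v : EE N} (h : ‖v‖ ≠ 0) : ‖(‖v‖⁻¹ : ℝ) • v‖ = 1 := by
  rw [norm_smul, norm_inv, norm_norm, inv_mul_cancel₀ h]

private noncomputable def D02a_F (x : S.X) : S.X :=
  ⟨(S.f (S.pt x), (‖S.A (S.pt x) (S.dir x)‖⁻¹ : ℝ) • S.A (S.pt x) (S.dir x)),
    S.B_f.2 x.2.1, (S.Es _).smul_mem _ (S.D02a_A_mem x.2.2.1),
    D02a_norm (S.D02a_A_ne x.2.2.1 x.2.2.2)⟩

private noncomputable def D02a_G (x : S.X) : S.X :=
  ⟨(S.f.symm (S.pt x), (‖S.A' (S.f.symm (S.pt x)) (S.dir x)‖⁻¹ : ℝ) •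
      S.A' (S.f.symm (S.pt x)) (S.dir x)),
    S.B_f.1 (by rw [S.f.apply_symm_apply]; exact x.2.1),
    (S.Es _).smul_mem _ (S.D02a_A'_mem (by rw [S.f.apply_symm_apply]; exact x.2.2.1)),
    D02a_norm (S.D02a_A'_ne (by rw [S.f.apply_symm_apply]; exact x.2.2.1) x.2.2.2)⟩

private theorem D02a_ext {x y : S.X} (h1 : S.pt x = S.pt y) (h2 : S.dir x = S.dir y) : x = y :=
  Subtype.ext (Prod.ext h1 h2 : x.1 = y.1)

private theorem D02a_cont_mk {Y : Type} [TopologicalSpace Y] {g : Y → S.X}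
    (h1 : Continuous fun y => S.pt (g y)) (h2 : Continuous fun y => S.dir (g y)) :
    Continuous g := by
  refine Continuous.subtype_mk (p := fun q : K × EE N =>
    q.1 ∈ S.B ∧ q.2 ∈ S.Es q.1 ∧ ‖q.2‖ = 1) (h1.prodMk h2) (fun y => (g y).2)

private theorem D02a_cont_F : Continuous S.D02a_F := by
  have hA : Continuous fun x : S.X => S.A (S.pt x) (S.dir x) :=
    (S.contA.comp S.continuous_pt).clm_apply S.continuous_dir
  refine S.D02a_cont_mk (S.f.continuous.comp S.continuous_pt) ?_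
  exact (hA.norm.inv₀ fun x => S.D02a_A_ne x.2.2.1 x.2.2.2).smul hA

private theorem D02a_cont_G : Continuous S.D02a_G := by
  have hA : Continuous fun x : S.X => S.A' (S.f.symm (S.pt x)) (S.dir x) :=
    (S.contA'.comp (S.f.symm.continuous.comp S.continuous_pt)).clm_apply S.continuous_dir
  refine S.D02a_cont_mk (S.f.symm.continuous.comp S.continuous_pt) ?_
  refine (hA.norm.inv₀ fun x => ?_).smul hA
  exact S.D02a_A'_ne (by rw [S.f.apply_symm_apply]; exact x.2.2.1) x.2.2.2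

private theorem D02a_renorm {v : EE N} {c : ℝ} (hc : 0 < c) (hv : ‖v‖ = 1) :
    (‖c • v‖⁻¹ : ℝ) • (c • v) = v := by
  rw [norm_smul, hv, mul_one, Real.norm_of_nonneg hc.le, smul_smul, inv_mul_cancel₀ hc.ne',
    one_smul]

private theorem D02a_GF (x : S.X) : S.D02a_G (S.D02a_F x) = x := by
  refine S.D02a_ext (S.f.symm_apply_apply _) ?_
  have e1 : S.f.symm (S.pt (S.D02a_F x)) = S.pt x := S.f.symm_apply_apply _
  change (‖S.A' (S.f.symm (S.pt (S.D02a_F x))) (S.dir (S.D02a_F x))‖⁻¹ : ℝ) •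
      S.A' (S.f.symm (S.pt (S.D02a_F x))) (S.dir (S.D02a_F x)) = S.dir x
  rw [e1]
  have e2 : S.A' (S.pt x) (S.dir (S.D02a_F x)) =
      (‖S.A (S.pt x) (S.dir x)‖⁻¹ : ℝ) • S.dir x := by
    change S.A' (S.pt x) ((‖S.A (S.pt x) (S.dir x)‖⁻¹ : ℝ) • S.A (S.pt x) (S.dir x)) = _
    rw [map_smul]
    congr 1
    have := congrArg (fun L => L (S.dir x)) (S.A'A (S.pt x))
    simp only [ContinuousLinearMap.comp_apply] at this
    rw [this]; exact x.2.2.1.1
  rw [e2]
  refine D02a_renorm ?_ x.2.2.2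
  exact inv_pos.2 (lt_of_le_of_ne (norm_nonneg _) (Ne.symm (S.D02a_A_ne x.2.2.1 x.2.2.2)))

private theorem D02a_FG (x : S.X) : S.D02a_F (S.D02a_G x) = x := by
  refine S.D02a_ext (S.f.apply_symm_apply _) ?_
  have hx : S.dir x ∈ S.Es (S.f (S.f.symm (S.pt x))) := by
    rw [S.f.apply_symm_apply]; exact x.2.2.1
  change (‖S.A (S.f.symm (S.pt x)) (S.dir (S.D02a_G x))‖⁻¹ : ℝ) •
      S.A (S.f.symm (S.pt x)) (S.dir (S.D02a_G x)) = S.dir x
  have e2 : S.A (S.f.symm (S.pt x)) (S.dir (S.D02a_G x)) =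
      (‖S.A' (S.f.symm (S.pt x)) (S.dir x)‖⁻¹ : ℝ) • S.dir x := by
    change S.A (S.f.symm (S.pt x)) ((‖S.A' (S.f.symm (S.pt x)) (S.dir x)‖⁻¹ : ℝ) •
      S.A' (S.f.symm (S.pt x)) (S.dir x)) = _
    rw [map_smul]
    congr 1
    have := congrArg (fun L => L (S.dir x)) (S.AA' (S.f.symm (S.pt x)))
    simp only [ContinuousLinearMap.comp_apply] at this
    rw [this]; exact hx.1
  rw [e2]
  refine D02a_renorm ?_ x.2.2.2
  exact inv_pos.2 (lt_of_le_of_ne (norm_nonneg _) (Ne.symm (S.D02a_A'_ne hx x.2.2.2)))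

private noncomputable def D02a_σ (x : S.X) : S.X :=
  ⟨(S.pt x, - S.dir x), x.2.1, (S.Es _).neg_mem x.2.2.1, by
    change ‖-S.dir x‖ = 1
    rw [norm_neg]; exact x.2.2.2⟩

theorem exists_xdata : Nonempty S.XData := by
  refine ⟨{
    F := { toFun := S.D02a_F
           invFun := S.D02a_G
           left_inv := S.D02a_GF
           right_inv := S.D02a_FG
           continuous_toFun := S.D02a_cont_F
           continuous_invFun := S.D02a_cont_G }
    σ := { toFun := S.D02a_σ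
           invFun := S.D02a_σ
           left_inv := fun x => S.D02a_ext rfl (neg_neg _)
           right_inv := fun x => S.D02a_ext rfl (neg_neg _)
           continuous_toFun := S.D02a_cont_mk S.continuous_pt S.continuous_dir.neg
           continuous_invFun := S.D02a_cont_mk S.continuous_pt S.continuous_dir.neg }
    pt_F := fun x => rfl
    dir_F := fun x => ?_
    pt_σ := fun x => rfl
    dir_σ := fun x => rfl }⟩
  change ‖S.A (S.pt x) (S.dir x)‖ • ((‖S.A (S.pt x) (S.dir x)‖⁻¹ : ℝ) • S.A (S.pt x) (S.dir x)) = _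
  have h : ‖S.A (S.pt x) (S.dir x)‖ ≠ 0 := S.D02a_A_ne x.2.2.1 x.2.2.2
  rw [smul_smul, mul_inv_cancel₀ h, one_smul]

/-! ### the speed -/

/-- near `L` the stable lines in `S1` are contracted by `1/8` -/
private theorem D02a_con : ∃ ε > 0, ∀ x ∈ S.S1, infDist x S.L < ε → ∀ v ∈ S.Es x,
    8 * ‖S.A x v‖ ≤ ‖v‖ := by
  by_contra! hcon
  have h1 : ∀ n : ℕ, ∃ x ∈ S.S1, infDist x S.L < 1 / ((n : ℝ) + 1) ∧ ∃ v ∈ S.Es x, ‖v‖ = 1 ∧
      1 ≤ 8 * ‖S.A x v‖ := by
    intro n
    obtain ⟨x, hx, hxL, v, hv, hlt⟩ := hcon (1 / ((n : ℝ) + 1)) (by positivity)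
    have hv0 : ‖v‖ ≠ 0 := by
      intro h0
      have : v = 0 := norm_eq_zero.1 h0
      rw [this] at hlt
      simp at hlt
    have hvpos : 0 < ‖v‖ := lt_of_le_of_ne (norm_nonneg _) (Ne.symm hv0)
    refine ⟨x, hx, hxL, (‖v‖⁻¹ : ℝ) • v, (S.Es x).smul_mem _ hv, D02a_norm hv0, ?_⟩
    rw [map_smul, norm_smul, norm_inv, norm_norm]
    have : 1 ≤ ‖v‖⁻¹ * (8 * ‖S.A x v‖) := by
      rw [inv_mul_eq_div, one_le_div hvpos]; exact hlt.le
    linarith
  choose x hx hxL v hv hv1 hlt using h1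
  have hcpt : IsCompact ((univ : Set K) ×ˢ sphere (0 : EE N) 1) :=
    isCompact_univ.prod (isCompact_sphere _ _)
  obtain ⟨q, hq, φ, hφ, hlim⟩ := hcpt.tendsto_subseq (x := fun n => (x n, v n)) (by
    intro n
    exact ⟨mem_univ _, by simpa using hv1 n⟩)
  have hlx : Tendsto (fun n => x (φ n)) atTop (𝓝 q.1) := (continuous_fst.tendsto q).comp hlim
  have hlv : Tendsto (fun n => v (φ n)) atTop (𝓝 q.2) := (continuous_snd.tendsto q).comp hlim
  have hqL : q.1 ∈ S.L := by
    rw [S.L_cpt.isClosed.mem_iff_infDist_zero S.L_ne]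
    have t1 : Tendsto (fun n => infDist (x (φ n)) S.L) atTop (𝓝 (infDist q.1 S.L)) :=
      ((continuous_infDist_pt S.L).tendsto q.1).comp hlx
    have t2 : Tendsto (fun n => infDist (x (φ n)) S.L) atTop (𝓝 0) := by
      refine squeeze_zero (fun n => infDist_nonneg) (fun n => (hxL (φ n)).le) ?_
      exact tendsto_one_div_add_atTop_nhds_zero_nat.comp hφ.tendsto_atTop
    exact tendsto_nhds_unique t1 t2
  have hqH := S.L_H hqL
  have hqE : q.2 ∈ S.Es q.1 :=
    S.closed_Es1 (fun n => hx (φ n)) ⟨hqH.1, hqH.2.1⟩ hlx (fun n => hv (φ n)) hlv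
  have hq1 : ‖q.2‖ = 1 := by simpa using hq.2
  have h16 := S.con_s q.1 hqH.1 hqH.2.1 hqH.2.2 q.2 hqE
  have h8 : 1 ≤ 8 * ‖S.A q.1 q.2‖ := by
    have t1 : Tendsto (fun n => 8 * ‖S.A (x (φ n)) (v (φ n))‖) atTop
        (𝓝 (8 * ‖S.A q.1 q.2‖)) := by
      refine Tendsto.const_mul 8 (Tendsto.norm ?_)
      have hc : Continuous fun p : K × EE N => S.A p.1 p.2 :=
        (S.contA.comp continuous_fst).clm_apply continuous_snd
      exact (hc.tendsto q).comp hlim
    exact ge_of_tendsto' t1 (fun n => hlt (φ n))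
  rw [hq1] at h16
  linarith [norm_nonneg (S.A q.1 q.2)]

theorem exists_speed : Nonempty S.Speed := by
  obtain ⟨ε, hε, hcon⟩ := S.D02a_con
  -- a neighbourhood of `L` in the basin
  obtain ⟨ε', hε', hB⟩ : ∃ ε' > 0, ∀ x, infDist x S.L < ε' → x ∈ S.B := by
    obtain ⟨δ, hδ, h⟩ := S.L_cpt.exists_thickening_subset_open S.B_open S.L_B
    refine ⟨δ, hδ, fun x hx => h ?_⟩
    rw [mem_thickening_iff_infDist_lt S.L_ne]
    exact hx
  have hm : 0 < min ε ε' / 2 := by positivity
  obtain ⟨U, hUo, hLU, hUε, hUt⟩ := S.trap (min ε ε' / 2) hm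
  have hcl : ∀ x ∈ closure U, infDist x S.L < min ε ε' := by
    intro x hx
    have h1 : closure U ⊆ {x | infDist x S.L ≤ min ε ε' / 2} :=
      closure_minimal (fun x hx => (hUε x hx).le)
        (isClosed_le (continuous_infDist_pt _) continuous_const)
    have h2 : infDist x S.L ≤ min ε ε' / 2 := h1 hx
    linarith
  have hclB : closure U ⊆ S.B := fun x hx => hB x (lt_of_lt_of_le (hcl x hx) (min_le_right _ _))
  have hconU : ∀ x ∈ closure U, ∀ v ∈ S.Es x, 8 * ‖S.A x v‖ ≤ ‖v‖ := fun x hx =>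
    hcon x (S.B_S1 (hclB hx)) (lt_of_lt_of_le (hcl x hx) (min_le_left _ _))
  rcases (S.Bᶜ).eq_empty_or_nonempty with hE | hE
  · refine ⟨{
      ρ := fun _ => 1
      lip := ⟨0, fun x y => by simp⟩
      nonneg := fun _ => zero_le_one
      le_one := fun _ => le_rfl
      pos_iff := fun x => ⟨fun _ => by
        by_contra h
        exact (Set.ext_iff.1 hE x).1 h, fun _ => one_pos⟩
      U := U
      U_open := hUo
      L_U := hLU
      U_trap := hUt
      one := fun _ _ => rfl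
      con := hconU
      U_B := hclB }⟩
  · obtain ⟨r, hr, hrU⟩ : ∃ r > 0, ∀ x ∈ closure U, r ≤ infDist x S.Bᶜ := by
      have hBc : IsClosed (S.Bᶜ) := S.B_open.isClosed_compl
      have hne : (closure U).Nonempty := (S.L_ne.mono hLU).closure
      obtain ⟨x0, hx0, hmin⟩ := isClosed_closure.isCompact.exists_isMinOn hne
        (continuous_infDist_pt (S.Bᶜ)).continuousOn
      refine ⟨infDist x0 S.Bᶜ, ?_, fun x hx => hmin hx⟩
      have h1 : x0 ∉ S.Bᶜ := fun h => h (hclB hx0)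
      exact (hBc.notMem_iff_infDist_pos hE).1 h1
    have hBc : IsClosed (S.Bᶜ) := S.B_open.isClosed_compl
    refine ⟨{
      ρ := fun x => min 1 (infDist x S.Bᶜ / r)
      lip := ⟨1 / r, fun x y => ?_⟩
      nonneg := fun x => le_min zero_le_one (div_nonneg infDist_nonneg hr.le)
      le_one := fun x => min_le_left _ _
      pos_iff := fun x => ?_
      U := U
      U_open := hUo
      L_U := hLU
      U_trap := hUt
      one := fun x hx => ?_
      con := hconU
      U_B := hclB }⟩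
    · have h1 : |min 1 (infDist x S.Bᶜ / r) - min 1 (infDist y S.Bᶜ / r)| ≤
          |infDist x S.Bᶜ / r - infDist y S.Bᶜ / r| := by
        have := abs_min_sub_min_le_max (1 : ℝ) (infDist x S.Bᶜ / r) 1 (infDist y S.Bᶜ / r)
        refine this.trans (max_le ?_ le_rfl)
        simp
      refine h1.trans ?_
      rw [← sub_div, abs_div, abs_of_pos hr, div_le_iff₀ hr]
      have h2 : |infDist x S.Bᶜ - infDist y S.Bᶜ| ≤ dist x y := by
        rw [abs_le]
        constructor
        · have := infDist_le_infDist_add_dist (s := S.Bᶜ) (x := y) (y := x)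
          rw [dist_comm] at this
          linarith
        · have := infDist_le_infDist_add_dist (s := S.Bᶜ) (x := x) (y := y)
          linarith
      calc _ ≤ _ := h2
        _ = _ := by field_simp
    · rw [lt_min_iff]
      have hiff := hBc.notMem_iff_infDist_pos hE (x := x)
      constructor
      · rintro ⟨-, h⟩
        have h1 : 0 < infDist x S.Bᶜ := by
          by_contra hle
          have : infDist x S.Bᶜ = 0 := le_antisymm (not_lt.1 hle) infDist_nonneg
          rw [this, zero_div] at h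
          exact lt_irrefl _ h
        exact not_not.1 (hiff.2 h1)
      · intro h
        exact ⟨one_pos, div_pos (hiff.1 fun h' => h' h) hr⟩
    · have h1 := hrU x (subset_closure hx)
      change min 1 (infDist x S.Bᶜ / r) = 1
      rw [min_eq_left_iff, one_le_div hr]
      exact h1

end GAtt

end Pool.MP85
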