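import Pool.Agent.Lib.MP_85e637_an.AbsC2
import Pool.Agent.Lib.MP_85e637_an.C13
import Pool.Agent.Lib.MP_85e637_an.D02a

/-!
# D02b: local lifting, properness, triviality of the double cover over simply connected spaces
-/

open Filter Topology Set Metric Module

namespace Pool.MP85

namespace GSys
variable {d N : ℕ} {K : Type} [MetricSpace K] [CompactSpace K] (S : GSys d N K)

theorem D02b_unit {x : K} (hx : x ∈ S.S1) : ∃ v ∈ S.Es x, ‖v‖ = 1 := by
  have h1 : finrank ℝ (S.Es x) = 1 := hx.2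
  obtain ⟨v, hv, -⟩ := finrank_eq_one_iff'.1 h1
  have hv' : (v : EE N) ≠ 0 := fun h => hv (Subtype.ext h)
  refine ⟨‖(v : EE N)‖⁻¹ • (v : EE N), (S.Es x).smul_mem _ v.2, ?_⟩
  rw [norm_smul, norm_inv, norm_norm]
  exact inv_mul_cancel₀ (norm_ne_zero_iff.2 hv')

theorem D02b_pm {x : K} (hx : x ∈ S.S1) {v w : EE N} (hv : v ∈ S.Es x) (hv1 : ‖v‖ = 1)
    (hw : w ∈ S.Es x) (hw1 : ‖w‖ = 1) : w = v ∨ w = -v := by
  have h1 : finrank ℝ (S.Es x) = 1 := hx.2
  have hv0 : (⟨v, hv⟩ : S.Es x) ≠ 0 := by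
    intro h
    have : v = 0 := congrArg Subtype.val h
    rw [this, norm_zero] at hv1
    exact zero_ne_one hv1
  obtain ⟨c, hc⟩ := (finrank_eq_one_iff_of_nonzero' _ hv0).1 h1 ⟨w, hw⟩
  have hc' : c • v = w := congrArg Subtype.val hc
  have h2 : |c| = 1 := by
    have : ‖c • v‖ = 1 := by rw [hc', hw1]
    rwa [norm_smul, hv1, mul_one, Real.norm_eq_abs] at this
  rcases (abs_eq zero_le_one).1 h2 with rfl | rfl
  · left; rw [← hc', one_smul]
  · right; rw [← hc', neg_smul, one_smul]

theorem D02b_near {x0 : K} (hx0 : x0 ∈ S.S1) {v0 : EE N} (hv0 : v0 ∈ S.Es x0)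
    (hv01 : ‖v0‖ = 1) (η : ℝ) (hη : 0 < η) : ∃ δ > 0, ∀ x ∈ S.S1, dist x0 x < δ →
      ∀ v ∈ S.Es x, ‖v‖ = 1 → dist v v0 < η ∨ dist v (-v0) < η := by
  by_contra hno
  push Not at hno
  have h1 : ∀ n : ℕ, ∃ x ∈ S.S1, dist x0 x < 1 / ((n : ℝ) + 1) ∧ ∃ v ∈ S.Es x, ‖v‖ = 1 ∧
      η ≤ dist v v0 ∧ η ≤ dist v (-v0) := fun n => hno _ (by positivity)
  choose x hx hxd v hv hv1 hv2 hv3 using h1
  have hxt : Tendsto x atTop (𝓝 x0) := by
    rw [tendsto_iff_dist_tendsto_zero]
    refine squeeze_zero (fun _ => dist_nonneg) (fun n => ?_)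
      (tendsto_one_div_add_atTop_nhds_zero_nat (𝕜 := ℝ))
    rw [dist_comm]; exact (hxd n).le
  obtain ⟨w, hw, φ, hφ, hlim⟩ := (isCompact_sphere (0 : EE N) 1).tendsto_subseq
    (x := v) (fun n => by rw [mem_sphere_zero_iff_norm]; exact hv1 n)
  have hw1 : ‖w‖ = 1 := by rwa [mem_sphere_zero_iff_norm] at hw
  have hwE : w ∈ S.Es x0 := S.closed_Es1 (fun n => hx (φ n)) hx0
    (hxt.comp hφ.tendsto_atTop) (fun n => hv (φ n)) hlim
  have h2 : η ≤ dist w v0 :=
    ge_of_tendsto (hlim.dist tendsto_const_nhds) (Eventually.of_forall fun n => hv2 (φ n))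
  have h3 : η ≤ dist w (-v0) :=
    ge_of_tendsto (hlim.dist tendsto_const_nhds) (Eventually.of_forall fun n => hv3 (φ n))
  rcases S.D02b_pm hx0 hv0 hv01 hwE hw1 with rfl | rfl
  · rw [dist_self] at h2; exact absurd h2 (not_le.2 hη)
  · rw [dist_self] at h3; exact absurd h3 (not_le.2 hη)

/-- unit vectors of the stable lines over `S1` -/
def D02b_Y : Type := {q : K × EE N // q.1 ∈ S.S1 ∧ q.2 ∈ S.Es q.1 ∧ ‖q.2‖ = 1}
noncomputable instance : MetricSpace S.D02b_Y :=
  inferInstanceAs (MetricSpace {q : K × EE N // q.1 ∈ S.S1 ∧ q.2 ∈ S.Es q.1 ∧ ‖q.2‖ = 1})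

def D02b_p (q : S.D02b_Y) : S.S1 := ⟨q.1.1, q.2.1⟩

theorem D02b_contp : Continuous S.D02b_p :=
  Continuous.subtype_mk (continuous_fst.comp continuous_subtype_val) _

theorem D02b_inner {v v0 : EE N} (hv : ‖v‖ = 1) (hv0 : ‖v0‖ = 1) (h : dist v v0 < 1 / 2) :
    1 / 2 < inner ℝ v v0 := by
  rw [dist_eq_norm] at h
  have h1 := norm_sub_sq_real v v0
  rw [hv, hv0] at h1
  nlinarith [norm_nonneg (v - v0)]

theorem D02b_inner' {v v0 : EE N} (hv : ‖v‖ = 1) (hv0 : ‖v0‖ = 1) (h : dist v (-v0) < 1 / 2) :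
    inner ℝ v v0 < -(1 / 2) := by
  have h1 := D02b_inner hv (by rw [norm_neg, hv0]) h
  rw [inner_neg_right] at h1
  linarith

theorem D02b_cov : IsCoveringMap S.D02b_p := by
  intro x0
  obtain ⟨v0, hv0, hv01⟩ := S.D02b_unit x0.2
  obtain ⟨δ, hδ, hnear⟩ := S.D02b_near x0.2 hv0 hv01 (1 / 2) (by norm_num)
  -- the positive unit vector
  have hex : ∀ x : S.S1, dist x0.1 x.1 < δ → ∃ v ∈ S.Es x.1, ‖v‖ = 1 ∧ 1 / 2 < inner ℝ v v0 := by
    intro x hx
    obtain ⟨v, hv, hv1⟩ := S.D02b_unit x.2
    rcases hnear x.1 x.2 hx v hv hv1 with h | h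
    · exact ⟨v, hv, hv1, D02b_inner hv1 hv01 h⟩
    · refine ⟨-v, (S.Es x.1).neg_mem hv, by rw [norm_neg, hv1], ?_⟩
      have := D02b_inner' hv1 hv01 h
      rw [inner_neg_left]
      linarith
  choose! ep hep1 hep2 hep3 using hex
  have hepu : ∀ x : S.S1, dist x0.1 x.1 < δ → ∀ v ∈ S.Es x.1, ‖v‖ = 1 → 0 < inner ℝ v v0 →
      v = ep x := by
    intro x hx v hv hv1 hpos
    rcases S.D02b_pm x.2 (hep1 x hx) (hep2 x hx) hv hv1 with h | h
    · exact h
    · exfalso
      have := hep3 x hx
      rw [h, inner_neg_left] at hpos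
      linarith
  have hepc : ContinuousOn ep {x : S.S1 | dist x0.1 x.1 < δ} := by
    intro x hx
    rw [Metric.continuousWithinAt_iff]
    intro η hη
    obtain ⟨δ', hδ', hnear'⟩ := S.D02b_near x.2 (hep1 x hx) (hep2 x hx) (min η (1 / 2))
      (by positivity)
    refine ⟨δ', hδ', fun {y} hy hyx => ?_⟩
    rcases hnear' y.1 y.2 (by rw [dist_comm] at hyx; exact hyx) (ep y) (hep1 y hy) (hep2 y hy) with
      h | h
    · exact h.trans_le (min_le_left _ _)
    · exfalso
      have h1 := hep3 y hy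
      have h2 := hep3 x hx
      have h3 : dist (ep y) (-ep x) < 1 / 2 := h.trans_le (min_le_right _ _)
      have h4 : |inner ℝ (ep y - -ep x) v0| ≤ ‖ep y - -ep x‖ * ‖v0‖ := abs_real_inner_le_norm _ _
      rw [hv01, mul_one, ← dist_eq_norm, inner_sub_left, inner_neg_left] at h4
      have h5 := (abs_le.1 h4).2
      linarith
  let U : Set S.S1 := {x | dist x0.1 x.1 < δ}
  have hU : IsOpen U := by
    have : Continuous fun x : S.S1 => dist x0.1 x.1 :=
      continuous_const.dist continuous_subtype_val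
    exact isOpen_lt this continuous_const
  have hpU : IsOpen (S.D02b_p ⁻¹' U) := hU.preimage S.D02b_contp
  -- sign
  have hsgn : ∀ e : S.D02b_p ⁻¹' U, inner ℝ e.1.1.2 v0 < 0 ∨ 0 < inner ℝ e.1.1.2 v0 := by
    intro e
    rcases hnear _ e.1.2.1 e.2 _ e.1.2.2.1 e.1.2.2.2 with h | h
    · right
      have := D02b_inner e.1.2.2.2 hv01 h
      linarith
    · left
      have := D02b_inner' e.1.2.2.2 hv01 h
      linarith
  have hcin : Continuous fun e : S.D02b_p ⁻¹' U => (inner ℝ e.1.1.2 v0 : ℝ) := by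
    have h1 : Continuous fun e : S.D02b_p ⁻¹' U => e.1.1.2 :=
      continuous_snd.comp (continuous_subtype_val.comp continuous_subtype_val)
    exact h1.inner continuous_const
  classical
  let H : S.D02b_p ⁻¹' U ≃ₜ U × Bool :=
    { toFun := fun e => (⟨S.D02b_p e.1, e.2⟩, decide (0 < inner ℝ e.1.1.2 v0))
      invFun := fun q => ⟨⟨(q.1.1.1, if q.2 then ep q.1.1 else -ep q.1.1), q.1.1.2, by
          split_ifs
          · exact hep1 q.1.1 q.1.2
          · exact (S.Es _).neg_mem (hep1 q.1.1 q.1.2), by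
          split_ifs
          · exact hep2 q.1.1 q.1.2
          · rw [norm_neg]; exact hep2 q.1.1 q.1.2⟩, q.1.2⟩
      left_inv := by
        intro e
        apply Subtype.ext
        apply Subtype.ext
        refine Prod.ext rfl ?_
        have hU' : dist x0.1 (S.D02b_p e.1).1 < δ := e.2
        rcases hsgn e with h | h
        · have h1 : decide (0 < inner ℝ e.1.1.2 v0) = false := decide_eq_false (not_lt.2 h.le)
          simp only [h1]
          have h2 : -e.1.1.2 = ep (S.D02b_p e.1) := by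
            apply hepu _ hU' _ ((S.Es _).neg_mem e.1.2.2.1) (by rw [norm_neg]; exact e.1.2.2.2)
            rw [inner_neg_left]; linarith
          simp only [Bool.false_eq_true, if_false]
          rw [← h2, neg_neg]
        · have h1 : decide (0 < inner ℝ e.1.1.2 v0) = true := decide_eq_true h
          simp only [h1]
          simp only [if_true]
          exact (hepu _ hU' _ e.1.2.2.1 e.1.2.2.2 h).symm
      right_inv := by
        rintro ⟨⟨x, hx⟩, b⟩
        refine Prod.ext rfl ?_
        have h3 := hep3 x hx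
        cases b
        · refine decide_eq_false ?_
          simp only [Bool.false_eq_true, if_false]
          rw [inner_neg_left]; linarith
        · refine decide_eq_true ?_
          simp only [if_true]
          linarith
      continuous_toFun := by
        refine Continuous.prodMk ?_ ?_
        · exact Continuous.subtype_mk (S.D02b_contp.comp continuous_subtype_val) _
        · rw [continuous_discrete_rng]
          intro b
          cases b
          · have : (fun e : S.D02b_p ⁻¹' U => decide (0 < inner ℝ e.1.1.2 v0)) ⁻¹' {false} =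
              {e | inner ℝ e.1.1.2 v0 < 0} := by
              ext e
              simp only [mem_preimage, mem_singleton_iff, decide_eq_false_iff_not, not_lt]
              constructor
              · intro h
                rcases hsgn e with h' | h'
                · exact h'
                · exact absurd h' (not_lt.2 h)
              · exact fun h => le_of_lt h
            rw [this]
            exact isOpen_lt hcin continuous_const
          · have : (fun e : S.D02b_p ⁻¹' U => decide (0 < inner ℝ e.1.1.2 v0)) ⁻¹' {true} =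
              {e | 0 < inner ℝ e.1.1.2 v0} := by
              ext e
              simp only [mem_preimage, mem_singleton_iff, decide_eq_true_iff]
              exact Iff.rfl
            rw [this]
            exact isOpen_lt continuous_const hcin
      continuous_invFun := by
        refine Continuous.subtype_mk (Continuous.subtype_mk (Continuous.prodMk ?_ ?_) _) _
        · exact continuous_subtype_val.comp (continuous_subtype_val.comp continuous_fst)
        · have hc1 : Continuous fun q : U × Bool => ep q.1.1 := by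
            have h1 : Continuous (U.domRestrict ep) :=
              continuousOn_iff_continuous_domRestrict.1 hepc
            exact h1.comp continuous_fst
          have hc2 : Continuous fun q : U × Bool => -ep q.1.1 := hc1.neg
          refine continuous_iff_continuousAt.2 fun q => ?_
          have hb : ∀ᶠ q' : U × Bool in 𝓝 q, q'.2 = q.2 := by
            have : IsOpen ((fun q' : U × Bool => q'.2) ⁻¹' {q.2}) :=
              (isOpen_discrete _).preimage continuous_snd
            exact this.mem_nhds rfl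
          rcases hq : q.2 with _ | _
          · refine hc2.continuousAt.congr ?_
            filter_upwards [hb] with q' hq'
            rw [hq', hq]
            simp
          · refine hc1.continuousAt.congr ?_
            filter_upwards [hb] with q' hq'
            rw [hq', hq]
            simp }
  have hcov : IsEvenlyCovered S.D02b_p x0 Bool :=
    ⟨inferInstance, U, by show dist x0.1 x0.1 < δ; rw [dist_self]; exact hδ, hU, hpU, H,
      fun _ => rfl⟩
  exact hcov.to_isEvenlyCovered_preimage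

end GSys

namespace GAtt
variable {d N : ℕ} {K : Type} [MetricSpace K] [CompactSpace K] (S : GAtt d N K)

theorem D02b_dist (x y : S.X) : dist x y = max (dist (S.pt x) (S.pt y)) (dist (S.dir x) (S.dir y)) :=
  rfl

/-- constructor -/
def D02b_mk (y : K) (v : EE N) (hy : y ∈ S.B) (hv : v ∈ S.Es y) (hv1 : ‖v‖ = 1) : S.X :=
  ⟨(y, v), hy, hv, hv1⟩

theorem lift_pt (x : S.X) (ε : ℝ) (hε : 0 < ε) : ∃ δ > 0, ∀ y ∈ S.B, dist (S.pt x) y < δ →
    ∃ x', S.pt x' = y ∧ dist x x' < ε := by
  obtain ⟨δ, hδ, h⟩ := S.toGSys.D02b_near (S.B_S1 x.2.1) x.2.2.1 x.2.2.2 ε hε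
  refine ⟨min δ ε, by positivity, fun y hy hyd => ?_⟩
  obtain ⟨v, hv, hv1⟩ := S.toGSys.D02b_unit (S.B_S1 hy)
  rcases h y (S.B_S1 hy) (hyd.trans_le (min_le_left _ _)) v hv hv1 with h1 | h1
  · refine ⟨S.D02b_mk y v hy hv hv1, rfl, ?_⟩
    rw [D02b_dist]
    refine max_lt (hyd.trans_le (min_le_right _ _)) ?_
    rw [dist_comm]; exact h1
  · refine ⟨S.D02b_mk y (-v) hy ((S.Es y).neg_mem hv) (by rw [norm_neg]; exact hv1), rfl, ?_⟩
    rw [D02b_dist]
    refine max_lt (hyd.trans_le (min_le_right _ _)) ?_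
    show dist (S.dir x) (-v) < ε
    have h2 : dist (S.dir x) (-v) = dist v (-S.dir x) := by
      rw [dist_eq_norm, dist_eq_norm, sub_neg_eq_add, sub_neg_eq_add, add_comm]
    rw [h2]; exact h1

theorem proper_pt (C : Set K) (hC : C ⊆ S.B) (hC' : IsCompact C) :
    IsCompact (S.pt ⁻¹' C) := by
  refine IsSeqCompact.isCompact ?_
  intro u hu
  obtain ⟨y, hy, φ, hφ, hlim⟩ := hC'.tendsto_subseq (x := fun n => S.pt (u n)) hu
  obtain ⟨w, hw, ψ, hψ, hlim'⟩ := (isCompact_sphere (0 : EE N) 1).tendsto_subseq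
    (x := fun n => S.dir (u (φ n))) (fun n => by
      rw [mem_sphere_zero_iff_norm]; exact (u (φ n)).2.2.2)
  have hw1 : ‖w‖ = 1 := by rwa [mem_sphere_zero_iff_norm] at hw
  have hl1 : Tendsto (fun n => S.pt (u (φ (ψ n)))) atTop (𝓝 y) := hlim.comp hψ.tendsto_atTop
  have hl2 : Tendsto (fun n => S.dir (u (φ (ψ n)))) atTop (𝓝 w) := hlim'
  have hwE : w ∈ S.Es y := S.toGSys.closed_Es1 (fun n => S.B_S1 (u (φ (ψ n))).2.1)
    (S.B_S1 (hC hy)) hl1 (fun n => (u (φ (ψ n))).2.2.1) hl2
  refine ⟨S.D02b_mk y w (hC hy) hwE hw1, hy, φ ∘ ψ, hφ.comp hψ, ?_⟩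
  rw [tendsto_iff_dist_tendsto_zero]
  have h1 := (tendsto_iff_dist_tendsto_zero.1 hl1).max (tendsto_iff_dist_tendsto_zero.1 hl2)
  rw [max_self] at h1
  exact h1

theorem compact_LX : IsCompact S.LX := S.proper_pt S.L S.L_B S.L_cpt

theorem ylift (A : Type) [TopologicalSpace A] [SimplyConnectedSpace A]
    [LocallyPathConnectedSpace A] (c : C(A, K)) (hc : ∀ a, c a ∈ S.S1) :
    ∃ o : {a // c a ∈ S.B} → S.X, Continuous o ∧ ∀ a, S.pt (o a) = c a.1 := by
  obtain ⟨a0⟩ : Nonempty A := inferInstance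
  obtain ⟨v0, hv0, hv01⟩ := S.toGSys.D02b_unit (hc a0)
  let c' : C(A, S.S1) := ⟨fun a => ⟨c a, hc a⟩, c.continuous.subtype_mk _⟩
  obtain ⟨G, ⟨-, hG⟩, -⟩ := S.toGSys.D02b_cov.existsUnique_continuousMap_lifts c' a0
    (⟨(c a0, v0), hc a0, hv0, hv01⟩ : S.toGSys.D02b_Y) rfl
  have hG' : ∀ a, (G a).1.1 = c a := fun a => by
    have := congrFun hG a
    exact congrArg Subtype.val this
  refine ⟨fun a => ⟨(c a.1, (G a.1).1.2), a.2, ?_, (G a.1).2.2.2⟩, ?_, fun a => rfl⟩
  · rw [← hG']; exact (G a.1).2.2.1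
  · refine Continuous.subtype_mk (Continuous.prodMk ?_ ?_) _
    · exact c.continuous.comp continuous_subtype_val
    · exact continuous_snd.comp (continuous_subtype_val.comp
        (G.continuous.comp continuous_subtype_val))

end GAtt
end Pool.MP85
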