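import Pool.Agent.Lib.MP_85e637_an.AbsC2
import Pool.Agent.Lib.MP_85e637_an.C01
import Pool.Agent.Lib.MP_85e637_an.C10
import Pool.Agent.Lib.MP_85e637_an.C12
import Pool.Agent.Lib.MP_85e637_an.C13
import Pool.Agent.Lib.MP_85e637_an.D02a

/-!
# D03: the stable bundle near the attractor, smooth stable arcs
-/

open Filter Topology Set Metric Module

namespace Pool.MP85

section Line
variable {N : ℕ}

theorem D03_line {V : Submodule ℝ (EE N)} (h : finrank ℝ V = 1) {v w : EE N} (hv : v ∈ V)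
    (h1 : ‖v‖ = 1) (hw : w ∈ V) : w = (inner ℝ w v : ℝ) • v := by
  have hv0 : (⟨v, hv⟩ : V) ≠ 0 := by
    intro h0
    have : v = 0 := by simpa using congrArg Subtype.val h0
    rw [this, norm_zero] at h1
    exact zero_ne_one h1
  obtain ⟨c, hc⟩ := (finrank_eq_one_iff_of_nonzero' (⟨v, hv⟩ : V) hv0).1 h ⟨w, hw⟩
  have hc' : c • v = w := by simpa using congrArg Subtype.val hc
  rw [← hc', inner_smul_left, real_inner_self_eq_norm_sq, h1]
  simp

theorem D03_pm {V : Submodule ℝ (EE N)} (h : finrank ℝ V = 1) {v w : EE N} (hv : v ∈ V)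
    (h1 : ‖v‖ = 1) (hw : w ∈ V) (h2 : ‖w‖ = 1) : w = v ∨ w = -v := by
  have h3 := D03_line h hv h1 hw
  have h4 : |(inner ℝ w v : ℝ)| = 1 := by
    have := congrArg norm h3
    rw [norm_smul, h2, h1, mul_one, Real.norm_eq_abs] at this
    exact this.symm
  rcases (abs_eq zero_le_one).1 h4 with h5 | h5
  · left; rw [h3, h5, one_smul]
  · right; rw [h3, h5, neg_smul, one_smul]

theorem D03_exists_unit {V : Submodule ℝ (EE N)} (h : finrank ℝ V = 1) : ∃ v ∈ V, ‖v‖ = 1 := by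
  have : Nontrivial V := nontrivial_of_finrank_pos (R := ℝ) (by rw [h]; exact one_pos)
  obtain ⟨⟨v, hv⟩, hv0⟩ := exists_ne (0 : V)
  have hv0' : v ≠ 0 := fun h0 => hv0 (by ext1; exact h0)
  exact ⟨‖v‖⁻¹ • v, V.smul_mem _ hv, by
    rw [norm_smul, norm_inv, norm_norm, inv_mul_cancel₀ (norm_ne_zero_iff.2 hv0')]⟩

theorem D03_near {V : Submodule ℝ (EE N)} {w : EE N} {κ : ℝ} (h : infDist w V ≤ κ) :
    ∃ p ∈ V, ‖w - p‖ ≤ κ := by
  obtain ⟨p, hp, hp'⟩ := (Submodule.closed_of_finiteDimensional V).exists_infDist_eq_dist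
    ⟨0, V.zero_mem⟩ w
  exact ⟨p, hp, by rw [← dist_eq_norm, ← hp']; exact h⟩

theorem D03_inner {u w : EE N} (hu : ‖u‖ = 1) (hw : ‖w‖ = 1) (h : ‖u - w‖ < 1) :
    1 / 2 < (inner ℝ w u : ℝ) := by
  have h1 := norm_sub_sq_real u w
  rw [hu, hw] at h1
  have h2 : ‖u - w‖ ^ 2 < 1 := by
    have := norm_nonneg (u - w)
    nlinarith
  rw [real_inner_comm]
  linarith

end Line

theorem D03_WSl_f {K : Type} [MetricSpace K] {f : K ≃ₜ K} {ε : ℝ} {x y : K}
    (h : y ∈ WSl f ε x) : f y ∈ WSl f ε (f x) := by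
  intro n
  have := h (n + 1)
  rwa [fw_succ, fw_succ] at this

theorem CB.D03_iter {d N k : ℕ} {K : Type} [MetricSpace K] [CompactSpace K] {S : ESys d N K}
    {R : Set K} {V : K → Submodule ℝ (EE N)} (h : CB S R V k) {ε0 : ℝ}
    (hc : ∀ x ∈ R, ∀ y ∈ WSl S.f ε0 x, ∀ y' ∈ WSl S.f ε0 x, 4 * dist (S.f y) (S.f y') ≤ dist y y')
    (n : ℕ) : ∀ x ∈ R, ∀ y ∈ WSl S.f ε0 x, ∀ y' ∈ WSl S.f ε0 x,
      dist (fw S.f n y) (fw S.f n y') ≤ dist y y' := by
  induction n with
  | zero => intro x _ y _ y' _; exact le_rfl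
  | succ n ih =>
    intro x hx y hy y' hy'
    rw [fw_succ, fw_succ]
    have h1 := ih (S.f x) (h.inv x hx) (S.f y) (D03_WSl_f hy) (S.f y') (D03_WSl_f hy')
    have h2 := hc x hx y hy y' hy'
    have h3 := dist_nonneg (x := S.f y) (y := S.f y')
    linarith

namespace GAtt
variable {d N : ℕ} {K : Type} [MetricSpace K] [CompactSpace K] (S : GAtt d N K)

theorem cb_U (R : S.Speed) : CB S.toESys (closure R.U) S.Es 1 where
  cpt := isClosed_closure.isCompact
  inv := fun x hx => subset_closure (R.U_trap x hx)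
  le := fun x _ => Coc.Es_le S.toCoc x
  rank := fun x hx => (S.B_S1 (R.U_B hx)).2
  closed := fun x v x0 v0 hx hv h1 h2 =>
    GSys.closed_Es1 S.toGSys (fun n => S.B_S1 (R.U_B (hx n)))
      (S.B_S1 (R.U_B (isClosed_closure.mem_of_tendsto h1 (Eventually.of_forall hx)))) h1 hv h2
  map := fun x _ v hv => (Coc.Es_map S.toCoc (Coc.Es_le S.toCoc x hv)).2 hv
  con := R.con
  exp := fun x hx v hv => by
    have h1 := S.exp_s x (S.B_R (R.U_B hx)) v hv
    have h2 : 0 ≤ infDist v (S.Es x) := infDist_nonneg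
    linarith

theorem D03_ext {z z' : S.X} (h : S.pt z = S.pt z') (h' : S.dir z = S.dir z') : z = z' := by
  apply Subtype.ext
  exact Prod.ext h h'

theorem D03_dir_norm (z : S.X) : ‖S.dir z‖ = 1 := z.2.2.2
theorem D03_dir_mem (z : S.X) : S.dir z ∈ S.Es (S.pt z) := z.2.2.1
theorem D03_pt_mem (z : S.X) : S.pt z ∈ S.B := z.2.1

theorem D03_tendsto {z : ℕ → S.X} {z0 : S.X} (h : Tendsto (fun n => S.pt (z n)) atTop (𝓝 (S.pt z0)))
    (h' : Tendsto (fun n => S.dir (z n)) atTop (𝓝 (S.dir z0))) : Tendsto z atTop (𝓝 z0) := by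
  rw [tendsto_iff_dist_tendsto_zero] at h h' ⊢
  have h1 : ∀ n, dist (z n) z0 = max (dist (S.pt (z n)) (S.pt z0)) (dist (S.dir (z n)) (S.dir z0)) :=
    fun n => rfl
  simp only [h1]
  simpa using h.max h'

theorem D03_continuous_pt : Continuous S.pt := continuous_fst.comp continuous_subtype_val
theorem D03_continuous_dir : Continuous S.dir := continuous_snd.comp continuous_subtype_val

/-- two points of the cover over the same point in the same half space are equal -/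
theorem D03_uniq {z z' : S.X} {u : EE N} (h : S.pt z = S.pt z')
    (h1 : 0 < (inner ℝ (S.dir z) u : ℝ)) (h2 : 0 < (inner ℝ (S.dir z') u : ℝ)) : z = z' := by
  refine S.D03_ext h ?_
  have hr : finrank ℝ (S.Es (S.pt z)) = 1 := (S.B_S1 (S.D03_pt_mem z)).2
  rcases D03_pm hr (S.D03_dir_mem z) (S.D03_dir_norm z) (w := S.dir z')
    (by rw [h]; exact S.D03_dir_mem z') (S.D03_dir_norm z') with h3 | h3
  · exact h3.symm
  · rw [h3, inner_neg_left] at h2
    linarith

/-- uniform continuity of the stable line field over `closure U` -/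
theorem D03_unif (R : S.Speed) : ∀ η > 0, ∃ δ > 0, ∀ x ∈ closure R.U, ∀ y ∈ closure R.U,
    dist x y < δ → ∀ v ∈ S.Es x, ‖v‖ = 1 → ∃ w ∈ S.Es y, ‖w‖ = 1 ∧ ‖v - w‖ < η := by
  intro η hη
  by_contra hcon
  push Not at hcon
  have h := S.cb_U R
  have hstep : ∀ n : ℕ, ∃ q : K × K × EE N × EE N, q ∈ closure R.U ×ˢ closure R.U ×ˢ
      sphere (0 : EE N) 1 ×ˢ sphere (0 : EE N) 1 ∧ dist q.1 q.2.1 < 1 / ((n : ℝ) + 1) ∧
      q.2.2.1 ∈ S.Es q.1 ∧ q.2.2.2 ∈ S.Es q.2.1 ∧
      ∀ w ∈ S.Es q.2.1, ‖w‖ = 1 → η ≤ ‖q.2.2.1 - w‖ := by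
    intro n
    obtain ⟨x, hx, y, hy, hxy, v, hv, hv1, hw⟩ := hcon (1 / ((n : ℝ) + 1)) (by positivity)
    obtain ⟨w, hw1, hw2⟩ := D03_exists_unit (h.rank y hy)
    exact ⟨(x, y, v, w), ⟨hx, hy, by simpa using hv1, by simpa using hw2⟩, hxy, hv, hw1, hw⟩
  choose q hq1 hq2 hq3 hq4 hq5 using hstep
  have hcpt : IsCompact (closure R.U ×ˢ closure R.U ×ˢ
      sphere (0 : EE N) 1 ×ˢ sphere (0 : EE N) 1) :=
    h.cpt.prod (h.cpt.prod ((isCompact_sphere _ _).prod (isCompact_sphere _ _)))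
  obtain ⟨q0, hq0, φ, hφ, hlim⟩ := hcpt.tendsto_subseq hq1
  have l1 : Tendsto (fun n => (q (φ n)).1) atTop (𝓝 q0.1) := (continuous_fst.tendsto _).comp hlim
  have l2 : Tendsto (fun n => (q (φ n)).2.1) atTop (𝓝 q0.2.1) :=
    ((continuous_fst.comp continuous_snd).tendsto _).comp hlim
  have l3 : Tendsto (fun n => (q (φ n)).2.2.1) atTop (𝓝 q0.2.2.1) :=
    ((continuous_fst.comp (continuous_snd.comp continuous_snd)).tendsto _).comp hlim
  have l4 : Tendsto (fun n => (q (φ n)).2.2.2) atTop (𝓝 q0.2.2.2) :=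
    ((continuous_snd.comp (continuous_snd.comp continuous_snd)).tendsto _).comp hlim
  have hd0 : Tendsto (fun n => dist (q (φ n)).1 (q (φ n)).2.1) atTop (𝓝 0) := by
    refine squeeze_zero (fun n => dist_nonneg) (fun n => (hq2 (φ n)).le) ?_
    exact (tendsto_one_div_add_atTop_nhds_zero_nat (𝕜 := ℝ)).comp hφ.tendsto_atTop
  have heq : q0.1 = q0.2.1 := by
    have := tendsto_nhds_unique hd0 (l1.dist l2)
    exact dist_eq_zero.1 this.symm
  have hv0 : q0.2.2.1 ∈ S.Es q0.1 := h.closed _ _ _ _ (fun n => (hq1 (φ n)).1)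
    (fun n => hq3 (φ n)) l1 l3
  have hw0 : q0.2.2.2 ∈ S.Es q0.2.1 := h.closed _ _ _ _ (fun n => (hq1 (φ n)).2.1)
    (fun n => hq4 (φ n)) l2 l4
  rw [← heq] at hw0
  have hv1 : ‖q0.2.2.1‖ = 1 := by simpa using hq0.2.2.1
  have hw1 : ‖q0.2.2.2‖ = 1 := by simpa using hq0.2.2.2
  rcases D03_pm (h.rank q0.1 hq0.1) hv0 hv1 hw0 hw1 with h1 | h1
  · have l5 : Tendsto (fun n => ‖(q (φ n)).2.2.1 - (q (φ n)).2.2.2‖) atTop (𝓝 0) := by
      have := (l3.sub l4).norm
      rwa [h1, sub_self, norm_zero] at this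
    obtain ⟨n, hn⟩ := (l5.eventually (gt_mem_nhds hη)).exists
    exact absurd (hq5 (φ n) _ (hq4 (φ n)) (by simpa using (hq1 (φ n)).2.2.2)) (not_le.2 hn)
  · have l5 : Tendsto (fun n => ‖(q (φ n)).2.2.1 - (-(q (φ n)).2.2.2)‖) atTop (𝓝 0) := by
      have := (l3.sub l4.neg).norm
      rwa [h1, neg_neg, sub_self, norm_zero] at this
    obtain ⟨n, hn⟩ := (l5.eventually (gt_mem_nhds hη)).exists
    refine absurd (hq5 (φ n) _ ((S.Es _).neg_mem (hq4 (φ n))) ?_) (not_le.2 hn)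
    rw [norm_neg]
    simpa using (hq1 (φ n)).2.2.2

/-- trapping neighbourhoods well inside `U` -/
theorem D03_V (R : S.Speed) : ∃ V : Set K, IsOpen V ∧ S.L ⊆ V ∧ (∀ x ∈ V, S.f x ∈ V) ∧
    ∃ δ > 0, ∀ x ∈ V, ∀ y, dist x y < δ → y ∈ R.U := by
  obtain ⟨δ, hδ, hsub⟩ := S.L_cpt.exists_thickening_subset_open R.U_open R.L_U
  obtain ⟨V, hV, hLV, hV1, hV2⟩ := S.trap (δ / 2) (half_pos hδ)
  refine ⟨V, hV, hLV, fun x hx => hV2 x (subset_closure hx), δ / 2, half_pos hδ, ?_⟩
  intro x hx y hxy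
  obtain ⟨z, hz, hxz⟩ := (infDist_lt_iff S.L_ne).1 (hV1 x hx)
  refine hsub (mem_thickening_iff.2 ⟨z, hz, ?_⟩)
  calc dist y z ≤ dist y x + dist x z := dist_triangle _ _ _
    _ < δ / 2 + δ / 2 := by rw [dist_comm y x]; exact add_lt_add hxy hxz
    _ = δ := add_halves δ

/-- Stable arcs of points near `L`, parametrised by the coordinate in the direction `dir x`; they
are `C¹` curves tangent to the stable directions. -/
theorem arcs (R : S.Speed) : ∃ V : Set K, IsOpen V ∧ S.L ⊆ V ∧ V ⊆ R.U ∧ (∀ x ∈ V, S.f x ∈ V) ∧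
    ∃ r > 0, ∃ ε > 0, ∃ c : S.X → ℝ → S.X,
    ContinuousOn (fun q : S.X × ℝ => c q.1 q.2) ({x | S.pt x ∈ V} ×ˢ Ioo (-r) r) ∧
    ∀ x, S.pt x ∈ V → c x 0 = x ∧ (∀ a ∈ Ioo (-r) r, S.pt (c x a) ∈ R.U ∧
      inner ℝ (S.e (S.pt (c x a)) - S.e (S.pt x)) (S.dir x) = a ∧
      1 / 2 ≤ inner ℝ (S.dir (c x a)) (S.dir x) ∧
      HasDerivAt (fun b => S.e (S.pt (c x b)))
        ((inner ℝ (S.dir (c x a)) (S.dir x))⁻¹ • S.dir (c x a)) a) ∧
      (∀ y ∈ WSl S.f ε (S.pt x), |inner ℝ (S.e y - S.e (S.pt x)) (S.dir x)| < r →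
        y = S.pt (c x (inner ℝ (S.e y - S.e (S.pt x)) (S.dir x)))) := by
  have h := S.cb_U R
  obtain ⟨V, hVo, hLV, hfV, δ1, hδ1, hVU⟩ := S.D03_V R
  obtain ⟨δ2, hδ2, unif⟩ := S.D03_unif R 1 one_pos
  obtain ⟨ε0, hε0, contr⟩ := h.contr
  obtain ⟨εc, hεc, cone⟩ := h.cone (1 / 2) (by norm_num)
  obtain ⟨ε1, hε1, param⟩ := h.param
  set ε := min ε1 (min ε0 (min εc (min (δ1 / 2) (δ2 / 2)))) with hεdef
  have hε : 0 < ε := by
    simp only [hεdef, lt_min_iff]
    exact ⟨hε1, hε0, hεc, half_pos hδ1, half_pos hδ2⟩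
  have e1 : ε ≤ ε1 := min_le_left _ _
  have e0 : ε ≤ ε0 := (min_le_right _ _).trans (min_le_left _ _)
  have ec : ε ≤ εc := ((min_le_right _ _).trans (min_le_right _ _)).trans (min_le_left _ _)
  have ed1 : ε ≤ δ1 / 2 := (((min_le_right _ _).trans (min_le_right _ _)).trans
    (min_le_right _ _)).trans (min_le_left _ _)
  have ed2 : ε ≤ δ2 / 2 := (((min_le_right _ _).trans (min_le_right _ _)).trans
    (min_le_right _ _)).trans (min_le_right _ _)
  obtain ⟨r, hr, Ψ, P1, P2, P3, P4, P5⟩ := param ε hε e1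
  have hVU' : V ⊆ R.U := fun x hx => hVU x hx x (by rw [dist_self]; exact hδ1)
  have hVc : ∀ x ∈ V, x ∈ closure R.U := fun x hx => subset_closure (hVU' hx)
  have hmono : ∀ {δ : ℝ} {x y : K}, ε ≤ δ → y ∈ WSl S.f ε x → y ∈ WSl S.f δ x :=
    fun hle hy n => (hy n).trans hle
  -- the small parameter
  set r' := r / 2 with hr'
  have hr'0 : 0 < r' := half_pos hr
  have hnorm : ∀ (x : S.X) (a : ℝ), ‖a • S.dir x‖ = |a| := by
    intro x a
    rw [norm_smul, S.D03_dir_norm, mul_one, Real.norm_eq_abs]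
  have hmem : ∀ (x : S.X) (a : ℝ), a • S.dir x ∈ S.Es (S.pt x) :=
    fun x a => (S.Es _).smul_mem _ (S.D03_dir_mem x)
  have hle : ∀ (x : S.X) {a : ℝ}, a ∈ Ioo (-r') r' → ‖a • S.dir x‖ ≤ r := by
    intro x a ha
    rw [hnorm]
    have := abs_lt.2 ha
    linarith
  have hW : ∀ (x : S.X) {a : ℝ}, S.pt x ∈ V → a ∈ Ioo (-r') r' →
      Ψ (S.pt x) (a • S.dir x) ∈ WSl S.f ε (S.pt x) :=
    fun x a hx ha => (P1 _ (hVc _ hx) _ (hmem x a) (hle x ha)).1
  have hd : ∀ (x : S.X) {a : ℝ}, S.pt x ∈ V → a ∈ Ioo (-r') r' →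
      dist (S.pt x) (Ψ (S.pt x) (a • S.dir x)) ≤ ε := fun x a hx ha => hW x hx ha 0
  have hUy : ∀ (x : S.X) {a : ℝ}, S.pt x ∈ V → a ∈ Ioo (-r') r' →
      Ψ (S.pt x) (a • S.dir x) ∈ R.U := by
    intro x a hx ha
    exact hVU _ hx _ ((hd x hx ha).trans_lt (ed1.trans_lt (half_lt_self hδ1)))
  -- the arcs
  have hex : ∀ (x : S.X) (a : ℝ), ∃ z : S.X, S.pt x ∈ V → a ∈ Ioo (-r') r' →
      S.pt z = Ψ (S.pt x) (a • S.dir x) ∧ ‖S.dir x - S.dir z‖ < 1 := by
    intro x a
    by_cases hx : S.pt x ∈ V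
    · by_cases ha : a ∈ Ioo (-r') r'
      · obtain ⟨w, hw, hw1, hw2⟩ := unif (S.pt x) (hVc _ hx) (Ψ (S.pt x) (a • S.dir x))
          (subset_closure (hUy x hx ha))
          ((hd x hx ha).trans_lt (ed2.trans_lt (half_lt_self hδ2))) (S.dir x) (S.D03_dir_mem x)
          (S.D03_dir_norm x)
        exact ⟨(⟨(Ψ (S.pt x) (a • S.dir x), w),
          R.U_B (subset_closure (hUy x hx ha)), hw, hw1⟩ : S.X), fun _ _ => ⟨rfl, hw2⟩⟩
      · exact ⟨x, fun _ h' => absurd h' ha⟩
    · exact ⟨x, fun h' => absurd h' hx⟩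
  choose c hc using hex
  have hin : ∀ (x : S.X) {a : ℝ}, S.pt x ∈ V → a ∈ Ioo (-r') r' →
      1 / 2 < (inner ℝ (S.dir (c x a)) (S.dir x) : ℝ) := fun x a hx ha =>
    D03_inner (S.D03_dir_norm x) (S.D03_dir_norm _) (hc x a hx ha).2
  have hinn : ∀ (x : S.X) {a : ℝ}, S.pt x ∈ V → a ∈ Ioo (-r') r' →
      (inner ℝ (S.e (S.pt (c x a)) - S.e (S.pt x)) (S.dir x) : ℝ) = a := by
    intro x a hx ha
    have h1 := (P1 _ (hVc _ hx) _ (hmem x a) (hle x ha)).2 (S.dir x) (S.D03_dir_mem x)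
    rw [inner_sub_left, inner_smul_left, real_inner_self_eq_norm_sq, S.D03_dir_norm] at h1
    rw [(hc x a hx ha).1]
    simp only [conj_trivial, one_pow, mul_one] at h1
    linarith
  refine ⟨V, hVo, hLV, hVU', hfV, r', hr'0, ε, hε, c, ?_, ?_⟩
  · -- continuity
    rintro ⟨x, a⟩ ⟨hx, ha⟩
    refine tendsto_of_subseq_tendsto fun ns hns => ?_
    have hns1 : Tendsto ns atTop (𝓝 (x, a)) := hns.mono_right nhdsWithin_le_nhds
    have hns2 : ∀ᶠ n in atTop, ns n ∈ {x | S.pt x ∈ V} ×ˢ Ioo (-r') r' :=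
      hns.eventually (eventually_mem_nhdsWithin)
    obtain ⟨n0, hn0⟩ := eventually_atTop.1 hns2
    have hm : ∀ n, ns (n + n0) ∈ {x | S.pt x ∈ V} ×ˢ Ioo (-r') r' := fun n => hn0 _ (by omega)
    have l0 : Tendsto (fun n => ns (n + n0)) atTop (𝓝 (x, a)) :=
      hns1.comp (tendsto_add_atTop_nat n0)
    have l1 : Tendsto (fun n => S.pt (ns (n + n0)).1) atTop (𝓝 (S.pt x)) :=
      ((S.D03_continuous_pt.comp continuous_fst).tendsto (x, a)).comp l0
    have l2 : Tendsto (fun n => S.dir (ns (n + n0)).1) atTop (𝓝 (S.dir x)) :=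
      ((S.D03_continuous_dir.comp continuous_fst).tendsto (x, a)).comp l0
    have l3 : Tendsto (fun n => (ns (n + n0)).2) atTop (𝓝 a) :=
      (continuous_snd.tendsto (x, a)).comp l0
    have l4 : Tendsto (fun n => S.pt (c (ns (n + n0)).1 (ns (n + n0)).2)) atTop
        (𝓝 (S.pt (c x a))) := by
      have h1 := P5 (fun n => S.pt (ns (n + n0)).1)
        (fun n => (ns (n + n0)).2 • S.dir (ns (n + n0)).1) (S.pt x) (a • S.dir x)
        (fun n => hVc _ (hm n).1) (fun n => hmem _ _) (fun n => hle _ (hm n).2) l1 (l3.smul l2)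
      rw [(hc x a hx ha).1]
      refine h1.congr fun n => ?_
      rw [(hc _ _ (hm n).1 (hm n).2).1]
    obtain ⟨w, hw, φ, hφ, hlim⟩ := (isCompact_sphere (0 : EE N) 1).tendsto_subseq
      (x := fun n => S.dir (c (ns (n + n0)).1 (ns (n + n0)).2))
      (fun n => by simpa using S.D03_dir_norm _)
    refine ⟨fun n => φ n + n0, ?_⟩
    have hwE : w ∈ S.Es (S.pt (c x a)) := by
      refine GSys.closed_Es1 S.toGSys (x := fun n => S.pt (c (ns (φ n + n0)).1 (ns (φ n + n0)).2))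
        (v := fun n => S.dir (c (ns (φ n + n0)).1 (ns (φ n + n0)).2))
        (fun n => S.B_S1 (S.D03_pt_mem _)) (S.B_S1 (S.D03_pt_mem _))
        (l4.comp hφ.tendsto_atTop) (fun n => S.D03_dir_mem _) hlim
    have hw1 : ‖w‖ = 1 := by simpa using hw
    have hwi : 1 / 2 ≤ (inner ℝ w (S.dir x) : ℝ) := by
      have l5 : Tendsto (fun n => (inner ℝ (S.dir (c (ns (φ n + n0)).1 (ns (φ n + n0)).2))
          (S.dir (ns (φ n + n0)).1) : ℝ)) atTop (𝓝 (inner ℝ w (S.dir x))) :=
        hlim.inner (l2.comp hφ.tendsto_atTop)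
      refine ge_of_tendsto l5 (Eventually.of_forall fun n => ?_)
      exact (hin _ (hm (φ n)).1 (hm (φ n)).2).le
    have hwd : w = S.dir (c x a) := by
      have h1 := S.D03_uniq (z := (⟨(S.pt (c x a), w), S.D03_pt_mem _, hwE, hw1⟩ : S.X))
        (z' := c x a) (u := S.dir x) rfl
        (show 0 < (inner ℝ w (S.dir x) : ℝ) by linarith) (by linarith [hin x hx ha])
      rw [← h1]
      rfl
    rw [hwd] at hlim
    exact S.D03_tendsto (l4.comp hφ.tendsto_atTop) hlim
  · intro x hx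
    refine ⟨?_, ?_, ?_⟩
    · -- `c x 0 = x`
      have h0 : (0 : ℝ) ∈ Ioo (-r') r' := ⟨by linarith, hr'0⟩
      refine S.D03_uniq (u := S.dir x) ?_ (by linarith [hin x hx h0]) ?_
      · rw [(hc x 0 hx h0).1, zero_smul, P2 _ (hVc _ hx)]
      · rw [real_inner_self_eq_norm_sq, S.D03_dir_norm]; norm_num
    · intro a ha
      refine ⟨?_, hinn x hx ha, (hin x hx ha).le, ?_⟩
      · rw [(hc x a hx ha).1]; exact hUy x hx ha
      · -- derivative
        rw [hasDerivAt_iff_isLittleO, Asymptotics.isLittleO_iff]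
        intro η hη
        obtain ⟨ε', hε', cone'⟩ := h.cone (η / 6) (by positivity)
        have hb1 : ∀ᶠ b in 𝓝 a, b ∈ Ioo (-r') r' := isOpen_Ioo.mem_nhds ha
        have hb2 : ∀ᶠ b in 𝓝 a, dist b a < ε' / 2 := Metric.ball_mem_nhds a (half_pos hε')
        filter_upwards [hb1, hb2] with b hb hba
        set y0 := S.pt (c x a) with hy0
        set yb := S.pt (c x b) with hyb
        set w0 := S.dir (c x a) with hw0
        have hy0W : y0 ∈ WSl S.f ε (S.pt x) := by rw [hy0, (hc x a hx ha).1]; exact hW x hx ha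
        have hybW : yb ∈ WSl S.f ε (S.pt x) := by rw [hyb, (hc x b hx hb).1]; exact hW x hx hb
        have hy0R : y0 ∈ closure R.U := by
          rw [hy0, (hc x a hx ha).1]; exact subset_closure (hUy x hx ha)
        have hdist : dist yb y0 ≤ 2 * |b - a| := by
          have h1 := (P3 _ (hVc _ hx) _ (hmem x b) (hle x hb) _ (hmem x a) (hle x ha)).1
          rw [← sub_smul, hnorm] at h1
          rw [hyb, hy0, (hc x a hx ha).1, (hc x b hx hb).1]
          exact h1
        have hdist' : dist yb y0 ≤ ε' := by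
          rw [Real.dist_eq] at hba
          linarith
        have hyb' : yb ∈ WSl S.f ε' y0 := by
          intro n
          rw [dist_comm]
          exact (h.D03_iter contr n (S.pt x) (hVc _ hx) yb (hmono e0 hybW) y0
            (hmono e0 hy0W)).trans hdist'
        have hy0' : y0 ∈ WSl S.f ε' y0 := by
          intro n
          rw [dist_self]
          exact hε'.le
        have hcone := cone' y0 hy0R yb hyb' y0 hy0'
        have hcone2 : infDist (S.e yb - S.e y0) (S.Es y0) ≤ η / 3 * |b - a| := by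
          refine hcone.trans ?_
          have : η / 6 * dist yb y0 ≤ η / 6 * (2 * |b - a|) :=
            mul_le_mul_of_nonneg_left hdist (by positivity)
          linarith
        obtain ⟨p, hp, hp'⟩ := D03_near hcone2
        have hrk : finrank ℝ (S.Es y0) = 1 := h.rank y0 hy0R
        have hpt := D03_line hrk (S.D03_dir_mem (c x a)) (S.D03_dir_norm (c x a)) hp
        set t := (inner ℝ p (S.dir (c x a)) : ℝ) with ht
        set m := (inner ℝ w0 (S.dir x) : ℝ) with hm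
        have hm2 : 1 / 2 < m := hin x hx ha
        have hm0 : 0 < m := by linarith
        have hE : (inner ℝ (S.e yb - S.e y0) (S.dir x) : ℝ) = b - a := by
          have h1 := hinn x hx ha
          have h2 := hinn x hx hb
          rw [← hy0] at h1
          rw [← hyb] at h2
          have h3 : S.e yb - S.e y0 = (S.e yb - S.e (S.pt x)) - (S.e y0 - S.e (S.pt x)) := by abel
          rw [h3, inner_sub_left, h1, h2]
        have h4 : |b - a - t * m| ≤ η / 3 * |b - a| := by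
          have h5 : (inner ℝ (S.e yb - S.e y0 - p) (S.dir x) : ℝ) = b - a - t * m := by
            rw [inner_sub_left, hE, hpt, inner_smul_left]
            simp only [conj_trivial]
            rfl
          rw [← h5]
          refine (abs_real_inner_le_norm _ _).trans ?_
          rw [S.D03_dir_norm, mul_one]
          exact hp'
        have h6 : ‖p - (b - a) • (m⁻¹ • w0)‖ ≤ 2 * (η / 3 * |b - a|) := by
          have h7 : p - (b - a) • (m⁻¹ • w0) = (t - (b - a) * m⁻¹) • w0 := by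
            have h71 : p = t • w0 := hpt
            rw [h71]
            module
          rw [h7, norm_smul, hw0, S.D03_dir_norm, mul_one, Real.norm_eq_abs]
          have h8 : t - (b - a) * m⁻¹ = -(b - a - t * m) * m⁻¹ := by
            field_simp
            ring
          rw [h8, abs_mul, abs_neg, abs_inv, abs_of_pos hm0]
          have h9 : m⁻¹ ≤ 2 := by
            rw [inv_le_comm₀ hm0 two_pos]
            linarith
          calc |b - a - t * m| * m⁻¹ ≤ (η / 3 * |b - a|) * 2 :=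
                mul_le_mul h4 h9 (by positivity) (by positivity)
            _ = 2 * (η / 3 * |b - a|) := by ring
        have h10 : S.e yb - S.e y0 - (b - a) • (m⁻¹ • w0) =
            (S.e yb - S.e y0 - p) + (p - (b - a) • (m⁻¹ • w0)) := by abel
        rw [h10, Real.norm_eq_abs]
        refine (norm_add_le _ _).trans ?_
        linarith
    · -- uniqueness
      intro y hy hs
      set s := (inner ℝ (S.e y - S.e (S.pt x)) (S.dir x) : ℝ) with hsdef
      have hself : S.pt x ∈ WSl S.f εc (S.pt x) := by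
        intro n
        rw [dist_self]
        exact hεc.le
      have hcone := cone (S.pt x) (hVc _ hx) y (hmono ec hy) (S.pt x) hself
      obtain ⟨p, hp, hp'⟩ := D03_near hcone
      have hrk : finrank ℝ (S.Es (S.pt x)) = 1 := h.rank _ (hVc _ hx)
      have hpt := D03_line hrk (S.D03_dir_mem x) (S.D03_dir_norm x) hp
      -- distance bound
      have hdle : dist (S.pt x) y ≤ 2 * |s| := by
        have h1 : ‖S.e y - S.e (S.pt x)‖ = dist (S.pt x) y := by
          rw [S.e_isom, dist_comm]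
        set E := S.e y - S.e (S.pt x) with hE
        -- `‖E‖² - s² = ‖E - s • dir‖² ≤ ‖E - p‖²`
        have h2 : ‖E - s • S.dir x‖ ^ 2 = ‖E‖ ^ 2 - s ^ 2 := by
          rw [norm_sub_sq_real, inner_smul_right, norm_smul, S.D03_dir_norm, Real.norm_eq_abs,
            mul_one, sq_abs]
          have : (inner ℝ E (S.dir x) : ℝ) = s := rfl
          rw [this]; ring
        have h3 : ‖E - p‖ ^ 2 = ‖E‖ ^ 2 - s ^ 2 + (s - inner ℝ p (S.dir x)) ^ 2 := by
          have h4 : E - p = (E - s • S.dir x) + (s - inner ℝ p (S.dir x)) • S.dir x := by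
            rw [sub_smul, ← hpt]; abel
          have h5 : (inner ℝ (E - s • S.dir x) ((s - inner ℝ p (S.dir x)) • S.dir x) : ℝ) = 0 := by
            rw [inner_smul_right, inner_sub_left, inner_smul_left, real_inner_self_eq_norm_sq,
              S.D03_dir_norm]
            have : (inner ℝ E (S.dir x) : ℝ) = s := rfl
            rw [this]; simp
          rw [h4, norm_add_sq_real, h5, h2, norm_smul, S.D03_dir_norm, Real.norm_eq_abs, mul_one,
            sq_abs]
          ring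
        have h6 : ‖E - p‖ ≤ 1 / 2 * ‖E‖ := by rw [h1, dist_comm]; exact hp'
        have h7 : ‖E‖ ^ 2 ≤ (2 * |s|) ^ 2 := by
          have h8 : ‖E - p‖ ^ 2 ≤ (1 / 2 * ‖E‖) ^ 2 := by
            have := norm_nonneg (E - p)
            nlinarith
          rw [mul_pow, sq_abs]
          nlinarith [sq_nonneg (s - inner ℝ p (S.dir x)), norm_nonneg E]
        rw [← h1]
        exact le_of_sq_le_sq h7 (by positivity)
      have hdr : dist (S.pt x) y ≤ r := by linarith
      obtain ⟨a', ha', hna', hya'⟩ := P4 _ (hVc _ hx) y hy hdr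
      have ha2 := D03_line hrk (S.D03_dir_mem x) (S.D03_dir_norm x) ha'
      have h1 := (P1 _ (hVc _ hx) _ ha' hna').2 (S.dir x) (S.D03_dir_mem x)
      rw [← hya', inner_sub_left] at h1
      have h2 : (inner ℝ a' (S.dir x) : ℝ) = s := by linarith
      rw [h2] at ha2
      have hsI : s ∈ Ioo (-r') r' := abs_lt.1 hs
      rw [(hc x s hx hsI).1, ← ha2]
      exact hya'

end GAtt

end Pool.MP85
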