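import Pool.Agent.Lib.MP_85e637_an.AbsC2
import Pool.Agent.Lib.MP_85e637_an.C01
import Pool.Agent.Lib.MP_85e637_an.D01
import Pool.Agent.Lib.MP_85e637_an.D02a
import Pool.Agent.Lib.MP_85e637_an.D03

/-!
# D04: local flow and uniqueness near `L`
-/

open Filter Topology Set Metric Module

namespace Pool.MP85

/-- chain rule for `S.f` along a curve -/
theorem D04_chain {d N : ℕ} {K : Type} [MetricSpace K] [CompactSpace K] (S : ESys d N K)
    {p : ℝ → K} {t : ℝ} {v : EE N} (hp : ContinuousAt p t)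
    (h : HasDerivAt (fun s => S.e (p s)) v t) :
    HasDerivAt (fun s => S.e (S.f (p s))) (S.A (p t) v) t := by
  have h1 : HasDerivAt (fun s => S.A (p t) (S.e (p s))) (S.A (p t) v) t :=
    (S.A (p t)).hasFDerivAt.comp_hasDerivAt t h
  have h2 : (fun s => (S.e (S.f (p s)) - S.e (S.f (p t))) - S.A (p t) (S.e (p s) - S.e (p t)))
      =o[𝓝 t] fun s => s - t := by
    have hO : (fun s => S.e (p s) - S.e (p t)) =O[𝓝 t] fun s => s - t := h.isBigO_sub
    refine Asymptotics.IsLittleO.trans_isBigO ?_ hO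
    rw [Asymptotics.isLittleO_iff]
    intro η hη
    obtain ⟨ρ, hρ, hd⟩ := S.diff η hη
    have he : ∀ᶠ s in 𝓝 t, dist (p t) (p s) < ρ := by
      have := (Metric.continuousAt_iff'.1 hp) ρ hρ
      filter_upwards [this] with s hs
      rwa [dist_comm]
    filter_upwards [he] with s hs
    have := hd (p t) (p s) (p t) hs (by simpa using hρ)
    rwa [← S.e_isom] at this
  have h3 : HasDerivAt (fun s => (S.e (S.f (p s)) - S.e (S.f (p t))) -
      S.A (p t) (S.e (p s) - S.e (p t))) 0 t := by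
    rw [hasDerivAt_iff_isLittleO]
    simpa using h2
  have h4 := (h3.add h1).add (hasDerivAt_const t (S.e (S.f (p t)) - S.A (p t) (S.e (p t))))
  rw [zero_add, add_zero] at h4
  refine h4.congr_of_eventuallyEq (Filter.Eventually.of_forall fun s => ?_)
  simp only [Pi.add_apply]
  rw [map_sub]
  abel

/-- chain rule for iterates -/
theorem D04_chain_n {d N : ℕ} {K : Type} [MetricSpace K] [CompactSpace K] (S : ESys d N K)
    (n : ℕ) : ∀ {p : ℝ → K} {t : ℝ} {v : EE N}, ContinuousAt p t →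
    HasDerivAt (fun s => S.e (p s)) v t → S.P (p t) v = v →
    HasDerivAt (fun s => S.e (fw S.f n (p s))) (S.An n (p t) v) t := by
  induction n with
  | zero =>
    intro p t v _ h hv
    simpa [fw_zero, Coc.An, hv] using h
  | succ n ih =>
    intro p t v hp h hv
    have h1 := D04_chain S hp h
    have h2 : ContinuousAt (fun s => S.f (p s)) t := S.f.continuous.continuousAt.comp hp
    have h3 : S.P (S.f (p t)) (S.A (p t) v) = S.A (p t) v := by
      have := S.PA (p t)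
      exact congrArg (fun T : EE N →L[ℝ] EE N => T v) this
    have := ih h2 h1 h3
    simpa [fw_succ, Coc.An] using this

namespace GAtt
variable {d N : ℕ} {K : Type} [MetricSpace K] [CompactSpace K] (S : GAtt d N K)

/-- contraction of the iterates of the derivative on `Es` -/
theorem D04_An_le (R : S.Speed) (n : ℕ) : ∀ {x : K}, x ∈ R.U → ∀ {v : EE N}, v ∈ S.Es x →
    ‖S.An n x v‖ ≤ ‖v‖ / 8 ^ n := by
  induction n with
  | zero =>
    intro x _ v hv
    have : S.P x v = v := hv.1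
    simp [Coc.An, this]
  | succ n ih =>
    intro x hx v hv
    have hx' : S.f x ∈ R.U := R.U_trap x (subset_closure hx)
    have hv' : S.A x v ∈ S.Es (S.f x) := (S.toCoc.Es_map (S.toCoc.Es_le x hv)).2 hv
    have h1 := ih hx' hv'
    have h2 := R.con x (subset_closure hx) v hv
    have h3 : S.An (n + 1) x v = S.An n (S.f x) (S.A x v) := by simp [Coc.An]
    rw [h3]
    refine h1.trans ?_
    rw [div_le_div_iff₀ (by positivity) (by positivity), pow_succ]
    nlinarith [pow_pos (show (0 : ℝ) < 8 by norm_num) n]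

/-- curves tangent to `Es` inside `U` are contracted -/
theorem sol_contr (R : S.Speed) {γ : ℝ → S.X} {a b : ℝ} (h : S.IsSol R γ (Ioo a b))
    (hU : ∀ t ∈ Ioo a b, S.pt (γ t) ∈ R.U) (n : ℕ) {s t : ℝ} (hs : s ∈ Ioo a b)
    (ht : t ∈ Ioo a b) :
    dist (fw S.f n (S.pt (γ s))) (fw S.f n (S.pt (γ t))) ≤ |s - t| / 8 ^ n := by
  have hder : ∀ u ∈ Ioo a b, HasDerivAt (fun s => S.e (fw S.f n (S.pt (γ s))))
      (S.An n (S.pt (γ u)) (S.dir (γ u))) u := by
    intro u hu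
    have h1 : ContinuousAt (fun s => S.pt (γ s)) u :=
      S.continuous_pt.continuousAt.comp (h.1.continuousAt (isOpen_Ioo.mem_nhds hu))
    have h2 := h.2 u hu
    rw [R.one _ (hU u hu), one_smul] at h2
    have h3 : S.P (S.pt (γ u)) (S.dir (γ u)) = S.dir (γ u) := ((γ u).2.2.1).1
    exact D04_chain_n S.toESys n h1 h2 h3
  have hbd : ∀ u ∈ Ioo a b, ‖S.An n (S.pt (γ u)) (S.dir (γ u))‖ ≤ 1 / 8 ^ n := by
    intro u hu
    have h1 := S.D04_An_le R n (hU u hu) (v := S.dir (γ u)) (γ u).2.2.1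
    have h2 : ‖S.dir (γ u)‖ = 1 := (γ u).2.2.2
    rwa [h2] at h1
  have := (convex_Ioo a b).norm_image_sub_le_of_norm_hasDerivWithin_le
    (f := fun s => S.e (fw S.f n (S.pt (γ s))))
    (f' := fun u => S.An n (S.pt (γ u)) (S.dir (γ u)))
    (fun u hu => (hder u hu).hasDerivWithinAt) hbd ht hs
  rw [← S.e_isom]
  refine this.trans (le_of_eq ?_)
  rw [Real.norm_eq_abs]
  ring

theorem local_flow (R : S.Speed) : ∃ V : Set K, IsOpen V ∧ S.L ⊆ V ∧ V ⊆ R.U ∧
    ∀ C : Set S.X, IsCompact C → (∀ x ∈ C, S.pt x ∈ V) → ∃ δ > 0, ∃ ψ : ℝ → S.X → S.X,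
    ContinuousOn (fun q : ℝ × S.X => ψ q.1 q.2) (Ioo (-δ) δ ×ˢ C) ∧
    ∀ x ∈ C, ψ 0 x = x ∧ S.IsSol R (fun t => ψ t x) (Ioo (-δ) δ) ∧
      ∀ t ∈ Ioo (-δ) δ, S.pt (ψ t x) ∈ R.U := by
  obtain ⟨V, hV, hLV, hVU, -, r, hr, ε, hε, c, hc, hc'⟩ := S.arcs R
  refine ⟨V, hV, hLV, hVU, fun C hC hCV => ?_⟩
  have hcC : ContinuousOn (fun q : S.X × ℝ => c q.1 q.2) (C ×ˢ Ioo (-r) r) :=
    hc.mono (prod_mono (fun x hx => hCV x hx) Subset.rfl)
  obtain ⟨δ, hδ, θ, hθ, hθ'⟩ := scalar_ode hC hr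
    (fun x a => inner ℝ (S.dir (c x a)) (S.dir x))
    ((S.continuous_dir.comp_continuousOn hcC).inner
      (S.continuous_dir.comp continuous_fst).continuousOn)
    (fun x hx a ha => lt_of_lt_of_le (by norm_num) ((hc' x (hCV x hx)).2.1 a ha).2.2.1)
  have hmaps : MapsTo (fun q : S.X × ℝ => (q.1, θ q.1 q.2)) (C ×ˢ Ioo (-δ) δ)
      (C ×ˢ Ioo (-r) r) := by
    rintro ⟨x, t⟩ ⟨hx, ht⟩
    exact ⟨hx, ((hθ' x hx).2 t ht).1⟩
  have hψ : ContinuousOn (fun q : S.X × ℝ => c q.1 (θ q.1 q.2)) (C ×ˢ Ioo (-δ) δ) :=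
    hcC.comp (continuousOn_fst.prodMk hθ) hmaps
  refine ⟨δ, hδ, fun t x => c x (θ x t), ?_, fun x hx => ?_⟩
  · have : MapsTo (fun q : ℝ × S.X => (q.2, q.1)) (Ioo (-δ) δ ×ˢ C) (C ×ˢ Ioo (-δ) δ) := by
      rintro ⟨t, x⟩ ⟨ht, hx⟩
      exact ⟨hx, ht⟩
    exact hψ.comp continuous_swap.continuousOn this
  obtain ⟨h0, h1⟩ := hθ' x hx
  obtain ⟨g0, g1, -⟩ := hc' x (hCV x hx)
  refine ⟨by simp only [h0, g0], ⟨?_, ?_⟩, fun t ht => (g1 _ (h1 t ht).1).1⟩
  · have : MapsTo (fun t : ℝ => (x, t)) (Ioo (-δ) δ) (C ×ˢ Ioo (-δ) δ) := fun t ht => ⟨hx, ht⟩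
    exact hψ.comp (Continuous.prodMk_right x).continuousOn this
  · intro t ht
    obtain ⟨h2, h3⟩ := h1 t ht
    obtain ⟨g2, -, g4, g5⟩ := g1 _ h2
    have g6 := g5.scomp t h3
    rw [smul_smul, mul_inv_cancel₀ (by linarith)] at g6
    rw [R.one _ g2]
    exact g6

theorem uniq_near (R : S.Speed) : ∃ V : Set K, IsOpen V ∧ S.L ⊆ V ∧ V ⊆ R.U ∧
    ∀ (γ γ' : ℝ → S.X) (a b t0 : ℝ), t0 ∈ Ioo a b → S.IsSol R γ (Ioo a b) →
      S.IsSol R γ' (Ioo a b) → (∀ t ∈ Ioo a b, S.pt (γ t) ∈ V ∧ S.pt (γ' t) ∈ V) →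
      γ t0 = γ' t0 → EqOn γ γ' (Ioo a b) := by
  obtain ⟨V, hV, hLV, hVU, -, r, hr, ε, hε, c, hc, hc'⟩ := S.arcs R
  obtain ⟨D⟩ := S.exists_xdata
  refine ⟨V, hV, hLV, hVU, ?_⟩
  -- a solution near `t1` is the arc through `γ t1`
  have key : ∀ (γ : ℝ → S.X) (a b t1 : ℝ), t1 ∈ Ioo a b → S.IsSol R γ (Ioo a b) →
      (∀ t ∈ Ioo a b, S.pt (γ t) ∈ V) → ∃ η > 0, Ioo (t1 - η) (t1 + η) ⊆ Ioo a b ∧
      ∀ t ∈ Ioo (t1 - η) (t1 + η),
        γ t = c (γ t1) (inner ℝ (S.e (S.pt (γ t)) - S.e (S.pt (γ t1))) (S.dir (γ t1))) ∧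
        inner ℝ (S.e (S.pt (γ t)) - S.e (S.pt (γ t1))) (S.dir (γ t1)) ∈ Ioo (-r) r ∧
        HasDerivAt (fun t => inner ℝ (S.e (S.pt (γ t)) - S.e (S.pt (γ t1))) (S.dir (γ t1)))
          (inner ℝ (S.dir (c (γ t1) (inner ℝ (S.e (S.pt (γ t)) - S.e (S.pt (γ t1)))
            (S.dir (γ t1))))) (S.dir (γ t1))) t := by
    intro γ a b t1 ht1 hγ hγV
    obtain ⟨g0, g1, g2⟩ := hc' (γ t1) (hγV t1 ht1)
    have hd1 : ‖S.dir (γ t1)‖ = 1 := (γ t1).2.2.2
    have hcont : ContinuousAt γ t1 := hγ.1.continuousAt (isOpen_Ioo.mem_nhds ht1)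
    have hpt : ContinuousAt (fun t => S.pt (γ t)) t1 := S.continuous_pt.continuousAt.comp hcont
    have hdir : ContinuousAt (fun t => inner ℝ (S.dir (γ t)) (S.dir (γ t1))) t1 :=
      (S.continuous_dir.continuousAt.comp hcont).inner continuousAt_const
    have e1 : ∀ᶠ t in 𝓝 t1, dist (S.pt (γ t)) (S.pt (γ t1)) < r :=
      (Metric.continuousAt_iff'.1 hpt) r hr
    have e2 : ∀ᶠ t in 𝓝 t1, 0 < inner ℝ (S.dir (γ t)) (S.dir (γ t1)) := by
      refine hdir.eventually_mem (isOpen_Ioi.mem_nhds ?_)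
      simp only [mem_Ioi, real_inner_self_eq_norm_sq, hd1]
      norm_num
    have e3 : ∀ᶠ t in 𝓝 t1, t ∈ Ioo a b := isOpen_Ioo.mem_nhds ht1
    have e4 : ∀ᶠ t in 𝓝 t1, |t1 - t| < ε := by
      have : ContinuousAt (fun t : ℝ => |t1 - t|) t1 := by fun_prop
      refine this.eventually_mem (isOpen_Iio.mem_nhds ?_)
      simpa using hε
    obtain ⟨η, hη, hball⟩ := Metric.eventually_nhds_iff_ball.1 (e1.and (e2.and (e3.and e4)))
    refine ⟨η, hη, ?_, ?_⟩
    · intro t ht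
      exact (hball t (by rwa [Real.ball_eq_Ioo])).2.2.1
    · intro t ht
      obtain ⟨q1, q2, q3, q4⟩ := hball t (by rwa [Real.ball_eq_Ioo])
      have hmem : S.pt (γ t) ∈ WSl S.f ε (S.pt (γ t1)) := by
        intro n
        have := S.sol_contr R hγ (fun t ht => hVU (hγV t ht)) n ht1 q3
        refine this.trans ?_
        have h8 : (1 : ℝ) ≤ 8 ^ n := one_le_pow₀ (by norm_num)
        calc |t1 - t| / 8 ^ n ≤ |t1 - t| := div_le_self (abs_nonneg _) h8
          _ ≤ ε := q4.le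
      have habs : |inner ℝ (S.e (S.pt (γ t)) - S.e (S.pt (γ t1))) (S.dir (γ t1))| < r := by
        refine lt_of_le_of_lt (abs_real_inner_le_norm _ _) ?_
        rw [hd1, mul_one, S.e_isom]
        exact q1
      have hIoo : inner ℝ (S.e (S.pt (γ t)) - S.e (S.pt (γ t1))) (S.dir (γ t1)) ∈ Ioo (-r) r :=
        abs_lt.1 habs
      have hpteq := g2 _ hmem habs
      have hin := (g1 _ hIoo).2.2.1
      have heq : γ t = c (γ t1) (inner ℝ (S.e (S.pt (γ t)) - S.e (S.pt (γ t1)))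
          (S.dir (γ t1))) := by
        rcases S.fib D _ _ hpteq with h | h
        · exact h.symm
        · exfalso
          rw [h, D.dir_σ, inner_neg_left] at hin
          linarith
      refine ⟨heq, hIoo, ?_⟩
      have h2 := hγ.2 t q3
      rw [R.one _ (hVU (hγV t q3)), one_smul] at h2
      have h3 := (h2.sub_const (S.e (S.pt (γ t1)))).inner ℝ (hasDerivAt_const t (S.dir (γ t1)))
      rw [inner_zero_right, zero_add] at h3
      rw [← heq]
      exact h3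
  -- agreement is open
  have loc : ∀ (γ γ' : ℝ → S.X) (a b t1 : ℝ), t1 ∈ Ioo a b → S.IsSol R γ (Ioo a b) →
      S.IsSol R γ' (Ioo a b) → (∀ t ∈ Ioo a b, S.pt (γ t) ∈ V ∧ S.pt (γ' t) ∈ V) →
      γ t1 = γ' t1 → ∀ᶠ t in 𝓝 t1, γ t = γ' t := by
    intro γ γ' a b t1 ht1 h h' hVV heq
    obtain ⟨η, hη, hsub, hk⟩ := key γ a b t1 ht1 h (fun t ht => (hVV t ht).1)
    obtain ⟨η', hη', hsub', hk'⟩ := key γ' a b t1 ht1 h' (fun t ht => (hVV t ht).2)
    rw [← heq] at hk'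
    set x := γ t1 with hx
    have hxV : S.pt x ∈ V := (hVV t1 ht1).1
    obtain ⟨g0, g1, g2⟩ := hc' x hxV
    set m := min η η' with hm
    have hm0 : 0 < m := lt_min hη hη'
    have hs1 : Ioo (t1 - m) (t1 + m) ⊆ Ioo (t1 - η) (t1 + η) :=
      Ioo_subset_Ioo (by linarith [min_le_left η η']) (by linarith [min_le_left η η'])
    have hs2 : Ioo (t1 - m) (t1 + m) ⊆ Ioo (t1 - η') (t1 + η') :=
      Ioo_subset_Ioo (by linarith [min_le_right η η']) (by linarith [min_le_right η η'])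
    have hkc : ContinuousOn (fun a => inner ℝ (S.dir (c x a)) (S.dir x)) (Ioo (-r) r) := by
      have : ContinuousOn (fun a => c x a) (Ioo (-r) r) :=
        hc.comp (Continuous.prodMk_right x).continuousOn (fun a ha => ⟨hxV, ha⟩)
      exact (S.continuous_dir.comp_continuousOn this).inner continuousOn_const
    have hun := scalar_uniq (k := fun a => inner ℝ (S.dir (c x a)) (S.dir x))
      (I := Ioo (-r) r) isOpen_Ioo hkc
      (fun a ha => lt_of_lt_of_le (by norm_num) (g1 a ha).2.2.1)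
      (θ := fun t => inner ℝ (S.e (S.pt (γ t)) - S.e (S.pt x)) (S.dir x))
      (θ' := fun t => inner ℝ (S.e (S.pt (γ' t)) - S.e (S.pt x)) (S.dir x))
      (a := t1 - m) (b := t1 + m) (t0 := t1) ⟨by linarith, by linarith⟩
      (fun t ht => ⟨(hk t (hs1 ht)).2.1, (hk t (hs1 ht)).2.2⟩)
      (fun t ht => ⟨(hk' t (hs2 ht)).2.1, (hk' t (hs2 ht)).2.2⟩)
      (by simp only [← heq, ← hx])
    have hnb : Ioo (t1 - m) (t1 + m) ∈ 𝓝 t1 := Ioo_mem_nhds (by linarith) (by linarith)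
    filter_upwards [hnb] with t ht
    rw [(hk t (hs1 ht)).1, (hk' t (hs2 ht)).1]
    have := hun ht
    simp only at this
    rw [this]
  intro γ γ' a b t0 ht0 h h' hVV h0
  have hsub : Ioo a b ⊆ {t | ∀ᶠ s in 𝓝 t, γ s = γ' s} := by
    refine isPreconnected_Ioo.subset_of_closure_inter_subset isOpen_setOfPred_eventually_nhds
      ⟨t0, ht0, loc γ γ' a b t0 ht0 h h' hVV h0⟩ ?_
    rintro t ⟨hcl, ht⟩
    refine loc γ γ' a b t ht h h' hVV ?_
    by_contra hne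
    have c1 : ContinuousAt γ t := h.1.continuousAt (isOpen_Ioo.mem_nhds ht)
    have c2 : ContinuousAt γ' t := h'.1.continuousAt (isOpen_Ioo.mem_nhds ht)
    have hev : ∀ᶠ s in 𝓝 t, γ s ≠ γ' s := by
      have := (c1.prodMk c2).eventually_mem
        (isClosed_diagonal.isOpen_compl.mem_nhds (by simpa using hne))
      filter_upwards [this] with s hs
      simpa using hs
    obtain ⟨s, hs1, hs2⟩ := (mem_closure_iff_frequently.1 hcl).and_eventually hev |>.exists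
    exact hs2 (hs1.self_of_nhds)
  intro t ht
  exact (hsub ht).self_of_nhds

end GAtt

end Pool.MP85
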