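import Pool.Agent.Lib.MP_85e637_an.AbsC2
import Pool.Agent.Lib.MP_85e637_an.C09
import Pool.Agent.Lib.MP_85e637_an.D01
import Pool.Agent.Lib.MP_85e637_an.D02a
import Pool.Agent.Lib.MP_85e637_an.D04

/-!
# D05a: images of solutions under the lifted diffeomorphism, local existence
-/

open Filter Topology Set Metric Module

namespace Pool.MP85
namespace GAtt
variable {d N : ℕ} {K : Type} [MetricSpace K] [CompactSpace K] (S : GAtt d N K)

theorem D05a_continuous_pt : Continuous S.pt := continuous_fst.comp continuous_subtype_val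
theorem D05a_continuous_dir : Continuous S.dir := continuous_snd.comp continuous_subtype_val

/-- general chain rule -/
theorem D05a_chain {g : K → EE N} {L : EE N →L[ℝ] EE N} {p : ℝ → K} {t : ℝ} {v : EE N}
    (hg : ∀ η > 0, ∃ ρ > 0, ∀ y, dist (p t) y < ρ →
      ‖g y - g (p t) - L (S.e y - S.e (p t))‖ ≤ η * dist (p t) y)
    (hp : ContinuousAt p t) (hd : HasDerivAt (fun s => S.e (p s)) v t) :
    HasDerivAt (fun s => g (p s)) (L v) t := by
  rw [hasDerivAt_iff_isLittleO]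
  have h1 : (fun s => g (p s) - g (p t) - L (S.e (p s) - S.e (p t))) =o[𝓝 t]
      (fun s => S.e (p s) - S.e (p t)) := by
    rw [Asymptotics.isLittleO_iff]
    intro η hη
    obtain ⟨ρ, hρ, h⟩ := hg η hη
    have h2 : ∀ᶠ s in 𝓝 t, dist (p t) (p s) < ρ := by
      have := Metric.tendsto_nhds.1 hp ρ hρ
      filter_upwards [this] with s hs
      rwa [dist_comm]
    filter_upwards [h2] with s hs
    refine (h _ hs).trans (le_of_eq ?_)
    rw [S.e_isom, dist_comm]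
  have h2 : (fun s => S.e (p s) - S.e (p t)) =O[𝓝 t] (fun s => s - t) := hd.isBigO_sub
  have h3 : (fun s => L (S.e (p s) - S.e (p t) - (s - t) • v)) =o[𝓝 t] (fun s => s - t) :=
    (L.isBigO_comp _ _).trans_isLittleO (hasDerivAt_iff_isLittleO.1 hd)
  refine ((h1.trans_isBigO h2).add h3).congr_left (fun s => ?_)
  simp only [map_sub, map_smul]
  abel

theorem D05a_chain_f {p : ℝ → K} {t : ℝ} {v : EE N} (hp : ContinuousAt p t)
    (hd : HasDerivAt (fun s => S.e (p s)) v t) :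
    HasDerivAt (fun s => S.e (S.f (p s))) (S.A (p t) v) t := by
  refine S.D05a_chain (g := fun y => S.e (S.f y)) (fun η hη => ?_) hp hd
  obtain ⟨ρ, hρ, h⟩ := S.diff η hη
  refine ⟨ρ, hρ, fun y hy => ?_⟩
  have := h (p t) y (p t) hy (by rwa [dist_self])
  rwa [dist_comm y] at this

theorem D05a_chain_symm {p : ℝ → K} {t : ℝ} {v : EE N} (hp : ContinuousAt p t)
    (hd : HasDerivAt (fun s => S.e (p s)) v t) :
    HasDerivAt (fun s => S.e (S.f.symm (p s))) (S.A' (S.f.symm (p t)) v) t := by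
  refine S.D05a_chain (g := fun y => S.e (S.f.symm y)) (fun η hη => ?_) hp hd
  obtain ⟨ρ, hρ, h⟩ := S.toESys.diff_symm η hη
  refine ⟨ρ, hρ, fun y hy => ?_⟩
  have := h (p t) y (p t) hy (by rwa [dist_self])
  rwa [dist_comm y] at this

theorem D05a_P_dir (x : S.X) : S.P (S.pt x) (S.dir x) = S.dir x := x.2.2.1.1

theorem D05a_norm_dir (x : S.X) : ‖S.dir x‖ = 1 := x.2.2.2

theorem D05a_A'A (x : S.X) : S.A' (S.pt x) (S.A (S.pt x) (S.dir x)) = S.dir x := by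
  have h := congrArg (fun T : EE N →L[ℝ] EE N => T (S.dir x)) (S.A'A (S.pt x))
  simp only [ContinuousLinearMap.comp_apply] at h
  rw [h, S.D05a_P_dir]

theorem D05a_m_pos (x : S.X) : 0 < ‖S.A (S.pt x) (S.dir x)‖ := by
  rw [norm_pos_iff]
  intro h0
  have h := S.D05a_A'A x
  rw [h0, map_zero] at h
  have h1 := S.D05a_norm_dir x
  rw [← h, norm_zero] at h1
  exact zero_ne_one h1

theorem D05a_m_cont : Continuous fun x : S.X => ‖S.A (S.pt x) (S.dir x)‖ :=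
  ((S.contA.comp S.D05a_continuous_pt).clm_apply S.D05a_continuous_dir).norm

variable {S} in
theorem Speed.D05a_pos (R : S.Speed) (x : S.X) : 0 < R.ρ (S.pt x) := (R.pos_iff _).2 x.2.1

variable {S} in
theorem Speed.D05a_cont (R : S.Speed) : Continuous R.ρ := by
  obtain ⟨c, hc⟩ := R.lip
  have : LipschitzWith (Real.toNNReal c) R.ρ := by
    refine LipschitzWith.of_dist_le_mul (fun x y => ?_)
    rw [Real.dist_eq]
    exact (hc x y).trans (mul_le_mul_of_nonneg_right (Real.le_coe_toNNReal c) dist_nonneg)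
  exact this.continuous

variable {S} in
theorem Speed.D05a_cont_pt (R : S.Speed) : Continuous fun x : S.X => R.ρ (S.pt x) :=
  R.D05a_cont.comp S.D05a_continuous_pt

/-- image of a solution under the lifted diffeomorphism, up to a time change, near a time `t0` -/
theorem sol_map (R : S.Speed) (D : S.XData) {γ : ℝ → S.X} {a b t0 : ℝ} (ht0 : t0 ∈ Ioo a b)
    (h : S.IsSol R γ (Ioo a b)) : ∃ δ > 0, ∃ δ' > 0, ∃ θ : ℝ → ℝ,
      Ioo (t0 - δ) (t0 + δ) ⊆ Ioo a b ∧ θ 0 = t0 ∧ StrictMonoOn θ (Ioo (-δ') δ') ∧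
      ContinuousOn θ (Ioo (-δ') δ') ∧ (∀ s ∈ Ioo (-δ') δ', θ s ∈ Ioo (t0 - δ) (t0 + δ)) ∧
      (∀ s ∈ Ioo (-δ') δ', ∃ v > 0, HasDerivAt θ v s) ∧
      S.IsSol R (fun s => D.F (γ (θ s))) (Ioo (-δ') δ') := by
  set G : S.X → ℝ := fun x => R.ρ (S.pt (D.F x)) / (R.ρ (S.pt x) * ‖S.A (S.pt x) (S.dir x)‖) with hG
  have hGc : Continuous G :=
    (R.D05a_cont_pt.comp D.F.continuous).div (R.D05a_cont_pt.mul S.D05a_m_cont)
      (fun x => (mul_pos (R.D05a_pos x) (S.D05a_m_pos x)).ne')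
  have hGp : ∀ x, 0 < G x := fun x =>
    div_pos (R.D05a_pos _) (mul_pos (R.D05a_pos x) (S.D05a_m_pos x))
  set δ := min (t0 - a) (b - t0) with hδ
  have hδ0 : 0 < δ := lt_min (by linarith [ht0.1]) (by linarith [ht0.2])
  have hsub : Ioo (t0 - δ) (t0 + δ) ⊆ Ioo a b := by
    intro s hs
    have h1 := min_le_left (t0 - a) (b - t0)
    have h2 := min_le_right (t0 - a) (b - t0)
    exact ⟨by linarith [hs.1], by linarith [hs.2]⟩
  have hmaps : ∀ s ∈ Ioo (-δ) δ, t0 + s ∈ Ioo a b := fun s hs =>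
    hsub ⟨by linarith [hs.1], by linarith [hs.2]⟩
  obtain ⟨δ', hδ', θ, hθc, hθ⟩ := scalar_ode (Y := PUnit.{1}) isCompact_univ hδ0
    (fun _ s => G (γ (t0 + s)))
    (by
      refine hGc.comp_continuousOn (h.1.comp (by fun_prop) ?_)
      rintro ⟨_, s⟩ hs
      exact hmaps s hs.2)
    (fun _ _ s _ => hGp _)
  have hθ' := hθ PUnit.unit (mem_univ _)
  have hder : ∀ s ∈ Ioo (-δ') δ', HasDerivAt (fun s => t0 + θ PUnit.unit s)
      (G (γ (t0 + θ PUnit.unit s))) s := fun s hs => (hθ'.2 s hs).2.const_add t0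
  have hcont : ContinuousOn (fun s => t0 + θ PUnit.unit s) (Ioo (-δ') δ') :=
    fun s hs => (hder s hs).continuousAt.continuousWithinAt
  have hmem : ∀ s ∈ Ioo (-δ') δ', t0 + θ PUnit.unit s ∈ Ioo a b := fun s hs =>
    hmaps _ (hθ'.2 s hs).1
  refine ⟨δ, hδ0, δ', hδ', fun s => t0 + θ PUnit.unit s, hsub, ?_, ?_, hcont, ?_, ?_, ?_, ?_⟩
  · simp only [hθ'.1, add_zero]
  · refine strictMonoOn_of_deriv_pos (convex_Ioo _ _) hcont (fun s hs => ?_)
    rw [interior_Ioo] at hs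
    rw [(hder s hs).deriv]
    exact hGp _
  · intro s hs
    have := (hθ'.2 s hs).1
    exact ⟨by simp only; linarith [this.1], by simp only; linarith [this.2]⟩
  · intro s hs
    exact ⟨_, hGp _, hder s hs⟩
  · exact D.F.continuous.comp_continuousOn (h.1.comp hcont hmem)
  · intro s hs
    set τ := t0 + θ PUnit.unit s with hτ
    have hτm : τ ∈ Ioo a b := hmem s hs
    have hca : ContinuousAt γ τ := h.1.continuousAt (Ioo_mem_nhds hτm.1 hτm.2)
    have hcp : ContinuousAt (fun t => S.pt (γ t)) τ :=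
      S.D05a_continuous_pt.continuousAt.comp hca
    have h1 := S.D05a_chain_f hcp (h.2 τ hτm)
    have h2 := HasDerivAt.scomp s h1 (hder s hs)
    have h3 : (fun s => S.e (S.pt (D.F (γ (t0 + θ PUnit.unit s))))) =
        (fun t => S.e (S.f (S.pt (γ t)))) ∘ (fun s => t0 + θ PUnit.unit s) := by
      funext u
      simp only [Function.comp_apply, D.pt_F]
    rw [h3]
    refine h2.congr_deriv ?_
    rw [map_smul, ← D.dir_F, smul_smul, smul_smul]
    congr 1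
    have e1 := (R.D05a_pos (γ τ)).ne'
    have e2 := (S.D05a_m_pos (γ τ)).ne'
    rw [hG]
    show R.ρ (S.pt (D.F (γ τ))) / (R.ρ (S.pt (γ τ)) * ‖(S.A (S.pt (γ τ))) (S.dir (γ τ))‖) *
      R.ρ (S.pt (γ τ)) * ‖(S.A (S.pt (γ τ))) (S.dir (γ τ))‖ = R.ρ (S.pt (D.F (γ τ)))
    field_simp

/-- one backward step -/
theorem D05a_step (R : S.Speed) (D : S.XData) (C : Set S.X) (hC : IsCompact C)
    (hex : ∃ δ > 0, ∃ ψ : ℝ → S.X → S.X,
      ContinuousOn (fun q : ℝ × S.X => ψ q.1 q.2) (Ioo (-δ) δ ×ˢ (D.F '' C)) ∧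
      ∀ x ∈ D.F '' C, ψ 0 x = x ∧ S.IsSol R (fun t => ψ t x) (Ioo (-δ) δ)) :
    ∃ δ > 0, ∃ ψ : ℝ → S.X → S.X,
      ContinuousOn (fun q : ℝ × S.X => ψ q.1 q.2) (Ioo (-δ) δ ×ˢ C) ∧
      ∀ x ∈ C, ψ 0 x = x ∧ S.IsSol R (fun t => ψ t x) (Ioo (-δ) δ) := by
  obtain ⟨δ, hδ, ψ, hψc, hψ⟩ := hex
  set G : S.X → ℝ := fun x => R.ρ (S.pt x) * ‖S.A (S.pt x) (S.dir x)‖ / R.ρ (S.pt (D.F x)) with hG
  have hGc : Continuous G :=
    (R.D05a_cont_pt.mul S.D05a_m_cont).div (R.D05a_cont_pt.comp D.F.continuous)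
      (fun x => (R.D05a_pos _).ne')
  have hGp : ∀ x, 0 < G x := fun x =>
    div_pos (mul_pos (R.D05a_pos x) (S.D05a_m_pos x)) (R.D05a_pos _)
  -- the pulled back curves
  set η : S.X → ℝ → S.X := fun x t => D.F.symm (ψ t (D.F x)) with hη
  have hηc : ContinuousOn (fun q : S.X × ℝ => η q.1 q.2) (C ×ˢ Ioo (-δ) δ) := by
    refine D.F.symm.continuous.comp_continuousOn ?_
    have hm : MapsTo (fun q : S.X × ℝ => (q.2, D.F q.1)) (C ×ˢ Ioo (-δ) δ)
        (Ioo (-δ) δ ×ˢ (D.F '' C)) := by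
      rintro ⟨x, t⟩ ⟨hx, ht⟩
      exact ⟨ht, mem_image_of_mem _ hx⟩
    exact hψc.comp (by fun_prop) hm
  obtain ⟨δ', hδ', θ, hθc, hθ⟩ := scalar_ode hC hδ (fun x s => G (η x s))
    (hGc.comp_continuousOn hηc) (fun _ _ s _ => hGp _)
  have hcomb : ContinuousOn (fun q : ℝ × S.X => η q.2 (θ q.2 q.1)) (Ioo (-δ') δ' ×ˢ C) := by
    have hm : MapsTo (fun q : ℝ × S.X => (q.2, θ q.2 q.1)) (Ioo (-δ') δ' ×ˢ C)
        (C ×ˢ Ioo (-δ) δ) := by
      rintro ⟨t, x⟩ ⟨ht, hx⟩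
      exact ⟨hx, ((hθ x hx).2 t ht).1⟩
    refine hηc.comp (ContinuousOn.prodMk continuousOn_snd ?_) hm
    have hm2 : MapsTo (fun q : ℝ × S.X => (q.2, q.1)) (Ioo (-δ') δ' ×ˢ C)
        (C ×ˢ Ioo (-δ') δ') := by
      rintro ⟨t, x⟩ ⟨ht, hx⟩
      exact ⟨hx, ht⟩
    exact hθc.comp (by fun_prop) hm2
  refine ⟨δ', hδ', fun t x => η x (θ x t), hcomb, fun x hx => ⟨?_, ?_, ?_⟩⟩
  · simp only [(hθ x hx).1, hη, (hψ _ (mem_image_of_mem _ hx)).1, Homeomorph.symm_apply_apply]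
  · refine hcomb.comp (f := fun t : ℝ => (t, x)) (by fun_prop) (fun t ht => ⟨ht, hx⟩)
  · intro s hs
    obtain ⟨hθm, hθd⟩ := (hθ x hx).2 s hs
    obtain ⟨hsc, hsd⟩ := (hψ _ (mem_image_of_mem _ hx)).2
    set τ := θ x s with hτ
    have hca : ContinuousAt (fun t => ψ t (D.F x)) τ :=
      hsc.continuousAt (Ioo_mem_nhds hθm.1 hθm.2)
    have hcp : ContinuousAt (fun t => S.pt (ψ t (D.F x))) τ :=
      S.D05a_continuous_pt.continuousAt.comp hca
    have h1 := S.D05a_chain_symm hcp (hsd τ hθm)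
    have h2 := HasDerivAt.scomp s h1 hθd
    have hpt : ∀ y : S.X, S.pt (D.F.symm y) = S.f.symm (S.pt y) := by
      intro y
      rw [Homeomorph.eq_symm_apply, ← D.pt_F, Homeomorph.apply_symm_apply]
    have h3 : (fun s => S.e (S.pt (η x (θ x s)))) =
        (fun t => S.e (S.f.symm (S.pt (ψ t (D.F x))))) ∘ (fun s => θ x s) := by
      funext u
      simp only [Function.comp_apply, hη, hpt]
    show HasDerivAt (fun s => S.e (S.pt (η x (θ x s)))) _ s
    rw [h3]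
    refine h2.congr_deriv ?_
    set y := η x τ with hy
    have hFy : ψ τ (D.F x) = D.F y := by
      rw [hy, hη]; simp only [Homeomorph.apply_symm_apply]
    have hpy : S.f.symm (S.pt (ψ τ (D.F x))) = S.pt y := by rw [hy, hη]; simp only [hpt]
    rw [hpy]
    show G y • (S.A' (S.pt y)) (R.ρ (S.pt (ψ τ (D.F x))) • S.dir (ψ τ (D.F x))) =
      R.ρ (S.pt y) • S.dir y
    rw [hFy]
    have hm := (S.D05a_m_pos y).ne'
    have hdF : S.dir (D.F y) = ‖S.A (S.pt y) (S.dir y)‖⁻¹ • S.A (S.pt y) (S.dir y) := by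
      have h5 := D.dir_F y
      rw [eq_inv_smul_iff₀ hm]
      exact h5
    rw [hdF, map_smul, map_smul, S.D05a_A'A, smul_smul, smul_smul]
    congr 1
    have e1 := (R.D05a_pos (D.F y)).ne'
    rw [hG]
    simp only
    field_simp

theorem D05a_pt_fw (D : S.XData) (n : ℕ) (x : S.X) : S.pt (fw D.F n x) = fw S.f n (S.pt x) := by
  induction n generalizing x with
  | zero => rfl
  | succ n ih => rw [fw_succ, fw_succ, ih, D.pt_F]

/-- a neighbourhood of `L` contains a uniform neighbourhood -/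
theorem D05a_nhd {V : Set K} (hV : IsOpen V) (hL : S.L ⊆ V) : ∃ ε > 0, ∀ x, infDist x S.L < ε →
    x ∈ V := by
  obtain ⟨ε, hε, h⟩ := S.L_cpt.exists_thickening_subset_open hV hL
  refine ⟨ε, hε, fun x hx => h ?_⟩
  rw [Metric.mem_thickening_iff_infDist_lt S.L_ne]
  exact hx

theorem local_ex (R : S.Speed) (C : Set S.X) (hC : IsCompact C) :
    ∃ δ > 0, ∃ ψ : ℝ → S.X → S.X,
    ContinuousOn (fun q : ℝ × S.X => ψ q.1 q.2) (Ioo (-δ) δ ×ˢ C) ∧
    ∀ x ∈ C, ψ 0 x = x ∧ S.IsSol R (fun t => ψ t x) (Ioo (-δ) δ) := by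
  obtain ⟨D⟩ := S.exists_xdata
  obtain ⟨V, hV, hLV, hVU, hloc⟩ := S.local_flow R
  obtain ⟨ε, hε, hεV⟩ := S.D05a_nhd hV hLV
  have hCB : S.pt '' C ⊆ {x | Tendsto (fun n => infDist (fw S.f n x) S.L) atTop (𝓝 0)} := by
    rintro _ ⟨x, _, rfl⟩
    exact x.2.1
  obtain ⟨n0, hn0⟩ := S.attrK _ hCB (hC.image S.D05a_continuous_pt) ε hε
  have key : ∀ (n : ℕ) (C : Set S.X), IsCompact C → (∀ x ∈ C, fw S.f n (S.pt x) ∈ V) →
      ∃ δ > 0, ∃ ψ : ℝ → S.X → S.X,
      ContinuousOn (fun q : ℝ × S.X => ψ q.1 q.2) (Ioo (-δ) δ ×ˢ C) ∧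
      ∀ x ∈ C, ψ 0 x = x ∧ S.IsSol R (fun t => ψ t x) (Ioo (-δ) δ) := by
    intro n
    induction n with
    | zero =>
      intro C hC h
      obtain ⟨δ, hδ, ψ, hψc, hψ⟩ := hloc C hC h
      exact ⟨δ, hδ, ψ, hψc, fun x hx => ⟨(hψ x hx).1, (hψ x hx).2.1⟩⟩
    | succ n ih =>
      intro C hC h
      refine S.D05a_step R D C hC (ih (D.F '' C) (hC.image D.F.continuous) ?_)
      rintro _ ⟨x, hx, rfl⟩
      rw [D.pt_F, ← fw_succ]
      exact h x hx
  exact key n0 C hC (fun x hx => hεV _ (hn0 n0 le_rfl _ (mem_image_of_mem _ hx)))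

end GAtt
end Pool.MP85
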