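import Pool.Agent.Lib.MP_85e637_an.D02a
import Pool.Agent.Lib.MP_85e637_an.D04
import Pool.Agent.Lib.MP_85e637_an.D05a

/-!
# D05b: uniqueness of solutions of the stable flow equation on the whole basin
-/

open Filter Topology Set Metric Module

namespace Pool.MP85
namespace GAtt
variable {d N : ℕ} {K : Type} [MetricSpace K] [CompactSpace K] (S : GAtt d N K)

variable {S} in
theorem D05b_mono {R : S.Speed} {γ : ℝ → S.X} {I J : Set ℝ} (h : S.IsSol R γ I) (hJ : J ⊆ I) :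
    S.IsSol R γ J := ⟨h.1.mono hJ, fun t ht => h.2 t (hJ ht)⟩

/-- a strictly monotone continuous function covers a neighbourhood -/
theorem D05b_cover {θ : ℝ → ℝ} {r : ℝ} (hr : 0 < r) (hmono : StrictMonoOn θ (Ioo (-r) r))
    (hcont : ContinuousOn θ (Ioo (-r) r)) {P : ℝ → Prop} (hP : ∀ᶠ s in 𝓝 (0 : ℝ), P (θ s)) :
    ∀ᶠ t in 𝓝 (θ 0), P t := by
  obtain ⟨ε, hε, h⟩ := Metric.eventually_nhds_iff.1 hP
  set q := min r ε / 2 with hq
  have hm : 0 < min r ε := lt_min hr hε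
  have hq0 : 0 < q := by positivity
  have hqr : q < r := by have := min_le_left r ε; linarith
  have hqε : q < ε := by have := min_le_right r ε; linarith
  have m1 : (-q) ∈ Ioo (-r) r := ⟨by linarith, by linarith⟩
  have m2 : q ∈ Ioo (-r) r := ⟨by linarith, hqr⟩
  have m0 : (0 : ℝ) ∈ Ioo (-r) r := ⟨by linarith, hr⟩
  have h1 : θ (-q) < θ 0 := hmono m1 m0 (by linarith)
  have h2 : θ 0 < θ q := hmono m0 m2 hq0
  filter_upwards [Ioo_mem_nhds h1 h2] with t ht
  have hsub : Icc (-q) q ⊆ Ioo (-r) r := fun s hs =>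
    ⟨by linarith [hs.1], by linarith [hs.2]⟩
  obtain ⟨s, hs, rfl⟩ := intermediate_value_Icc (by linarith : -q ≤ q) (hcont.mono hsub)
    (Ioo_subset_Icc_self ht)
  apply h
  rw [Real.dist_eq, sub_zero, abs_lt]
  exact ⟨by linarith [hs.1], by linarith [hs.2]⟩

/-- local uniqueness at points which enter `V` after `n` steps -/
theorem D05b_local (R : S.Speed) (D : S.XData) {V : Set K} (hV : IsOpen V)
    (huniq : ∀ (γ γ' : ℝ → S.X) (a b t0 : ℝ), t0 ∈ Ioo a b → S.IsSol R γ (Ioo a b) →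
      S.IsSol R γ' (Ioo a b) → (∀ t ∈ Ioo a b, S.pt (γ t) ∈ V ∧ S.pt (γ' t) ∈ V) →
      γ t0 = γ' t0 → EqOn γ γ' (Ioo a b)) (n : ℕ) : ∀ (γ γ' : ℝ → S.X) (a b t0 : ℝ),
      t0 ∈ Ioo a b → S.IsSol R γ (Ioo a b) → S.IsSol R γ' (Ioo a b) → γ t0 = γ' t0 →
      fw S.f n (S.pt (γ t0)) ∈ V → ∀ᶠ t in 𝓝 t0, γ t = γ' t := by
  have hpt : Continuous S.pt := continuous_fst.comp continuous_subtype_val
  induction n with
  | zero =>
    intro γ γ' a b t0 ht0 h h' h0 hn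
    have hc : ContinuousAt γ t0 := h.1.continuousAt (Ioo_mem_nhds ht0.1 ht0.2)
    have hc' : ContinuousAt γ' t0 := h'.1.continuousAt (Ioo_mem_nhds ht0.1 ht0.2)
    have hn' : S.pt (γ t0) ∈ V := hn
    have e1 : ∀ᶠ t in 𝓝 t0, S.pt (γ t) ∈ V :=
      (hpt.continuousAt.comp hc) (hV.mem_nhds hn')
    have e2 : ∀ᶠ t in 𝓝 t0, S.pt (γ' t) ∈ V :=
      (hpt.continuousAt.comp hc') (hV.mem_nhds (by show S.pt (γ' t0) ∈ V; rwa [← h0]))
    have e3 : ∀ᶠ t in 𝓝 t0, t ∈ Ioo a b := Ioo_mem_nhds ht0.1 ht0.2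
    obtain ⟨ε, hε, hball⟩ := Metric.eventually_nhds_iff.1 (e1.and (e2.and e3))
    have hsub : ∀ t ∈ Ioo (t0 - ε) (t0 + ε), dist t t0 < ε := by
      intro t ht
      rw [Real.dist_eq, abs_lt]
      exact ⟨by linarith [ht.1], by linarith [ht.2]⟩
    have hI : Ioo (t0 - ε) (t0 + ε) ⊆ Ioo a b := fun t ht => (hball (hsub t ht)).2.2
    have hmem : t0 ∈ Ioo (t0 - ε) (t0 + ε) := ⟨by linarith, by linarith⟩
    have := huniq γ γ' (t0 - ε) (t0 + ε) t0 hmem (D05b_mono h hI) (D05b_mono h' hI)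
      (fun t ht => ⟨(hball (hsub t ht)).1, (hball (hsub t ht)).2.1⟩) h0
    filter_upwards [Ioo_mem_nhds hmem.1 hmem.2] with t ht
    exact this ht
  | succ n ih =>
    intro γ γ' a b t0 ht0 h h' h0 hn
    obtain ⟨δ, hδ, r, hr, θ, hsub, hθ0, hθm, hθc, hθI, hθd, hθs⟩ := S.sol_map R D ht0 h
    obtain ⟨δ', hδ', r', hr', θ', hsub', hθ0', hθm', hθc', hθI', hθd', hθs'⟩ :=
      S.sol_map R D ht0 h'
    set q := min r r' with hq
    have hq0 : 0 < q := lt_min hr hr'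
    have hqr : Ioo (-q) q ⊆ Ioo (-r) r := fun s hs =>
      ⟨by have := min_le_left r r'; linarith [hs.1], by have := min_le_left r r'; linarith [hs.2]⟩
    have hqr' : Ioo (-q) q ⊆ Ioo (-r') r' := fun s hs =>
      ⟨by have := min_le_right r r'; linarith [hs.1], by have := min_le_right r r'; linarith [hs.2]⟩
    have m0 : (0 : ℝ) ∈ Ioo (-q) q := ⟨by linarith, hq0⟩
    -- equality after one step
    have key : ∀ᶠ s in 𝓝 (0 : ℝ), D.F (γ (θ s)) = D.F (γ' (θ' s)) := by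
      refine ih (fun s => D.F (γ (θ s))) (fun s => D.F (γ' (θ' s))) (-q) q 0 m0
        (D05b_mono hθs hqr) (D05b_mono hθs' hqr') ?_ ?_
      · simp only [hθ0, hθ0', h0]
      · simp only [hθ0, D.pt_F]
        rw [← fw_succ]
        exact hn
    have key2 : ∀ᶠ s in 𝓝 (0 : ℝ), γ (θ s) = γ' (θ' s) := by
      filter_upwards [key] with s hs
      exact D.F.injective hs
    have key3 : ∀ᶠ s in 𝓝 (0 : ℝ), (∀ᶠ u in 𝓝 s, γ (θ u) = γ' (θ' u)) ∧ s ∈ Ioo (-q) q :=
      (eventually_eventually_nhds.2 key2).and (Ioo_mem_nhds m0.1 m0.2)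
    -- the derivatives of `θ` and `θ'` agree near `0`
    obtain ⟨ε, hε, hball⟩ := Metric.eventually_nhds_iff.1 key3
    have hdist : ∀ s ∈ Ioo (-ε) ε, dist s (0 : ℝ) < ε := by
      intro s hs
      rw [Real.dist_eq, sub_zero, abs_lt]
      exact hs
    have hder : ∀ s ∈ Ioo (-ε) ε, HasDerivAt (fun s => θ s - θ' s) 0 s := by
      intro s hs
      obtain ⟨hev, hsq⟩ := hball (hdist s hs)
      obtain ⟨v, hv, hvd⟩ := hθd s (hqr hsq)
      obtain ⟨w, hw, hwd⟩ := hθd' s (hqr' hsq)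
      have hm1 : θ s ∈ Ioo a b := hsub (hθI s (hqr hsq))
      have hm2 : θ' s ∈ Ioo a b := hsub' (hθI' s (hqr' hsq))
      have d1 : HasDerivAt (fun u => S.e (S.pt (γ (θ u))))
          (v • R.ρ (S.pt (γ (θ s))) • S.dir (γ (θ s))) s :=
        HasDerivAt.scomp s (h.2 _ hm1) hvd
      have d2 : HasDerivAt (fun u => S.e (S.pt (γ' (θ' u))))
          (w • R.ρ (S.pt (γ' (θ' s))) • S.dir (γ' (θ' s))) s :=
        HasDerivAt.scomp s (h'.2 _ hm2) hwd
      have d3 : HasDerivAt (fun u => S.e (S.pt (γ' (θ' u))))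
          (v • R.ρ (S.pt (γ (θ s))) • S.dir (γ (θ s))) s := by
        refine d1.congr_of_eventuallyEq ?_
        filter_upwards [hev] with u hu
        rw [hu]
      have h4 := d3.unique d2
      have h5 : γ (θ s) = γ' (θ' s) := hev.self_of_nhds
      rw [← h5] at h4
      have hρ : 0 < R.ρ (S.pt (γ (θ s))) := (R.pos_iff _).2 (γ (θ s)).2.1
      have hdir : ‖S.dir (γ (θ s))‖ = 1 := (γ (θ s)).2.2.2
      have h6 : v = w := by
        have h7 := congrArg norm h4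
        rw [norm_smul, norm_smul, norm_smul, norm_smul, hdir, mul_one, Real.norm_of_nonneg hv.le,
          Real.norm_of_nonneg hw.le, Real.norm_of_nonneg hρ.le] at h7
        exact mul_right_cancel₀ hρ.ne' h7
      rw [← h6] at hwd
      exact (hvd.fun_sub hwd).congr_deriv (sub_self v)
    have hconst : ∀ s ∈ Ioo (-ε) ε, θ s = θ' s := by
      intro s hs
      have h0m : (0 : ℝ) ∈ Ioo (-ε) ε := ⟨by linarith, hε⟩
      have := (convex_Ioo (-ε) ε).is_const_of_fderivWithin_eq_zero (𝕜 := ℝ)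
        (f := fun s => θ s - θ' s)
        (fun u hu => (hder u hu).differentiableAt.differentiableWithinAt)
        (fun u hu => by
          rw [fderivWithin_of_isOpen isOpen_Ioo hu]
          have := (hder u hu).hasFDerivAt.fderiv
          rw [this]
          ext
          simp) hs h0m
      simp only [hθ0, hθ0', sub_self] at this
      linarith
    have key4 : ∀ᶠ s in 𝓝 (0 : ℝ), γ (θ s) = γ' (θ s) := by
      have hIe : Ioo (-ε) ε ∈ 𝓝 (0 : ℝ) := Ioo_mem_nhds (by linarith) hε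
      filter_upwards [key2, hIe] with s hs hs'
      rw [hs, hconst s hs']
    have := D05b_cover hr hθm hθc (P := fun t => γ t = γ' t) key4
    rwa [hθ0] at this

theorem sol_uniq (R : S.Speed) {γ γ' : ℝ → S.X} {a b t0 : ℝ} (ht0 : t0 ∈ Ioo a b)
    (h : S.IsSol R γ (Ioo a b)) (h' : S.IsSol R γ' (Ioo a b)) (h0 : γ t0 = γ' t0) :
    EqOn γ γ' (Ioo a b) := by
  obtain ⟨D⟩ := S.exists_xdata
  obtain ⟨V, hV, hLV, hVU, huniq⟩ := S.uniq_near R
  obtain ⟨ε, hε, hεV⟩ : ∃ ε > 0, ∀ x, infDist x S.L < ε → x ∈ V := by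
    obtain ⟨ε, hε, h⟩ := S.L_cpt.exists_thickening_subset_open hV hLV
    refine ⟨ε, hε, fun x hx => h ?_⟩
    rw [Metric.mem_thickening_iff_infDist_lt S.L_ne]
    exact hx
  have hloc : ∀ t ∈ Ioo a b, γ t = γ' t → ∀ᶠ s in 𝓝 t, γ s = γ' s := by
    intro t ht he
    have hB : Tendsto (fun n => infDist (fw S.f n (S.pt (γ t))) S.L) atTop (𝓝 0) := (γ t).2.1
    obtain ⟨n, hn⟩ := (hB.eventually (gt_mem_nhds hε)).exists
    exact S.D05b_local R D hV huniq n γ γ' a b t ht h h' he (hεV _ hn)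
  set u : Set ℝ := {t | t ∈ Ioo a b ∧ ∀ᶠ s in 𝓝 t, γ s = γ' s} with hu
  have huo : IsOpen u := by
    rw [isOpen_iff_mem_nhds]
    rintro t ⟨ht, hev⟩
    filter_upwards [Ioo_mem_nhds ht.1 ht.2, eventually_eventually_nhds.2 hev] with s hs hs'
    exact ⟨hs, hs'⟩
  have hsub : Ioo a b ⊆ u := by
    refine isPreconnected_Ioo.subset_of_closure_inter_subset huo ⟨t0, ht0, ht0, hloc t0 ht0 h0⟩ ?_
    rintro t ⟨htc, ht⟩
    refine ⟨ht, hloc t ht ?_⟩
    obtain ⟨x, hx, hxt⟩ := mem_closure_iff_seq_limit.1 htc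
    have hc : ContinuousAt γ t := h.1.continuousAt (Ioo_mem_nhds ht.1 ht.2)
    have hc' : ContinuousAt γ' t := h'.1.continuousAt (Ioo_mem_nhds ht.1 ht.2)
    have l1 : Tendsto (fun n => γ (x n)) atTop (𝓝 (γ t)) := hc.tendsto.comp hxt
    have l2 : Tendsto (fun n => γ' (x n)) atTop (𝓝 (γ' t)) := hc'.tendsto.comp hxt
    have l3 : (fun n => γ (x n)) = fun n => γ' (x n) := by
      funext n
      exact (hx n).2.self_of_nhds
    rw [l3] at l1
    exact tendsto_nhds_unique l1 l2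
  intro t ht
  exact (hsub ht).2.self_of_nhds

end GAtt
end Pool.MP85
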