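import Pool.Agent.Lib.MP_85e637_an.AbsC2
import Pool.Agent.Lib.MP_85e637_an.D02a
import Pool.Agent.Lib.MP_85e637_an.D02b

/-!
# D06a: solutions starting in a compact set stay in a compact set on bounded time intervals
-/

open Filter Topology Set Metric Module

namespace Pool.MP85

/-- Gronwall estimate for the speed along a solution, forward direction -/
theorem speed_fwd {N : ℕ} {E : ℝ → EE N} {u : ℝ → ℝ} {a b c : ℝ} (hc : 0 ≤ c)
    (hE : ∀ t ∈ Ioo a b, ∃ v, HasDerivAt E v t ∧ ‖v‖ ≤ u t)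
    (hu : ∀ s ∈ Ioo a b, ∀ t ∈ Ioo a b, |u s - u t| ≤ c * ‖E s - E t‖) {s t : ℝ}
    (ht : t ∈ Ioo a b) (hs : s ∈ Ioo a b) (hts : t ≤ s) :
    u s ≤ u t * Real.exp (c * (s - t)) := by
  have hsub : Icc t s ⊆ Ioo a b := fun x hx => ⟨lt_of_lt_of_le ht.1 hx.1, lt_of_le_of_lt hx.2 hs.2⟩
  have hcont : ContinuousOn u (Icc t s) := by
    intro x hx
    have hxab := hsub hx
    obtain ⟨v, hv, -⟩ := hE x hxab
    have h1 : Tendsto (fun z => c * ‖E z - E x‖) (𝓝[Icc t s] x) (𝓝 0) := by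
      have h2 : Tendsto (fun z => E z - E x) (𝓝 x) (𝓝 (E x - E x)) :=
        hv.continuousAt.tendsto.sub tendsto_const_nhds
      rw [sub_self] at h2
      have h3 := (h2.norm.const_mul c).mono_left (nhdsWithin_le_nhds (s := Icc t s))
      simpa using h3
    rw [ContinuousWithinAt, tendsto_iff_dist_tendsto_zero]
    refine squeeze_zero' (Eventually.of_forall fun _ => dist_nonneg) ?_ h1
    filter_upwards [self_mem_nhdsWithin] with z hz
    rw [Real.dist_eq]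
    exact hu z (hsub hz) x hxab
  have key := le_gronwallBound_of_liminf_deriv_right_le (f := u) (f' := fun x => c * u x)
    (δ := u t) (K := c) (ε := 0) (a := t) (b := s) hcont ?_ le_rfl
    (fun x _ => by rw [add_zero]) s (right_mem_Icc.2 hts)
  · rwa [gronwallBound_ε0] at key
  · intro x hx r hr
    have hxab : x ∈ Ioo a b := hsub (Ico_subset_Icc_self hx)
    obtain ⟨v, hv, hvu⟩ := hE x hxab
    have h1 := (hasDerivAt_iff_tendsto_slope.1 hv).norm.const_mul c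
    have h2 : c * ‖v‖ < r := lt_of_le_of_lt (mul_le_mul_of_nonneg_left hvu hc) hr
    have h3 : ∀ᶠ z in 𝓝[≠] x, c * ‖slope E x z‖ < r := h1.eventually (gt_mem_nhds h2)
    have h4 : ∀ᶠ z in 𝓝[>] x, c * ‖slope E x z‖ < r :=
      h3.filter_mono (nhdsWithin_mono _ fun z hz => ne_of_gt hz)
    have h5 : ∀ᶠ z in 𝓝[>] x, z ∈ Ioo a b :=
      (Ioo_mem_nhds hxab.1 hxab.2 : Ioo a b ∈ 𝓝 x) |> fun h => nhdsWithin_le_nhds h
    refine Eventually.frequently ?_
    filter_upwards [h4, h5, self_mem_nhdsWithin] with z hz1 hz2 hz3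
    have hz3' : 0 < z - x := sub_pos.2 hz3
    refine lt_of_le_of_lt ?_ hz1
    rw [slope_def_module, norm_smul, norm_inv, Real.norm_of_nonneg hz3'.le]
    have h6 := (le_abs_self _).trans (hu z hz2 x hxab)
    calc (z - x)⁻¹ * (u z - u x) ≤ (z - x)⁻¹ * (c * ‖E z - E x‖) :=
          mul_le_mul_of_nonneg_left h6 (inv_nonneg.2 hz3'.le)
      _ = c * ((z - x)⁻¹ * ‖E z - E x‖) := by ring

/-- Gronwall estimate for the speed along a solution -/
theorem speed_gronwall {N : ℕ} {E : ℝ → EE N} {u : ℝ → ℝ} {a b c : ℝ} (hc : 0 ≤ c)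
    (hE : ∀ t ∈ Ioo a b, ∃ v, HasDerivAt E v t ∧ ‖v‖ ≤ u t)
    (hu : ∀ s ∈ Ioo a b, ∀ t ∈ Ioo a b, |u s - u t| ≤ c * ‖E s - E t‖) {s t : ℝ}
    (ht : t ∈ Ioo a b) (hs : s ∈ Ioo a b) :
    u s ≤ u t * Real.exp (c * |s - t|) := by
  rcases le_total t s with h | h
  · rw [abs_of_nonneg (sub_nonneg.2 h)]
    exact speed_fwd hc hE hu ht hs h
  · have key := speed_fwd (E := fun τ => E (-τ)) (u := fun τ => u (-τ)) (a := -b) (b := -a) hc
      ?_ ?_ (t := -t) (s := -s) ⟨neg_lt_neg ht.2, neg_lt_neg ht.1⟩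
      ⟨neg_lt_neg hs.2, neg_lt_neg hs.1⟩ (neg_le_neg h)
    · simp only [neg_neg] at key
      rw [abs_of_nonpos (sub_nonpos.2 h)]
      have e : -s - -t = -(s - t) := by ring
      rwa [e] at key
    · intro τ hτ
      have hτ' : -τ ∈ Ioo a b := ⟨by linarith [hτ.2], by linarith [hτ.1]⟩
      obtain ⟨v, hv, hvu⟩ := hE (-τ) hτ'
      refine ⟨-v, ?_, by rwa [norm_neg]⟩
      have h1 : HasDerivAt (E ∘ fun x : ℝ => -x) ((-1 : ℝ) • v) τ :=
        HasDerivAt.scomp τ hv (hasDerivAt_neg τ)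
      rw [neg_one_smul] at h1
      exact h1
    · intro s' hs' t' ht'
      exact hu (-s') ⟨by linarith [hs'.2], by linarith [hs'.1]⟩ (-t')
        ⟨by linarith [ht'.2], by linarith [ht'.1]⟩

namespace GAtt
variable {d N : ℕ} {K : Type} [MetricSpace K] [CompactSpace K] (S : GAtt d N K)

/-- along solutions the speed decays at most exponentially, so on bounded time intervals solutions
starting in a compact set stay in a compact set -/
theorem sol_compact (R : S.Speed) (C : Set S.X) (hC : IsCompact C) (T : ℝ) : ∃ C' : Set S.X,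
    IsCompact C' ∧ ∀ (γ : ℝ → S.X) (a b : ℝ), -T ≤ a → b ≤ T → a < 0 → 0 < b →
      S.IsSol R γ (Ioo a b) → γ 0 ∈ C → ∀ t ∈ Ioo a b, γ t ∈ C' := by
  rcases C.eq_empty_or_nonempty with rfl | hne
  · exact ⟨∅, isCompact_empty, fun γ a b _ _ _ _ _ h0 => absurd h0 (by simp)⟩
  obtain ⟨c0, hc0⟩ := R.lip
  set c : ℝ := |c0| with hc
  have hc_nonneg : 0 ≤ c := abs_nonneg _
  have hlip : ∀ x y, |R.ρ x - R.ρ y| ≤ c * dist x y := fun x y =>
    (hc0 x y).trans (mul_le_mul_of_nonneg_right (le_abs_self c0) dist_nonneg)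
  have hρc : Continuous R.ρ := by
    have : LipschitzWith (Real.toNNReal c) R.ρ := by
      refine LipschitzWith.of_dist_le_mul fun x y => ?_
      rw [Real.dist_eq, Real.coe_toNNReal c hc_nonneg]
      exact hlip x y
    exact this.continuous
  obtain ⟨x0, hx0, hmin⟩ := hC.exists_isMinOn hne
    ((hρc.comp S.continuous_pt).continuousOn (s := C))
  set m : ℝ := R.ρ (S.pt x0) with hm
  have hptB : ∀ x : S.X, S.pt x ∈ S.B := fun x => x.2.1
  have hm0 : 0 < m := (R.pos_iff _).2 (hptB x0)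
  set δ : ℝ := m * Real.exp (-(c * T)) with hδ
  have hδ0 : 0 < δ := mul_pos hm0 (Real.exp_pos _)
  refine ⟨S.pt ⁻¹' {x | δ ≤ R.ρ x}, ?_, ?_⟩
  · refine S.proper_pt _ (fun x hx => ?_) ?_
    · exact (R.pos_iff x).1 (lt_of_lt_of_le hδ0 hx)
    · exact (isClosed_le continuous_const hρc).isCompact
  · intro γ a b haT hbT ha hb hsol h0 t ht
    change δ ≤ R.ρ (S.pt (γ t))
    have h0I : (0 : ℝ) ∈ Ioo a b := ⟨ha, hb⟩
    have hdir : ∀ x : S.X, ‖S.dir x‖ = 1 := fun x => x.2.2.2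
    have hE : ∀ τ ∈ Ioo a b, ∃ v, HasDerivAt (fun s => S.e (S.pt (γ s))) v τ ∧
        ‖v‖ ≤ R.ρ (S.pt (γ τ)) := by
      intro τ hτ
      refine ⟨_, hsol.2 τ hτ, ?_⟩
      rw [norm_smul, hdir, mul_one, Real.norm_of_nonneg (R.nonneg _)]
    have hu : ∀ s ∈ Ioo a b, ∀ τ ∈ Ioo a b, |R.ρ (S.pt (γ s)) - R.ρ (S.pt (γ τ))| ≤
        c * ‖S.e (S.pt (γ s)) - S.e (S.pt (γ τ))‖ := by
      intro s _ τ _
      rw [S.e_isom]
      exact hlip _ _
    have key := speed_gronwall (E := fun s => S.e (S.pt (γ s))) (u := fun s => R.ρ (S.pt (γ s)))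
      hc_nonneg hE hu ht h0I
    simp only [zero_sub, abs_neg] at key
    have hm1 : m ≤ R.ρ (S.pt (γ 0)) := hmin h0
    have htT : |t| ≤ T := abs_le.2 ⟨by linarith [ht.1], by linarith [ht.2]⟩
    have hexp : Real.exp (c * |t|) ≤ Real.exp (c * T) :=
      Real.exp_le_exp.2 (mul_le_mul_of_nonneg_left htT hc_nonneg)
    have h1 : m ≤ R.ρ (S.pt (γ t)) * Real.exp (c * T) :=
      hm1.trans (key.trans (mul_le_mul_of_nonneg_left hexp (R.nonneg _)))
    rw [hδ, Real.exp_neg]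
    rw [← div_eq_mul_inv, div_le_iff₀ (Real.exp_pos _)]
    exact h1

end GAtt
end Pool.MP85
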