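import Pool.Agent.Lib.MP_85e637_an.AbsC2
import Pool.Agent.Lib.MP_85e637_an.D02a
import Pool.Agent.Lib.MP_85e637_an.D02b
import Pool.Agent.Lib.MP_85e637_an.D05a
import Pool.Agent.Lib.MP_85e637_an.D05b
import Pool.Agent.Lib.MP_85e637_an.D06a

/-!
# D06b: the global stable flow
-/

open Filter Topology Set Metric Module

namespace Pool.MP85

/-! ## Abstract existence of global flows -/

section AbsFlow

variable {X : Type} [TopologicalSpace X]


omit [TopologicalSpace X] in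
theorem D06b_flow_glue {SolAt : (ℝ → X) → ℝ → Prop}
    (h1 : ∀ (γ γ' : ℝ → X) (t : ℝ), γ =ᶠ[𝓝 t] γ' → SolAt γ t → SolAt γ' t)
    (h4 : ∀ (γ γ' : ℝ → X) (a b t0 : ℝ), t0 ∈ Ioo a b → (∀ t ∈ Ioo a b, SolAt γ t) →
      (∀ t ∈ Ioo a b, SolAt γ' t) → γ t0 = γ' t0 → EqOn γ γ' (Ioo a b))
    {γ γ' : ℝ → X} {a b c d s : ℝ} (hs : s ∈ Ioo a b) (hs' : s ∈ Ioo c d)
    (hγ : ∀ t ∈ Ioo a b, SolAt γ t) (hγ' : ∀ t ∈ Ioo c d, SolAt γ' t) (heq : γ s = γ' s) :
    ∃ Γ : ℝ → X, EqOn Γ γ (Ioo a b) ∧ EqOn Γ γ' (Ioo c d) ∧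
      ∀ t ∈ Ioo (min a c) (max b d), SolAt Γ t := by
  classical
  have hov : EqOn γ γ' (Ioo (max a c) (min b d)) := by
    refine h4 γ γ' _ _ s ⟨max_lt hs.1 hs'.1, lt_min hs.2 hs'.2⟩ (fun t ht => hγ t ?_)
      (fun t ht => hγ' t ?_) heq
    · exact ⟨(le_max_left _ _).trans_lt ht.1, ht.2.trans_le (min_le_left _ _)⟩
    · exact ⟨(le_max_right _ _).trans_lt ht.1, ht.2.trans_le (min_le_right _ _)⟩
  set Γ : ℝ → X := fun t => if t ∈ Ioo a b then γ t else γ' t with hΓ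
  have e1 : EqOn Γ γ (Ioo a b) := fun t ht => by simp only [hΓ, if_pos ht]
  have e2 : EqOn Γ γ' (Ioo c d) := by
    intro t ht
    by_cases h : t ∈ Ioo a b
    · rw [e1 h]
      exact hov ⟨max_lt h.1 ht.1, lt_min h.2 ht.2⟩
    · simp only [hΓ, if_neg h]
  have s1 : ∀ t ∈ Ioo a b, SolAt Γ t := fun t ht =>
    h1 γ Γ t ((Filter.eventually_of_mem (isOpen_Ioo.mem_nhds ht) fun u hu => (e1 hu).symm)) (hγ t ht)
  have s2 : ∀ t ∈ Ioo c d, SolAt Γ t := fun t ht =>
    h1 γ' Γ t ((Filter.eventually_of_mem (isOpen_Ioo.mem_nhds ht) fun u hu => (e2 hu).symm))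
      (hγ' t ht)
  refine ⟨Γ, e1, e2, fun t ht => ?_⟩
  rcases le_or_gt t s with hts | hts
  · rcases min_lt_iff.mp ht.1 with h | h
    · exact s1 t ⟨h, hts.trans_lt hs.2⟩
    · exact s2 t ⟨h, hts.trans_lt hs'.2⟩
  · rcases lt_max_iff.mp ht.2 with h | h
    · exact s1 t ⟨hs.1.trans hts, h⟩
    · exact s2 t ⟨hs'.1.trans hts, h⟩

theorem D06b_flow_exists {SolAt : (ℝ → X) → ℝ → Prop}
    (h1 : ∀ (γ γ' : ℝ → X) (t : ℝ), γ =ᶠ[𝓝 t] γ' → SolAt γ t → SolAt γ' t)
    (h2 : ∀ (γ : ℝ → X) (s t : ℝ), SolAt γ (t + s) → SolAt (fun u => γ (u + s)) t)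
    (h4 : ∀ (γ γ' : ℝ → X) (a b t0 : ℝ), t0 ∈ Ioo a b → (∀ t ∈ Ioo a b, SolAt γ t) →
      (∀ t ∈ Ioo a b, SolAt γ' t) → γ t0 = γ' t0 → EqOn γ γ' (Ioo a b))
    (h5 : ∀ C : Set X, IsCompact C → ∃ δ > 0, ∃ ψ : ℝ → X → X,
      ContinuousOn (fun q : ℝ × X => ψ q.1 q.2) (Ioo (-δ) δ ×ˢ C) ∧
      ∀ x ∈ C, ψ 0 x = x ∧ ∀ t ∈ Ioo (-δ) δ, SolAt (fun t => ψ t x) t)
    (h6 : ∀ C : Set X, IsCompact C → ∀ T : ℝ, ∃ C' : Set X, IsCompact C' ∧
      ∀ (γ : ℝ → X) (a b : ℝ), -T ≤ a → b ≤ T → a < 0 → 0 < b →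
      (∀ t ∈ Ioo a b, SolAt γ t) → γ 0 ∈ C → ∀ t ∈ Ioo a b, γ t ∈ C')
    (h7 : ∀ x : X, ∃ C : Set X, IsCompact C ∧ C ∈ 𝓝 x) :
    ∃ φ : ℝ → X → X, (Continuous fun q : ℝ × X => φ q.1 q.2) ∧ (∀ x, φ 0 x = x) ∧
      (∀ s t x, φ (s + t) x = φ s (φ t x)) ∧ (∀ x t, SolAt (fun t => φ t x) t) ∧
      (∀ (γ : ℝ → X) (a b : ℝ), a < 0 → 0 < b → (∀ t ∈ Ioo a b, SolAt γ t) →
        ∀ t ∈ Ioo a b, γ t = φ t (γ 0)) := by
  classical
  -- solutions on large intervals
  have hA : ∀ (x : X) (s : ℝ), ∃ (γ : ℝ → X) (a b : ℝ), a < 0 ∧ 0 < b ∧ s ∈ Ioo a b ∧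
      γ 0 = x ∧ ∀ t ∈ Ioo a b, SolAt γ t := by
    intro x s0
    obtain ⟨δ0, hδ0, ψ0, -, hψ0⟩ := h5 {x} isCompact_singleton
    obtain ⟨C', hC', hC'2⟩ := h6 {x} isCompact_singleton (|s0| + 1)
    obtain ⟨δ, hδ, ψ, -, hψ⟩ := h5 C' hC'
    have key : ∀ n : ℕ, ∀ s : ℝ, |s| ≤ n * (δ / 2) → |s| < |s0| + 1 →
        ∃ (γ : ℝ → X) (a b : ℝ), a < 0 ∧ 0 < b ∧ s ∈ Ioo a b ∧
          γ 0 = x ∧ ∀ t ∈ Ioo a b, SolAt γ t := by
      intro n
      induction n with
      | zero =>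
        intro s hs _
        have hs0 : s = 0 := by
          have : |s| ≤ 0 := by simpa using hs
          exact abs_eq_zero.mp (le_antisymm this (abs_nonneg _))
        subst hs0
        have := hψ0 x rfl
        exact ⟨fun t => ψ0 t x, -δ0, δ0, by linarith, hδ0, ⟨by linarith, hδ0⟩, this.1, this.2⟩
      | succ n ih =>
        intro s hs hsT
        set s' : ℝ := s * (n / (n + 1)) with hs'
        have hn : (0:ℝ) < n + 1 := by positivity
        have hs'abs : |s'| = |s| * (n / (n + 1)) := by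
          rw [hs', abs_mul, abs_of_nonneg (by positivity : (0:ℝ) ≤ n / (n + 1))]
        have hq : (n:ℝ) / (n + 1) ≤ 1 := by
          rw [div_le_one hn]; linarith
        have hle : |s'| ≤ |s| := by
          rw [hs'abs]; exact mul_le_of_le_one_right (abs_nonneg _) hq
        have hs2 : |s| ≤ (n + 1) * (δ / 2) := by simpa using hs
        have hle2 : |s'| ≤ n * (δ / 2) := by
          rw [hs'abs, mul_div_assoc', div_le_iff₀ hn]
          calc |s| * n ≤ ((n + 1) * (δ / 2)) * n :=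
                mul_le_mul_of_nonneg_right hs2 (by positivity)
            _ = n * (δ / 2) * (n + 1) := by ring
        have hdiff : |s - s'| < δ := by
          have e : s - s' = s / (n + 1) := by
            rw [hs']; field_simp; ring
          rw [e, abs_div, abs_of_pos hn, div_lt_iff₀ hn]
          nlinarith
        obtain ⟨γ, a, b, ha, hb, hsab, h0, hsol⟩ := ih s' hle2 (hle.trans_lt hsT)
        set T := |s0| + 1 with hT
        have hT0 : 0 < T := by positivity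
        have hs'T : |s'| < T := hle.trans_lt hsT
        have hsub : ∀ t ∈ Ioo (max a (-T)) (min b T), t ∈ Ioo a b := fun t ht =>
          ⟨(le_max_left _ _).trans_lt ht.1, ht.2.trans_le (min_le_left _ _)⟩
        have hmem : s' ∈ Ioo (max a (-T)) (min b T) :=
          ⟨max_lt hsab.1 (neg_lt_of_abs_lt hs'T), lt_min hsab.2 (lt_of_abs_lt hs'T)⟩
        have hy : γ s' ∈ C' := by
          refine hC'2 γ (max a (-T)) (min b T) (le_max_right _ _) (min_le_right _ _)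
            (max_lt ha (by linarith)) (lt_min hb hT0) (fun t ht => hsol t (hsub t ht)) (by simp [h0])
            s' hmem
        obtain ⟨hψ1, hψ2⟩ := hψ _ hy
        have hsol2 : ∀ t ∈ Ioo (s' - δ) (s' + δ), SolAt (fun u => ψ (u + -s') (γ s')) t := by
          intro t ht
          exact h2 (fun u => ψ u (γ s')) (-s') t (hψ2 _ ⟨by linarith [ht.1], by linarith [ht.2]⟩)
        obtain ⟨Γ, e1, e2, hΓ⟩ := D06b_flow_glue h1 h4 (s := s') hsab
          (c := s' - δ) (d := s' + δ) ⟨by linarith, by linarith⟩ hsol hsol2 (by simp [hψ1])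
        obtain ⟨hd1, hd2⟩ := abs_lt.mp hdiff
        refine ⟨Γ, min a (s' - δ), max b (s' + δ), (min_le_left _ _).trans_lt ha,
          hb.trans_le (le_max_left _ _), ⟨(min_le_right _ _).trans_lt (by linarith),
          lt_of_lt_of_le (by linarith) (le_max_right _ _)⟩, ?_, hΓ⟩
        rw [e1 ⟨ha, hb⟩, h0]
    obtain ⟨n, hn⟩ := exists_nat_ge (|s0| / (δ / 2))
    refine key n s0 ?_ (by linarith)
    rwa [div_le_iff₀ (by positivity)] at hn
  -- global solutions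
  have hG : ∀ x : X, ∃ γ : ℝ → X, γ 0 = x ∧ ∀ t, SolAt γ t := by
    intro x
    choose γ a b ha hb hmem h0 hsol using hA x
    have heq : ∀ t0 t, t ∈ Ioo (a t0) (b t0) → γ t t = γ t0 t := by
      intro t0 t ht
      have := h4 (γ t) (γ t0) (max (a t) (a t0)) (min (b t) (b t0)) 0
        ⟨max_lt (ha _) (ha _), lt_min (hb _) (hb _)⟩
        (fun u hu => hsol t u ⟨(le_max_left _ _).trans_lt hu.1, hu.2.trans_le (min_le_left _ _)⟩)
        (fun u hu => hsol t0 u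
          ⟨(le_max_right _ _).trans_lt hu.1, hu.2.trans_le (min_le_right _ _)⟩)
        (by rw [h0, h0])
      exact this ⟨max_lt (hmem t).1 ht.1, lt_min (hmem t).2 ht.2⟩
    refine ⟨fun t => γ t t, h0 0, fun t0 => ?_⟩
    refine h1 (γ t0) _ t0 ?_ (hsol t0 t0 (hmem t0))
    exact Filter.eventually_of_mem (isOpen_Ioo.mem_nhds (hmem t0)) fun u hu => (heq t0 u hu).symm
  choose Φ hΦ0 hΦ using hG
  set φ : ℝ → X → X := fun t x => Φ x t with hφ
  have huniq : ∀ (γ : ℝ → X) (a b : ℝ), a < 0 → 0 < b → (∀ t ∈ Ioo a b, SolAt γ t) →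
      ∀ t ∈ Ioo a b, γ t = φ t (γ 0) := by
    intro γ a b ha hb hγ t ht
    exact h4 γ (Φ (γ 0)) a b 0 ⟨ha, hb⟩ hγ (fun u _ => hΦ _ u) (hΦ0 _).symm ht
  have hadd : ∀ s t x, φ (s + t) x = φ s (φ t x) := by
    intro s t x
    have h := huniq (fun u => Φ x (u + t)) (-(|s| + 1)) (|s| + 1) (by linarith [abs_nonneg s])
      (by positivity) (fun u _ => h2 (Φ x) t u (hΦ x _)) s
      ⟨by linarith [neg_abs_le s], by linarith [le_abs_self s]⟩
    simpa [hφ] using h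
  have hzero : ∀ x, φ 0 x = x := fun x => hΦ0 x
  refine ⟨φ, ?_, hzero, hadd, fun x t => hΦ x t, huniq⟩
  -- continuity
  rw [continuous_iff_continuousAt]
  rintro ⟨s0, x0⟩
  obtain ⟨C, hC, hCx⟩ := h7 x0
  set T := |s0| + 1 with hT
  obtain ⟨C', hC', hC'2⟩ := h6 C hC T
  obtain ⟨δ, hδ, ψ, hψc, hψ⟩ := h5 C' hC'
  have hφψ : ∀ x ∈ C', ∀ t ∈ Ioo (-δ) δ, ψ t x = φ t x := by
    intro x hx t ht
    have := huniq (fun t => ψ t x) (-δ) δ (by linarith) hδ (hψ x hx).2 t ht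
    simpa [(hψ x hx).1] using this
  have hφc : ContinuousOn (fun q : ℝ × X => φ q.1 q.2) (Ioo (-δ) δ ×ˢ C') :=
    hψc.congr fun q hq => (hφψ q.2 hq.2 q.1 hq.1).symm
  have hφC' : ∀ x ∈ C, ∀ s, |s| < T → φ s x ∈ C' := by
    intro x hx s hs
    have hs' := abs_lt.mp hs
    have hT0 : 0 < T := (abs_nonneg s).trans_lt hs
    exact hC'2 (fun t => φ t x) (-T) T le_rfl le_rfl (by linarith) hT0
      (fun t _ => hΦ x t) (by simpa [hzero] using hx) s hs'
  have hstep : ∀ s, |s| < T → ContinuousOn (fun x => φ s x) C →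
      ContinuousOn (fun q : ℝ × X => φ q.1 q.2) (Ioo (s - δ) (s + δ) ×ˢ C) := by
    intro s hs hcs
    have e : EqOn (fun q : ℝ × X => φ q.1 q.2) (fun q : ℝ × X => φ (q.1 - s) (φ s q.2))
        (Ioo (s - δ) (s + δ) ×ˢ C) := by
      intro q _
      show φ q.1 q.2 = φ (q.1 - s) (φ s q.2)
      rw [← hadd, sub_add_cancel]
    refine ContinuousOn.congr ?_ e
    refine hφc.comp (g := fun q : ℝ × X => φ q.1 q.2) (f := fun q : ℝ × X => (q.1 - s, φ s q.2))
      ?_ ?_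
    · refine (continuous_fst.sub continuous_const).continuousOn.prodMk ?_
      exact hcs.comp continuous_snd.continuousOn fun q hq => hq.2
    · rintro q ⟨hq1, hq2⟩
      exact ⟨⟨by linarith [hq1.1], by linarith [hq1.2]⟩, hφC' _ hq2 s hs⟩
  have hslice : ∀ s s', |s| < T → ContinuousOn (fun x => φ s x) C → |s' - s| < δ →
      ContinuousOn (fun x => φ s' x) C := by
    intro s s' hs hcs hss
    obtain ⟨h1', h2'⟩ := abs_lt.mp hss
    refine (hstep s hs hcs).comp (g := fun q : ℝ × X => φ q.1 q.2) (f := fun x : X => (s', x))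
      (Continuous.prodMk_right s').continuousOn fun x hx => ⟨⟨by linarith, by linarith⟩, hx⟩
  obtain ⟨n, hn⟩ := exists_nat_gt (|s0| / δ)
  have hn0 : (0:ℝ) < n := lt_of_le_of_lt (by positivity) hn
  have hind : ∀ k : ℕ, k ≤ n → ContinuousOn (fun x => φ (k * (s0 / n)) x) C := by
    intro k
    induction k with
    | zero =>
      intro _
      have : (fun x => φ ((0:ℕ) * (s0 / n)) x) = fun x => x := by
        funext x; simp [hzero]
      rw [this]; exact continuousOn_id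
    | succ k ih =>
      intro hk
      refine hslice (k * (s0 / n)) _ ?_ (ih (by omega)) ?_
      · rw [abs_mul, abs_div, Nat.abs_cast, Nat.abs_cast, mul_div_assoc', div_lt_iff₀ hn0]
        have hk' : (k:ℝ) ≤ n := by exact_mod_cast (by omega : k ≤ n)
        have : (k:ℝ) * |s0| ≤ n * |s0| := mul_le_mul_of_nonneg_right hk' (abs_nonneg _)
        nlinarith
      · have e : ((k + 1 : ℕ):ℝ) * (s0 / n) - k * (s0 / n) = s0 / n := by push_cast; ring
        rw [e, abs_div, Nat.abs_cast, div_lt_iff₀ hn0]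
        rw [div_lt_iff₀ hδ] at hn
        linarith
  have hfin : ContinuousOn (fun x => φ s0 x) C := by
    have := hind n le_rfl
    have e : (n:ℝ) * (s0 / n) = s0 := by field_simp
    rwa [e] at this
  have hj := hstep s0 (by linarith) hfin
  refine hj.continuousAt ?_
  exact prod_mem_nhds (Ioo_mem_nhds (by linarith) (by linarith)) hCx

end AbsFlow

namespace GAtt
variable {d N : ℕ} {K : Type} [MetricSpace K] [CompactSpace K] (S : GAtt d N K)

/-- pointwise version of `IsSol` -/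
def D06b_SolAt (R : S.Speed) (γ : ℝ → S.X) (t : ℝ) : Prop :=
  ContinuousAt γ t ∧
    HasDerivAt (fun s => S.e (S.pt (γ s))) (R.ρ (S.pt (γ t)) • S.dir (γ t)) t

theorem D06b_isSol_iff (R : S.Speed) (γ : ℝ → S.X) {I : Set ℝ} (hI : IsOpen I) :
    S.IsSol R γ I ↔ ∀ t ∈ I, S.D06b_SolAt R γ t := by
  constructor
  · rintro ⟨h1, h2⟩ t ht
    exact ⟨h1.continuousAt (hI.mem_nhds ht), h2 t ht⟩
  · intro h
    exact ⟨fun t ht => (h t ht).1.continuousWithinAt, fun t ht => (h t ht).2⟩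

theorem exists_flow (R : S.Speed) : Nonempty (S.Flow R) := by
  obtain ⟨φ, hc, h0, hadd, hsol, huniq⟩ := D06b_flow_exists (SolAt := S.D06b_SolAt R)
    (by
      intro γ γ' t h hs
      refine ⟨hs.1.congr h, ?_⟩
      have e : γ t = γ' t := h.eq_of_nhds
      rw [← e]
      refine hs.2.congr_of_eventuallyEq ?_
      filter_upwards [h] with u hu
      rw [hu])
    (by
      intro γ s t h
      refine ⟨?_, ?_⟩
      · have h' : ContinuousAt γ (t + s) := h.1
        exact ContinuousAt.comp (f := fun u : ℝ => u + s) (g := γ) h'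
          (continuous_id.add continuous_const).continuousAt
      · have := h.2.comp_add_const t s
        exact this)
    (by
      intro γ γ' a b t0 ht0 h h' he
      exact S.sol_uniq R ht0 ((S.D06b_isSol_iff R γ isOpen_Ioo).2 h)
        ((S.D06b_isSol_iff R γ' isOpen_Ioo).2 h') he)
    (by
      intro C hC
      obtain ⟨δ, hδ, ψ, h1, h2⟩ := S.local_ex R C hC
      exact ⟨δ, hδ, ψ, h1, fun x hx => ⟨(h2 x hx).1,
        (S.D06b_isSol_iff R _ isOpen_Ioo).1 (h2 x hx).2⟩⟩)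
    (by
      intro C hC T
      obtain ⟨C', hC', h⟩ := S.sol_compact R C hC T
      exact ⟨C', hC', fun γ a b h1 h2 h3 h4 h5 h6 =>
        h γ a b h1 h2 h3 h4 ((S.D06b_isSol_iff R γ isOpen_Ioo).2 h5) h6⟩)
    (by
      intro x
      have hB : IsOpen S.B := S.B_open
      obtain ⟨r, hr, hrB⟩ := Metric.nhds_basis_closedBall.mem_iff.mp (hB.mem_nhds x.2.1)
      refine ⟨S.pt ⁻¹' (closedBall (S.pt x) r),
        S.proper_pt _ hrB (isClosed_closedBall.isCompact), ?_⟩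
      exact S.continuous_pt.continuousAt (closedBall_mem_nhds _ hr))
  exact ⟨⟨φ, hc, h0, hadd, fun x => (S.D06b_isSol_iff R _ isOpen_univ).2 fun t _ => hsol x t,
    fun γ a b ha hb hγ => huniq γ a b ha hb ((S.D06b_isSol_iff R γ isOpen_Ioo).1 hγ)⟩⟩

end GAtt
end Pool.MP85
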