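import Pool.Agent.Lib.MP_85e637_an.AbsC2
import Pool.Agent.Lib.MP_85e637_an.D02a
import Pool.Agent.Lib.MP_85e637_an.D02b

/-!
# D07: properties of the stable flow (reversal, time change, contraction, freeness)
-/

open Filter Topology Set Metric Module

namespace Pool.MP85
namespace GAtt
variable {d N : ℕ} {K : Type} [MetricSpace K] [CompactSpace K] {S : GAtt d N K} {R : S.Speed}

/-- chain rule for `f` along a curve -/
theorem D07_chain {c : ℝ → K} {t : ℝ} {v : EE N}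
    (hc : HasDerivAt (fun s => S.e (c s)) v t) :
    HasDerivAt (fun s => S.e (S.f (c s))) (S.A (c t) v) t := by
  rw [hasDerivAt_iff_isLittleO]
  have h0 := hasDerivAt_iff_isLittleO.1 hc
  have h1 : (fun s => (S.e (S.f (c s)) - S.e (S.f (c t))) - S.A (c t) (S.e (c s) - S.e (c t)))
      =o[𝓝 t] fun s => s - t := by
    refine Asymptotics.IsLittleO.trans_isBigO ?_ hc.isBigO_sub
    rw [Asymptotics.isLittleO_iff]
    intro η hη
    obtain ⟨r, hr, h⟩ := S.diff η hη
    have hcont : Tendsto (fun s => dist (c t) (c s)) (𝓝 t) (𝓝 0) := by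
      have h2 : Tendsto (fun s => ‖S.e (c t) - S.e (c s)‖) (𝓝 t)
          (𝓝 ‖S.e (c t) - S.e (c t)‖) :=
        (tendsto_const_nhds.sub hc.continuousAt).norm
      simpa [S.e_isom] using h2
    filter_upwards [hcont.eventually_lt_const hr] with s hs
    have := h (c t) (c s) (c t) hs (by simpa using hr)
    rwa [S.e_isom]
  have h2 : (fun s => S.A (c t) (S.e (c s) - S.e (c t) - (s - t) • v)) =o[𝓝 t]
      fun s => s - t := ((S.A (c t)).isBigO_comp _ _).trans_isLittleO h0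
  refine (h1.add h2).congr_left fun s => ?_
  simp only [map_sub, map_smul]
  abel

theorem D07_norm_dir (x : S.X) : ‖S.dir x‖ = 1 := x.2.2.2
theorem D07_dir_mem (x : S.X) : S.dir x ∈ S.Es (S.pt x) := x.2.2.1
theorem D07_pt_mem (x : S.X) : S.pt x ∈ S.B := x.2.1

theorem D07_dist_pt (x y : S.X) : dist (S.pt x) (S.pt y) ≤ dist x y := by
  change dist x.1.1 y.1.1 ≤ dist x.1 y.1
  rw [Prod.dist_eq]; exact le_max_left _ _
theorem D07_dist_dir (x y : S.X) : ‖S.dir x - S.dir y‖ ≤ dist x y := by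
  change ‖x.1.2 - y.1.2‖ ≤ dist x.1 y.1
  rw [Prod.dist_eq, ← dist_eq_norm]; exact le_max_right _ _

/-- solutions have speed at most one -/
theorem D07_speed (Φ : S.Flow R) (x : S.X) (s t : ℝ) :
    dist (S.pt (Φ.φ s x)) (S.pt (Φ.φ t x)) ≤ |s - t| := by
  have h := Convex.norm_image_sub_le_of_norm_hasDerivWithin_le (C := 1) (s := univ) (x := t)
    (y := s) (f := fun u => S.e (S.pt (Φ.φ u x)))
    (f' := fun u => R.ρ (S.pt (Φ.φ u x)) • S.dir (Φ.φ u x))
    (fun u _ => ((Φ.sol x).2 u (mem_univ u)).hasDerivWithinAt)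
    (fun u _ => by
      rw [norm_smul, D07_norm_dir, mul_one, Real.norm_of_nonneg (R.nonneg _)]
      exact R.le_one _) convex_univ (mem_univ _) (mem_univ _)
  rw [S.e_isom, one_mul, Real.norm_eq_abs] at h
  exact h

theorem D07_continuous_ρ (R : S.Speed) : Continuous R.ρ := by
  obtain ⟨c, hc⟩ := R.lip
  rw [Metric.continuous_iff]
  intro x ε hε
  have hc' : 0 < |c| + 1 := by positivity
  refine ⟨ε / (|c| + 1), by positivity, fun y hy => ?_⟩
  rw [Real.dist_eq]
  calc |R.ρ y - R.ρ x| ≤ c * dist y x := hc y x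
    _ ≤ (|c| + 1) * dist y x := by
        refine mul_le_mul_of_nonneg_right ?_ dist_nonneg
        linarith [le_abs_self c]
    _ < (|c| + 1) * (ε / (|c| + 1)) := mul_lt_mul_of_pos_left hy hc'
    _ = ε := by field_simp

theorem Flow.σφ (Φ : S.Flow R) (D : S.XData) (t : ℝ) (x : S.X) :
    D.σ (Φ.φ t x) = Φ.φ (-t) (D.σ x) := by
  have hsol : S.IsSol R (fun s => D.σ (Φ.φ (-s) x)) (Ioo (-(|t| + 1)) (|t| + 1)) := by
    refine ⟨?_, fun s _ => ?_⟩
    · refine Continuous.continuousOn ?_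
      exact D.σ.continuous.comp (Φ.cont.comp (continuous_neg.prodMk continuous_const))
    · have h := ((Φ.sol x).2 (-s) (mem_univ _)).scomp s (hasDerivAt_neg s)
      have e1 : (fun s => S.e (S.pt (D.σ (Φ.φ (-s) x)))) =
          (fun s => S.e (S.pt (Φ.φ s x))) ∘ Neg.neg := by
        funext s; simp [D.pt_σ]
      rw [e1]
      have e2 : R.ρ (S.pt (D.σ (Φ.φ (-s) x))) • S.dir (D.σ (Φ.φ (-s) x)) =
          (-1 : ℝ) • R.ρ (S.pt (Φ.φ (-s) x)) • S.dir (Φ.φ (-s) x) := by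
        rw [D.pt_σ, D.dir_σ, smul_neg, neg_one_smul]
      change HasDerivAt _ (R.ρ (S.pt (D.σ (Φ.φ (-s) x))) • S.dir (D.σ (Φ.φ (-s) x))) s
      rw [e2]
      exact h
  have h := Φ.uniq _ _ _ (by linarith [abs_nonneg t]) (by linarith [abs_nonneg t]) hsol (-t)
    ⟨by linarith [le_abs_self t], by linarith [neg_abs_le t]⟩
  simpa [Φ.zero] using h

/-- time derivative of the time change -/
noncomputable def D07_k (R : S.Speed) (x : S.X) : ℝ :=
  R.ρ (S.pt x) * ‖S.A (S.pt x) (S.dir x)‖ / R.ρ (S.f (S.pt x))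

theorem D07_A_ne (x : S.X) : 0 < ‖S.A (S.pt x) (S.dir x)‖ := by
  rw [norm_pos_iff]
  intro h
  have h1 : S.P (S.pt x) (S.dir x) = S.dir x := (D07_dir_mem x).1
  have h2 := congrArg (fun L => L (S.dir x)) (S.A'A (S.pt x))
  simp only [ContinuousLinearMap.comp_apply] at h2
  rw [h, map_zero, h1] at h2
  have h3 := D07_norm_dir x
  rw [← h2, norm_zero] at h3
  exact zero_ne_one h3

theorem D07_k_pos (R : S.Speed) (x : S.X) : 0 < D07_k R x := by
  have h1 : 0 < R.ρ (S.pt x) := (R.pos_iff _).2 (D07_pt_mem x)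
  have h2 : 0 < R.ρ (S.f (S.pt x)) := (R.pos_iff _).2 (S.B_f.2 (D07_pt_mem x))
  exact div_pos (mul_pos h1 (D07_A_ne x)) h2

theorem D07_k_cont (R : S.Speed) : Continuous (D07_k R) := by
  have h0 := D07_continuous_ρ R
  have h1 : Continuous fun x : S.X => S.A (S.pt x) (S.dir x) :=
    (S.contA.comp S.continuous_pt).clm_apply S.continuous_dir
  refine ((h0.comp S.continuous_pt).mul h1.norm).div
    (h0.comp (S.f.continuous.comp S.continuous_pt)) fun x => ?_
  exact ((R.pos_iff _).2 (S.B_f.2 (D07_pt_mem x))).ne'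

theorem D07_k_le (R : S.Speed) (x : S.X) (hx : S.pt x ∈ R.U) : D07_k R x ≤ 1 / 8 := by
  have h1 := R.one _ hx
  have h2 := R.one _ (R.U_trap _ (subset_closure hx))
  have h3 := R.con _ (subset_closure hx) _ (D07_dir_mem x)
  rw [D07_norm_dir] at h3
  rw [D07_k, h1, h2]
  linarith

/-- derivative of the image curve -/
theorem D07_deriv_F (Φ : S.Flow R) (D : S.XData) (x : S.X) (t : ℝ) :
    HasDerivAt (fun s => S.e (S.pt (D.F (Φ.φ s x))))
      (D07_k R (Φ.φ t x) • (R.ρ (S.pt (D.F (Φ.φ t x))) • S.dir (D.F (Φ.φ t x)))) t := by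
  have h := D07_chain (c := fun s => S.pt (Φ.φ s x)) ((Φ.sol x).2 t (mem_univ t))
  have e1 : (fun s => S.e (S.pt (D.F (Φ.φ s x)))) = fun s => S.e (S.f (S.pt (Φ.φ s x))) := by
    funext s; rw [D.pt_F]
  rw [e1]
  have h2 : R.ρ (S.f (S.pt (Φ.φ t x))) ≠ 0 :=
    ((R.pos_iff _).2 (S.B_f.2 (D07_pt_mem _))).ne'
  have e2 : D07_k R (Φ.φ t x) • (R.ρ (S.pt (D.F (Φ.φ t x))) • S.dir (D.F (Φ.φ t x))) =
      S.A (S.pt (Φ.φ t x)) (R.ρ (S.pt (Φ.φ t x)) • S.dir (Φ.φ t x)) := by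
    rw [map_smul, ← D.dir_F, D.pt_F, D07_k, smul_smul, smul_smul]
    congr 1
    field_simp
  rw [e2]
  exact h

/-- the time change -/
noncomputable def D07_t (Φ : S.Flow R) (x : S.X) (t : ℝ) : ℝ :=
  ∫ s in (0 : ℝ)..t, D07_k R (Φ.φ s x)

theorem D07_kc (Φ : S.Flow R) (x : S.X) : Continuous fun s => D07_k R (Φ.φ s x) :=
  (D07_k_cont R).comp (Φ.cont.comp (continuous_id.prodMk continuous_const))

theorem D07_t_cont (Φ : S.Flow R) : Continuous fun q : S.X × ℝ => D07_t Φ q.1 q.2 := by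
  have h : Continuous (Function.uncurry fun (q : S.X × ℝ) (s : ℝ) => D07_k R (Φ.φ s q.1)) := by
    refine (D07_k_cont R).comp (Φ.cont.comp (continuous_snd.prodMk ?_))
    exact continuous_fst.comp continuous_fst
  exact intervalIntegral.continuous_parametric_intervalIntegral_of_continuous (a₀ := 0) h
    continuous_snd

theorem D07_t_deriv (Φ : S.Flow R) (x : S.X) (t : ℝ) :
    HasDerivAt (D07_t Φ x) (D07_k R (Φ.φ t x)) t :=
  (Continuous.integral_hasStrictDerivAt (D07_kc Φ x) 0 t).hasDerivAt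

theorem D07_t_zero (Φ : S.Flow R) (x : S.X) : D07_t Φ x 0 = 0 := by simp [D07_t]

theorem D07_t_mono (Φ : S.Flow R) (x : S.X) : StrictMono (D07_t Φ x) :=
  strictMono_of_deriv_pos fun t => by
    rw [(D07_t_deriv Φ x t).deriv]; exact D07_k_pos R _

theorem D07_t_contx (Φ : S.Flow R) (x : S.X) : Continuous (D07_t Φ x) :=
  continuous_iff_continuousAt.2 fun t => (D07_t_deriv Φ x t).continuousAt

theorem D07_t_le (Φ : S.Flow R) (x : S.X) (t : ℝ) (h : ∀ s ∈ uIcc 0 t, S.pt (Φ.φ s x) ∈ R.U) :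
    |D07_t Φ x t| ≤ |t| / 8 := by
  have h1 := intervalIntegral.norm_integral_le_of_norm_le_const (a := 0) (b := t) (C := 1 / 8)
    (f := fun s => D07_k R (Φ.φ s x)) fun s hs => by
      rw [Real.norm_of_nonneg (D07_k_pos R _).le]
      exact D07_k_le R _ (h s (uIoc_subset_uIcc hs))
  rw [Real.norm_eq_abs, sub_zero] at h1
  rw [D07_t]
  linarith

/-- the image of a flow line -/
theorem D07_rel (Φ : S.Flow R) (D : S.XData) (t : ℝ) (x : S.X) :
    D.F (Φ.φ t x) = Φ.φ (D07_t Φ x t) (D.F x) := by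
  set τ := D07_t Φ x with hτ
  have hm : StrictMono τ := D07_t_mono Φ x
  have hc : Continuous τ := D07_t_contx Φ x
  have hemb : IsEmbedding τ := by
    have hoc : OrdConnected (range τ) := (isPreconnected_range hc).ordConnected
    exact @StrictMono.isEmbedding_of_ordConnected _ _ _ _ _ _ _ _ _ hm hoc
  set g := Function.invFun τ with hg
  have hgl : ∀ s, g (τ s) = s := Function.leftInverse_invFun hm.injective
  set T := |t| + 1 with hT
  have hT0 : 0 < T := by positivity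
  have hsurj : ∀ u ∈ Ioo (τ (-T)) (τ T), ∃ s, τ s = u := fun u hu => by
    obtain ⟨s, -, h⟩ := intermediate_value_Ioo (by linarith : -T ≤ T) hc.continuousOn hu
    exact ⟨s, h⟩
  have hgr : ∀ u ∈ Ioo (τ (-T)) (τ T), τ (g u) = u := fun u hu => by
    obtain ⟨s, rfl⟩ := hsurj u hu
    rw [hgl]
  have hgc : ∀ u ∈ Ioo (τ (-T)) (τ T), ContinuousAt g u := fun u hu => by
    rw [ContinuousAt, hemb.tendsto_nhds_iff, hgr u hu]
    have : Tendsto (fun v : ℝ => v) (𝓝 u) (𝓝 u) := tendsto_id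
    refine this.congr' ?_
    filter_upwards [Ioo_mem_nhds hu.1 hu.2] with v hv
    exact (hgr v hv).symm
  have hgd : ∀ u ∈ Ioo (τ (-T)) (τ T), HasDerivAt g (D07_k R (Φ.φ (g u) x))⁻¹ u := fun u hu => by
    refine HasDerivAt.of_local_left_inverse (hgc u hu) (D07_t_deriv Φ x (g u))
      (D07_k_pos R _).ne' ?_
    filter_upwards [Ioo_mem_nhds hu.1 hu.2] with v hv
    exact hgr v hv
  have hsol : S.IsSol R (fun u => D.F (Φ.φ (g u) x)) (Ioo (τ (-T)) (τ T)) := by
    refine ⟨fun u hu => ContinuousAt.continuousWithinAt ?_, fun u hu => ?_⟩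
    · refine D.F.continuous.continuousAt.comp ?_
      have h1 : ContinuousAt (fun u => (g u, x)) u := (hgc u hu).prodMk continuousAt_const
      exact ContinuousAt.comp (g := fun q : ℝ × S.X => Φ.φ q.1 q.2) Φ.cont.continuousAt h1
    · have h1 := (D07_deriv_F Φ D x (g u)).scomp u (hgd u hu)
      rw [smul_smul, inv_mul_cancel₀ (D07_k_pos R _).ne', one_smul] at h1
      exact h1
  have hτ0 : τ 0 = 0 := D07_t_zero Φ x
  have h := Φ.uniq _ _ _ (by rw [← hτ0]; exact hm (by linarith))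
    (by rw [← hτ0]; exact hm hT0) hsol (τ t)
    ⟨hm (by linarith [neg_abs_le t]), hm (by linarith [le_abs_self t])⟩
  have hg0 : g 0 = 0 := by
    have := hgl 0
    rwa [hτ0] at this
  simpa [hgl, hg0, Φ.zero] using h

/-- a flow line has no limit in the future or in the past -/
theorem D07_no_limit (Φ : S.Flow R) {x w : S.X} {l : Filter ℝ} [l.NeBot]
    (hl : ∀ s : ℝ, Tendsto (fun t => s + t) l l) (h : Tendsto (fun t => Φ.φ t x) l (𝓝 w)) :
    False := by
  have hfix : ∀ s, Φ.φ s w = w := fun s => by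
    have h1 : Tendsto (fun t => Φ.φ s (Φ.φ t x)) l (𝓝 (Φ.φ s w)) :=
      ((Φ.cont.comp (continuous_const.prodMk continuous_id)).tendsto w).comp h
    have h2 : Tendsto (fun t => Φ.φ (s + t) x) l (𝓝 w) := h.comp (hl s)
    refine tendsto_nhds_unique ?_ h2
    refine h1.congr fun t => ?_
    rw [Φ.add]
  have h1 := (Φ.sol w).2 0 (mem_univ 0)
  have h2 : HasDerivAt (fun s => S.e (S.pt (Φ.φ s w))) 0 0 := by
    simp_rw [hfix]; exact hasDerivAt_const _ _
  have h3 := h1.unique h2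
  have h4 : ‖R.ρ (S.pt (Φ.φ 0 w)) • S.dir (Φ.φ 0 w)‖ = 0 := by
    change R.ρ (S.pt (Φ.φ 0 w)) • S.dir (Φ.φ 0 w) = 0 at h3
    rw [h3, norm_zero]
  rw [norm_smul, D07_norm_dir, mul_one, Φ.zero, Real.norm_eq_abs, abs_eq_zero] at h4
  exact ((R.pos_iff _).2 (D07_pt_mem w)).ne' h4

theorem D07_t_surj (Φ : S.Flow R) (D : S.XData) (x : S.X) :
    Function.Surjective (D07_t Φ x) := by
  have key : ∀ (l : Filter ℝ) [l.NeBot], (∀ s : ℝ, Tendsto (fun t => s + t) l l) →
      ¬ ∃ a, Tendsto (D07_t Φ x) l (𝓝 a) := by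
    rintro l _ hl ⟨a, ha⟩
    have h1 : Tendsto (fun t => Φ.φ (D07_t Φ x t) (D.F x)) l (𝓝 (Φ.φ a (D.F x))) :=
      ((Φ.cont.comp (continuous_id.prodMk continuous_const)).tendsto a).comp ha
    have h2 : Tendsto (fun t => D.F.symm (Φ.φ (D07_t Φ x t) (D.F x))) l
        (𝓝 (D.F.symm (Φ.φ a (D.F x)))) := (D.F.symm.continuous.tendsto _).comp h1
    refine D07_no_limit Φ (x := x) hl (h2.congr fun t => ?_)
    rw [← D07_rel, Homeomorph.symm_apply_apply]
  refine (D07_t_contx Φ x).surjective ?_ ?_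
  · rcases tendsto_atTop_of_monotone (D07_t_mono Φ x).monotone with h | h
    · exact h
    · exact (key atTop (fun s => tendsto_atTop_add_const_left _ s tendsto_id) h).elim
  · rcases tendsto_atBot_of_monotone (D07_t_mono Φ x).monotone with h | h
    · exact h
    · exact (key atBot (fun s => tendsto_atBot_add_const_left _ s tendsto_id) h).elim

/-- time change of the flow under the lifted diffeomorphism -/
theorem Flow.exists_τ (Φ : S.Flow R) (D : S.XData) : ∃ τ : S.X → ℝ → ℝ,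
    (Continuous fun q : S.X × ℝ => τ q.1 q.2) ∧ (∀ x, τ x 0 = 0) ∧ (∀ x, StrictMono (τ x)) ∧
    (∀ x, Function.Surjective (τ x)) ∧ (∀ t x, D.F (Φ.φ t x) = Φ.φ (τ x t) (D.F x)) ∧
    ∃ V : Set K, IsOpen V ∧ S.L ⊆ V ∧ ∃ δ > 0, ∀ x, S.pt x ∈ V → ∀ t : ℝ, |t| ≤ δ →
      |τ x t| ≤ |t| / 2 := by
  refine ⟨D07_t Φ, D07_t_cont Φ, D07_t_zero Φ, D07_t_mono Φ, D07_t_surj Φ D, D07_rel Φ D, ?_⟩
  obtain ⟨δ, hδ, h⟩ := S.L_cpt.exists_thickening_subset_open R.U_open R.L_U
  refine ⟨thickening (δ / 2) S.L, isOpen_thickening, self_subset_thickening (by positivity) _,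
    δ / 2, by positivity, fun x hx t ht => ?_⟩
  refine (D07_t_le Φ x t fun s hs => h ?_).trans (by linarith [abs_nonneg t])
  rw [mem_thickening_iff] at hx ⊢
  obtain ⟨z, hz, hxz⟩ := hx
  refine ⟨z, hz, ?_⟩
  have h1 := D07_speed Φ x s 0
  rw [Φ.zero, sub_zero] at h1
  have h2 : |s| ≤ |t| := by
    have := abs_sub_left_of_mem_uIcc hs
    simpa using this
  calc dist (S.pt (Φ.φ s x)) z ≤ dist (S.pt (Φ.φ s x)) (S.pt x) + dist (S.pt x) z :=
        dist_triangle _ _ _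
    _ < δ / 2 + δ / 2 := by linarith
    _ = δ := by ring

theorem D07_pt_fw (D : S.XData) (n : ℕ) (x : S.X) :
    S.pt (fw D.F n x) = fw S.f n (S.pt x) := by
  induction n with
  | zero => rfl
  | succ n ih => rw [fw_succ', fw_succ', D.pt_F, ih]

/-- time changes of the forward iterates -/
noncomputable def D07_H (Φ : S.Flow R) (D : S.XData) (x : S.X) : ℕ → ℝ → ℝ
  | 0, t => t
  | n + 1, t => D07_t Φ (fw D.F n x) (D07_H Φ D x n t)

theorem D07_H_cont (Φ : S.Flow R) (D : S.XData) (x : S.X) (n : ℕ) :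
    Continuous (D07_H Φ D x n) := by
  induction n with
  | zero => exact continuous_id
  | succ n ih => exact (D07_t_contx Φ _).comp ih

theorem D07_H_mono (Φ : S.Flow R) (D : S.XData) (x : S.X) (n : ℕ) :
    StrictMono (D07_H Φ D x n) := by
  induction n with
  | zero => exact strictMono_id
  | succ n ih => exact (D07_t_mono Φ _).comp ih

theorem D07_H_zero (Φ : S.Flow R) (D : S.XData) (x : S.X) (n : ℕ) : D07_H Φ D x n 0 = 0 := by
  induction n with
  | zero => rfl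
  | succ n ih => rw [D07_H, ih, D07_t_zero]

theorem D07_H_rel (Φ : S.Flow R) (D : S.XData) (x : S.X) (n : ℕ) (t : ℝ) :
    fw D.F n (Φ.φ t x) = Φ.φ (D07_H Φ D x n t) (fw D.F n x) := by
  induction n with
  | zero => rfl
  | succ n ih => rw [fw_succ', ih, fw_succ', D07_rel, D07_H]

theorem D07_H_tendsto (Φ : S.Flow R) (D : S.XData) (x : S.X) (t : ℝ) :
    Tendsto (fun n => D07_H Φ D x n t) atTop (𝓝 0) := by
  obtain ⟨δ, hδ, hth⟩ := S.L_cpt.exists_thickening_subset_open R.U_open R.L_U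
  set C : Set K := (fun s => S.pt (Φ.φ s x)) '' uIcc 0 t with hC
  have hCc : IsCompact C := isCompact_uIcc.image
    (S.continuous_pt.comp (Φ.cont.comp (continuous_id.prodMk continuous_const)))
  have hCB : C ⊆ S.B := by
    rintro _ ⟨s, -, rfl⟩
    exact D07_pt_mem _
  obtain ⟨n0, hn0⟩ := S.attrK C hCB hCc δ hδ
  have hU : ∀ n ≥ n0, ∀ s ∈ uIcc 0 t, S.pt (fw D.F n (Φ.φ s x)) ∈ R.U := by
    intro n hn s hs
    rw [D07_pt_fw]
    apply hth
    rw [mem_thickening_iff]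
    exact (infDist_lt_iff S.L_ne).1 (hn0 n hn _ ⟨s, hs, rfl⟩)
  have hstep : ∀ n ≥ n0, |D07_H Φ D x (n + 1) t| ≤ |D07_H Φ D x n t| / 8 := by
    intro n hn
    refine D07_t_le Φ _ _ fun u hu => ?_
    have hiv := intermediate_value_uIcc (a := 0) (b := t) (D07_H_cont Φ D x n).continuousOn
    rw [D07_H_zero] at hiv
    obtain ⟨s, hs, rfl⟩ := hiv hu
    rw [← D07_H_rel]
    exact hU n hn s hs
  have hpow : ∀ k, |D07_H Φ D x (k + n0) t| ≤ |D07_H Φ D x n0 t| * (1 / 8) ^ k := by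
    intro k
    induction k with
    | zero => simp
    | succ k ih =>
      have h := hstep (k + n0) (by omega)
      rw [show k + 1 + n0 = k + n0 + 1 by ring, pow_succ]
      linarith
  rw [← tendsto_add_atTop_iff_nat n0]
  refine squeeze_zero_norm (a := fun k => |D07_H Φ D x n0 t| * (1 / 8) ^ k)
    (fun k => by rw [Real.norm_eq_abs]; exact hpow k) ?_
  have := (tendsto_pow_atTop_nhds_zero_of_lt_one (r := (1 / 8 : ℝ)) (by norm_num)
    (by norm_num)).const_mul |D07_H Φ D x n0 t|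
  simpa using this

theorem Flow.contr (Φ : S.Flow R) (D : S.XData) (x : S.X) (t : ℝ) : ∃ tn : ℕ → ℝ,
    (∀ n, fw D.F n (Φ.φ t x) = Φ.φ (tn n) (fw D.F n x)) ∧ Tendsto tn atTop (𝓝 0) :=
  ⟨fun n => D07_H Φ D x n t, fun n => D07_H_rel Φ D x n t, D07_H_tendsto Φ D x t⟩

/-- no short returns, uniformly on compact sets -/
theorem D07_short (Φ : S.Flow R) (C : Set S.X) (hC : IsCompact C) : ∃ δ > 0, ∀ z ∈ C, ∀ s : ℝ,
    |s| < δ → S.pt (Φ.φ s z) = S.pt z → s = 0 := by
  have hn : IsOpen {q : ℝ × S.X | dist (Φ.φ q.1 q.2) q.2 < 1 / 2} :=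
    isOpen_lt (Φ.cont.dist continuous_snd) continuous_const
  obtain ⟨u, v, hu, -, hu0, hCv, huv⟩ := generalized_tube_lemma (s := ({0} : Set ℝ))
    isCompact_singleton hC hn (by
      rintro ⟨s, z⟩ ⟨hs, -⟩
      rw [mem_singleton_iff] at hs
      change dist (Φ.φ s z) z < 1 / 2
      simp only at hs
      rw [hs, Φ.zero, dist_self]; norm_num)
  obtain ⟨δ, hδ, hb⟩ := Metric.isOpen_iff.1 hu 0 (hu0 rfl)
  refine ⟨δ, hδ, fun z hz s hs hret => ?_⟩
  have hclose : ∀ r ∈ Ioo (-δ) δ, dist (Φ.φ r z) z < 1 / 2 := fun r hr => by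
    have : (r, z) ∈ u ×ˢ v := ⟨hb (by rw [mem_ball, Real.dist_eq, sub_zero, abs_lt]; exact hr),
      hCv hz⟩
    exact huv this
  have hder : ∀ r : ℝ, HasDerivAt (fun r => inner ℝ (S.e (S.pt (Φ.φ r z))) (S.dir z))
      (inner ℝ (R.ρ (S.pt (Φ.φ r z)) • S.dir (Φ.φ r z)) (S.dir z)) r := fun r => by
    have h := ((Φ.sol z).2 r (mem_univ r)).inner ℝ (hasDerivAt_const r (S.dir z))
    simpa using h
  have hmono : StrictMonoOn (fun r => inner ℝ (S.e (S.pt (Φ.φ r z))) (S.dir z)) (Ioo (-δ) δ) := by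
    refine strictMonoOn_of_deriv_pos (convex_Ioo _ _)
      (fun r _ => (hder r).continuousAt.continuousWithinAt) fun r hr => ?_
    rw [interior_Ioo] at hr
    rw [(hder r).deriv, real_inner_smul_left]
    refine mul_pos ((R.pos_iff _).2 (D07_pt_mem _)) ?_
    have h1 := (D07_dist_dir (Φ.φ r z) z).trans_lt (hclose r hr)
    have h2 : inner ℝ (S.dir z) (S.dir z) = 1 := by
      rw [real_inner_self_eq_norm_sq, D07_norm_dir]; norm_num
    have h3 : inner ℝ (S.dir (Φ.φ r z)) (S.dir z) =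
        1 + inner ℝ (S.dir (Φ.φ r z) - S.dir z) (S.dir z) := by
      rw [inner_sub_left, h2]; ring
    have h4 := abs_real_inner_le_norm (S.dir (Φ.φ r z) - S.dir z) (S.dir z)
    rw [D07_norm_dir, mul_one] at h4
    rw [h3]
    have h5 := neg_abs_le (inner ℝ (S.dir (Φ.φ r z) - S.dir z) (S.dir z) : ℝ)
    linarith
  refine hmono.injOn (abs_lt.1 hs) ⟨by linarith, hδ⟩ ?_
  simp only [hret, Φ.zero]

theorem Flow.free (Φ : S.Flow R) (t : ℝ) (x : S.X) (h : S.pt (Φ.φ t x) = S.pt x) : t = 0 := by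
  obtain ⟨D⟩ := S.exists_xdata
  obtain ⟨δ, hδ, hshort⟩ := D07_short Φ _ (S.proper_pt (closure R.U) R.U_B
    isClosed_closure.isCompact)
  obtain ⟨ε, hε, hth⟩ := S.L_cpt.exists_thickening_subset_open R.U_open R.L_U
  have h1 : ∀ᶠ n in atTop, |D07_H Φ D x n t| < δ := by
    have := (D07_H_tendsto Φ D x t).abs
    rw [abs_zero] at this
    exact this.eventually_lt_const hδ
  have h2 : ∀ᶠ n in atTop, infDist (fw S.f n (S.pt x)) S.L < ε :=
    Tendsto.eventually_lt_const hε (D07_pt_mem x)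
  obtain ⟨n, hn1, hn2⟩ := (h1.and h2).exists
  have h3 : S.pt (fw D.F n x) ∈ closure R.U := by
    rw [D07_pt_fw]
    apply subset_closure
    apply hth
    rw [mem_thickening_iff]
    exact (infDist_lt_iff S.L_ne).1 hn2
  have h4 : D07_H Φ D x n t = 0 := by
    refine hshort _ h3 _ hn1 ?_
    rw [← D07_H_rel, D07_pt_fw, D07_pt_fw, h]
  rw [← D07_H_zero Φ D x n] at h4
  exact (D07_H_mono Φ D x n).injective h4

end GAtt
end Pool.MP85
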