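import Pool.Agent.Lib.MP_85e637_an.AbsC2
import Pool.Agent.Lib.MP_85e637_an.C13
import Pool.Agent.Lib.MP_85e637_an.C14b
import Pool.Agent.Lib.MP_85e637_an.D02a

/-!
# D08: cross sections for the stable flow
-/

open Filter Topology Set Metric Module

namespace Pool.MP85

namespace GAtt
variable {d N : ℕ} {K : Type} [MetricSpace K] [CompactSpace K] {S : GAtt d N K} {R : S.Speed}

theorem D08_pm {V : Submodule ℝ (EE N)} (hV : finrank ℝ V = 1) {u w : EE N} (hu : u ∈ V)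
    (hw : w ∈ V) (hu1 : ‖u‖ = 1) (hw1 : ‖w‖ = 1) : u = w ∨ u = -w := by
  have hw0 : (⟨w, hw⟩ : V) ≠ 0 := by
    intro h
    have : w = 0 := congrArg Subtype.val h
    rw [this, norm_zero] at hw1
    norm_num at hw1
  obtain ⟨c, hc⟩ := exists_smul_eq_of_finrank_eq_one hV hw0 ⟨u, hu⟩
  have hc' : c • w = u := congrArg Subtype.val hc
  have h1 : |c| = 1 := by
    have := congrArg norm hc'
    rw [norm_smul, hw1, hu1, mul_one, Real.norm_eq_abs] at this
    exact this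
  rcases (abs_eq zero_le_one).1 h1 with h | h
  · left; rw [← hc', h, one_smul]
  · right; rw [← hc', h, neg_smul, one_smul]

theorem D08_align : ∀ η > 0, ∃ ρ > 0, ∀ b ∈ S.H, ∀ w ∈ S.Es b, ‖w‖ = 1 → ∀ z ∈ S.S1,
    dist b z < ρ → ∀ u ∈ S.Es z, ‖u‖ = 1 → ‖u - w‖ ≤ η ∨ ‖u + w‖ ≤ η := by
  intro η hη
  by_contra hcon
  push Not at hcon
  have hseq : ∀ n : ℕ, ∃ q : (K × EE N) × (K × EE N), q.1.1 ∈ S.H ∧ q.1.2 ∈ S.Es q.1.1 ∧
      ‖q.1.2‖ = 1 ∧ q.2.1 ∈ S.S1 ∧ dist q.1.1 q.2.1 < 1 / ((n : ℝ) + 1) ∧ q.2.2 ∈ S.Es q.2.1 ∧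
      ‖q.2.2‖ = 1 ∧ η < ‖q.2.2 - q.1.2‖ ∧ η < ‖q.2.2 + q.1.2‖ := by
    intro n
    obtain ⟨b, hb, w, hw, hw1, z, hz, hbz, u, hu, hu1, h1, h2⟩ := hcon (1 / ((n : ℝ) + 1)) (by positivity)
    exact ⟨((b, w), (z, u)), hb, hw, hw1, hz, hbz, hu, hu1, h1, h2⟩
  choose q hq using hseq
  have hcpt : IsCompact ((univ : Set (K × K)) ×ˢ (sphere (0 : EE N) 1 ×ˢ sphere (0 : EE N) 1)) :=
    isCompact_univ.prod ((isCompact_sphere _ _).prod (isCompact_sphere _ _))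
  have hmem : ∀ n, (((q n).1.1, (q n).2.1), ((q n).1.2, (q n).2.2)) ∈
      ((univ : Set (K × K)) ×ˢ (sphere (0 : EE N) 1 ×ˢ sphere (0 : EE N) 1)) := by
    intro n
    obtain ⟨-, -, h3, -, -, -, h7, -, -⟩ := hq n
    exact ⟨mem_univ _, by simpa using h3, by simpa using h7⟩
  obtain ⟨⟨⟨b0, z0⟩, ⟨w0, u0⟩⟩, hin, φ, hφ, hlim⟩ := hcpt.tendsto_subseq hmem
  have hlim1 := (continuous_fst.tendsto _).comp hlim
  have hlim2 := (continuous_snd.tendsto _).comp hlim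
  have hb : Tendsto (fun n => (q (φ n)).1.1) atTop (𝓝 b0) :=
    (continuous_fst.tendsto _).comp hlim1
  have hz : Tendsto (fun n => (q (φ n)).2.1) atTop (𝓝 z0) :=
    (continuous_snd.tendsto _).comp hlim1
  have hw : Tendsto (fun n => (q (φ n)).1.2) atTop (𝓝 w0) :=
    (continuous_fst.tendsto _).comp hlim2
  have hu : Tendsto (fun n => (q (φ n)).2.2) atTop (𝓝 u0) :=
    (continuous_snd.tendsto _).comp hlim2
  have hzb : z0 = b0 := by
    have h1 : Tendsto (fun n => dist (q (φ n)).1.1 (q (φ n)).2.1) atTop (𝓝 (dist b0 z0)) :=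
      hb.dist hz
    have h2 : Tendsto (fun n => dist (q (φ n)).1.1 (q (φ n)).2.1) atTop (𝓝 0) := by
      refine squeeze_zero (fun n => dist_nonneg) (fun n => (hq (φ n)).2.2.2.2.1.le) ?_
      exact tendsto_one_div_add_atTop_nhds_zero_nat.comp hφ.tendsto_atTop
    exact (dist_eq_zero.1 (tendsto_nhds_unique h1 h2)).symm
  have hb0 : b0 ∈ S.H := S.closed_H.mem_of_tendsto hb (Eventually.of_forall fun n => (hq (φ n)).1)
  have hb1 : b0 ∈ S.S1 := S.mem_S1_of_H hb0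
  have hw0 : w0 ∈ S.Es b0 := S.closed_Es1 (fun n => S.mem_S1_of_H (hq (φ n)).1) hb1 hb
    (fun n => (hq (φ n)).2.1) hw
  rw [hzb] at hz
  have hu0 : u0 ∈ S.Es b0 := S.closed_Es1 (fun n => (hq (φ n)).2.2.2.1) hb1 hz
    (fun n => (hq (φ n)).2.2.2.2.2.1) hu
  have hw1 : ‖w0‖ = 1 := by simpa using hin.2.1
  have hu1 : ‖u0‖ = 1 := by simpa using hin.2.2
  have h1 : η ≤ ‖u0 - w0‖ := ge_of_tendsto (hu.sub hw).norm
    (Eventually.of_forall fun n => (hq (φ n)).2.2.2.2.2.2.2.1.le)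
  have h2 : η ≤ ‖u0 + w0‖ := ge_of_tendsto (hu.add hw).norm
    (Eventually.of_forall fun n => (hq (φ n)).2.2.2.2.2.2.2.2.le)
  rcases D08_pm hb1.2 hu0 hw0 hu1 hw1 with h | h
  · rw [h, sub_self, norm_zero] at h1; linarith
  · rw [h, neg_add_cancel, norm_zero] at h2; linarith

theorem D08_inner {u w : EE N} (hu : ‖u‖ = 1) (hw : ‖w‖ = 1) {η : ℝ} (hη : η ≤ 1)
    (h : ‖u - w‖ ≤ η) : 1 / 2 ≤ inner ℝ u w := by
  have h1 := norm_sub_sq_real u w
  rw [hu, hw] at h1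
  have h0 := norm_nonneg (u - w)
  nlinarith

/-- the direction along a short orbit stays close to one of the two unit vectors -/
theorem Flow.D08_dir (Φ : S.Flow R) {η ρ : ℝ} (hη : η ≤ 1)
    (hal : ∀ b ∈ S.H, ∀ w ∈ S.Es b, ‖w‖ = 1 → ∀ z ∈ S.S1,
      dist b z < ρ → ∀ u ∈ S.Es z, ‖u‖ = 1 → ‖u - w‖ ≤ η ∨ ‖u + w‖ ≤ η)
    {b : K} (hb : b ∈ S.H) {w : EE N} (hw : w ∈ S.Es b) (hw1 : ‖w‖ = 1) {y : S.X} {a t s0 : ℝ}
    (hs0 : s0 ∈ Icc a t) (hd : ∀ s ∈ Icc a t, dist b (S.pt (Φ.φ s y)) < ρ)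
    (h0 : ‖S.dir (Φ.φ s0 y) - w‖ ≤ η) : ∀ s ∈ Icc a t, ‖S.dir (Φ.φ s y) - w‖ ≤ η := by
  have hφc : Continuous fun s : ℝ => Φ.φ s y :=
    Φ.cont.comp (continuous_id.prodMk continuous_const)
  have hg : Continuous fun s : ℝ => inner ℝ (S.dir (Φ.φ s y)) w :=
    (S.continuous_dir.comp hφc).inner continuous_const
  have hdir1 : ∀ s, ‖S.dir (Φ.φ s y)‖ = 1 := fun s => (Φ.φ s y).2.2.2
  have hor : ∀ s ∈ Icc a t, ‖S.dir (Φ.φ s y) - w‖ ≤ η ∨ ‖S.dir (Φ.φ s y) + w‖ ≤ η := by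
    intro s hs
    exact hal b hb w hw hw1 _ (S.B_S1 (Φ.φ s y).2.1) (hd s hs) _ (Φ.φ s y).2.2.1 (hdir1 s)
  have hneg : ∀ s, ‖S.dir (Φ.φ s y) + w‖ ≤ η → inner ℝ (S.dir (Φ.φ s y)) w ≤ -(1 / 2) := by
    intro s hs
    have h1 := D08_inner (hdir1 s) (w := -w) (by rwa [norm_neg]) hη (by rwa [sub_neg_eq_add])
    rw [inner_neg_right] at h1
    linarith
  intro s hs
  rcases hor s hs with h | h
  · exact h
  exfalso
  have h1 := hneg s h
  have h2 := D08_inner (hdir1 s0) hw1 hη h0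
  have hpre : IsPreconnected ((fun s : ℝ => inner ℝ (S.dir (Φ.φ s y)) w) '' Icc a t) :=
    isPreconnected_Icc.image _ hg.continuousOn
  have hmem : (0 : ℝ) ∈ (fun s : ℝ => inner ℝ (S.dir (Φ.φ s y)) w) '' Icc a t :=
    hpre.ordConnected.out ⟨s, hs, rfl⟩ ⟨s0, hs0, rfl⟩ ⟨by simp only; linarith, by simp only; linarith⟩
  obtain ⟨s', hs', h0'⟩ := hmem
  simp only at h0'
  rcases hor s' hs' with h' | h'
  · have := D08_inner (hdir1 s') hw1 hη h'
    linarith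
  · have := hneg s' h'
    linarith

/-- displacement along the flow -/
theorem Flow.D08_disp (Φ : S.Flow R) {η : ℝ} (hη0 : 0 ≤ η) (hη : η ≤ 1) {w : EE N}
    (hw1 : ‖w‖ = 1) {y : S.X} {a t : ℝ} (hat : a ≤ t)
    (h : ∀ s ∈ Icc a t, ‖S.dir (Φ.φ s y) - w‖ ≤ η) {ρ0 : ℝ}
    (hρ0 : ∀ s ∈ Icc a t, ρ0 ≤ R.ρ (S.pt (Φ.φ s y))) :
    ∃ l : ℝ, 0 ≤ l ∧ ρ0 * (t - a) / 2 ≤ l ∧
      ‖S.e (S.pt (Φ.φ t y)) - S.e (S.pt (Φ.φ a y)) - l • w‖ ≤ 2 * η * l := by
  set G : ℝ → EE N := fun s => S.e (S.pt (Φ.φ s y)) with hG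
  set g : ℝ → ℝ := fun s => R.ρ (S.pt (Φ.φ s y)) with hgdef
  set v : ℝ → EE N := fun s => S.dir (Φ.φ s y) with hv
  have hGd : ∀ s, HasDerivAt G (g s • v s) s := fun s => (Φ.sol y).2 s (mem_univ s)
  have hg0 : ∀ s, 0 ≤ g s := fun s => R.nonneg _
  have hdir1 : ∀ s, ‖v s‖ = 1 := fun s => (Φ.φ s y).2.2.2
  have hin : ∀ s ∈ Icc a t, 1 / 2 ≤ inner ℝ (v s) w := fun s hs =>
    D08_inner (hdir1 s) hw1 hη (h s hs)
  -- the height function
  set k : ℝ → ℝ := fun s => inner ℝ (G s - G a) w with hk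
  have hkd : ∀ s, HasDerivAt k (g s * inner ℝ (v s) w) s := by
    intro s
    have h1 := ((hGd s).sub_const (G a)).inner ℝ (hasDerivAt_const s w)
    have h2 : inner ℝ (G s - G a) (0 : EE N) + inner ℝ (g s • v s) w = g s * inner ℝ (v s) w := by
      rw [inner_zero_right, zero_add, real_inner_smul_left]
    rw [← h2]; exact h1
  have hka : k a = 0 := by simp [hk]
  set F : ℝ → EE N := fun s => (G s - G a) - k s • w with hF
  have hFd : ∀ s, HasDerivAt F (g s • v s - (g s * inner ℝ (v s) w) • w) s := by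
    intro s
    exact ((hGd s).sub_const (G a)).sub ((hkd s).smul_const w)
  have hFa : F a = 0 := by simp [hF, hka]
  have hcomp : ∀ s ∈ Icc a t, ‖g s • v s - (g s * inner ℝ (v s) w) • w‖
      ≤ 2 * η * (g s * inner ℝ (v s) w) := by
    intro s hs
    have e1 : g s • v s - (g s * inner ℝ (v s) w) • w = g s • (v s - (inner ℝ (v s) w) • w) := by
      rw [smul_sub, smul_smul]
    rw [e1, norm_smul, Real.norm_eq_abs, abs_of_nonneg (hg0 s)]
    have e2 : ‖v s - (inner ℝ (v s) w : ℝ) • w‖ ≤ η := by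
      have e3 : ‖v s - (inner ℝ (v s) w : ℝ) • w‖ ^ 2 ≤ ‖v s - w‖ ^ 2 := by
        rw [norm_sub_sq_real, norm_sub_sq_real, norm_smul, real_inner_smul_right, hw1, hdir1 s,
          Real.norm_eq_abs]
        have := sq_abs (inner ℝ (v s) w : ℝ)
        nlinarith [sq_nonneg ((inner ℝ (v s) w : ℝ) - 1)]
      exact (abs_le_of_sq_le_sq' e3 (norm_nonneg _)).2.trans (h s hs)
    calc g s * ‖v s - (inner ℝ (v s) w : ℝ) • w‖ ≤ g s * η :=
          mul_le_mul_of_nonneg_left e2 (hg0 s)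
      _ ≤ g s * (η * (2 * inner ℝ (v s) w)) := by
          refine mul_le_mul_of_nonneg_left ?_ (hg0 s)
          nlinarith [hin s hs]
      _ = _ := by ring
  have hbound : ∀ s ∈ Icc a t, ‖F s‖ ≤ 2 * η * k s := by
    refine image_norm_le_of_norm_deriv_right_le_deriv_boundary
      (f' := fun s => g s • v s - (g s * inner ℝ (v s) w) • w)
      (B' := fun s => 2 * η * (g s * inner ℝ (v s) w))
      (fun s _ => (hFd s).continuousAt.continuousWithinAt)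
      (fun s _ => (hFd s).hasDerivWithinAt) ?_ (fun s => (hkd s).const_mul (2 * η))
      (fun s hs => hcomp s (Ico_subset_Icc_self hs))
    rw [hFa, hka]; simp
  have hlow : ∀ s ∈ Icc a t, ρ0 * (s - a) / 2 ≤ k s := by
    have hmono : MonotoneOn (fun s => k s - ρ0 * (s - a) / 2) (Icc a t) := by
      refine monotoneOn_of_hasDerivWithinAt_nonneg (convex_Icc a t)
        (f' := fun s => g s * inner ℝ (v s) w - ρ0 / 2) ?_ ?_ ?_
      · exact fun s _ => ((hkd s).continuousAt.continuousWithinAt).sub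
          (by fun_prop)
      · intro s _
        have h1 : HasDerivAt (fun s => ρ0 * (s - a) / 2) (ρ0 / 2) s := by
          have := (((hasDerivAt_id s).sub_const a).const_mul ρ0).div_const 2
          simpa using this
        exact ((hkd s).sub h1).hasDerivWithinAt
      · intro s hs
        have hs' : s ∈ Icc a t := interior_subset hs
        have h1 := hρ0 s hs'
        have h2 := hin s hs'
        have h3 := hg0 s
        have h4 : ρ0 ≤ g s := h1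
        show 0 ≤ g s * inner ℝ (v s) w - ρ0 / 2
        nlinarith
    intro s hs
    have h1 := hmono (left_mem_Icc.2 hat) hs hs.1
    simp only [hka, sub_self, mul_zero, zero_div] at h1
    linarith
  have hnn : 0 ≤ k t := by
    have hmono : MonotoneOn k (Icc a t) := by
      refine monotoneOn_of_hasDerivWithinAt_nonneg (convex_Icc a t)
        (f' := fun s => g s * inner ℝ (v s) w) ?_ ?_ ?_
      · exact fun s _ => (hkd s).continuousAt.continuousWithinAt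
      · exact fun s _ => (hkd s).hasDerivWithinAt
      · intro s hs
        have hs' : s ∈ Icc a t := interior_subset hs
        exact mul_nonneg (hg0 s) (by linarith [hin s hs'])
    have := hmono (left_mem_Icc.2 hat) (right_mem_Icc.2 hat) hat
    rwa [hka] at this
  exact ⟨k t, hnn, hlow t (right_mem_Icc.2 hat), hbound t (right_mem_Icc.2 hat)⟩

theorem Flow.D08_dist (Φ : S.Flow R) (y : S.X) (s t : ℝ) :
    dist (S.pt (Φ.φ s y)) (S.pt (Φ.φ t y)) ≤ |s - t| := by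
  rw [← S.e_isom]
  have h1 : ∀ r ∈ (univ : Set ℝ), HasDerivWithinAt (fun s => S.e (S.pt (Φ.φ s y)))
      (R.ρ (S.pt (Φ.φ r y)) • S.dir (Φ.φ r y)) univ r :=
    fun r _ => ((Φ.sol y).2 r (mem_univ r)).hasDerivWithinAt
  have h2 : ∀ r ∈ (univ : Set ℝ), ‖R.ρ (S.pt (Φ.φ r y)) • S.dir (Φ.φ r y)‖ ≤ 1 := by
    intro r _
    rw [norm_smul, Real.norm_eq_abs, abs_of_nonneg (R.nonneg _)]
    have : ‖S.dir (Φ.φ r y)‖ = 1 := (Φ.φ r y).2.2.2
    rw [this, mul_one]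
    exact R.le_one _
  have := convex_univ.norm_image_sub_le_of_norm_hasDerivWithin_le h1 h2 (mem_univ t) (mem_univ s)
  rwa [one_mul, Real.norm_eq_abs] at this

theorem D08_unit {b : K} (hb : b ∈ S.H) : ∃ w ∈ S.Es b, ‖w‖ = 1 := by
  have h1 : finrank ℝ (S.Es b) = 1 := hb.2.1
  have h2 : Nontrivial (S.Es b) := Module.nontrivial_of_finrank_pos (R := ℝ) (by rw [h1]; norm_num)
  obtain ⟨⟨v, hv⟩, hv0⟩ := exists_ne (0 : S.Es b)
  have hv0' : v ≠ 0 := fun h => hv0 (Subtype.ext h)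
  exact ⟨(‖v‖⁻¹ : ℝ) • v, Submodule.smul_mem _ _ hv, norm_smul_inv_norm hv0'⟩

/-- a unit vector of `Es b` close to `dir y` -/
theorem D08_choose {η ρ : ℝ}
    (hal : ∀ b ∈ S.H, ∀ w ∈ S.Es b, ‖w‖ = 1 → ∀ z ∈ S.S1,
      dist b z < ρ → ∀ u ∈ S.Es z, ‖u‖ = 1 → ‖u - w‖ ≤ η ∨ ‖u + w‖ ≤ η)
    {b : K} (hb : b ∈ S.H) {y : S.X} (hd : dist b (S.pt y) < ρ) :
    ∃ w ∈ S.Es b, ‖w‖ = 1 ∧ ‖S.dir y - w‖ ≤ η := by
  obtain ⟨w, hw, hw1⟩ := D08_unit hb
  rcases hal b hb w hw hw1 _ (S.B_S1 y.2.1) hd _ y.2.2.1 y.2.2.2 with h | h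
  · exact ⟨w, hw, hw1, h⟩
  · exact ⟨-w, Submodule.neg_mem _ hw, by rwa [norm_neg], by rw [sub_neg_eq_add]; exact h⟩

theorem Flow.cs1 (Φ : S.Flow R) : ∃ ε > 0, ∀ C ⊆ S.H ∩ S.B, IsCompact C → ∃ δ > 0, ∀ b ∈ C,
    ∀ y : S.X, ∀ t : ℝ, |t| ≤ δ → S.pt y ∈ WUl S.f ε b → S.pt (Φ.φ t y) ∈ WUl S.f ε b →
      t = 0 := by
  obtain ⟨ε1, hε1, hht⟩ := S.height
  obtain ⟨r, hr, c, hc, ζ, hζ⟩ := hht ε1 hε1 le_rfl
  obtain ⟨ρ, hρ, hal⟩ := D08_align (S := S) (min (c / 2) 1) (by positivity)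
  have hη1 : min (c / 2) 1 ≤ 1 := min_le_right _ _
  have hη0 : 0 ≤ min (c / 2) 1 := by positivity
  have hηc : 2 * min (c / 2) 1 ≤ c := by
    have := min_le_left (c / 2) 1
    linarith
  set ε := min ε1 (min (r / 4) (ρ / 4)) with hε
  have hε0 : 0 < ε := by positivity
  have hεε1 : ε ≤ ε1 := min_le_left _ _
  have hεr : ε ≤ r / 4 := (min_le_right _ _).trans (min_le_left _ _)
  have hερ : ε ≤ ρ / 4 := (min_le_right _ _).trans (min_le_right _ _)
  refine ⟨ε, hε0, fun C hC hCc => ⟨min (r / 4) (ρ / 4), by positivity, ?_⟩⟩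
  -- the case `t > 0`
  have key : ∀ b ∈ C, ∀ y : S.X, ∀ t : ℝ, 0 < t → t ≤ min (r / 4) (ρ / 4) →
      S.pt y ∈ WUl S.f ε b → S.pt (Φ.φ t y) ∈ WUl S.f ε b → False := by
    intro b hb y t ht htδ hy hty
    have hbH : b ∈ S.H := (hC hb).1
    have htr : t ≤ r / 4 := htδ.trans (min_le_left _ _)
    have htρ : t ≤ ρ / 4 := htδ.trans (min_le_right _ _)
    have hby : dist b (S.pt y) ≤ ε := by have := hy 0; simpa only [bk_zero] using this
    have hds : ∀ s ∈ Icc 0 t, dist b (S.pt (Φ.φ s y)) ≤ ε + t := by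
      intro s hs
      have h1 := Φ.D08_dist y 0 s
      rw [Φ.zero, zero_sub, abs_neg, abs_of_nonneg hs.1] at h1
      have h2 := dist_triangle b (S.pt y) (S.pt (Φ.φ s y))
      linarith [hs.2]
    have hd0 : dist b (S.pt y) < ρ := by linarith
    obtain ⟨w, hw, hw1, hyw⟩ := D08_choose hal hbH hd0
    have hdir := Φ.D08_dir hη1 hal hbH hw hw1 (y := y) (a := 0) (t := t) (s0 := 0)
      ⟨le_rfl, ht.le⟩ (fun s hs => by linarith [hds s hs]) (by rw [Φ.zero]; exact hyw)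
    -- minimum of the speed
    have hcont : Continuous fun s : ℝ => R.ρ (S.pt (Φ.φ s y)) := by
      obtain ⟨cl, hcl⟩ := R.lip
      have hρc : Continuous R.ρ := by
        have hlip : LipschitzWith (Real.toNNReal cl) R.ρ := by
          refine LipschitzWith.of_dist_le_mul fun x x' => ?_
          rw [Real.dist_eq]
          exact (hcl x x').trans (mul_le_mul_of_nonneg_right (Real.le_coe_toNNReal cl) dist_nonneg)
        exact hlip.continuous
      exact hρc.comp (S.continuous_pt.comp (Φ.cont.comp (continuous_id.prodMk continuous_const)))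
    obtain ⟨s1, hs1, hmin⟩ := isCompact_Icc.exists_isMinOn (nonempty_Icc.2 ht.le)
      hcont.continuousOn (s := Icc 0 t)
    have hpos : 0 < R.ρ (S.pt (Φ.φ s1 y)) := (R.pos_iff _).2 (Φ.φ s1 y).2.1
    obtain ⟨l, hl0, hl, hlw⟩ := Φ.D08_disp hη0 hη1 hw1 ht.le hdir
      (ρ0 := R.ρ (S.pt (Φ.φ s1 y))) (fun s hs => hmin hs)
    have hlpos : 0 < l := by
      have : 0 < R.ρ (S.pt (Φ.φ s1 y)) * (t - 0) / 2 := by
        rw [sub_zero]; positivity
      linarith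
    obtain ⟨h1, h2, h3, h4⟩ := hζ b hbH w hw hw1
    have hyr : dist b (S.pt y) ≤ r := by linarith
    have htyr : dist b (S.pt (Φ.φ t y)) ≤ r := by
      have := hds t ⟨ht.le, le_rfl⟩
      linarith
    have hsub : WUl S.f ε b ⊆ WUl S.f ε1 b := fun z hz n => (hz n).trans hεε1
    have hz1 : ζ b w (S.pt y) = 0 := (h1 _ hyr).2 (hsub hy)
    have hz2 : ζ b w (S.pt (Φ.φ t y)) = 0 := (h1 _ htyr).2 (hsub hty)
    rw [Φ.zero] at hlw
    have h5 := h4 (S.pt y) (S.pt (Φ.φ t y)) l hyr htyr hl0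
      (hlw.trans (mul_le_mul_of_nonneg_right hηc hl0))
    rw [hz1, hz2] at h5
    have : 0 < c * l := mul_pos hc hlpos
    linarith
  intro b hb y t ht hy hty
  rcases lt_trichotomy t 0 with h | h | h
  · exfalso
    refine key b hb (Φ.φ t y) (-t) (by linarith) ?_ hty ?_
    · rwa [abs_of_neg h] at ht
    · rw [← Φ.add, neg_add_cancel, Φ.zero]; exact hy
  · exact h
  · exact (key b hb y t h (by rwa [abs_of_pos h] at ht) hy hty).elim

theorem Flow.cs2 (Φ : S.Flow R) : ∀ C ⊆ S.H ∩ S.B, IsCompact C → ∀ ε > 0, ∃ r > 0, ∀ b ∈ C,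
    ∀ y : S.X, dist b (S.pt y) < r → ∃ t : ℝ, |t| ≤ ε ∧ S.pt (Φ.φ t y) ∈ WUl S.f ε b := by
  intro C hC hCc ε hε
  rcases C.eq_empty_or_nonempty with hCe | hCne
  · exact ⟨1, one_pos, fun b hb => by rw [hCe] at hb; exact hb.elim⟩
  obtain ⟨ε1, hε1, hht⟩ := S.height
  obtain ⟨r, hr, c, hc, ζ, hζ⟩ := hht (min ε ε1) (by positivity) (min_le_right _ _)
  obtain ⟨ρ, hρ, hal⟩ := D08_align (S := S) (min (c / 2) 1) (by positivity)
  have hη1 : min (c / 2) 1 ≤ 1 := min_le_right _ _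
  have hη0 : 0 ≤ min (c / 2) 1 := by positivity
  have hηc : 2 * min (c / 2) 1 ≤ c := by
    have := min_le_left (c / 2) 1
    linarith
  -- lower bound for the speed near `C`
  obtain ⟨cl, hcl⟩ := R.lip
  have hρc : Continuous R.ρ := by
    have hlip : LipschitzWith (Real.toNNReal cl) R.ρ := by
      refine LipschitzWith.of_dist_le_mul fun x x' => ?_
      rw [Real.dist_eq]
      exact (hcl x x').trans (mul_le_mul_of_nonneg_right (Real.le_coe_toNNReal cl) dist_nonneg)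
    exact hlip.continuous
  obtain ⟨b1, hb1, hmin⟩ := hCc.exists_isMinOn hCne hρc.continuousOn
  set m0 := R.ρ b1 with hm0
  have hm0pos : 0 < m0 := (R.pos_iff _).2 (hC hb1).2
  have hcl' : 0 < |cl| + 1 := by positivity
  set κ := m0 / (2 * (|cl| + 1)) with hκ
  have hκ0 : 0 < κ := by positivity
  have hspeed : ∀ b ∈ C, ∀ z, dist b z ≤ κ → m0 / 2 ≤ R.ρ z := by
    intro b hb z hz
    have h1 : m0 ≤ R.ρ b := hmin hb
    have h2 := hcl b z
    have h3 : cl * dist b z ≤ (|cl| + 1) * κ := by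
      calc cl * dist b z ≤ (|cl| + 1) * dist b z :=
            mul_le_mul_of_nonneg_right (by linarith [le_abs_self cl]) dist_nonneg
        _ ≤ _ := mul_le_mul_of_nonneg_left hz hcl'.le
    have h4 : (|cl| + 1) * κ = m0 / 2 := by
      rw [hκ]; field_simp
    have h5 := (abs_le.1 h2).2
    linarith
  set τ := min ε (min (r / 4) (min (ρ / 4) (κ / 4))) with hτ
  have hτ0 : 0 < τ := by positivity
  have hτε : τ ≤ ε := min_le_left _ _
  have hτr : τ ≤ r / 4 := (min_le_right _ _).trans (min_le_left _ _)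
  have hτρ : τ ≤ ρ / 4 := (min_le_right _ _).trans ((min_le_right _ _).trans (min_le_left _ _))
  have hτκ : τ ≤ κ / 4 := (min_le_right _ _).trans ((min_le_right _ _).trans (min_le_right _ _))
  set r' := min τ (c * (c * (m0 * τ / 4))) with hr'
  have hr'0 : 0 < r' := by positivity
  have hr'τ : r' ≤ τ := min_le_left _ _
  refine ⟨r', hr'0, fun b hb y hby => ?_⟩
  have hbH : b ∈ S.H := (hC hb).1
  have hds : ∀ s ∈ Icc (-τ) τ, dist b (S.pt (Φ.φ s y)) ≤ 2 * τ := by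
    intro s hs
    have h1 := Φ.D08_dist y 0 s
    rw [Φ.zero, zero_sub, abs_neg] at h1
    have h2 := dist_triangle b (S.pt y) (S.pt (Φ.φ s y))
    have h3 : |s| ≤ τ := abs_le.2 hs
    linarith
  obtain ⟨w, hw, hw1, hyw⟩ := D08_choose hal hbH (y := y) (by linarith)
  have h0mem : (0 : ℝ) ∈ Icc (-τ) τ := ⟨by linarith, hτ0.le⟩
  have hdir := Φ.D08_dir hη1 hal hbH hw hw1 (y := y) (a := -τ) (t := τ) (s0 := 0)
    h0mem (fun s hs => by linarith [hds s hs]) (by rw [Φ.zero]; exact hyw)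
  obtain ⟨h1, h2, h3, h4⟩ := hζ b hbH w hw hw1
  have hinc : ∀ a t : ℝ, -τ ≤ a → a ≤ t → t ≤ τ →
      c * (m0 / 2 * (t - a) / 2) ≤ ζ b w (S.pt (Φ.φ t y)) - ζ b w (S.pt (Φ.φ a y)) := by
    intro a t ha hat ht
    have hsub : Icc a t ⊆ Icc (-τ) τ := Icc_subset_Icc ha ht
    obtain ⟨l, hl0, hl, hlw⟩ := Φ.D08_disp hη0 hη1 hw1 hat (fun s hs => hdir s (hsub hs))
      (ρ0 := m0 / 2) (fun s hs => hspeed b hb _ (by linarith [hds s (hsub hs)]))
    have h5 := h4 (S.pt (Φ.φ a y)) (S.pt (Φ.φ t y)) l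
      (by linarith [hds a (hsub ⟨le_rfl, hat⟩)]) (by linarith [hds t (hsub ⟨hat, le_rfl⟩)]) hl0
      (hlw.trans (mul_le_mul_of_nonneg_right hηc hl0))
    exact (mul_le_mul_of_nonneg_left hl hc.le).trans h5
  have hζ0 : |ζ b w (S.pt y)| ≤ c * (m0 * τ / 4) := by
    have h5 := h3 (S.pt y) b (by linarith) (by rw [dist_self]; exact hr.le)
    rw [h2, sub_zero] at h5
    refine h5.trans ?_
    rw [dist_comm]
    have h6 : dist b (S.pt y) ≤ c * (c * (m0 * τ / 4)) := hby.le.trans (min_le_right _ _)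
    calc c⁻¹ * dist b (S.pt y) ≤ c⁻¹ * (c * (c * (m0 * τ / 4))) :=
          mul_le_mul_of_nonneg_left h6 (inv_pos.2 hc).le
      _ = _ := by rw [inv_mul_cancel_left₀ hc.ne']
  have hup : 0 ≤ ζ b w (S.pt (Φ.φ τ y)) := by
    have h5 := hinc 0 τ (by linarith) hτ0.le le_rfl
    rw [Φ.zero] at h5
    have h6 := (abs_le.1 hζ0).1
    have h7 : c * (m0 / 2 * (τ - 0) / 2) = c * (m0 * τ / 4) := by ring
    linarith
  have hdown : ζ b w (S.pt (Φ.φ (-τ) y)) ≤ 0 := by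
    have h5 := hinc (-τ) 0 le_rfl (by linarith) hτ0.le
    rw [Φ.zero] at h5
    have h6 := (abs_le.1 hζ0).2
    have h7 : c * (m0 / 2 * (0 - -τ) / 2) = c * (m0 * τ / 4) := by ring
    linarith
  have hcont : ContinuousOn (fun s : ℝ => ζ b w (S.pt (Φ.φ s y))) (Icc (-τ) τ) := by
    have hL : LipschitzOnWith (Real.toNNReal c⁻¹) (ζ b w) (closedBall b r) := by
      refine LipschitzOnWith.of_dist_le_mul fun z hz z' hz' => ?_
      rw [Real.dist_eq, Real.coe_toNNReal _ (inv_pos.2 hc).le]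
      exact h3 z z' (by rw [dist_comm]; exact hz) (by rw [dist_comm]; exact hz')
    refine hL.continuousOn.comp
      (S.continuous_pt.comp (Φ.cont.comp (continuous_id.prodMk continuous_const))).continuousOn ?_
    intro s hs
    rw [mem_closedBall, dist_comm]
    show dist b (S.pt (Φ.φ s y)) ≤ r
    linarith [hds s hs]
  obtain ⟨t, ht, hzt⟩ := intermediate_value_Icc (by linarith : -τ ≤ τ) hcont ⟨hdown, hup⟩
  refine ⟨t, (abs_le.2 ht).trans hτε, ?_⟩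
  have h5 := (h1 (S.pt (Φ.φ t y)) (by linarith [hds t ht])).1 hzt
  exact fun n => (h5 n).trans (min_le_left _ _)

end GAtt

end Pool.MP85
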