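import Pool.Agent.Lib.MP_85e637_an.AbsC2
import Pool.Agent.Lib.MP_85e637_an.C14a
import Pool.Agent.Lib.MP_85e637_an.D02a
import Pool.Agent.Lib.MP_85e637_an.D02b

/-!
# D09a: plaques on the double cover of `L`
-/

open Filter Topology Set Metric Module

namespace Pool.MP85
namespace GAtt
variable {d N : ℕ} {K : Type} [MetricSpace K] [CompactSpace K] (S : GAtt d N K)

theorem D09a_dist (x y : S.X) : dist x y = max (dist (S.pt x) (S.pt y)) (dist (S.dir x) (S.dir y)) :=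
  rfl

theorem D09a_dist_pt (x y : S.X) : dist (S.pt x) (S.pt y) ≤ dist x y := by
  rw [S.D09a_dist]; exact le_max_left _ _

theorem D09a_dist_dir (x y : S.X) : dist (S.dir x) (S.dir y) ≤ dist x y := by
  rw [S.D09a_dist]; exact le_max_right _ _

theorem D09a_norm_dir (x : S.X) : ‖S.dir x‖ = 1 := x.2.2.2

theorem D09a_pt_symm (D : S.XData) (x : S.X) : S.pt (D.F.symm x) = S.f.symm (S.pt x) := by
  have h := D.pt_F (D.F.symm x)
  rw [D.F.apply_symm_apply] at h
  rw [h, S.f.symm_apply_apply]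

theorem D09a_pt_bk (D : S.XData) (n : ℕ) (x : S.X) : S.pt (bk D.F n x) = bk S.f n (S.pt x) := by
  induction n generalizing x with
  | zero => rfl
  | succ n ih =>
    change S.pt ((D.F.symm : S.X → S.X)^[n + 1] x) = (S.f.symm : K → K)^[n + 1] (S.pt x)
    rw [Function.iterate_succ_apply, Function.iterate_succ_apply]
    have := ih (D.F.symm x)
    rw [S.D09a_pt_symm D] at this
    exact this

theorem D09a_L_symm {x : K} (hx : x ∈ S.L) : S.f.symm x ∈ S.L := by
  rw [← S.L_inv, S.f.apply_symm_apply]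
  exact hx

theorem D09a_L_bk {x : K} (hx : x ∈ S.L) (n : ℕ) : bk S.f n x ∈ S.L := by
  induction n generalizing x with
  | zero => exact hx
  | succ n ih =>
    change (S.f.symm : K → K)^[n + 1] x ∈ S.L
    rw [Function.iterate_succ_apply]
    exact ih (S.D09a_L_symm hx)

theorem D09a_LX_bk (D : S.XData) {x : S.X} (hx : x ∈ S.LX) (n : ℕ) : bk D.F n x ∈ S.LX := by
  change S.pt (bk D.F n x) ∈ S.L
  rw [S.D09a_pt_bk D]
  exact S.D09a_L_bk hx n

theorem D09a_wul_pt (D : S.XData) {ε : ℝ} {x y : S.X} (h : y ∈ WUl D.F ε x) :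
    S.pt y ∈ WUl S.f ε (S.pt x) := by
  intro n
  rw [← S.D09a_pt_bk D, ← S.D09a_pt_bk D]
  exact (S.D09a_dist_pt _ _).trans (h n)

theorem D09a_wul_mono {Z : Type} [MetricSpace Z] {F : Z ≃ₜ Z} {ε ε' : ℝ} {x : Z} (h : ε ≤ ε') :
    WUl F ε x ⊆ WUl F ε' x := fun _ hy n => (hy n).trans h

/-- contraction in the past on base plaques -/
theorem D09a_contr : ∃ ε > 0, ∀ x ∈ S.L, ∀ y ∈ WUl S.f ε x,
    (∀ n, dist (bk S.f n x) (bk S.f n y) ≤ dist x y / 4 ^ n) ∧
    dist (S.f.symm x) (S.f.symm y) ≤ dist x y / 4 := by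
  obtain ⟨ε, hε, hu⟩ := S.toGSys.H_u
  refine ⟨ε, hε, ?_⟩
  have step : ∀ x ∈ S.L, ∀ y ∈ WUl S.f ε x,
      dist (S.f.symm x) (S.f.symm y) ≤ dist x y / 4 := by
    intro x hx y hy
    have hself : x ∈ WUl S.f ε x := fun n => by rw [dist_self]; exact hε.le
    have := hu x (S.L_H hx) x hself y hy
    linarith
  intro x hx y hy
  refine ⟨fun n => ?_, step x hx y hy⟩
  induction n generalizing x y with
  | zero => simp [bk]
  | succ n ih =>
    have hy' : S.f.symm y ∈ WUl S.f ε (S.f.symm x) := by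
      intro m
      have := hy (m + 1)
      change dist ((S.f.symm : K → K)^[m + 1] x) ((S.f.symm : K → K)^[m + 1] y) ≤ ε at this
      rwa [Function.iterate_succ_apply, Function.iterate_succ_apply] at this
    have h1 := ih (S.f.symm x) (S.D09a_L_symm hx) (S.f.symm y) hy'
    have h2 := step x hx y hy
    change dist ((S.f.symm : K → K)^[n + 1] x) ((S.f.symm : K → K)^[n + 1] y) ≤ _
    rw [Function.iterate_succ_apply, Function.iterate_succ_apply]
    refine h1.trans ?_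
    rw [pow_succ, mul_comm, ← div_div]
    gcongr

/-- base plaques are contained in `L` -/
theorem D09a_sub : ∃ ε > 0, ∀ x ∈ S.L, ∀ y ∈ WUl S.f ε x, y ∈ S.L := by
  obtain ⟨ε, hε, hc⟩ := S.D09a_contr
  refine ⟨ε, hε, fun x hx y hy => S.repL y ?_⟩
  have h1 : Tendsto (fun n : ℕ => dist x y / 4 ^ n) atTop (𝓝 0) := by
    have h2 : Tendsto (fun n : ℕ => dist x y * (1 / 4 : ℝ) ^ n) atTop (𝓝 (dist x y * 0)) :=
      (tendsto_pow_atTop_nhds_zero_of_lt_one (by norm_num) (by norm_num)).const_mul _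
    rw [mul_zero] at h2
    refine h2.congr fun n => ?_
    rw [one_div, inv_pow]
    rfl
  refine squeeze_zero (fun n => infDist_nonneg) (fun n => ?_) h1
  refine (infDist_le_dist_of_mem (S.D09a_L_bk hx n)).trans ?_
  rw [dist_comm]
  exact (hc x hx y hy).1 n

/-- two sheets -/
theorem D09a_sheet (D : S.XData) : ∀ η > 0, ∃ ρ > 0, ∀ a ∈ S.LX, ∀ b ∈ S.LX,
    dist (S.pt a) (S.pt b) < ρ → dist (S.dir a) (S.dir b) < η ∨ dist (S.dir a) (-S.dir b) < η := by
  intro η hη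
  by_contra hcon
  push Not at hcon
  have h1 : ∀ n : ℕ, ∃ a ∈ S.LX, ∃ b ∈ S.LX, dist (S.pt a) (S.pt b) < 1 / ((n : ℝ) + 1) ∧
      η ≤ dist (S.dir a) (S.dir b) ∧ η ≤ dist (S.dir a) (-S.dir b) := by
    intro n
    obtain ⟨a, ha, b, hb, h2, h3, h4⟩ := hcon (1 / ((n : ℝ) + 1)) (by positivity)
    exact ⟨a, ha, b, hb, h2, h3, h4⟩
  choose a ha b hb hab h3 h4 using h1
  obtain ⟨a0, ha0, φ, hφ, hlim⟩ := S.compact_LX.tendsto_subseq ha
  obtain ⟨b0, hb0, ψ, hψ, hlim'⟩ := S.compact_LX.tendsto_subseq (fun n => hb (φ n))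
  have la : Tendsto (fun n => a (φ (ψ n))) atTop (𝓝 a0) := hlim.comp hψ.tendsto_atTop
  have lb : Tendsto (fun n => b (φ (ψ n))) atTop (𝓝 b0) := hlim'
  have hpt : S.pt a0 = S.pt b0 := by
    have h5 : Tendsto (fun n => dist (S.pt (a (φ (ψ n)))) (S.pt (b (φ (ψ n))))) atTop
        (𝓝 (dist (S.pt a0) (S.pt b0))) :=
      ((S.continuous_pt.tendsto a0).comp la).dist ((S.continuous_pt.tendsto b0).comp lb)
    have h6 : Tendsto (fun n => dist (S.pt (a (φ (ψ n)))) (S.pt (b (φ (ψ n))))) atTop (𝓝 0) := by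
      refine squeeze_zero (fun n => dist_nonneg) (fun n => (hab _).le) ?_
      exact tendsto_one_div_add_atTop_nhds_zero_nat.comp (hφ.comp hψ).tendsto_atTop
    exact dist_eq_zero.1 (tendsto_nhds_unique h5 h6)
  have da : Tendsto (fun n => S.dir (a (φ (ψ n)))) atTop (𝓝 (S.dir a0)) :=
    (S.continuous_dir.tendsto a0).comp la
  have db : Tendsto (fun n => S.dir (b (φ (ψ n)))) atTop (𝓝 (S.dir b0)) :=
    (S.continuous_dir.tendsto b0).comp lb
  rcases S.fib D a0 b0 hpt with h | h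
  · have h7 : Tendsto (fun n => dist (S.dir (a (φ (ψ n)))) (S.dir (b (φ (ψ n))))) atTop
        (𝓝 (dist (S.dir a0) (S.dir b0))) := da.dist db
    have h8 := ge_of_tendsto' h7 (fun n => h3 _)
    rw [h, dist_self] at h8
    linarith
  · have h7 : Tendsto (fun n => dist (S.dir (a (φ (ψ n)))) (-S.dir (b (φ (ψ n))))) atTop
        (𝓝 (dist (S.dir a0) (-S.dir b0))) := da.dist db.neg
    have h8 := ge_of_tendsto' h7 (fun n => h4 _)
    rw [h, D.dir_σ, neg_neg, dist_self] at h8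
    linarith

/-- lifting plaques: same sheet + base plaque ⟹ lifted plaque -/
theorem plaque_lift (D : S.XData) : ∀ ε > 0, ∃ ε' > 0, ∀ x ∈ S.LX, ∀ y : S.X,
    dist x y < 1 → S.pt y ∈ WUl S.f ε' (S.pt x) → y ∈ WUl D.F ε x := by
  intro ε hε
  obtain ⟨ε1, hε1, hsub⟩ := S.D09a_sub
  -- uniform continuity of the inverse on the compact set
  have huc : ∃ η' > 0, ∀ a ∈ S.LX, ∀ b ∈ S.LX, dist a b < η' →
      dist (D.F.symm a) (D.F.symm b) < 1 := by
    have h1 := S.compact_LX.uniformContinuousOn_of_continuous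
      (D.F.symm.continuous.continuousOn (s := S.LX))
    obtain ⟨η', hη', h2⟩ := (Metric.uniformContinuousOn_iff.1 h1) 1 one_pos
    exact ⟨η', hη', h2⟩
  obtain ⟨η', hη', huc⟩ := huc
  set η : ℝ := min (min ε η') 1 with hη
  have hη0 : 0 < η := lt_min (lt_min hε hη') one_pos
  obtain ⟨ρ, hρ, hsheet⟩ := S.D09a_sheet D η hη0
  set ε' : ℝ := min (min ε ε1) (min (ρ / 2) (η' / 2)) with hε'
  have hε'0 : 0 < ε' := lt_min (lt_min hε hε1) (lt_min (by positivity) (by positivity))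
  refine ⟨ε', hε'0, fun x hx y hxy hy => ?_⟩
  have hε'ρ : ε' < ρ := lt_of_le_of_lt ((min_le_right _ _).trans (min_le_left _ _)) (by linarith)
  have hε'η : ε' < η' := lt_of_le_of_lt ((min_le_right _ _).trans (min_le_right _ _)) (by linarith)
  have hyL : y ∈ S.LX := hsub (S.pt x) hx (S.pt y)
    (D09a_wul_mono ((min_le_left _ _).trans (min_le_right _ _)) hy)
  have hptn : ∀ n, dist (S.pt (bk D.F n x)) (S.pt (bk D.F n y)) ≤ ε' := by
    intro n
    rw [S.D09a_pt_bk D, S.D09a_pt_bk D]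
    exact hy n
  -- same sheet
  have hsame : ∀ a ∈ S.LX, ∀ b ∈ S.LX, dist (S.pt a) (S.pt b) ≤ ε' → dist a b < 1 →
      dist (S.dir a) (S.dir b) < η := by
    intro a ha b hb h1 h2
    rcases hsheet a ha b hb (lt_of_le_of_lt h1 hε'ρ) with h | h
    · exact h
    · exfalso
      have h3 : dist (S.dir a) (S.dir b) < 1 := lt_of_le_of_lt (S.D09a_dist_dir a b) h2
      have h4 : ‖(2 : ℝ) • S.dir b‖ = 2 := by
        rw [norm_smul, S.D09a_norm_dir]; norm_num
      have h5 : (2 : ℝ) • S.dir b = (S.dir a + S.dir b) - (S.dir a - S.dir b) := by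
        rw [two_smul]; abel
      have h6 : ‖S.dir a + S.dir b‖ < η := by
        rw [dist_eq_norm, sub_neg_eq_add] at h
        exact h
      have h7 : ‖S.dir a - S.dir b‖ < 1 := by
        rw [dist_eq_norm] at h3
        exact h3
      have h8 : η ≤ 1 := min_le_right _ _
      have h9 := norm_sub_le (S.dir a + S.dir b) (S.dir a - S.dir b)
      rw [← h5, h4] at h9
      linarith
  have hdir : ∀ n, dist (bk D.F n x) (bk D.F n y) < 1 := by
    intro n
    induction n with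
    | zero => exact hxy
    | succ n ih =>
      have e1 : ∀ z : S.X, bk D.F (n + 1) z = D.F.symm (bk D.F n z) := fun z =>
        Function.iterate_succ_apply' _ _ _
      rw [e1, e1]
      apply huc _ (S.D09a_LX_bk D hx n) _ (S.D09a_LX_bk D hyL n)
      rw [S.D09a_dist]
      apply max_lt (lt_of_le_of_lt (hptn n) hε'η)
      refine lt_of_lt_of_le (hsame _ (S.D09a_LX_bk D hx n) _ (S.D09a_LX_bk D hyL n) (hptn n) ih) ?_
      exact (min_le_left _ _).trans (min_le_right _ _)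
  intro n
  rw [S.D09a_dist]
  apply max_le ((hptn n).trans ((min_le_left _ _).trans (min_le_left _ _)))
  refine (hsame _ (S.D09a_LX_bk D hx n) _ (S.D09a_LX_bk D hyL n) (hptn n) (hdir n)).le.trans ?_
  exact (min_le_left _ _).trans (min_le_left _ _)

theorem X_U1 (D : S.XData) : ∃ ε > 0, ∀ x ∈ S.LX, WUl D.F ε x ⊆ S.LX := by
  obtain ⟨ε, hε, hsub⟩ := S.D09a_sub
  exact ⟨ε, hε, fun x hx y hy => hsub (S.pt x) hx (S.pt y) (S.D09a_wul_pt D hy)⟩

theorem X_U2 (D : S.XData) : ∃ ε > 0, ∀ x ∈ S.LX, ∀ y ∈ WUl D.F ε x,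
    dist (S.pt (D.F.symm x)) (S.pt (D.F.symm y)) ≤ dist (S.pt x) (S.pt y) / 2 := by
  obtain ⟨ε, hε, hc⟩ := S.D09a_contr
  refine ⟨ε, hε, fun x hx y hy => ?_⟩
  rw [S.D09a_pt_symm D, S.D09a_pt_symm D]
  have h1 := (hc (S.pt x) hx (S.pt y) (S.D09a_wul_pt D hy)).2
  have h2 : 0 ≤ dist (S.pt x) (S.pt y) := dist_nonneg
  linarith

theorem X_U3 (D : S.XData) : ∃ ε0 > 0, ∀ ε > 0, ∃ r > 0, ∀ x ∈ S.LX, ∀ y ∈ WUl D.F ε0 x,
    dist (S.pt x) (S.pt y) < r → y ∈ WUl D.F ε x := by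
  obtain ⟨ε1, hε1, hc⟩ := S.D09a_contr
  refine ⟨min ε1 (1 / 2), lt_min hε1 (by norm_num), fun ε hε => ?_⟩
  obtain ⟨ε', hε', hl⟩ := S.plaque_lift D ε hε
  refine ⟨ε', hε', fun x hx y hy hr => ?_⟩
  apply hl x hx y
  · have h1 := hy 0
    change dist x y ≤ _ at h1
    exact lt_of_le_of_lt (h1.trans (min_le_right _ _)) (by norm_num)
  · have h2 := (hc (S.pt x) hx (S.pt y)
      (D09a_wul_mono (min_le_left _ _) (S.D09a_wul_pt D hy))).1
    intro n
    refine (h2 n).trans ?_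
    refine (div_le_self dist_nonneg ?_).trans hr.le
    exact one_le_pow₀ (by norm_num)

end GAtt
end Pool.MP85
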