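import Pool.Agent.Lib.MP_85e637_an.Abs
import Pool.Agent.Lib.MP_85e637_an.AbsC
import Pool.Agent.Lib.MP_85e637_an.AbsC2
import Pool.Agent.Lib.MP_85e637_an.A01
import Pool.Agent.Lib.MP_85e637_an.C15
import Pool.Agent.Lib.MP_85e637_an.D02a
import Pool.Agent.Lib.MP_85e637_an.D02b
import Pool.Agent.Lib.MP_85e637_an.D09a

/-!
# D09b: leaves of the double cover of the attractor
-/

open Filter Topology Set Metric Module

namespace Pool.MP85
namespace GAtt
variable {d N : ℕ} {K : Type} [MetricSpace K] [CompactSpace K] {S : GAtt d N K}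

/-! ### elementary facts on the double cover -/

theorem D09b_dist (a b : S.X) :
    dist a b = max (dist (S.pt a) (S.pt b)) (dist (S.dir a) (S.dir b)) := rfl

theorem D09b_pt_le (a b : S.X) : dist (S.pt a) (S.pt b) ≤ dist a b := le_max_left _ _

theorem D09b_ext {a b : S.X} (h : S.pt a = S.pt b) (h' : S.dir a = S.dir b) : a = b :=
  Subtype.ext (Prod.ext h h')

theorem D09b_norm_dir (a : S.X) : ‖S.dir a‖ = 1 := a.2.2.2

theorem D09b_sep (D : S.XData) (a : S.X) : 2 ≤ dist a (D.σ a) := by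
  refine le_trans (le_of_eq ?_) (le_max_right _ _)
  show 2 = dist (S.dir a) (S.dir (D.σ a))
  rw [D.dir_σ, dist_eq_norm, sub_neg_eq_add, ← two_smul ℝ, norm_smul, D09b_norm_dir]
  norm_num

/-- lifts which are close coincide -/
theorem D09b_uniq (D : S.XData) {a b : S.X} (h : S.pt a = S.pt b) (hd : dist a b < 2) :
    a = b := by
  rcases S.fib D a b h with h1 | h1
  · exact h1.symm
  · have := D09b_sep D a
    rw [← h1] at this
    exact absurd hd (not_lt.2 this)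

theorem D09b_σ_isom (D : S.XData) (a b : S.X) : dist (D.σ a) (D.σ b) = dist a b := by
  rw [D09b_dist, D09b_dist, D.pt_σ, D.pt_σ, D.dir_σ, D.dir_σ, dist_neg_neg]

theorem D09b_pt_fw (D : S.XData) (n : ℕ) (x : S.X) : S.pt (fw D.F n x) = fw S.f n (S.pt x) := by
  induction n with
  | zero => rfl
  | succ n ih => rw [fw_succ', fw_succ', D.pt_F, ih]

theorem D09b_pt_symm (D : S.XData) (x : S.X) : S.pt (D.F.symm x) = S.f.symm (S.pt x) := by
  have h := D.pt_F (D.F.symm x)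
  rw [Homeomorph.apply_symm_apply] at h
  rw [h, Homeomorph.symm_apply_apply]

theorem D09b_pt_bk (D : S.XData) (n : ℕ) (x : S.X) : S.pt (bk D.F n x) = bk S.f n (S.pt x) := by
  induction n with
  | zero => rfl
  | succ n ih => rw [bk_succ', bk_succ', D09b_pt_symm, ih]

theorem D09b_LX_bk (D : S.XData) {x : S.X} (hx : x ∈ S.LX) (n : ℕ) : bk D.F n x ∈ S.LX := by
  show S.pt (bk D.F n x) ∈ S.L
  rw [D09b_pt_bk]
  induction n with
  | zero => exact hx
  | succ n ih =>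
    rw [bk_succ']
    refine (S.L_inv _).1 ?_
    rw [Homeomorph.apply_symm_apply]
    exact ih

theorem D09b_LX_of_bk (D : S.XData) {x : S.X} (n : ℕ) (hx : bk D.F n x ∈ S.LX) : x ∈ S.LX := by
  have hx' : bk S.f n (S.pt x) ∈ S.L := by
    rw [← D09b_pt_bk D]
    exact hx
  show S.pt x ∈ S.L
  induction n with
  | zero => exact hx'
  | succ n ih =>
    apply ih
    · show S.pt (bk D.F n x) ∈ S.L
      rw [D09b_pt_bk]
      rw [bk_succ'] at hx'
      have := (S.L_inv _).2 hx'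
      rwa [Homeomorph.apply_symm_apply] at this
    · rw [bk_succ'] at hx'
      have := (S.L_inv _).2 hx'
      rwa [Homeomorph.apply_symm_apply] at this

/-- projections of plaques -/
theorem D09b_pt_wul (D : S.XData) {ε : ℝ} {x y : S.X} (h : y ∈ WUl D.F ε x) :
    S.pt y ∈ WUl S.f ε (S.pt x) := by
  intro n
  rw [← D09b_pt_bk D, ← D09b_pt_bk D]
  exact (D09b_pt_le _ _).trans (h n)

theorem D09b_pt_wu (D : S.XData) {x y : S.X} (h : y ∈ WU D.F x) : S.pt y ∈ WU S.f (S.pt x) := by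
  refine squeeze_zero (fun _ => dist_nonneg) (fun n => ?_) h
  rw [← D09b_pt_bk D, ← D09b_pt_bk D]
  exact D09b_pt_le _ _

/-- uniform lifting near the attractor -/
theorem D09b_lift (S : GAtt d N K) (η : ℝ) (hη : 0 < η) : ∃ δ > 0, ∀ x ∈ S.LX, ∀ z : K,
    dist (S.pt x) z < δ → ∃ x', S.pt x' = z ∧ dist x x' < η := by
  -- a uniform neighbourhood of `L` in `B`
  obtain ⟨δ1, hδ1, hB⟩ : ∃ δ1 > 0, ∀ x ∈ S.L, ∀ z : K, dist x z < δ1 → z ∈ S.B := by
    obtain ⟨δ1, hδ1, h⟩ := S.L_cpt.exists_thickening_subset_open S.B_open S.L_B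
    refine ⟨δ1, hδ1, fun x hx z hz => h ?_⟩
    rw [mem_thickening_iff]
    exact ⟨x, hx, by rw [dist_comm]; exact hz⟩
  by_contra hcon
  push Not at hcon
  choose x hx z hz hno using fun n : ℕ => hcon (1 / ((n : ℝ) + 1)) (by positivity)
  obtain ⟨x0, hx0, φ, hφ, hlim⟩ := S.compact_LX.tendsto_subseq hx
  obtain ⟨δ, hδ, hl⟩ := S.lift_pt x0 (η / 2) (by positivity)
  have h1 : Tendsto (fun n => dist (x (φ n)) x0) atTop (𝓝 0) := by
    rw [← tendsto_iff_dist_tendsto_zero]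
    exact hlim
  have h2 : Tendsto (fun n : ℕ => 1 / (((φ n : ℕ) : ℝ) + 1)) atTop (𝓝 0) :=
    tendsto_one_div_add_atTop_nhds_zero_nat.comp hφ.tendsto_atTop
  have hpos : 0 < min (min (δ / 2) (η / 2)) δ1 := by positivity
  obtain ⟨n, hn1, hn2⟩ := ((h1.eventually_lt_const hpos).and
    (h2.eventually_lt_const hpos)).exists
  have hz1 : dist (S.pt (x (φ n))) (z (φ n)) < min (min (δ / 2) (η / 2)) δ1 :=
    (hz (φ n)).trans hn2
  have hzB : z (φ n) ∈ S.B := hB _ (hx (φ n)) _ (hz1.trans_le (min_le_right _ _))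
  have hdist : dist (S.pt x0) (z (φ n)) < δ := by
    have h3 : dist (S.pt x0) (S.pt (x (φ n))) ≤ dist (x (φ n)) x0 := by
      rw [dist_comm (x (φ n))]
      exact D09b_pt_le _ _
    have h4 : min (min (δ / 2) (η / 2)) δ1 ≤ δ / 2 := (min_le_left _ _).trans (min_le_left _ _)
    have h5 := dist_triangle (S.pt x0) (S.pt (x (φ n))) (z (φ n))
    linarith
  obtain ⟨x', hx', hx'd⟩ := hl (z (φ n)) hzB hdist
  have h6 : min (min (δ / 2) (η / 2)) δ1 ≤ η / 2 := (min_le_left _ _).trans (min_le_right _ _)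
  have h7 := dist_triangle (x (φ n)) x0 x'
  exact absurd (hno (φ n) x' hx') (not_le.2 (by linarith))

/-- plaques of the double cover are contained in leaves -/
theorem D09b_wul_wu (D : S.XData) : ∃ ε > 0, ∀ x ∈ S.LX, ∀ y ∈ WUl D.F ε x, y ∈ WU D.F x := by
  obtain ⟨ε1, hε1, h1⟩ := S.X_U2 D
  obtain ⟨ε2, hε2, h2⟩ := S.X_U3 D
  refine ⟨min ε1 ε2, lt_min hε1 hε2, fun x hx y hy => ?_⟩
  rw [mem_wu_iff_eventually]
  intro ε hε
  obtain ⟨r, hr, h3⟩ := h2 ε hε
  have hcon : ∀ n : ℕ, dist (S.pt (bk D.F n x)) (S.pt (bk D.F n y)) ≤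
      dist (S.pt x) (S.pt y) / 2 ^ n := by
    intro n
    induction n with
    | zero => simp [bk_zero]
    | succ n ih =>
      have h4 := h1 _ (D09b_LX_bk D hx n) _ (wul_bk n (wul_mono (min_le_left _ _) hy))
      rw [bk_succ', bk_succ', pow_succ, ← div_div]
      linarith
  have hlim : Tendsto (fun n : ℕ => dist (S.pt x) (S.pt y) / 2 ^ n) atTop (𝓝 0) :=
    tendsto_const_nhds.div_atTop (tendsto_pow_atTop_atTop_of_one_lt (by norm_num))
  obtain ⟨n, hn⟩ := (hlim.eventually_lt_const hr).exists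
  exact ⟨n, h3 _ (D09b_LX_bk D hx n) _ (wul_bk n (wul_mono (min_le_right _ _) hy))
    ((hcon n).trans_lt hn)⟩

theorem D09b_wu_LX (D : S.XData) {x y : S.X} (hx : x ∈ S.LX) (hy : y ∈ WU D.F x) :
    y ∈ S.LX := by
  obtain ⟨ε, hε, h⟩ := S.X_U1 D
  obtain ⟨n, hn⟩ := mem_wu_iff_eventually.1 hy ε hε
  exact D09b_LX_of_bk D n (h _ (D09b_LX_bk D hx n) hn)

/-- small base plaques lift to small plaques -/
theorem D09b_plaque (D : S.XData) (ε : ℝ) (hε : 0 < ε) : ∃ ε' > 0, ∀ x ∈ S.LX,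
    ∀ z ∈ WUl S.f ε' (S.pt x), ∃ y, S.pt y = z ∧ y ∈ WUl D.F ε x ∧ y ∈ WU D.F x ∧
      dist x y < 1 := by
  obtain ⟨ε1, hε1, h1⟩ := D09b_wul_wu D
  obtain ⟨ε2, hε2, h2⟩ := S.plaque_lift D (min ε ε1) (lt_min hε hε1)
  obtain ⟨δ, hδ, h3⟩ := D09b_lift S 1 one_pos
  refine ⟨min ε2 (δ / 2), by positivity, fun x hx z hz => ?_⟩
  have hd : dist (S.pt x) z < δ := by
    have h4 := wul_dist hz
    have h5 := min_le_right ε2 (δ / 2)
    linarith
  obtain ⟨y, hy, hyd⟩ := h3 x hx z hd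
  have h6 : y ∈ WUl D.F (min ε ε1) x := h2 x hx y hyd (by
    rw [hy]
    exact wul_mono (min_le_left _ _) hz)
  exact ⟨y, hy, wul_mono (min_le_left _ _) h6, h1 x hx y (wul_mono (min_le_right _ _) h6), hyd⟩

/-- leaves are lifted -/
theorem D09b_surj (D : S.XData) {x : S.X} (hx : x ∈ S.LX) {z : K} (hz : z ∈ WU S.f (S.pt x)) :
    ∃ y ∈ WU D.F x, S.pt y = z := by
  obtain ⟨ε', hε', h⟩ := D09b_plaque D 1 one_pos
  obtain ⟨n, hn⟩ := mem_wu_iff_eventually.1 hz ε' hε'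
  rw [← D09b_pt_bk D] at hn
  obtain ⟨y, hy, -, hywu, -⟩ := h _ (D09b_LX_bk D hx n) _ hn
  refine ⟨fw D.F n y, ?_, ?_⟩
  · have h1 : fw D.F n y ∈ WU D.F (fw D.F n (bk D.F n x)) := (wu_fw n).2 hywu
    rwa [fw_bk] at h1
  · rw [D09b_pt_fw, hy, fw_bk]

theorem D09b_inj (D : S.XData) {x y y' : S.X} (hy : y ∈ WU D.F x) (hy' : y' ∈ WU D.F x)
    (h : S.pt y = S.pt y') : y = y' := by
  have h1 : Tendsto (fun n => dist (bk D.F n y) (bk D.F n y')) atTop (𝓝 0) :=
    wu_trans (wu_symm hy) hy'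
  obtain ⟨n, hn⟩ := (h1.eventually_lt_const (show (0:ℝ) < 2 by norm_num)).exists
  have h2 : bk D.F n y = bk D.F n y' := by
    refine D09b_uniq D ?_ hn
    rw [D09b_pt_bk, D09b_pt_bk, h]
  rw [← fw_bk (F := D.F) (x := y) n, h2, fw_bk]

theorem X_LC (D : S.XData) : ∀ ε > 0, ∃ ε' > 0, ∀ x ∈ S.LX, ∀ y ∈ WUl D.F ε' x, ∃ c : ℝ → S.X,
    ContinuousOn c (Icc 0 1) ∧ c 0 = x ∧ c 1 = y ∧ ∀ s ∈ Icc (0:ℝ) 1, c s ∈ WUl D.F ε x := by
  intro ε hε
  obtain ⟨ε1, hε1, h1⟩ := S.plaque_lift D ε hε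
  obtain ⟨δ, hδ, hlift⟩ := D09b_lift S (1 / 2) (by norm_num)
  obtain ⟨ε2, hε2, hlc⟩ := S.H_lc (min ε1 (δ / 2)) (by positivity)
  refine ⟨min ε2 (1 / 2), by positivity, fun x hx y hy => ?_⟩
  have hxH : S.pt x ∈ S.H := S.L_H hx
  obtain ⟨cb, hcb, hcb0, hcb1, hcbw⟩ := hlc (S.pt x) hxH (S.pt y)
    (wul_mono (min_le_left _ _) (D09b_pt_wul D hy))
  have hex : ∀ s : ℝ, ∃ p : S.X, s ∈ Icc (0:ℝ) 1 → S.pt p = cb s ∧ dist x p < 1 / 2 := by
    intro s
    by_cases hs : s ∈ Icc (0:ℝ) 1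
    · have h2 := wul_dist (hcbw s hs)
      have h3 := min_le_right ε1 (δ / 2)
      obtain ⟨p, hp, hpd⟩ := hlift x hx (cb s) (by linarith)
      exact ⟨p, fun _ => ⟨hp, hpd⟩⟩
    · exact ⟨x, fun h => absurd h hs⟩
  choose c hc using hex
  have huniq : ∀ s ∈ Icc (0:ℝ) 1, ∀ p : S.X, S.pt p = cb s → dist x p < 1 → p = c s := by
    intro s hs p hp hpd
    obtain ⟨h2, h3⟩ := hc s hs
    refine D09b_uniq D (hp.trans h2.symm) ?_
    have h4 := dist_triangle_left p (c s) x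
    linarith
  refine ⟨c, ?_, ?_, ?_, ?_⟩
  · intro s hs
    rw [Metric.continuousWithinAt_iff]
    intro η hη
    obtain ⟨ρ, hρ, hl⟩ := S.lift_pt (c s) (min η (1 / 2)) (by positivity)
    obtain ⟨τ, hτ, hcont⟩ := Metric.continuousWithinAt_iff.1 (hcb s hs) ρ hρ
    refine ⟨τ, hτ, fun t ht htd => ?_⟩
    have h2 := hcont ht htd
    have htB : cb t ∈ S.B := by
      rw [← (hc t ht).1, ← S.range_pt]
      exact mem_range_self _
    obtain ⟨p, hp, hpd⟩ := hl (cb t) htB (by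
      rw [(hc s hs).1, dist_comm]
      exact h2)
    have h3 : dist x p < 1 := by
      have h4 := dist_triangle x (c s) p
      have h5 := (hc s hs).2
      have h6 := hpd.trans_le (min_le_right _ _)
      linarith
    rw [← huniq t ht p hp h3, dist_comm]
    exact hpd.trans_le (min_le_left _ _)
  · refine (huniq 0 ⟨le_rfl, zero_le_one⟩ x hcb0.symm ?_).symm
    rw [dist_self]
    exact one_pos
  · refine (huniq 1 ⟨zero_le_one, le_rfl⟩ y hcb1.symm ?_).symm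
    have h2 := wul_dist hy
    have h3 := min_le_right ε2 (1 / 2 : ℝ)
    linarith
  · intro s hs
    refine h1 x hx (c s) (by linarith [(hc s hs).2]) ?_
    rw [(hc s hs).1]
    exact wul_mono (min_le_left _ _) (hcbw s hs)

/-- the projection of leaves -/
def D09b_map (D : S.XData) (x : S.X) (y : ULeaf D.F x) : ULeaf S.f (S.pt x) :=
  ⟨S.pt y.val, D09b_pt_wu D y.prop⟩

theorem X_leaf (D : S.XData) {x : S.X} (hx : x ∈ S.LX) :
    ∃ h : ULeaf D.F x ≃ₜ ULeaf S.f (S.pt x), ∀ y, (h y).val = S.pt y.val := by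
  have hbij : Function.Bijective (D09b_map D x) := by
    constructor
    · intro y y' h
      have h1 : S.pt y.val = S.pt y'.val := congrArg ULeaf.val h
      exact ULeaf.val_injective (D09b_inj D y.prop y'.prop h1)
    · intro z
      obtain ⟨y, hy, hyz⟩ := D09b_surj D hx z.prop
      exact ⟨⟨y, hy⟩, ULeaf.val_injective hyz⟩
  have hcont : Continuous (D09b_map D x) := by
    refine LipschitzWith.continuous (K := 1) (LipschitzWith.of_dist_le_mul fun y y' => ?_)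
    rw [NNReal.coe_one, one_mul]
    exact (ULeaf.dist_le_iff _ _ _).2 (D09b_pt_wul D ((ULeaf.dist_le_iff y y' _).1 le_rfl))
  have hopen : IsOpenMap (D09b_map D x) := by
    rw [isOpenMap_iff_nhds_le]
    intro y U hU
    rw [mem_map] at hU
    obtain ⟨ε, hε, hball⟩ := Metric.mem_nhds_iff.1 hU
    obtain ⟨ε', hε', h⟩ := D09b_plaque D (ε / 2) (by positivity)
    refine Metric.mem_nhds_iff.2 ⟨ε', hε', fun z hz => ?_⟩
    have hyL : y.val ∈ S.LX := D09b_wu_LX D hx y.prop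
    have hz' : z.val ∈ WUl S.f ε' (S.pt y.val) := by
      refine (ULeaf.dist_le_iff (D09b_map D x y) z ε').1 ?_
      rw [dist_comm]
      exact (mem_ball.1 hz).le
    obtain ⟨p, hp, hpw, hpwu, -⟩ := h _ hyL _ hz'
    have hpx : p ∈ WU D.F x := wu_trans y.prop hpwu
    have h1 : (⟨p, hpx⟩ : ULeaf D.F x) ∈ ball y ε := by
      rw [mem_ball, dist_comm]
      have := (ULeaf.dist_le_iff y ⟨p, hpx⟩ (ε / 2)).2 hpw
      linarith
    have h2 : D09b_map D x ⟨p, hpx⟩ = z := ULeaf.val_injective hp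
    rw [← h2]
    exact hball h1
  exact ⟨(Equiv.ofBijective _ hbij).toHomeomorphOfContinuousOpen hcont hopen, fun y => rfl⟩

theorem X_exh (hd : 1 ≤ d) (D : S.XData) {x : S.X} (hx : x ∈ S.LX) : Exh (d - 1) D.F x := by
  obtain ⟨h, -⟩ := X_leaf D hx
  obtain ⟨ψ, h1, h2, h3⟩ := S.H_exh hd (S.L_H hx)
  refine ⟨fun n => h.symm ∘ ψ n, fun n => h.symm.isOpenEmbedding.comp (h1 n), fun n => ?_, ?_⟩
  · rw [range_comp, range_comp]
    exact image_mono (h2 n)
  · simp only [range_comp]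
    rw [← image_iUnion, h3, image_univ, h.symm.surjective.range_eq]

theorem X_dens (D : S.XData) : ∀ x ∈ S.LX, ∀ b ∈ S.LX, ∀ ε > 0, ∃ y ∈ WU D.F x,
    dist y b < ε ∨ dist y (D.σ b) < ε := by
  intro x hx b hb ε hε
  obtain ⟨δ, hδ, hl⟩ := D09b_lift S ε hε
  obtain ⟨z, hz, hzd⟩ := Metric.mem_closure_iff.1 (S.L_dense _ hx hb) δ hδ
  obtain ⟨y, hy, hyz⟩ := D09b_surj D hx hz
  obtain ⟨x', hx', hx'd⟩ := hl b hb z hzd
  refine ⟨y, hy, ?_⟩
  rcases S.fib D x' y (hx'.trans hyz.symm) with h | h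
  · left
    rw [h, dist_comm]
    exact hx'd
  · right
    rw [h, D09b_σ_isom, dist_comm]
    exact hx'd

end GAtt
end Pool.MP85
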