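import Pool.Agent.Lib.MP_85e637_an.A01
import Pool.Agent.Lib.MP_85e637_an.B08a
import Pool.Agent.Lib.MP_85e637_an.C14a
import Pool.Agent.Lib.MP_85e637_an.C15
import Pool.Agent.Lib.MP_85e637_an.D02a

/-!
# L2: the stable manifold of a periodic point whose unstable manifold is in the basin is in the
closure of the basin
-/

set_option autoImplicit false

open Filter Topology Set Metric Module

namespace Pool.MP85

namespace GSys
variable {d N : ℕ} {K : Type} [MetricSpace K] [CompactSpace K] (S : GSys d N K)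

theorem L2_H_fw {x : K} (n : ℕ) : fw S.f n x ∈ S.H ↔ x ∈ S.H := by
  induction n with
  | zero => exact Iff.rfl
  | succ n ih => rw [fw_succ', S.H_inv, ih]

/-- small local stable sets are contained in the stable set -/
theorem L2_wsl_ws : ∃ ε > 0, ∀ x ∈ S.H, WSl S.f ε x ⊆ WS S.f x := by
  obtain ⟨ε, hε, h⟩ := S.H_s
  refine ⟨ε, hε, fun x hx y hy => ?_⟩
  have h1 : ∀ n, 4 ^ n * dist (fw S.f n x) (fw S.f n y) ≤ dist x y := by
    intro n
    induction n with
    | zero => simp [fw_zero]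
    | succ n ih =>
      have h2 := h _ ((S.L2_H_fw n).2 hx) (fw S.f n x)
        (fun k => by rw [dist_self]; exact hε.le) (fw S.f n y)
        (fun k => by rw [← fw_add, ← fw_add]; exact hy (k + n))
      rw [fw_succ', fw_succ', pow_succ]
      have h4 : (0:ℝ) < 4 ^ n := by positivity
      calc 4 ^ n * 4 * dist (S.f (fw S.f n x)) (S.f (fw S.f n y))
          = 4 ^ n * (4 * dist (S.f (fw S.f n x)) (S.f (fw S.f n y))) := by ring
        _ ≤ 4 ^ n * dist (fw S.f n x) (fw S.f n y) := mul_le_mul_of_nonneg_left h2 h4.le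
        _ ≤ dist x y := ih
  have hlim : Tendsto (fun n : ℕ => (1 / 4 : ℝ) ^ n * dist x y) atTop (𝓝 0) := by
    simpa using (tendsto_pow_atTop_nhds_zero_of_lt_one (by norm_num : (0:ℝ) ≤ 1 / 4)
      (by norm_num)).mul_const (dist x y)
  refine squeeze_zero (fun _ => dist_nonneg) (fun n => ?_) hlim
  have h4 : (0:ℝ) < 4 ^ n := by positivity
  rw [one_div, inv_pow, ← div_eq_inv_mul, le_div_iff₀ h4, mul_comm]
  exact h1 n

/-- small local stable sets have empty interior -/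
theorem L2_wsl_int (hd : 2 ≤ d) : ∃ ε > 0, ∀ x ∈ S.H, interior (WSl S.f ε x) = ∅ := by
  obtain ⟨ε, hε, hcone⟩ := S.C14_cone_s (1 / 8) (by norm_num)
  refine ⟨ε, hε, fun x hx => ?_⟩
  by_contra hne
  obtain ⟨z, hz⟩ := nonempty_iff_ne_empty.2 hne
  obtain ⟨r, hr, hball⟩ := Metric.mem_nhds_iff.1 (mem_interior_iff_mem_nhds.1 hz)
  obtain ⟨ρ1, hρ1, hflat⟩ := S.flat (1 / 8) (by norm_num)
  obtain ⟨ρ2, hρ2, hsurj⟩ := S.surj
  -- a vector of `T z` orthogonal to `Es x`
  have hdim : finrank ℝ (S.Es x) < finrank ℝ (S.T z) := by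
    have h1 : finrank ℝ (S.Es x) = 1 := hx.2.1
    have h2 := S.rankP z
    omega
  let L : S.T z →ₗ[ℝ] S.Es x :=
    ((S.Es x).orthogonalProjectionOnto : EE N →ₗ[ℝ] S.Es x) ∘ₗ (S.T z).subtype
  obtain ⟨w, hw, hw0⟩ := Submodule.exists_mem_ne_zero_of_ne_bot
    (LinearMap.ker_ne_bot_of_finrank_lt (f := L) hdim)
  have hwz : (w : EE N) ∈ S.T z := w.2
  have hw0' : (w : EE N) ≠ 0 := fun h => hw0 (Subtype.ext h)
  have hproj : (S.Es x).starProjection (w : EE N) = 0 := by
    have h1 : L w = 0 := hw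
    have h2 : ((L w : S.Es x) : EE N) = 0 := by rw [h1]; rfl
    exact h2
  have hwn : 0 < ‖(w : EE N)‖ := norm_pos_iff.2 hw0'
  -- scale
  obtain ⟨t, ht0, ht⟩ : ∃ t : ℝ, 0 < t ∧ t ≤ min (min (r / 4) (ρ1 / 4)) ρ2 :=
    ⟨min (min (r / 4) (ρ1 / 4)) ρ2, by positivity, le_rfl⟩
  have ht1 : t ≤ r / 4 := ht.trans ((min_le_left _ _).trans (min_le_left _ _))
  have ht2 : t ≤ ρ1 / 4 := ht.trans ((min_le_left _ _).trans (min_le_right _ _))
  have ht3 : t ≤ ρ2 := ht.trans (min_le_right _ _)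
  set v : EE N := (t / ‖(w : EE N)‖) • (w : EE N) with hv
  have hvn : ‖v‖ = t := by
    rw [hv, norm_smul, Real.norm_eq_abs, abs_of_pos (by positivity)]
    field_simp
  have hvT : v ∈ S.T z := (S.T z).smul_mem _ hwz
  have hvproj : (S.Es x).starProjection v = 0 := by
    rw [hv, map_smul, hproj, smul_zero]
  obtain ⟨y, hy1, hy2⟩ := hsurj z v (S.mem_T.1 hvT) (hvn.le.trans ht3)
  rw [hvn] at hy2
  have hyb : y ∈ WSl S.f ε x := hball (by rw [mem_ball, dist_comm]; linarith)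
  have hzb : z ∈ WSl S.f ε x := hball (mem_ball_self hr)
  have h1 := hcone x hx y hyb z hzb
  have h2 := hflat z y z (by linarith) (by rw [dist_self]; exact hρ1)
  rw [hy1] at h2
  have h3 : ‖v - (S.Es x).starProjection v‖ ≤ infDist v (S.Es x) := C14_proj_le _ v
  rw [hvproj, sub_zero, hvn] at h3
  have h4 : infDist v (S.Es x : Set (EE N)) ≤
      infDist (S.e y - S.e z) (S.Es x : Set (EE N)) + dist v (S.e y - S.e z) :=
    infDist_le_infDist_add_dist
  rw [dist_eq_norm, norm_sub_rev] at h4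
  rw [dist_comm] at hy2
  linarith

theorem L2_open (n : ℕ) : IsOpenMap (fw S.f n) := by
  induction n with
  | zero => exact IsOpenMap.id
  | succ n ih =>
    have h : fw S.f (n + 1) = fw S.f n ∘ S.f := rfl
    rw [h]
    exact ih.comp S.f.isOpenMap

/-- the stable sets of points of `H` have empty interior -/
theorem L2_ws_int (hd : 2 ≤ d) {q : K} (hq : q ∈ S.H) : interior (WS S.f q) = ∅ := by
  obtain ⟨ε, hε, hint⟩ := S.L2_wsl_int hd
  have hcl : ∀ n, IsClosed (fw S.f n ⁻¹' WSl S.f ε (fw S.f n q)) := by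
    intro n
    refine IsClosed.preimage (continuous_fw n) ?_
    have h : WSl S.f ε (fw S.f n q) = ⋂ k, {y | dist (fw S.f k (fw S.f n q)) (fw S.f k y) ≤ ε} := by
      ext y
      simp only [mem_iInter, Set.mem_ofPred_eq]
      exact Iff.rfl
    rw [h]
    exact isClosed_iInter fun k => isClosed_le (continuous_const.dist (continuous_fw k))
      continuous_const
  have hint' : ∀ n, interior (fw S.f n ⁻¹' WSl S.f ε (fw S.f n q)) = ∅ := by
    intro n
    by_contra hne
    obtain ⟨z, hz⟩ := nonempty_iff_ne_empty.2 hne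
    have hemb : IsOpenMap (fw S.f n) := S.L2_open n
    have h1 : fw S.f n z ∈ interior (WSl S.f ε (fw S.f n q)) := by
      refine interior_maximal ?_ (hemb _ isOpen_interior) (mem_image_of_mem _ hz)
      rintro _ ⟨y, hy, rfl⟩
      exact (interior_subset hy : y ∈ fw S.f n ⁻¹' WSl S.f ε (fw S.f n q))
    rw [hint _ ((S.L2_H_fw n).2 hq)] at h1
    exact h1
  have hdense : Dense (⋂ n, (fw S.f n ⁻¹' WSl S.f ε (fw S.f n q))ᶜ) :=
    dense_iInter_of_isOpen_nat (fun n => (hcl n).isOpen_compl)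
      (fun n => interior_eq_empty_iff_dense_compl.1 (hint' n))
  rw [← compl_iUnion, ← interior_eq_empty_iff_dense_compl] at hdense
  refine subset_empty_iff.1 (hdense ▸ interior_mono ?_)
  intro y hy
  have hy0 : Tendsto (fun n => dist (fw S.f n q) (fw S.f n y)) atTop (𝓝 0) := hy
  obtain ⟨n, hn⟩ := eventually_atTop.1 (hy0.eventually_le_const hε)
  refine mem_iUnion.2 ⟨n, fun k => ?_⟩
  rw [← fw_add, ← fw_add]
  exact hn (k + n) (Nat.le_add_left n k)

end GSys

namespace GAtt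
variable {d N : ℕ} {K : Type} [MetricSpace K] [CompactSpace K] (S : GAtt d N K)

theorem L2_B_fw {x : K} (n : ℕ) : fw S.f n x ∈ S.B ↔ x ∈ S.B := by
  induction n with
  | zero => exact Iff.rfl
  | succ n ih => rw [fw_succ', S.B_f, ih]

/-- the condition `WU q \ {q} ⊆ B` is invariant -/
theorem L2_WU_fw {q : K} (h : WU S.f q \ {q} ⊆ S.B) (n : ℕ) :
    WU S.f (fw S.f n q) \ {fw S.f n q} ⊆ S.B := by
  rintro y ⟨hy, hyq⟩
  have h1 : bk S.f n y ∈ WU S.f q := by
    have := (wu_bk (F := S.f) n).2 hy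
    rwa [bk_fw] at this
  have h2 : bk S.f n y ≠ q := by
    rintro rfl
    exact hyq (fw_bk n).symm
  have h3 := (S.L2_B_fw n).2 (h ⟨h1, h2⟩)
  rwa [fw_bk] at h3

/-- The escape argument. -/
theorem L2_escape : ∃ ε0 > 0, ∀ ε > 0, ε ≤ ε0 → ∀ q ∈ S.H, (∃ k > 0, fw S.f k q = q) →
    WU S.f q \ {q} ⊆ S.B → ∀ x ∈ WS S.f q, ∀ y : ℕ → K, Tendsto y atTop (𝓝 x) →
    (∀ j, ∃ T, ε < dist (fw S.f T x) (fw S.f T (y j))) → ∃ j, y j ∈ S.B := by
  classical
  obtain ⟨ε0, hε0, hu⟩ := S.H_u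
  refine ⟨ε0, hε0, fun ε hε hε' q hq hper hqB x hx y hy hT => ?_⟩
  let T : ℕ → ℕ := fun j => Nat.find (hT j)
  have hT1 : ∀ j, ε < dist (fw S.f (T j) x) (fw S.f (T j) (y j)) := fun j => Nat.find_spec (hT j)
  have hT2 : ∀ j, ∀ n < T j, dist (fw S.f n x) (fw S.f n (y j)) ≤ ε := fun j n hn =>
    not_lt.1 (Nat.find_min (hT j) hn)
  have hTtop : Tendsto T atTop atTop := by
    refine tendsto_atTop.2 fun N => ?_
    have h1 : ∀ n ∈ Finset.range N, ∀ᶠ j in atTop, dist (fw S.f n x) (fw S.f n (y j)) < ε := by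
      intro n _
      have h2 : Tendsto (fun j => dist (fw S.f n x) (fw S.f n (y j))) atTop
          (𝓝 (dist (fw S.f n x) (fw S.f n x))) :=
        tendsto_const_nhds.dist (((continuous_fw n).tendsto x).comp hy)
      rw [dist_self] at h2
      exact h2.eventually_lt_const hε
    have h3 := (Filter.eventually_all_finset (Finset.range N)).2 h1
    filter_upwards [h3] with j hj
    by_contra hlt
    exact absurd (hT1 j) (not_lt.2 (hj (T j) (Finset.mem_range.2 (not_le.1 hlt))).le)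
  -- subsequence
  obtain ⟨⟨e, q'⟩, -, φ, hφ, hlim⟩ := (isCompact_univ (X := K × K)).tendsto_subseq
    (x := fun j => (fw S.f (T j) (y j), fw S.f (T j) q)) (fun _ => mem_univ _)
  have he : Tendsto (fun j => fw S.f (T (φ j)) (y (φ j))) atTop (𝓝 e) :=
    (continuous_fst.tendsto _).comp hlim
  have hq' : Tendsto (fun j => fw S.f (T (φ j)) q) atTop (𝓝 q') :=
    (continuous_snd.tendsto _).comp hlim
  have hTφ : Tendsto (fun j => T (φ j)) atTop atTop := hTtop.comp hφ.tendsto_atTop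
  -- `q'` is in the orbit of `q`
  obtain ⟨k, hk, hqk⟩ := hper
  have hq'Q : q' ∈ S.H ∧ WU S.f q' \ {q'} ⊆ S.B := by
    have hfin : ((fun i => fw S.f i q) '' (Set.Iio k)).Finite := (Set.finite_Iio k).image _
    have hmem : q' ∈ (fun i => fw S.f i q) '' (Set.Iio k) := by
      refine hfin.isClosed.mem_of_tendsto hq' (Eventually.of_forall fun j => ?_)
      exact ⟨T (φ j) % k, Nat.mod_lt _ hk, (B08_per_mod hqk _).symm⟩
    obtain ⟨i, -, rfl⟩ := hmem
    exact ⟨(S.L2_H_fw i).2 hq, S.L2_WU_fw hqB i⟩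
  have hx0 : Tendsto (fun n => dist (fw S.f n q) (fw S.f n x)) atTop (𝓝 0) := hx
  have hx1 : Tendsto (fun j => dist (fw S.f (T (φ j)) q) (fw S.f (T (φ j)) x)) atTop (𝓝 0) :=
    hx0.comp hTφ
  -- `e ≠ q'`
  have hde : ε ≤ dist q' e := by
    have h1 : Tendsto (fun j => dist (fw S.f (T (φ j)) q) (fw S.f (T (φ j)) x) +
        dist (fw S.f (T (φ j)) q) (fw S.f (T (φ j)) (y (φ j)))) atTop (𝓝 (0 + dist q' e)) :=
      hx1.add (hq'.dist he)
    rw [zero_add] at h1
    refine ge_of_tendsto h1 (Eventually.of_forall fun j => ?_)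
    refine (hT1 (φ j)).le.trans ?_
    exact dist_triangle_left _ _ _
  have hne : e ≠ q' := by
    rintro rfl
    rw [dist_self] at hde
    exact absurd hde (not_le.2 hε)
  -- `bk 1 e` is in the plaque of `bk 1 q'`
  have hwul : bk S.f 1 e ∈ WUl S.f ε (bk S.f 1 q') := by
    intro n
    rw [← bk_add, ← bk_add]
    have h1 : Tendsto (fun j => dist (bk S.f (n + 1) (fw S.f (T (φ j)) q))
        (bk S.f (n + 1) (fw S.f (T (φ j)) (y (φ j))))) atTop
        (𝓝 (dist (bk S.f (n + 1) q') (bk S.f (n + 1) e))) :=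
      (((continuous_bk (n + 1)).tendsto _).comp hq').dist
        (((continuous_bk (n + 1)).tendsto _).comp he)
    have h2 : Tendsto (fun j => dist (fw S.f (T (φ j) - (n + 1)) q)
        (fw S.f (T (φ j) - (n + 1)) x) + ε) atTop (𝓝 (0 + ε)) := by
      refine Tendsto.add (hx0.comp ?_) tendsto_const_nhds
      exact (tendsto_sub_atTop_nat (n + 1)).comp hTφ
    rw [zero_add] at h2
    refine le_of_tendsto_of_tendsto h1 h2 ?_
    filter_upwards [hTφ.eventually_ge_atTop (n + 1)] with j hj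
    rw [B08_bk_fw_sub hj, B08_bk_fw_sub hj]
    refine (dist_triangle _ (fw S.f (T (φ j) - (n + 1)) x) _).trans ?_
    gcongr
    exact hT2 (φ j) _ (by omega)
  have hq'H : bk S.f 1 q' ∈ S.H := S.C15_bkH hq'Q.1 1
  have hwu : e ∈ WU S.f q' := by
    rw [← wu_bk 1]
    exact S.C15_wu hu hε0 hq'H (wul_mono hε' hwul)
  have heB : e ∈ S.B := hq'Q.2 ⟨hwu, hne⟩
  obtain ⟨j, hj⟩ := (he.eventually (S.B_open.mem_nhds heB)).exists
  exact ⟨φ j, (S.L2_B_fw _).1 hj⟩

/-- L2: the stable manifold of a periodic point `q` of type `(1, d-1)` whose punctured unstable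
manifold is in the basin is contained in the closure of the basin. -/
theorem WS_closure_B (hd : 2 ≤ d) {q : K} (hq : q ∈ S.H)
    (hper : ∃ k > 0, fw S.f k q = q) (_hqB : q ∉ S.B) (h : WU S.f q \ {q} ⊆ S.B) :
    WS S.f q ⊆ closure S.B := by
  intro x hx
  by_contra hxB
  obtain ⟨ε0, hε0, hesc⟩ := S.L2_escape
  obtain ⟨ε1, hε1, hws⟩ := S.L2_wsl_ws
  have hdense : Dense (WS S.f q)ᶜ :=
    interior_eq_empty_iff_dense_compl.1 (S.L2_ws_int hd hq)
  have hcl : x ∈ closure ((closure S.B)ᶜ ∩ (WS S.f q)ᶜ) :=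
    hdense.open_subset_closure_inter isClosed_closure.isOpen_compl hxB
  obtain ⟨y, hyB, hy⟩ := mem_closure_iff_seq_limit.1 hcl
  set ε : ℝ := min ε0 (ε1 / 2) with hε
  have hεpos : 0 < ε := lt_min hε0 (half_pos hε1)
  have hεle : ε ≤ ε1 / 2 := min_le_right _ _
  obtain ⟨j, hj⟩ := hesc ε hεpos (min_le_left _ _) q hq hper h x hx y hy (by
    intro j
    by_contra hno
    push Not at hno
    apply (hyB j).2
    have hx0 : Tendsto (fun n => dist (fw S.f n q) (fw S.f n x)) atTop (𝓝 0) := hx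
    obtain ⟨N, hN⟩ := eventually_atTop.1 (hx0.eventually_le_const hεpos)
    rw [← B08_ws_fw N]
    apply hws _ ((S.L2_H_fw N).2 hq)
    intro n
    rw [← fw_add, ← fw_add]
    calc dist (fw S.f (n + N) q) (fw S.f (n + N) (y j))
        ≤ dist (fw S.f (n + N) q) (fw S.f (n + N) x)
          + dist (fw S.f (n + N) x) (fw S.f (n + N) (y j)) := dist_triangle _ _ _
      _ ≤ ε + ε := add_le_add (hN _ (Nat.le_add_left _ _)) (hno _)
      _ ≤ ε1 := by linarith)
  exact (hyB j).1 (subset_closure hj)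

end GAtt

end Pool.MP85
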