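import Pool.Agent.Lib.MP_85e637_an.AbsC2
import Pool.Agent.Lib.MP_85e637_an.C13
import Pool.Agent.Lib.MP_85e637_an.C14a
import Pool.Agent.Lib.MP_85e637_an.C14b
import Pool.Agent.Lib.MP_85e637_an.C15
import Pool.Agent.Lib.MP_85e637_an.C16
import Pool.Agent.Lib.MP_85e637_an.D02a
import Pool.Agent.Lib.MP_85e637_an.D02b
import Pool.Agent.Lib.MP_85e637_an.D06b
import Pool.Agent.Lib.MP_85e637_an.D07
import Pool.Agent.Lib.MP_85e637_an.D08
import Pool.Agent.Lib.MP_85e637_an.D09a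
import Pool.Agent.Lib.MP_85e637_an.D09b
import Pool.Agent.Lib.MP_85e637_an.L2

/-!
# D10: assembly of the structure `SD`
-/

open Filter Topology Set Metric Module

namespace Pool.MP85

theorem D10_wul_mono {Z : Type} [MetricSpace Z] (F : Z ≃ₜ Z) {ε ε' : ℝ} (h : ε ≤ ε') (x : Z) :
    WUl F ε x ⊆ WUl F ε' x := fun _ hy n => (hy n).trans h

theorem D10_wsl_mono {Z : Type} [MetricSpace Z] (F : Z ≃ₜ Z) {ε ε' : ℝ} (h : ε ≤ ε') (x : Z) :
    WSl F ε x ⊆ WSl F ε' x := fun _ hy n => (hy n).trans h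

namespace GAtt
variable {d N : ℕ} {K : Type} [MetricSpace K] [CompactSpace K] (S : GAtt d N K)

theorem D10_ext {x y : S.X} (h1 : S.pt x = S.pt y) (h2 : S.dir x = S.dir y) : x = y :=
  Subtype.ext (Prod.ext h1 h2)

theorem D10_dist (x y : S.X) :
    dist x y = max (dist (S.pt x) (S.pt y)) (dist (S.dir x) (S.dir y)) := rfl

theorem D10_dist_pt (x y : S.X) : dist (S.pt x) (S.pt y) ≤ dist x y := by
  rw [S.D10_dist]; exact le_max_left _ _

theorem D10_norm_dir (x : S.X) : ‖S.dir x‖ = 1 := x.2.2.2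

variable {S}

theorem D10_pt_symm (D : S.XData) (x : S.X) : S.pt (D.F.symm x) = S.f.symm (S.pt x) := by
  rw [← S.f.injective.eq_iff, S.f.apply_symm_apply, ← D.pt_F, D.F.apply_symm_apply]

theorem D10_pt_bk (D : S.XData) (n : ℕ) (x : S.X) :
    S.pt (bk D.F n x) = bk S.f n (S.pt x) := by
  induction n with
  | zero => rfl
  | succ n ih => rw [bk_succ', bk_succ', D10_pt_symm, ih]

theorem D10_pt_fw (D : S.XData) (n : ℕ) (x : S.X) :
    S.pt (fw D.F n x) = fw S.f n (S.pt x) := by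
  induction n with
  | zero => rfl
  | succ n ih => rw [fw_succ', fw_succ', D.pt_F, ih]

theorem D10_pt_wul (D : S.XData) {ε : ℝ} {x y : S.X} (h : y ∈ WUl D.F ε x) :
    S.pt y ∈ WUl S.f ε (S.pt x) := by
  intro n
  have h1 := h n
  rw [← D10_pt_bk D, ← D10_pt_bk D]
  exact (S.D10_dist_pt _ _).trans h1

theorem D10_σσ (D : S.XData) (x : S.X) : D.σ (D.σ x) = x := by
  apply S.D10_ext
  · rw [D.pt_σ, D.pt_σ]
  · rw [D.dir_σ, D.dir_σ, neg_neg]

theorem D10_σF (D : S.XData) (x : S.X) : D.F (D.σ x) = D.σ (D.F x) := by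
  apply S.D10_ext
  · rw [D.pt_F, D.pt_σ, D.pt_σ, D.pt_F]
  · have h1 := D.dir_F (D.σ x)
    have h2 := D.dir_F x
    rw [D.pt_σ, D.dir_σ, map_neg, norm_neg] at h1
    rw [D.dir_σ]
    have h3 : ‖S.A (S.pt x) (S.dir x)‖ ≠ 0 := by
      intro h4
      rw [norm_eq_zero] at h4
      have h5 : S.A' (S.pt x) (S.A (S.pt x) (S.dir x)) = S.P (S.pt x) (S.dir x) := by
        rw [← ContinuousLinearMap.comp_apply, S.A'A]
      have h6 : S.P (S.pt x) (S.dir x) = S.dir x := x.2.2.1.1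
      rw [h4, map_zero, h6] at h5
      have h7 := S.D10_norm_dir x
      rw [← h5, norm_zero] at h7
      exact zero_ne_one h7
    have h4 : ‖S.A (S.pt x) (S.dir x)‖ • S.dir (D.F (D.σ x)) =
        ‖S.A (S.pt x) (S.dir x)‖ • (-S.dir (D.F x)) := by
      rw [h1, smul_neg, h2]
    exact smul_right_injective _ h3 h4

theorem D10_σ_isom (D : S.XData) (x y : S.X) : dist (D.σ x) (D.σ y) = dist x y := by
  rw [S.D10_dist, S.D10_dist, D.pt_σ, D.pt_σ, D.dir_σ, D.dir_σ, dist_neg_neg]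

theorem D10_σ_sep (D : S.XData) (x : S.X) : 2 ≤ dist x (D.σ x) := by
  rw [S.D10_dist, D.dir_σ]
  refine le_trans ?_ (le_max_right _ _)
  rw [dist_eq_norm, sub_neg_eq_add, ← two_smul ℝ, norm_smul, S.D10_norm_dir]
  norm_num

variable (S)

/-- a compact neighbourhood of `L` in the basin -/
theorem D10_nhd : ∃ δ > 0, {x : K | infDist x S.L ≤ δ} ⊆ S.B := by
  have h1 : IsCompact (S.Bᶜ) := (S.B_open).isClosed_compl.isCompact
  have h2 : Disjoint S.L (S.Bᶜ) := by
    rw [disjoint_compl_right_iff_subset]; exact S.L_B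
  obtain ⟨δ, hδ, h3⟩ := h2.exists_thickenings S.L_cpt h1.isClosed
  refine ⟨δ / 2, by linarith, ?_⟩
  intro x hx
  by_contra hx'
  have h4 : x ∈ thickening δ S.L := by
    rw [mem_thickening_iff_infDist_lt S.L_ne]
    exact lt_of_le_of_lt hx (by linarith)
  have h5 : x ∈ thickening δ (S.Bᶜ) := self_subset_thickening hδ _ hx'
  exact (disjoint_left.1 h3 h4) h5

theorem D10_LX_ne : S.LX.Nonempty := by
  obtain ⟨x, hx⟩ := S.L_ne
  have h1 : x ∈ range S.pt := by rw [S.range_pt]; exact S.L_B hx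
  obtain ⟨y, rfl⟩ := h1
  exact ⟨y, hx⟩

theorem D10_near (ε : ℝ) (hε : 0 < ε) : ∃ δ > 0, ∀ y : S.X, infDist (S.pt y) S.L < δ →
    infDist y S.LX < ε := by
  obtain ⟨δ0, hδ0, h0⟩ := S.D10_nhd
  have hC : IsCompact {x : K | infDist x S.L ≤ δ0} :=
    (isClosed_le (continuous_infDist_pt _) continuous_const).isCompact
  have hC' := S.proper_pt _ h0 hC
  have hO : IsCompact ((S.pt ⁻¹' {x : K | infDist x S.L ≤ δ0}) ∩ {y | ε ≤ infDist y S.LX}) :=
    hC'.inter_right (isClosed_le continuous_const (continuous_infDist_pt _))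
  rcases ((S.pt ⁻¹' {x : K | infDist x S.L ≤ δ0}) ∩ {y | ε ≤ infDist y S.LX}).eq_empty_or_nonempty
    with he | hne
  · refine ⟨δ0, hδ0, fun y hy => ?_⟩
    by_contra hcon
    have : y ∈ (S.pt ⁻¹' {x : K | infDist x S.L ≤ δ0}) ∩ {y | ε ≤ infDist y S.LX} :=
      ⟨hy.le, not_lt.1 hcon⟩
    rw [he] at this
    exact this
  · obtain ⟨y0, hy0, hmin⟩ := hO.exists_isMinOn hne
      ((continuous_infDist_pt S.L).comp S.continuous_pt).continuousOn
    have hpos : 0 < infDist (S.pt y0) S.L := by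
      rcases (infDist_nonneg (x := S.pt y0) (s := S.L)).lt_or_eq with h | h
      · exact h
      · exfalso
        have h1 : S.pt y0 ∈ S.L := by
          rw [S.L_cpt.isClosed.mem_iff_infDist_zero S.L_ne]; exact h.symm
        have h2 : infDist y0 S.LX = 0 := infDist_zero_of_mem h1
        have h3 : ε ≤ infDist y0 S.LX := hy0.2
        linarith
    refine ⟨min δ0 (infDist (S.pt y0) S.L), lt_min hδ0 hpos, fun y hy => ?_⟩
    by_contra hcon
    have h1 : y ∈ (S.pt ⁻¹' {x : K | infDist x S.L ≤ δ0}) ∩ {y | ε ≤ infDist y S.LX} :=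
      ⟨(hy.trans_le (min_le_left _ _)).le, not_lt.1 hcon⟩
    have h2 : infDist (S.pt y0) S.L ≤ infDist (S.pt y) S.L := hmin h1
    have h3 := hy.trans_le (min_le_right _ _)
    linarith

theorem D10_attr (D : S.XData) (x : S.X) :
    Tendsto (fun n => infDist (fw D.F n x) S.LX) atTop (𝓝 0) := by
  have h1 : Tendsto (fun n => infDist (fw S.f n (S.pt x)) S.L) atTop (𝓝 0) := x.2.1
  rw [Metric.tendsto_atTop]
  intro ε hε
  obtain ⟨δ, hδ, h2⟩ := S.D10_near ε hε
  obtain ⟨n0, hn0⟩ := (h1.eventually_lt_const hδ).exists_forall_of_atTop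
  refine ⟨n0, fun n hn => ?_⟩
  rw [Real.dist_0_eq_abs, abs_of_nonneg infDist_nonneg]
  apply h2
  rw [D10_pt_fw]
  exact hn0 n hn

variable {S}

theorem D10_small (R : S.Speed) (Φ : S.Flow R) : ∃ δ > 0, ∀ b ∈ S.LX, ∀ y, dist b y < δ →
    ∀ t : ℝ, |t| < δ → dist b (Φ.φ t y) < 1 := by
  have hO : IsOpen {q : ℝ × S.X | dist q.2 (Φ.φ q.1 q.2) < 1 / 2} :=
    isOpen_lt (continuous_snd.dist Φ.cont) continuous_const
  have hK : IsCompact (({0} : Set ℝ) ×ˢ S.LX) := isCompact_singleton.prod S.compact_LX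
  have hsub : (({0} : Set ℝ) ×ˢ S.LX) ⊆ {q : ℝ × S.X | dist q.2 (Φ.φ q.1 q.2) < 1 / 2} := by
    rintro ⟨t, y⟩ ⟨ht, -⟩
    have ht' : t = 0 := ht
    show dist y (Φ.φ t y) < 1 / 2
    rw [ht', Φ.zero, dist_self]
    norm_num
  obtain ⟨δ, hδ, h1⟩ := hK.exists_thickening_subset_open hO hsub
  refine ⟨min δ (1 / 2), lt_min hδ (by norm_num), ?_⟩
  intro b hb y hy t ht
  have h2 : (t, y) ∈ thickening δ (({0} : Set ℝ) ×ˢ S.LX) := by
    rw [mem_thickening_iff]
    refine ⟨(0, b), ⟨rfl, hb⟩, ?_⟩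
    rw [Prod.dist_eq, max_lt_iff]
    constructor
    · rw [Real.dist_0_eq_abs]
      exact ht.trans_le (min_le_left _ _)
    · rw [dist_comm]
      exact hy.trans_le (min_le_left _ _)
  have h3 : dist y (Φ.φ t y) < 1 / 2 := h1 h2
  have h4 := hy.trans_le (min_le_right _ _)
  calc dist b (Φ.φ t y) ≤ dist b y + dist y (Φ.φ t y) := dist_triangle _ _ _
    _ < 1 := by linarith

variable (S)

theorem exists_sd (hd : 4 ≤ d) : ∃ T : SD (d - 1) S.X K, T.π = S.pt ∧ T.Λ = S.LX ∧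
    T.g = S.f := by
  obtain ⟨R⟩ := S.exists_speed
  obtain ⟨D⟩ := S.exists_xdata
  obtain ⟨Φ⟩ := S.exists_flow R
  obtain ⟨τ, hτc, hτ0, hτm, hτs, hτF, V, hV, hLV, δ1, hδ1, hτ2⟩ := Φ.exists_τ D
  obtain ⟨ε1, hε1, hU1⟩ := S.X_U1 D
  obtain ⟨ε2, hε2, hU2⟩ := S.X_U2 D
  obtain ⟨ε3, hε3, hU3⟩ := S.X_U3 D
  obtain ⟨ε4, hε4, hcs1⟩ := Φ.cs1
  have hcs2 := Φ.cs2
  obtain ⟨ε5, hε5, hHexp⟩ := S.H_exp
  obtain ⟨ε6, hε6, hHu⟩ := S.H_u
  obtain ⟨ε7, hε7, hHs⟩ := S.H_s
  obtain ⟨r0, hr0, hSrc⟩ := S.Src_rep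
  have hLH : S.L ⊆ S.H ∩ S.B := fun x hx => ⟨S.L_H hx, S.L_B hx⟩
  obtain ⟨δ2, hδ2, hcs1L⟩ := hcs1 S.L hLH S.L_cpt
  obtain ⟨δ3, hδ3, hsm⟩ := D10_small R Φ
  -- sizes
  obtain ⟨ε0, hε0, h01, h02, h03, h04, h05⟩ : ∃ ε0 : ℝ, 0 < ε0 ∧ ε0 ≤ ε1 ∧ ε0 ≤ ε2 ∧ ε0 ≤ ε3 ∧
      ε0 ≤ ε4 ∧ ε0 ≤ 1 / 4 :=
    ⟨min (min ε1 ε2) (min (min ε3 ε4) (1 / 4)), by
      refine lt_min (lt_min hε1 hε2) (lt_min (lt_min hε3 hε4) (by norm_num)),
      (min_le_left _ _).trans (min_le_left _ _), (min_le_left _ _).trans (min_le_right _ _),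
      (min_le_right _ _).trans ((min_le_left _ _).trans (min_le_left _ _)),
      (min_le_right _ _).trans ((min_le_left _ _).trans (min_le_right _ _)),
      (min_le_right _ _).trans (min_le_right _ _)⟩
  obtain ⟨εH, hεH, hH4, hH5, hH6, hH7⟩ : ∃ εH : ℝ, 0 < εH ∧ εH ≤ ε4 ∧ εH ≤ ε5 ∧ εH ≤ ε6 ∧
      εH ≤ ε7 :=
    ⟨min (min ε4 ε5) (min ε6 ε7), lt_min (lt_min hε4 hε5) (lt_min hε6 hε7),
      (min_le_left _ _).trans (min_le_left _ _), (min_le_left _ _).trans (min_le_right _ _),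
      (min_le_right _ _).trans (min_le_left _ _), (min_le_right _ _).trans (min_le_right _ _)⟩
  have himg : S.pt '' S.LX = S.L := by
    ext x
    constructor
    · rintro ⟨y, hy, rfl⟩; exact hy
    · intro hx
      obtain ⟨y, rfl⟩ : x ∈ range S.pt := by rw [S.range_pt]; exact S.L_B hx
      exact ⟨y, hx, rfl⟩
  let T : SD (d - 1) S.X K :=
    { F := D.F
      σ := D.σ
      φ := Φ.φ
      τ := τ
      π := S.pt
      Λ := S.LX
      ε0 := ε0
      δ0 := min δ1 δ2
      c0 := 2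
      ε0_pos := hε0
      δ0_pos := lt_min hδ1 hδ2
      c0_pos := by norm_num
      ε0_lt := by linarith
      φ_cont := Φ.cont
      φ_zero := Φ.zero
      φ_add := Φ.add
      σσ := D10_σσ D
      σ_isom := D10_σ_isom D
      σφ := fun t x => Φ.σφ D t x
      σF := D10_σF D
      πσ := D.pt_σ
      π_lip := S.D10_dist_pt
      fib := fun x y h => S.fib D x y h
      free := fun t x h => Φ.free t x h
      σ_sep := D10_σ_sep D
      Fφ := hτF
      τ_cont := hτc
      τ_zero := hτ0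
      τ_mono := hτm
      τ_surj := hτs
      Λ_cpt := S.compact_LX
      Λ_ne := S.D10_LX_ne
      FΛ := fun x => by
        show S.pt (D.F x) ∈ S.L ↔ S.pt x ∈ S.L
        rw [D.pt_F]; exact S.L_inv _
      σΛ := fun x => by
        show S.pt (D.σ x) ∈ S.L ↔ S.pt x ∈ S.L
        rw [D.pt_σ]
      attr := S.D10_attr D
      contr0 := fun x hx t ht => hτ2 x (hLV hx) t (ht.trans (min_le_left _ _))
      contr1 := fun x t => Φ.contr D x t
      U1 := fun x hx => (D10_wul_mono D.F h01 x).trans (hU1 x hx)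
      U2 := fun x hx y hy => hU2 x hx y (D10_wul_mono D.F h02 x hy)
      U3 := fun ε hε => by
        obtain ⟨r, hr, h⟩ := hU3 ε hε
        exact ⟨r, hr, fun x hx y hy => h x hx y (D10_wul_mono D.F h03 x hy)⟩
      CS1 := fun b hb y t ht h1 h2 =>
        hcs1L (S.pt b) hb y t (ht.trans (min_le_right _ _))
          (D10_wul_mono S.f h04 _ (D10_pt_wul D h1)) (D10_wul_mono S.f h04 _ (D10_pt_wul D h2))
      CS2 := fun ε hε => by
        obtain ⟨ε', hε', h1⟩ := S.plaque_lift D ε hε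
        obtain ⟨r, hr, h2⟩ := hcs2 S.L hLH S.L_cpt (min (min ε' ε) (δ3 / 2))
          (lt_min (lt_min hε' hε) (by linarith))
        refine ⟨min r δ3, lt_min hr hδ3, fun b hb y hy => ?_⟩
        obtain ⟨t, ht, h3⟩ := h2 (S.pt b) hb y
          (lt_of_le_of_lt (S.D10_dist_pt _ _) (hy.trans_le (min_le_left _ _)))
        refine ⟨t, ht.trans ((min_le_left _ _).trans (min_le_right _ _)), ?_⟩
        refine h1 b hb _ (hsm b hb y (hy.trans_le (min_le_right _ _)) t ?_)
          (D10_wul_mono S.f ((min_le_left _ _).trans (min_le_left _ _)) _ h3)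
        have := ht.trans (min_le_right _ _)
        linarith
      LC := S.X_LC D
      exh := fun x hx => S.X_exh (by omega) D hx
      dens := S.X_dens D
      g := S.f
      πF := D.pt_F
      isOpen_B := by rw [S.range_pt]; exact S.B_open
      lift := fun x ε hε => by
        obtain ⟨δ, hδ, h⟩ := S.lift_pt x ε hε
        refine ⟨δ, hδ, fun y hy => h y ?_⟩
        rwa [S.range_pt] at hy
      πproper := fun C hC hC' => S.proper_pt C (by rwa [S.range_pt] at hC) hC'
      mem_B := fun x => by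
        rw [himg, S.range_pt]; rfl
      attrK := fun C hC hC' => by
        rw [himg]
        rw [S.range_pt] at hC
        exact S.attrK C hC hC'
      repL := fun x hx => by
        rw [himg] at hx ⊢
        exact S.repL x hx
      Src := S.Src
      S1 := S.S1
      H := S.H
      Om := S.Om
      Src_fin := S.Src_fin
      Src_inv := fun x => S.Src_inv
      S1_inv := fun x => S.S1_inv
      H_inv := fun x => S.H_inv
      r0 := r0
      r0_pos := hr0
      Src_rep := hSrc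
      Src_open := fun α hα => S.Src_open hα
      Src_sc := fun α hα => S.Src_sc (by omega) hα
      Src_lpc := fun α hα => S.Src_lpc hα
      disj := by
        rw [disjoint_left]
        intro x hx hx'
        have h1 : finrank ℝ (S.Es x) = 0 := hx.2
        have h2 : finrank ℝ (S.Es x) = 1 := hx'.2
        omega
      closed_S := S.closed_le1
      closed_H := S.closed_H
      B_S1 := by rw [S.range_pt]; exact S.B_S1
      H_S1 := fun x hx => S.mem_S1_of_H hx
      L_H := by rw [himg]; exact S.L_H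
      S1_cases := fun x hx => S.S1_cases hx
      H_notWU := fun α hα x hx => S.H_notWU hα hx
      S1_WS := fun x hx hxB hper hWU y hy => by
        rw [S.range_pt] at hxB hWU
        have h1 : y ∈ closure S.B := S.WS_closure_B (by omega) hx hper hxB hWU hy
        have h2 : closure S.B ⊆ S.R := closure_minimal S.B_R S.R_closed
        exact ⟨h2 h1, S.finrank_WS hx hy⟩
      H_WU := fun x hx y hy hy1 => S.H_WU hx hy hy1
      Om_closed := S.Om_closed
      Om_fw := S.Om_fw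
      Om_bk := S.Om_bk
      Om_S1 := S.Om_S1
      Om_loc := S.Om_loc
      Om_per := S.Om_per
      εH := εH
      εH_pos := hεH
      H_exp := fun x hx y h1 h2 =>
        hHexp x hx y (D10_wsl_mono S.f hH5 x h1) (D10_wul_mono S.f hH5 x h2)
      H_u := fun x hx y hy => by
        have h1 := hHu x hx x (fun n => by rw [dist_self]; exact hε6.le) y
          (D10_wul_mono S.f hH6 x hy)
        linarith [dist_nonneg (x := S.f.symm x) (y := S.f.symm y)]
      H_s := fun x hx y hy => by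
        have h1 := hHs x hx x (fun n => by rw [dist_self]; exact hε7.le) y
          (D10_wsl_mono S.f hH7 x hy)
        linarith [dist_nonneg (x := S.f x) (y := S.f y)]
      H_lps := S.H_lps
      H_exh := fun x hx => S.H_exh (by omega) hx
      CSH1 := fun C hC hC' => by
        rw [S.range_pt] at hC
        obtain ⟨δ, hδ, h⟩ := hcs1 C hC hC'
        exact ⟨δ, hδ, fun b hb y t ht h1 h2 => h b hb y t ht (D10_wul_mono S.f hH4 _ h1)
          (D10_wul_mono S.f hH4 _ h2)⟩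
      CSH2 := fun C hC hC' => by
        rw [S.range_pt] at hC
        exact hcs2 C hC hC'
      ylift := fun A _ _ _ c hc => by
        obtain ⟨o, ho, ho'⟩ := S.ylift A c hc
        refine ⟨fun a => o ⟨a.1, by rw [← S.range_pt]; exact a.2⟩, ?_, fun a => ho' _⟩
        exact ho.comp (Continuous.subtype_mk continuous_subtype_val _) }
  exact ⟨T, rfl, rfl, rfl⟩

end GAtt

end Pool.MP85
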