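import Pool.Agent.Lib.MP_85e637_an.A16
import Pool.Agent.Lib.MP_85e637_an.B12
import Pool.Agent.Lib.MP_85e637_an.D10

/-!
# A continuous unit section of the stable line field over the attractor
-/

open Filter Topology Set Metric Module

namespace Pool.MP85
namespace GAtt
variable {d N : ℕ} {K : Type} [MetricSpace K] [CompactSpace K] (S : GAtt d N K)

/-- final result of layer C: the stable line field has a continuous unit section over `L` -/
theorem exists_section (hd : 4 ≤ d) : ∃ w : K → EE N, ContinuousOn w S.L ∧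
    ∀ x ∈ S.L, w x ∈ S.Es x ∧ ‖w x‖ = 1 := by
  obtain ⟨T, hπ, hΛ, -⟩ := S.exists_sd hd
  have himg : T.π '' T.Λ = S.L := by
    rw [hπ, hΛ]
    ext x
    constructor
    · rintro ⟨y, hy, rfl⟩; exact hy
    · intro hx
      obtain ⟨y, rfl⟩ : x ∈ range S.pt := by rw [S.range_pt]; exact S.L_B hx
      exact ⟨y, hx, rfl⟩
  rcases T.toAF.section_or_rev with ⟨x, hx, t, h⟩ | ⟨s, hs, hs'⟩
  · exact (T.main (by omega) hx h).elim
  · refine ⟨fun x => S.dir (s x), ?_, fun x hx => ?_⟩
    · rw [himg] at hs
      exact S.continuous_dir.comp_continuousOn hs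
    · have h1 : S.pt (s x) = x := by
        have := hs' x (himg ▸ hx); rwa [hπ] at this
      refine ⟨?_, (s x).2.2.2⟩
      have := (s x).2.2.1
      change S.dir (s x) ∈ S.Es (S.pt (s x)) at this
      rwa [h1] at this

end GAtt
end Pool.MP85
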