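import Pool.Agent.Lib.MP_85e637_an.AbsC

/-!
# E01: bridge between Mathlib manifolds and embedded systems: local package, `Pm_rank`, `Pm_cont`,
`Pm_flat`. This file declares `De` and `Pm`.
-/

open scoped Manifold ContDiff Topology Bundle
open Filter Set Metric Module

noncomputable section

set_option linter.unusedSectionVars false

namespace Pool.MP85

section EmbDefs

/-- derivative of the embedding -/
abbrev De (d : ℕ) {N : ℕ} {M : Type} [MetricSpace M] [ChartedSpace (EuclideanSpace ℝ (Fin d)) M]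
    (e : M → EE N) (x : M) : TangentSpace (𝓡 d) x →L[ℝ] EE N :=
  mfderiv (𝓡 d) 𝓘(ℝ, EE N) e x

/-- orthogonal projection onto the embedded tangent space -/
def Pm (d : ℕ) {N : ℕ} {M : Type} [MetricSpace M] [ChartedSpace (EuclideanSpace ℝ (Fin d)) M]
    (e : M → EE N) (x : M) : EE N →L[ℝ] EE N :=
  (LinearMap.range (De d e x).toLinearMap).starProjection

end EmbDefs

section Loc
variable {d N : ℕ} {M : Type} [MetricSpace M] 
  [ChartedSpace (EuclideanSpace ℝ (Fin d)) M] [IsManifold (𝓡 d) ∞ M]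
  {E' : Type} [NormedAddCommGroup E'] [NormedSpace ℝ E']

/-- `F` in the chart at `x0` -/
def E01_rep (d : ℕ) {M : Type} [MetricSpace M] [ChartedSpace (EuclideanSpace ℝ (Fin d)) M]
    {E' : Type} (F : M → E') (x0 : M) : EuclideanSpace ℝ (Fin d) → E' :=
  F ∘ (extChartAt (𝓡 d) x0).symm

/-- the derivative of `F` at `x` in the chart at `x0` -/
def E01_D (d : ℕ) {M : Type} [MetricSpace M] [ChartedSpace (EuclideanSpace ℝ (Fin d)) M]
    {E' : Type} [NormedAddCommGroup E'] [NormedSpace ℝ E'] (F : M → E') (x0 x : M) :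
    EuclideanSpace ℝ (Fin d) →L[ℝ] E' :=
  fderiv ℝ (E01_rep d F x0) (extChartAt (𝓡 d) x0 x)

theorem E01_rep_contDiffOn {F : M → E'} (hF : ContMDiff (𝓡 d) 𝓘(ℝ, E') 1 F) (x0 : M) :
    ContDiffOn ℝ 1 (E01_rep d F x0) (extChartAt (𝓡 d) x0).target := by
  rw [← contMDiffOn_iff_contDiffOn]
  exact hF.comp_contMDiffOn (contMDiffOn_extChartAt_symm (n := 1) x0)

theorem E01_target_open (x0 : M) : IsOpen (extChartAt (𝓡 d) x0).target :=
  isOpen_extChartAt_target x0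

theorem E01_D_cont {F : M → E'} (hF : ContMDiff (𝓡 d) 𝓘(ℝ, E') 1 F) (x0 : M) :
    ContinuousAt (E01_D d F x0) x0 := by
  have h1 : ContinuousOn (fderiv ℝ (E01_rep d F x0)) (extChartAt (𝓡 d) x0).target :=
    (E01_rep_contDiffOn hF x0).continuousOn_fderiv_of_isOpen (E01_target_open x0) le_rfl
  have h2 : ContinuousAt (fderiv ℝ (E01_rep d F x0)) (extChartAt (𝓡 d) x0 x0) :=
    h1.continuousAt ((E01_target_open x0).mem_nhds (mem_extChartAt_target x0))
  exact ContinuousAt.comp (f := fun x => extChartAt (𝓡 d) x0 x) h2 (continuousAt_extChartAt x0)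

theorem E01_D_eq {F : M → E'} (hF : ContMDiff (𝓡 d) 𝓘(ℝ, E') 1 F) (x0 : M) {x : M}
    (hx : x ∈ (extChartAt (𝓡 d) x0).source) (v : TangentSpace (𝓡 d) x) :
    mfderiv (𝓡 d) 𝓘(ℝ, E') F x v =
      E01_D d F x0 x (mfderiv (𝓡 d) 𝓘(ℝ, EuclideanSpace ℝ (Fin d)) (extChartAt (𝓡 d) x0) x v) := by
  have hxt : extChartAt (𝓡 d) x0 x ∈ (extChartAt (𝓡 d) x0).target :=
    (extChartAt (𝓡 d) x0).map_source hx
  have h1 : F =ᶠ[𝓝 x] (E01_rep d F x0) ∘ (extChartAt (𝓡 d) x0) := by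
    filter_upwards [(isOpen_extChartAt_source x0).mem_nhds hx] with y hy
    simp only [E01_rep, Function.comp]
    rw [(extChartAt (𝓡 d) x0).left_inv hy]
  have h2 : DifferentiableAt ℝ (E01_rep d F x0) (extChartAt (𝓡 d) x0 x) :=
    ((E01_rep_contDiffOn hF x0).contDiffAt ((E01_target_open x0).mem_nhds hxt)).differentiableAt
      one_ne_zero
  have h3 : MDifferentiableAt 𝓘(ℝ, EuclideanSpace ℝ (Fin d)) 𝓘(ℝ, E') (E01_rep d F x0)
      (extChartAt (𝓡 d) x0 x) := h2.mdifferentiableAt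
  have h4 : MDifferentiableAt (𝓡 d) 𝓘(ℝ, EuclideanSpace ℝ (Fin d)) (extChartAt (𝓡 d) x0) x :=
    mdifferentiableAt_extChartAt (by simpa using hx)
  rw [h1.mfderiv_eq, mfderiv_comp x h3 h4, mfderiv_eq_fderiv]
  rfl

theorem E01_inv (x0 : M) {x : M} (hx : x ∈ (extChartAt (𝓡 d) x0).source) :
    Function.Bijective
      (mfderiv (𝓡 d) 𝓘(ℝ, EuclideanSpace ℝ (Fin d)) (extChartAt (𝓡 d) x0) x) := by
  obtain ⟨L, hL⟩ := isInvertible_mfderiv_extChartAt (I := 𝓡 d) hx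
  rw [← hL]
  exact L.bijective

/-- strict differentiability at the centre of the chart, with the derivative taken at nearby points -/
theorem E01_strict {F : M → E'} (hF : ContMDiff (𝓡 d) 𝓘(ℝ, E') 1 F) (x0 : M) {ε : ℝ}
    (hε : 0 < ε) : ∃ V ∈ 𝓝 x0, ∀ x ∈ V, ∀ y ∈ V, ∀ y' ∈ V,
      ‖F y - F y' - E01_D d F x0 x (extChartAt (𝓡 d) x0 y - extChartAt (𝓡 d) x0 y')‖ ≤
        ε * ‖extChartAt (𝓡 d) x0 y - extChartAt (𝓡 d) x0 y'‖ := by
  have h1 : HasStrictFDerivAt (E01_rep d F x0) (E01_D d F x0 x0) (extChartAt (𝓡 d) x0 x0) :=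
    ((E01_rep_contDiffOn hF x0).contDiffAt ((E01_target_open x0).mem_nhds
      (mem_extChartAt_target x0))).hasStrictFDerivAt one_ne_zero
  have h2 := h1.isLittleO.def (half_pos hε)
  rw [nhds_prod_eq] at h2
  obtain ⟨W, hW, hW'⟩ := eventually_prod_self_iff'.1 h2
  have h3 : ∀ᶠ x in 𝓝 x0, ‖E01_D d F x0 x - E01_D d F x0 x0‖ < ε / 2 := by
    have := (E01_D_cont hF x0)
    rw [Metric.continuousAt_iff'] at this
    filter_upwards [this (ε / 2) (half_pos hε)] with x hx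
    rwa [← dist_eq_norm]
  have h4 : ∀ᶠ x in 𝓝 x0, extChartAt (𝓡 d) x0 x ∈ W := continuousAt_extChartAt x0 hW
  have h5 : ∀ᶠ x in 𝓝 x0, x ∈ (extChartAt (𝓡 d) x0).source :=
    extChartAt_source_mem_nhds x0
  refine ⟨_, (h3.and (h4.and h5)), ?_⟩
  rintro x ⟨hx, -, -⟩ y ⟨-, hy, hys⟩ y' ⟨-, hy', hys'⟩
  have h6 := hW' _ hy _ hy'
  set u := extChartAt (𝓡 d) x0 y with hu
  set u' := extChartAt (𝓡 d) x0 y' with hu'
  have e1 : E01_rep d F x0 u = F y := by
    simp only [E01_rep, Function.comp, hu]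
    rw [(extChartAt (𝓡 d) x0).left_inv hys]
  have e2 : E01_rep d F x0 u' = F y' := by
    simp only [E01_rep, Function.comp, hu']
    rw [(extChartAt (𝓡 d) x0).left_inv hys']
  simp only [e1, e2] at h6
  have h7 : ‖(E01_D d F x0 x - E01_D d F x0 x0) (u - u')‖ ≤ ε / 2 * ‖u - u'‖ :=
    ((E01_D d F x0 x - E01_D d F x0 x0).le_opNorm _).trans (by gcongr)
  have h8 : F y - F y' - E01_D d F x0 x (u - u') =
      (F y - F y' - E01_D d F x0 x0 (u - u')) -
        (E01_D d F x0 x - E01_D d F x0 x0) (u - u') := by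
    show _ = _ - (E01_D d F x0 x (u - u') - E01_D d F x0 x0 (u - u'))
    abel
  rw [h8]
  calc _ ≤ _ := norm_sub_le _ _
    _ ≤ ε / 2 * ‖u - u'‖ + ε / 2 * ‖u - u'‖ := add_le_add h6 h7
    _ = ε * ‖u - u'‖ := by ring

variable {e : M → EE N}

theorem E01_De_eq (he : ContMDiff (𝓡 d) 𝓘(ℝ, EE N) 1 e) (x0 : M) {x : M}
    (hx : x ∈ (extChartAt (𝓡 d) x0).source) (v : TangentSpace (𝓡 d) x) :
    De d e x v =
      E01_D d e x0 x (mfderiv (𝓡 d) 𝓘(ℝ, EuclideanSpace ℝ (Fin d)) (extChartAt (𝓡 d) x0) x v) :=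
  E01_D_eq he x0 hx v

theorem E01_D_inj (he : ContMDiff (𝓡 d) 𝓘(ℝ, EE N) 1 e)
    (hinj : ∀ x, Function.Injective (De d e x)) (x0 : M) {x : M}
    (hx : x ∈ (extChartAt (𝓡 d) x0).source) : Function.Injective (E01_D d e x0 x) := by
  have h1 : (De d e x : TangentSpace (𝓡 d) x → EE N) = (E01_D d e x0 x) ∘
      (mfderiv (𝓡 d) 𝓘(ℝ, EuclideanSpace ℝ (Fin d)) (extChartAt (𝓡 d) x0) x) := by
    funext v; exact E01_D_eq he x0 hx v
  have h2 := hinj x
  rw [h1] at h2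
  exact (Function.Injective.of_comp_iff' _ (E01_inv x0 hx)).1 h2

theorem E01_lower (he : ContMDiff (𝓡 d) 𝓘(ℝ, EE N) 1 e)
    (hinj : ∀ x, Function.Injective (De d e x)) (x0 : M) :
    ∃ c > 0, ∃ V ∈ 𝓝 x0, ∀ y ∈ V, ∀ y' ∈ V,
      ‖extChartAt (𝓡 d) x0 y - extChartAt (𝓡 d) x0 y'‖ ≤ c * ‖e y - e y'‖ := by
  have h0 := E01_D_inj he hinj x0 (mem_extChartAt_source x0)
  obtain ⟨k, hk, hk'⟩ := (E01_D d e x0 x0 : EuclideanSpace ℝ (Fin d) →ₗ[ℝ] EE N).exists_antilipschitzWith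
    (LinearMap.ker_eq_bot.2 h0)
  have h1 : ∀ v, ‖v‖ ≤ k * ‖E01_D d e x0 x0 v‖ := fun v => by
    have := hk'.le_mul_dist v 0
    simpa using this
  have hk0 : (0 : ℝ) < k := hk
  obtain ⟨V, hV, hV'⟩ := E01_strict he x0 (ε := 1 / (2 * k)) (by positivity)
  refine ⟨2 * k, by positivity, V, hV, fun y hy y' hy' => ?_⟩
  have h2 := hV' x0 (mem_of_mem_nhds hV) y hy y' hy'
  set w := extChartAt (𝓡 d) x0 y - extChartAt (𝓡 d) x0 y' with hw
  have h3 := h1 w
  have h4 : ‖E01_D d e x0 x0 w‖ ≤ ‖e y - e y'‖ + 1 / (2 * k) * ‖w‖ := by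
    have : E01_D d e x0 x0 w = (e y - e y') - (e y - e y' - E01_D d e x0 x0 w) := by abel
    calc ‖E01_D d e x0 x0 w‖ = ‖(e y - e y') - (e y - e y' - E01_D d e x0 x0 w)‖ := by rw [← this]
      _ ≤ _ := norm_sub_le _ _
      _ ≤ _ := by gcongr
  have h5 : ‖w‖ ≤ k * (‖e y - e y'‖ + 1 / (2 * k) * ‖w‖) := h3.trans (by gcongr)
  have h6 : k * (‖e y - e y'‖ + 1 / (2 * k) * ‖w‖) = k * ‖e y - e y'‖ + ‖w‖ / 2 := by
    field_simp
  rw [h6] at h5
  linarith

/-- Gram matrix -/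
def E01_gram {d N : ℕ} (D : EuclideanSpace ℝ (Fin d) →L[ℝ] EE N) :
    EuclideanSpace ℝ (Fin d) →L[ℝ] EuclideanSpace ℝ (Fin d) :=
  ContinuousLinearMap.adjoint D ∘L D

theorem E01_gram_unit {d N : ℕ} {D : EuclideanSpace ℝ (Fin d) →L[ℝ] EE N}
    (hD : Function.Injective D) : IsUnit (E01_gram D) := by
  rw [ContinuousLinearMap.isUnit_iff_bijective]
  have h1 : Function.Injective (E01_gram D) := by
    rw [injective_iff_map_eq_zero]
    intro v hv
    have h2 : inner ℝ (D v) (D v) = 0 := by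
      rw [← ContinuousLinearMap.adjoint_inner_left]
      show inner ℝ (E01_gram D v) v = 0
      rw [hv, inner_zero_left]
    rw [inner_self_eq_zero] at h2
    exact (injective_iff_map_eq_zero D).1 hD v h2
  exact ⟨h1, (LinearMap.injective_iff_surjective
    (f := (E01_gram D : EuclideanSpace ℝ (Fin d) →ₗ[ℝ] EuclideanSpace ℝ (Fin d)))).1 h1⟩

/-- left inverse of an injective map, vanishing on the orthogonal complement of the range -/
def E01_linv {d N : ℕ} (D : EuclideanSpace ℝ (Fin d) →L[ℝ] EE N) :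
    EE N →L[ℝ] EuclideanSpace ℝ (Fin d) :=
  Ring.inverse (E01_gram D) ∘L ContinuousLinearMap.adjoint D

theorem E01_linv_apply {d N : ℕ} {D : EuclideanSpace ℝ (Fin d) →L[ℝ] EE N}
    (hD : Function.Injective D) (v : EuclideanSpace ℝ (Fin d)) : E01_linv D (D v) = v := by
  have h1 : Ring.inverse (E01_gram D) * E01_gram D = 1 :=
    Ring.inverse_mul_cancel _ (E01_gram_unit hD)
  have h2 := congrArg (fun L => L v) h1
  exact h2

theorem E01_linv_perp {d N : ℕ} {D : EuclideanSpace ℝ (Fin d) →L[ℝ] EE N} {w : EE N}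
    (hw : ∀ v, inner ℝ (D v) w = 0) : E01_linv D w = 0 := by
  have h1 : ContinuousLinearMap.adjoint D w = 0 := by
    refine ext_inner_left ℝ fun v => ?_
    rw [ContinuousLinearMap.adjoint_inner_right, hw v, inner_zero_right]
  show Ring.inverse (E01_gram D) (ContinuousLinearMap.adjoint D w) = 0
  rw [h1, map_zero]

theorem E01_linv_cont {d N : ℕ} {D : EuclideanSpace ℝ (Fin d) →L[ℝ] EE N}
    (hD : Function.Injective D) : ContinuousAt (E01_linv (d := d) (N := N)) D := by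
  have h1 : Continuous fun D : EuclideanSpace ℝ (Fin d) →L[ℝ] EE N =>
      (ContinuousLinearMap.adjoint D : EE N →L[ℝ] EuclideanSpace ℝ (Fin d)) :=
    (ContinuousLinearMap.adjoint (𝕜 := ℝ) (E := EuclideanSpace ℝ (Fin d)) (F := EE N)).continuous
  have h2 : Continuous (E01_gram (d := d) (N := N)) := h1.clm_comp continuous_id
  obtain ⟨u, hu⟩ := E01_gram_unit hD
  have h3 : ContinuousAt (Ring.inverse (M₀ := EuclideanSpace ℝ (Fin d) →L[ℝ]
      EuclideanSpace ℝ (Fin d))) (E01_gram D) := by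
    rw [← hu]; exact NormedRing.inverse_continuousAt u
  have h4 : ContinuousAt (fun D : EuclideanSpace ℝ (Fin d) →L[ℝ] EE N =>
      Ring.inverse (E01_gram D)) D := ContinuousAt.comp (f := E01_gram) h3 h2.continuousAt
  exact h4.clm_comp h1.continuousAt


/-- the derivative of `F` in the embedded picture, defined through the chart at `x` itself -/
def E01_A (d : ℕ) {N : ℕ} {M : Type} [MetricSpace M] [ChartedSpace (EuclideanSpace ℝ (Fin d)) M]
    {E' : Type} [NormedAddCommGroup E'] [NormedSpace ℝ E'] (e : M → EE N) (F : M → E') (x : M) :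
    EE N →L[ℝ] E' := E01_D d F x x ∘L E01_linv (E01_D d e x x)

theorem E01_range (he : ContMDiff (𝓡 d) 𝓘(ℝ, EE N) 1 e) (x0 : M) {x : M}
    (hx : x ∈ (extChartAt (𝓡 d) x0).source) (w : EE N) :
    (∃ v, De d e x v = w) ↔ ∃ v, E01_D d e x0 x v = w := by
  constructor
  · rintro ⟨v, rfl⟩
    exact ⟨_, (E01_D_eq he x0 hx v).symm⟩
  · rintro ⟨v, rfl⟩
    obtain ⟨v', hv'⟩ := (E01_inv x0 hx).2 v
    exact ⟨v', (E01_De_eq he x0 hx v').trans (by rw [hv'])⟩

theorem E01_Pm_eq_self {x : M} {w : EE N} (hw : ∃ v, De d e x v = w) : Pm d e x w = w :=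
  Submodule.starProjection_eq_self_iff.2 hw

theorem E01_Pm_range (x : M) (w : EE N) : ∃ v, De d e x v = Pm d e x w := by
  have : Pm d e x w ∈ (LinearMap.range (De d e x).toLinearMap) :=
    Submodule.starProjection_apply_mem _ w
  exact this

theorem E01_Pm_perp (x : M) (w : EE N) (v : TangentSpace (𝓡 d) x) :
    inner ℝ (De d e x v) (w - Pm d e x w) = 0 :=
  (Submodule.sub_starProjection_mem_orthogonal (K := LinearMap.range (De d e x).toLinearMap) w)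
    _ ⟨v, rfl⟩

/-- the chart formula in any chart -/
theorem E01_chart {F : M → E'} (he : ContMDiff (𝓡 d) 𝓘(ℝ, EE N) 1 e)
    (hinj : ∀ x, Function.Injective (De d e x)) (hF : ContMDiff (𝓡 d) 𝓘(ℝ, E') 1 F)
    (x0 : M) {x : M} (hx : x ∈ (extChartAt (𝓡 d) x0).source) :
    (∀ v, (E01_D d F x0 x ∘L E01_linv (E01_D d e x0 x)) (De d e x v) =
        mfderiv (𝓡 d) 𝓘(ℝ, E') F x v) ∧
      (E01_D d F x0 x ∘L E01_linv (E01_D d e x0 x)) ∘L Pm d e x =
        E01_D d F x0 x ∘L E01_linv (E01_D d e x0 x) := by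
  have hD := E01_D_inj he hinj x0 hx
  refine ⟨fun v => ?_, ?_⟩
  · show E01_D d F x0 x (E01_linv (E01_D d e x0 x) (De d e x v)) = _
    rw [E01_De_eq he x0 hx v]
    exact (congrArg (E01_D d F x0 x) (E01_linv_apply hD _)).trans (E01_D_eq hF x0 hx v).symm
  · ext1 w
    show E01_D d F x0 x (E01_linv (E01_D d e x0 x) (Pm d e x w)) =
      E01_D d F x0 x (E01_linv (E01_D d e x0 x) w)
    congr 1
    have h1 : E01_linv (E01_D d e x0 x) (w - Pm d e x w) = 0 := by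
      refine E01_linv_perp fun v => ?_
      obtain ⟨v', hv'⟩ := (E01_range he x0 hx (E01_D d e x0 x v)).2 ⟨v, rfl⟩
      rw [← hv']; exact E01_Pm_perp x w v'
    rw [map_sub, sub_eq_zero] at h1
    exact h1.symm

theorem E01_unique {x : M} {B B' : EE N →L[ℝ] E'} (h : ∀ v, B (De d e x v) = B' (De d e x v))
    (hB : B ∘L Pm d e x = B) (hB' : B' ∘L Pm d e x = B') : B = B' := by
  ext1 w
  have h1 : B w = B (Pm d e x w) := (congrArg (fun L => L w) hB).symm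
  have h2 : B' w = B' (Pm d e x w) := (congrArg (fun L => L w) hB').symm
  obtain ⟨v, hv⟩ := E01_Pm_range (d := d) (e := e) x w
  rw [h1, h2, ← hv, h v]

theorem E01_A_eq {F : M → E'} (he : ContMDiff (𝓡 d) 𝓘(ℝ, EE N) 1 e)
    (hinj : ∀ x, Function.Injective (De d e x)) (hF : ContMDiff (𝓡 d) 𝓘(ℝ, E') 1 F)
    (x0 : M) {x : M} (hx : x ∈ (extChartAt (𝓡 d) x0).source) :
    E01_A d e F x = E01_D d F x0 x ∘L E01_linv (E01_D d e x0 x) := by
  obtain ⟨h1, h2⟩ := E01_chart he hinj hF x0 hx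
  obtain ⟨h3, h4⟩ := E01_chart he hinj hF x (mem_extChartAt_source x)
  exact E01_unique (fun v => by
    show (E01_D d F x x ∘L E01_linv (E01_D d e x x)) (De d e x v) = _
    rw [h3, h1]) h4 h2

theorem E01_A_De {F : M → E'} (he : ContMDiff (𝓡 d) 𝓘(ℝ, EE N) 1 e)
    (hinj : ∀ x, Function.Injective (De d e x)) (hF : ContMDiff (𝓡 d) 𝓘(ℝ, E') 1 F)
    (x : M) (v : TangentSpace (𝓡 d) x) :
    E01_A d e F x (De d e x v) = mfderiv (𝓡 d) 𝓘(ℝ, E') F x v :=
  (E01_chart he hinj hF x (mem_extChartAt_source x)).1 v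

theorem E01_A_Pm {F : M → E'} (he : ContMDiff (𝓡 d) 𝓘(ℝ, EE N) 1 e)
    (hinj : ∀ x, Function.Injective (De d e x)) (hF : ContMDiff (𝓡 d) 𝓘(ℝ, E') 1 F) (x : M) :
    E01_A d e F x ∘L Pm d e x = E01_A d e F x :=
  (E01_chart he hinj hF x (mem_extChartAt_source x)).2

theorem E01_A_cont {F : M → E'} (he : ContMDiff (𝓡 d) 𝓘(ℝ, EE N) 1 e)
    (hinj : ∀ x, Function.Injective (De d e x)) (hF : ContMDiff (𝓡 d) 𝓘(ℝ, E') 1 F) :
    Continuous (E01_A d e F) := by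
  rw [continuous_iff_continuousAt]
  intro x0
  have h1 : ContinuousAt (fun x => E01_D d F x0 x ∘L E01_linv (E01_D d e x0 x)) x0 := by
    refine (E01_D_cont hF x0).clm_comp ?_
    exact ContinuousAt.comp (f := E01_D d e x0)
      (E01_linv_cont (E01_D_inj he hinj x0 (mem_extChartAt_source x0))) (E01_D_cont he x0)
  refine h1.congr ?_
  filter_upwards [extChartAt_source_mem_nhds (I := 𝓡 d) x0] with x hx
  exact (E01_A_eq he hinj hF x0 hx).symm

theorem E01_A_est {F : M → E'} (he : ContMDiff (𝓡 d) 𝓘(ℝ, EE N) 1 e)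
    (hinj : ∀ x, Function.Injective (De d e x)) (hF : ContMDiff (𝓡 d) 𝓘(ℝ, E') 1 F)
    (x0 : M) {η : ℝ} (hη : 0 < η) : ∃ V ∈ 𝓝 x0, ∀ x ∈ V, ∀ y ∈ V, ∀ y' ∈ V,
      ‖F y - F y' - E01_A d e F x (e y - e y')‖ ≤ η * ‖e y - e y'‖ := by
  obtain ⟨c, hc, V1, hV1, hV1'⟩ := E01_lower he hinj x0
  set b : ℝ := ‖E01_A d e F x0‖ + 1 with hb
  have hb0 : 0 < b := by positivity
  obtain ⟨V2, hV2, hV2'⟩ := E01_strict hF x0 (ε := η / (2 * c)) (by positivity)
  obtain ⟨V3, hV3, hV3'⟩ := E01_strict he x0 (ε := η / (2 * c * b)) (by positivity)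
  have h4 : ∀ᶠ x in 𝓝 x0, ‖E01_A d e F x‖ < b := by
    have := (E01_A_cont he hinj hF).norm.continuousAt (x := x0)
    exact this.eventually (gt_mem_nhds (by rw [hb]; linarith))
  have h5 := extChartAt_source_mem_nhds (I := 𝓡 d) x0
  refine ⟨_, inter_mem h4 (inter_mem h5 (inter_mem hV1 (inter_mem hV2 hV3))), ?_⟩
  rintro x ⟨hx4, hx5, hx1, hx2, hx3⟩ y ⟨hy4, hy5, hy1, hy2, hy3⟩ y' ⟨hz4, hz5, hz1, hz2, hz3⟩
  have k1 := hV1' y hy1 y' hz1
  have k2 := hV2' x hx2 y hy2 y' hz2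
  have k3 := hV3' x hx3 y hy3 y' hz3
  set u := extChartAt (𝓡 d) x0 y - extChartAt (𝓡 d) x0 y' with hu
  have hD := E01_D_inj he hinj x0 hx5
  have k4 : E01_A d e F x (E01_D d e x0 x u) = E01_D d F x0 x u := by
    rw [E01_A_eq he hinj hF x0 hx5]
    show E01_D d F x0 x (E01_linv (E01_D d e x0 x) (E01_D d e x0 x u)) = _
    rw [E01_linv_apply hD]
  have k5 : F y - F y' - E01_A d e F x (e y - e y') =
      (F y - F y' - E01_D d F x0 x u) - E01_A d e F x (e y - e y' - E01_D d e x0 x u) := by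
    rw [map_sub (E01_A d e F x) (e y - e y'), k4]; abel
  rw [k5]
  have hx4' : ‖E01_A d e F x‖ ≤ b := le_of_lt hx4
  calc _ ≤ ‖F y - F y' - E01_D d F x0 x u‖ + ‖E01_A d e F x (e y - e y' - E01_D d e x0 x u)‖ :=
        norm_sub_le _ _
    _ ≤ η / (2 * c) * ‖u‖ + b * (η / (2 * c * b) * ‖u‖) := by
        refine add_le_add k2 (((E01_A d e F x).le_opNorm _).trans ?_)
        gcongr
    _ = η / c * ‖u‖ := by field_simp; ring
    _ ≤ η / c * (c * ‖e y - e y'‖) := by gcongr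
    _ = η * ‖e y - e y'‖ := by field_simp

/-- uniform version on a compact manifold -/
theorem E01_A_unif [CompactSpace M] {F : M → E'} (he : ContMDiff (𝓡 d) 𝓘(ℝ, EE N) 1 e)
    (hemb : Topology.IsClosedEmbedding e)
    (hinj : ∀ x, Function.Injective (De d e x)) (hF : ContMDiff (𝓡 d) 𝓘(ℝ, E') 1 F)
    {η : ℝ} (hη : 0 < η) : ∃ ρ > 0, ∀ x y y' : M, ‖e x - e y‖ < ρ → ‖e x - e y'‖ < ρ →
      ‖F y - F y' - E01_A d e F x (e y - e y')‖ ≤ η * ‖e y - e y'‖ := by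
  by_contra hcon
  push Not at hcon
  have key : ∀ n : ℕ, ∃ x y y' : M, ‖e x - e y‖ < 1 / ((n : ℝ) + 1) ∧
      ‖e x - e y'‖ < 1 / ((n : ℝ) + 1) ∧
      η * ‖e y - e y'‖ < ‖F y - F y' - E01_A d e F x (e y - e y')‖ :=
    fun n => hcon _ (by positivity)
  choose x y y' h1 h2 h3 using key
  obtain ⟨x0, -, φ, hφ, hlim⟩ := (isCompact_univ (X := M)).tendsto_subseq
    (x := x) (fun n => mem_univ _)
  have h0 : Tendsto (fun n : ℕ => 1 / (((φ n : ℕ) : ℝ) + 1)) atTop (𝓝 0) :=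
    tendsto_one_div_add_atTop_nhds_zero_nat.comp hφ.tendsto_atTop
  have hex : Tendsto (fun n => e (x (φ n))) atTop (𝓝 (e x0)) :=
    (hemb.continuous.tendsto x0).comp hlim
  have hy : Tendsto (fun n => y (φ n)) atTop (𝓝 x0) := by
    rw [hemb.isInducing.tendsto_nhds_iff]
    refine (tendsto_iff_of_dist (squeeze_zero (fun n => dist_nonneg)
      (fun n => ?_) h0)).1 hex
    rw [dist_eq_norm]; exact (h1 (φ n)).le
  have hy' : Tendsto (fun n => y' (φ n)) atTop (𝓝 x0) := by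
    rw [hemb.isInducing.tendsto_nhds_iff]
    refine (tendsto_iff_of_dist (squeeze_zero (fun n => dist_nonneg)
      (fun n => ?_) h0)).1 hex
    rw [dist_eq_norm]; exact (h2 (φ n)).le
  obtain ⟨V, hV, hV'⟩ := E01_A_est he hinj hF x0 hη
  obtain ⟨n, hn1, hn2, hn3⟩ := ((hlim.eventually hV).and ((hy.eventually hV).and
    (hy'.eventually hV))).exists
  exact absurd (hV' _ hn1 _ hn2 _ hn3) (not_le.2 (h3 _))

theorem E01_Pm_eq (he : ContMDiff (𝓡 d) 𝓘(ℝ, EE N) 1 e)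
    (hinj : ∀ x, Function.Injective (De d e x)) (x : M) : Pm d e x = E01_A d e e x := by
  refine E01_unique (d := d) (e := e) (x := x) (fun v => ?_) ?_ (E01_A_Pm he hinj he x)
  · rw [E01_A_De he hinj he x v]
    exact E01_Pm_eq_self ⟨v, rfl⟩
  · ext1 w
    exact E01_Pm_eq_self (E01_Pm_range x w)

end Loc

section Emb
variable {d N : ℕ} {M : Type} [MetricSpace M] [CompactSpace M]
  [ChartedSpace (EuclideanSpace ℝ (Fin d)) M] [IsManifold (𝓡 d) ∞ M]
variable {e : M → EE N}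

/-- E01 -/
theorem Pm_rank (hinj : ∀ x, Function.Injective (De d e x)) (x : M) :
    finrank ℝ (LinearMap.range (Pm d e x : EE N →ₗ[ℝ] EE N)) = d := by
  have h1 : LinearMap.range (Pm d e x : EE N →ₗ[ℝ] EE N) =
      LinearMap.range (De d e x).toLinearMap := by
    ext w
    constructor
    · rintro ⟨v, rfl⟩
      exact E01_Pm_range x v
    · intro hw
      exact ⟨w, E01_Pm_eq_self hw⟩
  rw [h1, LinearMap.finrank_range_of_inj (f := (De d e x).toLinearMap) (hinj x)]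
  exact finrank_euclideanSpace_fin

/-- E01 -/
theorem Pm_cont (he : ContMDiff (𝓡 d) 𝓘(ℝ, EE N) ∞ e)
    (hinj : ∀ x, Function.Injective (De d e x)) : Continuous (Pm d e) := by
  have he1 : ContMDiff (𝓡 d) 𝓘(ℝ, EE N) 1 e := he.of_le (by simp)
  have h1 : Pm d e = E01_A d e e := funext fun x => E01_Pm_eq he1 hinj x
  rw [h1]
  exact E01_A_cont he1 hinj he1

/-- E01 -/
theorem Pm_flat (he : ContMDiff (𝓡 d) 𝓘(ℝ, EE N) ∞ e) (hemb : Topology.IsClosedEmbedding e)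
    (hinj : ∀ x, Function.Injective (De d e x)) : ∀ η > 0, ∃ ρ > 0, ∀ x y y' : M,
    ‖e x - e y‖ < ρ → ‖e x - e y'‖ < ρ →
      ‖(e y - e y') - Pm d e x (e y - e y')‖ ≤ η * ‖e y - e y'‖ := by
  intro η hη
  have he1 : ContMDiff (𝓡 d) 𝓘(ℝ, EE N) 1 e := he.of_le (by simp)
  obtain ⟨ρ, hρ, h⟩ := E01_A_unif he1 hemb hinj he1 hη
  refine ⟨ρ, hρ, fun x y y' h1 h2 => ?_⟩
  rw [E01_Pm_eq he1 hinj x]
  exact h x y y' h1 h2

end Emb

end Pool.MP85
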