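import Pool.Agent.Lib.MP_85e637_an.AbsC
import Pool.Agent.Lib.MP_85e637_an.E01

/-!
# Row E01b: uniform local surjectivity of the tangential projections
-/

open scoped Manifold ContDiff Topology Bundle
open Filter Set Metric Module

noncomputable section

namespace Pool.MP85

section Emb
variable {d N : ℕ} {M : Type} [MetricSpace M] [CompactSpace M]
  [ChartedSpace (EuclideanSpace ℝ (Fin d)) M] [IsManifold (𝓡 d) ∞ M]
variable {e : M → EE N}

omit [CompactSpace M] [IsManifold (𝓡 d) ∞ M] in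
/-- the chart expression of `e` at `x0` is strictly differentiable with derivative `De` -/
theorem E01b_strict (he : ContMDiff (𝓡 d) 𝓘(ℝ, EE N) ∞ e) (x0 : M) :
    ∃ L : EuclideanSpace ℝ (Fin d) →L[ℝ] EE N, (∀ v, L v = De d e x0 v) ∧
    HasStrictFDerivAt (fun u => e ((extChartAt (𝓡 d) x0).symm u)) L
      (extChartAt (𝓡 d) x0 x0) := by
  have h1 : ContMDiffAt (𝓡 d) 𝓘(ℝ, EE N) ∞ e x0 := he x0
  have h2 := (contMDiffAt_iff.1 h1).2
  have h3 : ContDiffAt ℝ ∞ (fun u => e ((extChartAt (𝓡 d) x0).symm u))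
      (extChartAt (𝓡 d) x0 x0) := by
    have h2' : ContDiffWithinAt ℝ ∞ (fun u => e ((extChartAt (𝓡 d) x0).symm u)) univ
        (extChartAt (𝓡 d) x0 x0) := by
      have h := h2
      rw [ModelWithCorners.Boundaryless.range_eq_univ] at h
      exact h
    exact contDiffWithinAt_univ.1 h2'
  refine ⟨fderiv ℝ (fun u => e ((extChartAt (𝓡 d) x0).symm u)) (extChartAt (𝓡 d) x0 x0),
    fun v => ?_, h3.hasStrictFDerivAt (by simp)⟩
  have hm : MDifferentiableAt (𝓡 d) 𝓘(ℝ, EE N) e x0 := h1.mdifferentiableAt (by simp)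
  unfold De
  rw [mfderiv, if_pos hm]
  rw [ModelWithCorners.Boundaryless.range_eq_univ, fderivWithin_univ]
  rfl

theorem E01b_sp {A B : Submodule ℝ (EE N)} (h : A = B) : A.starProjection = B.starProjection := by
  subst h; rfl

theorem E01b_local (he : ContMDiff (𝓡 d) 𝓘(ℝ, EE N) ∞ e) (hemb : Topology.IsClosedEmbedding e)
    (hinj : ∀ x, Function.Injective (De d e x)) (x0 : M) : ∃ s ∈ 𝓝 x0, ∃ ρ > 0, ∀ x ∈ s,
    ∀ v : EE N, Pm d e x v = v → ‖v‖ ≤ ρ →
      ∃ y, Pm d e x (e y - e x) = v ∧ ‖e x - e y‖ ≤ 2 * ‖v‖ := by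
  obtain ⟨ρf, hρf, hflat⟩ := Pm_flat he hemb hinj (1 / 2) (by norm_num)
  obtain ⟨L, hL, hstrict⟩ := E01b_strict he x0
  set φ := extChartAt (𝓡 d) x0 with hφ
  set u0 := φ x0 with hu0
  set g : EuclideanSpace ℝ (Fin d) → EE N := fun u => e (φ.symm u) with hg
  have hLinj : Function.Injective L := fun a b h => hinj x0 (by rw [← hL, ← hL]; exact h)
  -- the tangent space
  set T0 : Submodule ℝ (EE N) := LinearMap.range L.toLinearMap with hT0
  have hT0' : LinearMap.range (De d e x0).toLinearMap = T0 := by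
    ext w
    constructor
    · rintro ⟨v, rfl⟩; exact ⟨v, hL v⟩
    · rintro ⟨v, rfl⟩; exact ⟨v, (hL v).symm⟩
  have hPm0 : Pm d e x0 = T0.starProjection := by
    unfold Pm; exact E01b_sp hT0'
  let L' : EuclideanSpace ℝ (Fin d) ≃L[ℝ] T0 :=
    (LinearEquiv.ofInjective L.toLinearMap hLinj).toContinuousLinearEquiv
  have hL' : ∀ u, (L' u : EE N) = L u := fun u => rfl
  let K : NNReal := ‖(L'.symm : T0 →L[ℝ] EuclideanSpace ℝ (Fin d))‖₊ + 1
  have hK1 : 1 ≤ (K : ℝ) := by simp [K]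
  let Ri : (L' : EuclideanSpace ℝ (Fin d) →L[ℝ] T0).NonlinearRightInverse :=
    { toFun := fun w => L'.symm w
      nnnorm := K
      bound' := fun w => by
        refine ((L'.symm : T0 →L[ℝ] EuclideanSpace ℝ (Fin d)).le_opNorm w).trans ?_
        refine mul_le_mul_of_nonneg_right ?_ (norm_nonneg _)
        simp [K]
      right_inv' := fun w => by simp }
  -- constants
  have hKpos : (0 : ℝ) < K := by linarith
  set c : ℝ := (K : ℝ)⁻¹ / 4 with hc
  have hKi : (K : ℝ)⁻¹ ≤ 1 := inv_le_one_of_one_le₀ hK1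
  have hKi' : 0 < (K : ℝ)⁻¹ := inv_pos.2 hKpos
  have hcpos : 0 < c := by positivity
  have hc1 : c ≤ 1 / 4 := by rw [hc]; linarith
  set κ : ℝ := c / (‖L‖ + 1) with hκ
  have hLn : 0 < ‖L‖ + 1 := by positivity
  have hκpos : 0 < κ := by positivity
  have hκ1 : κ < 1 := by
    rw [hκ, div_lt_one hLn]; linarith [norm_nonneg L]
  -- neighbourhoods
  obtain ⟨s1, hs1, happ⟩ := hstrict.approximates_deriv_on_nhds (c := ⟨c, hcpos.le⟩)
    (Or.inr hcpos)
  obtain ⟨r, hr, hball⟩ := Metric.mem_nhds_iff.1 hs1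
  have hgapp : ∀ u ∈ ball u0 r, ∀ u' ∈ ball u0 r, ‖g u - g u' - L (u - u')‖ ≤ c * ‖u - u'‖ :=
    fun u hu u' hu' => happ u (hball hu) u' (hball hu')
  have hglip : ∀ u ∈ ball u0 r, ∀ u' ∈ ball u0 r, ‖g u - g u'‖ ≤ (‖L‖ + 1) * ‖u - u'‖ := by
    intro u hu u' hu'
    have h1 := hgapp u hu u' hu'
    have h2 := L.le_opNorm (u - u')
    have h3 : ‖g u - g u'‖ ≤ ‖g u - g u' - L (u - u')‖ + ‖L (u - u')‖ := by
      simpa using norm_add_le (g u - g u' - L (u - u')) (L (u - u'))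
    nlinarith [norm_nonneg (u - u')]
  have hφc : ContinuousAt φ x0 := continuousAt_extChartAt x0
  have hn1 : ∀ᶠ x in 𝓝 x0, φ x ∈ ball u0 (r / 2) := hφc (ball_mem_nhds _ (by positivity))
  have hn2 : ∀ᶠ x in 𝓝 x0, x ∈ φ.source := extChartAt_source_mem_nhds (I := 𝓡 d) x0
  have hn3 : ∀ᶠ x in 𝓝 x0, ‖Pm d e x - Pm d e x0‖ < κ := by
    have := (Pm_cont he hinj).continuousAt (x := x0) (ball_mem_nhds _ hκpos)
    filter_upwards [this] with x hx
    simpa [dist_eq_norm] using hx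
  set r' : ℝ := min (r / 3) (ρf / (2 * (‖L‖ + 1))) with hr'
  have hr'pos : 0 < r' := by positivity
  refine ⟨_, (hn1.and (hn2.and hn3)), (K : ℝ)⁻¹ / 2 * r', by positivity, ?_⟩
  rintro x ⟨hx1, hx2, hx3⟩ v hv hvρ
  have hgx : g (φ x) = e x := by simp only [hg]; rw [φ.left_inv hx2]
  have hsub : closedBall (φ x) r' ⊆ ball u0 r := by
    intro u hu
    rw [mem_closedBall] at hu
    rw [mem_ball] at hx1 ⊢
    have := dist_triangle u (φ x) u0
    have := min_le_left (r / 3) (ρf / (2 * (‖L‖ + 1)))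
    linarith
  have hxr : φ x ∈ ball u0 r := ball_subset_ball (by linarith) hx1
  -- the map
  let H : EuclideanSpace ℝ (Fin d) → T0 := fun u => T0.orthogonalProjectionOnto (Pm d e x (g u))
  have hHapp : ApproximatesLinearOn H (L' : EuclideanSpace ℝ (Fin d) →L[ℝ] T0)
      (closedBall (φ x) r') ⟨(K : ℝ)⁻¹ / 2, by positivity⟩ := by
    intro u hu u' hu'
    have hu1 := hsub hu
    have hu1' := hsub hu'
    have key : H u - H u' - L' (u - u') = T0.orthogonalProjectionOnto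
        ((Pm d e x - Pm d e x0) (g u - g u') + (g u - g u' - L (u - u'))) := by
      have h1 : T0.orthogonalProjectionOnto (L (u - u')) = L' (u - u') := by
        rw [← hL']; exact T0.orthogonalProjectionOnto_mem_subspace_eq_self _
      have h2 : T0.orthogonalProjectionOnto (Pm d e x0 (g u - g u')) =
          T0.orthogonalProjectionOnto (g u - g u') := by
        rw [hPm0]
        exact T0.orthogonalProjectionOnto_mem_subspace_eq_self _
      rw [map_add, map_sub _ (g u - g u'), h1, sub_apply, map_sub _ _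
        (Pm d e x0 (g u - g u')), h2, map_sub (Pm d e x), map_sub _ (Pm d e x (g u)) _]
      simp only [H]
      abel
    change ‖H u - H u' - L' (u - u')‖ ≤ _
    rw [key]
    refine (T0.norm_orthogonalProjectionOnto_apply_le _).trans ?_
    refine (norm_add_le _ _).trans ?_
    have h1 := ((Pm d e x - Pm d e x0).le_opNorm (g u - g u')).trans
      (mul_le_mul hx3.le (hglip u hu1 u' hu1') (norm_nonneg _) hκpos.le)
    have h2 := hgapp u hu1 u' hu1'
    have h3 : κ * ((‖L‖ + 1) * ‖u - u'‖) = c * ‖u - u'‖ := by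
      rw [hκ]; field_simp
    have h4 : (K : ℝ)⁻¹ / 2 * ‖u - u'‖ = c * ‖u - u'‖ + c * ‖u - u'‖ := by
      rw [hc]; ring
    change _ ≤ (K : ℝ)⁻¹ / 2 * ‖u - u'‖
    linarith
  have hsurj := hHapp.surjOn_closedBall_of_nonlinearRightInverse Ri hr'pos.le
    (Subset.refl _)
  have hrad : ((Ri.nnnorm : ℝ)⁻¹ - ((⟨(K : ℝ)⁻¹ / 2, by positivity⟩ : NNReal) : ℝ)) * r'
      = (K : ℝ)⁻¹ / 2 * r' := by
    change ((K : ℝ)⁻¹ - (K : ℝ)⁻¹ / 2) * r' = _
    ring
  have hsurj' := hsurj.mono subset_rfl (closedBall_subset_closedBall (le_of_eq hrad.symm))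
  obtain ⟨u, hu, hHu⟩ := hsurj' (a := H (φ x) + T0.orthogonalProjectionOnto v) (by
    rw [mem_closedBall, dist_eq_norm]
    rw [add_sub_cancel_left]
    exact (T0.norm_orthogonalProjectionOnto_apply_le _).trans hvρ)
  refine ⟨φ.symm u, ?_⟩
  -- identification
  have hgu : e (φ.symm u) = g u := rfl
  have hidem : ∀ w, Pm d e x (Pm d e x w) = Pm d e x w := by
    intro w
    exact Submodule.starProjection_eq_self_iff.2 (Submodule.starProjection_apply_mem _ _)
  have hkey : Pm d e x (g u - e x) = v := by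
    set w := Pm d e x (g u - e x) - v with hw
    have hw1 : Pm d e x w = w := by rw [hw, map_sub, hidem, hv]
    have hw2 : T0.orthogonalProjectionOnto w = 0 := by
      have h5 : T0.orthogonalProjectionOnto (Pm d e x (g u)) =
        T0.orthogonalProjectionOnto (Pm d e x (e x)) + T0.orthogonalProjectionOnto v := by
        have := hHu
        simp only [H] at this
        rw [hgx] at this
        exact this
      rw [hw, map_sub, map_sub, map_sub, h5]
      abel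
    have hw3 : Pm d e x0 w = 0 := by
      rw [hPm0, Submodule.starProjection_apply, hw2]; rfl
    have hw4 : ‖w‖ ≤ κ * ‖w‖ := by
      have h6 : w = (Pm d e x - Pm d e x0) w := by
        rw [sub_apply, hw1, hw3, sub_zero]
      calc ‖w‖ = ‖(Pm d e x - Pm d e x0) w‖ := by rw [← h6]
        _ ≤ ‖Pm d e x - Pm d e x0‖ * ‖w‖ := ContinuousLinearMap.le_opNorm _ _
        _ ≤ κ * ‖w‖ := mul_le_mul_of_nonneg_right hx3.le (norm_nonneg _)
    have hw5 : ‖w‖ = 0 := by nlinarith [norm_nonneg w]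
    exact sub_eq_zero.1 (norm_eq_zero.1 hw5)
  refine ⟨by rw [hgu]; exact hkey, ?_⟩
  rw [hgu]
  have hdist : ‖e x - g u‖ < ρf := by
    have h7 := hglip (φ x) hxr u (hsub hu)
    rw [hgx] at h7
    have h8 : ‖φ x - u‖ ≤ r' := by
      rw [← dist_eq_norm, dist_comm]; exact hu
    have h9 : r' ≤ ρf / (2 * (‖L‖ + 1)) := min_le_right _ _
    have h10 : (‖L‖ + 1) * (ρf / (2 * (‖L‖ + 1))) = ρf / 2 := by field_simp
    have h11 : (‖L‖ + 1) * ‖φ x - u‖ ≤ (‖L‖ + 1) * (ρf / (2 * (‖L‖ + 1))) :=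
      mul_le_mul_of_nonneg_left (h8.trans h9) hLn.le
    linarith
  have hfl := hflat x (φ.symm u) x hdist (by simpa using hρf)
  rw [hgu, hkey] at hfl
  have h12 : ‖g u - e x‖ ≤ ‖g u - e x - v‖ + ‖v‖ := by
    simpa using norm_add_le (g u - e x - v) v
  rw [norm_sub_rev (e x) (g u)]
  linarith

/-- E01b -/
theorem Pm_surj (he : ContMDiff (𝓡 d) 𝓘(ℝ, EE N) ∞ e) (hemb : Topology.IsClosedEmbedding e)
    (hinj : ∀ x, Function.Injective (De d e x)) : ∃ ρ > 0, ∀ (x : M) (v : EE N),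
    Pm d e x v = v → ‖v‖ ≤ ρ →
      ∃ y, Pm d e x (e y - e x) = v ∧ ‖e x - e y‖ ≤ 2 * ‖v‖ := by
  have h : ∃ ρ > 0, ∀ x ∈ (univ : Set M), ∀ v : EE N, Pm d e x v = v → ‖v‖ ≤ ρ →
      ∃ y, Pm d e x (e y - e x) = v ∧ ‖e x - e y‖ ≤ 2 * ‖v‖ := by
    refine isCompact_univ.induction_on (p := fun s => ∃ ρ > 0, ∀ x ∈ s, ∀ v : EE N,
      Pm d e x v = v → ‖v‖ ≤ ρ →
      ∃ y, Pm d e x (e y - e x) = v ∧ ‖e x - e y‖ ≤ 2 * ‖v‖) ?_ ?_ ?_ ?_
    · exact ⟨1, one_pos, fun x hx => (notMem_empty x hx).elim⟩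
    · rintro s t hst ⟨ρ, hρ, h⟩
      exact ⟨ρ, hρ, fun x hx => h x (hst hx)⟩
    · rintro s t ⟨ρ, hρ, h⟩ ⟨ρ', hρ', h'⟩
      refine ⟨min ρ ρ', lt_min hρ hρ', fun x hx v hv hvρ => ?_⟩
      rcases hx with hx | hx
      · exact h x hx v hv (hvρ.trans (min_le_left _ _))
      · exact h' x hx v hv (hvρ.trans (min_le_right _ _))
    · intro x _
      obtain ⟨s, hs, ρ, hρ, h⟩ := E01b_local he hemb hinj x
      exact ⟨s, mem_nhdsWithin_of_mem_nhds hs, ρ, hρ, h⟩
  obtain ⟨ρ, hρ, h⟩ := h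
  exact ⟨ρ, hρ, fun x => h x (mem_univ x)⟩

end Emb

end Pool.MP85
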