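import Pool.Agent.Lib.MP_85e637_an.E01

/-!
# E02: the derivative of a `C¹` map in the embedded picture
-/

open scoped Manifold ContDiff Topology Bundle
open Filter Set Metric Module

noncomputable section

namespace Pool.MP85

section Emb
variable {d N : ℕ} {M : Type} [MetricSpace M] [CompactSpace M]
  [ChartedSpace (EuclideanSpace ℝ (Fin d)) M] [IsManifold (𝓡 d) ∞ M]
variable {e : M → EE N}

/-- E02: the derivative of a `C¹` map in the embedded picture, and uniform differentiability -/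
theorem exists_A (he : ContMDiff (𝓡 d) 𝓘(ℝ, EE N) ∞ e) (hemb : Topology.IsClosedEmbedding e)
    (hinj : ∀ x, Function.Injective (De d e x)) {g : M → M}
    (hg : ContMDiff (𝓡 d) (𝓡 d) 1 g) : ∃ A : M → EE N →L[ℝ] EE N, Continuous A ∧
      (∀ x v, A x (De d e x v) = De d e (g x) (mfderiv (𝓡 d) (𝓡 d) g x v)) ∧
      (∀ x, A x ∘L Pm d e x = A x) ∧ (∀ x, Pm d e (g x) ∘L A x = A x) ∧
      ∀ η > 0, ∃ ρ > 0, ∀ x y y' : M, ‖e x - e y‖ < ρ → ‖e x - e y'‖ < ρ →
        ‖(e (g y) - e (g y')) - A x (e y - e y')‖ ≤ η * ‖e y - e y'‖ := by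
  have he1 : ContMDiff (𝓡 d) 𝓘(ℝ, EE N) 1 e := he.of_le (by simp)
  have hF : ContMDiff (𝓡 d) 𝓘(ℝ, EE N) 1 (e ∘ g) := he1.comp hg
  have hD : ∀ x v, E01_A d e (e ∘ g) x (De d e x v) =
      De d e (g x) (mfderiv (𝓡 d) (𝓡 d) g x v) := by
    intro x v
    rw [E01_A_De he1 hinj hF x v,
      mfderiv_comp x ((he1 (g x)).mdifferentiableAt one_ne_zero)
        ((hg x).mdifferentiableAt one_ne_zero)]
    rfl
  refine ⟨E01_A d e (e ∘ g), E01_A_cont he1 hinj hF, hD, fun x => E01_A_Pm he1 hinj hF x,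
    fun x => ?_, fun η hη => E01_A_unif he1 hemb hinj hF hη⟩
  ext1 w
  have h1 : E01_A d e (e ∘ g) x w = E01_A d e (e ∘ g) x (Pm d e x w) :=
    (congrArg (fun L => L w) (E01_A_Pm he1 hinj hF x)).symm
  obtain ⟨v, hv⟩ := E01_Pm_range (d := d) (e := e) x w
  show Pm d e (g x) (E01_A d e (e ∘ g) x w) = E01_A d e (e ∘ g) x w
  rw [h1, ← hv, hD]
  exact E01_Pm_eq_self ⟨_, rfl⟩

end Emb

end Pool.MP85
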