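import Mathlib

/-!
# Statement: no nonorientable codimension-one attractors for structurally stable diffeomorphisms

Definitions used in the final theorem, in terms of Mathlib manifolds.
-/

open scoped Manifold ContDiff Topology Bundle
open Filter Set Module

noncomputable section

namespace Pool.MP85

variable {d : ℕ} {M : Type} [MetricSpace M] [ChartedSpace (EuclideanSpace ℝ (Fin d)) M]

/-- The nonwandering set of `f`. -/
def NW (f : M → M) : Set M := {x | ∀ U ∈ 𝓝 x, ∃ n > 0, (f^[n] '' U ∩ U).Nonempty}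

variable [IsManifold (𝓡 d) ∞ M]
  [Bundle.RiemannianBundle (fun x : M => TangentSpace (𝓡 d) x)]

variable (d) in
/-- `Es d f x = T_x W^s(x)`: the tangent vectors which are contracted to zero by the iterates of `f`.
For a diffeomorphism satisfying Axiom A this is the tangent space at `x` of the stable manifold of
`x`, and `Es d f.symm x` is the tangent space of the unstable manifold. -/
def Es (f : M → M) (x : M) : Submodule ℝ (TangentSpace (𝓡 d) x) where
  carrier := {v | Tendsto (fun n : ℕ => ‖mfderiv (𝓡 d) (𝓡 d) (f^[n]) x v‖) atTop (𝓝 0)}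
  add_mem' := by
    intro v w hv hw
    refine squeeze_zero (fun n => norm_nonneg _) (fun n => ?_) (by simpa using hv.add hw)
    rw [map_add]; exact norm_add_le _ _
  zero_mem' := by simp
  smul_mem' := by
    intro c v hv
    have : (fun n : ℕ => ‖mfderiv (𝓡 d) (𝓡 d) (f^[n]) x (c • v)‖) =
        fun n : ℕ => ‖c‖ * ‖mfderiv (𝓡 d) (𝓡 d) (f^[n]) x v‖ := by
      funext n; rw [map_smul, norm_smul]
    change Tendsto _ _ _
    rw [this]; simpa using Tendsto.const_mul ‖c‖ hv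

/-- `Λ` is a (uniformly) hyperbolic set of the diffeomorphism `f`. -/
def IsHyperbolic (f : M ≃ₘ^1⟮𝓡 d, 𝓡 d⟯ M) (Λ : Set M) : Prop :=
  ∃ (V W : ∀ x : M, Submodule ℝ (TangentSpace (𝓡 d) x)) (c lam : ℝ), 0 < lam ∧ lam < 1 ∧
    ∀ x ∈ Λ, IsCompl (V x) (W x) ∧
      (∀ v ∈ V x, mfderiv (𝓡 d) (𝓡 d) f x v ∈ V (f x)) ∧
      (∀ v ∈ W x, mfderiv (𝓡 d) (𝓡 d) f x v ∈ W (f x)) ∧
      (∀ v ∈ V x, ∀ n : ℕ, ‖mfderiv (𝓡 d) (𝓡 d) (f^[n]) x v‖ ≤ c * lam ^ n * ‖v‖) ∧
      (∀ v ∈ W x, ∀ n : ℕ, ‖mfderiv (𝓡 d) (𝓡 d) (f.symm^[n]) x v‖ ≤ c * lam ^ n * ‖v‖)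

/-- Axiom A: the nonwandering set is hyperbolic and the periodic points are dense in it. -/
def AxiomA (f : M ≃ₘ^1⟮𝓡 d, 𝓡 d⟯ M) : Prop :=
  IsHyperbolic f (NW f) ∧ NW f ⊆ closure {x | ∃ n > 0, f^[n] x = x}

/-- Strong transversality: stable and unstable manifolds are transverse at every point of `M`. -/
def StrongTransversality (f : M ≃ₘ^1⟮𝓡 d, 𝓡 d⟯ M) : Prop :=
  ∀ x : M, Es d f x ⊔ Es d f.symm x = ⊤

/-- Stable set (stable manifold) of a point. -/
def Wst (f : M → M) (x : M) : Set M :=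
  {y | Tendsto (fun n : ℕ => dist (f^[n] x) (f^[n] y)) atTop (𝓝 0)}

/-- `Λ` is a basic set: a closed invariant topologically transitive subset of the nonwandering set,
relatively open in it (the pieces of the spectral decomposition are exactly these sets). -/
structure IsBasicSet (f : M ≃ₘ^1⟮𝓡 d, 𝓡 d⟯ M) (Λ : Set M) : Prop where
  nonempty : Λ.Nonempty
  closed : IsClosed Λ
  inv : f '' Λ = Λ
  sub : Λ ⊆ NW f
  relOpen : ∃ U : Set M, IsOpen U ∧ Λ = NW f ∩ U
  transitive : ∃ x ∈ Λ, Λ ⊆ closure {y | ∃ n : ℕ, f^[n] x = y}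

/-- `Λ` is an attractor: it has an open neighbourhood `U` with `f (closure U) ⊆ U` and
`Λ = ⋂ fⁿ(U)`. -/
def IsAttractor (f : M ≃ₘ^1⟮𝓡 d, 𝓡 d⟯ M) (Λ : Set M) : Prop :=
  ∃ U : Set M, IsOpen U ∧ Λ ⊆ U ∧ f '' (closure U) ⊆ U ∧ Λ = ⋂ n : ℕ, f^[n] '' U

/-- Orientability of a codimension-one attractor `Λ` (one-dimensional stable manifolds): for every
`x ∈ Λ` and every `y ∈ W^u(x) ∩ W^s(x)` the stable direction at `x` transported to `y` along a path
in the unstable manifold `W^u(x)` and along a path in the stable manifold `W^s(x)` gives the same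
orientation of the stable line at `y`. Equivalently, for all `α, β > 0` the intersection index of
`W^u_α(x)` and `W^s_β(x)` takes the same value at all points of `W^u_α(x) ∩ W^s_β(x)` (the unstable
disc being cooriented by the stable direction). A transport along a path is a continuous curve of
nonzero stable vectors over the path, i.e. a path in the tangent bundle. -/
def Orientable (f : M ≃ₘ^1⟮𝓡 d, 𝓡 d⟯ M) (Λ : Set M) : Prop :=
  ∀ cu cs : C(unitInterval, TangentBundle (𝓡 d) M),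
    (cu 0).proj ∈ Λ → cu 0 = cs 0 → (cu 1).proj = (cs 1).proj →
    (∀ t, (cu t).proj ∈ Wst f.symm (cu 0).proj ∧ (cu t).2 ∈ Es d f (cu t).proj ∧ (cu t).2 ≠ 0) →
    (∀ t, (cs t).proj ∈ Wst f (cu 0).proj ∧ (cs t).2 ∈ Es d f (cs t).proj ∧ (cs t).2 ≠ 0) →
    ∃ a : ℝ, 0 < a ∧ cu 1 = ⟨(cs 1).proj, a • (cs 1).2⟩

end Pool.MP85
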