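import Pool.Agent.Lib.MP_85e637_an.AbsC
import Pool.Agent.Lib.MP_85e637_an.Stmt
import Pool.Agent.Lib.MP_85e637_an.E01

/-!
# E03: the tangent bundle is embedded; the Riemannian norm is equivalent to the embedded norm
-/

open scoped Manifold ContDiff Topology Bundle
open Filter Set Metric Module

noncomputable section

namespace Pool.MP85



section Emb
variable {d N : ℕ} {M : Type} [MetricSpace M] [CompactSpace M]
  [ChartedSpace (EuclideanSpace ℝ (Fin d)) M] [IsManifold (𝓡 d) ∞ M]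
variable {e : M → EE N}

omit [CompactSpace M] in
theorem E03_cont (he : ContMDiff (𝓡 d) 𝓘(ℝ, EE N) ∞ e) :
    Continuous (fun p : TangentBundle (𝓡 d) M => ((e p.proj, De d e p.proj p.2) : EE N × EE N)) := by
  have h1 : Continuous (tangentMap (𝓡 d) 𝓘(ℝ, EE N) e) := he.continuous_tangentMap (by simp)
  have h2 := (tangentBundleModelSpaceHomeomorph 𝓘(ℝ, EE N)).continuous.comp h1
  rw [tangentBundleModelSpaceHomeomorph_coe] at h2
  exact h2

/-- the derivative of `e` in the trivialization at `x₀` -/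
def E03L (d : ℕ) {N : ℕ} {M : Type} [MetricSpace M] [ChartedSpace (EuclideanSpace ℝ (Fin d)) M]
    [IsManifold (𝓡 d) ∞ M] (e : M → EE N) (x₀ x : M) : EuclideanSpace ℝ (Fin d) →L[ℝ] EE N :=
  (De d e x).comp ((trivializationAt (EuclideanSpace ℝ (Fin d)) (TangentSpace (𝓡 d)) x₀).symmL ℝ x)

omit [CompactSpace M] in
theorem E03L_cont (he : ContMDiff (𝓡 d) 𝓘(ℝ, EE N) ∞ e) (x₀ : M) :
    ContinuousOn (E03L d e x₀)
      (trivializationAt (EuclideanSpace ℝ (Fin d)) (TangentSpace (𝓡 d) (M := M)) x₀).baseSet := by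
  rw [continuousOn_clm_apply]
  intro v
  set t := trivializationAt (EuclideanSpace ℝ (Fin d)) (TangentSpace (𝓡 d) (M := M)) x₀ with ht
  have h1 : ContinuousOn (fun x : M => t.toOpenPartialHomeomorph.symm (x, v)) t.baseSet := by
    refine t.toOpenPartialHomeomorph.continuousOn_symm.comp (by fun_prop) ?_
    intro x hx
    rw [t.target_eq]
    exact ⟨hx, mem_univ _⟩
  have h2 := ((continuous_snd.comp (E03_cont he)).comp_continuousOn h1)
  refine h2.congr ?_
  intro x hx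
  simp only [Function.comp_apply]
  rw [← t.mk_symm hx]
  simp only [E03L, ContinuousLinearMap.comp_apply]
  rw [Bundle.Trivialization.symmL_apply (R := ℝ) _ hx]

omit [CompactSpace M] in
theorem E03L_eq (x₀ : M) (p : TangentBundle (𝓡 d) M)
    (hp : p.proj ∈ (trivializationAt (EuclideanSpace ℝ (Fin d)) (TangentSpace (𝓡 d) (M := M)) x₀).baseSet) :
    E03L d e x₀ p.proj
      ((trivializationAt (EuclideanSpace ℝ (Fin d)) (TangentSpace (𝓡 d) (M := M)) x₀) p).2
      = De d e p.proj p.2 := by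
  set t := trivializationAt (EuclideanSpace ℝ (Fin d)) (TangentSpace (𝓡 d) (M := M)) x₀ with ht
  simp only [E03L, ContinuousLinearMap.comp_apply]
  congr 1
  rw [Bundle.Trivialization.symmL_apply (R := ℝ) _ hp]
  exact t.symm_apply_apply_mk hp p.2

omit [CompactSpace M] in
theorem E03L_inj (hinj : ∀ x, Function.Injective (De d e x)) (x₀ x : M)
    (hx : x ∈ (trivializationAt (EuclideanSpace ℝ (Fin d)) (TangentSpace (𝓡 d) (M := M)) x₀).baseSet) :
    Function.Injective (E03L d e x₀ x) := by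
  set t := trivializationAt (EuclideanSpace ℝ (Fin d)) (TangentSpace (𝓡 d) (M := M)) x₀ with ht
  intro v w hvw
  simp only [E03L, ContinuousLinearMap.comp_apply] at hvw
  have h1 := hinj x hvw
  have h2 := congrArg (t.continuousLinearMapAt ℝ x) h1
  rwa [t.continuousLinearMapAt_symmL hx, t.continuousLinearMapAt_symmL hx] at h2

/-- E03: the tangent bundle is embedded -/
theorem tb_embedding (he : ContMDiff (𝓡 d) 𝓘(ℝ, EE N) ∞ e) (hemb : Topology.IsClosedEmbedding e)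
    (hinj : ∀ x, Function.Injective (De d e x)) :
    Topology.IsEmbedding (fun p : TangentBundle (𝓡 d) M => (e p.proj, De d e p.proj p.2)) := by
  set F : TangentBundle (𝓡 d) M → EE N × EE N := fun p => (e p.proj, De d e p.proj p.2) with hF
  have hFc : Continuous F := E03_cont he
  refine ⟨?_, ?_⟩
  · rw [Topology.isInducing_iff_nhds]
    intro p₀
    refine le_antisymm (hFc.tendsto p₀).le_comap ?_
    set l := comap F (𝓝 (F p₀)) with hl
    have hlF : Tendsto F l (𝓝 (F p₀)) := tendsto_comap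
    set x₀ := p₀.proj with hx₀
    set t := trivializationAt (EuclideanSpace ℝ (Fin d)) (TangentSpace (𝓡 d) (M := M)) x₀ with ht
    have hx₀t : x₀ ∈ t.baseSet := FiberBundle.mem_baseSet_trivializationAt' x₀
    have hproj : Tendsto (fun p : TangentBundle (𝓡 d) M => p.proj) l (𝓝 x₀) := by
      rw [hemb.isInducing.nhds_eq_comap, tendsto_comap_iff]
      exact (continuous_fst.tendsto _).comp hlF
    have hDe : Tendsto (fun p : TangentBundle (𝓡 d) M => De d e p.proj p.2) l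
        (𝓝 (De d e x₀ p₀.2)) := (continuous_snd.tendsto _).comp hlF
    have hsrc : p₀ ∈ t.source := by rw [t.mem_source]; exact hx₀t
    suffices h : Tendsto (fun p : TangentBundle (𝓡 d) M => p) l (𝓝 p₀) from h
    rw [t.tendsto_nhds_iff hsrc]
    refine ⟨hproj, ?_⟩
    have hbase : ∀ᶠ p : TangentBundle (𝓡 d) M in l, p.proj ∈ t.baseSet :=
      hproj.eventually (t.open_baseSet.mem_nhds hx₀t)
    -- left inverse
    have hL0inj := E03L_inj (e := e) hinj x₀ x₀ hx₀t
    obtain ⟨R, hR⟩ : ∃ R : EE N →L[ℝ] EuclideanSpace ℝ (Fin d),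
        R.comp (E03L d e x₀ x₀) = ContinuousLinearMap.id ℝ _ := by
      obtain ⟨R, hR⟩ := LinearMap.exists_leftInverse_of_injective
        (E03L d e x₀ x₀ : EuclideanSpace ℝ (Fin d) →ₗ[ℝ] EE N)
        (LinearMap.ker_eq_bot.2 hL0inj)
      refine ⟨R.toContinuousLinearMap, ?_⟩
      ext1 v
      exact LinearMap.congr_fun hR v
    have hLt : Tendsto (fun p : TangentBundle (𝓡 d) M => R.comp (E03L d e x₀ p.proj)) l
        (𝓝 (R.comp (E03L d e x₀ x₀))) := by
      have h1 : Tendsto (fun x : M => E03L d e x₀ x) (𝓝 x₀) (𝓝 (E03L d e x₀ x₀)) :=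
        (E03L_cont he x₀).continuousAt (t.open_baseSet.mem_nhds hx₀t)
      exact ((ContinuousLinearMap.compL ℝ _ _ _ R).continuous.tendsto _).comp (h1.comp hproj)
    rw [hR] at hLt
    have hinv : Tendsto (fun p : TangentBundle (𝓡 d) M => Ring.inverse (R.comp (E03L d e x₀ p.proj))) l
        (𝓝 (ContinuousLinearMap.id ℝ _)) := by
      have h1 := (NormedRing.inverse_continuousAt
        (1 : (EuclideanSpace ℝ (Fin d) →L[ℝ] EuclideanSpace ℝ (Fin d))ˣ)).tendsto
      have h2 := h1.comp (f := fun p : TangentBundle (𝓡 d) M => R.comp (E03L d e x₀ p.proj)) (x := l)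
        hLt
      rw [Units.val_one, Ring.inverse_one] at h2
      exact h2
    have hunit : ∀ᶠ p : TangentBundle (𝓡 d) M in l, IsUnit (R.comp (E03L d e x₀ p.proj)) := by
      refine hLt.eventually (Units.isOpen.mem_nhds ?_)
      exact isUnit_one
    have hmain : Tendsto (fun p : TangentBundle (𝓡 d) M =>
        Ring.inverse (R.comp (E03L d e x₀ p.proj)) (R (De d e p.proj p.2))) l
        (𝓝 (ContinuousLinearMap.id ℝ _ (R (De d e x₀ p₀.2)))) :=
      (isBoundedBilinearMap_apply.continuous.tendsto _).comp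
        (hinv.prodMk_nhds ((R.continuous.tendsto _).comp hDe))
    have h3 : ContinuousLinearMap.id ℝ _ (R (De d e x₀ p₀.2)) = (t p₀).2 := by
      rw [ContinuousLinearMap.id_apply, ← E03L_eq (e := e) x₀ p₀ hx₀t]
      exact congrArg (fun A : EuclideanSpace ℝ (Fin d) →L[ℝ] EuclideanSpace ℝ (Fin d) => A (t p₀).2) hR
    rw [h3] at hmain
    refine hmain.congr' ?_
    filter_upwards [hbase, hunit] with p hp hu
    rw [← E03L_eq (e := e) x₀ p hp]
    change (Ring.inverse (R.comp (E03L d e x₀ p.proj)) * (R.comp (E03L d e x₀ p.proj))) (t p).2 = _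
    rw [Ring.inverse_mul_cancel _ hu]
    rfl
  · rintro ⟨x, v⟩ ⟨y, w⟩ h
    simp only [hF, Prod.mk.injEq] at h
    obtain ⟨h1, h2⟩ := h
    have hxy : x = y := hemb.injective h1
    subst hxy
    have := hinj _ h2
    subst this
    rfl

omit [CompactSpace M] in
/-- local version of the norm equivalence -/
theorem E03_local [Bundle.RiemannianBundle (fun x : M => TangentSpace (𝓡 d) x)]
    [IsContinuousRiemannianBundle (EuclideanSpace ℝ (Fin d)) (fun x : M => TangentSpace (𝓡 d) x)]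
    (he : ContMDiff (𝓡 d) 𝓘(ℝ, EE N) ∞ e)
    (hinj : ∀ x, Function.Injective (De d e x)) (x₀ : M) : ∃ c > 0, ∀ᶠ x in 𝓝 x₀, ∀
      (v : TangentSpace (𝓡 d) x), ‖v‖ ≤ c * ‖De d e x v‖ ∧ ‖De d e x v‖ ≤ c * ‖v‖ := by
  set t := trivializationAt (EuclideanSpace ℝ (Fin d)) (TangentSpace (𝓡 d) (M := M)) x₀ with ht
  have hx₀t : x₀ ∈ t.baseSet := FiberBundle.mem_baseSet_trivializationAt' x₀
  obtain ⟨C₁, hC₁, h1⟩ := eventually_norm_trivializationAt_lt (EuclideanSpace ℝ (Fin d))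
    (fun x : M => TangentSpace (𝓡 d) x) x₀
  obtain ⟨C₂, hC₂, h2⟩ := eventually_norm_symmL_trivializationAt_lt (EuclideanSpace ℝ (Fin d))
    (fun x : M => TangentSpace (𝓡 d) x) x₀
  have hL0inj := E03L_inj (e := e) hinj x₀ x₀ hx₀t
  have hLc : ContinuousAt (E03L d e x₀) x₀ :=
    (E03L_cont he x₀).continuousAt (t.open_baseSet.mem_nhds hx₀t)
  obtain ⟨R, hR⟩ : ∃ R : EE N →L[ℝ] EuclideanSpace ℝ (Fin d),
      R.comp (E03L d e x₀ x₀) = ContinuousLinearMap.id ℝ _ := by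
    obtain ⟨R, hR⟩ := LinearMap.exists_leftInverse_of_injective
      (E03L d e x₀ x₀ : EuclideanSpace ℝ (Fin d) →ₗ[ℝ] EE N)
      (LinearMap.ker_eq_bot.2 hL0inj)
    refine ⟨R.toContinuousLinearMap, ?_⟩
    ext1 v
    exact LinearMap.congr_fun hR v
  -- `‖w‖ ≤ 2 ‖R‖ ‖L x w‖` and `‖L x w‖ ≤ (‖L x₀‖ + 1) ‖w‖` near `x₀`
  have h3 : ∀ᶠ x in 𝓝 x₀, ‖E03L d e x₀ x - E03L d e x₀ x₀‖ < min 1 (1 / (2 * (‖R‖ + 1))) := by
    have := Metric.tendsto_nhds.1 hLc.tendsto (min 1 (1 / (2 * (‖R‖ + 1)))) (by positivity)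
    filter_upwards [this] with x hx
    rwa [dist_eq_norm] at hx
  refine ⟨(C₁ + 1) * (‖E03L d e x₀ x₀‖ + 1) + 2 * (‖R‖ + 1) * C₂, by positivity, ?_⟩
  filter_upwards [h1, h2, h3, t.open_baseSet.mem_nhds hx₀t] with x hx1 hx2 hx3 hxt
  intro v
  set w := t.continuousLinearMapAt ℝ x v with hw
  have hv : v = t.symmL ℝ x w := (t.symmL_continuousLinearMapAt hxt v).symm
  have hLw : E03L d e x₀ x w = De d e x v := by
    simp only [E03L, ContinuousLinearMap.comp_apply]
    rw [hv]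
  have hwn : ‖w‖ ≤ C₁ * ‖v‖ :=
    (t.continuousLinearMapAt ℝ x).le_of_opNorm_le hx1.le v
  have hvn : ‖v‖ ≤ C₂ * ‖w‖ := by
    conv_lhs => rw [hv]
    exact (t.symmL ℝ x).le_of_opNorm_le hx2.le w
  have hLn : ‖De d e x v‖ ≤ (‖E03L d e x₀ x₀‖ + 1) * ‖w‖ := by
    rw [← hLw]
    refine (E03L d e x₀ x).le_of_opNorm_le ?_ w
    have : E03L d e x₀ x = E03L d e x₀ x₀ + (E03L d e x₀ x - E03L d e x₀ x₀) := by abel
    rw [this]
    exact (norm_add_le _ _).trans (by gcongr; exact (hx3.trans_le (min_le_left _ _)).le)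
  have hRw : ‖w‖ ≤ 2 * (‖R‖ + 1) * ‖De d e x v‖ := by
    have e1 : w = R (E03L d e x₀ x w) - R ((E03L d e x₀ x - E03L d e x₀ x₀) w) := by
      rw [← map_sub, _root_.sub_apply, sub_sub_cancel]
      have := congrArg (fun A : EuclideanSpace ℝ (Fin d) →L[ℝ] EuclideanSpace ℝ (Fin d) => A w) hR
      exact this.symm
    have e2 : ‖R ((E03L d e x₀ x - E03L d e x₀ x₀) w)‖ ≤ 1 / 2 * ‖w‖ := by
      calc ‖R ((E03L d e x₀ x - E03L d e x₀ x₀) w)‖
          ≤ ‖R‖ * (1 / (2 * (‖R‖ + 1)) * ‖w‖) :=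
            (R.le_opNorm _).trans (mul_le_mul_of_nonneg_left
              (ContinuousLinearMap.le_of_opNorm_le _ (hx3.trans_le (min_le_right _ _)).le w)
              (norm_nonneg _))
        _ = (‖R‖ / (‖R‖ + 1)) * (1 / 2 * ‖w‖) := by field_simp
        _ ≤ 1 * (1 / 2 * ‖w‖) := by
            gcongr
            rw [div_le_one (by positivity)]
            linarith
        _ = 1 / 2 * ‖w‖ := by ring
    have e3 : ‖w‖ ≤ ‖R‖ * ‖E03L d e x₀ x w‖ + 1 / 2 * ‖w‖ := by
      conv_lhs => rw [e1]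
      exact (norm_sub_le _ _).trans (add_le_add (R.le_opNorm _) e2)
    rw [hLw] at e3
    nlinarith [norm_nonneg (De d e x v), norm_nonneg R]
  have hn1 : 0 ≤ ‖E03L d e x₀ x₀‖ := norm_nonneg _
  have hn2 : 0 ≤ ‖R‖ := norm_nonneg _
  constructor
  · calc ‖v‖ ≤ C₂ * ‖w‖ := hvn
      _ ≤ C₂ * (2 * (‖R‖ + 1) * ‖De d e x v‖) := by gcongr
      _ = (2 * (‖R‖ + 1) * C₂) * ‖De d e x v‖ := by ring
      _ ≤ _ := by
          gcongr
          have : 0 ≤ (C₁ + 1) * (‖E03L d e x₀ x₀‖ + 1) := by positivity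
          linarith
  · calc ‖De d e x v‖ ≤ (‖E03L d e x₀ x₀‖ + 1) * ‖w‖ := hLn
      _ ≤ (‖E03L d e x₀ x₀‖ + 1) * (C₁ * ‖v‖) := by gcongr
      _ = (C₁ * (‖E03L d e x₀ x₀‖ + 1)) * ‖v‖ := by ring
      _ ≤ _ := by
          gcongr
          have : 0 ≤ 2 * (‖R‖ + 1) * C₂ := by positivity
          nlinarith

/-- E03: the Riemannian norm is equivalent to the embedded norm -/
theorem norm_equiv [Bundle.RiemannianBundle (fun x : M => TangentSpace (𝓡 d) x)]
    [IsContinuousRiemannianBundle (EuclideanSpace ℝ (Fin d)) (fun x : M => TangentSpace (𝓡 d) x)]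
    (he : ContMDiff (𝓡 d) 𝓘(ℝ, EE N) ∞ e)
    (hinj : ∀ x, Function.Injective (De d e x)) : ∃ c > 0, ∀ (x : M)
      (v : TangentSpace (𝓡 d) x), ‖v‖ ≤ c * ‖De d e x v‖ ∧ ‖De d e x v‖ ≤ c * ‖v‖ := by
  choose c hc hloc using fun x₀ : M => E03_local (e := e) he hinj x₀
  obtain ⟨t, ht⟩ := isCompact_univ.elim_nhds_subcover
    (fun x₀ : M => {x | ∀ (v : TangentSpace (𝓡 d) x), ‖v‖ ≤ c x₀ * ‖De d e x v‖ ∧
      ‖De d e x v‖ ≤ c x₀ * ‖v‖}) (fun x₀ _ => hloc x₀)
  refine ⟨1 + ∑ x ∈ t, c x, by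
    have : 0 ≤ ∑ x ∈ t, c x := Finset.sum_nonneg fun x _ => (hc x).le
    linarith, fun x v => ?_⟩
  obtain ⟨x₀, hx₀, hx⟩ := mem_iUnion₂.1 (ht.2 (mem_univ x))
  have hle : c x₀ ≤ 1 + ∑ x ∈ t, c x := by
    have := Finset.single_le_sum (f := c) (fun x _ => (hc x).le) hx₀
    linarith
  obtain ⟨h1, h2⟩ := hx v
  exact ⟨h1.trans (by gcongr), h2.trans (by gcongr)⟩

end Emb

end Pool.MP85
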