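import Pool.Agent.Lib.MP_85e637_an.AbsC
import Pool.Agent.Lib.MP_85e637_an.E01
import Pool.Agent.Lib.MP_85e637_an.E01b
import Pool.Agent.Lib.MP_85e637_an.E02

/-!
# E04: the embedded system of a diffeomorphism
-/

open scoped Manifold ContDiff Topology Bundle
open Filter Set Metric Module

set_option linter.unusedSectionVars false

noncomputable section

namespace Pool.MP85

section Main
variable {d : ℕ} {M : Type} [MetricSpace M] [CompactSpace M]
  [ChartedSpace (EuclideanSpace ℝ (Fin d)) M] [IsManifold (𝓡 d) ∞ M]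

/-- the orthogonal projection fixes the embedded tangent vectors -/
theorem E04_Pm_De {N : ℕ} (e : M → EE N) (x : M) (v : TangentSpace (𝓡 d) x) :
    Pm d e x (De d e x v) = De d e x v := by
  unfold Pm
  rw [Submodule.starProjection_eq_self_iff]
  exact ⟨v, rfl⟩

theorem E04_Pm_range {N : ℕ} (e : M → EE N) (x : M) (w : EE N) :
    ∃ v : TangentSpace (𝓡 d) x, De d e x v = Pm d e x w := by
  have h : Pm d e x w ∈ LinearMap.range (De d e x).toLinearMap :=
    Submodule.starProjection_apply_mem _ _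
  exact h

theorem E04_Pm_idem {N : ℕ} (e : M → EE N) (x : M) : Pm d e x ∘L Pm d e x = Pm d e x := by
  ext1 w
  obtain ⟨v, hv⟩ := E04_Pm_range (d := d) e x w
  rw [ContinuousLinearMap.comp_apply, ← hv]
  exact E04_Pm_De e x v

theorem E04_Pm_inner {N : ℕ} (e : M → EE N) (x : M) (v w : EE N) :
    inner ℝ (Pm d e x v) w = inner ℝ v (Pm d e x w) := by
  unfold Pm
  exact Submodule.inner_starProjection_left_eq_right _ _ _

/-- chain rule for `e ∘ g' ∘ g = e` -/
theorem E04_chain {N : ℕ} {e : M → EE N} (he : ContMDiff (𝓡 d) 𝓘(ℝ, EE N) ∞ e) {g g' : M → M}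
    (hg : ContMDiff (𝓡 d) (𝓡 d) 1 g) (hg' : ContMDiff (𝓡 d) (𝓡 d) 1 g')
    (hgg : ∀ x, g' (g x) = x) (x : M) (v : TangentSpace (𝓡 d) x) :
    De d e (g' (g x)) (mfderiv (𝓡 d) (𝓡 d) g' (g x) (mfderiv (𝓡 d) (𝓡 d) g x v)) =
      De d e x v := by
  have hed : ∀ y, MDifferentiableAt (𝓡 d) 𝓘(ℝ, EE N) e y := fun y =>
    (he y).mdifferentiableAt (by simp)
  have hgd : ∀ y, MDifferentiableAt (𝓡 d) (𝓡 d) g y := fun y =>
    (hg y).mdifferentiableAt (by simp)
  have hgd' : ∀ y, MDifferentiableAt (𝓡 d) (𝓡 d) g' y := fun y =>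
    (hg' y).mdifferentiableAt (by simp)
  have h1 : (e ∘ g') ∘ g = e := by
    funext y; simp [hgg y]
  have h2 := mfderiv_comp x (I := 𝓡 d) (I' := 𝓡 d) (I'' := 𝓘(ℝ, EE N)) (g := e ∘ g') (f := g)
    ((hed _).comp _ (hgd' _)) (hgd x)
  have h3 := mfderiv_comp (g x) (I := 𝓡 d) (I' := 𝓡 d) (I'' := 𝓘(ℝ, EE N)) (g := e) (f := g')
    (hed _) (hgd' _)
  rw [h1, h3] at h2
  have h4 := congrArg (fun L => L v) h2
  exact h4.symm

/-- E04: the embedded system of a diffeomorphism. -/
theorem exists_esys (f : M ≃ₘ^1⟮𝓡 d, 𝓡 d⟯ M) : ∃ (N : ℕ) (e : M → EE N)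
    (K : Type) (_ : MetricSpace K) (_ : CompactSpace K) (S : ESys d N K) (h : M ≃ₜ K),
    ContMDiff (𝓡 d) 𝓘(ℝ, EE N) ∞ e ∧ Topology.IsClosedEmbedding e ∧
    (∀ x, Function.Injective (De d e x)) ∧
    (∀ x, S.e (h x) = e x) ∧ (∀ x, S.f (h x) = h (f x)) ∧ (∀ x, S.P (h x) = Pm d e x) ∧
    (∀ x v, De d e x v ∈ S.T (h x)) ∧ (∀ x, ∀ w ∈ S.T (h x), ∃ v, De d e x v = w) ∧
    (∀ x v, S.A (h x) (De d e x v) = De d e (f x) (mfderiv (𝓡 d) (𝓡 d) f x v)) := by
  obtain ⟨N, e, he, hemb, hinj⟩ := exists_embedding_euclidean_of_compact (I := 𝓡 d) (M := M)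
  have hinj' : ∀ x, Function.Injective (De d e x) := hinj
  obtain ⟨A0, hA0c, hA0, hA0P, hPA0, hA0d⟩ := exists_A he hemb hinj' f.contMDiff
  obtain ⟨A1, hA1c, hA1, hA1P, hPA1, -⟩ := exists_A he hemb hinj' f.symm.contMDiff
  have hfs : ∀ x, f.symm (f x) = x := f.symm_apply_apply
  have hsf : ∀ x, f (f.symm x) = x := f.apply_symm_apply
  -- the inverse relations
  have hinv1 : ∀ x, A1 (f x) ∘L A0 x = Pm d e x := by
    intro x
    ext1 w
    obtain ⟨v, hv⟩ := E04_Pm_range (d := d) e x w
    have h1 : A0 x w = A0 x (Pm d e x w) := by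
      conv_lhs => rw [← hA0P x]
      rfl
    rw [ContinuousLinearMap.comp_apply, h1, ← hv, hA0, hA1]
    exact E04_chain he f.contMDiff f.symm.contMDiff hfs x v
  have hinv2 : ∀ y, A0 (f.symm y) ∘L A1 y = Pm d e y := by
    intro y
    ext1 w
    obtain ⟨v, hv⟩ := E04_Pm_range (d := d) e y w
    have h1 : A1 y w = A1 y (Pm d e y w) := by
      conv_lhs => rw [← hA1P y]
      rfl
    rw [ContinuousLinearMap.comp_apply, h1, ← hv, hA1, hA0]
    exact E04_chain he f.symm.contMDiff f.contMDiff hsf y v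
  let h : M ≃ₜ Set.range e := hemb.isEmbedding.toHomeomorph
  have hcomp : CompactSpace (Set.range e) := h.compactSpace
  have hval : ∀ k : Set.range e, e (h.symm k) = k.1 := by
    intro k
    have := congrArg Subtype.val (h.apply_symm_apply k)
    exact this
  have hdist : ∀ k k' : Set.range e, dist k k' = ‖e (h.symm k) - e (h.symm k')‖ := by
    intro k k'
    rw [hval, hval, Subtype.dist_eq, dist_eq_norm]
  let F : Set.range e ≃ₜ Set.range e := h.symm.trans (f.toHomeomorph.trans h)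
  have hF : ∀ k, h.symm (F k) = f (h.symm k) := by
    intro k
    change h.symm (h (f (h.symm k))) = f (h.symm k)
    rw [h.symm_apply_apply]
  let C : Coc N (Set.range e) :=
    { f := F
      P := fun k => Pm d e (h.symm k)
      A := fun k => A0 (h.symm k)
      A' := fun k => A1 (f (h.symm k))
      contP := (Pm_cont he hinj').comp h.symm.continuous
      contA := hA0c.comp h.symm.continuous
      contA' := hA1c.comp (f.continuous.comp h.symm.continuous)
      PP := fun k => E04_Pm_idem e _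
      Psa := fun k v w => E04_Pm_inner e _ v w
      AP := fun k => hA0P _
      PA := fun k => by rw [hF]; exact hPA0 _
      A'P := fun k => by rw [hF]; exact hA1P _
      PA' := fun k => by
        have h1 := hPA1 (f (h.symm k))
        rwa [hfs] at h1
      A'A := fun k => hinv1 _
      AA' := fun k => by
        have h1 := hinv2 (f (h.symm k))
        rw [hfs] at h1
        rw [hF]
        exact h1 }
  let S : ESys d N (Set.range e) :=
    { toCoc := C
      e := fun k => k.1
      e_isom := fun x y => by rw [Subtype.dist_eq, dist_eq_norm]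
      rankP := fun k => Pm_rank hinj' _
      flat := by
        intro η hη
        obtain ⟨ρ, hρ, hh⟩ := Pm_flat he hemb hinj' η hη
        refine ⟨ρ, hρ, fun x y y' h1 h2 => ?_⟩
        rw [hdist] at h1 h2 ⊢
        have h3 := hh (h.symm x) (h.symm y) (h.symm y') h1 h2
        rw [← hval y, ← hval y']
        exact h3
      surj := by
        obtain ⟨ρ, hρ, hh⟩ := Pm_surj he hemb hinj'
        refine ⟨ρ, hρ, fun x v h1 h2 => ?_⟩
        obtain ⟨y, hy1, hy2⟩ := hh (h.symm x) v h1 h2
        refine ⟨h y, ?_, ?_⟩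
        · rw [← hval (h y), ← hval x, h.symm_apply_apply]
          exact hy1
        · rw [hdist, h.symm_apply_apply]
          exact hy2
      diff := by
        intro η hη
        obtain ⟨ρ, hρ, hh⟩ := hA0d η hη
        refine ⟨ρ, hρ, fun x y y' h1 h2 => ?_⟩
        rw [hdist] at h1 h2 ⊢
        have h3 := hh (h.symm x) (h.symm y) (h.symm y') h1 h2
        rw [← hval (C.f y), ← hval (C.f y'), ← hval y, ← hval y']
        change ‖e (h.symm (F y)) - e (h.symm (F y')) - _‖ ≤ _
        rw [hF, hF]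
        exact h3 }
  refine ⟨N, e, Set.range e, inferInstance, hcomp, S, h, he, hemb, hinj', fun x => rfl,
    fun x => ?_, fun x => ?_, fun x v => ?_, fun x w hw => ?_, fun x v => ?_⟩
  · change h (f (h.symm (h x))) = h (f x)
    rw [h.symm_apply_apply]
  · change Pm d e (h.symm (h x)) = Pm d e x
    rw [h.symm_apply_apply]
  · refine ⟨De d e x v, ?_⟩
    change Pm d e (h.symm (h x)) (De d e x v) = De d e x v
    rw [h.symm_apply_apply]
    exact E04_Pm_De e x v
  · obtain ⟨w', hw'⟩ := hw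
    obtain ⟨v, hv⟩ := E04_Pm_range (d := d) e x w'
    refine ⟨v, ?_⟩
    rw [hv, ← hw']
    change Pm d e x w' = Pm d e (h.symm (h x)) w'
    rw [h.symm_apply_apply]
  · change A0 (h.symm (h x)) (De d e x v) = _
    rw [h.symm_apply_apply]
    exact hA0 x v

end Main

end Pool.MP85
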