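import Pool.Agent.Lib.MP_85e637_an.Stmt
import Pool.Agent.Lib.MP_85e637_an.E03
import Pool.Agent.Lib.MP_85e637_an.E04

/-!
# E05: Axiom A and strong transversality in the embedded picture
-/

open scoped Manifold ContDiff Topology Bundle
open Filter Set Metric Module

noncomputable section

set_option linter.unusedSectionVars false

namespace Pool.MP85

/-! ## the nonwandering set -/
section NWfacts
variable {M : Type} [MetricSpace M]

lemma E05_NW_closed (f : M → M) : IsClosed (NW f) := by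
  rw [← isOpen_compl_iff, isOpen_iff_mem_nhds]
  intro x hx
  have hx' : ¬ ∀ U ∈ 𝓝 x, ∃ n > 0, (f^[n] '' U ∩ U).Nonempty := hx
  push Not at hx'
  obtain ⟨U, hU, hn⟩ := hx'
  obtain ⟨V, hVU, hV, hxV⟩ := _root_.mem_nhds_iff.1 hU
  refine _root_.mem_nhds_iff.2 ⟨V, fun y hy hy' => ?_, hV, hxV⟩
  obtain ⟨n, hn0, z, ⟨w, hw, rfl⟩, hz⟩ := hy' V (hV.mem_nhds hy)
  have h1 : (f^[n] '' U ∩ U).Nonempty := ⟨f^[n] w, ⟨w, hVU hw, rfl⟩, hVU hz⟩
  have h2 := hn n hn0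
  rw [h2] at h1
  exact Set.not_nonempty_empty h1

lemma E05_NW_map (f : M ≃ₜ M) {x : M} (hx : x ∈ NW f) : f x ∈ NW f := by
  intro U hU
  obtain ⟨n, hn, z, ⟨w, hw, rfl⟩, hz⟩ := hx (f ⁻¹' U) (f.continuous.continuousAt hU)
  refine ⟨n, hn, f (f^[n] w), ⟨f w, hw, ?_⟩, hz⟩
  exact (Function.iterate_succ_apply f n w).symm.trans (Function.iterate_succ_apply' f n w)

lemma E05_NW_map' (f : M ≃ₜ M) {x : M} (hx : x ∈ NW f) : f.symm x ∈ NW f := by
  intro U hU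
  obtain ⟨n, hn, z, ⟨w, hw, rfl⟩, hz⟩ := hx (f.symm ⁻¹' U) (f.symm.continuous.continuousAt hU)
  refine ⟨n, hn, f.symm (f^[n] w), ⟨f.symm w, hw, ?_⟩, hz⟩
  apply f.injective
  rw [f.apply_symm_apply, ← Function.iterate_succ_apply' f n, Function.iterate_succ_apply,
    f.apply_symm_apply]

end NWfacts

/-! ## derivatives of iterates -/
section Deriv
variable {d : ℕ} {M : Type} [MetricSpace M] [ChartedSpace (EuclideanSpace ℝ (Fin d)) M]

lemma E05_mdiff_iterate {g : M → M} (hg : MDifferentiable (𝓡 d) (𝓡 d) g) (n : ℕ) :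
    MDifferentiable (𝓡 d) (𝓡 d) (g^[n]) := by
  induction n with
  | zero => exact mdifferentiable_id
  | succ n ih => rw [Function.iterate_succ]; exact ih.comp hg

lemma E05_succ {g : M → M} (hg : MDifferentiable (𝓡 d) (𝓡 d) g) (n : ℕ) (x : M) :
    mfderiv (𝓡 d) (𝓡 d) (g^[n + 1]) x =
      (mfderiv (𝓡 d) (𝓡 d) (g^[n]) (g x)).comp (mfderiv (𝓡 d) (𝓡 d) g x) := by
  have h1 : g^[n + 1] = g^[n] ∘ g := Function.iterate_succ g n
  rw [h1]
  exact mfderiv_comp x (E05_mdiff_iterate hg n (g x)) (hg x)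

lemma E05_succ' {g : M → M} (hg : MDifferentiable (𝓡 d) (𝓡 d) g) (n : ℕ) (x : M) :
    mfderiv (𝓡 d) (𝓡 d) (g^[n + 1]) x =
      (mfderiv (𝓡 d) (𝓡 d) g (g^[n] x)).comp (mfderiv (𝓡 d) (𝓡 d) (g^[n]) x) := by
  have h1 : g^[n + 1] = g ∘ g^[n] := Function.iterate_succ' g n
  rw [h1]
  exact mfderiv_comp x (hg (g^[n] x)) (E05_mdiff_iterate hg n x)

/-- a property of tangent vectors transported by the derivative of the identity -/
lemma E05_transport {Q : ∀ y : M, TangentSpace (𝓡 d) y → Prop} {g g' : M → M}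
    (hg : MDifferentiable (𝓡 d) (𝓡 d) g) (hg' : MDifferentiable (𝓡 d) (𝓡 d) g')
    (hinv : Function.LeftInverse g' g) (x : M) (v : TangentSpace (𝓡 d) x) :
    Q (g' (g x)) (mfderiv (𝓡 d) (𝓡 d) g' (g x) (mfderiv (𝓡 d) (𝓡 d) g x v)) ↔ Q x v := by
  have h1 : mfderiv (𝓡 d) (𝓡 d) (g' ∘ g) x =
      (mfderiv (𝓡 d) (𝓡 d) g' (g x)).comp (mfderiv (𝓡 d) (𝓡 d) g x) :=
    mfderiv_comp x (hg' (g x)) (hg x)
  have h2 : ∀ k : M → M, k = id → (Q (k x) (mfderiv (𝓡 d) (𝓡 d) k x v) ↔ Q x v) := by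
    rintro k rfl
    rw [mfderiv_id]
    exact Iff.rfl
  have h3 := h2 (g' ∘ g) hinv.comp_eq_id
  rw [h1] at h3
  exact h3

end Deriv

/-! ## hyperbolic splittings -/
section Hyp
variable {d : ℕ} {M : Type} [MetricSpace M] [ChartedSpace (EuclideanSpace ℝ (Fin d)) M]
  [IsManifold (𝓡 d) ∞ M]
  [Bundle.RiemannianBundle (fun x : M => TangentSpace (𝓡 d) x)]

/-- hyperbolicity data for a map `g` with inverse `g'` -/
def E05_Hyp (g g' : M → M) (Λ : Set M) (V W : ∀ x : M, Submodule ℝ (TangentSpace (𝓡 d) x))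
    (c lam : ℝ) : Prop :=
  ∀ x ∈ Λ, IsCompl (V x) (W x) ∧
      (∀ v ∈ V x, mfderiv (𝓡 d) (𝓡 d) g x v ∈ V (g x)) ∧
      (∀ v ∈ W x, mfderiv (𝓡 d) (𝓡 d) g x v ∈ W (g x)) ∧
      (∀ v ∈ V x, ∀ n : ℕ, ‖mfderiv (𝓡 d) (𝓡 d) (g^[n]) x v‖ ≤ c * lam ^ n * ‖v‖) ∧
      (∀ v ∈ W x, ∀ n : ℕ, ‖mfderiv (𝓡 d) (𝓡 d) (g'^[n]) x v‖ ≤ c * lam ^ n * ‖v‖)

/-- one of the two bundles is mapped into itself by the inverse -/
lemma E05_inv {g g' : M → M} (hg : MDifferentiable (𝓡 d) (𝓡 d) g)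
    (hg' : MDifferentiable (𝓡 d) (𝓡 d) g') (hl : Function.LeftInverse g' g)
    (hr : Function.LeftInverse g g') {Λ : Set M} (hΛ' : ∀ x ∈ Λ, g' x ∈ Λ)
    {V W : ∀ x : M, Submodule ℝ (TangentSpace (𝓡 d) x)}
    (hc : ∀ x ∈ Λ, IsCompl (V x) (W x))
    (hV : ∀ x ∈ Λ, ∀ v ∈ V x, mfderiv (𝓡 d) (𝓡 d) g x v ∈ V (g x))
    (hW : ∀ x ∈ Λ, ∀ v ∈ W x, mfderiv (𝓡 d) (𝓡 d) g x v ∈ W (g x)) :
    ∀ x ∈ Λ, ∀ v ∈ V x, mfderiv (𝓡 d) (𝓡 d) g' x v ∈ V (g' x) := by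
  intro x hx v hv
  have hy := hΛ' x hx
  set u := mfderiv (𝓡 d) (𝓡 d) g' x v with hu
  have hsum : u ∈ V (g' x) ⊔ W (g' x) := by rw [(hc _ hy).sup_eq_top]; trivial
  obtain ⟨u1, h1, u2, h2, h12⟩ := Submodule.mem_sup.1 hsum
  have hgu : mfderiv (𝓡 d) (𝓡 d) g (g' x) u ∈ V (g (g' x)) :=
    (E05_transport (Q := fun y w => w ∈ V y) hg' hg hr x v).2 hv
  have hgu1 := hV _ hy u1 h1
  have hgu2 := hW _ hy u2 h2
  have hgu2' : mfderiv (𝓡 d) (𝓡 d) g (g' x) u2 ∈ V (g (g' x)) := by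
    have h3 : mfderiv (𝓡 d) (𝓡 d) g (g' x) u2 =
        mfderiv (𝓡 d) (𝓡 d) g (g' x) u - mfderiv (𝓡 d) (𝓡 d) g (g' x) u1 := by
      rw [← h12, map_add]; abel
    rw [h3]
    exact Submodule.sub_mem _ hgu hgu1
  have hz : mfderiv (𝓡 d) (𝓡 d) g (g' x) u2 = 0 := by
    have hx' : g (g' x) ∈ Λ := by rw [hr x]; exact hx
    exact (Submodule.disjoint_def.1 (hc _ hx').disjoint) _ hgu2' hgu2
  have hu2 : u2 = 0 := by
    have h4 := (E05_transport (Q := fun y w => w = 0) hg hg' hl (g' x) u2).1 (by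
      rw [hz, map_zero])
    exact h4
  rw [← h12, hu2, add_zero]
  exact h1

lemma E05_Hyp.symm {g g' : M → M} (hg : MDifferentiable (𝓡 d) (𝓡 d) g)
    (hg' : MDifferentiable (𝓡 d) (𝓡 d) g') (hl : Function.LeftInverse g' g)
    (hr : Function.LeftInverse g g') {Λ : Set M} (hΛ' : ∀ x ∈ Λ, g' x ∈ Λ)
    {V W : ∀ x : M, Submodule ℝ (TangentSpace (𝓡 d) x)} {c lam : ℝ}
    (h : E05_Hyp g g' Λ V W c lam) : E05_Hyp g' g Λ W V c lam := by
  intro x hx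
  obtain ⟨h1, h2, h3, h4, h5⟩ := h x hx
  refine ⟨h1.symm, ?_, ?_, h5, h4⟩
  · exact E05_inv hg hg' hl hr hΛ' (fun x hx => (h x hx).1.symm) (fun x hx => (h x hx).2.2.1)
      (fun x hx => (h x hx).2.1) x hx
  · exact E05_inv hg hg' hl hr hΛ' (fun x hx => (h x hx).1) (fun x hx => (h x hx).2.1)
      (fun x hx => (h x hx).2.2.1) x hx

lemma E05_Hyp.le {g g' : M → M} {Λ : Set M}
    {V W : ∀ x : M, Submodule ℝ (TangentSpace (𝓡 d) x)} {c lam : ℝ} (h0 : 0 < lam) (h1 : lam < 1)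
    (h : E05_Hyp g g' Λ V W c lam) {x : M} (hx : x ∈ Λ) : V x ≤ Es d g x := by
  intro v hv
  have h2 := (h x hx).2.2.2.1 v hv
  change Tendsto (fun n : ℕ => ‖mfderiv (𝓡 d) (𝓡 d) (g^[n]) x v‖) atTop (𝓝 0)
  refine squeeze_zero (fun n => norm_nonneg _) h2 ?_
  have h3 := ((tendsto_pow_atTop_nhds_zero_of_lt_one h0.le h1).const_mul c).mul_const ‖v‖
  simpa using h3

/-- a contracted vector of `W` is zero -/
lemma E05_zero {g g' : M → M} (hg : MDifferentiable (𝓡 d) (𝓡 d) g)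
    (hg' : MDifferentiable (𝓡 d) (𝓡 d) g') (hl : Function.LeftInverse g' g) {Λ : Set M}
    (hΛ : ∀ x ∈ Λ, g x ∈ Λ)
    {V W : ∀ x : M, Submodule ℝ (TangentSpace (𝓡 d) x)} {c lam : ℝ} (h0 : 0 < lam) (h1 : lam < 1)
    (h : E05_Hyp g g' Λ V W c lam) {x : M} (hx : x ∈ Λ) {v : TangentSpace (𝓡 d) x}
    (hv : v ∈ W x) (hs : v ∈ Es d g x) : v = 0 := by
  have hmem : ∀ n : ℕ, g^[n] x ∈ Λ ∧ mfderiv (𝓡 d) (𝓡 d) (g^[n]) x v ∈ W (g^[n] x) := by
    intro n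
    induction n with
    | zero =>
      refine ⟨hx, ?_⟩
      have : mfderiv (𝓡 d) (𝓡 d) (g^[0]) x v = v := by
        change mfderiv (𝓡 d) (𝓡 d) (id : M → M) x v = v
        rw [mfderiv_id]; rfl
      rw [this]
      exact hv
    | succ n ih =>
      have h2 := (h _ ih.1).2.2.1 _ ih.2
      have h3 := hΛ _ ih.1
      have h4 : g^[n + 1] x = g (g^[n] x) := Function.iterate_succ_apply' g n x
      refine ⟨by rw [h4]; exact h3, ?_⟩
      rw [E05_succ' hg n x]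
      have h5 : ∀ y : M, y = g (g^[n] x) →
          ((mfderiv (𝓡 d) (𝓡 d) g (g^[n] x)) (mfderiv (𝓡 d) (𝓡 d) (g^[n]) x v) :
            EuclideanSpace ℝ (Fin d)) ∈ W y := by
        rintro y rfl; exact h2
      exact h5 _ h4
  have hb : ∀ n : ℕ, ‖v‖ ≤ c * lam ^ n * ‖mfderiv (𝓡 d) (𝓡 d) (g^[n]) x v‖ := by
    intro n
    have h2 := (h _ (hmem n).1).2.2.2.2 _ (hmem n).2 n
    have h3 := E05_transport (Q := fun y w => ‖w‖ ≤ c * lam ^ n *
      ‖mfderiv (𝓡 d) (𝓡 d) (g^[n]) x v‖) (E05_mdiff_iterate hg n) (E05_mdiff_iterate hg' n)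
      (hl.iterate n) x v
    exact h3.1 h2
  have hlim : Tendsto (fun n : ℕ => c * lam ^ n * ‖mfderiv (𝓡 d) (𝓡 d) (g^[n]) x v‖) atTop
      (𝓝 0) := by
    have h3 := ((tendsto_pow_atTop_nhds_zero_of_lt_one h0.le h1).const_mul c).mul
      (show Tendsto (fun n : ℕ => ‖mfderiv (𝓡 d) (𝓡 d) (g^[n]) x v‖) atTop (𝓝 0) from hs)
    simpa using h3
  have h4 : ‖v‖ ≤ 0 := ge_of_tendsto' hlim hb
  exact norm_le_zero_iff.1 h4

lemma E05_Hyp.eq {g g' : M → M} (hg : MDifferentiable (𝓡 d) (𝓡 d) g)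
    (hg' : MDifferentiable (𝓡 d) (𝓡 d) g') (hl : Function.LeftInverse g' g) {Λ : Set M}
    (hΛ : ∀ x ∈ Λ, g x ∈ Λ)
    {V W : ∀ x : M, Submodule ℝ (TangentSpace (𝓡 d) x)} {c lam : ℝ} (h0 : 0 < lam) (h1 : lam < 1)
    (h : E05_Hyp g g' Λ V W c lam) {x : M} (hx : x ∈ Λ) : Es d g x = V x := by
  refine le_antisymm ?_ (h.le h0 h1 hx)
  intro v hv
  have hsum : v ∈ V x ⊔ W x := by rw [(h x hx).1.sup_eq_top]; trivial
  obtain ⟨v1, hv1, v2, hv2, h12⟩ := Submodule.mem_sup.1 hsum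
  have h3 : v2 ∈ Es d g x := by
    have : v2 = v - v1 := by rw [← h12]; abel
    rw [this]
    exact Submodule.sub_mem _ hv (h.le h0 h1 hx hv1)
  have h4 := E05_zero hg hg' hl hΛ h0 h1 h hx hv2 h3
  rw [← h12, h4, add_zero]
  exact hv1

end Hyp

/-! ## the embedded picture -/
section Emb
variable {d N : ℕ} {M K : Type} [MetricSpace M] [ChartedSpace (EuclideanSpace ℝ (Fin d)) M]
  [MetricSpace K]

lemma E05_An (C : Coc N K) (e : M → EE N) (h : M → K) {g : M → M}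
    (hg : MDifferentiable (𝓡 d) (𝓡 d) g) (hP : ∀ x v, C.P (h x) (De d e x v) = De d e x v)
    (hf : ∀ x, C.f (h x) = h (g x))
    (hA : ∀ x v, C.A (h x) (De d e x v) = De d e (g x) (mfderiv (𝓡 d) (𝓡 d) g x v)) :
    ∀ (n : ℕ) (x : M) (v : TangentSpace (𝓡 d) x),
      C.An n (h x) (De d e x v) = De d e (g^[n] x) (mfderiv (𝓡 d) (𝓡 d) (g^[n]) x v) := by
  intro n
  induction n with
  | zero =>
    intro x v
    have : mfderiv (𝓡 d) (𝓡 d) (g^[0]) x v = v := by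
      change mfderiv (𝓡 d) (𝓡 d) (id : M → M) x v = v
      rw [mfderiv_id]; rfl
    rw [this]
    exact hP x v
  | succ n ih =>
    intro x v
    change C.An n (C.f (h x)) (C.A (h x) (De d e x v)) = _
    rw [hA, hf, ih (g x), E05_succ hg n x]
    rfl

variable [IsManifold (𝓡 d) ∞ M] [Bundle.RiemannianBundle (fun x : M => TangentSpace (𝓡 d) x)]

lemma E05_Es_iff (C : Coc N K) (e : M → EE N) (h : M → K) {g : M → M}
    (hg : MDifferentiable (𝓡 d) (𝓡 d) g) (hP : ∀ x v, C.P (h x) (De d e x v) = De d e x v)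
    (hf : ∀ x, C.f (h x) = h (g x))
    (hA : ∀ x v, C.A (h x) (De d e x v) = De d e (g x) (mfderiv (𝓡 d) (𝓡 d) g x v))
    {c : ℝ} (hc : ∀ (x : M) (v : TangentSpace (𝓡 d) x),
      ‖v‖ ≤ c * ‖De d e x v‖ ∧ ‖De d e x v‖ ≤ c * ‖v‖) (x : M) (v : TangentSpace (𝓡 d) x) :
    v ∈ Es d g x ↔ De d e x v ∈ C.Es (h x) := by
  have hAn := E05_An C e h hg hP hf hA
  constructor
  · intro hv
    refine ⟨hP x v, ?_⟩
    have hv' : Tendsto (fun n : ℕ => ‖mfderiv (𝓡 d) (𝓡 d) (g^[n]) x v‖) atTop (𝓝 0) := hv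
    refine squeeze_zero (fun n => norm_nonneg _) (fun n => ?_) (by simpa using hv'.const_mul c)
    rw [hAn n x v]
    exact (hc _ _).2
  · rintro ⟨-, hv⟩
    change Tendsto (fun n : ℕ => ‖mfderiv (𝓡 d) (𝓡 d) (g^[n]) x v‖) atTop (𝓝 0)
    refine squeeze_zero (fun n => norm_nonneg _) (fun n => ?_) (by simpa using hv.const_mul c)
    rw [hAn n x v]
    exact (hc _ _).1

lemma E05_decay (C : Coc N K) (e : M → EE N) (h : M → K) {g : M → M}
    (hg : MDifferentiable (𝓡 d) (𝓡 d) g) (hP : ∀ x v, C.P (h x) (De d e x v) = De d e x v)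
    (hf : ∀ x, C.f (h x) = h (g x))
    (hA : ∀ x v, C.A (h x) (De d e x v) = De d e (g x) (mfderiv (𝓡 d) (𝓡 d) g x v))
    {c : ℝ} (hc0 : 0 < c) (hc : ∀ (x : M) (v : TangentSpace (𝓡 d) x),
      ‖v‖ ≤ c * ‖De d e x v‖ ∧ ‖De d e x v‖ ≤ c * ‖v‖) {c' lam : ℝ} (h0 : 0 < lam) {x : M}
    {v : TangentSpace (𝓡 d) x} {n : ℕ}
    (hv : ‖mfderiv (𝓡 d) (𝓡 d) (g^[n]) x v‖ ≤ c' * lam ^ n * ‖v‖) :
    ‖C.An n (h x) (De d e x v)‖ ≤ (c * |c'| * c) * lam ^ n * ‖De d e x v‖ := by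
  rw [E05_An C e h hg hP hf hA n x v]
  have h1 := (hc _ (mfderiv (𝓡 d) (𝓡 d) (g^[n]) x v)).2
  have h2 := (hc x v).1
  have h3 : 0 ≤ lam ^ n := (pow_pos h0 n).le
  calc ‖De d e (g^[n] x) (mfderiv (𝓡 d) (𝓡 d) (g^[n]) x v)‖
      ≤ c * ‖mfderiv (𝓡 d) (𝓡 d) (g^[n]) x v‖ := h1
    _ ≤ c * (c' * lam ^ n * ‖v‖) := mul_le_mul_of_nonneg_left hv hc0.le
    _ ≤ c * (|c'| * lam ^ n * ‖v‖) := by
        refine mul_le_mul_of_nonneg_left ?_ hc0.le
        refine mul_le_mul_of_nonneg_right ?_ (norm_nonneg _)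
        exact mul_le_mul_of_nonneg_right (le_abs_self _) h3
    _ ≤ c * (|c'| * lam ^ n * (c * ‖De d e x v‖)) := by
        refine mul_le_mul_of_nonneg_left ?_ hc0.le
        exact mul_le_mul_of_nonneg_left h2 (mul_nonneg (abs_nonneg _) h3)
    _ = _ := by ring

end Emb

section Main
variable {d : ℕ} {M : Type} [MetricSpace M] [CompactSpace M]
  [ChartedSpace (EuclideanSpace ℝ (Fin d)) M] [IsManifold (𝓡 d) ∞ M]
variable [Bundle.RiemannianBundle (fun x : M => TangentSpace (𝓡 d) x)]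
  [IsContinuousRiemannianBundle (EuclideanSpace ℝ (Fin d)) (fun x : M => TangentSpace (𝓡 d) x)]

/-- E05: Axiom A in the embedded picture (with the projections). -/
theorem exists_bsys2 (f : M ≃ₘ^1⟮𝓡 d, 𝓡 d⟯ M) (hA : AxiomA f) :
    ∃ (N : ℕ) (e : M → EE N)
    (K : Type) (_ : MetricSpace K) (_ : CompactSpace K) (S : BSys d N K) (h : M ≃ₜ K),
    ContMDiff (𝓡 d) 𝓘(ℝ, EE N) ∞ e ∧ Topology.IsClosedEmbedding e ∧
    (∀ x, Function.Injective (De d e x)) ∧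
    (∀ x, S.e (h x) = e x) ∧ (∀ x, S.f (h x) = h (f x)) ∧
    (∀ x v, S.A (h x) (De d e x v) = De d e (f x) (mfderiv (𝓡 d) (𝓡 d) f x v)) ∧
    (∀ x v, v ∈ Es d f x ↔ De d e x v ∈ S.Es (h x)) ∧
    (∀ x v, v ∈ Es d f.symm x ↔ De d e x v ∈ S.Eu (h x)) ∧
    (∀ x, finrank ℝ (Es d f.symm x) = finrank ℝ (S.Eu (h x))) ∧
    (∀ x, finrank ℝ (Es d f x) = finrank ℝ (S.Es (h x))) ∧
    (∀ x, Es d f x ⊔ Es d f.symm x = ⊤ → S.T (h x) ≤ S.Es (h x) ⊔ S.Eu (h x)) ∧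
    S.Om = h '' NW f ∧ (∀ x, S.P (h x) = Pm d e x) ∧ (∀ x v, De d e x v ∈ S.T (h x)) ∧
    (∀ x, S.T (h x) ≤ S.Es (h x) ⊔ S.Eu (h x) → Es d f x ⊔ Es d f.symm x = ⊤) := by
  obtain ⟨N, e, K, i1, i2, S, h, he, hemb, hinj, hSe, hSf, hSP, hT1, hT2, hSA⟩ := exists_esys f
  obtain ⟨c, hc0, hc⟩ := norm_equiv (d := d) he hinj
  have hg : MDifferentiable (𝓡 d) (𝓡 d) f := f.contMDiff.mdifferentiable one_ne_zero
  have hg' : MDifferentiable (𝓡 d) (𝓡 d) f.symm := f.symm.contMDiff.mdifferentiable one_ne_zero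
  have hl : Function.LeftInverse f.symm f := f.symm_apply_apply
  have hr : Function.LeftInverse f f.symm := f.apply_symm_apply
  have hP : ∀ x v, S.P (h x) (De d e x v) = De d e x v := by
    intro x v
    obtain ⟨w, hw⟩ := hT1 x v
    rw [← hw]
    exact congrArg (fun T : EE N →L[ℝ] EE N => T w) (S.PP (h x))
  have hsf : ∀ x, S.toCoc.symm.f (h x) = h (f.symm x) := by
    intro x
    change S.f.symm (h x) = h (f.symm x)
    apply S.f.injective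
    rw [S.f.apply_symm_apply, hSf, f.apply_symm_apply]
  have hsA : ∀ x v, S.toCoc.symm.A (h x) (De d e x v) =
      De d e (f.symm x) (mfderiv (𝓡 d) (𝓡 d) f.symm x v) := by
    intro x v
    change S.A' (S.f.symm (h x)) (De d e x v) = _
    have h1 : S.f.symm (h x) = h (f.symm x) := hsf x
    rw [h1]
    have h2 := hSA (f.symm x) (mfderiv (𝓡 d) (𝓡 d) f.symm x v)
    have h3 : De d e (f (f.symm x)) (mfderiv (𝓡 d) (𝓡 d) f (f.symm x)
        (mfderiv (𝓡 d) (𝓡 d) f.symm x v)) = De d e x v :=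
      (E05_transport (Q := fun y w => De d e y w = De d e x v) hg' hg hr x v).2 rfl
    rw [h3] at h2
    rw [← h2]
    have h4 := congrArg (fun T : EE N →L[ℝ] EE N =>
      T (De d e (f.symm x) (mfderiv (𝓡 d) (𝓡 d) f.symm x v))) (S.A'A (h (f.symm x)))
    exact h4.trans (hP _ _)
  have hEs : ∀ x v, v ∈ Es d f x ↔ De d e x v ∈ S.Es (h x) :=
    E05_Es_iff S.toCoc e h hg hP hSf hSA hc
  have hEu : ∀ x v, v ∈ Es d f.symm x ↔ De d e x v ∈ S.Eu (h x) :=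
    E05_Es_iff S.toCoc.symm e h hg' hP hsf hsA hc
  have hmemT : ∀ k w, S.P k w = w → w ∈ S.T k := fun k w hw => ⟨w, hw⟩
  have hfs : ∀ x, S.Es (h x) = (Es d f x).map (De d e x).toLinearMap := by
    intro x
    ext w
    constructor
    · intro hw
      obtain ⟨v, rfl⟩ := hT2 x w (hmemT _ _ hw.1)
      exact ⟨v, (hEs x v).2 hw, rfl⟩
    · rintro ⟨v, hv, rfl⟩
      exact (hEs x v).1 hv
  have hfu : ∀ x, S.Eu (h x) = (Es d f.symm x).map (De d e x).toLinearMap := by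
    intro x
    ext w
    constructor
    · intro hw
      obtain ⟨v, rfl⟩ := hT2 x w (hmemT _ _ hw.1)
      exact ⟨v, (hEu x v).2 hw, rfl⟩
    · rintro ⟨v, hv, rfl⟩
      exact (hEu x v).1 hv
  -- the nonwandering set
  let F : M ≃ₜ M := f.toHomeomorph
  have hNWmap : ∀ x ∈ NW f, f x ∈ NW f := fun x hx => E05_NW_map F hx
  have hNWmap' : ∀ x ∈ NW f, f.symm x ∈ NW f := fun x hx => E05_NW_map' F hx
  obtain ⟨⟨V, W, c', lam, hl0, hl1, hyp⟩, hper⟩ := hA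
  have hH : E05_Hyp f f.symm (NW f) V W c' lam := hyp
  have hH' : E05_Hyp f.symm f (NW f) W V c' lam := hH.symm hg hg' hl hr hNWmap'
  have hV : ∀ x ∈ NW f, Es d f x = V x := fun x hx => hH.eq hg hg' hl hNWmap hl0 hl1 hx
  have hW : ∀ x ∈ NW f, Es d f.symm x = W x := fun x hx => hH'.eq hg' hg hr hNWmap' hl0 hl1 hx
  have hfw : ∀ (n : ℕ) (x : M), fw S.f n (h x) = h (f^[n] x) := by
    intro n
    induction n with
    | zero => intro x; rfl
    | succ n ih => intro x; rw [fw_succ, hSf, ih, Function.iterate_succ_apply]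
  have hbk : ∀ (n : ℕ) (x : M), bk S.f n (h x) = h (f.symm^[n] x) := by
    intro n
    induction n with
    | zero => intro x; rfl
    | succ n ih =>
      intro x
      have h1 : S.f.symm (h x) = h (f.symm x) := hsf x
      rw [bk_succ, h1, ih, Function.iterate_succ_apply]
  refine ⟨N, e, K, i1, i2, { S with
    Om := h '' NW f
    Om_closed := ?_
    Om_inv := ?_
    Om_fw := ?_
    Om_bk := ?_
    Om_per := ?_
    hyp := ?_
    split := ?_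
    wand := ?_ }, h, he, hemb, hinj, hSe, hSf, hSA, hEs, hEu, ?_, ?_, ?_, rfl, hSP,
      hT1, ?_⟩
  · exact h.isClosedMap _ (E05_NW_closed f)
  · intro k
    obtain ⟨x, rfl⟩ := h.surjective k
    rw [hSf, h.injective.mem_set_image, h.injective.mem_set_image]
    constructor
    · intro hx
      have := hNWmap' _ hx
      rwa [f.symm_apply_apply] at this
    · exact hNWmap x
  · intro k y hy
    obtain ⟨x, rfl⟩ := h.surjective k
    obtain ⟨z, rfl⟩ := h.surjective y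
    refine ⟨z, fun U hU => ?_, rfl⟩
    have hU' : h '' U ∈ 𝓝 (h z) := h.isOpenMap.image_mem_nhds hU
    have hfr := mapClusterPt_iff_frequently.1 hy _ hU'
    obtain ⟨n1, hn1⟩ := hfr.exists
    obtain ⟨n2, hn2, hn2'⟩ := (frequently_atTop.1 hfr) (n1 + 1)
    have e1 : fw S.f n1 (h x) ∈ h '' U := hn1
    have e2 : fw S.f n2 (h x) ∈ h '' U := hn2'
    rw [hfw, h.injective.mem_set_image] at e1 e2
    refine ⟨n2 - n1, by omega, f^[n2] x, ⟨f^[n1] x, e1, ?_⟩, e2⟩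
    rw [← Function.iterate_add_apply]
    congr 2
    omega
  · intro k y hy
    obtain ⟨x, rfl⟩ := h.surjective k
    obtain ⟨z, rfl⟩ := h.surjective y
    refine ⟨z, fun U hU => ?_, rfl⟩
    have hU' : h '' U ∈ 𝓝 (h z) := h.isOpenMap.image_mem_nhds hU
    have hfr := mapClusterPt_iff_frequently.1 hy _ hU'
    obtain ⟨n1, hn1⟩ := hfr.exists
    obtain ⟨n2, hn2, hn2'⟩ := (frequently_atTop.1 hfr) (n1 + 1)
    have e1 : bk S.f n1 (h x) ∈ h '' U := hn1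
    have e2 : bk S.f n2 (h x) ∈ h '' U := hn2'
    rw [hbk, h.injective.mem_set_image] at e1 e2
    refine ⟨n2 - n1, by omega, f.symm^[n1] x, ⟨f.symm^[n2] x, e2, ?_⟩, e1⟩
    have h5 : f.symm^[n2] x = f.symm^[n2 - n1] (f.symm^[n1] x) := by
      rw [← Function.iterate_add_apply]
      congr 2
      omega
    rw [h5]
    exact (hr.iterate (n2 - n1)) _
  · rintro y ⟨x, hx, rfl⟩ ε hε
    have h1 := hper hx
    have h2 : h x ∈ closure (h '' {x | ∃ n > 0, f^[n] x = x}) :=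
      image_closure_subset_closure_image h.continuous ⟨x, h1, rfl⟩
    obtain ⟨b, ⟨q, ⟨n, hn, hq⟩, rfl⟩, hb⟩ := Metric.mem_closure_iff.1 h2 ε hε
    refine ⟨h q, hb, n, hn, ?_⟩
    rw [hfw, hq]
  · refine ⟨c * |c'| * c, lam, hl0, hl1, ?_⟩
    rintro k ⟨x, hx, rfl⟩
    constructor
    · intro w hw n
      obtain ⟨v, rfl⟩ := hT2 x w (hmemT _ _ hw.1)
      have hv : v ∈ V x := by rw [← hV x hx]; exact (hEs x v).2 hw
      exact E05_decay S.toCoc e h hg hP hSf hSA hc0 hc hl0 ((hH x hx).2.2.2.1 v hv n)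
    · intro w hw n
      obtain ⟨v, rfl⟩ := hT2 x w (hmemT _ _ hw.1)
      have hv : v ∈ W x := by rw [← hW x hx]; exact (hEu x v).2 hw
      exact E05_decay S.toCoc.symm e h hg' hP hsf hsA hc0 hc hl0 ((hH x hx).2.2.2.2 v hv n)
  · rintro k ⟨x, hx, rfl⟩
    have hcmp := (hH x hx).1
    rw [← hV x hx, ← hW x hx] at hcmp
    constructor
    · apply le_antisymm
      · refine sup_le ?_ ?_
        · intro w hw; exact hmemT _ _ hw.1
        · intro w hw; exact hmemT _ _ hw.1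
      · intro w hw
        obtain ⟨v, rfl⟩ := hT2 x w hw
        have hv : v ∈ Es d f x ⊔ Es d f.symm x := by rw [hcmp.sup_eq_top]; trivial
        obtain ⟨v1, hv1, v2, hv2, rfl⟩ := Submodule.mem_sup.1 hv
        rw [map_add]
        exact Submodule.add_mem_sup ((hEs x v1).1 hv1) ((hEu x v2).1 hv2)
    · rw [Submodule.disjoint_def]
      intro w hw hw'
      obtain ⟨v, rfl⟩ := hT2 x w (hmemT _ _ hw.1)
      have h1 := (hEs x v).2 hw
      have h2 := (hEu x v).2 hw'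
      rw [(Submodule.disjoint_def.1 hcmp.disjoint) v h1 h2, map_zero]
  · intro k hk
    obtain ⟨x, rfl⟩ := h.surjective k
    have hx : x ∉ NW f := fun hx => hk ⟨x, hx, rfl⟩
    have hx' : ∃ U ∈ 𝓝 x, ∀ n > 0, ¬ (f^[n] '' U ∩ U).Nonempty := by
      by_contra hcon
      push Not at hcon
      exact hx fun U hU => hcon U hU
    obtain ⟨U, hU, hUn⟩ := hx'
    have hU' : h '' U ∈ 𝓝 (h x) := h.isOpenMap.image_mem_nhds hU
    obtain ⟨ε, hε, hball⟩ := Metric.mem_nhds_iff.1 hU'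
    refine ⟨ε, hε, fun n hn y hy => ?_⟩
    by_contra hlt
    push Not at hlt
    obtain ⟨z, rfl⟩ := h.surjective y
    have h1 : h z ∈ h '' U := hball (by rw [Metric.mem_ball, dist_comm]; exact hy)
    have h2 : fw S.f n (h z) ∈ h '' U := hball (by rw [Metric.mem_ball, dist_comm]; exact hlt)
    rw [hfw, h.injective.mem_set_image] at h2
    rw [h.injective.mem_set_image] at h1
    exact hUn n hn ⟨f^[n] z, ⟨z, h1, rfl⟩, h2⟩
  · intro x
    change _ = finrank ℝ (S.Eu (h x))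
    rw [hfu x]
    exact LinearEquiv.finrank_eq (Submodule.equivMapOfInjective _ (hinj x) _)
  · intro x
    change _ = finrank ℝ (S.Es (h x))
    rw [hfs x]
    exact LinearEquiv.finrank_eq (Submodule.equivMapOfInjective _ (hinj x) _)
  · intro x hTx w hw
    obtain ⟨v, rfl⟩ := hT2 x w hw
    have hv : v ∈ Es d f x ⊔ Es d f.symm x := by rw [hTx]; trivial
    obtain ⟨v1, hv1, v2, hv2, rfl⟩ := Submodule.mem_sup.1 hv
    rw [map_add]
    exact Submodule.add_mem_sup ((hEs x v1).1 hv1) ((hEu x v2).1 hv2)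
  · intro x hTx
    rw [eq_top_iff]
    intro v _
    have h1 : De d e x v ∈ S.Es (h x) ⊔ S.Eu (h x) := hTx (hT1 x v)
    rw [hfs x, hfu x, ← Submodule.map_sup] at h1
    obtain ⟨w, hw, hwv⟩ := h1
    have h2 : w = v := hinj x hwv
    rw [← h2]
    exact hw

/-- E05: Axiom A in the embedded picture. -/
theorem exists_bsys (f : M ≃ₘ^1⟮𝓡 d, 𝓡 d⟯ M) (hA : AxiomA f) :
    ∃ (N : ℕ) (e : M → EE N)
    (K : Type) (_ : MetricSpace K) (_ : CompactSpace K) (S : BSys d N K) (h : M ≃ₜ K),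
    ContMDiff (𝓡 d) 𝓘(ℝ, EE N) ∞ e ∧ Topology.IsClosedEmbedding e ∧
    (∀ x, Function.Injective (De d e x)) ∧
    (∀ x, S.e (h x) = e x) ∧ (∀ x, S.f (h x) = h (f x)) ∧
    (∀ x v, S.A (h x) (De d e x v) = De d e (f x) (mfderiv (𝓡 d) (𝓡 d) f x v)) ∧
    (∀ x v, v ∈ Es d f x ↔ De d e x v ∈ S.Es (h x)) ∧
    (∀ x v, v ∈ Es d f.symm x ↔ De d e x v ∈ S.Eu (h x)) ∧
    (∀ x, finrank ℝ (Es d f.symm x) = finrank ℝ (S.Eu (h x))) ∧
    (∀ x, finrank ℝ (Es d f x) = finrank ℝ (S.Es (h x))) ∧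
    (∀ x, Es d f x ⊔ Es d f.symm x = ⊤ → S.T (h x) ≤ S.Es (h x) ⊔ S.Eu (h x)) ∧
    S.Om = h '' NW f := by
  obtain ⟨N, e, K, i1, i2, S, h, h1, h2, h3, h4, h5, h6, h7, h8, h9, h10, h11, h12, -⟩ :=
    exists_bsys2 f hA
  exact ⟨N, e, K, i1, i2, S, h, h1, h2, h3, h4, h5, h6, h7, h8, h9, h10, h11, h12⟩

end Main

end Pool.MP85
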