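import Pool.Agent.Lib.MP_85e637_an.Abs
import Pool.Agent.Lib.MP_85e637_an.AbsC
import Pool.Agent.Lib.MP_85e637_an.A01
import Pool.Agent.Lib.MP_85e637_an.C01
import Pool.Agent.Lib.MP_85e637_an.C13
import Pool.Agent.Lib.MP_85e637_an.D02a

/-!
# E07: from a unit section over the attractor to the index condition
-/

open Filter Topology Set Metric Module

namespace Pool.MP85

namespace GAtt
variable {d N : ℕ} {K : Type} [MetricSpace K] [CompactSpace K] (S : GAtt d N K)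

theorem E07_An_Es {x : K} {v : EE N} (hv : v ∈ S.Es x) (n : ℕ) :
    S.An n x v ∈ S.Es (fw S.f n x) := by
  induction n with
  | zero =>
    have h1 : S.P x v = v := S.toCoc.mem_T.1 (S.toCoc.Es_le x hv)
    show S.P x v ∈ S.Es x
    rw [h1]
    exact hv
  | succ n ih =>
    rw [S.toCoc.An_succ', fw_succ']
    exact (S.toCoc.Es_map (S.toCoc.Es_le _ ih)).2 ih

theorem E07_An_ne {x : K} {v : EE N} (hv : v ∈ S.Es x) (hv0 : v ≠ 0) (n : ℕ) :
    S.An n x v ≠ 0 := by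
  intro h
  have h1 := S.toCoc.symm_An_An n (S.toCoc.Es_le x hv)
  have h2 : S.toCoc.An n x v = 0 := h
  rw [h2, map_zero] at h1
  exact hv0 h1.symm

theorem E07_B_fw {x : K} (hx : x ∈ S.B) (n : ℕ) : fw S.f n x ∈ S.B := by
  induction n with
  | zero => exact hx
  | succ n ih => rw [fw_succ']; exact S.B_f.2 ih

theorem E07_L_fw {x : K} (hx : x ∈ S.L) (n : ℕ) : fw S.f n x ∈ S.L := by
  induction n with
  | zero => exact hx
  | succ n ih => rw [fw_succ']; exact (S.L_inv _).2 ih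

theorem E07_wu_L {x y : K} (hx : x ∈ S.L) (hy : y ∈ WU S.f x) : y ∈ S.L := by
  apply S.repL
  refine squeeze_zero (fun _ => infDist_nonneg) (fun n => ?_) hy
  have hb : bk S.f n x ∈ S.L := by
    induction n with
    | zero => exact hx
    | succ n ih =>
      rw [bk_succ']
      refine (S.L_inv _).1 ?_
      rw [Homeomorph.apply_symm_apply]
      exact ih
  rw [dist_comm]
  exact infDist_le_dist_of_mem hb

theorem E07_ws_B {x y : K} (hx : x ∈ S.L) (hy : y ∈ WS S.f x) : y ∈ S.B := by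
  refine squeeze_zero (fun _ => infDist_nonneg) (fun n => ?_) hy
  rw [dist_comm]
  exact infDist_le_dist_of_mem (S.E07_L_fw hx n)

/-- the stable lines over `L` are one-dimensional -/
theorem E07_line {y : K} (hy : y ∈ S.L) {v u : EE N} (hv : v ∈ S.Es y) (hu : u ∈ S.Es y)
    (hu0 : u ≠ 0) : ∃ a : ℝ, v = a • u := by
  have h1 : finrank ℝ (S.Es y) = 1 := (S.L_H hy).2.1
  have hne : (⟨u, hu⟩ : S.Es y) ≠ 0 := fun h => hu0 (congrArg Subtype.val h)
  obtain ⟨a, ha⟩ := (finrank_eq_one_iff_of_nonzero' (⟨u, hu⟩ : S.Es y) hne).1 h1 ⟨v, hv⟩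
  exact ⟨a, (congrArg Subtype.val ha).symm⟩

/-- signs near the attractor are well defined -/
theorem E07_sign {w : K → EE N} (hw : ContinuousOn w S.L)
    (hw' : ∀ x ∈ S.L, w x ∈ S.Es x ∧ ‖w x‖ = 1) : ∃ δ > 0, ∀ z ∈ S.B, ∀ v ∈ S.Es z, v ≠ 0 →
      ∀ y ∈ S.L, ∀ y' ∈ S.L, dist z y < δ → dist z y' < δ →
        0 < inner ℝ v (w y) * inner ℝ v (w y') := by
  by_contra hcon
  push Not at hcon
  choose z hzB v hv hv0 y hyL y' hyL' hzy hzy' hno using
    fun n : ℕ => hcon (1 / ((n : ℝ) + 1)) (by positivity)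
  -- normalise
  set u : ℕ → EE N := fun n => (‖v n‖)⁻¹ • v n with hu
  have hvn : ∀ n, 0 < ‖v n‖ := fun n => norm_pos_iff.2 (hv0 n)
  have hu1 : ∀ n, ‖u n‖ = 1 := fun n => by
    rw [hu]
    simp only [norm_smul, norm_inv, norm_norm]
    exact inv_mul_cancel₀ (hvn n).ne'
  have huE : ∀ n, u n ∈ S.Es (z n) := fun n => Submodule.smul_mem _ _ (hv n)
  have huno : ∀ n, inner ℝ (u n) (w (y n)) * inner ℝ (u n) (w (y' n)) ≤ 0 := fun n => by
    have h1 := hno n
    have h2 : inner ℝ (u n) (w (y n)) * inner ℝ (u n) (w (y' n)) =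
        (‖v n‖)⁻¹ ^ 2 * (inner ℝ (v n) (w (y n)) * inner ℝ (v n) (w (y' n))) := by
      rw [hu]
      simp only [real_inner_smul_left]
      ring
    rw [h2]
    exact mul_nonpos_of_nonneg_of_nonpos (by positivity) h1
  -- subsequences
  have hcomp : IsCompact (S.L ×ˢ sphere (0 : EE N) 1) := S.L_cpt.prod (isCompact_sphere _ _)
  obtain ⟨⟨y0, u0⟩, ⟨hy0, hu0⟩, φ, hφ, hlim⟩ := hcomp.tendsto_subseq
    (x := fun n => (y n, u n)) (fun n => ⟨hyL n, by simp [hu1 n]⟩)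
  have hyl : Tendsto (fun n => y (φ n)) atTop (𝓝 y0) :=
    (continuous_fst.tendsto _).comp hlim
  have hul : Tendsto (fun n => u (φ n)) atTop (𝓝 u0) :=
    (continuous_snd.tendsto _).comp hlim
  have hsmall : Tendsto (fun n : ℕ => 1 / (((φ n : ℕ) : ℝ) + 1)) atTop (𝓝 0) :=
    tendsto_one_div_add_atTop_nhds_zero_nat.comp hφ.tendsto_atTop
  have hzl : Tendsto (fun n => z (φ n)) atTop (𝓝 y0) := by
    refine tendsto_of_tendsto_of_dist hyl ?_
    refine squeeze_zero (fun _ => dist_nonneg) (fun n => ?_) hsmall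
    rw [dist_comm]
    exact (hzy (φ n)).le
  have hyl' : Tendsto (fun n => y' (φ n)) atTop (𝓝 y0) := by
    refine tendsto_of_tendsto_of_dist hzl ?_
    exact squeeze_zero (fun _ => dist_nonneg) (fun n => (hzy' (φ n)).le) hsmall
  have hu0E : u0 ∈ S.Es y0 :=
    S.closed_Es1 (fun n => S.B_S1 (hzB (φ n))) (S.B_S1 (S.L_B hy0)) hzl
      (fun n => huE (φ n)) hul
  have hwy : Tendsto (fun n => w (y (φ n))) atTop (𝓝 (w y0)) :=
    (hw y0 hy0).tendsto.comp (tendsto_nhdsWithin_iff.2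
      ⟨hyl, Eventually.of_forall fun n => hyL (φ n)⟩)
  have hwy' : Tendsto (fun n => w (y' (φ n))) atTop (𝓝 (w y0)) :=
    (hw y0 hy0).tendsto.comp (tendsto_nhdsWithin_iff.2
      ⟨hyl', Eventually.of_forall fun n => hyL' (φ n)⟩)
  have hprod : Tendsto (fun n => (inner ℝ (u (φ n)) (w (y (φ n))) : ℝ) *
      inner ℝ (u (φ n)) (w (y' (φ n)))) atTop (𝓝 (inner ℝ u0 (w y0) * inner ℝ u0 (w y0))) :=
    (hul.inner hwy).mul (hul.inner hwy')
  have hle : (inner ℝ u0 (w y0) : ℝ) * inner ℝ u0 (w y0) ≤ 0 :=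
    le_of_tendsto hprod (Eventually.of_forall fun n => huno (φ n))
  obtain ⟨hwE, hw1⟩ := hw' y0 hy0
  have hwne : w y0 ≠ 0 := by
    intro h
    rw [h, norm_zero] at hw1
    exact zero_ne_one hw1
  obtain ⟨a, ha⟩ := S.E07_line hy0 hu0E hwE hwne
  have hun : ‖u0‖ = 1 := by simpa using hu0
  have h3 : (inner ℝ u0 (w y0) : ℝ) = a := by
    rw [ha, real_inner_smul_left, real_inner_self_eq_norm_sq, hw1]
    ring
  have h4 : |a| = 1 := by
    have h5 : ‖u0‖ = |a| * ‖w y0‖ := by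
      conv_lhs => rw [ha]
      rw [norm_smul, Real.norm_eq_abs]
    rw [hun, hw1, mul_one] at h5
    exact h5.symm
  rw [h3] at hle
  have h6 : a * a = 1 := by
    have h7 : |a| * |a| = 1 := by rw [h4]; ring
    rwa [abs_mul_abs_self] at h7
  linarith

/-- the sign is constant along a curve near the attractor -/
theorem E07_path {w : K → EE N} {δ : ℝ} (hδ : 0 < δ) (hsign : ∀ z ∈ S.B, ∀ v ∈ S.Es z, v ≠ 0 →
      ∀ y ∈ S.L, ∀ y' ∈ S.L, dist z y < δ → dist z y' < δ →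
        0 < inner ℝ v (w y) * inner ℝ v (w y')) {z : unitInterval → K}
    {v : unitInterval → EE N} (hz : Continuous z) (hv : Continuous v) (hzB : ∀ t, z t ∈ S.B)
    (hvE : ∀ t, v t ∈ S.Es (z t)) (hv0 : ∀ t, v t ≠ 0) (hnear : ∀ t, ∃ y ∈ S.L, dist (z t) y < δ)
    (h0 : z 0 ∈ S.L) (h1 : z 1 ∈ S.L) :
    0 < inner ℝ (v 0) (w (z 0)) * inner ℝ (v 1) (w (z 1)) := by
  let P : Set unitInterval := {t | ∃ y ∈ S.L, dist (z t) y < δ ∧ 0 < inner ℝ (v t) (w y)}
  let Q : Set unitInterval := {t | ∃ y ∈ S.L, dist (z t) y < δ ∧ inner ℝ (v t) (w y) < 0}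
  have hP : IsOpen P := by
    have : P = ⋃ y ∈ S.L, {t | dist (z t) y < δ ∧ 0 < inner ℝ (v t) (w y)} := by
      ext t
      simp only [P, mem_ofPred_eq, mem_iUnion, exists_prop]
    rw [this]
    refine isOpen_biUnion fun y _ => ?_
    have e1 : IsOpen {t | dist (z t) y < δ} := isOpen_lt (hz.dist continuous_const) continuous_const
    have e2 : IsOpen {t | (0:ℝ) < inner ℝ (v t) (w y)} :=
      isOpen_lt continuous_const (hv.inner continuous_const)
    exact e1.inter e2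
  have hQ : IsOpen Q := by
    have : Q = ⋃ y ∈ S.L, {t | dist (z t) y < δ ∧ inner ℝ (v t) (w y) < 0} := by
      ext t
      simp only [Q, mem_ofPred_eq, mem_iUnion, exists_prop]
    rw [this]
    refine isOpen_biUnion fun y _ => ?_
    have e1 : IsOpen {t | dist (z t) y < δ} := isOpen_lt (hz.dist continuous_const) continuous_const
    have e2 : IsOpen {t | inner ℝ (v t) (w y) < (0:ℝ)} :=
      isOpen_lt (hv.inner continuous_const) continuous_const
    exact e1.inter e2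
  have hcov : ∀ t, t ∈ P ∨ t ∈ Q := by
    intro t
    obtain ⟨y, hy, hd⟩ := hnear t
    have h2 := hsign _ (hzB t) _ (hvE t) (hv0 t) y hy y hy hd hd
    have hne : (inner ℝ (v t) (w y) : ℝ) ≠ 0 := by
      intro h
      rw [h, mul_zero] at h2
      exact lt_irrefl _ h2
    rcases lt_or_gt_of_ne hne with h | h
    · exact Or.inr ⟨y, hy, hd, h⟩
    · exact Or.inl ⟨y, hy, hd, h⟩
  have hdisj : ∀ t, t ∈ P → t ∈ Q → False := by
    rintro t ⟨y, hy, hd, hpos⟩ ⟨y', hy', hd', hneg⟩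
    have h2 := hsign _ (hzB t) _ (hvE t) (hv0 t) y hy y' hy' hd hd'
    exact absurd h2 (not_lt.2 (mul_nonpos_of_nonneg_of_nonpos hpos.le hneg.le))
  have hends : ∀ t, z t ∈ S.L → (t ∈ P → 0 < (inner ℝ (v t) (w (z t)) : ℝ)) ∧
      (t ∈ Q → (inner ℝ (v t) (w (z t)) : ℝ) < 0) := by
    intro t ht
    have hd0 : dist (z t) (z t) < δ := by rw [dist_self]; exact hδ
    constructor
    · rintro ⟨y, hy, hd, hpos⟩
      have h2 := hsign _ (hzB t) _ (hvE t) (hv0 t) y hy _ ht hd hd0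
      exact (mul_pos_iff_of_pos_left hpos).1 h2
    · rintro ⟨y, hy, hd, hneg⟩
      have h2 := hsign _ (hzB t) _ (hvE t) (hv0 t) y hy _ ht hd hd0
      exact (neg_iff_neg_of_mul_pos h2).1 hneg
  have hPc : IsClosed P := by
    have : P = Qᶜ := by
      ext t
      constructor
      · exact fun h h' => hdisj t h h'
      · intro h
        rcases hcov t with h' | h'
        · exact h'
        · exact absurd h' h
    rw [this]
    exact hQ.isClosed_compl
  rcases isClopen_iff.1 ⟨hPc, hP⟩ with h | h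
  · have hQ0 : ∀ t, t ∈ Q := fun t => (hcov t).resolve_left (by rw [h]; exact notMem_empty t)
    exact mul_pos_of_neg_of_neg ((hends 0 h0).2 (hQ0 0)) ((hends 1 h1).2 (hQ0 1))
  · have hP0 : ∀ t, t ∈ P := fun t => by rw [h]; exact mem_univ t
    exact mul_pos ((hends 0 h0).1 (hP0 0)) ((hends 1 h1).1 (hP0 1))

end GAtt

/-- E07: from a unit section over `L` to the index condition, embedded picture. -/
theorem GAtt.index {d N : ℕ} {K : Type} [MetricSpace K] [CompactSpace K] (S : GAtt d N K)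
    {w : K → EE N} (hw : ContinuousOn w S.L) (hw' : ∀ x ∈ S.L, w x ∈ S.Es x ∧ ‖w x‖ = 1)
    (cu cs : C(unitInterval, K × EE N)) (h0 : (cu 0).1 ∈ S.L) (h1 : cu 0 = cs 0)
    (h2 : (cu 1).1 = (cs 1).1)
    (hu : ∀ t, (cu t).1 ∈ WU S.f (cu 0).1 ∧ (cu t).2 ∈ S.Es (cu t).1 ∧ (cu t).2 ≠ 0)
    (hs : ∀ t, (cs t).1 ∈ WS S.f (cu 0).1 ∧ (cs t).2 ∈ S.Es (cs t).1 ∧ (cs t).2 ≠ 0) :
    ∃ a : ℝ, 0 < a ∧ (cu 1).2 = a • (cs 1).2 := by
  obtain ⟨δ, hδ, hsign⟩ := S.E07_sign hw hw'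
  have huL : ∀ t, (cu t).1 ∈ S.L := fun t => S.E07_wu_L h0 (hu t).1
  have hsB : ∀ t, (cs t).1 ∈ S.B := fun t => S.E07_ws_B h0 (hs t).1
  have hcs1 : (cs 1).1 ∈ S.L := h2 ▸ huL 1
  have hcs0 : (cs 0).1 ∈ S.L := by rw [← h1]; exact h0
  -- choose `n`
  have hcont : Continuous fun t => (cs t).1 := continuous_fst.comp cs.continuous
  obtain ⟨n, hn⟩ := S.attrK (range fun t => (cs t).1) (by
    rintro _ ⟨t, rfl⟩
    exact hsB t) (isCompact_range hcont) δ hδ
  have hnear : ∀ t, ∃ y ∈ S.L, dist (fw S.f n (cs t).1) y < δ := by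
    intro t
    exact (infDist_lt_iff S.L_ne).1 (hn n le_rfl _ ⟨t, rfl⟩)
  have hAcont : Continuous (S.An n) := S.toCoc.continuous_An n
  have hfwc : Continuous (fw S.f n) := continuous_fw n
  have key : ∀ c : C(unitInterval, K × EE N), (∀ t, (c t).1 ∈ S.B) →
      (∀ t, (c t).2 ∈ S.Es (c t).1) → (∀ t, (c t).2 ≠ 0) →
      (∀ t, ∃ y ∈ S.L, dist (fw S.f n (c t).1) y < δ) → (c 0).1 ∈ S.L → (c 1).1 ∈ S.L →
      0 < inner ℝ (S.An n (c 0).1 (c 0).2) (w (fw S.f n (c 0).1)) *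
        inner ℝ (S.An n (c 1).1 (c 1).2) (w (fw S.f n (c 1).1)) := by
    intro c hcB hcE hc0 hcn hc0L hc1L
    refine S.E07_path hδ hsign (z := fun t => fw S.f n (c t).1)
      (v := fun t => S.An n (c t).1 (c t).2) ?_ ?_ ?_ ?_ ?_ hcn (S.E07_L_fw hc0L n)
      (S.E07_L_fw hc1L n)
    · exact hfwc.comp (continuous_fst.comp c.continuous)
    · exact (hAcont.comp (continuous_fst.comp c.continuous)).clm_apply
        (continuous_snd.comp c.continuous)
    · exact fun t => S.E07_B_fw (hcB t) n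
    · exact fun t => S.E07_An_Es (hcE t) n
    · exact fun t => S.E07_An_ne (hcE t) (hc0 t) n
  have hku := key cu (fun t => S.L_B (huL t)) (fun t => (hu t).2.1) (fun t => (hu t).2.2)
    (fun t => ⟨_, S.E07_L_fw (huL t) n, by rw [dist_self]; exact hδ⟩) (huL 0) (huL 1)
  have hks := key cs hsB (fun t => (hs t).2.1) (fun t => (hs t).2.2) hnear hcs0 hcs1
  obtain ⟨a, ha⟩ := S.E07_line (huL 1) (hu 1).2.1 (u := (cs 1).2) (by
    rw [h2]
    exact (hs 1).2.1) (hs 1).2.2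
  refine ⟨a, ?_, ha⟩
  rw [ha, h2, map_smul, real_inner_smul_left, h1] at hku
  set X : ℝ := inner ℝ (S.An n (cs 0).1 (cs 0).2) (w (fw S.f n (cs 0).1)) with hX
  set Y : ℝ := inner ℝ (S.An n (cs 1).1 (cs 1).2) (w (fw S.f n (cs 1).1)) with hY
  have h5 : 0 < a * (X * Y) := by
    calc 0 < X * (a * Y) := hku
      _ = a * (X * Y) := by ring
  exact (pos_iff_pos_of_mul_pos h5).2 hks

end Pool.MP85
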