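import Pool.Agent.Lib.MP_85e637_an.Stmt
import Pool.Agent.Lib.MP_85e637_an.E03
import Pool.Agent.Lib.MP_85e637_an.E05
import Pool.Agent.Lib.MP_85e637_an.E07
import Pool.Agent.Lib.MP_85e637_an.C08b
import Pool.Agent.Lib.MP_85e637_an.C18
import Pool.Agent.Lib.MP_85e637_an.D11

/-!
# E08: the main theorem (replace the import of SkelE by Stmt, the file with De, E03a, E05, E07, C08b, C18 and exists_section)
-/

open scoped Manifold ContDiff Topology Bundle
open Filter Set Metric Module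

noncomputable section

namespace Pool.MP85

section E08aux

theorem e08_fw_semiconj {M K : Type} [MetricSpace K] {F : K ≃ₜ K} {h : M → K} {f : M → M}
    (hf : ∀ x, F (h x) = h (f x)) (n : ℕ) (x : M) : fw F n (h x) = h (f^[n] x) := by
  induction n generalizing x with
  | zero => rfl
  | succ n ih => rw [fw_succ, hf, ih, Function.iterate_succ_apply]

theorem e08_bk_semiconj {M K : Type} [MetricSpace K] {F : K ≃ₜ K} {h : M → K} {f g : M → M}
    (hf : ∀ x, F (h x) = h (f x)) (hfg : ∀ x, f (g x) = x) (n : ℕ) (x : M) :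
    bk F n (h x) = h (g^[n] x) := by
  have h1 : ∀ x, F.symm (h x) = h (g x) := fun x => by
    rw [Homeomorph.symm_apply_eq, hf, hfg]
  induction n generalizing x with
  | zero => rfl
  | succ n ih => rw [bk_succ, h1, ih, Function.iterate_succ_apply]

theorem e08_fw_pow {Z : Type} [MetricSpace Z] {F G : Z ≃ₜ Z} {k : ℕ}
    (hG : ∀ x, G x = fw F k x) (n : ℕ) (x : Z) : fw G n x = fw F (n * k) x := by
  have hadd : ∀ (m : ℕ) (x : Z), fw F (m + k) x = fw F m (fw F k x) := fun m x => by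
    unfold fw
    exact Function.iterate_add_apply _ _ _ _
  induction n generalizing x with
  | zero => rw [zero_mul]; rfl
  | succ n ih => rw [fw_succ, ih, hG, add_mul, one_mul, hadd]

theorem e08_bk_pow {Z : Type} [MetricSpace Z] {F G : Z ≃ₜ Z} {k : ℕ}
    (hG : ∀ x, G x = fw F k x) (n : ℕ) (x : Z) : bk G n x = bk F (n * k) x := by
  have hadd : ∀ (m : ℕ) (x : Z), bk F (m + k) x = bk F m (bk F k x) := fun m x => by
    unfold bk
    exact Function.iterate_add_apply _ _ _ _
  have hfb : ∀ (m : ℕ) (x : Z), fw F m (bk F m x) = x := fun m x => by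
    have h1 : Function.LeftInverse F F.symm := F.apply_symm_apply
    exact (h1.iterate m) x
  have hs : ∀ x, G.symm x = bk F k x := fun x => by
    rw [Homeomorph.symm_apply_eq, hG, hfb]
  induction n generalizing x with
  | zero => rw [zero_mul]; rfl
  | succ n ih => rw [bk_succ, ih, hs, add_mul, one_mul, hadd]

theorem e08_tendsto {M K : Type} [MetricSpace M] [MetricSpace K] [CompactSpace M] (h : M ≃ₜ K)
    {u v : ℕ → M} (huv : Tendsto (fun n => dist (u n) (v n)) atTop (𝓝 0)) {k : ℕ} (hk : 0 < k) :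
    Tendsto (fun n => dist (h (u (n * k))) (h (v (n * k)))) atTop (𝓝 0) := by
  have huc : UniformContinuous h := CompactSpace.uniformContinuous_of_continuous h.continuous
  have h2 : Tendsto (fun n : ℕ => n * k) atTop atTop := tendsto_id.atTop_mul_const' hk
  rw [Metric.tendsto_atTop] at huv ⊢
  intro ε hε
  obtain ⟨δ, hδ, h3⟩ := Metric.uniformContinuous_iff.1 huc ε hε
  obtain ⟨n0, hn0⟩ := huv δ hδ
  refine ⟨n0, fun n hn => ?_⟩
  have h4 : n0 ≤ n * k := hn.trans (Nat.le_mul_of_pos_right n hk)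
  have h5 := hn0 (n * k) h4
  rw [Real.dist_0_eq_abs, abs_of_nonneg dist_nonneg] at h5 ⊢
  exact h3 h5

theorem e08_infDist {M K : Type} [MetricSpace M] [MetricSpace K] [CompactSpace M] (h : M ≃ₜ K)
    {Λ : Set M} (hne : Λ.Nonempty) {u : ℕ → M}
    (hu : Tendsto (fun n => infDist (u n) Λ) atTop (𝓝 0)) :
    Tendsto (fun n => infDist (h (u n)) (h '' Λ)) atTop (𝓝 0) := by
  have huc : UniformContinuous h := CompactSpace.uniformContinuous_of_continuous h.continuous
  rw [Metric.tendsto_atTop] at hu ⊢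
  intro ε hε
  obtain ⟨δ, hδ, h3⟩ := Metric.uniformContinuous_iff.1 huc ε hε
  obtain ⟨n0, hn0⟩ := hu δ hδ
  refine ⟨n0, fun n hn => ?_⟩
  have h5 := hn0 n hn
  rw [Real.dist_0_eq_abs, abs_of_nonneg infDist_nonneg] at h5 ⊢
  obtain ⟨y, hy, hd⟩ := (infDist_lt_iff hne).1 h5
  exact (infDist_le_dist_of_mem (mem_image_of_mem h hy)).trans_lt (h3 hd)

end E08aux

/-- E08: strong transversality is needed only on the closure of the basin -/
theorem main_thm_R {d : ℕ} (hd : 4 ≤ d) {M : Type} [MetricSpace M] [CompactSpace M]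
    [ChartedSpace (EuclideanSpace ℝ (Fin d)) M] [IsManifold (𝓡 d) ∞ M]
    [Bundle.RiemannianBundle (fun x : M => TangentSpace (𝓡 d) x)]
    [IsContinuousRiemannianBundle (EuclideanSpace ℝ (Fin d)) (fun x : M => TangentSpace (𝓡 d) x)]
    (f : M ≃ₘ^1⟮𝓡 d, 𝓡 d⟯ M) (hA : AxiomA f) {Λ : Set M}
    (hT : ∀ x ∈ closure {x | Tendsto (fun n => infDist (f^[n] x) Λ) atTop (𝓝 0)},
      Es d f x ⊔ Es d f.symm x = ⊤)
    (hΛ : IsBasicSet f Λ) (ha : IsAttractor f Λ)
    (hc : ∀ x ∈ Λ, finrank ℝ (Es d f.symm x) + 1 = d) : Orientable f Λ := by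
  obtain ⟨N, e, K, iK1, iK2, S, h, he, hemb, hinj, hSe, hSf, hSA, hEs, hEu, hfEu, hfEs, hTr,
    hOm⟩ := exists_bsys f hA
  -- the compact invariant set `closure B ∪ Om`
  have hfw0 : ∀ n x, fw S.f n (h x) = h (f^[n] x) := e08_fw_semiconj hSf
  have hBinv : ∀ x, S.f x ∈ {x | Tendsto (fun n => infDist (fw S.f n x) (h '' Λ)) atTop (𝓝 0)} ↔
      x ∈ {x | Tendsto (fun n => infDist (fw S.f n x) (h '' Λ)) atTop (𝓝 0)} := fun x => by
    have h1 := tendsto_add_atTop_iff_nat (f := fun n => infDist (fw S.f n x) (h '' Λ))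
      (l := 𝓝 0) 1
    rw [mem_ofPred_eq, mem_ofPred_eq, ← h1]
    exact Iff.rfl
  have hBcl : ∀ x, S.f x ∈ closure {x | Tendsto (fun n => infDist (fw S.f n x) (h '' Λ))
      atTop (𝓝 0)} ↔
      x ∈ closure {x | Tendsto (fun n => infDist (fw S.f n x) (h '' Λ)) atTop (𝓝 0)} := fun x => by
    rw [← mem_preimage (f := S.f), S.f.preimage_closure]
    have : S.f ⁻¹' {x | Tendsto (fun n => infDist (fw S.f n x) (h '' Λ)) atTop (𝓝 0)} =
        {x | Tendsto (fun n => infDist (fw S.f n x) (h '' Λ)) atTop (𝓝 0)} := by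
      ext z
      exact hBinv z
    rw [this]
  obtain ⟨k, hk, G, hGf, hGe, hGP, hGA, hGEs, hGEu, hGOm, hGR⟩ := S.exists_gsys
    (R := closure {x | Tendsto (fun n => infDist (fw S.f n x) (h '' Λ)) atTop (𝓝 0)} ∪ S.Om)
    (isClosed_closure.union S.Om_closed)
    (fun x => by rw [mem_union, mem_union, S.Om_inv, hBcl])
    subset_union_right
    (by
      rintro x (hx | hx)
      · obtain ⟨z, rfl⟩ := h.surjective x
        refine hTr z (hT z ?_)
        have h1 : z ∈ h ⁻¹' closure {x | Tendsto (fun n => infDist (fw S.f n x) (h '' Λ))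
          atTop (𝓝 0)} := hx
        rw [h.preimage_closure] at h1
        refine closure_mono ?_ h1
        intro y hy
        have h2 : Tendsto (fun n => infDist (fw S.f n (h y)) (h '' Λ)) atTop (𝓝 0) := hy
        simp only [hfw0] at h2
        have h3 := e08_infDist h.symm (hΛ.nonempty.image h) h2
        rw [← image_comp, Homeomorph.symm_comp_self, image_id] at h3
        simp only [h.symm_apply_apply] at h3
        exact h3
      · exact (S.split x hx).1.ge)
  have hfg : ∀ x, f (f.symm x) = x := fun x => f.apply_symm_apply x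
  have hgf : ∀ x, f.symm (f x) = x := fun x => f.symm_apply_apply x
  intro cu cs hp h01 hq hcu hcs
  obtain ⟨U, hU, hΛU, hfU, hΛU2⟩ := ha
  -- iterates
  have hSfw : ∀ n x, fw S.f n (h x) = h (f^[n] x) := e08_fw_semiconj hSf
  have hSbk : ∀ n x, bk S.f n (h x) = h (f.symm^[n] x) := e08_bk_semiconj hSf hfg
  have hGbk : ∀ n x, bk G.f n (h x) = h (f.symm^[n * k] x) := fun n x => by
    rw [e08_bk_pow hGf, hSbk]
  have hGf' : ∀ x, G.f (h x) = h (f^[k] x) := fun x => by rw [hGf, hSfw]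
  have hclU : ∀ z ∈ closure U, f z ∈ U := fun z hz => hfU ⟨z, hz, rfl⟩
  have hUU : ∀ n z, z ∈ U → f^[n] z ∈ U := by
    intro n
    induction n with
    | zero => exact fun z hz => hz
    | succ n ih =>
      intro z hz
      rw [Function.iterate_succ_apply]
      exact ih _ (hclU z (subset_closure hz))
  have hinvit : ∀ n z, f^[n] (f.symm^[n] z) = z := by
    intro n z
    have h1 : Function.LeftInverse f f.symm := hfg
    exact (h1.iterate n) z
  have hinvit' : ∀ n z, f.symm^[n] (f^[n] z) = z := by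
    intro n z
    have h1 : Function.LeftInverse f.symm f := hgf
    exact (h1.iterate n) z
  have hmemΛ : ∀ z, z ∈ Λ ↔ ∀ n, f.symm^[n] z ∈ U := by
    intro z
    rw [hΛU2, mem_iInter]
    constructor
    · intro h1 n
      obtain ⟨y, hy, rfl⟩ := h1 n
      rw [hinvit']
      exact hy
    · intro h1 n
      exact ⟨_, h1 n, hinvit n z⟩
  have hmemΛ' : ∀ z, z ∈ Λ ↔ ∀ n, f.symm^[n * k] z ∈ U := by
    intro z
    rw [hmemΛ]
    constructor
    · intro h1 n
      exact h1 _
    · intro h1 n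
      have h2 : n ≤ n * k := Nat.le_mul_of_pos_right n hk
      have h3 : f.symm^[n] z = f^[n * k - n] (f.symm^[n * k] z) := by
        have h4 : n * k = (n * k - n) + n := by omega
        conv_rhs => rw [h4, Function.iterate_add_apply]
        rw [Nat.add_sub_cancel, hinvit]
      rw [h3]
      exact hUU _ _ (h1 n)
  -- the attractor for `G`
  have hne : (h '' Λ).Nonempty := hΛ.nonempty.image _
  have hU0 : IsOpen (h '' U) := h.isOpenMap U hU
  have htrap : ∀ x ∈ closure (h '' U), G.f x ∈ h '' U := by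
    intro x hx
    rw [← h.image_closure] at hx
    obtain ⟨z, hz, rfl⟩ := hx
    rw [hGf']
    refine ⟨_, ?_, rfl⟩
    obtain ⟨k', rfl⟩ : ∃ k', k = k' + 1 := ⟨k - 1, by omega⟩
    rw [Function.iterate_succ_apply]
    exact hUU _ _ (hclU z hz)
  have hΛU0 : h '' Λ = {x | ∀ n, bk G.f n x ∈ h '' U} := by
    ext x
    obtain ⟨z, rfl⟩ := h.surjective x
    rw [h.injective.mem_set_image, hmemΛ']
    constructor
    · intro h1 n
      rw [hGbk]
      exact ⟨_, h1 n, rfl⟩
    · intro h1 n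
      have h2 := h1 n
      rw [hGbk, h.injective.mem_set_image] at h2
      exact h2
  have hΛOm : h '' Λ ⊆ G.Om := by
    rw [hGOm, hOm]
    exact image_mono hΛ.sub
  have hH : h '' Λ ⊆ G.H := by
    rintro x ⟨z, hz, rfl⟩
    have h1 : finrank ℝ (G.Eu (h z)) + 1 = d := by
      rw [hGEu, ← hfEu]
      exact hc z hz
    have h2 := G.Om_dim (h z) (hΛOm ⟨z, hz, rfl⟩)
    exact ⟨by rw [hGR, ← hGOm]; exact Or.inr (hΛOm ⟨z, hz, rfl⟩), by omega, h1⟩
  have hΛU1 : h '' Λ = {x | ∀ n, bk S.f n x ∈ h '' U} := by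
    ext x
    obtain ⟨z, rfl⟩ := h.surjective x
    rw [h.injective.mem_set_image, hmemΛ]
    constructor
    · intro h1 n
      rw [hSbk]
      exact ⟨_, h1 n, rfl⟩
    · intro h1 n
      have h2 := h1 n
      rw [hSbk, h.injective.mem_set_image] at h2
      exact h2
  have htrap1 : ∀ x ∈ closure (h '' U), S.f x ∈ h '' U := by
    intro x hx
    rw [← h.image_closure] at hx
    obtain ⟨z, hz, rfl⟩ := hx
    rw [hSf]
    exact ⟨_, hclU z hz, rfl⟩
  have hBR : {x | Tendsto (fun n => infDist (fw G.f n x) (h '' Λ)) atTop (𝓝 0)} ⊆ G.R := by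
    intro x hx
    rw [hGR]
    exact Or.inl (subset_closure (C18_basin_pow S.f G.f k hGf hne hU0 htrap1 hΛU1
      (h.isClosedMap _ hΛ.closed) hx))
  obtain ⟨l, hl, G2, hG2f, hG2e, hG2P, hG2A, hG2Es, hG2Eu, hG2Om, hxL, hLΛ, hcl⟩ :=
    G.exists_gatt hne hU0 htrap hΛU0 hH hΛOm hBR (x := h (cu 0).proj) ⟨_, hp, rfl⟩
  obtain ⟨w, hw, hw'⟩ := G2.exists_section hd
  -- the curves
  have hE := tb_embedding he hemb hinj
  have hcont : ∀ c : C(unitInterval, TangentBundle (𝓡 d) M),
      Continuous fun t => (h (c t).proj, De d e (c t).proj (c t).2) := by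
    intro c
    have h1 := hE.continuous.comp c.continuous
    have h2 : Continuous fun t => (c t).proj :=
      (FiberBundle.continuous_proj (EuclideanSpace ℝ (Fin d))
        (fun x : M => TangentSpace (𝓡 d) x)).comp c.continuous
    exact (h.continuous.comp h2).prodMk (continuous_snd.comp h1)
  have hkl : 0 < l * k := Nat.mul_pos hl hk
  have hG2fw : ∀ n x, fw G2.f n (h x) = h (f^[n * (l * k)] x) := fun n x => by
    rw [e08_fw_pow hG2f, e08_fw_pow hGf, hSfw, mul_assoc]
  have hG2bk : ∀ n x, bk G2.f n (h x) = h (f.symm^[n * (l * k)] x) := fun n x => by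
    rw [e08_bk_pow hG2f, e08_bk_pow hGf, hSbk, mul_assoc]
  have hmem : ∀ (x : M) (v : TangentSpace (𝓡 d) x), v ∈ Es d f x → De d e x v ∈ G2.Es (h x) := by
    intro x v hv
    rw [hG2Es, hGEs]
    exact (hEs x v).1 hv
  have hne0 : ∀ (x : M) (v : TangentSpace (𝓡 d) x), v ≠ 0 → De d e x v ≠ 0 := by
    intro x v hv h0
    exact hv (hinj x (h0.trans (map_zero _).symm))
  obtain ⟨a, ha, haq⟩ := G2.index hw hw' ⟨_, hcont cu⟩ ⟨_, hcont cs⟩ hxL
    (by
      change (h (cu 0).proj, De d e (cu 0).proj (cu 0).2) =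
        (h (cs 0).proj, De d e (cs 0).proj (cs 0).2)
      rw [h01])
    (by
      change h (cu 1).proj = h (cs 1).proj
      rw [hq])
    (by
      intro t
      refine ⟨?_, hmem _ _ (hcu t).2.1, hne0 _ _ (hcu t).2.2⟩
      change Tendsto (fun n => dist (bk G2.f n (h (cu 0).proj)) (bk G2.f n (h (cu t).proj)))
        atTop (𝓝 0)
      simp only [hG2bk]
      exact e08_tendsto h (hcu t).1 hkl)
    (by
      intro t
      refine ⟨?_, hmem _ _ (hcs t).2.1, hne0 _ _ (hcs t).2.2⟩
      change Tendsto (fun n => dist (fw G2.f n (h (cu 0).proj)) (fw G2.f n (h (cs t).proj)))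
        atTop (𝓝 0)
      simp only [hG2fw]
      exact e08_tendsto h (hcs t).1 hkl)
  refine ⟨a, ha, hE.injective ?_⟩
  change (e (cu 1).proj, De d e (cu 1).proj (cu 1).2) =
    (e (cs 1).proj, De d e (cs 1).proj (a • (cs 1).2))
  change De d e (cu 1).proj (cu 1).2 = a • De d e (cs 1).proj (cs 1).2 at haq
  rw [haq, map_smul, hq]

/-- E08 for strongly transverse diffeomorphisms -/
theorem main_thm {d : ℕ} (hd : 4 ≤ d) {M : Type} [MetricSpace M] [CompactSpace M]
    [ChartedSpace (EuclideanSpace ℝ (Fin d)) M] [IsManifold (𝓡 d) ∞ M]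
    [Bundle.RiemannianBundle (fun x : M => TangentSpace (𝓡 d) x)]
    [IsContinuousRiemannianBundle (EuclideanSpace ℝ (Fin d)) (fun x : M => TangentSpace (𝓡 d) x)]
    (f : M ≃ₘ^1⟮𝓡 d, 𝓡 d⟯ M) (hA : AxiomA f) (hT : StrongTransversality f) {Λ : Set M}
    (hΛ : IsBasicSet f Λ) (ha : IsAttractor f Λ)
    (hc : ∀ x ∈ Λ, finrank ℝ (Es d f.symm x) + 1 = d) : Orientable f Λ :=
  main_thm_R hd f hA (fun x _ => hT x) hΛ ha hc

end Pool.MP85
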