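import Pool.Agent.Lib.MP_85e637_an.C09
import Pool.Agent.Lib.MP_85e637_an.E01

/-!
# M1: the map of an embedded system is a `C¹` diffeomorphism of the manifold
-/

open scoped Manifold ContDiff Topology Bundle
open Filter Set Metric Module Asymptotics

noncomputable section

namespace Pool.MP85

section M1
variable {d N : ℕ} {M : Type} [MetricSpace M]
  [ChartedSpace (EuclideanSpace ℝ (Fin d)) M] [IsManifold (𝓡 d) ∞ M]
variable {e : M → EE N}

/-- strict differentiability of `g` with derivative `B` in the embedded picture -/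
def M1_SD (e : M → EE N) (g : M → M) (B : M → EE N →L[ℝ] EE N) : Prop :=
  ∀ η > 0, ∃ ρ > 0, ∀ x y y' : M, ‖e x - e y‖ < ρ → ‖e x - e y'‖ < ρ →
    ‖(e (g y) - e (g y')) - B x (e y - e y')‖ ≤ η * ‖e y - e y'‖

theorem M1_hasFDerivAt (he : ContMDiff (𝓡 d) 𝓘(ℝ, EE N) 1 e) {g : M → M}
    {B : M → EE N →L[ℝ] EE N} (hB : M1_SD e g B) (x0 : M) {u : EuclideanSpace ℝ (Fin d)}
    (hu : u ∈ (extChartAt (𝓡 d) x0).target) :
    HasFDerivAt (E01_rep d (e ∘ g) x0)
      (B ((extChartAt (𝓡 d) x0).symm u) ∘L fderiv ℝ (E01_rep d e x0) u) u := by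
  set x := (extChartAt (𝓡 d) x0).symm u with hx
  have h1 : HasFDerivAt (E01_rep d e x0) (fderiv ℝ (E01_rep d e x0) u) u :=
    (((E01_rep_contDiffOn he x0).contDiffAt ((E01_target_open x0).mem_nhds hu)).differentiableAt
      one_ne_zero).hasFDerivAt
  have h2 : (fun v => E01_rep d e x0 v - E01_rep d e x0 u) =O[𝓝 u] fun v => v - u := h1.isBigO_sub
  have h3 : (fun v => E01_rep d (e ∘ g) x0 v - E01_rep d (e ∘ g) x0 u -
      B x (E01_rep d e x0 v - E01_rep d e x0 u)) =o[𝓝 u]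
      fun v => E01_rep d e x0 v - E01_rep d e x0 u := by
    rw [isLittleO_iff]
    intro c hc
    obtain ⟨ρ, hρ, h⟩ := hB c hc
    have h4 : ∀ᶠ v in 𝓝 u, ‖E01_rep d e x0 u - E01_rep d e x0 v‖ < ρ := by
      have := h1.continuousAt
      rw [Metric.continuousAt_iff'] at this
      filter_upwards [this ρ hρ] with v hv
      rwa [dist_comm, dist_eq_norm] at hv
    filter_upwards [h4] with v hv
    have h5 := h x ((extChartAt (𝓡 d) x0).symm v) x hv (by simpa using hρ)
    exact h5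
  have h4 : (fun v => B x (E01_rep d e x0 v - E01_rep d e x0 u - fderiv ℝ (E01_rep d e x0) u (v - u)))
      =o[𝓝 u] fun v => v - u :=
    ((B x).isBigO_comp _ _).trans_isLittleO h1.isLittleO
  have h5 := (h3.trans_isBigO h2).add h4
  rw [hasFDerivAt_iff_isLittleO]
  refine h5.congr_left fun v => ?_
  rw [map_sub (B x) (E01_rep d e x0 v - E01_rep d e x0 u)]
  show _ = E01_rep d (e ∘ g) x0 v - E01_rep d (e ∘ g) x0 u - B x (fderiv ℝ (E01_rep d e x0) u (v - u))
  abel

theorem M1_contDiffAt (he : ContMDiff (𝓡 d) 𝓘(ℝ, EE N) 1 e) {g : M → M}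
    {B : M → EE N →L[ℝ] EE N} (hBc : Continuous B) (hB : M1_SD e g B) (x0 : M) :
    ContDiffAt ℝ 1 (E01_rep d (e ∘ g) x0) (extChartAt (𝓡 d) x0 x0) := by
  rw [contDiffAt_one_iff]
  refine ⟨fun u => B ((extChartAt (𝓡 d) x0).symm u) ∘L fderiv ℝ (E01_rep d e x0) u,
    (extChartAt (𝓡 d) x0).target, (E01_target_open x0).mem_nhds (mem_extChartAt_target x0), ?_,
    fun u hu => M1_hasFDerivAt he hB x0 hu⟩
  refine ContinuousOn.clm_comp ?_
    ((E01_rep_contDiffOn he x0).continuousOn_fderiv_of_isOpen (E01_target_open x0) le_rfl)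
  exact hBc.comp_continuousOn (continuousOn_extChartAt_symm x0)

/-- a map into an immersed manifold is `C¹` if it is `C¹` as a map into the ambient space -/
theorem M1_contMDiffAt (he : ContMDiff (𝓡 d) 𝓘(ℝ, EE N) 1 e)
    (hinj : ∀ x, Function.Injective (De d e x)) {g : M → M} (hg : Continuous g) (x0 : M)
    (h : ContDiffAt ℝ 1 (E01_rep d (e ∘ g) x0) (extChartAt (𝓡 d) x0 x0)) :
    ContMDiffAt (𝓡 d) (𝓡 d) 1 g x0 := by
  set y0 := g x0 with hy0
  set D1 := E01_D d e y0 y0 with hD1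
  have hD1i : Function.Injective D1 := E01_D_inj he hinj y0 (mem_extChartAt_source y0)
  set Θ : EuclideanSpace ℝ (Fin d) → EuclideanSpace ℝ (Fin d) := fun w =>
    E01_linv D1 (E01_rep d e y0 w) with hΘ
  have hrep : ContDiffAt ℝ 1 (E01_rep d e y0) (extChartAt (𝓡 d) y0 y0) :=
    (E01_rep_contDiffOn he y0).contDiffAt ((E01_target_open y0).mem_nhds (mem_extChartAt_target y0))
  have hΘc : ContDiffAt ℝ 1 Θ (extChartAt (𝓡 d) y0 y0) :=
    (E01_linv D1).contDiff.contDiffAt.comp _ hrep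
  have hΘd : HasFDerivAt Θ (ContinuousLinearEquiv.refl ℝ (EuclideanSpace ℝ (Fin d)) :
      EuclideanSpace ℝ (Fin d) →L[ℝ] EuclideanSpace ℝ (Fin d)) (extChartAt (𝓡 d) y0 y0) := by
    have h1 : HasFDerivAt (E01_rep d e y0) D1 (extChartAt (𝓡 d) y0 y0) :=
      (hrep.differentiableAt one_ne_zero).hasFDerivAt
    have h2 := (E01_linv D1).hasFDerivAt.comp (extChartAt (𝓡 d) y0 y0) h1
    refine h2.congr_fderiv ?_
    ext1 v
    exact E01_linv_apply hD1i v
  set θ := hΘc.localInverse hΘd one_ne_zero with hθ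
  have hθc : ContDiffAt ℝ 1 θ (Θ (extChartAt (𝓡 d) y0 y0)) := hΘc.to_localInverse hΘd one_ne_zero
  have hθl : ∀ᶠ w in 𝓝 (extChartAt (𝓡 d) y0 y0), θ (Θ w) = w :=
    (hΘc.hasStrictFDerivAt' hΘd one_ne_zero).eventually_left_inverse
  rw [contMDiffAt_iff]
  refine ⟨hg.continuousAt, ?_⟩
  refine ContDiffAt.contDiffWithinAt ?_
  -- the map in charts
  have hx0 : (extChartAt (𝓡 d) x0).symm (extChartAt (𝓡 d) x0 x0) = x0 :=
    (extChartAt (𝓡 d) x0).left_inv (mem_extChartAt_source x0)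
  have hcs : ContinuousAt (extChartAt (𝓡 d) x0).symm (extChartAt (𝓡 d) x0 x0) :=
    continuousAt_extChartAt_symm x0
  have hgs : Tendsto (fun v => g ((extChartAt (𝓡 d) x0).symm v)) (𝓝 (extChartAt (𝓡 d) x0 x0))
      (𝓝 y0) := by
    have h1 : ContinuousAt (fun v => g ((extChartAt (𝓡 d) x0).symm v)) (extChartAt (𝓡 d) x0 x0) :=
      hg.continuousAt.comp hcs
    have h2 := h1.tendsto
    rwa [hx0] at h2
  have h3 : ContDiffAt ℝ 1 (fun v => θ (E01_linv D1 (E01_rep d (e ∘ g) x0 v)))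
      (extChartAt (𝓡 d) x0 x0) := by
    have h4 : ContDiffAt ℝ 1 (fun v => E01_linv D1 (E01_rep d (e ∘ g) x0 v))
        (extChartAt (𝓡 d) x0 x0) := (E01_linv D1).contDiff.contDiffAt.comp _ h
    refine ContDiffAt.comp (g := θ) _ ?_ h4
    have h5 : E01_linv D1 (E01_rep d (e ∘ g) x0 (extChartAt (𝓡 d) x0 x0)) =
        Θ (extChartAt (𝓡 d) y0 y0) := by
      simp only [hΘ, E01_rep, Function.comp]
      rw [hx0, (extChartAt (𝓡 d) y0).left_inv (mem_extChartAt_source y0)]
    rw [h5]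
    exact hθc
  refine h3.congr_of_eventuallyEq ?_
  have h6 : ∀ᶠ v in 𝓝 (extChartAt (𝓡 d) x0 x0),
      g ((extChartAt (𝓡 d) x0).symm v) ∈ (extChartAt (𝓡 d) y0).source :=
    hgs (extChartAt_source_mem_nhds y0)
  have h7 : ∀ᶠ v in 𝓝 (extChartAt (𝓡 d) x0 x0),
      θ (Θ (extChartAt (𝓡 d) y0 (g ((extChartAt (𝓡 d) x0).symm v)))) =
        extChartAt (𝓡 d) y0 (g ((extChartAt (𝓡 d) x0).symm v)) :=
    ((continuousAt_extChartAt y0).tendsto.comp hgs).eventually hθl
  filter_upwards [h6, h7] with v hv6 hv7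
  simp only [Function.comp]
  rw [← hv7]
  simp only [hΘ, E01_rep, Function.comp]
  rw [(extChartAt (𝓡 d) y0).left_inv hv6]

theorem M1_contMDiff (he : ContMDiff (𝓡 d) 𝓘(ℝ, EE N) 1 e)
    (hinj : ∀ x, Function.Injective (De d e x)) {g : M → M} (hg : Continuous g)
    {B : M → EE N →L[ℝ] EE N} (hBc : Continuous B) (hB : M1_SD e g B) :
    ContMDiff (𝓡 d) (𝓡 d) 1 g := fun x0 =>
  M1_contMDiffAt he hinj hg x0 (M1_contDiffAt he hBc hB x0)

theorem M1_deriv (he : ContMDiff (𝓡 d) 𝓘(ℝ, EE N) 1 e)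
    (hinj : ∀ x, Function.Injective (De d e x)) {g : M → M} (hg : Continuous g)
    {B : M → EE N →L[ℝ] EE N} (hBc : Continuous B) (hB : M1_SD e g B) (x : M)
    (v : TangentSpace (𝓡 d) x) :
    B x (De d e x v) = De d e (g x) (mfderiv (𝓡 d) (𝓡 d) g x v) := by
  have hgc := M1_contMDiff he hinj hg hBc hB
  have hF : ContMDiff (𝓡 d) 𝓘(ℝ, EE N) 1 (e ∘ g) := he.comp hgc
  have h1 : De d e (g x) (mfderiv (𝓡 d) (𝓡 d) g x v) = mfderiv (𝓡 d) 𝓘(ℝ, EE N) (e ∘ g) x v := by
    rw [mfderiv_comp x ((he (g x)).mdifferentiableAt one_ne_zero)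
      ((hgc x).mdifferentiableAt one_ne_zero)]
    rfl
  rw [h1, E01_D_eq hF x (mem_extChartAt_source x) v, E01_De_eq he x (mem_extChartAt_source x) v]
  have h2 := M1_hasFDerivAt he hB x (mem_extChartAt_target x)
  have h3 : E01_D d (e ∘ g) x x = B x ∘L E01_D d e x x := by
    have := h2.fderiv
    rw [(extChartAt (𝓡 d) x).left_inv (mem_extChartAt_source x)] at this
    exact this
  rw [h3]
  rfl

variable [CompactSpace M] {K : Type} [MetricSpace K] [CompactSpace K]

/-- M1: the map of an embedded system is a `C¹` diffeomorphism of the manifold -/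
theorem exists_diffeo {e : M → EE N} (he : ContMDiff (𝓡 d) 𝓘(ℝ, EE N) ∞ e)
    (hemb : Topology.IsClosedEmbedding e) (hinj : ∀ x, Function.Injective (De d e x))
    (h : M ≃ₜ K) (S : ESys d N K) (hS : ∀ x, S.e (h x) = e x) (hP : ∀ x, S.P (h x) = Pm d e x) :
    ∃ g : M ≃ₘ^1⟮𝓡 d, 𝓡 d⟯ M, (∀ x, S.f (h x) = h (g x)) ∧
      ∀ x v, S.A (h x) (De d e x v) = De d e (g x) (mfderiv (𝓡 d) (𝓡 d) g x v) := by
  have he1 : ContMDiff (𝓡 d) 𝓘(ℝ, EE N) 1 e := he.of_le (by simp)
  have hdist : ∀ x y, dist (h x) (h y) = ‖e x - e y‖ := by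
    intro x y
    rw [← S.e_isom, hS, hS]
  set g : M → M := fun x => h.symm (S.f (h x)) with hg
  set g' : M → M := fun x => h.symm (S.f.symm (h x)) with hg'
  have hgc : Continuous g := h.symm.continuous.comp (S.f.continuous.comp h.continuous)
  have hgc' : Continuous g' := h.symm.continuous.comp (S.f.symm.continuous.comp h.continuous)
  have hhg : ∀ x, h (g x) = S.f (h x) := fun x => h.apply_symm_apply _
  have hhg' : ∀ x, h (g' x) = S.f.symm (h x) := fun x => h.apply_symm_apply _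
  have heg : ∀ x, e (g x) = S.e (S.f (h x)) := fun x => by rw [← hS, hhg]
  have heg' : ∀ x, e (g' x) = S.e (S.f.symm (h x)) := fun x => by rw [← hS, hhg']
  have hB : M1_SD e g (fun x => S.A (h x)) := by
    intro η hη
    obtain ⟨ρ, hρ, hh⟩ := S.diff η hη
    refine ⟨ρ, hρ, fun x y y' h1 h2 => ?_⟩
    rw [← hdist] at h1 h2 ⊢
    rw [heg, heg, ← hS y, ← hS y']
    exact hh (h x) (h y) (h y') h1 h2
  have hB' : M1_SD e g' (fun x => S.symm.A (h x)) := by
    intro η hη
    obtain ⟨ρ, hρ, hh⟩ := S.diff_symm η hη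
    refine ⟨ρ, hρ, fun x y y' h1 h2 => ?_⟩
    rw [← hdist] at h1 h2 ⊢
    rw [heg', heg', ← hS y, ← hS y']
    exact hh (h x) (h y) (h y') h1 h2
  have hAc : Continuous (fun x => S.A (h x)) := S.contA.comp h.continuous
  have hAc' : Continuous (fun x => S.symm.A (h x)) := S.symm.contA.comp h.continuous
  refine ⟨{ toFun := g
            invFun := g'
            left_inv := fun x => by
              simp only [hg, hg']
              rw [h.apply_symm_apply, S.f.symm_apply_apply, h.symm_apply_apply]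
            right_inv := fun x => by
              simp only [hg, hg']
              rw [h.apply_symm_apply, S.f.apply_symm_apply, h.symm_apply_apply]
            contMDiff_toFun := M1_contMDiff he1 hinj hgc hAc hB
            contMDiff_invFun := M1_contMDiff he1 hinj hgc' hAc' hB' }, fun x => (hhg x).symm,
    fun x v => ?_⟩
  exact M1_deriv he1 hinj hgc hAc hB x v

end M1

end Pool.MP85
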