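import Mathlib

/-!
# Definitions for the final statement, over a general model space `E`

`M` is a manifold modelled on the finite-dimensional space `E` (later `E = ℝ^d`), with a Riemannian
metric, and `f : M ≃ₘ^1 M` is a `C¹` diffeomorphism.
-/

open scoped Manifold ContDiff Topology Bundle
open Filter Set Module

noncomputable section

namespace Pool.MP85.Def

variable {E : Type} [NormedAddCommGroup E] [NormedSpace ℝ E]
  {M : Type} [MetricSpace M] [ChartedSpace E M]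

/-- The nonwandering set of `f`. -/
def NW (f : M → M) : Set M := {x | ∀ U ∈ 𝓝 x, ∃ n > 0, (f^[n] '' U ∩ U).Nonempty}

/-- Stable set (stable manifold) of a point. -/
def Wst (f : M → M) (x : M) : Set M :=
  {y | Tendsto (fun n : ℕ => dist (f^[n] x) (f^[n] y)) atTop (𝓝 0)}

/-- The derivative of `fⁿ` at `x`, applied to the tangent vector `v`. -/
def D (f : M → M) (n : ℕ) (x : M) (v : TangentSpace 𝓘(ℝ, E) x) :
    TangentSpace 𝓘(ℝ, E) (f^[n] x) :=
  mfderiv 𝓘(ℝ, E) 𝓘(ℝ, E) (f^[n]) x v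

variable [Bundle.RiemannianBundle (fun x : M => TangentSpace 𝓘(ℝ, E) x)]

/-- `v ∈ T_x W^s(x)`: the tangent vector `v` is contracted to zero by the iterates of `f`.
For a diffeomorphism satisfying Axiom A this is the tangent space at `x` of the stable manifold of
`x`; `StV f⁻¹ x` is the tangent space of the unstable manifold. -/
def StV (f : M → M) (x : M) (v : TangentSpace 𝓘(ℝ, E) x) : Prop :=
  Tendsto (fun n : ℕ => ‖D f n x v‖) atTop (𝓝 0)

variable (E) in
/-- The linear space `T_x W^s(x)`. -/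
def Es (f : M → M) (x : M) : Submodule ℝ (TangentSpace 𝓘(ℝ, E) x) where
  carrier := {v | StV f x v}
  add_mem' := by
    intro v w hv hw
    refine squeeze_zero (fun n => norm_nonneg _) (fun n => ?_) (by simpa using hv.add hw)
    unfold D
    rw [map_add]; exact norm_add_le _ _
  zero_mem' := by simp [StV, D]
  smul_mem' := by
    intro c v hv
    have : (fun n : ℕ => ‖D f n x (c • v)‖) = fun n : ℕ => ‖c‖ * ‖D f n x v‖ := by
      funext n; unfold D; rw [map_smul, norm_smul]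
    change Tendsto _ _ _
    rw [this]; simpa using Tendsto.const_mul ‖c‖ hv

/-- `Λ` is a (uniformly) hyperbolic set of the diffeomorphism `f`, with stable spaces `V x` and
unstable spaces `W x`. -/
def Hyp (f : M ≃ₘ^1⟮𝓘(ℝ, E), 𝓘(ℝ, E)⟯ M) (Λ : Set M)
    (V W : ∀ x : M, Submodule ℝ (TangentSpace 𝓘(ℝ, E) x)) (c lam : ℝ) : Prop :=
  ∀ x ∈ Λ, IsCompl (V x) (W x) ∧
      (∀ v ∈ V x, mfderiv 𝓘(ℝ, E) 𝓘(ℝ, E) f x v ∈ V (f x)) ∧
      (∀ v ∈ W x, mfderiv 𝓘(ℝ, E) 𝓘(ℝ, E) f x v ∈ W (f x)) ∧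
      (∀ v ∈ V x, ∀ n : ℕ, ‖D f n x v‖ ≤ c * lam ^ n * ‖v‖) ∧
      (∀ v ∈ W x, ∀ n : ℕ, ‖D f.symm n x v‖ ≤ c * lam ^ n * ‖v‖)

/-- Axiom A: the nonwandering set is hyperbolic and the periodic points are dense in it. -/
def AxiomA (f : M ≃ₘ^1⟮𝓘(ℝ, E), 𝓘(ℝ, E)⟯ M) : Prop :=
  (∃ (V W : ∀ x : M, Submodule ℝ (TangentSpace 𝓘(ℝ, E) x)) (c lam : ℝ),
    0 < lam ∧ lam < 1 ∧ Hyp f (NW f) V W c lam) ∧
  NW f ⊆ closure {x | ∃ n > 0, f^[n] x = x}

/-- Strong transversality: stable and unstable manifolds are transverse at every point of `M`. -/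
def StrongTransversality (f : M ≃ₘ^1⟮𝓘(ℝ, E), 𝓘(ℝ, E)⟯ M) : Prop :=
  ∀ x : M, Es E f x ⊔ Es E f.symm x = ⊤

/-- `Λ` is a basic set: a nonempty closed invariant topologically transitive subset of the
nonwandering set, relatively open in it (the pieces of the spectral decomposition). -/
structure IsBasicSet (f : M → M) (Λ : Set M) : Prop where
  nonempty : Λ.Nonempty
  closed : IsClosed Λ
  inv : f '' Λ = Λ
  sub : Λ ⊆ NW f
  relOpen : ∃ U : Set M, IsOpen U ∧ Λ = NW f ∩ U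
  transitive : ∃ x ∈ Λ, Λ ⊆ closure {y | ∃ n : ℕ, f^[n] x = y}

/-- `Λ` is an attractor: it has an open neighbourhood `U` with `f (closure U) ⊆ U` and
`Λ = ⋂ fⁿ(U)`. -/
def IsAttractor (f : M → M) (Λ : Set M) : Prop :=
  ∃ U : Set M, IsOpen U ∧ Λ ⊆ U ∧ f '' (closure U) ⊆ U ∧ Λ = ⋂ n : ℕ, f^[n] '' U

variable [IsManifold 𝓘(ℝ, E) 1 M]

/-- A transport of a stable vector of `x` along a path in the (un)stable set `W` of `x`: a path
of nonzero stable vectors over `W` -/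
def Transport (f : M → M) (W : M → Set M) (c : C(unitInterval, TangentBundle 𝓘(ℝ, E) M)) : Prop :=
  ∀ t, (c t).proj ∈ W (c 0).proj ∧ StV f (c t).proj (c t).2 ∧ (c t).2 ≠ 0

/-- Orientability of a codimension-one attractor `Λ` (one-dimensional stable manifolds): for every
`x ∈ Λ` and every `y ∈ W^u(x) ∩ W^s(x)` the stable direction at `x` transported to `y` along a path
in the unstable manifold `W^u(x)` and along a path in the stable manifold `W^s(x)` gives the same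
orientation of the stable line at `y`. Equivalently, for all `α, β > 0` the intersection index of
`W^u_α(x)` and `W^s_β(x)` takes the same value at all points of `W^u_α(x) ∩ W^s_β(x)` (the unstable
disc being cooriented by the stable direction). -/
def Orientable (f : M ≃ₘ^1⟮𝓘(ℝ, E), 𝓘(ℝ, E)⟯ M) (Λ : Set M) : Prop :=
  ∀ cu cs : C(unitInterval, TangentBundle 𝓘(ℝ, E) M),
    (cu 0).proj ∈ Λ → cu 0 = cs 0 → (cu 1).proj = (cs 1).proj →
    Transport f (Wst f.symm) cu → Transport f (Wst f) cs →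
    ∃ a : ℝ, 0 < a ∧ cu 1 = ⟨(cs 1).proj, a • (cs 1).2⟩

/-- The tangent map of a `C¹` diffeomorphism, as a continuous map of the tangent bundle. -/
def Tc (f : M ≃ₘ^1⟮𝓘(ℝ, E), 𝓘(ℝ, E)⟯ M) :
    C(TangentBundle 𝓘(ℝ, E) M, TangentBundle 𝓘(ℝ, E) M) :=
  ⟨tangentMap 𝓘(ℝ, E) 𝓘(ℝ, E) f, f.contMDiff.continuous_tangentMap le_rfl⟩

/-- `f` is structurally stable in the `C¹` topology: all `C¹` diffeomorphisms in a
`C¹`-neighbourhood of `f` are topologically conjugate to `f`. (For compact `M` the `C¹` topology is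
the topology induced by `f ↦ Tf` from the compact-open topology of `C(TM, TM)`.) -/
def StructStable (f : M ≃ₘ^1⟮𝓘(ℝ, E), 𝓘(ℝ, E)⟯ M) : Prop :=
  ∃ U : Set C(TangentBundle 𝓘(ℝ, E) M, TangentBundle 𝓘(ℝ, E) M), IsOpen U ∧ Tc f ∈ U ∧
    ∀ g : M ≃ₘ^1⟮𝓘(ℝ, E), 𝓘(ℝ, E)⟯ M, Tc g ∈ U → ∃ h : M ≃ₜ M, ∀ x, h (f x) = g (h x)

end Pool.MP85.Def
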