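import Pool.Agent.Lib.MP_85e637_an.S2Defs
import Pool.Agent.Lib.MP_85e637_an.Stmt2
import Pool.Agent.Lib.MP_85e637_an.E01
import Pool.Agent.Lib.MP_85e637_an.E03
import Pool.Agent.Lib.MP_85e637_an.M1

/-!
# Stage 2, M2: structural stability in the embedded picture
-/

open scoped Manifold ContDiff Topology Bundle
open Filter Set Metric Module

noncomputable section

namespace Pool.MP85

variable {d N : ℕ} {M : Type} [MetricSpace M] [CompactSpace M]
  [ChartedSpace (EuclideanSpace ℝ (Fin d)) M] [IsManifold (𝓡 d) ∞ M]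
  {K : Type} [MetricSpace K] [CompactSpace K]


/-- convergence of the tangent maps in the compact-open topology -/
theorem M2_tendsto (f : M ≃ₘ^1⟮𝓡 d, 𝓡 d⟯ M) {e : M → EE N}
    (he : ContMDiff (𝓡 d) 𝓘(ℝ, EE N) ∞ e) (hemb : Topology.IsClosedEmbedding e)
    (hinj : ∀ x, Function.Injective (De d e x)) (h : M ≃ₜ K) (S : ESys d N K)
    (hS : ∀ x, S.e (h x) = e x)
    (hf : ∀ x, S.f (h x) = h (f x))
    (hA : ∀ x v, S.A (h x) (De d e x v) = De d e (f x) (mfderiv (𝓡 d) (𝓡 d) f x v))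
    (T : ℕ → ESys d N K) (hT : ∀ n, S.Near (T n) (1 / ((n : ℝ) + 1)))
    (g : ℕ → M ≃ₘ^1⟮𝓡 d, 𝓡 d⟯ M) (hg : ∀ n x, (T n).f (h x) = h (g n x))
    (hgA : ∀ n x v, (T n).A (h x) (De d e x v)
      = De d e (g n x) (mfderiv (𝓡 d) (𝓡 d) (g n) x v)) :
    Tendsto (fun n => Def.Tc (g n)) atTop (𝓝 (Def.Tc f)) := by
  rw [ContinuousMap.tendsto_nhds_compactOpen]
  intro C hC V hV hmaps
  set Φ : TangentBundle (𝓡 d) M → EE N × EE N := fun p => (e p.proj, De d e p.proj p.2) with hΦ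
  have hΦe : Topology.IsEmbedding Φ := tb_embedding he hemb hinj
  obtain ⟨W, hW, hWV⟩ := hΦe.isInducing.isOpen_iff.mp hV
  have hK : IsCompact (Φ '' ((Def.Tc f) '' C)) :=
    (hC.image (Def.Tc f).continuous).image hΦe.continuous
  have hKW : Φ '' ((Def.Tc f) '' C) ⊆ W := by
    rintro _ ⟨_, ⟨z, hz, rfl⟩, rfl⟩
    have := hmaps hz
    rw [← hWV] at this
    exact this
  obtain ⟨δ, hδ, hδW⟩ := hK.exists_thickening_subset_open hW hKW
  obtain ⟨R, hR⟩ := hC.exists_bound_of_continuousOn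
    ((continuous_snd.comp hΦe.continuous).continuousOn (s := C))
  have hR' : ∀ z ∈ C, ‖De d e z.proj z.2‖ ≤ |R| + 1 := fun z hz =>
    (hR z hz).trans ((le_abs_self R).trans (by linarith))
  have hlim : ∀ᶠ n : ℕ in atTop, 1 / ((n : ℝ) + 1) < δ / (|R| + 1) :=
    (tendsto_one_div_add_atTop_nhds_zero_nat).eventually
      (gt_mem_nhds (div_pos hδ (by positivity)))
  refine hlim.mono fun n hn z hz => ?_
  rw [← hWV]
  apply hδW
  rw [mem_thickening_iff]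
  refine ⟨Φ (Def.Tc f z), ⟨_, ⟨z, hz, rfl⟩, rfl⟩, ?_⟩
  have hR0 : 0 < |R| + 1 := by positivity
  have hn0 : 0 < 1 / ((n : ℝ) + 1) := by positivity
  have hn1 : 1 / ((n : ℝ) + 1) * (|R| + 1) < δ := (lt_div_iff₀ hR0).mp hn
  have hn2 : 1 / ((n : ℝ) + 1) < δ := by
    have : 1 / ((n : ℝ) + 1) * 1 ≤ 1 / ((n : ℝ) + 1) * (|R| + 1) :=
      mul_le_mul_of_nonneg_left (by linarith [abs_nonneg R]) hn0.le
    linarith
  have e1 : Φ (Def.Tc (g n) z) = (e (g n z.proj), (T n).A (h z.proj) (De d e z.proj z.2)) := by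
    rw [hgA]
    rfl
  have e2 : Φ (Def.Tc f z) = (e (f z.proj), S.A (h z.proj) (De d e z.proj z.2)) := by
    rw [hA]
    rfl
  rw [e1, e2, Prod.dist_eq, max_lt_iff]
  constructor
  · change dist (e (g n z.proj)) (e (f z.proj)) < δ
    rw [← hS, ← hS, dist_eq_norm, S.e_isom, ← hg, ← hf, dist_comm]
    exact ((hT n).f _).trans hn2
  · change dist ((T n).A (h z.proj) (De d e z.proj z.2)) (S.A (h z.proj) (De d e z.proj z.2)) < δ
    rw [dist_comm, dist_eq_norm, ← sub_apply]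
    refine lt_of_le_of_lt (ContinuousLinearMap.le_opNorm _ _) ?_
    refine lt_of_le_of_lt (mul_le_mul ((hT n).A _).le (hR' z hz) (norm_nonneg _) hn0.le) hn1

/-- M2: structural stability in the embedded picture -/
theorem ss_bridge (f : M ≃ₘ^1⟮𝓡 d, 𝓡 d⟯ M) (hSS : Def.StructStable f) {e : M → EE N}
    (he : ContMDiff (𝓡 d) 𝓘(ℝ, EE N) ∞ e) (hemb : Topology.IsClosedEmbedding e)
    (hinj : ∀ x, Function.Injective (De d e x)) (h : M ≃ₜ K) (S : ESys d N K)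
    (hS : ∀ x, S.e (h x) = e x) (hP : ∀ x, S.P (h x) = Pm d e x)
    (hf : ∀ x, S.f (h x) = h (f x))
    (hA : ∀ x v, S.A (h x) (De d e x v) = De d e (f x) (mfderiv (𝓡 d) (𝓡 d) f x v)) :
    ∃ ε > 0, S.SSε ε := by
  obtain ⟨U, hU, hfU, hconj⟩ := hSS
  by_contra hcon
  have h1 : ∀ n : ℕ, ∃ S' : ESys d N K, S.Near S' (1 / ((n : ℝ) + 1)) ∧
      ¬ ∃ H : K ≃ₜ K, ∀ x, H (S.f x) = S'.f (H x) := by
    intro n
    by_contra hn
    apply hcon
    refine ⟨1 / ((n : ℝ) + 1), by positivity, fun S' hS' => ?_⟩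
    by_contra hS''
    exact hn ⟨S', hS', hS''⟩
  choose T hT hTn using h1
  have h2 : ∀ n, ∃ g : M ≃ₘ^1⟮𝓡 d, 𝓡 d⟯ M, (∀ x, (T n).f (h x) = h (g x)) ∧
      ∀ x v, (T n).A (h x) (De d e x v) = De d e (g x) (mfderiv (𝓡 d) (𝓡 d) g x v) :=
    fun n => exists_diffeo he hemb hinj h (T n)
      (fun x => by rw [(hT n).same.e, hS]) (fun x => by rw [(hT n).same.P, hP])
  choose g hg hgA using h2
  have h3 := M2_tendsto f he hemb hinj h S hS hf hA T hT g hg hgA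
  obtain ⟨n, hn⟩ := (h3.eventually (hU.mem_nhds hfU)).exists
  obtain ⟨H, hH⟩ := hconj (g n) hn
  apply hTn n
  refine ⟨(h.symm.trans H).trans h, fun k => ?_⟩
  obtain ⟨x, rfl⟩ := h.surjective k
  simp only [Homeomorph.trans_apply, hf, Homeomorph.symm_apply_apply, hH, hg]

end Pool.MP85
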