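import Pool.Agent.Lib.MP_85e637_an.S2Defs

/-!
# Stage 2, part F1: closeness of systems and composition
-/

open Filter Topology Set Metric Module

namespace Pool.MP85
variable {d N : ℕ} {K : Type} [MetricSpace K] [CompactSpace K]

namespace ESys

theorem Same.refl (S : ESys d N K) : S.Same S := ⟨rfl, rfl⟩
theorem Same.symm {S S' : ESys d N K} (h : S.Same S') : S'.Same S := ⟨h.e.symm, h.P.symm⟩
theorem Same.trans {S S' S'' : ESys d N K} (h : S.Same S') (h' : S'.Same S'') : S.Same S'' :=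
  ⟨h'.e.trans h.e, h'.P.trans h.P⟩

theorem Near.refl (S : ESys d N K) {ε : ℝ} (hε : 0 < ε) : S.Near S ε where
  same := Same.refl S
  f x := by rw [dist_self]; exact hε
  f' x := by rw [dist_self]; exact hε
  A x := by rw [sub_self, norm_zero]; exact hε
  A' x := by rw [sub_self, norm_zero]; exact hε

theorem Near.symm {S S' : ESys d N K} {ε : ℝ} (h : S.Near S' ε) : S'.Near S ε where
  same := h.same.symm
  f x := by rw [dist_comm]; exact h.f x
  f' x := by rw [dist_comm]; exact h.f' x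
  A x := by rw [norm_sub_rev]; exact h.A x
  A' x := by rw [norm_sub_rev]; exact h.A' x

theorem Near.trans {S S' S'' : ESys d N K} {ε ε' : ℝ} (h : S.Near S' ε) (h' : S'.Near S'' ε') :
    S.Near S'' (ε + ε') where
  same := h.same.trans h'.same
  f x := (dist_triangle _ (S'.f x) _).trans_lt (add_lt_add (h.f x) (h'.f x))
  f' x := (dist_triangle _ (S'.f.symm x) _).trans_lt (add_lt_add (h.f' x) (h'.f' x))
  A x := (norm_sub_le_norm_sub_add_norm_sub _ (S'.A x) _).trans_lt (add_lt_add (h.A x) (h'.A x))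
  A' x := (norm_sub_le_norm_sub_add_norm_sub _ (S'.A' x) _).trans_lt
    (add_lt_add (h.A' x) (h'.A' x))

theorem Near.mono {S S' : ESys d N K} {ε ε' : ℝ} (h : S.Near S' ε) (h' : ε ≤ ε') :
    S.Near S' ε' where
  same := h.same
  f x := (h.f x).trans_le h'
  f' x := (h.f' x).trans_le h'
  A x := (h.A x).trans_le h'
  A' x := (h.A' x).trans_le h'

/-- a continuous function `< ε` on a compact space is `< ε'` for some `ε' < ε` -/
theorem F1_room {g : K → ℝ} (hg : Continuous g) {ε : ℝ} (hε : 0 < ε) (h : ∀ x, g x < ε) :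
    ∃ ε' < ε, 0 < ε' ∧ ∀ x, g x < ε' := by
  rcases isEmpty_or_nonempty K with hK | hK
  · exact ⟨ε / 2, by linarith, by linarith, fun x => (hK.false x).elim⟩
  · obtain ⟨x0, _, hx0⟩ := isCompact_univ.exists_isMaxOn (univ_nonempty) hg.continuousOn
    refine ⟨max ((g x0 + ε) / 2) (ε / 2), max_lt (by linarith [h x0]) (by linarith),
      lt_max_of_lt_right (by linarith), fun x => lt_max_of_lt_left ?_⟩
    have h1 : g x ≤ g x0 := hx0 (mem_univ x)
    linarith [h x0]

/-- room in a `Near` relation (compactness) -/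
theorem Near.room {S S' : ESys d N K} {ε : ℝ} (h : S.Near S' ε) (hε : 0 < ε) :
    ∃ ε' < ε, 0 < ε' ∧ S.Near S' ε' := by
  obtain ⟨a, ha, ha0, ha1⟩ := F1_room
    (S.f.continuous.dist S'.f.continuous) hε h.f
  obtain ⟨b, hb, hb0, hb1⟩ := F1_room
    (S.f.symm.continuous.dist S'.f.symm.continuous) hε h.f'
  obtain ⟨c, hc, hc0, hc1⟩ := F1_room ((S.contA.sub S'.contA).norm) hε h.A
  obtain ⟨e, he, he0, he1⟩ := F1_room ((S.contA'.sub S'.contA').norm) hε h.A'
  refine ⟨max (max a b) (max c e), max_lt (max_lt ha hb) (max_lt hc he),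
    lt_max_of_lt_left (lt_max_of_lt_left ha0), ?_⟩
  exact
    { same := h.same
      f := fun x => (ha1 x).trans_le ((le_max_left _ _).trans (le_max_left _ _))
      f' := fun x => (hb1 x).trans_le ((le_max_right _ _).trans (le_max_left _ _))
      A := fun x => (hc1 x).trans_le ((le_max_left _ _).trans (le_max_right _ _))
      A' := fun x => (he1 x).trans_le ((le_max_right _ _).trans (le_max_right _ _)) }

/-- bound of a continuous family -/
theorem F1_bound {E : Type*} [SeminormedAddCommGroup E] {F : K → E} (hF : Continuous F) :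
    ∃ C, 0 ≤ C ∧ ∀ x, ‖F x‖ ≤ C := by
  obtain ⟨C, hC⟩ := isCompact_univ.exists_bound_of_continuousOn hF.continuousOn
  exact ⟨max C 0, le_max_right _ _, fun x => (hC x (mem_univ x)).trans (le_max_left _ _)⟩

/-- the composition `S ∘ Θ` -/
noncomputable def comp (S Θ : ESys d N K) (hs : S.Same Θ) : ESys d N K where
  f := Θ.f.trans S.f
  P := S.P
  A x := S.A (Θ.f x) ∘L Θ.A x
  A' x := Θ.A' x ∘L S.A' (Θ.f x)
  contP := S.contP
  contA := (S.contA.comp Θ.f.continuous).clm_comp Θ.contA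
  contA' := Θ.contA'.clm_comp (S.contA'.comp Θ.f.continuous)
  PP := S.PP
  Psa := S.Psa
  AP x := by
    have h := Θ.AP x
    rw [hs.P] at h
    rw [ContinuousLinearMap.comp_assoc, h]
  PA x := by
    have h := S.PA (Θ.f x)
    rw [← ContinuousLinearMap.comp_assoc]
    exact congrArg (fun L => L ∘L Θ.A x) h
  A'P x := by
    have h := S.A'P (Θ.f x)
    rw [ContinuousLinearMap.comp_assoc]
    exact congrArg (fun L => Θ.A' x ∘L L) h
  PA' x := by
    have h := Θ.PA' x
    rw [hs.P] at h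
    rw [← ContinuousLinearMap.comp_assoc, h]
  A'A x := by
    have h1 := S.A'A (Θ.f x)
    have h2 := Θ.PA x
    have h3 := Θ.A'A x
    rw [hs.P] at h2 h3
    calc (Θ.A' x ∘L S.A' (Θ.f x)) ∘L (S.A (Θ.f x) ∘L Θ.A x)
        = Θ.A' x ∘L ((S.A' (Θ.f x) ∘L S.A (Θ.f x)) ∘L Θ.A x) := by
          simp only [ContinuousLinearMap.comp_assoc]
      _ = S.P x := by rw [h1, h2, h3]
  AA' x := by
    have h1 := Θ.AA' x
    have h2 := S.PA' (Θ.f x)
    have h3 := S.AA' (Θ.f x)
    rw [hs.P] at h1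
    calc (S.A (Θ.f x) ∘L Θ.A x) ∘L (Θ.A' x ∘L S.A' (Θ.f x))
        = S.A (Θ.f x) ∘L ((Θ.A x ∘L Θ.A' x) ∘L S.A' (Θ.f x)) := by
          simp only [ContinuousLinearMap.comp_assoc]
      _ = S.P (S.f (Θ.f x)) := by rw [h1, h2, h3]
  e := S.e
  e_isom := S.e_isom
  rankP := S.rankP
  flat := S.flat
  surj := S.surj
  diff := by
    intro η hη
    obtain ⟨C, hC0, hC⟩ := F1_bound Θ.contA
    obtain ⟨C', hC'0, hC'⟩ := F1_bound S.contA
    obtain ⟨ρ1, hρ1, h1⟩ := S.diff (η / (2 * (C + 1))) (by positivity)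
    obtain ⟨ρ2, hρ2, h2⟩ := Θ.diff (min 1 (η / (2 * (C' + 1)))) (by positivity)
    obtain ⟨ρ3, hρ3, h3⟩ := Metric.uniformContinuous_iff.mp
      (CompactSpace.uniformContinuous_of_continuous Θ.f.continuous) ρ1 hρ1
    refine ⟨min ρ2 ρ3, lt_min hρ2 hρ3, fun x y y' hy hy' => ?_⟩
    have hy2 := lt_of_lt_of_le hy (min_le_left ρ2 ρ3)
    have hy3 := lt_of_lt_of_le hy (min_le_right ρ2 ρ3)
    have hy2' := lt_of_lt_of_le hy' (min_le_left ρ2 ρ3)
    have hy3' := lt_of_lt_of_le hy' (min_le_right ρ2 ρ3)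
    have e1 := h1 (Θ.f x) (Θ.f y) (Θ.f y') (h3 hy3) (h3 hy3')
    have e2 := h2 x y y' hy2 hy2'
    rw [hs.e] at e2
    set u : EE N := S.e (Θ.f y) - S.e (Θ.f y') with hu
    set w : EE N := S.e y - S.e y' with hw
    have hwn : ‖w‖ = dist y y' := S.e_isom y y'
    have hun : ‖u‖ = dist (Θ.f y) (Θ.f y') := S.e_isom _ _
    have hD : 0 ≤ dist y y' := dist_nonneg
    have e3 : ‖u‖ ≤ (C + 1) * dist y y' := by
      calc ‖u‖ = ‖(u - Θ.A x w) + Θ.A x w‖ := by rw [sub_add_cancel]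
        _ ≤ ‖u - Θ.A x w‖ + ‖Θ.A x w‖ := norm_add_le _ _
        _ ≤ 1 * dist y y' + C * dist y y' := by
          refine add_le_add (e2.trans (mul_le_mul_of_nonneg_right (min_le_left _ _) hD)) ?_
          calc ‖Θ.A x w‖ ≤ ‖Θ.A x‖ * ‖w‖ := (Θ.A x).le_opNorm w
            _ ≤ C * dist y y' := by
              rw [hwn]; exact mul_le_mul_of_nonneg_right (hC x) hD
        _ = (C + 1) * dist y y' := by ring
    have e4 : ‖S.A (Θ.f x) (u - Θ.A x w)‖ ≤ η / 2 * dist y y' := by
      calc ‖S.A (Θ.f x) (u - Θ.A x w)‖ ≤ ‖S.A (Θ.f x)‖ * ‖u - Θ.A x w‖ :=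
            (S.A (Θ.f x)).le_opNorm _
        _ ≤ (C' + 1) * (η / (2 * (C' + 1)) * dist y y') := by
          refine mul_le_mul ((hC' _).trans (by linarith)) ?_ (norm_nonneg _) (by linarith)
          exact e2.trans (mul_le_mul_of_nonneg_right (min_le_right _ _) hD)
        _ = η / 2 * dist y y' := by
          have : (C' + 1) ≠ 0 := by positivity
          field_simp
    have e5 : ‖(S.e (S.f (Θ.f y)) - S.e (S.f (Θ.f y'))) - S.A (Θ.f x) u‖ ≤
        η / 2 * dist y y' := by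
      refine e1.trans ?_
      calc η / (2 * (C + 1)) * dist (Θ.f y) (Θ.f y') = η / (2 * (C + 1)) * ‖u‖ := by rw [hun]
        _ ≤ η / (2 * (C + 1)) * ((C + 1) * dist y y') :=
          mul_le_mul_of_nonneg_left e3 (by positivity)
        _ = η / 2 * dist y y' := by
          have : (C + 1) ≠ 0 := by positivity
          field_simp
    have e6 : (S.e ((Θ.f.trans S.f) y) - S.e ((Θ.f.trans S.f) y')) -
        (S.A (Θ.f x) ∘L Θ.A x) w = ((S.e (S.f (Θ.f y)) - S.e (S.f (Θ.f y'))) - S.A (Θ.f x) u) +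
          S.A (Θ.f x) (u - Θ.A x w) := by
      have e7 : S.A (Θ.f x) (u - Θ.A x w) = S.A (Θ.f x) u - S.A (Θ.f x) (Θ.A x w) :=
        map_sub _ _ _
      rw [e7, ContinuousLinearMap.comp_apply, Homeomorph.trans_apply, Homeomorph.trans_apply]
      exact (sub_add_sub_cancel _ _ _).symm
    rw [e6]
    calc _ ≤ _ := norm_add_le _ _
      _ ≤ η / 2 * dist y y' + η / 2 * dist y y' := add_le_add e5 e4
      _ = η * dist y y' := by ring

/-- `C¹`-small perturbation by composition with a diffeomorphism close to the identity -/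
theorem exists_comp (S : ESys d N K) : ∀ ε > 0, ∃ δ > 0, ∀ Θ : ESys d N K, S.Same Θ →
    Θ.IdNear δ → ∃ S' : ESys d N K, S.Near S' ε ∧ ∀ x, S'.f x = S.f (Θ.f x) := by
  intro ε hε
  obtain ⟨CA, hCA0, hCA⟩ := F1_bound S.contA
  obtain ⟨CA', hCA'0, hCA'⟩ := F1_bound S.contA'
  obtain ⟨CP, hCP0, hCP⟩ := F1_bound S.contP
  obtain ⟨ρ1, hρ1, h1⟩ := Metric.uniformContinuous_iff.mp
    (CompactSpace.uniformContinuous_of_continuous S.f.continuous) ε hε
  obtain ⟨ρ2, hρ2, h2⟩ := Metric.uniformContinuous_iff.mp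
    (CompactSpace.uniformContinuous_of_continuous S.contA) (ε / (2 * (CP + 1))) (by positivity)
  obtain ⟨ρ3, hρ3, h3⟩ := Metric.uniformContinuous_iff.mp
    (CompactSpace.uniformContinuous_of_continuous S.contA') (ε / (2 * (CP + 1))) (by positivity)
  have key : CP * (ε / (2 * (CP + 1))) < ε / 2 := by
    have h0 : CP * (ε / (2 * (CP + 1))) = (ε / 2) * (CP / (CP + 1)) := by
      have : (CP + 1) ≠ 0 := by positivity
      field_simp
    rw [h0]
    have h4 : CP / (CP + 1) < 1 := by rw [div_lt_one (by positivity)]; linarith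
    calc ε / 2 * (CP / (CP + 1)) < ε / 2 * 1 := mul_lt_mul_of_pos_left h4 (by positivity)
      _ = ε / 2 := mul_one _
  refine ⟨min (min ε (min ρ1 (min ρ2 ρ3))) (min (ε / (2 * (CA + 1))) (ε / (2 * (CA' + 1)))),
    by positivity, fun Θ hs hΘ => ?_⟩
  set δ := min (min ε (min ρ1 (min ρ2 ρ3))) (min (ε / (2 * (CA + 1))) (ε / (2 * (CA' + 1))))
    with hδ
  have dε : δ ≤ ε := (min_le_left _ _).trans (min_le_left _ _)
  have d1 : δ ≤ ρ1 := (min_le_left _ _).trans ((min_le_right _ _).trans (min_le_left _ _))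
  have d2 : δ ≤ ρ2 := (min_le_left _ _).trans ((min_le_right _ _).trans
    ((min_le_right _ _).trans (min_le_left _ _)))
  have d3 : δ ≤ ρ3 := (min_le_left _ _).trans ((min_le_right _ _).trans
    ((min_le_right _ _).trans (min_le_right _ _)))
  have d4 : δ ≤ ε / (2 * (CA + 1)) := (min_le_right _ _).trans (min_le_left _ _)
  have d5 : δ ≤ ε / (2 * (CA' + 1)) := (min_le_right _ _).trans (min_le_right _ _)
  refine ⟨S.comp Θ hs, ?_, fun x => rfl⟩
  refine { same := ⟨rfl, rfl⟩, f := ?_, f' := ?_, A := ?_, A' := ?_ }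
  · intro x
    change dist (S.f x) (S.f (Θ.f x)) < ε
    exact h1 ((hΘ.f x).trans_le d1)
  · intro x
    change dist (S.f.symm x) (Θ.f.symm (S.f.symm x)) < ε
    exact (hΘ.f' _).trans_le dε
  · intro x
    change ‖S.A x - S.A (Θ.f x) ∘L Θ.A x‖ < ε
    have hP : Θ.P x = S.P x := by rw [hs.P]
    have e0 : S.A x - S.A (Θ.f x) ∘L Θ.A x =
        (S.A x - S.A (Θ.f x)) ∘L S.P x - S.A (Θ.f x) ∘L (Θ.A x - Θ.P x) := by
      rw [hP, ContinuousLinearMap.sub_comp, ContinuousLinearMap.comp_sub, S.AP x]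
      abel
    rw [e0]
    have e1 : ‖(S.A x - S.A (Θ.f x)) ∘L S.P x‖ ≤ CP * (ε / (2 * (CP + 1))) := by
      refine (ContinuousLinearMap.opNorm_comp_le _ _).trans ?_
      rw [mul_comm]
      refine mul_le_mul (hCP x) ?_ (norm_nonneg _) hCP0
      have := h2 ((hΘ.f x).trans_le d2)
      rw [dist_eq_norm] at this
      exact this.le
    have e2 : ‖S.A (Θ.f x) ∘L (Θ.A x - Θ.P x)‖ ≤ ε / 2 := by
      refine (ContinuousLinearMap.opNorm_comp_le _ _).trans ?_
      calc ‖S.A (Θ.f x)‖ * ‖Θ.A x - Θ.P x‖ ≤ (CA + 1) * (ε / (2 * (CA + 1))) :=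
            mul_le_mul ((hCA _).trans (by linarith)) ((hΘ.A x).le.trans d4) (norm_nonneg _)
              (by positivity)
        _ = ε / 2 := by
          have : (CA + 1) ≠ 0 := by positivity
          field_simp
    calc _ ≤ _ := norm_sub_le _ _
      _ < ε / 2 + ε / 2 := add_lt_add_of_lt_of_le (e1.trans_lt key) e2
      _ = ε := by ring
  · intro x
    change ‖S.A' x - Θ.A' x ∘L S.A' (Θ.f x)‖ < ε
    have hP : Θ.P x = S.P x := by rw [hs.P]
    have hΘP : S.P x ∘L S.A' x = S.A' x := S.PA' x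
    have e0 : S.A' x - Θ.A' x ∘L S.A' (Θ.f x) =
        S.P x ∘L (S.A' x - S.A' (Θ.f x)) - (Θ.A' x - Θ.P x) ∘L S.A' (Θ.f x) := by
      rw [hP, ContinuousLinearMap.sub_comp, ContinuousLinearMap.comp_sub, hΘP]
      abel
    rw [e0]
    have e1 : ‖S.P x ∘L (S.A' x - S.A' (Θ.f x))‖ ≤ CP * (ε / (2 * (CP + 1))) := by
      refine (ContinuousLinearMap.opNorm_comp_le _ _).trans ?_
      refine mul_le_mul (hCP x) ?_ (norm_nonneg _) hCP0
      have := h3 ((hΘ.f x).trans_le d3)
      rw [dist_eq_norm] at this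
      exact this.le
    have e2 : ‖(Θ.A' x - Θ.P x) ∘L S.A' (Θ.f x)‖ ≤ ε / 2 := by
      refine (ContinuousLinearMap.opNorm_comp_le _ _).trans ?_
      calc ‖Θ.A' x - Θ.P x‖ * ‖S.A' (Θ.f x)‖ ≤ (ε / (2 * (CA' + 1))) * (CA' + 1) :=
            mul_le_mul ((hΘ.A' x).le.trans d5) ((hCA' _).trans (by linarith)) (norm_nonneg _)
              (by positivity)
        _ = ε / 2 := by
          have : (CA' + 1) ≠ 0 := by positivity
          field_simp
    calc _ ≤ _ := norm_sub_le _ _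
      _ < ε / 2 + ε / 2 := add_lt_add_of_lt_of_le (e1.trans_lt key) e2
      _ = ε := by ring

end ESys

end Pool.MP85
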