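import Pool.Agent.Lib.MP_85e637_an.S2Defs
import Pool.Agent.Lib.MP_85e637_an.C01
import Pool.Agent.Lib.MP_85e637_an.C10

/-!
# F2: bump diffeomorphisms
-/

open Filter Topology Set Metric Module

namespace Pool.MP85
variable {d N : ℕ} {K : Type} [MetricSpace K] [CompactSpace K]

/-! ### Algebra of two nearby projections -/

theorem F2_alg {R : Type*} [Ring R] {p q U : R} (hp : p * p = p) (hq : q * q = q)
    (h1 : U * (p * q + (1 - p) * (1 - q)) = 1) (h2 : (p * q + (1 - p) * (1 - q)) * U = 1) :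
    (U * p) * p = U * p ∧ q * (U * p) = U * p ∧ (U * p) * (p * q) = q ∧ p * (U * p) = p := by
  set Q := p * q + (1 - p) * (1 - q) with hQ
  have hQq : Q * q = p * q := by
    have e : Q * q = p * (q * q) + (1 - p) * (q - q * q) := by rw [hQ]; noncomm_ring
    rw [e, hq]; simp
  have hpQ : p * Q = p * q := by
    have e : p * Q = (p * p) * q + (p - p * p) * (1 - q) := by rw [hQ]; noncomm_ring
    rw [e, hp]; simp
  have hqU : q * U = U * p := by
    calc q * U = (U * Q) * (q * U) := by rw [h1, one_mul]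
      _ = U * (Q * q) * U := by noncomm_ring
      _ = U * (p * Q) * U := by rw [hQq, hpQ]
      _ = U * p * (Q * U) := by noncomm_ring
      _ = U * p := by rw [h2, mul_one]
  have e1 : (U * p) * p = U * p := by rw [mul_assoc, hp]
  have e2 : q * (U * p) = U * p := by rw [← mul_assoc, hqU, e1]
  have e3 : (U * p) * (p * q) = q := by
    calc (U * p) * (p * q) = (U * (p * p)) * q := by noncomm_ring
      _ = U * (p * q) := by rw [hp, mul_assoc]
      _ = U * (Q * q) := by rw [hQq]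
      _ = (U * Q) * q := by rw [mul_assoc]
      _ = q := by rw [h1, one_mul]
  refine ⟨e1, e2, e3, ?_⟩
  calc p * (U * p) = p * (q * (U * p)) := by rw [e2]
    _ = (p * q) * (U * p) := by rw [mul_assoc]
    _ = (Q * q) * (U * p) := by rw [hQq]
    _ = Q * (q * (U * p)) := by rw [mul_assoc]
    _ = Q * (U * p) := by rw [e2]
    _ = (Q * U) * p := by rw [mul_assoc]
    _ = p := by rw [h2, one_mul]

theorem F2_alg2 {R : Type*} [Ring R] {p E V : R} (hp : p * p = p) (hpE : p * E = E)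
    (h2 : (1 + E) * V = 1) :
    p * ((1 + E) * p) = (1 + E) * p ∧ p * (V * p) = V * p := by
  constructor
  · calc p * ((1 + E) * p) = p * p + (p * E) * p := by noncomm_ring
      _ = (1 + E) * p := by rw [hp, hpE]; noncomm_ring
  · have e : V * p = p - E * (V * p) := by
      have : (1 + E) * V * p = p := by rw [h2, one_mul]
      have e' : (1 + E) * V * p = V * p + E * (V * p) := by noncomm_ring
      rw [e'] at this
      exact eq_sub_of_add_eq this
    calc p * (V * p) = p * (p - E * (V * p)) := by rw [← e]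
      _ = p * p - (p * E) * (V * p) := by noncomm_ring
      _ = p - E * (V * p) := by rw [hp, hpE]
      _ = V * p := e.symm

theorem F2_alg3 {R : Type*} [Ring R] {p q q' B V L L' : R}
    (hL2 : q * L = L) (hL3 : L * (p * q) = q) (hL4 : p * L = p)
    (hM2 : q' * L' = L') (hM3 : L' * (p * q') = q') (hM4 : p * L' = p)
    (hq : q * q = q) (hq' : q' * q' = q') (hB : p * (B * p) = B * p) (hV : p * (V * p) = V * p)
    (h1 : V * B = 1) (h2 : B * V = 1) :
    (L' * (B * (p * q))) * q = L' * (B * (p * q)) ∧ q' * (L' * (B * (p * q))) = L' * (B * (p * q)) ∧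
    (L * (V * (p * q'))) * q' = L * (V * (p * q')) ∧ q * (L * (V * (p * q'))) = L * (V * (p * q')) ∧
    (L * (V * (p * q'))) * (L' * (B * (p * q))) = q ∧
    (L' * (B * (p * q))) * (L * (V * (p * q'))) = q' := by
  refine ⟨?_, ?_, ?_, ?_, ?_, ?_⟩
  · calc (L' * (B * (p * q))) * q = L' * (B * (p * (q * q))) := by noncomm_ring
      _ = _ := by rw [hq]
  · rw [← mul_assoc, hM2]
  · calc (L * (V * (p * q'))) * q' = L * (V * (p * (q' * q'))) := by noncomm_ring
      _ = _ := by rw [hq']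
  · rw [← mul_assoc, hL2]
  · calc (L * (V * (p * q'))) * (L' * (B * (p * q)))
        = L * (V * (p * ((q' * L') * (B * (p * q))))) := by noncomm_ring
      _ = L * (V * ((p * L') * (B * (p * q)))) := by rw [hM2]; noncomm_ring
      _ = L * (V * ((p * (B * p)) * q)) := by rw [hM4]; noncomm_ring
      _ = L * ((V * B) * (p * q)) := by rw [hB]; noncomm_ring
      _ = q := by rw [h1, one_mul, hL3]
  · calc (L' * (B * (p * q))) * (L * (V * (p * q')))
        = L' * (B * (p * ((q * L) * (V * (p * q'))))) := by noncomm_ring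
      _ = L' * (B * ((p * L) * (V * (p * q')))) := by rw [hL2]; noncomm_ring
      _ = L' * (B * ((p * (V * p)) * q')) := by rw [hL4]; noncomm_ring
      _ = L' * ((B * V) * (p * q')) := by rw [hV]; noncomm_ring
      _ = q' := by rw [h2, one_mul, hM3]

/-! ### The transfer maps `T x → T z` -/

namespace ESys
variable (S : ESys d N K)

/-- intertwiner -/
noncomputable def F2Q (x z : K) : EE N →L[ℝ] EE N :=
  S.P x * S.P z + (1 - S.P x) * (1 - S.P z)

/-- inverse of `P x : T z → T x`, extended by `0` -/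
noncomputable def F2L (x z : K) : EE N →L[ℝ] EE N := Ring.inverse (S.F2Q x z) * S.P x

theorem F2_PP (x : K) : S.P x * S.P x = S.P x := S.PP x

theorem F2Q_cont (x : K) : Continuous (S.F2Q x) := by
  unfold F2Q
  exact (continuous_const.mul S.contP).add (continuous_const.mul (continuous_const.sub S.contP))

theorem F2Q_self (x : K) : S.F2Q x x = 1 := by
  unfold F2Q
  have h := S.F2_PP x
  rw [sub_mul, mul_sub, mul_sub, one_mul, one_mul, mul_one, h]
  abel

/-- region where the transfer maps are good -/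
theorem F2L_spec {x z : K} (h : IsUnit (S.F2Q x z)) :
    S.F2L x z * S.P x = S.F2L x z ∧ S.P z * S.F2L x z = S.F2L x z ∧
    S.F2L x z * (S.P x * S.P z) = S.P z ∧ S.P x * S.F2L x z = S.P x :=
  F2_alg (S.F2_PP x) (S.F2_PP z) (Ring.inverse_mul_cancel _ h) (Ring.mul_inverse_cancel _ h)

theorem F2L_contAt {x z : K} (h : IsUnit (S.F2Q x z)) : ContinuousAt (S.F2L x) z := by
  unfold F2L
  obtain ⟨u, hu⟩ := h
  have h1 : ContinuousAt Ring.inverse (S.F2Q x z) := by
    rw [← hu]; exact NormedRing.inverse_continuousAt u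
  exact (ContinuousAt.comp (f := S.F2Q x) h1 (S.F2Q_cont x).continuousAt).mul continuousAt_const

theorem F2L_self (x : K) : S.F2L x x = S.P x := by
  unfold F2L
  rw [F2Q_self, Ring.inverse_one, one_mul]

theorem F2_near (x : K) {ε : ℝ} (hε : 0 < ε) : ∃ ρ > 0, ∀ z, dist x z < ρ →
    IsUnit (S.F2Q x z) ∧ ‖S.F2L x z - S.P x‖ ≤ ε ∧ ‖S.P z - S.P x‖ ≤ ε := by
  have h1 : ∀ᶠ z in 𝓝 x, IsUnit (S.F2Q x z) := by
    have : IsOpen {a : EE N →L[ℝ] EE N | IsUnit a} := Units.isOpen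
    refine (S.F2Q_cont x).continuousAt.eventually_mem (this.mem_nhds ?_)
    rw [F2Q_self]
    exact isUnit_one
  have h2 : ∀ᶠ z in 𝓝 x, ‖S.F2L x z - S.P x‖ ≤ ε := by
    have hc := S.F2L_contAt (x := x) (z := x) (by rw [F2Q_self]; exact isUnit_one)
    have hc' := hc.eventually (Metric.closedBall_mem_nhds _ hε)
    filter_upwards [hc'] with z hz
    rw [F2L_self] at hz
    rwa [← dist_eq_norm]
  have h3 : ∀ᶠ z in 𝓝 x, ‖S.P z - S.P x‖ ≤ ε := by
    filter_upwards [S.contP.continuousAt.eventually (Metric.closedBall_mem_nhds _ hε)] with z hz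
    rwa [← dist_eq_norm]
  obtain ⟨ρ, hρ, h⟩ := Metric.eventually_nhds_iff.1 (h1.and (h2.and h3))
  exact ⟨ρ, hρ, fun z hz => h (by rwa [dist_comm])⟩

/-! ### The topological part -/

/-- a self-map of the chart, extended by the identity -/
theorem F2_map (x : K) {ρc : ℝ}
    (hc1 : ∀ y y', dist x y < ρc → dist x y' < ρc →
      3 / 4 * dist y y' ≤ ‖S.P x (S.e y - S.e y')‖ ∧ ‖S.P x (S.e y - S.e y')‖ ≤ dist y y')
    (hc2 : ∀ v ∈ S.T x, ‖v‖ < ρc → ∃ y, S.P x (S.e y - S.e x) = v ∧ dist x y ≤ 5 / 4 * ‖v‖)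
    {r : ℝ} (hr : 0 < r) (hrc : 2 * r ≤ ρc) (G : EE N → EE N) (G1 : ∀ a ∈ S.T x, G a ∈ S.T x)
    (G2 : ∀ a ∈ S.T x, r ≤ ‖a‖ → G a = a) (G3 : ∀ a ∈ S.T x, ‖a‖ < r → ‖G a‖ < r)
    (G4 : ∀ a ∈ S.T x, ∀ b ∈ S.T x, ‖G a - G b‖ ≤ 2 * ‖a - b‖) :
    ∃ θ : K → K, Continuous θ ∧ (∀ y, 3 / 2 * r ≤ dist x y → θ y = y) ∧
      (∀ y, dist x y < 2 * r → dist x (θ y) < 2 * r ∧ S.χ x (θ y) = G (S.χ x y)) ∧
      (∀ y y', dist x y < 2 * r → dist x y' < 2 * r → dist (θ y) (θ y') ≤ 3 * dist y y') := by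
  classical
  have hχT : ∀ y, S.χ x y ∈ S.T x := fun y => S.P_mem x _
  have hχsub : ∀ y y', S.χ x y - S.χ x y' = S.P x (S.e y - S.e y') := by
    intro y y'
    unfold χ
    rw [← map_sub]
    congr 1
    abel
  have hχx : S.χ x x = 0 := by unfold χ; rw [sub_self, map_zero]
  have hχn : ∀ y, dist x y < ρc → 3 / 4 * dist x y ≤ ‖S.χ x y‖ := by
    intro y hy
    have h := (hc1 x y (by rw [dist_self]; linarith) hy).1
    have e : S.P x (S.e x - S.e y) = -(S.χ x y) := by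
      rw [← hχsub, hχx, zero_sub]
    rwa [e, norm_neg] at h
  have hex : ∀ y, dist x y < 2 * r → ∃ y', dist x y' < 2 * r ∧ S.χ x y' = G (S.χ x y) := by
    intro y hy
    by_cases h : ‖S.χ x y‖ < r
    · have hG := G3 _ (hχT y) h
      obtain ⟨y', h1, h2⟩ := hc2 (G (S.χ x y)) (G1 _ (hχT y)) (by linarith)
      exact ⟨y', by linarith, h1⟩
    · exact ⟨y, hy, (G2 _ (hχT y) (not_lt.1 h)).symm⟩
  have hinj : ∀ y y', dist x y < 2 * r → dist x y' < 2 * r → S.χ x y = S.χ x y' → y = y' := by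
    intro y y' hy hy' he
    have h := (hc1 y y' (by linarith) (by linarith)).1
    rw [← hχsub, he, sub_self, norm_zero] at h
    have : dist y y' ≤ 0 := by linarith
    exact dist_le_zero.1 this
  set θ : K → K := fun y => if h : dist x y < 2 * r then (hex y h).choose else y with hθ
  have hθ1 : ∀ y, dist x y < 2 * r → dist x (θ y) < 2 * r ∧ S.χ x (θ y) = G (S.χ x y) := by
    intro y hy
    have : θ y = (hex y hy).choose := by rw [hθ]; simp only [dif_pos hy]
    rw [this]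
    exact (hex y hy).choose_spec
  have hθ2 : ∀ y, 3 / 2 * r ≤ dist x y → θ y = y := by
    intro y hy
    by_cases h : dist x y < 2 * r
    · obtain ⟨h1, h2⟩ := hθ1 y h
      refine hinj _ _ h1 h ?_
      rw [h2]
      refine G2 _ (hχT y) ?_
      have := hχn y (by linarith)
      linarith
    · rw [hθ]; simp only [dif_neg h]
  have hθ3 : ∀ y y', dist x y < 2 * r → dist x y' < 2 * r →
      dist (θ y) (θ y') ≤ 3 * dist y y' := by
    intro y y' hy hy'
    obtain ⟨h1, h2⟩ := hθ1 y hy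
    obtain ⟨h1', h2'⟩ := hθ1 y' hy'
    have e1 := (hc1 (θ y) (θ y') (by linarith) (by linarith)).1
    rw [← hχsub, h2, h2'] at e1
    have e2 := G4 _ (hχT y) _ (hχT y')
    have e3 := (hc1 y y' (by linarith) (by linarith)).2
    rw [← hχsub] at e3
    have := dist_nonneg (x := y) (y := y')
    linarith
  refine ⟨θ, ?_, hθ2, hθ1, hθ3⟩
  rw [continuous_iff_continuousAt]
  intro y0
  by_cases h : dist x y0 < 2 * r
  · rw [Metric.continuousAt_iff]
    intro ε hε
    refine ⟨min (ε / 3) (2 * r - dist x y0), lt_min (by positivity) (by linarith), fun y hy => ?_⟩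
    have hy1 : dist y y0 < ε / 3 := lt_of_lt_of_le hy (min_le_left _ _)
    have hy2 : dist y y0 < 2 * r - dist x y0 := lt_of_lt_of_le hy (min_le_right _ _)
    have hy3 : dist x y < 2 * r := by
      have := dist_triangle x y0 y
      rw [dist_comm y0 y] at this
      linarith
    have := hθ3 y y0 hy3 h
    linarith
  · have h' : 3 / 2 * r < dist x y0 := by linarith
    have hev : ∀ᶠ y in 𝓝 y0, 3 / 2 * r < dist x y :=
      (continuous_const.dist continuous_id).continuousAt.eventually (lt_mem_nhds h')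
    have : θ =ᶠ[𝓝 y0] id := hev.mono fun y hy => hθ2 y hy.le
    exact continuousAt_id.congr this.symm

/-! ### The linear part -/

/-- data of a small perturbation of the identity in the chart -/
structure F2D (x : K) (r η : ℝ) (D : EE N → EE N) : Prop where
  c1 : ContDiff ℝ 1 D
  mem : ∀ a, D a ∈ S.T x
  proj : ∀ a, D (S.P x a) = D a
  zero : ∀ a ∈ S.T x, r ≤ ‖a‖ → D a = 0
  bd : ∀ a, ‖fderiv ℝ D a‖ ≤ η

variable {S} {x : K} {r η : ℝ} {D : EE N → EE N}

theorem F2D.of {Δ : EE N → EE N} (h1 : ContDiff ℝ 1 Δ) (h2 : ∀ a, Δ a ∈ S.T x)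
    (h3 : ∀ a ∈ S.T x, r ≤ ‖a‖ → Δ a = 0) (h4 : ∀ a ∈ S.T x, ‖fderiv ℝ Δ a‖ ≤ η) (hη : 0 ≤ η) :
    F2D S x r η (fun a => Δ (S.P x a)) where
  c1 := h1.comp (S.P x).contDiff
  mem := fun a => h2 _
  proj := fun a => by
    rw [S.mem_T.1 (S.P_mem x a)]
  zero := fun a ha hr => by
    rw [S.mem_T.1 ha]
    exact h3 a ha hr
  bd := fun a => by
    have e : fderiv ℝ (fun a => Δ (S.P x a)) a = (fderiv ℝ Δ (S.P x a)).comp (S.P x) := by
      have h5 : DifferentiableAt ℝ Δ (S.P x a) := (h1.differentiable one_ne_zero) _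
      have := fderiv_comp a h5 (S.P x).differentiableAt
      rw [ContinuousLinearMap.fderiv] at this
      exact this
    rw [e]
    refine (ContinuousLinearMap.opNorm_comp_le _ _).trans ?_
    have h6 : ‖S.P x‖ ≤ 1 := ContinuousLinearMap.opNorm_le_bound _ zero_le_one fun v => by
      rw [one_mul]; exact S.norm_P_le x v
    calc ‖fderiv ℝ Δ (S.P x a)‖ * ‖S.P x‖ ≤ η * 1 :=
          mul_le_mul (h4 _ (S.P_mem x a)) h6 (norm_nonneg _) hη
      _ = η := mul_one _

theorem F2D.lip (h : F2D S x r η D) (a b : EE N) : ‖D a - D b‖ ≤ η * ‖a - b‖ :=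
  (convex_univ).norm_image_sub_le_of_norm_fderiv_le (𝕜 := ℝ)
    (fun y _ => (h.c1.differentiable one_ne_zero) y) (fun y _ => h.bd y) (mem_univ b) (mem_univ a)

theorem F2D.inv (h : F2D S x r η D) (hη0 : 0 ≤ η) (hη : η ≤ 1 / 2) : ∃ G' : EE N → EE N,
    (∀ a, G' (a + D a) = a) ∧ (∀ a, G' a + D (G' a) = a) := by
  have hinj : Function.Injective (fun a => a + D a) := by
    intro a b hab
    have hab' : a + D a = b + D b := hab
    have h1 := h.lip a b
    have h2 : a - b = -(D a - D b) := by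
      have : a - b + (D a - D b) = (a + D a) - (b + D b) := by abel
      rw [hab', sub_self] at this
      exact eq_neg_of_add_eq_zero_left this
    have h3 : ‖a - b‖ ≤ η * ‖a - b‖ := by
      conv_lhs => rw [h2, norm_neg]
      exact h1
    have h4 := norm_nonneg (a - b)
    have h5 : ‖a - b‖ = 0 := by nlinarith
    exact sub_eq_zero.1 (norm_eq_zero.1 h5)
  have hsurj : Function.Surjective (fun a => a + D a) := by
    intro b
    have hL : LipschitzWith ⟨η, hη0⟩ (fun a => b - D a) :=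
      LipschitzWith.of_dist_le_mul fun a a' => by
        rw [dist_eq_norm, dist_eq_norm]
        have : b - D a - (b - D a') = -(D a - D a') := by abel
        rw [this, norm_neg]
        exact h.lip a a'
    have hc : ContractingWith ⟨η, hη0⟩ (fun a => b - D a) := by
      refine ⟨?_, hL⟩
      rw [← NNReal.coe_lt_coe]
      change η < 1
      linarith
    obtain ⟨a, ha, -, -⟩ := hc.exists_fixedPoint 0 (edist_ne_top _ _)
    refine ⟨a, ?_⟩
    have ha' : b - D a = a := ha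
    exact eq_sub_iff_add_eq.1 ha'.symm
  obtain ⟨G', hl, hr'⟩ := Function.bijective_iff_has_inverse.1 ⟨hinj, hsurj⟩
  exact ⟨G', fun a => hl a, fun a => hr' a⟩

/-- the inverse in the chart -/
theorem F2D.inv_spec (h : F2D S x r η D) (hη : η ≤ 1 / 2) {G' : EE N → EE N}
    (h1 : ∀ a, G' (a + D a) = a) (h2 : ∀ a, G' a + D (G' a) = a) :
    (∀ a ∈ S.T x, a + D a ∈ S.T x) ∧ (∀ a ∈ S.T x, r ≤ ‖a‖ → a + D a = a) ∧
    (∀ a ∈ S.T x, ‖a‖ < r → ‖a + D a‖ < r) ∧
    (∀ a ∈ S.T x, ∀ b ∈ S.T x, ‖(a + D a) - (b + D b)‖ ≤ 2 * ‖a - b‖) ∧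
    (∀ a ∈ S.T x, G' a ∈ S.T x) ∧ (∀ a ∈ S.T x, r ≤ ‖a‖ → G' a = a) ∧
    (∀ a ∈ S.T x, ‖a‖ < r → ‖G' a‖ < r) ∧
    (∀ a ∈ S.T x, ∀ b ∈ S.T x, ‖G' a - G' b‖ ≤ 2 * ‖a - b‖) := by
  have g1 : ∀ a ∈ S.T x, a + D a ∈ S.T x := fun a ha => (S.T x).add_mem ha (h.mem a)
  have g2 : ∀ a ∈ S.T x, r ≤ ‖a‖ → a + D a = a := fun a ha hr => by rw [h.zero a ha hr, add_zero]
  have g5 : ∀ a ∈ S.T x, G' a ∈ S.T x := fun a ha => by
    have : G' a = a - D (G' a) := eq_sub_of_add_eq (h2 a)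
    rw [this]
    exact (S.T x).sub_mem ha (h.mem _)
  have g6 : ∀ a ∈ S.T x, r ≤ ‖a‖ → G' a = a := fun a ha hr => by
    have := h1 a
    rwa [g2 a ha hr] at this
  refine ⟨g1, g2, ?_, ?_, g5, g6, ?_, ?_⟩
  · intro a ha har
    by_contra hc
    push Not at hc
    have e1 := g6 _ (g1 a ha) hc
    rw [h1] at e1
    rw [← e1] at hc
    linarith
  · intro a _ b _
    have e : (a + D a) - (b + D b) = (a - b) + (D a - D b) := by abel
    rw [e]
    have := norm_add_le (a - b) (D a - D b)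
    have := h.lip a b
    have := norm_nonneg (a - b)
    nlinarith
  · intro a ha har
    by_contra hc
    push Not at hc
    have e1 := g2 _ (g5 a ha) hc
    rw [h2] at e1
    rw [← e1] at hc
    linarith
  · intro a _ b _
    have e : a - b = (G' a - G' b) + (D (G' a) - D (G' b)) := by
      conv_lhs => rw [← h2 a, ← h2 b]
      abel
    have e1 := h.lip (G' a) (G' b)
    have e2 : ‖G' a - G' b‖ ≤ ‖a - b‖ + ‖D (G' a) - D (G' b)‖ := by
      have : G' a - G' b = (a - b) - (D (G' a) - D (G' b)) := by rw [e]; abel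
      conv_lhs => rw [this]
      exact norm_sub_le _ _
    have := norm_nonneg (G' a - G' b)
    nlinarith

/-- the derivative of the perturbation in the chart -/
theorem F2D.fderiv_mem (h : F2D S x r η D) (a : EE N) : S.P x * fderiv ℝ D a = fderiv ℝ D a := by
  have e : (fun b => S.P x (D b)) = D := by
    funext b
    exact S.mem_T.1 (h.mem b)
  have h1 : DifferentiableAt ℝ D a := (h.c1.differentiable one_ne_zero) a
  have h2 := fderiv_comp a (S.P x).differentiableAt h1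
  rw [ContinuousLinearMap.fderiv] at h2
  have h3 : (S.P x ∘ D) = D := e
  rw [h3] at h2
  exact h2.symm

theorem F2D.fderiv_zero (h : F2D S x r η D) {a : EE N} (ha : a ∈ S.T x) (hr : r < ‖a‖) :
    fderiv ℝ D a = 0 := by
  have h1 : D =ᶠ[𝓝 a] fun _ => 0 := by
    have h2 : ∀ᶠ b in 𝓝 a, r < ‖S.P x b‖ := by
      refine (S.P x).continuous.norm.continuousAt.eventually (lt_mem_nhds ?_)
      change r < ‖S.P x a‖
      rw [S.mem_T.1 ha]
      exact hr
    filter_upwards [h2] with b hb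
    rw [← h.proj b]
    exact h.zero _ (S.P_mem x b) hb.le
  rw [h1.fderiv_eq]
  simp

/-- `B a` and its inverse -/
theorem F2D.unit (h : F2D S x r η D) (hη : η ≤ 1 / 2) (a : EE N) :
    IsUnit (1 + fderiv ℝ D a) ∧ ‖Ring.inverse (1 + fderiv ℝ D a) - 1‖ ≤ 2 * η ∧
    ‖Ring.inverse (1 + fderiv ℝ D a)‖ ≤ 2 ∧ ‖1 + fderiv ℝ D a‖ ≤ 2 := by
  set E := fderiv ℝ D a with hE
  have hb : ‖E‖ ≤ η := h.bd a
  have hu : IsUnit (1 + E) := by
    have h1 : ‖-E‖ < 1 := by rw [norm_neg]; linarith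
    have := isUnit_one_sub_of_norm_lt_one h1
    rwa [sub_neg_eq_add] at this
  have h1n : ‖(1 : EE N →L[ℝ] EE N)‖ ≤ 1 := ContinuousLinearMap.norm_id_le
  set V := Ring.inverse (1 + E) with hV
  have hVB : V * (1 + E) = 1 := Ring.inverse_mul_cancel _ hu
  have e1 : V = 1 - V * E := by
    have : V * (1 + E) = V + V * E := by rw [mul_add, mul_one]
    rw [this] at hVB
    exact eq_sub_of_add_eq hVB
  have e2 : ‖V‖ ≤ 1 + ‖V‖ * η := by
    calc ‖V‖ = ‖1 - V * E‖ := by rw [← e1]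
      _ ≤ ‖(1 : EE N →L[ℝ] EE N)‖ + ‖V * E‖ := norm_sub_le _ _
      _ ≤ 1 + ‖V‖ * ‖E‖ := add_le_add h1n (norm_mul_le _ _)
      _ ≤ 1 + ‖V‖ * η := by
        have := mul_le_mul_of_nonneg_left hb (norm_nonneg V)
        linarith
  have e3 : ‖V‖ ≤ 2 := by
    have := norm_nonneg V
    nlinarith
  refine ⟨hu, ?_, e3, ?_⟩
  · have e4 : V - 1 = -(V * E) := by
      have : V - 1 = (1 - V * E) - 1 := by rw [← e1]
      rw [this]; abel
    rw [e4, norm_neg]
    calc ‖V * E‖ ≤ ‖V‖ * ‖E‖ := norm_mul_le _ _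
      _ ≤ 2 * η := mul_le_mul e3 hb (norm_nonneg _) zero_le_two
  · calc ‖1 + E‖ ≤ ‖(1 : EE N →L[ℝ] EE N)‖ + ‖E‖ := norm_add_le _ _
      _ ≤ 2 := by linarith

theorem F2D.contB (h : F2D S x r η D) : Continuous fun a => 1 + fderiv ℝ D a :=
  continuous_const.add (h.c1.continuous_fderiv one_ne_zero)

theorem F2D.contV (h : F2D S x r η D) (hη : η ≤ 1 / 2) :
    Continuous fun a => Ring.inverse (1 + fderiv ℝ D a) := by
  rw [continuous_iff_continuousAt]
  intro a
  obtain ⟨u, hu⟩ := (h.unit hη a).1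
  have h1 : ContinuousAt Ring.inverse (1 + fderiv ℝ D a) := by
    rw [← hu]; exact NormedRing.inverse_continuousAt u
  exact ContinuousAt.comp (f := fun a => 1 + fderiv ℝ D a) h1 h.contB.continuousAt

/-! ### Strict differentiability -/

theorem F2_strict_at (h : F2D S x r η D) {θ : K → K} (hθ : Continuous θ) {z : K}
    (hu : IsUnit (S.F2Q x (θ z)))
    (h1 : ∀ᶠ y in 𝓝 z, S.χ x (θ y) = S.χ x y + D (S.χ x y))
    (h2 : ∀ᶠ p in 𝓝 (z, z), dist (θ p.1) (θ p.2) ≤ 3 * dist p.1 p.2) {δ : ℝ} (hδ : 0 < δ) :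
    ∀ᶠ p in 𝓝 (z, z), ‖(S.e (θ p.1) - S.e (θ p.2)) -
      (S.F2L x (θ z) * ((1 + fderiv ℝ D (S.χ x z)) * (S.P x * S.P z))) (S.e p.1 - S.e p.2)‖ ≤
        δ * dist p.1 p.2 := by
  set L := S.F2L x (θ z) with hL
  set E := fderiv ℝ D (S.χ x z) with hE
  obtain ⟨-, -, hL3, -⟩ := S.F2L_spec hu
  set c := 3 + 4 * ‖L‖ + ‖L‖ * ‖1 + E‖ with hc
  have hcpos : 0 < c := by positivity
  set δ1 := δ / c with hδ1
  have hδ1pos : 0 < δ1 := div_pos hδ hcpos
  have hPn : ∀ z, ‖S.P z‖ ≤ 1 := fun z => ContinuousLinearMap.opNorm_le_bound _ zero_le_one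
    fun v => by rw [one_mul]; exact S.norm_P_le z v
  obtain ⟨ρ1, hρ1, hflat⟩ := S.flat δ1 hδ1pos
  have hχc : Continuous (S.χ x) := by
    have he : Continuous S.e := by
      refine (LipschitzWith.of_dist_le_mul (K := 1) fun a b => ?_).continuous
      rw [dist_eq_norm, S.e_isom, NNReal.coe_one, one_mul]
    exact (S.P x).continuous.comp (he.sub continuous_const)
  have hχsub : ∀ y y', S.χ x y - S.χ x y' = S.P x (S.e y - S.e y') := by
    intro y y'
    unfold χ
    rw [← map_sub]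
    congr 1
    abel
  have hst : HasStrictFDerivAt D E (S.χ x z) :=
    h.c1.contDiffAt.hasStrictFDerivAt one_ne_zero
  have e1 : ∀ᶠ p in 𝓝 (z, z), ‖D (S.χ x p.1) - D (S.χ x p.2) -
      E (S.χ x p.1 - S.χ x p.2)‖ ≤ δ1 * ‖S.χ x p.1 - S.χ x p.2‖ := by
    have h3 := hst.isLittleO.def hδ1pos
    have h4 : Tendsto (fun p : K × K => (S.χ x p.1, S.χ x p.2)) (𝓝 (z, z))
        (𝓝 (S.χ x z, S.χ x z)) :=
      ((hχc.comp continuous_fst).prodMk (hχc.comp continuous_snd)).tendsto (z, z)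
    exact h4.eventually h3
  have t1 : Tendsto (fun p : K × K => p.1) (𝓝 (z, z)) (𝓝 z) := continuous_fst.tendsto _
  have t2 : Tendsto (fun p : K × K => p.2) (𝓝 (z, z)) (𝓝 z) := continuous_snd.tendsto _
  have e2 : ∀ᶠ p : K × K in 𝓝 (z, z), S.χ x (θ p.1) = S.χ x p.1 + D (S.χ x p.1) :=
    t1.eventually h1
  have e3 : ∀ᶠ p : K × K in 𝓝 (z, z), S.χ x (θ p.2) = S.χ x p.2 + D (S.χ x p.2) :=
    t2.eventually h1
  have hball : ∀ w : K, ∀ᶠ y in 𝓝 w, dist w y < ρ1 := fun w => by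
    filter_upwards [Metric.ball_mem_nhds w hρ1] with y hy
    rw [dist_comm]; exact hy
  have e4 : ∀ᶠ p : K × K in 𝓝 (z, z), dist z p.1 < ρ1 := t1.eventually (hball z)
  have e5 : ∀ᶠ p : K × K in 𝓝 (z, z), dist z p.2 < ρ1 := t2.eventually (hball z)
  have e6 : ∀ᶠ p : K × K in 𝓝 (z, z), dist (θ z) (θ p.1) < ρ1 :=
    ((hθ.tendsto z).comp t1).eventually (hball (θ z))
  have e7 : ∀ᶠ p : K × K in 𝓝 (z, z), dist (θ z) (θ p.2) < ρ1 :=
    ((hθ.tendsto z).comp t2).eventually (hball (θ z))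
  filter_upwards [e1, e2, e3, e4, e5, e6, e7, h2] with p q1 q2 q3 q4 q5 q6 q7 q8
  set u := S.e p.1 - S.e p.2 with hu1
  set u' := S.e (θ p.1) - S.e (θ p.2) with hu2
  have hun : ‖u‖ = dist p.1 p.2 := S.e_isom _ _
  set t := dist p.1 p.2 with ht
  have ht0 : 0 ≤ t := dist_nonneg
  have f1 : ‖u' - S.P (θ z) u'‖ ≤ δ1 * (3 * t) :=
    (hflat _ _ _ q6 q7).trans (mul_le_mul_of_nonneg_left q8 hδ1pos.le)
  have f2 : ‖u - S.P z u‖ ≤ δ1 * t := hflat _ _ _ q4 q5
  have f3 : ‖S.P x u' - (1 + E) (S.P x u)‖ ≤ δ1 * t := by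
    have g1 : S.P x u' = S.P x u + (D (S.χ x p.1) - D (S.χ x p.2)) := by
      rw [hu2, ← hχsub, q2, q3, hu1, ← hχsub]
      abel
    have g2 : S.P x u' - (1 + E) (S.P x u) =
        D (S.χ x p.1) - D (S.χ x p.2) - E (S.χ x p.1 - S.χ x p.2) := by
      rw [g1, hχsub]
      change S.P x u + (D (S.χ x p.1) - D (S.χ x p.2)) - (S.P x u + E (S.P x u)) = _
      abel
    rw [g2]
    refine q1.trans (mul_le_mul_of_nonneg_left ?_ hδ1pos.le)
    rw [hχsub, ht, ← S.e_isom]
    exact S.norm_P_le x _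
  have f4 : S.P (θ z) u' = L (S.P x (S.P (θ z) u')) := by
    have := DFunLike.congr_fun hL3 u'
    exact this.symm
  have hkey : u' - (L * ((1 + E) * (S.P x * S.P z))) u =
      (u' - S.P (θ z) u') - L (S.P x (u' - S.P (θ z) u')) +
      L (S.P x u' - (1 + E) (S.P x u)) + L ((1 + E) (S.P x (u - S.P z u))) := by
    have g3 : (L * ((1 + E) * (S.P x * S.P z))) u = L ((1 + E) (S.P x (S.P z u))) := rfl
    rw [g3]
    simp only [map_sub]
    rw [← f4]
    abel
  rw [hkey]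
  have k1 : ‖L (S.P x (u' - S.P (θ z) u'))‖ ≤ ‖L‖ * (δ1 * (3 * t)) := by
    refine (L.le_opNorm _).trans (mul_le_mul_of_nonneg_left ?_ (norm_nonneg _))
    exact (S.norm_P_le x _).trans f1
  have k2 : ‖L (S.P x u' - (1 + E) (S.P x u))‖ ≤ ‖L‖ * (δ1 * t) :=
    (L.le_opNorm _).trans (mul_le_mul_of_nonneg_left f3 (norm_nonneg _))
  have k3 : ‖L ((1 + E) (S.P x (u - S.P z u)))‖ ≤ ‖L‖ * (‖1 + E‖ * (δ1 * t)) := by
    refine (L.le_opNorm _).trans (mul_le_mul_of_nonneg_left ?_ (norm_nonneg _))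
    refine ((1 + E).le_opNorm _).trans (mul_le_mul_of_nonneg_left ?_ (norm_nonneg _))
    exact (S.norm_P_le x _).trans f2
  have hsum : δ * t = δ1 * (3 * t) + ‖L‖ * (δ1 * (3 * t)) + ‖L‖ * (δ1 * t) +
      ‖L‖ * (‖1 + E‖ * (δ1 * t)) := by
    have : δ = δ1 * c := by rw [hδ1]; field_simp
    rw [this, hc]
    ring
  rw [hsum]
  refine (norm_add_le _ _).trans (add_le_add ?_ k3)
  refine (norm_add_le _ _).trans (add_le_add ?_ k2)
  exact (norm_sub_le _ _).trans (add_le_add f1 k1)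

/-- from local to uniform strict differentiability -/
theorem F2_unif {θ : K → K} {A : K → EE N →L[ℝ] EE N} (hA : Continuous A)
    (h : ∀ z, ∀ δ > 0, ∀ᶠ p in 𝓝 (z, z), ‖(S.e (θ p.1) - S.e (θ p.2)) -
      A z (S.e p.1 - S.e p.2)‖ ≤ δ * dist p.1 p.2) :
    ∀ δ > 0, ∃ ρ > 0, ∀ x y y', dist x y < ρ → dist x y' < ρ →
      ‖(S.e (θ y) - S.e (θ y')) - A x (S.e y - S.e y')‖ ≤ δ * dist y y' := by
  intro δ hδ
  have h1 : ∀ z, ∃ ρ > 0, ∀ w y y', dist w z < ρ → dist y z < ρ → dist y' z < ρ →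
      ‖(S.e (θ y) - S.e (θ y')) - A w (S.e y - S.e y')‖ ≤ δ * dist y y' := by
    intro z
    have h2 := h z (δ / 2) (by positivity)
    have h3 : ∀ᶠ w in 𝓝 z, ‖A w - A z‖ ≤ δ / 2 := by
      filter_upwards [hA.continuousAt.eventually (Metric.closedBall_mem_nhds _ (half_pos hδ))]
        with w hw
      rwa [← dist_eq_norm]
    obtain ⟨ρ1, hρ1, h4⟩ := Metric.eventually_nhds_iff.1 h2
    obtain ⟨ρ2, hρ2, h5⟩ := Metric.eventually_nhds_iff.1 h3
    refine ⟨min ρ1 ρ2, lt_min hρ1 hρ2, fun w y y' hw hy hy' => ?_⟩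
    have k1 := h4 (y := (y, y')) (by
      rw [Prod.dist_eq]
      exact max_lt (lt_of_lt_of_le hy (min_le_left _ _)) (lt_of_lt_of_le hy' (min_le_left _ _)))
    have k2 := h5 (lt_of_lt_of_le hw (min_le_right _ _))
    have e : (S.e (θ y) - S.e (θ y')) - A w (S.e y - S.e y') =
        ((S.e (θ y) - S.e (θ y')) - A z (S.e y - S.e y')) - (A w - A z) (S.e y - S.e y') := by
      rw [sub_apply]
      abel
    rw [e]
    refine (norm_sub_le _ _).trans ?_
    have k3 : ‖(A w - A z) (S.e y - S.e y')‖ ≤ δ / 2 * dist y y' := by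
      refine ((A w - A z).le_opNorm _).trans ?_
      rw [S.e_isom]
      exact mul_le_mul_of_nonneg_right k2 dist_nonneg
    have k1' : ‖(S.e (θ y) - S.e (θ y')) - A z (S.e y - S.e y')‖ ≤ δ / 2 * dist y y' := k1
    linarith
  choose ρ hρ hh using h1
  obtain ⟨ρ0, hρ0, hL⟩ := lebesgue_number_lemma_of_metric (s := (univ : Set K))
    (c := fun z => Metric.ball z (ρ z)) isCompact_univ (fun z => Metric.isOpen_ball)
    (fun z _ => mem_iUnion.2 ⟨z, Metric.mem_ball_self (hρ z)⟩)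
  refine ⟨ρ0, hρ0, fun x y y' hy hy' => ?_⟩
  obtain ⟨z, hz⟩ := hL x (mem_univ x)
  refine hh z x y y' (hz (Metric.mem_ball_self hρ0)) (hz ?_) (hz ?_)
  · rw [Metric.mem_ball, dist_comm]; exact hy
  · rw [Metric.mem_ball, dist_comm]; exact hy'

theorem F2_norm5 {p q q' L B : EE N →L[ℝ] EE N} {β : ℝ} (hpn : ‖p‖ ≤ 1)
    (hqn : ‖q‖ ≤ 1) (hL : ‖L‖ ≤ 2) (hB : ‖B - 1‖ ≤ β) (h : L * (p * q') = q') :
    ‖L * (B * (p * q)) - q‖ ≤ 2 * β + 3 * ‖q' - q‖ ∧
    ‖L * (B * (p * q)) - q'‖ ≤ 2 * β + 3 * ‖q' - q‖ := by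
  have hβ : 0 ≤ β := (norm_nonneg _).trans hB
  have hpq : ‖p * q‖ ≤ 1 := by
    refine (norm_mul_le _ _).trans ?_
    calc ‖p‖ * ‖q‖ ≤ 1 * 1 := mul_le_mul hpn hqn (norm_nonneg _) zero_le_one
      _ = 1 := one_mul _
  have k1 : ‖L * ((B - 1) * (p * q))‖ ≤ 2 * β := by
    have k3 : ‖(B - 1) * (p * q)‖ ≤ β := by
      refine (norm_mul_le _ _).trans ?_
      calc ‖B - 1‖ * ‖p * q‖ ≤ β * 1 := mul_le_mul hB hpq (norm_nonneg _) hβ
        _ = β := mul_one _
    exact (norm_mul_le _ _).trans (mul_le_mul hL k3 (norm_nonneg _) zero_le_two)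
  have k2 : ‖L * (p * (q' - q))‖ ≤ 2 * ‖q' - q‖ := by
    have k3 : ‖p * (q' - q)‖ ≤ ‖q' - q‖ := by
      refine (norm_mul_le _ _).trans ?_
      calc ‖p‖ * ‖q' - q‖ ≤ 1 * ‖q' - q‖ := mul_le_mul_of_nonneg_right hpn (norm_nonneg _)
        _ = ‖q' - q‖ := one_mul _
    exact (norm_mul_le _ _).trans (mul_le_mul hL k3 (norm_nonneg _) zero_le_two)
  have e1 : L * (B * (p * q)) - q' = L * ((B - 1) * (p * q)) - L * (p * (q' - q)) := by
    have : L * (B * (p * q)) - q' = L * (B * (p * q)) - L * (p * q') := by rw [h]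
    rw [this]
    simp only [sub_mul, mul_sub, one_mul]
    abel
  have k4 := norm_sub_le (L * ((B - 1) * (p * q))) (L * (p * (q' - q)))
  have k5 := norm_nonneg (q' - q)
  constructor
  · have e2 : L * (B * (p * q)) - q = (L * (B * (p * q)) - q') + (q' - q) := by abel
    rw [e2, e1]
    have := norm_add_le (L * ((B - 1) * (p * q)) - L * (p * (q' - q))) (q' - q)
    linarith
  · rw [e1]
    linarith

/-- the perturbation is small -/
theorem F2D.small (h : F2D S x r η D) (hr : 0 < r) (hη0 : 0 ≤ η) {a : EE N} (ha : a ∈ S.T x) :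
    ‖D a‖ ≤ 2 * r * η := by
  by_cases h0 : D a = 0
  · rw [h0, norm_zero]; positivity
  have hn : 0 < ‖D a‖ := norm_pos_iff.2 h0
  by_cases har : r ≤ ‖a‖
  · exact absurd (h.zero a ha har) h0
  push Not at har
  set t := 2 * r / ‖D a‖ with ht
  have htp : 0 < t := by positivity
  have htn : ‖t • D a‖ = 2 * r := by
    rw [norm_smul, Real.norm_of_nonneg htp.le, ht]
    field_simp
  have hb : a + t • D a ∈ S.T x := (S.T x).add_mem ha ((S.T x).smul_mem _ (h.mem a))
  have hbn : r ≤ ‖a + t • D a‖ := by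
    have := norm_sub_norm_le (t • D a) (-a)
    rw [norm_neg, sub_neg_eq_add, add_comm (t • D a) a] at this
    linarith
  have h1 := h.lip a (a + t • D a)
  rw [h.zero _ hb hbn, sub_zero] at h1
  have h2 : ‖a - (a + t • D a)‖ = 2 * r := by
    have : a - (a + t • D a) = -(t • D a) := by abel
    rw [this, norm_neg, htn]
  rw [h2] at h1
  linarith

open scoped Classical in
/-- gluing with `P` outside a ball -/
theorem F2_glue {x : K} {r : ℝ} (hr : 0 < r) {F : K → EE N →L[ℝ] EE N}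
    (h1 : ∀ y, dist x y < 2 * r → ContinuousAt F y)
    (h2 : ∀ y, 3 / 2 * r < dist x y → dist x y < 2 * r → F y = S.P y) :
    Continuous (fun y => if dist x y < 2 * r then F y else S.P y) := by
  rw [continuous_iff_continuousAt]
  intro y0
  by_cases h : dist x y0 < 2 * r
  · have hev : ∀ᶠ y in 𝓝 y0, dist x y < 2 * r :=
      (continuous_const.dist continuous_id).continuousAt.eventually (gt_mem_nhds h)
    refine (h1 y0 h).congr (hev.mono fun y hy => ?_)
    simp only [if_pos hy]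
  · have h' : 3 / 2 * r < dist x y0 := by linarith
    have hev : ∀ᶠ y in 𝓝 y0, 3 / 2 * r < dist x y :=
      (continuous_const.dist continuous_id).continuousAt.eventually (lt_mem_nhds h')
    refine S.contP.continuousAt.congr (hev.mono fun y hy => ?_)
    by_cases h3 : dist x y < 2 * r
    · simp only [if_pos h3]
      exact (h2 y hy h3).symm
    · simp only [if_neg h3]

/-- packaging -/
theorem F2_mk {θ θ' : K → K} (θc : Continuous θ) (θc' : Continuous θ') (hl : ∀ y, θ' (θ y) = y)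
    (hr : ∀ y, θ (θ' y) = y) {A A' : K → EE N →L[ℝ] EE N} (hA : Continuous A)
    (hA' : Continuous A')
    (hall : ∀ y, A y * S.P y = A y ∧ S.P (θ y) * A y = A y ∧
      A' y * S.P (θ y) = A' y ∧ S.P y * A' y = A' y ∧ A' y * A y = S.P y ∧
      A y * A' y = S.P (θ y))
    (hdiff : ∀ δ > 0, ∃ ρ > 0, ∀ w y y', dist w y < ρ → dist w y' < ρ →
      ‖(S.e (θ y) - S.e (θ y')) - A w (S.e y - S.e y')‖ ≤ δ * dist y y') :
    ∃ Θ : ESys d N K, S.Same Θ ∧ (∀ y, Θ.f y = θ y) ∧ (∀ y, Θ.f.symm y = θ' y) ∧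
      (∀ y, Θ.A y = A y) ∧ (∀ y, Θ.A' y = A' y) ∧ (∀ y, Θ.P y = S.P y) :=
  ⟨{ f := { toFun := θ, invFun := θ', left_inv := hl, right_inv := hr, continuous_toFun := θc,
            continuous_invFun := θc' }
     P := S.P, A := A, A' := A', contP := S.contP, contA := hA, contA' := hA'
     PP := S.PP, Psa := S.Psa
     AP := fun y => (hall y).1, PA := fun y => (hall y).2.1
     A'P := fun y => (hall y).2.2.1, PA' := fun y => (hall y).2.2.2.1
     A'A := fun y => (hall y).2.2.2.2.1, AA' := fun y => (hall y).2.2.2.2.2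
     e := S.e, e_isom := S.e_isom, rankP := S.rankP, flat := S.flat, surj := S.surj
     diff := hdiff }, ⟨rfl, rfl⟩, fun _ => rfl, fun _ => rfl, fun _ => rfl, fun _ => rfl,
    fun _ => rfl⟩

theorem F2_χsub (x y y' : K) : S.χ x y - S.χ x y' = S.P x (S.e y - S.e y') := by
  unfold χ
  rw [← map_sub]
  congr 1
  abel

theorem F2_χc (x : K) : Continuous (S.χ x) := by
  have he : Continuous S.e := by
    refine (LipschitzWith.of_dist_le_mul (K := 1) fun a b => ?_).continuous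
    rw [dist_eq_norm, S.e_isom, NNReal.coe_one, one_mul]
  exact (S.P x).continuous.comp (he.sub continuous_const)

theorem F2_Pn (z : K) : ‖S.P z‖ ≤ 1 :=
  ContinuousLinearMap.opNorm_le_bound _ zero_le_one
    fun v => by rw [one_mul]; exact S.norm_P_le z v

open scoped Classical in
/-- the derivative of the bump map -/
theorem F2_der (hr : 0 < r) (hD : F2D S x r η D) (hη1 : η ≤ 1 / 2) {θ : K → K}
    (θc : Continuous θ) (θi : ∀ y, 3 / 2 * r ≤ dist x y → θ y = y)
    (θb : ∀ y, dist x y < 2 * r → dist x (θ y) < 2 * r ∧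
      S.χ x (θ y) = S.χ x y + D (S.χ x y))
    (θl : ∀ y y', dist x y < 2 * r → dist x y' < 2 * r → dist (θ y) (θ y') ≤ 3 * dist y y')
    (hχn : ∀ y, dist x y < 2 * r → 3 / 4 * dist x y ≤ ‖S.χ x y‖)
    (hu : ∀ y, dist x y < 2 * r → IsUnit (S.F2Q x y) ∧ ‖S.F2L x y‖ ≤ 2) :
    ∃ A A' : K → EE N →L[ℝ] EE N, Continuous A ∧ Continuous A' ∧
      (∀ y, A y * S.P y = A y ∧ S.P (θ y) * A y = A y ∧
        A' y * S.P (θ y) = A' y ∧ S.P y * A' y = A' y ∧ A' y * A y = S.P y ∧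
        A y * A' y = S.P (θ y)) ∧
      (∀ δ > 0, ∃ ρ > 0, ∀ w y y', dist w y < ρ → dist w y' < ρ →
        ‖(S.e (θ y) - S.e (θ y')) - A w (S.e y - S.e y')‖ ≤ δ * dist y y') ∧
      (∀ y, ‖A y - S.P y‖ ≤ 4 * η + 3 * ‖S.P (θ y) - S.P y‖) ∧
      (∀ y, ‖A' y - S.P y‖ ≤ 4 * η + 3 * ‖S.P (θ y) - S.P y‖) := by
  have hχT : ∀ y, S.χ x y ∈ S.T x := fun y => S.P_mem x _
  have hη0 : 0 ≤ η := (norm_nonneg _).trans (hD.bd 0)
  obtain ⟨B, hB⟩ : ∃ B : K → EE N →L[ℝ] EE N, ∀ y, B y = 1 + fderiv ℝ D (S.χ x y) :=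
    ⟨_, fun _ => rfl⟩
  obtain ⟨V, hV⟩ : ∃ V : K → EE N →L[ℝ] EE N, ∀ y, V y = Ring.inverse (B y) :=
    ⟨_, fun _ => rfl⟩
  have hBc : Continuous B := by
    have : B = fun y => 1 + fderiv ℝ D (S.χ x y) := funext hB
    rw [this]
    exact hD.contB.comp (F2_χc x)
  have hVc : Continuous V := by
    have : V = fun y => Ring.inverse (1 + fderiv ℝ D (S.χ x y)) :=
      funext fun y => by rw [hV, hB]
    rw [this]
    exact (hD.contV hη1).comp (F2_χc x)
  have hfar : ∀ y, 3 / 2 * r < dist x y → dist x y < 2 * r → B y = 1 ∧ V y = 1 := by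
    intro y hy hy'
    have e : fderiv ℝ D (S.χ x y) = 0 := by
      refine hD.fderiv_zero (hχT y) ?_
      have := hχn y hy'
      linarith
    have e1 : B y = 1 := by rw [hB, e, add_zero]
    exact ⟨e1, by rw [hV, e1, Ring.inverse_one]⟩
  obtain ⟨F, hF⟩ : ∃ F : K → EE N →L[ℝ] EE N, ∀ y, F y =
      S.F2L x (θ y) * (B y * (S.P x * S.P y)) := ⟨_, fun _ => rfl⟩
  obtain ⟨F', hF'⟩ : ∃ F : K → EE N →L[ℝ] EE N, ∀ y, F y =
      S.F2L x y * (V y * (S.P x * S.P (θ y))) := ⟨_, fun _ => rfl⟩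
  have hθb : ∀ y, dist x y < 2 * r → dist x (θ y) < 2 * r := fun y hy => (θb y hy).1
  have hFg : ∀ y, 3 / 2 * r < dist x y → dist x y < 2 * r → F y = S.P y := by
    intro y hy hy'
    rw [hF, θi y hy.le, (hfar y hy hy').1, one_mul]
    exact (S.F2L_spec (hu y hy').1).2.2.1
  have hFg' : ∀ y, 3 / 2 * r < dist x y → dist x y < 2 * r → F' y = S.P y := by
    intro y hy hy'
    rw [hF', θi y hy.le, (hfar y hy hy').2, one_mul]
    exact (S.F2L_spec (hu y hy').1).2.2.1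
  have hFc : ∀ y, dist x y < 2 * r → ContinuousAt F y := by
    intro y hy
    have k1 : ContinuousAt (fun y => S.F2L x (θ y)) y :=
      ContinuousAt.comp (f := θ) (S.F2L_contAt (hu _ (hθb y hy)).1) θc.continuousAt
    have k2 : F = fun y => S.F2L x (θ y) * (B y * (S.P x * S.P y)) := funext hF
    rw [k2]
    exact k1.mul (hBc.continuousAt.mul (continuousAt_const.mul S.contP.continuousAt))
  have hFc' : ∀ y, dist x y < 2 * r → ContinuousAt F' y := by
    intro y hy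
    have k2 : F' = fun y => S.F2L x y * (V y * (S.P x * S.P (θ y))) := funext hF'
    rw [k2]
    exact (S.F2L_contAt (hu y hy).1).mul (hVc.continuousAt.mul
      (continuousAt_const.mul (S.contP.comp θc).continuousAt))
  obtain ⟨A, hA⟩ : ∃ A : K → EE N →L[ℝ] EE N, A = fun y => if dist x y < 2 * r then F y else S.P y :=
    ⟨_, rfl⟩
  obtain ⟨A', hA'⟩ : ∃ A : K → EE N →L[ℝ] EE N,
      A = fun y => if dist x y < 2 * r then F' y else S.P y := ⟨_, rfl⟩
  have hcA : Continuous A := by rw [hA]; exact F2_glue hr hFc hFg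
  have hcA' : Continuous A' := by rw [hA']; exact F2_glue hr hFc' hFg'
  have hA1 : ∀ y, dist x y < 2 * r → A y = F y := fun y hy => by rw [hA]; exact if_pos hy
  have hA2 : ∀ y, ¬ dist x y < 2 * r → A y = S.P y := fun y hy => by rw [hA]; exact if_neg hy
  have hA1' : ∀ y, dist x y < 2 * r → A' y = F' y := fun y hy => by rw [hA']; exact if_pos hy
  have hA2' : ∀ y, ¬ dist x y < 2 * r → A' y = S.P y := fun y hy => by rw [hA']; exact if_neg hy
  clear hA hA'
  have hθo : ∀ y, ¬ dist x y < 2 * r → θ y = y := fun y hy => θi y (by linarith)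
  refine ⟨A, A', hcA, hcA', ?_, ?_, ?_, ?_⟩
  · intro y
    by_cases hy : dist x y < 2 * r
    · rw [hA1 y hy, hA1' y hy, hF, hF']
      obtain ⟨-, l2, l3, l4⟩ := S.F2L_spec (hu y hy).1
      obtain ⟨-, m2, m3, m4⟩ := S.F2L_spec (hu _ (hθb y hy)).1
      have hun := (hD.unit hη1 (S.χ x y)).1
      rw [← hB] at hun
      have v1 : V y * B y = 1 := by rw [hV]; exact Ring.inverse_mul_cancel _ hun
      have v2 : B y * V y = 1 := by rw [hV]; exact Ring.mul_inverse_cancel _ hun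
      have v2' := v2
      rw [hB] at v2'
      obtain ⟨w1, w2⟩ := F2_alg2 (S.F2_PP x) (hD.fderiv_mem (S.χ x y)) v2'
      rw [← hB] at w1
      exact F2_alg3 l2 l3 l4 m2 m3 m4 (S.F2_PP y) (S.F2_PP (θ y)) w1 w2 v1 v2
    · rw [hA2 y hy, hA2' y hy, hθo y hy]
      have := S.F2_PP y
      exact ⟨this, this, this, this, this, this⟩
  · refine F2_unif hcA ?_
    intro z δ hδ
    have t1 : Tendsto (fun p : K × K => p.1) (𝓝 (z, z)) (𝓝 z) := continuous_fst.tendsto _
    have t2 : Tendsto (fun p : K × K => p.2) (𝓝 (z, z)) (𝓝 z) := continuous_snd.tendsto _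
    by_cases hz : dist x z < 2 * r
    · have hev : ∀ᶠ y in 𝓝 z, dist x y < 2 * r :=
        (continuous_const.dist continuous_id).continuousAt.eventually (gt_mem_nhds hz)
      have k0 : ∀ᶠ p : K × K in 𝓝 (z, z), dist (θ p.1) (θ p.2) ≤ 3 * dist p.1 p.2 := by
        filter_upwards [t1.eventually hev, t2.eventually hev] with p q1 q2
        exact θl _ _ q1 q2
      have k1 := F2_strict_at hD θc (hu _ (hθb z hz)).1 (hev.mono fun y hy => (θb y hy).2) k0 hδ
      rw [hA1 z hz, hF, hB]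
      exact k1
    · rw [hA2 z hz]
      have h' : 3 / 2 * r < dist x z := by linarith
      have hev : ∀ᶠ y in 𝓝 z, 3 / 2 * r < dist x y :=
        (continuous_const.dist continuous_id).continuousAt.eventually (lt_mem_nhds h')
      obtain ⟨ρ2, hρ2, hflat⟩ := S.flat δ hδ
      have hball : ∀ᶠ y in 𝓝 z, dist z y < ρ2 := by
        filter_upwards [Metric.ball_mem_nhds z hρ2] with y hy
        rw [dist_comm]; exact hy
      filter_upwards [t1.eventually hev, t2.eventually hev, t1.eventually hball,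
        t2.eventually hball] with p q1 q2 q3 q4
      rw [θi _ q1.le, θi _ q2.le]
      exact hflat z _ _ q3 q4
  · intro y
    by_cases hy : dist x y < 2 * r
    · rw [hA1 y hy, hF]
      have hBn : ‖B y - 1‖ ≤ η := by
        rw [hB, add_sub_cancel_left]
        exact hD.bd _
      have k := (F2_norm5 (F2_Pn (S := S) x) (F2_Pn (S := S) y) (hu _ (hθb y hy)).2 hBn
        (S.F2L_spec (hu _ (hθb y hy)).1).2.2.1).1
      linarith
    · rw [hA2 y hy, sub_self, norm_zero]; positivity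
  · intro y
    by_cases hy : dist x y < 2 * r
    · rw [hA1' y hy, hF']
      obtain ⟨u1, u2, u3, u4⟩ := hD.unit hη1 (S.χ x y)
      rw [← hB, ← hV] at u2
      have k := (F2_norm5 (F2_Pn (S := S) x) (F2_Pn (S := S) (θ y)) (hu y hy).2 u2
        (S.F2L_spec (hu y hy).1).2.2.1).2
      rw [norm_sub_rev (S.P y)] at k
      linarith
    · rw [hA2' y hy, sub_self, norm_zero]; positivity

/-- F2: in the local coordinates at `x` the diffeomorphism `a ↦ a + Δ a` -/
theorem bump (S : ESys d N K) (x : K) : ∃ ρ > 0, ∀ ε > 0, ∃ η > 0, ∀ r > 0, r ≤ ρ →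
    ∀ Δ : EE N → EE N, ContDiff ℝ 1 Δ → (∀ a, Δ a ∈ S.T x) → (∀ a ∈ S.T x, r ≤ ‖a‖ → Δ a = 0) →
      (∀ a ∈ S.T x, ‖fderiv ℝ Δ a‖ ≤ η) → ∃ Θ : ESys d N K, S.Same Θ ∧ Θ.IdNear ε ∧
        (∀ y, 2 * r ≤ dist x y → Θ.f y = y) ∧
        (∀ y, dist x y < 2 * r → dist x (Θ.f y) < 2 * r ∧
          S.χ x (Θ.f y) = S.χ x y + Δ (S.χ x y)) := by
  obtain ⟨ρc, hρc, hc1, hc2⟩ := S.chart (1 / 4) (by norm_num) (by norm_num)
  obtain ⟨ρ1, hρ1, hnear⟩ := S.F2_near x (ε := 1) one_pos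
  refine ⟨min (ρc / 2) (ρ1 / 2), by positivity, ?_⟩
  obtain ⟨ρ, hρ⟩ : ∃ ρ, ρ = min (ρc / 2) (ρ1 / 2) := ⟨_, rfl⟩
  have hρ0 : 0 < ρ := by rw [hρ]; positivity
  rw [← hρ]
  intro ε hε
  have hPu : UniformContinuous S.P := CompactSpace.uniformContinuous_of_continuous S.contP
  obtain ⟨δ1, hδ1, hPδ⟩ := Metric.uniformContinuous_iff.1 hPu (ε / 8) (by positivity)
  refine ⟨min (1 / 2) (min (ε / 16) (min δ1 ε / (4 * ρ))), by positivity, ?_⟩
  intro r hr hrρ Δ h1 h2 h3 h4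
  obtain ⟨η, hη⟩ : ∃ η, η = min (1 / 2) (min (ε / 16) (min δ1 ε / (4 * ρ))) := ⟨_, rfl⟩
  rw [← hη] at h4
  have hη0 : 0 ≤ η := by rw [hη]; positivity
  have hη1 : η ≤ 1 / 2 := hη ▸ min_le_left _ _
  have hη2 : η ≤ ε / 16 := hη ▸ (min_le_right _ _).trans (min_le_left _ _)
  have hη3 : η ≤ min δ1 ε / (4 * ρ) := hη ▸ (min_le_right _ _).trans (min_le_right _ _)
  have hη4 : 4 * (r * η) ≤ min δ1 ε := by
    have k1 : η * (4 * ρ) ≤ min δ1 ε := (le_div_iff₀ (by positivity)).1 hη3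
    have k2 : r * η ≤ ρ * η := mul_le_mul_of_nonneg_right hrρ hη0
    linarith
  have hη5 : 4 * (r * η) ≤ δ1 := hη4.trans (min_le_left _ _)
  have hη6 : 4 * (r * η) ≤ ε := hη4.trans (min_le_right _ _)
  have hr2 : r ≤ ρc / 2 := hrρ.trans (hρ ▸ min_le_left _ _)
  have hr3 : r ≤ ρ1 / 2 := hrρ.trans (hρ ▸ min_le_right _ _)
  have hD := F2D.of (S := S) (x := x) (r := r) h1 h2 h3 h4 hη0
  obtain ⟨D, hDdef⟩ : ∃ D : EE N → EE N, D = fun a => Δ (S.P x a) := ⟨_, rfl⟩
  rw [← hDdef] at hD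
  obtain ⟨G', hG1, hG2⟩ := hD.inv hη0 hη1
  obtain ⟨g1, g2, g3, g4, g5, g6, g7, g8⟩ := hD.inv_spec hη1 hG1 hG2
  have hc1' : ∀ y y', dist x y < ρc → dist x y' < ρc →
      3 / 4 * dist y y' ≤ ‖S.P x (S.e y - S.e y')‖ ∧ ‖S.P x (S.e y - S.e y')‖ ≤ dist y y' := by
    intro y y' hy hy'
    obtain ⟨k1, k2⟩ := hc1 x y y' hy hy'
    exact ⟨by linarith, k2⟩
  have hc2' : ∀ v ∈ S.T x, ‖v‖ < ρc → ∃ y, S.P x (S.e y - S.e x) = v ∧
      dist x y ≤ 5 / 4 * ‖v‖ := by
    intro v hv hvρ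
    obtain ⟨y, k1, k2, -⟩ := hc2 x v hv hvρ
    exact ⟨y, k1, by linarith⟩
  have hrc : 2 * r ≤ ρc := by linarith
  obtain ⟨θ, θc, θi, θb, θl⟩ := S.F2_map x hc1' hc2' hr hrc (fun a => a + D a) g1 g2 g3 g4
  obtain ⟨θ', θc', θi', θb', -⟩ := S.F2_map x hc1' hc2' hr hrc G' g5 g6 g7 g8
  have hχT : ∀ y, S.χ x y ∈ S.T x := fun y => S.P_mem x _
  have hinj : ∀ y y', dist x y < 2 * r → dist x y' < 2 * r → S.χ x y = S.χ x y' → y = y' := by
    intro y y' hy hy' he
    have h := (hc1' y y' (by linarith) (by linarith)).1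
    rw [← F2_χsub, he, sub_self, norm_zero] at h
    have : dist y y' ≤ 0 := by linarith
    exact dist_le_zero.1 this
  have hχn : ∀ y, dist x y < 2 * r → 3 / 4 * dist x y ≤ ‖S.χ x y‖ := by
    intro y hy
    have h := (hc1' y x (by linarith) (by rw [dist_self]; linarith)).1
    rw [dist_comm y x] at h
    exact h
  have hl : ∀ y, θ' (θ y) = y := by
    intro y
    by_cases h : dist x y < 2 * r
    · obtain ⟨a1, a2⟩ := θb y h
      obtain ⟨b1, b2⟩ := θb' (θ y) a1
      refine hinj _ _ b1 h ?_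
      rw [b2, a2]
      exact hG1 _
    · rw [θi y (by linarith), θi' y (by linarith)]
  have hr' : ∀ y, θ (θ' y) = y := by
    intro y
    by_cases h : dist x y < 2 * r
    · obtain ⟨a1, a2⟩ := θb' y h
      obtain ⟨b1, b2⟩ := θb (θ' y) a1
      refine hinj _ _ b1 h ?_
      rw [b2, a2]
      exact hG2 _
    · rw [θi' y (by linarith), θi y (by linarith)]
  have hmove : ∀ y, dist y (θ y) ≤ 3 * (r * η) := by
    intro y
    by_cases h : dist x y < 2 * r
    · obtain ⟨a1, a2⟩ := θb y h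
      have k1 := (hc1' (θ y) y (by linarith) (by linarith)).1
      rw [← F2_χsub, a2] at k1
      have k2 : S.χ x y + D (S.χ x y) - S.χ x y = D (S.χ x y) := by abel
      have k3 := hD.small hr hη0 (hχT y)
      have k4 : 3 / 4 * dist (θ y) y ≤ ‖D (S.χ x y)‖ := by rw [← k2]; exact k1
      rw [dist_comm y]
      have := mul_nonneg hr.le hη0
      linarith
    · rw [θi y (by linarith), dist_self]; positivity
  have hmove' : ∀ y, dist y (θ' y) ≤ 3 * (r * η) := by
    intro y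
    have := hmove (θ' y)
    rwa [hr', dist_comm] at this
  obtain ⟨A, A', hcA, hcA', hall, hdiff, hAn, hAn'⟩ := F2_der (S := S) hr hD hη1 θc θi θb θl hχn
    (fun y hy => by
      obtain ⟨k1, k2, k3⟩ := hnear y (by linarith)
      refine ⟨k1, ?_⟩
      have k4 := norm_add_le (S.F2L x y - S.P x) (S.P x)
      rw [sub_add_cancel] at k4
      have k5 := F2_Pn (S := S) x
      linarith)
  obtain ⟨Θ, k1, k2, k3, k4, k5, k6⟩ := F2_mk (S := S) θc θc' hl hr' hcA hcA' hall hdiff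
  have hPθ : ∀ y, ‖S.P (θ y) - S.P y‖ ≤ ε / 8 := by
    intro y
    by_cases h0 : r * η = 0
    · have := hmove y
      rw [h0, mul_zero] at this
      have h1 : y = θ y := dist_le_zero.1 this
      rw [← h1, sub_self, norm_zero]
      positivity
    · have h1 : 0 < r * η := lt_of_le_of_ne (mul_nonneg hr.le hη0) (Ne.symm h0)
      have h2 : dist (θ y) y < δ1 := by
        have := hmove y
        rw [dist_comm] at this
        linarith
      have h3 := hPδ h2
      rw [dist_eq_norm] at h3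
      exact h3.le
  have hsm : 3 * (r * η) < ε := by
    by_cases h0 : r * η = 0
    · rw [h0, mul_zero]; exact hε
    · have h1 : 0 < r * η := lt_of_le_of_ne (mul_nonneg hr.le hη0) (Ne.symm h0)
      linarith
  refine ⟨Θ, k1, ⟨?_, ?_, ?_, ?_⟩, ?_, ?_⟩
  · intro y
    rw [k2]
    exact (hmove y).trans_lt hsm
  · intro y
    rw [k3]
    exact (hmove' y).trans_lt hsm
  · intro y
    rw [k4, k6]
    have := hAn y
    have := hPθ y
    linarith
  · intro y
    rw [k5, k6]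
    have := hAn' y
    have := hPθ y
    linarith
  · intro y hy
    rw [k2]
    exact θi y (by linarith)
  · intro y hy
    rw [k2]
    obtain ⟨l1, l2⟩ := θb y hy
    refine ⟨l1, ?_⟩
    rw [l2, hDdef]
    change S.χ x y + Δ (S.P x (S.χ x y)) = _
    rw [S.mem_T.1 (hχT y)]

end ESys

end Pool.MP85
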