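import Pool.Agent.Lib.MP_85e637_an.C10
import Pool.Agent.Lib.MP_85e637_an.F2

/-!
# F2a: local translations and moving a point to a nearby point
-/

open Filter Topology Set Metric Module

namespace Pool.MP85
variable {d N : ℕ} {K : Type} [MetricSpace K] [CompactSpace K]

namespace ESys

theorem F2a_chi_le (S : ESys d N K) (x y : K) : ‖S.χ x y‖ ≤ dist x y := by
  refine (S.toCoc.C10_norm_P_le x _).trans ?_
  rw [S.e_isom, dist_comm]

theorem F2a_chi_mem (S : ESys d N K) (x y : K) : S.χ x y ∈ S.T x := ⟨_, rfl⟩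

/-- the common part of `push` and `push_pt` -/
theorem F2a_key (S : ESys d N K) (x : K) : ∃ ρ > 0, ∀ r > 0, r ≤ ρ → ∀ ε > 0, ∃ η > 0,
    ∀ v ∈ S.T x, ‖v‖ ≤ η → ∃ Θ : ESys d N K, S.Same Θ ∧ Θ.IdNear ε ∧
        (∀ y, r ≤ dist x y → Θ.f y = y) ∧
        (∀ y, dist x y < r → dist x (Θ.f y) < r) ∧
        (∀ y, dist x y ≤ r / 8 → S.χ x (Θ.f y) = S.χ x y + v) := by
  obtain ⟨ρ, hρ, hb0⟩ := S.bump x
  refine ⟨ρ, hρ, fun r hr hrρ ε hε => ?_⟩
  obtain ⟨η0, hη0, hb⟩ := hb0 ε hε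
  let β : ContDiffBump (0 : EE N) := ⟨r / 8, r / 2, by positivity, by linarith⟩
  have hβ : ContDiff ℝ 1 (fun a => β a) := β.contDiff
  obtain ⟨C, hC⟩ := (β.hasCompactSupport.fderiv (𝕜 := ℝ)).exists_bound_of_continuous
    (hβ.continuous_fderiv one_ne_zero)
  have hC0 : 0 ≤ C := (norm_nonneg _).trans (hC 0)
  refine ⟨η0 / (C + 1), by positivity, fun v hv hvη => ?_⟩
  obtain ⟨Θ, h1, h2, h3, h4⟩ := hb (r / 2) (by positivity) (by linarith) (fun a => β a • v)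
    (hβ.smul contDiff_const) (fun a => Submodule.smul_mem _ _ hv)
    (fun a _ ha => by
      have : β a = 0 := β.zero_of_le_dist (by rw [dist_zero_right]; exact ha)
      rw [this, zero_smul])
    (fun a _ => by
      have h5 : HasFDerivAt (fun a => β a • v) ((fderiv ℝ (fun a => β a) a).smulRight v) a :=
        ((hβ.differentiable one_ne_zero a).hasFDerivAt).smul_const v
      rw [h5.fderiv, ContinuousLinearMap.norm_smulRight_apply]
      calc ‖fderiv ℝ (fun a => β a) a‖ * ‖v‖ ≤ C * (η0 / (C + 1)) :=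
            mul_le_mul (hC a) hvη (norm_nonneg _) hC0
        _ ≤ η0 := by
            rw [mul_div_assoc', div_le_iff₀ (by positivity)]
            nlinarith)
  refine ⟨Θ, h1, h2, fun y hy => h3 y (by linarith), fun y hy => ?_, fun y hy => ?_⟩
  · have := (h4 y (by linarith)).1
    linarith
  · rw [(h4 y (by linarith)).2]
    have h6 : β (S.χ x y) = 1 := β.one_of_mem_closedBall (by
      rw [mem_closedBall, dist_zero_right]
      exact (S.F2a_chi_le x y).trans hy)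
    simp only [h6, one_smul]

/-- F2a: local translations -/
theorem push (S : ESys d N K) (x : K) : ∃ ρ > 0, ∀ r > 0, r ≤ ρ → ∀ ε > 0, ∃ η > 0,
    ∀ v ∈ S.T x, ‖v‖ ≤ η → ∃ Θ : ESys d N K, S.Same Θ ∧ Θ.IdNear ε ∧
        (∀ y, r ≤ dist x y → Θ.f y = y) ∧
        (∀ y, dist x y ≤ r / 8 → S.χ x (Θ.f y) = S.χ x y + v) := by
  obtain ⟨ρ, hρ, h⟩ := S.F2a_key x
  refine ⟨ρ, hρ, fun r hr hrρ ε hε => ?_⟩
  obtain ⟨η, hη, h'⟩ := h r hr hrρ ε hε
  refine ⟨η, hη, fun v hv hvη => ?_⟩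
  obtain ⟨Θ, h1, h2, h3, _, h5⟩ := h' v hv hvη
  exact ⟨Θ, h1, h2, h3, h5⟩

/-- F2b: moving a point to a nearby point -/
theorem push_pt (S : ESys d N K) (x : K) : ∃ ρ > 0, ∀ r > 0, r ≤ ρ → ∀ ε > 0, ∃ η > 0,
    ∀ a b, dist x a ≤ η → dist x b ≤ η → ∃ Θ : ESys d N K, S.Same Θ ∧ Θ.IdNear ε ∧
        (∀ y, r ≤ dist x y → Θ.f y = y) ∧ Θ.f a = b := by
  obtain ⟨ρ1, hρ1, h⟩ := S.F2a_key x
  obtain ⟨ρ2, hρ2, hch, _⟩ := S.chart (1 / 2) (by norm_num) (by norm_num)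
  refine ⟨min ρ1 (ρ2 / 2), by positivity, fun r hr hrρ ε hε => ?_⟩
  have hr1 : r ≤ ρ1 := hrρ.trans (min_le_left _ _)
  have hr2 : r ≤ ρ2 / 2 := hrρ.trans (min_le_right _ _)
  obtain ⟨η, hη, h'⟩ := h r hr hr1 ε hε
  refine ⟨min (η / 2) (r / 8), by positivity, fun a b ha hb => ?_⟩
  have ha1 : dist x a ≤ η / 2 := ha.trans (min_le_left _ _)
  have ha2 : dist x a ≤ r / 8 := ha.trans (min_le_right _ _)
  have hb1 : dist x b ≤ η / 2 := hb.trans (min_le_left _ _)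
  have hb2 : dist x b ≤ r / 8 := hb.trans (min_le_right _ _)
  obtain ⟨Θ, h1, h2, h3, h4, h5⟩ := h' (S.χ x b - S.χ x a)
    (Submodule.sub_mem _ (S.F2a_chi_mem x b) (S.F2a_chi_mem x a))
    ((norm_sub_le _ _).trans (by
      have := S.F2a_chi_le x a
      have := S.F2a_chi_le x b
      linarith))
  refine ⟨Θ, h1, h2, h3, ?_⟩
  have h6 : S.χ x (Θ.f a) = S.χ x b := by rw [h5 a ha2]; abel
  have h7 : dist x (Θ.f a) < r := h4 a (by linarith)
  have h8 := (hch x (Θ.f a) b (by linarith) (by linarith)).1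
  have h9 : S.P x (S.e (Θ.f a) - S.e b) = 0 := by
    have : S.e (Θ.f a) - S.e b = (S.e (Θ.f a) - S.e x) - (S.e b - S.e x) := by abel
    rw [this, map_sub]
    exact sub_eq_zero.2 h6
  rw [h9, norm_zero] at h8
  exact dist_le_zero.1 (by linarith)

end ESys
end Pool.MP85
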