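import Pool.Agent.Lib.MP_85e637_an.S2Defs
import Pool.Agent.Lib.MP_85e637_an.C07

/-!
# Stage 2, N0: basic facts on Axiom A systems
-/

open Filter Topology Set Metric Module

namespace Pool.MP85
variable {d N : ℕ} {K : Type} [MetricSpace K] [CompactSpace K]

omit [CompactSpace K] in
/-- upper semicontinuity of the dimension of a family of subspaces with closed graph -/
theorem N0_finrank_le {V : K → Submodule ℝ (EE N)} {R : Set K}
    (hcl : IsClosed {q : K × EE N | q.1 ∈ R ∧ q.2 ∈ V q.1}) {y : ℕ → K} {y0 : K}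
    (hy : ∀ n, y n ∈ R) (hlim : Tendsto y atTop (𝓝 y0)) {j : ℕ}
    (hj : ∀ n, j ≤ finrank ℝ (V (y n))) : j ≤ finrank ℝ (V y0) := by
  have h1 : ∀ n, ∃ b : Fin j → EE N, Orthonormal ℝ b ∧ ∀ i, b i ∈ V (y n) := by
    intro n
    refine ⟨fun i => (stdOrthonormalBasis ℝ (V (y n)) (Fin.castLE (hj n) i) : EE N), ?_, fun i =>
      Submodule.coe_mem _⟩
    have h2 : Orthonormal ℝ fun i : Fin j =>
        stdOrthonormalBasis ℝ (V (y n)) (Fin.castLE (hj n) i) :=
      (stdOrthonormalBasis ℝ (V (y n))).orthonormal.comp _ (Fin.castLE_injective _)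
    exact h2.comp_linearIsometry (V (y n)).subtypeₗᵢ
  choose b hb1 hb2 using h1
  have h3 : ∀ n, b n ∈ closedBall (0 : Fin j → EE N) 1 := by
    intro n
    rw [mem_closedBall_zero_iff, pi_norm_le_iff_of_nonneg zero_le_one]
    exact fun i => ((hb1 n).1 i).le
  obtain ⟨b0, -, φ, hφ, hφlim⟩ := (isCompact_closedBall (0 : Fin j → EE N) 1).tendsto_subseq h3
  have h4 : ∀ i, Tendsto (fun n => b (φ n) i) atTop (𝓝 (b0 i)) := fun i =>
    (tendsto_pi_nhds.1 hφlim) i
  have h5 : ∀ i, b0 i ∈ V y0 := by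
    intro i
    have h6 : Tendsto (fun n => ((y (φ n), b (φ n) i) : K × EE N)) atTop (𝓝 (y0, b0 i)) :=
      (hlim.comp hφ.tendsto_atTop).prodMk_nhds (h4 i)
    exact (hcl.mem_of_tendsto h6 (Eventually.of_forall fun n => ⟨hy _, hb2 _ i⟩)).2
  have h7 : Orthonormal ℝ b0 := by
    rw [orthonormal_iff_ite]
    intro i k
    have h8 : Tendsto (fun n => inner ℝ (b (φ n) i) (b (φ n) k)) atTop
        (𝓝 (inner ℝ (b0 i) (b0 k))) := (h4 i).inner (h4 k)
    have h9 : (fun n => inner ℝ (b (φ n) i) (b (φ n) k)) =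
        fun _ => if i = k then (1 : ℝ) else 0 := by
      funext n
      exact orthonormal_iff_ite.1 (hb1 (φ n)) i k
    rw [h9] at h8
    exact tendsto_nhds_unique h8 tendsto_const_nhds
  have h10 : LinearIndependent ℝ fun i => (⟨b0 i, h5 i⟩ : V y0) := by
    have := h7.linearIndependent
    refine LinearIndependent.of_comp (V y0).subtype ?_
    exact this
  simpa using h10.fintype_card_le_finrank

namespace BSys
variable (S : BSys d N K)

theorem hypOn : S.toCoc.HypOn S.Om := ⟨S.Om_closed, S.Om_inv, S.hyp, S.split⟩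

theorem Om_dim {x : K} (hx : x ∈ S.Om) : finrank ℝ (S.Es x) + finrank ℝ (S.Eu x) = d := by
  obtain ⟨h1, h2⟩ := S.split x hx
  have h3 := Submodule.finrank_sup_add_finrank_inf_eq (S.Es x) (S.Eu x)
  rw [h1, h2.eq_bot, finrank_bot, S.rankP] at h3
  omega

/-- orbits converge to `Om` -/
theorem N0_infDist (x : K) : Tendsto (fun n => infDist (fw S.f n x) S.Om) atTop (𝓝 0) := by
  rw [Metric.tendsto_atTop']
  intro ε hε
  have h1 : ∀ᶠ n in atTop, infDist (fw S.f n x) S.Om < ε := by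
    by_contra hcon
    rw [not_eventually] at hcon
    have hcl : IsClosed {z : K | ε ≤ infDist z S.Om} :=
      isClosed_le continuous_const (continuous_infDist_pt _)
    obtain ⟨z, hz, hz2⟩ := hcl.isCompact.exists_mapClusterPt_of_frequently
      (hcon.mono fun n hn => not_lt.1 hn)
    have hz3 : z ∈ S.Om := S.Om_fw x z hz2
    have hz4 : ε ≤ infDist z S.Om := hz
    rw [infDist_zero_of_mem hz3] at hz4
    linarith
  obtain ⟨n0, hn0⟩ := eventually_atTop.1 h1
  refine ⟨n0, fun n hn => ?_⟩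
  rw [Real.dist_0_eq_abs, abs_of_nonneg infDist_nonneg]
  exact hn0 n hn.le

theorem N0_infDist' (x : K) : Tendsto (fun n => infDist (bk S.f n x) S.Om) atTop (𝓝 0) := by
  rw [Metric.tendsto_atTop']
  intro ε hε
  have h1 : ∀ᶠ n in atTop, infDist (bk S.f n x) S.Om < ε := by
    by_contra hcon
    rw [not_eventually] at hcon
    have hcl : IsClosed {z : K | ε ≤ infDist z S.Om} :=
      isClosed_le continuous_const (continuous_infDist_pt _)
    obtain ⟨z, hz, hz2⟩ := hcl.isCompact.exists_mapClusterPt_of_frequently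
      (hcon.mono fun n hn => not_lt.1 hn)
    have hz3 : z ∈ S.Om := S.Om_bk x z hz2
    have hz4 : ε ≤ infDist z S.Om := hz
    rw [infDist_zero_of_mem hz3] at hz4
    linarith
  obtain ⟨n0, hn0⟩ := eventually_atTop.1 h1
  refine ⟨n0, fun n hn => ?_⟩
  rw [Real.dist_0_eq_abs, abs_of_nonneg infDist_nonneg]
  exact hn0 n hn.le

theorem dim_fw {x y : K} (h : MapClusterPt y atTop (fun n : ℕ => fw S.f n x)) :
    finrank ℝ (S.Es x) = finrank ℝ (S.Es y) :=
  (S.hypOn.dim_eq S.rankP (S.Om_fw x y h) (S.N0_infDist x) h).1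

theorem dim_bk {x y : K} (h : MapClusterPt y atTop (fun n : ℕ => bk S.f n x)) :
    finrank ℝ (S.Eu x) = finrank ℝ (S.Eu y) :=
  (S.hypOn.symm.dim_eq (x := x) (y := y) S.rankP (S.Om_bk x y h) (S.N0_infDist' x) h).1

theorem Oj_closed (j : ℕ) : IsClosed (S.Oj j) := by
  refine isClosed_of_closure_subset fun y0 hy0 => ?_
  obtain ⟨y, hy, hlim⟩ := mem_closure_iff_seq_limit.1 hy0
  have h0 : y0 ∈ S.Om := S.Om_closed.mem_of_tendsto hlim (Eventually.of_forall fun n => (hy n).1)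
  have h1 : j ≤ finrank ℝ (S.Es y0) :=
    N0_finrank_le S.hypOn.closed_Es (fun n => (hy n).1) hlim fun n => (hy n).2.ge
  have h2 : d - j ≤ finrank ℝ (S.Eu y0) := by
    refine N0_finrank_le S.hypOn.closed_Eu (fun n => (hy n).1) hlim fun n => ?_
    have h3 := S.Om_dim (hy n).1
    have h4 := (hy n).2
    omega
  have h3 := S.Om_dim h0
  have h4 := S.Om_dim (hy 0).1
  have h5 := (hy 0).2
  exact ⟨h0, by omega⟩

theorem Oj_inv (j : ℕ) (x : K) : S.f x ∈ S.Oj j ↔ x ∈ S.Oj j := by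
  show (S.f x ∈ S.Om ∧ finrank ℝ (S.Es (S.f x)) = j) ↔ (x ∈ S.Om ∧ finrank ℝ (S.Es x) = j)
  rw [S.Om_inv, S.finrank_Es_f]

/-- closed neighbourhoods of `Oj` -/
theorem N0_nbhd_closed (j : ℕ) (δ : ℝ) : IsClosed {z : K | ∃ y ∈ S.Oj j, dist z y ≤ δ} := by
  have h1 : {z : K | ∃ y ∈ S.Oj j, dist z y ≤ δ} =
      Prod.fst '' {q : K × K | q.2 ∈ S.Oj j ∧ dist q.1 q.2 ≤ δ} := by
    ext z
    constructor
    · rintro ⟨y, hy, hd⟩
      exact ⟨(z, y), ⟨hy, hd⟩, rfl⟩
    · rintro ⟨⟨z', y⟩, ⟨hy, hd⟩, rfl⟩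
      exact ⟨y, hy, hd⟩
  rw [h1]
  refine isClosedMap_fst_of_compactSpace _ ?_
  exact ((S.Oj_closed j).preimage continuous_snd).inter
    (isClosed_le (continuous_fst.dist continuous_snd) continuous_const)

theorem RN_closed (j : ℕ) (δ : ℝ) (n0 : ℕ) : IsClosed (S.RN j δ n0) := by
  have h1 : S.RN j δ n0 =
      ⋂ n : ℕ, ⋂ _ : n0 ≤ n, {x : K | fw S.f n x ∈ {z : K | ∃ y ∈ S.Oj j, dist z y ≤ δ}} := by
    ext x
    simp only [mem_iInter]
    exact Iff.rfl
  rw [h1]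
  exact isClosed_iInter fun n => isClosed_iInter fun _ =>
    (S.N0_nbhd_closed j δ).preimage (S.f.continuous.iterate n)

theorem RN_fw (j : ℕ) (δ : ℝ) (n0 : ℕ) {x : K} (hx : x ∈ S.RN j δ n0) : S.f x ∈ S.RN j δ n0 := by
  intro n hn
  rw [← fw_succ]
  exact hx (n + 1) (by omega)

theorem RN_wsl (j : ℕ) {δ ε : ℝ} (n0 : ℕ) {x y : K} (hx : x ∈ S.RN j δ n0)
    (hy : y ∈ WSl S.f ε x) : y ∈ S.RN j (δ + ε) n0 := by
  intro n hn
  obtain ⟨z, hz, hd⟩ := hx n hn
  refine ⟨z, hz, ?_⟩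
  have h1 : dist (fw S.f n x) (fw S.f n y) ≤ ε := hy n
  have h2 := dist_triangle (fw S.f n y) (fw S.f n x) z
  have h3 := dist_comm (fw S.f n y) (fw S.f n x)
  linarith

theorem exists_RN {δ : ℝ} (hδ : 0 < δ) (x : K) : ∃ n0, x ∈ S.RN (finrank ℝ (S.Es x)) δ n0 := by
  have h1 : ∀ᶠ n in atTop, ∃ y ∈ S.Oj (finrank ℝ (S.Es x)), dist (fw S.f n x) y ≤ δ := by
    by_contra hcon
    rw [not_eventually] at hcon
    have hcl : IsClosed {z : K | ∀ y ∈ S.Oj (finrank ℝ (S.Es x)), δ ≤ dist z y} := by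
      have h2 : {z : K | ∀ y ∈ S.Oj (finrank ℝ (S.Es x)), δ ≤ dist z y} =
          ⋂ y ∈ S.Oj (finrank ℝ (S.Es x)), {z : K | δ ≤ dist z y} := by
        ext z
        simp only [mem_iInter]
        exact Iff.rfl
      rw [h2]
      exact isClosed_biInter fun y _ => isClosed_le continuous_const
        (continuous_id.dist continuous_const)
    obtain ⟨z, hz, hz2⟩ := hcl.isCompact.exists_mapClusterPt_of_frequently
      (hcon.mono fun n hn => by
        push Not at hn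
        exact fun y hy => (hn y hy).le)
    have hz3 : z ∈ S.Oj (finrank ℝ (S.Es x)) := ⟨S.Om_fw x z hz2, (S.dim_fw hz2).symm⟩
    have hz4 := hz z hz3
    rw [dist_self] at hz4
    linarith
  obtain ⟨n0, hn0⟩ := eventually_atTop.1 h1
  exact ⟨n0, fun n hn => hn0 n hn⟩

/-- for small `δ` all points of `RN j δ n0` have index `j` -/
theorem RN_dim : ∃ δ0 > 0, ∀ j n0, ∀ x ∈ S.RN j δ0 n0, finrank ℝ (S.Es x) = j := by
  obtain ⟨δ1, hδ1, hsep⟩ : ∃ δ1 > 0, ∀ z ∈ S.Om, ∀ y ∈ S.Om,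
      finrank ℝ (S.Es z) ≠ finrank ℝ (S.Es y) → δ1 ≤ dist z y := by
    set Q : Set (K × K) := {q | q.1 ∈ S.Om ∧ q.2 ∈ S.Om ∧
      finrank ℝ (S.Es q.1) ≠ finrank ℝ (S.Es q.2)} with hQ
    have hfr : ∀ x, finrank ℝ (S.Es x) ∈ Finset.range (N + 1) := by
      intro x
      have h1 := Submodule.finrank_le (S.Es x)
      rw [finrank_euclideanSpace_fin] at h1
      exact Finset.mem_range.2 (by omega)
    have hQ2 : Q = ⋃ i ∈ (Finset.range (N + 1) ×ˢ Finset.range (N + 1)).filter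
        (fun p => p.1 ≠ p.2), S.Oj i.1 ×ˢ S.Oj i.2 := by
      ext ⟨z, y⟩
      simp only [mem_iUnion]
      constructor
      · rintro ⟨h1, h2, h3⟩
        exact ⟨(finrank ℝ (S.Es z), finrank ℝ (S.Es y)), Finset.mem_filter.2
          ⟨Finset.mem_product.2 ⟨hfr z, hfr y⟩, h3⟩, ⟨h1, rfl⟩, ⟨h2, rfl⟩⟩
      · rintro ⟨⟨i, j⟩, h1, ⟨h2, h3⟩, ⟨h4, h5⟩⟩
        have h6 := (Finset.mem_filter.1 h1).2
        refine ⟨h2, h4, ?_⟩
        show finrank ℝ (S.Es z) ≠ finrank ℝ (S.Es y)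
        simp only at h3 h5 h6
        rw [h3, h5]
        exact h6
    have hQc : IsCompact Q := by
      rw [hQ2]
      exact (isClosed_biUnion_finset fun i _ =>
        ((S.Oj_closed i.1).prod (S.Oj_closed i.2))).isCompact
    rcases Q.eq_empty_or_nonempty with he | hne
    · refine ⟨1, one_pos, fun z hz y hy h => ?_⟩
      have : (z, y) ∈ Q := ⟨hz, hy, h⟩
      rw [he] at this
      exact this.elim
    · obtain ⟨q, hq, hmin⟩ := hQc.exists_isMinOn hne
        (continuous_fst.dist continuous_snd : Continuous fun q : K × K => dist q.1 q.2).continuousOn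
      have hq2 : q.1 ≠ q.2 := by
        intro h
        have := hq.2.2
        rw [h] at this
        exact this rfl
      exact ⟨dist q.1 q.2, dist_pos.2 hq2, fun z hz y hy h =>
        hmin (show (z, y) ∈ Q from ⟨hz, hy, h⟩)⟩
  refine ⟨δ1 / 2, half_pos hδ1, fun j n0 x hx => ?_⟩
  obtain ⟨z, -, hz⟩ := isCompact_univ.exists_mapClusterPt_of_frequently
    (l := (atTop : Filter ℕ)) (f := fun n : ℕ => fw S.f n x)
    (Eventually.of_forall fun n => mem_univ _).frequently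
  have h1 : z ∈ {z : K | ∃ y ∈ S.Oj j, dist z y ≤ δ1 / 2} := by
    refine (S.N0_nbhd_closed j (δ1 / 2)).closure_subset ?_
    rw [mem_closure_iff_clusterPt]
    have h0 : ClusterPt z (Filter.map (fun n : ℕ => fw S.f n x) atTop) := hz
    refine h0.mono ?_
    rw [le_principal_iff]
    exact eventually_atTop.2 ⟨n0, fun n hn => hx n hn⟩
  obtain ⟨y, hy, hd⟩ := h1
  have h2 : z ∈ S.Om := S.Om_fw x z hz
  rw [S.dim_fw hz]
  by_contra h3
  have h4 := hsep z h2 y hy.1 (by rw [hy.2]; exact h3)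
  linarith

end BSys
end Pool.MP85
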