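import Pool.Agent.Lib.MP_85e637_an.S2Defs
import Pool.Agent.Lib.MP_85e637_an.C05
import Pool.Agent.Lib.MP_85e637_an.C08a0
import Pool.Agent.Lib.MP_85e637_an.C09
import Pool.Agent.Lib.MP_85e637_an.C12

/-!
# F6a: finite hyperbolic sets have local stable and unstable manifolds
-/

open Filter Topology Set Metric Module

namespace Pool.MP85
variable {d N : ℕ} {K : Type} [MetricSpace K] [CompactSpace K]

/-- over a closed hyperbolic set of constant index the bundle `Es` is a contracted bundle for all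
large powers -/
theorem F6a_cb (S : ESys d N K) {Om R : Set K} (h : S.toCoc.HypOn Om) (hR : R ⊆ Om)
    (hRc : IsClosed R) (hRi : ∀ x ∈ R, S.f x ∈ R) {k : ℕ}
    (hk : ∀ x ∈ R, finrank ℝ (S.Es x) = k) :
    ∃ j0 > 0, ∀ j ≥ j0, CB (S.epow j) R (fun x => S.Es x) k := by
  obtain ⟨c, lam, h0, h1, h2⟩ := h.hyp
  obtain ⟨κ, hκ0, hκ⟩ := h.C05_angle
  set c' : ℝ := max c 0 with hc'
  have hc'0 : 0 ≤ c' := le_max_right _ _
  have hlim : Tendsto (fun n : ℕ => 8 * (c' * lam ^ n * (κ + 1))) atTop (𝓝 0) := by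
    have h3 := (tendsto_pow_atTop_nhds_zero_of_lt_one h0.le h1).const_mul c'
    have h4 := (h3.mul_const (κ + 1)).const_mul 8
    simpa using h4
  obtain ⟨j1, hj1⟩ := (hlim.eventually (gt_mem_nhds one_pos)).exists_forall_of_atTop
  refine ⟨j1 + 1, Nat.succ_pos _, fun j hj => ?_⟩
  have hj0 : 0 < j := by omega
  have hsmall : 8 * (c' * lam ^ j * (κ + 1)) < 1 := hj1 j (by omega)
  have hcl : 0 ≤ c' * lam ^ j := by positivity
  have hEs : ∀ x, (S.epow j).Es x = S.Es x := fun x => S.toCoc.cpow_Es hj0 x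
  have hfwR : ∀ n, ∀ x ∈ R, fw S.f n x ∈ R := by
    intro n
    induction n with
    | zero => intro x hx; exact hx
    | succ n ih => intro x hx; rw [fw_succ]; exact ih _ (hRi x hx)
  have hs : ∀ x ∈ Om, ∀ v ∈ S.Es x, ‖S.An j x v‖ ≤ c' * lam ^ j * ‖v‖ := by
    intro x hx v hv
    refine ((h2 x hx).1 v hv j).trans ?_
    refine mul_le_mul_of_nonneg_right ?_ (norm_nonneg _)
    exact mul_le_mul_of_nonneg_right (le_max_left _ _) (pow_nonneg h0.le _)
  have hu : ∀ x ∈ Om, ∀ v ∈ S.Eu x, ‖S.symm.An j x v‖ ≤ c' * lam ^ j * ‖v‖ := by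
    intro x hx v hv
    refine ((h2 x hx).2 v hv j).trans ?_
    refine mul_le_mul_of_nonneg_right ?_ (norm_nonneg _)
    exact mul_le_mul_of_nonneg_right (le_max_left _ _) (pow_nonneg h0.le _)
  have hmapS : ∀ n, ∀ x, ∀ v ∈ S.Es x, S.An n x v ∈ S.Es (fw S.f n x) := by
    intro n
    induction n with
    | zero =>
      intro x v hv
      change S.P x v ∈ S.Es x
      rw [hv.1]; exact hv
    | succ n ih =>
      intro x v hv
      rw [Coc.An_succ, ContinuousLinearMap.comp_apply, fw_succ]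
      exact ih _ _ ((S.toCoc.Es_map (S.toCoc.Es_le x hv)).2 hv)
  have hmapU : ∀ n, ∀ x, ∀ v ∈ S.Eu x, S.An n x v ∈ S.Eu (fw S.f n x) := by
    intro n
    induction n with
    | zero =>
      intro x v hv
      change S.P x v ∈ S.Eu x
      have h3 : S.P x v = v := hv.1
      rw [h3]; exact hv
    | succ n ih =>
      intro x v hv
      rw [Coc.An_succ, ContinuousLinearMap.comp_apply, fw_succ]
      exact ih _ _ ((S.toCoc.Eu_map (S.toCoc.Eu_le x hv)).2 hv)
  refine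
    { cpt := hRc.isCompact
      inv := fun x hx => hfwR j x hx
      le := fun x _ => S.toCoc.Es_le x
      rank := hk
      closed := ?_
      map := fun x _ v hv => hmapS j x v hv
      con := ?_
      exp := ?_ }
  · intro x v x0 v0 hx hv hx0 hv0
    have h3 : (x0, v0) ∈ {q : K × EE N | q.1 ∈ Om ∧ q.2 ∈ S.Es q.1} := by
      refine h.closed_Es.mem_of_tendsto (hx0.prodMk_nhds hv0) (Eventually.of_forall fun n => ?_)
      exact ⟨hR (hx n), hv n⟩
    exact h3.2
  · intro x hx v hv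
    have h3 := hs x (hR hx) v hv
    have h4 : 8 * (c' * lam ^ j) ≤ 1 := by nlinarith
    have h5 : 8 * ‖S.An j x v‖ ≤ ‖v‖ := by
      have h6 : 0 ≤ ‖v‖ := norm_nonneg _
      nlinarith
    exact h5
  · intro x hx v hv
    change 8 * infDist v (S.Es x) ≤ infDist (S.An j x v) (S.Es (fw S.f j x))
    have hv' : v ∈ S.Es x ⊔ S.Eu x := by rw [(h.split x (hR hx)).1]; exact hv
    obtain ⟨vs, hvs, vu, hvu, rfl⟩ := Submodule.mem_sup.1 hv'
    have hfx : fw S.f j x ∈ Om := hR (hfwR j x hx)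
    have h3 : infDist (vs + vu) (S.Es x : Set (EE N)) ≤ ‖vu‖ := by
      have := infDist_le_dist_of_mem (x := vs + vu) (s := (S.Es x : Set (EE N))) hvs
      rwa [dist_eq_norm, add_sub_cancel_left] at this
    have h4 : ‖vu‖ ≤ c' * lam ^ j * ‖S.An j x vu‖ := by
      have h5 := hu _ hfx _ (hmapU j x vu hvu)
      rwa [S.toCoc.symm_An_An j (S.toCoc.Eu_le x hvu)] at h5
    rw [le_infDist ⟨0, (S.Es (fw S.f j x)).zero_mem⟩]
    intro w hw
    rw [dist_eq_norm]
    have h5 : S.An j x (vs + vu) - w = (S.An j x vs - w) + S.An j x vu := by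
      rw [map_add]; abel
    have h6 := (hκ _ hfx (S.An j x vs - w) ((S.Es _).sub_mem (hmapS j x vs hvs) hw)
      (S.An j x vu) (hmapU j x vu hvu)).2
    rw [← h5] at h6
    have h7 : 0 ≤ ‖S.An j x (vs + vu) - w‖ := norm_nonneg _
    calc 8 * infDist (vs + vu) (S.Es x : Set (EE N)) ≤ 8 * (c' * lam ^ j * ‖S.An j x vu‖) := by
          linarith
      _ ≤ 8 * (c' * lam ^ j * (κ * ‖S.An j x (vs + vu) - w‖)) := by
          have := mul_le_mul_of_nonneg_left h6 hcl
          linarith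
      _ ≤ 8 * (c' * lam ^ j * (κ + 1)) * ‖S.An j x (vs + vu) - w‖ := by
          have := mul_nonneg hcl h7
          nlinarith
      _ ≤ 1 * ‖S.An j x (vs + vu) - w‖ := mul_le_mul_of_nonneg_right hsmall.le h7
      _ = ‖S.An j x (vs + vu) - w‖ := one_mul _

theorem F6a_WSl_pow {Z : Type} [MetricSpace Z] {f g : Z ≃ₜ Z} {j : ℕ}
    (hg : ∀ n x, fw g n x = fw f (n * j) x) {ρ ε : ℝ} (hρ : ρ ≤ ε) {x y : Z}
    (hy : y ∈ WSl f ρ x) : y ∈ WSl g ε x := by
  intro n
  rw [hg, hg]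
  exact (hy (n * j)).trans hρ

theorem F6a_WSl_fw {Z : Type} [MetricSpace Z] {f : Z ≃ₜ Z} {ρ : ℝ} {x y : Z} (i : ℕ)
    (hy : y ∈ WSl f ρ x) : fw f i y ∈ WSl f ρ (fw f i x) := by
  intro n
  rw [← fw_add, ← fw_add]
  exact hy (n + i)

/-- stable half -/
theorem F6a_s (S : ESys d N K) {F : Set K} (h : S.toCoc.HypOn F) (hF : F.Finite) {p : K}
    (hp : p ∈ F) {η : ℝ} (hη : 0 < η) : ∀ᶠ ρ in 𝓝[>] (0 : ℝ), (WSl S.f ρ p ⊆ WS S.f p) ∧
      (∃ (C : Set (EE (finrank ℝ (S.Es p)))) (φ : EE (finrank ℝ (S.Es p)) → EE N) (c : NNReal),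
        LipschitzOnWith c φ C ∧ S.e '' WSl S.f ρ p ⊆ φ '' C) ∧
      (∀ y ∈ WSl S.f ρ p, infDist (S.e y - S.e p) (S.Es p) ≤ η * dist y p) := by
  set R : Set K := {q | q ∈ F ∧ finrank ℝ (S.Es q) = finrank ℝ (S.Es p)} with hRdef
  have hRF : R ⊆ F := fun q hq => hq.1
  have hRc : IsClosed R := (hF.subset hRF).isClosed
  have hRi : ∀ x ∈ R, S.f x ∈ R := by
    intro x hx
    exact ⟨(h.inv x).2 hx.1, by rw [S.toCoc.finrank_Es_f]; exact hx.2⟩
  have hpR : p ∈ R := ⟨hp, rfl⟩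
  obtain ⟨j, hj0, hcb⟩ := F6a_cb S h hRF hRc hRi (fun x hx => hx.2)
  have hCB := hcb j le_rfl
  obtain ⟨ε0, hε0, hcon⟩ := hCB.contr
  obtain ⟨ε2, hε2, hcone⟩ := hCB.cone η hη
  obtain ⟨ε1, hε1, hpar⟩ := hCB.param
  obtain ⟨r, hr, Ψ, hΨ1, -, hΨ3, hΨ4, -⟩ := hpar ε1 hε1 le_rfl
  have hpow : ∀ n x, fw (S.epow j).f n x = fw S.f (n * j) x := fun n x => Coc.fw_fpow S.f j n x
  have hfwR : ∀ n, ∀ x ∈ R, fw S.f n x ∈ R := by
    intro n
    induction n with
    | zero => intro x hx; exact hx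
    | succ n ih => intro x hx; rw [fw_succ]; exact ih _ (hRi x hx)
  have hmin : 0 < min (min ε0 ε2) (min ε1 r) := lt_min (lt_min hε0 hε2) (lt_min hε1 hr)
  filter_upwards [Ioo_mem_nhdsGT hmin] with ρ hρ
  have hρ0 : 0 < ρ := hρ.1
  have hρε0 : ρ ≤ ε0 := hρ.2.le.trans ((min_le_left _ _).trans (min_le_left _ _))
  have hρε2 : ρ ≤ ε2 := hρ.2.le.trans ((min_le_left _ _).trans (min_le_right _ _))
  have hρε1 : ρ ≤ ε1 := hρ.2.le.trans ((min_le_right _ _).trans (min_le_left _ _))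
  have hρr : ρ ≤ r := hρ.2.le.trans ((min_le_right _ _).trans (min_le_right _ _))
  have hself : ∀ (g : K ≃ₜ K) (ε : ℝ), 0 ≤ ε → ∀ x, x ∈ WSl g ε x := by
    intro g ε hε x n
    rw [dist_self]; exact hε
  refine ⟨?_, ?_, ?_⟩
  · intro y hy
    have hstep : ∀ n, ∀ q ∈ R, ∀ z ∈ WSl S.f ρ q,
        dist (fw S.f (n * j) q) (fw S.f (n * j) z) ≤ (1 / 4) ^ n * ρ := by
      intro n
      induction n with
      | zero =>
        intro q _ z hz
        have := hz 0
        simpa using this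
      | succ n ih =>
        intro q hq z hz
        have e1 : fw S.f ((n + 1) * j) q = (S.epow j).f (fw S.f (n * j) q) := by
          change _ = fw S.f j (fw S.f (n * j) q)
          rw [← fw_add]; congr 1; ring
        have e2 : fw S.f ((n + 1) * j) z = (S.epow j).f (fw S.f (n * j) z) := by
          change _ = fw S.f j (fw S.f (n * j) z)
          rw [← fw_add]; congr 1; ring
        have h3 := hcon (fw S.f (n * j) q) (hfwR _ q hq) (fw S.f (n * j) q)
          (hself _ _ hε0.le _) (fw S.f (n * j) z)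
          (F6a_WSl_pow hpow hρε0 (F6a_WSl_fw (n * j) hz))
        have h4 := ih q hq z hz
        rw [e1, e2, pow_succ]
        linarith
    have hbd : ∀ m, dist (fw S.f m p) (fw S.f m y) ≤ (1 / 4) ^ (m / j) * ρ := by
      intro m
      have e1 : m = (m / j) * j + m % j := by
        rw [mul_comm]; exact (Nat.div_add_mod m j).symm
      have h3 := hstep (m / j) (fw S.f (m % j) p) (hfwR _ p hpR) (fw S.f (m % j) y)
        (F6a_WSl_fw (m % j) hy)
      rw [← fw_add, ← fw_add, ← e1] at h3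
      exact h3
    have hlim : Tendsto (fun m : ℕ => (1 / 4 : ℝ) ^ (m / j) * ρ) atTop (𝓝 0) := by
      have h3 : Tendsto (fun m : ℕ => m / j) atTop atTop := Nat.tendsto_div_const_atTop hj0.ne'
      have h4 := (tendsto_pow_atTop_nhds_zero_of_lt_one (r := (1 / 4 : ℝ)) (by norm_num)
        (by norm_num)).comp h3
      simpa using h4.mul_const ρ
    exact squeeze_zero (fun m => dist_nonneg) hbd hlim
  · set b := (stdOrthonormalBasis ℝ (S.Es p)).repr with hb
    refine ⟨{a | ‖a‖ ≤ r}, fun a => S.e (Ψ p (b.symm a : S.Es p)), 2, ?_, ?_⟩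
    · refine LipschitzOnWith.of_dist_le_mul fun a ha a' ha' => ?_
      have hn : ∀ a : EE (finrank ℝ (S.Es p)), ‖((b.symm a : S.Es p) : EE N)‖ = ‖a‖ :=
        fun a => b.symm.norm_map a
      have h3 := (hΨ3 p hpR (b.symm a : S.Es p) (b.symm a).2 (by rw [hn]; exact ha)
        (b.symm a' : S.Es p) (b.symm a').2 (by rw [hn]; exact ha')).1
      rw [dist_eq_norm, S.e_isom]
      refine h3.trans (le_of_eq ?_)
      rw [← Submodule.coe_sub, ← map_sub, hn, dist_eq_norm]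
      rfl
    · rintro _ ⟨y, hy, rfl⟩
      have hy0 : dist p y ≤ r := (hy 0).trans hρr
      obtain ⟨a, ha, har, hya⟩ := hΨ4 p hpR y (F6a_WSl_pow hpow hρε1 hy) hy0
      refine ⟨b ⟨a, ha⟩, ?_, ?_⟩
      · change ‖b ⟨a, ha⟩‖ ≤ r
        rw [LinearIsometryEquiv.norm_map]; exact har
      · simp only [LinearIsometryEquiv.symm_apply_apply]
        rw [← hya]
  · intro y hy
    exact hcone p hpR y (F6a_WSl_pow hpow hρε2 hy) p (hself _ _ hε2.le _)

/-- F6a -/
theorem ESys.exists_pf (S : ESys d N K) {F : Set K} (h : S.toCoc.HypOn F) (hF : F.Finite) :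
    ∃ ρ0 > 0, ∀ ρ > 0, ρ ≤ ρ0 → PF S F ρ := by
  obtain ⟨κ, hκ0, hκ⟩ := h.C05_angle
  set η : ℝ := 1 / (2 * (1 + 2 * κ)) with hη
  have hη0 : 0 < η := by positivity
  have hη1 : (1 + 2 * κ) * η = 1 / 2 := by rw [hη]; field_simp
  have h1 : ∀ᶠ ρ in 𝓝[>] (0 : ℝ), ∀ p ∈ F, (WSl S.f ρ p ⊆ WS S.f p) ∧
      (∃ (C : Set (EE (finrank ℝ (S.Es p)))) (φ : EE (finrank ℝ (S.Es p)) → EE N) (c : NNReal),
        LipschitzOnWith c φ C ∧ S.e '' WSl S.f ρ p ⊆ φ '' C) ∧
      (∀ y ∈ WSl S.f ρ p, infDist (S.e y - S.e p) (S.Es p) ≤ η * dist y p) :=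
    (eventually_all_finite hF).2 fun p hp => F6a_s S h hF hp hη0
  have h2 : ∀ᶠ ρ in 𝓝[>] (0 : ℝ), ∀ p ∈ F, (WUl S.f ρ p ⊆ WU S.f p) ∧
      (∃ (C : Set (EE (finrank ℝ (S.Eu p)))) (φ : EE (finrank ℝ (S.Eu p)) → EE N) (c : NNReal),
        LipschitzOnWith c φ C ∧ S.e '' WUl S.f ρ p ⊆ φ '' C) ∧
      (∀ y ∈ WUl S.f ρ p, infDist (S.e y - S.e p) (S.Eu p) ≤ η * dist y p) :=
    (eventually_all_finite hF).2 fun p hp => F6a_s S.inv h.symm hF hp hη0
  have h3 : ∀ᶠ ρ in 𝓝[>] (0 : ℝ), ∀ p ∈ F, ∀ p' ∈ F, ∀ y, dist p y ≤ ρ → dist p' y ≤ ρ →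
      p = p' := by
    refine (eventually_all_finite hF).2 fun p _ => (eventually_all_finite hF).2 fun p' _ => ?_
    by_cases hpp : p = p'
    · exact Eventually.of_forall fun ρ y _ _ => hpp
    · have hd : 0 < dist p p' / 2 := by have := dist_pos.2 hpp; positivity
      filter_upwards [Ioo_mem_nhdsGT hd] with ρ hρ y hy hy'
      exfalso
      have h4 := dist_triangle_right p p' y
      have h5 := hρ.2
      linarith
  have h4 : ∀ᶠ ρ in 𝓝[>] (0 : ℝ), ∀ p ∈ F, ∀ p' ∈ F, ∀ y, dist p y ≤ ρ →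
      dist p' (S.f y) ≤ ρ → p' = S.f p := by
    refine (eventually_all_finite hF).2 fun p _ => (eventually_all_finite hF).2 fun p' _ => ?_
    by_cases hpp : p' = S.f p
    · exact Eventually.of_forall fun ρ y _ _ => hpp
    · have hd : 0 < dist p' (S.f p) / 2 := by have := dist_pos.2 hpp; positivity
      obtain ⟨δ, hδ, hδ'⟩ := Metric.continuousAt_iff.1 (S.f.continuous.continuousAt (x := p)) _ hd
      filter_upwards [Ioo_mem_nhdsGT (lt_min hδ hd)] with ρ hρ y hy hy'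
      exfalso
      have h5 : dist (S.f y) (S.f p) < dist p' (S.f p) / 2 := by
        refine hδ' ?_
        rw [dist_comm]
        exact hy.trans_lt (hρ.2.trans_le (min_le_left _ _))
      have h6 := dist_triangle p' (S.f y) (S.f p)
      have h7 : ρ < dist p' (S.f p) / 2 := hρ.2.trans_le (min_le_right _ _)
      linarith
  have h5 : ∀ᶠ ρ in 𝓝[>] (0 : ℝ), PF S F ρ := by
    filter_upwards [h1, h2, h3, h4, self_mem_nhdsWithin] with ρ g1 g2 g3 g4 g5
    refine
      { pos := g5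
        fin := hF
        inv := h.inv
        sep0 := g3
        sep := g4
        exp := ?_
        sub_s := fun p hp => (g1 p hp).1
        sub_u := fun p hp => (g2 p hp).1
        rank := ?_
        lip_s := fun p hp => (g1 p hp).2.1
        lip_u := fun p hp => (g2 p hp).2.1 }
    · intro p hp y hys hyu
      have e1 := (g1 p hp).2.2 y hys
      have e2 := (g2 p hp).2.2 y hyu
      obtain ⟨a, ha, ha'⟩ := (Submodule.closed_of_finiteDimensional (S.Es p)).exists_infDist_eq_dist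
        ⟨0, (S.Es p).zero_mem⟩ (S.e y - S.e p)
      obtain ⟨b, hb, hb'⟩ := (Submodule.closed_of_finiteDimensional (S.Eu p)).exists_infDist_eq_dist
        ⟨0, (S.Eu p).zero_mem⟩ (S.e y - S.e p)
      rw [ha', dist_eq_norm] at e1
      rw [hb', dist_eq_norm] at e2
      have e3 := (hκ p hp a ha (-b) ((S.Eu p).neg_mem hb)).1
      have e4 : ‖a + -b‖ ≤ 2 * η * dist y p := by
        have e5 : a + -b = (S.e y - S.e p - b) - (S.e y - S.e p - a) := by abel
        rw [e5]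
        refine (norm_sub_le _ _).trans ?_
        linarith
      have e6 : dist y p ≤ ‖S.e y - S.e p - a‖ + ‖a‖ := by
        rw [← S.e_isom y p]
        have := norm_add_le (S.e y - S.e p - a) a
        rwa [sub_add_cancel] at this
      have e7 : ‖a‖ ≤ κ * (2 * η * dist y p) := e3.trans (mul_le_mul_of_nonneg_left e4 hκ0.le)
      have e8 : dist y p ≤ (1 + 2 * κ) * η * dist y p := by
        calc dist y p ≤ η * dist y p + κ * (2 * η * dist y p) := by linarith
          _ = (1 + 2 * κ) * η * dist y p := by ring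
      rw [hη1] at e8
      have e9 : 0 ≤ dist y p := dist_nonneg
      exact dist_le_zero.1 (by linarith)
    · intro p hp
      have e1 := Submodule.finrank_sup_add_finrank_inf_eq (S.Es p) (S.Eu p)
      rw [(h.split p hp).1, S.rankP p, (h.split p hp).2.eq_bot, finrank_bot] at e1
      omega
  obtain ⟨u, hu, hu'⟩ := mem_nhdsGT_iff_exists_Ioc_subset.1 h5
  exact ⟨u, hu, fun ρ hρ hρu => hu' ⟨hρ, hρu⟩⟩

end Pool.MP85
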