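import Pool.Agent.Lib.MP_85e637_an.S2Defs
import Pool.Agent.Lib.MP_85e637_an.C05
import Pool.Agent.Lib.MP_85e637_an.F6a

/-!
# F6b: the fixed points of an iterate of an Axiom A system form a finite hyperbolic set
-/

open Filter Topology Set Metric Module

namespace Pool.MP85
variable {d N : ℕ} {K : Type} [MetricSpace K] [CompactSpace K]

section Per
variable {Z : Type} [MetricSpace Z] {f : Z ≃ₜ Z} {k : ℕ} {x : Z}

theorem F6b_mul (h : fw f k x = x) (n : ℕ) : fw f (n * k) x = x := by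
  induction n with
  | zero => rw [zero_mul]; rfl
  | succ n ih => rw [add_mul, one_mul, fw_add, h, ih]

theorem F6b_mod (h : fw f k x = x) (n : ℕ) : fw f n x = fw f (n % k) x := by
  have h1 : fw f n x = fw f (n % k + (n / k) * k) x := by
    congr 1
    rw [mul_comm]
    exact (Nat.mod_add_div n k).symm
  rw [h1, fw_add, F6b_mul h]

theorem F6b_bk (hk : 0 < k) (h : fw f k x = x) (n : ℕ) : bk f n x = fw f (n * k - n) x := by
  have h1 : n ≤ n * k := Nat.le_mul_of_pos_right n hk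
  have h2 : fw f (n + (n * k - n)) x = x := by
    rw [Nat.add_sub_cancel' h1]
    exact F6b_mul h n
  rw [fw_add] at h2
  have h3 := congrArg (bk f n) h2
  rw [bk_fw] at h3
  exact h3.symm

theorem F6b_fix (h : fw f k x = x) (n : ℕ) : fw f k (fw f n x) = fw f n x := by
  rw [← fw_add, add_comm, fw_add, h]

end Per

/-- F6b: fixed points of iterates of an Axiom A system -/
theorem BSys.fix_fin (S : BSys d N K) {k : ℕ} (hk : 0 < k) :
    {x | fw S.f k x = x}.Finite ∧ {x | fw S.f k x = x} ⊆ S.Om ∧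
      S.toCoc.HypOn {x | fw S.f k x = x} := by
  have hsub : {x | fw S.f k x = x} ⊆ S.Om := by
    intro x hx
    have hx' : fw S.f k x = x := hx
    refine S.Om_fw x x ?_
    rw [mapClusterPt_iff_frequently]
    intro s hs
    rw [frequently_atTop]
    intro n
    refine ⟨n * k, Nat.le_mul_of_pos_right n hk, ?_⟩
    change fw S.f (n * k) x ∈ s
    rw [F6b_mul hx']
    exact mem_of_mem_nhds hs
  have hcl : IsClosed {x | fw S.f k x = x} := isClosed_eq (continuous_fw k) continuous_id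
  have hinv : ∀ x, S.f x ∈ {x | fw S.f k x = x} ↔ x ∈ {x | fw S.f k x = x} := by
    intro x
    have h1 : fw S.f k (S.f x) = S.f (fw S.f k x) := by rw [← fw_succ, fw_succ']
    rw [mem_ofPred_eq, mem_ofPred_eq, h1]
    exact S.f.injective.eq_iff
  have hhyp : ∀ R : Set K, R ⊆ S.Om → IsClosed R → (∀ x, S.f x ∈ R ↔ x ∈ R) →
      S.toCoc.HypOn R := by
    intro R hR hRc hRi
    obtain ⟨c, lam, h0, h1, h2⟩ := S.hyp
    exact ⟨hRc, hRi, ⟨c, lam, h0, h1, fun x hx => h2 x (hR hx)⟩, fun x hx => S.split x (hR hx)⟩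
  refine ⟨?_, hsub, hhyp _ hsub hcl hinv⟩
  by_contra hinf
  obtain ⟨x0, hx0, hacc⟩ := Set.Infinite.exists_accPt_of_subset_isCompact hinf hcl.isCompact
    subset_rfl
  have hx0' : fw S.f k x0 = x0 := hx0
  -- the orbit of the accumulation point
  set F : Set K := {x | ∃ n, x = fw S.f n x0} with hF
  have hFfin : F.Finite := by
    refine ((Finset.range k).finite_toSet.image (fun n => fw S.f n x0)).subset ?_
    rintro x ⟨n, rfl⟩
    refine ⟨n % k, ?_, ?_⟩
    · simpa using Nat.mod_lt n hk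
    · exact (F6b_mod hx0' n).symm
  have hFsub : F ⊆ S.Om := by
    rintro x ⟨n, rfl⟩
    exact hsub (F6b_fix hx0' n)
  have hFinv : ∀ x, S.f x ∈ F ↔ x ∈ F := by
    intro x
    constructor
    · rintro ⟨n, hn⟩
      refine ⟨n + k - 1, ?_⟩
      have h1 : S.f (fw S.f (n + k - 1) x0) = S.f x := by
        rw [← fw_succ', hn, show n + k - 1 + 1 = n + k by omega, fw_add, hx0']
      exact (S.f.injective h1).symm
    · rintro ⟨n, rfl⟩
      exact ⟨n + 1, (fw_succ' _ _ _).symm⟩
  obtain ⟨ρ, hρ, hpf⟩ := S.toESys.exists_pf (hhyp F hFsub hFfin.isClosed hFinv) hFfin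
  have hPF := hpf ρ hρ le_rfl
  have hx0F : x0 ∈ F := ⟨0, rfl⟩
  have hU : ∀ᶠ y in 𝓝 x0, ∀ i ∈ Finset.range k, dist (fw S.f i x0) (fw S.f i y) < ρ := by
    rw [Filter.eventually_all_finset]
    intro i _
    have h1 : Tendsto (fun y => dist (fw S.f i x0) (fw S.f i y)) (𝓝 x0)
        (𝓝 (dist (fw S.f i x0) (fw S.f i x0))) :=
      (continuous_const.dist (continuous_fw i)).tendsto x0
    rw [dist_self] at h1
    exact h1.eventually (gt_mem_nhds hρ)
  have hfreq := accPt_iff_frequently.1 hacc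
  obtain ⟨y, ⟨hyne, hyF⟩, hy⟩ := (hfreq.and_eventually hU).exists
  have hy' : fw S.f k y = y := hyF
  have hfw : ∀ n, dist (fw S.f n x0) (fw S.f n y) ≤ ρ := by
    intro n
    rw [F6b_mod hx0' n, F6b_mod hy' n]
    exact (hy (n % k) (Finset.mem_range.2 (Nat.mod_lt n hk))).le
  refine hyne (hPF.exp x0 hx0F y hfw ?_)
  intro n
  rw [F6b_bk hk hx0' n, F6b_bk hk hy' n]
  exact hfw _

end Pool.MP85
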