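import Pool.Agent.Lib.MP_85e637_an.S2Defs
import Pool.Agent.Lib.MP_85e637_an.C05

/-!
# Stage 2, F6d: a system which coincides with `S` near `F`
-/

open Filter Topology Set Metric Module

namespace Pool.MP85
variable {d N : ℕ} {K : Type} [MetricSpace K] [CompactSpace K]

/-- two cocycles which agree on a forward invariant set -/
lemma F6d_An {C C' : Coc N K} {F : Set K} (hP : C'.P = C.P) (hf : ∀ x ∈ F, C'.f x = C.f x)
    (hi : ∀ x ∈ F, C.f x ∈ F) (hA : ∀ x ∈ F, C'.A x = C.A x) :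
    ∀ (n : ℕ), ∀ x ∈ F, C'.An n x = C.An n x := by
  intro n
  induction n with
  | zero =>
    intro x _
    change C'.P x = C.P x
    rw [hP]
  | succ n ih =>
    intro x hx
    change C'.An n (C'.f x) ∘L C'.A x = C.An n (C.f x) ∘L C.A x
    rw [hf x hx, hA x hx, ih _ (hi x hx)]

lemma F6d_Es {C C' : Coc N K} {F : Set K} (hP : C'.P = C.P) (hf : ∀ x ∈ F, C'.f x = C.f x)
    (hi : ∀ x ∈ F, C.f x ∈ F) (hA : ∀ x ∈ F, C'.A x = C.A x) :
    ∀ x ∈ F, C'.Es x = C.Es x := by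
  intro x hx
  have h := fun n => F6d_An hP hf hi hA n x hx
  ext v
  change (C'.P x v = v ∧ Tendsto (fun n => ‖C'.An n x v‖) atTop (𝓝 0)) ↔
    (C.P x v = v ∧ Tendsto (fun n => ‖C.An n x v‖) atTop (𝓝 0))
  simp only [h, hP]

/-- the derivatives agree at a point near which the maps agree -/
lemma F6d_A {S S' : ESys d N K} (hs : S.Same S') {x : K} {r : ℝ} (hr : 0 < r)
    (he : ∀ y, dist x y < r → S'.f y = S.f y) : S'.A x = S.A x := by
  have hx : S'.f x = S.f x := he x (by rw [dist_self]; exact hr)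
  obtain ⟨ρ0, hρ0, hsurj⟩ := S.surj
  -- tangent vectors
  have key : ∀ v, S.P x v = v → S'.A x v = S.A x v := by
    intro v hv
    by_contra hne
    have hpos : 0 < ‖S'.A x v - S.A x v‖ := norm_pos_iff.2 (sub_ne_zero.2 hne)
    have hv0 : 0 < ‖v‖ := by
      rw [norm_pos_iff]
      rintro rfl
      simp at hne
    obtain ⟨η, hη, hη'⟩ : ∃ η > 0, 4 * η * ‖v‖ < ‖S'.A x v - S.A x v‖ := by
      refine ⟨‖S'.A x v - S.A x v‖ / (8 * ‖v‖), by positivity, ?_⟩
      have : 4 * (‖S'.A x v - S.A x v‖ / (8 * ‖v‖)) * ‖v‖ = ‖S'.A x v - S.A x v‖ / 2 := by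
        field_simp
        norm_num
      rw [this]
      linarith
    obtain ⟨ρ1, hρ1, h1⟩ := S.diff η hη
    obtain ⟨ρ2, hρ2, h2⟩ := S'.diff η hη
    obtain ⟨t, ht, ht'⟩ : ∃ t > 0, t * ‖v‖ ≤ ρ0 ∧ 2 * (t * ‖v‖) < r ∧ 2 * (t * ‖v‖) < ρ1 ∧
        2 * (t * ‖v‖) < ρ2 := by
      refine ⟨min (min ρ0 (r / 4)) (min (ρ1 / 4) (ρ2 / 4)) / ‖v‖, by positivity, ?_⟩
      rw [div_mul_cancel₀ _ hv0.ne']
      have a1 : min (min ρ0 (r / 4)) (min (ρ1 / 4) (ρ2 / 4)) ≤ ρ0 :=
        (min_le_left _ _).trans (min_le_left _ _)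
      have a2 : min (min ρ0 (r / 4)) (min (ρ1 / 4) (ρ2 / 4)) ≤ r / 4 :=
        (min_le_left _ _).trans (min_le_right _ _)
      have a3 : min (min ρ0 (r / 4)) (min (ρ1 / 4) (ρ2 / 4)) ≤ ρ1 / 4 :=
        (min_le_right _ _).trans (min_le_left _ _)
      have a4 : min (min ρ0 (r / 4)) (min (ρ1 / 4) (ρ2 / 4)) ≤ ρ2 / 4 :=
        (min_le_right _ _).trans (min_le_right _ _)
      refine ⟨a1, ?_, ?_, ?_⟩ <;> linarith
    have hnt : ‖t • v‖ = t * ‖v‖ := by rw [norm_smul, Real.norm_of_nonneg ht.le]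
    obtain ⟨y, hy, hxy⟩ := hsurj x (t • v) (by rw [map_smul, hv]) (by rw [hnt]; exact ht'.1)
    rw [hnt] at hxy
    have g1 := h1 x y x (lt_of_le_of_lt hxy ht'.2.2.1) (by rw [dist_self]; exact hρ1)
    have g2 := h2 x y x (lt_of_le_of_lt hxy ht'.2.2.2) (by rw [dist_self]; exact hρ2)
    have hfy : S'.f y = S.f y := he y (lt_of_le_of_lt hxy ht'.2.1)
    rw [hfy, hx, hs.e] at g2
    have e1 : S.A x (S.e y - S.e x) = t • S.A x v := by
      rw [← map_smul, ← hy, ← ContinuousLinearMap.comp_apply, S.AP]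
    have e2 : S'.A x (S.e y - S.e x) = t • S'.A x v := by
      rw [← map_smul, ← hy, ← hs.P, ← ContinuousLinearMap.comp_apply, S'.AP]
    rw [e1] at g1
    rw [e2] at g2
    have g3 : ‖t • S'.A x v - t • S.A x v‖ ≤ 2 * (η * dist y x) := by
      have : t • S'.A x v - t • S.A x v
          = (S.e (S.f y) - S.e (S.f x) - t • S.A x v) - (S.e (S.f y) - S.e (S.f x) - t • S'.A x v) := by
        abel
      rw [this]
      refine (norm_sub_le _ _).trans ?_
      linarith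
    rw [← smul_sub, norm_smul, Real.norm_of_nonneg ht.le, dist_comm] at g3
    have g4 : t * ‖S'.A x v - S.A x v‖ ≤ t * (4 * η * ‖v‖) := by
      have : 2 * (η * dist x y) ≤ 2 * (η * (2 * (t * ‖v‖))) := by gcongr
      linarith
    have g5 := le_of_mul_le_mul_left g4 ht
    linarith
  refine ContinuousLinearMap.ext fun v => ?_
  have h1 : S.A x v = S.A x (S.P x v) := by
    rw [← ContinuousLinearMap.comp_apply, S.AP]
  have h2 : S'.A x v = S'.A x (S.P x v) := by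
    rw [← hs.P, ← ContinuousLinearMap.comp_apply, S'.AP]
  rw [h1, h2]
  refine key _ ?_
  rw [← ContinuousLinearMap.comp_apply, S.PP]

/-- F6d: a system which coincides with `S` near `F` -/
theorem ESys.hypOn_congr {S S' : ESys d N K} {F : Set K} (hs : S.Same S') (h : S.toCoc.HypOn F)
    {W : Set K} (hW : W ∈ 𝓝ˢ F) (he : EqOn S'.f S.f W) : S'.toCoc.HypOn F ∧
      ∀ x ∈ F, S'.Es x = S.Es x ∧ S'.Eu x = S.Eu x := by
  have hf : ∀ x ∈ F, S'.f x = S.f x := fun x hx => he (mem_of_mem_nhds (mem_nhdsSet_iff_forall.1 hW x hx))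
  have hA : ∀ x ∈ F, S'.A x = S.A x := by
    intro x hx
    obtain ⟨r, hr, hr'⟩ := Metric.mem_nhds_iff.1 (mem_nhdsSet_iff_forall.1 hW x hx)
    refine F6d_A hs hr fun y hy => he (hr' ?_)
    rw [Metric.mem_ball, dist_comm]
    exact hy
  have hi : ∀ x ∈ F, S.f x ∈ F := fun x hx => (h.inv x).2 hx
  have hA' : ∀ x ∈ F, S'.A' x = S.A' x := by
    intro x hx
    have e1 : S'.A' x = S'.A' x ∘L S'.P (S'.f x) := (S'.A'P x).symm
    rw [e1, hs.P, hf x hx, ← S.AA' x, ← hA x hx, ← ContinuousLinearMap.comp_assoc, S'.A'A x, hs.P,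
      S.PA' x]
  have hsi : ∀ x ∈ F, S.f.symm x ∈ F := by
    intro x hx
    rw [← h.inv, Homeomorph.apply_symm_apply]
    exact hx
  have hfs : ∀ x ∈ F, S'.f.symm x = S.f.symm x := by
    intro x hx
    rw [Homeomorph.symm_apply_eq, hf _ (hsi x hx), Homeomorph.apply_symm_apply]
  have hinv : ∀ x, S'.f x ∈ F ↔ x ∈ F := by
    intro x
    constructor
    · intro hx
      have h1 : S'.f (S.f.symm (S'.f x)) = S'.f x := by
        rw [hf _ (hsi _ hx), Homeomorph.apply_symm_apply]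
      have h2 := S'.f.injective h1
      rw [← h2]
      exact hsi _ hx
    · intro hx
      rw [hf x hx]
      exact hi x hx
  have hAn := F6d_An (C := S.toCoc) (C' := S'.toCoc) hs.P hf hi hA
  have hsA : ∀ x ∈ F, S'.toCoc.symm.A x = S.toCoc.symm.A x := by
    intro x hx
    change S'.A' (S'.f.symm x) = S.A' (S.f.symm x)
    rw [hfs x hx]
    exact hA' _ (hsi x hx)
  have hAn' := F6d_An (C := S.toCoc.symm) (C' := S'.toCoc.symm) (F := F) hs.P hfs hsi hsA
  have hEs := F6d_Es (C := S.toCoc) (C' := S'.toCoc) hs.P hf hi hA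
  have hEu : ∀ x ∈ F, S'.Eu x = S.Eu x :=
    F6d_Es (C := S.toCoc.symm) (C' := S'.toCoc.symm) (F := F) hs.P hfs hsi hsA
  refine ⟨⟨h.closed, hinv, ?_, ?_⟩, fun x hx => ⟨hEs x hx, hEu x hx⟩⟩
  · obtain ⟨c, lam, h0, h1, h2⟩ := h.hyp
    refine ⟨c, lam, h0, h1, fun x hx => ⟨fun v hv n => ?_, fun v hv n => ?_⟩⟩
    · rw [hAn n x hx]
      rw [hEs x hx] at hv
      exact (h2 x hx).1 v hv n
    · rw [hAn' n x hx]
      have hv' : v ∈ S.Eu x := by
        rw [← hEu x hx]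
        exact hv
      exact (h2 x hx).2 v hv' n
  · intro x hx
    have hT : S'.toCoc.T x = S.toCoc.T x := by
      change LinearMap.range (S'.P x : EE N →ₗ[ℝ] EE N) = LinearMap.range (S.P x : EE N →ₗ[ℝ] EE N)
      rw [hs.P]
    rw [hEs x hx, hEu x hx, hT]
    exact h.split x hx

end Pool.MP85
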