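import Pool.Agent.Lib.MP_85e637_an.S2Defs
import Pool.Agent.Lib.MP_85e637_an.A01
import Pool.Agent.Lib.MP_85e637_an.C05
import Pool.Agent.Lib.MP_85e637_an.C08a0
import Pool.Agent.Lib.MP_85e637_an.C12

/-!
# Stage 2, F6e: stable leaves of periodic hyperbolic points are increasing unions of cells
-/

open Filter Topology Set Metric Module

namespace Pool.MP85

section F6eLeaf
variable {Z : Type} [MetricSpace Z] {F : Z ≃ₜ Z}

/-- forward iterate as a map of leaves -/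
def F6e_fwL (n : ℕ) (x : Z) (y : ULeaf F (bk F n x)) : ULeaf F x :=
  ⟨fw F n y.val, by
    have h : fw F n y.val ∈ WU F (fw F n (bk F n x)) := (wu_fw n).2 y.prop
    rwa [fw_bk] at h⟩

/-- backward iterate as a map of leaves -/
def F6e_bkL (n : ℕ) (x : Z) (y : ULeaf F x) : ULeaf F (bk F n x) :=
  ⟨bk F n y.val, (wu_bk n).2 y.prop⟩

theorem F6e_fwL_bkL (n : ℕ) (x : Z) (y : ULeaf F x) : F6e_fwL n x (F6e_bkL n x y) = y :=
  ULeaf.val_injective (fw_bk n)

theorem F6e_bkL_fwL (n : ℕ) (x : Z) (y : ULeaf F (bk F n x)) :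
    F6e_bkL n x (F6e_fwL n x y) = y :=
  ULeaf.val_injective (bk_fw n)

theorem F6e_cont_bkL (n : ℕ) (x : Z) : Continuous (F6e_bkL (F := F) n x) := by
  refine LipschitzWith.continuous (K := 1) (LipschitzWith.of_dist_le_mul fun y y' => ?_)
  rw [NNReal.coe_one, one_mul]
  exact (ULeaf.dist_le_iff _ _ _).2 (wul_bk n ((ULeaf.dist_le_iff y y' _).1 le_rfl))

theorem F6e_dist_fwL (n : ℕ) (x : Z) (y y' : ULeaf F (bk F n x)) :
    dist (F6e_fwL n x y) (F6e_fwL n x y') ≤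
      (∑ k ∈ Finset.range (n + 1), dist (fw F k y.val) (fw F k y'.val)) + dist y y' := by
  refine (ULeaf.dist_le_iff _ _ _).2 fun j => ?_
  have hnn : ∀ k ∈ Finset.range (n + 1), 0 ≤ dist (fw F k y.val) (fw F k y'.val) :=
    fun _ _ => dist_nonneg
  show dist (bk F j (fw F n y.val)) (bk F j (fw F n y'.val)) ≤ _
  rcases le_total j n with h | h
  · obtain ⟨i, rfl⟩ := Nat.exists_eq_add_of_le h
    rw [fw_add, fw_add, bk_fw, bk_fw]
    have h1 := Finset.single_le_sum hnn (Finset.mem_range.2 (by omega : i < j + i + 1))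
    have h2 : 0 ≤ dist y y' := dist_nonneg
    linarith
  · obtain ⟨i, rfl⟩ := Nat.exists_eq_add_of_le' h
    rw [bk_add, bk_add, bk_fw, bk_fw]
    have h1 : dist (bk F i y.val) (bk F i y'.val) ≤ dist y y' :=
      (ULeaf.dist_le_iff y y' _).1 le_rfl i
    have h2 := Finset.sum_nonneg hnn
    linarith

theorem F6e_cont_fwL (n : ℕ) (x : Z) : Continuous (F6e_fwL (F := F) n x) := by
  rw [continuous_iff_continuousAt]
  intro y0
  rw [ContinuousAt, tendsto_iff_dist_tendsto_zero]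
  have hc : Continuous fun y : ULeaf F (bk F n x) =>
      (∑ k ∈ Finset.range (n + 1), dist (fw F k y.val) (fw F k y0.val)) + dist y y0 := by
    refine (continuous_finsetSum _ fun k _ => ?_).add (continuous_id.dist continuous_const)
    exact ((continuous_fw k).comp ULeaf.continuous_val).dist continuous_const
  have h0 := hc.tendsto y0
  simp only [dist_self, Finset.sum_const_zero, add_zero] at h0
  exact squeeze_zero (fun _ => dist_nonneg) (fun y => F6e_dist_fwL n x y y0) h0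

/-- leaves of iterates are homeomorphic -/
def F6e_homeo (n : ℕ) (x : Z) : ULeaf F (bk F n x) ≃ₜ ULeaf F x where
  toFun := F6e_fwL n x
  invFun := F6e_bkL n x
  left_inv := F6e_bkL_fwL n x
  right_inv := F6e_fwL_bkL n x
  continuous_toFun := F6e_cont_fwL n x
  continuous_invFun := F6e_cont_bkL n x

/-! ## Powers -/

theorem F6e_uc [CompactSpace Z] (F : Z ≃ₜ Z) (k : ℕ) : ∀ ε > 0, ∃ δ > 0, ∀ a b, dist a b < δ →
    ∀ i < k, dist (bk F i a) (bk F i b) < ε := by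
  intro ε hε
  have hc : Continuous fun z : Z => (fun i : Fin k => bk F i z) :=
    continuous_pi fun i => continuous_bk i
  have hu := CompactSpace.uniformContinuous_of_continuous hc
  obtain ⟨δ, hδ, h⟩ := Metric.uniformContinuous_iff.1 hu ε hε
  refine ⟨δ, hδ, fun a b hab i hi => ?_⟩
  exact (dist_le_pi_dist (fun i : Fin k => bk F i a) (fun i : Fin k => bk F i b) ⟨i, hi⟩).trans_lt
    (h hab)

theorem F6e_all [CompactSpace Z] (F : Z ≃ₜ Z) {k : ℕ} (hk : 0 < k) : ∀ ε > 0, ∃ δ > 0, ∀ x y,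
    (∀ n, dist (bk F (n * k) x) (bk F (n * k) y) < δ) → ∀ m, dist (bk F m x) (bk F m y) < ε := by
  intro ε hε
  obtain ⟨δ, hδ, h⟩ := F6e_uc F k ε hε
  refine ⟨δ, hδ, fun x y hxy m => ?_⟩
  have h3 : m = m % k + m / k * k := by
    have := Nat.mod_add_div m k
    rw [mul_comm] at this
    exact this.symm
  rw [h3, bk_add, bk_add]
  exact h _ _ (hxy (m / k)) _ (Nat.mod_lt m hk)

theorem F6e_wu_pow [CompactSpace Z] (F : Z ≃ₜ Z) {k : ℕ} (hk : 0 < k) (x y : Z) :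
    y ∈ WU (Coc.fpow F k) x ↔ y ∈ WU F x := by
  constructor
  · intro h
    rw [mem_wu_iff_eventually] at h ⊢
    intro ε hε
    obtain ⟨δ, hδ, hall⟩ := F6e_all F hk ε hε
    obtain ⟨n, hn⟩ := h (δ / 2) (by positivity)
    refine ⟨n * k, fun m => ?_⟩
    rw [← Coc.bk_fpow, ← Coc.bk_fpow]
    refine (hall _ _ (fun j => ?_) m).le
    rw [← Coc.bk_fpow, ← Coc.bk_fpow]
    exact (hn j).trans_lt (by linarith)
  · intro h
    have h2 : Tendsto (fun n : ℕ => n * k) atTop atTop :=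
      tendsto_id.atTop_mul_const' hk
    have h3 : Tendsto (fun n => dist (bk F (n * k) x) (bk F (n * k) y)) atTop (𝓝 0) :=
      (show Tendsto (fun n => dist (bk F n x) (bk F n y)) atTop (𝓝 0) from h).comp h2
    show Tendsto (fun n => dist (bk (Coc.fpow F k) n x) (bk (Coc.fpow F k) n y)) atTop (𝓝 0)
    simpa only [Coc.bk_fpow] using h3

/-- leaves of a power -/
def F6e_powL [CompactSpace Z] (F : Z ≃ₜ Z) {k : ℕ} (hk : 0 < k) (x : Z) :
    ULeaf (Coc.fpow F k) x ≃ₜ ULeaf F x where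
  toFun y := ⟨y.val, (F6e_wu_pow F hk x y.val).1 y.prop⟩
  invFun y := ⟨y.val, (F6e_wu_pow F hk x y.val).2 y.prop⟩
  left_inv _ := rfl
  right_inv _ := rfl
  continuous_toFun := by
    rw [Metric.continuous_iff]
    intro y0 ε hε
    obtain ⟨δ, hδ, hall⟩ := F6e_all F hk (ε / 2) (by positivity)
    refine ⟨δ, hδ, fun y hy => ?_⟩
    refine lt_of_le_of_lt ?_ (by linarith : ε / 2 < ε)
    refine (ULeaf.dist_le_iff _ _ _).2 fun m => ?_
    refine (hall y.val y0.val (fun n => ?_) m).le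
    have h1 := (ULeaf.dist_le_iff y y0 _).1 le_rfl n
    rw [Coc.bk_fpow, Coc.bk_fpow] at h1
    exact h1.trans_lt hy
  continuous_invFun := by
    refine LipschitzWith.continuous (K := 1) (LipschitzWith.of_dist_le_mul fun y y' => ?_)
    rw [NNReal.coe_one, one_mul]
    refine (ULeaf.dist_le_iff _ _ _).2 fun n => ?_
    show dist (bk (Coc.fpow F k) n y.val) (bk (Coc.fpow F k) n y'.val) ≤ _
    rw [Coc.bk_fpow, Coc.bk_fpow]
    exact (ULeaf.dist_le_iff y y' _).1 le_rfl (n * k)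

theorem F6e_exh_pow [CompactSpace Z] (F : Z ≃ₜ Z) {k m : ℕ} (hk : 0 < k) {x : Z}
    (h : Exh m (Coc.fpow F k) x) : Exh m F x := by
  obtain ⟨ψ, h1, h2, h3⟩ := h
  refine ⟨fun n => F6e_powL F hk x ∘ ψ n, fun n => ?_, fun n => ?_, ?_⟩
  · exact (F6e_powL F hk x).isOpenEmbedding.comp (h1 n)
  · rw [range_comp, range_comp]
    exact image_mono (h2 n)
  · rw [eq_univ_iff_forall]
    intro y
    have h4 : (F6e_powL F hk x).symm y ∈ ⋃ n, range (ψ n) := by
      rw [h3]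
      exact mem_univ _
    obtain ⟨n, v, hv⟩ := mem_iUnion.1 h4
    refine mem_iUnion.2 ⟨n, v, ?_⟩
    show F6e_powL F hk x (ψ n v) = y
    rw [hv, Homeomorph.apply_symm_apply]

/-! ## Cells for a contracted bundle -/

section Cell
variable {N k : ℕ} {G : Z ≃ₜ Z} {R : Set Z} {V : Z → Submodule ℝ (EE N)} {ε : ℝ}

theorem F6e_bkR (hR : ∀ x ∈ R, G.symm x ∈ R) {x : Z} (hx : x ∈ R) (n : ℕ) : bk G n x ∈ R := by
  induction n with
  | zero => exact hx
  | succ n ih =>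
    rw [bk_succ']
    exact hR _ ih

theorem F6e_contr (hR : ∀ x ∈ R, G.symm x ∈ R)
    (hε : ∀ x ∈ R, ∀ y ∈ WUl G ε x, ∀ y' ∈ WUl G ε x,
      4 * dist (G.symm y) (G.symm y') ≤ dist y y') {x : Z} (hx : x ∈ R) {y y' : Z}
    (hy : y ∈ WUl G ε x) (hy' : y' ∈ WUl G ε x) (n : ℕ) :
    4 ^ n * dist (bk G n y) (bk G n y') ≤ dist y y' := by
  induction n with
  | zero => simp [bk_zero]
  | succ n ih =>
    have h1 := hε _ (F6e_bkR hR hx n) _ (wul_bk n hy) _ (wul_bk n hy')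
    rw [bk_succ', bk_succ', pow_succ]
    have h4 : (0:ℝ) < 4 ^ n := by positivity
    calc 4 ^ n * 4 * dist (G.symm (bk G n y)) (G.symm (bk G n y'))
        = 4 ^ n * (4 * dist (G.symm (bk G n y)) (G.symm (bk G n y'))) := by ring
      _ ≤ 4 ^ n * dist (bk G n y) (bk G n y') := mul_le_mul_of_nonneg_left h1 h4.le
      _ ≤ dist y y' := ih

theorem F6e_dist_le (hR : ∀ x ∈ R, G.symm x ∈ R)
    (hε : ∀ x ∈ R, ∀ y ∈ WUl G ε x, ∀ y' ∈ WUl G ε x,
      4 * dist (G.symm y) (G.symm y') ≤ dist y y') {x : Z} (hx : x ∈ R) {y y' : Z}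
    (hy : y ∈ WUl G ε x) (hy' : y' ∈ WUl G ε x) : y' ∈ WUl G (dist y y') y := by
  intro n
  have h1 := F6e_contr hR hε hx hy hy' n
  have h4 : (1:ℝ) ≤ 4 ^ n := one_le_pow₀ (by norm_num)
  have h2 : (0:ℝ) ≤ dist (bk G n y) (bk G n y') := dist_nonneg
  nlinarith

theorem F6e_wu (hR : ∀ x ∈ R, G.symm x ∈ R)
    (hε : ∀ x ∈ R, ∀ y ∈ WUl G ε x, ∀ y' ∈ WUl G ε x,
      4 * dist (G.symm y) (G.symm y') ≤ dist y y') (hε0 : 0 < ε) {x : Z} (hx : x ∈ R) {y : Z}
    (hy : y ∈ WUl G ε x) : y ∈ WU G x := by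
  have hlim : Tendsto (fun n : ℕ => (1 / 4 : ℝ) ^ n * dist x y) atTop (𝓝 0) := by
    simpa using (tendsto_pow_atTop_nhds_zero_of_lt_one (by norm_num : (0:ℝ) ≤ 1 / 4)
      (by norm_num)).mul_const (dist x y)
  refine squeeze_zero (fun _ => dist_nonneg) (fun n => ?_) hlim
  have h1 := F6e_contr hR hε hx (wul_self hε0.le) hy n
  have h4 : (0:ℝ) < 4 ^ n := by positivity
  rw [one_div, inv_pow, ← div_eq_inv_mul, le_div_iff₀ h4, mul_comm]
  exact h1

/-- small cells in the leaves -/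
theorem F6e_cell (hR : ∀ x ∈ R, G.symm x ∈ R)
    (hu : ∀ x ∈ R, ∀ y ∈ WUl G ε x, ∀ y' ∈ WUl G ε x,
      4 * dist (G.symm y) (G.symm y') ≤ dist y y') (hε : 0 < ε)
    (hV : ∀ x ∈ R, finrank ℝ (V x) = k) {ρ : ℝ} (hρ : 0 < ρ) {Ψ : Z → EE N → Z}
    (hA : ∀ x ∈ R, ∀ a ∈ V x, ‖a‖ ≤ ρ → Ψ x a ∈ WUl G ε x)
    (hΨ0 : ∀ x ∈ R, Ψ x 0 = x)
    (hΨ2 : ∀ x ∈ R, ∀ a ∈ V x, ‖a‖ ≤ ρ → ∀ b ∈ V x, ‖b‖ ≤ ρ →
      dist (Ψ x a) (Ψ x b) ≤ 2 * ‖a - b‖ ∧ ‖a - b‖ ≤ dist (Ψ x a) (Ψ x b))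
    (hB : ∀ x ∈ R, ∀ y ∈ WUl G ε x, dist x y ≤ ρ → ∃ a ∈ V x, ‖a‖ ≤ ρ ∧ y = Ψ x a) :
    ∃ r > 0, (∀ x ∈ R, ∀ y ∈ WUl G (2 * r) x, ∀ n : ℕ,
      4 ^ n * dist (bk G n x) (bk G n y) ≤ dist x y) ∧
    ∀ x ∈ R, ∃ κ : EuclideanSpace ℝ (Fin k) → ULeaf G x, IsOpenEmbedding κ ∧
      (∀ v, (κ v).val ∈ WUl G (2 * r) x) ∧
      ∀ y : ULeaf G x, y.val ∈ WUl G (r / 2) x → y ∈ range κ := by
  obtain ⟨r, hr, hrε, hrρ⟩ : ∃ r > 0, 3 * r ≤ ε ∧ 3 * r ≤ ρ := by
    refine ⟨min ε ρ / 3, by positivity, ?_, ?_⟩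
    · have := min_le_left ε ρ
      linarith
    · have := min_le_right ε ρ
      linarith
  refine ⟨r, hr, ?_, ?_⟩
  · intro x hx y hy n
    exact F6e_contr hR hu hx (wul_self hε.le) (wul_mono (by linarith) hy) n
  intro x hx
  -- coordinates
  have hfin : finrank ℝ (V x) = k := hV x hx
  let b : OrthonormalBasis (Fin k) ℝ (V x) :=
    (stdOrthonormalBasis ℝ (V x)).reindex (finCongr hfin)
  let ι : EuclideanSpace ℝ (Fin k) ≃ₗᵢ[ℝ] V x := b.repr.symm
  let β : OpenPartialHomeomorph (EuclideanSpace ℝ (Fin k))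
      (EuclideanSpace ℝ (Fin k)) := OpenPartialHomeomorph.univBall 0 r
  have hβs : β.source = univ := OpenPartialHomeomorph.univBall_source _ _
  have hβt : β.target = ball 0 r := OpenPartialHomeomorph.univBall_target _ hr
  have hβc : Continuous β := OpenPartialHomeomorph.continuous_univBall _ _
  have hβr : ∀ v, ‖β v‖ < r := by
    intro v
    have h1 : β v ∈ β.target := β.map_source (by rw [hβs]; exact mem_univ v)
    rw [hβt, mem_ball_zero_iff] at h1
    exact h1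
  have hβinj : Function.Injective β := by
    intro v w h
    have h1 := β.left_inv (x := v) (by rw [hβs]; exact mem_univ v)
    have h2 := β.left_inv (x := w) (by rw [hβs]; exact mem_univ w)
    rw [← h1, ← h2, h]
  let α : EuclideanSpace ℝ (Fin k) → EE N := fun v => (ι (β v) : EE N)
  have hαmem : ∀ v, α v ∈ V x := fun v => (ι (β v)).2
  have hαr : ∀ v, ‖α v‖ < r := by
    intro v
    show ‖ι (β v)‖ < r
    rw [LinearIsometryEquiv.norm_map]
    exact hβr v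
  have hαd : ∀ v w, ‖α v - α w‖ = ‖β v - β w‖ := by
    intro v w
    show ‖ι (β v) - ι (β w)‖ = _
    rw [← map_sub, LinearIsometryEquiv.norm_map]
  have hαρ : ∀ v, ‖α v‖ ≤ ρ := fun v => by
    have := hαr v
    linarith
  have hmem : ∀ v, Ψ x (α v) ∈ WUl G ε x := fun v => hA x hx _ (hαmem v) (hαρ v)
  let κ : EuclideanSpace ℝ (Fin k) → ULeaf G x := fun v =>
    ⟨Ψ x (α v), F6e_wu hR hu hε hx (hmem v)⟩
  -- distances in the leaf
  have hdist : ∀ v w, dist (κ v) (κ w) = dist (Ψ x (α v)) (Ψ x (α w)) := by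
    intro v w
    apply le_antisymm
    · exact (ULeaf.dist_le_iff _ _ _).2 (F6e_dist_le hR hu hx (hmem v) (hmem w))
    · exact ULeaf.dist_val_le (κ v) (κ w)
  have hup : ∀ v w, dist (κ v) (κ w) ≤ 2 * ‖β v - β w‖ := by
    intro v w
    rw [hdist, ← hαd]
    exact (hΨ2 x hx _ (hαmem v) (hαρ v) _ (hαmem w) (hαρ w)).1
  have hlow : ∀ v w, ‖β v - β w‖ ≤ dist (κ v) (κ w) := by
    intro v w
    rw [hdist, ← hαd]
    exact (hΨ2 x hx _ (hαmem v) (hαρ v) _ (hαmem w) (hαρ w)).2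
  have hzero : (0 : EE N) ∈ V x := Submodule.zero_mem _
  have hx2r : ∀ v, dist x (Ψ x (α v)) ≤ 2 * r := by
    intro v
    have h1 := (hΨ2 x hx 0 hzero (by rw [norm_zero]; exact hρ.le) _ (hαmem v) (hαρ v)).1
    rw [hΨ0 x hx, zero_sub, norm_neg] at h1
    have h2 := hαr v
    linarith
  have hxw : ∀ v, Ψ x (α v) ∈ WUl G (2 * r) x := by
    intro v
    have h1 := F6e_dist_le hR hu hx (wul_self hε.le) (hmem v)
    exact wul_mono (hx2r v) h1
  -- points of small plaques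
  have hpt : ∀ y : ULeaf G x, y.val ∈ WUl G ε x → dist x y.val ≤ ρ →
      ∀ a ∈ V x, y.val = Ψ x a → ‖a‖ < r → ∃ w, κ w = y ∧ α w = a := by
    intro y hy hxy a ha hya har
    have h1 : ι.symm ⟨a, ha⟩ ∈ β.target := by
      rw [hβt, mem_ball_zero_iff, LinearIsometryEquiv.norm_map]
      exact har
    have h2 : α (β.symm (ι.symm ⟨a, ha⟩)) = a := by
      show (ι (β (β.symm (ι.symm ⟨a, ha⟩))) : EE N) = a
      rw [β.right_inv h1, LinearIsometryEquiv.apply_symm_apply]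
    refine ⟨β.symm (ι.symm ⟨a, ha⟩), ?_, h2⟩
    apply ULeaf.val_injective
    show Ψ x (α (β.symm (ι.symm ⟨a, ha⟩))) = y.val
    rw [h2, hya]
  have hna : ∀ a ∈ V x, ‖a‖ ≤ ρ → ‖a‖ ≤ dist x (Ψ x a) := by
    intro a ha har
    have h1 := (hΨ2 x hx 0 hzero (by rw [norm_zero]; exact hρ.le) a ha har).2
    rwa [hΨ0 x hx, zero_sub, norm_neg] at h1
  refine ⟨κ, ?_, hxw, ?_⟩
  · -- open embedding
    refine IsOpenEmbedding.of_continuous_injective_isOpenMap ?_ ?_ ?_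
    · rw [continuous_iff_continuousAt]
      intro v
      rw [ContinuousAt, tendsto_iff_dist_tendsto_zero]
      have hc : Continuous fun w => 2 * ‖β w - β v‖ :=
        continuous_const.mul (hβc.sub continuous_const).norm
      have h0 := hc.tendsto v
      simp only [sub_self, norm_zero, mul_zero] at h0
      exact squeeze_zero (fun _ => dist_nonneg) (fun w => hup w v) h0
    · intro v w h
      have h1 := hlow v w
      rw [h, dist_self] at h1
      exact hβinj (sub_eq_zero.1 (norm_le_zero_iff.1 h1))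
    · rw [isOpenMap_iff_nhds_le]
      intro v U hU
      rw [mem_map] at hU
      -- a neighbourhood of `β v` in the ball
      have hvsrc : v ∈ β.source := by rw [hβs]; exact mem_univ v
      have hβv : β v ∈ β.target := β.map_source hvsrc
      have hsymm : ContinuousAt β.symm (β v) := β.continuousAt_symm hβv
      have hU' : β.symm ⁻¹' (κ ⁻¹' U) ∈ 𝓝 (β v) := by
        apply hsymm
        rw [β.left_inv hvsrc]
        exact hU
      obtain ⟨δ0, hδ0, hball⟩ := Metric.mem_nhds_iff.1 hU'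
      have hpos : 0 < r - ‖β v‖ := by
        have := hβr v
        linarith
      refine Metric.mem_nhds_iff.2 ⟨min δ0 (r - ‖β v‖), lt_min hδ0 hpos, ?_⟩
      intro y hy
      rw [mem_ball] at hy
      have hyδ : dist y (κ v) < δ0 := hy.trans_le (min_le_left _ _)
      have hyr : dist y (κ v) < r - ‖β v‖ := hy.trans_le (min_le_right _ _)
      have hynn : 0 ≤ ‖β v‖ := norm_nonneg _
      have hyw : y.val ∈ WUl G (dist y (κ v)) (κ v).val := by
        apply wul_symm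
        exact (ULeaf.dist_le_iff y (κ v) _).1 le_rfl
      have hyε' : y.val ∈ WUl G (2 * r + dist y (κ v)) x := wul_trans (hxw v) hyw
      have hyε : y.val ∈ WUl G ε x := wul_mono (by linarith) hyε'
      have hyρ : dist x y.val ≤ ρ := (wul_dist hyε').trans (by linarith)
      obtain ⟨a, ha, haρ, hya⟩ := hB x hx y.val hyε hyρ
      have hdiff : ‖a - α v‖ ≤ dist y (κ v) := by
        have h1 := (hΨ2 x hx a ha haρ _ (hαmem v) (hαρ v)).2
        rw [← hya] at h1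
        exact h1.trans (ULeaf.dist_val_le y (κ v))
      have hαv : ‖α v‖ = ‖β v‖ := by
        show ‖ι (β v)‖ = _
        rw [LinearIsometryEquiv.norm_map]
      have har : ‖a‖ < r := by
        have h1 : ‖a‖ ≤ ‖a - α v‖ + ‖α v‖ := by
          simpa using norm_add_le (a - α v) (α v)
        linarith
      obtain ⟨w, hw, hwa⟩ := hpt y hyε hyρ a ha hya har
      have hβw : β w ∈ ball (β v) δ0 := by
        rw [mem_ball, dist_eq_norm, ← hαd, hwa]
        exact hdiff.trans_lt hyδ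
      have hwU : β.symm (β w) ∈ κ ⁻¹' U := hball hβw
      rw [β.left_inv (by rw [hβs]; exact mem_univ w)] at hwU
      rw [← hw]
      exact hwU
  · intro y hy
    have hyε : y.val ∈ WUl G ε x := wul_mono (by linarith) hy
    have hyd : dist x y.val ≤ r / 2 := wul_dist hy
    have hyρ : dist x y.val ≤ ρ := hyd.trans (by linarith)
    obtain ⟨a, ha, haρ, hya⟩ := hB x hx y.val hyε hyρ
    have h1 := hna a ha haρ
    rw [← hya] at h1
    obtain ⟨w, hw, -⟩ := hpt y hyε hyρ a ha hya (by linarith)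
    exact ⟨w, hw⟩

theorem F6e_exh_cell (hR : ∀ x ∈ R, G.symm x ∈ R)
    (hu : ∀ x ∈ R, ∀ y ∈ WUl G ε x, ∀ y' ∈ WUl G ε x,
      4 * dist (G.symm y) (G.symm y') ≤ dist y y') (hε : 0 < ε)
    (hV : ∀ x ∈ R, finrank ℝ (V x) = k) {ρ : ℝ} (hρ : 0 < ρ) {Ψ : Z → EE N → Z}
    (hA : ∀ x ∈ R, ∀ a ∈ V x, ‖a‖ ≤ ρ → Ψ x a ∈ WUl G ε x)
    (hΨ0 : ∀ x ∈ R, Ψ x 0 = x)
    (hΨ2 : ∀ x ∈ R, ∀ a ∈ V x, ‖a‖ ≤ ρ → ∀ b ∈ V x, ‖b‖ ≤ ρ →
      dist (Ψ x a) (Ψ x b) ≤ 2 * ‖a - b‖ ∧ ‖a - b‖ ≤ dist (Ψ x a) (Ψ x b))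
    (hB : ∀ x ∈ R, ∀ y ∈ WUl G ε x, dist x y ≤ ρ → ∃ a ∈ V x, ‖a‖ ≤ ρ ∧ y = Ψ x a)
    {x : Z} (hx : x ∈ R) : Exh k G x := by
  obtain ⟨r, hr, hcon, hcell⟩ := F6e_cell hR hu hε hV hρ hA hΨ0 hΨ2 hB
  choose κ hκ1 hκ2 hκ3 using fun n => hcell (bk G n x) (F6e_bkR hR hx n)
  have hcov : ∀ n (y : ULeaf G x), bk G n y.val ∈ WUl G (r / 2) (bk G n x) →
      y ∈ range (F6e_homeo n x ∘ κ n) := by
    intro n y hy
    obtain ⟨v, hv⟩ := hκ3 n (F6e_bkL n x y) hy
    refine ⟨v, ?_⟩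
    show F6e_fwL n x (κ n v) = y
    rw [hv, F6e_fwL_bkL]
  refine ⟨fun n => F6e_homeo n x ∘ κ n, fun n => ?_, fun n => ?_, ?_⟩
  · exact (F6e_homeo n x).isOpenEmbedding.comp (hκ1 n)
  · rintro _ ⟨v, rfl⟩
    apply hcov
    show bk G (n + 1) (fw G n (κ n v).val) ∈ WUl G (r / 2) (bk G (n + 1) x)
    rw [bk_succ' G n (fw G n (κ n v).val), bk_fw, bk_succ' G n x]
    intro k
    rw [← bk_succ, ← bk_succ]
    have h1 := hcon _ (F6e_bkR hR hx n) _ (hκ2 n v) (k + 1)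
    have h2 := wul_dist (hκ2 n v)
    have h4 : (1:ℝ) ≤ 4 ^ k := one_le_pow₀ (by norm_num)
    have h5 : (0:ℝ) ≤ dist (bk G (k + 1) (bk G n x)) (bk G (k + 1) (κ n v).val) :=
      dist_nonneg
    rw [pow_succ] at h1
    nlinarith
  · rw [eq_univ_iff_forall]
    intro y
    obtain ⟨n, hn⟩ := mem_wu_iff_eventually.1 y.prop (r / 2) (by positivity)
    exact mem_iUnion.2 ⟨n, hcov n y hn⟩

end Cell

end F6eLeaf

section F6eCB
variable {d N k : ℕ} {K : Type} [MetricSpace K] [CompactSpace K] {S : ESys d N K} {R : Set K}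
  {V : K → Submodule ℝ (EE N)}

/-- the leaves of a contracted bundle are increasing unions of cells -/
theorem F6e_exh_CB (h : CB S R V k) {x : K} (hx : x ∈ R) : Exh k S.f.symm x := by
  obtain ⟨ε0, hε0, hcon⟩ := h.contr
  obtain ⟨ε1, hε1, hpar⟩ := h.param
  obtain ⟨ρ, hρ, Ψ, hΨ1, hΨ0, hΨ2, hΨ3, -⟩ :=
    hpar (min ε1 ε0) (lt_min hε1 hε0) (min_le_left _ _)
  refine F6e_exh_cell (G := S.f.symm) (R := R) (V := V) (ε := min ε1 ε0) (ρ := ρ) (Ψ := Ψ)
    (fun y hy => h.inv y hy) ?_ (lt_min hε1 hε0) h.rank hρ ?_ hΨ0 hΨ2 ?_ hx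
  · intro z hz y hy y' hy'
    exact hcon z hz y (fun n => (hy n).trans (min_le_right _ _)) y'
      (fun n => (hy' n).trans (min_le_right _ _))
  · intro z hz a ha har
    exact (hΨ1 z hz a ha har).1
  · intro z hz y hy hzy
    exact hΨ3 z hz y hy hzy

end F6eCB

section F6ePow
variable {d N : ℕ} {K : Type} [MetricSpace K] [CompactSpace K]

theorem F6e_fwF (S : ESys d N K) {F : Set K} (hinv : ∀ x, S.f x ∈ F ↔ x ∈ F) (n : ℕ) (x : K) :
    fw S.f n x ∈ F ↔ x ∈ F := by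
  induction n generalizing x with
  | zero => rfl
  | succ n ih => rw [fw_succ, ih, hinv]

theorem F6e_finrank (S : ESys d N K) (n : ℕ) (x : K) :
    finrank ℝ (S.Es (fw S.f n x)) = finrank ℝ (S.Es x) := by
  induction n generalizing x with
  | zero => rfl
  | succ n ih => rw [fw_succ, ih, S.toCoc.finrank_Es_f]

theorem F6e_Es_An (S : ESys d N K) (n : ℕ) {x : K} {v : EE N} (hv : v ∈ S.Es x) :
    S.An n x v ∈ S.Es (fw S.f n x) := by
  induction n generalizing x v with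
  | zero =>
    change S.P x v ∈ S.Es x
    rw [hv.1]
    exact hv
  | succ n ih =>
    rw [Coc.An_succ, ContinuousLinearMap.comp_apply, fw_succ]
    exact ih ((S.toCoc.Es_map (S.toCoc.Es_le x hv)).2 hv)

theorem F6e_Eu_An (S : ESys d N K) (n : ℕ) {x : K} {v : EE N} (hv : v ∈ S.Eu x) :
    S.An n x v ∈ S.Eu (fw S.f n x) := by
  induction n generalizing x v with
  | zero =>
    change S.P x v ∈ S.Eu x
    have h1 : S.P x v = v := hv.1
    rw [h1]
    exact hv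
  | succ n ih =>
    rw [Coc.An_succ, ContinuousLinearMap.comp_apply, fw_succ]
    exact ih ((S.toCoc.Eu_map (S.toCoc.Eu_le x hv)).2 hv)

/-- for a large power `Es` is a contracted bundle over the points of `F` of given index -/
theorem F6e_CB (S : ESys d N K) {F : Set K} (h : S.toCoc.HypOn F) (hF : F.Finite) (m : ℕ) :
    ∃ k > 0, CB (S.epow k) {x | x ∈ F ∧ finrank ℝ (S.Es x) = m} (fun x => S.Es x) m := by
  obtain ⟨c, lam, h0, h1, h2⟩ := h.hyp
  obtain ⟨κ, hκ0, hκ⟩ := h.C05_angle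
  have hlim : Tendsto (fun n : ℕ => (|c| + κ * |c|) * lam ^ n) atTop (𝓝 0) := by
    simpa using (tendsto_pow_atTop_nhds_zero_of_lt_one h0.le h1).const_mul (|c| + κ * |c|)
  obtain ⟨k, hk, hkpos⟩ := ((hlim.eventually (gt_mem_nhds (by norm_num : (0 : ℝ) < 1 / 8))).and
    (eventually_gt_atTop 0)).exists
  have hl : 0 < lam ^ k := pow_pos h0 k
  have hc1 : |c| * lam ^ k ≤ 1 / 8 := by
    have : 0 ≤ κ * |c| * lam ^ k := by positivity
    nlinarith
  have hc2 : κ * (|c| * lam ^ k) ≤ 1 / 8 := by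
    have : 0 ≤ |c| * lam ^ k := by positivity
    nlinarith
  have hcl : c * lam ^ k ≤ |c| * lam ^ k := mul_le_mul_of_nonneg_right (le_abs_self c) hl.le
  have hcompact : IsCompact {x | x ∈ F ∧ finrank ℝ (S.Es x) = m} :=
    (hF.subset fun x hx => hx.1).isCompact
  refine ⟨k, hkpos, ?_⟩
  constructor
  · exact hcompact
  · intro x hx
    exact ⟨(F6e_fwF S h.inv k x).2 hx.1, (F6e_finrank S k x).trans hx.2⟩
  · intro x _
    exact S.toCoc.Es_le x
  · intro x hx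
    exact hx.2
  · intro x v x0 v0 hx hv hx0 hv0
    have h3 := h.closed_Es.mem_of_tendsto (f := fun n => (x n, v n)) (b := atTop)
      (hx0.prodMk_nhds hv0) (Eventually.of_forall fun n => ⟨(hx n).1, hv n⟩)
    exact h3.2
  · intro x _ v hv
    exact F6e_Es_An S k hv
  · intro x hx v hv
    have h3 := (h2 x hx.1).1 v hv k
    have h4 : ‖S.An k x v‖ ≤ 1 / 8 * ‖v‖ :=
      h3.trans (mul_le_mul_of_nonneg_right (hcl.trans hc1) (norm_nonneg _))
    show 8 * ‖S.An k x v‖ ≤ ‖v‖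
    linarith
  · intro x hx v hv
    show 8 * infDist v (S.Es x) ≤ infDist (S.An k x v) (S.Es (fw S.f k x))
    have hv' : v ∈ S.toCoc.Es x ⊔ S.toCoc.Eu x := by
      rw [(h.split x hx.1).1]
      exact hv
    obtain ⟨s, hs, u, hu, rfl⟩ := Submodule.mem_sup.1 hv'
    have h3 : infDist (s + u) (S.Es x : Set (EE N)) ≤ ‖u‖ := by
      refine (infDist_le_dist_of_mem hs).trans (le_of_eq ?_)
      rw [dist_eq_norm, add_sub_cancel_left]
    have h4 : ‖u‖ ≤ 1 / 8 * infDist (S.An k x (s + u)) (S.Es (fw S.f k x)) := by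
      have hxk : fw S.f k x ∈ F := (F6e_fwF S h.inv k x).2 hx.1
      have huk := F6e_Eu_An S k hu
      have hsk := F6e_Es_An S k hs
      have h5 : ‖u‖ ≤ |c| * lam ^ k * ‖S.An k x u‖ := by
        have h6 := (h2 _ hxk).2 _ huk k
        rw [S.toCoc.symm_An_An k (S.toCoc.Eu_le x hu)] at h6
        exact h6.trans (mul_le_mul_of_nonneg_right hcl (norm_nonneg _))
      have h7 : ‖S.An k x u‖ ≤ κ * infDist (S.An k x (s + u)) (S.Es (fw S.f k x)) := by
        rw [← div_le_iff₀' hκ0, le_infDist ⟨0, Submodule.zero_mem _⟩]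
        intro w hw
        rw [div_le_iff₀' hκ0, dist_eq_norm]
        have h8 := (hκ _ hxk (S.An k x s - w) ((S.Es _).sub_mem hsk hw) _ huk).2
        refine h8.trans (le_of_eq ?_)
        rw [map_add]
        congr 2
        abel
      have hnn : 0 ≤ infDist (S.An k x (s + u)) (S.Es (fw S.f k x) : Set (EE N)) :=
        infDist_nonneg
      calc ‖u‖ ≤ |c| * lam ^ k * ‖S.An k x u‖ := h5
        _ ≤ |c| * lam ^ k * (κ * infDist (S.An k x (s + u)) (S.Es (fw S.f k x))) :=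
            mul_le_mul_of_nonneg_left h7 (by positivity)
        _ = κ * (|c| * lam ^ k) * infDist (S.An k x (s + u)) (S.Es (fw S.f k x)) := by ring
        _ ≤ _ := mul_le_mul_of_nonneg_right hc2 hnn
    linarith

/-- F6e: stable leaves of periodic hyperbolic points are increasing unions of cells -/
theorem ESys.exh_per (S : ESys d N K) {F : Set K} (h : S.toCoc.HypOn F) (hF : F.Finite) {p : K}
    (hp : p ∈ F) : Exh (finrank ℝ (S.Es p)) S.f.symm p := by
  obtain ⟨k, hk, hCB⟩ := F6e_CB S h hF (finrank ℝ (S.Es p))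
  have h1 : Exh (finrank ℝ (S.Es p)) (S.epow k).f.symm p := F6e_exh_CB hCB ⟨hp, rfl⟩
  exact F6e_exh_pow S.f.symm hk h1

end F6ePow

end Pool.MP85
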