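import Pool.Agent.Lib.MP_85e637_an.B02b

/-!
# F6f: the dimension of a leaf is seen by its punctured version
-/

open Filter Topology Set Metric Module

namespace Pool.MP85

theorem F6f_zero {Z : Type} [MetricSpace Z] {G : Z ≃ₜ Z} {x : Z} (h : Exh 0 G x) :
    ∀ z : ULeaf G x, z.val = x := by
  obtain ⟨ψ, h1, h2, h3⟩ := h
  have hx : x ∈ WU G x := by
    change Tendsto (fun n => dist (bk G n x) (bk G n x)) atTop (𝓝 0)
    simp
  have hmono : Monotone fun n => range (ψ n) := monotone_nat_of_le_succ h2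
  have key : ∀ z z' : ULeaf G x, z = z' := by
    intro z z'
    obtain ⟨n, e, he⟩ := B02b_cell h3 z
    obtain ⟨n', e', he'⟩ := B02b_cell h3 z'
    obtain ⟨a, ha⟩ := hmono (le_max_left n n') ⟨e, he⟩
    obtain ⟨b, hb⟩ := hmono (le_max_right n n') ⟨e', he'⟩
    rw [← ha, ← hb, Subsingleton.elim a b]
  intro z
  rw [key z ⟨x, hx⟩]

theorem F6f_two {Z : Type} [MetricSpace Z] {G : Z ≃ₜ Z} {x : Z} {m : ℕ} (h : Exh m G x)
    (hm : 2 ≤ m) : IsPreconnected {z : ULeaf G x | z.val ≠ x} ∧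
      {z : ULeaf G x | z.val ≠ x}.Nonempty := by
  have hx : x ∈ WU G x := by
    change Tendsto (fun n => dist (bk G n x) (bk G n x)) atTop (𝓝 0)
    simp
  constructor
  · obtain ⟨ψ, h1, h2, h3⟩ := h
    have hmono : Monotone fun n => range (ψ n) := monotone_nat_of_le_succ h2
    have hcell : ∀ n, IsPreconnected {e | (ψ n e).val ≠ x} := by
      intro n
      by_cases hp : ∃ e0, (ψ n e0).val = x
      · obtain ⟨e0, he0⟩ := hp
        have : {e | (ψ n e).val ≠ x} = {e0}ᶜ := by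
          ext e
          simp only [mem_ofPred_eq, mem_compl_iff, mem_singleton_iff, not_iff_not]
          constructor
          · intro h
            exact (h1 n).injective (ULeaf.val_injective (h.trans he0.symm))
          · rintro rfl; exact he0
        rw [this]
        exact (isConnected_compl_singleton_of_one_lt_rank (B02b_rank hm) e0).isPreconnected
      · push Not at hp
        have : {e | (ψ n e).val ≠ x} = univ := by
          ext e
          simp [hp e]
        rw [this]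
        exact isPreconnected_univ
    apply isPreconnected_of_forall_pair
    intro z hz z' hz'
    obtain ⟨n, e, he⟩ := B02b_cell h3 z
    obtain ⟨n', e', he'⟩ := B02b_cell h3 z'
    obtain ⟨a, ha⟩ := hmono (le_max_left n n') ⟨e, he⟩
    obtain ⟨b, hb⟩ := hmono (le_max_right n n') ⟨e', he'⟩
    refine ⟨ψ (max n n') '' {e | (ψ (max n n') e).val ≠ x}, ?_, ⟨a, ?_, ha⟩, ⟨b, ?_, hb⟩,
      (hcell _).image _ (h1 _).continuous.continuousOn⟩
    · rintro _ ⟨c, hc, rfl⟩
      exact hc
    · change (ψ (max n n') a).val ≠ x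
      rw [ha]; exact hz
    · change (ψ (max n n') b).val ≠ x
      rw [hb]; exact hz'
  · obtain ⟨y', hy', -⟩ := leaf_perfect (by omega) h ⟨x, hx⟩ one_pos
    exact ⟨y', fun h => hy' (ULeaf.val_injective h)⟩

theorem F6f_one {Z : Type} [MetricSpace Z] {G : Z ≃ₜ Z} {x : Z} (h : Exh 1 G x) :
    ¬ IsPreconnected {z : ULeaf G x | z.val ≠ x} := by
  intro hpre
  have hx : x ∈ WU G x := by
    change Tendsto (fun n => dist (bk G n x) (bk G n x)) atTop (𝓝 0)
    simp
  have hlpc := leaf_punct_lpc h x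
  obtain ⟨ψ, h1, h2, h3⟩ := h
  have hmono : Monotone fun n => range (ψ n) := monotone_nat_of_le_succ h2
  have hfr : finrank ℝ ℝ = finrank ℝ (EuclideanSpace ℝ (Fin 1)) := by
    rw [finrank_euclideanSpace_fin, finrank_self]
  let g : ℝ ≃L[ℝ] EuclideanSpace ℝ (Fin 1) := ContinuousLinearEquiv.ofFinrankEq hfr
  let φ : ℕ → ℝ → ULeaf G x := fun n t => ψ n (g t)
  have hφ : ∀ n, IsOpenEmbedding (φ n) := fun n =>
    (h1 n).comp g.toHomeomorph.isOpenEmbedding
  have hr : ∀ n, range (φ n) = range (ψ n) := by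
    intro n
    ext z
    constructor
    · rintro ⟨t, rfl⟩
      exact ⟨g t, rfl⟩
    · rintro ⟨e, rfl⟩
      exact ⟨g.symm e, by simp [φ]⟩
  set x0 : ULeaf G x := ⟨x, hx⟩ with hx0
  obtain ⟨n0, e0, he0⟩ := B02b_cell h3 x0
  obtain ⟨e, he⟩ : x0 ∈ range (φ n0) := by rw [hr]; exact ⟨e0, he0⟩
  set a : ULeaf G x := φ n0 (e + 1) with ha
  set b : ULeaf G x := φ n0 (e - 1) with hb
  have hax : a.val ≠ x := by
    intro h
    have h4 : φ n0 (e + 1) = φ n0 e := by rw [he]; exact ULeaf.val_injective h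
    have := (hφ n0).injective h4
    linarith
  have hbx : b.val ≠ x := by
    intro h
    have h4 : φ n0 (e - 1) = φ n0 e := by rw [he]; exact ULeaf.val_injective h
    have := (hφ n0).injective h4
    linarith
  have hpc : PreconnectedSpace {z : ULeaf G x // z.val ≠ x} := Subtype.preconnectedSpace hpre
  have hcs : ConnectedSpace {z : ULeaf G x // z.val ≠ x} :=
    { toPreconnectedSpace := hpc, toNonempty := ⟨⟨a, hax⟩⟩ }
  have hpath : PathConnectedSpace {z : ULeaf G x // z.val ≠ x} :=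
    pathConnectedSpace_iff_connectedSpace.2 hcs
  obtain ⟨γ⟩ := hpath.joined ⟨a, hax⟩ ⟨b, hbx⟩
  set C : Set (ULeaf G x) := range (fun t => (γ t).1) with hC
  have hCcont : Continuous (fun t => (γ t).1) := continuous_subtype_val.comp γ.continuous
  have hCc : IsCompact C := isCompact_range hCcont
  have hCp : IsPreconnected C := isPreconnected_range hCcont
  have hCa : a ∈ C := ⟨0, by simp⟩
  have hCb : b ∈ C := ⟨1, by simp⟩
  have hCx : x0 ∉ C := by
    rintro ⟨t, ht⟩
    apply (γ t).2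
    have h5 : (γ t).1 = x0 := ht
    rw [h5]
  set D : Set (ULeaf G x) := φ n0 '' Icc e (e + 1) with hD
  set E : Set (ULeaf G x) := φ n0 '' Icc (e - 1) e with hE
  have hDc : IsCompact D := isCompact_Icc.image (hφ n0).continuous
  have hEc : IsCompact E := isCompact_Icc.image (hφ n0).continuous
  have hDp : IsPreconnected D := isPreconnected_Icc.image _ (hφ n0).continuous.continuousOn
  have hEp : IsPreconnected E := isPreconnected_Icc.image _ (hφ n0).continuous.continuousOn
  obtain ⟨n, hn, -⟩ := B02b_compact_cell h1 h2 h3 (hCc.union (hDc.union hEc))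
  rw [← hr n] at hn
  have hCn : C ⊆ range (φ n) := subset_union_left.trans hn
  have hDn : D ⊆ range (φ n) := (subset_union_left.trans subset_union_right).trans hn
  have hEn : E ⊆ range (φ n) := (subset_union_right.trans subset_union_right).trans hn
  have hC' : (φ n ⁻¹' C).OrdConnected :=
    (hCp.preimage_of_isOpenMap (hφ n).injective (hφ n).isOpenMap hCn).ordConnected
  have hD' : (φ n ⁻¹' D).OrdConnected :=
    (hDp.preimage_of_isOpenMap (hφ n).injective (hφ n).isOpenMap hDn).ordConnected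
  have hE' : (φ n ⁻¹' E).OrdConnected :=
    (hEp.preimage_of_isOpenMap (hφ n).injective (hφ n).isOpenMap hEn).ordConnected
  obtain ⟨α, hα⟩ := hCn hCa
  obtain ⟨β, hβ⟩ := hCn hCb
  obtain ⟨ε, hε⟩ : x0 ∈ range (φ n) := hDn ⟨e, ⟨le_rfl, by linarith⟩, he⟩
  have hαC : α ∈ φ n ⁻¹' C := by change φ n α ∈ C; rw [hα]; exact hCa
  have hβC : β ∈ φ n ⁻¹' C := by change φ n β ∈ C; rw [hβ]; exact hCb
  have hεC : ε ∉ φ n ⁻¹' C := by
    intro h
    have h5 : φ n ε ∈ C := h
    rw [hε] at h5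
    exact hCx h5
  have hαD : α ∈ φ n ⁻¹' D := by
    change φ n α ∈ D; rw [hα]; exact ⟨e + 1, ⟨by linarith, le_rfl⟩, rfl⟩
  have hεD : ε ∈ φ n ⁻¹' D := by
    change φ n ε ∈ D; rw [hε]; exact ⟨e, ⟨le_rfl, by linarith⟩, he⟩
  have hβE : β ∈ φ n ⁻¹' E := by
    change φ n β ∈ E; rw [hβ]; exact ⟨e - 1, ⟨le_rfl, by linarith⟩, rfl⟩
  have hεE : ε ∈ φ n ⁻¹' E := by
    change φ n ε ∈ E; rw [hε]; exact ⟨e, ⟨by linarith, le_rfl⟩, he⟩
  have hαE : α ∉ φ n ⁻¹' E := by
    rintro ⟨t, ht, ht'⟩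
    rw [hα] at ht'
    have := (hφ n0).injective ht'
    have := ht.2
    linarith
  have hβD : β ∉ φ n ⁻¹' D := by
    rintro ⟨t, ht, ht'⟩
    rw [hβ] at ht'
    have := (hφ n0).injective ht'
    have := ht.1
    linarith
  rcases lt_trichotomy α ε with h1a | h1a | h1a
  · rcases lt_trichotomy β ε with h1b | h1b | h1b
    · rcases le_total α β with h6 | h6
      · exact hβD (hD'.out hαD hεD ⟨h6, h1b.le⟩)
      · exact hαE (hE'.out hβE hεE ⟨h6, h1a.le⟩)
    · exact hεC (h1b ▸ hβC)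
    · exact hεC (hC'.out hαC hβC ⟨h1a.le, h1b.le⟩)
  · exact hεC (h1a ▸ hαC)
  · rcases lt_trichotomy β ε with h1b | h1b | h1b
    · exact hεC (hC'.out hβC hαC ⟨h1b.le, h1a.le⟩)
    · exact hεC (h1b ▸ hβC)
    · rcases le_total α β with h6 | h6
      · exact hαE (hE'.out hεE hβE ⟨h1a.le, h6⟩)
      · exact hβD (hD'.out hεD hαD ⟨h1b.le, h6⟩)

/-- F6f: the dimension of a leaf is seen by its punctured version -/
theorem exh_type {Z : Type} [MetricSpace Z] {G : Z ≃ₜ Z} {x : Z} {m : ℕ} (h : Exh m G x) :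
    (m = 0 → ∀ z : ULeaf G x, z.val = x) ∧
    (m = 1 → ¬ IsPreconnected {z : ULeaf G x | z.val ≠ x}) ∧
    (2 ≤ m → IsPreconnected {z : ULeaf G x | z.val ≠ x} ∧
      {z : ULeaf G x | z.val ≠ x}.Nonempty) := by
  refine ⟨?_, ?_, fun hm => F6f_two h hm⟩
  · rintro rfl
    exact F6f_zero h
  · rintro rfl
    exact F6f_one h

end Pool.MP85
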