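import Pool.Agent.Lib.MP_85e637_an.S2Defs

/-! # F6g: conjugacies preserve unstable leaves -/

open Filter Topology Set Metric Module

namespace Pool.MP85
variable {d N : ℕ} {K : Type} [MetricSpace K] [CompactSpace K]

theorem F6g_bk {G G' h : K ≃ₜ K} (hc : ∀ x, h (G x) = G' (h x)) (n : ℕ) (y : K) :
    h (bk G n y) = bk G' n (h y) := by
  have h1 : ∀ z, h (G.symm z) = G'.symm (h z) := by
    intro z
    rw [Homeomorph.eq_symm_apply, ← hc, Homeomorph.apply_symm_apply]
  induction n with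
  | zero => rfl
  | succ n ih => rw [bk_succ', bk_succ', h1, ih]

theorem F6g_mem {G G' h : K ≃ₜ K} (hc : ∀ x, h (G x) = G' (h x)) {x x' : K} (hx : h x = x')
    {y : K} (hy : y ∈ WU G x) : h y ∈ WU G' x' := by
  have hu : UniformContinuous h := CompactSpace.uniformContinuous_of_continuous h.continuous
  subst hx
  have hy' : Tendsto (fun n => dist (bk G n x) (bk G n y)) atTop (𝓝 0) := hy
  show Tendsto (fun n => dist (bk G' n (h x)) (bk G' n (h y))) atTop (𝓝 0)
  rw [Metric.tendsto_atTop] at hy' ⊢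
  intro ε hε
  obtain ⟨δ, hδ, hd⟩ := Metric.uniformContinuous_iff.1 hu ε hε
  obtain ⟨n0, hn0⟩ := hy' δ hδ
  refine ⟨n0, fun n hn => ?_⟩
  have h1 := hn0 n hn
  rw [Real.dist_0_eq_abs, abs_of_nonneg dist_nonneg] at h1 ⊢
  rw [← F6g_bk hc, ← F6g_bk hc]
  exact hd h1

/-- the map of leaves induced by a conjugacy -/
def F6g_map {G G' h : K ≃ₜ K} (hc : ∀ x, h (G x) = G' (h x)) {x x' : K} (hx : h x = x') :
    ULeaf G x → ULeaf G' x' := fun z => ⟨h z.val, F6g_mem hc hx z.prop⟩

theorem F6g_cont {G G' h : K ≃ₜ K} (hc : ∀ x, h (G x) = G' (h x)) {x x' : K} (hx : h x = x') :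
    Continuous (F6g_map hc hx) := by
  have hu : UniformContinuous h := CompactSpace.uniformContinuous_of_continuous h.continuous
  rw [Metric.continuous_iff]
  intro b ε hε
  obtain ⟨δ, hδ, hd⟩ := Metric.uniformContinuous_iff.1 hu (ε / 2) (half_pos hε)
  refine ⟨δ / 2, half_pos hδ, fun a ha => ?_⟩
  have h1 : b.val ∈ WUl G (δ / 2) a.val := (ULeaf.dist_le_iff a b (δ / 2)).1 ha.le
  have h2 : dist (F6g_map hc hx a) (F6g_map hc hx b) ≤ ε / 2 := by
    rw [ULeaf.dist_le_iff]
    intro n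
    show dist (bk G' n (h a.val)) (bk G' n (h b.val)) ≤ ε / 2
    rw [← F6g_bk hc, ← F6g_bk hc]
    exact (hd ((h1 n).trans_lt (half_lt_self hδ))).le
  exact h2.trans_lt (half_lt_self hε)

/-- F6g -/
theorem leaf_conj {G G' h : K ≃ₜ K} (hc : ∀ x, h (G x) = G' (h x)) (x : K) :
    ∃ H : ULeaf G x ≃ₜ ULeaf G' (h x), ∀ z, (H z).val = h z.val := by
  have hc' : ∀ x, h.symm (G' x) = G (h.symm x) := by
    intro z
    rw [Homeomorph.symm_apply_eq, hc, Homeomorph.apply_symm_apply]
  refine ⟨{ toFun := F6g_map hc rfl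
            invFun := F6g_map hc' (h.symm_apply_apply x)
            left_inv := ?_
            right_inv := ?_
            continuous_toFun := F6g_cont hc rfl
            continuous_invFun := F6g_cont hc' (h.symm_apply_apply x) }, fun z => rfl⟩
  · rintro ⟨z, hz⟩
    simp [F6g_map]
  · rintro ⟨z, hz⟩
    simp [F6g_map]

end Pool.MP85
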