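import Pool.Agent.Lib.MP_85e637_an.F3
import Pool.Agent.Lib.MP_85e637_an.F1

/-!
# Stage 2, F4a: limits of `C¹`-Cauchy sequences of embedded systems
-/

open Filter Topology Set Metric Module

namespace Pool.MP85
variable {d N : ℕ} {K : Type} [MetricSpace K] [CompactSpace K]

namespace ESys

omit [CompactSpace K] in
/-- uniformly Cauchy sequences of continuous maps -/
theorem F4a_lim {X : Type} [MetricSpace X] [CompleteSpace X] (g : ℕ → K → X)
    (hg : ∀ n, Continuous (g n)) (δ : ℕ → ℝ) (hδ : Tendsto δ atTop (𝓝 0))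
    (h : ∀ n m, n ≤ m → ∀ x, dist (g n x) (g m x) ≤ δ n) :
    ∃ g' : K → X, Continuous g' ∧ (∀ n x, dist (g n x) (g' x) ≤ δ n) ∧
      (∀ (y : ℕ → K) (x : K), Tendsto y atTop (𝓝 x) →
        Tendsto (fun n => g n (y n)) atTop (𝓝 (g' x))) := by
  have hlim : ∀ x, ∃ z, Tendsto (fun n => g n x) atTop (𝓝 z) := by
    intro x
    have hc : CauchySeq (fun n => g n x) := by
      refine cauchySeq_of_le_tendsto_0 (fun n => 2 * δ n) (fun n m k hn hm => ?_)
        (by simpa using hδ.const_mul 2)
      have h1 := h k n hn x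
      have h2 := h k m hm x
      have h3 : dist (g n x) (g m x) ≤ dist (g n x) (g k x) + dist (g k x) (g m x) :=
        dist_triangle _ _ _
      rw [dist_comm (g n x) (g k x)] at h3
      linarith
    exact cauchySeq_tendsto_of_complete hc
  choose g' hg' using hlim
  have hb : ∀ n x, dist (g n x) (g' x) ≤ δ n := by
    intro n x
    have h1 : Tendsto (fun m => dist (g n x) (g m x)) atTop (𝓝 (dist (g n x) (g' x))) :=
      tendsto_const_nhds.dist (hg' x)
    exact le_of_tendsto h1 (eventually_atTop.2 ⟨n, fun m hm => h n m hm x⟩)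
  have hu : TendstoUniformly g g' atTop := by
    rw [Metric.tendstoUniformly_iff]
    intro ε hε
    filter_upwards [hδ.eventually (gt_mem_nhds hε)] with n hn x
    rw [dist_comm]
    exact (hb n x).trans_lt hn
  have hc : Continuous g' := hu.continuous (Frequently.of_forall hg)
  refine ⟨g', hc, hb, fun y x hy => ?_⟩
  rw [tendsto_iff_dist_tendsto_zero]
  have h1 : Tendsto (fun n => δ n + dist (g' (y n)) (g' x)) atTop (𝓝 0) := by
    have h2 : Tendsto (fun n => dist (g' (y n)) (g' x)) atTop (𝓝 0) :=
      tendsto_iff_dist_tendsto_zero.1 ((hc.tendsto x).comp hy)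
    simpa using hδ.add h2
  refine squeeze_zero (fun n => dist_nonneg) (fun n => ?_) h1
  exact (dist_triangle _ (g' (y n)) _).trans (add_le_add (hb n (y n)) le_rfl)

/-- F4: limits of `C¹`-Cauchy sequences -/
theorem limit (S : ESys d N K) (T : ℕ → ESys d N K) (δ : ℕ → ℝ) (h0 : S.Same (T 0))
    (hδ : Tendsto δ atTop (𝓝 0)) (h : ∀ n m, n ≤ m → (T n).Near (T m) (δ n)) :
    ∃ T' : ESys d N K, ∀ n, ∀ ε > 0, (T n).Near T' (δ n + ε) := by
  have hsame : ∀ n, S.Same (T n) := fun n =>
    ⟨(h 0 n (Nat.zero_le n)).same.e.trans h0.e, (h 0 n (Nat.zero_le n)).same.P.trans h0.P⟩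
  obtain ⟨F, hFc, hFb, hFt⟩ := F4a_lim (fun n => (T n).f) (fun n => (T n).f.continuous) δ hδ
    (fun n m hnm x => ((h n m hnm).f x).le)
  obtain ⟨G, hGc, hGb, hGt⟩ := F4a_lim (fun n => (T n).f.symm) (fun n => (T n).f.symm.continuous)
    δ hδ (fun n m hnm x => ((h n m hnm).f' x).le)
  obtain ⟨A, hAc, hAb, hAt⟩ := F4a_lim (fun n => (T n).A) (fun n => (T n).contA)
    δ hδ (fun n m hnm x => by rw [dist_eq_norm]; exact ((h n m hnm).A x).le)
  obtain ⟨A', hA'c, hA'b, hA't⟩ := F4a_lim (fun n => (T n).A') (fun n => (T n).contA')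
    δ hδ (fun n m hnm x => by rw [dist_eq_norm]; exact ((h n m hnm).A' x).le)
  have hf1 : ∀ x, Tendsto (fun n => (T n).f x) atTop (𝓝 (F x)) :=
    fun x => hFt (fun _ => x) x tendsto_const_nhds
  have hg1 : ∀ x, Tendsto (fun n => (T n).f.symm x) atTop (𝓝 (G x)) :=
    fun x => hGt (fun _ => x) x tendsto_const_nhds
  have hA1 : ∀ x, Tendsto (fun n => (T n).A x) atTop (𝓝 (A x)) :=
    fun x => hAt (fun _ => x) x tendsto_const_nhds
  have hA'1 : ∀ x, Tendsto (fun n => (T n).A' x) atTop (𝓝 (A' x)) :=
    fun x => hA't (fun _ => x) x tendsto_const_nhds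
  have hP1 : ∀ x, Tendsto (fun n => S.P ((T n).f x)) atTop (𝓝 (S.P (F x))) :=
    fun x => (S.contP.tendsto _).comp (hf1 x)
  have hcomp : ∀ (B C : ℕ → EE N →L[ℝ] EE N) (B' C' : EE N →L[ℝ] EE N),
      Tendsto B atTop (𝓝 B') → Tendsto C atTop (𝓝 C') →
      Tendsto (fun n => B n ∘L C n) atTop (𝓝 (B' ∘L C')) := fun B C B' C' hB hC =>
    ((isBoundedBilinearMap_comp (𝕜 := ℝ) (E := EE N) (F := EE N)
      (G := EE N)).continuous.tendsto (B', C')).comp (hB.prodMk_nhds hC)
  have hGF : ∀ x, G (F x) = x := fun x => by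
    refine tendsto_nhds_unique (hGt (fun n => (T n).f x) (F x) (hf1 x)) ?_
    simp
  have hFG : ∀ x, F (G x) = x := fun x => by
    refine tendsto_nhds_unique (hFt (fun n => (T n).f.symm x) (G x) (hg1 x)) ?_
    simp
  have hPn : ∀ n, (T n).P = S.P := fun n => (hsame n).P
  have hen : ∀ n, (T n).e = S.e := fun n => (hsame n).e
  have hdiff : ∀ η > 0, ∃ ρ > 0, ∀ x y y', dist x y < ρ → dist x y' < ρ →
      ‖(S.e (F y) - S.e (F y')) - A x (S.e y - S.e y')‖ ≤ η * dist y y' := by
    intro η hη
    obtain ⟨ρ0, hρ0, hm⟩ := S.mean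
    obtain ⟨n, hn⟩ : ∃ n, δ n < η / 6 :=
      (hδ.eventually (gt_mem_nhds (by positivity))).exists
    obtain ⟨ρ1, hρ1, hd1⟩ := (T n).diff (η / 2) (by positivity)
    have hecont : Continuous S.e := by
      have : Isometry S.e := Isometry.of_dist_eq fun x y => by rw [dist_eq_norm, S.e_isom]
      exact this.continuous
    refine ⟨min ρ1 (ρ0 / 2), by positivity, fun x y y' hxy hxy' => ?_⟩
    have hy1 : dist y y' < ρ0 := by
      have h1 : dist y y' ≤ dist y x + dist x y' := dist_triangle _ _ _
      have h2 := lt_of_lt_of_le hxy (min_le_right _ _)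
      have h3 := lt_of_lt_of_le hxy' (min_le_right _ _)
      rw [dist_comm] at h2
      linarith
    have hd2 := hd1 x y y' (lt_of_lt_of_le hxy (min_le_left _ _))
      (lt_of_lt_of_le hxy' (min_le_left _ _))
    rw [hen n] at hd2
    have hm2 : ‖(S.e ((T n).f y) - S.e ((T n).f y')) - (S.e (F y) - S.e (F y'))‖
        ≤ 2 * δ n * dist y y' := by
      have ht : Tendsto (fun m => ‖(S.e ((T n).f y) - S.e ((T n).f y')) -
          (S.e ((T m).f y) - S.e ((T m).f y'))‖) atTop
          (𝓝 ‖(S.e ((T n).f y) - S.e ((T n).f y')) - (S.e (F y) - S.e (F y'))‖) := by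
        refine (tendsto_const_nhds.sub (Tendsto.sub ?_ ?_)).norm
        · exact (hecont.tendsto _).comp (hf1 y)
        · exact (hecont.tendsto _).comp (hf1 y')
      refine le_of_tendsto ht (eventually_atTop.2 ⟨n, fun m hnm => ?_⟩)
      exact hm (T n) (T m) (hsame n) (hsame m) (δ n) (fun z => ((h n m hnm).A z).le) y y' hy1
    have hA2 : ‖(T n).A x (S.e y - S.e y') - A x (S.e y - S.e y')‖ ≤ δ n * dist y y' := by
      rw [← sub_apply]
      refine (ContinuousLinearMap.le_opNorm _ _).trans ?_
      rw [S.e_isom]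
      have := hAb n x
      rw [dist_eq_norm] at this
      exact mul_le_mul_of_nonneg_right this dist_nonneg
    have hkey : (S.e (F y) - S.e (F y')) - A x (S.e y - S.e y') =
        ((S.e ((T n).f y) - S.e ((T n).f y')) - (T n).A x (S.e y - S.e y')) -
        ((S.e ((T n).f y) - S.e ((T n).f y')) - (S.e (F y) - S.e (F y'))) +
        ((T n).A x (S.e y - S.e y') - A x (S.e y - S.e y')) := by abel
    rw [hkey]
    refine (norm_add_le _ _).trans ?_
    refine (add_le_add (norm_sub_le _ _) le_rfl).trans ?_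
    have hdn : δ n * dist y y' ≤ η / 6 * dist y y' :=
      mul_le_mul_of_nonneg_right hn.le dist_nonneg
    have h6 : 0 ≤ η * dist y y' := mul_nonneg hη.le dist_nonneg
    linarith
  let T' : ESys d N K :=
    { f := { toFun := F, invFun := G, left_inv := hGF, right_inv := hFG,
             continuous_toFun := hFc, continuous_invFun := hGc }
      P := S.P
      A := A
      A' := A'
      contP := S.contP
      contA := hAc
      contA' := hA'c
      PP := S.PP
      Psa := S.Psa
      AP := fun x => by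
        refine tendsto_nhds_unique (hcomp _ _ _ _ (hA1 x) (tendsto_const_nhds (x := S.P x))) ?_
        refine (hA1 x).congr fun n => ?_
        have := (T n).AP x
        rw [hPn n] at this
        exact this.symm
      PA := fun x => by
        refine tendsto_nhds_unique (hcomp _ _ _ _ (hP1 x) (hA1 x)) ?_
        refine (hA1 x).congr fun n => ?_
        have := (T n).PA x
        rw [hPn n] at this
        exact this.symm
      A'P := fun x => by
        refine tendsto_nhds_unique (hcomp _ _ _ _ (hA'1 x) (hP1 x)) ?_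
        refine (hA'1 x).congr fun n => ?_
        have := (T n).A'P x
        rw [hPn n] at this
        exact this.symm
      PA' := fun x => by
        refine tendsto_nhds_unique (hcomp _ _ _ _ (tendsto_const_nhds (x := S.P x)) (hA'1 x)) ?_
        refine (hA'1 x).congr fun n => ?_
        have := (T n).PA' x
        rw [hPn n] at this
        exact this.symm
      A'A := fun x => by
        refine tendsto_nhds_unique (hcomp _ _ _ _ (hA'1 x) (hA1 x)) ?_
        refine tendsto_const_nhds.congr fun n => ?_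
        have := (T n).A'A x
        rw [hPn n] at this
        exact this.symm
      AA' := fun x => by
        refine tendsto_nhds_unique (hcomp _ _ _ _ (hA1 x) (hA'1 x)) ?_
        refine (hP1 x).congr fun n => ?_
        have := (T n).AA' x
        rw [hPn n] at this
        exact this.symm
      e := S.e
      e_isom := S.e_isom
      rankP := S.rankP
      flat := S.flat
      surj := S.surj
      diff := hdiff }
  refine ⟨T', fun n ε hε => ⟨⟨(hen n).symm, (hPn n).symm⟩, fun x => ?_, fun x => ?_, fun x => ?_,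
    fun x => ?_⟩⟩
  · exact (hFb n x).trans_lt (by linarith)
  · exact (hGb n x).trans_lt (by linarith)
  · have := hAb n x
    rw [dist_eq_norm] at this
    exact this.trans_lt (by linarith)
  · have := hA'b n x
    rw [dist_eq_norm] at this
    exact this.trans_lt (by linarith)

end ESys
end Pool.MP85
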