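import Pool.Agent.Lib.MP_85e637_an.F1
import Pool.Agent.Lib.MP_85e637_an.F4a

/-!
# F4b: Baire category argument
-/

open Filter Topology Set Metric Module

namespace Pool.MP85
variable {d N : ℕ} {K : Type} [MetricSpace K] [CompactSpace K]

namespace ESys

/-- F4b: Baire category argument -/
theorem baire (S : ESys d N K) (W : Set K) {ε : ℝ} (hε : 0 < ε) (E : ℕ → ESys d N K → Prop)
    (hopen : ∀ n S', S.Near S' ε → EqOn S'.f S.f W → E n S' → ∃ δ > 0, ∀ S'', S'.Near S'' δ →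
      EqOn S''.f S.f W → E n S'')
    (hdense : ∀ n S', S.Near S' ε → EqOn S'.f S.f W → ∀ δ > 0, ∃ S'', S'.Near S'' δ ∧
      EqOn S''.f S.f W ∧ E n S'') :
    ∃ S', S.Near S' ε ∧ EqOn S'.f S.f W ∧ ∀ n, E n S' := by
  classical
  -- the states of the construction
  let Q : Type := {p : ESys d N K × ℝ // 0 < p.2 ∧ EqOn p.1.f S.f W ∧
    ∃ ε', S.Near p.1 ε' ∧ ε' + p.2 ≤ ε}
  have step : ∀ (n : ℕ) (p : Q), ∃ q : Q, p.1.1.Near q.1.1 (p.1.2 / 4) ∧ q.1.2 ≤ p.1.2 / 2 ∧
      ∀ S'', q.1.1.Near S'' (2 * q.1.2) → EqOn S''.f S.f W → E n S'' := by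
    rintro n ⟨⟨T, δ⟩, hδ, hT, ε', hn, hle⟩
    simp only at hδ hT hn hle
    obtain ⟨T1, h1, h2, h3⟩ := hdense n T (hn.mono (by linarith)) hT (δ / 4) (by linarith)
    have hn1 := hn.trans h1
    obtain ⟨δ1, hδ1, h4⟩ := hopen n T1 (hn1.mono (by linarith)) h2 h3
    refine ⟨⟨⟨T1, min (δ / 2) (δ1 / 2)⟩, lt_min (by linarith) (by linarith), h2,
      ε' + δ / 4, hn1, ?_⟩, h1, min_le_left _ _, ?_⟩
    · have : min (δ / 2) (δ1 / 2) ≤ δ / 2 := min_le_left _ _
      simp only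
      linarith
    · intro S'' h5 h6
      refine h4 S'' (h5.mono ?_) h6
      have : min (δ / 2) (δ1 / 2) ≤ δ1 / 2 := min_le_right _ _
      simp only
      linarith
  choose nx hnx1 hnx2 hnx3 using step
  have hq0 : 0 < ε / 2 ∧ EqOn S.f S.f W ∧ ∃ ε', S.Near S ε' ∧ ε' + ε / 2 ≤ ε :=
    ⟨by linarith, fun _ _ => rfl, ε / 2, Near.refl S (by linarith), by linarith⟩
  let q : ℕ → Q := fun n => Nat.rec ⟨⟨S, ε / 2⟩, hq0⟩ (fun n p => nx n p) n
  have hqs : ∀ n, q (n + 1) = nx n (q n) := fun n => rfl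
  have hqz : q 0 = ⟨⟨S, ε / 2⟩, hq0⟩ := rfl
  set T : ℕ → ESys d N K := fun n => (q n).1.1 with hT
  set δ : ℕ → ℝ := fun n => (q n).1.2 with hδ
  have hδpos : ∀ n, 0 < δ n := fun n => (q n).2.1
  have hTW : ∀ n, EqOn (T n).f S.f W := fun n => (q n).2.2.1
  have hstep : ∀ n, (T n).Near (T (n + 1)) (δ n / 4) := fun n => by
    simp only [hT, hδ, hqs]; exact hnx1 n (q n)
  have hhalf : ∀ n, δ (n + 1) ≤ δ n / 2 := fun n => by
    simp only [hδ, hqs]; exact hnx2 n (q n)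
  have hE : ∀ n S'', (T (n + 1)).Near S'' (2 * δ (n + 1)) → EqOn S''.f S.f W → E n S'' :=
    fun n => by
      simp only [hT, hδ, hqs]; exact hnx3 n (q n)
  have hT0 : T 0 = S := rfl
  have hδ0 : δ 0 = ε / 2 := rfl
  have hgeo : ∀ n, δ n ≤ ε / 2 * (1 / 2) ^ n := by
    intro n
    induction n with
    | zero => rw [hδ0]; simp
    | succ n ih =>
      refine (hhalf n).trans ?_
      rw [pow_succ]
      linarith
  have hlim : Tendsto δ atTop (𝓝 0) := by
    have h1 : Tendsto (fun n : ℕ => ε / 2 * (1 / 2 : ℝ) ^ n) atTop (𝓝 (ε / 2 * 0)) :=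
      (tendsto_pow_atTop_nhds_zero_of_lt_one (by norm_num) (by norm_num)).const_mul _
    rw [mul_zero] at h1
    exact squeeze_zero (fun n => (hδpos n).le) hgeo h1
  have hnm : ∀ n k, (T n).Near (T (n + k)) (δ n - δ (n + k) / 2) := by
    intro n k
    induction k with
    | zero =>
      refine Near.refl _ ?_
      have := hδpos n
      simp only [add_zero]
      linarith
    | succ k ih =>
      refine (ih.trans (hstep (n + k))).mono ?_
      have := hhalf (n + k)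
      have e : n + (k + 1) = n + k + 1 := rfl
      rw [e]
      linarith
  obtain ⟨T', hT'⟩ := limit S T δ (by rw [hT0]; exact Same.refl S) hlim (by
    intro n m hnm'
    obtain ⟨k, rfl⟩ := Nat.exists_eq_add_of_le hnm'
    refine (hnm n k).mono ?_
    have := hδpos (n + k)
    linarith)
  have hT'2 : ∀ n, (T n).Near T' (2 * δ n) := fun n =>
    (hT' n (δ n) (hδpos n)).mono (by linarith)
  have hEq : EqOn T'.f S.f W := by
    intro x hx
    have h1 : ∀ n, dist (S.f x) (T'.f x) ≤ 2 * δ n := fun n => by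
      have := (hT'2 n).f x
      rw [hTW n hx] at this
      exact this.le
    have h2 : Tendsto (fun n => 2 * δ n) atTop (𝓝 (2 * 0)) := hlim.const_mul 2
    rw [mul_zero] at h2
    have h3 : dist (S.f x) (T'.f x) ≤ 0 := ge_of_tendsto' h2 h1
    exact (dist_le_zero.1 h3).symm
  refine ⟨T', ?_, hEq, fun n => hE n T' (hT'2 (n + 1)) hEq⟩
  have := hT'2 0
  rw [hT0, hδ0] at this
  exact this.mono (by linarith)

end ESys
end Pool.MP85
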