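import Pool.Agent.Lib.MP_85e637_an.S2Defs
import Pool.Agent.Lib.MP_85e637_an.A01

/-!
# Stage 2, F7a, F7b: `PF.wl`, `PF.EA_open`, `PF.EB_open`, `PF.leave`
-/

open Filter Topology Set Metric Module

namespace Pool.MP85
variable {d N : ℕ} {K : Type} [MetricSpace K] [CompactSpace K]

/-! ### generalities on two homeomorphisms -/

section Gen
variable {Z : Type} [MetricSpace Z]

theorem F7a_fw_eq {G G' : Z ≃ₜ Z} {W : Set Z} (he : EqOn G' G W) {y : Z}
    (hy : ∀ n, fw G n y ∈ W) (n : ℕ) : fw G' n y = fw G n y := by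
  induction n with
  | zero => rfl
  | succ n ih => rw [fw_succ', ih, he (hy n), ← fw_succ']

theorem F7a_bk_eq {G G' : Z ≃ₜ Z} {W : Set Z} (he : EqOn G' G W) {y : Z}
    (hy : ∀ n, bk G n y ∈ W) (n : ℕ) : bk G' n y = bk G n y := by
  induction n with
  | zero => rfl
  | succ n ih =>
    rw [bk_succ', ih, Homeomorph.symm_apply_eq, he (hy (n + 1)), bk_succ',
      Homeomorph.apply_symm_apply]

theorem F7a_closed_wsl {G : Z ≃ₜ Z} {x : Z} {ε : ℝ} : IsClosed (WSl G ε x) := by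
  have h : WSl G ε x = ⋂ n, {y : Z | dist (fw G n x) (fw G n y) ≤ ε} := by
    ext q
    simp only [mem_iInter, Set.mem_ofPred_eq]
    exact Iff.rfl
  rw [h]
  refine isClosed_iInter fun n => isClosed_le ?_ continuous_const
  exact continuous_const.dist (continuous_fw n)

/-- iterates of close maps are close -/
theorem F7a_fw_near [CompactSpace Z] (G : Z ≃ₜ Z) (k : ℕ) : ∀ ε > 0, ∃ δ > 0, ∀ G' : Z ≃ₜ Z,
    (∀ x, dist (G x) (G' x) < δ) → ∀ x, dist (fw G k x) (fw G' k x) < ε := by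
  induction k with
  | zero =>
    intro ε hε
    exact ⟨1, one_pos, fun G' _ x => by rw [fw_zero, fw_zero, dist_self]; exact hε⟩
  | succ k ih =>
    intro ε hε
    have huc : UniformContinuous (G : Z → Z) :=
      CompactSpace.uniformContinuous_of_continuous G.continuous
    obtain ⟨η, hη, h1⟩ := Metric.uniformContinuous_iff.1 huc (ε / 2) (half_pos hε)
    obtain ⟨δ, hδ, h2⟩ := ih η hη
    refine ⟨min δ (ε / 2), lt_min hδ (half_pos hε), fun G' hG' x => ?_⟩
    have h3 := h2 G' (fun x => (hG' x).trans_le (min_le_left _ _)) x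
    have h4 := h1 h3
    have h5 := (hG' (fw G' k x)).trans_le (min_le_right _ _)
    rw [fw_succ', fw_succ']
    calc dist (G (fw G k x)) (G' (fw G' k x))
        ≤ dist (G (fw G k x)) (G (fw G' k x)) + dist (G (fw G' k x)) (G' (fw G' k x)) :=
          dist_triangle _ _ _
      _ < ε / 2 + ε / 2 := add_lt_add h4 h5
      _ = ε := add_halves ε

theorem F7a_bk_near [CompactSpace Z] (G : Z ≃ₜ Z) (k : ℕ) : ∀ ε > 0, ∃ δ > 0, ∀ G' : Z ≃ₜ Z,
    (∀ x, dist (G.symm x) (G'.symm x) < δ) → ∀ x, dist (bk G k x) (bk G' k x) < ε := by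
  intro ε hε
  obtain ⟨δ, hδ, h⟩ := F7a_fw_near G.symm k ε hε
  exact ⟨δ, hδ, fun G' hG' x => h G'.symm hG' x⟩

end Gen

section E
variable {S : ESys d N K} {F : Set K} {ρ : ℝ}

theorem F7a_fw_mem (h : PF S F ρ) {p : K} (hp : p ∈ F) (n : ℕ) : fw S.f n p ∈ F := by
  induction n with
  | zero => exact hp
  | succ n ih => rw [fw_succ']; exact (h.inv _).2 ih

theorem F7a_bk_mem (h : PF S F ρ) {p : K} (hp : p ∈ F) (n : ℕ) : bk S.f n p ∈ F := by
  induction n with
  | zero => exact hp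
  | succ n ih =>
    rw [bk_succ']
    exact (h.inv _).1 (by rw [Homeomorph.apply_symm_apply]; exact ih)

theorem F7a_sub (h : PF S F ρ) : F ⊆ Wn F ρ := fun p hp =>
  ⟨p, hp, by rw [dist_self]; exact h.pos.le⟩

/-- local manifolds of the points of `F` do not change -/
theorem PF.wl (h : PF S F ρ) {S' : ESys d N K} (he : EqOn S'.f S.f (Wn F ρ)) {p : K} (hp : p ∈ F) :
    WSl S'.f ρ p = WSl S.f ρ p ∧ WUl S'.f ρ p = WUl S.f ρ p := by
  have f1 : ∀ n, fw S'.f n p = fw S.f n p :=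
    F7a_fw_eq he fun n => F7a_sub h (F7a_fw_mem h hp n)
  have b1 : ∀ n, bk S'.f n p = bk S.f n p :=
    F7a_bk_eq he fun n => F7a_sub h (F7a_bk_mem h hp n)
  constructor
  · ext y
    constructor
    · intro hy n
      have h2 : ∀ n, fw S'.f n y ∈ Wn F ρ := fun n =>
        ⟨fw S.f n p, F7a_fw_mem h hp n, by rw [← f1]; exact hy n⟩
      have h3 := F7a_fw_eq (G := S'.f) (G' := S.f) he.symm h2 n
      rw [h3, ← f1]
      exact hy n
    · intro hy n
      have h2 : ∀ n, fw S.f n y ∈ Wn F ρ := fun n =>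
        ⟨fw S.f n p, F7a_fw_mem h hp n, hy n⟩
      have h3 := F7a_fw_eq (G := S.f) (G' := S'.f) he h2 n
      rw [h3, f1]
      exact hy n
  · ext y
    constructor
    · intro hy n
      have h2 : ∀ n, bk S'.f n y ∈ Wn F ρ := fun n =>
        ⟨bk S.f n p, F7a_bk_mem h hp n, by rw [← b1]; exact hy n⟩
      have h3 := F7a_bk_eq (G := S'.f) (G' := S.f) he.symm h2 n
      rw [h3, ← b1]
      exact hy n
    · intro hy n
      have h2 : ∀ n, bk S.f n y ∈ Wn F ρ := fun n =>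
        ⟨bk S.f n p, F7a_bk_mem h hp n, hy n⟩
      have h3 := F7a_bk_eq (G := S.f) (G' := S'.f) he h2 n
      rw [h3, b1]
      exact hy n

/-- F7a -/
theorem PF.EA_open (h : PF S F ρ) (k : ℕ) {S' : ESys d N K} (hE : EA S F ρ k S') :
    ∃ δ > 0, ∀ S'', S'.Near S'' δ → EA S F ρ k S'' := by
  have h1 : ∀ p ∈ F, ∀ q ∈ F, ∀ᶠ δ in 𝓝[>] (0 : ℝ), finrank ℝ (S.Es p) = 1 →
      2 ≤ finrank ℝ (S.Es q) → ∀ S'', S'.Near S'' δ → ∀ u ∈ WUl S.f ρ q,
        fw S''.f k u ∉ WSl S.f ρ p := by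
    intro p hp q hq
    by_cases c1 : finrank ℝ (S.Es p) = 1
    swap
    · exact Eventually.of_forall fun δ h' => absurd h' c1
    by_cases c2 : 2 ≤ finrank ℝ (S.Es q)
    swap
    · exact Eventually.of_forall fun δ _ h' => absurd h' c2
    have hdis : Disjoint (fw S'.f k '' WUl S.f ρ q) (WSl S.f ρ p) := by
      rw [Set.disjoint_left]
      rintro _ ⟨u, hu, rfl⟩
      exact hE p hp q hq c1 c2 u hu
    have hcpt : IsCompact (fw S'.f k '' WUl S.f ρ q) :=
      (isClosed_wul'.isCompact).image (continuous_fw k)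
    obtain ⟨η, hη, hd⟩ := hdis.exists_thickenings hcpt F7a_closed_wsl
    obtain ⟨δ, hδ, hn⟩ := F7a_fw_near S'.f k η hη
    have h2 : ∀ᶠ δ' in 𝓝[>] (0 : ℝ), δ' < δ :=
      eventually_nhdsWithin_of_eventually_nhds (gt_mem_nhds hδ)
    filter_upwards [h2] with δ' hδ' _ _ S'' hS'' u hu hmem
    have h3 := hn S''.f (fun x => (hS''.f x).trans hδ') u
    refine Set.disjoint_left.1 hd ?_ (self_subset_thickening hη _ hmem)
    rw [mem_thickening_iff]
    exact ⟨fw S'.f k u, mem_image_of_mem _ hu, by rw [dist_comm]; exact h3⟩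
  have h2 : ∀ᶠ δ in 𝓝[>] (0 : ℝ), ∀ p ∈ F, ∀ q ∈ F, finrank ℝ (S.Es p) = 1 →
      2 ≤ finrank ℝ (S.Es q) → ∀ S'', S'.Near S'' δ → ∀ u ∈ WUl S.f ρ q,
        fw S''.f k u ∉ WSl S.f ρ p := by
    rw [Filter.eventually_all_finite h.fin]
    intro p hp
    rw [Filter.eventually_all_finite h.fin]
    intro q hq
    exact h1 p hp q hq
  obtain ⟨δ, hδ, hpos⟩ := (h2.and self_mem_nhdsWithin).exists
  exact ⟨δ, hpos, fun S'' hS'' p hp q hq c1 c2 u hu => hδ p hp q hq c1 c2 S'' hS'' u hu⟩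

theorem PF.EB_open (h : PF S F ρ) (p q : K) (I : Set K) (k : ℕ) {S' : ESys d N K}
    (hE : EB S F ρ p q I k S') : ∃ δ > 0, ∀ S'', S'.Near S'' δ → EB S F ρ p q I k S'' := by
  by_cases H : p ∈ F ∧ q ∈ F ∧ finrank ℝ (S.Es p) = 1 ∧ 1 ≤ finrank ℝ (S.Es q) ∧ IsOpen I ∧
    ∃ y ∈ I ∩ WSl S.f ρ p, y ≠ p
  · obtain ⟨a1, a2, a3, a4, a5, a6⟩ := H
    obtain ⟨y, hy, hyn⟩ := hE a1 a2 a3 a4 a5 a6
    have hopen : IsOpen (WUl S.f ρ q)ᶜ := isClosed_wul'.isOpen_compl
    obtain ⟨ε, hε, hb⟩ := Metric.isOpen_iff.1 hopen _ hyn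
    obtain ⟨δ, hδ, hn⟩ := F7a_bk_near S'.f k ε hε
    refine ⟨δ, hδ, fun S'' hS'' _ _ _ _ _ _ => ⟨y, hy, hb ?_⟩⟩
    rw [Metric.mem_ball, dist_comm]
    exact hn S''.f (fun x => hS''.f' x) y
  · refine ⟨1, one_pos, fun S'' _ b1 b2 b3 b4 b5 b6 => absurd ⟨b1, b2, b3, b4, b5, b6⟩ H⟩

/-- F7b: an orbit from `WUl q` to `WSl p` leaves `Wn F ρ` at some time; its points are distinct -/
theorem PF.leave (h : PF S F ρ) {S' : ESys d N K} (hs : S.Same S')
    (he : EqOn S'.f S.f (Wn F ρ)) {p q u : K} (hp : p ∈ F) (hq : q ∈ F) {k : ℕ}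
    (hu : u ∈ WUl S.f ρ q) (hk : fw S'.f k u ∈ WSl S.f ρ p) (hkp : fw S'.f k u ≠ p) :
    (∃ j ≤ k, fw S'.f j u ∉ Wn F ρ) ∧ ∀ i ≤ k, ∀ j ≤ k, fw S'.f i u = fw S'.f j u → i = j := by
  have h1 : ∃ j ≤ k, fw S'.f j u ∉ Wn F ρ := by
    by_contra hcon
    push Not at hcon
    -- the orbit follows the orbit of `q`
    have h2 : ∀ j ≤ k, dist (fw S.f j q) (fw S'.f j u) ≤ ρ ∧ fw S.f j u = fw S'.f j u := by
      intro j
      induction j with
      | zero => exact fun _ => ⟨hu 0, rfl⟩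
      | succ j ih =>
        intro hj
        obtain ⟨h3, h4⟩ := ih (by omega)
        have h5 : S'.f (fw S'.f j u) = S.f (fw S'.f j u) := he (hcon j (by omega))
        obtain ⟨p', hp', hd⟩ := hcon (j + 1) hj
        have h6 : p' = S.f (fw S.f j q) := by
          refine h.sep _ (F7a_fw_mem h hq j) p' hp' (fw S'.f j u) h3 ?_
          rw [← h5, ← fw_succ']
          exact hd
        constructor
        · rw [fw_succ' S.f, ← h6]
          exact hd
        · rw [fw_succ', fw_succ', h4, h5]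
    have h3 : fw S.f k q = p :=
      h.sep0 _ (F7a_fw_mem h hq k) p hp (fw S'.f k u) (h2 k le_rfl).1 (hk 0)
    refine hkp (h.exp p hp _ hk fun n => ?_)
    rw [← (h2 k le_rfl).2, ← h3]
    by_cases hn : n ≤ k
    · obtain ⟨m, rfl⟩ := Nat.exists_eq_add_of_le hn
      rw [fw_add, bk_fw, fw_add, bk_fw, (h2 m (by omega)).2]
      exact (h2 m (by omega)).1
    · obtain ⟨m, rfl⟩ := Nat.exists_eq_add_of_le (not_le.1 hn).le
      rw [add_comm k m, bk_add, bk_fw, bk_add, bk_fw]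
      exact hu m
  refine ⟨h1, ?_⟩
  have key : ∀ i j, i < j → fw S'.f i u ≠ fw S'.f j u := by
    intro i j hij heq
    obtain ⟨m, rfl⟩ := Nat.exists_eq_add_of_le hij.le
    have hm : 0 < m := by omega
    -- `u` is periodic
    have hper : fw S'.f m u = u := by
      have h3 : bk S'.f i (fw S'.f i u) = bk S'.f i (fw S'.f (i + m) u) := by rw [heq]
      rw [bk_fw, fw_add, bk_fw] at h3
      exact h3.symm
    have hper2 : ∀ l, fw S'.f (l * m) u = u := by
      intro l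
      induction l with
      | zero => rw [zero_mul, fw_zero]
      | succ l ih => rw [Nat.succ_mul, fw_add, hper, ih]
    obtain ⟨l, hl, hln⟩ := h1
    apply hln
    have h4 : fw S'.f l u = bk S'.f (l * m - l) u := by
      have h5 : l ≤ l * m := Nat.le_mul_of_pos_right l hm
      conv_rhs => rw [← hper2 l]
      have h6 : l * m = (l * m - l) + l := by omega
      conv_rhs => arg 3; rw [h6]
      rw [fw_add, bk_fw]
    rw [h4]
    have h7 : u ∈ WUl S'.f ρ q := by rw [(h.wl he hq).2]; exact hu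
    refine ⟨bk S.f (l * m - l) q, F7a_bk_mem h hq _, ?_⟩
    rw [← F7a_bk_eq he (fun n => F7a_sub h (F7a_bk_mem h hq n))]
    exact h7 _
  intro i _ j _ heq
  rcases lt_trichotomy i j with h2 | h2 | h2
  · exact absurd heq (key i j h2)
  · exact h2
  · exact absurd heq.symm (key j i h2)

end E

end Pool.MP85
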