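import Pool.Agent.Lib.MP_85e637_an.S2Defs
import Pool.Agent.Lib.MP_85e637_an.C09

/-!
# F5: small translations avoiding a null set; iterates are Lipschitz
-/

open Filter Topology Set Metric Module

namespace Pool.MP85
variable {d N : ℕ} {K : Type} [MetricSpace K] [CompactSpace K]

theorem exists_small_not_mem {T : Submodule ℝ (EE N)} {k1 k2 : ℕ} (hT : finrank ℝ T = d)
    (h : k1 + k2 < d) {C1 : Set (EE k1)} {C2 : Set (EE k2)} {φ1 : EE k1 → EE N}
    {φ2 : EE k2 → EE N} {c1 c2 : NNReal} (h1 : LipschitzOnWith c1 φ1 C1)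
    (h2 : LipschitzOnWith c2 φ2 C2) {δ : ℝ} (hδ : 0 < δ) :
    ∃ v ∈ T, ‖v‖ < δ ∧ ∀ a ∈ C1, ∀ b ∈ C2, v ≠ φ1 a - φ2 b := by
  by_contra hcon
  push Not at hcon
  have hg : LipschitzOnWith (c1 * 1 + c2 * 1) (fun p : EE k1 × EE k2 => φ1 p.1 - φ2 p.2)
      (C1 ×ˢ C2) := by
    have a1 : LipschitzOnWith (c1 * 1) (φ1 ∘ Prod.fst) (C1 ×ˢ C2) :=
      h1.comp LipschitzWith.prod_fst.lipschitzOnWith (fun p hp => hp.1)
    have a2 : LipschitzOnWith (c2 * 1) (φ2 ∘ Prod.snd) (C1 ×ˢ C2) :=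
      h2.comp LipschitzWith.prod_snd.lipschitzOnWith (fun p hp => hp.2)
    exact a1.sub a2
  have hdim : dimH ((fun p : EE k1 × EE k2 => φ1 p.1 - φ2 p.2) '' (C1 ×ˢ C2))
      ≤ ((k1 + k2 : ℕ) : ENNReal) := by
    refine hg.dimH_image_le.trans ((dimH_mono (subset_univ _)).trans ?_)
    rw [Real.dimH_univ_eq_finrank]
    simp
  have hball : dimH ((Subtype.val : T → EE N) '' (ball (0 : T) δ)) = ((d : ℕ) : ENNReal) := by
    rw [isometry_subtype_coe.dimH_image, Real.dimH_of_nonempty_interior, hT]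
    rw [isOpen_ball.interior_eq]
    exact ⟨0, mem_ball_self hδ⟩
  have hsub : (Subtype.val : T → EE N) '' (ball (0 : T) δ) ⊆
      (fun p : EE k1 × EE k2 => φ1 p.1 - φ2 p.2) '' (C1 ×ˢ C2) := by
    rintro _ ⟨v, hv, rfl⟩
    rw [mem_ball, dist_zero_right] at hv
    obtain ⟨a, ha, b, hb, hab⟩ := hcon v v.2 hv
    exact ⟨(a, b), ⟨ha, hb⟩, hab.symm⟩
  have hle := (dimH_mono hsub).trans hdim
  rw [hball] at hle
  have : d ≤ k1 + k2 := by exact_mod_cast hle
  omega

/-- a system is Lipschitz -/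
lemma F5_lip_one (S : ESys d N K) : ∃ c : NNReal, LipschitzWith c S.f := by
  obtain ⟨ρ, hρ, hd⟩ := S.diff 1 one_pos
  obtain ⟨M, hM⟩ := (isCompact_range S.contA.norm).bddAbove
  have hM' : ∀ x, ‖S.A x‖ ≤ M := fun x => hM (mem_range_self x)
  obtain ⟨D, hD⟩ := Metric.isBounded_iff.1 (isCompact_univ (X := K)).isBounded
  have hD' : ∀ x y : K, dist x y ≤ D := fun x y => hD (mem_univ x) (mem_univ y)
  refine ⟨Real.toNNReal (max (M + 1) (D / ρ)), LipschitzWith.of_dist_le_mul fun y y' => ?_⟩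
  refine le_trans ?_ (mul_le_mul_of_nonneg_right (Real.le_coe_toNNReal _) dist_nonneg)
  rcases lt_or_ge (dist y y') ρ with h | h
  · have h1 := hd y y y' (by rwa [dist_self]) h
    have h2 : ‖S.A y (S.e y - S.e y')‖ ≤ M * dist y y' := by
      refine ((S.A y).le_opNorm _).trans ?_
      rw [S.e_isom]
      exact mul_le_mul_of_nonneg_right (hM' y) dist_nonneg
    have h3 : dist (S.f y) (S.f y') ≤ (M + 1) * dist y y' := by
      rw [← S.e_isom]
      have h4 := norm_add_le ((S.e (S.f y) - S.e (S.f y')) - S.A y (S.e y - S.e y'))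
        (S.A y (S.e y - S.e y'))
      rw [sub_add_cancel] at h4
      linarith
    exact h3.trans (mul_le_mul_of_nonneg_right (le_max_left _ _) dist_nonneg)
  · have h5 : D / ρ * dist y y' ≤ max (M + 1) (D / ρ) * dist y y' :=
      mul_le_mul_of_nonneg_right (le_max_right _ _) dist_nonneg
    refine le_trans ?_ h5
    have h6 : 0 ≤ D := dist_nonneg.trans (hD' y y')
    calc dist (S.f y) (S.f y') ≤ D := hD' _ _
      _ = D / ρ * ρ := by field_simp
      _ ≤ D / ρ * dist y y' := mul_le_mul_of_nonneg_left h (by positivity)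

/-- every iterate of a system is Lipschitz -/
theorem ESys.lip (S : ESys d N K) (k : ℕ) : ∃ c : NNReal, LipschitzWith c (fw S.f k) ∧
    LipschitzWith c (bk S.f k) := by
  obtain ⟨c, hc⟩ := F5_lip_one S
  obtain ⟨c', hc'⟩ := F5_lip_one S.inv
  have hc'' : LipschitzWith c' S.f.symm := hc'
  refine ⟨max c c' ^ k, ?_, ?_⟩
  · exact (hc.weaken (le_max_left _ _)).iterate k
  · exact (hc''.weaken (le_max_right _ _)).iterate k

end Pool.MP85
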