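import Pool.Agent.Lib.MP_85e637_an.S2Defs
import Pool.Agent.Lib.MP_85e637_an.A01
import Pool.Agent.Lib.MP_85e637_an.C01
import Pool.Agent.Lib.MP_85e637_an.C10
import Pool.Agent.Lib.MP_85e637_an.F1
import Pool.Agent.Lib.MP_85e637_an.F2a
import Pool.Agent.Lib.MP_85e637_an.F5
import Pool.Agent.Lib.MP_85e637_an.F7a

/-!
# Stage 2, F7c: local density of `EA` near one connection
-/

open Filter Topology Set Metric Module

namespace Pool.MP85
variable {d N : ℕ} {K : Type} [MetricSpace K] [CompactSpace K]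


/-- iterates of close systems are close -/
theorem F7c_iter (S' : ESys d N K) (k : ℕ) : ∀ ε > 0, ∃ δ > 0, ∀ S1 : ESys d N K,
    S'.Near S1 δ → ∀ i ≤ k, ∀ y, dist (bk S'.f i y) (bk S1.f i y) < ε := by
  induction k with
  | zero =>
    intro ε hε
    refine ⟨1, one_pos, fun S1 _ i hi y => ?_⟩
    obtain rfl : i = 0 := by omega
    rw [bk_zero, bk_zero, dist_self]
    exact hε
  | succ k ih =>
    intro ε hε
    have huc : UniformContinuous S'.f.symm :=
      CompactSpace.uniformContinuous_of_continuous S'.f.symm.continuous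
    obtain ⟨δ1, hδ1, h1⟩ := Metric.uniformContinuous_iff.1 huc (ε / 2) (by positivity)
    obtain ⟨δ2, hδ2, h2⟩ := ih (min ε δ1) (lt_min hε hδ1)
    refine ⟨min δ2 (ε / 2), lt_min hδ2 (by positivity), fun S1 hN i hi y => ?_⟩
    have hN2 : S'.Near S1 δ2 := ⟨hN.same, fun x => (hN.f x).trans_le (min_le_left _ _),
      fun x => (hN.f' x).trans_le (min_le_left _ _), fun x => (hN.A x).trans_le (min_le_left _ _),
      fun x => (hN.A' x).trans_le (min_le_left _ _)⟩
    rcases Nat.lt_or_ge i (k + 1) with hik | hik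
    · exact (h2 S1 hN2 i (by omega) y).trans_le (min_le_left _ _)
    · obtain rfl : i = k + 1 := by omega
      rw [bk_succ', bk_succ']
      have h3 := h2 S1 hN2 k le_rfl y
      have h4 := h1 (h3.trans_le (min_le_right _ _))
      have h5 := (hN.f' (bk S1.f k y)).trans_le (min_le_right δ2 (ε / 2))
      calc dist (S'.f.symm (bk S'.f k y)) (S1.f.symm (bk S1.f k y))
          ≤ dist (S'.f.symm (bk S'.f k y)) (S'.f.symm (bk S1.f k y)) +
            dist (S'.f.symm (bk S1.f k y)) (S1.f.symm (bk S1.f k y)) := dist_triangle _ _ _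
        _ < ε / 2 + ε / 2 := add_lt_add h4 h5
        _ = ε := by ring

/-- a Lipschitz parametrisation of the image of a set under a Lipschitz map, in coordinates -/
theorem F7c_param (S : ESys d N K) (x : K) {W : Set K} {n : ℕ} {C : Set (EE n)}
    {φ : EE n → EE N} {c : NNReal} (hφ : LipschitzOnWith c φ C) (hW : S.e '' W ⊆ φ '' C)
    {g : K → K} {L : NNReal} (hg : LipschitzWith L g) :
    ∃ (C' : Set (EE n)) (φ' : EE n → EE N) (c' : NNReal), LipschitzOnWith c' φ' C' ∧
      ∀ y ∈ W, ∃ a ∈ C', φ' a = S.χ x (g y) := by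
  classical
  have hinj : ∀ y y' : K, S.e y = S.e y' → y = y' := by
    intro y y' h
    have := S.e_isom y y'
    rw [h, sub_self, norm_zero] at this
    exact dist_eq_zero.1 this.symm
  rcases W.eq_empty_or_nonempty with hW0 | ⟨y0, hy0⟩
  · refine ⟨∅, fun _ => 0, 0, ?_, ?_⟩
    · intro a ha
      exact absurd ha (Set.notMem_empty a)
    · intro y hy
      rw [hW0] at hy
      exact absurd hy (Set.notMem_empty y)
  · set inv : EE N → K := fun w => if h : ∃ y ∈ W, S.e y = w then h.choose else y0 with hinv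
    have hinv' : ∀ y ∈ W, inv (S.e y) = y := by
      intro y hy
      have h : ∃ y' ∈ W, S.e y' = S.e y := ⟨y, hy, rfl⟩
      have h1 : inv (S.e y) = h.choose := by
        simp only [hinv]
        rw [dif_pos h]
      rw [h1]
      exact hinj _ _ h.choose_spec.2
    refine ⟨{a | a ∈ C ∧ φ a ∈ S.e '' W}, fun a => S.χ x (g (inv (φ a))), L * c, ?_, ?_⟩
    · rw [lipschitzOnWith_iff_dist_le_mul]
      rintro a ⟨ha, y, hy, hya⟩ b ⟨hb, y', hy', hyb⟩
      have h1 := hφ.dist_le_mul a ha b hb
      rw [← hya, ← hyb, hinv' y hy, hinv' y' hy']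
      rw [← hya, ← hyb] at h1
      have h2 : dist (S.χ x (g y)) (S.χ x (g y')) ≤ dist (g y) (g y') := by
        unfold ESys.χ
        rw [dist_eq_norm, ← map_sub, ← S.e_isom]
        have : S.e (g y) - S.e x - (S.e (g y') - S.e x) = S.e (g y) - S.e (g y') := by abel
        rw [this]
        exact S.toCoc.norm_P_le x _
      have h3 : dist (S.e y) (S.e y') = dist y y' := by rw [dist_eq_norm, S.e_isom]
      rw [h3] at h1
      calc dist (S.χ x (g y)) (S.χ x (g y')) ≤ dist (g y) (g y') := h2
        _ ≤ L * dist y y' := hg.dist_le_mul y y'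
        _ ≤ L * (c * dist a b) := mul_le_mul_of_nonneg_left h1 L.coe_nonneg
        _ = ((L * c : NNReal) : ℝ) * dist a b := by push_cast; ring
    · intro y hy
      obtain ⟨a, ha, hae⟩ := hW ⟨y, hy, rfl⟩
      refine ⟨a, ⟨ha, ⟨y, hy, hae.symm⟩⟩, ?_⟩
      show S.χ x (g (inv (φ a))) = S.χ x (g y)
      rw [hae, hinv' y hy]

/-- F7c: local density near one connection. `O` is a neighbourhood of the end point. -/
theorem PF.EA_local {S : ESys d N K} {F : Set K} {ρ : ℝ} (h : PF S F ρ) {S' : ESys d N K}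
    (hs : S.Same S')
    (he : EqOn S'.f S.f (Wn F ρ)) {p q u : K} (hp : p ∈ F) (hq : q ∈ F)
    (hd : finrank ℝ (S.Es p) + finrank ℝ (S.Eu q) < d) {k : ℕ}
    (hu : u ∈ WUl S.f ρ q) (hk : fw S'.f k u ∈ WSl S.f ρ p) (hkp : fw S'.f k u ≠ p) :
    ∃ O ∈ 𝓝 (fw S'.f k u), ∃ δ0 > 0, ∀ S1, S'.Near S1 δ0 → EqOn S1.f S.f (Wn F ρ) →
      ∀ δ > 0, ∃ S2, S1.Near S2 δ ∧ EqOn S2.f S.f (Wn F ρ) ∧
        ∀ y ∈ O ∩ WSl S.f ρ p, bk S2.f k y ∉ WUl S.f ρ q := by
  obtain ⟨⟨j, hjk, hxW⟩, hdist⟩ := h.leave hs he hp hq hu hk hkp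
  set x : K := fw S'.f j u with hx
  have hu0 : u ∈ Wn F ρ := ⟨q, hq, hu 0⟩
  have hk0 : fw S'.f k u ∈ Wn F ρ := ⟨p, hp, hk 0⟩
  have hjk' : j < k := by
    rcases Nat.lt_or_ge j k with h1 | h1
    · exact h1
    · obtain rfl : j = k := by omega
      exact absurd hk0 hxW
  obtain ⟨m, hm⟩ : ∃ m, k = j + m := ⟨k - j, by omega⟩
  have hm0 : 0 < m := by omega
  -- the neighbourhood of `Wn`
  have hWcl : IsClosed (Wn F ρ) := by
    have : Wn F ρ = ⋃ p ∈ F, closedBall p ρ := by
      ext y
      simp only [Wn, mem_ofPred_eq, mem_iUnion, mem_closedBall, exists_prop, dist_comm y]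
    rw [this]
    exact h.fin.isClosed_biUnion fun p _ => isClosed_closedBall
  obtain ⟨r1, hr1, hr1'⟩ := Metric.isOpen_iff.1 hWcl.isOpen_compl x hxW
  -- chart
  obtain ⟨ρc, hρc, hch1, hch2⟩ := S'.chart (1 / 2) (by norm_num) (by norm_num)
  -- push
  obtain ⟨ρp, hρp, hpush⟩ := S'.push x
  -- backward iterates of points near `x`
  have hback : ∃ r2 > 0, ∀ y, dist x y ≤ r2 → ∀ i, 1 ≤ i → i ≤ j → 3 * r2 < dist x (bk S'.f i y) := by
    have hone : ∀ i, 1 ≤ i → i ≤ j → ∃ r2 > 0, ∀ y, dist x y ≤ r2 → 3 * r2 < dist x (bk S'.f i y) := by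
      intro i hi hij
      have hxi : bk S'.f i x = fw S'.f (j - i) u := by
        rw [hx]
        have : j = i + (j - i) := by omega
        conv_lhs => rw [this, fw_add]
        rw [bk_fw]
      have hne : x ≠ bk S'.f i x := by
        rw [hxi]
        intro hcon
        have := hdist j hjk (j - i) (by omega) hcon
        omega
      have hpos : 0 < dist x (bk S'.f i x) := dist_pos.2 hne
      have hcont : Continuous fun y => dist x (bk S'.f i y) :=
        continuous_const.dist (continuous_bk i)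
      have hev : ∀ᶠ y in 𝓝 x, dist x (bk S'.f i x) / 2 < dist x (bk S'.f i y) :=
        hcont.continuousAt.eventually (lt_mem_nhds (by linarith))
      obtain ⟨r, hr, hr'⟩ := Metric.eventually_nhds_iff.1 hev
      refine ⟨min (r / 2) (dist x (bk S'.f i x) / 6), lt_min (by positivity) (by positivity), ?_⟩
      intro y hy
      have h1 : dist y x < r := by
        rw [dist_comm]
        have := hy.trans (min_le_left _ _)
        linarith
      have h2 := hr' h1
      have h3 := min_le_right (r / 2) (dist x (bk S'.f i x) / 6)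
      linarith
    choose! g hg using hone
    have hfin : ∃ r2 > 0, ∀ i ∈ Finset.Icc 1 j, r2 ≤ g i := by
      rcases (Finset.Icc 1 j).eq_empty_or_nonempty with h0 | h0
      · exact ⟨1, one_pos, fun i hi => by rw [h0] at hi; exact absurd hi (Finset.notMem_empty i)⟩
      · obtain ⟨i0, hi0, hmin⟩ := Finset.exists_min_image _ g h0
        have hi0' := Finset.mem_Icc.1 hi0
        exact ⟨g i0, (hg i0 hi0'.1 hi0'.2).1, hmin⟩
    obtain ⟨r2, hr2, hr2'⟩ := hfin
    refine ⟨r2, hr2, fun y hy i hi hij => ?_⟩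
    have h1 := hr2' i (Finset.mem_Icc.2 ⟨hi, hij⟩)
    have h2 := (hg i hi hij).2 y (hy.trans h1)
    linarith
  obtain ⟨r2, hr2, hback⟩ := hback
  -- the points `x_i`, `j < i ≤ k`
  have hfwd : ∃ r3 > 0, ∀ i, i < m → 3 * r3 < dist x (bk S'.f i (fw S'.f k u)) := by
    have hone : ∀ i, i < m → 0 < dist x (bk S'.f i (fw S'.f k u)) := by
      intro i hi
      have hxi : bk S'.f i (fw S'.f k u) = fw S'.f (k - i) u := by
        have : k = i + (k - i) := by omega
        conv_lhs => rw [this, fw_add]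
        rw [bk_fw]
      rw [hxi]
      apply dist_pos.2
      intro hcon
      have := hdist j hjk (k - i) (by omega) hcon
      omega
    obtain ⟨i0, hi0, hmin⟩ := Finset.exists_min_image (Finset.range m)
      (fun i => dist x (bk S'.f i (fw S'.f k u))) ⟨0, Finset.mem_range.2 hm0⟩
    have h1 := hone i0 (Finset.mem_range.1 hi0)
    refine ⟨dist x (bk S'.f i0 (fw S'.f k u)) / 4, by positivity, fun i hi => ?_⟩
    have h2 := hmin i (Finset.mem_range.2 hi)
    linarith
  obtain ⟨r3, hr3, hfwd⟩ := hfwd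
  -- the radius
  set r : ℝ := min (min (r1 / 2) (ρc / 2)) (min ρp (min r2 r3)) with hr
  have hr0 : 0 < r := by
    rw [hr]
    exact lt_min (lt_min (by positivity) (by positivity)) (lt_min hρp (lt_min hr2 hr3))
  have hra : r ≤ r1 / 2 := (min_le_left _ _).trans (min_le_left _ _)
  have hrb : r ≤ ρc / 2 := (min_le_left _ _).trans (min_le_right _ _)
  have hrc : r ≤ ρp := (min_le_right _ _).trans (min_le_left _ _)
  have hrd : r ≤ r2 := (min_le_right _ _).trans ((min_le_right _ _).trans (min_le_left _ _))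
  have hre : r ≤ r3 := (min_le_right _ _).trans ((min_le_right _ _).trans (min_le_right _ _))
  have hWfar : ∀ y ∈ Wn F ρ, r ≤ dist x y := by
    intro y hy
    by_contra hcon
    push Not at hcon
    have : y ∈ ball x r1 := by rw [mem_ball, dist_comm]; linarith
    exact hr1' this hy
  -- the neighbourhood `O`
  have hbkm : bk S'.f m (fw S'.f k u) = x := by
    have : k = m + j := by omega
    rw [this, fw_add, bk_fw]
  obtain ⟨δ0, hδ0, hiter⟩ := F7c_iter S' k (r / 64) (by positivity)
  refine ⟨{y | dist x (bk S'.f m y) < r / 64 ∧ ∀ i ∈ Finset.range m, 2 * r < dist x (bk S'.f i y)},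
    ?_, δ0, hδ0, ?_⟩
  · have hO1 : ∀ᶠ y in 𝓝 (fw S'.f k u), dist x (bk S'.f m y) < r / 64 := by
      have hcont : Continuous fun y => dist x (bk S'.f m y) :=
        continuous_const.dist (continuous_bk m)
      apply hcont.continuousAt.eventually (gt_mem_nhds _)
      show dist x (bk S'.f m (fw S'.f k u)) < r / 64
      rw [hbkm, dist_self]
      positivity
    have hO2 : ∀ᶠ y in 𝓝 (fw S'.f k u), ∀ i ∈ Finset.range m, 2 * r < dist x (bk S'.f i y) := by
      rw [Filter.eventually_all_finset]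
      intro i hi
      have hcont : Continuous fun y => dist x (bk S'.f i y) :=
        continuous_const.dist (continuous_bk i)
      apply hcont.continuousAt.eventually (lt_mem_nhds _)
      have := hfwd i (Finset.mem_range.1 hi)
      linarith
    exact hO1.and hO2
  · intro S1 hN1 he1 δ hδ
    obtain ⟨δ', hδ', hcomp⟩ := S1.exists_comp δ hδ
    obtain ⟨η, hη, hΘ⟩ := hpush r hr0 hrc δ' hδ'
    have hsS1 : S.Same S1 := hs.trans hN1.same
    -- choice of `v`
    obtain ⟨Cs, φs, cs, hφs, hWs⟩ := h.lip_s p hp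
    obtain ⟨Cu, φu, cu, hφu, hWu⟩ := h.lip_u q hq
    obtain ⟨L1, _, hL1⟩ := S1.lip m
    obtain ⟨L2, hL2, _⟩ := S1.lip j
    obtain ⟨C1, φ1, c1, hφ1, hC1⟩ := F7c_param S x hφs hWs hL1
    obtain ⟨C2, φ2, c2, hφ2, hC2⟩ := F7c_param S x hφu hWu hL2
    obtain ⟨v, hvT, hvn, hv⟩ := exists_small_not_mem (S.rankP x) hd hφ1 hφ2
      (δ := min η (r / 64)) (lt_min hη (by positivity))
    have hvT' : v ∈ S'.T x := by
      have : S'.T x = S.T x := by unfold Coc.T; rw [hs.P]
      rw [this]; exact hvT
    obtain ⟨Θ, hSΘ, hΘid, hΘ1, hΘ2⟩ := hΘ v hvT' (hvn.le.trans (min_le_left _ _))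
    have hvr : ‖v‖ < r / 64 := hvn.trans_le (min_le_right _ _)
    obtain ⟨S2, hN2, hS2⟩ := hcomp Θ (hN1.same.symm.trans hSΘ) hΘid
    have hχ : ∀ y, S'.χ x y = S.χ x y := by
      intro y
      unfold ESys.χ
      rw [hs.e, hs.P]
    -- inverses
    have hΘs : ∀ y, r ≤ dist x y → Θ.f.symm y = y := by
      intro y hy
      rw [Homeomorph.symm_apply_eq, hΘ1 y hy]
    have hS2s : ∀ y, S2.f.symm y = Θ.f.symm (S1.f.symm y) := by
      intro y
      rw [Homeomorph.symm_apply_eq, hS2, Homeomorph.apply_symm_apply, Homeomorph.apply_symm_apply]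
    refine ⟨S2, hN2, ?_, ?_⟩
    · intro y hy
      rw [hS2 y, hΘ1 y (hWfar y hy)]
      exact he1 hy
    · rintro y ⟨⟨hyO1, hyO2⟩, hyp⟩ hyq
      -- before the perturbation
      have hA : ∀ i, i < m → bk S2.f i y = bk S1.f i y := by
        intro i
        induction i with
        | zero => intro _; rfl
        | succ i ih =>
          intro hi
          rw [bk_succ', ih (by omega), hS2s, ← bk_succ']
          apply hΘs
          have h1 := hyO2 (i + 1) (Finset.mem_range.2 hi)
          have h2 := hiter S1 hN1 (i + 1) (by omega) y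
          have h3 := dist_triangle x (bk S1.f (i + 1) y) (bk S'.f (i + 1) y)
          rw [dist_comm (bk S1.f (i + 1) y)] at h3
          linarith
      set b : K := bk S1.f m y with hb
      have hbm : bk S2.f m y = Θ.f.symm b := by
        obtain ⟨m', rfl⟩ : ∃ m', m = m' + 1 := ⟨m - 1, by omega⟩
        rw [bk_succ', hA m' (by omega), hS2s, ← bk_succ']
      have hbd : dist x b < r / 32 := by
        have h2 := hiter S1 hN1 m (by omega) y
        have h3 := dist_triangle x (bk S'.f m y) b
        rw [hb] at h3 ⊢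
        linarith
      -- the translated point
      have hPχ : S'.χ x b ∈ S'.T x := S'.toCoc.P_mem x _
      have hχb : ‖S'.χ x b‖ ≤ dist x b := by
        unfold ESys.χ
        refine (S'.toCoc.norm_P_le x _).trans ?_
        rw [S'.e_isom, dist_comm]
      obtain ⟨y', hy'1, hy'2, _⟩ := hch2 x (S'.χ x b - v) ((S'.T x).sub_mem hPχ hvT') (by
        have := norm_sub_le (S'.χ x b) v
        linarith)
      have hy'd : dist x y' ≤ r / 8 := by
        have := norm_sub_le (S'.χ x b) v
        linarith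
      have hy'χ : S'.χ x y' = S'.χ x b - v := hy'1
      have hΘy' : S'.χ x (Θ.f y') = S'.χ x b := by
        rw [hΘ2 y' hy'd, hy'χ, sub_add_cancel]
      have hΘy'd : dist x (Θ.f y') < r := by
        by_contra hcon
        push Not at hcon
        have h1 := hΘ1 _ hcon
        have h2 : Θ.f y' = y' := Θ.f.injective h1
        rw [h2] at hcon
        linarith
      have hΘb : Θ.f y' = b := by
        have h1 := (hch1 x (Θ.f y') b (by linarith) (by linarith)).1
        have h2 : S'.P x (S'.e (Θ.f y') - S'.e b) = 0 := by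
          have h3 : S'.P x (S'.e (Θ.f y') - S'.e x) - S'.P x (S'.e b - S'.e x) = 0 :=
            sub_eq_zero.2 hΘy'
          rw [← map_sub, sub_sub_sub_cancel_right] at h3
          exact h3
        rw [h2, norm_zero] at h1
        have h3 : dist (Θ.f y') b ≤ 0 := by linarith
        exact dist_le_zero.1 h3
      have hb' : Θ.f.symm b = y' := by
        rw [Homeomorph.symm_apply_eq, hΘb]
      rw [hb'] at hbm
      -- after the perturbation
      have hC : ∀ i, i ≤ j → bk S2.f i y' = bk S1.f i y' := by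
        intro i
        induction i with
        | zero => intro _; rfl
        | succ i ih =>
          intro hi
          rw [bk_succ', ih (by omega), hS2s, ← bk_succ']
          apply hΘs
          have h1 := hback y' (by linarith) (i + 1) (by omega) hi
          have h2 := hiter S1 hN1 (i + 1) (by omega) y'
          have h3 := dist_triangle x (bk S1.f (i + 1) y') (bk S'.f (i + 1) y')
          rw [dist_comm (bk S1.f (i + 1) y')] at h3
          linarith
      have hw : bk S2.f k y = bk S1.f j y' := by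
        rw [hm, bk_add, hbm, hC j le_rfl]
      rw [hw] at hyq
      obtain ⟨a1, ha1, ha1'⟩ := hC1 y hyp
      obtain ⟨a2, ha2, ha2'⟩ := hC2 _ hyq
      apply hv a1 ha1 a2 ha2
      rw [ha1', ha2', fw_bk, ← hχ, ← hχ, hy'χ]
      abel

end Pool.MP85
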