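import Pool.Agent.Lib.MP_85e637_an.F7a
import Pool.Agent.Lib.MP_85e637_an.C01
import Pool.Agent.Lib.MP_85e637_an.F7c

/-!
# Stage 2, F7d: density of `EA`
-/

open Filter Topology Set Metric Module

namespace Pool.MP85
variable {d N : ℕ} {K : Type} [MetricSpace K] [CompactSpace K]


/-- the property is open in the system -/
theorem F7d_open {S1 : ESys d N K} {C D : Set K} (hC : IsClosed C) (hD : IsClosed D) (k : ℕ)
    (h1 : ∀ y ∈ C, bk S1.f k y ∉ D) :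
    ∃ δ > 0, ∀ S2, S1.Near S2 δ → ∀ y ∈ C, bk S2.f k y ∉ D := by
  have hdis : Disjoint (bk S1.f k '' C) D := by
    rw [Set.disjoint_left]
    rintro _ ⟨u, hu, rfl⟩
    exact h1 u hu
  have hcpt : IsCompact (bk S1.f k '' C) := (hC.isCompact).image (continuous_bk k)
  obtain ⟨η, hη, hd⟩ := hdis.exists_thickenings hcpt hD
  obtain ⟨δ, hδ, hn⟩ := F7a_bk_near S1.f k η hη
  refine ⟨δ, hδ, fun S2 hS2 y hy hmem => ?_⟩
  have h3 := hn S2.f (fun x => hS2.f' x) y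
  refine Set.disjoint_left.1 hd ?_ (self_subset_thickening hη _ hmem)
  rw [mem_thickening_iff]
  exact ⟨bk S1.f k y, mem_image_of_mem _ hy, by rw [dist_comm]; exact h3⟩

section E
variable {S : ESys d N K} {F : Set K} {ρ : ℝ}

theorem F7d_finrank_bk (S : ESys d N K) (n : ℕ) (x : K) :
    finrank ℝ (S.Es (bk S.f n x)) = finrank ℝ (S.Es x) := by
  induction n with
  | zero => rfl
  | succ n ih =>
    rw [bk_succ', ← ih]
    have h1 := S.toCoc.finrank_Es_f (S.f.symm (bk S.f n x))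
    rw [Homeomorph.apply_symm_apply] at h1
    exact h1.symm

/-- density for one pair of points of `F` -/
theorem F7d_pair (h : PF S F ρ) (k : ℕ) {p q : K} (hp : p ∈ F) (hq : q ∈ F)
    (h1 : finrank ℝ (S.Es p) = 1) (h2 : 2 ≤ finrank ℝ (S.Es q)) {S' : ESys d N K}
    (hs : S.Same S') (he : EqOn S'.f S.f (Wn F ρ)) :
    ∀ δ > 0, ∃ S'', S'.Near S'' δ ∧ EqOn S''.f S.f (Wn F ρ) ∧
      ∀ y ∈ WSl S.f ρ p, bk S''.f k y ∉ WUl S.f ρ q := by
  have hd : finrank ℝ (S.Es p) + finrank ℝ (S.Eu q) < d := by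
    have := h.rank q hq
    omega
  have hclU : IsClosed (WUl S.f ρ q) := isClosed_wul'
  have hclS : IsClosed (WSl S.f ρ p) := F7a_closed_wsl
  set C : Set K := WSl S.f ρ p ∩ (bk S'.f k) ⁻¹' (WUl S.f ρ q) with hC
  have hCcl : IsClosed C := hclS.inter (hclU.preimage (continuous_bk k))
  have key : ∃ O : Set K, IsOpen O ∧ C ⊆ O ∧ ∃ δ0 > 0, ∀ S1, S'.Near S1 δ0 →
      EqOn S1.f S.f (Wn F ρ) → ∀ δ > 0, ∃ S2, S1.Near S2 δ ∧ EqOn S2.f S.f (Wn F ρ) ∧
        ∀ y ∈ closure O ∩ WSl S.f ρ p, bk S2.f k y ∉ WUl S.f ρ q := by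
    refine hCcl.isCompact.induction_on
      (p := fun A => ∃ O : Set K, IsOpen O ∧ A ⊆ O ∧ ∃ δ0 > 0, ∀ S1, S'.Near S1 δ0 →
        EqOn S1.f S.f (Wn F ρ) → ∀ δ > 0, ∃ S2, S1.Near S2 δ ∧ EqOn S2.f S.f (Wn F ρ) ∧
          ∀ y ∈ closure O ∩ WSl S.f ρ p, bk S2.f k y ∉ WUl S.f ρ q) ?_ ?_ ?_ ?_
    · refine ⟨∅, isOpen_empty, le_rfl, 1, one_pos, fun S1 _ he1 δ hδ => ⟨S1, ESys.Near.refl S1 hδ,
        he1, fun y hy => ?_⟩⟩
      rw [closure_empty, empty_inter] at hy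
      exact absurd hy (notMem_empty y)
    · rintro A B hAB ⟨O, hO, hBO, r⟩
      exact ⟨O, hO, hAB.trans hBO, r⟩
    · rintro A B ⟨O, hO, hAO, δA, hδA, hA⟩ ⟨O', hO', hBO', δB, hδB, hB⟩
      refine ⟨O ∪ O', hO.union hO', union_subset_union hAO hBO', min δA δB / 2,
        half_pos (lt_min hδA hδB), fun S1 hS1 he1 δ hδ => ?_⟩
      have hm : 0 < min δA δB / 2 := half_pos (lt_min hδA hδB)
      have hmA : min δA δB / 2 ≤ δA := (half_le_self (lt_min hδA hδB).le).trans (min_le_left _ _)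
      obtain ⟨S2, hS2, he2, hg2⟩ := hA S1 (hS1.mono hmA) he1 (min (δ / 2) (min δA δB / 2))
        (lt_min (half_pos hδ) hm)
      have hS2' : S'.Near S2 δB := by
        refine (hS1.trans hS2).mono ?_
        have h3 : min (δ / 2) (min δA δB / 2) ≤ min δA δB / 2 := min_le_right _ _
        have h4 : min δA δB ≤ δB := min_le_right _ _
        linarith
      obtain ⟨δ1, hδ1, hop⟩ := F7d_open (S1 := S2) (C := closure O ∩ WSl S.f ρ p)
        (isClosed_closure.inter hclS) hclU k hg2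
      obtain ⟨S3, hS3, he3, hg3⟩ := hB S2 hS2' he2 (min (δ / 2) δ1) (lt_min (half_pos hδ) hδ1)
      refine ⟨S3, ?_, he3, ?_⟩
      · refine (hS2.trans hS3).mono ?_
        have h3 : min (δ / 2) (min δA δB / 2) ≤ δ / 2 := min_le_left _ _
        have h4 : min (δ / 2) δ1 ≤ δ / 2 := min_le_left _ _
        linarith
      · rintro y ⟨hy, hyp⟩
        rw [closure_union] at hy
        rcases hy with hy | hy
        · exact hop S3 (hS3.mono (min_le_right _ _)) y ⟨hy, hyp⟩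
        · exact hg3 y ⟨hy, hyp⟩
    · intro y hy
      have hfb : fw S'.f k (bk S'.f k y) = y := fw_bk k
      have hyp : y ≠ p := by
        rintro rfl
        have h3 : bk S'.f k y = bk S.f k y :=
          F7a_bk_eq he (fun n => F7a_sub h (F7a_bk_mem h hp n)) k
        have h4 : bk S'.f k y ∈ WUl S.f ρ q := hy.2
        rw [h3] at h4
        have h5 : q = bk S.f k y := h.sep0 q hq _ (F7a_bk_mem h hp k) (bk S.f k y) (h4 0)
          (by rw [dist_self]; exact h.pos.le)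
        have h6 := F7d_finrank_bk S k y
        rw [← h5] at h6
        omega
      obtain ⟨O, hO, δ0, hδ0, hg⟩ := h.EA_local hs he hp hq hd (u := bk S'.f k y) hy.2
        (by rw [hfb]; exact hy.1) (by rw [hfb]; exact hyp)
      rw [hfb] at hO
      obtain ⟨r, hr, hrO⟩ := Metric.nhds_basis_closedBall.mem_iff.1 hO
      refine ⟨ball y r, mem_nhdsWithin_of_mem_nhds (ball_mem_nhds y hr), ball y r, isOpen_ball,
        le_rfl, δ0, hδ0, fun S1 hS1 he1 δ hδ => ?_⟩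
      obtain ⟨S2, hS2, he2, hg2⟩ := hg S1 hS1 he1 δ hδ
      exact ⟨S2, hS2, he2, fun z hz => hg2 z ⟨hrO (closure_ball_subset_closedBall hz.1), hz.2⟩⟩
  obtain ⟨O, hO, hCO, δ0, hδ0, hloc⟩ := key
  obtain ⟨δ1, hδ1, hop⟩ := F7d_open (S1 := S') (C := WSl S.f ρ p \ O)
    (hclS.inter hO.isClosed_compl) hclU k (fun y hy hmem => hy.2 (hCO ⟨hy.1, hmem⟩))
  intro δ hδ
  obtain ⟨S2, hS2, he2, hg2⟩ := hloc S' (ESys.Near.refl S' hδ0) he (min δ δ1) (lt_min hδ hδ1)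
  refine ⟨S2, hS2.mono (min_le_left _ _), he2, fun y hy => ?_⟩
  by_cases hyO : y ∈ O
  · exact hg2 y ⟨subset_closure hyO, hy⟩
  · exact hop S2 (hS2.mono (min_le_right _ _)) y ⟨hy, hyO⟩

/-- F7d: density of `EA` (finitely many local perturbations) -/
theorem PF.EA_dense (h : PF S F ρ) (k : ℕ) {S' : ESys d N K} (hs : S.Same S')
    (he : EqOn S'.f S.f (Wn F ρ)) : ∀ δ > 0, ∃ S'', S'.Near S'' δ ∧
      EqOn S''.f S.f (Wn F ρ) ∧ EA S F ρ k S'' := by
  classical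
  -- finitely many pairs
  have key : ∀ Q : Finset (K × K), (∀ a ∈ Q, a.1 ∈ F ∧ a.2 ∈ F ∧ finrank ℝ (S.Es a.1) = 1 ∧
      2 ≤ finrank ℝ (S.Es a.2)) → ∀ δ > 0, ∃ S'', S'.Near S'' δ ∧ EqOn S''.f S.f (Wn F ρ) ∧
        ∀ a ∈ Q, ∀ y ∈ WSl S.f ρ a.1, bk S''.f k y ∉ WUl S.f ρ a.2 := by
    intro Q
    induction Q using Finset.induction_on with
    | empty =>
      intro _ δ hδ
      exact ⟨S', ESys.Near.refl S' hδ, he, fun a ha => absurd ha (Finset.notMem_empty a)⟩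
    | insert a Q _ ih =>
      intro hQ δ hδ
      obtain ⟨S1, hS1, he1, hg1⟩ := ih (fun b hb => hQ b (Finset.mem_insert_of_mem hb)) (δ / 2)
        (half_pos hδ)
      have hop : ∃ δ1 > 0, ∀ S2, S1.Near S2 δ1 → ∀ b ∈ Q, ∀ y ∈ WSl S.f ρ b.1,
          bk S2.f k y ∉ WUl S.f ρ b.2 := by
        have h1 : ∀ b ∈ Q, ∀ᶠ δ in 𝓝[>] (0 : ℝ), ∀ S2, S1.Near S2 δ → ∀ y ∈ WSl S.f ρ b.1,
            bk S2.f k y ∉ WUl S.f ρ b.2 := by
          intro b hb
          obtain ⟨δ1, hδ1, hop⟩ := F7d_open (S1 := S1) (C := WSl S.f ρ b.1)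
            (D := WUl S.f ρ b.2) F7a_closed_wsl isClosed_wul' k (hg1 b hb)
          have h2 : ∀ᶠ δ' in 𝓝[>] (0 : ℝ), δ' < δ1 :=
            eventually_nhdsWithin_of_eventually_nhds (gt_mem_nhds hδ1)
          filter_upwards [h2] with δ' hδ' S2 hS2
          exact hop S2 (hS2.mono hδ'.le)
        have h2 := (Filter.eventually_all_finset Q).2 h1
        obtain ⟨δ1, h3, hpos⟩ := (h2.and self_mem_nhdsWithin).exists
        exact ⟨δ1, hpos, fun S2 hS2 b hb => h3 b hb S2 hS2⟩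
      obtain ⟨δ1, hδ1, hop⟩ := hop
      obtain ⟨a1, a2, a3, a4⟩ := hQ a (Finset.mem_insert_self a Q)
      obtain ⟨S2, hS2, he2, hg2⟩ := F7d_pair h k a1 a2 a3 a4 (hs.trans hS1.same) he1
        (min (δ / 2) δ1) (lt_min (half_pos hδ) hδ1)
      refine ⟨S2, ?_, he2, ?_⟩
      · refine (hS1.trans hS2).mono ?_
        have h3 : min (δ / 2) δ1 ≤ δ / 2 := min_le_left _ _
        linarith
      · intro b hb
        rcases Finset.mem_insert.1 hb with rfl | hb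
        · exact hg2
        · exact hop S2 (hS2.mono (min_le_right _ _)) b hb
  intro δ hδ
  have hfin : {a : K × K | a.1 ∈ F ∧ a.2 ∈ F ∧ finrank ℝ (S.Es a.1) = 1 ∧
      2 ≤ finrank ℝ (S.Es a.2)}.Finite :=
    (h.fin.prod h.fin).subset fun a ha => ⟨ha.1, ha.2.1⟩
  obtain ⟨S'', hN, he', hg⟩ := key hfin.toFinset (fun a ha => hfin.mem_toFinset.1 ha) δ hδ
  refine ⟨S'', hN, he', fun p hp q hq c1 c2 u hu hmem => ?_⟩
  have h1 := hg (p, q) (hfin.mem_toFinset.2 ⟨hp, hq, c1, c2⟩) _ hmem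
  rw [bk_fw] at h1
  exact h1 hu

end E

end Pool.MP85
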