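import Pool.Agent.Lib.MP_85e637_an.S2Defs
import Pool.Agent.Lib.MP_85e637_an.A01
import Pool.Agent.Lib.MP_85e637_an.C01
import Pool.Agent.Lib.MP_85e637_an.C10
import Pool.Agent.Lib.MP_85e637_an.F1
import Pool.Agent.Lib.MP_85e637_an.F2a
import Pool.Agent.Lib.MP_85e637_an.F5
import Pool.Agent.Lib.MP_85e637_an.F7a

/-!
# Stage 2, F7e: density of `EB` (one orbit)
-/

open Filter Topology Set Metric Module

namespace Pool.MP85
variable {d N : ℕ} {K : Type} [MetricSpace K] [CompactSpace K]


/-- a Lipschitz parametrisation of the image of a set under a Lipschitz map, in coordinates -/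
theorem F7e_param (S : ESys d N K) (x : K) {W : Set K} {n : ℕ} {C : Set (EE n)}
    {φ : EE n → EE N} {c : NNReal} (hφ : LipschitzOnWith c φ C) (hW : S.e '' W ⊆ φ '' C)
    {g : K → K} {L : NNReal} (hg : LipschitzWith L g) :
    ∃ (C' : Set (EE n)) (φ' : EE n → EE N) (c' : NNReal), LipschitzOnWith c' φ' C' ∧
      ∀ y ∈ W, ∃ a ∈ C', φ' a = S.χ x (g y) := by
  classical
  have hinj : ∀ y y' : K, S.e y = S.e y' → y = y' := by
    intro y y' h
    have := S.e_isom y y'
    rw [h, sub_self, norm_zero] at this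
    exact dist_eq_zero.1 this.symm
  rcases W.eq_empty_or_nonempty with hW0 | ⟨y0, hy0⟩
  · refine ⟨∅, fun _ => 0, 0, ?_, ?_⟩
    · intro a ha
      exact absurd ha (Set.notMem_empty a)
    · intro y hy
      rw [hW0] at hy
      exact absurd hy (Set.notMem_empty y)
  · set inv : EE N → K := fun w => if h : ∃ y ∈ W, S.e y = w then h.choose else y0 with hinv
    have hinv' : ∀ y ∈ W, inv (S.e y) = y := by
      intro y hy
      have h : ∃ y' ∈ W, S.e y' = S.e y := ⟨y, hy, rfl⟩
      have h1 : inv (S.e y) = h.choose := by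
        simp only [hinv]
        rw [dif_pos h]
      rw [h1]
      exact hinj _ _ h.choose_spec.2
    refine ⟨{a | a ∈ C ∧ φ a ∈ S.e '' W}, fun a => S.χ x (g (inv (φ a))), L * c, ?_, ?_⟩
    · rw [lipschitzOnWith_iff_dist_le_mul]
      rintro a ⟨ha, y, hy, hya⟩ b ⟨hb, y', hy', hyb⟩
      have h1 := hφ.dist_le_mul a ha b hb
      rw [← hya, ← hyb, hinv' y hy, hinv' y' hy']
      rw [← hya, ← hyb] at h1
      have h2 : dist (S.χ x (g y)) (S.χ x (g y')) ≤ dist (g y) (g y') := by
        unfold ESys.χ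
        rw [dist_eq_norm, ← map_sub, ← S.e_isom]
        have : S.e (g y) - S.e x - (S.e (g y') - S.e x) = S.e (g y) - S.e (g y') := by abel
        rw [this]
        exact S.toCoc.norm_P_le x _
      have h3 : dist (S.e y) (S.e y') = dist y y' := by rw [dist_eq_norm, S.e_isom]
      rw [h3] at h1
      calc dist (S.χ x (g y)) (S.χ x (g y')) ≤ dist (g y) (g y') := h2
        _ ≤ L * dist y y' := hg.dist_le_mul y y'
        _ ≤ L * (c * dist a b) := mul_le_mul_of_nonneg_left h1 L.coe_nonneg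
        _ = ((L * c : NNReal) : ℝ) * dist a b := by push_cast; ring
    · intro y hy
      obtain ⟨a, ha, hae⟩ := hW ⟨y, hy, rfl⟩
      refine ⟨a, ⟨ha, ⟨y, hy, hae.symm⟩⟩, ?_⟩
      show S.χ x (g (inv (φ a))) = S.χ x (g y)
      rw [hae, hinv' y hy]

/-- F7e: density of `EB` (one orbit) -/
theorem PF.EB_dense {S : ESys d N K} {F : Set K} {ρ : ℝ} (h : PF S F ρ) (p q : K) (I : Set K)
    (k : ℕ) {S' : ESys d N K}
    (hs : S.Same S') (he : EqOn S'.f S.f (Wn F ρ)) : ∀ δ > 0, ∃ S'', S'.Near S'' δ ∧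
      EqOn S''.f S.f (Wn F ρ) ∧ EB S F ρ p q I k S'' := by
  intro δ hδ
  by_cases hEB : EB S F ρ p q I k S'
  · exact ⟨S', ESys.Near.refl S' hδ, he, hEB⟩
  unfold EB at hEB
  push Not at hEB
  obtain ⟨hp, hq, hp1, hq1, hI, ⟨y0, hy0, hy0p⟩, hall⟩ := hEB
  set u : K := bk S'.f k y0 with hudef
  have hu : u ∈ WUl S.f ρ q := hall y0 hy0
  have hfu : fw S'.f k u = y0 := by rw [hudef, fw_bk]
  have hk : fw S'.f k u ∈ WSl S.f ρ p := by rw [hfu]; exact hy0.2
  have hkp : fw S'.f k u ≠ p := by rw [hfu]; exact hy0p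
  have hd : 0 + finrank ℝ (S.Eu q) < d := by
    have := h.rank q hq
    omega
  obtain ⟨⟨j, hjk, hxW⟩, hdist⟩ := h.leave hs he hp hq hu hk hkp
  set x : K := fw S'.f j u with hx
  have hk0 : fw S'.f k u ∈ Wn F ρ := ⟨p, hp, hk 0⟩
  have hjk' : j < k := by
    rcases Nat.lt_or_ge j k with h1 | h1
    · exact h1
    · obtain rfl : j = k := by omega
      exact absurd hk0 hxW
  obtain ⟨m, hm⟩ : ∃ m, k = j + m := ⟨k - j, by omega⟩
  have hm0 : 0 < m := by omega
  -- the neighbourhood of `Wn`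
  have hWcl : IsClosed (Wn F ρ) := by
    have : Wn F ρ = ⋃ p ∈ F, closedBall p ρ := by
      ext y
      simp only [Wn, mem_ofPred_eq, mem_iUnion, mem_closedBall, exists_prop, dist_comm y]
    rw [this]
    exact h.fin.isClosed_biUnion fun p _ => isClosed_closedBall
  obtain ⟨r1, hr1, hr1'⟩ := Metric.isOpen_iff.1 hWcl.isOpen_compl x hxW
  -- chart
  obtain ⟨ρc, hρc, hch1, hch2⟩ := S'.chart (1 / 2) (by norm_num) (by norm_num)
  -- push
  obtain ⟨ρp, hρp, hpush⟩ := S'.push x
  -- backward iterates of points near `x`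
  have hback : ∃ r2 > 0, ∀ y, dist x y ≤ r2 → ∀ i, 1 ≤ i → i ≤ j → 3 * r2 < dist x (bk S'.f i y) := by
    have hone : ∀ i, 1 ≤ i → i ≤ j → ∃ r2 > 0, ∀ y, dist x y ≤ r2 → 3 * r2 < dist x (bk S'.f i y) := by
      intro i hi hij
      have hxi : bk S'.f i x = fw S'.f (j - i) u := by
        rw [hx]
        have : j = i + (j - i) := by omega
        conv_lhs => rw [this, fw_add]
        rw [bk_fw]
      have hne : x ≠ bk S'.f i x := by
        rw [hxi]
        intro hcon
        have := hdist j hjk (j - i) (by omega) hcon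
        omega
      have hpos : 0 < dist x (bk S'.f i x) := dist_pos.2 hne
      have hcont : Continuous fun y => dist x (bk S'.f i y) :=
        continuous_const.dist (continuous_bk i)
      have hev : ∀ᶠ y in 𝓝 x, dist x (bk S'.f i x) / 2 < dist x (bk S'.f i y) :=
        hcont.continuousAt.eventually (lt_mem_nhds (by linarith))
      obtain ⟨r, hr, hr'⟩ := Metric.eventually_nhds_iff.1 hev
      refine ⟨min (r / 2) (dist x (bk S'.f i x) / 6), lt_min (by positivity) (by positivity), ?_⟩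
      intro y hy
      have h1 : dist y x < r := by
        rw [dist_comm]
        have := hy.trans (min_le_left _ _)
        linarith
      have h2 := hr' h1
      have h3 := min_le_right (r / 2) (dist x (bk S'.f i x) / 6)
      linarith
    choose! g hg using hone
    have hfin : ∃ r2 > 0, ∀ i ∈ Finset.Icc 1 j, r2 ≤ g i := by
      rcases (Finset.Icc 1 j).eq_empty_or_nonempty with h0 | h0
      · exact ⟨1, one_pos, fun i hi => by rw [h0] at hi; exact absurd hi (Finset.notMem_empty i)⟩
      · obtain ⟨i0, hi0, hmin⟩ := Finset.exists_min_image _ g h0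
        have hi0' := Finset.mem_Icc.1 hi0
        exact ⟨g i0, (hg i0 hi0'.1 hi0'.2).1, hmin⟩
    obtain ⟨r2, hr2, hr2'⟩ := hfin
    refine ⟨r2, hr2, fun y hy i hi hij => ?_⟩
    have h1 := hr2' i (Finset.mem_Icc.2 ⟨hi, hij⟩)
    have h2 := (hg i hi hij).2 y (hy.trans h1)
    linarith
  obtain ⟨r2, hr2, hback⟩ := hback
  -- the points `x_i`, `j < i ≤ k`
  have hfwd : ∃ r3 > 0, ∀ i, i < m → 3 * r3 < dist x (bk S'.f i y0) := by
    have hone : ∀ i, i < m → 0 < dist x (bk S'.f i y0) := by
      intro i hi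
      have hxi : bk S'.f i y0 = fw S'.f (k - i) u := by
        rw [← hfu]
        have : k = i + (k - i) := by omega
        conv_lhs => rw [this, fw_add]
        rw [bk_fw]
      rw [hxi]
      apply dist_pos.2
      intro hcon
      have := hdist j hjk (k - i) (by omega) hcon
      omega
    obtain ⟨i0, hi0, hmin⟩ := Finset.exists_min_image (Finset.range m)
      (fun i => dist x (bk S'.f i y0)) ⟨0, Finset.mem_range.2 hm0⟩
    have h1 := hone i0 (Finset.mem_range.1 hi0)
    refine ⟨dist x (bk S'.f i0 y0) / 4, by positivity, fun i hi => ?_⟩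
    have h2 := hmin i (Finset.mem_range.2 hi)
    linarith
  obtain ⟨r3, hr3, hfwd⟩ := hfwd
  -- the radius
  set r : ℝ := min (min (r1 / 2) (ρc / 2)) (min ρp (min r2 r3)) with hr
  have hr0 : 0 < r := by
    rw [hr]
    exact lt_min (lt_min (by positivity) (by positivity)) (lt_min hρp (lt_min hr2 hr3))
  have hra : r ≤ r1 / 2 := (min_le_left _ _).trans (min_le_left _ _)
  have hrb : r ≤ ρc / 2 := (min_le_left _ _).trans (min_le_right _ _)
  have hrc : r ≤ ρp := (min_le_right _ _).trans (min_le_left _ _)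
  have hrd : r ≤ r2 := (min_le_right _ _).trans ((min_le_right _ _).trans (min_le_left _ _))
  have hre : r ≤ r3 := (min_le_right _ _).trans ((min_le_right _ _).trans (min_le_right _ _))
  have hWfar : ∀ y ∈ Wn F ρ, r ≤ dist x y := by
    intro y hy
    by_contra hcon
    push Not at hcon
    have : y ∈ ball x r1 := by rw [mem_ball, dist_comm]; linarith
    exact hr1' this hy
  have hbkm : bk S'.f m y0 = x := by
    have : k = m + j := by omega
    rw [← hfu, this, fw_add, bk_fw]
  obtain ⟨δ', hδ', hcomp⟩ := S'.exists_comp δ hδ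
  obtain ⟨η, hη, hΘ⟩ := hpush r hr0 hrc δ' hδ'
  -- choice of `v`
  obtain ⟨Cu, φu, cu, hφu, hWu⟩ := h.lip_u q hq
  obtain ⟨L2, hL2, _⟩ := S'.lip j
  obtain ⟨C2, φ2, c2, hφ2, hC2⟩ := F7e_param S x hφu hWu hL2
  have hφ1 : LipschitzOnWith (0 : NNReal) (fun _ : EE 0 => (0 : EE N)) Set.univ := by
    intro a _ b _
    simp
  obtain ⟨v, hvT, hvn, hv⟩ := exists_small_not_mem (S.rankP x) hd hφ1 hφ2
    (δ := min η (r / 64)) (lt_min hη (by positivity))
  have hvT' : v ∈ S'.T x := by
    have : S'.T x = S.T x := by unfold Coc.T; rw [hs.P]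
    rw [this]; exact hvT
  obtain ⟨Θ, hSΘ, hΘid, hΘ1, hΘ2⟩ := hΘ v hvT' (hvn.le.trans (min_le_left _ _))
  have hvr : ‖v‖ < r / 64 := hvn.trans_le (min_le_right _ _)
  obtain ⟨S2, hN2, hS2⟩ := hcomp Θ hSΘ hΘid
  have hχ : ∀ y, S'.χ x y = S.χ x y := by
    intro y
    unfold ESys.χ
    rw [hs.e, hs.P]
  -- inverses
  have hΘs : ∀ y, r ≤ dist x y → Θ.f.symm y = y := by
    intro y hy
    rw [Homeomorph.symm_apply_eq, hΘ1 y hy]
  have hS2s : ∀ y, S2.f.symm y = Θ.f.symm (S'.f.symm y) := by
    intro y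
    rw [Homeomorph.symm_apply_eq, hS2, Homeomorph.apply_symm_apply, Homeomorph.apply_symm_apply]
  refine ⟨S2, hN2, ?_, ?_⟩
  · intro y hy
    rw [hS2 y, hΘ1 y (hWfar y hy)]
    exact he hy
  · intro _ _ _ _ _ _
    refine ⟨y0, hy0, fun hyq => ?_⟩
    -- before the perturbation
    have hA : ∀ i, i < m → bk S2.f i y0 = bk S'.f i y0 := by
      intro i
      induction i with
      | zero => intro _; rfl
      | succ i ih =>
        intro hi
        rw [bk_succ', ih (by omega), hS2s, ← bk_succ']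
        apply hΘs
        have h1 := hfwd (i + 1) hi
        linarith
    have hbm : bk S2.f m y0 = Θ.f.symm x := by
      obtain ⟨m', rfl⟩ : ∃ m', m = m' + 1 := ⟨m - 1, by omega⟩
      rw [bk_succ', hA m' (by omega), hS2s, ← bk_succ', hbkm]
    -- the translated point
    have hχx : S'.χ x x = 0 := by
      unfold ESys.χ
      rw [sub_self, map_zero]
    obtain ⟨y', hy'1, hy'2, _⟩ := hch2 x (-v) ((S'.T x).neg_mem hvT') (by
      rw [norm_neg]
      linarith)
    have hy'd : dist x y' ≤ r / 8 := by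
      rw [norm_neg] at hy'2
      linarith
    have hy'χ : S'.χ x y' = -v := hy'1
    have hΘy' : S'.χ x (Θ.f y') = 0 := by
      rw [hΘ2 y' hy'd, hy'χ, neg_add_cancel]
    have hΘy'd : dist x (Θ.f y') < r := by
      by_contra hcon
      push Not at hcon
      have h1 := hΘ1 _ hcon
      have h2 : Θ.f y' = y' := Θ.f.injective h1
      rw [h2] at hcon
      linarith
    have hΘb : Θ.f y' = x := by
      have h1 := (hch1 x (Θ.f y') x (by linarith) (by rw [dist_self]; exact hρc)).1
      have h2 : S'.P x (S'.e (Θ.f y') - S'.e x) = 0 := hΘy'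
      rw [h2, norm_zero] at h1
      have h3 : dist (Θ.f y') x ≤ 0 := by linarith
      exact dist_le_zero.1 h3
    have hb' : Θ.f.symm x = y' := by
      rw [Homeomorph.symm_apply_eq, hΘb]
    rw [hb'] at hbm
    -- after the perturbation
    have hC : ∀ i, i ≤ j → bk S2.f i y' = bk S'.f i y' := by
      intro i
      induction i with
      | zero => intro _; rfl
      | succ i ih =>
        intro hi
        rw [bk_succ', ih (by omega), hS2s, ← bk_succ']
        apply hΘs
        have h1 := hback y' (by linarith) (i + 1) (by omega) hi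
        linarith
    have hw : bk S2.f k y0 = bk S'.f j y' := by
      rw [hm, bk_add, hbm, hC j le_rfl]
    rw [hw] at hyq
    obtain ⟨a2, ha2, ha2'⟩ := hC2 _ hyq
    apply hv 0 (Set.mem_univ _) a2 ha2
    rw [ha2', fw_bk, ← hχ, hy'χ]
    simp

end Pool.MP85
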