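import Pool.Agent.Lib.MP_85e637_an.S2Defs
import Pool.Agent.Lib.MP_85e637_an.A01
import Pool.Agent.Lib.MP_85e637_an.C01
import Pool.Agent.Lib.MP_85e637_an.C05
import Pool.Agent.Lib.MP_85e637_an.F1
import Pool.Agent.Lib.MP_85e637_an.F4b
import Pool.Agent.Lib.MP_85e637_an.F6e
import Pool.Agent.Lib.MP_85e637_an.F7a
import Pool.Agent.Lib.MP_85e637_an.F7d
import Pool.Agent.Lib.MP_85e637_an.F7e

/-!
# Stage 2, F8a: the generic theorem
-/

open Filter Topology Set Metric Module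

namespace Pool.MP85
variable {d N : ℕ} {K : Type} [MetricSpace K] [CompactSpace K]


section Top
variable {Z : Type} [MetricSpace Z] [CompactSpace Z] {G : Z ≃ₜ Z} {F : Set Z} {ρ : ℝ}

lemma F8a_fw_mem {Z : Type} [MetricSpace Z] {G : Z ≃ₜ Z} {F : Set Z}
    (hinv : ∀ x, G x ∈ F ↔ x ∈ F) (n : ℕ) {x : Z} :
    fw G n x ∈ F ↔ x ∈ F := by
  induction n with
  | zero => rfl
  | succ n ih => rw [fw_succ', hinv, ih]

lemma F8a_bk_mem {Z : Type} [MetricSpace Z] {G : Z ≃ₜ Z} {F : Set Z}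
    (hinv : ∀ x, G x ∈ F ↔ x ∈ F) (n : ℕ) {x : Z} :
    bk G n x ∈ F ↔ x ∈ F := by
  rw [← F8a_fw_mem hinv n, fw_bk]

lemma F8a_bk_fw_sub {Z : Type} [MetricSpace Z] {G : Z ≃ₜ Z} {n m : ℕ} (h : n ≤ m) (x : Z) :
    bk G n (fw G m x) = fw G (m - n) x := by
  have h1 : fw G m x = fw G n (fw G (m - n) x) := by
    rw [← fw_add, Nat.add_sub_cancel' h]
  rw [h1, bk_fw]

/-- uniform contraction of the local stable sets of finitely many points -/
lemma F8a_unif (hF : F.Finite) (hinv : ∀ x, G x ∈ F ↔ x ∈ F)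
    (hexp : ∀ p ∈ F, ∀ y, y ∈ WSl G ρ p → y ∈ WUl G ρ p → y = p) {ε : ℝ} (hε : 0 < ε) :
    ∃ M : ℕ, ∀ m ≥ M, ∀ p ∈ F, ∀ z ∈ WSl G ρ p, dist (fw G m p) (fw G m z) < ε := by
  by_contra hcon
  push Not at hcon
  choose m hm p hp z hz hd using hcon
  obtain ⟨⟨a, b⟩, -, φ, hφ, hlim⟩ := (isCompact_univ (X := Z × Z)).tendsto_subseq
    (x := fun M => (fw G (m M) (p M), fw G (m M) (z M))) (fun _ => mem_univ _)
  have hlim1 : Tendsto (fun j => fw G (m (φ j)) (p (φ j))) atTop (𝓝 a) :=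
    (continuous_fst.tendsto _).comp hlim
  have hlim2 : Tendsto (fun j => fw G (m (φ j)) (z (φ j))) atTop (𝓝 b) :=
    (continuous_snd.tendsto _).comp hlim
  have ha : a ∈ F := hF.isClosed.mem_of_tendsto hlim1
    (Eventually.of_forall fun j => (F8a_fw_mem hinv _).2 (hp _))
  have hab : ε ≤ dist a b :=
    ge_of_tendsto (hlim1.dist hlim2) (Eventually.of_forall fun j => hd _)
  have hs : b ∈ WSl G ρ a := by
    intro n
    refine le_of_tendsto ((((continuous_fw n).tendsto a).comp hlim1).dist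
      (((continuous_fw n).tendsto b).comp hlim2)) (Eventually.of_forall fun j => ?_)
    change dist (fw G n (fw G (m (φ j)) (p (φ j)))) (fw G n (fw G (m (φ j)) (z (φ j)))) ≤ ρ
    rw [← fw_add, ← fw_add]
    exact hz _ _
  have hu : b ∈ WUl G ρ a := by
    intro n
    refine le_of_tendsto ((((continuous_bk n).tendsto a).comp hlim1).dist
      (((continuous_bk n).tendsto b).comp hlim2)) ?_
    filter_upwards [eventually_ge_atTop n] with j hj
    have h1 : n ≤ m (φ j) := hj.trans ((hφ.id_le j).trans (hm (φ j)))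
    change dist (bk G n (fw G (m (φ j)) (p (φ j)))) (bk G n (fw G (m (φ j)) (z (φ j)))) ≤ ρ
    rw [F8a_bk_fw_sub h1, F8a_bk_fw_sub h1]
    exact hz _ _
  have := hexp a ha b hs hu
  rw [this, dist_self] at hab
  exact absurd hab (not_le.2 hε)

lemma F8a_sub (hF : F.Finite) (hinv : ∀ x, G x ∈ F ↔ x ∈ F)
    (hexp : ∀ p ∈ F, ∀ y, y ∈ WSl G ρ p → y ∈ WUl G ρ p → y = p) {p : Z} (hp : p ∈ F) :
    WSl G ρ p ⊆ WS G p := by
  intro z hz
  change Tendsto _ _ _
  rw [Metric.tendsto_atTop]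
  intro ε hε
  obtain ⟨M, hM⟩ := F8a_unif hF hinv hexp hε
  refine ⟨M, fun m hm => ?_⟩
  rw [Real.dist_eq, sub_zero, abs_of_nonneg dist_nonneg]
  exact hM m hm p hp z hz

lemma F8a_near (hF : F.Finite) (hinv : ∀ x, G x ∈ F ↔ x ∈ F)
    (hexp : ∀ p ∈ F, ∀ y, y ∈ WSl G ρ p → y ∈ WUl G ρ p → y = p) {p z0 : Z} (hp : p ∈ F)
    (hz0 : z0 ∈ WSl G ρ p) {ε : ℝ} (hε : 0 < ε) :
    ∀ᶠ z in 𝓝 z0, z ∈ WSl G ρ p → z ∈ WSl G ε z0 := by
  obtain ⟨M, hM⟩ := F8a_unif hF hinv hexp (half_pos hε)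
  have h1 : ∀ m ∈ Finset.range M, ∀ᶠ z in 𝓝 z0, dist (fw G m z0) (fw G m z) < ε := by
    intro m _
    have h2 : Tendsto (fun z => dist (fw G m z0) (fw G m z)) (𝓝 z0) (𝓝 0) := by
      have := (tendsto_const_nhds (x := fw G m z0)).dist ((continuous_fw (F := G) m).tendsto z0)
      rwa [dist_self] at this
    exact h2.eventually (gt_mem_nhds hε)
  filter_upwards [(Filter.eventually_all_finset (Finset.range M)).2 h1] with z hz hzρ m
  rcases lt_or_ge m M with hm | hm
  · exact (hz m (Finset.mem_range.2 hm)).le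
  · have h3 := hM m hm p hp z hzρ
    have h4 := hM m hm p hp z0 hz0
    calc dist (fw G m z0) (fw G m z)
        ≤ dist (fw G m z0) (fw G m p) + dist (fw G m p) (fw G m z) := dist_triangle _ _ _
      _ ≤ ε := by rw [dist_comm (fw G m z0)]; linarith

/-- a leaf-open piece of a stable leaf contained in an unstable set gives a relatively open piece of a
local stable set which is mapped into a local unstable set by an iterate -/
lemma F8a_top (hρ : 0 < ρ) (hF : F.Finite) (hinv : ∀ x, G x ∈ F ↔ x ∈ F)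
    (hexp : ∀ p ∈ F, ∀ y, y ∈ WSl G ρ p → y ∈ WUl G ρ p → y = p) {p q : Z} (hp : p ∈ F)
    (hne : ∀ r > 0, ∃ y ∈ WSl G r p, y ≠ p)
    (J : Set (ULeaf G.symm p)) (hJ : IsOpen J) (hJne : J.Nonempty)
    (hJq : ∀ y ∈ J, y.val ∈ WU G q) :
    ∃ n k : ℕ, ∃ I ∈ TopologicalSpace.countableBasis Z,
      (∃ y ∈ I ∩ WSl G ρ (fw G n p), y ≠ fw G n p) ∧
      ∀ y ∈ I ∩ WSl G ρ (fw G n p), bk G k y ∈ WUl G ρ (bk G k (fw G n q)) := by
  -- a point of `J` different from `p`
  obtain ⟨y0, hy0J, hy0p⟩ : ∃ y0 ∈ J, y0.val ≠ p := by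
    obtain ⟨y, hy⟩ := hJne
    by_cases hyp : y.val = p
    · obtain ⟨r, hr, hball⟩ := Metric.isOpen_iff.1 hJ y hy
      obtain ⟨z, hz, hzp⟩ := hne (min (r / 2) ρ) (lt_min (half_pos hr) hρ)
      have hz1 : z ∈ WSl G ρ p := fun n => (hz n).trans (min_le_right _ _)
      have hz2 : z ∈ WS G p := F8a_sub hF hinv hexp hp hz1
      refine ⟨⟨z, hz2⟩, hball ?_, hzp⟩
      rw [mem_ball, dist_comm]
      refine lt_of_le_of_lt ?_ (half_lt_self hr)
      rw [ULeaf.dist_le_iff, hyp]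
      exact fun n => (hz n).trans (min_le_left _ _)
    · exact ⟨y, hy, hyp⟩
  obtain ⟨r, hr, hball⟩ := Metric.isOpen_iff.1 hJ y0 hy0J
  -- push forward
  have hlim : Tendsto (fun n => dist (fw G n p) (fw G n y0.val)) atTop (𝓝 0) := y0.prop
  obtain ⟨n, hn⟩ := (eventually_atTop.1 (hlim.eventually (gt_mem_nhds hρ)))
  set p' := fw G n p with hp'
  set z0 := fw G n y0.val with hz0def
  have hp'F : p' ∈ F := (F8a_fw_mem hinv n).2 hp
  have hz0 : z0 ∈ WSl G ρ p' := by
    intro m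
    rw [hp', hz0def, ← fw_add, ← fw_add]
    exact (hn _ (by omega)).le
  have hz0p : z0 ≠ p' := by
    intro h
    apply hy0p
    have := congrArg (bk G n) h
    rwa [hz0def, hp', bk_fw, bk_fw] at this
  have hr2 := half_pos hr
  have e1 := F8a_near hF hinv hexp hp'F hz0 hr2
  have e2 : ∀ᶠ z in 𝓝 z0, ∀ i ∈ Finset.range (n + 1), dist (bk G i z0) (bk G i z) < r / 2 := by
    refine (Filter.eventually_all_finset (Finset.range (n + 1))).2 fun i _ => ?_
    have h2 : Tendsto (fun z => dist (bk G i z0) (bk G i z)) (𝓝 z0) (𝓝 0) := by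
      have := (tendsto_const_nhds (x := bk G i z0)).dist ((continuous_bk (F := G) i).tendsto z0)
      rwa [dist_self] at this
    exact h2.eventually (gt_mem_nhds hr2)
  have e3 : ∀ᶠ z in 𝓝 z0, z ≠ p' := isOpen_ne.mem_nhds hz0p
  obtain ⟨U, hU, hUo, hz0U⟩ := _root_.eventually_nhds_iff.1 (e1.and (e2.and e3))
  -- all points of `U ∩ WSl ρ p'` are in the unstable set of `fw n q`
  have hWU : ∀ z ∈ U, z ∈ WSl G ρ p' → z ∈ WU G (fw G n q) := by
    intro z hzU hz
    obtain ⟨h1, h2, -⟩ := hU z hzU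
    have h1 := h1 hz
    have hys : bk G n z ∈ WS G p := by
      have h3 : z ∈ WS G p' := F8a_sub hF hinv hexp hp'F hz
      have h4 : z ∈ WU G.symm p' := h3
      have h5 := (wu_fw (F := G.symm) (x := p') (y := z) n).2 h4
      have h6 : fw G.symm n p' = p := by
        change bk G n p' = p
        rw [hp', bk_fw]
      rw [h6] at h5
      exact h5
    have h7 : (⟨bk G n z, hys⟩ : ULeaf G.symm p) ∈ J := by
      refine hball ?_
      rw [mem_ball, dist_comm]
      refine lt_of_le_of_lt ?_ (half_lt_self hr)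
      rw [ULeaf.dist_le_iff]
      intro m
      change dist (fw G m y0.val) (fw G m (bk G n z)) ≤ r / 2
      rcases Nat.lt_or_ge m n with hm | hm
      · have h8 : fw G m y0.val = bk G (n - m) z0 := by
          rw [hz0def, F8a_bk_fw_sub (Nat.sub_le n m)]
          congr 1
          omega
        have h9 : fw G m (bk G n z) = bk G (n - m) z := by
          have : n = m + (n - m) := by omega
          rw [this, bk_add, fw_bk]
          congr 1
          omega
        rw [h8, h9]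
        exact (h2 (n - m) (Finset.mem_range.2 (by omega))).le
      · have h8 : fw G m y0.val = fw G (m - n) z0 := by
          rw [hz0def, ← fw_add]
          congr 1
          omega
        have h9 : fw G m (bk G n z) = fw G (m - n) z := by
          have : m = (m - n) + n := by omega
          rw [this, fw_add, fw_bk]
          congr 1
          omega
        rw [h8, h9]
        exact h1 (m - n)
    have h8 := hJq _ h7
    have h9 := (wu_fw (F := G) n).2 h8
    rwa [fw_bk] at h9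
  -- Baire
  have hcl : IsClosed (WSl G ρ p') := isClosed_wul' (F := G.symm)
  have hcpt : CompactSpace (WSl G ρ p') := isCompact_iff_compactSpace.1 hcl.isCompact
  let U' : Set (WSl G ρ p') := Subtype.val ⁻¹' U
  have hU' : IsOpen U' := hUo.preimage continuous_subtype_val
  let C : Option ℕ → Set (WSl G ρ p') := fun o => match o with
    | none => U'ᶜ
    | some k => {z | bk G k z.val ∈ WUl G ρ (bk G k (fw G n q))}
  have hC : ∀ o, IsClosed (C o) := by
    intro o
    cases o with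
    | none => exact hU'.isClosed_compl
    | some k => exact isClosed_wul'.preimage ((continuous_bk k).comp continuous_subtype_val)
  have hCU : (⋃ o, C o) = univ := by
    refine eq_univ_of_forall fun z => ?_
    by_cases hz : z ∈ U'
    · have h1 : z.val ∈ WU G (fw G n q) := hWU z.val hz z.2
      have h2 : Tendsto (fun m => dist (bk G m (fw G n q)) (bk G m z.val)) atTop (𝓝 0) := h1
      obtain ⟨k, hk⟩ := eventually_atTop.1 (h2.eventually (gt_mem_nhds hρ))
      refine mem_iUnion.2 ⟨some k, fun m => ?_⟩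
      rw [← bk_add, ← bk_add]
      exact (hk _ (by omega)).le
    · exact mem_iUnion.2 ⟨none, hz⟩
  have hdense := dense_iUnion_interior_of_closed hC hCU
  obtain ⟨x, hxU, hx⟩ := hdense.inter_open_nonempty U' hU' ⟨⟨z0, hz0⟩, hz0U⟩
  obtain ⟨o, ho⟩ := mem_iUnion.1 hx
  cases o with
  | none => exact absurd hxU (interior_subset ho)
  | some k =>
    have hO : IsOpen (U' ∩ interior (C (some k))) := hU'.inter isOpen_interior
    obtain ⟨V, hV, hVe⟩ := isOpen_induced_iff.1 hO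
    have hxV : x.val ∈ V := by
      have : x ∈ (Subtype.val ⁻¹' V : Set (WSl G ρ p')) := by
        rw [hVe]
        exact ⟨hxU, ho⟩
      exact this
    obtain ⟨I, hI, hxI, hIV⟩ := (TopologicalSpace.isBasis_countableBasis Z).exists_subset_of_mem_open
      hxV hV
    refine ⟨n, k, I, hI, ⟨x.val, ⟨hxI, x.2⟩, (hU x.val hxU).2.2⟩, ?_⟩
    rintro y ⟨hyI, hy⟩
    have h1 : (⟨y, hy⟩ : WSl G ρ p') ∈ (Subtype.val ⁻¹' V : Set (WSl G ρ p')) := hIV hyI
    rw [hVe] at h1
    have h2 : (⟨y, hy⟩ : WSl G ρ p') ∈ C (some k) := interior_subset h1.2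
    exact h2

/-- points of the local stable set of size `r` different from `p` -/
lemma F8a_exists {Z : Type} [MetricSpace Z] {G : Z ≃ₜ Z} {p : Z} {m : ℕ} (h : Exh m G.symm p)
    (hm : m = 1) {r : ℝ} (hr : 0 < r) : ∃ y ∈ WSl G r p, y ≠ p := by
  subst hm
  obtain ⟨ψ, hψ, -, hcov⟩ := h
  let p0 : ULeaf G.symm p := ⟨p, wu_self⟩
  have hp0 : p0 ∈ ⋃ n, range (ψ n) := by
    rw [hcov]
    exact mem_univ _
  obtain ⟨n, a, ha⟩ := mem_iUnion.1 hp0
  have hnt : Nontrivial (EuclideanSpace ℝ (Fin 1)) :=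
    Module.nontrivial_of_finrank_pos (R := ℝ) (by rw [finrank_euclideanSpace_fin]; exact one_pos)
  have hnb : (𝓝[≠] a).NeBot := Module.punctured_nhds_neBot ℝ _ a
  have h1 : ∀ᶠ b in 𝓝[≠] a, dist p0 (ψ n b) < r := by
    have h2 : Tendsto (fun b => dist p0 (ψ n b)) (𝓝 a) (𝓝 0) := by
      have := (tendsto_const_nhds (x := p0)).dist ((hψ n).continuous.tendsto a)
      rwa [ha, dist_self] at this
    exact (h2.mono_left nhdsWithin_le_nhds).eventually (gt_mem_nhds hr)
  obtain ⟨b, hb, hba⟩ := (h1.and self_mem_nhdsWithin).exists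
  refine ⟨(ψ n b).val, (ULeaf.dist_le_iff p0 (ψ n b) r).1 hb.le, fun h3 => hba ?_⟩
  have h4 : ψ n b = p0 := ULeaf.val_injective h3
  rw [← ha] at h4
  exact (hψ n).injective h4

end Top

/-- F8a: a generic system near `S` -/
theorem ESys.generic (S : ESys d N K) {F : Set K} {ρ : ℝ} (hH : S.toCoc.HypOn F) (h : PF S F ρ)
    {ε : ℝ} (hε : 0 < ε) :
    ∃ S', S.Near S' ε ∧ EqOn S'.f S.f (Wn F ρ) ∧ ∀ p ∈ F, ∀ q ∈ F, finrank ℝ (S.Es p) = 1 →
      (2 ≤ finrank ℝ (S.Es q) → Disjoint (WS S'.f p) (WU S'.f q)) ∧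
      (1 ≤ finrank ℝ (S.Es q) → ∀ J : Set (ULeaf S'.f.symm p), IsOpen J → J.Nonempty →
        ∃ y ∈ J, y.val ∉ WU S'.f q) := by
  have hcF : Countable F := h.fin.countable.to_subtype
  have hcB : Countable (TopologicalSpace.countableBasis K) :=
    (TopologicalSpace.countable_countableBasis K).to_subtype
  obtain ⟨g, hg⟩ := exists_surjective_nat (ℕ ⊕ (F × F × (TopologicalSpace.countableBasis K) × ℕ))
  let P : (ℕ ⊕ (F × F × (TopologicalSpace.countableBasis K) × ℕ)) → ESys d N K → Prop :=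
    fun i S' => match i with
    | Sum.inl k => EA S F ρ k S'
    | Sum.inr x => EB S F ρ x.1 x.2.1 x.2.2.1 x.2.2.2 S'
  have hPo : ∀ i S', P i S' → ∃ δ > 0, ∀ S'', S'.Near S'' δ → P i S'' := by
    intro i S' hi
    cases i with
    | inl k => exact h.EA_open k hi
    | inr x => exact h.EB_open _ _ _ _ hi
  have hPd : ∀ i S', S.Same S' → EqOn S'.f S.f (Wn F ρ) → ∀ δ > 0, ∃ S'', S'.Near S'' δ ∧
      EqOn S''.f S.f (Wn F ρ) ∧ P i S'' := by
    intro i S' hs he
    cases i with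
    | inl k => exact h.EA_dense k hs he
    | inr x => exact h.EB_dense _ _ _ _ hs he
  obtain ⟨S', hN, he, hE⟩ := S.baire (Wn F ρ) hε (fun n => P (g n))
    (fun n S' _ _ hn => by
      obtain ⟨δ, hδ, h1⟩ := hPo _ _ hn
      exact ⟨δ, hδ, fun S'' h2 _ => h1 S'' h2⟩)
    (fun n S' hN he => hPd _ _ hN.same he)
  have hP : ∀ i, P i S' := fun i => by
    obtain ⟨n, hn⟩ := hg i
    rw [← hn]
    exact hE n
  refine ⟨S', hN, he, ?_⟩
  have hFW : F ⊆ Wn F ρ := fun p hp => ⟨p, hp, by rw [dist_self]; exact h.pos.le⟩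
  have hinv : ∀ x, S'.f x ∈ F ↔ x ∈ F := by
    intro x
    constructor
    · intro hx
      have h1 : S.f (S.f.symm (S'.f x)) ∈ F := by
        rw [Homeomorph.apply_symm_apply]
        exact hx
      have h2 := (h.inv _).1 h1
      have h3 := he (hFW h2)
      rw [Homeomorph.apply_symm_apply] at h3
      rw [← S'.f.injective h3]
      exact h2
    · intro hx
      rw [he (hFW hx)]
      exact (h.inv x).2 hx
  have hwl := fun p (hp : p ∈ F) => h.wl he hp
  have hexp : ∀ p ∈ F, ∀ y, y ∈ WSl S'.f ρ p → y ∈ WUl S'.f ρ p → y = p := by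
    intro p hp y hy1 hy2
    rw [(hwl p hp).1] at hy1
    rw [(hwl p hp).2] at hy2
    exact h.exp p hp y hy1 hy2
  have hrk : ∀ n, ∀ p ∈ F, finrank ℝ (S.Es (fw S'.f n p)) = finrank ℝ (S.Es p) := by
    intro n p hp
    induction n with
    | zero => rfl
    | succ n ih =>
      rw [fw_succ', he (hFW ((F8a_fw_mem hinv n).2 hp)), S.toCoc.finrank_Es_f, ih]
  have hrk' : ∀ n, ∀ p ∈ F, finrank ℝ (S.Es (bk S'.f n p)) = finrank ℝ (S.Es p) := by
    intro n p hp
    have := hrk n (bk S'.f n p) ((F8a_bk_mem hinv n).2 hp)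
    rw [fw_bk] at this
    exact this.symm
  intro p hp q hq hp1
  refine ⟨fun hq2 => ?_, fun hq1 J hJ hJne => ?_⟩
  · rw [Set.disjoint_left]
    intro y hy1 hy2
    have hy1' : Tendsto (fun n => dist (fw S'.f n p) (fw S'.f n y)) atTop (𝓝 0) := hy1
    have hy2' : Tendsto (fun n => dist (bk S'.f n q) (bk S'.f n y)) atTop (𝓝 0) := hy2
    obtain ⟨n, hn⟩ := eventually_atTop.1 (hy1'.eventually (gt_mem_nhds h.pos))
    obtain ⟨m, hm⟩ := eventually_atTop.1 (hy2'.eventually (gt_mem_nhds h.pos))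
    have hA : EA S F ρ (n + m) S' := hP (Sum.inl (n + m))
    have hpF := (F8a_fw_mem hinv n).2 hp
    have hqF := (F8a_bk_mem hinv m).2 hq
    refine hA (fw S'.f n p) hpF (bk S'.f m q) hqF (by rw [hrk n p hp, hp1])
      (by rw [hrk' m q hq]; exact hq2) (bk S'.f m y) ?_ ?_
    · rw [← (hwl _ hqF).2]
      intro i
      rw [← bk_add, ← bk_add]
      exact (hm _ (by omega)).le
    · rw [← (hwl _ hpF).1, fw_add, fw_bk]
      intro i
      rw [← fw_add, ← fw_add]
      exact (hn _ (by omega)).le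
  · by_contra hcon
    push Not at hcon
    have hne : ∀ r > 0, ∃ y ∈ WSl S'.f r p, y ≠ p := by
      intro r hr
      obtain ⟨y, hy, hyp⟩ := F8a_exists (ESys.exh_per S hH h.fin hp) hp1 (lt_min hr h.pos)
      refine ⟨y, ?_, hyp⟩
      have h1 : ∀ n, fw S'.f n y = fw S.f n y ∧ fw S'.f n p = fw S.f n p := by
        intro n
        induction n with
        | zero => exact ⟨rfl, rfl⟩
        | succ n ih =>
          have h2 : fw S.f n p ∈ F := (F8a_fw_mem h.inv n).2 hp
          have h3 : fw S.f n y ∈ Wn F ρ := ⟨_, h2, (hy n).trans (min_le_right _ _)⟩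
          rw [fw_succ', fw_succ', fw_succ', fw_succ', ih.1, ih.2, he h3, he (hFW h2)]
          exact ⟨rfl, rfl⟩
      intro n
      rw [(h1 n).1, (h1 n).2]
      exact (hy n).trans (min_le_left _ _)
    obtain ⟨n, k, I, hI, hI1, hI2⟩ := F8a_top h.pos h.fin hinv hexp hp hne J hJ hJne hcon
    have hpF := (F8a_fw_mem hinv n).2 hp
    have hqF : bk S'.f k (fw S'.f n q) ∈ F := (F8a_bk_mem hinv k).2 ((F8a_fw_mem hinv n).2 hq)
    have hB : EB S F ρ (fw S'.f n p) (bk S'.f k (fw S'.f n q)) I k S' :=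
      hP (Sum.inr (⟨_, hpF⟩, ⟨_, hqF⟩, ⟨I, hI⟩, k))
    rw [(hwl _ hpF).1] at hI1 hI2
    obtain ⟨y, hy, hy2⟩ := hB hpF hqF (by rw [hrk n p hp, hp1])
      (by rw [hrk' k _ ((F8a_fw_mem hinv n).2 hq), hrk n q hq]; exact hq1)
      (TopologicalSpace.isOpen_of_mem_countableBasis hI) hI1
    apply hy2
    rw [← (hwl _ hqF).2]
    exact hI2 y hy

end Pool.MP85
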