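import Pool.Agent.Lib.MP_85e637_an.S2Defs
import Pool.Agent.Lib.MP_85e637_an.A01
import Pool.Agent.Lib.MP_85e637_an.C01
import Pool.Agent.Lib.MP_85e637_an.C05
import Pool.Agent.Lib.MP_85e637_an.F6a
import Pool.Agent.Lib.MP_85e637_an.F6b
import Pool.Agent.Lib.MP_85e637_an.F6d
import Pool.Agent.Lib.MP_85e637_an.F6e
import Pool.Agent.Lib.MP_85e637_an.F6f
import Pool.Agent.Lib.MP_85e637_an.F6g
import Pool.Agent.Lib.MP_85e637_an.F8a

/-!
# Stage 2, F8b: consequences of structural stability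
-/

open Filter Topology Set Metric Module

namespace Pool.MP85
variable {d N : ℕ} {K : Type} [MetricSpace K] [CompactSpace K]


lemma F8b_fw {Z : Type} [MetricSpace Z] {G G' h : Z ≃ₜ Z} (hc : ∀ x, h (G x) = G' (h x)) (n : ℕ)
    (x : Z) : h (fw G n x) = fw G' n (h x) := by
  induction n with
  | zero => rfl
  | succ n ih => rw [fw_succ', fw_succ', hc, ih]

lemma F8b_symm {Z : Type} [MetricSpace Z] {G G' h : Z ≃ₜ Z} (hc : ∀ x, h (G x) = G' (h x)) (x : Z) :
    h (G.symm x) = G'.symm (h x) := by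
  apply G'.injective
  rw [Homeomorph.apply_symm_apply, ← hc, Homeomorph.apply_symm_apply]

lemma F8b_fix {Z : Type} [MetricSpace Z] {G G' h : Z ≃ₜ Z} (hc : ∀ x, h (G x) = G' (h x)) {k : ℕ}
    (hF : {x | fw G k x = x}.Finite) (hsub : ∀ x, fw G k x = x → fw G' k x = x) (x : Z) :
    h x ∈ {x | fw G k x = x} ↔ x ∈ {x | fw G k x = x} := by
  set F := {x | fw G k x = x} with hFdef
  have h1 : F ⊆ h '' F := by
    intro z hz
    refine ⟨h.symm z, ?_, h.apply_symm_apply z⟩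
    change fw G k (h.symm z) = h.symm z
    apply h.injective
    rw [F8b_fw hc, h.apply_symm_apply]
    exact hsub z hz
  have h2 : F = h '' F := by
    refine Set.eq_of_subset_of_ncard_le h1 ?_ (hF.image _)
    rw [Set.ncard_image_of_injective F h.injective]
  constructor
  · intro hx
    rw [h2] at hx
    obtain ⟨y, hy, hyx⟩ := hx
    rwa [← h.injective hyx]
  · intro hx
    rw [h2]
    exact ⟨x, hx, rfl⟩

lemma F8b_ws {G G' h : K ≃ₜ K} (hc : ∀ x, h (G x) = G' (h x)) {x y : K} (hy : y ∈ WS G x) :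
    h y ∈ WS G' (h x) := by
  have hy' : Tendsto (fun n => dist (fw G n x) (fw G n y)) atTop (𝓝 0) := hy
  change Tendsto (fun n => dist (fw G' n (h x)) (fw G' n (h y))) atTop (𝓝 0)
  rw [Metric.tendsto_atTop] at hy' ⊢
  intro ε hε
  obtain ⟨δ, hδ, h1⟩ := Metric.uniformContinuous_iff.1
    (CompactSpace.uniformContinuous_of_continuous h.continuous) ε hε
  obtain ⟨M, hM⟩ := hy' δ hδ
  refine ⟨M, fun n hn => ?_⟩
  have h2 := hM n hn
  rw [Real.dist_eq, sub_zero, abs_of_nonneg dist_nonneg] at h2 ⊢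
  rw [← F8b_fw hc, ← F8b_fw hc]
  exact h1 h2

lemma F8b_wu {G G' h : K ≃ₜ K} (hc : ∀ x, h (G x) = G' (h x)) {x y : K} (hy : y ∈ WU G x) :
    h y ∈ WU G' (h x) :=
  F8b_ws (G := G.symm) (G' := G'.symm) (F8b_symm hc) hy

lemma F8b_type {G G' h : K ≃ₜ K} (hc : ∀ x, h (G x) = G' (h x)) {x : K} {a b : ℕ}
    (ha : Exh a G.symm x) (hb : Exh b G'.symm (h x)) : (a = 1 → b = 1) ∧ (2 ≤ a → 2 ≤ b) := by
  obtain ⟨H, hH⟩ := leaf_conj (G := G.symm) (G' := G'.symm) (F8b_symm hc) x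
  obtain ⟨ha0, ha1, ha2⟩ := exh_type ha
  obtain ⟨hb0, hb1, hb2⟩ := exh_type hb
  have hAB : H '' {z : ULeaf G.symm x | z.val ≠ x} = {z : ULeaf G'.symm (h x) | z.val ≠ h x} := by
    ext z
    constructor
    · rintro ⟨y, hy, rfl⟩
      change (H y).val ≠ h x
      rw [hH]
      exact fun h1 => hy (h.injective h1)
    · intro hz
      refine ⟨H.symm z, ?_, H.apply_symm_apply z⟩
      change (H.symm z).val ≠ x
      intro h1
      apply hz
      have h2 := hH (H.symm z)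
      rw [H.apply_symm_apply, h1] at h2
      exact h2
  have hpre : IsPreconnected {z : ULeaf G.symm x | z.val ≠ x} ↔
      IsPreconnected {z : ULeaf G'.symm (h x) | z.val ≠ h x} := by
    rw [← hAB]
    exact H.isPreconnected_image.symm
  have hnon : {z : ULeaf G.symm x | z.val ≠ x}.Nonempty →
      {z : ULeaf G'.symm (h x) | z.val ≠ h x}.Nonempty := by
    intro h1
    rw [← hAB]
    exact h1.image _
  have hb0' : b = 0 → {z : ULeaf G'.symm (h x) | z.val ≠ h x} = ∅ := by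
    intro h1
    refine eq_empty_of_forall_notMem fun z hz => hz (hb0 h1 z)
  constructor
  · intro h1
    have h2 := ha1 h1
    rw [hpre] at h2
    rcases Nat.lt_or_ge b 2 with h3 | h3
    · interval_cases b
      · exact absurd (by rw [hb0' rfl]; exact isPreconnected_empty) h2
      · rfl
    · exact absurd (hb2 h3).1 h2
  · intro h1
    obtain ⟨h2, h3⟩ := ha2 h1
    rw [hpre] at h2
    have h4 := hnon h3
    by_contra h5
    have h6 : b < 2 := by omega
    interval_cases b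
    · rw [hb0' rfl] at h4
      exact absurd h4 not_nonempty_empty
    · exact hb1 rfl h2

/-- F8b: consequences of structural stability for all systems near `S` which coincide with `S` near
the periodic points -/
theorem BSys.gen (S : BSys d N K) {ε : ℝ} (hε : 0 < ε) (hSS : S.SSε ε) {k : ℕ} (hk : 0 < k)
    {W : Set K} (hW : W ∈ 𝓝ˢ {x | fw S.f k x = x}) {S' : ESys d N K} (hN : S.Near S' ε)
    (he : EqOn S'.f S.f W) {p q : K} (hp : fw S.f k p = p) (hq : fw S.f k q = q)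
    (hp1 : finrank ℝ (S.Es p) = 1) :
    (2 ≤ finrank ℝ (S.Es q) → Disjoint (WS S'.f p) (WU S'.f q)) ∧
    (1 ≤ finrank ℝ (S.Es q) → ∀ J : Set (ULeaf S'.f.symm p), IsOpen J → J.Nonempty →
      ∃ y ∈ J, y.val ∉ WU S'.f q) := by
  obtain ⟨hFf, -, hH⟩ := S.fix_fin hk
  obtain ⟨ρ0, hρ0, hpf⟩ := S.toESys.exists_pf hH hFf
  have hPF := hpf ρ0 hρ0 le_rfl
  obtain ⟨S'', hN2, he2, hgen⟩ := S.toESys.generic hH hPF hε
  obtain ⟨h1, hh1⟩ := hSS S' hN
  obtain ⟨h2, hh2⟩ := hSS S'' hN2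
  set F := {x | fw S.f k x = x} with hFdef
  have hW2 : Wn F ρ0 ∈ 𝓝ˢ F := by
    rw [mem_nhdsSet_iff_forall]
    intro x hx
    refine mem_of_superset (closedBall_mem_nhds x hρ0) fun y hy => ⟨x, hx, ?_⟩
    rw [dist_comm]
    exact hy
  have hfixT : ∀ (T : ESys d N K) (W' : Set K), F ⊆ W' → EqOn T.f S.f W' → ∀ x, fw S.f k x = x →
      fw T.f k x = x := by
    intro T W' hFW hT x hx
    have h3 : ∀ n, fw T.f n x = fw S.f n x := by
      intro n
      induction n with
      | zero => rfl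
      | succ n ih =>
        rw [fw_succ', fw_succ', ih]
        refine hT (hFW ?_)
        change fw S.f k (fw S.f n x) = fw S.f n x
        rw [← fw_add, add_comm, fw_add, hx]
    rw [h3 k, hx]
  have hF1 := F8b_fix hh1 hFf (hfixT S' W (subset_of_mem_nhdsSet hW) he)
  have hF2 := F8b_fix hh2 hFf (hfixT S'' _ (subset_of_mem_nhdsSet hW2) he2)
  -- the conjugation from `S'` to `S''`
  set h : K ≃ₜ K := h1.symm.trans h2 with hh
  have hc : ∀ x, h (S'.f x) = S''.f (h x) := by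
    intro x
    change h2 (h1.symm (S'.f x)) = S''.f (h2 (h1.symm x))
    rw [← hh2]
    congr 1
    apply h1.injective
    rw [h1.apply_symm_apply, hh1, h1.apply_symm_apply]
  have hF : ∀ x, x ∈ F → h x ∈ F := by
    intro x hx
    change h2 (h1.symm x) ∈ F
    rw [hF2, ← hF1, h1.apply_symm_apply]
    exact hx
  obtain ⟨hH', hE'⟩ := ESys.hypOn_congr hN.same hH hW he
  obtain ⟨hH'', hE''⟩ := ESys.hypOn_congr hN2.same hH hW2 he2
  have htype : ∀ x ∈ F, (finrank ℝ (S.Es x) = 1 → finrank ℝ (S.Es (h x)) = 1) ∧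
      (2 ≤ finrank ℝ (S.Es x) → 2 ≤ finrank ℝ (S.Es (h x))) := by
    intro x hx
    have e1 := ESys.exh_per S' hH' hFf hx
    have e2 := ESys.exh_per S'' hH'' hFf (hF x hx)
    rw [(hE' x hx).1] at e1
    rw [(hE'' _ (hF x hx)).1] at e2
    exact F8b_type hc e1 e2
  have hpF : p ∈ F := hp
  have hqF : q ∈ F := hq
  obtain ⟨g1, g2⟩ := hgen (h p) (hF p hpF) (h q) (hF q hqF) ((htype p hpF).1 hp1)
  refine ⟨fun hq2 => ?_, fun hq1 J hJ hJne => ?_⟩
  · rw [Set.disjoint_left]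
    intro y hy1 hy2
    exact Set.disjoint_left.1 (g1 ((htype q hqF).2 hq2)) (F8b_ws hc hy1) (F8b_wu hc hy2)
  · have hq3 : 1 ≤ finrank ℝ (S.Es (h q)) := by
      rcases Nat.lt_or_ge (finrank ℝ (S.Es q)) 2 with h3 | h3
      · have := (htype q hqF).1 (by omega)
        omega
      · have := (htype q hqF).2 h3
        omega
    obtain ⟨H, hHv⟩ := leaf_conj (G := S'.f.symm) (G' := S''.f.symm) (F8b_symm hc) p
    obtain ⟨y', hy', hy'2⟩ := g2 hq3 (H '' J) (H.isOpenMap J hJ) (hJne.image _)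
    obtain ⟨y, hy, rfl⟩ := hy'
    refine ⟨y, hy, fun h3 => hy'2 ?_⟩
    rw [hHv]
    exact F8b_wu hc h3

end Pool.MP85
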