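import Pool.Agent.Lib.MP_85e637_an.AbsC

/-!
# Stage 2, definitions: perturbations of embedded systems, structural stability
-/

open Filter Topology Set Metric Module

namespace Pool.MP85
variable {d N : ℕ} {K : Type} [MetricSpace K] [CompactSpace K]

namespace ESys

/-- two diffeomorphisms of the same embedded manifold -/
structure Same (S S' : ESys d N K) : Prop where
  e : S'.e = S.e
  P : S'.P = S.P

/-- `C¹`-closeness (including the inverse maps) -/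
structure Near (S S' : ESys d N K) (ε : ℝ) : Prop where
  same : S.Same S'
  f : ∀ x, dist (S.f x) (S'.f x) < ε
  f' : ∀ x, dist (S.f.symm x) (S'.f.symm x) < ε
  A : ∀ x, ‖S.A x - S'.A x‖ < ε
  A' : ∀ x, ‖S.A' x - S'.A' x‖ < ε

/-- all diffeomorphisms `ε`-close to `S` are conjugate to `S` -/
def SSε (S : ESys d N K) (ε : ℝ) : Prop :=
  ∀ S' : ESys d N K, S.Near S' ε → ∃ h : K ≃ₜ K, ∀ x, h (S.f x) = S'.f (h x)

/-- closeness to the identity -/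
structure IdNear (Θ : ESys d N K) (ε : ℝ) : Prop where
  f : ∀ y, dist y (Θ.f y) < ε
  f' : ∀ y, dist y (Θ.f.symm y) < ε
  A : ∀ y, ‖Θ.A y - Θ.P y‖ < ε
  A' : ∀ y, ‖Θ.A' y - Θ.P y‖ < ε

/-- local coordinates at `x` -/
noncomputable def χ (S : ESys d N K) (x y : K) : EE N := S.P x (S.e y - S.e x)

end ESys

/-- Finite hyperbolic invariant set (periodic orbits) with local manifolds of size `ρ`. -/
structure PF (S : ESys d N K) (F : Set K) (ρ : ℝ) : Prop where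
  pos : 0 < ρ
  fin : F.Finite
  inv : ∀ x, S.f x ∈ F ↔ x ∈ F
  sep0 : ∀ p ∈ F, ∀ p' ∈ F, ∀ y, dist p y ≤ ρ → dist p' y ≤ ρ → p = p'
  sep : ∀ p ∈ F, ∀ p' ∈ F, ∀ y, dist p y ≤ ρ → dist p' (S.f y) ≤ ρ → p' = S.f p
  exp : ∀ p ∈ F, ∀ y, y ∈ WSl S.f ρ p → y ∈ WUl S.f ρ p → y = p
  sub_s : ∀ p ∈ F, WSl S.f ρ p ⊆ WS S.f p
  sub_u : ∀ p ∈ F, WUl S.f ρ p ⊆ WU S.f p
  rank : ∀ p ∈ F, finrank ℝ (S.Es p) + finrank ℝ (S.Eu p) = d
  lip_s : ∀ p ∈ F, ∃ (C : Set (EE (finrank ℝ (S.Es p)))) (φ : EE (finrank ℝ (S.Es p)) → EE N)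
    (c : NNReal), LipschitzOnWith c φ C ∧ S.e '' WSl S.f ρ p ⊆ φ '' C
  lip_u : ∀ p ∈ F, ∃ (C : Set (EE (finrank ℝ (S.Eu p)))) (φ : EE (finrank ℝ (S.Eu p)) → EE N)
    (c : NNReal), LipschitzOnWith c φ C ∧ S.e '' WUl S.f ρ p ⊆ φ '' C

/-- the `ρ`-neighbourhood of `F` -/
def Wn (F : Set K) (ρ : ℝ) : Set K := {x | ∃ p ∈ F, dist p x ≤ ρ}

/-- no connection of length `k` from a point with `s ≥ 2` to a point with `s = 1` -/
def EA (S : ESys d N K) (F : Set K) (ρ : ℝ) (k : ℕ) (S' : ESys d N K) : Prop :=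
  ∀ p ∈ F, ∀ q ∈ F, finrank ℝ (S.Es p) = 1 → 2 ≤ finrank ℝ (S.Es q) →
    ∀ u ∈ WUl S.f ρ q, fw S'.f k u ∉ WSl S.f ρ p

/-- the unstable manifold of `q` (after `k` steps) does not contain the piece `I` of the stable
manifold of `p` -/
def EB (S : ESys d N K) (F : Set K) (ρ : ℝ) (p q : K) (I : Set K) (k : ℕ) (S' : ESys d N K) :
    Prop :=
  p ∈ F → q ∈ F → finrank ℝ (S.Es p) = 1 → 1 ≤ finrank ℝ (S.Es q) → IsOpen I →
    (∃ y ∈ I ∩ WSl S.f ρ p, y ≠ p) → ∃ y ∈ I ∩ WSl S.f ρ p, bk S'.f k y ∉ WUl S.f ρ q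

/-- `Γ` parametrises a disc which is `C¹`-close, at scale `r`, to the affine disc `x + range ι` -/
structure FlatDisc {k : ℕ} (S : ESys d N K) (x : K) (ι : EE k →ₗᵢ[ℝ] EE N) (Γ : EE k → K)
    (η r : ℝ) : Prop where
  diff : ContDiffOn ℝ 1 (fun a => S.e (Γ a)) (ball 0 r)
  graph : ∀ a ∈ ball (0 : EE k) r, ∀ b, inner ℝ (S.e (Γ a) - S.e x - ι a) (ι b) = 0
  near : ∀ a ∈ ball (0 : EE k) r, ‖S.e (Γ a) - S.e x - ι a‖ ≤ η * r
  deriv : ∀ a ∈ ball (0 : EE k) r, ∀ b,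
    ‖fderiv ℝ (fun a => S.e (Γ a)) a b - ι b‖ ≤ η * ‖b‖

namespace BSys
variable (S : BSys d N K)

/-- the part of `Om` with `s = j` -/
def Oj (j : ℕ) : Set K := {y | y ∈ S.Om ∧ finrank ℝ (S.Es y) = j}

/-- points whose forward orbit stays `δ`-close to `Oj` from time `n0` on -/
def RN (j : ℕ) (δ : ℝ) (n0 : ℕ) : Set K := {x | ∀ n ≥ n0, ∃ y ∈ S.Oj j, dist (fw S.f n x) y ≤ δ}

/-- the basin of `Λ` -/
def Bas (Λ : Set K) : Set K := {x | Tendsto (fun n => infDist (fw S.f n x) Λ) atTop (𝓝 0)}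

end BSys

end Pool.MP85
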