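import Pool.Agent.Lib.MP_85e637_an.C07
import Pool.Agent.Lib.MP_85e637_an.C09
import Pool.Agent.Lib.MP_85e637_an.C12
import Pool.Agent.Lib.MP_85e637_an.S2Defs

open Filter Topology Set Metric Module

namespace Pool.MP85
variable {d N : ℕ} {K : Type} [MetricSpace K] [CompactSpace K]

namespace BSys
variable (S : BSys d N K)

theorem N0b_bk_fw (n : ℕ) (x : K) : bk S.f n (fw S.f n x) = x := by
  have : Function.LeftInverse (S.f.symm : K → K) S.f := S.f.symm_apply_apply
  exact (this.iterate n) x

theorem N0b_fw_bk (n : ℕ) (x : K) : fw S.f n (bk S.f n x) = x := by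
  have : Function.LeftInverse (S.f : K → K) S.f.symm := S.f.apply_symm_apply
  exact (this.iterate n) x

/-- N0b: the inverse system -/
theorem exists_inv : ∃ S' : BSys d N K, S'.toESys = S.toESys.inv ∧ S'.Om = S.Om := by
  refine ⟨{ toESys := S.toESys.inv
            Om := S.Om
            Om_closed := S.Om_closed
            Om_inv := ?_
            Om_fw := fun x y h => S.Om_bk x y h
            Om_bk := fun x y h => S.Om_fw x y h
            Om_per := ?_
            hyp := ?_
            split := ?_
            wand := ?_ }, rfl, rfl⟩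
  · intro x
    have h := S.Om_inv (S.f.symm x)
    rw [S.f.apply_symm_apply] at h
    exact h.symm
  · intro y hy ε hε
    obtain ⟨q, hq, k, hk, hkq⟩ := S.Om_per y hy ε hε
    refine ⟨q, hq, k, hk, ?_⟩
    change bk S.f k q = q
    have h := N0b_bk_fw S k q
    rwa [hkq] at h
  · obtain ⟨c, lam, h0, h1, h⟩ := S.hyp
    refine ⟨c, lam, h0, h1, fun x hx => ⟨(h x hx).2, ?_⟩⟩
    intro v hv n
    have hv' : v ∈ S.Es x := by
      have : S.toCoc.symm.symm.Es x = S.Es x := by rw [Coc.symm_symm]
      rw [← this]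
      exact hv
    have h2 := (h x hx).1 v hv' n
    have h3 : S.toCoc.symm.symm.An n x v = S.An n x v := by rw [Coc.symm_symm]
    change ‖S.toCoc.symm.symm.An n x v‖ ≤ _
    rw [h3]
    exact h2
  · intro x hx
    obtain ⟨h1, h2⟩ := S.split x hx
    have h3 : S.toESys.inv.Eu x = S.Es x := by
      change S.toCoc.symm.symm.Es x = S.Es x
      rw [Coc.symm_symm]
    have h4 : S.toESys.inv.Es x = S.Eu x := rfl
    have h5 : S.toESys.inv.T x = S.T x := rfl
    rw [h3, h4, h5]
    exact ⟨by rw [sup_comm]; exact h1, h2.symm⟩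
  · intro x hx
    obtain ⟨ε, hε, h⟩ := S.wand x hx
    refine ⟨ε, hε, fun n hn y hy => ?_⟩
    change ε ≤ dist x (bk S.f n y)
    by_contra hc
    have h1 := h n hn (bk S.f n y) (not_le.mp hc)
    rw [N0b_fw_bk] at h1
    exact absurd hy (not_lt.mpr h1)

end BSys
end Pool.MP85
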