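import Pool.Agent.Lib.MP_85e637_an.C02

/-!
# N1: decay of forward bounded vectors over points asymptotic to an invariant set
-/

open Filter Topology Set Metric Module

namespace Pool.MP85
variable {N : ℕ} {K : Type} [MetricSpace K] [CompactSpace K]

namespace Coc

theorem N1_fw_mem (C : Coc N K) {R : Set K} (hR : ∀ x ∈ R, C.f x ∈ R) {x : K} (hx : x ∈ R)
    (n : ℕ) : fw C.f n x ∈ R := by
  induction n with
  | zero => simpa [fw] using hx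
  | succ n ih =>
    have : fw C.f (n + 1) x = C.f (fw C.f n x) := by
      simp [fw, Function.iterate_succ_apply']
    rw [this]
    exact hR _ ih

theorem N1_unif (C : Coc N K) {R Z : Set K}
    (hRZ : ∀ (x : ℕ → K) (m : ℕ → ℕ) (z : K), (∀ i, x i ∈ R) → Tendsto m atTop atTop →
      MapClusterPt z atTop (fun i => fw C.f (m i) (x i)) → z ∈ Z)
    (hN : ∀ x ∈ Z, ∀ v ∈ C.T x, (∃ c, ∀ n, ‖C.An n x v‖ ≤ c) →
      (∃ c, ∀ n, ‖C.symm.An n x v‖ ≤ c) → v = 0) (b : ℝ) :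
    ∃ n : ℕ, ∀ x ∈ R, ∀ m ≥ n, ∀ v ∈ C.T (fw C.f m x),
      (∀ k ≤ n, ‖C.An k (fw C.f m x) v‖ ≤ b * ‖v‖ ∧ ‖C.symm.An k (fw C.f m x) v‖ ≤ b * ‖v‖) →
        v = 0 := by
  by_contra hcon
  push Not at hcon
  choose x hxR m hm v hvT hv hv0 using hcon
  set q : ℕ → K × EE N := fun n => (fw C.f (m n) (x n), ‖v n‖⁻¹ • v n) with hq
  have hpos : ∀ n, 0 < ‖v n‖ := fun n => norm_pos_iff.2 (hv0 n)
  have hq1 : ∀ n, C.P (q n).1 (q n).2 = (q n).2 := by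
    intro n
    change C.P _ (‖v n‖⁻¹ • v n) = ‖v n‖⁻¹ • v n
    rw [map_smul, C.mem_T.1 (hvT n)]
  have hq2 : ∀ n, ‖(q n).2‖ = 1 := by
    intro n
    change ‖‖v n‖⁻¹ • v n‖ = 1
    rw [norm_smul, norm_inv, norm_norm, inv_mul_cancel₀ (hpos n).ne']
  have hq3 : ∀ n, ∀ k ≤ n, ‖C.An k (q n).1 (q n).2‖ ≤ b ∧ ‖C.symm.An k (q n).1 (q n).2‖ ≤ b := by
    intro n k hk
    obtain ⟨a1, a2⟩ := hv n k hk
    change ‖C.An k _ (‖v n‖⁻¹ • v n)‖ ≤ b ∧ ‖C.symm.An k _ (‖v n‖⁻¹ • v n)‖ ≤ b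
    rw [map_smul, map_smul, norm_smul, norm_smul, norm_inv, norm_norm,
      inv_mul_le_iff₀ (hpos n), inv_mul_le_iff₀ (hpos n), mul_comm ‖v n‖ b]
    exact ⟨a1, a2⟩
  have hcpt : IsCompact ((univ : Set K) ×ˢ closedBall (0 : EE N) 1) :=
    isCompact_univ.prod (isCompact_closedBall (0 : EE N) 1)
  obtain ⟨z, -, φ, hφ, hz⟩ := hcpt.tendsto_subseq (x := q) (fun n => ⟨mem_univ _, by
    rw [mem_closedBall_zero_iff]; exact (hq2 n).le⟩)
  have hz1 : Tendsto (fun i => fw C.f (m (φ i)) (x (φ i))) atTop (𝓝 z.1) :=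
    (continuous_fst.tendsto z).comp hz
  have hzZ : z.1 ∈ Z := by
    refine hRZ (fun i => x (φ i)) (fun i => m (φ i)) z.1 (fun i => hxR _) ?_ ?_
    · exact tendsto_atTop_mono (fun i => (hφ.id_le i).trans (hm (φ i))) tendsto_id
    · exact hz1.mapClusterPt
  have hzP : C.P z.1 z.2 = z.2 := by
    have hcl : IsClosed {q : K × EE N | C.P q.1 q.2 = q.2} :=
      isClosed_eq ((C.contP.comp continuous_fst).clm_apply continuous_snd) continuous_snd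
    exact hcl.mem_of_tendsto hz (Eventually.of_forall fun i => hq1 _)
  have hznorm : ‖z.2‖ = 1 := by
    have hcl : IsClosed {q : K × EE N | ‖q.2‖ = 1} :=
      isClosed_eq continuous_snd.norm continuous_const
    exact hcl.mem_of_tendsto hz (Eventually.of_forall fun i => hq2 _)
  have hzb : ∀ k, ‖C.An k z.1 z.2‖ ≤ b ∧ ‖C.symm.An k z.1 z.2‖ ≤ b := by
    intro k
    have hcl : IsClosed ({q : K × EE N | ‖C.An k q.1 q.2‖ ≤ b} ∩
        {q : K × EE N | ‖C.symm.An k q.1 q.2‖ ≤ b}) :=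
      (isClosed_le (C.C02_cont k).norm continuous_const).inter
        (isClosed_le (C.symm.C02_cont k).norm continuous_const)
    have := hcl.mem_of_tendsto hz (by
      filter_upwards [eventually_ge_atTop k] with i hi
      exact hq3 (φ i) k (hi.trans (hφ.id_le i)))
    exact this
  have h0 := hN z.1 hzZ z.2 (C.mem_T.2 hzP) ⟨b, fun n => (hzb n).1⟩ ⟨b, fun n => (hzb n).2⟩
  rw [h0, norm_zero] at hznorm
  exact zero_ne_one hznorm

theorem N1_kappa (C : Coc N K) {R Z : Set K}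
    (hRZ : ∀ (x : ℕ → K) (m : ℕ → ℕ) (z : K), (∀ i, x i ∈ R) → Tendsto m atTop atTop →
      MapClusterPt z atTop (fun i => fw C.f (m i) (x i)) → z ∈ Z)
    (hN : ∀ x ∈ Z, ∀ v ∈ C.T x, (∃ c, ∀ n, ‖C.An n x v‖ ≤ c) →
      (∃ c, ∀ n, ‖C.symm.An n x v‖ ≤ c) → v = 0) : ∃ κ : ℝ, 1 ≤ κ ∧
    ∀ x ∈ R, ∀ v ∈ C.Fb x, ∀ n, ‖C.An n x v‖ ≤ κ * ‖v‖ := by
  obtain ⟨n, hn⟩ := C.N1_unif hRZ hN 2
  obtain ⟨c, hc1, hc⟩ := C.An_bound
  refine ⟨2 * c ^ n, ?_, ?_⟩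
  · have : (1:ℝ) ≤ c ^ n := one_le_pow₀ hc1
    linarith
  · intro x hx v hv j
    have hvT := C.C02_Fb_T hv
    obtain ⟨b, hb⟩ := hv.2
    have hbdd : BddAbove (range fun i => ‖C.An i x v‖) := ⟨b, by rintro _ ⟨i, rfl⟩; exact hb i⟩
    set s : ℝ := ⨆ i, ‖C.An i x v‖ with hs
    have hle : ∀ i, ‖C.An i x v‖ ≤ s := fun i => le_ciSup hbdd i
    have hs0 : 0 ≤ s := (norm_nonneg _).trans (hle 0)
    rcases hs0.eq_or_lt with hs0 | hs0
    · refine (hle j).trans ?_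
      rw [← hs0]
      positivity
    obtain ⟨m, hm⟩ := exists_lt_of_lt_ciSup (show s / 2 < ⨆ i, ‖C.An i x v‖ by rw [← hs]; linarith)
    have hwT := C.An_mem m x v
    have hmn : m < n := by
      by_contra hcon
      push Not at hcon
      have hw0 : C.An m x v = 0 := by
        refine hn x hx m hcon _ hwT fun k hk => ⟨?_, ?_⟩
        · rw [← C02_An_add_apply]
          have := hle (k + m)
          linarith
        · rw [C.C02_back (hk.trans hcon)]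
          have := hle (m - k)
          linarith
      rw [hw0, norm_zero] at hm
      linarith
    have h1 : ‖C.An m x v‖ ≤ c ^ m * ‖v‖ :=
      (ContinuousLinearMap.le_opNorm _ _).trans
        (mul_le_mul_of_nonneg_right (hc m x) (norm_nonneg _))
    have h2 : c ^ m ≤ c ^ n := pow_le_pow_right₀ hc1 hmn.le
    have h3 : c ^ m * ‖v‖ ≤ c ^ n * ‖v‖ := mul_le_mul_of_nonneg_right h2 (norm_nonneg _)
    have h4 := hle j
    linarith

theorem N1_half (C : Coc N K) {R Z : Set K} (hR : ∀ x ∈ R, C.f x ∈ R)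
    (hRZ : ∀ (x : ℕ → K) (m : ℕ → ℕ) (z : K), (∀ i, x i ∈ R) → Tendsto m atTop atTop →
      MapClusterPt z atTop (fun i => fw C.f (m i) (x i)) → z ∈ Z)
    (hN : ∀ x ∈ Z, ∀ v ∈ C.T x, (∃ c, ∀ n, ‖C.An n x v‖ ≤ c) →
      (∃ c, ∀ n, ‖C.symm.An n x v‖ ≤ c) → v = 0) : ∃ m : ℕ, 0 < m ∧
    ∀ x ∈ R, ∀ v ∈ C.Fb x, ‖C.An m x v‖ ≤ 1 / 2 * ‖v‖ := by
  obtain ⟨κ, hκ, hb⟩ := C.N1_kappa hRZ hN
  obtain ⟨n, hn⟩ := C.N1_unif hRZ hN (2 * κ ^ 2)
  refine ⟨(n + 1) + (n + 1), by omega, ?_⟩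
  intro x hx v hv
  have hvT := C.C02_Fb_T hv
  by_contra hcon
  push Not at hcon
  have hwT := C.An_mem (n + 1) x v
  have hwF := C.C02_Fb_An hv (n + 1)
  have hxn : fw C.f (n + 1) x ∈ R := C.N1_fw_mem hR hx _
  have hlast : ‖C.An ((n + 1) + (n + 1)) x v‖ ≤ κ * ‖C.An (n + 1) x v‖ := by
    rw [C02_An_add_apply]
    exact hb _ hxn _ hwF _
  have hw0 : C.An (n + 1) x v = 0 := by
    refine hn x hx (n + 1) (Nat.le_succ n) _ hwT fun k hk => ⟨?_, ?_⟩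
    · refine (hb _ hxn _ hwF k).trans ?_
      refine mul_le_mul_of_nonneg_right ?_ (norm_nonneg _)
      nlinarith
    · rw [C.C02_back (hk.trans (Nat.le_succ n))]
      have h1 := hb x hx v hv (n + 1 - k)
      have h2 : ‖v‖ ≤ 2 * (κ * ‖C.An (n + 1) x v‖) := by linarith
      have h3 : κ * ‖v‖ ≤ κ * (2 * (κ * ‖C.An (n + 1) x v‖)) :=
        mul_le_mul_of_nonneg_left h2 (by linarith)
      nlinarith
  rw [hw0, norm_zero, mul_zero] at hlast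
  have := norm_nonneg v
  linarith

/-- N1: uniform decay of forward bounded vectors (as C02) -/
theorem decay_on (C : Coc N K) {R Z : Set K} (hR : ∀ x ∈ R, C.f x ∈ R)
    (hZ : ∀ x, C.f x ∈ Z ↔ x ∈ Z)
    (hRZ : ∀ (x : ℕ → K) (m : ℕ → ℕ) (z : K), (∀ i, x i ∈ R) → Tendsto m atTop atTop →
      MapClusterPt z atTop (fun i => fw C.f (m i) (x i)) → z ∈ Z)
    (hN : ∀ x ∈ Z, ∀ v ∈ C.T x, (∃ c, ∀ n, ‖C.An n x v‖ ≤ c) →
      (∃ c, ∀ n, ‖C.symm.An n x v‖ ≤ c) → v = 0) :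
    ∃ c lam : ℝ, 0 < lam ∧ lam < 1 ∧
      ∀ x ∈ R, ∀ v ∈ C.Fb x, ∀ n, ‖C.An n x v‖ ≤ c * lam ^ n * ‖v‖ := by
  obtain ⟨κ, hκ, hb⟩ := C.N1_kappa hRZ hN
  obtain ⟨m, hm, hh⟩ := C.N1_half hR hRZ hN
  have hm' : (1:ℝ) ≤ m := by exact_mod_cast hm
  have hlam0 : (1:ℝ) / (2 * m) ≤ 1 / 2 := by
    rw [div_le_div_iff₀ (by positivity) (by norm_num)]
    linarith
  have hlam1 : (0:ℝ) < 1 / (2 * m) := by positivity
  set lam : ℝ := 1 - 1 / (2 * m) with hlam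
  have hl0 : 0 < lam := by linarith
  have hl1 : lam < 1 := by linarith
  have hpow : 1 / 2 ≤ lam ^ m := by
    have h1 := one_add_mul_le_pow (a := -(1 / (2 * (m:ℝ)))) (by linarith) m
    have h2 : (1:ℝ) + m * -(1 / (2 * m)) = 1 / 2 := by
      field_simp
      ring
    rw [h2] at h1
    rw [hlam, sub_eq_add_neg]
    exact h1
  refine ⟨2 * κ, lam, hl0, hl1, ?_⟩
  have hq : ∀ q : ℕ, ∀ x ∈ R, ∀ v ∈ C.Fb x, ‖C.An (q * m) x v‖ ≤ (1 / 2) ^ q * ‖v‖ := by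
    intro q
    induction q with
    | zero =>
      intro x hx v hv
      rw [Nat.zero_mul, C.C02_An_zero (C.C02_Fb_T hv)]
      simp
    | succ q ih =>
      intro x hx v hv
      rw [Nat.succ_mul, C02_An_add_apply]
      refine (ih _ (C.N1_fw_mem hR hx _) _ (C.C02_Fb_An hv m)).trans ?_
      rw [pow_succ, mul_assoc]
      exact mul_le_mul_of_nonneg_left (hh x hx v hv) (by positivity)
  intro x hx v hv n
  have hn : n = n % m + n / m * m := by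
    rw [mul_comm]
    exact (Nat.mod_add_div n m).symm
  have h1 : ‖C.An n x v‖ ≤ κ * ((1 / 2) ^ (n / m) * ‖v‖) := by
    conv_lhs => rw [hn]
    rw [C02_An_add_apply]
    exact (hb _ (C.N1_fw_mem hR hx _) _ (C.C02_Fb_An hv _) _).trans
      (mul_le_mul_of_nonneg_left (hq _ x hx v hv) (by linarith))
  have h2 : (1 / 2 : ℝ) ^ (n / m) ≤ (lam ^ m) ^ (n / m) :=
    pow_le_pow_left₀ (by norm_num) hpow _
  have h3 : 1 / 2 ≤ lam ^ (n % m) :=
    hpow.trans (pow_le_pow_of_le_one hl0.le hl1.le (Nat.mod_lt n hm).le)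
  have h4 : lam ^ n = lam ^ (n % m) * (lam ^ m) ^ (n / m) := by
    rw [← pow_mul, ← pow_add]
    congr 1
    rw [mul_comm m]
    exact hn
  have h5 : (1 / 2 : ℝ) ^ (n / m) ≤ 2 * lam ^ n := by
    rw [h4]
    have : 0 ≤ (lam ^ m) ^ (n / m) := by positivity
    nlinarith
  calc ‖C.An n x v‖ ≤ κ * ((1 / 2) ^ (n / m) * ‖v‖) := h1
    _ ≤ κ * ((2 * lam ^ n) * ‖v‖) := by
        refine mul_le_mul_of_nonneg_left ?_ (by linarith)
        exact mul_le_mul_of_nonneg_right h5 (norm_nonneg _)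
    _ = 2 * κ * lam ^ n * ‖v‖ := by ring

theorem closed_on (C : Coc N K) {R Z : Set K} (hRc : IsClosed R) (hR : ∀ x ∈ R, C.f x ∈ R)
    (hZ : ∀ x, C.f x ∈ Z ↔ x ∈ Z)
    (hRZ : ∀ (x : ℕ → K) (m : ℕ → ℕ) (z : K), (∀ i, x i ∈ R) → Tendsto m atTop atTop →
      MapClusterPt z atTop (fun i => fw C.f (m i) (x i)) → z ∈ Z)
    (hN : ∀ x ∈ Z, ∀ v ∈ C.T x, (∃ c, ∀ n, ‖C.An n x v‖ ≤ c) →
      (∃ c, ∀ n, ‖C.symm.An n x v‖ ≤ c) → v = 0) :
    IsClosed {q : K × EE N | q.1 ∈ R ∧ q.2 ∈ C.Fb q.1} := by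
  obtain ⟨κ, hκ, hb⟩ := C.N1_kappa hRZ hN
  have : {q : K × EE N | q.1 ∈ R ∧ q.2 ∈ C.Fb q.1} = {q : K × EE N | q.1 ∈ R} ∩
      ({q : K × EE N | C.P q.1 q.2 = q.2} ∩
      ⋂ n, {q : K × EE N | ‖C.An n q.1 q.2‖ ≤ κ * ‖q.2‖}) := by
    ext q
    simp only [mem_ofPred_eq, mem_inter_iff, mem_iInter]
    constructor
    · rintro ⟨hq0, hq⟩
      exact ⟨hq0, hq.1, hb _ hq0 _ hq⟩
    · rintro ⟨h0, h1, h2⟩
      exact ⟨h0, h1, _, h2⟩
  rw [this]
  refine IsClosed.inter (hRc.preimage continuous_fst) (IsClosed.inter ?_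
    (isClosed_iInter fun n => ?_))
  · exact isClosed_eq ((C.contP.comp continuous_fst).clm_apply continuous_snd) continuous_snd
  · exact isClosed_le (C.C02_cont n).norm (continuous_const.mul continuous_snd.norm)

end Coc
end Pool.MP85
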