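import Pool.Agent.Lib.MP_85e637_an.S2Defs
import Pool.Agent.Lib.MP_85e637_an.A01
import Pool.Agent.Lib.MP_85e637_an.C01
import Pool.Agent.Lib.MP_85e637_an.C02
import Pool.Agent.Lib.MP_85e637_an.C05

/-!
# N2: no bounded orbits near a hyperbolic set
-/

open Filter Topology Set Metric Module

namespace Pool.MP85

namespace Coc
variable {N : ℕ} {K : Type} [MetricSpace K] {C : Coc N K}

/-- forward growth along an orbit -/
theorem N2_grow {n : ℕ} {Nr : Set K}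
    (hE : ∀ y ∈ Nr, ∀ v ∈ C.T y, 3 / 2 * ‖v‖ ≤ max ‖C.An n y v‖ ‖C.symm.An n y v‖) {x : K}
    (hx : ∀ j, fw C.f j x ∈ Nr) {v : EE N} (hv : v ∈ C.T x) (hv0 : v ≠ 0)
    (h1 : 3 / 2 * ‖v‖ ≤ ‖C.An n x v‖) (j : ℕ) :
    (3 / 2) ^ j * ‖v‖ ≤ ‖C.An (j * n) x v‖ ∧
      3 / 2 * ‖C.An (j * n) x v‖ ≤ ‖C.An ((j + 1) * n) x v‖ := by
  have hvpos : 0 < ‖v‖ := norm_pos_iff.2 hv0
  induction j with
  | zero =>
    rw [zero_mul, zero_add, one_mul, pow_zero, one_mul, C.C02_An_zero hv]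
    exact ⟨le_rfl, h1⟩
  | succ j ih =>
    obtain ⟨ih1, ih2⟩ := ih
    have hpos : 0 < ‖C.An (j * n) x v‖ := lt_of_lt_of_le (by positivity) ih1
    have hpos' : 0 < ‖C.An ((j + 1) * n) x v‖ := by linarith
    refine ⟨?_, ?_⟩
    · rw [pow_succ]
      calc (3 / 2) ^ j * (3 / 2) * ‖v‖ = 3 / 2 * ((3 / 2) ^ j * ‖v‖) := by ring
        _ ≤ 3 / 2 * ‖C.An (j * n) x v‖ := by linarith
        _ ≤ _ := ih2
    · have h2 := hE (fw C.f ((j + 1) * n) x) (hx _) (C.An ((j + 1) * n) x v) (C.An_mem _ _ _)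
      have h3 : C.symm.An n (fw C.f ((j + 1) * n) x) (C.An ((j + 1) * n) x v) =
          C.An (j * n) x v := by
        have h4 : n ≤ (j + 1) * n := by nlinarith
        rw [C.C02_back h4]
        congr 2
        rw [add_mul, one_mul, Nat.add_sub_cancel]
      have h5 : C.An n (fw C.f ((j + 1) * n) x) (C.An ((j + 1) * n) x v) =
          C.An ((j + 1 + 1) * n) x v := by
        rw [← C.C02_An_add_apply]
        congr 2
        ring
      rw [h3, h5] at h2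
      rcases le_max_iff.1 h2 with h6 | h6
      · exact h6
      · exfalso
        linarith

theorem N2_fwd {n : ℕ} {Nr : Set K}
    (hE : ∀ y ∈ Nr, ∀ v ∈ C.T y, 3 / 2 * ‖v‖ ≤ max ‖C.An n y v‖ ‖C.symm.An n y v‖) {x : K}
    (hx : ∀ j, fw C.f j x ∈ Nr) {v : EE N} (hv : v ∈ C.T x) (hv0 : v ≠ 0)
    (h1 : 3 / 2 * ‖v‖ ≤ ‖C.An n x v‖) : ¬ ∃ c, ∀ n, ‖C.An n x v‖ ≤ c := by
  rintro ⟨c, hc⟩
  have hvpos : 0 < ‖v‖ := norm_pos_iff.2 hv0
  have hlim : Tendsto (fun j : ℕ => (3 / 2 : ℝ) ^ j * ‖v‖) atTop atTop :=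
    (tendsto_pow_atTop_atTop_of_one_lt (by norm_num)).atTop_mul_const hvpos
  obtain ⟨j, hj⟩ := (hlim.eventually_gt_atTop c).exists
  have h2 := (N2_grow hE hx hv hv0 h1 j).1
  exact absurd (h2.trans (hc _)) (not_le.2 hj)

/-- the orbit argument -/
theorem N2_orbit {n : ℕ} {Nr : Set K}
    (hE : ∀ y ∈ Nr, ∀ v ∈ C.T y, 3 / 2 * ‖v‖ ≤ max ‖C.An n y v‖ ‖C.symm.An n y v‖) {x : K}
    (hx : ∀ j, fw C.f j x ∈ Nr) (hx' : ∀ j, bk C.f j x ∈ Nr) {v : EE N} (hv : v ∈ C.T x)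
    (h1 : ∃ c, ∀ n, ‖C.An n x v‖ ≤ c) (h2 : ∃ c, ∀ n, ‖C.symm.An n x v‖ ≤ c) : v = 0 := by
  by_contra hv0
  have hss : C.symm.symm = C := C.symm_symm
  rcases le_max_iff.1 (hE x (hx 0) v hv) with h | h
  · exact N2_fwd hE hx hv hv0 h h1
  · refine N2_fwd (C := C.symm) (n := n) (Nr := Nr) ?_ (fun j => ?_) hv hv0 h h2
    · intro y hy w hw
      rw [hss, max_comm]
      exact hE y hy w hw
    · rw [C.fw_symm]
      exact hx' j

/-- expansion in one of the two directions at the points of a hyperbolic set -/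
theorem HypOn.N2_exp [CompactSpace K] {Om : Set K} (h : C.HypOn Om) : ∃ n : ℕ, ∀ y ∈ Om,
    ∀ v ∈ C.T y, 2 * ‖v‖ ≤ max ‖C.An n y v‖ ‖C.symm.An n y v‖ := by
  obtain ⟨c, lam, h0, h1, h2⟩ := h.hyp
  have hlim : Tendsto (fun n : ℕ => c * lam ^ n) atTop (𝓝 0) := by
    simpa using (tendsto_pow_atTop_nhds_zero_of_lt_one h0.le h1).const_mul c
  obtain ⟨n, hn⟩ := (hlim.eventually_lt_const (show (0:ℝ) < 1 / 8 by norm_num)).exists
  refine ⟨n, fun y hy v hv => ?_⟩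
  obtain ⟨hs1, hs2⟩ := h.split y hy
  rw [← hs1] at hv
  obtain ⟨vs, hvs, vu, hvu, rfl⟩ := Submodule.mem_sup.1 hv
  have hcn : ∀ w : EE N, c * lam ^ n * ‖w‖ ≤ 1 / 8 * ‖w‖ := fun w =>
    mul_le_mul_of_nonneg_right hn.le (norm_nonneg _)
  have e1 : ‖C.An n y vs‖ ≤ 1 / 8 * ‖vs‖ := ((h2 y hy).1 vs hvs n).trans (hcn _)
  have e2 : ‖C.symm.An n y vu‖ ≤ 1 / 8 * ‖vu‖ := ((h2 y hy).2 vu hvu n).trans (hcn _)
  have hfw : ∀ (C' : Coc N K), (∀ z, C'.f z ∈ Om ↔ z ∈ Om) → ∀ k, fw C'.f k y ∈ Om := by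
    intro C' hinv k
    induction k with
    | zero => exact hy
    | succ k ih => rw [fw_succ']; exact (hinv _).2 ih
  have e3 : ‖vu‖ ≤ 1 / 8 * ‖C.An n y vu‖ := by
    have a1 : fw C.f n y ∈ Om := hfw C h.inv n
    have a2 : C.An n y vu ∈ C.Eu (fw C.f n y) := by
      have hvuT : vu ∈ C.T y := C.Eu_le y hvu
      have : ∀ k, C.An k y vu ∈ C.Eu (fw C.f k y) := by
        intro k
        induction k with
        | zero => rw [C.C02_An_zero hvuT]; exact hvu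
        | succ k ih =>
          rw [fw_succ', C.An_succ']
          exact (C.Eu_map (C.Eu_le _ ih)).2 ih
      exact this n
    have a3 := ((h2 _ a1).2 _ a2 n).trans (hcn _)
    rw [C.symm_An_An n (C.Eu_le y hvu)] at a3
    exact a3
  have e4 : ‖vs‖ ≤ 1 / 8 * ‖C.symm.An n y vs‖ := by
    have hsy := h.symm
    have a1 : fw C.symm.f n y ∈ Om := hfw C.symm hsy.inv n
    have hvs' : vs ∈ C.symm.Eu y := by
      change vs ∈ C.symm.symm.Es y
      rw [C.symm_symm]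
      exact hvs
    have a2 : C.symm.An n y vs ∈ C.symm.Eu (fw C.symm.f n y) := by
      have hvsT : vs ∈ C.symm.T y := C.Es_le y hvs
      have : ∀ k, C.symm.An k y vs ∈ C.symm.Eu (fw C.symm.f k y) := by
        intro k
        induction k with
        | zero => rw [C.symm.C02_An_zero hvsT]; exact hvs'
        | succ k ih =>
          rw [fw_succ', C.symm.An_succ']
          exact (C.symm.Eu_map (C.symm.Eu_le _ ih)).2 ih
      exact this n
    have a2' : C.symm.An n y vs ∈ C.Es (fw C.symm.f n y) := by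
      change C.symm.An n y vs ∈ C.symm.symm.Es (fw C.symm.f n y) at a2
      rw [C.symm_symm] at a2
      exact a2
    have a3 := ((h2 _ a1).1 _ a2' n).trans (hcn _)
    have a4 := C.An_symm_An n (C.Es_le y hvs)
    have a5 : fw C.symm.f n y = bk C.f n y := rfl
    rw [a5, a4] at a3
    exact a3
  have f1 : ‖vs + vu‖ ≤ ‖vs‖ + ‖vu‖ := norm_add_le _ _
  have g1 := norm_nonneg vs
  have g2 := norm_nonneg vu
  rcases le_total ‖vs‖ ‖vu‖ with hle | hle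
  · refine le_max_of_le_left ?_
    rw [map_add]
    have f2 : ‖C.An n y vu‖ - ‖C.An n y vs‖ ≤ ‖C.An n y vs + C.An n y vu‖ := by
      rw [add_comm]
      have := norm_sub_norm_le (C.An n y vu) (-C.An n y vs)
      rwa [norm_neg, sub_neg_eq_add] at this
    linarith
  · refine le_max_of_le_right ?_
    rw [map_add]
    have f2 : ‖C.symm.An n y vs‖ - ‖C.symm.An n y vu‖ ≤ ‖C.symm.An n y vs + C.symm.An n y vu‖ := by
      have := norm_sub_norm_le (C.symm.An n y vs) (-C.symm.An n y vu)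
      rwa [norm_neg, sub_neg_eq_add] at this
    linarith

/-- the same near a hyperbolic set -/
theorem HypOn.N2_exp_near [CompactSpace K] {Om : Set K} (h : C.HypOn Om) : ∃ δ > 0, ∃ n : ℕ, ∀ y,
    (∃ z ∈ Om, dist y z ≤ δ) → ∀ v ∈ C.T y,
      3 / 2 * ‖v‖ ≤ max ‖C.An n y v‖ ‖C.symm.An n y v‖ := by
  obtain ⟨n, hn⟩ := h.N2_exp
  set F : Set (K × EE N) := {q | C.P q.1 q.2 = q.2 ∧ ‖q.2‖ = 1 ∧ ‖C.An n q.1 q.2‖ ≤ 3 / 2 ∧
    ‖C.symm.An n q.1 q.2‖ ≤ 3 / 2} with hF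
  have hclosed : IsClosed F := by
    have c1 : IsClosed {q : K × EE N | C.P q.1 q.2 = q.2} :=
      isClosed_eq ((C.contP.comp continuous_fst).clm_apply continuous_snd) continuous_snd
    have c2 : IsClosed {q : K × EE N | ‖q.2‖ = 1} :=
      isClosed_eq continuous_snd.norm continuous_const
    have c3 : IsClosed {q : K × EE N | ‖C.An n q.1 q.2‖ ≤ 3 / 2} :=
      isClosed_le (C.C02_cont n).norm continuous_const
    have c4 : IsClosed {q : K × EE N | ‖C.symm.An n q.1 q.2‖ ≤ 3 / 2} :=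
      isClosed_le (C.symm.C02_cont n).norm continuous_const
    exact c1.inter (c2.inter (c3.inter c4))
  have hcpt : IsCompact F := by
    refine IsCompact.of_isClosed_subset
      (isCompact_univ.prod (isCompact_closedBall (0 : EE N) 1)) hclosed ?_
    intro q hq
    refine ⟨mem_univ _, ?_⟩
    rw [mem_closedBall_zero_iff]
    exact hq.2.1.le
  have hproj : IsCompact (Prod.fst '' F) := hcpt.image continuous_fst
  have hdisj : Disjoint (Prod.fst '' F) Om := by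
    rw [disjoint_left]
    rintro _ ⟨q, hq, rfl⟩ hOm
    have h1 := hn q.1 hOm q.2 (C.mem_T.2 hq.1)
    rw [hq.2.1] at h1
    rcases le_max_iff.1 h1 with h2 | h2
    · linarith [hq.2.2.1]
    · linarith [hq.2.2.2]
  obtain ⟨δ, hδ, hdisj'⟩ := hdisj.exists_thickenings hproj h.closed
  refine ⟨δ / 2, half_pos hδ, n, ?_⟩
  rintro y ⟨z, hz, hyz⟩ v hv
  by_contra hcon
  push Not at hcon
  have hv0 : v ≠ 0 := by
    rintro rfl
    simp at hcon
  have hpos : 0 < ‖v‖ := norm_pos_iff.2 hv0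
  obtain ⟨hc1, hc2⟩ := max_lt_iff.1 hcon
  have hmem : (y, ‖v‖⁻¹ • v) ∈ F := by
    refine ⟨?_, ?_, ?_, ?_⟩
    · change C.P y (‖v‖⁻¹ • v) = ‖v‖⁻¹ • v
      rw [map_smul, C.mem_T.1 hv]
    · change ‖‖v‖⁻¹ • v‖ = 1
      rw [norm_smul, norm_inv, norm_norm, inv_mul_cancel₀ hpos.ne']
    · change ‖C.An n y (‖v‖⁻¹ • v)‖ ≤ 3 / 2
      rw [map_smul, norm_smul, norm_inv, norm_norm, inv_mul_le_iff₀ hpos, mul_comm]
      exact hc1.le
    · change ‖C.symm.An n y (‖v‖⁻¹ • v)‖ ≤ 3 / 2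
      rw [map_smul, norm_smul, norm_inv, norm_norm, inv_mul_le_iff₀ hpos, mul_comm]
      exact hc2.le
  have h3 : y ∈ thickening δ (Prod.fst '' F) := self_subset_thickening hδ _ ⟨_, hmem, rfl⟩
  have h4 : y ∈ thickening δ Om := mem_thickening_iff.2 ⟨z, hz, lt_of_le_of_lt hyz (half_lt_self hδ)⟩
  exact disjoint_left.1 hdisj' h3 h4

end Coc

variable {d N : ℕ} {K : Type} [MetricSpace K] [CompactSpace K]

/-- N2: no bounded orbits over orbits staying near `Om`, for the cocycle and its dual -/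
theorem BSys.noBdd_near (S : BSys d N K) : ∃ δ0 > 0, ∀ x,
    (∀ n, ∃ y ∈ S.Om, dist (fw S.f n x) y ≤ δ0) → (∀ n, ∃ y ∈ S.Om, dist (bk S.f n x) y ≤ δ0) →
      ∀ v ∈ S.T x,
        ((∃ c, ∀ n, ‖S.An n x v‖ ≤ c) → (∃ c, ∀ n, ‖S.symm.An n x v‖ ≤ c) → v = 0) ∧
        ((∃ c, ∀ n, ‖S.dual.An n x v‖ ≤ c) → (∃ c, ∀ n, ‖S.dual.symm.An n x v‖ ≤ c) → v = 0) := by
  have hyp : S.toCoc.HypOn S.Om := ⟨S.Om_closed, S.Om_inv, S.hyp, S.split⟩
  obtain ⟨δ1, hδ1, n1, h1⟩ := hyp.N2_exp_near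
  obtain ⟨δ2, hδ2, n2, h2⟩ := hyp.dual.N2_exp_near
  refine ⟨min δ1 δ2, lt_min hδ1 hδ2, fun x hf hb v hv => ⟨?_, ?_⟩⟩
  · refine Coc.N2_orbit (C := S.toCoc) (n := n1) (Nr := {y | ∃ z ∈ S.Om, dist y z ≤ δ1})
      (fun y hy => h1 y hy) (fun j => ?_) (fun j => ?_) hv
    · obtain ⟨y, hy, hd⟩ := hf j
      exact ⟨y, hy, hd.trans (min_le_left _ _)⟩
    · obtain ⟨y, hy, hd⟩ := hb j
      exact ⟨y, hy, hd.trans (min_le_left _ _)⟩
  · refine Coc.N2_orbit (C := S.dual) (n := n2) (Nr := {y | ∃ z ∈ S.Om, dist y z ≤ δ2})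
      (fun y hy => h2 y hy) (fun j => ?_) (fun j => ?_) hv
    · obtain ⟨y, hy, hd⟩ := hf j
      exact ⟨y, hy, hd.trans (min_le_right _ _)⟩
    · obtain ⟨y, hy, hd⟩ := hb j
      exact ⟨y, hy, hd.trans (min_le_right _ _)⟩

end Pool.MP85
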