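import Pool.Agent.Lib.MP_85e637_an.S2Defs
import Pool.Agent.Lib.MP_85e637_an.C01
import Pool.Agent.Lib.MP_85e637_an.C05
import Pool.Agent.Lib.MP_85e637_an.C07
import Pool.Agent.Lib.MP_85e637_an.N0
import Pool.Agent.Lib.MP_85e637_an.N1
import Pool.Agent.Lib.MP_85e637_an.N2

/-!
# N3: the stable bundle over the points asymptotic to `Oj` is a contracted bundle for a power
-/

open Filter Topology Set Metric Module

namespace Pool.MP85
variable {d N : ℕ} {K : Type} [MetricSpace K] [CompactSpace K]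

lemma N3_infDist {Om : Set K} (u : ℕ → K) (h : ∀ y, MapClusterPt y atTop u → y ∈ Om) :
    Tendsto (fun n => infDist (u n) Om) atTop (𝓝 0) := by
  refine tendsto_order.2 ⟨fun a ha => Eventually.of_forall fun n => ha.trans_le infDist_nonneg,
    fun ε hε => ?_⟩
  by_contra hcon
  have hcl : IsClosed {y : K | ε ≤ infDist y Om} :=
    isClosed_le continuous_const (continuous_infDist_pt Om)
  have hfr : ∃ᶠ n in atTop, u n ∈ {y : K | ε ≤ infDist y Om} := by
    rw [not_eventually] at hcon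
    exact hcon.mono fun n hn => not_lt.1 hn
  obtain ⟨y, hy, hyc⟩ := hcl.isCompact.exists_mapClusterPt_of_frequently hfr
  have h0 : infDist y Om = 0 := infDist_zero_of_mem (h y hyc)
  have : ε ≤ infDist y Om := hy
  linarith

omit [CompactSpace K] in
lemma N3_surj (C : Coc N K) {x : K} {w : EE N} (n : ℕ) (hw : w ∈ C.T (fw C.f n x)) :
    ∃ v ∈ C.T x, C.An n x v = w := by
  have h1 := C.An_symm_An n hw
  have h2 := C.symm.An_mem n (fw C.f n x) w
  have h3 : fw C.symm.f n (fw C.f n x) = x := bk_fw n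
  rw [h3] at h2
  rw [bk_fw] at h1
  exact ⟨_, h2, h1⟩

/-- closed thickening of a compact set -/
lemma N3_near_closed {Om : Set K} (hO : IsClosed Om) (δ : ℝ) :
    IsClosed {z : K | ∃ y ∈ Om, dist z y ≤ δ} := by
  rcases Om.eq_empty_or_nonempty with he | hne
  · have : {z : K | ∃ y ∈ Om, dist z y ≤ δ} = ∅ := by
      rw [he]
      ext z
      simp
    rw [this]
    exact isClosed_empty
  · have : {z : K | ∃ y ∈ Om, dist z y ≤ δ} = {z : K | infDist z Om ≤ δ} := by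
      ext z
      constructor
      · rintro ⟨y, hy, h⟩
        exact (infDist_le_dist_of_mem hy).trans h
      · intro h
        obtain ⟨y, hy, h1⟩ := hO.isCompact.exists_infDist_eq_dist hne z
        exact ⟨y, hy, by rw [← h1]; exact h⟩
    rw [this]
    exact isClosed_le (continuous_infDist_pt Om) continuous_const

/-- points whose whole orbit stays `δ`-close to `Om` -/
def N3_Z (f : K ≃ₜ K) (Om : Set K) (δ : ℝ) : Set K :=
  {x | (∀ n, ∃ y ∈ Om, dist (fw f n x) y ≤ δ) ∧ (∀ n, ∃ y ∈ Om, dist (bk f n x) y ≤ δ)}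

omit [CompactSpace K] in
lemma N3_Z_inv (f : K ≃ₜ K) (Om : Set K) (δ : ℝ) (x : K) :
    f x ∈ N3_Z f Om δ ↔ x ∈ N3_Z f Om δ := by
  constructor
  · rintro ⟨h1, h2⟩
    refine ⟨fun n => ?_, fun n => ?_⟩
    · rcases n with _ | n
      · have := h2 1
        rw [bk_succ, f.symm_apply_apply] at this
        exact this
      · rw [fw_succ]
        exact h1 n
    · have := h2 (n + 1)
      rw [bk_succ, f.symm_apply_apply] at this
      exact this
  · rintro ⟨h1, h2⟩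
    refine ⟨fun n => ?_, fun n => ?_⟩
    · rw [← fw_succ]
      exact h1 (n + 1)
    · rcases n with _ | n
      · exact h1 1
      · rw [bk_succ, f.symm_apply_apply]
        exact h2 n

lemma N3_cluster (f : K ≃ₜ K) {Om : Set K} (hO : IsClosed Om) {δ : ℝ} {n0 : ℕ} {R : Set K}
    (hR : ∀ x ∈ R, ∀ n ≥ n0, ∃ y ∈ Om, dist (fw f n x) y ≤ δ)
    (x : ℕ → K) (m : ℕ → ℕ) (z : K) (hx : ∀ i, x i ∈ R) (hm : Tendsto m atTop atTop)
    (hz : MapClusterPt z atTop (fun i => fw f (m i) (x i))) : z ∈ N3_Z f Om δ := by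
  have hcl := N3_near_closed hO δ
  refine ⟨fun n => ?_, fun n => ?_⟩
  · have h1 : MapClusterPt (fw f n z) atTop ((fw f n) ∘ fun i => fw f (m i) (x i)) :=
      MapClusterPt.continuousAt_comp (continuous_fw n).continuousAt hz
    have h2 : ∀ᶠ i in atTop, ((fw f n) ∘ fun i => fw f (m i) (x i)) i ∈
        {z : K | ∃ y ∈ Om, dist z y ≤ δ} := by
      filter_upwards [hm.eventually_ge_atTop n0] with i hi
      have := hR (x i) (hx i) (n + m i) (by omega)
      rw [fw_add] at this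
      exact this
    exact hcl.mem_of_mapClusterPt h1 h2
  · have h1 : MapClusterPt (bk f n z) atTop ((bk f n) ∘ fun i => fw f (m i) (x i)) :=
      MapClusterPt.continuousAt_comp (continuous_bk n).continuousAt hz
    have h2 : ∀ᶠ i in atTop, ((bk f n) ∘ fun i => fw f (m i) (x i)) i ∈
        {z : K | ∃ y ∈ Om, dist z y ≤ δ} := by
      filter_upwards [hm.eventually_ge_atTop (n0 + n)] with i hi
      have := hR (x i) (hx i) (m i - n) (by omega)
      have e : bk f n (fw f (m i) (x i)) = fw f (m i - n) (x i) := by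
        have e1 : m i = n + (m i - n) := by omega
        conv_lhs => rw [e1]
        rw [fw_add, bk_fw]
      show ∃ y ∈ Om, dist (bk f n (fw f (m i) (x i))) y ≤ δ
      rw [e]
      exact this
    exact hcl.mem_of_mapClusterPt h1 h2

omit [CompactSpace K] in
/-- expansion modulo `Es`, dual to the decay of bounded covectors -/
lemma N3_exp (C : Coc N K) {x : K} {n : ℕ} {b : ℝ} (hb : 0 < b)
    (hdec : ∀ ξ ∈ C.dual.Fb x, ‖C.dual.An n x ξ‖ ≤ b * ‖ξ‖)
    (hann : ∀ ξ : EE N, ξ ∈ C.dual.Fb x ↔ ξ ∈ C.T x ∧ ∀ v ∈ C.Es x, inner ℝ ξ v = 0)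
    {v : EE N} (hv : v ∈ C.T x) :
    infDist v (C.Es x) ≤ b * infDist (C.An n x v) (C.Es (fw C.f n x)) := by
  set p := (C.Es x).starProjection v with hp
  have hpE : p ∈ C.Es x := Submodule.starProjection_apply_mem _ _
  have horth : ∀ w ∈ C.Es x, inner ℝ (v - p) w = 0 := fun w hw =>
    Submodule.starProjection_inner_eq_zero v w hw
  have hξT : v - p ∈ C.T x := Submodule.sub_mem _ hv (C.Es_le x hpE)
  have hξF : v - p ∈ C.dual.Fb x := (hann _).2 ⟨hξT, horth⟩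
  have hd : ‖C.dual.An n x (v - p)‖ ≤ b * ‖v - p‖ := hdec _ hξF
  have hle : infDist v (C.Es x) ≤ ‖v - p‖ := by
    rw [← dist_eq_norm]
    exact infDist_le_dist_of_mem hpE
  refine hle.trans ?_
  rw [← div_le_iff₀' hb]
  refine (le_infDist ⟨0, Submodule.zero_mem _⟩).2 fun w hw => ?_
  rw [div_le_iff₀' hb]
  obtain ⟨w', hw'T, hw'⟩ := N3_surj C n (C.Es_le _ hw)
  have hw'E : w' ∈ C.Es x := (Coc.C05_Es_An n hw'T).1 (by rw [hw']; exact hw)
  have e1 : inner ℝ (C.dual.An n x (v - p)) (C.An n x v) = ‖v - p‖ ^ 2 := by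
    rw [C.pairing n hv hξT]
    have : v = (v - p) + p := by abel
    conv_lhs => rw [this]
    rw [inner_add_right, add_sub_cancel_right]
    rw [horth p hpE, add_zero, real_inner_self_eq_norm_sq]
  have e2 : inner ℝ (C.dual.An n x (v - p)) w = 0 := by
    rw [← hw', C.pairing n hw'T hξT]
    exact horth w' hw'E
  have e3 : ‖v - p‖ ^ 2 ≤ b * ‖v - p‖ * dist (C.An n x v) w := by
    rw [← e1]
    calc inner ℝ (C.dual.An n x (v - p)) (C.An n x v)
        = inner ℝ (C.dual.An n x (v - p)) (C.An n x v - w) := by rw [inner_sub_right, e2, sub_zero]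
      _ ≤ ‖C.dual.An n x (v - p)‖ * ‖C.An n x v - w‖ := real_inner_le_norm _ _
      _ ≤ b * ‖v - p‖ * dist (C.An n x v) w := by
          rw [dist_eq_norm]
          exact mul_le_mul_of_nonneg_right hd (norm_nonneg _)
  rcases (norm_nonneg (v - p)).eq_or_lt with h2 | h2
  · rw [← h2]
    exact mul_nonneg hb.le dist_nonneg
  · nlinarith [e3]

/-- N3 -/
theorem BSys.cb_RN (S : BSys d N K) : ∃ δ0 > 0, ∀ j n0, ∃ k0 > 0, ∀ k ≥ k0, ∀ Sk : ESys d N K,
    (∀ x, Sk.f x = fw S.f k x) → Sk.e = S.e → Sk.P = S.P → (∀ x, Sk.A x = S.An k x) →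
      ∀ δ > 0, δ ≤ δ0 → CB Sk (S.RN j δ n0) S.Es j := by
  obtain ⟨δa, hδa, hNB⟩ := S.noBdd_near
  obtain ⟨δb, hδb, hdim⟩ := S.RN_dim
  have hmono : ∀ {j n0 : ℕ} {δ δ' : ℝ}, δ ≤ δ' → S.RN j δ n0 ⊆ S.RN j δ' n0 := by
    intro j n0 δ δ' h x hx n hn
    obtain ⟨y, hy, h1⟩ := hx n hn
    exact ⟨y, hy, h1.trans h⟩
  refine ⟨min δa δb, lt_min hδa hδb, fun j n0 => ?_⟩
  set δ0 := min δa δb with hδ0
  set R := S.RN j δ0 n0 with hR
  set Z := N3_Z S.f S.Om δ0 with hZ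
  have hRc : IsClosed R := S.RN_closed j δ0 n0
  have hRf : ∀ x ∈ R, S.f x ∈ R := fun x hx => S.RN_fw j δ0 n0 hx
  have hZi : ∀ x, S.f x ∈ Z ↔ x ∈ Z := N3_Z_inv S.f S.Om δ0
  have hROm : ∀ x ∈ R, ∀ n ≥ n0, ∃ y ∈ S.Om, dist (fw S.f n x) y ≤ δ0 := by
    intro x hx n hn
    obtain ⟨y, hy, h1⟩ := hx n hn
    exact ⟨y, hy.1, h1⟩
  have hRZ : ∀ (x : ℕ → K) (m : ℕ → ℕ) (z : K), (∀ i, x i ∈ R) → Tendsto m atTop atTop →
      MapClusterPt z atTop (fun i => fw S.f (m i) (x i)) → z ∈ Z :=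
    fun x m z hx hm hz => N3_cluster S.f S.Om_closed hROm x m z hx hm hz
  have hZa : ∀ x ∈ Z, (∀ n, ∃ y ∈ S.Om, dist (fw S.f n x) y ≤ δa) ∧
      (∀ n, ∃ y ∈ S.Om, dist (bk S.f n x) y ≤ δa) := by
    intro x hx
    refine ⟨fun n => ?_, fun n => ?_⟩
    · obtain ⟨y, hy, h1⟩ := hx.1 n
      exact ⟨y, hy, h1.trans (min_le_left _ _)⟩
    · obtain ⟨y, hy, h1⟩ := hx.2 n
      exact ⟨y, hy, h1.trans (min_le_left _ _)⟩
  have hN1 : ∀ x ∈ Z, ∀ v ∈ S.T x, (∃ c, ∀ n, ‖S.An n x v‖ ≤ c) →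
      (∃ c, ∀ n, ‖S.symm.An n x v‖ ≤ c) → v = 0 := fun x hx v hv =>
    (hNB x (hZa x hx).1 (hZa x hx).2 v hv).1
  have hN2 : ∀ x ∈ Z, ∀ v ∈ S.dual.T x, (∃ c, ∀ n, ‖S.dual.An n x v‖ ≤ c) →
      (∃ c, ∀ n, ‖S.dual.symm.An n x v‖ ≤ c) → v = 0 := fun x hx v hv =>
    (hNB x (hZa x hx).1 (hZa x hx).2 v hv).2
  obtain ⟨c, lam, hl0, hl1, hdec⟩ := S.toCoc.decay_on hRf hZi hRZ hN1
  obtain ⟨c', lam', hl0', hl1', hdec'⟩ := S.toCoc.dual.decay_on (R := R) (Z := Z) hRf hZi hRZ hN2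
  have hcl := S.toCoc.closed_on hRc hRf hZi hRZ hN1
  -- `Es = Fb` on `R`
  have hEF : ∀ x, S.Es x ≤ S.Fb x := by
    rintro x v ⟨h1, h2⟩
    refine ⟨h1, ?_⟩
    obtain ⟨b, hb⟩ := h2.bddAbove_range
    exact ⟨b, fun n => hb ⟨n, rfl⟩⟩
  have hFE : ∀ x ∈ R, S.Fb x ≤ S.Es x := by
    intro x hx v hv
    refine ⟨hv.1, squeeze_zero (fun n => norm_nonneg _) (fun n => hdec x hx v hv n) ?_⟩
    have := (tendsto_pow_atTop_nhds_zero_of_lt_one hl0.le hl1).const_mul c
    simpa using this.mul_const ‖v‖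
  -- annihilators
  have hann : ∀ x, ∀ ξ : EE N, ξ ∈ S.dual.Fb x ↔ ξ ∈ S.T x ∧ ∀ v ∈ S.Es x, inner ℝ ξ v = 0 := by
    intro x
    obtain ⟨y, -, hy⟩ := isCompact_univ.exists_mapClusterPt (f := (atTop : Filter ℕ))
      (u := fun n : ℕ => fw S.f n x) (by simp)
    exact (S.hypOn.dim_eq (hyO := S.Om_fw x y hy) S.rankP (N3_infDist _ (S.Om_fw x)) hy).2
  -- the power
  have hlim : Tendsto (fun n : ℕ => c * lam ^ n) atTop (𝓝 0) := by
    simpa using (tendsto_pow_atTop_nhds_zero_of_lt_one hl0.le hl1).const_mul c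
  have hlim' : Tendsto (fun n : ℕ => c' * lam' ^ n) atTop (𝓝 0) := by
    simpa using (tendsto_pow_atTop_nhds_zero_of_lt_one hl0'.le hl1').const_mul c'
  obtain ⟨n1, hn1⟩ := eventually_atTop.1 (hlim.eventually (gt_mem_nhds (by norm_num : (0:ℝ) < 1 / 8)))
  obtain ⟨n2, hn2⟩ := eventually_atTop.1
    (hlim'.eventually (gt_mem_nhds (by norm_num : (0:ℝ) < 1 / 8)))
  refine ⟨n1 + n2 + 1, by omega, fun k hk Sk hf he hP hA δ hδ hδle => ?_⟩
  have hsub : S.RN j δ n0 ⊆ R := hmono hδle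
  have hT : ∀ x, Sk.T x = S.T x := fun x => by
    unfold Coc.T
    rw [hP]
  refine
    { cpt := (S.RN_closed j δ n0).isCompact
      inv := ?_
      le := fun x _ => by rw [hT]; exact S.toCoc.Es_le x
      rank := ?_
      closed := ?_
      map := ?_
      con := ?_
      exp := ?_ }
  · intro x hx
    rw [hf]
    have : ∀ n, fw S.f n x ∈ S.RN j δ n0 := by
      intro n
      induction n with
      | zero => exact hx
      | succ n ih => rw [fw_succ']; exact S.RN_fw j δ n0 ih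
    exact this k
  · intro x hx
    exact hdim j n0 x (hmono (min_le_right _ _) (hsub hx))
  · intro x v x0 v0 hx hv hx0 hv0
    have h1 : Tendsto (fun n => ((x n, v n) : K × EE N)) atTop (𝓝 (x0, v0)) :=
      hx0.prodMk_nhds hv0
    have h2 := hcl.mem_of_tendsto h1 (Eventually.of_forall fun n =>
      ⟨hsub (hx n), hEF _ (hv n)⟩)
    exact hFE x0 h2.1 h2.2
  · intro x hx v hv
    rw [hA, hf]
    exact (Coc.C05_Es_An k (S.toCoc.Es_le x hv)).2 hv
  · intro x hx v hv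
    rw [hA]
    have h1 := hdec x (hsub hx) v (hEF x hv) k
    have h2 := hn1 k (by omega)
    have h3 : c * lam ^ k * ‖v‖ ≤ 1 / 8 * ‖v‖ := mul_le_mul_of_nonneg_right h2.le (norm_nonneg _)
    linarith
  · intro x hx v hv
    rw [hT] at hv
    rw [hA, hf]
    have h2 := hn2 k (by omega)
    have h1 := N3_exp S.toCoc (x := x) (n := k) (b := 1 / 8) (by norm_num) (fun ξ hξ => ?_)
      (hann x) hv
    · linarith
    · exact (hdec' x (hsub hx) ξ hξ k).trans
        (mul_le_mul_of_nonneg_right h2.le (norm_nonneg _))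

end Pool.MP85
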