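import Mathlib

/-!
# Stage 2, row N4a: abstract shadowing theorem (sup norm, inhomogeneous)
-/

open Filter Topology Set Metric Module

namespace Pool.MP85

/-- one step of the iteration -/
def N4a_step {E : Type} [Zero E] (Fs : ℕ → E → E → E) (Gu : ℕ → E → E → E → E)
    (x : (ℕ → E) × (ℕ → E)) : (ℕ → E) × (ℕ → E) :=
  (fun n => match n with
    | 0 => 0
    | m + 1 => Fs m (x.1 m) (x.2 m), fun n => Gu n (x.1 n) (x.2 n) (x.2 (n + 1)))

/-- the iteration -/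
def N4a_it {E : Type} [Zero E] (Fs : ℕ → E → E → E) (Gu : ℕ → E → E → E → E) :
    ℕ → (ℕ → E) × (ℕ → E)
  | 0 => (fun _ => 0, fun _ => 0)
  | k + 1 => N4a_step Fs Gu (N4a_it Fs Gu k)

/-- N4a: Banach fixed point in the space of pairs of bounded sequences (norm
`sup_n max (‖s n‖, κ ‖u n‖)`, `κ = 8 (c + 1)`) -/
theorem hp_shadow {E : Type} [NormedAddCommGroup E] [NormedSpace ℝ E] [CompleteSpace E]
    (V W : ℕ → Submodule ℝ E) (hV : ∀ n, IsClosed (V n : Set E)) (hW : ∀ n, IsClosed (W n : Set E))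
    (c ρ η τ : ℝ) (hc : 0 ≤ c) (hρ : 0 < ρ) (hη : 0 ≤ η) (hcη : η * (c + 1) ≤ 1 / 1000)
    (hτ : 0 ≤ τ) (hτρ : 20 * (c + 1) * τ ≤ ρ)
    (Fs : ℕ → E → E → E) (Gu : ℕ → E → E → E → E)
    (hFs : ∀ n, ∀ s ∈ V n, ∀ u ∈ W n, ‖s‖ ≤ ρ → ‖u‖ ≤ ρ → Fs n s u ∈ V (n + 1))
    (hFs0 : ∀ n, ‖Fs n 0 0‖ ≤ τ)
    (hFsL : ∀ n, ∀ s ∈ V n, ∀ u ∈ W n, ∀ s' ∈ V n, ∀ u' ∈ W n, ‖s‖ ≤ ρ → ‖u‖ ≤ ρ → ‖s'‖ ≤ ρ →
      ‖u'‖ ≤ ρ → ‖Fs n s u - Fs n s' u'‖ ≤ 1 / 6 * ‖s - s'‖ + c * ‖u - u'‖)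
    (hGu : ∀ n, ∀ s ∈ V n, ∀ u ∈ W n, ∀ w ∈ W (n + 1), ‖s‖ ≤ ρ → ‖u‖ ≤ ρ → ‖w‖ ≤ ρ →
      Gu n s u w ∈ W n)
    (hGu0 : ∀ n, ‖Gu n 0 0 0‖ ≤ τ)
    (hGuL : ∀ n, ∀ s ∈ V n, ∀ u ∈ W n, ∀ w ∈ W (n + 1), ∀ s' ∈ V n, ∀ u' ∈ W n, ∀ w' ∈ W (n + 1),
      ‖s‖ ≤ ρ → ‖u‖ ≤ ρ → ‖w‖ ≤ ρ → ‖s'‖ ≤ ρ → ‖u'‖ ≤ ρ → ‖w'‖ ≤ ρ →
      ‖Gu n s u w - Gu n s' u' w'‖ ≤ 1 / 6 * ‖w - w'‖ + η * (‖s - s'‖ + ‖u - u'‖)) :
    ∃ s u : ℕ → E, s 0 = 0 ∧ (∀ n, s n ∈ V n) ∧ (∀ n, u n ∈ W n) ∧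
      (∀ n, ‖s n‖ ≤ ρ) ∧ (∀ n, ‖u n‖ ≤ ρ) ∧
      (∀ n, s (n + 1) = Fs n (s n) (u n)) ∧ (∀ n, u n = Gu n (s n) (u n) (u (n + 1))) := by
  have hκ : 0 < 8 * (c + 1) := by positivity
  have hκ1 : 1 ≤ 8 * (c + 1) := by linarith
  -- admissible pairs of sequences
  let P : (ℕ → E) × (ℕ → E) → Prop := fun x => ∀ n, x.1 n ∈ V n ∧ x.2 n ∈ W n ∧
    ‖x.1 n‖ ≤ ρ ∧ 8 * (c + 1) * ‖x.2 n‖ ≤ ρ
  have hP1 : ∀ x, P x → ∀ n, ‖x.1 n‖ ≤ ρ := fun x hx n => (hx n).2.2.1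
  have hP2 : ∀ x, P x → ∀ n, ‖x.2 n‖ ≤ ρ := by
    intro x hx n
    refine le_trans ?_ (hx n).2.2.2
    exact le_mul_of_one_le_left (norm_nonneg _) hκ1
  have hP0 : P (fun _ => 0, fun _ => 0) := by
    intro n
    refine ⟨(V n).zero_mem, (W n).zero_mem, ?_, ?_⟩
    · simp only [norm_zero]; exact hρ.le
    · simp only [norm_zero, mul_zero]; exact hρ.le
  -- contraction
  have contr : ∀ x y, P x → P y → ∀ M, 0 ≤ M →
      (∀ n, ‖x.1 n - y.1 n‖ ≤ M) → (∀ n, 8 * (c + 1) * ‖x.2 n - y.2 n‖ ≤ M) →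
      (∀ n, ‖(N4a_step Fs Gu x).1 n - (N4a_step Fs Gu y).1 n‖ ≤ 1 / 3 * M) ∧
      (∀ n, 8 * (c + 1) * ‖(N4a_step Fs Gu x).2 n - (N4a_step Fs Gu y).2 n‖ ≤ 1 / 3 * M) := by
    intro x y hx hy M hM h1 h2
    constructor
    · intro n
      cases n with
      | zero =>
        simp only [N4a_step, sub_self, norm_zero]
        positivity
      | succ m =>
        simp only [N4a_step]
        refine (hFsL m _ (hx m).1 _ (hx m).2.1 _ (hy m).1 _ (hy m).2.1 (hP1 x hx m) (hP2 x hx m)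
          (hP1 y hy m) (hP2 y hy m)).trans ?_
        have h3 := h1 m
        have h4 := h2 m
        have h5 : c * ‖x.2 m - y.2 m‖ ≤ 1 / 8 * M := by
          have h6 : c * ‖x.2 m - y.2 m‖ ≤ (c + 1) * ‖x.2 m - y.2 m‖ :=
            mul_le_mul_of_nonneg_right (by linarith) (norm_nonneg _)
          linarith
        linarith
    · intro n
      simp only [N4a_step]
      have h0 := hGuL n _ (hx n).1 _ (hx n).2.1 _ (hx (n + 1)).2.1 _ (hy n).1 _ (hy n).2.1 _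
        (hy (n + 1)).2.1 (hP1 x hx n) (hP2 x hx n) (hP2 x hx (n + 1))
        (hP1 y hy n) (hP2 y hy n) (hP2 y hy (n + 1))
      have h3 := h1 n
      have h4 := h2 n
      have h5 := h2 (n + 1)
      have h8 : ‖x.2 n - y.2 n‖ ≤ M := by
        refine le_trans ?_ h4
        exact le_mul_of_one_le_left (norm_nonneg _) hκ1
      have h9 : 8 * (c + 1) * (η * (‖x.1 n - y.1 n‖ + ‖x.2 n - y.2 n‖)) ≤ 16 / 1000 * M := by
        have h10 : 8 * (c + 1) * (η * (‖x.1 n - y.1 n‖ + ‖x.2 n - y.2 n‖)) =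
            8 * (η * (c + 1)) * (‖x.1 n - y.1 n‖ + ‖x.2 n - y.2 n‖) := by ring
        rw [h10]
        have h11 : 0 ≤ ‖x.1 n - y.1 n‖ + ‖x.2 n - y.2 n‖ := by positivity
        calc 8 * (η * (c + 1)) * (‖x.1 n - y.1 n‖ + ‖x.2 n - y.2 n‖)
            ≤ 8 * (1 / 1000) * (‖x.1 n - y.1 n‖ + ‖x.2 n - y.2 n‖) :=
              mul_le_mul_of_nonneg_right (by linarith) h11
          _ ≤ 8 * (1 / 1000) * (M + M) := mul_le_mul_of_nonneg_left (by linarith) (by norm_num)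
          _ = 16 / 1000 * M := by ring
      calc 8 * (c + 1) * ‖Gu n (x.1 n) (x.2 n) (x.2 (n + 1)) - Gu n (y.1 n) (y.2 n) (y.2 (n + 1))‖
          ≤ 8 * (c + 1) * (1 / 6 * ‖x.2 (n + 1) - y.2 (n + 1)‖ +
            η * (‖x.1 n - y.1 n‖ + ‖x.2 n - y.2 n‖)) := mul_le_mul_of_nonneg_left h0 hκ.le
        _ = 1 / 6 * (8 * (c + 1) * ‖x.2 (n + 1) - y.2 (n + 1)‖) +
            8 * (c + 1) * (η * (‖x.1 n - y.1 n‖ + ‖x.2 n - y.2 n‖)) := by ring
        _ ≤ 1 / 6 * M + 16 / 1000 * M :=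
            add_le_add (mul_le_mul_of_nonneg_left h5 (by norm_num)) h9
        _ ≤ 1 / 3 * M := by linarith
  -- the image of `0`
  have hstep01 : ∀ n, ‖(N4a_step Fs Gu (fun _ => 0, fun _ => 0)).1 n‖ ≤ 1 / 2 * ρ := by
    intro n
    cases n with
    | zero =>
      simp only [N4a_step, norm_zero]
      positivity
    | succ m =>
      have h1 := hFs0 m
      have h2 : 20 * τ ≤ 20 * (c + 1) * τ := by nlinarith [mul_nonneg hc hτ]
      show ‖Fs m 0 0‖ ≤ 1 / 2 * ρ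
      linarith
  have hstep02 : ∀ n, 8 * (c + 1) * ‖(N4a_step Fs Gu (fun _ => 0, fun _ => 0)).2 n‖ ≤
      1 / 2 * ρ := by
    intro n
    show 8 * (c + 1) * ‖Gu n 0 0 0‖ ≤ 1 / 2 * ρ
    have h1 : 8 * (c + 1) * ‖Gu n 0 0 0‖ ≤ 8 * (c + 1) * τ :=
      mul_le_mul_of_nonneg_left (hGu0 n) hκ.le
    linarith
  -- invariance
  have hPstep : ∀ x, P x → P (N4a_step Fs Gu x) := by
    intro x hx n
    obtain ⟨c1, c2⟩ := contr x (fun _ => 0, fun _ => 0) hx hP0 ρ hρ.le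
      (fun n => by simpa using (hx n).2.2.1) (fun n => by simpa using (hx n).2.2.2)
    refine ⟨?_, ?_, ?_, ?_⟩
    · cases n with
      | zero => exact (V 0).zero_mem
      | succ m => exact hFs m _ (hx m).1 _ (hx m).2.1 (hP1 x hx m) (hP2 x hx m)
    · exact hGu n _ (hx n).1 _ (hx n).2.1 _ (hx (n + 1)).2.1 (hP1 x hx n) (hP2 x hx n)
        (hP2 x hx (n + 1))
    · have h1 := c1 n
      have h2 := hstep01 n
      have h3 := norm_le_norm_add_norm_sub' ((N4a_step Fs Gu x).1 n)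
        ((N4a_step Fs Gu (fun _ => 0, fun _ => 0)).1 n)
      linarith
    · have h1 := c2 n
      have h2 := hstep02 n
      have h3 := norm_le_norm_add_norm_sub' ((N4a_step Fs Gu x).2 n)
        ((N4a_step Fs Gu (fun _ => 0, fun _ => 0)).2 n)
      have h4 := mul_le_mul_of_nonneg_left h3 hκ.le
      rw [mul_add] at h4
      linarith
  have hPit : ∀ k, P (N4a_it Fs Gu k) := by
    intro k
    induction k with
    | zero => exact hP0
    | succ k ih => exact hPstep _ ih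
  -- geometric differences
  have hD : ∀ k, (∀ n, ‖(N4a_it Fs Gu (k + 1)).1 n - (N4a_it Fs Gu k).1 n‖ ≤
      ρ * (1 / 3) ^ k) ∧
      (∀ n, 8 * (c + 1) * ‖(N4a_it Fs Gu (k + 1)).2 n - (N4a_it Fs Gu k).2 n‖ ≤
      ρ * (1 / 3) ^ k) := by
    intro k
    induction k with
    | zero =>
      constructor
      · intro n
        have h1 := hstep01 n
        have h2 : (N4a_it Fs Gu (0 + 1)).1 n - (N4a_it Fs Gu 0).1 n =
            (N4a_step Fs Gu (fun _ => 0, fun _ => 0)).1 n := by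
          show (N4a_step Fs Gu (fun _ => 0, fun _ => 0)).1 n - 0 = _
          rw [sub_zero]
        rw [h2, pow_zero, mul_one]
        linarith
      · intro n
        have h1 := hstep02 n
        have h2 : (N4a_it Fs Gu (0 + 1)).2 n - (N4a_it Fs Gu 0).2 n =
            (N4a_step Fs Gu (fun _ => 0, fun _ => 0)).2 n := by
          show (N4a_step Fs Gu (fun _ => 0, fun _ => 0)).2 n - 0 = _
          rw [sub_zero]
        rw [h2, pow_zero, mul_one]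
        linarith
    | succ k ih =>
      have h := contr _ _ (hPit (k + 1)) (hPit k) (ρ * (1 / 3) ^ k) (by positivity) ih.1 ih.2
      have e : 1 / 3 * (ρ * (1 / 3 : ℝ) ^ k) = ρ * (1 / 3) ^ (k + 1) := by
        rw [pow_succ]; ring
      exact ⟨fun n => (h.1 n).trans_eq e, fun n => (h.2 n).trans_eq e⟩
  -- limits
  have hlim1 : ∀ n, ∃ l, Tendsto (fun k => (N4a_it Fs Gu k).1 n) atTop (𝓝 l) := by
    intro n
    refine cauchySeq_tendsto_of_complete (cauchySeq_of_le_geometric (1 / 3) ρ (by norm_num)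
      fun k => ?_)
    rw [dist_comm, dist_eq_norm]
    exact (hD k).1 n
  have hlim2 : ∀ n, ∃ l, Tendsto (fun k => (N4a_it Fs Gu k).2 n) atTop (𝓝 l) := by
    intro n
    refine cauchySeq_tendsto_of_complete (cauchySeq_of_le_geometric (1 / 3) ρ (by norm_num)
      fun k => ?_)
    rw [dist_comm, dist_eq_norm]
    have h0 : ‖(N4a_it Fs Gu (k + 1)).2 n - (N4a_it Fs Gu k).2 n‖ ≤
        8 * (c + 1) * ‖(N4a_it Fs Gu (k + 1)).2 n - (N4a_it Fs Gu k).2 n‖ :=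
      le_mul_of_one_le_left (norm_nonneg _) hκ1
    exact h0.trans ((hD k).2 n)
  choose s hs using hlim1
  choose u hu using hlim2
  have hPsu : P (s, u) := by
    intro n
    refine ⟨?_, ?_, ?_, ?_⟩
    · exact (hV n).mem_of_tendsto (hs n) (Eventually.of_forall fun k => (hPit k n).1)
    · exact (hW n).mem_of_tendsto (hu n) (Eventually.of_forall fun k => (hPit k n).2.1)
    · exact le_of_tendsto (hs n).norm (Eventually.of_forall fun k => (hPit k n).2.2.1)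
    · exact le_of_tendsto ((hu n).norm.const_mul _) (Eventually.of_forall fun k => (hPit k n).2.2.2)
  refine ⟨s, u, ?_, fun n => (hPsu n).1, fun n => (hPsu n).2.1, fun n => (hPsu n).2.2.1,
    hP2 _ hPsu, ?_, ?_⟩
  · have h1 : Tendsto (fun k => (N4a_it Fs Gu (k + 1)).1 0) atTop (𝓝 (s 0)) :=
      (hs 0).comp (tendsto_add_atTop_nat 1)
    exact tendsto_nhds_unique h1 tendsto_const_nhds
  · intro n
    have h1 : Tendsto (fun k => (N4a_it Fs Gu (k + 1)).1 (n + 1)) atTop (𝓝 (s (n + 1))) :=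
      (hs (n + 1)).comp (tendsto_add_atTop_nat 1)
    have h2 : Tendsto (fun k => Fs n ((N4a_it Fs Gu k).1 n) ((N4a_it Fs Gu k).2 n)) atTop
        (𝓝 (Fs n (s n) (u n))) := by
      rw [tendsto_iff_norm_sub_tendsto_zero]
      have h3 : Tendsto (fun k => 1 / 6 * ‖(N4a_it Fs Gu k).1 n - s n‖ +
          c * ‖(N4a_it Fs Gu k).2 n - u n‖) atTop (𝓝 (1 / 6 * 0 + c * 0)) :=
        ((tendsto_iff_norm_sub_tendsto_zero.1 (hs n)).const_mul _).add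
          ((tendsto_iff_norm_sub_tendsto_zero.1 (hu n)).const_mul _)
      rw [mul_zero, mul_zero, add_zero] at h3
      refine squeeze_zero (fun k => norm_nonneg _) (fun k => ?_) h3
      exact hFsL n _ (hPit k n).1 _ (hPit k n).2.1 _ (hPsu n).1 _ (hPsu n).2.1
        (hP1 _ (hPit k) n) (hP2 _ (hPit k) n) (hP1 _ hPsu n) (hP2 _ hPsu n)
    exact tendsto_nhds_unique h1 h2
  · intro n
    have h1 : Tendsto (fun k => (N4a_it Fs Gu (k + 1)).2 n) atTop (𝓝 (u n)) :=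
      (hu n).comp (tendsto_add_atTop_nat 1)
    have h2 : Tendsto (fun k => Gu n ((N4a_it Fs Gu k).1 n) ((N4a_it Fs Gu k).2 n)
        ((N4a_it Fs Gu k).2 (n + 1))) atTop (𝓝 (Gu n (s n) (u n) (u (n + 1)))) := by
      rw [tendsto_iff_norm_sub_tendsto_zero]
      have h3 : Tendsto (fun k => 1 / 6 * ‖(N4a_it Fs Gu k).2 (n + 1) - u (n + 1)‖ +
          η * (‖(N4a_it Fs Gu k).1 n - s n‖ + ‖(N4a_it Fs Gu k).2 n - u n‖)) atTop
          (𝓝 (1 / 6 * 0 + η * (0 + 0))) :=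
        ((tendsto_iff_norm_sub_tendsto_zero.1 (hu (n + 1))).const_mul _).add
          (((tendsto_iff_norm_sub_tendsto_zero.1 (hs n)).add
            (tendsto_iff_norm_sub_tendsto_zero.1 (hu n))).const_mul _)
      rw [mul_zero, add_zero, mul_zero, add_zero] at h3
      refine squeeze_zero (fun k => norm_nonneg _) (fun k => ?_) h3
      exact hGuL n _ (hPit k n).1 _ (hPit k n).2.1 _ (hPit k (n + 1)).2.1 _ (hPsu n).1 _
        (hPsu n).2.1 _ (hPsu (n + 1)).2.1 (hP1 _ (hPit k) n) (hP2 _ (hPit k) n)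
        (hP2 _ (hPit k) (n + 1)) (hP1 _ hPsu n) (hP2 _ hPsu n) (hP2 _ hPsu (n + 1))
    exact tendsto_nhds_unique h1 h2

end Pool.MP85
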