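import Pool.Agent.Lib.MP_85e637_an.AbsC
import Pool.Agent.Lib.MP_85e637_an.C01
import Pool.Agent.Lib.MP_85e637_an.C03
import Pool.Agent.Lib.MP_85e637_an.C10
import Pool.Agent.Lib.MP_85e637_an.C11
import Pool.Agent.Lib.MP_85e637_an.N4a
import Pool.Agent.Lib.MP_85e637_an.C12

/-!
# N4b: shadowing in a contracted bundle
-/

open Filter Topology Set Metric Module

namespace Pool.MP85

section CBs
variable {d N k : ℕ} {K : Type} [MetricSpace K] [CompactSpace K] {S : ESys d N K} {R : Set K}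
  {V : K → Submodule ℝ (EE N)}

/-- the projections onto the fibres are jointly continuous over `R` -/
theorem CB.N4b_cont (h : CB S R V k) : ContinuousOn
    (fun q : K × EE N => (V q.1).starProjection q.2) (R ×ˢ closedBall (0 : EE N) 1) := by
  intro q0 hq0
  rw [ContinuousWithinAt]
  refine tendsto_of_seq_tendsto fun q hq => ?_
  rw [tendsto_nhdsWithin_iff] at hq
  obtain ⟨hq1, hq2⟩ := hq
  refine tendsto_of_subseq_tendsto fun ns hns => ?_
  -- only finitely many bad indices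
  obtain ⟨n1, hn1⟩ := eventually_atTop.1 hq2
  obtain ⟨n2, hn2⟩ := eventually_atTop.1 (hns.eventually_ge_atTop n1)
  have hmem : ∀ n, q (ns (n + n2)) ∈ R ×ˢ closedBall (0 : EE N) 1 := fun n =>
    hn1 _ (hn2 _ (by omega))
  have hc : IsCompact (closedBall (0 : EE N) 1) := isCompact_closedBall _ _
  have hwm : ∀ n, (V (q (ns (n + n2))).1).starProjection (q (ns (n + n2))).2 ∈
      closedBall (0 : EE N) 1 := by
    intro n
    rw [mem_closedBall_zero_iff]
    exact (Submodule.norm_starProjection_apply_le _ _).trans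
      (mem_closedBall_zero_iff.1 (hmem n).2)
  obtain ⟨w0, -, φ, hφ, hw0⟩ := hc.tendsto_subseq hwm
  refine ⟨fun n => φ n + n2, ?_⟩
  have hlim : Tendsto (fun n => ns (φ n + n2)) atTop atTop :=
    hns.comp ((tendsto_add_atTop_nat n2).comp hφ.tendsto_atTop)
  have hq3 : Tendsto (fun n => q (ns (φ n + n2))) atTop (𝓝 q0) := hq1.comp hlim
  have hx : Tendsto (fun n => (q (ns (φ n + n2))).1) atTop (𝓝 q0.1) :=
    (continuous_fst.tendsto q0).comp hq3
  have hv : Tendsto (fun n => (q (ns (φ n + n2))).2) atTop (𝓝 q0.2) :=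
    (continuous_snd.tendsto q0).comp hq3
  have hw : Tendsto (fun n => (V (q (ns (φ n + n2))).1).starProjection (q (ns (φ n + n2))).2)
      atTop (𝓝 w0) := hw0
  have h1 : w0 ∈ V q0.1 := h.closed (fun n => (q (ns (φ n + n2))).1) _ q0.1 w0
    (fun n => (hmem _).1) (fun n => Submodule.starProjection_apply_mem _ _) hx hw
  have h2 : ∀ u ∈ V q0.1, inner ℝ (q0.2 - w0) u = 0 := by
    intro u hu
    obtain ⟨b, hb, hbl⟩ := sub_lower (V := V) (x := fun n => (q (ns (φ n + n2))).1)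
      (x0 := q0.1) (k := k) (fun n => h.rank _ (hmem _).1) (h.rank _ hq0.1)
      (fun ψ b b0 hψ hb hb0 => h.closed (fun n => (q (ns (φ (ψ n) + n2))).1) b q0.1 b0
        (fun n => (hmem _).1) hb (hx.comp hψ.tendsto_atTop) hb0) hu
    have hc2 : Tendsto (fun n => inner ℝ ((q (ns (φ n + n2))).2 -
        (V (q (ns (φ n + n2))).1).starProjection (q (ns (φ n + n2))).2) (b n)) atTop
        (𝓝 (inner ℝ (q0.2 - w0) u)) := (hv.sub hw).inner hbl
    have hc3 : (fun n => inner ℝ ((q (ns (φ n + n2))).2 -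
        (V (q (ns (φ n + n2))).1).starProjection (q (ns (φ n + n2))).2) (b n))
        = fun _ => (0 : ℝ) := by
      funext n
      exact Submodule.starProjection_inner_eq_zero _ _ (hb n)
    rw [hc3] at hc2
    exact (tendsto_nhds_unique hc2 tendsto_const_nhds)
  have h3 : (V q0.1).starProjection q0.2 = w0 :=
    Submodule.eq_starProjection_of_mem_of_inner_eq_zero h1 h2
  rw [h3]
  exact hw

/-- uniform continuity of the fibres -/
theorem CB.N4b_unif (h : CB S R V k) : ∀ μ > 0, ∃ δ > 0, ∀ y ∈ R, ∀ y' ∈ R, dist y y' < δ →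
    ∀ v, ‖(V y).starProjection v - (V y').starProjection v‖ ≤ μ * ‖v‖ := by
  intro μ hμ
  have hc : IsCompact (R ×ˢ closedBall (0 : EE N) 1) := h.cpt.prod (isCompact_closedBall _ _)
  have hu := hc.uniformContinuousOn_of_continuous h.N4b_cont
  rw [Metric.uniformContinuousOn_iff] at hu
  obtain ⟨δ, hδ, hδ'⟩ := hu μ hμ
  refine ⟨δ, hδ, fun y hy y' hy' hyy v => ?_⟩
  by_cases hv : v = 0
  · subst hv
    simp
  have hn : 0 < ‖v‖ := norm_pos_iff.2 hv
  have hb : ‖v‖⁻¹ • v ∈ closedBall (0 : EE N) 1 := by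
    rw [mem_closedBall_zero_iff, norm_smul, norm_inv, norm_norm, inv_mul_cancel₀ hn.ne']
  have h1 := hδ' (y, ‖v‖⁻¹ • v) ⟨hy, hb⟩ (y', ‖v‖⁻¹ • v) ⟨hy', hb⟩ (by
    rw [Prod.dist_eq]
    simp only [dist_self]
    exact max_lt hyy hδ)
  rw [dist_eq_norm] at h1
  have h2 : (V y).starProjection (‖v‖⁻¹ • v) - (V y').starProjection (‖v‖⁻¹ • v) =
      ‖v‖⁻¹ • ((V y).starProjection v - (V y').starProjection v) := by
    rw [map_smul, map_smul, smul_sub]
  have h3 : ‖(V y).starProjection (‖v‖⁻¹ • v) - (V y').starProjection (‖v‖⁻¹ • v)‖ < μ := h1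
  rw [h2, norm_smul, norm_inv, norm_norm, inv_mul_lt_iff₀ hn] at h3
  linarith

/-- orthogonal component -/
theorem N4b_orth (U : Submodule ℝ (EE N)) (v : EE N) :
    Uᗮ.starProjection v = v - U.starProjection v := by
  have h0 := U.starProjection_add_starProjection_orthogonal v
  rw [eq_sub_iff_add_eq, add_comm]
  exact h0

/-- projection onto a smaller space -/
theorem CB.N4b_QP (h : CB S R V k) {y : K} (hy : y ∈ R) (v : EE N) :
    (V y).starProjection (S.P y v) = (V y).starProjection v := by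
  apply Submodule.eq_starProjection_of_mem_of_inner_eq_zero
    (Submodule.starProjection_apply_mem _ _)
  intro u hu
  have h1 : inner ℝ (v - (V y).starProjection v) u = 0 :=
    Submodule.starProjection_inner_eq_zero _ _ hu
  have h2 : S.P y u = u := (S.mem_T).1 (h.le y hy hu)
  rw [inner_sub_left] at h1 ⊢
  rw [S.Psa, h2]
  exact h1

section step
variable {x x' : K} {μ : ℝ}

/-- the stable directions -/
theorem CB.N4b_s (h : CB S R V k) (hx : x ∈ R) (hx' : x' ∈ R)
    (hP : ∀ v, ‖S.P (S.f x) v - S.P x' v‖ ≤ μ * ‖v‖)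
    (hQ : ∀ v, ‖(V (S.f x)).starProjection v - (V x').starProjection v‖ ≤ μ * ‖v‖)
    (hμ : 0 ≤ μ) {s : EE N} (hs : s ∈ V x) :
    ‖(V x')ᗮ.starProjection (S.P x' (S.A x s))‖ ≤ μ * ‖s‖ := by
  have hfx := h.inv x hx
  have h1 : S.A x s ∈ V (S.f x) := h.map x hx s hs
  have h2 : (V (S.f x)).starProjection (S.A x s) = S.A x s :=
    Submodule.starProjection_eq_self_iff.2 h1
  have h3 : S.P (S.f x) (S.A x s) = S.A x s := (S.mem_T).1 (S.A_mem x s)
  rw [N4b_orth, h.N4b_QP hx']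
  have h4 := hP (S.A x s)
  have h5 := hQ (S.A x s)
  rw [h3] at h4
  rw [h2] at h5
  have h6 : S.P x' (S.A x s) - (V x').starProjection (S.A x s) =
      -(S.A x s - S.P x' (S.A x s)) + (S.A x s - (V x').starProjection (S.A x s)) := by abel
  rw [h6]
  have h7 := h.con x hx s hs
  have h8 := norm_add_le (-(S.A x s - S.P x' (S.A x s)))
    (S.A x s - (V x').starProjection (S.A x s))
  rw [norm_neg] at h8
  have h9 : μ * ‖S.A x s‖ ≤ μ * (‖s‖ / 8) := mul_le_mul_of_nonneg_left (by linarith) hμ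
  have h10 : 0 ≤ μ * ‖s‖ := mul_nonneg hμ (norm_nonneg _)
  linarith

/-- the unstable directions -/
theorem CB.N4b_u (h : CB S R V k) (hx : x ∈ R) (hx' : x' ∈ R)
    (hP : ∀ v, ‖S.P (S.f x) v - S.P x' v‖ ≤ μ * ‖v‖)
    (hQ : ∀ v, ‖(V (S.f x)).starProjection v - (V x').starProjection v‖ ≤ μ * ‖v‖)
    {cA : ℝ} (hA : ‖S.A x‖ ≤ cA) (hμ : 0 ≤ μ) (hμA : μ * cA ≤ 1)
    {u : EE N} (hu : u ∈ (V x)ᗮ ⊓ S.T x) :
    6 * ‖u‖ ≤ ‖(V x')ᗮ.starProjection (S.P x' (S.A x u))‖ := by
  have h1 := h.exp x hx u hu.2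
  rw [C11_infDist, C11_infDist, Submodule.starProjection_eq_self_iff.2 hu.1, N4b_orth] at h1
  have h3 : S.P (S.f x) (S.A x u) = S.A x u := (S.mem_T).1 (S.A_mem x u)
  rw [N4b_orth, h.N4b_QP hx']
  have h4 := hP (S.A x u)
  have h5 := hQ (S.A x u)
  rw [h3] at h4
  have h6 : S.A x u - (V (S.f x)).starProjection (S.A x u) =
      (S.P x' (S.A x u) - (V x').starProjection (S.A x u)) +
      ((S.A x u - S.P x' (S.A x u)) -
        ((V (S.f x)).starProjection (S.A x u) - (V x').starProjection (S.A x u))) := by abel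
  have h7 := norm_add_le (S.P x' (S.A x u) - (V x').starProjection (S.A x u))
      ((S.A x u - S.P x' (S.A x u)) -
        ((V (S.f x)).starProjection (S.A x u) - (V x').starProjection (S.A x u)))
  rw [← h6] at h7
  have h8 := norm_sub_le (S.A x u - S.P x' (S.A x u))
    ((V (S.f x)).starProjection (S.A x u) - (V x').starProjection (S.A x u))
  have h9 : ‖S.A x u‖ ≤ cA * ‖u‖ := (ContinuousLinearMap.le_opNorm _ _).trans
    (mul_le_mul_of_nonneg_right hA (norm_nonneg _))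
  have h10 : μ * ‖S.A x u‖ ≤ μ * (cA * ‖u‖) := mul_le_mul_of_nonneg_left h9 hμ
  have h11 : μ * (cA * ‖u‖) ≤ 1 * ‖u‖ := by
    rw [← mul_assoc]
    exact mul_le_mul_of_nonneg_right hμA (norm_nonneg _)
  linarith

/-- inverse in the unstable directions -/
theorem CB.N4b_Dinv (h : CB S R V k) (hx : x ∈ R) (hx' : x' ∈ R)
    (hP : ∀ v, ‖S.P (S.f x) v - S.P x' v‖ ≤ μ * ‖v‖)
    (hQ : ∀ v, ‖(V (S.f x)).starProjection v - (V x').starProjection v‖ ≤ μ * ‖v‖)
    {cA : ℝ} (hA : ‖S.A x‖ ≤ cA) (hμ : 0 ≤ μ) (hμA : μ * cA ≤ 1) : ∃ D : EE N → EE N,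
    ∀ w ∈ (V x')ᗮ ⊓ S.T x', D w ∈ (V x)ᗮ ⊓ S.T x ∧
      (V x')ᗮ.starProjection (S.P x' (S.A x (D w))) = w ∧
      ∀ w' ∈ (V x')ᗮ ⊓ S.T x', 6 * ‖D w - D w'‖ ≤ ‖w - w'‖ := by
  have hbd : ∀ u ∈ (V x)ᗮ ⊓ S.T x, 6 * ‖u‖ ≤ ‖(V x')ᗮ.starProjection (S.P x' (S.A x u))‖ :=
    fun u hu => h.N4b_u hx hx' hP hQ hA hμ hμA hu
  have hfin : ∀ y ∈ R, k + finrank ℝ ↥((V y)ᗮ ⊓ S.T y) = d := by
    intro y hy
    have := Submodule.finrank_add_inf_finrank_orthogonal (h.le y hy)
    rw [h.rank y hy, S.rankP y] at this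
    exact this
  have hs := C11_surj ((V x)ᗮ ⊓ S.T x) ((V x')ᗮ ⊓ S.T x')
    (((V x')ᗮ.starProjection ∘L (S.P x' ∘L S.A x) : EE N →L[ℝ] EE N) : EE N →ₗ[ℝ] EE N)
    (by
      intro w hw
      refine ⟨Submodule.starProjection_apply_mem _ _, ?_⟩
      show (V x')ᗮ.starProjection (S.P x' (S.A x w)) ∈ S.T x'
      rw [N4b_orth]
      exact Submodule.sub_mem _ (S.P_mem x' _)
        (h.le _ hx' (Submodule.starProjection_apply_mem _ _)))
    (by
      intro w hw h0
      have h1 := hbd w hw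
      have h2 : (V x')ᗮ.starProjection (S.P x' (S.A x w)) = 0 := h0
      rw [h2, norm_zero] at h1
      have : ‖w‖ ≤ 0 := by linarith
      exact norm_le_zero_iff.1 this)
    (by have h1 := hfin x hx; have h2 := hfin _ hx'; omega)
  have hs' : ∀ w, ∃ u, w ∈ (V x')ᗮ ⊓ S.T x' → (u ∈ (V x)ᗮ ⊓ S.T x ∧
      (V x')ᗮ.starProjection (S.P x' (S.A x u)) = w) := by
    intro w
    by_cases hw : w ∈ (V x')ᗮ ⊓ S.T x'
    · obtain ⟨u, hu, hu'⟩ := hs w hw
      exact ⟨u, fun _ => ⟨hu, hu'⟩⟩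
    · exact ⟨0, fun h' => absurd h' hw⟩
  choose D hD using hs'
  refine ⟨D, fun w hw => ⟨(hD w hw).1, (hD w hw).2, fun w' hw' => ?_⟩⟩
  have h1 := hbd (D w - D w') (Submodule.sub_mem _ (hD w hw).1 (hD w' hw').1)
  rwa [map_sub, map_sub, map_sub, (hD w hw).2, (hD w' hw').2] at h1

end step

/-- N4b: shadowing -/
theorem CB.shadow (h : CB S R V k) : ∀ ε > 0, ∃ τ > 0, ∀ x : ℕ → K, (∀ n, x n ∈ R) →
    (∀ n, dist (S.f (x n)) (x (n + 1)) < τ) → ∃ y, (∀ n, dist (fw S.f n y) (x n) ≤ ε) ∧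
      ∀ v ∈ V (x 0), inner ℝ (S.e y - S.e (x 0)) v = 0 := by
  intro ε hε
  obtain ⟨cA, hcA1, hcA⟩ := S.toCoc.An_bound
  have hA : ∀ x, ‖S.A x‖ ≤ cA := by
    intro x
    have := hcA 1 x
    rwa [S.toCoc.An_one, pow_one] at this
  obtain ⟨ρ1, hρ1, hch1, hch3⟩ := S.chart (1/2) (by norm_num) (by norm_num)
  have hch3' : ∀ x v, ∃ y, v ∈ S.T x → ‖v‖ < ρ1 → (S.P x (S.e y - S.e x) = v ∧
      dist x y ≤ (1 + 1/2) * ‖v‖ ∧
      ∀ y', dist x y' < ρ1 → S.P x (S.e y' - S.e x) = v → y' = y) := by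
    intro x v
    by_cases hv : v ∈ S.T x ∧ ‖v‖ < ρ1
    · obtain ⟨y, hy⟩ := hch3 x v hv.1 hv.2
      exact ⟨y, fun _ _ => hy⟩
    · exact ⟨x, fun h1 h2 => absurd ⟨h1, h2⟩ hv⟩
  choose c hc using hch3'
  have hcA2 : 0 < cA + 2 := by linarith
  -- constants
  obtain ⟨η, hη⟩ : ∃ η : ℝ, η = 1 / (1000 * (cA + 2)) := ⟨_, rfl⟩
  have hηpos : 0 < η := by rw [hη]; positivity
  have hηA : η * (cA + 2) = 1 / 1000 := by
    rw [hη]
    field_simp
  have hη24 : η ≤ 1 / 24 := by nlinarith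
  obtain ⟨ρ2, hρ2, hdiff⟩ := S.diff (η / 4) (by positivity)
  obtain ⟨δQ, hδQ, hunifQ⟩ := h.N4b_unif (η / 2) (by positivity)
  obtain ⟨δP, hδP, hunifP⟩ : ∃ δP > 0, ∀ y y', dist y y' < δP →
      ∀ v, ‖S.P y v - S.P y' v‖ ≤ η / 2 * ‖v‖ := by
    have hu := CompactSpace.uniformContinuous_of_continuous S.contP
    rw [Metric.uniformContinuous_iff] at hu
    obtain ⟨δ, hδ, hδ'⟩ := hu (η / 2) (by positivity)
    refine ⟨δ, hδ, fun y y' hy v => ?_⟩
    have h1 := hδ' hy
    rw [dist_eq_norm] at h1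
    have h2 := (S.P y - S.P y').le_opNorm v
    rw [_root_.sub_apply] at h2
    exact h2.trans (mul_le_mul_of_nonneg_right h1.le (norm_nonneg _))
  obtain ⟨ρ, hρ⟩ : ∃ ρ : ℝ, ρ = min (min ρ1 ρ2 / 8) (min (ε / 4) (ρ1 / (32 * (cA + 2)))) :=
    ⟨_, rfl⟩
  have hρpos : 0 < ρ := by rw [hρ]; positivity
  have hρle1 : 8 * ρ ≤ ρ1 := by
    have h1 := min_le_left ρ1 ρ2
    have h2 := min_le_left (min ρ1 ρ2 / 8) (min (ε / 4) (ρ1 / (32 * (cA + 2))))
    rw [← hρ] at h2; linarith
  have hρle2 : 8 * ρ ≤ ρ2 := by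
    have h1 := min_le_right ρ1 ρ2
    have h2 := min_le_left (min ρ1 ρ2 / 8) (min (ε / 4) (ρ1 / (32 * (cA + 2))))
    rw [← hρ] at h2; linarith
  have hρle3 : 4 * ρ ≤ ε := by
    have h2 := (min_le_right (min ρ1 ρ2 / 8) (min (ε / 4) (ρ1 / (32 * (cA + 2))))).trans
      (min_le_left _ _)
    rw [← hρ] at h2; linarith
  have hρle4 : ρ * (32 * (cA + 2)) ≤ ρ1 := by
    have h2 := (min_le_right (min ρ1 ρ2 / 8) (min (ε / 4) (ρ1 / (32 * (cA + 2))))).trans
      (min_le_right _ _)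
    rw [← hρ, le_div_iff₀ (by positivity)] at h2
    exact h2
  obtain ⟨τ, hτ⟩ : ∃ τ : ℝ, τ = min (ρ / (20 * (cA + 2))) (min δQ δP) := ⟨_, rfl⟩
  have hτpos : 0 < τ := by rw [hτ]; positivity
  have hτ1 : τ * (20 * (cA + 2)) ≤ ρ := by
    have h2 := min_le_left (ρ / (20 * (cA + 2))) (min δQ δP)
    rw [← hτ, le_div_iff₀ (by positivity)] at h2
    exact h2
  have hτ2 : τ ≤ δQ := by
    have h2 := (min_le_right (ρ / (20 * (cA + 2))) (min δQ δP)).trans (min_le_left _ _)
    rwa [← hτ] at h2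
  have hτ3 : τ ≤ δP := by
    have h2 := (min_le_right (ρ / (20 * (cA + 2))) (min δQ δP)).trans (min_le_right _ _)
    rwa [← hτ] at h2
  have hτρ : 20 * τ ≤ ρ := by nlinarith
  refine ⟨τ, hτpos, ?_⟩
  intro x hxR hxτ
  have hPn : ∀ n v, ‖S.P (S.f (x n)) v - S.P (x (n + 1)) v‖ ≤ η / 2 * ‖v‖ := fun n v =>
    hunifP _ _ (lt_of_lt_of_le (hxτ n) hτ3) v
  have hQn : ∀ n v, ‖(V (S.f (x n))).starProjection v - (V (x (n + 1))).starProjection v‖ ≤
      η / 2 * ‖v‖ := fun n v =>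
    hunifQ _ (h.inv _ (hxR n)) _ (hxR _) (lt_of_lt_of_le (hxτ n) hτ2) v
  have hηA' : η / 2 * cA ≤ 1 := by nlinarith
  have hD := fun n => h.N4b_Dinv (hxR n) (hxR (n + 1)) (hPn n) (hQn n) (hA (x n))
    (by positivity) hηA'
  choose D hD using hD
  have hPle : ∀ (z : K) (w : EE N), ‖S.P z w‖ ≤ ‖w‖ := fun z w => S.toCoc.norm_P_le z w
  have hpn : ∀ (U : Submodule ℝ (EE N)) (v : EE N), ‖U.starProjection v‖ ≤ ‖v‖ :=
    fun U v => Submodule.norm_starProjection_apply_le _ _
  -- local charts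
  let Fn : ℕ → EE N → EE N := fun n v =>
    S.P (x (n + 1)) (S.e (S.f (c (x n) v)) - S.e (x (n + 1)))
  have hFn_mem : ∀ n v, Fn n v ∈ S.T (x (n + 1)) := fun n v => ⟨_, rfl⟩
  have hc0 : ∀ z, c z 0 = z := by
    intro z
    have := (hc z 0 (Submodule.zero_mem _) (by simpa using hρ1)).2.1
    rw [norm_zero, mul_zero] at this
    exact (dist_le_zero.1 this).symm
  have hFn0 : ∀ n, ‖Fn n 0‖ ≤ τ := by
    intro n
    show ‖S.P (x (n + 1)) (S.e (S.f (c (x n) 0)) - S.e (x (n + 1)))‖ ≤ τ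
    rw [hc0]
    refine (hPle _ _).trans ?_
    rw [S.e_isom]
    exact (hxτ n).le
  have hFnL : ∀ n, ∀ v ∈ S.T (x n), ∀ v' ∈ S.T (x n), ‖v‖ ≤ 2 * ρ → ‖v'‖ ≤ 2 * ρ →
      ‖(Fn n v - Fn n v') - S.P (x (n + 1)) (S.A (x n) (v - v'))‖ ≤ η / 2 * ‖v - v'‖ := by
    intro n v hv v' hv' hn hn'
    have e1 := hc (x n) v hv (by linarith)
    have e1' := hc (x n) v' hv' (by linarith)
    have d1 : dist (x n) (c (x n) v) ≤ 3 * ρ := e1.2.1.trans (by linarith)
    have d1' : dist (x n) (c (x n) v') ≤ 3 * ρ := e1'.2.1.trans (by linarith)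
    have e2 := hdiff (x n) (c (x n) v) (c (x n) v') (by linarith) (by linarith)
    have e3 := (hch1 (x n) (c (x n) v) (c (x n) v') (by linarith) (by linarith)).1
    have e4 : S.P (x n) (S.e (c (x n) v) - S.e (c (x n) v')) = v - v' := by
      have : S.e (c (x n) v) - S.e (c (x n) v') =
        (S.e (c (x n) v) - S.e (x n)) - (S.e (c (x n) v') - S.e (x n)) := by abel
      rw [this, map_sub, e1.1, e1'.1]
    rw [e4] at e3
    have e5 : S.A (x n) (v - v') = S.A (x n) (S.e (c (x n) v) - S.e (c (x n) v')) := by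
      rw [← e4]
      have := congrArg (fun L => L (S.e (c (x n) v) - S.e (c (x n) v'))) (S.AP (x n))
      exact this
    have e6 : (Fn n v - Fn n v') - S.P (x (n + 1)) (S.A (x n) (v - v')) = S.P (x (n + 1))
        ((S.e (S.f (c (x n) v)) - S.e (S.f (c (x n) v'))) -
          S.A (x n) (S.e (c (x n) v) - S.e (c (x n) v'))) := by
      rw [e5]
      show S.P (x (n + 1)) _ - S.P (x (n + 1)) _ - S.P (x (n + 1)) _ = _
      rw [← map_sub, ← map_sub]
      congr 1
      abel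
    rw [e6]
    refine (hPle _ _).trans (e2.trans ?_)
    have : dist (c (x n) v) (c (x n) v') ≤ 2 * ‖v - v'‖ := by linarith
    nlinarith
  -- the data for `hp_shadow`
  let VV : ℕ → Submodule ℝ (EE N) := fun n => V (x n)
  let WW : ℕ → Submodule ℝ (EE N) := fun n => (V (x n))ᗮ ⊓ S.T (x n)
  let Fs : ℕ → EE N → EE N → EE N := fun n s u => (V (x (n + 1))).starProjection (Fn n (s + u))
  let Gu : ℕ → EE N → EE N → EE N → EE N := fun n s u w =>
    D n (w - (V (x (n + 1)))ᗮ.starProjection (Fn n (s + u) - S.P (x (n + 1)) (S.A (x n) u)))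
  have hQT : ∀ n, ∀ v ∈ S.T (x (n + 1)),
      (V (x (n + 1)))ᗮ.starProjection v ∈ (V (x (n + 1)))ᗮ ⊓ S.T (x (n + 1)) := by
    intro n v hv
    refine ⟨Submodule.starProjection_apply_mem _ _, ?_⟩
    rw [N4b_orth]
    exact Submodule.sub_mem _ hv (h.le _ (hxR _) (Submodule.starProjection_apply_mem _ _))
  have hsuT : ∀ n, ∀ s ∈ VV n, ∀ u ∈ WW n, s + u ∈ S.T (x n) := fun n s hs u hu =>
    Submodule.add_mem _ (h.le _ (hxR n) hs) hu.2
  have hGarg : ∀ n s u, ∀ w ∈ WW (n + 1),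
      w - (V (x (n + 1)))ᗮ.starProjection (Fn n (s + u) - S.P (x (n + 1)) (S.A (x n) u)) ∈
        (V (x (n + 1)))ᗮ ⊓ S.T (x (n + 1)) := by
    intro n s u w hw
    exact Submodule.sub_mem _ hw (hQT n _ (Submodule.sub_mem _ (hFn_mem _ _) (S.P_mem _ _)))
  obtain ⟨s, u, hs0, hsV, huW, hsn, hun, hss, huu⟩ := hp_shadow VV WW
    (fun n => Submodule.closed_of_finiteDimensional _)
    (fun n => Submodule.closed_of_finiteDimensional _) (cA + 1) ρ η τ (by linarith) hρpos hηpos.le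
    (by
      have : cA + 1 + 1 = cA + 2 := by ring
      rw [this, hηA])
    hτpos.le
    (by
      have : 20 * (cA + 1 + 1) * τ = τ * (20 * (cA + 2)) := by ring
      rw [this]
      exact hτ1)
    Fs Gu
    (by
      intro n s hs u hu h1 h2
      exact Submodule.starProjection_apply_mem _ _)
    (by
      intro n
      show ‖(V (x (n + 1))).starProjection (Fn n (0 + 0))‖ ≤ τ
      rw [add_zero]
      exact (hpn _ _).trans (hFn0 n))
    (by
      intro n s hs u hu s' hs' u' hu' h1 h2 h3 h4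
      show ‖(V (x (n + 1))).starProjection (Fn n (s + u)) -
        (V (x (n + 1))).starProjection (Fn n (s' + u'))‖ ≤ _
      rw [← map_sub]
      refine (hpn _ _).trans ?_
      have e1 := hFnL n (s + u) (hsuT n s hs u hu) (s' + u') (hsuT n s' hs' u' hu')
        ((norm_add_le _ _).trans (by linarith)) ((norm_add_le _ _).trans (by linarith))
      have e2 : s + u - (s' + u') = (s - s') + (u - u') := by abel
      rw [e2] at e1
      have e3 : ‖(s - s') + (u - u')‖ ≤ ‖s - s'‖ + ‖u - u'‖ := norm_add_le _ _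
      have e4 : 8 * ‖S.A (x n) (s - s')‖ ≤ ‖s - s'‖ :=
        h.con _ (hxR n) _ (Submodule.sub_mem _ hs hs')
      have e5 : ‖S.A (x n) (u - u')‖ ≤ cA * ‖u - u'‖ :=
        (ContinuousLinearMap.le_opNorm _ _).trans
          (mul_le_mul_of_nonneg_right (hA _) (norm_nonneg _))
      have e6 : Fn n (s + u) - Fn n (s' + u') =
        (Fn n (s + u) - Fn n (s' + u') -
          S.P (x (n + 1)) (S.A (x n) ((s - s') + (u - u')))) +
          S.P (x (n + 1)) (S.A (x n) (s - s') + S.A (x n) (u - u')) := by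
        rw [← map_add (S.A (x n))]; abel
      rw [e6]
      refine (norm_add_le _ _).trans ?_
      have e7 := (hPle (x (n + 1)) (S.A (x n) (s - s') + S.A (x n) (u - u'))).trans
        (norm_add_le (S.A (x n) (s - s')) (S.A (x n) (u - u')))
      have e8 : η / 2 * ‖(s - s') + (u - u')‖ ≤ 1 / 24 * (‖s - s'‖ + ‖u - u'‖) :=
        mul_le_mul (by linarith) e3 (norm_nonneg _) (by norm_num)
      have := norm_nonneg (s - s')
      have := norm_nonneg (u - u')
      linarith)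
    (by
      intro n s hs u hu w hw h1 h2 h3
      exact (hD n _ (hGarg n s u w hw)).1)
    (by
      intro n
      have h0 := hD n 0 (Submodule.zero_mem _)
      have h00 : D n 0 = 0 := by
        have h1 := h.N4b_u (hxR n) (hxR (n + 1)) (hPn n) (hQn n) (hA (x n))
          (by positivity) hηA' h0.1
        rw [h0.2.1, norm_zero] at h1
        exact norm_le_zero_iff.1 (by linarith)
      have h1 := (hD n _ (hGarg n 0 0 0 (Submodule.zero_mem _))).2.2 0 (Submodule.zero_mem _)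
      rw [h00, sub_zero, sub_zero] at h1
      show ‖D n (0 - (V (x (n + 1)))ᗮ.starProjection
        (Fn n (0 + 0) - S.P (x (n + 1)) (S.A (x n) 0)))‖ ≤ τ
      have h2 : ‖(0 : EE N) - (V (x (n + 1)))ᗮ.starProjection
        (Fn n (0 + 0) - S.P (x (n + 1)) (S.A (x n) 0))‖ ≤ τ := by
        rw [zero_sub, norm_neg, map_zero, map_zero, sub_zero, add_zero]
        exact (hpn _ _).trans (hFn0 n)
      have h3 := norm_nonneg (D n (0 - (V (x (n + 1)))ᗮ.starProjection
        (Fn n (0 + 0) - S.P (x (n + 1)) (S.A (x n) 0))))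
      linarith)
    (by
      intro n s hs u hu w hw s' hs' u' hu' w' hw' h1 h2 h3 h4 h5 h6
      have g1 := (hD n _ (hGarg n s u w hw)).2.2 _ (hGarg n s' u' w' hw')
      have e1 := hFnL n (s + u) (hsuT n s hs u hu) (s' + u') (hsuT n s' hs' u' hu')
        ((norm_add_le _ _).trans (by linarith)) ((norm_add_le _ _).trans (by linarith))
      have e2 : s + u - (s' + u') = (s - s') + (u - u') := by abel
      have e3 : ‖(s - s') + (u - u')‖ ≤ ‖s - s'‖ + ‖u - u'‖ := norm_add_le _ _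
      have e4 := h.N4b_s (hxR n) (hxR (n + 1)) (hPn n) (hQn n) (by positivity)
        (Submodule.sub_mem _ hs hs')
      have g2 : ‖(w - (V (x (n + 1)))ᗮ.starProjection
          (Fn n (s + u) - S.P (x (n + 1)) (S.A (x n) u))) -
          (w' - (V (x (n + 1)))ᗮ.starProjection
          (Fn n (s' + u') - S.P (x (n + 1)) (S.A (x n) u')))‖ ≤
          ‖w - w'‖ + η * (‖s - s'‖ + ‖u - u'‖) := by
        have g3 : (w - (V (x (n + 1)))ᗮ.starProjection
          (Fn n (s + u) - S.P (x (n + 1)) (S.A (x n) u))) -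
          (w' - (V (x (n + 1)))ᗮ.starProjection
          (Fn n (s' + u') - S.P (x (n + 1)) (S.A (x n) u'))) =
          (w - w') - ((V (x (n + 1)))ᗮ.starProjection
            ((Fn n (s + u) - Fn n (s' + u')) -
              S.P (x (n + 1)) (S.A (x n) ((s + u) - (s' + u')))) +
            (V (x (n + 1)))ᗮ.starProjection (S.P (x (n + 1)) (S.A (x n) (s - s')))) := by
          simp only [map_sub, map_add]
          abel
        rw [g3]
        refine (norm_sub_le _ _).trans (add_le_add le_rfl ?_)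
        refine (norm_add_le _ _).trans ?_
        have g4 := (hpn (V (x (n + 1)))ᗮ ((Fn n (s + u) - Fn n (s' + u')) -
              S.P (x (n + 1)) (S.A (x n) ((s + u) - (s' + u'))))).trans e1
        rw [e2] at g4
        have g5 : η / 2 * ‖(s - s') + (u - u')‖ ≤ η / 2 * (‖s - s'‖ + ‖u - u'‖) :=
          mul_le_mul_of_nonneg_left e3 (by positivity)
        have g6 : 0 ≤ η / 2 * ‖u - u'‖ := by positivity
        rw [← e2] at g4 g5
        linarith
      have := norm_nonneg (s - s')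
      have := norm_nonneg (u - u')
      have := norm_nonneg (w - w')
      have g4 : 0 ≤ η * (‖s - s'‖ + ‖u - u'‖) := by positivity
      show ‖D n _ - D n _‖ ≤ _
      have g5 := g1.trans g2
      linarith)
  have hvT : ∀ n, s n + u n ∈ S.T (x n) := fun n => hsuT n _ (hsV n) _ (huW n)
  have hvn : ∀ n, ‖s n + u n‖ ≤ 2 * ρ := fun n =>
    (norm_add_le _ _).trans (by linarith [hsn n, hun n])
  have hrec : ∀ n, s (n + 1) + u (n + 1) = Fn n (s n + u n) := by
    intro n
    have hw := hGarg n (s n) (u n) _ (huW (n + 1))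
    have h1 : u n = D n (u (n + 1) - (V (x (n + 1)))ᗮ.starProjection
        (Fn n (s n + u n) - S.P (x (n + 1)) (S.A (x n) (u n)))) := huu n
    have h2 := (hD n _ hw).2.1
    rw [← h1] at h2
    have h3 : s (n + 1) = (V (x (n + 1))).starProjection (Fn n (s n + u n)) := hss n
    have h5 : u (n + 1) = (V (x (n + 1)))ᗮ.starProjection (Fn n (s n + u n)) := by
      rw [map_sub, eq_sub_iff_add_eq] at h2
      rw [eq_comm, ← sub_eq_zero]
      rw [← sub_eq_zero] at h2
      rw [← h2]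
      abel
    rw [h3, h5]
    exact Submodule.starProjection_add_starProjection_orthogonal _
  -- the orbit
  have hsmall : ∀ n, ‖s n + u n‖ < ρ1 := fun n => lt_of_le_of_lt (hvn n) (by linarith)
  have hcn := fun n => hc (x n) (s n + u n) (hvT n) (hsmall n)
  have hyn : ∀ n, fw S.f n (c (x 0) (s 0 + u 0)) = c (x n) (s n + u n) := by
    intro n
    induction n with
    | zero => rfl
    | succ n ih =>
      rw [fw_succ', ih]
      have hc1 := hcn (n + 1)
      refine hc1.2.2 _ ?_ ?_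
      · have e1 := hdiff (x n) (x n) (c (x n) (s n + u n))
          (by rw [dist_self]; exact hρ2)
          (lt_of_le_of_lt (hcn n).2.1 (by linarith [hvn n]))
        have e2 : dist (S.f (x n)) (S.f (c (x n) (s n + u n))) ≤
            (cA + 1) * dist (x n) (c (x n) (s n + u n)) := by
          rw [← S.e_isom]
          have e3 : ‖S.A (x n) (S.e (x n) - S.e (c (x n) (s n + u n)))‖ ≤
              cA * dist (x n) (c (x n) (s n + u n)) := by
            rw [← S.e_isom (x n)]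
            exact (ContinuousLinearMap.le_opNorm _ _).trans
              (mul_le_mul_of_nonneg_right (hA _) (norm_nonneg _))
          have e4 := norm_sub_norm_le (S.e (S.f (x n)) -
            S.e (S.f (c (x n) (s n + u n))))
            (S.A (x n) (S.e (x n) - S.e (c (x n) (s n + u n))))
          have e5 : η / 4 * dist (x n) (c (x n) (s n + u n)) ≤
              1 * dist (x n) (c (x n) (s n + u n)) :=
            mul_le_mul_of_nonneg_right (by linarith) dist_nonneg
          linarith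
        have e6 := (hcn n).2.1
        have e7 := hvn n
        have e8 := hxτ n
        have e9 := dist_triangle_left (x (n + 1)) (S.f (c (x n) (s n + u n))) (S.f (x n))
        have e10 : (cA + 1) * dist (x n) (c (x n) (s n + u n)) ≤ (cA + 1) * (3 * ρ) := by
          apply mul_le_mul_of_nonneg_left _ (by linarith)
          linarith
        have e11 : (cA + 1) * (3 * ρ) + ρ + ρ * (29 * cA + 60) = ρ * (32 * (cA + 2)) := by ring
        have e12 : 0 ≤ ρ * (29 * cA + 60) := by positivity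
        linarith
      · exact (hrec n).symm
  refine ⟨c (x 0) (s 0 + u 0), fun n => ?_, ?_⟩
  · rw [hyn n, dist_comm]
    have e6 := (hcn n).2.1
    have e7 := hvn n
    linarith
  · intro v hv
    have hvT' : S.P (x 0) v = v := (S.mem_T).1 (h.le (x 0) (hxR 0) hv)
    have huo : inner ℝ (u 0) v = 0 := by
      have h1 : u 0 ∈ (V (x 0))ᗮ := (huW 0).1
      exact (Submodule.mem_orthogonal' _ _).1 h1 v hv
    have e1 : inner ℝ (S.e (c (x 0) (s 0 + u 0)) - S.e (x 0)) v =
        inner ℝ (S.P (x 0) (S.e (c (x 0) (s 0 + u 0)) - S.e (x 0))) v := by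
      rw [S.Psa, hvT']
    rw [e1, (hcn 0).1, hs0, inner_add_left, huo, inner_zero_left, add_zero]

end CBs

end Pool.MP85
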