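import Pool.Agent.Lib.MP_85e637_an.C12

/-!
# N5: growth transversally to a contracted bundle
-/

open Filter Topology Set Metric Module

namespace Pool.MP85
variable {d N k : ℕ} {K : Type} [MetricSpace K] [CompactSpace K] {S : ESys d N K} {R : Set K}
  {V : K → Submodule ℝ (EE N)}

/-- N5 -/
theorem CB.grow (h : CB S R V k) : ∃ ε > 0, ∀ x ∈ R, ∀ y, ∀ m : ℕ,
    (∀ n ≤ m, dist (fw S.f n x) (fw S.f n y) ≤ ε) → (∀ v ∈ V x, inner ℝ (S.e y - S.e x) v = 0) →
      2 ^ m * dist x y ≤ dist (fw S.f m x) (fw S.f m y) := by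
  obtain ⟨c0, hc0⟩ := isCompact_univ.exists_bound_of_continuousOn
    (f := S.A) S.contA.continuousOn
  set c : ℝ := max c0 0 with hcdef
  have hc1 : 0 ≤ c := le_max_right _ _
  have hc : ∀ x, ‖S.A x‖ ≤ c := fun x => (hc0 x (mem_univ x)).trans (le_max_left _ _)
  set η' : ℝ := 1 / (32 * (c + 1)) with hη'
  have hη'pos : 0 < η' := by positivity
  have hη'1 : (c + 1) * η' ≤ 1 / 32 := by
    have : (c + 1) * η' = 1 / 32 := by
      rw [hη']
      field_simp
    exact this.le
  set θ : ℝ := η' / 9 with hθ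
  have hθpos : 0 < θ := by positivity
  have hθη : 9 * θ = η' := by rw [hθ]; ring
  obtain ⟨ρ1, hρ1, hflat⟩ := S.flat θ hθpos
  obtain ⟨ρ2, hρ2, hdiff⟩ := S.diff θ hθpos
  set ρ := min ρ1 ρ2 with hρ
  have hρpos : 0 < ρ := lt_min hρ1 hρ2
  have hflat' : ∀ x y y', dist x y < ρ → dist x y' < ρ →
      ‖(S.e y - S.e y') - S.P x (S.e y - S.e y')‖ ≤ θ * dist y y' := fun x y y' h1 h2 =>
    hflat x y y' (lt_of_lt_of_le h1 (min_le_left _ _)) (lt_of_lt_of_le h2 (min_le_left _ _))
  have hdiff' : ∀ x y y', dist x y < ρ → dist x y' < ρ →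
      ‖(S.e (S.f y) - S.e (S.f y')) - S.A x (S.e y - S.e y')‖ ≤ θ * dist y y' :=
    fun x y y' h1 h2 =>
    hdiff x y y' (lt_of_lt_of_le h1 (min_le_right _ _)) (lt_of_lt_of_le h2 (min_le_right _ _))
  have hcθ : (c + 1) * θ ≤ 1 / 32 := by
    have : θ ≤ η' := by linarith
    exact (mul_le_mul_of_nonneg_left this (by linarith)).trans hη'1
  have hθ1 : θ ≤ 1 / 32 := by nlinarith
  have hη'32 : η' ≤ 1 / 32 := by nlinarith
  refine ⟨ρ / 2, by positivity, ?_⟩
  intro x hx y m hm horth
  -- the orbit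
  have hxR : ∀ n, fw S.f n x ∈ R := by
    intro n
    induction n with
    | zero => exact hx
    | succ n ih => rw [fw_succ']; exact h.inv _ ih
  have hstep : ∀ n, n ≤ m →
      8 * infDist (S.e (fw S.f n y) - S.e (fw S.f n x)) (V (fw S.f n x)) -
          9 * θ * dist (fw S.f n y) (fw S.f n x) ≤
        infDist (S.e (fw S.f (n + 1) y) - S.e (fw S.f (n + 1) x)) (V (fw S.f (n + 1) x)) ∧
      dist (fw S.f (n + 1) y) (fw S.f (n + 1) x) ≤ dist (fw S.f n y) (fw S.f n x) / 8 +
        (c + 1) * (infDist (S.e (fw S.f n y) - S.e (fw S.f n x)) (V (fw S.f n x)) +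
          θ * dist (fw S.f n y) (fw S.f n x)) + θ * dist (fw S.f n y) (fw S.f n x) := by
    intro n hn
    have h1 : dist (fw S.f n x) (fw S.f n y) < ρ := lt_of_le_of_lt (hm n hn) (by linarith)
    have h2 : dist (fw S.f n x) (fw S.f n x) < ρ := by rw [dist_self]; exact hρpos
    have := h.C10_step hc1 hc hθpos hflat' hdiff' (hxR n) h1 h2
    rw [fw_succ', fw_succ']
    exact this
  have hu0 : dist y x ≤ infDist (S.e y - S.e x) (V x) := by
    have h1 := (C12_ortho (V x) (w := S.e y - S.e x) (c := 0) (V x).zero_mem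
      (fun v hv => by rw [sub_zero]; exact horth v hv)).1
    rw [sub_zero, S.e_isom] at h1
    exact h1
  have hgrow : ∀ n, n ≤ m → η' * dist (fw S.f n y) (fw S.f n x) ≤
      infDist (S.e (fw S.f n y) - S.e (fw S.f n x)) (V (fw S.f n x)) ∧
      7 ^ n * infDist (S.e y - S.e x) (V x) ≤
        infDist (S.e (fw S.f n y) - S.e (fw S.f n x)) (V (fw S.f n x)) := by
    intro n
    induction n with
    | zero =>
      intro _
      refine ⟨?_, by simp [fw_zero]⟩
      rw [fw_zero, fw_zero]
      have hD : 0 ≤ dist y x := dist_nonneg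
      nlinarith
    | succ n ih =>
      intro hn
      obtain ⟨ih1, ih2⟩ := ih (by omega)
      obtain ⟨s1, s2⟩ := hstep n (by omega)
      set D := dist (fw S.f n y) (fw S.f n x)
      set D' := dist (fw S.f (n + 1) y) (fw S.f (n + 1) x)
      set u := infDist (S.e (fw S.f n y) - S.e (fw S.f n x)) (V (fw S.f n x))
      set u' := infDist (S.e (fw S.f (n + 1) y) - S.e (fw S.f (n + 1) x))
        (V (fw S.f (n + 1) x))
      have hD : 0 ≤ D := dist_nonneg
      have hu0 : 0 ≤ u := infDist_nonneg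
      have h7 : 7 * u ≤ u' := by
        rw [hθη] at s1
        linarith
      refine ⟨?_, ?_⟩
      · have hA : η' * (D / 8) ≤ u / 8 := by linarith
        have hB : η' * ((c + 1) * u) ≤ 1 / 32 * u := by
          have : η' * ((c + 1) * u) = ((c + 1) * η') * u := by ring
          rw [this]
          exact mul_le_mul_of_nonneg_right hη'1 hu0
        have hC : η' * ((c + 1) * (θ * D)) ≤ 1 / 32 * u := by
          have : η' * ((c + 1) * (θ * D)) = ((c + 1) * θ) * (η' * D) := by ring
          rw [this]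
          calc ((c + 1) * θ) * (η' * D) ≤ 1 / 32 * (η' * D) :=
                mul_le_mul_of_nonneg_right hcθ (by positivity)
            _ ≤ 1 / 32 * u := by linarith
        have hE : η' * (θ * D) ≤ 1 / 32 * u := by
          have : η' * (θ * D) = θ * (η' * D) := by ring
          rw [this]
          calc θ * (η' * D) ≤ 1 / 32 * (η' * D) :=
                mul_le_mul_of_nonneg_right hθ1 (by positivity)
            _ ≤ 1 / 32 * u := by linarith
        have hF : η' * D' ≤ η' * (D / 8 + (c + 1) * (u + θ * D) + θ * D) :=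
          mul_le_mul_of_nonneg_left s2 hη'pos.le
        have hG : η' * (D / 8 + (c + 1) * (u + θ * D) + θ * D) =
          η' * (D / 8) + η' * ((c + 1) * u) + η' * ((c + 1) * (θ * D)) + η' * (θ * D) := by ring
        rw [hG] at hF
        linarith
      · calc 7 ^ (n + 1) * infDist (S.e y - S.e x) (V x)
            = 7 * (7 ^ n * infDist (S.e y - S.e x) (V x)) := by ring
          _ ≤ 7 * u := by linarith
          _ ≤ u' := h7
  have hfin := (hgrow m (le_refl m)).2
  have h1 : infDist (S.e (fw S.f m y) - S.e (fw S.f m x)) (V (fw S.f m x)) ≤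
      dist (S.e (fw S.f m y) - S.e (fw S.f m x)) 0 :=
    infDist_le_dist_of_mem (V (fw S.f m x)).zero_mem
  rw [dist_zero_right, S.e_isom] at h1
  have h27 : (2 : ℝ) ^ m ≤ 7 ^ m := pow_le_pow_left₀ (by norm_num) (by norm_num) m
  calc 2 ^ m * dist x y = 2 ^ m * dist y x := by rw [dist_comm]
    _ ≤ 7 ^ m * dist y x := mul_le_mul_of_nonneg_right h27 dist_nonneg
    _ ≤ 7 ^ m * infDist (S.e y - S.e x) (V x) := mul_le_mul_of_nonneg_left hu0 (by positivity)
    _ ≤ dist (fw S.f m y) (fw S.f m x) := hfin.trans h1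
    _ = dist (fw S.f m x) (fw S.f m y) := dist_comm _ _

end Pool.MP85
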