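import Pool.Agent.Lib.MP_85e637_an.C08a0
import Pool.Agent.Lib.MP_85e637_an.C10
import Pool.Agent.Lib.MP_85e637_an.N0
import Pool.Agent.Lib.MP_85e637_an.N3
import Pool.Agent.Lib.MP_85e637_an.N4b
import Pool.Agent.Lib.MP_85e637_an.N5

/-!
# N6: points asymptotic to `Om` are approximated by points of stable manifolds of periodic points
-/

open Filter Topology Set Metric Module

namespace Pool.MP85
variable {d N : ℕ} {K : Type} [MetricSpace K] [CompactSpace K]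

/-- uniform continuity of the iterates `fw F r`, `r < k` -/
theorem N6_unif (F : K ≃ₜ K) (k : ℕ) {η : ℝ} (hη : 0 < η) :
    ∃ ε > 0, ∀ r < k, ∀ a b : K, dist a b ≤ ε → dist (fw F r a) (fw F r b) ≤ η := by
  induction k with
  | zero => exact ⟨1, one_pos, fun r hr => absurd hr (Nat.not_lt_zero r)⟩
  | succ k ih =>
    obtain ⟨ε, hε, h⟩ := ih
    obtain ⟨ε', hε', h'⟩ := Metric.uniformContinuous_iff.1
      (CompactSpace.uniformContinuous_of_continuous (continuous_fw (F := F) k)) η hη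
    refine ⟨min ε (ε' / 2), lt_min hε (half_pos hε'), fun r hr a b hab => ?_⟩
    rcases Nat.lt_succ_iff_lt_or_eq.1 hr with h1 | h1
    · exact h r h1 a b (hab.trans (min_le_left _ _))
    · subst h1
      exact (h' (lt_of_le_of_lt (hab.trans (min_le_right _ _)) (half_lt_self hε'))).le

omit [CompactSpace K] in
theorem N6_fw_comm (F : K ≃ₜ K) (m n : ℕ) (x : K) : fw F m (fw F n x) = fw F n (fw F m x) := by
  rw [← fw_add, ← fw_add, add_comm]

omit [CompactSpace K] in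
theorem N6_fw_bk_comm (F : K ≃ₜ K) (m n : ℕ) (x : K) : fw F m (bk F n x) = bk F n (fw F m x) := by
  have h := N6_fw_comm F m n (bk F n x)
  rw [fw_bk] at h
  rw [h, bk_fw]

omit [CompactSpace K] in
theorem N6_fw_per {F : K ≃ₜ K} {k : ℕ} {q : K} (h : fw F k q = q) (n : ℕ) :
    fw F (n * k) q = q := by
  induction n with
  | zero => rw [zero_mul]; rfl
  | succ n ih => rw [add_mul, one_mul, fw_add, h, ih]

omit [CompactSpace K] in
theorem N6_fw_pow {F G : K ≃ₜ K} {k : ℕ} (h : ∀ x, G x = fw F k x) (n : ℕ) (x : K) :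
    fw G n x = fw F (k * n) x := by
  induction n generalizing x with
  | zero => rfl
  | succ n ih => rw [fw_succ, ih, h, mul_add, mul_one, fw_add]

namespace BSys
variable (S : BSys d N K)

theorem N6_Oj_fw (j n : ℕ) (x : K) : fw S.f n x ∈ S.Oj j ↔ x ∈ S.Oj j := by
  induction n generalizing x with
  | zero => rfl
  | succ n ih => rw [fw_succ, ih, S.Oj_inv]

theorem N6_RN_fw {j n0 : ℕ} {δ : ℝ} {x : K} (hx : x ∈ S.RN j δ n0) (n : ℕ) :
    fw S.f n x ∈ S.RN j δ n0 := by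
  induction n generalizing x with
  | zero => exact hx
  | succ n ih => exact ih (S.RN_fw j δ n0 hx)

theorem N6_Oj_RN {j : ℕ} {δ : ℝ} (hδ : 0 ≤ δ) (n0 : ℕ) {x : K} (hx : x ∈ S.Oj j) :
    x ∈ S.RN j δ n0 := fun n _ => ⟨fw S.f n x, (S.N6_Oj_fw j n x).2 hx, by rw [dist_self]; exact hδ⟩

theorem N6_RN_mono {j n0 : ℕ} {δ δ' : ℝ} (h : δ ≤ δ') {x : K} (hx : x ∈ S.RN j δ n0) :
    x ∈ S.RN j δ' n0 := fun n hn => by
  obtain ⟨y, hy, hd⟩ := hx n hn
  exact ⟨y, hy, hd.trans h⟩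

/-- a periodic point is nonwandering -/
theorem N6_per_Om {q : K} {k : ℕ} (hk : 0 < k) (h : fw S.f k q = q) : q ∈ S.Om := by
  refine S.Om_fw q q ?_
  rw [mapClusterPt_iff_frequently]
  intro s hs
  rw [frequently_atTop]
  intro a
  refine ⟨a * k, Nat.le_mul_of_pos_right a hk, ?_⟩
  rw [N6_fw_per h]
  exact mem_of_mem_nhds hs

/-- `Oj` is uniformly open in `Om` -/
theorem N6_Oj_open (j : ℕ) : ∃ ρ > 0, ∀ y ∈ S.Oj j, ∀ q ∈ S.Om, dist y q < ρ → q ∈ S.Oj j := by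
  have hC : IsClosed (⋃ i ∈ {i : ℕ | i < d + 1 ∧ i ≠ j}, S.Oj i) := by
    refine Set.Finite.isClosed_biUnion ?_ (fun i _ => S.Oj_closed i)
    exact (Set.finite_lt_nat (d + 1)).subset fun i hi => hi.1
  have hd : Disjoint (S.Oj j) (⋃ i ∈ {i : ℕ | i < d + 1 ∧ i ≠ j}, S.Oj i) := by
    rw [Set.disjoint_left]
    intro y hy hy'
    simp only [mem_iUnion] at hy'
    obtain ⟨i, hi, hyi⟩ := hy'
    exact hi.2 (hyi.2.symm.trans hy.2)
  obtain ⟨δ, hδ, hdis⟩ := hd.exists_thickenings (S.Oj_closed j).isCompact hC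
  refine ⟨δ, hδ, fun y hy q hq hdist => ?_⟩
  by_contra hne
  have hq' : q ∈ ⋃ i ∈ {i : ℕ | i < d + 1 ∧ i ≠ j}, S.Oj i := by
    simp only [mem_iUnion]
    refine ⟨finrank ℝ (S.Es q), ⟨?_, fun h => hne ⟨hq, h⟩⟩, hq, rfl⟩
    have := S.Om_dim hq
    omega
  have h1 : q ∈ thickening δ (S.Oj j) := by
    rw [mem_thickening_iff]
    exact ⟨y, hy, by rwa [dist_comm]⟩
  exact Set.disjoint_left.1 hdis h1 (self_subset_thickening hδ _ hq')

end BSys

/-- contraction along the local stable set gives asymptotic orbits -/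
theorem N6_WS {k : ℕ} {F : K ≃ₜ K} {Sk : ESys d N K} {R : Set K}
    (hk : 0 < k) (hf : ∀ x, Sk.f x = fw F k x) (hR : ∀ x ∈ R, Sk.f x ∈ R) {ε0 ε : ℝ}
    (hε : ε ≤ ε0) (hε' : 0 ≤ ε)
    (hcon : ∀ x ∈ R, ∀ y ∈ WSl Sk.f ε0 x, ∀ y' ∈ WSl Sk.f ε0 x,
      4 * dist (Sk.f y) (Sk.f y') ≤ dist y y') {q a : K} (hq : q ∈ R)
    (ha : ∀ n, dist (fw Sk.f n q) (fw Sk.f n a) ≤ ε) : a ∈ WS F q := by
  have h1 : ∀ n, fw Sk.f n q ∈ R := by
    intro n
    induction n with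
    | zero => exact hq
    | succ n ih => rw [fw_succ']; exact hR _ ih
  have h2 : ∀ n, dist (fw Sk.f n q) (fw Sk.f n a) ≤ (1 / 4 : ℝ) ^ n * dist q a := by
    intro n
    induction n with
    | zero => rw [pow_zero, one_mul]; exact le_rfl
    | succ n ih =>
      have h3 : fw Sk.f n q ∈ WSl Sk.f ε0 (fw Sk.f n q) := by
        intro i
        rw [dist_self]
        exact hε'.trans hε
      have h4 : fw Sk.f n a ∈ WSl Sk.f ε0 (fw Sk.f n q) := by
        intro i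
        rw [← fw_add, ← fw_add]
        exact (ha _).trans hε
      have h5 := hcon _ (h1 n) _ h3 _ h4
      rw [fw_succ', fw_succ', pow_succ]
      nlinarith
  change Tendsto (fun n => dist (fw F n q) (fw F n a)) atTop (𝓝 0)
  rw [Metric.tendsto_atTop]
  intro η hη
  obtain ⟨ε', hε', hu⟩ := N6_unif F k (half_pos hη)
  have h6 : Tendsto (fun n : ℕ => (1 / 4 : ℝ) ^ n * dist q a) atTop (𝓝 0) := by
    have := (tendsto_pow_atTop_nhds_zero_of_lt_one (r := (1 / 4 : ℝ)) (by norm_num)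
      (by norm_num)).mul_const (dist q a)
    simpa using this
  obtain ⟨n1, hn1⟩ := (h6.eventually_lt_const hε').exists_forall_of_atTop
  refine ⟨k * n1, fun n hn => ?_⟩
  have h7 : n1 ≤ n / k := (Nat.le_div_iff_mul_le hk).2 (by rwa [mul_comm])
  have h8 : n = n % k + k * (n / k) := (Nat.mod_add_div n k).symm
  have h9 : dist (fw F (k * (n / k)) q) (fw F (k * (n / k)) a) ≤ ε' := by
    rw [← N6_fw_pow hf, ← N6_fw_pow hf]
    exact (h2 _).trans (hn1 _ h7).le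
  have h10 := hu (n % k) (Nat.mod_lt n hk) _ _ h9
  rw [← fw_add, ← fw_add, ← h8] at h10
  rw [Real.dist_eq, sub_zero, abs_of_nonneg dist_nonneg]
  linarith

/-- N6 -/
theorem BSys.approx_pt (S : BSys d N K) : ∃ δ0 > 0, ∀ δ1 > 0, δ1 ≤ δ0 → ∀ (x : K) (n0 : ℕ),
    x ∈ S.RN (finrank ℝ (S.Es x)) (δ1 / 2) n0 → ∀ δ > 0, ∃ (p : K) (k : ℕ) (x' : K), 0 < k ∧
      fw S.f k p = p ∧ finrank ℝ (S.Es p) = finrank ℝ (S.Es x) ∧ x' ∈ WS S.f p ∧
      x' ∈ S.RN (finrank ℝ (S.Es x)) δ1 n0 ∧ dist x x' < δ := by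
  obtain ⟨δ0, hδ0, hcb⟩ := S.cb_RN
  refine ⟨δ0, hδ0, fun δ1 hδ1 hle x n0 hx δ hδ => ?_⟩
  obtain ⟨j, hj⟩ : ∃ j, finrank ℝ (S.Es x) = j := ⟨_, rfl⟩
  rw [hj] at hx ⊢
  obtain ⟨k, hk, hcb⟩ := hcb j n0
  obtain ⟨Sk, hf, he, hP, hA, -, -⟩ := S.toESys.exists_pow k hk
  have CBk : CB Sk (S.RN j δ1 n0) S.Es j := hcb k le_rfl Sk hf he hP hA δ1 hδ1 hle
  obtain ⟨ε1, hε1, hgrow⟩ := CBk.grow
  obtain ⟨ε2, hε2, hcontr⟩ := CBk.contr
  obtain ⟨ε3, hε3, huc⟩ := N6_unif S.f k (half_pos hδ1)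
  obtain ⟨ε, hε, hεl⟩ : ∃ ε > 0, ε ≤ ε1 ∧ ε ≤ ε2 ∧ ε ≤ ε3 :=
    ⟨min ε1 (min ε2 ε3), lt_min hε1 (lt_min hε2 hε3), min_le_left _ _,
      (min_le_right _ _).trans (min_le_left _ _), (min_le_right _ _).trans (min_le_right _ _)⟩
  obtain ⟨τ, hτ, hsh⟩ := CBk.shadow ε hε
  obtain ⟨M, hM⟩ : ∃ M : ℕ, ε / 2 ^ M < δ := by
    obtain ⟨M, hM⟩ := exists_pow_lt_of_lt_one (div_pos hδ hε) (by norm_num : (1 / 2 : ℝ) < 1)
    refine ⟨M, ?_⟩
    rw [lt_div_iff₀ hε] at hM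
    calc ε / 2 ^ M = (1 / 2) ^ M * ε := by rw [one_div, inv_pow]; ring
      _ < δ := hM
  obtain ⟨ρ, hρ, hopen⟩ := S.N6_Oj_open j
  obtain ⟨n1, hn1⟩ := S.exists_RN (show (0 : ℝ) < τ / 3 by linarith) x
  rw [hj] at hn1
  obtain ⟨m, hm1, hm2⟩ : ∃ m, M < m ∧ n1 ≤ m := ⟨max (M + 1) n1,
    lt_of_lt_of_le (Nat.lt_succ_self M) (le_max_left _ _), le_max_right _ _⟩
  obtain ⟨y0, hy0, hy0d⟩ := hn1 (k * m) (hm2.trans (Nat.le_mul_of_pos_left m hk))
  obtain ⟨q, hq1, k', hk', hq2⟩ := S.Om_per y0 hy0.1 (min ρ (τ / 3)) (lt_min hρ (by linarith))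
  have hqO : q ∈ S.Oj j := hopen y0 hy0 q (S.N6_per_Om hk' hq2) (hq1.trans_le (min_le_left _ _))
  have hdq : dist (fw S.f (k * m) x) q < τ := by
    have h1 := dist_triangle (fw S.f (k * m) x) y0 q
    have h2 := hq1.trans_le (min_le_right _ _)
    linarith
  -- the pseudo-orbit
  obtain ⟨z, hz⟩ : ∃ z : ℕ → K, z = fun n => if n < m then fw S.f (k * n) x
    else fw S.f (k * (n - m)) q := ⟨_, rfl⟩
  have hz1 : ∀ n, n < m → z n = fw S.f (k * n) x := fun n hn => by rw [hz]; simp [hn]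
  have hz2 : ∀ n, m ≤ n → z n = fw S.f (k * (n - m)) q := fun n hn => by
    rw [hz]; simp [Nat.not_lt.2 hn]
  have hzR : ∀ n, z n ∈ S.RN j δ1 n0 := by
    intro n
    rcases Nat.lt_or_ge n m with h | h
    · rw [hz1 n h]
      exact S.N6_RN_mono (by linarith) (S.N6_RN_fw hx _)
    · rw [hz2 n h]
      exact S.N6_Oj_RN hδ1.le n0 ((S.N6_Oj_fw j _ q).2 hqO)
  have hzd : ∀ n, dist (Sk.f (z n)) (z (n + 1)) < τ := by
    intro n
    rw [hf]
    rcases Nat.lt_or_ge n m with h | h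
    · rw [hz1 n h, ← fw_add]
      rcases Nat.lt_or_ge (n + 1) m with h' | h'
      · rw [hz1 _ h', mul_add, mul_one, add_comm k, dist_self]
        exact hτ
      · have h3 : n + 1 = m := by omega
        rw [hz2 _ h', h3, Nat.sub_self, mul_zero, fw_zero]
        have h4 : k + k * n = k * m := by rw [← h3]; ring
        rw [h4]
        exact hdq
    · rw [hz2 n h, hz2 (n + 1) (by omega), ← fw_add]
      have h4 : k + k * (n - m) = k * (n + 1 - m) := by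
        have h5 : n + 1 - m = n - m + 1 := by omega
        rw [h5]; ring
      rw [h4, dist_self]
      exact hτ
  obtain ⟨y, hy1, hy2⟩ := hsh z hzR hzd
  have hm0 : 0 < m := lt_of_le_of_lt (Nat.zero_le _) hm1
  have hz0 : z 0 = x := by rw [hz1 0 hm0, mul_zero, fw_zero]
  rw [hz0] at hy2
  have hyM : 2 ^ M * dist x y ≤ ε := by
    have h1 := hgrow x (S.N6_RN_mono (by linarith) hx) y M (fun n hn => ?_) hy2
    · refine h1.trans ?_
      have h2 := hy1 M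
      rw [hz1 M hm1, ← N6_fw_pow hf, dist_comm] at h2
      exact h2
    · have h2 := hy1 n
      rw [hz1 n (lt_of_le_of_lt hn hm1), ← N6_fw_pow hf, dist_comm] at h2
      exact h2.trans hεl.1
  have hdxy : dist x y < δ := by
    refine lt_of_le_of_lt ?_ hM
    rw [le_div_iff₀ (by positivity), mul_comm]
    exact hyM
  -- the point `a = fw (k m) y` is in the stable set of `q`
  have haq : fw S.f (k * m) y ∈ WS S.f q := by
    refine N6_WS hk hf CBk.inv hεl.2.1 hε.le hcontr (S.N6_Oj_RN hδ1.le n0 hqO)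
      (fun n => ?_)
    have h2 := hy1 (n + m)
    rw [hz2 _ (Nat.le_add_left m n), Nat.add_sub_cancel, ← N6_fw_pow hf, fw_add, dist_comm,
      N6_fw_pow hf m y] at h2
    exact h2
  refine ⟨bk S.f (k * m) q, k', y, hk', ?_, ?_, ?_, ?_, hdxy⟩
  · rw [N6_fw_bk_comm, hq2]
  · have h1 : bk S.f (k * m) q ∈ S.Oj j := by
      rw [← S.N6_Oj_fw j (k * m), fw_bk]
      exact hqO
    exact h1.2
  · change Tendsto (fun n => dist (fw S.f n (bk S.f (k * m) q)) (fw S.f n y)) atTop (𝓝 0)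
    change Tendsto (fun n => dist (fw S.f n q) (fw S.f n (fw S.f (k * m) y))) atTop (𝓝 0) at haq
    rw [← tendsto_add_atTop_iff_nat (k * m)]
    refine haq.congr fun n => ?_
    rw [fw_add, fw_add, fw_bk]
  · intro n hn
    have h8 : n = n % k + k * (n / k) := (Nat.mod_add_div n k).symm
    have h9 := hy1 (n / k)
    rw [N6_fw_pow hf] at h9
    have h10 := huc (n % k) (Nat.mod_lt n hk) _ _ (h9.trans hεl.2.2)
    rw [← fw_add, ← h8] at h10
    rcases Nat.lt_or_ge (n / k) m with h | h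
    · rw [hz1 _ h, ← fw_add, ← h8] at h10
      obtain ⟨y1, hy1, hy1d⟩ := hx n hn
      refine ⟨y1, hy1, ?_⟩
      have := dist_triangle (fw S.f n y) (fw S.f n x) y1
      linarith
    · rw [hz2 _ h, ← fw_add] at h10
      refine ⟨_, (S.N6_Oj_fw j _ q).2 hqO, h10.trans (by linarith)⟩

end Pool.MP85
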