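import Pool.Agent.Lib.MP_85e637_an.S2Defs
import Pool.Agent.Lib.MP_85e637_an.A01
import Pool.Agent.Lib.MP_85e637_an.C01
import Pool.Agent.Lib.MP_85e637_an.C05
import Pool.Agent.Lib.MP_85e637_an.C09
import Pool.Agent.Lib.MP_85e637_an.F1
import Pool.Agent.Lib.MP_85e637_an.F2a
import Pool.Agent.Lib.MP_85e637_an.F6b
import Pool.Agent.Lib.MP_85e637_an.F8b
import Pool.Agent.Lib.MP_85e637_an.N0
import Pool.Agent.Lib.MP_85e637_an.N0b
import Pool.Agent.Lib.MP_85e637_an.N6
import Pool.Agent.Lib.MP_85e637_an.N9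

/-!
# Stage 2, N10: `s ≤ 1` on the closure of the basin
-/

open Filter Topology Set Metric Module

namespace Pool.MP85
variable {d N : ℕ} {K : Type} [MetricSpace K] [CompactSpace K]


/-- approximation by points of stable manifolds of periodic points -/
theorem N10_approx (S : BSys d N K) (x : K) {δ : ℝ} (hδ : 0 < δ) : ∃ (p : K) (k : ℕ) (x' : K),
    0 < k ∧ fw S.f k p = p ∧ finrank ℝ (S.Es p) = finrank ℝ (S.Es x) ∧ x' ∈ WS S.f p ∧
      dist x x' < δ := by
  obtain ⟨δ0, hδ0, h⟩ := S.approx_pt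
  obtain ⟨n0, hn0⟩ := S.exists_RN (half_pos hδ0) x
  obtain ⟨p, k, x', h1, h2, h3, h4, -, h5⟩ := h δ0 hδ0 le_rfl x n0 hn0 δ hδ
  exact ⟨p, k, x', h1, h2, h3, h4, h5⟩

/-- approximation by points of unstable manifolds of periodic points -/
theorem N10_approx_u (S : BSys d N K) (x : K) {δ : ℝ} (hδ : 0 < δ) : ∃ (q : K) (k : ℕ) (x' : K),
    0 < k ∧ fw S.f k q = q ∧ finrank ℝ (S.Eu q) = finrank ℝ (S.Eu x) ∧ x' ∈ WU S.f q ∧
      dist x x' < δ := by
  obtain ⟨S', h1, -⟩ := S.exists_inv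
  obtain ⟨q, k, x', h2, h3, h4, h5, h6⟩ := N10_approx S' x hδ
  have hf : S'.f = S.f.symm := by
    have := congrArg (fun T : ESys d N K => T.f) h1
    exact this
  have hE : ∀ y, S'.Es y = S.Eu y := fun y => by
    have := congrArg (fun T : ESys d N K => T.Es y) h1
    exact this
  refine ⟨q, k, x', h2, ?_, ?_, ?_, h6⟩
  · rw [hf] at h3
    have h7 : bk S.f k q = q := h3
    calc fw S.f k q = fw S.f k (bk S.f k q) := by rw [h7]
      _ = q := fw_bk k
  · rw [← hE, ← hE]; exact h4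
  · rw [hf] at h5; exact h5

/-- periodic points are periodic for multiples of the period -/
theorem N10_mul {Z : Type} [MetricSpace Z] {F : Z ≃ₜ Z} {x : Z} {k : ℕ} (h : fw F k x = x) (m : ℕ) :
    fw F (k * m) x = x := by
  induction m with
  | zero => rfl
  | succ m ih => rw [Nat.mul_succ, fw_add, h, ih]

/-- N10 -/
theorem BSys.P2 (S : BSys d N K) {ε : ℝ} (hε : 0 < ε) (hSS : S.SSε ε) {Λ : Set K}
    (hΛ : Λ ⊆ S.Oj 1) (hne : Λ.Nonempty) (hc : IsClosed Λ) {x : K}
    (hx : x ∈ closure (S.Bas Λ)) : finrank ℝ (S.Es x) ≤ 1 := by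
  by_contra hcon
  obtain ⟨z, hz, hzO, hzd⟩ := S.exit_pt hΛ hne hc hx (by omega)
  obtain ⟨ε1, hε1, hw⟩ := S.wand z hzO
  -- points returning to the ball
  have hw' : ∀ n > 0, ∀ y, dist z y < ε1 → ε1 ≤ dist z (bk S.f n y) := by
    intro n hn y hy
    by_contra h1
    have h2 := hw n hn (bk S.f n y) (not_le.1 h1)
    rw [fw_bk] at h2
    linarith
  obtain ⟨δ, hδ, hcomp⟩ := S.toESys.exists_comp ε hε
  obtain ⟨ρ, hρ, hpush0⟩ := S.toESys.push_pt z
  have hpush := fun r (hr : 0 < r) (hrρ : r ≤ ρ) => hpush0 r hr hrρ δ hδ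
  set r := min ρ (ε1 / 2) with hr
  have hr0 : 0 < r := lt_min hρ (by positivity)
  have hrε : r < ε1 := (min_le_right _ _).trans_lt (by linarith)
  obtain ⟨η, hη, hpush⟩ := hpush r hr0 (min_le_left _ _)
  set η' := min η r with hη'
  have hη'0 : 0 < η' := lt_min hη hr0
  -- the point of the unstable manifold
  obtain ⟨q, kq, a, hkq, hq, hqd, haq, hza⟩ := N10_approx_u S z hη'0
  -- the point of the stable manifold
  obtain ⟨b, hb, hzb⟩ := Metric.mem_closure_iff.1 hz (η' / 2) (by positivity)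
  obtain ⟨p, kp, b', hkp, hp, hpd, hbp, hbb⟩ := N10_approx S b (half_pos hη'0)
  have hzb' : dist z b' < η' := by
    have := dist_triangle z b b'
    linarith
  have hb1 : finrank ℝ (S.Es b) = 1 := by
    obtain ⟨y, hy⟩ : ∃ y, MapClusterPt y atTop (fun n : ℕ => fw S.f n b) := by
      obtain ⟨y, -, hy⟩ := isCompact_univ.exists_mapClusterPt (f := atTop)
        (u := fun n : ℕ => fw S.f n b) (by simp)
      exact ⟨y, hy⟩
    have hyΛ : y ∈ Λ := by
      rw [← hc.closure_eq, Metric.mem_closure_iff_infDist_zero hne]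
      have h1 : MapClusterPt (infDist y Λ) atTop (fun n : ℕ => infDist (fw S.f n b) Λ) :=
        MapClusterPt.tendsto_comp (f := fun x => infDist x Λ)
          ((continuous_infDist_pt Λ).tendsto y) hy
      have h2 : Tendsto (fun n => infDist (fw S.f n b) Λ) atTop (𝓝 0) := hb
      have h3 : ClusterPt (infDist y Λ) (𝓝 (0 : ℝ)) := h1.clusterPt.mono h2
      exact eq_of_nhds_neBot h3.neBot
    rw [S.dim_fw hy]
    exact (hΛ hyΛ).2
  obtain ⟨Θ, hΘS, hΘN, hΘ1, hΘ2⟩ := hpush a b' (hza.le.trans (min_le_left _ _))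
    (hzb'.le.trans (min_le_left _ _))
  obtain ⟨S', hN, hS'⟩ := hcomp Θ hΘS hΘN
  -- the common period
  set k := kp * kq with hk
  have hk0 : 0 < k := Nat.mul_pos hkp hkq
  have hkp' : fw S.f k p = p := N10_mul hp kq
  have hkq' : fw S.f k q = q := by rw [hk, mul_comm]; exact N10_mul hq kp
  have hW : {y | r < dist z y} ∈ 𝓝ˢ {x | fw S.f k x = x} := by
    have ho : IsOpen {y | r < dist z y} := isOpen_lt continuous_const (by fun_prop)
    rw [ho.mem_nhdsSet]
    intro y hy
    by_contra h1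
    have h2 : dist z y ≤ r := not_lt.1 h1
    have h3 := hw k hk0 y (h2.trans_lt hrε)
    have h4 : fw S.f k y = y := hy
    rw [h4] at h3
    linarith
  have hEq : ∀ y, r ≤ dist z y → S'.f y = S.f y := fun y hy => by rw [hS', hΘ1 y hy]
  have hEq' : ∀ y, r ≤ dist z (S.f.symm y) → S'.f.symm y = S.f.symm y := fun y hy => by
    rw [Homeomorph.symm_apply_eq, hEq _ hy, Homeomorph.apply_symm_apply]
  -- forward orbits of `S'` and `S`
  have hfw : ∀ y, (∀ n, r ≤ dist z (fw S.f n y)) → ∀ n, fw S'.f n y = fw S.f n y := by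
    intro y hy n
    induction n with
    | zero => rfl
    | succ n ih => rw [fw_succ', fw_succ', ih, hEq _ (hy n)]
  have hbk : ∀ y, (∀ n > 0, r ≤ dist z (bk S.f n y)) → ∀ n, bk S'.f n y = bk S.f n y := by
    intro y hy n
    induction n with
    | zero => rfl
    | succ n ih =>
      rw [bk_succ', bk_succ', ih, hEq']
      rw [← bk_succ']
      exact hy (n + 1) (Nat.succ_pos n)
  -- periodic orbits stay outside
  have hper : ∀ y, fw S.f k y = y → ∀ n, r ≤ dist z (fw S.f n y) := by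
    intro y hy n
    by_contra h1
    have h2 := hw k hk0 (fw S.f n y) ((not_le.1 h1).trans hrε)
    rw [← fw_add, add_comm, fw_add, hy] at h2
    have h3 := not_le.1 h1
    linarith
  have hper' : ∀ y, fw S.f k y = y → ∀ n > 0, r ≤ dist z (bk S.f n y) := by
    intro y hy n hn
    by_contra h1
    have h2 := hw k hk0 (bk S.f n y) ((not_le.1 h1).trans hrε)
    have h4 : fw S.f k (bk S.f n y) = bk S.f n y := by
      have h5 : fw S.f n (fw S.f k (bk S.f n y)) = fw S.f n (bk S.f n y) := by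
        rw [← fw_add, add_comm, fw_add, fw_bk, hy]
      have h6 := congrArg (bk S.f n) h5
      rwa [bk_fw, bk_fw] at h6
    rw [h4] at h2
    have h3 := not_le.1 h1
    linarith
  -- the forward orbit of `a`
  have hap : a ∈ WS S'.f p := by
    have h1 : Tendsto (fun n => dist (fw S.f n p) (fw S.f n b')) atTop (𝓝 0) := hbp
    show Tendsto (fun n => dist (fw S'.f n p) (fw S'.f n a)) atTop (𝓝 0)
    rw [← tendsto_add_atTop_iff_nat 1]
    rw [← tendsto_add_atTop_iff_nat 1] at h1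
    refine h1.congr fun n => ?_
    have h2 : fw S'.f (n + 1) a = fw S.f (n + 1) b' := by
      rw [fw_succ, fw_succ, hS' a, hΘ2]
      refine hfw _ (fun m => ?_) n
      rw [← fw_succ]
      exact hrε.le.trans (hw (m + 1) (Nat.succ_pos m) b'
        (hzb'.trans_le ((min_le_right _ _).trans hrε.le)))
    rw [h2, hfw p (hper p hkp')]
  have haq' : a ∈ WU S'.f q := by
    have h1 : Tendsto (fun n => dist (bk S.f n q) (bk S.f n a)) atTop (𝓝 0) := haq
    show Tendsto (fun n => dist (bk S'.f n q) (bk S'.f n a)) atTop (𝓝 0)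
    refine h1.congr fun n => ?_
    rw [hbk q (hper' q hkq'), hbk a]
    intro m hm
    exact hrε.le.trans (hw' m hm a (hza.trans_le ((min_le_right _ _).trans hrε.le)))
  -- the index of `q`
  have hqO : q ∈ S.Om := (S.fix_fin hk0).2.1 hkq'
  have hq2 : 2 ≤ finrank ℝ (S.Es q) := by
    have := S.Om_dim hqO
    rw [hqd] at this
    omega
  have hgen := (S.gen hε hSS hk0 hW hN (fun y hy => hEq y (le_of_lt hy)) hkp' hkq'
    (hpd.trans hb1)).1 hq2
  exact Set.disjoint_left.1 hgen hap haq'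

end Pool.MP85
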