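import Pool.Agent.Lib.MP_85e637_an.S2Defs
import Pool.Agent.Lib.MP_85e637_an.C10
import Pool.Agent.Lib.MP_85e637_an.F2

/-!
# Stage 2, N11a: a `C¹`-small diffeomorphism moving a curve inside a hypersurface to a nearby curve
-/

open Filter Topology Set Metric Module

namespace Pool.MP85
variable {d N : ℕ} {K : Type} [MetricSpace K] [CompactSpace K]


/-- scaled bump functions with a uniform bound of the derivative -/
theorem N11a_bump (N : ℕ) : ∃ C : ℝ, 0 < C ∧ ∀ r > 0, ∃ β : EE N → ℝ, ContDiff ℝ 1 β ∧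
    (∀ a, ‖a‖ ≤ r / 8 → β a = 1) ∧ (∀ a, r / 4 ≤ ‖a‖ → β a = 0) ∧ (∀ a, |β a| ≤ 1) ∧
      ∀ a, ‖fderiv ℝ β a‖ ≤ C / r := by
  let f : ContDiffBump (0 : EE N) := ⟨1 / 8, 1 / 4, by norm_num, by norm_num⟩
  have hf1 : ContDiff ℝ 1 f := f.contDiff
  have hsupp : HasCompactSupport (f : EE N → ℝ) := f.hasCompactSupport
  obtain ⟨C, hC⟩ := (hf1.continuous_fderiv one_ne_zero).bounded_above_of_compact_support
    (hsupp.fderiv ℝ)
  refine ⟨max C 1, lt_max_of_lt_right one_pos, fun r hr => ⟨fun a => f (r⁻¹ • a), ?_, ?_, ?_, ?_, ?_⟩⟩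
  · exact hf1.comp (contDiff_const_smul _)
  · intro a ha
    refine f.one_of_mem_closedBall ?_
    rw [mem_closedBall_zero_iff, norm_smul, norm_inv, Real.norm_eq_abs, abs_of_pos hr]
    change r⁻¹ * ‖a‖ ≤ 1 / 8
    rw [inv_mul_le_iff₀ hr]
    linarith
  · intro a ha
    refine f.zero_of_le_dist ?_
    rw [dist_zero_right, norm_smul, norm_inv, Real.norm_eq_abs, abs_of_pos hr]
    change 1 / 4 ≤ r⁻¹ * ‖a‖
    rw [le_inv_mul_iff₀ hr]
    linarith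
  · intro a
    rw [abs_of_nonneg f.nonneg]
    exact f.le_one
  · intro a
    have h1 : HasFDerivAt (f : EE N → ℝ) (fderiv ℝ f (r⁻¹ • a)) (r⁻¹ • a) :=
      ((hf1.differentiable one_ne_zero) _).hasFDerivAt
    have h2 : HasFDerivAt (fun a : EE N => r⁻¹ • a) (r⁻¹ • ContinuousLinearMap.id ℝ (EE N)) a :=
      (hasFDerivAt_id a).const_smul r⁻¹
    have h3 := (h1.comp a h2).fderiv
    have h4 : fderiv ℝ (fun a => f (r⁻¹ • a)) a =
        (fderiv ℝ f (r⁻¹ • a)).comp (r⁻¹ • ContinuousLinearMap.id ℝ (EE N)) := h3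
    rw [h4]
    refine ContinuousLinearMap.opNorm_le_bound _ (by positivity) fun v => ?_
    rw [ContinuousLinearMap.comp_apply, ContinuousLinearMap.smul_apply,
      ContinuousLinearMap.id_apply, map_smul, norm_smul, norm_inv, Real.norm_eq_abs,
      abs_of_pos hr]
    have h5 := (fderiv ℝ f (r⁻¹ • a)).le_opNorm v
    have h6 := (hC (r⁻¹ • a)).trans (le_max_left C 1)
    calc r⁻¹ * ‖(fderiv ℝ f (r⁻¹ • a)) v‖ ≤ r⁻¹ * (max C 1 * ‖v‖) := by
          refine mul_le_mul_of_nonneg_left (h5.trans ?_) (by positivity)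
          exact mul_le_mul_of_nonneg_right h6 (norm_nonneg _)
      _ = max C 1 / r * ‖v‖ := by ring

/-- unit normal of a hyperplane of a subspace -/
theorem N11a_normal {N u : ℕ} {T : Submodule ℝ (EE N)} (hT : finrank ℝ T = u + 1)
    (ι : EE u →ₗᵢ[ℝ] EE N) (hι : ∀ b, ι b ∈ T) :
    ∃ ν ∈ T, ‖ν‖ = 1 ∧ (∀ b, inner ℝ (ι b) ν = 0) ∧
      ∀ v ∈ T, (∀ b, inner ℝ (ι b) v = 0) → v = (inner ℝ v ν : ℝ) • ν := by
  set R : Submodule ℝ (EE N) := LinearMap.range ι.toLinearMap with hR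
  have hRT : R ≤ T := by
    rintro _ ⟨b, rfl⟩
    exact hι b
  have hRf : finrank ℝ R = u := by
    rw [hR, LinearMap.finrank_range_of_inj ι.injective]
    simp
  have h1 := Submodule.finrank_add_inf_finrank_orthogonal hRT
  have h2 : finrank ℝ (Rᗮ ⊓ T : Submodule ℝ (EE N)) = 1 := by omega
  obtain ⟨w, hw0, hw⟩ := finrank_eq_one_iff'.1 h2
  have hwn : ‖(w : EE N)‖ ≠ 0 := by
    rw [norm_ne_zero_iff]
    intro h
    exact hw0 (Subtype.ext h)
  refine ⟨‖(w : EE N)‖⁻¹ • (w : EE N), T.smul_mem _ w.2.2, ?_, ?_, ?_⟩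
  · rw [norm_smul, norm_inv, norm_norm, inv_mul_cancel₀ hwn]
  · intro b
    rw [inner_smul_right]
    have : inner ℝ (ι b) (w : EE N) = 0 := w.2.1 (ι b) ⟨b, rfl⟩
    rw [this, mul_zero]
  · intro v hv hb
    have hvR : v ∈ Rᗮ := by
      rw [Submodule.mem_orthogonal]
      rintro _ ⟨b, rfl⟩
      exact hb b
    obtain ⟨c, hc⟩ := hw ⟨v, hvR, hv⟩
    have hc' : c • (w : EE N) = v := congrArg Subtype.val hc
    rw [← hc', inner_smul_left, inner_smul_right, real_inner_self_eq_norm_mul_norm, smul_smul]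
    congr 1
    simp only [conj_trivial]
    field_simp

theorem ESys.N11a_mem_T (S : ESys d N K) (x : K) {v : EE N} (hv : v ∈ S.T x) : S.P x v = v := by
  obtain ⟨w, rfl⟩ := hv
  exact congrArg (fun L : EE N →L[ℝ] EE N => L w) (S.PP x)

/-- coordinates along an isometric embedding -/
noncomputable def N11a_adj {N k : ℕ} (ι : EE k →ₗᵢ[ℝ] EE N) : EE N →L[ℝ] EE k :=
  ContinuousLinearMap.adjoint ι.toContinuousLinearMap

theorem N11a_adj_inner {N k : ℕ} (ι : EE k →ₗᵢ[ℝ] EE N) (v : EE N) (b : EE k) :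
    inner ℝ (N11a_adj ι v) b = inner ℝ v (ι b) := by
  unfold N11a_adj
  rw [ContinuousLinearMap.adjoint_inner_left]
  rfl

theorem N11a_adj_norm {N k : ℕ} (ι : EE k →ₗᵢ[ℝ] EE N) (v : EE N) : ‖N11a_adj ι v‖ ≤ ‖v‖ := by
  by_cases h0 : ‖N11a_adj ι v‖ = 0
  · rw [h0]; exact norm_nonneg _
  · have hpos : 0 < ‖N11a_adj ι v‖ := lt_of_le_of_ne (norm_nonneg _) (Ne.symm h0)
    have h1 : ‖N11a_adj ι v‖ * ‖N11a_adj ι v‖ = inner ℝ v (ι (N11a_adj ι v)) := by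
      rw [← N11a_adj_inner, real_inner_self_eq_norm_mul_norm]
    have h2 : inner ℝ v (ι (N11a_adj ι v)) ≤ ‖v‖ * ‖N11a_adj ι v‖ := by
      have := real_inner_le_norm v (ι (N11a_adj ι v))
      rwa [ι.norm_map] at this
    rw [← h1] at h2
    exact le_of_mul_le_mul_right h2 hpos

/-- the displacement function: estimates and smoothness -/
theorem N11a_psi (S : ESys d N K) (x : K) {u : ℕ} (ιs : EE 1 →ₗᵢ[ℝ] EE N)
    (ιu : EE u →ₗᵢ[ℝ] EE N) {ν : EE N} (hν : ‖ν‖ = 1) (hsν : ∀ a, inner ℝ (ιs a) ν = 0)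
    (huν : ∀ b, inner ℝ (ιu b) ν = 0) {η r : ℝ} (hη : 0 < η) (hη1 : η ≤ 1 / 32) (hr : 0 < r)
    (Γs : EE 1 → K) (Γu : EE u → K) (hs : FlatDisc S x ιs Γs η r) (hu : FlatDisc S x ιu Γu η r) :
    ∃ ψ : EE 1 → ℝ, (∀ t, ψ t = inner ℝ (S.e (Γs t) - S.e x) ν -
        inner ℝ (S.e (Γu (N11a_adj ιu (S.e (Γs t) - S.e x))) - S.e x) ν) ∧
      (∀ t, ‖t‖ < r / 2 → ContDiffAt ℝ 1 ψ t ∧ |ψ t| ≤ 2 * η * r ∧ ‖fderiv ℝ ψ t‖ ≤ 3 * η ∧
        ‖N11a_adj ιu (S.e (Γs t) - S.e x)‖ ≤ ‖t‖ + η * r) := by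
  refine ⟨fun t => inner ℝ (S.e (Γs t) - S.e x) ν -
        inner ℝ (S.e (Γu (N11a_adj ιu (S.e (Γs t) - S.e x))) - S.e x) ν, fun t => rfl, ?_⟩
  intro t ht
  have htb : t ∈ ball (0 : EE 1) r := by
    rw [mem_ball_zero_iff]; linarith
  set b : EE u := N11a_adj ιu (S.e (Γs t) - S.e x) with hb
  have hq : ‖S.e (Γs t) - S.e x‖ ≤ ‖t‖ + η * r := by
    have h1 := hs.near t htb
    have h2 := norm_add_le (S.e (Γs t) - S.e x - ιs t) (ιs t)
    rw [sub_add_cancel, ιs.norm_map] at h2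
    linarith
  have hbn : ‖b‖ ≤ ‖t‖ + η * r := (N11a_adj_norm ιu _).trans hq
  have hbb : b ∈ ball (0 : EE u) r := by
    rw [mem_ball_zero_iff]
    nlinarith
  have hcs : ContDiffAt ℝ 1 (fun a => S.e (Γs a)) t := hs.diff.contDiffAt (isOpen_ball.mem_nhds htb)
  have hcu : ContDiffAt ℝ 1 (fun a => S.e (Γu a)) b := hu.diff.contDiffAt (isOpen_ball.mem_nhds hbb)
  have hcb : ContDiffAt ℝ 1 (fun t => N11a_adj ιu (S.e (Γs t) - S.e x)) t :=
    (N11a_adj ιu).contDiff.contDiffAt.comp t (hcs.sub contDiffAt_const)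
  have hcub : ContDiffAt ℝ 1 (fun t => S.e (Γu (N11a_adj ιu (S.e (Γs t) - S.e x)))) t :=
    ContDiffAt.comp (g := fun a => S.e (Γu a)) t hcu hcb
  refine ⟨?_, ?_, ?_, hbn⟩
  · exact ((hcs.sub contDiffAt_const).inner ℝ contDiffAt_const).sub
      ((hcub.sub contDiffAt_const).inner ℝ contDiffAt_const)
  · have e1 : inner ℝ (S.e (Γs t) - S.e x) ν = inner ℝ (S.e (Γs t) - S.e x - ιs t) ν := by
      rw [inner_sub_left (S.e (Γs t) - S.e x), hsν, sub_zero]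
    have e2 : inner ℝ (S.e (Γu b) - S.e x) ν = inner ℝ (S.e (Γu b) - S.e x - ιu b) ν := by
      rw [inner_sub_left (S.e (Γu b) - S.e x), huν, sub_zero]
    have h1 := abs_real_inner_le_norm (S.e (Γs t) - S.e x - ιs t) ν
    have h2 := abs_real_inner_le_norm (S.e (Γu b) - S.e x - ιu b) ν
    have h3 := hs.near t htb
    have h4 := hu.near b hbb
    rw [hν, mul_one] at h1 h2
    change |inner ℝ (S.e (Γs t) - S.e x) ν - inner ℝ (S.e (Γu b) - S.e x) ν| ≤ _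
    rw [e1, e2]
    refine (abs_sub _ _).trans ?_
    linarith
  · have d1 : HasFDerivAt (fun a => S.e (Γs a)) (fderiv ℝ (fun a => S.e (Γs a)) t) t :=
      (hcs.differentiableAt one_ne_zero).hasFDerivAt
    have d2 : HasFDerivAt (fun a => S.e (Γu a)) (fderiv ℝ (fun a => S.e (Γu a)) b) b :=
      (hcu.differentiableAt one_ne_zero).hasFDerivAt
    obtain ⟨Ls, hLs⟩ : ∃ Ls, Ls = fderiv ℝ (fun a => S.e (Γs a)) t := ⟨_, rfl⟩
    obtain ⟨Lu, hLu⟩ : ∃ Lu, Lu = fderiv ℝ (fun a => S.e (Γu a)) b := ⟨_, rfl⟩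
    have k1 := hs.deriv t htb
    have k2 := hu.deriv b hbb
    rw [← hLs] at d1 k1
    rw [← hLu] at d2 k2
    have d3 : HasFDerivAt (fun t => N11a_adj ιu (S.e (Γs t) - S.e x))
        ((N11a_adj ιu).comp Ls) t :=
      (N11a_adj ιu).hasFDerivAt.comp t (d1.sub_const _)
    have d4 : HasFDerivAt (fun t => S.e (Γu (N11a_adj ιu (S.e (Γs t) - S.e x))))
        (Lu.comp ((N11a_adj ιu).comp Ls)) t :=
      HasFDerivAt.comp (g := fun a => S.e (Γu a)) t d2 d3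
    have d5 : HasFDerivAt (fun t => inner ℝ (S.e (Γs t) - S.e x) ν -
        inner ℝ (S.e (Γu (N11a_adj ιu (S.e (Γs t) - S.e x))) - S.e x) ν)
        ((innerSL ℝ ν).comp Ls - (innerSL ℝ ν).comp (Lu.comp ((N11a_adj ιu).comp Ls))) t := by
      have d6 := ((innerSL ℝ ν).hasFDerivAt.comp t (d1.sub_const (S.e x))).sub
        ((innerSL ℝ ν).hasFDerivAt.comp t (d4.sub_const (S.e x)))
      refine d6.congr_of_eventuallyEq (Eventually.of_forall fun s => ?_)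
      simp only [Function.comp_apply, Pi.sub_apply, innerSL_apply_apply]
      rw [real_inner_comm ν, real_inner_comm ν]
    rw [d5.fderiv]
    refine ContinuousLinearMap.opNorm_le_bound _ (by positivity) fun c => ?_
    simp only [ContinuousLinearMap.sub_apply, ContinuousLinearMap.comp_apply, innerSL_apply_apply]
    rw [Real.norm_eq_abs]
    have e1 : inner ℝ ν (Ls c) = inner ℝ ν (Ls c - ιs c) := by
      rw [inner_sub_right, real_inner_comm (ιs c) ν, hsν, sub_zero]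
    obtain ⟨b', hb'⟩ : ∃ b', b' = N11a_adj ιu (Ls c) := ⟨_, rfl⟩
    have e2 : inner ℝ ν (Lu b') = inner ℝ ν (Lu b' - ιu b') := by
      rw [inner_sub_right, real_inner_comm (ιu b') ν, huν, sub_zero]
    have hLc : ‖Ls c‖ ≤ (1 + η) * ‖c‖ := by
      have h1 := k1 c
      have h2 := norm_add_le (Ls c - ιs c) (ιs c)
      rw [sub_add_cancel, ιs.norm_map] at h2
      linarith
    have hb'n : ‖b'‖ ≤ (1 + η) * ‖c‖ := by
      rw [hb']; exact (N11a_adj_norm ιu _).trans hLc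
    rw [← hb', e1, e2]
    have h1 := abs_real_inner_le_norm ν (Ls c - ιs c)
    have h2 := abs_real_inner_le_norm ν (Lu b' - ιu b')
    rw [hν, one_mul] at h1 h2
    have h3 := k1 c
    have h4 := k2 b'
    refine (abs_sub _ _).trans ?_
    have h5 : η * ‖b'‖ ≤ η * ((1 + η) * ‖c‖) := mul_le_mul_of_nonneg_left hb'n hη.le
    have h6 : η * (η * ‖c‖) ≤ η * ‖c‖ := by
      refine mul_le_mul_of_nonneg_left ?_ hη.le
      have : 0 ≤ ‖c‖ := norm_nonneg _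
      nlinarith
    nlinarith

theorem ESys.flatten (S : ESys d N K) (x : K) {u : ℕ} (hu : u + 1 = d) (ιs : EE 1 →ₗᵢ[ℝ] EE N)
    (ιu : EE u →ₗᵢ[ℝ] EE N) (hs : ∀ a, ∃ b, ιu b = ιs a) (hT : ∀ b, ιu b ∈ S.T x) :
    ∀ ε > 0, ∃ η > 0, ∃ ρ > 0, ∀ r > 0, r ≤ ρ → ∀ (Γs : EE 1 → K) (Γu : EE u → K),
      FlatDisc S x ιs Γs η r → FlatDisc S x ιu Γu η r → ∃ Θ : ESys d N K, S.Same Θ ∧
        Θ.IdNear ε ∧ (∀ y, r ≤ dist x y → Θ.f y = y) ∧
        ∀ t : EE 1, ‖t‖ < r / 16 → ∃ b : EE u, ‖b‖ < r ∧ Θ.f (Γu b) = Γs t := by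
  intro ε hε
  obtain ⟨ρ0, hρ0, hb0⟩ := S.bump x
  obtain ⟨η0, hη0, hb⟩ := hb0 ε hε
  obtain ⟨ρ1, hρ1, hch, -⟩ := S.chart (1 / 2) (by norm_num) (by norm_num)
  obtain ⟨C, hC, hβ⟩ := N11a_bump N
  obtain ⟨ν, hνT, hν1, huν, hνdec⟩ := N11a_normal (by rw [S.rankP x, hu]) ιu hT
  have hsν : ∀ a, inner ℝ (ιs a) ν = 0 := by
    intro a
    obtain ⟨b, hb⟩ := hs a
    rw [← hb]; exact huν b
  set η : ℝ := min (1 / 32) (η0 / (3 + 2 * C)) with hηdef
  have hη : 0 < η := lt_min (by norm_num) (by positivity)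
  have hη1 : η ≤ 1 / 32 := min_le_left _ _
  have hη2 : (3 + 2 * C) * η ≤ η0 := by
    have : η ≤ η0 / (3 + 2 * C) := min_le_right _ _
    rw [le_div_iff₀ (by positivity)] at this
    linarith
  refine ⟨η, hη, min ρ0 ρ1, lt_min hρ0 hρ1, ?_⟩
  intro r hr hrρ Γs Γu hFs hFu
  have hr0 : r ≤ ρ0 := hrρ.trans (min_le_left _ _)
  have hr1 : r ≤ ρ1 := hrρ.trans (min_le_right _ _)
  obtain ⟨β, hβc, hβ1, hβ0, hβle, hβd⟩ := hβ r hr
  obtain ⟨ψ, hψ, hψb⟩ := N11a_psi S x ιs ιu hν1 hsν huν hη hη1 hr Γs Γu hFs hFu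
  -- the displacement
  obtain ⟨Δ, hΔ⟩ : ∃ Δ : EE N → EE N, Δ = fun a => (β a * ψ (N11a_adj ιs a)) • ν := ⟨_, rfl⟩
  have hΔ0 : ∀ a, r / 4 ≤ ‖a‖ → Δ a = 0 := by
    intro a ha
    rw [hΔ]
    simp only [hβ0 a ha, zero_mul, zero_smul]
  have hev : ∀ a, r / 4 < ‖a‖ → Δ =ᶠ[𝓝 a] fun _ => (0 : EE N) := by
    intro a ha
    have : {a' : EE N | r / 4 < ‖a'‖} ∈ 𝓝 a :=
      (isOpen_lt continuous_const continuous_norm).mem_nhds ha
    filter_upwards [this] with a' ha'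
    exact hΔ0 a' (le_of_lt ha')
  have hin : ∀ a, ‖a‖ < r / 2 → ContDiffAt ℝ 1 Δ a ∧ ‖fderiv ℝ Δ a‖ ≤ η0 := by
    intro a ha
    have hτ : ‖N11a_adj ιs a‖ < r / 2 := (N11a_adj_norm ιs a).trans_lt ha
    obtain ⟨p1, p2, p3, -⟩ := hψb _ hτ
    have c1 : ContDiffAt ℝ 1 (fun a => ψ (N11a_adj ιs a)) a :=
      ContDiffAt.comp (g := ψ) a p1 (N11a_adj ιs).contDiff.contDiffAt
    have c2 : ContDiffAt ℝ 1 (fun a => β a * ψ (N11a_adj ιs a)) a := hβc.contDiffAt.mul c1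
    refine ⟨by rw [hΔ]; exact c2.smul contDiffAt_const, ?_⟩
    have d1 : HasFDerivAt ψ (fderiv ℝ ψ (N11a_adj ιs a)) (N11a_adj ιs a) :=
      (p1.differentiableAt one_ne_zero).hasFDerivAt
    have d2 : HasFDerivAt (fun a => ψ (N11a_adj ιs a))
        ((fderiv ℝ ψ (N11a_adj ιs a)).comp (N11a_adj ιs)) a :=
      HasFDerivAt.comp (g := ψ) a d1 (N11a_adj ιs).hasFDerivAt
    have d3 : HasFDerivAt β (fderiv ℝ β a) a :=
      ((hβc.differentiable one_ne_zero) a).hasFDerivAt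
    have d4 := (d3.mul d2).smul_const ν
    have d5 : HasFDerivAt Δ ((β a • ((fderiv ℝ ψ (N11a_adj ιs a)).comp (N11a_adj ιs)) +
        ψ (N11a_adj ιs a) • fderiv ℝ β a).smulRight ν) a := by
      rw [hΔ]; exact d4
    rw [d5.fderiv]
    refine ContinuousLinearMap.opNorm_le_bound _ hη0.le fun v => ?_
    rw [ContinuousLinearMap.smulRight_apply, norm_smul, hν1, mul_one]
    simp only [ContinuousLinearMap.add_apply, ContinuousLinearMap.smul_apply,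
      ContinuousLinearMap.comp_apply, smul_eq_mul]
    have q1 : ‖(fderiv ℝ ψ (N11a_adj ιs a)) (N11a_adj ιs v)‖ ≤ 3 * η * ‖v‖ := by
      refine ((fderiv ℝ ψ (N11a_adj ιs a)).le_opNorm _).trans ?_
      exact mul_le_mul p3 (N11a_adj_norm ιs v) (norm_nonneg _) (by positivity)
    have q2 : ‖(fderiv ℝ β a) v‖ ≤ C / r * ‖v‖ :=
      ((fderiv ℝ β a).le_opNorm v).trans (mul_le_mul_of_nonneg_right (hβd a) (norm_nonneg _))
    have q3 : ‖β a * (fderiv ℝ ψ (N11a_adj ιs a)) (N11a_adj ιs v)‖ ≤ 3 * η * ‖v‖ := by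
      rw [norm_mul]
      calc ‖β a‖ * ‖(fderiv ℝ ψ (N11a_adj ιs a)) (N11a_adj ιs v)‖
          ≤ 1 * (3 * η * ‖v‖) := mul_le_mul (hβle a) q1 (norm_nonneg _) zero_le_one
        _ = _ := one_mul _
    have q4 : ‖ψ (N11a_adj ιs a) * (fderiv ℝ β a) v‖ ≤ 2 * C * η * ‖v‖ := by
      rw [norm_mul]
      calc ‖ψ (N11a_adj ιs a)‖ * ‖(fderiv ℝ β a) v‖
          ≤ (2 * η * r) * (C / r * ‖v‖) := mul_le_mul p2 q2 (norm_nonneg _) (by positivity)
        _ = 2 * C * η * ‖v‖ := by field_simp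
    refine (norm_add_le _ _).trans ?_
    calc _ ≤ 3 * η * ‖v‖ + 2 * C * η * ‖v‖ := add_le_add q3 q4
      _ = (3 + 2 * C) * η * ‖v‖ := by ring
      _ ≤ η0 * ‖v‖ := mul_le_mul_of_nonneg_right hη2 (norm_nonneg _)
  have hΔc : ContDiff ℝ 1 Δ := by
    rw [contDiff_iff_contDiffAt]
    intro a
    by_cases ha : ‖a‖ < r / 2
    · exact (hin a ha).1
    · exact contDiffAt_const.congr_of_eventuallyEq (hev a (by linarith))
  have hΔd : ∀ a, ‖fderiv ℝ Δ a‖ ≤ η0 := by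
    intro a
    by_cases ha : ‖a‖ < r / 2
    · exact (hin a ha).2
    · rw [(hev a (by linarith)).fderiv_eq]
      simp [hη0.le]
  have hΔT : ∀ a, Δ a ∈ S.T x := by
    intro a
    rw [hΔ]
    exact (S.T x).smul_mem _ hνT
  obtain ⟨Θ, hΘ1, hΘ2, hΘ3, hΘ4⟩ := hb (r / 2) (by positivity) (by linarith) Δ hΔc hΔT
    (fun a _ ha => hΔ0 a (by linarith)) (fun a _ => hΔd a)
  rw [show 2 * (r / 2) = r by ring] at hΘ3 hΘ4
  refine ⟨Θ, hΘ1, hΘ2, hΘ3, ?_⟩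
  intro t ht
  have ht2 : ‖t‖ < r / 2 := by linarith
  have htb : t ∈ ball (0 : EE 1) r := by rw [mem_ball_zero_iff]; linarith
  obtain ⟨-, -, -, hbn⟩ := hψb t ht2
  obtain ⟨b, hb⟩ : ∃ b, b = N11a_adj ιu (S.e (Γs t) - S.e x) := ⟨_, rfl⟩
  rw [← hb] at hbn
  have hηr : η * r ≤ r / 32 := by nlinarith
  have hbr : ‖b‖ < r := by linarith
  have hbb : b ∈ ball (0 : EE u) r := by rw [mem_ball_zero_iff]; exact hbr
  refine ⟨b, hbr, ?_⟩
  -- coordinates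
  have hP : ∀ v w : EE N, v ∈ S.T x → inner ℝ v (S.P x w) = inner ℝ v w := by
    intro v w hv
    rw [← S.Psa x v w, S.N11a_mem_T x hv]
  have hdu : dist x (Γu b) ≤ ‖b‖ + η * r := by
    rw [dist_comm, ← S.e_isom]
    have h1 := hFu.near b hbb
    have h2 := norm_add_le (S.e (Γu b) - S.e x - ιu b) (ιu b)
    rw [sub_add_cancel, ιu.norm_map] at h2
    linarith
  have hds : dist x (Γs t) ≤ ‖t‖ + η * r := by
    rw [dist_comm, ← S.e_isom]
    have h1 := hFs.near t htb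
    have h2 := norm_add_le (S.e (Γs t) - S.e x - ιs t) (ιs t)
    rw [sub_add_cancel, ιs.norm_map] at h2
    linarith
  have hdu' : dist x (Γu b) < r := by linarith
  have hds' : dist x (Γs t) < r := by linarith
  obtain ⟨hΘx, hΘχ⟩ := hΘ4 (Γu b) hdu'
  -- χ (Γu b)
  have cu : ∀ c, inner ℝ (ιu c) (S.χ x (Γu b)) = inner ℝ c b := by
    intro c
    unfold ESys.χ
    rw [hP _ _ (hT c)]
    have h1 := hFu.graph b hbb c
    rw [inner_sub_left, sub_eq_zero] at h1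
    rw [real_inner_comm, h1, ιu.inner_map_map, real_inner_comm]
  have cs : ∀ c, inner ℝ (ιu c) (S.χ x (Γs t)) = inner ℝ c b := by
    intro c
    unfold ESys.χ
    rw [hP _ _ (hT c), real_inner_comm, ← N11a_adj_inner, ← hb, real_inner_comm]
  have χT : ∀ y, S.χ x y ∈ S.T x := fun y => ⟨_, rfl⟩
  have hdec : S.χ x (Γs t) - S.χ x (Γu b) = ψ t • ν := by
    have h1 := hνdec (S.χ x (Γs t) - S.χ x (Γu b)) ((S.T x).sub_mem (χT _) (χT _)) (by
      intro c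
      rw [inner_sub_right, cs, cu, sub_self])
    rw [h1]
    congr 1
    rw [inner_sub_left, real_inner_comm, real_inner_comm ν (S.χ x (Γu b))]
    unfold ESys.χ
    rw [hP _ _ hνT, hP _ _ hνT, hψ, ← hb]
    rw [real_inner_comm, real_inner_comm ν (S.e (Γu b) - S.e x)]
  have hτ : N11a_adj ιs (S.χ x (Γu b)) = t := by
    refine ext_inner_right ℝ fun c => ?_
    rw [N11a_adj_inner]
    obtain ⟨c', hc'⟩ := hs c
    rw [← hc', real_inner_comm, cu, hb, real_inner_comm, N11a_adj_inner, hc']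
    have h1 := hFs.graph t htb c
    rw [inner_sub_left, sub_eq_zero] at h1
    rw [h1, ιs.inner_map_map]
  have hχn : ‖S.χ x (Γu b)‖ ≤ r / 8 := by
    have h1 : ‖S.χ x (Γu b)‖ ≤ ‖S.e (Γu b) - S.e x‖ := S.toCoc.C10_norm_P_le x _
    rw [S.e_isom, dist_comm] at h1
    linarith
  have hfin : S.χ x (Θ.f (Γu b)) = S.χ x (Γs t) := by
    rw [hΘχ, hΔ]
    simp only [hβ1 _ hχn, one_mul, hτ]
    rw [← hdec]
    abel
  have h1 := (hch x (Θ.f (Γu b)) (Γs t) (hΘx.trans_le hr1) (hds'.trans_le hr1)).1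
  have h2 : S.P x (S.e (Θ.f (Γu b)) - S.e (Γs t)) = 0 := by
    have : S.e (Θ.f (Γu b)) - S.e (Γs t) = (S.e (Θ.f (Γu b)) - S.e x) - (S.e (Γs t) - S.e x) := by
      abel
    rw [this, map_sub]
    exact sub_eq_zero.2 hfin
  rw [h2, norm_zero] at h1
  refine dist_le_zero.1 ?_
  have := dist_nonneg (x := Θ.f (Γu b)) (y := Γs t)
  linarith

end Pool.MP85
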