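import Pool.Agent.Lib.MP_85e637_an.C12
import Pool.Agent.Lib.MP_85e637_an.N4b
import Pool.Agent.Lib.MP_85e637_an.N5

/-!
# N7: the local stable sets are `C¹` submanifolds tangent to `V`
-/

open Filter Topology Set Metric Module

namespace Pool.MP85
variable {d N : ℕ} {K : Type} [MetricSpace K] [CompactSpace K]

section CBs
variable {k : ℕ} {S : ESys d N K} {R : Set K} {V : K → Submodule ℝ (EE N)}

/-- inverse of the orthogonal projection `W → U` -/
theorem N7_inv (U W : Submodule ℝ (EE N)) (hf : finrank ℝ W = finrank ℝ U)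
    (hi : ∀ v ∈ W, (∀ w ∈ U, inner ℝ v w = 0) → v = 0) :
    ∃ L : EE N →L[ℝ] EE N, (∀ v, L v ∈ W) ∧ (∀ v, ∀ w ∈ U, inner ℝ (L v - v) w = 0) ∧
      (∀ v ∈ W, L v = v) := by
  let p : EE N →ₗ[ℝ] U := (U.orthogonalProjectionOnto : EE N →L[ℝ] U)
  have hp : ∀ v, ∀ w ∈ U, inner ℝ ((p v : EE N) - v) w = 0 := by
    intro v w hw
    have h1 : inner ℝ (v - U.starProjection v) w = 0 := U.starProjection_inner_eq_zero v w hw
    have h2 : ((p v : EE N)) = U.starProjection v := rfl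
    rw [h2, ← neg_sub, inner_neg_left, h1, neg_zero]
  let q : W →ₗ[ℝ] U := p ∘ₗ W.subtype
  have hq : Function.Injective q := by
    rw [← LinearMap.ker_eq_bot, LinearMap.ker_eq_bot']
    intro v hv
    have h1 : p v = 0 := hv
    apply Subtype.ext
    refine hi v v.2 (fun w hw => ?_)
    have h2 := hp v w hw
    rw [h1] at h2
    simp only [Submodule.coe_zero, zero_sub, inner_neg_left, neg_eq_zero] at h2
    exact h2
  let E : W ≃ₗ[ℝ] U := LinearMap.linearEquivOfInjective q hq hf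
  have hE : ∀ v : W, E v = p v := fun v => rfl
  let L0 : EE N →ₗ[ℝ] EE N := W.subtype ∘ₗ (E.symm : U →ₗ[ℝ] W) ∘ₗ p
  refine ⟨LinearMap.toContinuousLinearMap L0, ?_, ?_, ?_⟩
  · intro v
    exact (E.symm (p v)).2
  · intro v w hw
    have h1 : E (E.symm (p v)) = p v := E.apply_symm_apply _
    rw [hE] at h1
    have h2 : (LinearMap.toContinuousLinearMap L0) v = (E.symm (p v) : EE N) := rfl
    rw [h2]
    have h3 := hp (E.symm (p v) : EE N) w hw
    have h4 := hp v w hw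
    rw [h1] at h3
    have h5 : (E.symm (p v) : EE N) - v = ((p v : EE N) - v)
      - ((p v : EE N) - (E.symm (p v) : EE N)) := by abel
    rw [h5, inner_sub_left, h3, h4, sub_zero]
  · intro v hv
    have h1 : E ⟨v, hv⟩ = p v := hE ⟨v, hv⟩
    have h2 : E.symm (p v) = ⟨v, hv⟩ := by rw [← h1, E.symm_apply_apply]
    have h3 : (LinearMap.toContinuousLinearMap L0) v = (E.symm (p v) : EE N) := rfl
    rw [h3, h2]

/-- iterated contraction -/
theorem CB.N7_wsl (h : CB S R V k) : ∃ ε0 > 0, ∀ x ∈ R, ∀ y ∈ WSl S.f ε0 x,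
    ∀ y' ∈ WSl S.f ε0 x, y' ∈ WSl S.f (dist y y') y := by
  obtain ⟨ε0, hε0, hc⟩ := h.contr
  refine ⟨ε0, hε0, ?_⟩
  intro x hx y hy y' hy' n
  have hxR : ∀ n, fw S.f n x ∈ R := by
    intro n
    induction n with
    | zero => exact hx
    | succ n ih => rw [fw_succ']; exact h.inv _ ih
  have hsh : ∀ (z : K) (n : ℕ), z ∈ WSl S.f ε0 x → fw S.f n z ∈ WSl S.f ε0 (fw S.f n x) := by
    intro z n hz m
    have := hz (m + n)
    rw [fw_add, fw_add] at this
    exact this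
  induction n with
  | zero => simp [fw_zero]
  | succ n ih =>
    have h1 := hc (fw S.f n x) (hxR n) _ (hsh y n hy) _ (hsh y' n hy')
    rw [← fw_succ', ← fw_succ'] at h1
    have h2 : 0 ≤ dist (fw S.f (n + 1) y) (fw S.f (n + 1) y') := dist_nonneg
    linarith

/-- the fibres at the points of a small local stable set are close to each other -/
theorem CB.N7_inj (h : CB S R V k) : ∃ ε0 > 0, ∀ x ∈ R, ∀ y ∈ R, y ∈ WSl S.f ε0 x →
    ∀ v ∈ V y, (∀ w ∈ V x, inner ℝ v w = 0) → v = 0 := by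
  obtain ⟨εk, hεk, hcone⟩ := h.cone (1 / 4) (by norm_num)
  obtain ⟨εt, hεt, hcone'⟩ := h.cone (1 / 8) (by norm_num)
  obtain ⟨εp, hεp, hparam⟩ := h.param
  set ε' : ℝ := min (εk / 2) (min εp εt) with hε'
  have hε'pos : 0 < ε' := lt_min (by positivity) (lt_min hεp hεt)
  have hε'k : ε' ≤ εk / 2 := min_le_left _ _
  have hε'p : ε' ≤ εp := (min_le_right _ _).trans (min_le_left _ _)
  have hε't : ε' ≤ εt := (min_le_right _ _).trans (min_le_right _ _)
  obtain ⟨r, hr, Ψ, hΨ1, hΨ0, hΨ2, -, -⟩ := hparam ε' hε'pos hε'p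
  refine ⟨εk / 2, by positivity, ?_⟩
  intro x hx y hy hyx v hv hvx
  by_contra hv0
  have hvn : 0 < ‖v‖ := norm_pos_iff.2 hv0
  set t : ℝ := r / ‖v‖ with ht
  have htpos : 0 < t := by positivity
  have htv : ‖t • v‖ = r := by
    rw [norm_smul, Real.norm_of_nonneg htpos.le, ht]
    field_simp
  have htvV : t • v ∈ V y := (V y).smul_mem t hv
  obtain ⟨hz1, hz2⟩ := hΨ1 y hy (t • v) htvV htv.le
  set z := Ψ y (t • v) with hz
  have hself : ∀ (c : ℝ) (x : K), 0 ≤ c → x ∈ WSl S.f c x := fun c x hc n => by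
    rw [dist_self]; exact hc
  have hdist : dist z y ≤ 2 * r := by
    have h1 := (hΨ2 y hy (t • v) htvV htv.le 0 (V y).zero_mem (by rw [norm_zero]; exact hr.le)).1
    rw [hΨ0 y hy, sub_zero, htv] at h1
    exact h1
  -- cone at `y`
  have h1 : infDist (S.e z - S.e y) (V y) ≤ 1 / 8 * dist z y :=
    hcone' y hy z (fun n => (hz1 n).trans hε't) y (hself εt y hεt.le)
  have h2 : ‖S.e z - S.e y - t • v‖ ≤ infDist (S.e z - S.e y) (V y) :=
    (C12_ortho (V y) htvV hz2).1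
  -- cone at `x`
  have hzx : z ∈ WSl S.f εk x := by
    intro n
    calc dist (fw S.f n x) (fw S.f n z)
        ≤ dist (fw S.f n x) (fw S.f n y) + dist (fw S.f n y) (fw S.f n z) := dist_triangle _ _ _
      _ ≤ εk / 2 + εk / 2 := add_le_add (hyx n) ((hz1 n).trans hε'k)
      _ = εk := by ring
  have h3 : infDist (S.e z - S.e y) (V x) ≤ 1 / 4 * dist z y :=
    hcone x hx z hzx y (fun n => (hyx n).trans (by linarith))
  have h4 : infDist (t • v) (V x : Set (EE N)) ≤ infDist (S.e z - S.e y) (V x)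
      + dist (t • v) (S.e z - S.e y) := infDist_le_infDist_add_dist
  have h5 : dist (t • v) (S.e z - S.e y) = ‖S.e z - S.e y - t • v‖ := by
    rw [dist_comm, dist_eq_norm]
  have h6 : ‖t • v - 0‖ ≤ infDist (t • v) (V x : Set (EE N)) := by
    refine (C12_ortho (V x) (w := t • v) (V x).zero_mem (fun w hw => ?_)).1
    rw [sub_zero, inner_smul_left, hvx w hw, mul_zero]
  rw [sub_zero, htv] at h6
  rw [h5] at h4
  have : r ≤ 1 / 4 * (2 * r) + 1 / 8 * (2 * r) := by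
    calc r ≤ 1 / 4 * dist z y + 1 / 8 * dist z y := by linarith
      _ ≤ 1 / 4 * (2 * r) + 1 / 8 * (2 * r) := by linarith
  linarith

/-- N7: the local stable sets are `C¹` submanifolds tangent to `V` -/
theorem CB.disc (h : CB S R V k) {R' : Set K} {ε0 : ℝ} (hε0 : 0 < ε0) (hR' : R' ⊆ R)
    (hc : IsClosed R') (hR : ∀ x ∈ R', ∀ y ∈ WSl S.f ε0 x, y ∈ R) :
    ∃ ε1 > 0, ∀ ε > 0, ε ≤ ε1 → ∃ r > 0, ∃ Ψ : K → EE N → K,
    (∀ x ∈ R', ∀ a ∈ V x, ‖a‖ ≤ r → Ψ x a ∈ WSl S.f ε x ∧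
      (∀ v ∈ V x, inner ℝ (S.e (Ψ x a) - S.e x - a) v = 0)) ∧
    (∀ x ∈ R', Ψ x 0 = x) ∧
    (∀ x ∈ R', ∀ y ∈ WSl S.f ε x, dist x y ≤ r → ∃ a ∈ V x, ‖a‖ ≤ r ∧ y = Ψ x a) ∧
    (∀ (x : ℕ → K) (a : ℕ → EE N) (x0 : K) (a0 : EE N), (∀ n, x n ∈ R') →
      (∀ n, a n ∈ V (x n)) → (∀ n, ‖a n‖ ≤ r) → Tendsto x atTop (𝓝 x0) →
      Tendsto a atTop (𝓝 a0) → Tendsto (fun n => Ψ (x n) (a n)) atTop (𝓝 (Ψ x0 a0))) ∧
    (∀ x ∈ R', ∀ a ∈ V x, ‖a‖ < r → ∃ L : EE N →L[ℝ] EE N, (∀ v ∈ V x, L v ∈ V (Ψ x a)) ∧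
      (∀ v ∈ V x, ∀ w ∈ V x, inner ℝ (L v - v) w = 0) ∧
      HasFDerivWithinAt (fun b => S.e (Ψ x b)) L (V x) a) := by
  obtain ⟨εw, hεw, hwsl⟩ := h.N7_wsl
  obtain ⟨εi, hεi, hinj⟩ := h.N7_inj
  obtain ⟨εp, hεp, hparam⟩ := h.param
  refine ⟨min (min ε0 εw) (min εi εp), lt_min (lt_min hε0 hεw) (lt_min hεi hεp), ?_⟩
  intro ε hε hεε
  have hε0' : ε ≤ ε0 := hεε.trans ((min_le_left _ _).trans (min_le_left _ _))
  have hεw' : ε ≤ εw := hεε.trans ((min_le_left _ _).trans (min_le_right _ _))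
  have hεi' : ε ≤ εi := hεε.trans ((min_le_right _ _).trans (min_le_left _ _))
  have hεp' : ε ≤ εp := hεε.trans ((min_le_right _ _).trans (min_le_right _ _))
  obtain ⟨r, hr, Ψ, hΨ1, hΨ0, hΨ2, hΨ3, hΨ4⟩ := hparam ε hε hεp'
  refine ⟨r, hr, Ψ, fun x hx => hΨ1 x (hR' hx), fun x hx => hΨ0 x (hR' hx),
    fun x hx => hΨ3 x (hR' hx), fun x a x0 a0 hx => hΨ4 x a x0 a0 (fun n => hR' (hx n)), ?_⟩
  intro x hx a ha har
  have hxR := hR' hx
  obtain ⟨hy1, hy2⟩ := hΨ1 x hxR a ha har.le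
  set y := Ψ x a with hy
  have hyR : y ∈ R := hR x hx y (fun n => (hy1 n).trans hε0')
  obtain ⟨L, hL1, hL2, hL3⟩ := N7_inv (V x) (V y) (by rw [h.rank y hyR, h.rank x hxR])
    (hinj x hxR y hyR (fun n => (hy1 n).trans hεi'))
  refine ⟨L, fun v _ => hL1 v, fun v _ w hw => hL2 v w hw, ?_⟩
  rw [hasFDerivWithinAt_iff_isLittleO, Asymptotics.isLittleO_iff]
  intro c hcpos
  set η : ℝ := c / (2 * (1 + ‖L‖)) with hη
  have hηpos : 0 < η := by positivity
  obtain ⟨εη, hεη, hcone⟩ := h.cone η hηpos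
  have hev1 : ∀ᶠ b in 𝓝[V x] a, ‖b‖ < r :=
    mem_nhdsWithin_of_mem_nhds ((continuous_norm.tendsto a).eventually (gt_mem_nhds har))
  have hev2 : ∀ᶠ b in 𝓝[V x] a, ‖b - a‖ < εη / 2 := by
    refine mem_nhdsWithin_of_mem_nhds ?_
    have hcont : Tendsto (fun b : EE N => ‖b - a‖) (𝓝 a) (𝓝 ‖a - a‖) :=
      ((continuous_id.sub continuous_const).norm).tendsto a
    rw [sub_self, norm_zero] at hcont
    exact hcont.eventually (gt_mem_nhds (by positivity))
  have hev3 : ∀ᶠ b in 𝓝[V x] a, b ∈ (V x : Set (EE N)) := self_mem_nhdsWithin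
  filter_upwards [hev1, hev2, hev3] with b hb1 hb2 hb3
  obtain ⟨hz1, hz2⟩ := hΨ1 x hxR b hb3 hb1.le
  set z := Ψ x b with hz
  have hdz : dist z y ≤ 2 * ‖b - a‖ := (hΨ2 x hxR b hb3 hb1.le a ha har.le).1
  have hzy : z ∈ WSl S.f εη y := by
    have h1 := hwsl x hxR y (fun n => (hy1 n).trans hεw') z (fun n => (hz1 n).trans hεw')
    intro n
    refine (h1 n).trans ?_
    rw [dist_comm]
    linarith
  have hcn : infDist (S.e z - S.e y) (V y) ≤ η * dist z y :=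
    hcone y hyR z hzy y (fun n => by rw [dist_self]; exact hεη.le)
  set D : EE N := S.e z - S.e y with hD
  set v0 : EE N := (V y).starProjection D with hv0
  have hv0V : v0 ∈ V y := (V y).starProjection_apply_mem D
  have hv0o : ‖D - v0‖ ≤ infDist D (V y : Set (EE N)) :=
    (C12_ortho (V y) hv0V (fun v hv => (V y).starProjection_inner_eq_zero D v hv)).1
  -- the projections to `V x`
  have hDx : ∀ w ∈ V x, inner ℝ (D - (b - a)) w = 0 := by
    intro w hw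
    have h1 : D - (b - a) = (S.e z - S.e x - b) - (S.e y - S.e x - a) := by
      rw [hD]; abel
    rw [h1, inner_sub_left, hz2 w hw, hy2 w hw, sub_zero]
  -- `L D = L (b - a)`
  have hLD : L D = L (b - a) := by
    have h1 : L D - L (b - a) = 0 := by
      refine hinj x hxR y hyR (fun n => (hy1 n).trans hεi') _
        ((V y).sub_mem (hL1 D) (hL1 (b - a))) (fun w hw => ?_)
      have h2 : L D - L (b - a) = (L D - D) - (L (b - a) - (b - a)) + (D - (b - a)) := by abel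
      rw [h2, inner_add_left, inner_sub_left, hL2 D w hw, hL2 (b - a) w hw, hDx w hw]
      simp
    exact sub_eq_zero.1 h1
  have hLv : L v0 = v0 := hL3 v0 hv0V
  have hfin : D - L (b - a) = (D - v0) - L (D - v0) := by
    have e1 : L (D - v0) = L (b - a) - v0 := by rw [map_sub L D v0, hLD, hLv]
    rw [e1]
    abel
  rw [hfin]
  have hDv : ‖D - v0‖ ≤ η * (2 * ‖b - a‖) :=
    hv0o.trans (hcn.trans (mul_le_mul_of_nonneg_left hdz hηpos.le))
  calc ‖(D - v0) - L (D - v0)‖ ≤ ‖D - v0‖ + ‖L (D - v0)‖ := norm_sub_le _ _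
    _ ≤ ‖D - v0‖ + ‖L‖ * ‖D - v0‖ := by gcongr; exact L.le_opNorm _
    _ = (1 + ‖L‖) * ‖D - v0‖ := by ring
    _ ≤ (1 + ‖L‖) * (η * (2 * ‖b - a‖)) :=
        mul_le_mul_of_nonneg_left hDv (by positivity)
    _ = c * ‖b - a‖ := by
        rw [hη]
        have : (1 + ‖L‖) ≠ 0 := by positivity
        field_simp

end CBs

end Pool.MP85
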