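import Pool.Agent.Lib.MP_85e637_an.S2Defs
import Pool.Agent.Lib.MP_85e637_an.A01
import Pool.Agent.Lib.MP_85e637_an.C01
import Pool.Agent.Lib.MP_85e637_an.C03
import Pool.Agent.Lib.MP_85e637_an.C08a0
import Pool.Agent.Lib.MP_85e637_an.C10
import Pool.Agent.Lib.MP_85e637_an.N6
import Pool.Agent.Lib.MP_85e637_an.N7

/-!
# Stage 2, N8: approximation by `C¹` discs in stable manifolds of periodic points
-/

open Filter Topology Set Metric Module

namespace Pool.MP85
variable {d N : ℕ} {K : Type} [MetricSpace K] [CompactSpace K]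


/-- reparametrisation of an almost flat `C¹` disc by its projection -/
theorem N8_reparam {k N : ℕ} (ι : EE k →ₗᵢ[ℝ] EE N) (x0 : EE N) {ρ θ s r : ℝ}
    (hθ0 : 0 ≤ θ) (hθ : θ ≤ 1 / 4) (hr : 0 < r) (hrρ : 8 * r ≤ ρ) (hsr : s ≤ r)
    (g : EE k → EE N) (g' : EE k → EE k →L[ℝ] EE N)
    (hg : ∀ c ∈ ball (0 : EE k) ρ, HasFDerivAt g (g' c) c)
    (hg' : ContinuousOn g' (ball 0 ρ))
    (hb : ∀ c ∈ ball (0 : EE k) ρ, ∀ v, ‖g' c v - ι v‖ ≤ θ * ‖v‖)
    (h0 : ‖g 0 - x0‖ ≤ s) :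
    ∃ ψ : EE k → EE k,
      (∀ a ∈ ball (0 : EE k) r, ‖ψ a‖ ≤ 4 * r ∧ ∀ b, inner ℝ (g (ψ a) - x0 - ι a) (ι b) = 0) ∧
      (∀ c ∈ ball (0 : EE k) ρ, ∀ a ∈ ball (0 : EE k) r,
        (∀ b, inner ℝ (g c - x0 - ι a) (ι b) = 0) → ψ a = c) ∧
      ContDiffOn ℝ 1 (fun a => g (ψ a)) (ball 0 r) ∧
      (∀ a ∈ ball (0 : EE k) r, ‖g (ψ a) - x0 - ι a‖ ≤ 2 * s + 8 * θ * r) ∧
      (∀ a ∈ ball (0 : EE k) r, ∀ b, ‖fderiv ℝ (fun a => g (ψ a)) a b - ι b‖ ≤ 4 * θ * ‖b‖) := by
  -- the projection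
  set ιc : EE k →L[ℝ] EE N := ι.toContinuousLinearMap with hιc
  set π : EE N →L[ℝ] EE k := ContinuousLinearMap.adjoint ιc with hπ
  have hπin : ∀ v w, inner ℝ (π v) w = inner ℝ v (ι w) := by
    intro v w
    rw [hπ, ContinuousLinearMap.adjoint_inner_left]
    rfl
  have hπι : ∀ v, π (ι v) = v := by
    intro v
    refine ext_inner_right ℝ fun w => ?_
    rw [hπin, ι.inner_map_map]
  have hπn : ∀ v, ‖π v‖ ≤ ‖v‖ := by
    intro v
    by_cases h : ‖π v‖ = 0
    · rw [h]; exact norm_nonneg _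
    have h1 : ‖π v‖ * ‖π v‖ ≤ ‖v‖ * ‖π v‖ := by
      rw [← real_inner_self_eq_norm_mul_norm, hπin]
      refine (real_inner_le_norm _ _).trans ?_
      rw [ι.norm_map]
    exact le_of_mul_le_mul_right h1 (lt_of_le_of_ne (norm_nonneg _) (Ne.symm h))
  have hπ0 : ∀ v a, π v = a ↔ ∀ b, inner ℝ (v - ι a) (ι b) = 0 := by
    intro v a
    constructor
    · intro h b
      rw [inner_sub_left, ← hπin, h, ι.inner_map_map, sub_self]
    · intro h
      refine ext_inner_right ℝ fun w => ?_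
      have := h w
      rw [inner_sub_left, ← hπin, ι.inner_map_map, sub_eq_zero] at this
      exact this
  have hρ : 0 < ρ := by linarith
  obtain ⟨θ', hθ'⟩ : ∃ θ' : NNReal, (θ' : ℝ) = θ := ⟨⟨θ, hθ0⟩, rfl⟩
  -- the map to be inverted
  set φ : EE k → EE k := fun c => π (g c - x0) with hφ
  have hφd : ∀ c ∈ ball (0 : EE k) ρ, HasFDerivAt φ (π ∘L g' c) c := by
    intro c hc
    exact π.hasFDerivAt.comp c ((hg c hc).sub_const x0)
  have hφb : ∀ c ∈ ball (0 : EE k) ρ, ∀ v, ‖π (g' c v) - v‖ ≤ θ * ‖v‖ := by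
    intro c hc v
    have h1 : π (g' c v) - v = π (g' c v - ι v) := by rw [map_sub, hπι]
    rw [h1]
    exact (hπn _).trans (hb c hc v)
  have hconv : Convex ℝ (ball (0 : EE k) ρ) := convex_ball _ _
  have happ : ApproximatesLinearOn φ ((ContinuousLinearEquiv.refl ℝ (EE k)) :
      EE k →L[ℝ] EE k) (ball (0 : EE k) ρ) θ' := by
    intro c hc c' hc'
    rw [hθ']
    have h1 : ∀ y ∈ ball (0 : EE k) ρ, HasFDerivWithinAt (fun c => φ c - c)
        (π ∘L g' y - ContinuousLinearMap.id ℝ _) (ball (0 : EE k) ρ) y := by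
      intro y hy
      exact ((hφd y hy).sub (hasFDerivAt_id y)).hasFDerivWithinAt
    have h2 : ∀ y ∈ ball (0 : EE k) ρ, ‖π ∘L g' y - ContinuousLinearMap.id ℝ _‖ ≤ θ := by
      intro y hy
      refine ContinuousLinearMap.opNorm_le_bound _ hθ0 fun v => ?_
      exact hφb y hy v
    have h3 := hconv.norm_image_sub_le_of_norm_hasFDerivWithin_le h1 h2 hc' hc
    have h4 : φ c - φ c' - (ContinuousLinearEquiv.refl ℝ (EE k) : EE k →L[ℝ] EE k) (c - c') =
        (φ c - c) - (φ c' - c') := by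
      simp only [ContinuousLinearEquiv.coe_refl, ContinuousLinearMap.id_apply]
      abel
    rw [h4]
    exact h3
  have hsub : Subsingleton (EE k) ∨ θ' <
      ‖((ContinuousLinearEquiv.refl ℝ (EE k)).symm : EE k →L[ℝ] EE k)‖₊⁻¹ := by
    by_cases h : Subsingleton (EE k)
    · exact Or.inl h
    · right
      rw [not_subsingleton_iff_nontrivial] at h
      have h1 : ‖((ContinuousLinearEquiv.refl ℝ (EE k)).symm : EE k →L[ℝ] EE k)‖₊ = 1 := by
        have : ((ContinuousLinearEquiv.refl ℝ (EE k)).symm : EE k →L[ℝ] EE k) =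
          ContinuousLinearMap.id ℝ (EE k) := rfl
        rw [this]
        exact ContinuousLinearMap.nnnorm_id
      rw [h1, inv_one, ← NNReal.coe_lt_coe, hθ', NNReal.coe_one]
      linarith
  let E := happ.toOpenPartialHomeomorph φ (ball (0 : EE k) ρ) hsub isOpen_ball
  have hEs : E.source = ball (0 : EE k) ρ := rfl
  have hEφ : ∀ c, E c = φ c := fun c => rfl
  -- surjectivity
  let ri : ((ContinuousLinearEquiv.refl ℝ (EE k)) : EE k →L[ℝ] EE k).NonlinearRightInverse :=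
    { toFun := id
      nnnorm := 1
      bound' := fun y => by simp
      right_inv' := fun y => by simp }
  have hsurj : ∀ a ∈ ball (0 : EE k) r, ∃ c, ‖c‖ ≤ 4 * r ∧ φ c = a := by
    intro a ha
    rw [mem_ball_zero_iff] at ha
    have h1 := happ.surjOn_closedBall_of_nonlinearRightInverse ri (ε := 4 * r) (b := 0)
      (by positivity) (closedBall_subset_ball (by linarith))
    have h2 : a ∈ closedBall (φ 0) ((((ri.nnnorm : ℝ))⁻¹ - (θ' : ℝ)) * (4 * r)) := by
      rw [mem_closedBall, dist_eq_norm]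
      have e1 : (((ri.nnnorm : ℝ))⁻¹ - (θ' : ℝ)) = 1 - θ := by
        rw [hθ']
        change ((1 : NNReal) : ℝ)⁻¹ - θ = 1 - θ
        simp
      rw [e1]
      have e2 : ‖φ 0‖ ≤ s := (hπn _).trans h0
      have e3 := norm_sub_le a (φ 0)
      nlinarith
    obtain ⟨c, hc, hca⟩ := h1 h2
    exact ⟨c, by simpa using hc, hca⟩
  have htar : ∀ a ∈ ball (0 : EE k) r, a ∈ E.target ∧ ‖E.symm a‖ ≤ 4 * r ∧ φ (E.symm a) = a := by
    intro a ha
    obtain ⟨c, hc, hca⟩ := hsurj a ha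
    have hcs : c ∈ E.source := by
      rw [hEs, mem_ball_zero_iff]; linarith
    have h1 : E.symm a = c := by
      rw [← hca]; exact E.left_inv hcs
    refine ⟨?_, ?_, ?_⟩
    · rw [← hca]; exact E.map_source hcs
    · rw [h1]; exact hc
    · rw [h1]; exact hca
  have hin : ∀ a ∈ ball (0 : EE k) r, E.symm a ∈ ball (0 : EE k) ρ := by
    intro a ha
    rw [mem_ball_zero_iff]
    have := (htar a ha).2.1
    linarith
  -- derivative of φ as an equivalence
  have hequiv : ∀ c ∈ ball (0 : EE k) ρ, ∃ D : EE k ≃L[ℝ] EE k, ∀ v, D v = π (g' c v) := by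
    intro c hc
    have hinj : Function.Injective ((π ∘L g' c : EE k →L[ℝ] EE k) : EE k →ₗ[ℝ] EE k) := by
      rw [injective_iff_map_eq_zero]
      intro v hv
      have h1 := hφb c hc v
      have hv' : π (g' c v) = 0 := hv
      rw [hv', zero_sub, norm_neg] at h1
      have h2 : ‖v‖ ≤ 0 := by nlinarith [norm_nonneg v]
      exact norm_le_zero_iff.1 h2
    refine ⟨(LinearEquiv.ofInjectiveEndo _ hinj).toContinuousLinearEquiv, fun v => ?_⟩
    simp
  have hcd : ∀ c ∈ ball (0 : EE k) ρ, ContDiffAt ℝ 1 g c := by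
    intro c hc
    rw [contDiffAt_one_iff]
    exact ⟨g', ball 0 ρ, isOpen_ball.mem_nhds hc, hg', hg⟩
  have hcdφ : ∀ c ∈ ball (0 : EE k) ρ, ContDiffAt ℝ 1 φ c := by
    intro c hc
    exact π.contDiff.contDiffAt.comp c ((hcd c hc).sub contDiffAt_const)
  have hsymd : ∀ a ∈ ball (0 : EE k) r, ∃ D : EE k ≃L[ℝ] EE k,
      (∀ v, D v = π (g' (E.symm a) v)) ∧
      HasFDerivAt E.symm (D.symm : EE k →L[ℝ] EE k) a ∧ ContDiffAt ℝ 1 E.symm a := by
    intro a ha
    obtain ⟨D, hD⟩ := hequiv _ (hin a ha)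
    have hDeq : (D : EE k →L[ℝ] EE k) = π ∘L g' (E.symm a) := by
      ext1 v
      exact hD v
    have h1 : HasFDerivAt E (D : EE k →L[ℝ] EE k) (E.symm a) := by
      rw [hDeq]
      exact hφd _ (hin a ha)
    exact ⟨D, hD, E.hasFDerivAt_symm (htar a ha).1 h1,
      E.contDiffAt_symm (htar a ha).1 h1 (hcdφ _ (hin a ha))⟩
  refine ⟨E.symm, ?_, ?_, ?_, ?_, ?_⟩
  · intro a ha
    refine ⟨(htar a ha).2.1, ?_⟩
    exact (hπ0 _ _).1 (htar a ha).2.2
  · intro c hc a ha h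
    have h1 : φ c = a := (hπ0 _ _).2 h
    rw [← h1]
    exact E.left_inv hc
  · intro a ha
    obtain ⟨D, hD, h1, h2⟩ := hsymd a ha
    exact ((hcd _ (hin a ha)).comp a h2).contDiffWithinAt
  · intro a ha
    set c := E.symm a with hc
    have hcρ := hin a ha
    obtain ⟨-, hc4, hca⟩ := htar a ha
    -- g c = g 0 + ι c + e
    have h1 : ‖(g c - ι c) - (g 0 - ι 0)‖ ≤ θ * ‖c - 0‖ := by
      have h2 : ∀ y ∈ ball (0 : EE k) ρ, HasFDerivWithinAt (fun c => g c - ι c)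
          (g' y - ιc) (ball (0 : EE k) ρ) y := by
        intro y hy
        exact ((hg y hy).sub ιc.hasFDerivAt).hasFDerivWithinAt
      have h3 : ∀ y ∈ ball (0 : EE k) ρ, ‖g' y - ιc‖ ≤ θ := by
        intro y hy
        refine ContinuousLinearMap.opNorm_le_bound _ hθ0 fun v => ?_
        exact hb y hy v
      exact hconv.norm_image_sub_le_of_norm_hasFDerivWithin_le h2 h3
        (mem_ball_self hρ) hcρ
    set e := (g c - ι c) - (g 0 - ι 0) with he
    set z := g 0 - x0 with hz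
    have h4 : g c - x0 = z + ι c + e := by
      rw [he, hz, map_zero]; abel
    have h5 : a = π z + c + π e := by
      have : a = π (g c - x0) := hca.symm
      rw [this, h4, map_add, map_add, hπι]
    have h6 : g c - x0 - ι a = (z - ι (π z)) + (e - ι (π e)) := by
      rw [h4]
      conv_lhs => rw [h5]
      rw [map_add, map_add]
      abel
    rw [h6]
    have h7 : ∀ w, ‖w - ι (π w)‖ ≤ 2 * ‖w‖ := by
      intro w
      refine (norm_sub_le _ _).trans ?_
      rw [ι.norm_map]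
      have := hπn w
      linarith
    have h8 : ‖e‖ ≤ 4 * θ * r := by
      refine h1.trans ?_
      rw [sub_zero]
      nlinarith
    calc ‖(z - ι (π z)) + (e - ι (π e))‖ ≤ 2 * ‖z‖ + 2 * ‖e‖ :=
          (norm_add_le _ _).trans (add_le_add (h7 z) (h7 e))
      _ ≤ 2 * s + 8 * θ * r := by linarith
  · intro a ha b
    obtain ⟨D, hD, h1, h2⟩ := hsymd a ha
    have h3 : HasFDerivAt (fun a => g (E.symm a)) (g' (E.symm a) ∘L (D.symm : EE k →L[ℝ] EE k)) a :=
      (hg _ (hin a ha)).comp a h1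
    rw [h3.fderiv]
    set v := D.symm b with hv
    have h4 : π (g' (E.symm a) v) = b := by
      rw [← hD, hv]; exact D.apply_symm_apply b
    have h5 := hφb _ (hin a ha) v
    have h6 := hb _ (hin a ha) v
    rw [h4] at h5
    have h7 : ‖v‖ ≤ 2 * ‖b‖ := by
      have : ‖v‖ ≤ ‖b‖ + ‖b - v‖ := by
        have := norm_sub_le b (b - v)
        rwa [sub_sub_cancel] at this
      nlinarith [norm_nonneg v]
    have h8 : (g' (E.symm a) ∘L (D.symm : EE k →L[ℝ] EE k)) b - ι b =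
        (g' (E.symm a) v - ι v) - ι (b - v) := by
      rw [map_sub]
      change g' (E.symm a) v - ι b = _
      abel
    rw [h8]
    refine (norm_sub_le _ _).trans ?_
    rw [ι.norm_map]
    nlinarith [norm_nonneg v]

/-- continuity of the orthogonal projections onto the fibres of a contracted bundle -/
theorem N8_proj_formula {k : ℕ} {V : Submodule ℝ (EE N)} {b : Fin k → EE N} (hb : Orthonormal ℝ b)
    (hm : ∀ i, b i ∈ V) (hk : finrank ℝ V = k) :
    V.starProjection = ∑ i, (innerSL ℝ (b i)).smulRight (b i) := by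
  ext1 v
  apply Submodule.eq_starProjection_of_mem_orthogonal
  · rw [_root_.sum_apply]
    refine Submodule.sum_mem _ fun i _ => ?_
    simp only [ContinuousLinearMap.smulRight_apply]
    exact Submodule.smul_mem _ _ (hm i)
  · rw [Submodule.mem_orthogonal]
    intro u hu
    obtain ⟨c, rfl⟩ := C03_span hb hm hk hu
    rw [sum_inner]
    refine Finset.sum_eq_zero fun i _ => ?_
    rw [inner_smul_left, inner_sub_right, _root_.sum_apply, inner_sum]
    simp only [ContinuousLinearMap.smulRight_apply, inner_smul_right, innerSL_apply_apply]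
    have h1 : ∀ j, inner ℝ (b j) v * inner ℝ (b i) (b j) = if i = j then inner ℝ (b i) v else 0 := by
      intro j
      rw [(orthonormal_iff_ite.1 hb) i j]
      split_ifs with h
      · rw [h]; ring
      · ring
    simp only [h1, Finset.sum_ite_eq, Finset.mem_univ, if_true, sub_self, mul_zero]

theorem N8_proj_cont {k : ℕ} {S : ESys d N K} {R : Set K} {V : K → Submodule ℝ (EE N)}
    (h : CB S R V k) : ContinuousOn (fun y => (V y).starProjection) R := by
  intro x0 hx0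
  rw [ContinuousWithinAt]
  apply tendsto_of_seq_tendsto
  intro x hx
  have hx1 : Tendsto x atTop (𝓝 x0) := hx.mono_right nhdsWithin_le_nhds
  have hx2 : ∀ᶠ n in atTop, x n ∈ R := hx.eventually self_mem_nhdsWithin
  apply tendsto_of_subseq_tendsto
  intro ns hns
  obtain ⟨M, hM⟩ := (hns.eventually hx2).exists_forall_of_atTop
  have h1 : ∀ n, ∃ b : Fin k → EE N, Orthonormal ℝ b ∧ ∀ i, b i ∈ V (x (ns (n + M))) :=
    fun n => C03_frame _ (h.rank _ (hM _ (by omega))).ge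
  choose b hb hbm using h1
  obtain ⟨φ, hφ, b0, hb0, hb0o⟩ := C03_limit b hb
  have hxs : Tendsto (fun n => x (ns (φ n + M))) atTop (𝓝 x0) :=
    hx1.comp (hns.comp ((tendsto_add_atTop_nat M).comp hφ.tendsto_atTop))
  have hb0m : ∀ i, b0 i ∈ V x0 := by
    intro i
    exact h.closed (fun n => x (ns (φ n + M))) (fun n => b (φ n) i) x0 (b0 i)
      (fun n => hM _ (by omega)) (fun n => hbm _ i) hxs ((tendsto_pi_nhds.1 hb0) i)
  refine ⟨fun n => φ n + M, ?_⟩
  have h2 : (fun n => (V (x (ns (φ n + M)))).starProjection) =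
      fun n => ∑ i, (innerSL ℝ (b (φ n) i)).smulRight (b (φ n) i) := by
    funext n
    exact N8_proj_formula (hb _) (hbm _) (h.rank _ (hM _ (by omega)))
  change Tendsto (fun n => (V (x (ns (φ n + M)))).starProjection) atTop _
  rw [h2, N8_proj_formula hb0o hb0m (h.rank _ hx0)]
  refine tendsto_finsetSum _ fun i _ => ?_
  have h3 : Tendsto (fun n => b (φ n) i) atTop (𝓝 (b0 i)) := (tendsto_pi_nhds.1 hb0) i
  have h4 : Continuous (fun u : EE N => (innerSL ℝ u).smulRight u) := by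
    have : (fun u : EE N => (innerSL ℝ u).smulRight u) =
        fun u => ContinuousLinearMap.smulRightL ℝ (EE N) (EE N) (innerSL ℝ u) u := rfl
    rw [this]
    fun_prop
  exact (h4.tendsto _).comp h3

/-- uniform continuity of finitely many iterates -/
theorem N8_uc (F : K ≃ₜ K) (m : ℕ) {ε : ℝ} (hε : 0 < ε) : ∃ δ > 0, ∀ a b, dist a b ≤ δ →
    ∀ i ≤ m, dist (fw F i a) (fw F i b) ≤ ε := by
  induction m with
  | zero =>
    refine ⟨ε, hε, fun a b hab i hi => ?_⟩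
    obtain rfl : i = 0 := by omega
    exact hab
  | succ m ih =>
    obtain ⟨δ, hδ, h⟩ := ih
    have huc : UniformContinuous (fw F (m + 1)) :=
      CompactSpace.uniformContinuous_of_continuous (continuous_fw (m + 1))
    obtain ⟨δ', hδ', h'⟩ := Metric.uniformContinuous_iff.1 huc ε hε
    refine ⟨min δ (δ' / 2), by positivity, fun a b hab i hi => ?_⟩
    rcases Nat.lt_or_ge i (m + 1) with h1 | h1
    · exact h a b (hab.trans (min_le_left _ _)) i (by omega)
    · obtain rfl : i = m + 1 := by omega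
      refine (h' (lt_of_le_of_lt (hab.trans (min_le_right _ _)) ?_)).le
      linarith

/-- local stable sets of a power -/
theorem N8_wsl_pow {S Sk : ESys d N K} {m : ℕ} (hm : 0 < m) (hSk : ∀ x, Sk.f x = fw S.f m x) {ε : ℝ}
    (hε : 0 < ε) : ∃ δ > 0, ∀ x y, y ∈ WSl Sk.f δ x → y ∈ WSl S.f ε x := by
  obtain ⟨δ, hδ, h⟩ := N8_uc S.f m hε
  have hfw : ∀ n x, fw Sk.f n x = fw S.f (n * m) x := by
    intro n
    induction n with
    | zero => intro x; rw [zero_mul]; rfl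
    | succ n ih => intro x; rw [fw_succ, ih, hSk, add_mul, one_mul, fw_add]
  refine ⟨δ, hδ, fun x y hy n => ?_⟩
  have h1 := hy (n / m)
  rw [hfw, hfw] at h1
  have h2 := h _ _ h1 (n % m) (Nat.mod_lt n hm).le
  rw [← fw_add, ← fw_add] at h2
  have h3 : n % m + n / m * m = n := by
    rw [mul_comm]; exact Nat.mod_add_div n m
  rw [h3] at h2
  exact h2

theorem N8_fw_pow {S Sk : ESys d N K} {m : ℕ} (hSk : ∀ x, Sk.f x = fw S.f m x) (n : ℕ) (x : K) :
    fw Sk.f n x = fw S.f (n * m) x := by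
  induction n generalizing x with
  | zero => rw [zero_mul]; rfl
  | succ n ih => rw [fw_succ, ih, hSk, add_mul, one_mul, fw_add]

theorem N8_ws_pow {S Sk : ESys d N K} {m : ℕ} (hm : 0 < m) (hSk : ∀ x, Sk.f x = fw S.f m x)
    {x y : K} (h : y ∈ WS Sk.f x) : y ∈ WS S.f x := by
  rw [WS, mem_ofPred_eq, Metric.tendsto_atTop] at h ⊢
  intro ε hε
  obtain ⟨δ, hδ, h1⟩ := N8_uc S.f m (half_pos hε)
  obtain ⟨M, hM⟩ := h δ hδ
  refine ⟨M * m, fun n hn => ?_⟩
  have h2 : M ≤ n / m := by rwa [Nat.le_div_iff_mul_le hm]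
  have h3 := hM _ h2
  rw [Real.dist_0_eq_abs, abs_of_nonneg dist_nonneg] at h3 ⊢
  rw [N8_fw_pow hSk, N8_fw_pow hSk] at h3
  have h4 := h1 _ _ h3.le (n % m) (Nat.mod_lt n hm).le
  rw [← fw_add, ← fw_add] at h4
  have h5 : n % m + n / m * m = n := by
    rw [mul_comm]; exact Nat.mod_add_div n m
  rw [h5] at h4
  linarith

theorem N8_contr {k : ℕ} {S : ESys d N K} {R : Set K} {V : K → Submodule ℝ (EE N)}
    (h : CB S R V k) : ∃ ε0 > 0, ∀ x ∈ R, ∀ y ∈ WSl S.f ε0 x, ∀ n,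
      dist (fw S.f n x) (fw S.f n y) ≤ (1 / 4) ^ n * dist x y := by
  obtain ⟨ε0, hε0, hc⟩ := h.contr
  refine ⟨ε0, hε0, fun x hx y hy n => ?_⟩
  have hR : ∀ n, fw S.f n x ∈ R := by
    intro n
    induction n with
    | zero => exact hx
    | succ n ih => rw [fw_succ']; exact h.inv _ ih
  induction n with
  | zero => simp [fw_zero]
  | succ n ih =>
    have h1 := hc (fw S.f n x) (hR n) (fw S.f n x) (fun j => by rw [dist_self]; exact hε0.le)
      (fw S.f n y) (fun j => by rw [← fw_add, ← fw_add]; exact hy _)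
    rw [fw_succ', fw_succ', pow_succ]
    linarith

theorem N8_ws {S : ESys d N K} {R : Set K} {ε0 : ℝ} (hc : ∀ x ∈ R, ∀ y ∈ WSl S.f ε0 x, ∀ n,
      dist (fw S.f n x) (fw S.f n y) ≤ (1 / 4) ^ n * dist x y) {x y : K} (hx : x ∈ R)
    (hy : y ∈ WSl S.f ε0 x) : y ∈ WS S.f x := by
  rw [WS, mem_ofPred_eq]
  refine squeeze_zero (fun n => dist_nonneg) (hc x hx y hy) ?_
  have := (tendsto_pow_atTop_nhds_zero_of_lt_one (r := (1 / 4 : ℝ)) (by norm_num)
    (by norm_num)).mul_const (dist x y)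
  simpa using this

omit [CompactSpace K] in
theorem N8_ws_trans {F : K ≃ₜ K} {x y z : K} (h : y ∈ WS F x) (h' : z ∈ WS F y) : z ∈ WS F x := by
  rw [WS, mem_ofPred_eq] at *
  refine squeeze_zero (fun n => dist_nonneg) (fun n => dist_triangle _ (fw F n y) _) ?_
  simpa using h.add h'

theorem N8_proj_norm (V : Submodule ℝ (EE N)) (v : EE N) : ‖V.starProjection v‖ ≤ ‖v‖ := by
  refine (V.starProjection.le_opNorm v).trans ?_
  have := V.starProjection_norm_le
  nlinarith [norm_nonneg v]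

/-- `C¹` estimates for the parametrisation of a local stable set -/
theorem N8_local {k : ℕ} {S : ESys d N K} {R : Set K} {V : K → Submodule ℝ (EE N)}
    (h : CB S R V k) {x x' : K} (ι : EE k →ₗᵢ[ℝ] EE N)
    (hι : ∀ a, ι a ∈ V x) (Ψ : EE N → K) {ρ θ : ℝ} (hθ : θ ≤ 1 / 8)
    (hΨR : ∀ b ∈ V x', ‖b‖ < ρ → Ψ b ∈ R)
    (hQ' : ‖(V x').starProjection - (V x).starProjection‖ ≤ θ)
    (hQ : ∀ b ∈ V x', ‖b‖ < ρ → ‖(V (Ψ b)).starProjection - (V x).starProjection‖ ≤ θ)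
    (hd : ∀ a ∈ V x', ‖a‖ < ρ → ∃ L : EE N →L[ℝ] EE N, (∀ v ∈ V x', L v ∈ V (Ψ a)) ∧
      (∀ v ∈ V x', ∀ w ∈ V x', inner ℝ (L v - v) w = 0) ∧
      HasFDerivWithinAt (fun b => S.e (Ψ b)) L (V x') a) :
    ∃ g' : EE k → EE k →L[ℝ] EE N,
      (∀ c ∈ ball (0 : EE k) ρ,
        HasFDerivAt (fun c => S.e (Ψ ((V x').starProjection (ι c)))) (g' c) c) ∧
      ContinuousOn g' (ball 0 ρ) ∧
      ∀ c ∈ ball (0 : EE k) ρ, ∀ v, ‖g' c v - ι v‖ ≤ 5 * θ * ‖v‖ := by
  classical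
  set J : EE k →L[ℝ] EE N := (V x').starProjection ∘L ι.toContinuousLinearMap with hJ
  have hJa : ∀ c, J c = (V x').starProjection (ι c) := fun c => rfl
  have hJm : ∀ c, J c ∈ V x' := fun c => (V x').starProjection_apply_mem _
  have hJn : ∀ c, ‖J c‖ ≤ ‖c‖ := fun c => by
    rw [hJa]; exact (N8_proj_norm _ _).trans (ι.norm_map c).le
  have hJι : ∀ c, ‖J c - ι c‖ ≤ θ * ‖c‖ := by
    intro c
    have h1 : (V x).starProjection (ι c) = ι c :=
      Submodule.starProjection_eq_self_iff.2 (hι c)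
    have h2 : J c - ι c = ((V x').starProjection - (V x).starProjection) (ι c) := by
      rw [_root_.sub_apply, h1, hJa]
    rw [h2]
    refine (ContinuousLinearMap.le_opNorm _ _).trans ?_
    rw [ι.norm_map]
    exact mul_le_mul_of_nonneg_right hQ' (norm_nonneg _)
  have hJρ : ∀ c ∈ ball (0 : EE k) ρ, ‖J c‖ < ρ := by
    intro c hc
    rw [mem_ball_zero_iff] at hc
    exact (hJn c).trans_lt hc
  have hex : ∀ c : EE k, ∃ L : EE N →L[ℝ] EE N, c ∈ ball (0 : EE k) ρ →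
      (∀ v ∈ V x', L v ∈ V (Ψ (J c))) ∧
      (∀ v ∈ V x', ∀ w ∈ V x', inner ℝ (L v - v) w = 0) ∧
      HasFDerivWithinAt (fun b => S.e (Ψ b)) L (V x') (J c) := by
    intro c
    by_cases hc : c ∈ ball (0 : EE k) ρ
    · obtain ⟨L, hL⟩ := hd (J c) (hJm c) (hJρ c hc)
      exact ⟨L, fun _ => hL⟩
    · exact ⟨0, fun hcon => absurd hcon hc⟩
  choose L hL using hex
  -- projections of `L v`
  have hproj : ∀ c ∈ ball (0 : EE k) ρ, ∀ v ∈ V x', (V x').starProjection (L c v) = v := by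
    intro c hc v hv
    apply Submodule.eq_starProjection_of_mem_orthogonal hv
    rw [Submodule.mem_orthogonal]
    intro w hw
    rw [real_inner_comm]
    exact (hL c hc).2.1 v hv w hw
  have hprojy : ∀ c ∈ ball (0 : EE k) ρ, ∀ v ∈ V x',
      (V (Ψ (J c))).starProjection (L c v) = L c v := by
    intro c hc v hv
    exact Submodule.starProjection_eq_self_iff.2 ((hL c hc).1 v hv)
  have hQQ : ∀ c ∈ ball (0 : EE k) ρ,
      ‖(V (Ψ (J c))).starProjection - (V x').starProjection‖ ≤ 2 * θ := by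
    intro c hc
    have h1 := hQ _ (hJm c) (hJρ c hc)
    have h2 : (V (Ψ (J c))).starProjection - (V x').starProjection =
        ((V (Ψ (J c))).starProjection - (V x).starProjection) -
          ((V x').starProjection - (V x).starProjection) := by abel
    rw [h2]
    refine (norm_sub_le _ _).trans ?_
    linarith
  have hθ0 : 0 ≤ θ := (norm_nonneg _).trans hQ'
  have hLv : ∀ c ∈ ball (0 : EE k) ρ, ∀ v ∈ V x', ‖L c v - v‖ ≤ 4 * θ * ‖v‖ ∧
      ‖L c v‖ ≤ 2 * ‖v‖ := by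
    intro c hc v hv
    have h1 : L c v - v = ((V (Ψ (J c))).starProjection - (V x').starProjection) (L c v) := by
      rw [_root_.sub_apply, hprojy c hc v hv, hproj c hc v hv]
    have h2 : ‖L c v - v‖ ≤ 2 * θ * ‖L c v‖ := by
      rw [h1]
      exact (ContinuousLinearMap.le_opNorm _ _).trans
        (mul_le_mul_of_nonneg_right (hQQ c hc) (norm_nonneg _))
    have h3 : ‖L c v‖ ≤ ‖L c v - v‖ + ‖v‖ := by
      have := norm_add_le (L c v - v) v
      rwa [sub_add_cancel] at this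
    have h4 : 2 * θ * ‖L c v‖ ≤ 1 / 4 * ‖L c v‖ :=
      mul_le_mul_of_nonneg_right (by linarith) (norm_nonneg _)
    have h5 : ‖L c v‖ ≤ 2 * ‖v‖ := by linarith [norm_nonneg v]
    refine ⟨h2.trans ?_, h5⟩
    calc 2 * θ * ‖L c v‖ ≤ 2 * θ * (2 * ‖v‖) := mul_le_mul_of_nonneg_left h5 (by linarith)
      _ = 4 * θ * ‖v‖ := by ring
  have hder : ∀ c ∈ ball (0 : EE k) ρ,
      HasFDerivAt (fun c => S.e (Ψ ((V x').starProjection (ι c)))) (L c ∘L J) c := by
    intro c hc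
    have h1 := (hL c hc).2.2
    have h2 : HasFDerivWithinAt (fun c => J c) J univ c := J.hasFDerivAt.hasFDerivWithinAt
    have h3 := HasFDerivWithinAt.comp c h1 h2 (fun c _ => hJm c)
    rw [hasFDerivWithinAt_univ] at h3
    exact h3
  have hycont : ContinuousOn (fun c => Ψ (J c)) (ball (0 : EE k) ρ) := by
    intro c hc
    have h1 : ContinuousAt (fun c => S.e (Ψ ((V x').starProjection (ι c)))) c :=
      (hder c hc).continuousAt
    have h2 : ContinuousAt (fun c => Ψ (J c)) c := by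
      rw [ContinuousAt, tendsto_iff_dist_tendsto_zero] at h1 ⊢
      refine h1.congr fun c' => ?_
      rw [dist_eq_norm, S.e_isom]
      rfl
    exact h2.continuousWithinAt
  have hQcont : ContinuousOn (fun c => (V (Ψ (J c))).starProjection) (ball (0 : EE k) ρ) :=
    (N8_proj_cont h).comp hycont (fun c hc => hΨR _ (hJm c) (hJρ c hc))
  refine ⟨fun c => L c ∘L J, hder, ?_, ?_⟩
  · intro c hc
    have h1 := hQcont c hc
    rw [ContinuousWithinAt, tendsto_iff_norm_sub_tendsto_zero] at h1 ⊢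
    have h2 : Tendsto (fun c' => 4 * ‖(V (Ψ (J c'))).starProjection -
        (V (Ψ (J c))).starProjection‖) (𝓝[ball 0 ρ] c) (𝓝 0) := by
      simpa using h1.const_mul 4
    refine squeeze_zero' (Eventually.of_forall fun _ => norm_nonneg _) ?_ h2
    filter_upwards [self_mem_nhdsWithin] with c' hc'
    refine ContinuousLinearMap.opNorm_le_bound _ (by positivity) fun v => ?_
    set u := J v with hu
    have hum : u ∈ V x' := hJm v
    have hun : ‖u‖ ≤ ‖v‖ := hJn v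
    set Q1 := (V (Ψ (J c'))).starProjection with hQ1
    set Q2 := (V (Ψ (J c))).starProjection with hQ2
    have e1 : (L c' ∘L J - L c ∘L J) v = L c' u - L c u := rfl
    rw [e1]
    set w := L c' u - L c u with hw
    have e2 : (V x').starProjection w = 0 := by
      rw [hw, map_sub, hproj c' hc' u hum, hproj c hc u hum, sub_self]
    have e3 : w = (Q1 - (V x').starProjection) w + (Q1 - Q2) (L c u) := by
      rw [_root_.sub_apply, _root_.sub_apply, e2, hw, map_sub,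
        hprojy c' hc' u hum, hprojy c hc u hum]
      abel
    have e4 : ‖(Q1 - (V x').starProjection) w‖ ≤ 1 / 4 * ‖w‖ := by
      refine (ContinuousLinearMap.le_opNorm _ _).trans
        (mul_le_mul_of_nonneg_right ?_ (norm_nonneg _))
      have := hQQ c' hc'
      linarith
    have e5 : ‖(Q1 - Q2) (L c u)‖ ≤ ‖Q1 - Q2‖ * (2 * ‖v‖) := by
      refine (ContinuousLinearMap.le_opNorm _ _).trans
        (mul_le_mul_of_nonneg_left ?_ (norm_nonneg _))
      have := (hLv c hc u hum).2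
      linarith
    have e6 : ‖w‖ ≤ 1 / 4 * ‖w‖ + ‖Q1 - Q2‖ * (2 * ‖v‖) := by
      calc ‖w‖ = ‖(Q1 - (V x').starProjection) w + (Q1 - Q2) (L c u)‖ := by rw [← e3]
        _ ≤ _ := (norm_add_le _ _).trans (add_le_add e4 e5)
    have e7 : 0 ≤ ‖Q1 - Q2‖ * ‖v‖ := by positivity
    linarith
  · intro c hc v
    have h1 := (hLv c hc (J v) (hJm v)).1
    have h2 := hJι v
    have h3 : (L c ∘L J) v - ι v = (L c (J v) - J v) + (J v - ι v) := by
      change L c (J v) - ι v = _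
      abel
    rw [h3]
    refine (norm_add_le _ _).trans ?_
    have h4 : 4 * θ * ‖J v‖ ≤ 4 * θ * ‖v‖ := mul_le_mul_of_nonneg_left (hJn v) (by linarith)
    linarith

theorem N8_RN_mono (S : BSys d N K) (j n0 : ℕ) {δ δ' : ℝ} (h : δ ≤ δ') :
    S.RN j δ n0 ⊆ S.RN j δ' n0 := fun x hx n hn => by
  obtain ⟨y, hy, hyd⟩ := hx n hn
  exact ⟨y, hy, hyd.trans h⟩

/-- N8: near every point `x` there are `C¹` discs in stable manifolds of periodic points, close to
the affine disc through `x` tangent to `Es x`, at every small scale `r` -/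
theorem BSys.approx_disc (S : BSys d N K) {k : ℕ} {x : K} (hk : finrank ℝ (S.Es x) = k)
    (ι : EE k →ₗᵢ[ℝ] EE N) (hι : ∀ v, v ∈ S.Es x ↔ ∃ a, ι a = v) : ∀ η > 0, ∃ r0 > 0, ∀ r > 0,
    r ≤ r0 → ∃ (p : K) (m : ℕ) (Γ : EE k → K), 0 < m ∧ fw S.f m p = p ∧
      finrank ℝ (S.Es p) = k ∧ FlatDisc S.toESys x ι Γ η r ∧
      (∀ a ∈ ball (0 : EE k) r, Γ a ∈ WS S.f p) ∧
      (∃ ε > 0, ∀ a ∈ ball (0 : EE k) r, ∀ y ∈ WSl S.f ε (Γ a), ∀ b ∈ ball (0 : EE k) r,
        (∀ c, inner ℝ (S.e y - S.e x - ι b) (ι c) = 0) → y = Γ b) := by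
  intro η hη
  obtain ⟨δa, hδa, hcb⟩ := S.cb_RN
  obtain ⟨δb, hδb, happ⟩ := S.approx_pt
  obtain ⟨δ0, hδ0d⟩ : ∃ δ0, δ0 = min δa δb := ⟨_, rfl⟩
  have hδ0 : 0 < δ0 := by rw [hδ0d]; exact lt_min hδa hδb
  have hδ0a : δ0 ≤ δa := by rw [hδ0d]; exact min_le_left _ _
  have hδ0b : δ0 ≤ δb := by rw [hδ0d]; exact min_le_right _ _
  obtain ⟨n0, hxn⟩ := S.exists_RN (δ := δ0 / 2 / 2) (by positivity) x
  obtain ⟨m0, hm0, hcb'⟩ := hcb k n0
  obtain ⟨Sk, hSf, hSe, hSP, hSA, -, -⟩ := S.toESys.exists_pow m0 hm0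
  have hCB : CB Sk (S.RN k δ0 n0) S.Es k :=
    hcb' m0 le_rfl Sk hSf hSe hSP hSA δ0 hδ0 hδ0a
  have hxR1 : x ∈ S.RN k (δ0 / 2) n0 := by
    rw [hk] at hxn
    exact N8_RN_mono S k n0 (by linarith) hxn
  have hR'R : S.RN k (δ0 / 2) n0 ⊆ S.RN k δ0 n0 := N8_RN_mono S k n0 (by linarith)
  have hxR : x ∈ S.RN k δ0 n0 := hR'R hxR1
  obtain ⟨ε0, hε0, hwsl⟩ := N8_wsl_pow hm0 hSf (half_pos hδ0)
  have hwR : ∀ x ∈ S.RN k (δ0 / 2) n0, ∀ y ∈ WSl Sk.f ε0 x, y ∈ S.RN k δ0 n0 := by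
    intro x hx y hy
    have h1 := S.RN_wsl k n0 hx (hwsl x y hy)
    rwa [add_halves] at h1
  obtain ⟨ε1, hε1, hdisc⟩ := hCB.disc hε0 hR'R (S.RN_closed k (δ0 / 2) n0) hwR
  obtain ⟨εc, hεc, hcontr⟩ := N8_contr hCB
  obtain ⟨εd, hεdd⟩ : ∃ εd, εd = min ε1 (min εc ε0) := ⟨_, rfl⟩
  have hεd : 0 < εd := by rw [hεdd]; exact lt_min hε1 (lt_min hεc hε0)
  have hεd1 : εd ≤ ε1 := by rw [hεdd]; exact min_le_left _ _
  have hεdc : εd ≤ εc := by rw [hεdd]; exact (min_le_right _ _).trans (min_le_left _ _)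
  have hεd0 : εd ≤ ε0 := by rw [hεdd]; exact (min_le_right _ _).trans (min_le_right _ _)
  obtain ⟨rΨ, hrΨ, Ψ, hΨ1, hΨ2, hΨ3, hΨ4, hΨ5⟩ := hdisc εd hεd hεd1
  obtain ⟨θ, hθd⟩ : ∃ θ, θ = min (1 / 20) (η / 100) := ⟨_, rfl⟩
  have hθ0 : 0 < θ := by rw [hθd]; exact lt_min (by norm_num) (by positivity)
  have hθ1 : θ ≤ 1 / 20 := by rw [hθd]; exact min_le_left _ _
  have hθη : θ ≤ η / 100 := by rw [hθd]; exact min_le_right _ _
  -- continuity of the projections at `x`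
  obtain ⟨ρ2, hρ2, hQ2⟩ : ∃ ρ2 > 0, ∀ y ∈ S.RN k δ0 n0, dist x y < ρ2 →
      ‖(S.Es y).starProjection - (S.Es x).starProjection‖ ≤ θ := by
    obtain ⟨ρ2, hρ2, h2⟩ := Metric.continuousWithinAt_iff.1 (N8_proj_cont hCB x hxR) θ hθ0
    refine ⟨ρ2, hρ2, fun y hy hxy => ?_⟩
    have h3 := h2 hy (by rwa [dist_comm])
    rw [dist_eq_norm] at h3
    exact h3.le
  obtain ⟨ρ3, hρ3d⟩ : ∃ ρ3, ρ3 = min ρ2 (min (εd / 4) (rΨ / 4)) := ⟨_, rfl⟩
  have hρ3 : 0 < ρ3 := by rw [hρ3d]; positivity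
  have hρ32 : ρ3 ≤ ρ2 := by rw [hρ3d]; exact min_le_left _ _
  have hρ3e : ρ3 ≤ εd / 4 := by rw [hρ3d]; exact (min_le_right _ _).trans (min_le_left _ _)
  have hρ3r : ρ3 ≤ rΨ / 4 := by rw [hρ3d]; exact (min_le_right _ _).trans (min_le_right _ _)
  -- the discs at points close to `x` stay close to `x`
  obtain ⟨δ', hδ', hclose⟩ : ∃ δ' > 0, ∀ x' ∈ S.RN k (δ0 / 2) n0, dist x x' < δ' →
      ∀ b ∈ S.Es x', ‖b‖ ≤ δ' → ‖b‖ ≤ rΨ → dist x (Ψ x' b) < ρ3 := by
    by_contra hcon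
    push Not at hcon
    have h1 : ∀ n : ℕ, (0 : ℝ) < 1 / (n + 1) := fun n => by positivity
    choose x' hx' hxx' b hb hbn hbr hbad using fun n : ℕ => hcon (1 / (n + 1)) (h1 n)
    have h2 : Tendsto (fun n : ℕ => (1 : ℝ) / (n + 1)) atTop (𝓝 0) :=
      tendsto_one_div_add_atTop_nhds_zero_nat
    have h3 : Tendsto x' atTop (𝓝 x) := by
      rw [tendsto_iff_dist_tendsto_zero]
      refine squeeze_zero (fun n => dist_nonneg) (fun n => ?_) h2
      rw [dist_comm]; exact (hxx' n).le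
    have h4 : Tendsto b atTop (𝓝 0) := by
      rw [tendsto_iff_norm_sub_tendsto_zero]
      refine squeeze_zero (fun n => norm_nonneg _) (fun n => ?_) h2
      rw [sub_zero]; exact hbn n
    have h5 := hΨ4 x' b x 0 hx' hb hbr h3 h4
    rw [hΨ2 x hxR1] at h5
    have h6 : Tendsto (fun n => dist x (Ψ (x' n) (b n))) atTop (𝓝 0) := by
      have := (tendsto_const_nhds (x := x)).dist h5
      rwa [dist_self] at this
    obtain ⟨n, hn⟩ := (h6.eventually (gt_mem_nhds hρ3)).exists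
    exact absurd hn (not_lt.2 (hbad n))
  obtain ⟨ρ, hρd⟩ : ∃ ρ, ρ = min rΨ δ' := ⟨_, rfl⟩
  have hρ : 0 < ρ := by rw [hρd]; exact lt_min hrΨ hδ'
  have hρr : ρ ≤ rΨ := by rw [hρd]; exact min_le_left _ _
  have hρδ : ρ ≤ δ' := by rw [hρd]; exact min_le_right _ _
  refine ⟨ρ / 64, by positivity, fun r hr hrr => ?_⟩
  obtain ⟨s, hsd⟩ : ∃ s, s = min (min r (η * r / 8)) δ' := ⟨_, rfl⟩
  have hs : 0 < s := by rw [hsd]; positivity
  have hsr : s ≤ r := by rw [hsd]; exact (min_le_left _ _).trans (min_le_left _ _)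
  have hsη : s ≤ η * r / 8 := by rw [hsd]; exact (min_le_left _ _).trans (min_le_right _ _)
  have hsδ : s ≤ δ' := by rw [hsd]; exact min_le_right _ _
  obtain ⟨p, m, x', hm, hp, hdim, hx'p, hx'R, hxx'⟩ := happ (δ0 / 2) (by positivity)
    (by linarith) x n0 hxn s hs
  rw [hk] at hdim hx'R
  have hxx'δ : dist x x' < δ' := hxx'.trans_le hsδ
  have hx'R0 : x' ∈ S.RN k δ0 n0 := hR'R hx'R
  have hΨc : ∀ b ∈ S.Es x', ‖b‖ < ρ → dist x (Ψ x' b) < ρ3 := fun b hb hbn =>
    hclose x' hx'R hxx'δ b hb (hbn.le.trans hρδ) (hbn.le.trans hρr)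
  have hxx'3 : dist x x' < ρ3 := by
    have := hΨc 0 (S.Es x').zero_mem (by rw [norm_zero]; exact hρ)
    rwa [hΨ2 x' hx'R] at this
  have hΨw : ∀ b ∈ S.Es x', ‖b‖ < ρ → Ψ x' b ∈ WSl Sk.f εd x' := fun b hb hbn =>
    (hΨ1 x' hx'R b hb (hbn.le.trans hρr)).1
  have hΨR : ∀ b ∈ S.Es x', ‖b‖ < ρ → Ψ x' b ∈ S.RN k δ0 n0 := fun b hb hbn =>
    hwR x' hx'R _ (fun n => (hΨw b hb hbn n).trans hεd0)
  obtain ⟨g', hg1, hg2, hg3⟩ := N8_local hCB (x := x) (x' := x') ι (fun a => (hι _).2 ⟨a, rfl⟩)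
    (Ψ x') (ρ := ρ) (θ := θ) (by linarith) hΨR (hQ2 x' hx'R0 (hxx'3.trans_le hρ32))
    (fun b hb hbn => hQ2 _ (hΨR b hb hbn) ((hΨc b hb hbn).trans_le hρ32))
    (fun a ha han => hΨ5 x' hx'R a ha (han.trans_le hρr))
  obtain ⟨J, hJd⟩ : ∃ J : EE k → EE N, J = fun c => (S.Es x').starProjection (ι c) := ⟨_, rfl⟩
  have hJa : ∀ c, (S.Es x').starProjection (ι c) = J c := fun c => by rw [hJd]
  have hJm : ∀ c, J c ∈ S.Es x' := fun c => by
    rw [← hJa]; exact Submodule.starProjection_apply_mem _ _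
  have hJn : ∀ c, ‖J c‖ ≤ ‖c‖ := fun c => by
    rw [← hJa]; exact (N8_proj_norm _ _).trans (ι.norm_map c).le
  simp only [hJa] at hg1
  have hJ0 : J 0 = 0 := by rw [← hJa, map_zero, map_zero]
  obtain ⟨ψ, hψ1, hψ2, hψ3, hψ4, hψ5⟩ := N8_reparam ι (Sk.e x) (ρ := ρ) (θ := 5 * θ) (s := s)
    (r := r) (by positivity) (by linarith) hr (by linarith) hsr
    (fun c => Sk.e (Ψ x' (J c))) g' hg1 hg2 hg3 (by
      change ‖Sk.e (Ψ x' (J 0)) - Sk.e x‖ ≤ s
      rw [hJ0, hΨ2 x' hx'R, Sk.e_isom, dist_comm]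
      exact hxx'.le)
  have hψρ : ∀ a ∈ ball (0 : EE k) r, ‖J (ψ a)‖ < ρ := by
    intro a ha
    have h1 := (hψ1 a ha).1
    have h2 := hJn (ψ a)
    linarith
  rw [hSe] at hψ1 hψ2 hψ3 hψ4 hψ5
  refine ⟨p, m, fun a => Ψ x' (J (ψ a)), hm, hp, hdim, ⟨hψ3, fun a ha => (hψ1 a ha).2, ?_, ?_⟩,
    ?_, ?_⟩
  · intro a ha
    refine (hψ4 a ha).trans ?_
    nlinarith
  · intro a ha b
    refine (hψ5 a ha b).trans ?_
    refine mul_le_mul_of_nonneg_right ?_ (norm_nonneg _)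
    linarith
  · intro a ha
    have h1 := hΨw _ (hJm (ψ a)) (hψρ a ha)
    have h2 : Ψ x' (J (ψ a)) ∈ WS Sk.f x' :=
      N8_ws hcontr hx'R0 (fun n => (h1 n).trans hεdc)
    exact N8_ws_trans hx'p (N8_ws_pow hm0 hSf h2)
  · -- uniqueness
    obtain ⟨ε, hεdef⟩ : ∃ ε, ε = min (min (εd / 2) (rΨ / 2)) (ρ / 16) := ⟨_, rfl⟩
    have hε : 0 < ε := by rw [hεdef]; positivity
    have hεe : ε ≤ εd / 2 := by rw [hεdef]; exact (min_le_left _ _).trans (min_le_left _ _)
    have hεr : ε ≤ rΨ / 2 := by rw [hεdef]; exact (min_le_left _ _).trans (min_le_right _ _)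
    have hερ : ε ≤ ρ / 16 := by rw [hεdef]; exact min_le_right _ _
    refine ⟨ε, hε, fun a ha y hy b hb hyb => ?_⟩
    set z := Ψ x' (J (ψ a)) with hz
    have hzw := hΨw _ (hJm (ψ a)) (hψρ a ha)
    have hxz : dist x z < ρ3 := hΨc _ (hJm (ψ a)) (hψρ a ha)
    have hx'z : dist x' z ≤ 2 * ρ3 := by
      have := dist_triangle_left x' z x
      linarith
    -- `z ∈ WSl Sk.f (εd / 2) x'`
    have hzw2 : ∀ n, dist (fw Sk.f n x') (fw Sk.f n z) ≤ εd / 2 := by
      intro n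
      have h1 := hcontr x' hx'R0 z (fun n => (hzw n).trans hεdc) n
      have h2 : ((1 : ℝ) / 4) ^ n ≤ 1 := pow_le_one₀ (by norm_num) (by norm_num)
      have h3 : ((1 : ℝ) / 4) ^ n * dist x' z ≤ 1 * dist x' z :=
        mul_le_mul_of_nonneg_right h2 dist_nonneg
      linarith
    have hyw : y ∈ WSl Sk.f εd x' := by
      intro n
      have h1 := hy (n * m0)
      rw [← N8_fw_pow hSf, ← N8_fw_pow hSf] at h1
      have h2 := dist_triangle (fw Sk.f n x') (fw Sk.f n z) (fw Sk.f n y)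
      have h3 := hzw2 n
      linarith
    have hzy : dist z y ≤ ε := hy 0
    have hx'y : dist x' y ≤ rΨ := by
      have := dist_triangle x' z y
      linarith
    obtain ⟨b', hb'm, hb'r, hyb'⟩ := hΨ3 x' hx'R y hyw hx'y
    have hb'n : ‖b'‖ ≤ dist x' y := by
      have h1 := (hΨ1 x' hx'R b' hb'm hb'r).2
      rw [← hyb'] at h1
      have h2 : inner ℝ (Sk.e y - Sk.e x' - b') b' = 0 := h1 b' hb'm
      rw [inner_sub_left, real_inner_self_eq_norm_mul_norm, sub_eq_zero] at h2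
      have h3 : inner ℝ (Sk.e y - Sk.e x') b' ≤ ‖Sk.e y - Sk.e x'‖ * ‖b'‖ := real_inner_le_norm _ _
      rw [h2, Sk.e_isom, dist_comm] at h3
      by_cases h4 : ‖b'‖ = 0
      · rw [h4]; exact dist_nonneg
      · exact le_of_mul_le_mul_right h3 (lt_of_le_of_ne (norm_nonneg _) (Ne.symm h4))
    -- distance of `x'` and `z`
    have hx'z2 : dist x' z ≤ 8 * r := by
      have h1 : ‖Sk.e (Ψ x' (J (ψ a))) - Sk.e x - ι a‖ ≤ 2 * s + 8 * (5 * θ) * r := by
        rw [hSe]; exact hψ4 a ha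
      have h2 : ‖a‖ < r := by simpa using ha
      have h3 : dist z x ≤ ‖Sk.e (Ψ x' (J (ψ a))) - Sk.e x - ι a‖ + ‖ι a‖ := by
        rw [← Sk.e_isom, hz]
        have := norm_add_le (Sk.e (Ψ x' (J (ψ a))) - Sk.e x - ι a) (ι a)
        rwa [sub_add_cancel] at this
      rw [ι.norm_map] at h3
      have h4 := dist_triangle_left x' z x
      have h5 : dist x z = dist z x := dist_comm _ _
      have h6 : 8 * (5 * θ) * r ≤ 2 * r := mul_le_mul_of_nonneg_right (by linarith) hr.le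
      linarith
    -- invert `J`
    have hJlow : ∀ c, ‖c‖ ≤ 2 * ‖J c‖ := by
      intro c
      have h1 : (S.Es x).starProjection (ι c) = ι c :=
        Submodule.starProjection_eq_self_iff.2 ((hι _).2 ⟨c, rfl⟩)
      have h2 : J c - ι c = ((S.Es x').starProjection - (S.Es x).starProjection) (ι c) := by
        rw [_root_.sub_apply, h1, hJa]
      have h3 : ‖J c - ι c‖ ≤ θ * ‖c‖ := by
        rw [h2]
        refine (ContinuousLinearMap.le_opNorm _ _).trans ?_
        rw [ι.norm_map]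
        exact mul_le_mul_of_nonneg_right (hQ2 x' hx'R0 (hxx'3.trans_le hρ32)) (norm_nonneg _)
      have h4 : ‖ι c‖ ≤ ‖J c‖ + ‖J c - ι c‖ := by
        have := norm_sub_le (J c) (J c - ι c)
        rwa [sub_sub_cancel] at this
      rw [ι.norm_map] at h4
      have h5 : θ * ‖c‖ ≤ 1 / 20 * ‖c‖ := mul_le_mul_of_nonneg_right hθ1 (norm_nonneg _)
      linarith [norm_nonneg (J c)]
    obtain ⟨c', hc'⟩ : ∃ c', J c' = b' := by
      let Jl : EE k →ₗ[ℝ] (S.Es x') :=
        LinearMap.codRestrict (S.Es x')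
          (((S.Es x').starProjection ∘L ι.toContinuousLinearMap : EE k →L[ℝ] EE N) :
            EE k →ₗ[ℝ] EE N) (fun c => by
            change (S.Es x').starProjection (ι c) ∈ S.Es x'
            exact Submodule.starProjection_apply_mem _ _)
      have hJl : ∀ c, ((Jl c : S.Es x') : EE N) = J c := fun c => by
        rw [← hJa]; rfl
      have hinj : Function.Injective Jl := by
        rw [injective_iff_map_eq_zero]
        intro c hc
        have h1 : J c = 0 := by rw [← hJl, hc]; rfl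
        have h2 := hJlow c
        rw [h1, norm_zero, mul_zero] at h2
        exact norm_le_zero_iff.1 h2
      have hfr : finrank ℝ (EE k) = finrank ℝ (S.Es x') := by
        rw [hCB.rank x' hx'R0, finrank_euclideanSpace_fin]
      have hsurj : Function.Surjective Jl :=
        (LinearMap.injective_iff_surjective_of_finrank_eq_finrank hfr).1 hinj
      obtain ⟨c, hc⟩ := hsurj ⟨b', hb'm⟩
      exact ⟨c, by rw [← hJl, hc]⟩
    have hc'ρ : c' ∈ ball (0 : EE k) ρ := by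
      rw [mem_ball_zero_iff]
      have h1 := hJlow c'
      rw [hc'] at h1
      have h2 := dist_triangle x' z y
      linarith
    have h7 : ψ b = c' := by
      refine hψ2 c' hc'ρ b hb (fun c => ?_)
      rw [hc', ← hyb']
      exact hyb c
    change y = Ψ x' (J (ψ b))
    rw [h7, hc']
    exact hyb'

end Pool.MP85
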