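import Pool.Agent.Lib.MP_85e637_an.S2Defs
import Pool.Agent.Lib.MP_85e637_an.C01
import Pool.Agent.Lib.MP_85e637_an.C09
import Pool.Agent.Lib.MP_85e637_an.F1
import Pool.Agent.Lib.MP_85e637_an.F8b
import Pool.Agent.Lib.MP_85e637_an.N0
import Pool.Agent.Lib.MP_85e637_an.N0b
import Pool.Agent.Lib.MP_85e637_an.N8
import Pool.Agent.Lib.MP_85e637_an.N11a

/-!
# Stage 2, N11b: no tangency of type (1, d-1)
-/

open Filter Topology Set Metric Module

namespace Pool.MP85
variable {d N : ℕ} {K : Type} [MetricSpace K] [CompactSpace K]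


/-- isometric parametrisation of a subspace -/
lemma N11b_iso (V : Submodule ℝ (EE N)) {k : ℕ} (h : finrank ℝ V = k) :
    ∃ ι : EE k →ₗᵢ[ℝ] EE N, ∀ v, v ∈ V ↔ ∃ a, ι a = v := by
  subst h
  refine ⟨V.subtypeₗᵢ.comp (stdOrthonormalBasis ℝ V).repr.symm.toLinearIsometry, fun v => ?_⟩
  constructor
  · intro hv
    refine ⟨(stdOrthonormalBasis ℝ V).repr ⟨v, hv⟩, ?_⟩
    change (((stdOrthonormalBasis ℝ V).repr.symm ((stdOrthonormalBasis ℝ V).repr ⟨v, hv⟩) : V)
      : EE N) = v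
    rw [LinearIsometryEquiv.symm_apply_apply]
  · rintro ⟨a, rfl⟩
    exact ((stdOrthonormalBasis ℝ V).repr.symm a).2

omit [CompactSpace K] in
lemma N11b_fw_add (F : K ≃ₜ K) (m n : ℕ) (x : K) : fw F (m + n) x = fw F m (fw F n x) :=
  Function.iterate_add_apply _ _ _ _

omit [CompactSpace K] in
lemma N11b_fw_comm (F : K ≃ₜ K) (m n : ℕ) (x : K) : fw F m (fw F n x) = fw F n (fw F m x) := by
  rw [← N11b_fw_add, add_comm, N11b_fw_add]

omit [CompactSpace K] in
lemma N11b_fw_bk (F : K ≃ₜ K) (n : ℕ) (x : K) : fw F n (bk F n x) = x := by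
  induction n with
  | zero => rfl
  | succ n ih =>
    rw [fw_succ, bk_succ', F.apply_symm_apply, ih]

omit [CompactSpace K] in
lemma N11b_bk_fw (F : K ≃ₜ K) (n : ℕ) (x : K) : bk F n (fw F n x) = x := by
  induction n with
  | zero => rfl
  | succ n ih =>
    rw [bk_succ, fw_succ', F.symm_apply_apply, ih]

omit [CompactSpace K] in
lemma N11b_fw_inj (F : K ≃ₜ K) (n : ℕ) {x y : K} (h : fw F n x = fw F n y) : x = y := by
  rw [← N11b_bk_fw F n x, h, N11b_bk_fw]

omit [CompactSpace K] in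
/-- periodic points of period `m` have period `m * l` -/
lemma N11b_per (F : K ≃ₜ K) {m : ℕ} {p : K} (h : fw F m p = p) (l : ℕ) : fw F (m * l) p = p := by
  induction l with
  | zero => rfl
  | succ l ih => rw [mul_add, mul_one, N11b_fw_add, h, ih]

omit [CompactSpace K] in
lemma N11b_per_bk (F : K ≃ₜ K) {m : ℕ} {p : K} (h : fw F m p = p) (n : ℕ) :
    fw F m (bk F n p) = bk F n p := by
  apply N11b_fw_inj F n
  rw [N11b_fw_comm, N11b_fw_bk, h]

section Orb
variable {S S' Θ : ESys d N K} {x : K} {ε1 r : ℝ}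
  (hw : ∀ n > 0, ∀ y, dist x y < ε1 → ε1 ≤ dist x (fw S.f n y)) (hr : r ≤ ε1)
  (hΘ : ∀ y, r ≤ dist x y → Θ.f y = y) (hS' : ∀ y, S'.f y = S.f (Θ.f y))
include hw hr hΘ hS'

lemma N11b_orb1 {y : K} (hy : dist x y < ε1) (n : ℕ) :
    fw S'.f n (S.f y) = fw S.f n (S.f y) := by
  induction n with
  | zero => rfl
  | succ n ih =>
    rw [fw_succ', ih, fw_succ', hS']
    congr 1
    refine hΘ _ (hr.trans ?_)
    have := hw (n + 1) (Nat.succ_pos n) y hy
    rwa [fw_succ] at this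

omit hr hΘ hS' in
lemma N11b_far {k : ℕ} (hk : 0 < k) {p : K} (hp : fw S.f k p = p) : ε1 ≤ dist x p := by
  by_contra h
  have := hw k hk p (not_le.1 h)
  rw [hp] at this
  exact h this

lemma N11b_orb2 {k : ℕ} (hk : 0 < k) {p : K} (hp : fw S.f k p = p) (n : ℕ) :
    fw S'.f n p = fw S.f n p := by
  induction n with
  | zero => rfl
  | succ n ih =>
    rw [fw_succ', ih, fw_succ', hS']
    congr 1
    refine hΘ _ (hr.trans ?_)
    refine N11b_far hw hk ?_
    rw [N11b_fw_comm, hp]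

omit hw hr hΘ in
lemma N11b_symm (y : K) : S'.f.symm y = Θ.f.symm (S.f.symm y) := by
  rw [Homeomorph.symm_apply_eq, hS', Homeomorph.apply_symm_apply, Homeomorph.apply_symm_apply]

omit hw hr hS' in
lemma N11b_fixsymm {y : K} (hy : r ≤ dist x y) : Θ.f.symm y = y := by
  rw [Homeomorph.symm_apply_eq, hΘ y hy]

lemma N11b_orb3 {y : K} (hy : dist x y < ε1) (n : ℕ) : bk S'.f n y = bk S.f n y := by
  induction n with
  | zero => rfl
  | succ n ih =>
    rw [bk_succ', ih, bk_succ', N11b_symm hS']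
    refine N11b_fixsymm hΘ (hr.trans ?_)
    by_contra h
    have h2 := hw (n + 1) (Nat.succ_pos n) _ (not_le.1 h)
    rw [← bk_succ', N11b_fw_bk] at h2
    linarith

lemma N11b_orb4 {k : ℕ} (hk : 0 < k) {p : K} (hp : fw S.f k p = p) (n : ℕ) :
    bk S'.f n p = bk S.f n p := by
  induction n with
  | zero => rfl
  | succ n ih =>
    rw [bk_succ', ih, bk_succ', N11b_symm hS']
    refine N11b_fixsymm hΘ (hr.trans ?_)
    refine N11b_far hw hk ?_
    rw [← bk_succ']
    exact N11b_per_bk S.f hp _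

end Orb

/-- the coordinates of a vector in the range of an isometry -/
lemma N11b_coord {k : ℕ} (ι : EE k →ₗᵢ[ℝ] EE N) (w : EE N) :
    ∃ b : EE k, ∀ c, inner ℝ (w - ι b) (ι c) = 0 := by
  refine ⟨ContinuousLinearMap.adjoint ι.toContinuousLinearMap w, fun c => ?_⟩
  rw [inner_sub_left]
  have h1 : inner ℝ w (ι c) = inner ℝ (ContinuousLinearMap.adjoint ι.toContinuousLinearMap w) c := by
    rw [ContinuousLinearMap.adjoint_inner_left]; rfl
  rw [h1, ι.inner_map_map, sub_self]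

lemma N11b_coord_close {k : ℕ} (ι : EE k →ₗᵢ[ℝ] EE N) {w w' : EE N} {b b' : EE k}
    (h : ∀ c, inner ℝ (w - ι b) (ι c) = 0) (h' : ∀ c, inner ℝ (w' - ι b') (ι c) = 0) :
    ‖b - b'‖ ≤ ‖w - w'‖ := by
  have h1 : inner ℝ (ι (b - b')) (ι (b - b')) = inner ℝ (w - w') (ι (b - b')) := by
    have e1 := h (b - b')
    have e2 := h' (b - b')
    rw [inner_sub_left] at e1 e2
    rw [inner_sub_left]
    conv_lhs => rw [map_sub, inner_sub_left, ← map_sub]
    linarith
  have h2 : ‖b - b'‖ * ‖b - b'‖ ≤ ‖w - w'‖ * ‖b - b'‖ := by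
    have h3 : inner ℝ (ι (b - b')) (ι (b - b')) = ‖b - b'‖ * ‖b - b'‖ := by
      rw [real_inner_self_eq_norm_mul_norm, ι.norm_map]
    rw [← h3, h1]
    calc inner ℝ (w - w') (ι (b - b')) ≤ ‖w - w'‖ * ‖ι (b - b')‖ := real_inner_le_norm _ _
      _ = _ := by rw [ι.norm_map]
  rcases (norm_nonneg (b - b')).lt_or_eq with h3 | h3
  · exact le_of_mul_le_mul_right h2 h3
  · rw [← h3]; exact norm_nonneg _

theorem BSys.P3 (S : BSys d N K) {ε : ℝ} (hε : 0 < ε) (hSS : S.SSε ε) {x : K}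
    (h1 : finrank ℝ (S.Es x) = 1) (h2 : finrank ℝ (S.Eu x) + 1 = d) :
    S.T x ≤ S.Es x ⊔ S.Eu x := by
  by_cases hxO : x ∈ S.Om
  · exact (S.split x hxO).1.ge
  by_cases hle : S.Es x ≤ S.Eu x
  swap
  · -- transversality by dimension
    have hinf : finrank ℝ (S.Es x ⊓ S.Eu x : Submodule ℝ (EE N)) = 0 := by
      have hlt : S.Es x ⊓ S.Eu x < S.Es x :=
        lt_of_le_of_ne inf_le_left (fun h => hle (by rw [← h]; exact inf_le_right))
      have := Submodule.finrank_lt_finrank_of_lt hlt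
      omega
    have hsum := Submodule.finrank_sup_add_finrank_inf_eq (S.Es x) (S.Eu x)
    have hsl : S.Es x ⊔ S.Eu x ≤ S.T x := sup_le (S.Es_le x) (S.Eu_le x)
    have hT := S.rankP x
    exact (Submodule.eq_of_le_of_finrank_eq hsl (by omega)).ge
  exfalso
  obtain ⟨ιs, hιs⟩ := N11b_iso (S.Es x) h1
  obtain ⟨u, hu⟩ : ∃ u, finrank ℝ (S.Eu x) = u := ⟨_, rfl⟩
  rw [hu] at h2
  obtain ⟨ιu, hιu⟩ := N11b_iso (S.Eu x) hu
  obtain ⟨δ, hδ, hcomp⟩ := S.toESys.exists_comp ε hε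
  obtain ⟨η, hη, ρ, hρ, hflat⟩ := S.toESys.flatten x h2 ιs ιu
    (fun a => (hιu _).1 (hle ((hιs _).2 ⟨a, rfl⟩)))
    (fun b => S.Eu_le x ((hιu _).2 ⟨b, rfl⟩)) δ hδ
  obtain ⟨ε1, hε1, hw⟩ := S.wand x hxO
  obtain ⟨Si, hSi, hSiO⟩ := S.exists_inv
  have hSiEs : ∀ y, Si.Es y = S.Eu y := by
    intro y
    rw [hSi]; rfl
  have hSif : ∀ n y, fw Si.f n y = bk S.f n y := by
    intro n y
    rw [hSi]; rfl
  obtain ⟨r1, hr1, hA⟩ := S.approx_disc h1 ιs hιs η hη
  obtain ⟨r2, hr2, hB⟩ := Si.approx_disc (k := u) (x := x) (by rw [hSiEs, hu]) ιu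
    (fun v => by rw [hSiEs]; exact hιu v) η hη
  set r := min (min ρ (ε1 / (2 * (1 + η)))) (min r1 r2) with hr
  have hr0 : 0 < r := by rw [hr]; positivity
  have hrρ : r ≤ ρ := (min_le_left _ _).trans (min_le_left _ _)
  have hrε : (1 + η) * r < ε1 := by
    have h3 : r ≤ ε1 / (2 * (1 + η)) := (min_le_left _ _).trans (min_le_right _ _)
    rw [le_div_iff₀ (by positivity)] at h3
    linarith
  have hrε1 : r ≤ ε1 := by
    have : 0 ≤ η * r := by positivity
    linarith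
  have hrlt : r < ε1 := by
    have : 0 < η * r := by positivity
    linarith
  obtain ⟨p, m, Γs, hm, hp, hp1, hFs, hΓs, εs, hεs, hC⟩ :=
    hA r hr0 ((min_le_right _ _).trans (min_le_left _ _))
  obtain ⟨q, m', Γu, hm', hq, hq1, hFu, hΓu, -⟩ :=
    hB r hr0 ((min_le_right _ _).trans (min_le_right _ _))
  have hFu' : FlatDisc S.toESys x ιu Γu η r := by
    have he : Si.e = S.e := by
      rw [hSi]; rfl
    refine ⟨?_, ?_, ?_, ?_⟩
    · have := hFu.diff; rwa [he] at this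
    · have := hFu.graph; rwa [he] at this
    · have := hFu.near; rwa [he] at this
    · have := hFu.deriv; rwa [he] at this
  obtain ⟨Θ, hSame, hIdN, hΘ, hΘ2⟩ := hflat r hr0 hrρ Γs Γu hFs hFu'
  obtain ⟨S', hNear, hS'⟩ := hcomp Θ hSame hIdN
  -- periods
  have hq' : fw S.f m' q = q := by
    have h3 : bk S.f m' q = q := by rw [← hSif]; exact hq
    conv_lhs => rw [← h3]
    exact N11b_fw_bk _ _ _
  have hqEu : finrank ℝ (S.Eu q) = u := by rw [← hSiEs]; exact hq1
  have hkpos : 0 < m * m' := Nat.mul_pos hm hm'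
  have hpk : fw S.f (m * m') p = p := N11b_per _ hp _
  have hqk : fw S.f (m * m') q = q := by rw [mul_comm]; exact N11b_per _ hq' _
  have hqO : q ∈ S.Om := by
    refine S.Om_fw q q ?_
    rw [mapClusterPt_iff_frequently]
    intro s hs
    rw [Filter.frequently_atTop]
    intro a
    refine ⟨m' * a, ?_, ?_⟩
    · exact Nat.le_mul_of_pos_left a hm'
    · rw [N11b_per _ hq' a]; exact mem_of_mem_nhds hs
  have hqs : 1 ≤ finrank ℝ (S.Es q) := by
    have := S.Om_dim hqO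
    omega
  -- neighbourhood of the periodic points
  have hW : {y | r < dist x y} ∈ 𝓝ˢ {y | fw S.f (m * m') y = y} := by
    have ho : IsOpen {y | r < dist x y} :=
      isOpen_lt continuous_const (continuous_const.dist continuous_id)
    refine ho.mem_nhdsSet.2 ?_
    intro y hy
    exact lt_of_lt_of_le hrlt (N11b_far hw hkpos hy)
  have hE : EqOn S'.f S.f {y | r < dist x y} := by
    intro y hy
    rw [hS', hΘ y (le_of_lt hy)]
  have hgen := (S.gen hε hSS hkpos hW hNear hE hpk hqk hp1).2 hqs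
  -- distances
  have hdist : ∀ {k : ℕ} {ι : EE k →ₗᵢ[ℝ] EE N} {Γ : EE k → K}, FlatDisc S.toESys x ι Γ η r →
      ∀ a ∈ ball (0 : EE k) r, dist x (Γ a) < ε1 := by
    intro k ι Γ hF a ha
    have h3 := hF.near a ha
    have h4 : ‖a‖ < r := by simpa using ha
    have h5 : dist x (Γ a) = ‖S.e (Γ a) - S.e x‖ := by rw [S.e_isom, dist_comm]
    have h6 : ‖S.e (Γ a) - S.e x‖ ≤ ‖S.e (Γ a) - S.e x - ι a‖ + ‖ι a‖ := by
      have := norm_add_le (S.e (Γ a) - S.e x - ι a) (ι a)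
      rwa [sub_add_cancel] at this
    rw [ι.norm_map] at h6
    rw [h5]
    linarith
  have hball : ∀ {k : ℕ} {a : EE k}, ‖a‖ < r → a ∈ ball (0 : EE k) r := by
    intro k a ha; simpa using ha
  -- forward orbits
  have hfwp : ∀ n, fw S'.f n p = fw S.f n p := fun n => N11b_orb2 hw hrε1 hΘ hS' hkpos hpk n
  have hbkq : ∀ n, bk S'.f n q = bk S.f n q := fun n => N11b_orb4 hw hrε1 hΘ hS' hkpos hqk n
  have hfwz : ∀ z y, dist x y < ε1 → Θ.f z = y → ∀ n, fw S'.f (n + 1) z = fw S.f (n + 1) y := by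
    intro z y hy hz n
    rw [fw_succ, hS', hz, N11b_orb1 hw hrε1 hΘ hS' hy, fw_succ]
  have hJo : IsOpen {z : ULeaf S'.f.symm p | ∃ t : EE 1, ‖t‖ < r / 16 ∧ Θ.f z.val = Γs t} := by
    rw [Metric.isOpen_iff]
    rintro z ⟨t, ht, hzt⟩
    have htr : ‖t‖ < r := by linarith
    have hdt := hdist hFs t (hball htr)
    -- closeness for `Θ z'`
    set κ := min (min (ε1 - dist x (Γs t)) εs) (r / 16 - ‖t‖) with hκ
    have hκ0 : 0 < κ := by
      rw [hκ]
      refine lt_min (lt_min ?_ hεs) ?_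
      · linarith
      · linarith
    obtain ⟨δ1, hδ1, hcont⟩ := Metric.continuous_iff.1 Θ.f.continuous z.val κ hκ0
    refine ⟨min δ1 εs, lt_min hδ1 hεs, ?_⟩
    intro z' hz'
    have hz1 : dist z z' < min δ1 εs := by rw [dist_comm]; exact hz'
    have hz2 : dist (Θ.f z'.val) (Θ.f z.val) < κ := by
      refine hcont _ ?_
      rw [dist_comm]
      exact (ULeaf.dist_val_le z z').trans_lt (hz1.trans_le (min_le_left _ _))
    rw [hzt] at hz2
    set y' := Θ.f z'.val with hy'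
    have hκ1 : κ ≤ ε1 - dist x (Γs t) := (min_le_left _ _).trans (min_le_left _ _)
    have hκ2 : κ ≤ εs := (min_le_left _ _).trans (min_le_right _ _)
    have hκ3 : κ ≤ r / 16 - ‖t‖ := min_le_right _ _
    have hy'1 : dist x y' < ε1 := by
      have := dist_triangle x (Γs t) y'
      rw [dist_comm (Γs t) y'] at this
      linarith
    have hWl : y' ∈ WSl S.f εs (Γs t) := by
      intro n
      cases n with
      | zero =>
        rw [fw_zero, fw_zero, dist_comm]
        linarith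
      | succ n =>
        rw [← hfwz z.val (Γs t) hdt hzt n, ← hfwz z'.val y' hy'1 hy'.symm n]
        have h3 : z'.val ∈ WUl S'.f.symm εs z.val :=
          (ULeaf.dist_le_iff z z' εs).1 (hz1.le.trans (min_le_right _ _))
        exact h3 (n + 1)
    obtain ⟨b, hb⟩ := N11b_coord ιs (S.e y' - S.e x)
    have hbt : ‖b - t‖ ≤ dist y' (Γs t) := by
      have h3 := N11b_coord_close ιs hb (hFs.graph t (hball htr))
      refine h3.trans (le_of_eq ?_)
      rw [sub_sub_sub_cancel_right, S.e_isom]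
    have hbn : ‖b‖ < r / 16 := by
      have h3 : ‖b‖ ≤ ‖b - t‖ + ‖t‖ := by
        have := norm_add_le (b - t) t
        rwa [sub_add_cancel] at this
      linarith
    refine ⟨b, hbn, ?_⟩
    exact hC t (hball htr) y' hWl b (hball (by linarith)) hb
  have hJn : {z : ULeaf S'.f.symm p | ∃ t : EE 1, ‖t‖ < r / 16 ∧
      Θ.f z.val = Γs t}.Nonempty := by
    obtain ⟨b, hb, hbt⟩ := hΘ2 0 (by rw [norm_zero]; positivity)
    have h0r : (0 : EE 1) ∈ ball (0 : EE 1) r := mem_ball_self hr0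
    have h3 : Tendsto (fun n => dist (fw S.f n p) (fw S.f n (Γs 0))) atTop (𝓝 0) := hΓs 0 h0r
    have h4 : Γu b ∈ WU S'.f.symm p := by
      change Tendsto (fun n => dist (fw S'.f n p) (fw S'.f n (Γu b))) atTop (𝓝 0)
      rw [← tendsto_add_atTop_iff_nat 1]
      rw [← tendsto_add_atTop_iff_nat 1] at h3
      refine h3.congr fun n => ?_
      rw [hfwp, hfwz (Γu b) (Γs 0) (hdist hFs 0 h0r) hbt n]
    exact ⟨⟨Γu b, h4⟩, 0, by rw [norm_zero]; positivity, hbt⟩
  obtain ⟨y, hyJ, hyn⟩ := hgen _ hJo hJn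
  obtain ⟨t, ht, hzt⟩ := hyJ
  obtain ⟨b, hb, hbt⟩ := hΘ2 t ht
  have hyb : y.val = Γu b := Θ.f.injective (by rw [hzt, hbt])
  apply hyn
  have h3 : Γu b ∈ WS Si.f q := hΓu b (hball hb)
  have h4 : Tendsto (fun n => dist (bk S.f n q) (bk S.f n (Γu b))) atTop (𝓝 0) := by
    have h5 : Tendsto (fun n => dist (fw Si.f n q) (fw Si.f n (Γu b))) atTop (𝓝 0) := h3
    simpa only [hSif] using h5
  have h5 : dist x (Γu b) < ε1 := hdist hFu' b (hball hb)
  change Tendsto (fun n => dist (bk S'.f n q) (bk S'.f n y.val)) atTop (𝓝 0)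
  rw [hyb]
  simp only [hbkq, N11b_orb3 hw hrε1 hΘ hS' h5]
  exact h4

end Pool.MP85
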