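import Pool.Agent.Lib.MP_85e637_an.S2Defs
import Pool.Agent.Lib.MP_85e637_an.N0
import Pool.Agent.Lib.MP_85e637_an.C08a0
import Pool.Agent.Lib.MP_85e637_an.N10
import Pool.Agent.Lib.MP_85e637_an.N11b
import Pool.Agent.Lib.MP_85e637_an.F2a
import Pool.Agent.Lib.MP_85e637_an.F1

/-!
# N12: strong transversality on the closure of the basin
-/

open Filter Topology Set Metric Module

namespace Pool.MP85
variable {d N : ℕ} {K : Type} [MetricSpace K] [CompactSpace K]


/-- close returns -/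
theorem N12_return (x : ℕ → K) {r : ℝ} (hr : 0 < r) (n0 : ℕ) :
    ∃ m n : ℕ, m < n ∧ n0 ≤ n ∧ dist (x m) (x n) < r := by
  obtain ⟨a, φ, hφ, ha⟩ := CompactSpace.tendsto_subseq x
  have h1 : CauchySeq (x ∘ φ) := ha.cauchySeq
  rw [Metric.cauchySeq_iff] at h1
  obtain ⟨N1, hN1⟩ := h1 r hr
  set j := max N1 n0 with hj
  refine ⟨φ j, φ (j + 1), hφ (Nat.lt_succ_self j), ?_, ?_⟩
  · have h2 : j + 1 ≤ φ (j + 1) := hφ.id_le (j + 1)
    have h3 : n0 ≤ j := le_max_right _ _
    omega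
  · exact hN1 j (le_max_left _ _) (j + 1) ((le_max_left _ _).trans (Nat.le_succ _))

/-- expansion near a set where the contracted bundle is zero -/
theorem N12_exp {S : ESys d N K} {R : Set K} {V : K → Submodule ℝ (EE N)} (h : CB S R V 0) :
    ∃ ρ > 0, ∀ b ∈ R, ∀ u, dist b u < ρ → 2 * dist b u ≤ dist (S.f b) (S.f u) := by
  obtain ⟨ρ1, hρ1, hfl⟩ := S.flat (1 / 2) (by norm_num)
  obtain ⟨ρ2, hρ2, hdf⟩ := S.diff (1 / 2) (by norm_num)
  refine ⟨min ρ1 ρ2, lt_min hρ1 hρ2, fun b hb u hu => ?_⟩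
  have hV0 : ∀ y ∈ R, V y = ⊥ := fun y hy => Submodule.finrank_eq_zero.1 (h.rank y hy)
  have hu1 : dist b u < ρ1 := hu.trans_le (min_le_left _ _)
  have hu2 : dist b u < ρ2 := hu.trans_le (min_le_right _ _)
  have h1 := hfl b u b hu1 (by rwa [dist_self])
  have h2 := hdf b u b hu2 (by rwa [dist_self])
  set w : EE N := S.e u - S.e b with hw
  have hwn : ‖w‖ = dist u b := S.e_isom u b
  have hPw : S.P b w ∈ S.T b := S.toCoc.P_mem b w
  have hAP : S.A b (S.P b w) = S.A b w := by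
    have := S.AP b
    exact congrArg (fun L : EE N →L[ℝ] EE N => L w) this
  have h3 := h.exp b hb (S.P b w) hPw
  rw [hV0 b hb, hV0 (S.f b) (h.inv b hb), hAP] at h3
  have h4 : ∀ v : EE N, infDist v ((⊥ : Submodule ℝ (EE N)) : Set (EE N)) = ‖v‖ := by
    intro v
    rw [Submodule.bot_coe, infDist_singleton, dist_zero_right]
  rw [h4, h4] at h3
  have h5 : ‖w‖ - ‖S.P b w‖ ≤ ‖w - S.P b w‖ := norm_sub_norm_le _ _
  have h6 : ‖S.A b w‖ - ‖S.e (S.f u) - S.e (S.f b)‖ ≤
      ‖S.A b w - (S.e (S.f u) - S.e (S.f b))‖ := norm_sub_norm_le _ _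
  rw [norm_sub_rev (S.A b w), S.e_isom] at h6
  have h7 : dist (S.f b) (S.f u) = dist (S.f u) (S.f b) := dist_comm _ _
  have h8 : dist b u = dist u b := dist_comm _ _
  have h9 : 0 ≤ ‖w‖ := norm_nonneg _
  rw [h7, h8]
  rw [← hwn] at h1 h2 ⊢
  linarith

namespace BSys
variable (S : BSys d N K)

/-- N12a -/
theorem es_zero {x : K} (h : finrank ℝ (S.Es x) = 0) : x ∈ S.Om := by
  by_contra hx
  obtain ⟨ε, hε, hw⟩ := S.wand x hx
  obtain ⟨δ0, hδ0, hcb⟩ := S.cb_RN
  obtain ⟨n0, hn0⟩ := S.exists_RN hδ0 x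
  rw [h] at hn0
  obtain ⟨k, hk, hcb2⟩ := hcb 0 n0
  have hCB : CB (S.toESys.epow k) (S.RN 0 δ0 n0) S.Es 0 :=
    hcb2 k le_rfl (S.toESys.epow k) (fun _ => rfl) rfl rfl (fun _ => rfl) δ0 hδ0 le_rfl
  set g : K ≃ₜ K := (S.toESys.epow k).f with hg
  have hgf : ∀ n z, fw g n z = fw S.f (n * k) z := fun n z => Coc.fw_fpow S.f k n z
  obtain ⟨ρ, hρ, hexp⟩ := N12_exp hCB
  -- uniform continuity of the inverse
  have huc : UniformContinuous (g.symm : K → K) :=
    CompactSpace.uniformContinuous_of_continuous g.symm.continuous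
  obtain ⟨r, hr, hrc⟩ := Metric.uniformContinuous_iff.1 huc ρ hρ
  have horb : ∀ i, fw g i x ∈ S.RN 0 δ0 n0 := by
    intro i
    induction i with
    | zero => exact hn0
    | succ i ih => rw [fw_succ']; exact hCB.inv _ ih
  -- large time
  obtain ⟨n1, hn1⟩ := exists_pow_lt_of_lt_one (div_pos hε hr) (by norm_num : (1 / 2 : ℝ) < 1)
  obtain ⟨m, n, hmn, hn, hd⟩ := N12_return (fun i => fw g i x) hr n1
  have hback : ∀ i ≤ n, dist (fw g (n - i) x) (bk g i (fw g m x)) ≤ (1 / 2) ^ i * dist (fw g m x) (fw g n x) := by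
    intro i
    induction i with
    | zero =>
      intro _
      rw [bk_zero, Nat.sub_zero, pow_zero, one_mul, dist_comm]
    | succ i ih =>
      intro hi
      have h1 := ih (by omega)
      have h2 : dist (fw g (n - i) x) (bk g i (fw g m x)) < r := by
        refine lt_of_le_of_lt h1 (lt_of_le_of_lt ?_ hd)
        have : ((1 : ℝ) / 2) ^ i ≤ 1 := pow_le_one₀ (by norm_num) (by norm_num)
        exact mul_le_of_le_one_left dist_nonneg this
      have h3 : g.symm (fw g (n - i) x) = fw g (n - (i + 1)) x := by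
        have h4 : n - i = (n - (i + 1)) + 1 := by omega
        rw [h4, fw_succ', Homeomorph.symm_apply_apply]
      have h5 : g.symm (bk g i (fw g m x)) = bk g (i + 1) (fw g m x) := (bk_succ' _ _ _).symm
      have h6 := hrc h2
      rw [h3, h5] at h6
      have h7 := hexp (fw g (n - (i + 1)) x) (horb _) (bk g (i + 1) (fw g m x)) h6
      have h8 : g (fw g (n - (i + 1)) x) = fw g (n - i) x := by
        rw [← h3, Homeomorph.apply_symm_apply]
      have h9 : g (bk g (i + 1) (fw g m x)) = bk g i (fw g m x) := by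
        rw [← h5, Homeomorph.apply_symm_apply]
      rw [← hg, h8, h9] at h7
      calc dist (fw g (n - (i + 1)) x) (bk g (i + 1) (fw g m x))
          ≤ (1 / 2) * dist (fw g (n - i) x) (bk g i (fw g m x)) := by linarith
        _ ≤ (1 / 2) * ((1 / 2) ^ i * dist (fw g m x) (fw g n x)) :=
            mul_le_mul_of_nonneg_left h1 (by norm_num)
        _ = (1 / 2) ^ (i + 1) * dist (fw g m x) (fw g n x) := by ring
  have h10 := hback n le_rfl
  rw [Nat.sub_self, fw_zero] at h10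
  set y := bk g n (fw g m x) with hy
  have hxy : dist x y < ε := by
    refine lt_of_le_of_lt h10 ?_
    have h11 : ((1 : ℝ) / 2) ^ n ≤ (1 / 2) ^ n1 :=
      pow_le_pow_of_le_one (by norm_num) (by norm_num) hn
    calc (1 / 2 : ℝ) ^ n * dist (fw g m x) (fw g n x) ≤ (1 / 2) ^ n1 * r :=
          mul_le_mul h11 hd.le dist_nonneg (by positivity)
      _ < ε / r * r := mul_lt_mul_of_pos_right hn1 hr
      _ = ε := by field_simp
  have hyx : fw g (n - m) y = x := by
    have h12 : fw g n y = fw g m x := fw_bk n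
    have h13 : fw g n y = fw g m (fw g (n - m) y) := by
      have h14 : n = m + (n - m) := by omega
      conv_lhs => rw [h14]
      exact fw_add m (n - m)
    rw [h12] at h13
    have h15 := congrArg (bk g m) h13
    rw [bk_fw, bk_fw] at h15
    exact h15.symm
  have h16 := hw ((n - m) * k) (Nat.mul_pos (by omega) hk) y hxy
  rw [← hgf, hyx, dist_self] at h16
  exact absurd h16 (not_le.2 hε)

/-- the basin is backward invariant -/
theorem N12_bas {Λ : Set K} {x : K} (hx : x ∈ S.Bas Λ) (n : ℕ) : bk S.f n x ∈ S.Bas Λ := by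
  have hx' : Tendsto (fun i => infDist (fw S.f i x) Λ) atTop (𝓝 0) := hx
  change Tendsto (fun i => infDist (fw S.f i (bk S.f n x)) Λ) atTop (𝓝 0)
  rw [← tendsto_add_atTop_iff_nat n]
  have h1 : ∀ i, fw S.f (i + n) (bk S.f n x) = fw S.f i x := by
    intro i
    rw [fw_add, fw_bk]
  simp_rw [h1]
  exact hx'

/-- N12 -/
theorem trans_closure {ε : ℝ} (hε : 0 < ε) (hSS : S.SSε ε) {Λ : Set K}
    (hΛ : Λ ⊆ S.Oj 1) (hne : Λ.Nonempty) (hc : IsClosed Λ) (hi : ∀ x, S.f x ∈ Λ ↔ x ∈ Λ) :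
    ∀ x ∈ closure (S.Bas Λ), S.T x ≤ S.Es x ⊔ S.Eu x := by
  intro x hx
  have hbk : ∀ n, bk S.f n x ∈ closure (S.Bas Λ) := fun n =>
    map_mem_closure (continuous_bk n) hx (fun y hy => S.N12_bas hy n)
  obtain ⟨y, hy⟩ : ∃ y, MapClusterPt y atTop (fun n : ℕ => bk S.f n x) :=
    exists_clusterPt_of_compactSpace _
  have hyC : y ∈ closure (S.Bas Λ) := by
    have h1 : ClusterPt y (𝓟 (closure (S.Bas Λ))) :=
      ClusterPt.mono hy (by
        rw [le_principal_iff]
        exact Filter.mem_map.2 (Filter.Eventually.of_forall hbk))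
    exact isClosed_iff_clusterPt.1 isClosed_closure y h1
  have hyO : y ∈ S.Om := S.Om_bk x y hy
  have h1 : finrank ℝ (S.Es y) ≤ 1 := S.P2 hε hSS hΛ hne hc hyC
  have h2 := S.Om_dim hyO
  have h3 := S.dim_bk hy
  have h4 : finrank ℝ (S.Es x) ≤ 1 := S.P2 hε hSS hΛ hne hc hx
  have h5 : finrank ℝ (S.Eu x) ≤ d :=
    (Submodule.finrank_mono (S.toCoc.Eu_le x)).trans (S.rankP x).le
  by_cases h6 : finrank ℝ (S.Eu x) = d
  · have h7 : S.Eu x = S.T x :=
      Submodule.eq_of_le_of_finrank_eq (S.toCoc.Eu_le x) (by rw [h6, S.rankP x])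
    rw [← h7]
    exact le_sup_right
  · have h8 : finrank ℝ (S.Eu x) + 1 = d := by omega
    rcases Nat.lt_or_ge (finrank ℝ (S.Es x)) 1 with h9 | h9
    · have h10 : finrank ℝ (S.Es x) = 0 := by omega
      exact (S.split x (S.es_zero h10)).1.ge
    · exact S.P3 hε hSS (by omega) h8

end BSys

end Pool.MP85
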