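import Pool.Agent.Lib.MP_85e637_an.E08
import Pool.Agent.Lib.MP_85e637_an.N12
import Pool.Agent.Lib.MP_85e637_an.M2

/-!
# E09: orientability of codimension-one attractors of `C¹` structurally stable Axiom A
diffeomorphisms
-/

open scoped Manifold ContDiff Topology Bundle
open Filter Set Metric Module

noncomputable section

namespace Pool.MP85

section Main
variable {d : ℕ} {M : Type} [MetricSpace M] [CompactSpace M]
  [ChartedSpace (EuclideanSpace ℝ (Fin d)) M] [IsManifold (𝓡 d) ∞ M]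
variable [Bundle.RiemannianBundle (fun x : M => TangentSpace (𝓡 d) x)]
  [IsContinuousRiemannianBundle (EuclideanSpace ℝ (Fin d)) (fun x : M => TangentSpace (𝓡 d) x)]

/-- strong transversality on the closure of the basin of a codimension one basic set -/
theorem ss_trans (f : M ≃ₘ^1⟮𝓡 d, 𝓡 d⟯ M) (hA : AxiomA f) (hSS : Def.StructStable f) {Λ : Set M}
    (hΛ : IsBasicSet f Λ) (hc : ∀ x ∈ Λ, finrank ℝ (Es d f.symm x) + 1 = d) :
    ∀ x ∈ closure {x | Tendsto (fun n => infDist (f^[n] x) Λ) atTop (𝓝 0)},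
      Es d f x ⊔ Es d f.symm x = ⊤ := by
  obtain ⟨N, e, K, iK1, iK2, S, h, he, hemb, hinj, hSe, hSf, hSA, hEs, hEu, hfEu, hfEs, hTr,
    hOm, hP, hT1, hTr'⟩ := exists_bsys2 f hA
  obtain ⟨ε, hε, hSSε⟩ := ss_bridge f hSS he hemb hinj h S.toESys hSe hP hSf hSA
  have hinv : ∀ x, f x ∈ Λ ↔ x ∈ Λ := by
    intro x
    constructor
    · intro hx
      rw [← hΛ.inv] at hx
      obtain ⟨y, hy, hyx⟩ := hx
      have : y = x := f.injective hyx
      rwa [← this]
    · intro hx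
      rw [← hΛ.inv]
      exact ⟨x, hx, rfl⟩
  have hfw0 : ∀ n x, fw S.f n (h x) = h (f^[n] x) := e08_fw_semiconj hSf
  have h1 : h '' Λ ⊆ S.Oj 1 := by
    rintro k ⟨x, hx, rfl⟩
    have hOx : h x ∈ S.Om := by rw [hOm]; exact ⟨x, hΛ.sub hx, rfl⟩
    refine ⟨hOx, ?_⟩
    have h2 := S.Om_dim hOx
    have h3 := hc x hx
    rw [hfEu] at h3
    omega
  intro x hx
  refine hTr' x ?_
  refine S.trans_closure hε hSSε h1 (hΛ.nonempty.image h) (h.isClosedMap _ hΛ.closed) ?_ (h x) ?_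
  · intro k
    obtain ⟨y, rfl⟩ := h.surjective k
    rw [hSf, h.injective.mem_set_image, h.injective.mem_set_image, hinv]
  · have h2 : h '' closure {x | Tendsto (fun n => infDist (f^[n] x) Λ) atTop (𝓝 0)} ⊆
        closure (h '' {x | Tendsto (fun n => infDist (f^[n] x) Λ) atTop (𝓝 0)}) :=
      image_closure_subset_closure_image h.continuous
    refine closure_mono ?_ (h2 ⟨x, hx, rfl⟩)
    rintro k ⟨y, hy, rfl⟩
    have h3 := e08_infDist h hΛ.nonempty (u := fun n => f^[n] y) hy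
    simp only [← hfw0] at h3
    exact h3

/-- E09 -/
theorem main_thm_SS (hd : 4 ≤ d) (f : M ≃ₘ^1⟮𝓡 d, 𝓡 d⟯ M) (hA : AxiomA f)
    (hSS : Def.StructStable f) {Λ : Set M}
    (hΛ : IsBasicSet f Λ) (ha : IsAttractor f Λ)
    (hc : ∀ x ∈ Λ, finrank ℝ (Es d f.symm x) + 1 = d) : Orientable f Λ :=
  main_thm_R hd f hA (ss_trans f hA hSS hΛ hc) hΛ ha hc

end Main

end Pool.MP85
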