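import Pool.Agent.Lib.MP_85e637_an.S2Defs
import Pool.Agent.Lib.MP_85e637_an.C10

/-!
# F3: mean value inequality on `K` for the difference of two systems
-/

open Filter Topology Set Metric Module

namespace Pool.MP85
variable {d N : ℕ} {K : Type} [MetricSpace K] [CompactSpace K]

namespace ESys

/-- nearby points are joined by short Lipschitz curves -/
theorem F3_curve (S : ESys d N K) : ∃ ρ > 0, ∀ y y', dist y y' < ρ → ∃ c : ℝ → K,
    c 0 = y ∧ c 1 = y' ∧ ∀ s ∈ Icc (0:ℝ) 1, ∀ t ∈ Icc (0:ℝ) 1,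
      dist (c s) (c t) ≤ 2 * |s - t| * dist y y' := by
  obtain ⟨ρ, hρ, h1, h2⟩ := S.chart (1 / 2) (by norm_num) (by norm_num)
  refine ⟨ρ / 4, by positivity, fun y y' hyy => ?_⟩
  set v : EE N := S.P y (S.e y' - S.e y) with hv
  have hvT : v ∈ S.T y := ⟨_, rfl⟩
  have hyρ : dist y y < ρ := by rw [dist_self]; exact hρ
  have hyρ' : dist y y' < ρ := by linarith
  have hvn : ‖v‖ ≤ dist y y' := by
    have := (h1 y y' y hyρ' hyρ).2
    rwa [dist_comm y' y] at this
  have hex : ∀ t : ℝ, ∃ z : K, t ∈ Icc (0:ℝ) 1 → S.P y (S.e z - S.e y) = t • v ∧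
      dist y z < ρ / 2 ∧ ∀ y'', dist y y'' < ρ → S.P y (S.e y'' - S.e y) = t • v → y'' = z := by
    intro t
    by_cases ht : t ∈ Icc (0:ℝ) 1
    · have hn : ‖t • v‖ ≤ dist y y' := by
        rw [norm_smul, Real.norm_eq_abs, abs_of_nonneg ht.1]
        calc t * ‖v‖ ≤ 1 * ‖v‖ := mul_le_mul_of_nonneg_right ht.2 (norm_nonneg _)
          _ = ‖v‖ := one_mul _
          _ ≤ _ := hvn
      obtain ⟨z, hz1, hz2, hz3⟩ := h2 y (t • v) ((S.T y).smul_mem t hvT) (by linarith)
      exact ⟨z, fun _ => ⟨hz1, by linarith, hz3⟩⟩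
    · exact ⟨y, fun h => absurd h ht⟩
  choose c hc using hex
  refine ⟨c, ?_, ?_, ?_⟩
  · have := (hc 0 ⟨le_rfl, zero_le_one⟩).2.2 y hyρ (by simp)
    exact this.symm
  · have := (hc 1 ⟨zero_le_one, le_rfl⟩).2.2 y' hyρ' (by rw [one_smul])
    exact this.symm
  · intro s hs t ht
    obtain ⟨a1, a2, -⟩ := hc s hs
    obtain ⟨b1, b2, -⟩ := hc t ht
    have h3 := (h1 y (c s) (c t) (by linarith) (by linarith)).1
    have h4 : S.P y (S.e (c s) - S.e (c t)) = (s - t) • v := by
      have : S.e (c s) - S.e (c t) = (S.e (c s) - S.e y) - (S.e (c t) - S.e y) := by abel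
      rw [this, map_sub, a1, b1, sub_smul]
    rw [h4, norm_smul, Real.norm_eq_abs] at h3
    have h5 : |s - t| * ‖v‖ ≤ |s - t| * dist y y' := mul_le_mul_of_nonneg_left hvn (abs_nonneg _)
    linarith

/-- chaining: a function with small increments on `[0,1]` -/
theorem F3_chain {g : ℝ → EE N} {δ C : ℝ} (hδ : 0 < δ)
    (h : ∀ s ∈ Icc (0:ℝ) 1, ∀ t ∈ Icc (0:ℝ) 1, |s - t| < δ → ‖g s - g t‖ ≤ C * |s - t|) :
    ‖g 1 - g 0‖ ≤ C := by
  obtain ⟨n, hn⟩ := exists_nat_one_div_lt hδ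
  set M : ℝ := (n : ℝ) + 1 with hM
  have hMpos : 0 < M := by positivity
  have hsum : ∑ i ∈ Finset.range (n + 1), (g (((i + 1 : ℕ) : ℝ) / M) - g ((i : ℝ) / M)) =
      g 1 - g 0 := by
    rw [Finset.sum_range_sub (fun i : ℕ => g ((i : ℝ) / M)) (n + 1)]
    have e1 : ((n + 1 : ℕ) : ℝ) / M = 1 := by
      rw [hM]; push_cast; exact div_self (by positivity)
    rw [e1]; simp
  rw [← hsum]
  refine (norm_sum_le _ _).trans ?_
  have hterm : ∀ i ∈ Finset.range (n + 1),
      ‖g (((i + 1 : ℕ) : ℝ) / M) - g ((i : ℝ) / M)‖ ≤ C * (1 / M) := by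
    intro i hi
    have hi' : (i : ℝ) + 1 ≤ M := by
      have : i + 1 ≤ n + 1 := by
        have := Finset.mem_range.1 hi
        omega
      rw [hM]; exact_mod_cast this
    have e2 : |((i + 1 : ℕ) : ℝ) / M - (i : ℝ) / M| = 1 / M := by
      have : ((i + 1 : ℕ) : ℝ) / M - (i : ℝ) / M = 1 / M := by push_cast; ring
      rw [this, abs_of_pos (by positivity)]
    have := h (((i + 1 : ℕ) : ℝ) / M) ⟨by positivity, by
        rw [div_le_one hMpos]; push_cast; exact hi'⟩ ((i : ℝ) / M) ⟨by positivity, by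
        rw [div_le_one hMpos]; linarith⟩ (by rw [e2]; exact hn)
    rwa [e2] at this
  refine (Finset.sum_le_sum hterm).trans ?_
  rw [Finset.sum_const, Finset.card_range, nsmul_eq_mul]
  have : ((n + 1 : ℕ) : ℝ) * (C * (1 / M)) = C := by
    rw [hM]; push_cast; field_simp
  rw [this]

/-- F3: mean value inequality on `K` for the difference of two systems -/
theorem mean (S : ESys d N K) : ∃ ρ > 0, ∀ S1 S2 : ESys d N K, S.Same S1 → S.Same S2 →
    ∀ ε, (∀ x, ‖S1.A x - S2.A x‖ ≤ ε) → ∀ y y', dist y y' < ρ →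
      ‖(S.e (S1.f y) - S.e (S1.f y')) - (S.e (S2.f y) - S.e (S2.f y'))‖ ≤ 2 * ε * dist y y' := by
  obtain ⟨ρ, hρ, hcurve⟩ := S.F3_curve
  refine ⟨ρ, hρ, fun S1 S2 hs1 hs2 ε hε y y' hyy => ?_⟩
  obtain ⟨c, c0, c1, hc⟩ := hcurve y y' hyy
  set D := dist y y' with hD
  have hD0 : 0 ≤ D := dist_nonneg
  have hε0 : 0 ≤ ε := (norm_nonneg _).trans (hε y)
  have key : ∀ η > 0, ‖(S.e (S1.f y) - S.e (S1.f y')) - (S.e (S2.f y) - S.e (S2.f y'))‖ ≤
      (ε + 2 * η) * (2 * D) := by
    intro η hη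
    obtain ⟨ρ1, hρ1, hd1⟩ := S1.diff η hη
    obtain ⟨ρ2, hρ2, hd2⟩ := S2.diff η hη
    rw [hs1.e] at hd1
    rw [hs2.e] at hd2
    set g : ℝ → EE N := fun t => S.e (S1.f (c t)) - S.e (S2.f (c t)) with hg
    set δ : ℝ := min ρ1 ρ2 / (2 * D + 1) with hδ
    have hmin : 0 < min ρ1 ρ2 := lt_min hρ1 hρ2
    have hδpos : 0 < δ := by positivity
    have hmain : ‖g 1 - g 0‖ ≤ (ε + 2 * η) * (2 * D) := by
      refine F3_chain hδpos ?_
      intro s hs t ht hst
      have hcd := hc s hs t ht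
      have hcd' : dist (c t) (c s) ≤ 2 * |s - t| * D := by rw [dist_comm]; exact hcd
      have hsmall : dist (c t) (c s) < min ρ1 ρ2 := by
        have h6 : |s - t| * (2 * D + 1) < min ρ1 ρ2 := by
          rw [hδ, lt_div_iff₀ (by positivity)] at hst
          exact hst
        have h7 : 2 * |s - t| * D ≤ |s - t| * (2 * D + 1) := by
          have := abs_nonneg (s - t)
          nlinarith
        linarith
      have h8 := hd1 (c t) (c s) (c t) (lt_of_lt_of_le hsmall (min_le_left _ _))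
        (by rw [dist_self]; exact hρ1)
      have h9 := hd2 (c t) (c s) (c t) (lt_of_lt_of_le hsmall (min_le_right _ _))
        (by rw [dist_self]; exact hρ2)
      have h10 : ‖(S1.A (c t) - S2.A (c t)) (S.e (c s) - S.e (c t))‖ ≤ ε * dist (c s) (c t) := by
        refine ((S1.A (c t) - S2.A (c t)).le_opNorm _).trans ?_
        rw [S.e_isom]
        exact mul_le_mul_of_nonneg_right (hε _) dist_nonneg
      have e1 : g s - g t =
          ((S.e (S1.f (c s)) - S.e (S1.f (c t))) - S1.A (c t) (S.e (c s) - S.e (c t))) -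
          ((S.e (S2.f (c s)) - S.e (S2.f (c t))) - S2.A (c t) (S.e (c s) - S.e (c t))) +
          (S1.A (c t) - S2.A (c t)) (S.e (c s) - S.e (c t)) := by
        rw [hg, _root_.sub_apply]; simp only []; abel
      calc ‖g s - g t‖ ≤ η * dist (c s) (c t) + η * dist (c s) (c t) + ε * dist (c s) (c t) := by
            rw [e1]
            refine (norm_add_le _ _).trans (add_le_add ?_ h10)
            exact (norm_sub_le _ _).trans (add_le_add h8 h9)
        _ = (ε + 2 * η) * dist (c s) (c t) := by ring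
        _ ≤ (ε + 2 * η) * (2 * |s - t| * D) := mul_le_mul_of_nonneg_left hcd (by positivity)
        _ = (ε + 2 * η) * (2 * D) * |s - t| := by ring
    have e2 : (S.e (S1.f y) - S.e (S1.f y')) - (S.e (S2.f y) - S.e (S2.f y')) =
        -(g 1 - g 0) := by
      simp only [hg, c0, c1]; abel
    rw [e2, norm_neg]
    exact hmain
  have h11 : ‖(S.e (S1.f y) - S.e (S1.f y')) - (S.e (S2.f y) - S.e (S2.f y'))‖ ≤
      ε * (2 * D) := by
    refine le_of_forall_pos_le_add fun a ha => ?_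
    have := key (a / (4 * D + 1)) (by positivity)
    have h12 : (ε + 2 * (a / (4 * D + 1))) * (2 * D) ≤ ε * (2 * D) + a := by
      have h13 : 2 * (a / (4 * D + 1)) * (2 * D) ≤ a := by
        have : 2 * (a / (4 * D + 1)) * (2 * D) = a * (4 * D) / (4 * D + 1) := by ring
        rw [this, div_le_iff₀ (by positivity)]
        nlinarith
      nlinarith
    linarith
  calc _ ≤ ε * (2 * D) := h11
    _ = 2 * ε * D := by ring

end ESys
end Pool.MP85
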