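import Pool.Agent.Lib.MP_85e637_an.S2Defs

/-! # F6c: fixed points of the iterate do not change -/

open Filter Topology Set Metric Module

namespace Pool.MP85
variable {d N : ℕ} {K : Type} [MetricSpace K] [CompactSpace K]

theorem F6c_cont (F : K ≃ₜ K) (k : ℕ) : Continuous (fw F k) := F.continuous.iterate k

/-- iterates of nearby systems are close -/
theorem F6c_close (S : ESys d N K) (k : ℕ) : ∀ c > 0, ∃ ε > 0, ∀ S', S.Near S' ε → ∀ x,
    dist (fw S.f k x) (fw S'.f k x) < c := by
  induction k with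
  | zero => exact fun c hc => ⟨1, one_pos, fun S' _ x => by simpa [fw_zero] using hc⟩
  | succ k ih =>
    intro c hc
    have hu : UniformContinuous S.f := CompactSpace.uniformContinuous_of_continuous S.f.continuous
    obtain ⟨δ, hδ, hd⟩ := Metric.uniformContinuous_iff.1 hu (c / 2) (half_pos hc)
    obtain ⟨ε, hε, he⟩ := ih δ hδ
    refine ⟨min ε (c / 2), lt_min hε (half_pos hc), fun S' hS' x => ?_⟩
    have hS1 : S.Near S' ε := ⟨hS'.same, fun x => (hS'.f x).trans_le (min_le_left _ _),
      fun x => (hS'.f' x).trans_le (min_le_left _ _), fun x => (hS'.A x).trans_le (min_le_left _ _),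
      fun x => (hS'.A' x).trans_le (min_le_left _ _)⟩
    rw [fw_succ', fw_succ']
    calc dist (S.f (fw S.f k x)) (S'.f (fw S'.f k x))
        ≤ dist (S.f (fw S.f k x)) (S.f (fw S'.f k x))
          + dist (S.f (fw S'.f k x)) (S'.f (fw S'.f k x)) := dist_triangle _ _ _
      _ < c / 2 + c / 2 := add_lt_add (hd (he S' hS1 x))
          ((hS'.f _).trans_le (min_le_right _ _))
      _ = c := by ring

/-- F6c -/
theorem ESys.fix_eq (S : ESys d N K) {k : ℕ} {W : Set K}
    (hW : W ∈ 𝓝ˢ {x | fw S.f k x = x}) : ∃ ε > 0, ∀ S', S.Near S' ε → EqOn S'.f S.f W →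
      ∀ x, fw S'.f k x = x ↔ fw S.f k x = x := by
  have hsub : {x | fw S.f k x = x} ⊆ interior W := subset_interior_iff_mem_nhdsSet.2 hW
  have hinv : ∀ j x, fw S.f k x = x → fw S.f k (fw S.f j x) = fw S.f j x := by
    intro j x hx
    have h1 : fw S.f k (fw S.f j x) = fw S.f j (fw S.f k x) := by
      simp only [fw]
      rw [← Function.iterate_add_apply, ← Function.iterate_add_apply, add_comm]
    rw [h1, hx]
  set U : Set K := ⋂ j ∈ Finset.range (k + 1), (fw S.f j) ⁻¹' (interior W) with hU
  have hUo : IsOpen U := isOpen_biInter_finset fun j _ =>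
    isOpen_interior.preimage (F6c_cont S.f j)
  have hUW : ∀ x ∈ U, ∀ j ≤ k, fw S.f j x ∈ W := by
    intro x hx j hj
    exact interior_subset (mem_iInter₂.1 hx j (Finset.mem_range.2 (by omega)))
  have hFU : {x | fw S.f k x = x} ⊆ U := by
    intro x hx
    exact mem_iInter₂.2 fun j _ => hsub (hinv j x hx)
  have hcomp : IsCompact Uᶜ := hUo.isClosed_compl.isCompact
  -- lower bound away from `U`
  obtain ⟨c, hc, hcU⟩ : ∃ c > 0, ∀ x ∈ Uᶜ, c ≤ dist (fw S.f k x) x := by
    rcases (Uᶜ).eq_empty_or_nonempty with h0 | h0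
    · exact ⟨1, one_pos, fun x hx => by rw [h0] at hx; exact hx.elim⟩
    · have hcf : ContinuousOn (fun x => dist (fw S.f k x) x) Uᶜ :=
        ((F6c_cont S.f k).dist continuous_id).continuousOn
      obtain ⟨x0, hx0, hmin⟩ := hcomp.exists_isMinOn h0 hcf
      refine ⟨dist (fw S.f k x0) x0, dist_pos.2 fun h => hx0 (hFU h), fun x hx => hmin hx⟩
  obtain ⟨ε, hε, he⟩ := F6c_close S k c hc
  refine ⟨ε, hε, fun S' hS' hE x => ?_⟩
  by_cases hx : x ∈ U
  · have key : ∀ j ≤ k, fw S'.f j x = fw S.f j x := by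
      intro j
      induction j with
      | zero => intro _; rfl
      | succ j ih =>
        intro hj
        rw [fw_succ', fw_succ', ih (by omega), hE (hUW x hx j (by omega))]
    rw [key k le_rfl]
  · have h1 := hcU x hx
    have h2 := he S' hS' x
    refine ⟨fun h => ?_, fun h => ?_⟩
    · rw [h] at h2
      exact absurd h1 (not_le.2 h2)
    · rw [h, dist_self] at h1
      exact absurd h1 (not_le.2 hc)

end Pool.MP85
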