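import Pool.Agent.Lib.MP_85e637_an.A01
import Pool.Agent.Lib.MP_85e637_an.N0

/-!
# N9: an exit point
-/

open Filter Topology Set Metric Module

namespace Pool.MP85
variable {d N : ℕ} {K : Type} [MetricSpace K] [CompactSpace K]

lemma N9_mem_closed {X ι : Type*} [TopologicalSpace X] {l : Filter ι} {u : ι → X}
    {z : X} {s : Set X} (hs : IsClosed s) (hz : MapClusterPt z l u) (h : ∀ᶠ i in l, u i ∈ s) :
    z ∈ s := by
  rw [← hs.closure_eq, mem_closure_iff_clusterPt]
  have h1 : ClusterPt z (map u l) := hz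
  exact h1.mono (le_principal_iff.2 (mem_map.2 h))

/-- N9: an exit point -/
theorem BSys.exit_pt (S : BSys d N K) {Λ : Set K} (hΛ : Λ ⊆ S.Oj 1)
    (hne : Λ.Nonempty) (hc : IsClosed Λ) {x : K} (hx : x ∈ closure (S.Bas Λ))
    (h2 : 2 ≤ finrank ℝ (S.Es x)) :
    ∃ z ∈ closure (S.Bas Λ), z ∉ S.Om ∧ finrank ℝ (S.Eu z) + 2 ≤ d := by
  classical
  set Bad : Set K := ⋃ j ∈ Finset.Icc 2 d, S.Oj j with hBad
  set Good : Set K := S.Oj 0 ∪ S.Oj 1 with hGood
  have hBadc : IsClosed Bad := by
    rw [hBad]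
    exact (Finset.Icc 2 d).finite_toSet.isClosed_biUnion fun j _ => S.Oj_closed j
  have hGoodc : IsClosed Good := (S.Oj_closed 0).union (S.Oj_closed 1)
  have mem_bad : ∀ y, y ∈ Bad ↔ y ∈ S.Om ∧ 2 ≤ finrank ℝ (S.Es y) := by
    intro y
    rw [hBad]
    simp only [mem_iUnion, Finset.mem_Icc]
    constructor
    · rintro ⟨j, ⟨hj, _⟩, hy, hyj⟩
      exact ⟨hy, by omega⟩
    · rintro ⟨hy, hj⟩
      have := S.Om_dim hy
      exact ⟨finrank ℝ (S.Es y), ⟨hj, by omega⟩, hy, rfl⟩
  have mem_good : ∀ y, y ∈ Good ↔ y ∈ S.Om ∧ finrank ℝ (S.Es y) ≤ 1 := by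
    intro y
    constructor
    · rintro (⟨hy, h⟩ | ⟨hy, h⟩)
      · exact ⟨hy, by omega⟩
      · exact ⟨hy, by omega⟩
    · rintro ⟨hy, h⟩
      have h3 : finrank ℝ (S.Es y) = 0 ∨ finrank ℝ (S.Es y) = 1 := by omega
      rcases h3 with h3 | h3
      · exact Or.inl ⟨hy, h3⟩
      · exact Or.inr ⟨hy, h3⟩
  have hdisj : Disjoint Good Bad := by
    rw [Set.disjoint_left]
    intro y hy1 hy2
    have h3 := ((mem_good y).1 hy1).2
    have h4 := ((mem_bad y).1 hy2).2
    omega
  -- the limit set of `x` is bad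
  have hxcl : ∀ y, MapClusterPt y atTop (fun n : ℕ => fw S.f n x) → y ∈ Bad := by
    intro y hy
    refine (mem_bad y).2 ⟨S.Om_fw x y hy, ?_⟩
    rw [← S.dim_fw hy]
    exact h2
  have hBadne : Bad.Nonempty := by
    obtain ⟨y, -, hy⟩ := isCompact_univ.exists_mapClusterPt_of_frequently (l := atTop)
      (f := fun n : ℕ => fw S.f n x) (Filter.Eventually.of_forall fun _ => mem_univ _).frequently
    exact ⟨y, hxcl y hy⟩
  -- separation
  obtain ⟨δ, hδ, hsep⟩ : ∃ δ > 0, ∀ y ∈ Good, 2 * δ ≤ infDist y Bad := by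
    have hcont : Continuous fun y : K => infDist y Bad := continuous_infDist_pt Bad
    rcases Good.eq_empty_or_nonempty with h0 | h0
    · exact ⟨1, one_pos, fun y hy => by rw [h0] at hy; exact absurd hy (notMem_empty y)⟩
    · obtain ⟨g, hg, hmin⟩ := hGoodc.isCompact.exists_isMinOn h0 hcont.continuousOn
      have hpos : 0 < infDist g Bad := by
        rw [← hBadc.notMem_iff_infDist_pos hBadne]
        exact Set.disjoint_left.1 hdisj hg
      refine ⟨infDist g Bad / 2, by linarith, fun y hy => ?_⟩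
      have := hmin hy
      have this' : infDist g Bad ≤ infDist y Bad := this
      linarith
  set U : Set K := {y | infDist y Bad < δ} with hU
  have hUo : IsOpen U := isOpen_lt (continuous_infDist_pt Bad) continuous_const
  set Nc : Set K := {y | infDist y Bad ≤ δ} with hNc
  have hNcc : IsClosed Nc := isClosed_le (continuous_infDist_pt Bad) continuous_const
  have hBadU : Bad ⊆ U := by
    intro y hy
    show infDist y Bad < δ
    rw [infDist_zero_of_mem hy]
    exact hδ
  have hGoodN : ∀ y ∈ Good, y ∉ Nc := by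
    intro y hy hy'
    have h3 := hsep y hy
    have h4 : infDist y Bad ≤ δ := hy'
    linarith
  -- step 1
  obtain ⟨a, ha⟩ : ∃ a, ∀ n ≥ a, fw S.f n x ∈ U := by
    have : ∀ᶠ n : ℕ in atTop, fw S.f n x ∈ U := by
      by_contra hcon
      rw [Filter.not_eventually] at hcon
      obtain ⟨y, hyU, hy⟩ := (hUo.isClosed_compl.isCompact).exists_mapClusterPt_of_frequently
        (f := fun n : ℕ => fw S.f n x) hcon
      exact hyU (hBadU (hxcl y hy))
    exact eventually_atTop.1 this
  -- step 2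
  obtain ⟨xs, hxs, hxlim⟩ := mem_closure_iff_seq_limit.1 hx
  have hnear : ∀ y, infDist y Λ < δ → y ∉ U := by
    intro y hy hyU
    obtain ⟨g, hg, hgy⟩ := (infDist_lt_iff hne).1 hy
    have h3 := hsep g (Or.inr (hΛ hg))
    have h4 : infDist g Bad ≤ dist g y + infDist y Bad := by
      rw [add_comm]
      exact infDist_le_infDist_add_dist
    have h5 : infDist y Bad < δ := hyU
    rw [dist_comm] at hgy
    linarith
  have hexit : ∀ i, ∃ n, a ≤ n ∧ fw S.f n (xs i) ∉ U := by
    intro i
    have h3 : Tendsto (fun n => infDist (fw S.f n (xs i)) Λ) atTop (𝓝 0) := hxs i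
    have h4 : ∀ᶠ n : ℕ in atTop, infDist (fw S.f n (xs i)) Λ < δ := h3.eventually_lt_const hδ
    obtain ⟨n, hn1, hn2⟩ := (h4.and (eventually_ge_atTop a)).exists
    exact ⟨n, hn2, hnear _ hn1⟩
  set b : ℕ → ℕ := fun i => Nat.find (hexit i) with hb
  have hb1 : ∀ i, a ≤ b i := fun i => (Nat.find_spec (hexit i)).1
  have hb2 : ∀ i, fw S.f (b i) (xs i) ∉ U := fun i => (Nat.find_spec (hexit i)).2
  have hb3 : ∀ i n, a ≤ n → n < b i → fw S.f n (xs i) ∈ U := by
    intro i n hn hnb
    by_contra hcon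
    exact Nat.find_min (hexit i) hnb ⟨hn, hcon⟩
  have hb4 : Tendsto b atTop atTop := by
    rw [Filter.tendsto_atTop]
    intro M
    have h3 : ∀ n ∈ Finset.range M, ∀ᶠ i in atTop, a ≤ n → fw S.f n (xs i) ∈ U := by
      intro n _
      by_cases hn : a ≤ n
      · have h4 : Tendsto (fun i => fw S.f n (xs i)) atTop (𝓝 (fw S.f n x)) :=
          ((continuous_fw (F := S.f) n).tendsto x).comp hxlim
        filter_upwards [h4 (hUo.mem_nhds (ha n hn))] with i hi _
        exact hi
      · exact Filter.Eventually.of_forall fun i h => absurd h hn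
    have h5 := (Finset.eventually_all (Finset.range M)).2 h3
    filter_upwards [h5] with i hi
    by_contra hcon
    push Not at hcon
    exact hb2 i (hi (b i) (Finset.mem_range.2 hcon) (hb1 i))
  -- step 3
  obtain ⟨z, -, hz⟩ := isCompact_univ.exists_mapClusterPt_of_frequently (l := atTop)
    (f := fun i : ℕ => fw S.f (b i) (xs i)) (Filter.Eventually.of_forall fun _ => mem_univ _).frequently
  have hBfw : ∀ n y, y ∈ S.Bas Λ → fw S.f n y ∈ S.Bas Λ := by
    intro n y hy
    have h3 : Tendsto (fun m => infDist (fw S.f m y) Λ) atTop (𝓝 0) := hy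
    have h4 := h3.comp (tendsto_add_atTop_nat n)
    refine h4.congr fun m => ?_
    show infDist (fw S.f (m + n) y) Λ = infDist (fw S.f m (fw S.f n y)) Λ
    rw [fw_add]
  have hzcl : z ∈ closure (S.Bas Λ) := by
    refine N9_mem_closed isClosed_closure hz (Filter.Eventually.of_forall fun i => ?_)
    exact subset_closure (hBfw _ _ (hxs i))
  have hzU : z ∉ U :=
    N9_mem_closed hUo.isClosed_compl hz (Filter.Eventually.of_forall hb2)
  have hzbk : ∀ m, 1 ≤ m → bk S.f m z ∈ Nc := by
    intro m hm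
    have h3 : MapClusterPt (bk S.f m z) atTop (bk S.f m ∘ fun i : ℕ => fw S.f (b i) (xs i)) :=
      hz.continuousAt_comp (continuous_bk (F := S.f) m).continuousAt
    refine N9_mem_closed hNcc h3 ?_
    filter_upwards [hb4.eventually_ge_atTop (a + m)] with i hi
    have h4 : bk S.f m (fw S.f (b i) (xs i)) = fw S.f (b i - m) (xs i) := by
      have h5 : b i = m + (b i - m) := by omega
      conv_lhs => rw [h5, fw_add, bk_fw]
    show bk S.f m (fw S.f (b i) (xs i)) ∈ Nc
    rw [h4]
    have h6 : infDist (fw S.f (b i - m) (xs i)) Bad < δ := hb3 i (b i - m) (by omega) (by omega)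
    exact h6.le
  refine ⟨z, hzcl, ?_, ?_⟩
  · intro hzOm
    have hzG : z ∈ Good := by
      rw [mem_good]
      refine ⟨hzOm, ?_⟩
      by_contra hcon
      push Not at hcon
      exact hzU (hBadU ((mem_bad z).2 ⟨hzOm, hcon⟩))
    have h3 : bk S.f 1 z ∈ Good := by
      have h4 : S.f (bk S.f 1 z) = z := by
        show S.f (S.f.symm z) = z
        exact S.f.apply_symm_apply z
      rcases hzG with h | h
      · exact Or.inl ((S.Oj_inv 0 _).1 (by rw [h4]; exact h))
      · exact Or.inr ((S.Oj_inv 1 _).1 (by rw [h4]; exact h))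
    exact hGoodN _ h3 (hzbk 1 le_rfl)
  · obtain ⟨y, -, hy⟩ := isCompact_univ.exists_mapClusterPt_of_frequently (l := atTop)
      (f := fun n : ℕ => bk S.f n z) (Filter.Eventually.of_forall fun _ => mem_univ _).frequently
    have hyOm : y ∈ S.Om := S.Om_bk z y hy
    have hyN : y ∈ Nc := by
      refine N9_mem_closed hNcc hy ?_
      filter_upwards [eventually_ge_atTop 1] with n hn
      exact hzbk n hn
    have hyes : 2 ≤ finrank ℝ (S.Es y) := by
      by_contra hcon
      push Not at hcon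
      exact hGoodN y ((mem_good y).2 ⟨hyOm, by omega⟩) hyN
    have h3 := S.Om_dim hyOm
    have h4 := S.dim_bk hy
    omega

end Pool.MP85
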